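import Pool.Agent.Lib.MP_1f047c_nt.CarLead

/-! Construction of the auxiliary polynomial. -/

namespace Pool.Agent.Lib.MP_1f047c_nt.Car

open Polynomial Module

variable {F K : Type*} [Field F]

lemma fil_pow [Field K] [Algebra F K] {V : Submodule F K} (h1 : (1 : K) ∈ V) :
    Fil fun c => (V ^ c).toAddSubgroup :=
  ⟨fun _ _ h _ hx => pow_mono' h1 h hx, fun _ _ _ _ => mul_mem_pow,
    by simp [Submodule.one_eq_span]⟩

lemma count_lt {l Q a b : ℕ} (hl : 0 < l) (hQ : 0 < Q) (hb : 0 < b)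
    (h : (a : ℝ) ≤ (1 + 1 / (2 * l)) * Q * b) : (l - 1) * a < l * (Q - Q / (2 * l)) * b := by
  have h1 : ((Q / (2 * l) : ℕ) : ℝ) ≤ Q / (2 * l) := by
    simpa using Nat.cast_div_le (α := ℝ) (m := Q) (n := 2 * l)
  have h2 : (1 : ℝ) ≤ l := by exact_mod_cast hl
  have h3 : (0 : ℝ) < Q * b := by positivity
  rw [← Nat.cast_lt (α := ℝ), Nat.cast_mul, Nat.cast_mul, Nat.cast_mul, Nat.cast_pred hl,
    Nat.cast_sub (Nat.div_le_self Q (2 * l))]
  calc ((l : ℝ) - 1) * a ≤ (l - 1) * ((1 + 1 / (2 * l)) * Q * b) := by gcongr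
    _ = (l - 1 / 2 - 1 / (2 * l)) * (Q * b) := by field_simp; ring
    _ < (l - 1 / 2) * (Q * b) :=
        mul_lt_mul_of_pos_right (sub_lt_self _ (by positivity)) h3
    _ = l * (Q - Q / (2 * l)) * b := by field_simp
    _ ≤ _ := by gcongr

theorem aux_poly [Fintype F] [NormedField K] [CompleteSpace K] [Algebra F K] [Infinite K] {ι : Type*}
    [Fintype ι] {V : Submodule F K} (h1 : (1 : K) ∈ V) (hV : V.FG) {C : ℕ}
    (hC : ∀ n, finrank F ↥(V ^ n) ≤ C * (n + 1)) {φ : K →+* K}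
    (hφ : ∀ x, φ x = x ^ Fintype.card F) {θ w : K} {b : ι → K} (hθ : θ ∈ V) (hw : w ∈ V)
    (hb : ∀ i, b i ∈ V) {ρ : ℝ} (hρ : 0 < ρ) (hb1 : ∀ i, ‖b i‖ < 1)
    (hθw : ∀ s, ρ ≤ ‖θ - φ^[s] w‖) {D : ℕ} {P : Mon ι D → K} (hP0 : P ≠ 0) (hP : ∀ μ, P μ ∈ V)
    (hrel : ∑ μ, P μ * ∏ i, ser φ w (b i) θ ^ μ.1 i = 0) :
    ∃ m, ∀ N η, φ^[N] η = θ → (∀ s, ρ ≤ ‖η - φ^[s] w‖) → ∃ f : Mon ι D → K[X], f ≠ 0 ∧
      (∀ μ, f μ ∈ polySub (V ^ m).toAddSubgroup) ∧ (∀ μ, (f μ).natDegree ≤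
        Fintype.card F ^ N - Fintype.card F ^ N / (2 * Fintype.card (Mon ι D))) ∧
      ∑ μ, (f μ).eval η * ∏ i, ser φ w (b i) η ^ μ.1 i = 0 := by
  classical
  have hq : 2 ≤ Fintype.card F := Fintype.one_lt_card
  have hfin : ∀ n, Module.Finite F ↥(V ^ n) := fun n => Module.Finite.iff_fg.2 (hV.pow n)
  have h := fil_pow h1
  have hpos : ∀ n, 0 < finrank F ↥(V ^ n) := fun n => finrank_pos_iff_exists_ne_zero.2
    ⟨⟨1, h.mono (Nat.zero_le n) h.one⟩, fun h0 => one_ne_zero (congrArg Subtype.val h0)⟩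
  have hl : 0 < Fintype.card (Mon ι D) := Fintype.card_pos_iff.2 ⟨⟨0, by simp⟩⟩
  obtain ⟨m, hm⟩ := exists_slow _ hC hpos (2 + 2 * D)
    (κ := 1 + 1 / (2 * Fintype.card (Mon ι D))) (lt_add_of_pos_right _ (by positivity))
  refine ⟨m, fun N η hη hηw => ?_⟩
  have hV1 : ∀ {x}, x ∈ V → x ∈ (V ^ 1).toAddSubgroup := fun hx => by rwa [pow_one]
  set Q := Fintype.card F ^ N with hQ
  have hNQ : N < Q := Nat.lt_pow_self hq
  have hZ : (den (fun s => φ^[s] w) N).eval θ ≠ 0 :=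
    norm_pos_iff.1 ((pow_pos hρ N).trans_le (le_norm_den hρ fun s _ => hθw s))
  obtain ⟨P', hP', hP''⟩ := shift h (r := 2 * Q) P (fun μ => hV1 (hP μ))
    (fun i => (num (fun s => φ^[s] w) (fun s => φ^[s] (b i)) N).eval θ - φ^[N] (b i)) 1
    ((den (fun s => φ^[s] w) N).eval θ)
    (fun i => sub_mem (h.mono (by omega) (h.eval (h.den_num hφ hq (hV1 hw) (hV1 (hb i)) N).2
      (natDegree_num _ _ N) (hV1 hθ))) (h.mono (by omega) (h.iter hφ (hV1 (hb i)) N)))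
    (h.mono (Nat.zero_le _) h.one)
    (h.mono (by omega) (h.eval (h.den_num hφ hq (hV1 hw) (hV1 hw) N).1
      (natDegree_den _ N).le (hV1 hθ))) (RingHom.id K)
  simp only [RingHom.id_apply, one_mul] at hP''
  obtain ⟨μ₀, hμ₀⟩ : ∃ μ₀, P' μ₀ ≠ 0 := by
    by_contra h0
    push Not at h0
    refine hP0 (mon_eq_zero fun Y => ?_)
    simpa [h0, hZ] using hP'' Y _ fun i => (add_sub_cancel _ _).symm
  have hY := hP'' _ (fun i => ser φ (φ^[N] w) (φ^[N] (b i)) θ) fun i => by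
    rw [den_mul_ser hφ hq hρ (hb1 i) hθw]
    ring
  rw [hrel, mul_zero] at hY
  set D' := Q - Q / (2 * Fintype.card (Mon ι D))
  let Φ := (FiniteField.frobeniusAlgHom F K ^ N).toLinearMap
  have hΦ : ∀ x, Φ x = φ^[N] x := fun x => by
    simp only [Φ, AlgHom.toLinearMap_apply, AlgHom.coe_pow, FiniteField.coe_frobeniusAlgHom,
      pow_iterate, iter_eq hφ]
  let T : Mon ι D → (Mon ι D × Fin D' → ↥(V ^ m)) →ₗ[F] K := fun μ =>
    ∑ d : Fin D', LinearMap.mulRight F (θ ^ (d : ℕ)) ∘ₗ Φ ∘ₗ (V ^ m).subtype ∘ₗ LinearMap.proj (μ, d)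
  have hT : ∀ μ u, T μ u = ∑ d : Fin D', φ^[N] (u (μ, d)) * θ ^ (d : ℕ) := fun μ u => by
    simp [T, hΦ]
  have hT' : ∀ μ u ν, T μ u * P' ν ∈ V ^ ((m + (2 + 2 * D)) * Q) := fun μ u ν => by
    rw [hT, Finset.sum_mul]
    refine Submodule.sum_mem _ fun d _ => h.mono ?_
      (h.mul _ _ _ _ (h.mul _ _ _ _ (h.iter hφ (u (μ, d)).2 N) (h.pow (hV1 hθ) d)) (hP' ν))
    have : (d : ℕ) ≤ Q := d.2.le.trans (Nat.sub_le _ _)
    rw [← hQ]
    nlinarith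
  obtain ⟨u, hu0, hu⟩ := siegel (ι := {μ // μ ≠ μ₀})
    (fun μ => LinearMap.mulRight F (P' μ₀) ∘ₗ T μ - LinearMap.mulRight F (P' μ) ∘ₗ T μ₀)
    (V ^ ((m + (2 + 2 * D)) * Q)) (fun μ u => sub_mem (hT' _ _ _) (hT' _ _ _)) (by
      rw [Module.finrank_pi_fintype, Finset.sum_const, Finset.card_univ, smul_eq_mul,
        Fintype.card_prod, Fintype.card_fin, Fintype.card_subtype_compl, Fintype.card_subtype_eq]
      exact count_lt hl (by omega) (hpos m) (hm Q (by omega)))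
  have hu' : ∀ μ, T μ u * P' μ₀ = T μ₀ u * P' μ := fun μ => by
    by_cases hμ : μ = μ₀
    · rw [hμ]
    · exact sub_eq_zero.1 (hu ⟨μ, hμ⟩)
  refine ⟨fun μ => ∑ d : Fin D', monomial d (u (μ, d)), fun h0 => hu0 (funext fun z => ?_),
    fun μ => sum_mem fun d _ => monomial_mem_polySub (u (μ, d)).2 _,
    fun μ => natDegree_sum_le_of_forall_le _ _ fun d _ => (natDegree_monomial_le _).trans d.2.le, ?_⟩
  · simpa [coeff_monomial, Fin.val_inj] using congrArg (fun p => p.coeff z.2) (congrFun h0 z.1)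
  · refine (map_eq_zero (φ ^ N)).1 (mul_right_cancel₀ hμ₀ ?_)
    simp only [map_sum, map_mul, map_prod, map_pow, eval_finsetSum, eval_monomial, RingHom.coe_pow,
      hη, ← hT, ser_iter hφ hq hρ (hb1 _) hηw]
    simp only [Finset.sum_mul, mul_right_comm _ _ (P' μ₀), hu']
    simp only [mul_assoc, ← Finset.mul_sum, hY, mul_zero, zero_mul]

end Pool.Agent.Lib.MP_1f047c_nt.Car
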