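import Pool.Agent.Lib.MP_1f047c_nt.CarNorm

/-! Inseparable roots of the variable over the completion. -/

namespace Pool.Agent.Lib.MP_1f047c_nt.Car

open Polynomial IntermediateField

variable {F K : Type*} [Field F] [Fintype F] [NormedField K] [IsUltrametricDist K] [Algebra F K]
  [IsAlgClosed K]

lemma le_norm_sub_pow (p : ℕ) [Fact p.Prime] [CharP F p] {v : F[X]} {θ : K} (hθ : ‖θ‖ ≤ 1)
    (hv : ‖aeval θ v‖ < 1) {y : K} (hy : y ∈ F⟮θ⟯) : ‖aeval θ v‖ ≤ ‖θ - y ^ p‖ := by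
  obtain ⟨f, g, rfl⟩ := (mem_adjoin_simple_iff F y).1 hy
  have hp : p ≠ 0 := (Fact.out : p.Prime).ne_zero
  by_cases hg : aeval θ g = 0
  · rw [hg, div_zero, zero_pow hp]
    exact le_norm_sub_alg hθ hv isAlgebraic_zero
  have h := norm_derivative_le hθ hv (X * g ^ p - f ^ p)
  have h1 : derivative (X * g ^ p - f ^ p) = g ^ p := by
    simp [derivative_pow]
  rw [h1] at h
  have h2 : θ - (aeval θ f / aeval θ g) ^ p = aeval θ (X * g ^ p - f ^ p) / aeval θ (g ^ p) := by
    simp only [map_sub, map_mul, map_pow, aeval_X, div_pow]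
    field_simp
  rw [h2, norm_div, le_div_iff₀ (norm_pos_iff.2 (by simpa [hp] using hg)), mul_comm]
  exact h

/-- The coefficients of a polynomial of small degree with separable coefficients are controlled by
its value at an inseparable root of `θ`. -/
theorem insep [CompleteSpace K] (p : ℕ) [Fact p.Prime] [CharP F p] {v : F[X]} {θ : K}
    (hθ : ‖θ‖ ≤ 1) (hv0 : aeval θ v ≠ 0) (hv : ‖aeval θ v‖ < 1) (S : Finset K)
    (hS : ∀ s ∈ S, IsSeparable F⟮θ⟯ s) :
    ∃ L : Subalgebra F K, (∀ s ∈ S, s ∈ L) ∧ θ ∈ L ∧ ∀ (n : ℕ) (η : K), η ^ p ^ n = θ →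
      ∃ C : ℝ, ∀ r : K[X], (∀ i, r.coeff i ∈ L) → r.natDegree < p ^ n →
        ∀ i, ‖r.coeff i‖ ≤ C * ‖eval η r‖ := by
  classical
  have : CharP K p := charP_of_injective_algebraMap (algebraMap F K).injective p
  let k : Subfield K := F⟮θ⟯.toSubfield.topologicalClosure
  have hk : ∀ x ∈ F⟮θ⟯, x ∈ k := fun x hx => F⟮θ⟯.toSubfield.le_topologicalClosure hx
  have hθk : θ ∈ k := hk _ (mem_adjoin_simple_self F θ)
  have hvk : aeval θ v ∈ k := hk _ ((mem_adjoin_simple_iff F _).2 ⟨v, 1, by simp⟩)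
  let _ : NontriviallyNormedField k :=
    { (inferInstance : NormedField k) with
      non_trivial := ⟨⟨_, k.inv_mem hvk⟩, by
        change 1 < ‖(aeval θ v)⁻¹‖
        rw [norm_inv]
        exact (one_lt_inv₀ (norm_pos_iff.2 hv0)).2 hv⟩ }
  have : CompleteSpace k := F⟮θ⟯.toSubfield.isClosed_topologicalClosure.completeSpace_coe
  let _ : NormedSpace k K := ⟨fun a b => (norm_mul _ _).le⟩
  let _ : Algebra F⟮θ⟯ k := (Subfield.inclusion F⟮θ⟯.toSubfield.le_topologicalClosure).toAlgebra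
  have : IsScalarTower F⟮θ⟯ k K := IsScalarTower.of_algebraMap_eq fun _ => rfl
  have hS' : ∀ s ∈ (S : Set K), IsSeparable k s := fun s hs => (hS s hs).tower_top k
  let L := adjoin k (S : Set K)
  have : FiniteDimensional k L := finiteDimensional_adjoin fun s hs => (hS' s hs).isIntegral
  have hsep : ∀ y ∈ L, IsSeparable k y := fun y hy =>
    mem_separableClosure_iff.1 ((adjoin_le_iff (T := separableClosure k K)).2 hS' hy)
  have hkL : ∀ x ∈ k, x ∈ L := fun x hx => L.algebraMap_mem ⟨x, hx⟩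
  have : CharP k p := (algebraMap k K).charP (algebraMap k K).injective p
  have : CharP L p := (algebraMap L K).charP (algebraMap L K).injective p
  have hnot : ∀ y ∈ L, y ^ p ≠ θ := by
    intro y hy hyp
    have h1 := (minpoly.natSepDegree_eq_one_iff_pow_mem (F := k) (x := y) p).2
      ⟨1, ⟨θ, hθk⟩, by rw [pow_one, hyp]; rfl⟩
    rw [(hsep y hy).natSepDegree_eq_natDegree, minpoly.natDegree_eq_one_iff] at h1
    obtain ⟨z, rfl⟩ := h1
    have h2 : IsClosed {y : K | ‖aeval θ v‖ ≤ ‖θ - y ^ p‖} :=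
      isClosed_le continuous_const (by fun_prop)
    have h3 : ‖aeval θ v‖ ≤ ‖θ - (z : K) ^ p‖ := closure_minimal (s := (F⟮θ⟯.toSubfield : Set K))
      (fun y hy => le_norm_sub_pow p hθ hv hy) h2 z.2
    have h4 : (z : K) ^ p = θ := hyp
    rw [h4, sub_self, norm_zero] at h3
    exact hv0 (norm_le_zero_iff.1 h3)
  refine ⟨{ L.toSubfield.toSubring with
      algebraMap_mem' := fun c => hkL _ (hk _ (F⟮θ⟯.algebraMap_mem c)) },
    fun s hs => subset_adjoin k _ hs, hkL _ hθk, fun n η hη => ?_⟩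
  have hdeg : p ^ n ≤ (minpoly L η).natDegree := by
    obtain ⟨m, y, hy⟩ := (minpoly.natSepDegree_eq_one_iff_eq_X_pow_sub_C p).1
      ((minpoly.natSepDegree_eq_one_iff_pow_mem (F := L) (x := η) p).2
        ⟨n, ⟨θ, hkL _ hθk⟩, hη.symm⟩)
    rw [hy, natDegree_X_pow_sub_C]
    refine Nat.pow_le_pow_right (Fact.out : p.Prime).pos (not_lt.1 fun h => ?_)
    obtain ⟨j, rfl⟩ := Nat.exists_eq_add_of_lt h
    have h1 := minpoly.aeval L η
    rw [hy, map_sub, map_pow, aeval_X, aeval_C, sub_eq_zero] at h1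
    refine hnot ((y : K) ^ p ^ j) (pow_mem y.2 _) ?_
    rw [← hη, show (y : K) = η ^ p ^ m from h1.symm, ← pow_mul, ← pow_mul, ← pow_succ, ← pow_add,
      add_assoc]
  let M : Submodule k K := Subalgebra.toSubmodule L.toSubalgebra
  have : FiniteDimensional k M := inferInstanceAs (FiniteDimensional k L)
  let Φ : (Fin (p ^ n) → M) →ₗ[k] K :=
    ∑ j : Fin (p ^ n), (LinearMap.mulRight k (η ^ (j : ℕ))) ∘ₗ M.subtype ∘ₗ LinearMap.proj j
  have hΦ : ∀ r, Φ r = ∑ j, (r j : K) * η ^ (j : ℕ) := fun r => by simp [Φ]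
  have hli : LinearIndependent L fun j : Fin (p ^ n) => η ^ (j : ℕ) :=
    (linearIndependent_pow η).comp (Fin.castLE hdeg) (Fin.castLE_injective _)
  obtain ⟨C, -, hC⟩ := Φ.exists_antilipschitzWith (by
    refine LinearMap.ker_eq_bot'.2 fun r hr => funext fun j => Subtype.ext ?_
    rw [hΦ] at hr
    exact congrArg Subtype.val
      (Fintype.linearIndependent_iff.1 hli (fun j => ⟨r j, (r j).2⟩) hr j))
  refine ⟨C, fun r hr hd i => ?_⟩
  by_cases hi : i < p ^ n
  · have h1 := ZeroHomClass.bound_of_antilipschitz Φ hC fun j => ⟨r.coeff j, hr j⟩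
    rw [hΦ, Fin.sum_univ_eq_sum_range (fun j => r.coeff j * η ^ j), ← eval_eq_sum_range' hd] at h1
    exact (norm_le_pi_norm (fun j : Fin (p ^ n) => (⟨r.coeff j, hr j⟩ : M)) ⟨i, hi⟩).trans h1
  · rw [coeff_eq_zero_of_natDegree_lt (by omega), norm_zero]
    positivity

end Pool.Agent.Lib.MP_1f047c_nt.Car
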