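import Pool.Agent.Lib.MP_1f047c_nt.CarZero
import Pool.Agent.Lib.MP_1f047c_nt.CarAux
import Pool.Agent.Lib.MP_1f047c_nt.CarInsep

/-! Lifting of relations between values to relations between series. -/

namespace Pool.Agent.Lib.MP_1f047c_nt.Car

open Polynomial Filter Topology IntermediateField

theorem abp {F K : Type*} [Field F] [Fintype F] [NontriviallyNormedField K] [IsUltrametricDist K]
    [Algebra F K] [CompleteSpace K] [IsAlgClosed K] {φ : K →+* K} {ι : Type*} [Fintype ι]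
    (hφ : ∀ x, φ x = x ^ Fintype.card F) {v : F[X]} (hv : v.Monic) (hd : 0 < v.natDegree) {θ w : K}
    (hv0 : aeval θ v ≠ 0) (hv1 : ‖aeval θ v‖ < 1) (hw : ‖aeval w v‖ < ‖aeval θ v‖)
    (hws : IsSeparable F⟮θ⟯ w) {b : ι → K} (hb : ∀ i, ‖b i‖ < 1) (hbs : ∀ i, IsSeparable F⟮θ⟯ (b i))
    {G : ι → LS K} (hG0 : ∀ i, Lead (G i) 0 (b i))
    (hG : ∀ i, fr φ (G i) = ev (X - C w) * (G i - ev (C (b i)))) {D : ℕ} (hD : 0 < D)
    {P : Mon ι D → K} (hP0 : P ≠ 0) (hP : ∀ μ, IsSeparable F⟮θ⟯ (P μ))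
    (hrel : ∑ μ, P μ * ∏ i, ser φ w (b i) θ ^ μ.1 i = 0) :
    ∃ f : Mon ι D → K[X], f ≠ 0 ∧ ∑ μ, ev (f μ) * ∏ i, G i ^ μ.1 i = 0 := by
  classical
  obtain ⟨p, hp, k, hp', hk⟩ := FiniteField.card' F
  have : Fact p.Prime := ⟨hp'⟩
  have : CharP K p := charP_of_injective_algebraMap (algebraMap F K).injective p
  have hq : 2 ≤ Fintype.card F := Fintype.one_lt_card
  have hρ : 0 < ‖aeval θ v‖ := norm_pos_iff.2 hv0
  have hθ1 : ‖θ‖ ≤ 1 := norm_le_one_of_monic hv hd hv1.le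
  have hw1 : ‖w‖ ≤ 1 := norm_le_one_of_monic hv hd (hw.trans hv1).le
  let S : Finset K := {1, θ, w} ∪ Finset.univ.image b ∪ Finset.univ.image P
  have hS : ∀ s ∈ S, IsSeparable F⟮θ⟯ s := by
    simp only [S, Finset.mem_union, Finset.mem_insert, Finset.mem_singleton, Finset.mem_image]
    rintro s (((rfl | rfl | rfl) | ⟨i, -, rfl⟩) | ⟨μ, -, rfl⟩)
    exacts [isSeparable_algebraMap (1 : F⟮θ⟯), isSeparable_algebraMap (AdjoinSimple.gen F s), hws,
      hbs i, hP μ]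
  obtain ⟨L, hL, hθL, hL'⟩ := insep p hθ1 hv0 hv1 S hS
  obtain ⟨A, hA⟩ := finrank_pow_le S fun s hs => (hS s hs).isIntegral.isAlgebraic
  set V := Submodule.span F (S : Set K)
  have hV : ∀ s ∈ S, s ∈ V := fun s hs => Submodule.subset_span hs
  have h1 : (1 : K) ∈ V := hV _ (by simp [S])
  have hwV : w ∈ V := hV _ (by simp [S])
  have hbV : ∀ i, b i ∈ V := fun i => hV _ (by simp [S])
  have hfg : V.FG := Submodule.fg_span S.finite_toSet
  have hfin : ∀ c, (((V ^ c).toAddSubgroup : AddSubgroup K) : Set K).Finite := fun c => by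
    have := Module.Finite.iff_fg.2 (hfg.pow c)
    have : Finite ↥(V ^ c) := Module.finite_of_finite F
    exact Set.toFinite ((V ^ c : Submodule F K) : Set K)
  have hVL : ∀ c, V ^ c ≤ Subalgebra.toSubmodule L := fun c => by
    induction c with
    | zero => simp [Submodule.one_le]
    | succ c ih =>
      rw [pow_succ, Submodule.mul_le]
      exact fun x hx y hy => L.mul_mem (ih hx) (Submodule.span_le.2 (fun s hs => hL s hs) hy :
        y ∈ Subalgebra.toSubmodule L)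
  obtain ⟨m, hm⟩ := aux_poly h1 hfg hA hφ (hV θ (by simp [S])) hwV hbV hρ hb
    (le_norm_sub_iter hφ hw1 hθ1 hw) hP0 (fun μ => hV _ (by simp [S])) hrel
  obtain ⟨Z, hZ, hZ'⟩ := lead_finite (fil_pow h1) hfin hφ hq (by rwa [pow_one])
    (fun i => by simpa using hbV i) hG D m
  obtain ⟨H, hH⟩ := ((hfin m).image norm).bddAbove
  obtain ⟨C₀, hC₀⟩ := zero_est hφ hv hd hv0 hv1 hw hb hG0 hG L hθL (hL w (by simp [S]))
    (fun i => hL _ (by simp [S])) hD H
  have hl : 0 < Fintype.card (Mon ι D) := Fintype.card_pos_iff.2 ⟨⟨0, by simp⟩⟩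
  have h2 := ((tendsto_pow_atTop_nhds_zero_of_lt_one hρ.le hv1).comp
    ((Nat.tendsto_div_const_atTop (n := 2 * Fintype.card (Mon ι D)) (by omega)).comp
      (tendsto_pow_atTop_atTop_of_one_lt hq))).const_mul (C₀ ^ v.natDegree)
  rw [mul_zero] at h2
  obtain ⟨N, h3, hN⟩ := (((eventually_all_finite (hZ.subset (Set.sdiff_subset (t := {0})))).2
    fun a ha => h2.eventually (gt_mem_nhds (a := ‖aeval θ v‖ * ‖a‖ ^ v.natDegree)
      (mul_pos hρ (pow_pos (norm_pos_iff.2 ha.2) _)))).and (eventually_gt_atTop 0)).exists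
  have hQ : 1 < Fintype.card F ^ N := Nat.one_lt_pow hN.ne' hq
  obtain ⟨η, hη⟩ := IsAlgClosed.exists_pow_nat_eq θ (Nat.zero_lt_of_lt hQ)
  have h4 : ‖aeval η v‖ ^ Fintype.card F ^ N = ‖aeval θ v‖ := by
    rw [← norm_pow, ← iter_eq hφ, ← aeval_iter hφ, iter_eq hφ, hη]
  have h5 : ‖aeval η v‖ < 1 := (pow_lt_one_iff_of_nonneg (norm_nonneg _) (by omega)).1 (h4 ▸ hv1)
  have h6 : ‖aeval θ v‖ < ‖aeval η v‖ := by
    rw [← h4]
    refine pow_lt_self_of_lt_one₀ (norm_pos_iff.2 fun h0 => hρ.ne ?_) h5 hQ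
    rw [← h4, h0, norm_zero, zero_pow (by omega)]
  obtain ⟨f, hf0, hf1, hf2, hf3⟩ := hm N η (by rwa [iter_eq hφ]) fun s =>
    h6.le.trans (le_norm_sub_iter hφ hw1 (norm_le_one_of_monic hv hd h5.le) (hw.trans h6) s)
  refine ⟨f, hf0, by_contra fun h0 => ?_⟩
  obtain ⟨n, a, ha, hE⟩ := exists_lead h0
  obtain ⟨B, hB⟩ := hL' (k * N) η (by rwa [pow_mul, ← hk])
  have h7 := hC₀ _ η B h6 h4 (by rw [← hη, hk, ← pow_mul, sub_pow_char_pow, C_pow])
    (by rwa [hk, ← pow_mul]) f _ (fun μ i => hVL m (hf1 μ i)) (fun μ i => hH ⟨_, hf1 μ i, rfl⟩)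
    hf2 hf3 n a ha hE
  refine (h3 a ⟨hZ' f hf1 n a hE, ha⟩).not_ge (le_of_mul_le_mul_left (h7.trans_eq' ?_ |>.trans_eq ?_)
    (pow_pos hρ (Fintype.card F ^ N - Fintype.card F ^ N / (2 * Fintype.card (Mon ι D)))))
  · ring
  · rw [mul_left_comm, Function.comp_apply, ← pow_add]
    congr 2
    exact (Nat.sub_add_cancel (Nat.div_le_self _ _)).symm

end Pool.Agent.Lib.MP_1f047c_nt.Car
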