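import Pool.Agent.Lib.MP_1f047c_nt.CarSer

/-! Values of the deformed Carlitz logarithm. -/

namespace Pool.Agent.Lib.MP_1f047c_nt.Car

open Polynomial Filter Topology

lemma summable_dexp {q : ℕ} (hq : 2 ≤ q) {β ρ : ℝ} (h0 : 0 ≤ β) (h1 : β < 1) (hρ : 0 < ρ) :
    Summable fun j : ℕ => β ^ q ^ j / ρ ^ j := by
  obtain ⟨k, hk⟩ := exists_pow_lt_of_lt_one (half_pos hρ) h1
  refine summable_of_ratio_norm_eventually_le (r := 1 / 2) (by norm_num) ?_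
  filter_upwards [eventually_ge_atTop k] with j hj
  rw [Real.norm_of_nonneg (by positivity), Real.norm_of_nonneg (by positivity)]
  have h2 : β ^ q ^ j ≤ ρ / 2 :=
    (pow_le_pow_of_le_one h0 h1.le (hj.trans (Nat.lt_pow_self hq).le)).trans hk.le
  have h3 : β ^ q ^ (j + 1) ≤ β ^ q ^ j * β ^ q ^ j := by
    rw [← pow_add]
    exact pow_le_pow_of_le_one h0 h1.le (by rw [pow_succ]; nlinarith [Nat.zero_le (q ^ j)])
  rw [div_le_iff₀ (by positivity)]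
  calc _ ≤ β ^ q ^ j * (ρ / 2) := h3.trans (by gcongr)
    _ = _ := by field_simp; ring

lemma exists_dexp_le {q : ℕ} (hq : 2 ≤ q) {β ρ : ℝ} (h1 : β < 1) (hρ : 0 < ρ) :
    ∃ C : ℝ, 1 ≤ C ∧ ∀ b : ℝ, 0 ≤ b → b ≤ β → ∀ j : ℕ, b ^ q ^ j / ρ ^ j ≤ C * b := by
  obtain ⟨γ, h2, h3⟩ := exists_between (max_lt h1 one_pos)
  have h4 : 0 < γ := (le_max_right _ _).trans_lt h2
  obtain ⟨C, hC⟩ := (summable_dexp hq h4.le h3 hρ).tendsto_atTop_zero.bddAbove_range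
  refine ⟨max 1 (C / γ), le_max_left _ _, fun b hb hb' j => ?_⟩
  obtain ⟨n, hn⟩ : ∃ n, q ^ j = n + 1 := ⟨q ^ j - 1, (Nat.sub_add_cancel (Nat.one_le_pow _ _
    (by omega))).symm⟩
  have h5 : γ ^ q ^ j / ρ ^ j ≤ C := hC ⟨j, rfl⟩
  have h6 : b ≤ γ := hb'.trans ((le_max_left _ _).trans h2.le)
  rw [hn, pow_succ] at h5 ⊢
  calc _ ≤ γ ^ n * b / ρ ^ j := by gcongr
    _ = γ ^ n * γ / ρ ^ j / γ * b := by field_simp
    _ ≤ C / γ * b := by gcongr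
    _ ≤ _ := by gcongr; exact le_max_right _ _

variable {K : Type*} [NormedField K] {φ : K →+* K} {q : ℕ}

/-- The value of the deformed logarithm. -/
noncomputable def ser (φ : K →+* K) (w b x : K) : K :=
  ∑' j, φ^[j] b / ∏ s ∈ Finset.range j, (x - φ^[s] w)

lemma iter_eq {K : Type*} [Field K] {φ : K →+* K} (hφ : ∀ x, φ x = x ^ q) (j : ℕ) (x : K) :
    φ^[j] x = x ^ q ^ j := by
  rw [show ⇑φ = (· ^ q) from funext hφ, pow_iterate]

lemma norm_iter_le (hφ : ∀ x, φ x = x ^ q) (hq : 2 ≤ q) {b : K} (hb : ‖b‖ ≤ 1) (j : ℕ) :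
    ‖φ^[j] b‖ ≤ ‖b‖ := by
  rw [iter_eq hφ, norm_pow]
  exact pow_le_of_le_one (norm_nonneg _) hb (by positivity)

lemma norm_term_le (hφ : ∀ x, φ x = x ^ q) {ρ : ℝ} (hρ : 0 < ρ) {w x : K} (b : K) {j : ℕ}
    (hx : ∀ s < j, ρ ≤ ‖x - φ^[s] w‖) :
    ‖φ^[j] b / ∏ s ∈ Finset.range j, (x - φ^[s] w)‖ ≤ ‖b‖ ^ q ^ j / ρ ^ j := by
  rw [norm_div, iter_eq hφ, norm_pow, norm_prod]
  gcongr
  simpa using Finset.prod_le_prod (s := Finset.range j) (f := fun _ => ρ) (fun _ _ => hρ.le)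
    fun s hs => hx s (Finset.mem_range.1 hs)

lemma le_norm_den {ρ : ℝ} (hρ : 0 < ρ) {w : ℕ → K} {x : K} {M : ℕ}
    (hx : ∀ s < M, ρ ≤ ‖x - w s‖) : ρ ^ M ≤ ‖(den w M).eval x‖ := by
  rw [den, eval_prod, norm_prod]
  simpa using Finset.prod_le_prod (s := Finset.range M) (f := fun _ => ρ) (fun _ _ => hρ.le)
    fun s hs => hx s (Finset.mem_range.1 hs)

lemma summable_ser [CompleteSpace K] (hφ : ∀ x, φ x = x ^ q) (hq : 2 ≤ q) {ρ : ℝ} (hρ : 0 < ρ)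
    {w b x : K} (hb : ‖b‖ < 1) (hx : ∀ s, ρ ≤ ‖x - φ^[s] w‖) :
    Summable fun j => φ^[j] b / ∏ s ∈ Finset.range j, (x - φ^[s] w) :=
  (summable_dexp hq (norm_nonneg _) hb hρ).of_norm_bounded fun _ =>
    norm_term_le hφ hρ b fun s _ => hx s

lemma ser_succ [CompleteSpace K] (hφ : ∀ x, φ x = x ^ q) (hq : 2 ≤ q) {ρ : ℝ} (hρ : 0 < ρ)
    {w b x : K} (hb : ‖b‖ < 1) (hx : ∀ s, ρ ≤ ‖x - φ^[s] w‖) :
    ser φ (φ w) (φ b) x = (x - w) * (ser φ w b x - b) := by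
  have h : x - w ≠ 0 := norm_pos_iff.1 (hρ.trans_le (hx 0))
  rw [ser, ser, (summable_ser hφ hq hρ hb hx).tsum_eq_zero_add]
  simp only [Function.iterate_zero_apply, Finset.range_zero, Finset.prod_empty, div_one,
    add_sub_cancel_left, ← tsum_mul_left, Finset.prod_range_succ', Function.iterate_succ_apply]
  refine tsum_congr fun j => ?_
  rw [← div_div, mul_div_cancel₀ _ h]

lemma ser_iter [CompleteSpace K] (hφ : ∀ x, φ x = x ^ q) (hq : 2 ≤ q) {ρ : ℝ} (hρ : 0 < ρ)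
    {w b x : K} (hb : ‖b‖ < 1) (hx : ∀ s, ρ ≤ ‖x - φ^[s] w‖) (N : ℕ) :
    φ^[N] (ser φ w b x) = ser φ (φ^[N] w) (φ^[N] b) (φ^[N] x) := by
  have hc : Continuous (φ ^ N : K →+* K) := by
    rw [RingHom.coe_pow, show φ^[N] = (· ^ q ^ N) from funext (iter_eq hφ N)]
    fun_prop
  have h := (summable_ser hφ hq hρ hb hx).map_tsum (φ ^ N : K →+* K) hc
  simp only [map_div₀, map_prod, map_sub, RingHom.coe_pow, ← Function.iterate_add_apply] at h
  simp only [ser, h, ← Function.iterate_add_apply, add_comm N]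

lemma den_mul_ser [CompleteSpace K] (hφ : ∀ x, φ x = x ^ q) (hq : 2 ≤ q) {ρ : ℝ} (hρ : 0 < ρ)
    {w b x : K} (hb : ‖b‖ < 1) (hx : ∀ s, ρ ≤ ‖x - φ^[s] w‖) (M : ℕ) :
    (den (fun s => φ^[s] w) M).eval x * ser φ w b x =
      (num (fun s => φ^[s] w) (fun s => φ^[s] b) M).eval x +
        (ser φ (φ^[M] w) (φ^[M] b) x - φ^[M] b) := by
  induction M with
  | zero => simp [den, num]
  | succ M ih =>
    have h := ser_succ hφ hq hρ ((norm_iter_le hφ hq hb.le M).trans_lt hb) (w := φ^[M] w) (x := x)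
      fun s => by rw [← Function.iterate_add_apply]; exact hx _
    rw [den_succ, eval_mul, mul_right_comm, ih, num, Function.iterate_succ_apply',
      Function.iterate_succ_apply', h]
    simp only [eval_add, eval_mul, eval_sub, eval_X, eval_C]
    ring

variable [IsUltrametricDist K]

lemma norm_ser_le (hφ : ∀ x, φ x = x ^ q) {ρ C : ℝ} (hρ : 0 < ρ) {w b x : K}
    (hC : ∀ j : ℕ, ‖b‖ ^ q ^ j / ρ ^ j ≤ C) (hx : ∀ s, ρ ≤ ‖x - φ^[s] w‖) : ‖ser φ w b x‖ ≤ C :=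
  IsUltrametricDist.norm_tsum_le_of_forall_le fun j =>
    (norm_term_le hφ hρ b fun s _ => hx s).trans (hC j)

lemma norm_num_le (hφ : ∀ x, φ x = x ^ q) {ρ C : ℝ} (hρ : 0 < ρ) {w b x : K}
    (hC : ∀ j : ℕ, ‖b‖ ^ q ^ j / ρ ^ j ≤ C) {M : ℕ} (hx : ∀ s < M, ρ ≤ ‖x - φ^[s] w‖) :
    ‖(num (fun s => φ^[s] w) (fun s => φ^[s] b) M).eval x‖ ≤
      C * ‖(den (fun s => φ^[s] w) M).eval x‖ := by
  rw [eval_num_div _ _ _ _ fun s hs => sub_ne_zero.1 (norm_pos_iff.1 (hρ.trans_le (hx s hs))),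
    norm_mul, mul_comm]
  gcongr
  refine IsUltrametricDist.norm_sum_le_of_forall_le_of_nonneg (le_trans (by positivity) (hC 0))
    fun j hj => (norm_term_le hφ hρ b fun s hs => hx s ?_).trans (hC j)
  have := Finset.mem_range.1 hj
  omega

/-- The partial sums converge faster than any geometric sequence. -/
lemma tendsto_trunc [CompleteSpace K] (hφ : ∀ x, φ x = x ^ q) (hq : 2 ≤ q) {ρ : ℝ} (hρ : 0 < ρ)
    {w b x : K} (hb : ‖b‖ < 1) (hx : ∀ s, ρ ≤ ‖x - φ^[s] w‖) {r : ℝ} (hr : 0 < r) :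
    Tendsto (fun M => ‖(num (fun s => φ^[s] w) (fun s => φ^[s] b) M).eval x /
      (den (fun s => φ^[s] w) M).eval x - ser φ w b x‖ / r ^ M) atTop (𝓝 0) := by
  obtain ⟨C, hC1, hC⟩ := exists_dexp_le hq hb hρ
  have h := (summable_dexp hq (norm_nonneg _) hb (mul_pos hρ hr)).tendsto_atTop_zero.const_mul C
  rw [mul_zero] at h
  refine squeeze_zero (fun _ => by positivity) (fun M => ?_) h
  have h1 := le_norm_den hρ (w := fun s => φ^[s] w) (M := M) fun s _ => hx s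
  have h2 : 0 < ‖(den (fun s => φ^[s] w) M).eval x‖ := lt_of_lt_of_le (by positivity) h1
  have h3 : ‖ser φ (φ^[M] w) (φ^[M] b) x - φ^[M] b‖ ≤ C * ‖φ^[M] b‖ := by
    rw [sub_eq_add_neg]
    refine (IsUltrametricDist.norm_add_le_max _ _).trans (max_le (norm_ser_le hφ hρ
      (hC _ (norm_nonneg _) (norm_iter_le hφ hq hb.le M)) fun s => ?_) ?_)
    · rw [← Function.iterate_add_apply]; exact hx _
    · rw [norm_neg]; exact le_mul_of_one_le_left (norm_nonneg _) hC1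
  rw [div_sub' (norm_pos_iff.1 h2), den_mul_ser hφ hq hρ hb hx, sub_add_cancel_left, norm_div,
    norm_neg, mul_pow, ← mul_div_assoc, ← div_div, ← norm_pow, ← iter_eq hφ]
  gcongr

end Pool.Agent.Lib.MP_1f047c_nt.Car
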