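import Mathlib

/-! Formal Laurent series at infinity and the deformed Carlitz logarithm. -/

namespace Pool.Agent.Lib.MP_1f047c_nt.Car

open Polynomial

variable {K : Type*} [Field K]

/-- Laurent series in the inverse of the variable. -/
abbrev LS (K : Type*) [Field K] : Type _ := HahnSeries ℤ K

/-- Twisting of the coefficients. -/
noncomputable def fr (φ : K →+* K) : LS K →+* LS K where
  toFun x := x.map φ
  map_one' := HahnSeries.map_one φ.toMonoidWithZeroHom
  map_mul' _ _ := HahnSeries.map_mul (φ : K →ₙ+* K)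
  map_zero' := HahnSeries.map_zero (φ : ZeroHom K K)
  map_add' _ _ := HahnSeries.map_add (φ : K →+ K)

lemma coeff_fr (φ : K →+* K) (x : LS K) (i : ℤ) : (fr φ x).coeff i = φ (x.coeff i) := rfl

/-- Polynomials as Laurent series at infinity. -/
noncomputable def ev : K[X] →+* LS K := eval₂RingHom HahnSeries.C (HahnSeries.single (-1) 1)

lemma ev_monomial (n : ℕ) (a : K) : ev (monomial n a) = HahnSeries.single (-(n : ℤ)) a := by
  simp [ev, HahnSeries.single_pow, HahnSeries.C_apply, HahnSeries.single_mul_single]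

lemma ev_C (a : K) : ev (C a) = HahnSeries.single 0 a := by simpa using ev_monomial 0 a

lemma ev_X : ev (X : K[X]) = HahnSeries.single (-1) 1 := by simp [ev]

lemma fr_ev (φ : K →+* K) (f : K[X]) : fr φ (ev f) = ev (f.map φ) := by
  induction f using Polynomial.induction_on' with
  | add p q hp hq => simp [hp, hq]
  | monomial n a =>
    rw [Polynomial.map_monomial, ev_monomial, ev_monomial]
    exact HahnSeries.map_single (a := -(n : ℤ)) (r := a) (φ : ZeroHom K K)

/-- The series starts at `n` with the (possibly vanishing) coefficient `a`. -/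
def Lead (x : LS K) (n : ℤ) (a : K) : Prop := (∀ i < n, x.coeff i = 0) ∧ x.coeff n = a

lemma Lead.add {x y : LS K} {n : ℤ} {a b : K} (hx : Lead x n a) (hy : Lead y n b) :
    Lead (x + y) n (a + b) :=
  ⟨fun i hi => by rw [HahnSeries.coeff_add, hx.1 i hi, hy.1 i hi, add_zero],
    by rw [HahnSeries.coeff_add, hx.2, hy.2]⟩

lemma Lead.neg {x : LS K} {n : ℤ} {a : K} (hx : Lead x n a) : Lead (-x) n (-a) :=
  ⟨fun i hi => by rw [HahnSeries.coeff_neg, hx.1 i hi, neg_zero],
    by rw [HahnSeries.coeff_neg, hx.2]⟩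

lemma Lead.sum {ι : Type*} {s : Finset ι} {x : ι → LS K} {n : ℤ} {a : ι → K}
    (h : ∀ i ∈ s, Lead (x i) n (a i)) : Lead (∑ i ∈ s, x i) n (∑ i ∈ s, a i) :=
  ⟨fun j hj => by
    rw [HahnSeries.coeff_sum]; exact Finset.sum_eq_zero fun i hi => (h i hi).1 j hj,
    by rw [HahnSeries.coeff_sum]; exact Finset.sum_congr rfl fun i hi => (h i hi).2⟩

lemma Lead.mul {x y : LS K} {m n : ℤ} {a b : K} (hx : Lead x m a) (hy : Lead y n b) :
    Lead (x * y) (m + n) (a * b) := by
  have h : ∀ {i j : ℤ}, i + j ≤ m + n → (i, j) ≠ (m, n) → x.coeff i * y.coeff j = 0 := by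
    intro i j h1 h2
    by_cases h3 : i < m
    · rw [hx.1 i h3, zero_mul]
    · rw [hy.1 j (by by_contra h4; exact h2 (Prod.ext (by omega) (by omega))), mul_zero]
  refine ⟨fun i hi => ?_, ?_⟩
  · rw [HahnSeries.coeff_mul]
    refine Finset.sum_eq_zero fun z hz => ?_
    have := (Finset.mem_antidiagonal.1 hz).2.2
    exact h (by omega) (by rintro h; rw [Prod.ext_iff] at h; simp only at h; omega)
  · rw [HahnSeries.coeff_mul, Finset.sum_eq_single (m, n), hx.2, hy.2]
    · exact fun z hz h1 => h (Finset.mem_antidiagonal.1 hz).2.2.le h1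
    · intro h1
      by_contra h2
      exact h1 (Finset.mem_antidiagonal.2 ⟨left_ne_zero_of_mul h2, right_ne_zero_of_mul h2, rfl⟩)

lemma Lead.fr (φ : K →+* K) {x : LS K} {n : ℤ} {a : K} (hx : Lead x n a) :
    Lead (fr φ x) n (φ a) :=
  ⟨fun i hi => by rw [coeff_fr, hx.1 i hi, map_zero], by rw [coeff_fr, hx.2]⟩

lemma Lead.lower {x : LS K} {m n : ℤ} {a : K} (hx : Lead x n a) (h : m < n) : Lead x m 0 :=
  ⟨fun i hi => hx.1 i (hi.trans h), hx.1 m h⟩

lemma Lead.unique {x : LS K} {m n : ℤ} {a b : K} (hx : Lead x m a) (hy : Lead x n b) (ha : a ≠ 0)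
    (hb : b ≠ 0) : m = n ∧ a = b := by
  rcases lt_trichotomy m n with h | rfl | h
  · exact absurd (hx.2.symm.trans (hy.1 m h)) ha
  · exact ⟨rfl, hx.2.symm.trans hy.2⟩
  · exact absurd (hy.2.symm.trans (hx.1 n h)) hb

lemma exists_lead {x : LS K} (hx : x ≠ 0) : ∃ n a, a ≠ 0 ∧ Lead x n a :=
  ⟨x.order, _, HahnSeries.coeff_order_eq_zero.not.2 hx,
    fun _ hi => HahnSeries.coeff_eq_zero_of_lt_order hi, rfl⟩

lemma lead_one : Lead (1 : LS K) 0 1 :=
  ⟨fun i hi => by simp [HahnSeries.coeff_one, hi.ne], by simp⟩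

lemma Lead.pow {x : LS K} {n : ℤ} {a : K} (hx : Lead x n a) (j : ℕ) :
    Lead (x ^ j) (j * n) (a ^ j) := by
  induction j with
  | zero => simpa using lead_one
  | succ j ih =>
    rw [pow_succ, pow_succ, Nat.cast_succ, add_mul, one_mul]
    exact ih.mul hx

lemma lead_ev {f : K[X]} {n : ℕ} (h : f.natDegree ≤ n) : Lead (ev f) (-(n : ℤ)) (f.coeff n) := by
  classical
  have h1 := Lead.sum (s := Finset.range (n + 1)) (x := fun i => ev (monomial i (f.coeff i)))
    (n := -(n : ℤ)) (a := fun i => if i = n then f.coeff i else 0) fun i hi => by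
      have := Finset.mem_range.1 hi
      rw [ev_monomial]
      refine ⟨fun j hj => HahnSeries.coeff_single_of_ne (by omega), ?_⟩
      split_ifs with h
      · rw [h, HahnSeries.coeff_single_same]
      · exact HahnSeries.coeff_single_of_ne (by omega)
  rw [← map_sum, ← as_sum_range' f _ (Nat.lt_succ_of_le h)] at h1
  simpa using h1

lemma lead_ev' (f : K[X]) : Lead (ev f) (-(f.natDegree : ℤ)) f.leadingCoeff := lead_ev le_rfl

lemma ev_ne_zero {f : K[X]} (hf : f ≠ 0) : ev f ≠ 0 := fun h => by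
  have := (lead_ev' f).2
  rw [h] at this
  exact leadingCoeff_ne_zero.2 hf this.symm

lemma ev_injective : Function.Injective (ev : K[X] → LS K) :=
  (injective_iff_map_eq_zero _).2 fun _ h => by_contra fun h' => ev_ne_zero h' h

lemma Lead.inv {x : LS K} {n : ℤ} (hx : Lead x n 1) : Lead x⁻¹ (-n) 1 := by
  have h0 : x ≠ 0 := by
    rintro rfl
    exact zero_ne_one hx.2
  obtain ⟨m, a, ha, h⟩ := exists_lead (inv_ne_zero h0)
  have h1 := hx.mul h
  rw [mul_inv_cancel₀ h0, one_mul] at h1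
  obtain ⟨h2, rfl⟩ := h1.unique lead_one ha one_ne_zero
  rwa [show -n = m by omega]

/-- The homogeneous equation has no solution. -/
lemma eq_zero_of_fr (φ : K →+* K) {g : K[X]} (hg : g.Monic) (hd : 0 < g.natDegree) {y : LS K}
    (h : fr φ y = ev g * y) : y = 0 := by
  by_contra h0
  obtain ⟨n, a, ha, hy⟩ := exists_lead h0
  have h1 := (lead_ev' g).mul hy
  rw [← h, hg.leadingCoeff, one_mul] at h1
  have := (h1.unique (hy.fr φ) ha ((map_ne_zero φ).2 ha)).1
  omega

lemma exists_series (φ : K →+* K) (b w : K) :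
    ∃ G : LS K, Lead G 0 b ∧ fr φ G = ev (X - C w) * (G - ev (C b)) := by
  let h : ℕ → K := fun n => Nat.rec 0 (fun m x => φ x + w * x + if m = 0 then φ b else 0) n
  have hs : ∀ m, h (m + 1) = φ (h m) + w * h m + if m = 0 then φ b else 0 := fun _ => rfl
  have h0 : ∀ i : ℤ, i ≤ 0 → h i.toNat = 0 := fun i hi => by rw [Int.toNat_eq_zero.2 hi]; rfl
  let H : LS K := HahnSeries.ofSuppBddBelow (fun i => h i.toNat)
    ⟨0, fun m hm => not_lt.1 fun h => hm (h0 m h.le)⟩
  have hH : ∀ i, H.coeff i = h i.toNat := fun _ => rfl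
  refine ⟨H + ev (C b), ?_, ?_⟩
  · simpa using Lead.add (x := H) (n := 0) (a := 0) ⟨fun i hi => h0 i hi.le, h0 0 le_rfl⟩
      (lead_ev (f := C b) (n := 0) (by simp))
  · ext i
    rw [add_sub_cancel_right, map_sub, sub_mul, ev_X, ev_C, ev_C, coeff_fr, HahnSeries.coeff_add,
      HahnSeries.coeff_sub, HahnSeries.coeff_single_mul, HahnSeries.coeff_single_mul, hH, hH, hH,
      HahnSeries.coeff_single, sub_zero, one_mul]
    rcases lt_or_ge i 0 with hi | hi
    · rw [h0 i hi.le, h0 _ (by omega), if_neg hi.ne]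
      simp
    · obtain ⟨m, rfl⟩ := Int.eq_ofNat_of_zero_le hi
      rw [show ((m : ℤ) - -1).toNat = m + 1 by omega, Int.toNat_natCast, hs]
      by_cases hm : m = 0
      · simp only [hm, Nat.cast_zero, if_true, map_add]
        ring
      · simp [hm]

/-- Denominators of the partial sums. -/
noncomputable def den (w : ℕ → K) (M : ℕ) : K[X] := ∏ s ∈ Finset.range M, (X - C (w s))

/-- Numerators of the partial sums. -/
noncomputable def num (w b : ℕ → K) : ℕ → K[X]
  | 0 => C (b 0)
  | M + 1 => num w b M * (X - C (w M)) + C (b (M + 1))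

lemma den_succ (w : ℕ → K) (M : ℕ) : den w (M + 1) = den w M * (X - C (w M)) :=
  Finset.prod_range_succ _ _

lemma den_monic (w : ℕ → K) (M : ℕ) : (den w M).Monic :=
  monic_prod_of_monic _ _ fun _ _ => monic_X_sub_C _

lemma natDegree_den (w : ℕ → K) (M : ℕ) : (den w M).natDegree = M := by
  rw [den, natDegree_prod_of_monic _ _ fun _ _ => monic_X_sub_C _]
  simp

lemma natDegree_num (w b : ℕ → K) (M : ℕ) : (num w b M).natDegree ≤ M := by
  induction M with
  | zero => simp [num]
  | succ M ih =>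
    refine natDegree_add_le_of_degree_le (natDegree_mul_le.trans ?_) (by simp)
    rw [natDegree_X_sub_C]
    omega

lemma eval_num_div (w b : ℕ → K) (x : K) (M : ℕ) (hx : ∀ s < M, x ≠ w s) :
    (num w b M).eval x = (den w M).eval x *
      ∑ j ∈ Finset.range (M + 1), b j / ∏ s ∈ Finset.range j, (x - w s) := by
  induction M with
  | zero => simp [num, den]
  | succ M ih =>
    have h : ∏ s ∈ Finset.range (M + 1), (x - w s) ≠ 0 :=
      Finset.prod_ne_zero_iff.2 fun s hs => sub_ne_zero.2 (hx s (Finset.mem_range.1 hs))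
    have h1 : (den w (M + 1)).eval x = ∏ s ∈ Finset.range (M + 1), (x - w s) := by
      simp [den, eval_prod]
    rw [Finset.sum_range_succ _ (M + 1), mul_add, num, eval_add, eval_mul,
      ih fun s hs => hx s (by omega), eval_C]
    conv_rhs => rw [h1, mul_div_cancel₀ _ h, ← h1, den_succ, eval_mul]
    ring

lemma den_mul_series (φ : K →+* K) {b w : K} {G : LS K}
    (hG : fr φ G = ev (X - C w) * (G - ev (C b))) (M : ℕ) :
    ev (den (fun s => φ^[s] w) M) * G =
      ev (num (fun s => φ^[s] w) (fun s => φ^[s] b) M) + ((fr φ)^[M] G - ev (C (φ^[M] b))) := by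
  have h : ∀ j, (fr φ)^[j + 1] G = ev (X - C (φ^[j] w)) * ((fr φ)^[j] G - ev (C (φ^[j] b))) := by
    intro j
    induction j with
    | zero => exact hG
    | succ j ih =>
      rw [Function.iterate_succ_apply', ih, map_mul, fr_ev, map_sub (fr φ), fr_ev, ← ih]
      simp [Function.iterate_succ_apply']
  induction M with
  | zero => simp [den, num]
  | succ M ih =>
    rw [den_succ, map_mul, mul_right_comm, ih, h, num, map_add, map_mul]
    ring

lemma Lead.iterate (φ : K →+* K) {x : LS K} {n : ℤ} {a : K} (hx : Lead x n a) (j : ℕ) :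
    Lead ((Car.fr φ)^[j] x) n (φ^[j] a) := by
  induction j with
  | zero => exact hx
  | succ j ih =>
    rw [Function.iterate_succ_apply', Function.iterate_succ_apply']
    exact ih.fr φ

/-- Truncation does not change the leading term. -/
theorem lead_trunc {ι κ : Type*} [Fintype ι] [Fintype κ] (φ : K →+* K) {b : ι → K} {w : K}
    {G : ι → LS K} (hG0 : ∀ i, Lead (G i) 0 (b i))
    (hG : ∀ i, fr φ (G i) = ev (X - C w) * (G i - ev (C (b i)))) (μ : κ → ι → ℕ) {D D₀ : ℕ}
    (hμ : ∀ e, ∑ i, μ e i ≤ D₀) (h : κ → K[X]) (hh : ∀ e, (h e).natDegree ≤ D) {n : ℤ} {a : K}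
    (hE : Lead (∑ e, ev (h e) * ∏ i, G i ^ μ e i) n a) {M : ℕ} (hM : n + D ≤ M) :
    Lead (ev (∑ e, h e * (∏ i, num (fun s => φ^[s] w) (fun s => φ^[s] (b i)) M ^ μ e i) *
      den (fun s => φ^[s] w) M ^ (D₀ - ∑ i, μ e i))) (n - D₀ * M) a := by
  set d := den (fun s => φ^[s] w) M with hd
  have hd1 : Lead (ev d) (-(M : ℤ)) 1 := by
    have := lead_ev' d
    rwa [natDegree_den, (den_monic _ _).leadingCoeff] at this
  have hd0 : ev d ≠ 0 := ev_ne_zero (den_monic _ _).ne_zero
  let S : Submonoid (LS K × LS K) :=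
    { carrier := {z | (∃ a, Lead z.1 0 a) ∧ (∃ a, Lead z.2 0 a) ∧ Lead (z.2 - z.1) M 0}
      one_mem' := ⟨⟨_, lead_one⟩, ⟨_, lead_one⟩, by simp [Lead]⟩
      mul_mem' := by
        rintro ⟨x, x'⟩ ⟨y, y'⟩ ⟨⟨_, a1⟩, ⟨_, a2⟩, a3⟩ ⟨⟨_, b1⟩, ⟨_, b2⟩, b3⟩
        refine ⟨⟨_, a1.mul b1⟩, ⟨_, a2.mul b2⟩, ?_⟩
        have h1 := a3.mul b2
        have h2 := a1.mul b3
        rw [add_zero, zero_mul] at h1
        rw [zero_add, mul_zero] at h2
        have := h1.add h2
        rw [add_zero] at this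
        convert this using 1
        simp only [Prod.fst_mul, Prod.snd_mul]
        ring }
  let G' : ι → LS K := fun i => ev (num (fun s => φ^[s] w) (fun s => φ^[s] (b i)) M) * (ev d)⁻¹
  have hS : ∀ i, (G i, G' i) ∈ S := fun i => by
    refine ⟨⟨_, hG0 i⟩, ⟨_, by simpa using (lead_ev (natDegree_num _ _ M)).mul hd1.inv⟩, ?_⟩
    have h1 := ((hG0 i).iterate φ M).add (lead_ev (f := C (φ^[M] (b i))) (n := 0) (by simp)).neg
    have h2 := (h1.mul hd1.inv).neg
    simp only [coeff_C_zero, add_neg_cancel, zero_mul, neg_zero, neg_neg, zero_add] at h2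
    convert h2 using 1
    have h3 := den_mul_series φ (hG i) M
    rw [← hd] at h3
    simp only [G']
    field_simp
    linear_combination -h3
  have h1 : ∀ e, Lead (ev (h e) * (∏ i, G' i ^ μ e i - ∏ i, G i ^ μ e i)) n 0 := fun e => by
    have h2 := (S.prod_mem (t := Finset.univ) fun i _ => S.pow_mem (hS i) (μ e i)).2.2
    simp only [Prod.fst_prod, Prod.snd_prod, Prod.pow_fst, Prod.pow_snd] at h2
    have h3 := (lead_ev (hh e)).mul h2
    rw [mul_zero] at h3
    rcases (show n ≤ -(D : ℤ) + M by omega).eq_or_lt with h4 | h4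
    · rwa [h4]
    · exact h3.lower h4
  have h2 := (hE.add (Lead.sum (s := Finset.univ) fun e _ => h1 e)).mul (hd1.pow D₀)
  simp only [Finset.sum_const_zero, add_zero, one_pow, mul_one, mul_neg, ← sub_eq_add_neg] at h2
  convert h2 using 1
  rw [← Finset.sum_add_distrib, Finset.sum_mul, map_sum]
  refine Finset.sum_congr rfl fun e _ => ?_
  obtain ⟨r, hr⟩ := Nat.exists_eq_add_of_le (hμ e)
  simp only [G', mul_pow, Finset.prod_mul_distrib, Finset.prod_pow_eq_pow_sum, map_mul, map_prod,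
    map_pow, hr, Nat.add_sub_cancel_left]
  rw [inv_pow]
  field_simp
  ring

end Pool.Agent.Lib.MP_1f047c_nt.Car
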