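import Mathlib

/-! Affine substitutions in polynomials of bounded degree with coefficients in a filtration. -/

namespace Pool.Agent.Lib.MP_1f047c_nt.Car

/-- Monomials of degree at most `D`. -/
abbrev Mon (ι : Type*) (D : ℕ) : Type _ := {μ : ι →₀ ℕ // μ.degree ≤ D}

noncomputable instance (ι : Type*) [Finite ι] (D : ℕ) : Fintype (Mon ι D) :=
  (Finsupp.finite_of_degree_le D).fintype

lemma Mon.sum_le {ι : Type*} [Fintype ι] {D : ℕ} (μ : Mon ι D) : ∑ i, μ.1 i ≤ D :=
  Finsupp.degree_eq_sum μ.1 ▸ μ.2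

/-- A multiplicative filtration. -/
structure Fil {R : Type*} [CommRing R] (W : ℕ → AddSubgroup R) : Prop where
  mono : Monotone W
  mul : ∀ a b x y, x ∈ W a → y ∈ W b → x * y ∈ W (a + b)
  one : 1 ∈ W 0

variable {R : Type*} [CommRing R] {W : ℕ → AddSubgroup R}

lemma Fil.pow (h : Fil W) {a : ℕ} {x : R} (hx : x ∈ W a) (n : ℕ) : x ^ n ∈ W (a * n) := by
  induction n with
  | zero => simpa using h.one
  | succ n ih => rw [pow_succ, mul_add_one]; exact h.mul _ _ _ _ ih hx

lemma Fil.prod (h : Fil W) {ι : Type*} (s : Finset ι) {a : ι → ℕ} {x : ι → R}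
    (hx : ∀ i, x i ∈ W (a i)) : ∏ i ∈ s, x i ∈ W (∑ i ∈ s, a i) := by
  classical
  induction s using Finset.induction_on with
  | empty => simpa using h.one
  | insert i s hi ih => rw [Finset.prod_insert hi, Finset.sum_insert hi]; exact h.mul _ _ _ _ (hx i) ih

/-- Polynomials with coefficients in a subgroup. -/
def polySub (A : AddSubgroup R) : AddSubgroup (Polynomial R) where
  carrier := {f | ∀ i, f.coeff i ∈ A}
  add_mem' ha hb i := by rw [Polynomial.coeff_add]; exact add_mem (ha i) (hb i)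
  zero_mem' _ := zero_mem _
  neg_mem' ha i := by rw [Polynomial.coeff_neg]; exact neg_mem (ha i)

lemma monomial_mem_polySub {A : AddSubgroup R} {x : R} (hx : x ∈ A) (n : ℕ) :
    Polynomial.monomial n x ∈ polySub A := fun i => by
  rw [Polynomial.coeff_monomial]
  split_ifs
  exacts [hx, zero_mem _]

lemma Fil.poly (h : Fil W) : Fil fun c => polySub (W c) :=
  ⟨fun _ _ hab _ hf i => h.mono hab (hf i), fun a b x y hx hy i => by
    rw [Polynomial.coeff_mul]
    exact sum_mem fun z _ => h.mul _ _ _ _ (hx _) (hy _), monomial_mem_polySub h.one 0⟩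

lemma Fil.eval (h : Fil W) {f : Polynomial R} {c n : ℕ} (hf : f ∈ polySub (W c))
    (hn : f.natDegree ≤ n) {x : R} (hx : x ∈ W 1) : f.eval x ∈ W (c + n) := by
  rw [Polynomial.eval_eq_sum_range]
  refine sum_mem fun i hi => h.mono ?_ (h.mul _ _ _ _ (hf i) (h.pow hx i))
  have := Finset.mem_range.1 hi
  omega

open MvPolynomial

variable {ι : Type*}

/-- Polynomials in several variables with coefficients in a subgroup. -/
def mvSub (ι : Type*) (A : AddSubgroup R) : AddSubgroup (MvPolynomial ι R) where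
  carrier := {f | ∀ i, coeff i f ∈ A}
  add_mem' ha hb i := by rw [coeff_add]; exact add_mem (ha i) (hb i)
  zero_mem' _ := zero_mem _
  neg_mem' ha i := by rw [coeff_neg]; exact neg_mem (ha i)

lemma monomial_mem_mvSub {A : AddSubgroup R} {x : R} (hx : x ∈ A) (n : ι →₀ ℕ) :
    monomial n x ∈ mvSub ι A := fun i => by
  classical
  rw [coeff_monomial]
  split_ifs
  exacts [hx, zero_mem _]

lemma Fil.mv (h : Fil W) (ι : Type*) : Fil fun c => mvSub ι (W c) :=
  ⟨fun _ _ hab _ hf i => h.mono hab (hf i), fun a b x y hx hy i => by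
    classical
    rw [coeff_mul]
    exact sum_mem fun z _ => h.mul _ _ _ _ (hx _) (hy _), monomial_mem_mvSub h.one 0⟩

variable [Fintype ι]

lemma eval₂_eq_mon {T : Type*} [CommRing T] (j : R →+* T) (Y : ι → T) {P : MvPolynomial ι R}
    {D : ℕ} (hP : P.totalDegree ≤ D) :
    eval₂ j Y P = ∑ μ : Mon ι D, j (coeff μ.1 P) * ∏ i, Y i ^ μ.1 i := by
  rw [eval₂_eq', ← Finset.sum_subtype (Finsupp.finite_of_degree_le D).toFinset (by simp)
    fun μ => j (coeff μ P) * ∏ i, Y i ^ μ i]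
  refine Finset.sum_subset (fun μ hμ => ?_) fun μ _ hμ => by simp [notMem_support_iff.1 hμ]
  exact (Set.Finite.mem_toFinset _).2 ((le_totalDegree hμ).trans hP)

theorem shift (h : Fil W) {D c r : ℕ} (P : Mon ι D → R) (hP : ∀ μ, P μ ∈ W c) (A : ι → R) (B Z : R)
    (hA : ∀ i, A i ∈ W r) (hB : B ∈ W r) (hZ : Z ∈ W r) {T : Type*} [CommRing T] (j : R →+* T) :
    ∃ P' : Mon ι D → R, (∀ μ, P' μ ∈ W (c + r * D)) ∧ ∀ Y Y' : ι → T,
      (∀ i, j Z * Y i = j (A i) + j B * Y' i) →
      ∑ μ, j (P' μ) * ∏ i, Y' i ^ μ.1 i = j Z ^ D * ∑ μ, j (P μ) * ∏ i, Y i ^ μ.1 i := by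
  let H : MvPolynomial ι R :=
    ∑ μ, C (P μ * Z ^ (D - ∑ i, μ.1 i)) * ∏ i, (C (A i) + monomial (Finsupp.single i 1) B) ^ μ.1 i
  have h1 : H ∈ mvSub ι (W (c + r * D)) := sum_mem fun μ _ => by
    refine (h.mv ι).mono ?_ ((h.mv ι).mul _ _ _ _
      (monomial_mem_mvSub (h.mul _ _ _ _ (hP μ) (h.pow hZ _)) 0) ((h.mv ι).prod _ fun i =>
        (h.mv ι).pow (add_mem (monomial_mem_mvSub (hA i) 0) (monomial_mem_mvSub hB _)) _))
    rw [← Finset.mul_sum, add_assoc, ← mul_add, Nat.sub_add_cancel μ.sum_le]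
  have h2 : H.totalDegree ≤ D := totalDegree_finsetSum_le fun μ _ => by
    refine (totalDegree_mul _ _).trans ?_
    rw [totalDegree_C, zero_add]
    refine (totalDegree_finsetProd _ _).trans (le_trans (Finset.sum_le_sum fun i _ => ?_) μ.sum_le)
    refine (totalDegree_pow _ _).trans (mul_le_of_le_one_right (Nat.zero_le _) ?_)
    refine (totalDegree_add _ _).trans (max_le (by simp) ((totalDegree_monomial_le _ _).trans ?_))
    simp
  refine ⟨fun μ => coeff μ.1 H, fun μ => h1 _, fun Y Y' hY => ?_⟩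
  rw [← eval₂_eq_mon j Y' h2, Finset.mul_sum, eval₂_sum]
  refine Finset.sum_congr rfl fun μ _ => ?_
  obtain ⟨s, hs⟩ := Nat.exists_eq_add_of_le μ.sum_le
  simp only [eval₂_mul, eval₂_C, eval₂_prod, eval₂_pow, eval₂_add, eval₂_monomial,
    Finsupp.prod_single_index (h := fun i e => Y' i ^ e) (pow_zero _), pow_one, ← hY, mul_pow,
    Finset.prod_mul_distrib, Finset.prod_pow_eq_pow_sum, map_mul, map_pow]
  rw [show j Z ^ D = j Z ^ (∑ i, μ.1 i + s) by rw [← hs], show D - ∑ i, μ.1 i = s by omega]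
  ring

/-- A polynomial over an infinite field that vanishes everywhere vanishes. -/
lemma mon_eq_zero {K : Type*} [Field K] [Infinite K] {D : ℕ} {P : Mon ι D → K}
    (h : ∀ Y : ι → K, ∑ μ, P μ * ∏ i, Y i ^ μ.1 i = 0) : P = 0 := by
  classical
  have h1 : (∑ μ, monomial μ.1 (P μ) : MvPolynomial ι K) = 0 := MvPolynomial.funext fun Y => by
    simpa [eval_monomial, Finsupp.prod_fintype] using h Y
  funext μ
  simpa [coeff_sum, coeff_monomial, Subtype.val_inj] using congrArg (coeff μ.1) h1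

end Pool.Agent.Lib.MP_1f047c_nt.Car
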