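import Pool.Agent.Lib.MP_1f047c_nt.CarKO
import Pool.Agent.Lib.MP_1f047c_nt.CarShift
import Pool.Agent.Lib.MP_1f047c_nt.CarSer

/-! From algebraic relations between the series to a linear identity between polynomials. -/

namespace Pool.Agent.Lib.MP_1f047c_nt.Car

open Polynomial

variable {K : Type*} [Field K] {ι : Type*} [Fintype ι]

lemma kolchin' {E L : Type*} [Field E] [Field L] (j : E →+* L) (p : ℕ) [Fact p.Prime] [CharP E p]
    (σ₀ : E →+* E) (σ : L →+* L) (hσ : ∀ x, σ (j x) = j (σ₀ x)) {a : E} (ha : a ≠ 0) (b : ι → E)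
    (G : ι → L) (hG : ∀ i, σ (G i) = j a * (G i - j (b i)))
    (h0 : ∀ n ≠ 0, ∀ y : L, σ y = j a ^ n * y → y = 0) {D : ℕ} {P : Mon ι D → E} (hP : P ≠ 0)
    (hdep : ∑ μ, j (P μ) * ∏ i, G i ^ μ.1 i = 0) :
    ∃ (e : ℕ) (c : ι → E) (r : E), c ≠ 0 ∧ (∀ i, σ₀ (c i) = c i) ∧
      ∑ i, j (c i) * G i ^ p ^ e = j r := by
  classical
  let _ := j.toAlgebra
  refine kolchin p σ₀ σ hσ ha b G hG h0 fun h => hP (funext fun μ => ?_)
  have h1 := algebraicIndependent_iff.1 h (∑ μ, MvPolynomial.monomial μ.1 (P μ)) (by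
    simpa [MvPolynomial.aeval_monomial, Finsupp.prod_fintype, RingHom.algebraMap_toAlgebra]
      using hdep)
  simpa [MvPolynomial.coeff_sum, MvPolynomial.coeff_monomial, Subtype.val_inj] using
    congrArg (MvPolynomial.coeff μ.1) h1

lemma exists_fixed_mul (φ : K →+* K) {σ : RatFunc K →+* RatFunc K}
    (hσ : ∀ f, σ (algebraMap K[X] _ f) = algebraMap K[X] _ (f.map φ)) {x : RatFunc K} {A B : K[X]}
    (h : σ x = algebraMap K[X] _ A * x + algebraMap K[X] _ B) :
    ∃ g f : K[X], g ≠ 0 ∧ g.map φ = g ∧ algebraMap K[X] _ g * x = algebraMap K[X] _ f := by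
  have h0 : algebraMap K[X] (RatFunc K) x.denom ≠ 0 := RatFunc.algebraMap_ne_zero x.denom_ne_zero
  have h1 : algebraMap K[X] _ x.denom * x = algebraMap K[X] _ x.num := by
    nth_rw 2 [← x.num_div_denom]
    field_simp
  refine ⟨x.denom, x.num, x.denom_ne_zero, (eq_of_monic_of_dvd_of_natDegree_le
    (x.monic_denom.map φ) x.monic_denom ?_ (natDegree_map φ).ge).symm, h1⟩
  refine (x.isCoprime_num_denom.map (mapRingHom φ)).symm.dvd_of_dvd_mul_left
    ⟨A * x.num + B * x.denom, RatFunc.algebraMap_injective K ?_⟩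
  have h2 := congrArg σ h1
  rw [map_mul, hσ, hσ, h] at h2
  simp only [coe_mapRingHom, map_mul, map_add, ← h2, ← h1]
  ring

theorem poly_identity (p : ℕ) [Fact p.Prime] [CharP K p] (φ : K →+* K) {w : K} {b : ι → K}
    {G : ι → LS K} (hG : ∀ i, fr φ (G i) = ev (X - C w) * (G i - ev (C (b i)))) {D : ℕ}
    {f : Mon ι D → K[X]} (hf : f ≠ 0) (hdep : ∑ μ, ev (f μ) * ∏ i, G i ^ μ.1 i = 0) :
    ∃ (e : ℕ) (c : ι → K[X]) (r : K[X]), c ≠ 0 ∧ (∀ i, (c i).map φ = c i) ∧
      r.map φ = (X - C w) ^ p ^ e * (r - ∑ i, c i * C (b i) ^ p ^ e) := by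
  classical
  have hi := RatFunc.algebraMap_injective K
  set ι₀ := algebraMap K[X] (RatFunc K)
  let j : RatFunc K →+* LS K := IsFractionRing.lift ev_injective
  have hj : ∀ f, j (ι₀ f) = ev f := IsFractionRing.lift_algebraMap _
  let σ : RatFunc K →+* RatFunc K := IsFractionRing.lift (g := ι₀.comp (mapRingHom φ))
    (hi.comp (map_injective φ φ.injective))
  have hσ : ∀ f, σ (ι₀ f) = ι₀ (f.map φ) := IsFractionRing.lift_algebraMap _
  have hjσ : ∀ x, fr φ (j x) = j (σ x) := DFunLike.congr_fun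
    (IsFractionRing.ringHom_ext (A := K[X]) (f1 := (fr φ).comp j) (f2 := j.comp σ) fun f => by
      simp only [RingHom.comp_apply]
      rw [hσ, hj, hj, fr_ev])
  have : CharP (RatFunc K) p := charP_of_injective_algebraMap (algebraMap K _).injective p
  have : CharP (LS K) p := charP_of_injective_ringHom j.injective p
  obtain ⟨e, c, r, hc0, hc, hr⟩ := kolchin' j p σ (fr φ) hjσ (a := ι₀ (X - C w))
    ((map_ne_zero_iff _ hi).2 (X_sub_C_ne_zero w)) (fun i => ι₀ (C (b i))) G
    (by simpa only [hj] using hG) (fun n hn y hy => eq_zero_of_fr φ ((monic_X_sub_C w).pow n)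
      (by simpa using Nat.pos_of_ne_zero hn) (by rwa [hj, ← map_pow] at hy))
    (P := fun μ => ι₀ (f μ)) (fun h => hf (funext fun μ => (map_eq_zero_iff _ hi).1 (congrFun h μ)))
    (by simpa only [hj] using hdep)
  choose g n hg0 hg hn using fun i => exists_fixed_mul φ hσ (x := c i) (A := 1) (B := 0)
    (by simp [hc])
  choose u hu using fun i => Finset.dvd_prod_of_mem g (Finset.mem_univ i)
  have h1 : ∀ i, ι₀ (∏ i, g i) * c i = ι₀ (u i * n i) := fun i => by
    rw [hu i, map_mul, map_mul, ← hn]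
    ring
  have h2 : (∏ i, g i).map φ = ∏ i, g i := by simp only [Polynomial.map_prod, hg]
  have h3 : ∀ i, (u i * n i).map φ = u i * n i := fun i => hi (by
    rw [← hσ, ← h1, map_mul, hσ, h2, hc])
  have h4 : j (ι₀ (∏ i, g i) * r) = ∑ i, ev (u i * n i) * G i ^ p ^ e := by
    simp only [← hj, ← h1, map_mul j, ← hr, Finset.mul_sum, mul_assoc]
  have h5 : σ (ι₀ (∏ i, g i) * r) = ι₀ ((X - C w) ^ p ^ e) * (ι₀ (∏ i, g i) * r) +
      ι₀ (-((X - C w) ^ p ^ e * ∑ i, u i * n i * C (b i) ^ p ^ e)) := j.injective (by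
    rw [← hjσ, map_add, map_mul j (ι₀ (_ ^ _)), h4, hj, hj, map_neg, map_mul ev, map_pow ev]
    simp only [map_sum, map_mul (fr φ), fr_ev, h3, map_pow, hG, mul_pow, sub_pow_char_pow (R := LS K),
      map_mul ev (_ * _), Finset.mul_sum, ← sub_eq_add_neg, ← Finset.sum_sub_distrib]
    exact Finset.sum_congr rfl fun i _ => by ring)
  obtain ⟨g', r', h6, h7, h8⟩ := exists_fixed_mul φ hσ h5
  refine ⟨e, fun i => g' * (u i * n i), r', fun h => hc0 (funext fun i => ?_),
    fun i => by rw [Polynomial.map_mul, h7, h3], hi ?_⟩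
  · have h9 := h1 i
    rw [(mul_eq_zero.1 (congrFun h i)).resolve_left h6, map_zero] at h9
    exact (mul_eq_zero.1 h9).resolve_left ((map_ne_zero_iff _ hi).2
      (Finset.prod_ne_zero_iff.2 fun i _ => hg0 i))
  · simp only [mul_assoc g', ← Finset.mul_sum]
    rw [← hσ, ← h8, map_mul, hσ, h7, h5, map_neg, map_mul ι₀ (_ ^ _), map_mul ι₀ (_ ^ _), map_sub,
      ← h8, map_mul ι₀ g']
    ring

lemma exists_pow_eq (p : ℕ) [Fact p.Prime] [CharP K p] [PerfectRing K p] {f : K[X]}
    (hf : derivative f = 0) : ∃ g, g ^ p = f :=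
  ⟨(contract p f).map (frobeniusEquiv K p).symm, by
    rw [← map_frobenius_expand, ← map_expand, Polynomial.map_map,
      expand_contract p hf (Fact.out : p.Prime).ne_zero, frobenius_comp_frobeniusEquiv_symm,
      Polynomial.map_id]⟩

theorem descend (p : ℕ) [Fact p.Prime] [CharP K p] [PerfectRing K p] (φ : K →+* K) (w : K)
    (b : ι → K) (e : ℕ) : ∀ (c : ι → K[X]) (r : K[X]), c ≠ 0 → (∀ i, (c i).map φ = c i) →
      r.map φ = (X - C w) ^ p ^ e * (r - ∑ i, c i * C (b i) ^ p ^ e) →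
      ∃ (c : ι → K[X]) (r : K[X]), c ≠ 0 ∧ (∀ i, (c i).map φ = c i) ∧
        r.map φ = (X - C w) * (r - ∑ i, c i * C (b i)) := by
  have hp : p ≠ 0 := (Fact.out : p.Prime).ne_zero
  induction e with
  | zero => exact fun c r h1 h2 h3 => ⟨c, r, h1, h2, by simpa using h3⟩
  | succ e ih =>
    intro c r
    induction h : ∑ i, (c i).natDegree using Nat.strong_induction_on generalizing c r with
    | _ n ih' =>
    intro h1 h2 h3
    have h4 := congrArg derivative h3
    simp only [derivative_map, derivative_mul, derivative_pow, Nat.cast_pow, CharP.cast_eq_zero,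
      ne_eq, Nat.succ_ne_zero, not_false_eq_true, zero_pow, map_zero, zero_mul, zero_add, mul_zero,
      add_zero, derivative_sub, derivative_sum] at h4
    by_cases h5 : (fun i => derivative (c i)) = 0
    · have h6 : ∀ i, derivative (c i) = 0 := congrFun h5
      simp only [h6, zero_mul, Finset.sum_const_zero, sub_zero] at h4
      obtain ⟨s, rfl⟩ := exists_pow_eq p (f := r) (ev_injective ((eq_zero_of_fr φ
        ((monic_X_sub_C w).pow (p ^ (e + 1))) (by simpa using Nat.pos_of_ne_zero (pow_ne_zero _ hp))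
        (by rw [fr_ev, h4, map_mul])).trans (map_zero _).symm))
      choose d hd using fun i => exists_pow_eq p (h6 i)
      refine ih d s (fun h => h1 (funext fun i => by simp [← hd, h, hp]))
        (fun i => frobenius_inj _ p ?_) (frobenius_inj _ p ?_)
      · rw [frobenius_def, frobenius_def, ← Polynomial.map_pow, hd, h2]
      · simp only [map_mul, map_sub, map_sum, frobenius_def, ← Polynomial.map_pow, hd, ← pow_mul,
          ← pow_succ, h3]
    · obtain ⟨i, hi⟩ := Function.ne_iff.1 h5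
      refine ih' _ (h ▸ Finset.sum_lt_sum (fun i _ => natDegree_derivative_le _ |>.trans
        (Nat.sub_le _ _)) ⟨i, Finset.mem_univ _, natDegree_derivative_lt fun h0 => hi ?_⟩) _ _ rfl h5
        (fun i => by rw [← derivative_map, h2]) h4
      exact derivative_of_natDegree_zero h0

lemma untwist {φ : K →+* K} (hφ : Function.Surjective φ) {w : K} {b : ι → K} {c : ι → K[X]}
    (hc : ∀ i, (c i).map φ = c i) {r : K[X]}
    (h : r.map φ = (X - C (φ w)) * (r - ∑ i, c i * C (φ (b i)))) :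
    ∃ s : K[X], s.map φ = r ∧ r = (X - C w) * (s - ∑ i, c i * C (b i)) := by
  obtain ⟨s, rfl⟩ := map_surjective φ hφ r
  refine ⟨s, rfl, map_injective φ φ.injective ?_⟩
  simpa [Polynomial.map_sum, hc] using h

lemma untwist_iter {φ : K →+* K} (hφ : Function.Surjective φ) {c : ι → K[X]}
    (hc : ∀ i, (c i).map φ = c i) (m : ℕ) {w : K} {b : ι → K} : ∀ {r : K[X]},
    r.map φ = (X - C (φ^[m] w)) * (r - ∑ i, c i * C (φ^[m] (b i))) →
    ∃ s : K[X], s.map φ = (X - C w) * (s - ∑ i, c i * C (b i)) := by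
  induction m with
  | zero => exact fun h => ⟨_, h⟩
  | succ m ih =>
    intro r h
    simp only [Function.iterate_succ_apply'] at h
    obtain ⟨s, h1, h2⟩ := untwist hφ hc h
    exact ih (h1.trans h2)

end Pool.Agent.Lib.MP_1f047c_nt.Car
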