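import Mathlib

/-! Growth of powers of a subspace of a function field, and two elimination lemmas. -/

namespace Pool.Agent.Lib.MP_1f047c_nt.Car

open Polynomial IntermediateField Module Submodule

variable {F K : Type*} [Field F] [Field K] [Algebra F K]

lemma pow_mono' {A : Type*} [CommRing A] [Algebra F A] {V : Submodule F A} (h1 : (1 : A) ∈ V) :
    Monotone fun n : ℕ => V ^ n :=
  monotone_nat_of_le_succ fun n x hx => by
    simpa only [pow_succ, mul_one] using mul_mem_mul hx h1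

lemma mul_mem_pow {A : Type*} [CommRing A] [Algebra F A] {V : Submodule F A} {a b : ℕ} {x y : A}
    (hx : x ∈ V ^ a) (hy : y ∈ V ^ b) : x * y ∈ V ^ (a + b) := by
  rw [pow_add]; exact mul_mem_mul hx hy

lemma pow_mem_pow' {A : Type*} [CommRing A] [Algebra F A] {V : Submodule F A} {a : ℕ} {x : A}
    (hx : x ∈ V ^ a) (n : ℕ) : x ^ n ∈ V ^ (a * n) := by
  rw [pow_mul]; exact pow_mem_pow _ hx n

lemma aeval_mem_pow {V : Submodule F K} (h1 : (1 : K) ∈ V) {θ : K} (hθ : θ ∈ V) (g : F[X]) :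
    aeval θ g ∈ V ^ g.natDegree := by
  rw [aeval_eq_sum_range]
  exact Submodule.sum_mem _ fun i hi => Submodule.smul_mem _ _
    (pow_mono' h1 (Nat.lt_succ_iff.1 (Finset.mem_range.1 hi)) (pow_mem_pow _ hθ i))

/-- A subspace that acts on a finite dimensional subspace up to bounded polynomials. -/
def Tame (P V : Submodule F K) : Prop :=
  ∃ (W : Submodule F K) (δ : K) (c : ℕ), W.FG ∧ (1 : K) ∈ W ∧ δ ≠ 0 ∧ δ ∈ P ^ c ∧
    span F {δ} * V * W ≤ P ^ c * W

lemma Tame.sup {P V V' : Submodule F K} (h : Tame P V) (h' : Tame P V') : Tame P (V ⊔ V') := by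
  obtain ⟨W, δ, c, h1, h2, h3, h4, h5⟩ := h
  obtain ⟨W', δ', c', h1', h2', h3', h4', h5'⟩ := h'
  refine ⟨W * W', δ * δ', c + c', h1.mul h1', by simpa using mul_mem_mul h2 h2',
    mul_ne_zero h3 h3', mul_mem_pow h4 h4', ?_⟩
  have e : span F {δ * δ'} = span F {δ} * span F {δ'} := by
    rw [span_mul_span, Set.singleton_mul_singleton]
  rw [e, Submodule.mul_sup, Submodule.sup_mul]
  refine sup_le ?_ ?_
  · calc _ = (span F {δ} * V * W) * span F {δ'} * W' := by ac_rfl
      _ ≤ (P ^ c * W) * P ^ c' * W' := by gcongr; simpa using h4'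
      _ = _ := by rw [pow_add]; ac_rfl
  · calc _ = (span F {δ'} * V' * W') * span F {δ} * W := by ac_rfl
      _ ≤ (P ^ c' * W') * P ^ c * W := by gcongr; simpa using h4
      _ = _ := by rw [pow_add]; ac_rfl

lemma tame_single {θ s : K} (hs : IsAlgebraic F⟮θ⟯ s) : Tame (span F {1, θ}) (span F {s}) := by
  obtain ⟨f, hf0, hf⟩ := IntermediateField.isAlgebraic_adjoin_iff.1 hs
  set P : Submodule F K := span F {1, θ}
  have hP1 : (1 : K) ∈ P := subset_span (by simp)
  have hA : ∀ a : Algebra.adjoin F {θ}, ∀ᶠ c in Filter.atTop, (a : K) ∈ P ^ c := by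
    rintro ⟨a, ha⟩
    rw [Algebra.adjoin_singleton_eq_range_aeval] at ha
    obtain ⟨g, rfl⟩ := ha
    exact (Filter.eventually_ge_atTop g.natDegree).mono fun c hc =>
      pow_mono' hP1 hc (aeval_mem_pow hP1 (subset_span (by simp)) g)
  obtain ⟨c, hc⟩ := ((Finset.range (f.natDegree + 1)).eventually_all.2
    fun i _ => hA (f.coeff i)).exists
  have hδ := hc f.natDegree (Finset.self_mem_range_succ _)
  let W : Submodule F K := span F ((fun i => s ^ i) '' Set.Iic f.natDegree)
  have hW : ∀ i ≤ f.natDegree, s ^ i ∈ W := fun i hi => subset_span ⟨i, hi, rfl⟩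
  refine ⟨W, f.coeff f.natDegree, c, fg_span ((Set.finite_Iic _).image _),
    by simpa using hW 0 (Nat.zero_le _), by simpa using hf0, hδ, ?_⟩
  rw [span_mul_span, span_mul_span, span_le]
  rintro _ ⟨_, ⟨_, rfl, t, ht, rfl⟩, _, ⟨i, hi, rfl⟩, rfl⟩
  rw [show t = s from ht]
  rcases (Set.mem_Iic.1 hi).eq_or_lt with rfl | h
  · rw [aeval_eq_sum_range, Finset.sum_range_succ] at hf
    have : (f.coeff f.natDegree : K) * s * s ^ f.natDegree =
        -∑ i ∈ Finset.range f.natDegree, (f.coeff i : K) * s ^ (i + 1) := by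
      have h1 := congrArg (· * s) hf
      simp only [add_mul, Finset.sum_mul, zero_mul, Algebra.smul_def, mul_assoc, ← pow_succ] at h1
      rw [mul_assoc, ← pow_succ']
      exact eq_neg_of_add_eq_zero_right h1
    change _ * _ * _ ∈ _
    rw [this]
    refine neg_mem (Submodule.sum_mem _ fun i hi => mul_mem_mul (hc i ?_) (hW _ ?_))
    · exact Finset.mem_range.2 (Nat.lt_succ_of_lt (Finset.mem_range.1 hi))
    · exact Finset.mem_range.1 hi
  · change _ * _ * _ ∈ _
    rw [mul_assoc, ← pow_succ']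
    exact mul_mem_mul hδ (hW _ h)

lemma tame_span {θ : K} (S : Finset K) (hS : ∀ s ∈ S, IsAlgebraic F⟮θ⟯ s) :
    Tame (span F {1, θ}) (span F (S : Set K)) := by
  classical
  induction S using Finset.induction_on with
  | empty =>
    exact ⟨span F {1}, 1, 0, fg_span (Set.finite_singleton _), mem_span_singleton_self _,
      one_ne_zero, by simp, by simp⟩
  | insert s S _ ih =>
    rw [Finset.coe_insert, span_insert s]
    exact (tame_single (hS s (Finset.mem_insert_self _ _))).sup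
      (ih fun t ht => hS t (Finset.mem_insert_of_mem ht))

lemma finrank_line_pow (θ : K) (n : ℕ) : finrank F ↥(span F {1, θ} ^ n : Submodule F K) ≤ n + 1 := by
  classical
  have h : (span F {1, θ} ^ n : Submodule F K) ≤
      span F ((Finset.range (n + 1)).image fun i => θ ^ i : Finset K) := by
    induction n with
    | zero => simp [Submodule.one_le]
    | succ n ih =>
      rw [pow_succ]
      refine (mul_le_mul_left ih _).trans ?_
      rw [span_mul_span, span_le]
      rintro _ ⟨_, hx, y, hy, rfl⟩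
      obtain ⟨i, hi, rfl⟩ := Finset.mem_image.1 hx
      have := Finset.mem_range.1 hi
      rcases hy with rfl | rfl
      · exact subset_span (Finset.mem_image.2 ⟨i, Finset.mem_range.2 (by omega), by simp⟩)
      · exact subset_span (Finset.mem_image.2 ⟨i + 1, Finset.mem_range.2 (by omega), pow_succ _ _⟩)
  refine (finrank_mono h).trans ((finrank_span_finset_le_card _).trans ?_)
  exact Finset.card_image_le.trans (Finset.card_range _).le

lemma finrank_mul_le {M N : Submodule F K} (hM : M.FG) (hN : N.FG) :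
    finrank F ↥(M * N) ≤ finrank F M * finrank F N := by
  have := Module.Finite.iff_fg.2 hM
  have := Module.Finite.iff_fg.2 hN
  rw [← mulMap_range, ← Module.finrank_tensorProduct]
  exact LinearMap.finrank_range_le _

theorem finrank_pow_le {θ : K} (S : Finset K) (hS : ∀ s ∈ S, IsAlgebraic F⟮θ⟯ s) :
    ∃ C : ℕ, ∀ n, finrank F ↥(span F (S : Set K) ^ n : Submodule F K) ≤ C * (n + 1) := by
  obtain ⟨W, δ, c, h1, h2, h3, -, h5⟩ := tame_span S hS
  set V : Submodule F K := span F (S : Set K)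
  set P : Submodule F K := span F {1, θ}
  have h6 : ∀ n, (span F {δ} * V) ^ n * W ≤ P ^ (c * n) * W := by
    intro n
    induction n with
    | zero => simp
    | succ n ih =>
      calc _ = (span F {δ} * V) ^ n * (span F {δ} * V * W) := by rw [pow_succ, mul_assoc]
        _ ≤ (span F {δ} * V) ^ n * (P ^ c * W) := by gcongr
        _ = P ^ c * ((span F {δ} * V) ^ n * W) := by ac_rfl
        _ ≤ P ^ c * (P ^ (c * n) * W) := by gcongr
        _ = _ := by rw [← mul_assoc, ← pow_add]; congr 2; ring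
  refine ⟨(c + 1) * finrank F W, fun n => ?_⟩
  have hfg : (P ^ (c * n) * W).FG := ((fg_span (Set.toFinite _)).pow _).mul h1
  have := Module.Finite.iff_fg.2 hfg
  have h7 : (V ^ n).map (LinearMap.mulLeft F (δ ^ n)) ≤ P ^ (c * n) * W := by
    rintro _ ⟨x, hx, rfl⟩
    refine h6 n ?_
    rw [mul_pow]
    simpa using mul_mem_mul (mul_mem_mul (pow_mem_pow _ (mem_span_singleton_self δ) n) hx) h2
  have h8 := (equivMapOfInjective (LinearMap.mulLeft F (δ ^ n))
    (mul_right_injective₀ (pow_ne_zero n h3)) (V ^ n)).finrank_eq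
  calc _ ≤ finrank F ↥(P ^ (c * n) * W) := h8 ▸ finrank_mono h7
    _ ≤ (c * n + 1) * finrank F W :=
        (finrank_mul_le ((fg_span (Set.toFinite _)).pow _) h1).trans
          (Nat.mul_le_mul_right _ (finrank_line_pow θ _))
    _ ≤ _ := by nlinarith [Nat.zero_le (finrank F W * c), Nat.zero_le (finrank F W * n)]

lemma exists_slow (f : ℕ → ℕ) {C : ℕ} (h1 : ∀ n, f n ≤ C * (n + 1)) (h2 : ∀ n, 0 < f n) (c : ℕ)
    {κ : ℝ} (hκ : 1 < κ) : ∃ m, ∀ Q, 1 ≤ Q → (f ((m + c) * Q) : ℝ) ≤ κ * Q * f m := by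
  obtain ⟨κ', h3, h4⟩ := exists_between hκ
  obtain ⟨m₁, hm₁⟩ := exists_nat_gt (κ' * c / (κ - κ'))
  let T : Set ℝ := (fun m : ℕ => (f m : ℝ) / m) '' Set.Ioi m₁
  have hT : BddAbove T := ⟨2 * C, by
    rintro _ ⟨m, hm, rfl⟩
    have h5 : 1 ≤ m := Nat.one_le_of_lt hm
    rw [div_le_iff₀ (by exact_mod_cast h5)]
    exact_mod_cast (h1 m).trans (by nlinarith)⟩
  have hne : T.Nonempty := ⟨_, m₁ + 1, Nat.lt_succ_self _, rfl⟩
  have hpos : 0 < sSup T := lt_of_lt_of_le
    (div_pos (by exact_mod_cast h2 _) (by positivity))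
    (le_csSup hT ⟨m₁ + 1, Nat.lt_succ_self _, rfl⟩)
  obtain ⟨_, ⟨m, hm, rfl⟩, h5⟩ := exists_lt_of_lt_csSup hne (div_lt_self hpos h3)
  have hm' : m₁ < m := hm
  have hm0 : (0 : ℝ) < m := by exact_mod_cast Nat.zero_lt_of_lt hm'
  refine ⟨m, fun Q hQ => ?_⟩
  have h6 : m₁ < (m + c) * Q := by nlinarith
  have h7 := le_csSup hT ⟨_, h6, rfl⟩
  rw [div_le_iff₀ (by exact_mod_cast Nat.zero_lt_of_lt h6)] at h7
  rw [div_lt_div_iff₀ (by linarith) hm0] at h5
  rw [div_lt_iff₀ (by linarith)] at hm₁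
  have h8 : κ' * (m + c) ≤ κ * m := by
    have : (m₁ : ℝ) < m := by exact_mod_cast hm'
    nlinarith
  push_cast at h7
  have h9 : sSup T * (m + c) ≤ κ * f m := by
    refine le_of_mul_le_mul_right ?_ hm0
    have h10 : (0 : ℝ) ≤ f m := by positivity
    have h11 : (0 : ℝ) ≤ m + c := by positivity
    nlinarith [mul_le_mul_of_nonneg_right h5.le h11, mul_le_mul_of_nonneg_left h8 h10]
  have h12 : (0 : ℝ) ≤ Q := by positivity
  nlinarith [mul_le_mul_of_nonneg_right h9 h12]

lemma siegel {U ι : Type*} [AddCommGroup U] [Module F U] [Module.Finite F U] [Fintype ι]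
    (f : ι → U →ₗ[F] K) (W : Submodule F K) [Module.Finite F W] (hf : ∀ i u, f i u ∈ W)
    (h : Fintype.card ι * finrank F W < finrank F U) : ∃ u ≠ 0, ∀ i, f i u = 0 := by
  obtain ⟨u, hu, h0⟩ := (Submodule.ne_bot_iff _).1 (LinearMap.ker_ne_bot_of_finrank_lt
    (f := LinearMap.pi fun i => (f i).codRestrict W (hf i)) (by
      rwa [Module.finrank_pi_fintype, Finset.sum_const, Finset.card_univ, smul_eq_mul]))
  exact ⟨u, h0, fun i => congrArg Subtype.val (congrFun hu i)⟩

lemma eliminate {R : Type*} [CommRing R] [IsDomain R] (S : ℕ → AddSubgroup R) (hS : Monotone S)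
    (hmul : ∀ a b x y, x ∈ S a → y ∈ S b → x * y ∈ S (a + b)) (h1 : 1 ∈ S 0) (l : ℕ) :
    ∀ (c : ℕ) (x : Fin (l + 1) → Fin l → R), (∀ j e, x j e ∈ S c) →
      ∃ a : Fin (l + 1) → R, a ≠ 0 ∧ (∀ j, a j ∈ S (c * 3 ^ l)) ∧ ∀ e, ∑ j, a j * x j e = 0 := by
  induction l with
  | zero => exact fun c x _ => ⟨1, one_ne_zero, fun _ => hS (Nat.zero_le _) h1, fun e => e.elim0⟩
  | succ l ih =>
    intro c x hx
    obtain ⟨j₀, π, hπ0, hπ, hπ'⟩ : ∃ j₀ π, π ≠ 0 ∧ π ∈ S c ∧ ∀ j, π * x j 0 = x j 0 * x j₀ 0 := by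
      by_cases h : ∀ j, x j 0 = 0
      · exact ⟨0, 1, one_ne_zero, hS (Nat.zero_le _) h1, by simp [h]⟩
      · push Not at h
        obtain ⟨j₀, h⟩ := h
        exact ⟨j₀, _, h, hx _ _, fun j => mul_comm _ _⟩
    obtain ⟨a, ha0, ha, ha'⟩ := ih (c + c)
      (fun j e => π * x (j₀.succAbove j) e.succ - x (j₀.succAbove j) 0 * x j₀ e.succ)
      fun j e => sub_mem (hmul _ _ _ _ hπ (hx _ _)) (hmul _ _ _ _ (hx _ _) (hx _ _))
    have hle : (c + c) * 3 ^ l + c ≤ c * 3 ^ (l + 1) := by
      have : 1 ≤ 3 ^ l := Nat.one_le_pow _ _ (by norm_num)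
      rw [pow_succ]
      nlinarith
    refine ⟨j₀.insertNth (-∑ j, a j * x (j₀.succAbove j) 0) fun j => a j * π, fun h => ha0 ?_,
      fun j => ?_, fun e => ?_⟩
    · funext j
      have := congrFun h (j₀.succAbove j)
      simpa [hπ0] using this
    · refine j₀.succAboveCases ?_ (fun j => ?_) j
      · rw [Fin.insertNth_apply_same]
        exact neg_mem (sum_mem fun j _ => hS hle (hmul _ _ _ _ (ha j) (hx _ _)))
      · rw [Fin.insertNth_apply_succAbove]
        exact hS hle (hmul _ _ _ _ (ha j) hπ)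
    · rw [Fin.sum_univ_succAbove _ j₀]
      simp only [Fin.insertNth_apply_same, Fin.insertNth_apply_succAbove, neg_mul, Finset.sum_mul]
      rw [neg_add_eq_sub, ← Finset.sum_sub_distrib]
      refine Fin.cases ?_ (fun e => ?_) e
      · exact Finset.sum_eq_zero fun j _ => by rw [mul_assoc, hπ', mul_assoc, sub_self]
      · rw [← ha' e]
        exact Finset.sum_congr rfl fun j _ => by ring

end Pool.Agent.Lib.MP_1f047c_nt.Car
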