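import Mathlib

/-! A Kolchin-Ostrowski lemma for first order difference equations in characteristic `p`. -/

namespace Pool.Agent.Lib.MP_1f047c_nt.Car

open MvPolynomial

variable {ι E : Type*} [Field E]

/-- Polynomials of total degree less than `r`. -/
def Low (ι E : Type*) [Field E] (r : ℤ) : Submodule E (MvPolynomial ι E) where
  carrier := {P | ∀ μ : ι →₀ ℕ, r ≤ (μ.degree : ℕ) → coeff μ P = 0}
  add_mem' ha hb μ h := by rw [coeff_add, ha μ h, hb μ h, add_zero]
  zero_mem' _ _ := rfl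
  smul_mem' c _ hx μ h := by rw [coeff_smul, hx μ h, smul_zero]

lemma Low.mono {r s : ℤ} (h : r ≤ s) {P : MvPolynomial ι E} (hP : P ∈ Low ι E r) :
    P ∈ Low ι E s := fun μ hμ => hP μ (h.trans hμ)

lemma Low.mul_X {r : ℤ} {P : MvPolynomial ι E} (hP : P ∈ Low ι E r) (i : ι) :
    P * X i ∈ Low ι E (r + 1) := by
  classical
  intro μ hμ
  rw [coeff_mul_X']
  split_ifs with h
  · refine hP _ ?_
    have h1 : μ = μ - Finsupp.single i 1 + Finsupp.single i 1 :=
      (tsub_add_cancel_of_le (by simpa [Nat.one_le_iff_ne_zero] using h)).symm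
    rw [h1, map_add, Finsupp.degree_single] at hμ
    omega
  · rfl

lemma Low.C_mul {r : ℤ} {P : MvPolynomial ι E} (hP : P ∈ Low ι E r) (c : E) :
    C c * P ∈ Low ι E r := by
  rw [← smul_eq_C_mul]; exact Submodule.smul_mem _ _ hP

lemma monomial_mem_low (μ : ι →₀ ℕ) (c : E) :
    monomial μ c ∈ Low ι E ((μ.degree : ℕ) + 1) := by
  classical
  intro ν hν
  rw [coeff_monomial, if_neg]
  rintro rfl
  omega

lemma Low.expand {r : ℤ} {P : MvPolynomial ι E} (hP : P ∈ Low ι E r) (N : ℕ) :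
    expand N P ∈ Low ι E (N * (r - 1) + 1) := by
  classical
  intro μ hμ
  by_contra h
  obtain ⟨ν, hν, rfl⟩ := Finset.mem_image.1 (support_expand_subset P (mem_support_iff.2 h))
  have h1 : ¬ r ≤ (ν.degree : ℕ) := fun h => mem_support_iff.1 hν (hP ν h)
  rw [map_nsmul, smul_eq_mul] at hμ
  push_cast at hμ
  have h2 : (N : ℤ) * (ν.degree : ℕ) ≤ N * (r - 1) :=
    mul_le_mul_of_nonneg_left (by omega) (by positivity)
  omega

/-- The shift of the variables. -/
noncomputable def sh (b : ι → E) : MvPolynomial ι E →ₐ[E] MvPolynomial ι E :=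
  aeval fun i => X i - C (b i)

/-- The directional derivative. -/
noncomputable def dir [Fintype ι] (b : ι → E) : MvPolynomial ι E →ₗ[E] MvPolynomial ι E :=
  ∑ i, b i • (pderiv i).toLinearMap

lemma dir_apply [Fintype ι] (b : ι → E) (Q : MvPolynomial ι E) :
    dir b Q = ∑ i, b i • pderiv i Q := by
  simp [dir, LinearMap.sum_apply]

lemma sh_monomial [Fintype ι] (b : ι → E) (c : E) (n : ℕ) : ∀ μ : ι →₀ ℕ, μ.degree = n →
    dir b (monomial μ c) ∈ Low ι E n ∧
      sh b (monomial μ c) - monomial μ c + dir b (monomial μ c) ∈ Low ι E (n - 1) := by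
  classical
  induction n with
  | zero =>
    intro μ hμ
    obtain rfl := (Finsupp.degree_eq_zero_iff μ).1 hμ
    simp [dir_apply, sh]
  | succ n ih =>
    intro μ hμ
    obtain ⟨i, hi⟩ : ∃ i, μ i ≠ 0 := by
      by_contra h
      push Not at h
      rw [show μ = 0 from Finsupp.ext h] at hμ
      simp at hμ
    obtain ⟨ν, rfl⟩ : ∃ ν, μ = ν + Finsupp.single i 1 :=
      ⟨_, (tsub_add_cancel_of_le (by simpa [Nat.one_le_iff_ne_zero] using hi)).symm⟩
    rw [map_add, Finsupp.degree_single] at hμ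
    have hν : ν.degree = n := by omega
    obtain ⟨h1, h2⟩ := ih ν hν
    have h3 := monomial_mem_low ν c
    rw [hν] at h3
    rw [monomial_add_single, pow_one]
    set Q := monomial ν c
    have h4 : dir b (Q * X i) = dir b Q * X i + C (b i) * Q := by
      simp only [dir_apply, Derivation.leibniz, smul_add, Finset.sum_add_distrib, pderiv_X,
        smul_eq_mul, Finset.sum_mul]
      rw [add_comm, add_comm _ (C (b i) * Q),
        add_comm, Finset.sum_eq_single (s := Finset.univ) i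
          (f := fun j => b j • (Q * (Pi.single j (1 : MvPolynomial ι E) : ι → _) i))
          (fun j _ hj => by simp [Ne.symm hj]) (by simp)]
      simp [smul_eq_C_mul, mul_comm, mul_left_comm]
    refine ⟨?_, ?_⟩
    · rw [h4]
      push_cast
      exact add_mem (Low.mul_X h1 i) (Low.C_mul h3 _)
    · have h5 : sh b (Q * X i) - Q * X i + dir b (Q * X i) =
          (sh b Q - Q + dir b Q) * X i - C (b i) * ((sh b Q - Q + dir b Q) - dir b Q) := by
        rw [h4, map_mul, sh, aeval_X]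
        ring
      rw [h5]
      exact sub_mem (Low.mono (by omega) (Low.mul_X h2 i))
        (Low.C_mul (sub_mem (Low.mono (by omega) h2) (Low.mono (by omega) h1)) _)

lemma Low.sh [Fintype ι] (b : ι → E) {r : ℤ} {Q : MvPolynomial ι E} (hQ : Q ∈ Low ι E (r + 1)) :
    dir b Q ∈ Low ι E r ∧ sh b Q - Q + dir b Q ∈ Low ι E (r - 1) := by
  have h : ∀ μ ∈ Q.support, ((μ.degree : ℕ) : ℤ) ≤ r := fun μ hμ => by
    by_contra h
    exact mem_support_iff.1 hμ (hQ μ (by omega))
  rw [Q.as_sum]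
  simp only [map_sum, ← Finset.sum_sub_distrib, ← Finset.sum_add_distrib]
  exact ⟨sum_mem fun μ hμ => Low.mono (h μ hμ) (sh_monomial b _ _ μ rfl).1,
    sum_mem fun μ hμ => Low.mono (by linarith [h μ hμ]) (sh_monomial b _ _ μ rfl).2⟩

lemma Low.coeff_sh [Fintype ι] (b : ι → E) {r : ℤ} {Q : MvPolynomial ι E}
    (hQ : Q ∈ Low ι E (r + 1)) {μ : ι →₀ ℕ} (hμ : r ≤ (μ.degree : ℕ)) :
    coeff μ (Car.sh b Q) = coeff μ Q := by
  have h := (Low.sh b hQ).2 μ (by omega)
  rwa [coeff_add, (Low.sh b hQ).1 μ hμ, add_zero, coeff_sub, sub_eq_zero] at h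

/-- Twisting the coefficients and scaling the variables. -/
noncomputable def tw (σ : E →+* E) (a : E) : MvPolynomial ι E →+* MvPolynomial ι E :=
  eval₂Hom (C.comp σ) fun i => C a * X i

lemma coeff_tw (σ : E →+* E) (a : E) (P : MvPolynomial ι E) (μ : ι →₀ ℕ) :
    coeff μ (tw σ a P) = a ^ μ.degree * σ (coeff μ P) := by
  classical
  induction P using MvPolynomial.induction_on' with
  | add p q hp hq => simp [hp, hq, mul_add]
  | monomial ν c =>
    have : tw σ a (monomial ν c) = monomial ν (a ^ ν.degree * σ c) := by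
      rw [tw, eval₂Hom_monomial, monomial_eq]
      simp only [mul_pow, Finsupp.prod_mul, RingHom.comp_apply, map_mul, map_pow]
      rw [Finsupp.prod, Finset.prod_pow_eq_pow_sum, Finsupp.degree_apply]
      ring
    rw [this, coeff_monomial, coeff_monomial]
    split_ifs with h
    · rw [h]
    · simp

lemma exists_expand (p : ℕ) [Fact p.Prime] [CharP E p] (n : ℕ) :
    ∀ (H : MvPolynomial ι E) (μ : ι →₀ ℕ), μ.degree = n → μ ≠ 0 → coeff μ H ≠ 0 →
      ∃ (e : ℕ) (Q : MvPolynomial ι E), expand (p ^ e) Q = H ∧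
        ∃ i ν, coeff ν (pderiv i Q) ≠ 0 := by
  classical
  have hp : p.Prime := Fact.out
  induction n using Nat.strong_induction_on with
  | h n ih =>
    intro H μ hμ hμ0 hH
    by_cases h : ∃ i ν, coeff ν (pderiv i H) ≠ 0
    · exact ⟨0, H, by simp, h⟩
    push Not at h
    have h1 : ∀ ν ∈ H.support, ∃ ν', ν = p • ν' := fun ν hν => by
      refine ⟨ν.mapRange (· / p) (by simp), Finsupp.ext fun i => ?_⟩
      rw [Finsupp.smul_apply, Finsupp.mapRange_apply, smul_eq_mul, Nat.mul_div_cancel']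
      by_cases hi : ν i = 0
      · simp [hi]
      obtain ⟨ν', rfl⟩ : ∃ ν', ν = ν' + Finsupp.single i 1 :=
        ⟨_, (tsub_add_cancel_of_le (by simpa [Nat.one_le_iff_ne_zero] using hi)).symm⟩
      have h2 := h i ν'
      rw [coeff_pderiv, mul_eq_zero] at h2
      have h3 := h2.resolve_left (mem_support_iff.1 hν)
      rw [← CharP.cast_eq_zero_iff E p]
      simpa using h3
    choose! f hf using h1
    have h2 : expand p (∑ ν ∈ H.support, monomial (f ν) (coeff ν H)) = H := by
      rw [map_sum]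
      conv_rhs => rw [H.as_sum]
      exact Finset.sum_congr rfl fun ν hν => by rw [expand_monomial, ← hf ν hν]
    have h3 := hf μ (mem_support_iff.2 hH)
    have h4 : f μ ≠ 0 := fun h => hμ0 (by rw [h3, h, smul_zero])
    obtain ⟨e, Q, h5, h6⟩ := ih (f μ).degree (by
      rw [← hμ]
      conv_rhs => rw [h3, map_nsmul, smul_eq_mul]
      have := (Finsupp.degree_eq_zero_iff _).not.2 h4
      nlinarith [hp.two_le, Nat.pos_of_ne_zero this]) _ (f μ) rfl h4
      (by rwa [← coeff_expand_smul p hp.ne_zero, h2, ← h3])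
    exact ⟨e + 1, Q, by rw [pow_succ', expand_mul, h5, h2], h6⟩

theorem kolchin [Fintype ι] {L : Type*} [Field L] [Algebra E L] (p : ℕ) [Fact p.Prime] [CharP E p]
    (σ₀ : E →+* E) (σ : L →+* L) (hσ : ∀ x, σ (algebraMap E L x) = algebraMap E L (σ₀ x))
    {a : E} (ha : a ≠ 0) (b : ι → E) (G : ι → L)
    (hG : ∀ i, σ (G i) = algebraMap E L a * (G i - algebraMap E L (b i)))
    (h0 : ∀ j ≠ 0, ∀ y : L, σ y = algebraMap E L a ^ j * y → y = 0)
    (hdep : ¬ AlgebraicIndependent E G) :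
    ∃ (e : ℕ) (c : ι → E) (r : E), c ≠ 0 ∧ (∀ i, σ₀ (c i) = c i) ∧
      ∑ i, algebraMap E L (c i) * G i ^ p ^ e = algebraMap E L r := by
  classical
  have hp : p.Prime := Fact.out
  have hT : ∀ P : MvPolynomial ι E, aeval G (sh b (tw σ₀ a P)) = σ (aeval G P) := fun P => by
    induction P using MvPolynomial.induction_on with
    | C c => simp [tw, sh, hσ]
    | add p q hp hq => simp [hp, hq]
    | mul_X q i hq =>
      rw [map_mul, map_mul, map_mul, map_mul, map_mul, hq]
      simp [tw, sh, hG]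
  have hex : ∃ d : ℕ, ∃ P ∈ Low ι E (d + 1), P ≠ 0 ∧ aeval G P = 0 := by
    rw [algebraicIndependent_iff] at hdep
    push Not at hdep
    obtain ⟨P, h1, h2⟩ := hdep
    exact ⟨P.totalDegree, P, fun μ hμ => coeff_eq_zero_of_totalDegree_lt (by
      rw [← Finsupp.degree_apply]; omega), h2, h1⟩
  set d := Nat.find hex
  have hmin : ∀ P ∈ Low ι E d, aeval G P = 0 → P = 0 := fun P hP h => by
    by_contra h1
    rcases Nat.eq_zero_or_pos d with h2 | h2
    · exact h1 (MvPolynomial.ext _ _ fun μ => hP μ (by omega))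
    · exact Nat.find_min hex (m := d - 1) (by omega) ⟨P, Low.mono (by omega) hP, h1, h⟩
  have hex' : ∃ m : ℕ, ∃ P ∈ Low ι E (d + 1), P ≠ 0 ∧ aeval G P = 0 ∧
      (P.support.filter fun μ => μ.degree = d).card = m :=
    let ⟨P, h1, h2, h3⟩ := Nat.find_spec hex; ⟨_, P, h1, h2, h3, rfl⟩
  obtain ⟨P₀, hP₀, hP₀0, hP₀G, hcard⟩ := Nat.find_spec hex'
  obtain ⟨μ₀, hμ₀, hμ₀'⟩ : ∃ μ₀ : ι →₀ ℕ, μ₀.degree = d ∧ coeff μ₀ P₀ ≠ 0 := by
    by_contra h
    push Not at h
    refine hP₀0 (hmin P₀ (fun μ hμ => ?_) hP₀G)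
    rcases (show μ.degree = d ∨ (d : ℤ) + 1 ≤ (μ.degree : ℕ) by omega) with h1 | h1
    exacts [h μ h1, hP₀ μ h1]
  obtain ⟨P, hPdef⟩ : ∃ P, P = C (coeff μ₀ P₀)⁻¹ * P₀ := ⟨_, rfl⟩
  have hP : P ∈ Low ι E (d + 1) := hPdef ▸ Low.C_mul hP₀ _
  have hPG : aeval G P = 0 := by rw [hPdef, map_mul, hP₀G, mul_zero]
  have hP1 : coeff μ₀ P = 1 := by rw [hPdef, coeff_C_mul, inv_mul_cancel₀ hμ₀']
  have htw : ∀ {r : ℤ} {Q : MvPolynomial ι E}, Q ∈ Low ι E r → tw σ₀ a Q ∈ Low ι E r :=
    fun hQ μ hμ => by rw [coeff_tw, hQ μ hμ, map_zero, mul_zero]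
  have htop : ∀ μ : ι →₀ ℕ, d ≤ μ.degree → coeff μ (sh b (tw σ₀ a P) - C (a ^ d) * P) =
      a ^ μ.degree * σ₀ (coeff μ P) - a ^ d * coeff μ P := fun μ hμ => by
    rw [coeff_sub, Low.coeff_sh b (htw hP) (by omega), coeff_tw, coeff_C_mul]
  have hZ : sh b (tw σ₀ a P) - C (a ^ d) * P = 0 := by
    by_contra h
    refine Nat.find_min hex' (lt_of_lt_of_eq ?_ hcard) ⟨_, fun μ hμ => ?_, h, ?_, rfl⟩
    · refine Finset.card_lt_card ⟨fun μ hμ => ?_, fun h => ?_⟩
      · obtain ⟨h1, h2⟩ := Finset.mem_filter.1 hμ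
        refine Finset.mem_filter.2 ⟨mem_support_iff.2 fun h3 => mem_support_iff.1 h1 ?_, h2⟩
        rw [htop μ h2.ge, hPdef, coeff_C_mul, h3]
        simp
      · have := (Finset.mem_filter.1 (h (Finset.mem_filter.2 ⟨mem_support_iff.2 hμ₀', hμ₀⟩))).1
        rw [mem_support_iff, htop μ₀ hμ₀.ge, hP1, hμ₀] at this
        simp at this
    · rw [htop μ (by omega), hP μ hμ]
      simp
    · rw [map_sub, hT, map_mul, hPG]
      simp
  have hfix : ∀ μ : ι →₀ ℕ, μ.degree = d → σ₀ (coeff μ P) = coeff μ P := fun μ hμ => by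
    have := htop μ hμ.ge
    rw [hZ, hμ, ← mul_sub, coeff_zero, eq_comm, mul_eq_zero, sub_eq_zero] at this
    exact this.resolve_left (pow_ne_zero _ ha)
  have hd0 : μ₀ ≠ 0 := by
    rintro rfl
    have h1 : P = C 1 := MvPolynomial.ext _ _ fun μ => by
      rw [coeff_C]
      split_ifs with h
      · rw [← h, hP1]
      · have := (Finsupp.degree_eq_zero_iff μ).not.2 (Ne.symm h)
        rw [map_zero] at hμ₀
        exact hP μ (by omega)
    rw [h1] at hPG
    simp at hPG
  set H := homogeneousComponent d P with hH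
  have hHc : ∀ μ, coeff μ H = if μ.degree = d then coeff μ P else 0 := fun μ =>
    coeff_homogeneousComponent d P μ
  obtain ⟨e, Q, hQ, i₀, ν, hν⟩ := exists_expand p _ H μ₀ rfl hd0
    (by rw [hHc, if_pos hμ₀, hP1]; exact one_ne_zero)
  set N := p ^ e with hN
  have hN0 : 0 < N := pow_pos hp.pos e
  have hQc : ∀ μ, coeff μ Q = if N * μ.degree = d then coeff (N • μ) P else 0 := fun μ => by
    rw [← coeff_expand_smul N hN0.ne', hQ, hHc, map_nsmul, smul_eq_mul]
  have hνd : N * (ν.degree + 1) = d := by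
    by_contra h
    rw [coeff_pderiv, hQc, map_add, Finsupp.degree_single, if_neg h, zero_mul] at hν
    exact hν rfl
  have hQl : Q ∈ Low ι E ((ν.degree + 1 : ℕ) + 1) := fun μ hμ => by
    rw [hQc, if_neg]
    rw [← hνd]
    exact fun h => by have := Nat.eq_of_mul_eq_mul_left hN0 h; omega
  obtain ⟨hD, hW⟩ := Low.sh (fun i => b i ^ N) hQl
  have hsh : sh b H = expand N (sh (fun i => b i ^ N) Q) := by
    rw [← hQ]
    have : (sh b).comp (expand N) = (expand N).comp (sh fun i => b i ^ N) := by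
      ext1 i
      simp only [sh, AlgHom.comp_apply, expand_X, map_pow, aeval_X, map_sub, expand_C]
      rw [hN, sub_pow_char_pow]
    exact DFunLike.congr_fun this Q
  have htwH : tw σ₀ a H = C (a ^ d) * H := MvPolynomial.ext _ _ fun μ => by
    rw [coeff_tw, coeff_C_mul, hHc]
    split_ifs with h
    · rw [h, hfix μ h]
    · simp
  have hdz : (d : ℤ) = N * ((ν.degree : ℕ) + 1) := by exact_mod_cast hνd.symm
  have key : ∀ r : ℤ, P - H ∈ Low ι E (r + 1) → ∀ μ : ι →₀ ℕ, r ≤ (μ.degree : ℕ) →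
      (d : ℤ) - N ≤ (μ.degree : ℕ) → a ^ μ.degree * σ₀ (coeff μ (P - H)) =
        a ^ d * (coeff μ (P - H) + coeff μ (expand N (dir (fun i => b i ^ N) Q))) := by
    intro r hr μ hμ hμ'
    have h1 := Low.expand hW N μ (by push_cast; nlinarith)
    rw [map_add, map_sub, ← hsh, hQ, coeff_add, coeff_sub] at h1
    have h2 := congrArg (coeff μ) hZ
    rw [← sub_add_cancel P H, map_add, map_add, htwH, map_mul, coeff_sub, coeff_add,
      Low.coeff_sh b (htw hr) hμ, coeff_tw, coeff_C_mul, coeff_add, show sh b (C (a ^ d)) = C (a ^ d)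
        from (sh b).commutes _, coeff_C_mul, coeff_zero] at h2
    linear_combination h2 - a ^ d * h1
  have hdesc : ∀ j : ℕ, j < N → P - H ∈ Low ι E (d - j) := by
    intro j
    induction j with
    | zero =>
      intro _ μ hμ
      rw [coeff_sub, hHc]
      split_ifs with h
      · exact sub_self _
      · rw [hP μ (by omega), sub_zero]
    | succ j ih =>
      intro hj μ hμ
      by_cases h : (d : ℤ) - j ≤ (μ.degree : ℕ)
      · exact ih (by omega) μ h
      have h1 := key (d - (j + 1)) (Low.mono (by omega) (ih (by omega))) μ (by omega) (by omega)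
      rw [Low.expand hD N μ (by
          have : (j : ℤ) + 1 < N := by exact_mod_cast hj
          push_cast at hμ ⊢; nlinarith), add_zero,
        show d = μ.degree + (j + 1) by omega, pow_add, mul_assoc,
        mul_right_inj' (pow_ne_zero _ ha)] at h1
      refine (algebraMap E L).injective ((h0 (j + 1) (by omega) _ ?_).trans (map_zero _).symm)
      rw [hσ, ← map_pow, ← map_mul]
      exact congrArg _ h1
  have h1 := key (d - N) (Low.mono (by omega) (hdesc (N - 1) (by omega))) (N • ν)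
    (by rw [map_nsmul, smul_eq_mul]; push_cast; nlinarith)
    (by rw [map_nsmul, smul_eq_mul]; push_cast; nlinarith)
  rw [coeff_expand_smul N hN0.ne', map_nsmul, smul_eq_mul, ← hνd, mul_add N, mul_one, pow_add,
    mul_assoc, mul_right_inj' (pow_ne_zero _ ha), dir_apply, coeff_sum] at h1
  have hc : ∀ i, σ₀ (coeff ν (pderiv i Q)) = coeff ν (pderiv i Q) := fun i => by
    rw [coeff_pderiv, hQc]
    split_ifs with h
    · rw [map_mul, hfix _ (by rw [map_nsmul, smul_eq_mul, h])]
      simp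
    · simp
  have : CharP L p := charP_of_injective_algebraMap (algebraMap E L).injective p
  refine ⟨e, fun i => coeff ν (pderiv i Q), -coeff (N • ν) (P - H), fun h => hν (congrFun h i₀),
    hc, ?_⟩
  rw [map_neg, eq_neg_iff_add_eq_zero]
  refine h0 N hN0.ne' _ ?_
  have hs : ∀ x y : L, (x - y) ^ N = x ^ N - y ^ N := fun x y => sub_pow_char_pow x y e
  rw [← hN]
  simp only [map_add, map_sum, map_mul, map_pow, hσ, hc, hG, h1, mul_pow, hs,
    coeff_smul, smul_eq_mul]
  rw [mul_add, mul_add, Finset.mul_sum, Finset.mul_sum, add_comm (algebraMap E L a ^ N * _),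
    ← add_assoc, ← Finset.sum_add_distrib]
  congr 1
  exact Finset.sum_congr rfl fun i _ => by ring

end Pool.Agent.Lib.MP_1f047c_nt.Car
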