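import Pool.Agent.Lib.MP_1f047c_nt.CarAn
import Pool.Agent.Lib.MP_1f047c_nt.CarShift
import Pool.Agent.Lib.MP_1f047c_nt.CarGrow

/-! The leading coefficient of the auxiliary series takes finitely many values. -/

namespace Pool.Agent.Lib.MP_1f047c_nt.Car

open Polynomial

variable {K : Type*} [Field K] {φ : K →+* K} {q : ℕ} {W : ℕ → AddSubgroup K}

lemma Fil.iter (h : Fil W) (hφ : ∀ x, φ x = x ^ q) {c : ℕ} {x : K} (hx : x ∈ W c) (j : ℕ) :
    φ^[j] x ∈ W (c * q ^ j) := by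
  rw [iter_eq hφ]; exact h.pow hx _

lemma Fil.X_sub_C (h : Fil W) {c : ℕ} {x : K} (hx : x ∈ W c) : X - C x ∈ polySub (W c) :=
  sub_mem (monomial_mem_polySub (h.mono (Nat.zero_le _) h.one) 1) (monomial_mem_polySub hx 0)

lemma Fil.den_num (h : Fil W) (hφ : ∀ x, φ x = x ^ q) (hq : 2 ≤ q) {w b : K} (hw : w ∈ W 1)
    (hb : b ∈ W 1) (M : ℕ) : den (fun s => φ^[s] w) M ∈ polySub (W (q ^ M)) ∧
      num (fun s => φ^[s] w) (fun s => φ^[s] b) M ∈ polySub (W (q ^ M)) := by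
  induction M with
  | zero => exact ⟨h.poly.mono (Nat.zero_le _) h.poly.one, monomial_mem_polySub hb 0⟩
  | succ M ih =>
    have h1 : q ^ M + 1 * q ^ M ≤ q ^ (M + 1) := by rw [pow_succ]; nlinarith [Nat.zero_le (q ^ M)]
    have h2 := h.X_sub_C (h.iter hφ hw M)
    rw [den_succ]
    exact ⟨h.poly.mono h1 (h.poly.mul _ _ _ _ ih.1 h2), add_mem (h.poly.mono h1
      (h.poly.mul _ _ _ _ ih.2 h2)) (monomial_mem_polySub (one_mul (q ^ (M + 1)) ▸ h.iter hφ hb _) 0)⟩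

lemma fr_pow_ev (φ : K →+* K) (j : ℕ) (f : K[X]) : (fr φ ^ j) (ev f) = ev (f.map (φ ^ j)) := by
  induction j with
  | zero => simp [RingHom.one_def]
  | succ j ih => rw [pow_succ', pow_succ', RingHom.mul_def, RingHom.comp_apply, ih, fr_ev,
      Polynomial.map_map, RingHom.mul_def]

theorem lead_finite {ι : Type*} [Fintype ι] (h : Fil W) (hW : ∀ c, (W c : Set K).Finite)
    (hφ : ∀ x, φ x = x ^ q) (hq : 2 ≤ q) {w : K} {b : ι → K} (hw : w ∈ W 1) (hb : ∀ i, b i ∈ W 1)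
    {G : ι → LS K} (hG : ∀ i, fr φ (G i) = ev (X - C w) * (G i - ev (C (b i)))) (D m : ℕ) :
    ∃ Z : Set K, Z.Finite ∧ ∀ f : Mon ι D → K[X], (∀ μ, f μ ∈ polySub (W m)) →
      ∀ n a, Lead (∑ μ, ev (f μ) * ∏ i, G i ^ μ.1 i) n a → a ∈ Z := by
  classical
  set l := Fintype.card (Mon ι D)
  let e : Mon ι D ≃ Fin l := Fintype.equivFin _
  set c := (m * q ^ l + q ^ l * D) * 3 ^ l
  refine ⟨⋃ γ ∈ {γ : Fin (l + 1) → K | ∀ j, γ j ∈ (W c : Set K)} \ {0},
    {x | IsRoot (∑ j : Fin (l + 1), monomial (q ^ (j : ℕ)) (γ j)) x},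
    ((Set.Finite.pi' fun _ => hW c).subset Set.sdiff_subset).biUnion fun γ hγ =>
      finite_setOfPred_isRoot fun h0 => hγ.2 (funext fun j => ?_), fun f hf n a hE => ?_⟩
  · simpa [coeff_monomial, Nat.pow_right_inj hq, Fin.val_inj] using
      congrArg (fun p => p.coeff (q ^ (j : ℕ))) h0
  set E := ∑ μ, ev (f μ) * ∏ i, G i ^ μ.1 i with hEdef
  have h1 : ∀ j : Fin (l + 1), ∃ x : Mon ι D → K[X], (∀ μ, x μ ∈ polySub (W (m * q ^ l + q ^ l * D))) ∧
      ∑ μ, ev (x μ) * ∏ i, G i ^ μ.1 i = (fr φ)^[j] E := by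
    intro j
    have hj : q ^ (j : ℕ) ≤ q ^ l := Nat.pow_le_pow_right (by omega) (Nat.lt_succ_iff.1 j.2)
    obtain ⟨x, hx, hx'⟩ := shift h.poly (c := m * q ^ l) (r := q ^ l)
      (fun μ => (f μ).map (φ ^ (j : ℕ))) (fun μ i => by
        rw [coeff_map, RingHom.coe_pow]
        exact h.mono (Nat.mul_le_mul_left _ hj) (h.iter hφ (hf μ i) j))
      (fun i => C (φ^[j] (b i)) - num (fun s => φ^[s] w) (fun s => φ^[s] (b i)) j)
      (den (fun s => φ^[s] w) j) 1
      (fun i => h.poly.mono hj (sub_mem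
        (monomial_mem_polySub (one_mul (q ^ (j : ℕ)) ▸ h.iter hφ (hb i) j) 0)
        (h.den_num hφ hq hw (hb i) j).2))
      (h.poly.mono hj (h.den_num hφ hq hw hw j).1) (h.poly.mono (Nat.zero_le _) h.poly.one) ev
    refine ⟨x, hx, (hx' (fun i => (fr φ)^[j] (G i)) G fun i => ?_).trans ?_⟩
    · rw [den_mul_series φ (hG i), map_one, map_sub]
      ring
    · simp only [← RingHom.coe_pow, hEdef, map_sum, map_mul, map_prod, map_pow, fr_pow_ev, map_one,
        one_pow, one_mul]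
  choose x hx hx' using h1
  obtain ⟨g, hg0, hg, hg'⟩ := eliminate (fun c => polySub (W c)) h.poly.mono h.poly.mul h.poly.one l _
    (fun j k => x j (e.symm k)) fun j k => hx j _
  obtain ⟨j₀, hj₀⟩ := Finite.exists_max fun j => (g j).degree
  have h2 : ∑ j, ev (g j) * (fr φ)^[j] E = 0 := by
    simp only [← hx', Finset.mul_sum, ← mul_assoc, ← map_mul]
    rw [Finset.sum_comm]
    refine Finset.sum_eq_zero fun μ _ => ?_
    have := hg' (e μ)
    simp only [Equiv.symm_apply_apply] at this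
    rw [← Finset.sum_mul, ← map_sum, this, map_zero, zero_mul]
  have h3 := (Lead.sum (s := Finset.univ) fun j _ =>
    (lead_ev (natDegree_le_natDegree (hj₀ j))).mul (hE.iterate φ j)).2
  rw [h2] at h3
  refine Set.mem_biUnion (x := fun j => (g j).coeff (g j₀).natDegree)
    ⟨fun j => hg j _, fun h0 => hg0 (funext fun j => ?_)⟩ ?_
  · have h4 : g j₀ = 0 := leadingCoeff_eq_zero.1 (congrFun h0 j₀)
    exact degree_eq_bot.1 (le_bot_iff.1 (by simpa [h4] using hj₀ j))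
  · simpa [eval_finsetSum, iter_eq hφ] using h3.symm

end Pool.Agent.Lib.MP_1f047c_nt.Car
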