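import Pool.Agent.Lib.MP_1f047c_nt.CarMat

/-! The Carlitz module, and the graphs of its exponential and logarithm. -/

namespace Pool.Agent.Lib.MP_1f047c_nt.Car

open Polynomial Filter Topology Finset

section Act

variable {F R : Type*} [Field F] [Fintype F] [CommRing R] [Algebra F R]

/-- The Carlitz operator. -/
noncomputable def cop (F : Type*) [Field F] [Fintype F] [Algebra F R] (θ : R) : Module.End F R :=
  LinearMap.mulLeft F θ + (FiniteField.frobeniusAlgHom F R).toLinearMap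

lemma cop_apply (θ x : R) : cop F θ x = θ * x + x ^ Fintype.card F := rfl

/-- The Carlitz action. -/
noncomputable def act (θ : R) (a : F[X]) : Module.End F R := aeval (cop F θ) a

lemma act_eq_sum (θ : R) (a : F[X]) (x : R) : act θ a x =
    a.sum fun n c => algebraMap F R c * (fun y => θ * y + y ^ Fintype.card F)^[n] x := by
  rw [act, aeval_endomorphism]
  refine sum_congr rfl fun n _ => ?_
  simp only [Module.End.pow_apply, Algebra.smul_def]
  rfl

lemma act_mul (θ : R) (a b : F[X]) (x : R) : act θ (a * b) x = act θ a (act θ b x) := by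
  simp [act]

lemma map_act {S : Type*} [CommRing S] [Algebra F S] (f : R →ₐ[F] S) (θ : R) (a : F[X]) (x : R) :
    f (act θ a x) = act (f θ) a (f x) := by
  have h : Function.Semiconj f (fun y => θ * y + y ^ Fintype.card F)
      (fun y => f θ * y + y ^ Fintype.card F) := fun y => by simp
  simp only [act_eq_sum, Polynomial.sum, map_sum, map_mul, AlgHom.commutes, (h.iterate_right _).eq]

lemma act_mem {θ : R} {Γ : Submodule F (R × R)}
    (hΓ : ∀ x y, (x, y) ∈ Γ → (θ * x, θ * y + y ^ Fintype.card F) ∈ Γ) {x y : R} (h : (x, y) ∈ Γ)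
    (a : F[X]) : (aeval θ a * x, act θ a y) ∈ Γ := by
  induction a using Polynomial.induction_on with
  | C c => simpa [act, Algebra.smul_def] using Γ.smul_mem c h
  | add p q hp hq => simpa [act, add_mul] using Γ.add_mem hp hq
  | monomial n c ih =>
    have e : C c * X ^ (n + 1) = X * (C c * X ^ n) := by ring
    rw [e, act_mul, map_mul, aeval_X, mul_assoc, act, aeval_X]
    exact hΓ _ _ ih

end Act

variable {F K : Type*} [Field F] [Fintype F] [NormedField K] [IsUltrametricDist K] [Algebra F K]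

omit [Fintype F] [Algebra F K] in
lemma norm_eq_of_hasSum {t : ℕ → K} {y : K} (h : HasSum t y) {c : ℝ} (hc : c < 1)
    (ht : ∀ j, ‖t (j + 1)‖ ≤ c * ‖t 0‖) : ‖y‖ = ‖t 0‖ := by
  have h1 := (hasSum_nat_add_iff' 1).2 h
  rw [sum_range_one] at h1
  have h2 : ‖y - t 0‖ ≤ c * ‖t 0‖ :=
    h1.tsum_eq ▸ IsUltrametricDist.norm_tsum_le_of_forall_le ht
  rcases (norm_nonneg (t 0)).eq_or_lt with h0 | h0
  · rw [← h0, mul_zero, norm_le_zero_iff, sub_eq_zero] at h2
    rw [h2]
  · have h3 : ‖t 0 - y‖ < ‖t 0‖ := by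
      rw [norm_sub_rev]
      exact h2.trans_lt (mul_lt_of_lt_one_left h0 hc)
    simpa using norm_sub_eq_left h3

omit [Fintype F] [Algebra F K] in
lemma summable_of_le [CompleteSpace K] {t s : ℕ → K} (h : Summable t) (hs : ∀ j, ‖s j‖ ≤ ‖t j‖) :
    Summable s :=
  NonarchimedeanAddGroup.summable_of_tendsto_cofinite_zero
    (squeeze_zero_norm hs (by simpa using h.tendsto_cofinite_zero.norm))

/-- The graph of a series of additive terms. -/
def graph (F : Type*) [Field F] [Fintype F] [Algebra F K] (D : ℕ → K) : Submodule F (K × K) where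
  carrier := {p | HasSum (fun j : ℕ => p.1 ^ Fintype.card F ^ j / D j) p.2}
  zero_mem' := by simp
  add_mem' := fun {a b} ha hb => by
    have h := fun j => map_add (FiniteField.frobeniusAlgHom F K ^ j) a.1 b.1
    simp only [AlgHom.coe_pow, FiniteField.coe_frobeniusAlgHom, pow_iterate] at h
    simpa [h, add_div] using HasSum.add ha hb
  smul_mem' := fun c a ha => by
    have h := fun j => map_smul (FiniteField.frobeniusAlgHom F K ^ j) c a.1
    simp only [AlgHom.coe_pow, FiniteField.coe_frobeniusAlgHom, pow_iterate, Algebra.smul_def] at h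
    simpa [h, Algebra.smul_def, mul_div_assoc] using HasSum.mul_left (algebraMap F K c) ha

omit [IsUltrametricDist K] in
lemma mem_graph {D : ℕ → K} {x y : K} :
    (x, y) ∈ graph F D ↔ HasSum (fun j : ℕ => x ^ Fintype.card F ^ j / D j) y := Iff.rfl

/-- The graph of the Carlitz exponential. -/
noncomputable abbrev gexp (F : Type*) [Field F] [Fintype F] [Algebra F K] (θ : K) :=
  graph F fun j => ∏ s ∈ range j, (θ ^ Fintype.card F ^ j - θ ^ Fintype.card F ^ s)

lemma norm_D {q : ℕ} (hq : 2 ≤ q) {θ : K} (hθ : 1 < ‖θ‖) (j : ℕ) :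
    ‖∏ s ∈ range j, (θ ^ q ^ j - θ ^ q ^ s)‖ = (‖θ‖ ^ q ^ j) ^ j := by
  rw [norm_prod, prod_eq_pow_card (b := ‖θ‖ ^ q ^ j), card_range]
  intro s hs
  rw [norm_sub_eq_left, norm_pow]
  rw [norm_pow, norm_pow]
  exact pow_lt_pow_right₀ hθ (Nat.pow_lt_pow_right hq (mem_range.1 hs))

lemma gexp_step {θ : K} (hθ : 1 < ‖θ‖) (x y : K) (h : (x, y) ∈ gexp F θ) :
    (θ * x, θ * y + y ^ Fintype.card F) ∈ gexp F θ := by
  have hq : 2 ≤ Fintype.card F := Fintype.one_lt_card
  set q := Fintype.card F with hqF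
  rw [mem_graph] at h ⊢
  have h1 := h.map (FiniteField.frobeniusAlgHom F K) (continuous_pow q)
  rw [← hasSum_nat_add_iff' 1]
  have h2 := (((hasSum_nat_add_iff' 1).2 h).mul_left θ).add h1
  convert h2 using 1
  · rfl
  · funext j
    have h3 : ∀ i, ∏ s ∈ range i, (θ ^ q ^ i - θ ^ q ^ s) ≠ 0 := fun i => by
      rw [← norm_pos_iff, norm_D hq hθ]
      positivity
    have h4 : ∏ s ∈ range (j + 1), (θ ^ q ^ (j + 1) - θ ^ q ^ s) =
        FiniteField.frobeniusAlgHom F K (∏ s ∈ range j, (θ ^ q ^ j - θ ^ q ^ s)) *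
          (θ ^ q ^ (j + 1) - θ) := by
      rw [prod_range_succ', map_prod]
      simp only [map_sub, FiniteField.coe_frobeniusAlgHom, ← hqF, ← pow_mul, ← pow_succ, pow_zero,
        pow_one]
    have h5 := h3 (j + 1)
    rw [h4] at h5
    have h6 := left_ne_zero_of_mul h5
    have h7 := right_ne_zero_of_mul h5
    rw [Function.comp_apply, map_div₀, h4]
    generalize FiniteField.frobeniusAlgHom F K (∏ s ∈ range j, (θ ^ q ^ j - θ ^ q ^ s)) = A at *
    simp only [FiniteField.coe_frobeniusAlgHom, ← hqF, ← pow_mul, ← pow_succ, mul_pow]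
    field_simp
    ring
  · simp only [sum_range_one, pow_zero, pow_one, range_zero, prod_empty, div_one,
      FiniteField.coe_frobeniusAlgHom, ← hqF]
    ring

lemma gexp_norm {θ : K} (hθ : 1 < ‖θ‖) {x y : K} (h : (x, y) ∈ gexp F θ) (hx : ‖x‖ ≤ 1) :
    ‖y‖ = ‖x‖ := by
  have hq : 2 ≤ Fintype.card F := Fintype.one_lt_card
  simpa using norm_eq_of_hasSum (mem_graph.1 h) (inv_lt_one_of_one_lt₀ hθ) fun j => by
    simp only [norm_div, norm_D hq hθ, pow_zero, pow_one, norm_pow, div_one, range_zero, prod_empty]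
    rw [← div_eq_inv_mul]
    gcongr
    · exact pow_le_of_le_one (norm_nonneg _) hx (by positivity)
    · rw [← pow_mul]
      exact le_self_pow₀ hθ.le (by positivity)

lemma gexp_div [CompleteSpace K] {θ : K} (hθ : 1 < ‖θ‖) {x : K} (h : (x, 0) ∈ gexp F θ) :
    ∃ y, (x / θ, y) ∈ gexp F θ ∧ θ * y + y ^ Fintype.card F = 0 := by
  have h0 : θ ≠ 0 := norm_pos_iff.1 (one_pos.trans hθ)
  obtain ⟨y, hy⟩ : ∃ y, (x / θ, y) ∈ gexp F θ :=
    ⟨_, mem_graph.2 (summable_of_le (mem_graph.1 h).summable fun j => by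
      rw [norm_div, norm_div (x ^ _), norm_pow, norm_pow, norm_div]
      gcongr
      exact div_le_self (norm_nonneg _) hθ.le).hasSum⟩
  have h1 := gexp_step hθ _ _ hy
  rw [mul_div_cancel₀ _ h0] at h1
  exact ⟨y, hy, (mem_graph.1 h1).unique (mem_graph.1 h)⟩

/-- The kernel of the exponential has rank at most one. -/
theorem gexp_ker [CompleteSpace K] {θ : K} (hθ : 1 < ‖θ‖) : ∃ l : K, (l, 0) ∈ gexp F θ ∧
    ∀ x, (x, 0) ∈ gexp F θ → ∃ a : F[X], x = aeval θ a * l := by
  by_cases hne : ∀ x, (x, 0) ∈ gexp F θ → x = 0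
  · exact ⟨0, zero_mem _, fun x hx => ⟨0, by simpa using hne x hx⟩⟩
  have h0 : θ ≠ 0 := norm_pos_iff.1 (one_pos.trans hθ)
  let S : Set ℝ := {r | ∃ x, (x, 0) ∈ gexp F θ ∧ x ≠ 0 ∧ ‖x‖ = r}
  have hS : S.Nonempty := by
    push Not at hne
    obtain ⟨x, h1, h2⟩ := hne
    exact ⟨_, x, h1, h2, rfl⟩
  have hS1 : ∀ r ∈ S, 1 ≤ r := by
    rintro _ ⟨x, h1, h2, rfl⟩
    by_contra h
    exact h2 (by simpa using (gexp_norm hθ h1 (not_le.1 h).le).symm)
  have hρ : 1 ≤ sInf S := le_csInf hS hS1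
  obtain ⟨_, ⟨l, hl, hl0, rfl⟩, hl1⟩ := exists_lt_of_csInf_lt hS
    (lt_mul_of_one_lt_right (one_pos.trans_le hρ) hθ)
  have hz : ∀ x, (x, 0) ∈ gexp F θ → ‖x‖ ≤ ‖l‖ / ‖θ‖ → x = 0 := fun x hx h => by
    by_contra h1
    exact absurd (csInf_le ⟨1, hS1⟩ ⟨x, hx, h1, rfl⟩)
      (not_le.2 (h.trans_lt ((div_lt_iff₀ (one_pos.trans hθ)).2 hl1)))
  obtain ⟨y, hy, hy1⟩ := gexp_div hθ hl
  have hy0 : y ≠ 0 := by
    rintro rfl
    exact div_ne_zero hl0 h0 (hz _ hy (norm_div _ _).le)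
  have key : ∀ n : ℕ, ∀ x, (x, 0) ∈ gexp F θ → ‖x‖ ≤ ‖l‖ * ‖θ‖ ^ n / ‖θ‖ →
      ∃ a : F[X], x = aeval θ a * l := by
    intro n
    induction n with
    | zero => exact fun x hx h => ⟨0, by simpa using hz x hx (by simpa using h)⟩
    | succ n ih =>
      intro x hx h
      obtain ⟨z, hz1, hz2⟩ := gexp_div hθ hx
      obtain ⟨c, hc⟩ : ∃ c, algebraMap F K c = z / y := by
        have h := (FiniteField.isSplittingField_sub F F).splits
        rw [Algebra.algebraMap_self, Polynomial.map_id] at h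
        refine h.mem_range_of_isRoot (FiniteField.X_pow_card_sub_X_ne_zero F Fintype.one_lt_card) ?_
        simp only [Polynomial.map_sub, Polynomial.map_pow, map_X, IsRoot.def, eval_sub, eval_pow,
          eval_X, div_pow, eq_neg_of_add_eq_zero_right hz2, eq_neg_of_add_eq_zero_right hy1]
        field_simp
        ring
      have h1 := sub_mem hz1 (Submodule.smul_mem _ c hy)
      rw [Prod.smul_mk, Prod.mk_sub_mk, Algebra.smul_def c y, hc, div_mul_cancel₀ _ hy0,
        sub_self, Algebra.smul_def] at h1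
      obtain ⟨a, ha⟩ := ih _ h1 (by
        rw [← mul_div_assoc, ← sub_div, norm_div]
        gcongr
        refine (norm_sub_le_max' _ _).trans (max_le ?_ ?_)
        · rwa [pow_succ, ← mul_assoc, mul_div_cancel_right₀ _ (one_pos.trans hθ).ne'] at h
        · rw [norm_mul, mul_comm]
          gcongr
          exact (norm_algebraMap_le c).trans (one_le_pow₀ hθ.le))
      refine ⟨X * a + C c, ?_⟩
      rw [map_add, map_mul, aeval_X, aeval_C, add_mul, mul_assoc, ← ha]
      field_simp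
      ring
  refine ⟨l, hl, fun x hx => ?_⟩
  obtain ⟨n, hn⟩ := pow_unbounded_of_one_lt (‖x‖ * ‖θ‖ / ‖l‖) hθ
  refine key n x hx ?_
  rw [div_lt_iff₀ (norm_pos_iff.2 hl0), mul_comm _ ‖l‖] at hn
  exact (le_div_iff₀ (one_pos.trans hθ)).2 hn.le

/-- The graph of the Carlitz logarithm. -/
noncomputable abbrev glog (F : Type*) [Field F] [Fintype F] [Algebra F K] (θ : K) :=
  graph F fun j => ∏ s ∈ range j, (θ - θ ^ Fintype.card F ^ (s + 1))

/-- Pairs with a small second entry that is close to the first. -/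
def near (F : Type*) [Field F] [Fintype F] [Algebra F K] (r : ℝ) (hr : 0 ≤ r) :
    Submodule F (K × K) where
  carrier := {p | ‖p.2‖ ≤ r ∧ ‖p.1 - p.2‖ ≤ r ^ 2}
  zero_mem' := ⟨by simpa, by simpa using sq_nonneg r⟩
  add_mem' := fun {a b} ha hb => ⟨(IsUltrametricDist.norm_add_le_max _ _).trans (max_le ha.1 hb.1), by
    rw [Prod.fst_add, Prod.snd_add, add_sub_add_comm]
    exact (IsUltrametricDist.norm_add_le_max _ _).trans (max_le ha.2 hb.2)⟩
  smul_mem' := fun c a ha => by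
    have h : ∀ x : K, ‖c • x‖ ≤ ‖x‖ := fun x => by
      rw [Algebra.smul_def, norm_mul]
      exact mul_le_of_le_one_left (norm_nonneg _) (norm_algebraMap_le c)
    exact ⟨(h _).trans ha.1, by
      rw [Prod.smul_fst, Prod.smul_snd, ← smul_sub]
      exact (h _).trans ha.2⟩

lemma norm_act {θ x : K} (hθ : ‖θ‖ ≤ 1) (hx : ‖x‖ ≤ 1) (a : F[X]) :
    ‖act θ a x‖ ≤ ‖x‖ ∧ ‖aeval θ a * x - act θ a x‖ ≤ ‖x‖ ^ 2 := by
  have hq : 2 ≤ Fintype.card F := Fintype.one_lt_card
  refine act_mem (Γ := near F ‖x‖ (norm_nonneg _)) ?_ ⟨le_rfl, by simp⟩ a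
  rintro y z ⟨h1, h2⟩
  have h3 : ‖z ^ Fintype.card F‖ ≤ ‖x‖ ^ 2 := by
    rw [norm_pow]
    exact (pow_le_pow_left₀ (norm_nonneg _) h1 _).trans (pow_le_pow_of_le_one (norm_nonneg _) hx hq)
  have h4 : ∀ w : K, ‖θ * w‖ ≤ ‖w‖ := fun w => by
    rw [norm_mul]
    exact mul_le_of_le_one_left (norm_nonneg _) hθ
  refine ⟨(IsUltrametricDist.norm_add_le_max _ _).trans (max_le ((h4 _).trans h1)
    (h3.trans (pow_le_of_le_one (norm_nonneg _) hx two_ne_zero))), ?_⟩
  change ‖θ * y - (θ * z + _)‖ ≤ _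
  rw [← sub_sub, ← mul_sub]
  exact (norm_sub_le_max' _ _).trans (max_le ((h4 _).trans h2) h3)

lemma glog_step [CompleteSpace K] {θ : K} (hθ : ‖θ‖ ≤ 1)
    (h0 : ∀ s, θ - θ ^ Fintype.card F ^ (s + 1) ≠ 0) (x y : K) (h : (x, y) ∈ glog F θ) :
    (θ * x + x ^ Fintype.card F, θ * y) ∈ glog F θ := by
  set q := Fintype.card F with hqF
  rw [mem_graph] at h ⊢
  obtain ⟨H, hH⟩ : Summable fun j => x ^ q ^ j / (∏ s ∈ range j, (θ - θ ^ q ^ (s + 1))) *
      (θ - θ ^ q ^ j) := summable_of_le h.summable fun j => by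
    rw [norm_mul]
    refine mul_le_of_le_one_right (norm_nonneg _) ((norm_sub_le_max' _ _).trans (max_le hθ ?_))
    rw [norm_pow]
    exact pow_le_one₀ (norm_nonneg _) hθ
  convert ((h.mul_left θ).sub hH).add ((hasSum_nat_add_iff' 1).2 hH) using 1
  · rfl
  · funext j
    have h1 := map_add (FiniteField.frobeniusAlgHom F K ^ j) (θ * x) (x ^ q)
    simp only [AlgHom.coe_pow, FiniteField.coe_frobeniusAlgHom, pow_iterate] at h1
    have h2 := h0 j
    have h3 : ∏ s ∈ range j, (θ - θ ^ q ^ (s + 1)) ≠ 0 := prod_ne_zero_iff.2 fun s _ => h0 s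
    rw [h1, prod_range_succ, ← hqF, mul_pow, ← pow_mul, ← pow_succ']
    field_simp
    ring
  · simp

lemma glog_act [CompleteSpace K] {θ : K} (hθ : ‖θ‖ ≤ 1)
    (h0 : ∀ s, θ - θ ^ Fintype.card F ^ (s + 1) ≠ 0) {x y : K} (h : (x, y) ∈ glog F θ) (a : F[X]) :
    (act θ a x, aeval θ a * y) ∈ glog F θ :=
  act_mem (Γ := (glog F θ).comap (LinearEquiv.prodComm F K K).toLinearMap)
    (fun x y h => glog_step hθ h0 y x h) h a

/-- A small point with vanishing logarithm is torsion. -/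
theorem glog_torsion [CompleteSpace K] {θ : K} {v : F[X]} (hv0 : aeval θ v ≠ 0)
    (hv : ‖aeval θ v‖ < 1) (hθ : ‖θ‖ ≤ 1)
    (hρ : ∀ s, ‖aeval θ v‖ ≤ ‖θ - θ ^ Fintype.card F ^ (s + 1)‖) {x : K} (hx : ‖x‖ < 1)
    (h : (x, 0) ∈ glog F θ) : ∃ m : ℕ, act θ (v ^ m) x = 0 := by
  have hq : 2 ≤ Fintype.card F := Fintype.one_lt_card
  have hρ0 := norm_pos_iff.2 hv0
  have h1 : ∀ m : ℕ, ‖act θ (v ^ m) x‖ ≤ max ‖aeval θ v‖ ‖x‖ ^ m * ‖x‖ := by
    intro m
    induction m with
    | zero => simp [act]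
    | succ m ih =>
      have h2 : ‖act θ (v ^ m) x‖ ≤ ‖x‖ := (norm_act hθ hx.le _).1
      have h3 := (norm_act hθ (h2.trans hx.le) v).2
      rw [pow_succ', act_mul, pow_succ', mul_assoc]
      generalize act θ (v ^ m) x = z at *
      rw [← sub_sub_cancel (aeval θ v * z) (act θ v z)]
      refine ((norm_sub_le_max' _ _).trans (max_le ?_ (h3.trans ?_))).trans
        (mul_le_mul_of_nonneg_left ih (by positivity))
      · rw [norm_mul]
        gcongr
        exact le_max_left _ _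
      · rw [sq]
        gcongr
        exact h2.trans (le_max_right _ _)
  obtain ⟨m, hm⟩ := exists_pow_lt_of_lt_one (half_pos hρ0) (max_lt hv hx)
  have h2 : ‖act θ (v ^ m) x‖ ≤ 1 / 2 * ‖aeval θ v‖ :=
    (h1 m).trans ((mul_le_of_le_one_right (by positivity) hx.le).trans (by linarith))
  have h3 := glog_act hθ (fun s => norm_pos_iff.1 (hρ0.trans_le (hρ s))) h (v ^ m)
  refine ⟨m, ?_⟩
  generalize act θ (v ^ m) x = z at h2 h3
  have h4 := norm_eq_of_hasSum (mem_graph.1 h3) (c := 1 / 2) (by norm_num) fun j => by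
    obtain ⟨n, hn⟩ := Nat.exists_eq_add_of_lt (Nat.lt_pow_self hq : j + 1 < _ ^ (j + 1))
    have h5 : ‖aeval θ v‖ ^ (j + 1) ≤ ‖∏ s ∈ range (j + 1), (θ - θ ^ Fintype.card F ^ (s + 1))‖ := by
      rw [norm_prod]
      simpa using prod_le_prod (s := range (j + 1)) (f := fun _ => ‖aeval θ v‖)
        (fun _ _ => hρ0.le) fun s _ => hρ s
    simp only [norm_div, pow_zero, pow_one, norm_pow, div_one, range_zero, prod_empty]
    rw [hn, div_le_iff₀ ((pow_pos hρ0 _).trans_le h5), pow_succ, pow_add]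
    calc _ ≤ (1 / 2 * ‖aeval θ v‖) ^ (j + 1) * 1 * ‖z‖ := by
          gcongr
          exact pow_le_one₀ (norm_nonneg _) (by linarith)
      _ ≤ 1 / 2 * ‖aeval θ v‖ ^ (j + 1) * 1 * ‖z‖ := by
          rw [mul_pow]
          gcongr
          exact pow_le_of_le_one (by norm_num) (by norm_num) j.succ_ne_zero
      _ ≤ _ := by
          rw [mul_one, mul_right_comm]
          gcongr
  simpa [eq_comm] using h4

end Pool.Agent.Lib.MP_1f047c_nt.Car
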