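import Pool.Agent.Lib.MP_1f047c_nt.CarLeoA

/-! Approximation, descent and specialisation lemmas. -/

namespace Pool.Agent.Lib.MP_1f047c_nt.Car

open Polynomial Finset

section Norm

variable {F K : Type*} [Field F] [Fintype F] [NormedField K] [IsUltrametricDist K] [Algebra F K]

lemma norm_le_one_of_lt {θ : K} {v : F[X]} (hv : v ≠ 0) (h : ‖aeval θ v‖ < 1) : ‖θ‖ ≤ 1 := by
  have hm := monic_mul_leadingCoeff_inv hv
  have h1 : ‖aeval θ (v * C v.leadingCoeff⁻¹)‖ < 1 := by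
    rw [map_mul, aeval_C, norm_mul]
    exact mul_lt_one_of_nonneg_of_lt_one_left (norm_nonneg _) h (norm_algebraMap_le _)
  refine norm_le_one_of_monic hm (Nat.pos_of_ne_zero fun h2 => ?_) h1.le
  simp [hm.natDegree_eq_zero.1 h2] at h1

lemma eq_zero_of_norm_lt {θ : K} (hθ : 1 < ‖θ‖) {v : F[X]} (h : ‖aeval θ v‖ < 1) : v = 0 :=
  by_contra fun hv => (norm_le_one_of_lt hv h).not_gt hθ

lemma norm_mod_lt {θ : K} (hθ : 1 < ‖θ‖) (f : F[X]) {g : F[X]} (hg : g.Monic) :
    ‖aeval θ (f %ₘ g)‖ < ‖aeval θ g‖ := by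
  have h0 : ∀ r : F[X], r.degree < g.natDegree → ‖aeval θ r‖ < ‖θ ^ g.natDegree‖ := fun r hr => by
    rw [norm_pow]
    by_cases h : r = 0
    · rw [h, map_zero, norm_zero]
      positivity
    · exact (norm_aeval_le_pow _ hθ.le le_rfl le_rfl).trans_lt
        (pow_lt_pow_right₀ hθ ((natDegree_lt_iff_degree_lt h).2 hr))
  have h1 : aeval θ g = θ ^ g.natDegree + aeval θ g.eraseLead := by
    conv_lhs => rw [← g.eraseLead_add_monomial_natDegree_leadingCoeff, hg.leadingCoeff]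
    rw [map_add, aeval_monomial, map_one, one_mul, add_comm]
  have h2 := h0 _ (degree_eq_natDegree hg.ne_zero ▸ degree_eraseLead_lt hg.ne_zero)
  rw [h1, IsUltrametricDist.norm_add_eq_max_of_norm_ne_norm h2.ne', max_eq_left h2.le]
  exact h0 _ (degree_eq_natDegree hg.ne_zero ▸ degree_modByMonic_lt f hg)

lemma dirichlet {ι : Type*} [Finite ι] {θ : K} (hθ : 1 < ‖θ‖) (c : ι → K)
    (hc : ∀ (a : F[X]) i, ∃ b : F[X], ‖aeval θ a * c i - aeval θ b‖ < 1) {ε : ℝ} (hε : 0 < ε) :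
    ∃ a : F[X], a ≠ 0 ∧ ∃ b : ι → F[X], ∀ i, ‖aeval θ a * c i - aeval θ (b i)‖ < ε := by
  obtain ⟨N, hN⟩ := pow_unbounded_of_one_lt ε⁻¹ hθ
  choose β hβ using fun a => hc (X ^ N * a)
  have := (AdjoinRoot.powerBasis' (monic_X_pow (R := F) N)).finite
  have : Finite (AdjoinRoot (X ^ N : F[X])) := Module.finite_of_finite F
  obtain ⟨a, a', h1, h2⟩ := Finite.exists_ne_map_eq_of_infinite
    fun (a : F[X]) i => AdjoinRoot.mk (X ^ N) (β a i)
  choose b hb using fun i => AdjoinRoot.mk_eq_mk.1 (congrFun h2 i)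
  refine ⟨a - a', sub_ne_zero.2 h1, b, fun i => ?_⟩
  have h3 := (norm_sub_le_max' _ _).trans_lt (max_lt (hβ a i) (hβ a' i))
  have h4 := congrArg (aeval θ) (hb i)
  simp only [map_sub, map_mul, map_pow, aeval_X] at h3 h4
  rw [sub_sub_sub_comm, h4, mul_assoc, mul_assoc, ← mul_sub, ← mul_sub, ← sub_mul, ← map_sub,
    norm_mul, norm_pow] at h3
  rw [inv_lt_iff_one_lt_mul₀ hε] at hN
  exact lt_of_mul_lt_mul_left (h3.trans hN) (by positivity)

end Norm

section Galois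

variable {k M : Type*} [Field k] [Field M] [Algebra k M] [FiniteDimensional k M] [IsGalois k M]

lemma descent {ι T : Type*} [Fintype ι] {Y : ι → T → M}
    (hY : ∀ (γ : M ≃ₐ[k] M) τ, ∃ τ', ∀ i, γ (Y i τ') = Y i τ) (h : LinearIndependent k Y) :
    LinearIndependent M Y := by
  refine Fintype.linearIndependent_iff.2 fun m hm i => (traceForm_nondegenerate k M).1 _ fun s => ?_
  refine Fintype.linearIndependent_iff.1 h (fun i => Algebra.trace k M (m i * s)) ?_ i
  funext τ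
  simp only [Finset.sum_apply, Pi.smul_apply]
  simp only [Algebra.smul_def, trace_eq_sum_automorphisms, sum_mul]
  rw [sum_comm]
  refine sum_eq_zero fun γ _ => ?_
  obtain ⟨τ', h1⟩ := hY γ τ
  have h2 := congrArg (fun y => γ (s * y)) (congrFun hm τ')
  simp only [Finset.sum_apply, Pi.smul_apply, smul_eq_mul, mul_sum, map_sum, map_mul, h1,
    Pi.zero_apply, map_zero, mul_zero] at h2
  rw [← h2]
  exact sum_congr rfl fun i _ => by rw [map_mul]; ring

lemma exists_proj_one (N : Subgroup (M ≃ₐ[k] M)) [hN : N.Normal] (h1 : (Nat.card N : k) ≠ 0)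
    (h2 : IsCyclic ((M ≃ₐ[k] M) ⧸ N)) : ∃ φ : M →ₗ[k] M, (∀ (γ : M ≃ₐ[k] M) x, φ (γ x) = γ (φ x)) ∧
      φ 1 = 0 ∧ ∀ x, φ x = 0 → ∃ c : k, algebraMap k M c = x := by
  classical
  obtain ⟨g, hg⟩ := IsCyclic.exists_generator (α := (M ≃ₐ[k] M) ⧸ N)
  obtain ⟨g, rfl⟩ := QuotientGroup.mk_surjective g
  let e : M →ₗ[k] M := (Nat.card N : k)⁻¹ • ∑ n : N, n.1.toLinearMap
  have he : ∀ x, e x = (Nat.card N : k)⁻¹ • ∑ n : N, n.1 x := fun x => by simp [e]
  have e1 : ∀ (γ : M ≃ₐ[k] M) x, e (γ x) = γ (e x) := fun γ x => by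
    rw [he, he, map_smul, map_sum, ← (MulAut.conjNormal (H := N) γ).toEquiv.sum_comp]
    simp
  have e2 : ∀ n ∈ N, ∀ x, n (e x) = e x := fun n hn x => by
    rw [he, map_smul, map_sum, ← Equiv.sum_comp (Equiv.mulLeft (⟨n, hn⟩ : N)) fun m : N => m.1 x]
    simp
  have e3 : ∀ x, (∀ n ∈ N, n x = x) → e x = x := fun x hx => by
    rw [he, sum_congr rfl fun (n : N) _ => hx n n.2, sum_const, card_univ,
      ← Nat.cast_smul_eq_nsmul k, smul_smul, Fintype.card_eq_nat_card, inv_mul_cancel₀ h1, one_smul]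
  have e4 : ∀ x, e (e x) = e x := fun x => e3 _ fun n hn => e2 n hn x
  refine ⟨LinearMap.id - e + g.toLinearMap ∘ₗ e - e, fun γ x => ?_, ?_, fun x hx => ?_⟩
  · have h3 : (g * γ)⁻¹ * (γ * g) ∈ N := QuotientGroup.eq.1 (by
      rw [QuotientGroup.mk_mul, QuotientGroup.mk_mul, h2.isMulCommutative.is_comm.comm])
    have h4 := congrArg (g * γ) (e2 _ h3 x)
    rw [← AlgEquiv.mul_apply, mul_inv_cancel_left] at h4
    simpa [e1] using h4.symm
  · simp [e3 1 fun n _ => map_one n]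
  · replace hx : x - e x + g (e x) - e x = 0 := hx
    have h3 := congrArg e hx
    rw [map_sub, map_add, map_sub, e1, e4, map_zero, sub_self, zero_add, sub_eq_zero] at h3
    rw [h3, add_sub_cancel_right, sub_eq_zero] at hx
    refine (IsGalois.mem_range_algebraMap_iff_fixed x).2 fun γ => ?_
    have h4 : N ≤ MulAction.stabilizer _ x := fun n hn => by
      rw [hx]
      exact e2 n hn x
    have h5 : g ∈ MulAction.stabilizer _ x := by
      rw [hx]
      exact h3
    obtain ⟨z, hz⟩ := Subgroup.mem_zpowers_iff.1 (hg γ)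
    have h6 := mul_mem (zpow_mem h5 z) (h4 (QuotientGroup.eq.1 hz))
    rwa [mul_inv_cancel_left] at h6

lemma exists_proj {l : M} (hl : ∀ γ : M ≃ₐ[k] M, ∃ c : k, γ l = algebraMap k M c * l)
    (hG : l = 0 ∨ ∃ N : Subgroup (M ≃ₐ[k] M), ∃ _ : N.Normal, (Nat.card N : k) ≠ 0 ∧
      IsCyclic ((M ≃ₐ[k] M) ⧸ N)) : ∃ φ : M →ₗ[k] M, (∀ (γ : M ≃ₐ[k] M) x, φ (γ x) = γ (φ x)) ∧
      φ l = 0 ∧ ∀ x, φ x = 0 → ∃ c : k, x = algebraMap k M c * l := by
  by_cases h0 : l = 0
  · exact ⟨.id, fun _ _ => rfl, h0, fun x hx => ⟨0, by simpa using hx⟩⟩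
  obtain ⟨N, _, h1, h2⟩ := hG.resolve_left h0
  obtain ⟨φ, h3, h4, h5⟩ := exists_proj_one N h1 h2
  refine ⟨LinearMap.mulLeft k l ∘ₗ φ ∘ₗ LinearMap.mulLeft k l⁻¹, fun γ x => ?_, by simp [h0, h4],
    fun x hx => ?_⟩
  · obtain ⟨c, hc⟩ := hl γ
    have h6 : algebraMap k M c ≠ 0 := left_ne_zero_of_mul (hc ▸ (map_ne_zero γ).2 h0)
    have h7 : l⁻¹ * γ x = c • γ (l⁻¹ * x) := by
      rw [map_mul, map_inv₀, hc, Algebra.smul_def]
      field_simp
    change l * φ (l⁻¹ * γ x) = γ (l * φ (l⁻¹ * x))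
    rw [h7, map_smul, h3, map_mul γ l, hc, Algebra.smul_def]
    ring
  · obtain ⟨c, hc⟩ := h5 _ ((mul_eq_zero.1 hx).resolve_left h0)
    exact ⟨c, by rw [hc]; simp [mul_comm l⁻¹, h0]⟩

end Galois

lemma sum_single_smul {k E P κ : Type*} [Field k] [AddCommGroup E] [Module k E] [Fintype P]
    [DecidableEq P] [Fintype κ] (s : κ → P) (A : κ → k) (p : P) (y : P → E) :
    ∑ p', (∑ j, Pi.single (M := fun _ => k) (s j) (A j) p' - Pi.single (M := fun _ => k) p 1 p') •
      y p' = ∑ j, A j • y (s j) - y p := by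
  simp only [sub_smul, sum_sub_distrib, sum_smul]
  rw [sum_comm]
  simp [Pi.single_apply]

/-- The rank of a matrix whose entries have only linear relations is the generic rank. -/
lemma specialise {k K M ι T : Type*} [Field k] [Field K] [Field M] [Algebra k K] [Algebra k M]
    [Fintype ι] [Fintype T] {l : ι → T → K} {Y : ι → T → M}
    (h1 : ∀ a : ι × T → k, ∑ p, a p • l p.1 p.2 = 0 → ∑ p, a p • Y p.1 p.2 = 0)
    (h2 : ∀ (κ : Type) [Fintype κ] (s : κ → ι × T), (LinearIndependent k fun j => l (s j).1 (s j).2) →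
      AlgebraicIndependent k fun j => l (s j).1 (s j).2) (h : LinearIndependent M Y) :
    LinearIndependent K l := by
  classical
  obtain ⟨f, hf⟩ : ∃ f : ι → T, (Matrix.of fun i j => Y i (f j)).det ≠ 0 := by
    obtain ⟨κ, a, ha, h3, h4⟩ := exists_linearIndependent' M fun τ i => Y i τ
    have := Fintype.ofInjective a ha
    have h5 : Submodule.span M (Set.range fun τ i => Y i τ) = ⊤ := by
      apply Submodule.eq_top_of_finrank_eq
      rw [Module.finrank_pi, ← LinearIndependent.rank_matrix (M := Matrix.of Y) h]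
      exact ((Matrix.of Y).rank_eq_finrank_span_cols).symm
    let b := Module.Basis.mk h4 (h3.trans h5).ge
    let e := b.indexEquiv (Pi.basisFun M ι)
    refine ⟨a ∘ e.symm, ?_⟩
    rw [← isUnit_iff_ne_zero, ← Matrix.isUnit_iff_isUnit_det, ← Matrix.linearIndependent_cols_iff_isUnit]
    exact h4.comp _ e.symm.injective
  obtain ⟨κ, s, hs, h3, h4⟩ := exists_linearIndependent' k fun p : ι × T => l p.1 p.2
  have := Fintype.ofInjective s hs
  let e := Fintype.equivFin κ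
  have h5 := h2 _ (s ∘ e.symm) (h4.comp _ e.symm.injective)
  choose A hA using fun p : ι × T => (Submodule.mem_span_range_iff_exists_fun k).1
    (h3.ge (Submodule.subset_span ⟨p, rfl⟩))
  have hY : ∀ p, ∑ j, A p j • Y (s j).1 (s j).2 = Y p.1 p.2 := fun p => by
    rw [← sub_eq_zero, ← sum_single_smul s (A p) p fun p => Y p.1 p.2]
    exact h1 _ ((sum_single_smul s (A p) p fun p => l p.1 p.2).trans (sub_eq_zero.2 (hA p)))
  let N := Matrix.of fun i j => ∑ t, MvPolynomial.C (A (i, f j) t) * MvPolynomial.X (e t)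
  have h6 : N.det ≠ 0 := fun h0 => hf (by
    have h7 := congrArg (MvPolynomial.aeval fun j => Y (s (e.symm j)).1 (s (e.symm j)).2) h0
    rw [AlgHom.map_det, map_zero] at h7
    rw [← h7]
    congr 1
    ext i j
    simpa [N, Algebra.smul_def] using (hY (i, f j)).symm)
  have h7 : (Matrix.of fun i j => l i (f j)).det ≠ 0 := fun h0 => h6 (algebraicIndependent_iff.1 h5 _ (by
    rw [AlgHom.map_det, ← h0]
    congr 1
    ext i j
    simpa [N, Algebra.smul_def] using hA (i, f j)))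
  rw [← isUnit_iff_ne_zero, ← Matrix.isUnit_iff_isUnit_det,
    ← Matrix.linearIndependent_rows_iff_isUnit] at h7
  exact .of_comp (LinearMap.funLeft K K f) h7

end Pool.Agent.Lib.MP_1f047c_nt.Car
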