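import Pool.Agent.Lib.MP_1f047c_nt.CarLeoB

/-! Leopoldt's conjecture for the Carlitz module. -/

namespace Pool.Agent.Lib.MP_1f047c_nt.Car

open Polynomial Finset IntermediateField

variable {F : Type*} [Field F] [Fintype F]

omit [Fintype F] in
lemma aeval_X_eq {R : Type*} [Field R] [Algebra (RatFunc F) R] [Algebra F R]
    [IsScalarTower F (RatFunc F) R] (a : F[X]) : aeval (algebraMap (RatFunc F) R RatFunc.X) a =
      algebraMap (RatFunc F) R (algebraMap F[X] (RatFunc F) a) := by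
  rw [aeval_algebraMap_apply, RatFunc.aeval_X_left_eq_algebraMap]

lemma carlitz_ratFunc {K : Type*} [NormedField K] [IsUltrametricDist K] [CompleteSpace K]
    [IsAlgClosed K] [Algebra (RatFunc F) K] [Algebra F K] [IsScalarTower F (RatFunc F) K]
    {ι : Type*} [Fintype ι] {v : F[X]} (hv : v ≠ 0)
    (hv1 : ‖aeval (algebraMap (RatFunc F) K RatFunc.X) v‖ < 1) {α lam : ι → K}
    (hα : ∀ i, IsAlgebraic (RatFunc F) (α i)) (hα1 : ∀ i, ‖α i‖ < 1)
    (hlam : ∀ i, (α i, lam i) ∈ glog F (algebraMap (RatFunc F) K RatFunc.X))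
    (hli : LinearIndependent (RatFunc F) lam) : AlgebraicIndependent (RatFunc F) lam := by
  set θ := algebraMap (RatFunc F) K RatFunc.X
  have hθ : Transcendental F θ :=
    (transcendental_algebraMap_iff (algebraMap (RatFunc F) K).injective).2 RatFunc.transcendental_X
  let e := RatFunc.algEquivOfTranscendental θ hθ
  let _ : Algebra (RatFunc F) F⟮θ⟯ := e.toRingEquiv.toRingHom.toAlgebra
  have : IsScalarTower (RatFunc F) F⟮θ⟯ K := .of_algebraMap_eq fun u => by
    change _ = ((e u : F⟮θ⟯) : K)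
    rw [RatFunc.algEquivOfTranscendental_apply, aeval_X_eq, aeval_X_eq, ← map_div₀,
      RatFunc.num_div_denom]
  refine (carlitz_log hθ hv hv1 (fun i => (hα i).tower_top _) hα1 hlam ?_).restrictScalars
    (algebraMap (RatFunc F) F⟮θ⟯).injective
  refine Fintype.linearIndependent_iff.2 fun g hg i => ?_
  choose c hc using fun i => e.surjective (g i)
  have h := Fintype.linearIndependent_iff.1 hli c (by
    rw [← hg]
    exact sum_congr rfl fun i _ => by rw [← hc, ← algebraMap_smul F⟮θ⟯]; rfl) i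
  rw [← hc, h, map_zero]

variable {L : Type*} [Field L] [Algebra (RatFunc F) L] [Algebra F[X] L]
  [IsScalarTower F[X] (RatFunc F) L] [FiniteDimensional (RatFunc F) L]
  [Algebra F L] [IsScalarTower F (RatFunc F) L]
  {M : Type*} [NormedField M] [IsUltrametricDist M] [Algebra (RatFunc F) M] [Algebra F M]
  [IsScalarTower F (RatFunc F) M]

omit [Algebra F L] [IsScalarTower F (RatFunc F) L] in
lemma eq_zero_of_small (hθ : 1 < ‖algebraMap (RatFunc F) M RatFunc.X‖)
    (hs : ∀ x : L, ((minpoly (RatFunc F) x).map (algebraMap (RatFunc F) M)).Splits) {u : L}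
    (hu : IsIntegral F[X] u) (h : ∀ τ : L →ₐ[RatFunc F] M, ‖τ u‖ < 1) : u = 0 := by
  have hi := IsIntegral.of_finite (RatFunc F) u
  have hm := (minpoly.monic hi).map (algebraMap (RatFunc F) M)
  have h1 : ∀ s : Multiset M, s ≠ 0 → (∀ y ∈ s, ‖y‖ < 1) → ‖s.prod‖ < 1 := fun s hs0 hs => by
    induction s using Multiset.induction_on with
    | empty => exact absurd rfl hs0
    | cons a s ih =>
      rw [Multiset.prod_cons, norm_mul]
      refine mul_lt_one_of_nonneg_of_lt_one_left (norm_nonneg _) (hs a (by simp)) ?_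
      by_cases h0 : s = 0
      · simp [h0]
      · exact (ih h0 fun y hy => hs y (by simp [hy])).le
  have h2 := h1 _ ((hs u).roots_ne_zero (by
    rw [natDegree_map]
    exact (minpoly.natDegree_pos hi).ne')) fun y hy => by
      obtain ⟨τ, rfl⟩ := exists_algHom_of_splits_of_aeval
        (fun x : L => ⟨IsIntegral.of_finite _ x, hs x⟩) (x := u) (y := y) (by
          rw [← eval_map_algebraMap]
          exact (mem_roots hm.ne_zero).1 hy)
      exact h τ
  have h3 := congrArg norm ((hs u).coeff_zero_eq_prod_roots_of_monic hm)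
  rw [norm_mul, norm_pow, norm_neg, norm_one, one_pow, one_mul, coeff_map] at h3
  rw [← h3, minpoly.isIntegrallyClosed_eq_field_fractions' (RatFunc F) hu, coeff_map,
    ← aeval_X_eq] at h2
  rw [← minpoly.coeff_zero_eq_zero hi, minpoly.isIntegrallyClosed_eq_field_fractions' (RatFunc F) hu,
    coeff_map, eq_zero_of_norm_lt hθ h2, map_zero]

omit [FiniteDimensional (RatFunc F) L] in
lemma isIntegral_act {u : L} (hu : IsIntegral F[X] u) (a : F[X]) :
    IsIntegral F[X] (act (algebraMap (RatFunc F) L RatFunc.X) a u) := by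
  have h1 : ∀ b : F[X], IsIntegral F[X] (algebraMap (RatFunc F) L (algebraMap F[X] _ b)) :=
    fun b => IsScalarTower.algebraMap_apply F[X] (RatFunc F) L b ▸ isIntegral_algebraMap
  rw [act_eq_sum]
  refine IsIntegral.sum _ fun n hn => .mul ?_ ?_
  · simpa only [← aeval_X_eq, aeval_C] using h1 (C (a.coeff n))
  · clear hn
    induction n with
    | zero => exact hu
    | succ n ih =>
      rw [Function.iterate_succ_apply']
      exact ((h1 X).mul ih).add (ih.pow _)

omit [FiniteDimensional (RatFunc F) L] [Algebra F[X] L] [IsScalarTower F[X] (RatFunc F) L] in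
lemma map_act' {R : Type*} [Field R] [Algebra (RatFunc F) R] [Algebra F R]
    [IsScalarTower F (RatFunc F) R] (τ : L →ₐ[RatFunc F] R) (a : F[X]) (u : L) :
    τ (act (algebraMap (RatFunc F) L RatFunc.X) a u) =
      act (algebraMap (RatFunc F) R RatFunc.X) a (τ u) :=
  (map_act (τ.restrictScalars F) _ a u).trans (by simp)

/-- The regulator at infinity does not vanish. -/
theorem inf_indep {k : Type*} [NormedField k] [CompleteSpace k] [Algebra (RatFunc F) k]
    [NormedAlgebra k M] [FiniteDimensional k M] [IsGalois k M] [IsScalarTower (RatFunc F) k M]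
    (hd : DenseRange (algebraMap (RatFunc F) k)) (hθ : 1 < ‖algebraMap (RatFunc F) M RatFunc.X‖)
    (hs : ∀ x : L, ((minpoly (RatFunc F) x).map (algebraMap (RatFunc F) M)).Splits)
    (hG : (∀ y, (y, 0) ∈ gexp F (algebraMap (RatFunc F) M RatFunc.X) → y = 0) ∨
      ∃ N : Subgroup (M ≃ₐ[k] M), ∃ _ : N.Normal, (Nat.card N : k) ≠ 0 ∧
        IsCyclic ((M ≃ₐ[k] M) ⧸ N)) {ι : Type*} [Fintype ι] {u : ι → L}
    (hu : ∀ i, IsIntegral F[X] (u i)) {x : ι → (L →ₐ[RatFunc F] M) → M}
    (hx : ∀ i τ, (x i τ, τ (u i)) ∈ gexp F (algebraMap (RatFunc F) M RatFunc.X))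
    (hγ : ∀ (γ : M ≃ₐ[k] M) τ, ∃ τ', ∀ i, γ (x i τ') = x i τ)
    (hi : ∀ a : ι → F[X], ∑ i, act (algebraMap (RatFunc F) L RatFunc.X) (a i) (u i) = 0 → a = 0) :
    ∃ φ : M →ₗ[k] M, (∀ y, (y, 0) ∈ gexp F (algebraMap (RatFunc F) M RatFunc.X) → φ y = 0) ∧
      LinearIndependent M fun i τ => φ (x i τ) := by
  classical
  set θ := algebraMap (RatFunc F) M RatFunc.X with hθ'
  have hk : ∀ a : F[X], aeval θ a =
      algebraMap k M (algebraMap (RatFunc F) k (algebraMap F[X] _ a)) := fun a => by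
    rw [aeval_X_eq, ← IsScalarTower.algebraMap_apply (RatFunc F) k M]
  let _ : NontriviallyNormedField k :=
    { (inferInstance : NormedField k) with
      non_trivial := ⟨algebraMap (RatFunc F) k RatFunc.X, by
        rwa [← norm_algebraMap' M, ← IsScalarTower.algebraMap_apply]⟩ }
  have := FiniteDimensional.complete k M
  obtain ⟨l, hl, hl1⟩ := gexp_ker (F := F) hθ
  obtain ⟨φ, h1, h2, h3⟩ := exists_proj (l := l) (fun γ : M ≃ₐ[k] M => by
    have h := (mem_graph.1 hl).map γ γ.toLinearMap.continuous_of_finiteDimensional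
    have hγθ : γ θ = θ := by
      rw [hθ', IsScalarTower.algebraMap_apply _ k M, AlgEquiv.commutes]
    obtain ⟨a, ha⟩ := hl1 (γ l) (mem_graph.2 (by simpa [Function.comp_def, hγθ] using h))
    exact ⟨_, by rw [ha, hk]⟩) (hG.imp_left fun h => h l hl)
  refine ⟨φ, fun y hy => ?_, descent (k := k) (fun γ τ => ?_) ?_⟩
  · obtain ⟨a, rfl⟩ := hl1 y hy
    rw [hk, ← Algebra.smul_def, map_smul, h2, smul_zero]
  · obtain ⟨τ', h⟩ := hγ γ τ
    exact ⟨τ', fun i => by rw [← h1, h]⟩
  refine Fintype.linearIndependent_iff.2 fun c hc i0 => by_contra fun h0 => ?_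
  wlog hc1 : c i0 = 1 generalizing c
  · refine this (fun i => (c i0)⁻¹ * c i) ?_ (by simp [h0]) (inv_mul_cancel₀ h0)
    simp only [mul_smul, ← smul_sum, hc, smul_zero]
  choose d hd' using fun τ => h3 (∑ i, c i • x i τ) (by simpa using congrFun hc τ)
  obtain ⟨B, hB⟩ := (Set.finite_range fun p : Option (ι × (L →ₐ[RatFunc F] M)) =>
    ‖p.elim l fun p => x p.1 p.2‖).bddAbove
  have hB0 : 0 ≤ B := (norm_nonneg _).trans (hB ⟨none, rfl⟩)
  obtain ⟨a, ha, b, hb⟩ := dirichlet (F := F) hθ (fun p => algebraMap k M (Sum.elim c d p))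
    (fun a p => by
      obtain ⟨z, hz⟩ := hd.exists_dist_lt (algebraMap (RatFunc F) k (algebraMap F[X] _ a) *
        Sum.elim c d p) one_pos
      rw [dist_eq_norm, ← norm_algebraMap' M, map_sub, map_mul, ← hk,
        ← IsScalarTower.algebraMap_apply, ← z.num_div_denom, map_div₀, ← aeval_X_eq,
        ← aeval_X_eq] at hz
      refine ⟨z.num /ₘ z.denom, ?_⟩
      rw [← sub_add_sub_cancel _ (aeval θ z.num / aeval θ z.denom)]
      refine (IsUltrametricDist.norm_add_le_max _ _).trans_lt (max_lt hz ?_)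
      have h4 : aeval θ z.denom ≠ 0 := by
        rw [aeval_X_eq]
        simpa using z.denom_ne_zero
      have h5 := congrArg (aeval θ) (modByMonic_add_div z.num z.denom)
      rw [map_add, map_mul] at h5
      rw [← h5, add_div, mul_div_cancel_left₀ _ h4, add_sub_cancel_right, norm_div,
        div_lt_one (norm_pos_iff.2 h4)]
      exact norm_mod_lt hθ _ z.monic_denom) (ε := 1 / (B + 1)) (by positivity)
  have hb1 : ∀ p y, ‖y‖ ≤ B →
      ‖(aeval θ a * algebraMap k M (Sum.elim c d p) - aeval θ (b p)) * y‖ < 1 := fun p y hy => by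
    rw [norm_mul]
    refine (mul_le_mul (hb p).le hy (norm_nonneg _) (by positivity)).trans_lt ?_
    rw [one_div, inv_mul_lt_one₀ (by positivity)]
    exact lt_add_one B
  have h4 := hi (fun i => b (.inl i)) (eq_zero_of_small hθ hs
    (.sum _ fun i _ => isIntegral_act (hu i) _) fun τ => by
      have h5 := sub_mem (sum_mem fun i (_ : i ∈ univ) => act_mem (gexp_step hθ) (hx i τ) (b (.inl i)))
        (act_mem (gexp_step hθ) hl (b (.inr τ)))
      rw [← prod_mk_sum, Prod.mk_sub_mk, map_zero, sub_zero] at h5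
      have h6 : ∑ i, aeval θ (b (.inl i)) * x i τ - aeval θ (b (.inr τ)) * l =
          (aeval θ a * algebraMap k M (d τ) - aeval θ (b (.inr τ))) * l -
            ∑ i, (aeval θ a * algebraMap k M (c i) - aeval θ (b (.inl i))) * x i τ := by
        simp only [sub_mul, sum_sub_distrib, mul_assoc, ← mul_sum, ← hd' τ, Algebra.smul_def]
        ring
      have h7 : ‖∑ i, aeval θ (b (.inl i)) * x i τ - aeval θ (b (.inr τ)) * l‖ < 1 := by
        rw [h6]
        refine (norm_sub_le_max' _ _).trans_lt (max_lt (hb1 (.inr τ) l (hB ⟨none, rfl⟩)) ?_)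
        obtain ⟨i, -, h⟩ := IsUltrametricDist.exists_norm_finsetSum_le_of_nonempty ⟨i0, mem_univ i0⟩
          fun i => (aeval θ a * algebraMap k M (c i) - aeval θ (b (.inl i))) * x i τ
        exact h.trans_lt (hb1 (.inl i) _ (hB ⟨some (i, τ), rfl⟩))
      simp only [map_sum, map_act']
      rwa [gexp_norm hθ h5 h7.le])
  have h5 := hb (.inl i0)
  rw [congrFun h4 i0, Sum.elim_inl, hc1, map_one, mul_one, Pi.zero_apply, map_zero, sub_zero] at h5
  exact ha (eq_zero_of_norm_lt hθ (h5.trans_le (div_le_one_of_le₀ (by linarith) (by positivity))))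

theorem leopoldt [Algebra.IsSeparable (RatFunc F) L] {K : Type*} [NormedField K]
    [IsUltrametricDist K] [CompleteSpace K] [IsAlgClosed K] [Algebra (RatFunc F) K] [Algebra F K]
    [IsScalarTower F (RatFunc F) K] {v : F[X]} (hv : v ≠ 0)
    (hv1 : ‖aeval (algebraMap (RatFunc F) K RatFunc.X) v‖ < 1)
    {k : Type*} [NormedField k] [CompleteSpace k] [Algebra (RatFunc F) k]
    [NormedAlgebra k M] [FiniteDimensional k M] [IsGalois k M] [IsScalarTower (RatFunc F) k M]
    (hd : DenseRange (algebraMap (RatFunc F) k)) (hθ : 1 < ‖algebraMap (RatFunc F) M RatFunc.X‖)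
    (hs : ∀ x : L, ((minpoly (RatFunc F) x).map (algebraMap (RatFunc F) M)).Splits)
    (hG : (∀ y, (y, 0) ∈ gexp F (algebraMap (RatFunc F) M RatFunc.X) → y = 0) ∨
      ∃ N : Subgroup (M ≃ₐ[k] M), ∃ _ : N.Normal, (Nat.card N : k) ≠ 0 ∧
        IsCyclic ((M ≃ₐ[k] M) ⧸ N)) {ι : Type*} [Fintype ι] {u : ι → L}
    (hu : ∀ i, IsIntegral F[X] (u i)) {x : ι → (L →ₐ[RatFunc F] M) → M}
    (hx : ∀ i τ, (x i τ, τ (u i)) ∈ gexp F (algebraMap (RatFunc F) M RatFunc.X))
    (hγ : ∀ (γ : M ≃ₐ[k] M) τ, ∃ τ', ∀ i, γ (x i τ') = x i τ)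
    (hi : ∀ a : ι → F[X], ∑ i, act (algebraMap (RatFunc F) L RatFunc.X) (a i) (u i) = 0 → a = 0)
    (hu1 : ∀ i (σ : L →ₐ[RatFunc F] K), ‖σ (u i)‖ < 1) {lam : ι → (L →ₐ[RatFunc F] K) → K}
    (hlam : ∀ i σ, (σ (u i), lam i σ) ∈ glog F (algebraMap (RatFunc F) K RatFunc.X)) :
    LinearIndependent K lam := by
  classical
  obtain ⟨φ, h1, h2⟩ := inf_indep hd hθ hs hG hu hx hγ hi
  let E := adjoin (RatFunc F) (⋃ σ : L →ₐ[RatFunc F] K, Set.range σ)
  obtain ⟨j⟩ : Nonempty (E →ₐ[RatFunc F] M) := nonempty_algHom_adjoin_of_splits fun s hs' => by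
    obtain ⟨σ, y, rfl⟩ := Set.mem_iUnion.1 hs'
    exact ⟨(IsIntegral.of_finite _ y).map σ, by
      rw [minpoly.algHom_eq σ σ.toRingHom.injective]
      exact hs y⟩
  let r : (L →ₐ[RatFunc F] K) → L →ₐ[RatFunc F] E := fun σ => σ.codRestrict E.toSubalgebra
    fun y => subset_adjoin _ _ (Set.mem_iUnion.2 ⟨σ, y, rfl⟩)
  let β : (L →ₐ[RatFunc F] K) → L →ₐ[RatFunc F] M := fun σ => j.comp (r σ)
  have hβ : Function.Surjective β := ((Fintype.bijective_iff_injective_and_card β).2
    ⟨fun σ σ' h => AlgHom.ext fun y => congrArg Subtype.val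
      (j.toRingHom.injective (DFunLike.congr_fun h y)), by
        rw [AlgHom.card, AlgHom.card_of_splits _ _ _ hs]⟩).2
  set θ := algebraMap (RatFunc F) K RatFunc.X
  have hq : 2 ≤ Fintype.card F := Fintype.one_lt_card
  have hv0 : aeval θ v ≠ 0 := by
    rw [aeval_X_eq]
    simpa using hv
  have hθ1 := norm_le_one_of_lt hv hv1
  have hρ : ∀ s, ‖aeval θ v‖ ≤ ‖θ - θ ^ Fintype.card F ^ (s + 1)‖ := fun s => by
    have h3 : ‖θ ^ Fintype.card F ^ (s + 1)‖ ≤ 1 := by
      rw [norm_pow]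
      exact pow_le_one₀ (norm_nonneg _) hθ1
    refine le_trans ?_ (norm_aeval_sub_le v hθ1 h3)
    have h4 := aeval_algHom_apply (FiniteField.frobeniusAlgHom F K ^ (s + 1)) θ v
    simp only [AlgHom.coe_pow, FiniteField.coe_frobeniusAlgHom, pow_iterate] at h4
    rw [h4, norm_sub_eq_left]
    rw [norm_pow]
    exact pow_lt_self_of_lt_one₀ (norm_pos_iff.2 hv0) hv1 (Nat.one_lt_pow s.succ_ne_zero hq)
  refine specialise (k := RatFunc F) (Y := fun i σ => φ (x i (β σ))) (fun a ha => ?_)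
    (fun κ _ s hs => carlitz_ratFunc hv hv1 (α := fun j => (s j).2 (u (s j).1))
      (fun j => ((IsIntegral.of_finite _ _).map (s j).2).isAlgebraic) (fun j => hu1 _ _)
      (fun j => hlam _ _) hs)
    (h2.map' (LinearMap.funLeft M M β)
      (LinearMap.ker_eq_bot.2 (LinearMap.funLeft_injective_of_surjective M M β hβ)))
  obtain ⟨⟨s, hs0⟩, hb⟩ := IsLocalization.exist_integer_multiples_of_finite
    (nonZeroDivisors F[X]) a
  choose b hb using hb
  simp only [Algebra.smul_def] at hb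
  have h3 := sum_mem fun p (_ : p ∈ univ) =>
    glog_act hθ1 (fun s => norm_pos_iff.1 ((norm_pos_iff.2 hv0).trans_le (hρ s))) (hlam p.1 p.2) (b p)
  have h4 : ∑ p, aeval θ (b p) * lam p.1 p.2 = 0 := by
    simpa only [θ, aeval_X_eq, hb, map_mul, mul_sum, mul_assoc, Algebra.smul_def, mul_zero] using
      congrArg (aeval θ s * ·) ha
  rw [← prod_mk_sum, h4] at h3
  obtain ⟨m, hm⟩ := glog_torsion hv0 hv1 hθ1 hρ (by
    rcases isEmpty_or_nonempty (ι × (L →ₐ[RatFunc F] K)) with h | h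
    · simp
    · obtain ⟨p, -, h⟩ := IsUltrametricDist.exists_norm_finsetSum_le_of_nonempty univ_nonempty
        fun p : ι × (L →ₐ[RatFunc F] K) => act θ (b p) (p.2 (u p.1))
      exact (h.trans (norm_act hθ1 (hu1 _ _).le _).1).trans_lt (hu1 _ _)) h3
  have h5 : ∑ p : ι × (L →ₐ[RatFunc F] K),
      r p.2 (act (algebraMap (RatFunc F) L RatFunc.X) (v ^ m * b p) (u p.1)) = 0 := by
    apply E.val.toRingHom.injective
    rw [map_zero, ← hm, map_sum, map_sum]
    exact sum_congr rfl fun p _ => by rw [← act_mul, ← map_act']; rfl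
  have h6 := sum_mem fun p (_ : p ∈ univ) =>
    act_mem (gexp_step hθ) (hx p.1 (β p.2)) (v ^ m * b p)
  have h8 := congrArg j h5
  rw [map_sum, map_zero] at h8
  simp only [← prod_mk_sum, ← map_act'] at h6
  have h7 := h1 _ (h8 ▸ h6)
  refine ((smul_eq_zero (r := algebraMap F[X] (RatFunc F) (v ^ m * s))).1 ?_).resolve_left ?_
  · rw [← h7, map_sum, smul_sum]
    refine sum_congr rfl fun p _ => ?_
    rw [smul_smul, map_mul, mul_assoc, ← hb, ← map_mul, aeval_X_eq, ← Algebra.smul_def,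
      ← algebraMap_smul k, ← algebraMap_smul k _ (x _ _), map_smul]
  · simpa [hv] using nonZeroDivisors.ne_zero hs0

end Pool.Agent.Lib.MP_1f047c_nt.Car
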