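import Pool.Agent.Lib.MP_1f047c_nt.CarLeoC

/-! Without a hypothesis at infinity, Leopoldt's conjecture for the Carlitz module is false. -/

namespace Pool.Agent.Lib.MP_1f047c_nt.Car

open Polynomial Finset TensorProduct

variable {F : Type*} [Field F] [Fintype F]

lemma degree_act {y : F[X]} {d : ℕ → ℕ} (hd : StrictMono d)
    (h : ∀ n, ((fun z : F[X] => X * z + z ^ Fintype.card F)^[n] y).degree = d n) {c : F[X]}
    (hc : c ≠ 0) : (act X c y).degree = d c.natDegree := by
  have h0 : c.coeff c.natDegree ≠ 0 := leadingCoeff_ne_zero.2 hc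
  rw [act_eq_sum, sum_over_range _ (by simp), sum_range_succ, algebraMap_eq,
    degree_add_eq_right_of_degree_lt]
  · rw [degree_C_mul h0, h]
  · rw [degree_C_mul h0, h]
    refine (degree_sum_le _ _).trans_lt ((Finset.sup_lt_iff (WithBot.bot_lt_coe _)).2 fun n hn => ?_)
    rw [← smul_eq_C_mul]
    exact (degree_smul_le _ _).trans_lt ((h n).trans_lt (by exact_mod_cast hd (mem_range.1 hn)))

lemma degree_iter {y : F[X]} {m : ℕ} (hy : y.degree = m) (hm : 1 + m < m * Fintype.card F) (n : ℕ) :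
    ((fun z : F[X] => X * z + z ^ Fintype.card F)^[n] y).degree = (m * Fintype.card F ^ n : ℕ) := by
  have hq : 2 ≤ Fintype.card F := Fintype.one_lt_card
  induction n with
  | zero => simpa using hy
  | succ n ih =>
    rw [Function.iterate_succ_apply', degree_add_eq_right_of_degree_lt] <;> rw [degree_pow, ih]
    · rw [nsmul_eq_mul]
      norm_cast
      ring
    · rw [degree_mul, degree_X, ih, nsmul_eq_mul]
      norm_cast
      have := Nat.one_le_pow n _ (zero_lt_two.trans_le hq)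
      nlinarith

lemma indep_one_sq (hq : 3 ≤ Fintype.card F) {a b : F[X]}
    (h : act X a (1 : F[X]) + act X b (X ^ 2 : F[X]) = 0) : a = 0 ∧ b = 0 := by
  have h1 : ∀ c : F[X], c ≠ 0 → (act X c (1 : F[X])).degree =
      (c.natDegree.casesOn 0 fun n => Fintype.card F ^ n : ℕ) := fun c hc =>
    degree_act (d := fun n => n.casesOn 0 fun n => Fintype.card F ^ n)
      (strictMono_nat_of_lt_succ fun n => by
        cases n with
        | zero => simp
        | succ n => exact Nat.pow_lt_pow_right (by omega) n.lt_succ_self) (fun n => by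
        cases n with
        | zero => simp
        | succ n =>
          rw [Function.iterate_succ_apply]
          simpa using degree_iter (y := X + 1) (m := 1)
            (by simpa using degree_X_add_C (1 : F)) (by omega) n) hc
  by_cases hb : b = 0
  · refine ⟨by_contra fun ha => ?_, hb⟩
    have h2 := h1 a ha
    rw [hb, act, act, map_zero, LinearMap.zero_apply, add_zero] at h
    rw [act, h] at h2
    simp at h2
  exfalso
  have h2 := degree_act (d := fun n => 2 * Fintype.card F ^ n)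
    (fun a b h => Nat.mul_lt_mul_of_pos_left (Nat.pow_lt_pow_right (by omega) h) two_pos)
    (degree_iter (degree_X_pow 2) (by omega)) hb
  rw [eq_neg_of_add_eq_zero_right h, degree_neg] at h2
  by_cases ha : a = 0
  · rw [ha, act, map_zero, LinearMap.zero_apply, degree_zero] at h2
    exact WithBot.bot_ne_natCast _ h2
  rw [h1 a ha, Nat.cast_inj] at h2
  have h3 := Nat.one_le_pow b.natDegree (Fintype.card F) (by omega)
  cases hn : a.natDegree with
  | zero => rw [hn] at h2; simp only [Nat.rec_zero] at h2; omega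
  | succ n =>
    rw [hn] at h2
    replace h2 : Fintype.card F ^ n = 2 * Fintype.card F ^ b.natDegree := h2
    rcases le_or_gt n b.natDegree with h4 | h4
    · have := Nat.pow_le_pow_right (n := Fintype.card F) (by omega) h4
      omega
    · have := Nat.pow_le_pow_right (n := Fintype.card F) (by omega) h4
      rw [Nat.succ_eq_add_one, pow_succ] at this
      nlinarith

lemma exists_small {v : F[X]} (hv : v ≠ 0) (y z : F[X]) :
    ∃ a : F[X], a ≠ 0 ∧ v ∣ act X a y ∧ v ∣ act X a z := by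
  have := (AdjoinRoot.powerBasis hv).finite
  have : Finite (AdjoinRoot v) := Module.finite_of_finite F
  obtain ⟨a, a', h1, h2⟩ := Finite.exists_ne_map_eq_of_infinite
    fun a : F[X] => (AdjoinRoot.mk v (act X a y), AdjoinRoot.mk v (act X a z))
  exact ⟨a - a', sub_ne_zero.2 h1, by simpa [act] using AdjoinRoot.mk_eq_mk.1 (congrArg Prod.fst h2),
    by simpa [act] using AdjoinRoot.mk_eq_mk.1 (congrArg Prod.snd h2)⟩

section

variable {M : Type*} [NormedField M] [IsUltrametricDist M] [Algebra F M]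

lemma le_norm_sub_frob {θ : M} {v : F[X]} (hv0 : 0 < ‖aeval θ v‖) (hv1 : ‖aeval θ v‖ < 1)
    (hθ1 : ‖θ‖ ≤ 1) (s : ℕ) : ‖aeval θ v‖ ≤ ‖θ - θ ^ Fintype.card F ^ (s + 1)‖ := by
  have h3 : ‖θ ^ Fintype.card F ^ (s + 1)‖ ≤ 1 := by
    rw [norm_pow]
    exact pow_le_one₀ (norm_nonneg _) hθ1
  refine le_trans ?_ (norm_aeval_sub_le v hθ1 h3)
  have h4 := aeval_algHom_apply (FiniteField.frobeniusAlgHom F M ^ (s + 1)) θ v
  simp only [AlgHom.coe_pow, FiniteField.coe_frobeniusAlgHom, pow_iterate] at h4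
  rw [h4, norm_sub_eq_left]
  rw [norm_pow]
  exact pow_lt_self_of_lt_one₀ hv0 hv1 (Nat.one_lt_pow s.succ_ne_zero Fintype.one_lt_card)

lemma aux_pow {a t : ℝ} (ha : 0 ≤ a) (ht : 1 < t) (h : a ≤ t) {Q j : ℕ} (hQ : Q ≠ 0) :
    a ^ Q / (t ^ Q) ^ (j + 1) ≤ t⁻¹ * a := by
  obtain ⟨n, rfl⟩ := Nat.exists_eq_succ_of_ne_zero hQ
  have h0 : 0 < t := one_pos.trans ht
  rw [div_le_iff₀ (pow_pos (pow_pos h0 _) _)]
  calc _ = a ^ n * a := pow_succ _ _
    _ ≤ t ^ n * a := by gcongr
    _ = t⁻¹ * a * t ^ (n + 1) := by field_simp; ring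
    _ ≤ _ := mul_le_mul_of_nonneg_left (le_self_pow₀ (one_le_pow₀ ht.le) j.succ_ne_zero)
      (by positivity)

omit [Fintype F] [Algebra F M] in
lemma norm_sub_le_of_hasSum {t : ℕ → M} {y : M} (h : HasSum t y) {c : ℝ}
    (ht : ∀ j, ‖t (j + 1)‖ ≤ c) : ‖y - t 0‖ ≤ c := by
  have h1 := (hasSum_nat_add_iff' 1).2 h
  rw [sum_range_one] at h1
  exact h1.tsum_eq ▸ IsUltrametricDist.norm_tsum_le_of_forall_le ht

lemma gexp_sub {θ : M} (hθ : 1 < ‖θ‖) {x y : M} (h : (x, y) ∈ gexp F θ) (hx : ‖x‖ ≤ ‖θ‖) :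
    ‖y - x‖ ≤ ‖θ‖⁻¹ * ‖x‖ := by
  have hq : 2 ≤ Fintype.card F := Fintype.one_lt_card
  simpa using norm_sub_le_of_hasSum (mem_graph.1 h) (c := ‖θ‖⁻¹ * ‖x‖) fun j => by
    simp only [norm_div, norm_D hq hθ, norm_pow]
    exact aux_pow (norm_nonneg _) hθ hx (pow_ne_zero _ Fintype.card_ne_zero)

end

variable {L : Type*} [Field L] [Algebra (RatFunc F) L] [FiniteDimensional (RatFunc F) L]
  {M : Type*} [NormedField M] [IsUltrametricDist M] [Algebra (RatFunc F) M] [Algebra F M]
  [IsScalarTower F (RatFunc F) M] {k : Type*} [NormedField k] [CompleteSpace k]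
  [Algebra (RatFunc F) k] [NormedAlgebra k M] [FiniteDimensional k M]
  [IsScalarTower (RatFunc F) k M]

omit [IsScalarTower F (RatFunc F) M] in
lemma exists_log (hθ : 1 < ‖algebraMap (RatFunc F) M RatFunc.X‖) {exp : M → M}
    (hexp : ∀ y, (y, exp y) ∈ gexp F (algebraMap (RatFunc F) M RatFunc.X)) {y : L}
    (hy : ∀ τ : L →ₐ[RatFunc F] M, ‖τ y‖ ≤ ‖algebraMap (RatFunc F) M RatFunc.X‖) :
    ∃ x : L ⊗[RatFunc F] k, ∀ τ : L →ₐ[RatFunc F] M,
      exp (Algebra.TensorProduct.productMap τ (IsScalarTower.toAlgHom (RatFunc F) k M) x) = τ y := by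
  set θ := algebraMap (RatFunc F) M RatFunc.X with hθ'
  let _ : NontriviallyNormedField k :=
    { (inferInstance : NormedField k) with
      non_trivial := ⟨algebraMap (RatFunc F) k RatFunc.X, by
        rwa [← norm_algebraMap' M, ← IsScalarTower.algebraMap_apply]⟩ }
  have := FiniteDimensional.complete k M
  let V := Algebra.adjoin k (Set.range fun (l : L) (τ : L →ₐ[RatFunc F] M) => τ l)
  have hV : IsClosed (V : Set ((L →ₐ[RatFunc F] M) → M)) := V.toSubmodule.closed_of_finiteDimensional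
  have h1 : ∀ x ∈ V, (fun τ => exp (x τ)) ∈ V := fun x hx => by
    have h : HasSum (fun j : ℕ => algebraMap (RatFunc F) k (∏ s ∈ range j, (RatFunc.X ^
        Fintype.card F ^ j - RatFunc.X ^ Fintype.card F ^ s))⁻¹ • x ^ Fintype.card F ^ j)
        fun τ => exp (x τ) := Pi.hasSum.2 fun τ => by
      have h := mem_graph.1 (hexp (x τ))
      simp only [div_eq_inv_mul] at h
      simpa only [Pi.smul_apply, Pi.pow_apply, Algebra.smul_def (A := M), map_inv₀, map_prod,
        ← IsScalarTower.algebraMap_apply (RatFunc F) k M, map_sub, map_pow] using h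
    rw [← h.tsum_eq]
    exact tsum_mem hV fun j => V.smul_mem (V.pow_mem hx _) _
  have h2 : ∀ a b, exp (a - b) = exp a - exp b := fun a b => by
    have h := sub_mem (hexp a) (hexp b)
    rw [Prod.mk_sub_mk] at h
    exact (mem_graph.1 (hexp (a - b))).unique (mem_graph.1 h)
  have h3 : ∀ z : (L →ₐ[RatFunc F] M) → M, ‖z‖ ≤ ‖θ‖ →
      ‖z - fun τ => exp (z τ)‖ ≤ ‖θ‖⁻¹ * ‖z‖ := fun z hz =>
    (pi_norm_le_iff_of_nonneg (by positivity)).2 fun τ => by
      rw [Pi.sub_apply, norm_sub_rev]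
      exact (gexp_sub hθ (hexp _) ((norm_le_pi_norm z τ).trans hz)).trans
        (by gcongr; exact norm_le_pi_norm z τ)
  have hyV : (fun τ : L →ₐ[RatFunc F] M => τ y) ∈ V := Algebra.subset_adjoin ⟨y, rfl⟩
  have hy1 : ‖fun τ : L →ₐ[RatFunc F] M => τ y‖ ≤ ‖θ‖ :=
    (pi_norm_le_iff_of_nonneg (norm_nonneg _)).2 hy
  obtain ⟨x, ⟨hx, -⟩, h4, -⟩ := ContractingWith.exists_fixedPoint' (K := ‖θ‖₊⁻¹)
    (f := fun x => (fun τ => τ y) + (x - fun τ => exp (x τ)))
    (hV.inter (isClosed_le continuous_norm (continuous_const (y := ‖θ‖)))).isComplete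
    (fun x hx => ⟨V.add_mem hyV (V.sub_mem hx.1 (h1 x hx.1)),
      (IsUltrametricDist.norm_add_le_max _ _).trans (max_le hy1 ((h3 x hx.2).trans
        ((mul_le_of_le_one_left (norm_nonneg _) (inv_le_one_of_one_le₀ hθ.le)).trans hx.2)))⟩)
    ⟨inv_lt_one_of_one_lt₀ hθ, LipschitzWith.of_dist_le_mul fun a b => by
      rw [Subtype.dist_eq, Subtype.dist_eq, dist_eq_norm, dist_eq_norm]
      have h5 := (IsUltrametricDist.norm_add_le_max a.1 (-b.1)).trans
        (max_le a.2.2 ((norm_neg _).trans_le b.2.2))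
      rw [← sub_eq_add_neg] at h5
      refine le_of_eq_of_le (congrArg norm ?_) (h3 _ h5)
      funext τ
      simp [h2]
      ring⟩ ⟨hyV, hy1⟩ (edist_ne_top _ _)
  obtain ⟨z, hz⟩ : ∃ z : L ⊗[RatFunc F] k, ∀ τ : L →ₐ[RatFunc F] M,
      Algebra.TensorProduct.productMap τ (IsScalarTower.toAlgHom (RatFunc F) k M) z = x τ := by
    clear h4
    induction hx using Algebra.adjoin_induction with
    | mem _ h =>
      obtain ⟨l, rfl⟩ := h
      exact ⟨l ⊗ₜ 1, fun τ => by simp⟩
    | algebraMap c => exact ⟨1 ⊗ₜ c, fun τ => by simp⟩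
    | add _ _ _ _ ha hb =>
      obtain ⟨a, ha⟩ := ha
      obtain ⟨b, hb⟩ := hb
      exact ⟨a + b, fun τ => by simp [ha, hb]⟩
    | mul _ _ _ _ ha hb =>
      obtain ⟨a, ha⟩ := ha
      obtain ⟨b, hb⟩ := hb
      exact ⟨a * b, fun τ => by simp [ha, hb]⟩
  refine ⟨z, fun τ => ?_⟩
  have h5 := congrFun h4 τ
  simp only [Pi.add_apply, Pi.sub_apply] at h5
  rw [hz]
  linear_combination -h5

/-- If `L` contains a root `w` of `w ^ q + θ w = θ ^ 2` with `q ≥ 3`, there are two independent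
units whose logarithms are dependent at every finite place. -/
theorem leopoldt_fails (hq : 3 ≤ Fintype.card F) [Algebra F[X] L]
    [IsScalarTower F[X] (RatFunc F) L] [Algebra F L] [IsScalarTower F (RatFunc F) L]
    {K : Type*} [NormedField K] [IsUltrametricDist K] [CompleteSpace K] [Algebra (RatFunc F) K]
    [Algebra F K] [IsScalarTower F (RatFunc F) K] {v : F[X]} (hv : v ≠ 0)
    (hv1 : ‖aeval (algebraMap (RatFunc F) K RatFunc.X) v‖ < 1)
    (hθ : 1 < ‖algebraMap (RatFunc F) M RatFunc.X‖) {exp : M → M}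
    (hexp : ∀ y, (y, exp y) ∈ gexp F (algebraMap (RatFunc F) M RatFunc.X)) {w : L}
    (hw : algebraMap (RatFunc F) L RatFunc.X * w + w ^ Fintype.card F =
      algebraMap (RatFunc F) L RatFunc.X ^ 2) :
    ∃ u : Fin 2 → L, (∀ i, IsIntegral F[X] (u i)) ∧
      (∀ i, ∃ x : L ⊗[RatFunc F] k, ∀ τ : L →ₐ[RatFunc F] M, exp (Algebra.TensorProduct.productMap τ
        (IsScalarTower.toAlgHom (RatFunc F) k M) x) = τ (u i)) ∧
      (∀ a : Fin 2 → F[X], ∑ i, act (algebraMap (RatFunc F) L RatFunc.X) (a i) (u i) = 0 → a = 0) ∧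
      (∀ i (σ : L →ₐ[RatFunc F] K), ‖σ (u i)‖ < 1) ∧ ∃ lam : Fin 2 → (L →ₐ[RatFunc F] K) → K,
        (∀ i σ, (σ (u i), lam i σ) ∈ glog F (algebraMap (RatFunc F) K RatFunc.X)) ∧
          ¬ LinearIndependent K lam := by
  obtain ⟨a, ha, h1, h2⟩ := exists_small hv 1 (X ^ 2)
  let y : Fin 2 → F[X] := ![act X a 1, act X a (X ^ 2)]
  have hA : ∀ b z : F[X], aeval (algebraMap (RatFunc F) L RatFunc.X) (act X b z) =
      act (algebraMap (RatFunc F) L RatFunc.X) b (aeval (algebraMap (RatFunc F) L RatFunc.X) z) :=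
    fun b z => by rw [map_act, aeval_X]
  have hu : ∀ (b : F[X]) (z : L), (∀ τ : L →ₐ[RatFunc F] M,
      ‖τ z‖ ≤ ‖algebraMap (RatFunc F) M RatFunc.X‖) → ∃ x : L ⊗[RatFunc F] k,
      ∀ τ : L →ₐ[RatFunc F] M, exp (Algebra.TensorProduct.productMap τ
        (IsScalarTower.toAlgHom (RatFunc F) k M) x) =
          τ (act (algebraMap (RatFunc F) L RatFunc.X) b z) := fun b z hz => by
    obtain ⟨x, hx⟩ := exists_log (k := k) hθ hexp hz
    refine ⟨algebraMap (RatFunc F) _ (algebraMap F[X] _ b) * x, fun τ => ?_⟩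
    rw [map_mul, AlgHom.commutes, ← aeval_X_eq, map_act', ← hx]
    exact (mem_graph.1 (hexp _)).unique (mem_graph.1 (act_mem (gexp_step hθ) (hexp _) b))
  have hσ : ∀ (σ : L →ₐ[RatFunc F] K) (z : F[X]), σ (aeval (algebraMap (RatFunc F) L RatFunc.X) z) =
      aeval (algebraMap (RatFunc F) K RatFunc.X) z := fun σ z => by
    rw [aeval_X_eq, aeval_X_eq, AlgHom.commutes]
  set θ := algebraMap (RatFunc F) K RatFunc.X
  have hθ1 := norm_le_one_of_lt hv hv1
  have hy : ∀ i, ‖aeval θ (y i)‖ < 1 := fun i => by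
    obtain ⟨c, hc⟩ : v ∣ y i := by fin_cases i <;> assumption
    rw [hc, map_mul, norm_mul]
    exact mul_lt_one_of_nonneg_of_lt_one_left (norm_nonneg _) hv1 (norm_aeval_le c hθ1)
  have hv0 : 0 < ‖aeval θ v‖ := by
    rw [norm_pos_iff, aeval_X_eq]
    simpa using hv
  have hl : ∀ i, ∃ l, (aeval θ (y i), l) ∈ glog F θ := fun i =>
    ⟨_, mem_graph.2 ((summable_dexp (Fintype.one_lt_card (α := F)) (norm_nonneg _) (hy i) hv0).of_norm_bounded
      fun j => by
        rw [norm_div, norm_pow, norm_prod]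
        gcongr
        simpa using prod_le_prod (s := range j) (f := fun _ => ‖aeval θ v‖) (fun _ _ => hv0.le)
          fun s _ => le_norm_sub_frob hv0 hv1 hθ1 s).hasSum⟩
  choose l hl using hl
  refine ⟨fun i => aeval (algebraMap (RatFunc F) L RatFunc.X) (y i), fun i => ?_, fun i => ?_,
    fun b hb => ?_, fun i σ => (hσ σ _).symm ▸ hy i, fun i _ => l i,
    fun i σ => (hσ σ _).symm ▸ hl i, fun h => ?_⟩
  · simp only [aeval_X_eq, ← IsScalarTower.algebraMap_apply F[X] (RatFunc F) L]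
    exact isIntegral_algebraMap
  · fin_cases i
    · simpa [y, hA] using hu a 1 fun τ => by simpa using hθ.le
    · have h3 := hu (a * X) w fun τ => not_lt.1 fun h => by
        have h4 := congrArg τ (eq_sub_of_add_eq' hw)
        rw [map_pow, map_sub, map_pow, map_mul, AlgHom.commutes] at h4
        have h5 := norm_sub_le_max' (algebraMap (RatFunc F) M RatFunc.X ^ 2)
          (algebraMap (RatFunc F) M RatFunc.X * τ w)
        rw [← h4, norm_pow, norm_pow, norm_mul] at h5
        have h6 := pow_le_pow_right₀ (hθ.trans h).le (by omega : 2 ≤ Fintype.card F)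
        rcases le_max_iff.1 (h6.trans h5) with h7 | h7 <;> nlinarith
      rw [act_mul, act.eq_1 _ X, aeval_X, cop_apply, hw] at h3
      simpa [y, hA] using h3
  · have h3 : act X (b 0 * a) (1 : F[X]) + act X (b 1 * a) (X ^ 2 : F[X]) = 0 := by
      apply (map_eq_zero_iff _ (IsFractionRing.injective F[X] (RatFunc F))).1
      apply (map_eq_zero_iff _ (algebraMap (RatFunc F) L).injective).1
      rw [← aeval_X_eq, map_add, act_mul, act_mul, hA, hA (b 1), ← hb, Fin.sum_univ_two]
      rfl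
    obtain ⟨h4, h5⟩ := indep_one_sq hq h3
    funext i
    fin_cases i
    · exact (mul_eq_zero.1 h4).resolve_right ha
    · exact (mul_eq_zero.1 h5).resolve_right ha
  · have h3 := Fintype.linearIndependent_iff.1 h ![l 1, -l 0] (by
      funext σ
      simp [mul_comm]) 0
    exact h.ne_zero 1 (funext fun _ => h3)

end Pool.Agent.Lib.MP_1f047c_nt.Car
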