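import Pool.Agent.Lib.MP_1f047c_nt.CarEnd
import Pool.Agent.Lib.MP_1f047c_nt.CarABP

/-! Algebraic independence of Carlitz logarithms at a finite place. -/

namespace Pool.Agent.Lib.MP_1f047c_nt.Car

open Polynomial Filter Topology IntermediateField

variable {F K : Type*} [Field F] [Fintype F] [NontriviallyNormedField K] [IsUltrametricDist K]
  [Algebra F K] {φ : K →+* K} {ι : Type*} [Fintype ι]

omit [IsUltrametricDist K] in
lemma lifts_of_fixed (hφ : ∀ x, φ x = x ^ Fintype.card F) {c : K[X]} (hc : c.map φ = c) :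
    ∃ d : F[X], d.map (algebraMap F K) = c := by
  refine (mem_lifts _).1 ((lifts_iff_coeff_lifts _).2 fun i => ?_)
  have h := (FiniteField.isSplittingField_sub F F).splits
  rw [Algebra.algebraMap_self, Polynomial.map_id] at h
  refine h.mem_range_of_isRoot (FiniteField.X_pow_card_sub_X_ne_zero F Fintype.one_lt_card) ?_
  simpa [sub_eq_zero, hφ] using congrArg (fun f => f.coeff i) hc

lemma norm_add_lt_one {x y : K} (hx : ‖x‖ < 1) (hy : ‖y‖ < 1) : ‖x + y‖ < 1 :=
  (IsUltrametricDist.norm_add_le_max _ _).trans_lt (max_lt hx hy)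

lemma coeff_lt_one {q : ℕ} (hφ : ∀ x, φ x = x ^ q) (hq : 2 ≤ q) {f g : K[X]} {w : K} (hw : ‖w‖ ≤ 1)
    (hg : ∀ i, ‖g.coeff i‖ < 1) (h : f.map φ = (X - C w) * (f - g)) (i : ℕ) : ‖f.coeff i‖ < 1 := by
  have h1 : ∀ n, ‖f.coeff (i + n)‖ < 1 → ‖f.coeff i‖ < 1 := by
    intro n
    induction n with
    | zero => exact id
    | succ n ih =>
      refine fun h1 => ih ?_
      have h2 := congrArg (fun p => p.coeff (i + n + 1)) h
      simp only [coeff_map, coeff_X_sub_C_mul, coeff_sub] at h2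
      rw [show f.coeff (i + n) = φ (f.coeff (i + n + 1)) + g.coeff (i + n) +
        w * (f.coeff (i + n + 1) - g.coeff (i + n + 1)) by linear_combination -h2]
      refine norm_add_lt_one (norm_add_lt_one ((norm_iter_le hφ hq h1.le 1).trans_lt h1) (hg _)) ?_
      rw [norm_mul]
      exact mul_lt_one_of_nonneg_of_lt_one_right hw (norm_nonneg _)
        ((norm_sub_le_max' _ _).trans_lt (max_lt h1 (hg _)))
  refine h1 (f.natDegree + 1) ?_
  rw [coeff_eq_zero_of_natDegree_lt (by omega), norm_zero]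
  exact one_pos

lemma eval_eq_ser [CompleteSpace K] (hφ : ∀ x, φ x = x ^ Fintype.card F) {w x : K} {b : ι → K}
    (d : ι → F[X]) {f : K[X]} (hw : ‖w‖ ≤ 1) (hx : ‖x‖ ≤ 1) (hb : ∀ i, ‖b i‖ < 1) {ρ : ℝ}
    (hρ : 0 < ρ) (hxw : ∀ s, ρ ≤ ‖x - φ^[s] w‖)
    (h : f.map φ = (X - C w) * (f - ∑ i, (d i).map (algebraMap F K) * C (b i))) :
    f.eval x = ∑ i, aeval x (d i) * ser φ w (b i) x := by
  have hq : 2 ≤ Fintype.card F := Fintype.one_lt_card
  have hf := coeff_lt_one hφ hq hw (fun j => by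
    rw [finsetSum_coeff]
    refine lt_of_le_of_lt (IsUltrametricDist.norm_sum_le_of_forall_le_of_nonneg (norm_nonneg b)
      fun i _ => ?_) ((pi_norm_lt_iff one_pos).2 hb)
    rw [coeff_mul_C, coeff_map, norm_mul]
    exact (mul_le_of_le_one_left (norm_nonneg _) (norm_algebraMap_le _)).trans
      (norm_le_pi_norm b i)) h
  obtain ⟨β, h0, h1, hβ, hβ'⟩ : ∃ β : ℝ, 0 ≤ β ∧ β < 1 ∧ (∀ j, ‖f.coeff j‖ ≤ β) ∧ ∀ i, ‖b i‖ ≤ β := by
    refine ⟨‖((fun j : Fin (f.natDegree + 1) => f.coeff j), b)‖, norm_nonneg _, max_lt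
      ((pi_norm_lt_iff one_pos).2 fun j => hf j) ((pi_norm_lt_iff one_pos).2 hb), fun j => ?_,
      fun i => (norm_le_pi_norm b i).trans (le_max_right _ _)⟩
    by_cases hj : j < f.natDegree + 1
    · exact (norm_le_pi_norm (fun j : Fin (f.natDegree + 1) => f.coeff j) ⟨j, hj⟩).trans
        (le_max_left _ _)
    · rw [coeff_eq_zero_of_natDegree_lt (by omega), norm_zero]
      exact norm_nonneg _
  obtain ⟨A, hA1, hA⟩ := exists_dexp_le hq h1 hρ
  let ε : ℕ → K := fun m => (f.map (φ ^ m)).eval x -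
    ∑ i, aeval x (d i) * ser φ (φ^[m] w) (φ^[m] (b i)) x
  have hxw' : ∀ m s, ρ ≤ ‖x - φ^[s] (φ^[m] w)‖ := fun m s => by
    rw [← Function.iterate_add_apply]; exact hxw _
  have h2 : ∀ m, ε (m + 1) = (x - φ^[m] w) * ε m := fun m => by
    have h3 : (φ ^ m).comp (algebraMap F K) = algebraMap F K := RingHom.ext fun c => by
      rw [RingHom.comp_apply, RingHom.coe_pow, iter_eq hφ, ← map_pow, FiniteField.pow_card_pow]
    simp only [ε, Function.iterate_succ_apply',
      ser_succ hφ hq hρ ((norm_iter_le hφ hq (hb _).le m).trans_lt (hb _)) (hxw' m)]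
    rw [pow_succ, RingHom.mul_def, ← Polynomial.map_map, h]
    simp only [Polynomial.map_mul, Polynomial.map_sub, Polynomial.map_sum, Polynomial.map_map, h3,
      map_X, map_C, eval_mul, eval_sub, eval_finsetSum, eval_X, eval_C, eval_map_algebraMap,
      RingHom.coe_pow, mul_sub, Finset.mul_sum, Finset.sum_sub_distrib, mul_left_comm (aeval x _)]
    ring
  have h3 : ∀ m, ρ ^ m * ‖ε 0‖ ≤ ‖ε m‖ := fun m => by
    induction m with
    | zero => simp
    | succ m ih =>
      rw [h2, norm_mul, pow_succ', mul_assoc]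
      gcongr
      exact hxw m
  have h4 : ∀ m, ‖ε 0‖ ≤ A * (β ^ Fintype.card F ^ m / ρ ^ m) := fun m => by
    have h5 : ∀ y : K, ‖y‖ ≤ β → ‖φ^[m] y‖ ≤ β ^ Fintype.card F ^ m := fun y hy => by
      rw [iter_eq hφ, norm_pow]
      gcongr
    rw [← mul_div_assoc, le_div_iff₀' (pow_pos hρ m)]
    refine (h3 m).trans ((norm_sub_le_max' _ _).trans (max_le ((norm_eval_le (fun j => ?_) hx).trans
      (le_mul_of_one_le_left (by positivity) hA1)) ?_))
    · rw [coeff_map, RingHom.coe_pow]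
      exact h5 _ (hβ j)
    · refine IsUltrametricDist.norm_sum_le_of_forall_le_of_nonneg (by positivity) fun i _ => ?_
      rw [norm_mul]
      refine (mul_le_of_le_one_left (norm_nonneg _) (norm_aeval_le _ hx)).trans ((norm_ser_le hφ hρ
        (hA _ (norm_nonneg _) ((norm_iter_le hφ hq (hb i).le m).trans (hβ' i))) (hxw' m)).trans ?_)
      gcongr
      exact h5 _ (hβ' i)
  have h5 := ge_of_tendsto' ((summable_dexp hq h0 h1 hρ).tendsto_atTop_zero.const_mul A) h4
  rw [mul_zero, norm_le_zero_iff] at h5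
  simpa [ε, sub_eq_zero, RingHom.one_def] using h5

lemma exists_pow_separable {k L : Type*} [Field k] [Field L] [Algebra k L] (p : ℕ) [ExpChar k p]
    {x : L} (hx : IsAlgebraic k x) : ∃ n, IsSeparable k (x ^ p ^ n) := by
  obtain ⟨g, hg, n, hn⟩ := (minpoly.irreducible hx.isIntegral).hasSeparableContraction p
  exact ⟨n, hg.of_dvd (minpoly.dvd _ _ (by rw [← expand_aeval, hn, minpoly.aeval]))⟩

theorem carlitz [CompleteSpace K] [IsAlgClosed K] (hφ : ∀ x, φ x = x ^ Fintype.card F) {θ : K}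
    (hθ : Transcendental F θ) {v : F[X]} (hv : v ≠ 0) (hv1 : ‖aeval θ v‖ < 1) {α : ι → K}
    (hα : ∀ i, IsAlgebraic F⟮θ⟯ (α i)) (hα1 : ∀ i, ‖α i‖ < 1)
    (hli : LinearIndependent F⟮θ⟯ fun i => ser φ (φ θ) (α i) θ) :
    AlgebraicIndependent F⟮θ⟯ fun i => ser φ (φ θ) (α i) θ := by
  classical
  wlog hm : v.Monic generalizing v
  · refine this (monic_mul_leadingCoeff_inv hv).ne_zero ?_ (monic_mul_leadingCoeff_inv hv)
    rw [map_mul, aeval_C, norm_mul]
    exact mul_lt_one_of_nonneg_of_lt_one_left (norm_nonneg _) hv1 (norm_algebraMap_le _)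
  have hd : 0 < v.natDegree := Nat.pos_of_ne_zero fun h => by
    simp [hm.natDegree_eq_zero.1 h] at hv1
  have hv0 : aeval θ v ≠ 0 := fun h => hθ ⟨v, hv, h⟩
  obtain ⟨p, hp, k, hp', hk⟩ := FiniteField.card' F
  have : Fact p.Prime := ⟨hp'⟩
  have : CharP K p := charP_of_injective_algebraMap (algebraMap F K).injective p
  have : CharP F⟮θ⟯ p := charP_of_injective_algebraMap (algebraMap F _).injective p
  have hq : 2 ≤ Fintype.card F := Fintype.one_lt_card
  have hρ : 0 < ‖aeval θ v‖ := norm_pos_iff.2 hv0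
  have hθ1 : ‖θ‖ ≤ 1 := norm_le_one_of_monic hm hd hv1.le
  have hw : ∀ m, ‖aeval (φ^[m] (φ θ)) v‖ < ‖aeval θ v‖ := fun m => by
    rw [← Function.iterate_succ_apply, aeval_iter hφ, iter_eq hφ, norm_pow]
    exact pow_lt_self_of_lt_one₀ hρ hv1 (Nat.one_lt_pow m.succ_ne_zero hq)
  have hw1 : ‖φ θ‖ ≤ 1 := (norm_iter_le hφ hq hθ1 1).trans hθ1
  have hθw := le_norm_sub_iter hφ hw1 hθ1 (hw 0)
  choose n hn using fun i => exists_pow_separable p (hα i)
  set m := Finset.univ.sup n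
  have hsep : ∀ i, IsSeparable F⟮θ⟯ (φ^[m] (α i)) := fun i => by
    obtain ⟨s, hs⟩ := Nat.exists_eq_add_of_le ((Finset.le_sup (f := n) (Finset.mem_univ i)).trans
      (Nat.le_mul_of_pos_left m k.pos))
    rw [iter_eq hφ, hk, ← pow_mul, hs, pow_add, pow_mul]
    exact mem_separableClosure_iff.1 (pow_mem (mem_separableClosure_iff.2 (hn i)) _)
  have hθk : ∀ s, φ^[s] (φ θ) ∈ F⟮θ⟯ := fun s => by
    rw [iter_eq hφ, hφ]
    exact pow_mem (pow_mem (mem_adjoin_simple_self F θ) _) _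
  have hb : ∀ i, ‖φ^[m] (α i)‖ < 1 := fun i => (norm_iter_le hφ hq (hα1 i).le m).trans_lt (hα1 i)
  suffices h : AlgebraicIndependent F⟮θ⟯ fun i => ser φ (φ^[m] (φ θ)) (φ^[m] (α i)) θ by
    have h1 : Fil fun _ => (algebraicClosure F⟮θ⟯ K).toSubfield.toAddSubgroup :=
      ⟨monotone_const, fun _ _ _ _ => (algebraicClosure F⟮θ⟯ K).mul_mem,
        (algebraicClosure F⟮θ⟯ K).one_mem⟩
    have h2 : ∀ x ∈ F⟮θ⟯, x ∈ algebraicClosure F⟮θ⟯ K := fun x hx =>
      (algebraicClosure F⟮θ⟯ K).algebraMap_mem ⟨x, hx⟩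
    have h3 := fun i => h1.den_num hφ hq (w := φ θ) (h2 _ (hθk 0)) (mem_algebraicClosure_iff.2 (hα i)) m
    have h4 := h2 _ (mem_adjoin_simple_self F θ)
    have h5 : (den (fun s => φ^[s] (φ θ)) m).eval θ ≠ 0 :=
      norm_pos_iff.1 ((pow_pos hρ m).trans_le (le_norm_den hρ fun s _ => hθw s))
    let Z : ι → algebraicClosure F⟮θ⟯ K := fun i => ⟨_, h1.eval (c := 0) (h3 i).1 le_rfl h4⟩
    let A : ι → algebraicClosure F⟮θ⟯ K := fun i => ⟨_, h1.eval (c := 0) (h3 i).2 le_rfl h4⟩ -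
      ⟨_, h1.iter (c := 0) hφ (mem_algebraicClosure_iff.2 (hα i)) m⟩
    have h6 : ∀ i, (Z i)⁻¹ ≠ 0 := fun i => inv_ne_zero fun h => h5 (congrArg Subtype.val h)
    convert (h.algebraicClosure.polynomial_aeval_of_transcendental
      (f := fun i => C (Z i)⁻¹ * X + C ((Z i)⁻¹ * A i)) fun i => Polynomial.transcendental _
        (by rw [natDegree_linear (h6 i)]; exact one_ne_zero) (by
          rw [leadingCoeff_linear (h6 i)]
          exact mem_nonZeroDivisors_of_ne_zero (h6 i))).restrictScalars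
      (algebraMap F⟮θ⟯ _).injective using 2 with i
    refine mul_left_cancel₀ h5 ((den_mul_ser hφ hq hρ (hα1 i) hθw m).trans ?_)
    simp only [map_add, map_mul, aeval_C, aeval_X, map_inv₀, IntermediateField.algebraMap_apply, Z, A,
      AddSubgroupClass.coe_sub]
    field_simp
    ring
  refine algebraicIndependent_iff.2 fun P hP => by_contra fun hP0 => ?_
  choose G hG0 hG using fun i => exists_series φ (φ^[m] (α i)) (φ^[m] (φ θ))
  obtain ⟨f, hf0, hf⟩ := abp hφ hm hd hv0 hv1 (hw m)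
    (isSeparable_algebraMap (⟨_, hθk m⟩ : F⟮θ⟯)) hb hsep hG0 hG (D := P.totalDegree + 1)
    (Nat.succ_pos _) (P := fun μ => algebraMap F⟮θ⟯ K (P.coeff μ.1)) (fun h => by
      obtain ⟨μ, hμ⟩ := MvPolynomial.ne_zero_iff.1 hP0
      exact hμ ((map_eq_zero _).1 (congrFun h ⟨μ, (MvPolynomial.le_totalDegree
        (MvPolynomial.mem_support_iff.2 hμ)).trans (Nat.le_succ _)⟩)))
    (fun μ => isSeparable_algebraMap _) ((eval₂_eq_mon _ _ (Nat.le_succ _)).symm.trans hP)
  obtain ⟨e, c, r, h1, h2, h3⟩ := poly_identity p φ hG hf0 hf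
  obtain ⟨c, r, h1, h2, h3⟩ := descend p φ _ _ e c r h1 h2 h3
  have hs : Function.Surjective φ := fun y => by
    simpa only [hφ] using IsAlgClosed.exists_pow_nat_eq y (by omega)
  obtain ⟨r, h3⟩ := untwist_iter hs h2 m h3
  choose a ha using fun i => hs (α i)
  obtain ⟨s, -, h4⟩ := untwist hs h2 (b := a) (by simpa only [ha] using h3)
  choose d hd using fun i => lifts_of_fixed hφ (h2 i)
  have h5 := eval_eq_ser hφ d hw1 hθ1 hα1 hρ hθw (by simpa only [hd] using h3)
  rw [h4, eval_mul, eval_sub, eval_X, eval_C, sub_self, zero_mul] at h5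
  refine h1 (funext fun i => ?_)
  have h6 := Fintype.linearIndependent_iff.1 hli (fun i => aeval (AdjoinSimple.gen F θ) (d i))
    (by simpa only [Algebra.smul_def, ← aeval_algebraMap_apply, AdjoinSimple.algebraMap_gen]
      using h5.symm) i
  rw [← hd, transcendental_iff.1 hθ (d i) (by
    rw [← AdjoinSimple.algebraMap_gen F θ, aeval_algebraMap_apply, h6, map_zero]),
    Polynomial.map_zero, Pi.zero_apply]

end Pool.Agent.Lib.MP_1f047c_nt.Car
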