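import Pool.Agent.Lib.MP_1f047c_nt.CarMain

/-! The statement with explicit series, and singular matrices of Carlitz logarithms. -/

namespace Pool.Agent.Lib.MP_1f047c_nt.Car

open IntermediateField Finset

variable {F K : Type*} [Field F] [Fintype F] [NormedField K] [IsUltrametricDist K]
  [CompleteSpace K] [IsAlgClosed K] [Algebra F K]

theorem carlitz_log {ι : Type*} [Fintype ι] {θ : K} (hθ : Transcendental F θ) {v : Polynomial F}
    (hv : v ≠ 0) (hv1 : ‖Polynomial.aeval θ v‖ < 1) {α lam : ι → K}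
    (hα : ∀ i, IsAlgebraic F⟮θ⟯ (α i)) (hα1 : ∀ i, ‖α i‖ < 1)
    (hlam : ∀ i, HasSum (fun j : ℕ => α i ^ Fintype.card F ^ j /
      ∏ s ∈ range j, (θ - θ ^ Fintype.card F ^ (s + 1))) (lam i))
    (hli : LinearIndependent F⟮θ⟯ lam) : AlgebraicIndependent F⟮θ⟯ lam := by
  let _ : NontriviallyNormedField K :=
    .ofNormNeOne ⟨Polynomial.aeval θ v, fun h => hθ ⟨v, hv, h⟩, hv1.ne⟩
  let φ : K →+* K := FiniteField.frobeniusAlgHom F K
  have hφ : ∀ x, φ x = x ^ Fintype.card F := fun _ => rfl
  obtain rfl : lam = fun i => ser φ (φ θ) (α i) θ := funext fun i => by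
    simp only [← (hlam i).tsum_eq, ser, ← Function.iterate_succ_apply, iter_eq hφ]
  exact carlitz hφ hθ hv hv1 hα hα1 hli

open MvPolynomial in
lemma singular_space {k n r : Type*} [Field k] [Infinite k] [Fintype n] [DecidableEq n] [Fintype r]
    (A : n → n → r → k)
    (h : (Matrix.of fun i l => ∑ j, C (A i l j) * (X j : MvPolynomial r k)).det = 0) :
    ∃ w v : n → k, w ≠ 0 ∧ v ≠ 0 ∧ ∀ j, ∑ i, ∑ l, w i * A i l j * v l = 0 := by
  classical
  obtain ⟨v, hv, h1⟩ := Matrix.exists_mulVec_eq_zero_iff.2 h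
  obtain ⟨w, hw, h2⟩ := Matrix.exists_vecMul_eq_zero_iff.2 h
  set N := Matrix.of fun i l => ∑ j, C (A i l j) * (X j : MvPolynomial r k) with hN
  have key : ∀ j, ∑ i, ∑ l, w i * C (A i l j) * v l = 0 := fun j => by
    have d : ∀ i l, pderiv j (N i l) = C (A i l j) := fun i l => by
      simp only [hN, Matrix.of_apply, map_sum, pderiv_C_mul]
      rw [sum_eq_single j, pderiv_X_self, mul_one]
      · intro b _ hb
        rw [pderiv_X_of_ne hb, mul_zero]
      · simp
    have e1 : ∀ i, ∑ l, (N i l * pderiv j (v l) + v l * C (A i l j)) = 0 := fun i => by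
      have := congrArg (pderiv j) (congrFun h1 i)
      simpa only [Matrix.mulVec, dotProduct, map_sum, Derivation.leibniz, smul_eq_mul, d,
        Pi.zero_apply, map_zero] using this
    have e2 : ∀ l, ∑ i, w i * N i l = 0 := fun l => congrFun h2 l
    calc _ = ∑ i, w i * ∑ l, (N i l * pderiv j (v l) + v l * C (A i l j)) -
          ∑ l, (∑ i, w i * N i l) * pderiv j (v l) := by
          simp only [mul_sum, sum_mul]
          rw [sum_comm (γ := n) (f := fun l i => w i * N i l * pderiv j (v l)), ← sum_sub_distrib]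
          refine sum_congr rfl fun i _ => ?_
          rw [← sum_sub_distrib]
          exact sum_congr rfl fun l _ => by ring
      _ = 0 := by simp [e1, e2]
  obtain ⟨i0, hi⟩ := Function.ne_iff.1 hw
  obtain ⟨l0, hl⟩ := Function.ne_iff.1 hv
  obtain ⟨x, hx⟩ : ∃ x, eval x (w i0 * v l0) ≠ 0 := by
    by_contra hx
    push Not at hx
    exact mul_ne_zero hi hl (MvPolynomial.funext fun x => by rw [hx, map_zero])
  rw [map_mul] at hx
  refine ⟨fun i => eval x (w i), fun l => eval x (v l),
    Function.ne_iff.2 ⟨i0, left_ne_zero_of_mul hx⟩, Function.ne_iff.2 ⟨l0, right_ne_zero_of_mul hx⟩,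
    fun j => ?_⟩
  simpa using congrArg (eval x) (key j)

/-- A singular matrix with entries in the span of the logarithms has a rational zero coefficient. -/
theorem carlitz_matrix {n : Type*} [Fintype n] [DecidableEq n] {θ : K} (hθ : Transcendental F θ)
    {v : Polynomial F} (hv : v ≠ 0) (hv1 : ‖Polynomial.aeval θ v‖ < 1) (M : Matrix n n K)
    (hM : ∀ i l, M i l ∈ Submodule.span F⟮θ⟯ {x : K | ∃ a : K, IsAlgebraic F⟮θ⟯ a ∧ ‖a‖ < 1 ∧
      HasSum (fun j : ℕ => a ^ Fintype.card F ^ j /
        ∏ s ∈ range j, (θ - θ ^ Fintype.card F ^ (s + 1))) x}) (hdet : M.det = 0) :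
    ∃ w u : n → F⟮θ⟯, w ≠ 0 ∧ u ≠ 0 ∧ ∑ i, ∑ l, (w i : K) * M i l * u l = 0 := by
  classical
  choose T hT hT' using fun i l => Submodule.mem_span_finite_of_mem_span (hM i l)
  obtain ⟨b, hb, hb1, hb2⟩ := exists_linearIndependent F⟮θ⟯ (⋃ i, ⋃ l, (T i l : Set K))
  have := ((Set.finite_iUnion fun i => Set.finite_iUnion fun l => (T i l).finite_toSet).subset
    hb).fintype
  choose a h1 h2 h3 using fun x : b =>
    Set.iUnion_subset (fun i => Set.iUnion_subset (hT i)) (hb x.2)
  have h4 := carlitz_log hθ hv hv1 h1 h2 h3 hb2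
  choose A hA using fun i l => (Submodule.mem_span_range_iff_exists_fun F⟮θ⟯
    (v := ((↑) : b → K))).1 (by
      rw [Subtype.range_coe, hb1]
      exact Submodule.span_mono ((Set.subset_iUnion _ l).trans (Set.subset_iUnion
        (fun i => ⋃ l, (T i l : Set K)) i)) (hT' i l))
  have : Infinite F⟮θ⟯ := Infinite.of_injective (fun m : ℕ => AdjoinSimple.gen F θ ^ m) fun a b h =>
    by simpa using congrArg Polynomial.natDegree (transcendental_iff_injective.1 hθ
      (a₁ := Polynomial.X ^ a) (a₂ := Polynomial.X ^ b) (by simpa using congrArg Subtype.val h))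
  obtain ⟨w, u, hw, hu, h5⟩ := singular_space A (algebraicIndependent_iff.1 h4 _ (by
    rw [AlgHom.map_det, ← hdet]
    congr 1
    ext i l
    simp [← hA, Algebra.smul_def]))
  refine ⟨w, u, hw, hu, ?_⟩
  calc _ = ∑ j, (∑ i, ∑ l, w i * A i l j * u l) • (j : K) := by
        simp only [sum_smul]
        rw [sum_comm (γ := b)]
        refine sum_congr rfl fun i _ => ?_
        rw [sum_comm (γ := b)]
        refine sum_congr rfl fun l _ => ?_
        rw [← hA, mul_sum, sum_mul]
        refine sum_congr rfl fun j _ => ?_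
        simp only [IntermediateField.smul_def, smul_eq_mul, MulMemClass.coe_mul]
        ring
    _ = 0 := by simp [h5]

end Pool.Agent.Lib.MP_1f047c_nt.Car
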