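import Mathlib

/-! Norm estimates in a non-archimedean field over a finite field. -/

namespace Pool.Agent.Lib.MP_1f047c_nt.Car

open Polynomial

variable {F K : Type*} [Field F] [Fintype F] [NormedField K] [IsUltrametricDist K] [Algebra F K]

omit [IsUltrametricDist K] in
lemma norm_algebraMap_le (c : F) : ‖algebraMap F K c‖ ≤ 1 := by
  by_contra h
  push Not at h
  have h1 : ‖algebraMap F K c‖ ^ Fintype.card F = ‖algebraMap F K c‖ := by
    rw [← norm_pow, ← map_pow, FiniteField.pow_card]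
  have h2 := pow_lt_pow_right₀ h (Fintype.one_lt_card (α := F))
  rw [h1, pow_one] at h2
  exact lt_irrefl _ h2

lemma norm_aeval_le_pow (f : F[X]) {x : K} {r : ℝ} (hr : 1 ≤ r) (hx : ‖x‖ ≤ r) {n : ℕ}
    (hn : f.natDegree ≤ n) : ‖aeval x f‖ ≤ r ^ n := by
  rw [aeval_eq_sum_range]
  refine IsUltrametricDist.norm_sum_le_of_forall_le_of_nonneg (by positivity) fun i hi => ?_
  rw [Algebra.smul_def, norm_mul, norm_pow]
  have h1 : i ≤ n := by
    have := Finset.mem_range.1 hi
    omega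
  calc _ ≤ 1 * r ^ i := by gcongr; exact norm_algebraMap_le _
    _ ≤ r ^ n := by rw [one_mul]; exact pow_le_pow_right₀ hr h1

lemma norm_aeval_le (f : F[X]) {x : K} (hx : ‖x‖ ≤ 1) : ‖aeval x f‖ ≤ 1 := by
  simpa using norm_aeval_le_pow f le_rfl hx le_rfl

lemma norm_aeval_sub_le (f : F[X]) {x y : K} (hx : ‖x‖ ≤ 1) (hy : ‖y‖ ≤ 1) :
    ‖aeval x f - aeval y f‖ ≤ ‖x - y‖ := by
  induction f using Polynomial.induction_on' with
  | add p q hp hq =>
    rw [map_add, map_add, add_sub_add_comm]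
    exact (IsUltrametricDist.norm_add_le_max _ _).trans (max_le hp hq)
  | monomial n a =>
    rw [aeval_monomial, aeval_monomial, ← mul_sub, norm_mul, ← geom_sum₂_mul, norm_mul]
    have h : ‖∑ i ∈ Finset.range n, x ^ i * y ^ (n - 1 - i)‖ ≤ 1 :=
      IsUltrametricDist.norm_sum_le_of_forall_le_of_nonneg zero_le_one fun i _ => by
        rw [norm_mul, norm_pow, norm_pow]
        exact mul_le_one₀ (pow_le_one₀ (norm_nonneg _) hx) (by positivity)
          (pow_le_one₀ (norm_nonneg _) hy)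
    calc _ ≤ 1 * (1 * ‖x - y‖) := by gcongr; exact norm_algebraMap_le _
      _ = _ := by ring

lemma norm_le_one_of_monic {v : F[X]} (hv : v.Monic) (hd : 0 < v.natDegree) {x : K}
    (hx : ‖aeval x v‖ ≤ 1) : ‖x‖ ≤ 1 := by
  by_contra h
  push Not at h
  have h1 : aeval x v = x ^ v.natDegree + aeval x v.eraseLead := by
    conv_lhs => rw [← v.eraseLead_add_monomial_natDegree_leadingCoeff, hv.leadingCoeff]
    rw [map_add, aeval_monomial, map_one, one_mul, add_comm]
  have h2 : ‖aeval x v.eraseLead‖ < ‖x ^ v.natDegree‖ := by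
    rw [norm_pow]
    exact (norm_aeval_le_pow _ h.le le_rfl (eraseLead_natDegree_le v)).trans_lt
      (pow_lt_pow_right₀ h (by omega))
  rw [h1, IsUltrametricDist.norm_add_eq_max_of_norm_ne_norm h2.ne', max_eq_left h2.le,
    norm_pow] at hx
  exact absurd (one_lt_pow₀ h hd.ne') (not_lt.2 hx)

lemma norm_le_one_of_alg {z : K} (hz : IsAlgebraic F z) : ‖z‖ ≤ 1 :=
  norm_le_one_of_monic (minpoly.monic hz.isIntegral) (minpoly.natDegree_pos hz.isIntegral)
    (by rw [minpoly.aeval, norm_zero]; exact zero_le_one)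

lemma norm_eq_one_of_alg {z : K} (hz : IsAlgebraic F z) (h0 : z ≠ 0) : ‖z‖ = 1 := by
  refine le_antisymm (norm_le_one_of_alg hz) ?_
  have := norm_le_one_of_alg hz.inv
  rwa [norm_inv, inv_le_one₀ (norm_pos_iff.2 h0)] at this

lemma norm_sub_eq_left {x y : K} (h : ‖y‖ < ‖x‖) : ‖x - y‖ = ‖x‖ := by
  rw [sub_eq_add_neg, IsUltrametricDist.norm_add_eq_max_of_norm_ne_norm (by simpa using h.ne'),
    norm_neg, max_eq_left h.le]

lemma norm_sub_le_max' (x y : K) : ‖x - y‖ ≤ max ‖x‖ ‖y‖ := by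
  simpa [sub_eq_add_neg] using IsUltrametricDist.norm_add_le_max x (-y)

lemma le_norm_sub_alg {v : F[X]} {θ ζ : K} (hθ : ‖θ‖ ≤ 1) (hv : ‖aeval θ v‖ < 1)
    (hζ : IsAlgebraic F ζ) : ‖aeval θ v‖ ≤ ‖θ - ζ‖ := by
  refine le_trans ?_ (norm_aeval_sub_le v hθ (norm_le_one_of_alg hζ))
  by_cases h : aeval ζ v = 0
  · rw [h, sub_zero]
  · have h1 : ‖aeval ζ v‖ = 1 := norm_eq_one_of_alg
      (isAlgebraic_iff_isIntegral.2 (adjoin_le_integralClosure hζ.isIntegral
        (aeval_mem_adjoin_singleton F ζ))) h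
    rw [norm_sub_rev, norm_sub_eq_left (h1 ▸ hv), h1]
    exact hv.le

variable [IsAlgClosed K]

lemma norm_derivative_le {v : F[X]} {θ : K} (hθ : ‖θ‖ ≤ 1) (hv : ‖aeval θ v‖ < 1) (U : F[X]) :
    ‖aeval θ (derivative U)‖ * ‖aeval θ v‖ ≤ ‖aeval θ U‖ := by
  have key : ∀ s : Multiset K, (∀ ζ ∈ s, IsAlgebraic F ζ) →
      ‖eval θ (derivative (s.map fun ζ => X - C ζ).prod)‖ * ‖aeval θ v‖ ≤
        ‖eval θ (s.map fun ζ => X - C ζ).prod‖ := by
    intro s
    induction s using Multiset.induction_on with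
    | empty => simp
    | cons ζ s ih =>
      intro h
      have h1 := ih fun z hz => h z (Multiset.mem_cons_of_mem hz)
      have h2 := le_norm_sub_alg hθ hv (h ζ (Multiset.mem_cons_self _ _))
      simp only [Multiset.map_cons, Multiset.prod_cons, derivative_mul, derivative_sub,
        derivative_X, derivative_C, sub_zero, one_mul, eval_add, eval_mul, eval_sub, eval_X,
        eval_C, norm_mul]
      refine (mul_le_mul_of_nonneg_right (IsUltrametricDist.norm_add_le_max _ _)
        (norm_nonneg _)).trans ?_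
      rw [max_mul_of_nonneg _ _ (norm_nonneg _)]
      refine max_le ?_ ?_
      · rw [mul_comm]
        gcongr
      · rw [norm_mul, mul_assoc]
        gcongr
  by_cases hU : U = 0
  · simp [hU]
  have hs := (IsAlgClosed.splits (U.map (algebraMap F K))).eq_prod_roots
  have h1 := key (U.map (algebraMap F K)).roots fun ζ hζ =>
    ⟨U, hU, by rw [← eval_map_algebraMap]; exact isRoot_of_mem_roots hζ⟩
  rw [← eval_map_algebraMap (derivative U) θ, ← eval_map_algebraMap U θ, ← derivative_map, hs,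
    derivative_C_mul, eval_mul, eval_mul, norm_mul, norm_mul, mul_assoc]
  gcongr

lemma exists_generic (F : Type*) [Field F] [Fintype F] [Algebra F K] (w : K) (B : Finset K) :
    ∃ c : K, ‖c‖ = ‖w‖ ∧ ∀ b ∈ B, ‖w‖ ≤ ‖c - b‖ := by
  classical
  have : IsAlgClosed (algebraicClosure F K) := (algebraicClosure.isAlgClosure F K).isAlgClosed
  have halg : ∀ ω : algebraicClosure F K, IsAlgebraic F (ω : K) := fun ω =>
    mem_algebraicClosure_iff.1 ω.2
  by_contra h
  push Not at h
  have h1 : ∀ ω : algebraicClosure F K, ∃ b : (insert 0 B : Finset K), ‖w * ω - b‖ < ‖w‖ := by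
    intro ω
    have h2 : ‖w * ω‖ ≤ ‖w‖ := by
      rw [norm_mul]
      exact mul_le_of_le_one_right (norm_nonneg _) (norm_le_one_of_alg (halg ω))
    rcases h2.eq_or_lt with h3 | h3
    · obtain ⟨b, hb, h4⟩ := h _ h3
      exact ⟨⟨b, Finset.mem_insert_of_mem hb⟩, h4⟩
    · exact ⟨⟨0, Finset.mem_insert_self _ _⟩, by simpa using h3⟩
  choose f hf using h1
  obtain ⟨ω, ω', hne, heq⟩ := Finite.exists_ne_map_eq_of_infinite f
  have h2 : ‖((ω - ω' : algebraicClosure F K) : K)‖ = 1 :=
    norm_eq_one_of_alg (halg _) (by simpa [sub_eq_zero] using hne)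
  have h3 := norm_sub_le_max' (w * ω - f ω) (w * ω' - f ω')
  rw [heq, sub_sub_sub_cancel_right, ← mul_sub, norm_mul] at h3
  have h4 : ((ω - ω' : algebraicClosure F K) : K) = ω - ω' := rfl
  rw [← h4, h2, mul_one] at h3
  exact absurd h3 (not_le.2 (max_lt (heq ▸ hf ω) (hf ω')))

omit [Fintype F] [IsUltrametricDist K] in
/-- The fibre of a monic polynomial over a point. -/
lemma exists_fibre {v : F[X]} (hv : v.Monic) (hd : 0 < v.natDegree) (c : K) :
    ∃ R : Multiset K, R.card = v.natDegree ∧ (∀ x ∈ R, aeval x v = c) ∧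
      ∀ β : K, (R.map fun x => ‖x - β‖).prod = ‖aeval β v - c‖ := by
  have hdeg : (C c).degree < (v.map (algebraMap F K)).degree := by
    rw [degree_map]
    exact degree_C_le.trans_lt (natDegree_pos_iff_degree_pos.1 hd)
  have hm : (v.map (algebraMap F K) - C c).Monic := (hv.map _).sub_of_left hdeg
  have hs := IsAlgClosed.splits (v.map (algebraMap F K) - C c)
  refine ⟨(v.map (algebraMap F K) - C c).roots, ?_, fun x hx => ?_, fun β => ?_⟩
  · rw [← hs.natDegree_eq_card_roots, natDegree_sub_C, natDegree_map]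
  · have := isRoot_of_mem_roots hx
    rwa [IsRoot, eval_sub, eval_C, eval_map_algebraMap, sub_eq_zero] at this
  · have h := congrArg (fun p => ‖eval β p‖) (hs.eq_prod_roots_of_monic hm)
    simp only [eval_sub, eval_C, eval_map_algebraMap, eval_multiset_prod, Multiset.map_map] at h
    rw [h, ← normHom_apply, map_multiset_prod, Multiset.map_map]
    congr 1
    refine Multiset.map_congr rfl fun x _ => ?_
    simp [norm_sub_rev]

omit [IsUltrametricDist K] [IsAlgClosed K] in
lemma prod_norm_eval {R : Multiset K} {g : K → ℝ}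
    (hg : ∀ β : K, (R.map fun x => ‖x - β‖).prod = g β) (a : K) (s : Multiset K) :
    (R.map fun x => ‖eval x (C a * (s.map fun β => X - C β).prod)‖).prod =
      ‖a‖ ^ R.card * (s.map g).prod := by
  induction s using Multiset.induction_on with
  | empty => simp
  | cons β s ih =>
    rw [Multiset.map_cons, Multiset.prod_cons, Multiset.map_cons, Multiset.prod_cons,
      mul_left_comm (C a), mul_left_comm _ (g β), ← ih, ← hg, ← Multiset.prod_map_mul]
    simp

/-- A Jensen type inequality on the complement of the discs around the roots of `v`. -/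
theorem jensen {v : F[X]} (hv : v.Monic) (hd : 0 < v.natDegree) {w η : K} (hw : ‖w‖ < 1)
    (hη : ‖w‖ < ‖aeval η v‖) {W : K[X]} (s : Multiset K)
    (hs : ∀ β ∈ s, ‖β‖ ≤ 1 ∧ ‖aeval β v‖ < ‖w‖) (Q : ℕ) {C₀ : ℝ}
    (h : ∀ x : K, ‖x‖ ≤ 1 → (∀ β ∈ s, ‖w‖ ≤ ‖x - β‖) →
      ‖eval x ((X - C η) ^ Q * W)‖ ≤ C₀ * ‖eval x (s.map fun β => X - C β).prod‖) :
    ‖aeval η v‖ ^ Q * (‖W.leadingCoeff‖ ^ v.natDegree * ‖w‖ ^ W.natDegree) ≤
      C₀ ^ v.natDegree * ‖w‖ ^ s.card := by
  classical
  obtain ⟨c, hc, hcB⟩ := exists_generic F w (W.roots.toFinset.image fun β => aeval β v)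
  obtain ⟨R, hR, hRc, hRp⟩ := exists_fibre hv hd c
  have hsp := IsAlgClosed.splits W
  have hsv : ∀ β ∈ s, ‖aeval β v - c‖ = ‖w‖ := fun β hβ => by
    rw [norm_sub_rev, norm_sub_eq_left (hc ▸ (hs β hβ).2), hc]
  have hx1 : ∀ x ∈ R, ‖x‖ ≤ 1 := fun x hx =>
    norm_le_one_of_monic hv hd (by rw [hRc x hx, hc]; exact hw.le)
  have h1 : (R.map fun x => ‖eval x ((X - C η) ^ Q * W)‖).prod ≤
      (R.map fun x => C₀ * ‖eval x (s.map fun β => X - C β).prod‖).prod := by
    refine Multiset.prod_map_le_prod_map₀ _ _ (fun _ _ => norm_nonneg _) fun x hx =>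
      h x (hx1 x hx) fun β hβ => ?_
    rw [← hsv β hβ, ← hRc x hx, norm_sub_rev]
    exact norm_aeval_sub_le v (hx1 x hx) (hs β hβ).1
  have h2 := prod_norm_eval hRp 1 s
  simp only [map_one, one_mul, norm_one, one_pow] at h2
  have h3 := prod_norm_eval hRp W.leadingCoeff W.roots
  rw [← hsp.eq_prod_roots] at h3
  rw [Multiset.prod_map_mul, h2, Multiset.map_const', Multiset.prod_replicate, hR,
    Multiset.map_congr rfl hsv, Multiset.map_const', Multiset.prod_replicate] at h1
  refine le_trans ?_ h1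
  simp only [eval_mul, eval_pow, eval_sub, eval_X, eval_C, norm_mul, norm_pow]
  rw [Multiset.prod_map_mul, Multiset.prod_map_pow, hRp, h3, hR, norm_sub_eq_left (hc ▸ hη)]
  gcongr
  rw [hsp.natDegree_eq_card_roots, ← Multiset.prod_replicate, ← Multiset.map_const']
  refine Multiset.prod_map_le_prod_map₀ _ _ (fun _ _ => norm_nonneg _) fun β hβ => ?_
  rw [norm_sub_rev]
  exact hcB _ (Finset.mem_image_of_mem _ (Multiset.mem_toFinset.2 hβ))

end Pool.Agent.Lib.MP_1f047c_nt.Car
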