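import Pool.Agent.Lib.MP_1f047c_nt.CarLead
import Pool.Agent.Lib.MP_1f047c_nt.CarNorm

/-! The zero estimate for the auxiliary function. -/

namespace Pool.Agent.Lib.MP_1f047c_nt.Car

open Polynomial Filter Topology Asymptotics

variable {F K : Type*} [Field F] [Fintype F] [NontriviallyNormedField K] [IsUltrametricDist K]
  [Algebra F K] {φ : K →+* K}

omit [IsUltrametricDist K] in
lemma aeval_iter (hφ : ∀ x, φ x = x ^ Fintype.card F) (v : F[X]) (x : K) (s : ℕ) :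
    aeval (φ^[s] x) v = φ^[s] (aeval x v) := by
  have h := aeval_algHom_apply (FiniteField.frobeniusAlgHom F K ^ s) x v
  simpa only [AlgHom.coe_pow, FiniteField.coe_frobeniusAlgHom, pow_iterate, iter_eq hφ] using h

lemma le_norm_sub_iter (hφ : ∀ x, φ x = x ^ Fintype.card F) {v : F[X]} {w x : K} (hw : ‖w‖ ≤ 1)
    (hx : ‖x‖ ≤ 1) (hw1 : ‖aeval w v‖ < ‖aeval x v‖) (s : ℕ) : ‖aeval x v‖ ≤ ‖x - φ^[s] w‖ := by
  have hq : 2 ≤ Fintype.card F := Fintype.one_lt_card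
  refine le_trans ?_ (norm_aeval_sub_le v hx ((norm_iter_le hφ hq hw s).trans hw))
  rw [norm_sub_eq_left]
  rw [aeval_iter hφ]
  exact (norm_iter_le hφ hq (norm_aeval_le v hw) s).trans_lt hw1

lemma norm_eval_le {f : K[X]} {H : ℝ} (hf : ∀ i, ‖f.coeff i‖ ≤ H) {x : K} (hx : ‖x‖ ≤ 1) :
    ‖f.eval x‖ ≤ H := by
  have h0 := (norm_nonneg _).trans (hf 0)
  rw [eval_eq_sum_range]
  refine IsUltrametricDist.norm_sum_le_of_forall_le_of_nonneg h0 fun i _ => ?_
  rw [norm_mul, norm_pow]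
  exact (mul_le_of_le_one_right (norm_nonneg _) (pow_le_one₀ (norm_nonneg _) hx)).trans (hf i)

theorem zero_est [CompleteSpace K] [IsAlgClosed K] {ι : Type*} [Fintype ι]
    (hφ : ∀ x, φ x = x ^ Fintype.card F) {v : F[X]} (hv : v.Monic) (hd : 0 < v.natDegree) {θ w : K}
    (hv0 : aeval θ v ≠ 0) (hv1 : ‖aeval θ v‖ < 1) (hw : ‖aeval w v‖ < ‖aeval θ v‖) {b : ι → K}
    (hb : ∀ i, ‖b i‖ < 1) {G : ι → LS K} (hG0 : ∀ i, Lead (G i) 0 (b i))
    (hG : ∀ i, fr φ (G i) = ev (X - C w) * (G i - ev (C (b i)))) (L : Subalgebra F K) (hθL : θ ∈ L)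
    (hwL : w ∈ L) (hbL : ∀ i, b i ∈ L) {D : ℕ} (hD : 0 < D) (H : ℝ) :
    ∃ C₀ : ℝ, ∀ (Q : ℕ) (η : K) (A : ℝ), ‖aeval θ v‖ < ‖aeval η v‖ → ‖aeval η v‖ ^ Q = ‖aeval θ v‖ →
      (X - C η) ^ Q = X ^ Q - C θ → (∀ r : K[X], (∀ i, r.coeff i ∈ L) → r.natDegree < Q →
        ∀ i, ‖r.coeff i‖ ≤ A * ‖eval η r‖) → ∀ (f : Mon ι D → K[X]) (D' : ℕ),
      (∀ μ i, (f μ).coeff i ∈ L) → (∀ μ i, ‖(f μ).coeff i‖ ≤ H) → (∀ μ, (f μ).natDegree ≤ D') →
      ∑ μ, (f μ).eval η * ∏ i, ser φ w (b i) η ^ μ.1 i = 0 → ∀ n a, a ≠ 0 →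
      Lead (∑ μ, ev (f μ) * ∏ i, G i ^ μ.1 i) n a →
      ‖aeval θ v‖ ^ (D' + 1) * ‖a‖ ^ v.natDegree ≤ C₀ ^ v.natDegree * ‖aeval θ v‖ ^ Q := by
  have hq : 2 ≤ Fintype.card F := Fintype.one_lt_card
  have hρ : 0 < ‖aeval θ v‖ := norm_pos_iff.2 hv0
  set ρ := ‖aeval θ v‖
  obtain ⟨B, hB1, hB⟩ := exists_dexp_le hq ((pi_norm_lt_iff one_pos).2 hb) hρ
  have hB' : ∀ i j, ‖b i‖ ^ Fintype.card F ^ j / ρ ^ j ≤ B := fun i j =>
    (hB _ (norm_nonneg _) (norm_le_pi_norm b i) j).trans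
      (mul_le_of_le_one_right (by positivity) (hb i).le)
  have hw1 : ‖w‖ ≤ 1 := norm_le_one_of_monic hv hd (hw.trans hv1).le
  refine ⟨max 1 (H * B ^ D), fun Q η A h1 h2 h3 hA f D' hfL hfH hfD hf n a ha hE => ?_⟩
  have hQ : Q ≠ 0 := by
    rintro rfl
    rw [pow_zero] at h2
    exact hv1.ne' h2
  have hη : ‖η‖ ≤ 1 := norm_le_one_of_monic hv hd
    ((pow_le_one_iff_of_nonneg (norm_nonneg _) hQ).1 (h2.trans_le hv1.le))
  have hηw : ∀ s, ρ ≤ ‖η - φ^[s] w‖ := fun s =>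
    h1.le.trans (le_norm_sub_iter hφ hw1 hη (hw.trans h1) s)
  let de : ℕ → K[X] := den fun s => φ^[s] w
  let nu : ι → ℕ → K[X] := fun i => num (fun s => φ^[s] w) fun s => φ^[s] (b i)
  let Nu : ℕ → K[X] := fun M => ∑ μ, f μ * (∏ i, nu i M ^ μ.1 i) * de M ^ (D - ∑ i, μ.1 i)
  let Ψ : (ι → K) → K := fun u => ∑ μ, (f μ).eval η * ∏ i, u i ^ μ.1 i
  have hsm : ∀ᶠ M in atTop, A * ‖(Nu M).eval η‖ ≤ (ρ ^ D) ^ M := by
    have h4 : ∀ r : ℝ, 0 < r → (fun M => (fun i => (nu i M).eval η / (de M).eval η) -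
        fun i => ser φ w (b i) η) =o[atTop] fun M => r ^ M := fun r hr =>
      isLittleO_pi.2 fun i => (isLittleO_of_tendsto (fun M h => absurd h (pow_pos hr M).ne')
        (tendsto_trunc hφ hq hρ (hb i) hηw hr)).of_norm_left
    have h5 := h4 1 one_pos
    simp only [one_pow, isLittleO_one_iff, tendsto_sub_nhds_zero_iff] at h5
    have h6 : DifferentiableAt K Ψ fun i => ser φ w (b i) η := by fun_prop
    have h7 := (((h6.isBigO_sub.comp_tendsto h5).trans_isLittleO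
      (h4 _ (pow_pos hρ D))).norm_left.const_mul_left |A|).eventuallyLE
    refine h7.mono fun M hM => le_trans ?_ ((le_abs_self _).trans (hM.trans_eq
      (abs_of_nonneg (by positivity))))
    have h8 : (de M).eval η ≠ 0 :=
      norm_pos_iff.1 ((pow_pos hρ M).trans_le (le_norm_den hρ fun s _ => hηw s))
    have h9 : (Nu M).eval η = (de M).eval η ^ D * Ψ fun i => (nu i M).eval η / (de M).eval η := by
      simp only [Nu, Ψ, eval_finsetSum, eval_mul, eval_prod, eval_pow, Finset.mul_sum, div_pow,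
        Finset.prod_div_distrib, Finset.prod_pow_eq_pow_sum]
      refine Finset.sum_congr rfl fun μ _ => ?_
      rw [pow_sub₀ _ h8 μ.sum_le]
      field_simp
    have h10 : ‖(de M).eval η‖ ≤ 1 := by
      rw [show de M = den _ M from rfl, den, eval_prod, norm_prod]
      exact Finset.prod_le_one (fun _ _ => norm_nonneg _) fun s _ => by
        simpa using (norm_sub_le_max' _ _).trans (max_le hη ((norm_iter_le hφ hq hw1 s).trans hw1))
    rw [Function.comp_apply, show Ψ (fun i => ser φ w (b i) η) = 0 from hf, sub_zero, h9, norm_mul,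
      norm_pow]
    gcongr
    · exact le_abs_self _
    · exact mul_le_of_le_one_left (norm_nonneg _) (pow_le_one₀ (norm_nonneg _) h10)
  obtain ⟨M, hM, hM'⟩ := (hsm.and (eventually_ge_atTop (n.natAbs + D' + Q))).exists
  have h4 : Lead (ev (Nu M)) (n - D * M) a :=
    lead_trunc φ hG0 hG (fun μ : Mon ι D => μ.1) Mon.sum_le f hfD hE (by omega)
  have hN0 : Nu M ≠ 0 := fun h0 => ha (by rw [← h4.2, h0, map_zero, HahnSeries.coeff_zero])
  obtain ⟨h5, h6⟩ := (lead_ev' (Nu M)).unique h4 (leadingCoeff_ne_zero.2 hN0) ha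
  have h7 : (Nu M).natDegree ≤ D' + D * M := natDegree_sum_le_of_forall_le _ _ fun μ _ => by
    refine natDegree_mul_le.trans ((add_le_add (natDegree_mul_le.trans (add_le_add (hfD μ)
      ((natDegree_prod_le _ _).trans (Finset.sum_le_sum fun i _ => natDegree_pow_le_of_le _
        (natDegree_num _ _ M))))) (natDegree_pow_le_of_le _ (natDegree_den _ M).le)).trans_eq ?_)
    rw [← Finset.sum_mul, add_assoc, ← add_mul, Nat.add_sub_cancel' μ.sum_le]
  have h8 : Q ≤ (Nu M).natDegree := by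
    have : (M : ℤ) ≤ D * M := le_mul_of_one_le_left (by positivity) (by exact_mod_cast hD)
    omega
  have hg : (X ^ Q - C θ).Monic := monic_X_pow_sub_C θ hQ
  have h9 : ∀ i, (Nu M %ₘ (X ^ Q - C θ)).coeff i ∈ L := by
    have h : Fil fun _ => L.toSubring.toAddSubgroup :=
      ⟨monotone_const, fun _ _ _ _ => L.mul_mem, one_mem L⟩
    have h10 : Nu M ∈ polySub L.toSubring.toAddSubgroup := sum_mem fun μ _ =>
      h.poly.mul 0 0 _ _ (h.poly.mul 0 0 _ _ (hfL μ) (h.poly.prod (a := 0) _ fun i =>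
        h.poly.pow (a := 0) (h.den_num hφ hq hwL (hbL i) M).2 _))
        (h.poly.pow (a := 0) (h.den_num hφ hq hwL hwL M).1 _)
    obtain ⟨N', hN'⟩ := (mem_lifts (f := algebraMap L K) _).1
      ((lifts_iff_coeff_lifts _).2 fun i => ⟨⟨_, h10 i⟩, rfl⟩)
    intro i
    have h11 := map_modByMonic (p := N') (algebraMap L K) (monic_X_pow_sub_C (⟨θ, hθL⟩ : L) hQ)
    rw [hN', Polynomial.map_sub, Polynomial.map_pow, map_X, map_C] at h11
    rw [show Nu M %ₘ (X ^ Q - C θ) = _ from h11.symm, coeff_map]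
    exact Subtype.property _
  have h10 : ∀ i, ‖(Nu M %ₘ (X ^ Q - C θ)).coeff i‖ ≤ (ρ ^ D) ^ M := fun i => by
    refine (hA _ h9 ?_ i).trans (le_of_eq_of_le ?_ hM)
    · simpa using natDegree_modByMonic_lt (Nu M) hg fun h => hQ (by simpa using congrArg natDegree h)
    · rw [eq_sub_of_add_eq (modByMonic_add_div (Nu M) (X ^ Q - C θ)), ← h3]
      simp [hQ]
  have h11 := jensen hv hd hv1 h1 (W := Nu M /ₘ (X ^ Q - C θ))
    (D • (Finset.range M).val.map fun s => φ^[s] w) (fun β hβ => ?_) Q (C₀ := max 1 (H * B ^ D))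
    fun x hx hx' => ?_
  · rw [h2, leadingCoeff_divByMonic_of_monic hg (by
        rw [degree_eq_natDegree hN0, degree_X_pow_sub_C (Nat.pos_of_ne_zero hQ)]
        exact_mod_cast h8), h6,
      natDegree_divByMonic _ hg, natDegree_X_pow_sub_C, Multiset.card_nsmul, Multiset.card_map,
      Finset.card_val, Finset.card_range] at h11
    refine le_of_mul_le_mul_right ?_ (pow_pos hρ (D * M))
    calc _ = ρ * (‖a‖ ^ v.natDegree * ρ ^ (D' + D * M)) := by ring
      _ ≤ ρ * (‖a‖ ^ v.natDegree * ρ ^ ((Nu M).natDegree - Q + Q)) := by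
          gcongr _ * (_ * ?_)
          exact pow_le_pow_of_le_one hρ.le hv1.le (by omega)
      _ = ρ * (‖a‖ ^ v.natDegree * ρ ^ ((Nu M).natDegree - Q)) * ρ ^ Q := by ring
      _ ≤ _ := by rw [mul_right_comm _ (ρ ^ Q)]; gcongr
  · obtain ⟨s, -, rfl⟩ := Multiset.mem_map.1 (Multiset.mem_of_mem_nsmul hβ)
    refine ⟨(norm_iter_le hφ hq hw1 s).trans hw1, ?_⟩
    rw [aeval_iter hφ]
    exact (norm_iter_le hφ hq (norm_aeval_le v hw1) s).trans_lt hw
  · have hxw : ∀ s < M, ρ ≤ ‖x - φ^[s] w‖ := fun s hs => hx' _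
      ((Multiset.mem_nsmul_of_ne_zero hD.ne').2 (Multiset.mem_map_of_mem _ (Finset.mem_range.2 hs)))
    have hH := (norm_nonneg _).trans (hfH ⟨0, by simp⟩ 0)
    rw [Multiset.map_nsmul, Multiset.prod_nsmul, Multiset.map_map, h3,
      eq_sub_of_add_eq' (modByMonic_add_div (Nu M) (X ^ Q - C θ)), eval_sub, eval_pow, norm_pow]
    change _ ≤ _ * ‖(de M).eval x‖ ^ D
    refine (norm_sub_le_max' _ _).trans (max_le ?_ ?_)
    · rw [show Nu M = ∑ μ, _ from rfl, eval_finsetSum]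
      refine IsUltrametricDist.norm_sum_le_of_forall_le_of_nonneg (by positivity) fun μ _ => ?_
      simp only [eval_mul, eval_prod, eval_pow, norm_mul, norm_prod, norm_pow]
      calc _ ≤ H * (∏ i, (B * ‖(de M).eval x‖) ^ μ.1 i) * ‖(de M).eval x‖ ^ (D - ∑ i, μ.1 i) := by
            gcongr with i
            exacts [norm_eval_le (hfH μ) hx, norm_num_le hφ hρ (hB' i) hxw]
        _ = H * B ^ (∑ i, μ.1 i) * ‖(de M).eval x‖ ^ D := by
            rw [Finset.prod_pow_eq_pow_sum, mul_pow, mul_assoc, mul_assoc, ← pow_add,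
              Nat.add_sub_cancel' μ.sum_le, mul_assoc]
        _ ≤ H * B ^ D * ‖(de M).eval x‖ ^ D := by gcongr; exact μ.sum_le
        _ ≤ _ := by gcongr; exact le_max_right _ _
    · refine (norm_eval_le h10 hx).trans (le_trans ?_
        (le_mul_of_one_le_left (by positivity) (le_max_left _ _)))
      rw [← pow_mul, mul_comm, pow_mul]
      gcongr
      exact le_norm_den hρ hxw

end Pool.Agent.Lib.MP_1f047c_nt.Car
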