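import Pool.Agent.Lib.MP_1f047c_nt.DrAux
import Pool.Agent.Lib.MP_1f047c_nt.CarInsep

/-! Lifting of relations between values to relations between series for affine systems. -/

namespace Pool.Agent.Lib.MP_1f047c_nt.Dr

open Polynomial Filter Topology Asymptotics IntermediateField Car

variable {F K : Type*} [Field F] [Fintype F] [NontriviallyNormedField K] [IsUltrametricDist K]
  [Algebra F K] [CompleteSpace K] [IsAlgClosed K] {φ : K →+* K} {ι : Type*} [Fintype ι]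
  [DecidableEq ι] {w : ℕ → K} {T : ℕ → Matrix ι ι K[X]} {b : ℕ → ι → K}

theorem zero_est (hφ : ∀ x, φ x = x ^ Fintype.card F) {v : F[X]} (hv : v.Monic)
    (hd : 0 < v.natDegree) {θ : K} (hv0 : aeval θ v ≠ 0) (hv1 : ‖aeval θ v‖ < 1)
    (hs : Sys φ w T b) (hw : ∀ s, ‖aeval (w s) v‖ < ‖aeval θ v‖) {β : ℝ} (hβ0 : 0 ≤ β) (hβ : β < 1)
    (hb : ∀ s k, ‖b s k‖ ≤ β ^ Fintype.card F ^ s)
    (hT : ∀ x : K, ‖x‖ ≤ 1 → ∀ s k l, ‖(T s k l).eval x‖ ≤ 1) {r₀ : ℕ}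
    (hdeg : ∀ M n, r₀ * n ≤ M → ∀ k l, (pr T M k l).natDegree ≤ M - n) {G : ι → LS K} {g : ι → K}
    (hG0 : ∀ i, Lead (G i) 0 (g i))
    (hG : ∀ k, ev (X - C (w 0)) * G k = ∑ l, ev (T 0 k l) * fr φ (G l) + ev (C (b 0 k)))
    (L : Subalgebra F K) (hθL : θ ∈ L) (hwL : w 0 ∈ L) (hTL : ∀ k l i, (T 0 k l).coeff i ∈ L)
    (hbL : ∀ i, b 0 i ∈ L) {D : ℕ} (hD : 0 < D) (H : ℝ) :
    ∃ C₀ : ℝ, ∀ (Q : ℕ) (η : K) (A : ℝ), ‖aeval θ v‖ < ‖aeval η v‖ → ‖aeval η v‖ ^ Q = ‖aeval θ v‖ →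
      (X - C η) ^ Q = X ^ Q - C θ → (∀ r : K[X], (∀ i, r.coeff i ∈ L) → r.natDegree < Q →
        ∀ i, ‖r.coeff i‖ ≤ A * ‖eval η r‖) → ∀ (f : Mon ι D → K[X]) (D' : ℕ),
      (∀ μ i, (f μ).coeff i ∈ L) → (∀ μ i, ‖(f μ).coeff i‖ ≤ H) → (∀ μ, (f μ).natDegree ≤ D') →
      ∑ μ, (f μ).eval η * ∏ i, val w T b η i ^ μ.1 i = 0 → ∀ n a, a ≠ 0 →
      Lead (∑ μ, ev (f μ) * ∏ i, G i ^ μ.1 i) n a →
      ‖aeval θ v‖ ^ (D' + 1) * ‖a‖ ^ v.natDegree ≤ C₀ ^ v.natDegree * ‖aeval θ v‖ ^ Q := by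
  have hq : 2 ≤ Fintype.card F := Fintype.one_lt_card
  have hρ : 0 < ‖aeval θ v‖ := norm_pos_iff.2 hv0
  set ρ := ‖aeval θ v‖
  obtain ⟨B, hB1, hB'⟩ : ∃ B, 1 ≤ B ∧ ∀ s k, ‖b s k‖ ≤ B * ρ ^ (s + 1) := by
    obtain ⟨B, hB1, hB⟩ := exists_dexp_le hq hβ hρ
    refine ⟨B / ρ, (one_le_div hρ).2 (hv1.le.trans hB1), fun s k => (hb s k).trans ?_⟩
    rw [pow_succ', ← mul_assoc, div_mul_cancel₀ _ hρ.ne', ← div_le_iff₀ (by positivity)]
    exact (hB β hβ0 le_rfl s).trans (mul_le_of_le_one_right (by positivity) hβ.le)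
  have hw1 : ∀ s, ‖w s‖ ≤ 1 := fun s => norm_le_one_of_monic hv hd ((hw s).trans hv1).le
  have hnm := natDegree_nm (w := w) (b := b) fun M => hdeg M 0 (by simp)
  refine ⟨max 1 (H * B ^ D), fun Q η A h1 h2 h3 hA f D' hfL hfH hfD hf n a ha hE => ?_⟩
  have hQ : Q ≠ 0 := by
    rintro rfl
    rw [pow_zero] at h2
    exact hv1.ne' h2
  have hη : ‖η‖ ≤ 1 := norm_le_one_of_monic hv hd
    ((pow_le_one_iff_of_nonneg (norm_nonneg _) hQ).1 (h2.trans_le hv1.le))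
  have hηw : ∀ s, ρ ≤ ‖η - w s‖ := fun s =>
    h1.le.trans (le_norm_sub_iter hφ (hw1 s) hη ((hw s).trans h1) 0)
  let de : ℕ → K[X] := den w
  let nu : ι → ℕ → K[X] := fun i M => nm w T b M i
  let Nu : ℕ → K[X] := fun M => ∑ μ, f μ * (∏ i, nu i M ^ μ.1 i) * de M ^ (D - ∑ i, μ.1 i)
  let Ψ : (ι → K) → K := fun u => ∑ μ, (f μ).eval η * ∏ i, u i ^ μ.1 i
  have hsm : ∀ᶠ M in atTop, A * ‖(Nu M).eval η‖ ≤ (ρ ^ D) ^ M := by
    have h4 : ∀ r : ℝ, 0 < r → (fun M => (fun i => (nu i M).eval η / (de M).eval η) -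
        fun i => val w T b η i) =o[atTop] fun M => r ^ M := fun r hr =>
      isLittleO_pi.2 fun i => (isLittleO_of_tendsto (fun M h => absurd h (pow_pos hr M).ne')
        (tendsto_nm hq hβ0 hβ (hT η hη) hb hρ hηw hr i)).of_norm_left
    have h5 := h4 1 one_pos
    simp only [one_pow, isLittleO_one_iff, tendsto_sub_nhds_zero_iff] at h5
    have h6 : DifferentiableAt K Ψ fun i => val w T b η i := by fun_prop
    have h7 := (((h6.isBigO_sub.comp_tendsto h5).trans_isLittleO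
      (h4 _ (pow_pos hρ D))).norm_left.const_mul_left |A|).eventuallyLE
    refine h7.mono fun M hM => le_trans ?_ ((le_abs_self _).trans (hM.trans_eq
      (abs_of_nonneg (by positivity))))
    have h8 : (de M).eval η ≠ 0 :=
      norm_pos_iff.1 ((pow_pos hρ M).trans_le (le_norm_den hρ fun s _ => hηw s))
    have h9 : (Nu M).eval η = (de M).eval η ^ D * Ψ fun i => (nu i M).eval η / (de M).eval η := by
      simp only [Nu, Ψ, eval_finsetSum, eval_mul, eval_prod, eval_pow, Finset.mul_sum, div_pow,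
        Finset.prod_div_distrib, Finset.prod_pow_eq_pow_sum]
      refine Finset.sum_congr rfl fun μ _ => ?_
      rw [pow_sub₀ _ h8 μ.sum_le]
      field_simp
    have h10 : ‖(de M).eval η‖ ≤ 1 := by
      rw [show de M = den _ M from rfl, den, eval_prod, norm_prod]
      exact Finset.prod_le_one (fun _ _ => norm_nonneg _) fun s _ => by
        simpa using (norm_sub_le_max' _ _).trans (max_le hη (hw1 s))
    rw [Function.comp_apply, show Ψ (fun i => val w T b η i) = 0 from hf, sub_zero, h9, norm_mul,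
      norm_pow]
    gcongr
    · exact le_abs_self _
    · exact mul_le_of_le_one_left (norm_nonneg _) (pow_le_one₀ (norm_nonneg _) h10)
  obtain ⟨M, hM, hM', hM''⟩ := (hsm.and ((eventually_ge_atTop (n.natAbs + D' + Q)).and
    (eventually_ge_atTop (r₀ * (n.natAbs + D' + 1))))).exists
  have h4 : Lead (ev (Nu M)) (n - D * M) a :=
    lead_trunc hG0 (den_monic w M) (natDegree_den w M) (hnm M) (M' := n.natAbs + D')
      (fun i => (Lead.sum fun l _ => (lead_ev (hdeg M _ hM'' i l)).mul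
        ((hG0 l).iterate φ M)).lower (by omega)) (hs.den_mul_series hG M)
      (fun μ : Mon ι D => μ.1) Mon.sum_le f hfD hE (by omega)
  have hN0 : Nu M ≠ 0 := fun h0 => ha (by rw [← h4.2, h0, map_zero, HahnSeries.coeff_zero])
  obtain ⟨h5, h6⟩ := (lead_ev' (Nu M)).unique h4 (leadingCoeff_ne_zero.2 hN0) ha
  have h7 : (Nu M).natDegree ≤ D' + D * M := natDegree_sum_le_of_forall_le _ _ fun μ _ => by
    refine natDegree_mul_le.trans ((add_le_add (natDegree_mul_le.trans (add_le_add (hfD μ)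
      ((natDegree_prod_le _ _).trans (Finset.sum_le_sum fun i _ => natDegree_pow_le_of_le _
        (hnm M i))))) (natDegree_pow_le_of_le _ (natDegree_den _ M).le)).trans_eq ?_)
    rw [← Finset.sum_mul, add_assoc, ← add_mul, Nat.add_sub_cancel' μ.sum_le]
  have h8 : Q ≤ (Nu M).natDegree := by
    have : (M : ℤ) ≤ D * M := le_mul_of_one_le_left (by positivity) (by exact_mod_cast hD)
    omega
  have hg : (X ^ Q - C θ).Monic := monic_X_pow_sub_C θ hQ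
  have h9 : ∀ i, (Nu M %ₘ (X ^ Q - C θ)).coeff i ∈ L := by
    have h : Fil fun _ => L.toSubring.toAddSubgroup :=
      ⟨monotone_const, fun _ _ _ _ => L.mul_mem, one_mem L⟩
    have h10 : Nu M ∈ polySub L.toSubring.toAddSubgroup := sum_mem fun μ _ =>
      h.poly.mul 0 0 _ _ (h.poly.mul 0 0 _ _ (hfL μ) (h.poly.prod (a := 0) _ fun i =>
        h.poly.pow (a := 0) ((hs.mem h hφ hq hwL hTL hbL M).2.2 i) _))
        (h.poly.pow (a := 0) (hs.mem h hφ hq hwL hTL hbL M).1 _)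
    obtain ⟨N', hN'⟩ := (mem_lifts (f := algebraMap L K) _).1
      ((lifts_iff_coeff_lifts _).2 fun i => ⟨⟨_, h10 i⟩, rfl⟩)
    intro i
    have h11 := map_modByMonic (p := N') (algebraMap L K) (monic_X_pow_sub_C (⟨θ, hθL⟩ : L) hQ)
    rw [hN', Polynomial.map_sub, Polynomial.map_pow, map_X, map_C] at h11
    rw [show Nu M %ₘ (X ^ Q - C θ) = _ from h11.symm, coeff_map]
    exact Subtype.property _
  have h10 : ∀ i, ‖(Nu M %ₘ (X ^ Q - C θ)).coeff i‖ ≤ (ρ ^ D) ^ M := fun i => by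
    refine (hA _ h9 ?_ i).trans (le_of_eq_of_le ?_ hM)
    · simpa using natDegree_modByMonic_lt (Nu M) hg fun h => hQ (by simpa using congrArg natDegree h)
    · rw [eq_sub_of_add_eq (modByMonic_add_div (Nu M) (X ^ Q - C θ)), ← h3]
      simp [hQ]
  have h11 := jensen hv hd hv1 h1 (W := Nu M /ₘ (X ^ Q - C θ))
    (D • (Finset.range M).val.map w) (fun γ hγ => ?_) Q (C₀ := max 1 (H * B ^ D))
    fun x hx hx' => ?_
  · rw [h2, leadingCoeff_divByMonic_of_monic hg (by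
        rw [degree_eq_natDegree hN0, degree_X_pow_sub_C (Nat.pos_of_ne_zero hQ)]
        exact_mod_cast h8), h6,
      natDegree_divByMonic _ hg, natDegree_X_pow_sub_C, Multiset.card_nsmul, Multiset.card_map,
      Finset.card_val, Finset.card_range] at h11
    refine le_of_mul_le_mul_right ?_ (pow_pos hρ (D * M))
    calc _ = ρ * (‖a‖ ^ v.natDegree * ρ ^ (D' + D * M)) := by ring
      _ ≤ ρ * (‖a‖ ^ v.natDegree * ρ ^ ((Nu M).natDegree - Q + Q)) := by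
          gcongr _ * (_ * ?_)
          exact pow_le_pow_of_le_one hρ.le hv1.le (by omega)
      _ = ρ * (‖a‖ ^ v.natDegree * ρ ^ ((Nu M).natDegree - Q)) * ρ ^ Q := by ring
      _ ≤ _ := by rw [mul_right_comm _ (ρ ^ Q)]; gcongr
  · obtain ⟨s, -, rfl⟩ := Multiset.mem_map.1 (Multiset.mem_of_mem_nsmul hγ)
    exact ⟨hw1 s, hw s⟩
  · have hxw : ∀ s < M, ρ ≤ ‖x - w s‖ := fun s hs => hx' _
      ((Multiset.mem_nsmul_of_ne_zero hD.ne').2 (Multiset.mem_map_of_mem _ (Finset.mem_range.2 hs)))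
    have hH := (norm_nonneg _).trans (hfH ⟨0, by simp⟩ 0)
    rw [Multiset.map_nsmul, Multiset.prod_nsmul, Multiset.map_map, h3,
      eq_sub_of_add_eq' (modByMonic_add_div (Nu M) (X ^ Q - C θ)), eval_sub, eval_pow, norm_pow]
    change _ ≤ _ * ‖(de M).eval x‖ ^ D
    refine (norm_sub_le_max' _ _).trans (max_le ?_ ?_)
    · rw [show Nu M = ∑ μ, _ from rfl, eval_finsetSum]
      refine IsUltrametricDist.norm_sum_le_of_forall_le_of_nonneg (by positivity) fun μ _ => ?_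
      simp only [eval_mul, eval_prod, eval_pow, norm_mul, norm_prod, norm_pow]
      calc _ ≤ H * (∏ i, (B * ‖(de M).eval x‖) ^ μ.1 i) * ‖(de M).eval x‖ ^ (D - ∑ i, μ.1 i) := by
            gcongr with i
            exacts [norm_eval_le (hfH μ) hx, norm_nm_le (hT x hx) hρ hB' i M hxw]
        _ = H * B ^ (∑ i, μ.1 i) * ‖(de M).eval x‖ ^ D := by
            rw [Finset.prod_pow_eq_pow_sum, mul_pow, mul_assoc, mul_assoc, ← pow_add,
              Nat.add_sub_cancel' μ.sum_le, mul_assoc]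
        _ ≤ H * B ^ D * ‖(de M).eval x‖ ^ D := by gcongr; exact μ.sum_le
        _ ≤ _ := by gcongr; exact le_max_right _ _
    · refine (norm_eval_le h10 hx).trans (le_trans ?_
        (le_mul_of_one_le_left (by positivity) (le_max_left _ _)))
      rw [← pow_mul, mul_comm, pow_mul]
      gcongr
      exact le_norm_den hρ hxw

theorem abp (hφ : ∀ x, φ x = x ^ Fintype.card F) {v : F[X]} (hv : v.Monic) (hd : 0 < v.natDegree)
    {θ : K} (hv0 : aeval θ v ≠ 0) (hv1 : ‖aeval θ v‖ < 1) (hs : Sys φ w T b)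
    (hw : ∀ s, ‖aeval (w s) v‖ < ‖aeval θ v‖) {β : ℝ} (hβ0 : 0 ≤ β) (hβ : β < 1)
    (hb : ∀ s k, ‖b s k‖ ≤ β ^ Fintype.card F ^ s)
    (hT : ∀ x : K, ‖x‖ ≤ 1 → ∀ s k l, ‖(T s k l).eval x‖ ≤ 1) {r₀ : ℕ}
    (hdeg : ∀ M n, r₀ * n ≤ M → ∀ k l, (pr T M k l).natDegree ≤ M - n)
    (hsur : ∀ s (y : ι → K), ∃ z : ι → K, ∀ k, ∑ l, (T s k l).eval θ * z l = y k)
    {G : ι → LS K} {g : ι → K} (hG0 : ∀ i, Lead (G i) 0 (g i))
    (hG : ∀ k, ev (X - C (w 0)) * G k = ∑ l, ev (T 0 k l) * fr φ (G l) + ev (C (b 0 k)))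
    {T' : ι → ι → K[X]} {c₀ : ι → K[X]} (hG' : ∀ k, fr φ (G k) = ev (c₀ k) + ∑ l, ev (T' k l) * G l)
    (hws : IsSeparable F⟮θ⟯ (w 0)) (hbs : ∀ i, IsSeparable F⟮θ⟯ (b 0 i))
    (hTs : ∀ k l i, IsSeparable F⟮θ⟯ ((T 0 k l).coeff i))
    (hTs' : ∀ k l i, IsSeparable F⟮θ⟯ ((T' k l).coeff i))
    (hcs : ∀ k i, IsSeparable F⟮θ⟯ ((c₀ k).coeff i)) {D : ℕ} (hD : 0 < D)
    {P : Mon ι D → K} (hP0 : P ≠ 0) (hP : ∀ μ, IsSeparable F⟮θ⟯ (P μ))
    (hrel : ∑ μ, P μ * ∏ i, val w T b θ i ^ μ.1 i = 0) :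
    ∃ f : Mon ι D → K[X], f ≠ 0 ∧ ∑ μ, ev (f μ) * ∏ i, G i ^ μ.1 i = 0 := by
  classical
  obtain ⟨p, hp, k, hp', hk⟩ := FiniteField.card' F
  have : Fact p.Prime := ⟨hp'⟩
  have : CharP K p := charP_of_injective_algebraMap (algebraMap F K).injective p
  have hq : 2 ≤ Fintype.card F := Fintype.one_lt_card
  have hρ : 0 < ‖aeval θ v‖ := norm_pos_iff.2 hv0
  have hθ1 : ‖θ‖ ≤ 1 := norm_le_one_of_monic hv hd hv1.le
  have hw1 : ∀ s, ‖w s‖ ≤ 1 := fun s => norm_le_one_of_monic hv hd ((hw s).trans hv1).le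
  let U : (ι × ι) ⊕ (ι × ι) ⊕ ι → K[X] :=
    Sum.elim (fun z => T 0 z.1 z.2) (Sum.elim (fun z => T' z.1 z.2) c₀)
  let S : Finset K := {1, θ, w 0} ∪ Finset.univ.image (b 0) ∪ Finset.univ.image P ∪
    Finset.univ.biUnion fun z => (U z).coeffs
  have hS : ∀ s ∈ S, IsSeparable F⟮θ⟯ s := by
    simp only [S, Finset.mem_union, Finset.mem_insert, Finset.mem_singleton, Finset.mem_image,
      Finset.mem_biUnion, mem_coeffs_iff]
    rintro s ((((rfl | rfl | rfl) | ⟨i, -, rfl⟩) | ⟨μ, -, rfl⟩) | ⟨z | z | z, -, i, -, rfl⟩)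
    exacts [isSeparable_algebraMap (1 : F⟮θ⟯), isSeparable_algebraMap (AdjoinSimple.gen F s), hws,
      hbs i, hP μ, hTs _ _ i, hTs' _ _ i, hcs _ i]
  obtain ⟨L, hL, hθL, hL'⟩ := insep p hθ1 hv0 hv1 S hS
  obtain ⟨A, hA⟩ := finrank_pow_le S fun s hs => (hS s hs).isIntegral.isAlgebraic
  set V := Submodule.span F (S : Set K)
  have hV : ∀ s ∈ S, s ∈ V := fun s hs => Submodule.subset_span hs
  have h1 : (1 : K) ∈ V := hV _ (by simp [S])
  have hwV : w 0 ∈ V := hV _ (by simp [S])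
  have hbV : ∀ i, b 0 i ∈ V := fun i => hV _ (by simp [S])
  have hUV : ∀ z i, (U z).coeff i ∈ V := fun z i => by
    by_cases h : (U z).coeff i = 0
    · rw [h]
      exact zero_mem _
    · exact hV _ (Finset.mem_union_right _
        (Finset.mem_biUnion.2 ⟨z, Finset.mem_univ _, coeff_mem_coeffs h⟩))
  have hfg : V.FG := Submodule.fg_span S.finite_toSet
  have hfin : ∀ c, (((V ^ c).toAddSubgroup : AddSubgroup K) : Set K).Finite := fun c => by
    have := Module.Finite.iff_fg.2 (hfg.pow c)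
    have : Finite ↥(V ^ c) := Module.finite_of_finite F
    exact Set.toFinite ((V ^ c : Submodule F K) : Set K)
  have hVL : ∀ c, V ^ c ≤ Subalgebra.toSubmodule L := fun c => by
    induction c with
    | zero => simp [Submodule.one_le]
    | succ c ih =>
      rw [pow_succ, Submodule.mul_le]
      exact fun x hx y hy => L.mul_mem (ih hx) (Submodule.span_le.2 (fun s hs => hL s hs) hy :
        y ∈ Subalgebra.toSubmodule L)
  obtain ⟨m, hm⟩ := aux_poly h1 hfg hA hφ hs (hV θ (by simp [S])) hwV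
    (fun k l => hUV (.inl (k, l))) hbV (fun M => hdeg M 0 (by simp)) hβ0 hβ hρ hb (hT θ hθ1)
    (fun s => le_norm_sub_iter hφ (hw1 s) hθ1 (hw s) 0) hsur hP0 (fun μ => hV _ (by simp [S])) hrel
  obtain ⟨Z, hZ, hZ'⟩ := lead_finite (fil_pow h1) hfin hφ hq
    (fun k l i => (pow_one V).ge (hUV (.inr (.inl (k, l))) i))
    (fun k i => (pow_one V).ge (hUV (.inr (.inr k)) i)) hG' D m
  obtain ⟨H, hH⟩ := ((hfin m).image norm).bddAbove
  obtain ⟨C₀, hC₀⟩ := zero_est hφ hv hd hv0 hv1 hs hw hβ0 hβ hb hT hdeg hG0 hG L hθL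
    (hL _ (by simp [S])) (fun k l i => hVL 1 ((pow_one V).ge (hUV (.inl (k, l)) i)))
    (fun i => hL _ (by simp [S])) hD H
  have hl : 0 < Fintype.card (Mon ι D) := Fintype.card_pos_iff.2 ⟨⟨0, by simp⟩⟩
  have h2 := ((tendsto_pow_atTop_nhds_zero_of_lt_one hρ.le hv1).comp
    ((Nat.tendsto_div_const_atTop (n := 2 * Fintype.card (Mon ι D)) (by omega)).comp
      (tendsto_pow_atTop_atTop_of_one_lt hq))).const_mul (C₀ ^ v.natDegree)
  rw [mul_zero] at h2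
  obtain ⟨N, h3, hN⟩ := (((eventually_all_finite (hZ.subset (Set.sdiff_subset (t := {0})))).2
    fun a ha => h2.eventually (gt_mem_nhds (a := ‖aeval θ v‖ * ‖a‖ ^ v.natDegree)
      (mul_pos hρ (pow_pos (norm_pos_iff.2 ha.2) _)))).and (eventually_gt_atTop 0)).exists
  have hQ : 1 < Fintype.card F ^ N := Nat.one_lt_pow hN.ne' hq
  obtain ⟨η, hη⟩ := IsAlgClosed.exists_pow_nat_eq θ (Nat.zero_lt_of_lt hQ)
  have h4 : ‖aeval η v‖ ^ Fintype.card F ^ N = ‖aeval θ v‖ := by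
    rw [← norm_pow, ← iter_eq hφ, ← aeval_iter hφ, iter_eq hφ, hη]
  have h5 : ‖aeval η v‖ < 1 := (pow_lt_one_iff_of_nonneg (norm_nonneg _) (by omega)).1 (h4 ▸ hv1)
  have h6 : ‖aeval θ v‖ < ‖aeval η v‖ := by
    rw [← h4]
    refine pow_lt_self_of_lt_one₀ (norm_pos_iff.2 fun h0 => hρ.ne ?_) h5 hQ
    rw [← h4, h0, norm_zero, zero_pow (by omega)]
  obtain ⟨f, hf0, hf1, hf2, hf3⟩ := hm N η (by rwa [iter_eq hφ]) (fun s => h6.le.trans
    (le_norm_sub_iter hφ (hw1 s) (norm_le_one_of_monic hv hd h5.le) ((hw s).trans h6) 0))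
    (hT η (norm_le_one_of_monic hv hd h5.le))
  refine ⟨f, hf0, by_contra fun h0 => ?_⟩
  obtain ⟨n, a, ha, hE⟩ := exists_lead h0
  obtain ⟨B, hB⟩ := hL' (k * N) η (by rwa [pow_mul, ← hk])
  have h7 := hC₀ _ η B h6 h4 (by rw [← hη, hk, ← pow_mul, sub_pow_char_pow, C_pow])
    (by rwa [hk, ← pow_mul]) f _ (fun μ i => hVL m (hf1 μ i)) (fun μ i => hH ⟨_, hf1 μ i, rfl⟩)
    hf2 hf3 n a ha hE
  refine (h3 a ⟨hZ' f hf1 n a hE, ha⟩).not_ge (le_of_mul_le_mul_left (h7.trans_eq' ?_ |>.trans_eq ?_)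
    (pow_pos hρ (Fintype.card F ^ N - Fintype.card F ^ N / (2 * Fintype.card (Mon ι D)))))
  · ring
  · rw [mul_left_comm, Function.comp_apply, ← pow_add]
    congr 2
    exact (Nat.sub_add_cancel (Nat.div_le_self _ _)).symm

end Pool.Agent.Lib.MP_1f047c_nt.Dr
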