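import Pool.Agent.Lib.MP_1f047c_nt.DrSys

/-! The auxiliary polynomial for an affine difference system and its leading coefficient. -/

namespace Pool.Agent.Lib.MP_1f047c_nt.Dr

open Module Car

variable {ι : Type*} [Fintype ι] [DecidableEq ι]

omit [DecidableEq ι] in
open MvPolynomial in
theorem shiftM {R : Type*} [CommRing R] {W : ℕ → AddSubgroup R} (h : Fil W) {D c r : ℕ}
    (P : Mon ι D → R) (hP : ∀ μ, P μ ∈ W c) (A : ι → R) (B : ι → ι → R) (Z : R)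
    (hA : ∀ i, A i ∈ W r) (hB : ∀ i l, B i l ∈ W r) (hZ : Z ∈ W r) {T : Type*} [CommRing T]
    (j : R →+* T) : ∃ P' : Mon ι D → R, (∀ μ, P' μ ∈ W (c + r * D)) ∧ ∀ Y Y' : ι → T,
      (∀ i, j Z * Y i = j (A i) + ∑ l, j (B i l) * Y' l) →
      ∑ μ, j (P' μ) * ∏ i, Y' i ^ μ.1 i = j Z ^ D * ∑ μ, j (P μ) * ∏ i, Y i ^ μ.1 i := by
  let H : MvPolynomial ι R := ∑ μ, C (P μ * Z ^ (D - ∑ i, μ.1 i)) *
    ∏ i, (C (A i) + ∑ l, monomial (Finsupp.single l 1) (B i l)) ^ μ.1 i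
  have h1 : H ∈ mvSub ι (W (c + r * D)) := sum_mem fun μ _ => by
    refine (h.mv ι).mono ?_ ((h.mv ι).mul _ _ _ _
      (monomial_mem_mvSub (h.mul _ _ _ _ (hP μ) (h.pow hZ _)) 0) ((h.mv ι).prod _ fun i =>
        (h.mv ι).pow (add_mem (monomial_mem_mvSub (hA i) 0)
          (sum_mem fun l _ => monomial_mem_mvSub (hB i l) _)) _))
    rw [← Finset.mul_sum, add_assoc, ← mul_add, Nat.sub_add_cancel μ.sum_le]
  have h2 : H.totalDegree ≤ D := totalDegree_finsetSum_le fun μ _ => by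
    refine (totalDegree_mul _ _).trans ?_
    rw [totalDegree_C, zero_add]
    refine (totalDegree_finsetProd _ _).trans (le_trans (Finset.sum_le_sum fun i _ => ?_) μ.sum_le)
    refine (totalDegree_pow _ _).trans (mul_le_of_le_one_right (Nat.zero_le _) ?_)
    refine (totalDegree_add _ _).trans (max_le (by simp) (totalDegree_finsetSum_le fun l _ =>
      (totalDegree_monomial_le _ _).trans ?_))
    simp
  refine ⟨fun μ => coeff μ.1 H, fun μ => h1 _, fun Y Y' hY => ?_⟩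
  rw [← eval₂_eq_mon j Y' h2, Finset.mul_sum, eval₂_sum]
  refine Finset.sum_congr rfl fun μ _ => ?_
  obtain ⟨s, hs⟩ := Nat.exists_eq_add_of_le μ.sum_le
  simp only [eval₂_mul, eval₂_C, eval₂_prod, eval₂_pow, eval₂_add, eval₂_sum, eval₂_monomial,
    Finsupp.prod_single_index (h := fun i e => Y' i ^ e) (pow_zero _), pow_one, ← hY, mul_pow,
    Finset.prod_mul_distrib, Finset.prod_pow_eq_pow_sum, map_mul, map_pow]
  rw [show j Z ^ D = j Z ^ (∑ i, μ.1 i + s) by rw [← hs], show D - ∑ i, μ.1 i = s by omega]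
  ring

open Polynomial

lemma pr_surj {K : Type*} [Field K] {A : ℕ → Matrix ι ι K[X]} {x : K}
    (h : ∀ s (y : ι → K), ∃ z : ι → K, ∀ k, ∑ l, (A s k l).eval x * z l = y k) (M : ℕ) :
    ∀ y : ι → K, ∃ z : ι → K, ∀ k, ∑ l, (pr A M k l).eval x * z l = y k := by
  induction M with
  | zero => exact fun y => ⟨y, fun k => by simp [pr, Matrix.one_apply, apply_ite]⟩
  | succ M ih =>
    intro y
    obtain ⟨z, hz⟩ := ih y
    obtain ⟨u, hu⟩ := h M z
    refine ⟨u, fun k => ?_⟩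
    simp only [pr, Matrix.mul_apply, eval_finsetSum, eval_mul, Finset.sum_mul, mul_assoc]
    rw [Finset.sum_comm]
    simp only [← Finset.mul_sum, hu, hz]

theorem aux_poly {F K : Type*} [Field F] [Fintype F] [NormedField K] [IsUltrametricDist K]
    [CompleteSpace K] [Algebra F K] [Infinite K] {V : Submodule F K} (h1 : (1 : K) ∈ V) (hV : V.FG)
    {C : ℕ} (hC : ∀ n, finrank F ↥(V ^ n) ≤ C * (n + 1)) {φ : K →+* K}
    (hφ : ∀ x, φ x = x ^ Fintype.card F) {θ : K} {w : ℕ → K} {A : ℕ → Matrix ι ι K[X]}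
    {b : ℕ → ι → K} (hs : Sys φ w A b) (hθ : θ ∈ V) (hw : w 0 ∈ V)
    (hA : ∀ k l i, (A 0 k l).coeff i ∈ V) (hb : ∀ i, b 0 i ∈ V)
    (hd : ∀ M k l, (pr A M k l).natDegree ≤ M) {β ρ : ℝ} (h0 : 0 ≤ β) (hβ : β < 1) (hρ : 0 < ρ)
    (hb1 : ∀ s k, ‖b s k‖ ≤ β ^ Fintype.card F ^ s) (hA1 : ∀ s k l, ‖(A s k l).eval θ‖ ≤ 1)
    (hθw : ∀ s, ρ ≤ ‖θ - w s‖)
    (hsur : ∀ s (y : ι → K), ∃ z : ι → K, ∀ k, ∑ l, (A s k l).eval θ * z l = y k) {D : ℕ}
    {P : Mon ι D → K} (hP0 : P ≠ 0) (hP : ∀ μ, P μ ∈ V)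
    (hrel : ∑ μ, P μ * ∏ i, val w A b θ i ^ μ.1 i = 0) :
    ∃ m, ∀ N η, φ^[N] η = θ → (∀ s, ρ ≤ ‖η - w s‖) → (∀ s k l, ‖(A s k l).eval η‖ ≤ 1) →
      ∃ f : Mon ι D → K[X], f ≠ 0 ∧
      (∀ μ, f μ ∈ polySub (V ^ m).toAddSubgroup) ∧ (∀ μ, (f μ).natDegree ≤
        Fintype.card F ^ N - Fintype.card F ^ N / (2 * Fintype.card (Mon ι D))) ∧
      ∑ μ, (f μ).eval η * ∏ i, val w A b η i ^ μ.1 i = 0 := by
  classical
  have hq : 2 ≤ Fintype.card F := Fintype.one_lt_card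
  have hfin : ∀ n, Module.Finite F ↥(V ^ n) := fun n => Module.Finite.iff_fg.2 (hV.pow n)
  have h := fil_pow h1
  have hpos : ∀ n, 0 < finrank F ↥(V ^ n) := fun n => finrank_pos_iff_exists_ne_zero.2
    ⟨⟨1, h.mono (Nat.zero_le n) h.one⟩, fun h0 => one_ne_zero (congrArg Subtype.val h0)⟩
  have hl : 0 < Fintype.card (Mon ι D) := Fintype.card_pos_iff.2 ⟨⟨0, by simp⟩⟩
  obtain ⟨m, hm⟩ := exists_slow _ hC hpos (2 + 2 * D)
    (κ := 1 + 1 / (2 * Fintype.card (Mon ι D))) (lt_add_of_pos_right _ (by positivity))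
  refine ⟨m, fun N η hη hηw hηA => ?_⟩
  have hV1 : ∀ {x}, x ∈ V → x ∈ (V ^ 1).toAddSubgroup := fun hx => by rwa [pow_one]
  set Q := Fintype.card F ^ N with hQ
  have hNQ : N < Q := Nat.lt_pow_self hq
  have hZ : (den w N).eval θ ≠ 0 :=
    norm_pos_iff.1 ((pow_pos hρ N).trans_le (le_norm_den hρ fun s _ => hθw s))
  obtain ⟨m1, m2, m3⟩ := hs.mem h hφ hq (hV1 hw) (fun k l i => hV1 (hA k l i))
    (fun k => hV1 (hb k)) N
  obtain ⟨P', hP', hP''⟩ := shiftM h (r := 2 * Q) P (fun μ => hV1 (hP μ))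
    (fun i => (nm w A b N i).eval θ) (fun i l => (pr A N i l).eval θ) ((den w N).eval θ)
    (fun i => h.mono (by omega) (h.eval (m3 i) (natDegree_nm hd N i) (hV1 hθ)))
    (fun i l => h.mono (by omega) (h.eval (m2 i l) (hd N i l) (hV1 hθ)))
    (h.mono (by omega) (h.eval m1 (natDegree_den _ N).le (hV1 hθ))) (RingHom.id K)
  simp only [RingHom.id_apply] at hP''
  obtain ⟨μ₀, hμ₀⟩ : ∃ μ₀, P' μ₀ ≠ 0 := by
    by_contra h0
    push Not at h0
    refine hP0 (mon_eq_zero fun Y => ?_)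
    obtain ⟨z, hz⟩ := pr_surj hsur N fun i => (den w N).eval θ * Y i - (nm w A b N i).eval θ
    simpa [h0, hZ] using hP'' Y z fun i => by rw [hz, add_sub_cancel]
  have hY := hP'' _ _ (den_mul_val hq h0 hβ hA1 hb1 hρ hθw N)
  rw [hrel, mul_zero] at hY
  set D' := Q - Q / (2 * Fintype.card (Mon ι D))
  let Φ := (FiniteField.frobeniusAlgHom F K ^ N).toLinearMap
  have hΦ : ∀ x, Φ x = φ^[N] x := fun x => by
    simp only [Φ, AlgHom.toLinearMap_apply, AlgHom.coe_pow, FiniteField.coe_frobeniusAlgHom,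
      pow_iterate, iter_eq hφ]
  let T : Mon ι D → (Mon ι D × Fin D' → ↥(V ^ m)) →ₗ[F] K := fun μ =>
    ∑ d : Fin D', LinearMap.mulRight F (θ ^ (d : ℕ)) ∘ₗ Φ ∘ₗ (V ^ m).subtype ∘ₗ LinearMap.proj (μ, d)
  have hT : ∀ μ u, T μ u = ∑ d : Fin D', φ^[N] (u (μ, d)) * θ ^ (d : ℕ) := fun μ u => by
    simp [T, hΦ]
  have hT' : ∀ μ u ν, T μ u * P' ν ∈ V ^ ((m + (2 + 2 * D)) * Q) := fun μ u ν => by
    rw [hT, Finset.sum_mul]
    refine Submodule.sum_mem _ fun d _ => h.mono ?_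
      (h.mul _ _ _ _ (h.mul _ _ _ _ (h.iter hφ (u (μ, d)).2 N) (h.pow (hV1 hθ) d)) (hP' ν))
    have : (d : ℕ) ≤ Q := d.2.le.trans (Nat.sub_le _ _)
    rw [← hQ]
    nlinarith
  obtain ⟨u, hu0, hu⟩ := siegel (ι := {μ // μ ≠ μ₀})
    (fun μ => LinearMap.mulRight F (P' μ₀) ∘ₗ T μ - LinearMap.mulRight F (P' μ) ∘ₗ T μ₀)
    (V ^ ((m + (2 + 2 * D)) * Q)) (fun μ u => sub_mem (hT' _ _ _) (hT' _ _ _)) (by
      rw [Module.finrank_pi_fintype, Finset.sum_const, Finset.card_univ, smul_eq_mul,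
        Fintype.card_prod, Fintype.card_fin, Fintype.card_subtype_compl, Fintype.card_subtype_eq]
      exact count_lt hl (by omega) (hpos m) (hm Q (by omega)))
  have hu' : ∀ μ, T μ u * P' μ₀ = T μ₀ u * P' μ := fun μ => by
    by_cases hμ : μ = μ₀
    · rw [hμ]
    · exact sub_eq_zero.1 (hu ⟨μ, hμ⟩)
  refine ⟨fun μ => ∑ d : Fin D', monomial d (u (μ, d)), fun h0 => hu0 (funext fun z => ?_),
    fun μ => sum_mem fun d _ => monomial_mem_polySub (u (μ, d)).2 _,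
    fun μ => natDegree_sum_le_of_forall_le _ _ fun d _ => (natDegree_monomial_le _).trans d.2.le, ?_⟩
  · simpa [coeff_monomial, Fin.val_inj] using congrArg (fun p => p.coeff z.2) (congrFun h0 z.1)
  · refine (map_eq_zero (φ ^ N)).1 (mul_right_cancel₀ hμ₀ ?_)
    simp only [map_sum, map_mul, map_prod, map_pow, eval_finsetSum, eval_monomial,
      hs.val_iter hφ hq h0 hβ hηA hb1 hρ hηw]
    simp only [RingHom.coe_pow, hη, ← hT]
    simp only [Finset.sum_mul, mul_right_comm _ _ (P' μ₀), hu']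
    simp only [mul_assoc, ← Finset.mul_sum, hY, mul_zero, zero_mul]

variable {K : Type*} [Field K] {φ : K →+* K} {q : ℕ} {W : ℕ → AddSubgroup K}

lemma iter_lin (h : Fil W) (hφ : ∀ x, φ x = x ^ q) (hq : 2 ≤ q) {B : ι → ι → K[X]} {c : ι → K[X]}
    (hB : ∀ k l, B k l ∈ polySub (W 1)) (hc : ∀ k, c k ∈ polySub (W 1)) {G : ι → LS K}
    (hG : ∀ k, fr φ (G k) = ev (c k) + ∑ l, ev (B k l) * G l) (j : ℕ) :
    ∃ (B' : ι → ι → K[X]) (c' : ι → K[X]), (∀ k l, B' k l ∈ polySub (W (q ^ j))) ∧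
      (∀ k, c' k ∈ polySub (W (q ^ j))) ∧
      ∀ k, (fr φ)^[j] (G k) = ev (c' k) + ∑ l, ev (B' k l) * G l := by
  induction j with
  | zero =>
    refine ⟨fun k l => if k = l then 1 else 0, 0, fun k l => ?_, fun k => zero_mem _, fun k => by
      simp [apply_ite]⟩
    dsimp only
    split_ifs
    exacts [h.poly.mono (Nat.zero_le _) h.poly.one, zero_mem _]
  | succ j ih =>
    obtain ⟨B', c', h1, h2, h3⟩ := ih
    have h4 : q ^ j + q ^ j ≤ q ^ (j + 1) := by rw [pow_succ]; nlinarith [Nat.zero_le (q ^ j)]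
    refine ⟨fun k l => ∑ m, (B k m).map (φ ^ j) * B' m l,
      fun k => (c k).map (φ ^ j) + ∑ m, (B k m).map (φ ^ j) * c' m,
      fun k l => sum_mem fun m _ => h.poly.mono h4 (h.poly.mul _ _ _ _ (map_mem h hφ (hB k m) j)
        (h1 m l)), fun k => add_mem (h.poly.mono (le_of_add_le_left h4) (map_mem h hφ (hc k) j))
      (sum_mem fun m _ => h.poly.mono h4 (h.poly.mul _ _ _ _ (map_mem h hφ (hB k m) j) (h2 m))),
      fun k => ?_⟩
    have := congrArg (fr φ ^ j) (hG k)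
    simp only [map_add, map_sum, map_mul, fr_pow_ev] at this
    simp only [RingHom.coe_pow, h3] at this
    rw [Function.iterate_succ_apply, this]
    simp only [map_add, map_sum, map_mul, mul_add, Finset.sum_add_distrib, Finset.mul_sum,
      Finset.sum_mul, mul_assoc, add_assoc]
    rw [Finset.sum_comm (f := fun l m => _ * (ev (B' m l) * G l))]

theorem lead_finite (h : Fil W) (hW : ∀ c, (W c : Set K).Finite)
    (hφ : ∀ x, φ x = x ^ q) (hq : 2 ≤ q) {B : ι → ι → K[X]} {c₀ : ι → K[X]}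
    (hB : ∀ k l, B k l ∈ polySub (W 1)) (hc : ∀ k, c₀ k ∈ polySub (W 1)) {G : ι → LS K}
    (hG : ∀ k, fr φ (G k) = ev (c₀ k) + ∑ l, ev (B k l) * G l) (D m : ℕ) :
    ∃ Z : Set K, Z.Finite ∧ ∀ f : Mon ι D → K[X], (∀ μ, f μ ∈ polySub (W m)) →
      ∀ n a, Lead (∑ μ, ev (f μ) * ∏ i, G i ^ μ.1 i) n a → a ∈ Z := by
  classical
  set l := Fintype.card (Mon ι D)
  let e : Mon ι D ≃ Fin l := Fintype.equivFin _
  set c := (m * q ^ l + q ^ l * D) * 3 ^ l
  refine ⟨⋃ γ ∈ {γ : Fin (l + 1) → K | ∀ j, γ j ∈ (W c : Set K)} \ {0},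
    {x | IsRoot (∑ j : Fin (l + 1), monomial (q ^ (j : ℕ)) (γ j)) x},
    ((Set.Finite.pi' fun _ => hW c).subset Set.sdiff_subset).biUnion fun γ hγ =>
      finite_setOfPred_isRoot fun h0 => hγ.2 (funext fun j => ?_), fun f hf n a hE => ?_⟩
  · simpa [coeff_monomial, Nat.pow_right_inj hq, Fin.val_inj] using
      congrArg (fun p => p.coeff (q ^ (j : ℕ))) h0
  set E := ∑ μ, ev (f μ) * ∏ i, G i ^ μ.1 i with hEdef
  have h1 : ∀ j : Fin (l + 1), ∃ x : Mon ι D → K[X], (∀ μ, x μ ∈ polySub (W (m * q ^ l + q ^ l * D))) ∧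
      ∑ μ, ev (x μ) * ∏ i, G i ^ μ.1 i = (fr φ)^[j] E := by
    intro j
    have hj : q ^ (j : ℕ) ≤ q ^ l := Nat.pow_le_pow_right (by omega) (Nat.lt_succ_iff.1 j.2)
    obtain ⟨B', c', b1, b2, b3⟩ := iter_lin h hφ hq hB hc hG j
    obtain ⟨x, hx, hx'⟩ := shiftM h.poly (c := m * q ^ l) (r := q ^ l)
      (fun μ => (f μ).map (φ ^ (j : ℕ))) (fun μ i => by
        rw [coeff_map, RingHom.coe_pow]
        exact h.mono (Nat.mul_le_mul_left _ hj) (h.iter hφ (hf μ i) j)) c' B' 1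
      (fun i => h.poly.mono hj (b2 i)) (fun i k => h.poly.mono hj (b1 i k))
      (h.poly.mono (Nat.zero_le _) h.poly.one) ev
    refine ⟨x, hx, (hx' (fun i => (fr φ)^[j] (G i)) G fun i => ?_).trans ?_⟩
    · rw [map_one, one_mul, b3]
    · simp only [← RingHom.coe_pow, hEdef, map_sum, map_mul, map_prod, map_pow, fr_pow_ev, map_one,
        one_pow, one_mul]
  choose x hx hx' using h1
  obtain ⟨g, hg0, hg, hg'⟩ := eliminate (fun c => polySub (W c)) h.poly.mono h.poly.mul h.poly.one l _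
    (fun j k => x j (e.symm k)) fun j k => hx j _
  obtain ⟨j₀, hj₀⟩ := Finite.exists_max fun j => (g j).degree
  have h2 : ∑ j, ev (g j) * (fr φ)^[j] E = 0 := by
    simp only [← hx', Finset.mul_sum, ← mul_assoc, ← map_mul]
    rw [Finset.sum_comm]
    refine Finset.sum_eq_zero fun μ _ => ?_
    have := hg' (e μ)
    simp only [Equiv.symm_apply_apply] at this
    rw [← Finset.sum_mul, ← map_sum, this, map_zero, zero_mul]
  have h3 := (Lead.sum (s := Finset.univ) fun j _ =>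
    (lead_ev (natDegree_le_natDegree (hj₀ j))).mul (hE.iterate φ j)).2
  rw [h2] at h3
  refine Set.mem_biUnion (x := fun j => (g j).coeff (g j₀).natDegree)
    ⟨fun j => hg j _, fun h0 => hg0 (funext fun j => ?_)⟩ ?_
  · have h4 : g j₀ = 0 := leadingCoeff_eq_zero.1 (congrFun h0 j₀)
    exact degree_eq_bot.1 (le_bot_iff.1 (by simpa [h4] using hj₀ j))
  · simpa [eval_finsetSum, iter_eq hφ] using h3.symm

omit [DecidableEq ι] in
/-- Truncation does not change the leading term. -/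
theorem lead_trunc {κ : Type*} [Fintype κ] {G : ι → LS K} {g : ι → K} (hG0 : ∀ i, Lead (G i) 0 (g i))
    {d : K[X]} (hdm : d.Monic) {M : ℕ} (hdM : d.natDegree = M) {nu : ι → K[X]}
    (hnu : ∀ i, (nu i).natDegree ≤ M) {M' : ℤ} {R : ι → LS K} (hR : ∀ i, Lead (R i) (M' - M) 0)
    (hG : ∀ i, ev d * G i = ev (nu i) + R i) (μ : κ → ι → ℕ) {D D₀ : ℕ}
    (hμ : ∀ e, ∑ i, μ e i ≤ D₀) (h : κ → K[X]) (hh : ∀ e, (h e).natDegree ≤ D) {n : ℤ} {a : K}
    (hE : Lead (∑ e, ev (h e) * ∏ i, G i ^ μ e i) n a) (hM : n + D ≤ M') :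
    Lead (ev (∑ e, h e * (∏ i, nu i ^ μ e i) * d ^ (D₀ - ∑ i, μ e i))) (n - D₀ * M) a := by
  have hd1 : Lead (ev d) (-(M : ℤ)) 1 := by
    have := lead_ev' d
    rwa [hdM, hdm.leadingCoeff] at this
  have hd0 : ev d ≠ 0 := ev_ne_zero hdm.ne_zero
  let S : Submonoid (LS K × LS K) :=
    { carrier := {z | (∃ a, Lead z.1 0 a) ∧ (∃ a, Lead z.2 0 a) ∧ Lead (z.2 - z.1) M' 0}
      one_mem' := ⟨⟨_, lead_one⟩, ⟨_, lead_one⟩, by simp [Lead]⟩
      mul_mem' := by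
        rintro ⟨x, x'⟩ ⟨y, y'⟩ ⟨⟨_, a1⟩, ⟨_, a2⟩, a3⟩ ⟨⟨_, b1⟩, ⟨_, b2⟩, b3⟩
        refine ⟨⟨_, a1.mul b1⟩, ⟨_, a2.mul b2⟩, ?_⟩
        have h1 := a3.mul b2
        have h2 := a1.mul b3
        rw [add_zero, zero_mul] at h1
        rw [zero_add, mul_zero] at h2
        have := h1.add h2
        rw [add_zero] at this
        convert this using 1
        simp only [Prod.fst_mul, Prod.snd_mul]
        ring }
  let G' : ι → LS K := fun i => ev (nu i) * (ev d)⁻¹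
  have hS : ∀ i, (G i, G' i) ∈ S := fun i => by
    refine ⟨⟨_, hG0 i⟩, ⟨_, by simpa using (lead_ev (hnu i)).mul hd1.inv⟩, ?_⟩
    have h2 := ((hR i).mul hd1.inv).neg
    simp only [zero_mul, neg_zero, neg_neg, sub_add_cancel] at h2
    convert h2 using 1
    simp only [G']
    field_simp
    linear_combination -hG i
  have h1 : ∀ e, Lead (ev (h e) * (∏ i, G' i ^ μ e i - ∏ i, G i ^ μ e i)) n 0 := fun e => by
    have h2 := (S.prod_mem (t := Finset.univ) fun i _ => S.pow_mem (hS i) (μ e i)).2.2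
    simp only [Prod.fst_prod, Prod.snd_prod, Prod.pow_fst, Prod.pow_snd] at h2
    have h3 := (lead_ev (hh e)).mul h2
    rw [mul_zero] at h3
    rcases (show n ≤ -(D : ℤ) + M' by omega).eq_or_lt with h4 | h4
    · rwa [h4]
    · exact h3.lower h4
  have h2 := (hE.add (Lead.sum (s := Finset.univ) fun e _ => h1 e)).mul (hd1.pow D₀)
  simp only [Finset.sum_const_zero, add_zero, one_pow, mul_one, mul_neg, ← sub_eq_add_neg] at h2
  convert h2 using 1
  rw [← Finset.sum_add_distrib, Finset.sum_mul, map_sum]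
  refine Finset.sum_congr rfl fun e _ => ?_
  obtain ⟨r, hr⟩ := Nat.exists_eq_add_of_le (hμ e)
  simp only [G', mul_pow, Finset.prod_mul_distrib, Finset.prod_pow_eq_pow_sum, map_mul, map_prod,
    map_pow, hr, Nat.add_sub_cancel_left]
  rw [inv_pow]
  field_simp
  ring

end Pool.Agent.Lib.MP_1f047c_nt.Dr
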