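import Pool.Agent.Lib.MP_1f047c_nt.DrMat

/-! The Carlitz module as a special case. -/

namespace Pool.Agent.Lib.MP_1f047c_nt.Dr

open Polynomial IntermediateField Finset Car

lemma coeff_sm_car {K : Type*} [Field K] (φ : K →+* K) (θ : K) (a : K[X]) (n : ℕ) :
    (sm φ a (C θ + X)).coeff n = a.coeff n * φ^[n] θ + if 1 ≤ n then a.coeff (n - 1) else 0 := by
  rw [coeff_sm, cv_add, ← monomial_zero_left, ← monomial_one_one_eq_X]
  simp [-monomial_zero_left, cv_monomial]

/-- Endomorphisms of the Carlitz module have their constant term in `F(θ)`. -/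
lemma end_carlitz {F K : Type*} [Field F] [Fintype F] [NontriviallyNormedField K] [Algebra F K]
    {φ : K →+* K} (hφ : ∀ x, φ x = x ^ Fintype.card F) (θ : K) {e : K[X]}
    (he : ∀ y, op φ e (op φ (C θ + X) y) = op φ (C θ + X) (op φ e y)) : e.coeff 0 ∈ F⟮θ⟯ := by
  have hq : 2 ≤ Fintype.card F := Fintype.one_lt_card
  have : Infinite K := NontriviallyNormedField.infinite K
  have h1 : ∀ y, op φ (C θ + X) y = θ * y + φ y := fun y => by
    rw [op_add, ← monomial_zero_left, ← monomial_one_one_eq_X, op_monomial, op_monomial, one_mul]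
    rfl
  have h2 : ∀ d, ∃ a : K[X], (∀ n, d < n → a.coeff n = 0) ∧ a.coeff d = 1 ∧ a.coeff 0 = θ ^ d ∧
      ∀ y, op φ a (op φ (C θ + X) y) = op φ (C θ + X) (op φ a y) := fun d => by
    induction d with
    | zero =>
      exact ⟨monomial 0 1, fun n hn => by simp [coeff_one, hn.ne'], by simp, by simp,
        fun y => by simp only [op_monomial, one_mul, Function.iterate_zero_apply]⟩
    | succ d ih =>
      obtain ⟨a, a1, a2, a3, a4⟩ := ih
      refine ⟨sm φ a (C θ + X), fun n hn => ?_, ?_, ?_, fun y => by rw [op_sm, op_sm, a4]⟩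
      · simp [coeff_sm_car, a1 n (by omega), a1 (n - 1) (by omega)]
      · simp [coeff_sm_car, a1 (d + 1) (by omega), a2]
      · simp [coeff_sm_car, a3, pow_succ]
  suffices h : ∀ d, ∀ e : K[X], (∀ n, d ≤ n → e.coeff n = 0) →
      (∀ y, op φ e (op φ (C θ + X) y) = op φ (C θ + X) (op φ e y)) → e.coeff 0 ∈ F⟮θ⟯ from
    h (e.natDegree + 1) e (fun n hn => coeff_eq_zero_of_natDegree_lt hn) he
  intro d
  induction d with
  | zero => exact fun e h _ => h 0 le_rfl ▸ zero_mem _
  | succ d ih =>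
    intro e h he
    have h3 : sm φ e (C θ + X) = monomial 0 θ * e.map (φ ^ 0) + monomial 1 1 * e.map (φ ^ 1) :=
      sub_eq_zero.1 (eq_zero_of_op hφ hq fun x => by
        rw [op_sub, op_sm, he, op_add _ _ x, op_mul_map, op_mul_map, h1, one_mul]
        exact sub_self _)
    have h4 := congrArg (fun g => g.coeff (d + 1)) h3
    simp only [coeff_sm_car, h _ le_rfl, monomial_zero_left, monomial_one_one_eq_X, coeff_add,
      coeff_C_mul, coeff_X_mul, coeff_map, map_zero, pow_one] at h4
    obtain ⟨g, hg⟩ := lifts_of_fixed hφ (c := C (e.coeff d)) (by simpa using h4.symm)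
    have h5 : algebraMap F K (g.coeff 0) = e.coeff d := by
      simpa using congrArg (fun g => g.coeff 0) hg
    obtain ⟨a, a1, a2, a3, a4⟩ := h2 d
    have h6 : ∀ y, op φ (C (e.coeff d) * a) y = e.coeff d * op φ a y := fun y => by
      simpa [RingHom.one_def] using op_mul_map (φ := φ) 0 (e.coeff d) a y
    have h7 := ih (e - C (e.coeff d) * a) (fun n hn => by
      obtain rfl | hn := hn.eq_or_lt
      · simp [a2]
      · simp [h n hn, a1 n hn]) fun y => by
        rw [op_sub, op_sub, op_sub', he, h6, h6, a4, h1 (_ * _), h1 (op φ a y), map_mul,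
          show φ (e.coeff d) = e.coeff d by simpa using h4.symm]
        ring
    rw [coeff_sub, coeff_C_mul, a3, ← h5] at h7
    simpa using add_mem h7 (mul_mem (F⟮θ⟯.algebraMap_mem (g.coeff 0))
      (pow_mem (mem_adjoin_simple_self F θ) d))

/-- The theorem on Carlitz logarithms from the theorem on Drinfeld logarithms. -/
theorem carlitz_log' {F K : Type*} [Field F] [Fintype F] [NormedField K] [IsUltrametricDist K]
    [CompleteSpace K] [IsAlgClosed K] [Algebra F K] {ι : Type*} [Fintype ι] {θ : K}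
    (hθ : Transcendental F θ) {v : F[X]} (hv : v ≠ 0) (hv1 : ‖aeval θ v‖ < 1) {α lam : ι → K}
    (hα : ∀ i, IsAlgebraic F⟮θ⟯ (α i)) (hα1 : ∀ i, ‖α i‖ < 1)
    (hlam : ∀ i, HasSum (fun j : ℕ => α i ^ Fintype.card F ^ j /
      ∏ s ∈ range j, (θ - θ ^ Fintype.card F ^ (s + 1))) (lam i))
    (hli : LinearIndependent F⟮θ⟯ lam) : AlgebraicIndependent F⟮θ⟯ lam := by
  let _ : NontriviallyNormedField K := .ofNormNeOne ⟨aeval θ v, fun h => hθ ⟨v, hv, h⟩, hv1.ne⟩
  let φ : K →+* K := FiniteField.frobeniusAlgHom F K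
  have hφ : ∀ x, φ x = x ^ Fintype.card F := fun _ => rfl
  have hq : 2 ≤ Fintype.card F := Fintype.one_lt_card
  have h1 : ∀ k, 0 < k → ‖(C θ + X).coeff k‖ ≤ 1 := fun k hk => by
    rw [coeff_add, coeff_C, if_neg hk.ne', zero_add, coeff_X]
    split_ifs <;> simp
  have h2 : ∀ s, θ - θ ^ Fintype.card F ^ (s + 1) ≠ 0 := fun s h => by
    have h3 := congrArg natDegree (transcendental_iff_injective.1 hθ (a₁ := X)
      (a₂ := X ^ Fintype.card F ^ (s + 1)) (by simpa using sub_eq_zero.1 h))
    rw [natDegree_X, natDegree_X_pow] at h3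
    exact (Nat.one_lt_pow s.succ_ne_zero hq).ne h3
  by_contra h
  obtain ⟨e, ⟨i, hi⟩, h5, -, h6⟩ := drinfeld_scale hφ hθ hv hv1 (ρ := C θ + X) (by simp)
    (by rw [add_comm, natDegree_X_add_C]; exact one_pos)
    (fun k => by
      rw [coeff_add, coeff_C, coeff_X]
      refine .add ?_ ?_ <;> split_ifs
      exacts [isAlgebraic_algebraMap (AdjoinSimple.gen F θ), isAlgebraic_zero, isAlgebraic_one,
        isAlgebraic_zero])
    (β := fun j => (∏ s ∈ range j, (θ - θ ^ Fintype.card F ^ (s + 1)))⁻¹) (by simp)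
    (fun j => by
      refine (congrFun (cv_add (φ := φ) (fun j => (∏ s ∈ range j,
        (θ - θ ^ Fintype.card F ^ (s + 1)))⁻¹) (C θ) X) j).trans ?_
      rw [← monomial_zero_left, ← monomial_one_one_eq_X]
      obtain _ | j := j
      · simp [-monomial_zero_left, cv_monomial]
      · have h3 := h2 j
        have h4 := prod_ne_zero_iff.2 fun s (_ : s ∈ range j) => h2 s
        simp only [Pi.add_apply, cv_monomial, zero_le, le_add_iff_nonneg_left, if_true, Nat.sub_zero,
          Nat.add_sub_cancel, iter_eq hφ, one_pow, prod_range_succ]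
        field_simp
        ring)
    hα (fun i k hk => mul_lt_one_of_nonneg_of_lt_one_right (h1 k hk) (by positivity)
      (pow_lt_one₀ (norm_nonneg _) (hα1 i) (Nat.sub_pos_of_lt (Nat.one_lt_pow hk.ne' hq)).ne'))
    (fun i => by simpa only [iter_eq hφ, div_eq_inv_mul] using hlam i) h
  exact hi (congrArg Subtype.val (Fintype.linearIndependent_iff.1 hli
    (fun i => ⟨_, end_carlitz hφ θ (h5 i)⟩) h6 i))

end Pool.Agent.Lib.MP_1f047c_nt.Dr
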