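import Pool.Agent.Lib.MP_1f047c_nt.CarKO
import Pool.Agent.Lib.MP_1f047c_nt.CarShift

/-! A relation of least degree between solutions of a pure difference system is linear. -/

namespace Pool.Agent.Lib.MP_1f047c_nt.Dr

open MvPolynomial Car

variable {ι E L : Type*} [Fintype ι] [Field E] [Field L]

/-- A separated and exhaustive multiplicative filtration. -/
structure ZF (S : ℤ → AddSubgroup L) : Prop where
  mul : ∀ a b x y, x ∈ S a → y ∈ S b → x * y ∈ S (a + b)
  one : 1 ∈ S 0
  anti : Antitone S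
  sep : ∀ (x : L) (n : ℤ), (∀ N : ℕ, x ∈ S (n + N)) → x = 0
  ex : ∀ x, ∃ n, x ∈ S n

/-- The weighted filtration on polynomials. -/
def WF (S : ℤ → AddSubgroup L) (wt : ι → ℤ) (n : ℤ) : AddSubgroup (MvPolynomial ι L) where
  carrier := {Q | ∀ μ, coeff μ Q ∈ S (n + Finsupp.weight wt μ)}
  add_mem' ha hb μ := by rw [coeff_add]; exact add_mem (ha μ) (hb μ)
  zero_mem' _ := zero_mem _
  neg_mem' ha μ := by rw [coeff_neg]; exact neg_mem (ha μ)

variable {S : ℤ → AddSubgroup L} {wt : ι → ℤ}

omit [Fintype ι] in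
lemma monomial_mem_WF {n : ℤ} {μ : ι →₀ ℕ} {c : L} (hc : c ∈ S (n + Finsupp.weight wt μ)) :
    monomial μ c ∈ WF S wt n := fun ν => by
  classical
  rw [coeff_monomial]
  split_ifs with h
  exacts [h ▸ hc, zero_mem _]

omit [Fintype ι] in
lemma ZF.wmul (h : ZF S) {a b : ℤ} {P Q : MvPolynomial ι L} (hP : P ∈ WF S wt a)
    (hQ : Q ∈ WF S wt b) : P * Q ∈ WF S wt (a + b) := fun μ => by
  classical
  rw [coeff_mul]
  refine sum_mem fun z hz => ?_
  have := h.mul _ _ _ _ (hP z.1) (hQ z.2)
  rwa [add_add_add_comm, ← map_add, Finset.HasAntidiagonal.mem_antidiagonal.1 hz] at this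

omit [Fintype ι] in
lemma ZF.wprod (h : ZF S) {a : ι → ℤ} {P : ι → MvPolynomial ι L} (hP : ∀ k, P k ∈ WF S wt (a k))
    (μ : ι →₀ ℕ) : (μ.prod fun k e => P k ^ e) ∈ WF S wt (Finsupp.weight a μ) := by
  have h1 : (1 : MvPolynomial ι L) ∈ WF S wt 0 := monomial_mem_WF (by simpa using h.one)
  induction μ using Finsupp.induction_linear with
  | zero => simpa using h1
  | add μ ν h2 h3 =>
    rw [Finsupp.prod_add_index' (by simp) (fun _ _ _ => pow_add _ _ _), map_add]
    exact h.wmul h2 h3
  | single k e =>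
    rw [Finsupp.prod_single_index (by simp), Finsupp.weight_single]
    induction e with
    | zero => simpa using h1
    | succ e ih =>
      rw [pow_succ, succ_nsmul]
      exact h.wmul ih (hP k)

/-- A linear substitution together with a map on the coefficients. -/
noncomputable def sb (σ : L →+* L) (B : Matrix ι ι L) : MvPolynomial ι L →+* MvPolynomial ι L :=
  eval₂Hom (C.comp σ) fun k => ∑ l, monomial (Finsupp.single l 1) (B k l)

lemma sb_comp (σ : L →+* L) (B : Matrix ι ι L) (m : ℕ) (R : MvPolynomial ι L) :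
    homogeneousComponent m (sb σ B R) = sb σ B (homogeneousComponent m R) := by
  have h1 : ∀ i, sb σ B (homogeneousComponent i R) ∈ homogeneousSubmodule ι L i := fun i => by
    simpa [sb] using (homogeneousComponent_isHomogeneous i R).eval₂ (C.comp σ)
      (fun k => ∑ l, monomial (Finsupp.single l 1) (B k l)) (n := 1)
      (fun r => isHomogeneous_C _ _) fun k => IsHomogeneous.sum _ _ _ fun l _ =>
        isHomogeneous_monomial _ (by simp)
  conv_lhs => rw [← R.sum_homogeneousComponent, map_sum, map_sum]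
  simp only [homogeneousComponent_of_mem (h1 _), Finset.sum_ite_eq]
  split_ifs with h
  · rfl
  · rw [homogeneousComponent_eq_zero _ _ (by simpa using h), map_zero]

lemma ZF.sb_mem (h : ZF S) {σ : L →+* L} (hσ : ∀ n x, x ∈ S n → σ x ∈ S n) {B : Matrix ι ι L}
    {ε n : ℤ} (hB : ∀ k l, B k l ∈ S (ε + wt l - wt k)) (m : ℕ) {R : MvPolynomial ι L}
    (hR : homogeneousComponent m R ∈ WF S wt n) :
    sb σ B (homogeneousComponent m R) ∈ WF S wt (n + m * ε) := by
  have h0 := homogeneousComponent_isHomogeneous m R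
  generalize homogeneousComponent m R = H at *
  rw [H.as_sum, map_sum]
  refine sum_mem fun μ hμ => ?_
  have h1 := h.wmul (monomial_mem_WF (μ := 0) (wt := wt) (n := n + Finsupp.weight wt μ)
    (by simpa using hσ _ _ (hR μ))) (h.wprod (a := fun k => ε - wt k)
    (P := fun k => ∑ l, monomial (Finsupp.single l 1) (B k l)) (fun k => sum_mem fun l _ =>
      monomial_mem_WF (by convert hB k l using 2; simp [Finsupp.weight_single]; ring)) μ)
  have h2 : ∑ k, μ k = m := by
    rw [← Finsupp.degree_eq_sum, Finsupp.degree_eq_weight_one]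
    exact h0 (mem_support_iff.1 hμ)
  convert h1 using 2
  · simp only [Finsupp.weight_eq_sum, nsmul_eq_mul, mul_sub, Finset.sum_sub_distrib,
      ← Finset.sum_mul, ← h2, Nat.cast_sum]
    ring
  · exact eval₂Hom_monomial _ _ _ _

variable [Algebra E L]

/-- Expansion around a point. -/
noncomputable def tr (G : ι → L) : MvPolynomial ι E →+* MvPolynomial ι L :=
  eval₂Hom (C.comp (algebraMap E L)) fun k => X k + C (G k)

omit [Fintype ι] in
lemma constantCoeff_tr (G : ι → L) (Q : MvPolynomial ι E) : constantCoeff (tr G Q) = aeval G Q := by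
  induction Q using MvPolynomial.induction_on with
  | C c => simp [tr]
  | add p r hp hr => simp [hp, hr]
  | mul_X p k hp => rw [map_mul, map_mul, map_mul, hp]; simp [tr]

omit [Fintype ι] in
lemma pderiv_tr (G : ι → L) (k : ι) (Q : MvPolynomial ι E) :
    pderiv k (tr G Q) = tr G (pderiv k Q) := by
  classical
  induction Q using MvPolynomial.induction_on with
  | C c => simp [tr]
  | add p r hp hr => simp [hp, hr]
  | mul_X p l hp =>
    rw [map_mul, Derivation.leibniz, Derivation.leibniz, hp]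
    by_cases h : l = k <;> simp [tr, h, pderiv_X]

lemma top_tr (G : ι → L) {d : ℕ} {Q : MvPolynomial ι E} (hQ : Q.totalDegree ≤ d) (μ : ι →₀ ℕ) :
    coeff μ (homogeneousComponent d (tr G Q)) =
      algebraMap E L (coeff μ (homogeneousComponent d Q)) := by
  have e : tr G Q = sh (-G) (map (algebraMap E L) Q) := by
    refine RingHom.congr_fun (f := tr G)
      (g := (sh (-G)).toRingHom.comp (map (algebraMap E L))) (ringHom_ext ?_ ?_) Q <;> simp [tr, sh]
  rw [coeff_homogeneousComponent, coeff_homogeneousComponent]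
  split_ifs with h
  · rw [e, Low.coeff_sh (r := d) _ (fun ν hν => by
      rw [coeff_map, coeff_eq_zero_of_totalDegree_lt (by rw [← Finsupp.degree_apply]; omega),
        map_zero]) (by omega), coeff_map]
  · rw [map_zero]

omit [Fintype ι] in
lemma totalDegree_aeval_le {f : ι → MvPolynomial ι E} (hf : ∀ k, (f k).totalDegree ≤ 1)
    (Q : MvPolynomial ι E) : (aeval f Q).totalDegree ≤ Q.totalDegree := by
  conv_lhs => rw [Q.as_sum, map_sum]
  refine totalDegree_finsetSum_le fun μ hμ => ?_
  rw [aeval_monomial, algebraMap_eq]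
  refine (totalDegree_mul _ _).trans ?_
  rw [totalDegree_C, zero_add]
  refine (totalDegree_finsetProd _ _).trans (le_trans (Finset.sum_le_sum fun k _ =>
    (totalDegree_pow _ _).trans (mul_le_of_le_one_right (Nat.zero_le _) (hf k))) (le_totalDegree hμ))

lemma tr_eq [DecidableEq ι] (σ₀ : E ≃+* E) (σ : L →+* L)
    (hσ : ∀ x, σ (algebraMap E L x) = algebraMap E L (σ₀ x)) {A B : Matrix ι ι E} {c : ι → E}
    (hAB : ∀ k m, ∑ l, algebraMap E L (A k l) * algebraMap E L (B l m) = if k = m then 1 else 0)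
    {G : ι → L}
    (hG : ∀ k, σ (G k) = ∑ l, algebraMap E L (B k l) * G l + algebraMap E L (c k))
    (P : MvPolynomial ι E) : tr G P = sb σ (B.map (algebraMap E L)) (tr G (map σ₀.symm.toRingHom
      (aeval (fun k => ∑ l, C (A k l) * (X l - C (c l)) : ι → MvPolynomial ι E) P))) := by
  have e0 : ∀ x : E, sb σ (B.map (algebraMap E L)) (tr G (map σ₀.symm.toRingHom (C x))) =
      C (algebraMap E L x) := fun x => by simp [tr, sb, hσ]
  induction P using MvPolynomial.induction_on with
  | C x => rw [aeval_C, algebraMap_eq, e0]; simp [tr]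
  | add p r hp hr => simp only [map_add, ← hp, ← hr]
  | mul_X p k hp =>
    have e1 : ∀ l, sb σ (B.map (algebraMap E L)) (tr G (map σ₀.symm.toRingHom (X l))) -
        C (algebraMap E L (c l)) = ∑ m, C (algebraMap E L (B l m)) * (X m + C (G m)) := fun l => by
      simp only [map_X, tr, sb, eval₂Hom_X', map_add, eval₂Hom_C, RingHom.comp_apply, hG, map_sum,
        map_mul, mul_add, Finset.sum_add_distrib, C_mul_X_eq_monomial, Matrix.map_apply]
      ring
    simp only [map_mul, ← hp, aeval_X, map_sum, map_sub, e0, e1]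
    congr 1
    simp only [Finset.mul_sum, ← mul_assoc, ← C_mul]
    rw [Finset.sum_comm]
    simp only [← Finset.sum_mul, ← map_sum, hAB]
    simp [apply_ite, tr]

theorem grad_eq_zero [DecidableEq ι] (h : ZF S) (σ₀ : E ≃+* E) (σ : L →+* L)
    (hσ : ∀ x, σ (algebraMap E L x) = algebraMap E L (σ₀ x)) (hS : ∀ n x, σ x ∈ S n ↔ x ∈ S n)
    {A B : Matrix ι ι E} {c : ι → E} (hAB : A * B = 1)
    (hA : ∀ k l, algebraMap E L (A k l) ∈ S (1 + wt l - wt k))
    (hB : ∀ k l, algebraMap E L (B k l) ∈ S (-1 + wt l - wt k)) {G : ι → L}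
    (hG : ∀ k, σ (G k) = ∑ l, algebraMap E L (B k l) * G l + algebraMap E L (c k)) {d : ℕ}
    (hd : 2 ≤ d) (hmin : ∀ Q : MvPolynomial ι E, Q.totalDegree < d → aeval G Q = 0 → Q = 0)
    {Q : MvPolynomial ι E} (hQ : Q.totalDegree ≤ d) (hQG : aeval G Q = 0) (k : ι) :
    aeval G (pderiv k Q) = 0 := by
  let V : Submodule E (MvPolynomial ι E) :=
    { carrier := {Q | Q.totalDegree ≤ d ∧ aeval G Q = 0}
      add_mem' := fun ha hb => ⟨(totalDegree_add _ _).trans (max_le ha.1 hb.1), by
        rw [map_add, ha.2, hb.2, add_zero]⟩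
      zero_mem' := ⟨by simp, map_zero _⟩
      smul_mem' := fun c _ hx => ⟨(totalDegree_smul_le _ _).trans hx.1, by
        rw [map_smul, hx.2, smul_zero]⟩ }
  let top : V →ₗ[E] Mon ι d → E :=
    LinearMap.pi fun μ => lcoeff E μ.1 ∘ₗ homogeneousComponent d ∘ₗ V.subtype
  obtain ⟨inv, hinv⟩ := top.exists_leftInverse_of_injective (LinearMap.ker_eq_bot'.2 fun P hP => by
    refine Subtype.ext (hmin _ ?_ P.2.2)
    rw [totalDegree, Finset.sup_lt_iff (by simp; omega)]
    intro μ hμ
    refine lt_of_le_of_ne ((le_totalDegree hμ).trans P.2.1) fun h1 => mem_support_iff.1 hμ ?_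
    have h2 : μ.degree = d := h1
    simpa [top, coeff_homogeneousComponent, h2] using congrFun hP ⟨μ, h2.le⟩)
  let g : ι → (Mon ι d → E) →ₗ[E] L := fun k =>
    (aeval G).toLinearMap ∘ₗ (pderiv k).toLinearMap ∘ₗ V.subtype ∘ₗ inv
  have hg : ∀ k (P : V), aeval G (pderiv k P.1) =
      ∑ μ : Mon ι d, algebraMap E L (top P μ) * g k (Pi.single μ 1) := fun k P => by
    have h1 : g k (top P) = aeval G (pderiv k P.1) := by
      simp [g, show inv (top P) = P from LinearMap.congr_fun hinv P]
    rw [← h1, LinearMap.pi_apply_eq_sum_univ]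
    exact Finset.sum_congr rfl fun μ _ => by
      rw [Algebra.smul_def]
      congr 2
      funext ν
      simp [Pi.single_apply, eq_comm]
  have hc : ∀ (k) (P : MvPolynomial ι E), coeff (Finsupp.single k 1)
      (homogeneousComponent 1 (tr G P)) = aeval G (pderiv k P) := fun k P => by
    rw [← constantCoeff_tr, ← pderiv_tr, constantCoeff_eq, coeff_pderiv, coeff_homogeneousComponent]
    simp
  obtain ⟨n₀, hn₀⟩ : ∃ n₀, ∀ z : ι × Mon ι d,
      g z.1 (Pi.single z.2 1) ∈ S (n₀ + wt z.1 - Finsupp.weight wt z.2.1) := by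
    choose n hn using fun z : ι × Mon ι d => h.ex (g z.1 (Pi.single z.2 1))
    obtain ⟨n₀, h0⟩ := (Set.finite_range fun z : ι × Mon ι d =>
      n z - wt z.1 + Finsupp.weight wt z.2.1).bddBelow
    exact ⟨n₀, fun z => h.anti (by linarith [h0 ⟨z, rfl⟩]) (hn z)⟩
  have hAB' : ∀ k m, ∑ l, algebraMap E L (A k l) * algebraMap E L (B l m) =
      if k = m then 1 else 0 := fun k m => by
    simpa [Matrix.mul_apply, Matrix.one_apply, apply_ite] using
      congrArg (algebraMap E L) (congrFun (congrFun hAB k) m)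
  have hBA' : ∀ k m, ∑ l, algebraMap E L (B k l) * algebraMap E L (A l m) =
      if k = m then 1 else 0 := fun k m => by
    have hBA : B * A = 1 := mul_eq_one_comm.1 hAB
    simpa [Matrix.mul_apply, Matrix.one_apply, apply_ite] using
      congrArg (algebraMap E L) (congrFun (congrFun hBA k) m)
  let T := sb σ (B.map (algebraMap E L))
  let T' := sb (RingHom.id L) (A.map (algebraMap E L))
  have hT : ∀ R, T' (T R) = map σ R := fun R => by
    refine RingHom.congr_fun (f := T'.comp T) (ringHom_ext (fun x => ?_) fun k => ?_) R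
    · simp [T, T', sb]
    · simp only [T, T', sb, RingHom.comp_apply, eval₂Hom_X', map_sum, eval₂Hom_monomial,
        Finsupp.prod_single_index (h := fun i e => (_ : MvPolynomial ι L) ^ e) (pow_zero _), pow_one,
        RingHom.id_apply, Finset.mul_sum, C_mul_monomial, Matrix.map_apply, map_X]
      rw [Finset.sum_comm]
      simp only [← map_sum, hBA']
      simp [apply_ite, X]
  have step : ∀ P ∈ V, ∃ P' ∈ V, tr G P = T (tr G P') := fun P hP => by
    let f : ι → MvPolynomial ι E := fun k => ∑ l, C (A k l) * (X l - C (c l))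
    have e : tr G P = T (tr G (map σ₀.symm.toRingHom (aeval f P))) :=
      tr_eq σ₀ σ hσ hAB' hG P
    refine ⟨_, ⟨?_, ?_⟩, e⟩
    · refine (Finset.sup_mono (support_map_subset _ _)).trans
        ((totalDegree_aeval_le (fun k => totalDegree_finsetSum_le fun l _ => ?_) P).trans hP.1)
      refine (totalDegree_mul _ _).trans ?_
      rw [totalDegree_C, zero_add]
      exact (totalDegree_sub _ _).trans (by simp)
    · have e2 : ∀ R, constantCoeff (T R) = σ (constantCoeff R) := fun R => by
        refine RingHom.congr_fun (f := constantCoeff.comp T) (g := σ.comp constantCoeff)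
          (ringHom_ext (fun x => ?_) fun k => ?_) R <;> simp [T, sb, constantCoeff_monomial]
      have := congrArg constantCoeff e
      rw [e2, constantCoeff_tr, constantCoeff_tr, hP.2] at this
      exact (map_eq_zero σ).1 this.symm
  have key : ∀ N : ℕ, ∀ P ∈ V, ∀ n, homogeneousComponent d (tr G P) ∈ WF S wt n →
      homogeneousComponent 1 (tr G P) ∈ WF S wt (n + n₀ + N) := fun N => by
    induction N with
    | zero =>
      intro P hP n hn μ
      by_cases h1 : μ.degree = 1
      · obtain ⟨k, rfl⟩ := (Finsupp.sum_eq_one_iff μ).1 h1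
        rw [hc, hg k ⟨P, hP⟩]
        refine sum_mem fun ν _ => ?_
        have h2 := hn ν.1
        rw [top_tr G hP.1] at h2
        convert h.mul _ _ _ _ h2 (hn₀ (k, ν)) using 2
        · simp [Finsupp.weight_single]
          ring
        · rfl
      · rw [coeff_homogeneousComponent, if_neg h1]
        exact zero_mem _
    | succ N ih =>
      intro P hP n hn
      obtain ⟨P', hP', e⟩ := step P hP
      have h1 := h.sb_mem (σ := RingHom.id L) (fun _ _ hx => hx) (B := A.map (algebraMap E L)) hA d hn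
      rw [e, sb_comp] at h1
      replace h1 : map σ (homogeneousComponent d (tr G P')) ∈ WF S wt (n + d * 1) := hT _ ▸ h1
      have h2 := h.sb_mem (fun n x => (hS n x).2) (B := B.map (algebraMap E L)) hB 1
        (ih P' hP' _ fun μ => (hS _ _).1 (by simpa only [coeff_map] using h1 μ))
      rw [e, sb_comp]
      exact fun μ => h.anti (by push_cast; omega) (h2 μ)
  obtain ⟨n, hn⟩ : ∃ n, homogeneousComponent d (tr G Q) ∈ WF S wt n := by
    generalize homogeneousComponent d (tr G Q) = H
    choose n hn using fun μ => h.ex (coeff μ H)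
    obtain ⟨n₀, h0⟩ := (H.support.finite_toSet.image fun μ => n μ - Finsupp.weight wt μ).bddBelow
    refine ⟨n₀, fun μ => ?_⟩
    by_cases hμ : μ ∈ H.support
    · exact h.anti (by linarith [h0 ⟨μ, hμ, rfl⟩]) (hn μ)
    · rw [notMem_support_iff.1 hμ]
      exact zero_mem _
  refine h.sep _ (n + n₀ + Finsupp.weight wt (Finsupp.single k 1)) fun N => ?_
  rw [← hc, add_right_comm]
  exact key N Q ⟨hQ, hQG⟩ n hn _

theorem linear_rel (p : ℕ) [Fact p.Prime] [CharP E p] [CharP L p] {t : E}
    (hdec : ∀ c : E, ∃ y : Fin p → E, c = ∑ l : Fin p, t ^ (l : ℕ) * y l ^ p)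
    (hind : ∀ y : Fin p → L, ∑ l : Fin p, algebraMap E L t ^ (l : ℕ) * y l ^ p = 0 → y = 0)
    {G : ι → L} (hgrad : ∀ d, 2 ≤ d →
      (∀ Q : MvPolynomial ι E, Q.totalDegree < d → aeval G Q = 0 → Q = 0) →
      ∀ Q : MvPolynomial ι E, Q.totalDegree ≤ d → aeval G Q = 0 → ∀ k, aeval G (pderiv k Q) = 0)
    (hdep : ∃ Q : MvPolynomial ι E, Q ≠ 0 ∧ aeval G Q = 0) :
    ∃ (c : ι → E) (c₀ : E), c ≠ 0 ∧ ∑ k, algebraMap E L (c k) * G k = algebraMap E L c₀ := by
  classical
  have hp : p.Prime := Fact.out
  obtain ⟨Q, ⟨hQ0, hQ⟩, h1⟩ := (measure fun Q : MvPolynomial ι E => Q.totalDegree).wf.has_min _ hdep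
  have hmin : ∀ P : MvPolynomial ι E, P.totalDegree < Q.totalDegree → aeval G P = 0 → P = 0 :=
    fun P h2 h3 => by_contra fun h4 => h1 P ⟨h4, h3⟩ h2
  have hdeg : ∀ μ : ι →₀ ℕ, coeff μ Q ≠ 0 → μ.degree ≤ Q.totalDegree := fun μ hμ =>
    le_totalDegree (mem_support_iff.2 hμ)
  rcases le_or_gt 2 Q.totalDegree with hd | hd
  · have h2 : ∀ k, pderiv k Q = 0 := fun k => hmin _ (by
      rw [totalDegree, Finset.sup_lt_iff (by simp; omega)]
      intro μ hμ
      rw [mem_support_iff, coeff_pderiv] at hμ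
      have := hdeg _ (left_ne_zero_of_mul hμ)
      rw [map_add, Finsupp.degree_single] at this
      exact this) (hgrad _ hd hmin Q le_rfl hQ k)
    have h3 : ∀ ν ∈ Q.support, ∃ ν', ν = p • ν' := fun ν hν => by
      refine ⟨ν.mapRange (· / p) (by simp), Finsupp.ext fun i => ?_⟩
      rw [Finsupp.smul_apply, Finsupp.mapRange_apply, smul_eq_mul, Nat.mul_div_cancel']
      by_cases hi : ν i = 0
      · simp [hi]
      obtain ⟨ν', rfl⟩ : ∃ ν', ν = ν' + Finsupp.single i 1 :=
        ⟨_, (tsub_add_cancel_of_le (by simpa [Nat.one_le_iff_ne_zero] using hi)).symm⟩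
      have h2 := congrArg (coeff ν') (h2 i)
      rw [coeff_pderiv, coeff_zero, mul_eq_zero] at h2
      have h3 := h2.resolve_left (mem_support_iff.1 hν)
      rw [← CharP.cast_eq_zero_iff E p]
      simpa using h3
    choose! f hf using h3
    choose y hy using fun ν => hdec (coeff ν Q)
    let R : Fin p → MvPolynomial ι E := fun l => ∑ ν ∈ Q.support, monomial (f ν) (y ν l)
    have h4 : Q = ∑ l : Fin p, C (t ^ (l : ℕ)) * R l ^ p := by
      simp only [R, sum_pow_char, monomial_pow, Finset.mul_sum, C_mul_monomial]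
      rw [Finset.sum_comm]
      conv_lhs => rw [Q.as_sum]
      exact Finset.sum_congr rfl fun ν hν => by rw [← hf ν hν, ← map_sum, ← hy]
    have h5 := hind (fun l => aeval G (R l)) (by
      rw [h4] at hQ
      simpa using hQ)
    refine absurd (h4.trans (Finset.sum_eq_zero fun l _ => ?_)) hQ0
    rw [hmin (R l) (lt_of_le_of_lt (totalDegree_finsetSum_le (d := Q.totalDegree - 1) fun ν hν =>
      (totalDegree_monomial_le _ _).trans ?_) (by omega)) (congrFun h5 l), zero_pow hp.ne_zero,
      mul_zero]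
    have h6 := hdeg ν (mem_support_iff.1 hν)
    rw [hf ν hν, map_nsmul, smul_eq_mul] at h6
    have h7 := Nat.mul_le_mul_right (f ν).degree hp.two_le
    change (f ν).degree ≤ _
    omega
  · have h2 : Q = C (coeff 0 Q) + ∑ k, C (coeff (Finsupp.single k 1) Q) * X k := by
      ext μ
      simp only [coeff_add, coeff_C, coeff_sum, C_mul_X_eq_monomial, coeff_monomial]
      by_cases h0 : μ = 0
      · simp [h0]
      by_cases h1 : μ.degree = 1
      · obtain ⟨k, rfl⟩ := (Finsupp.sum_eq_one_iff μ).1 h1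
        simp [Finsupp.single_left_inj, eq_comm]
      · have h3 := (Finsupp.degree_eq_zero_iff μ).not.2 h0
        rw [if_neg (Ne.symm h0), zero_add, Finset.sum_eq_zero fun k _ => if_neg fun h => h1 (by
          rw [← h, Finsupp.degree_single])]
        by_contra h4
        have := hdeg μ h4
        omega
    rw [h2] at hQ
    simp only [map_add, map_sum, map_mul, aeval_C, aeval_X] at hQ
    refine ⟨fun k => coeff (Finsupp.single k 1) Q, -coeff 0 Q, fun h0 => hQ0 ?_,
      by rw [map_neg]; exact eq_neg_of_add_eq_zero_right hQ⟩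
    simp only [show ∀ k, coeff (Finsupp.single k 1) Q = 0 from congrFun h0] at h2 hQ
    rw [h2, show coeff 0 Q = 0 by simpa using hQ]
    simp

end Pool.Agent.Lib.MP_1f047c_nt.Dr
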