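import Pool.Agent.Lib.MP_1f047c_nt.DrSkew
import Pool.Agent.Lib.MP_1f047c_nt.DrKol
import Pool.Agent.Lib.MP_1f047c_nt.CarSer

/-! From an algebraic relation between the series to a relation over the endomorphisms. -/

namespace Pool.Agent.Lib.MP_1f047c_nt.Dr

open Polynomial Car

variable {K : Type*} [Field K] {φ : K →+* K} {ι : Type*} [Fintype ι]

lemma op_range (g : K[X]) {n : ℕ} (hn : g.natDegree < n) (y : K) :
    op φ g y = ∑ k ∈ Finset.range n, g.coeff k * φ^[k] y :=
  sum_over_range' _ (fun _ => zero_mul _) _ hn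

lemma coeff_ev_mul (g : K[X]) (y : LS K) (n : ℤ) :
    (ev g * y).coeff n = g.sum fun l c => c * y.coeff (n + l) := by
  induction g using Polynomial.induction_on' with
  | add p q hp hq =>
    rw [map_add, add_mul, HahnSeries.coeff_add, hp, hq,
      sum_add_index _ _ _ (fun _ => zero_mul _) fun _ _ _ => add_mul _ _ _]
  | monomial l c =>
    rw [sum_monomial_index _ _ (by exact zero_mul _), ev_monomial, HahnSeries.coeff_single_mul,
      sub_neg_eq_add]

lemma coeff_fr_iter (j : ℕ) (y : LS K) (n : ℤ) : ((fr φ)^[j] y).coeff n = φ^[j] (y.coeff n) := by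
  induction j with
  | zero => rfl
  | succ j ih => rw [Function.iterate_succ_apply', Function.iterate_succ_apply', coeff_fr, ih]

lemma coeff_ev_pos (g : K[X]) {n : ℤ} (hn : 0 < n) : (ev g).coeff n = 0 := by
  rw [← mul_one (ev g), coeff_ev_mul]
  refine Finset.sum_eq_zero fun l _ => ?_
  simp only [HahnSeries.coeff_one]
  rw [if_neg (by omega), mul_zero]

lemma coeff_series {ρ : K[X]} {r : ℕ} (hρ : ρ.natDegree = r) {α : K} {f : LS K} (hf0 : Lead f 0 0)
    (hf : ev X * f = ∑ k ∈ Finset.range (r + 1), ev (C (ρ.coeff k)) * (fr φ)^[k] f + ev (C α))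
    (a : ℕ) : f.coeff (a + 1) = (op φ ρ)^[a] α := by
  have h1 : ∀ n : ℤ, f.coeff (n + 1) = op φ ρ (f.coeff n) + (ev (C α)).coeff n := fun n => by
    have h := congrArg (fun y => y.coeff n) hf
    simp only [HahnSeries.coeff_add, HahnSeries.coeff_sum, ev_C, ev_X, HahnSeries.coeff_single_mul,
      sub_neg_eq_add, one_mul, sub_zero, coeff_fr_iter] at h
    rw [h, op_range ρ (n := r + 1) (by omega), ev_C]
  induction a with
  | zero => simpa [hf0.2, op_zero', ev_C] using h1 0
  | succ a ih =>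
    rw [Nat.cast_succ, h1, ih, coeff_ev_pos _ (by omega), add_zero, Function.iterate_succ_apply']

theorem end_of_lin [IsAlgClosed K] {q : ℕ} (hφ : ∀ x, φ x = x ^ q) (hq : 2 ≤ q)
    (hq0 : (q : K) = 0) {ρ : K[X]} {r : ℕ} (hr : 0 < r)
    (hρ : ρ.natDegree = r) (α : ι → K) (f : ι → LS K) (hf0 : ∀ i, Lead (f i) 0 0)
    (hf : ∀ i, ev X * f i =
      ∑ k ∈ Finset.range (r + 1), ev (C (ρ.coeff k)) * (fr φ)^[k] (f i) + ev (C (α i)))
    {c : ι × Fin r → K[X]} (hc : c ≠ 0) {b : K[X]}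
    (h : ∑ z, ev (c z) * (fr φ)^[z.2] (f z.1) = ev b) :
    ∃ e : ι → K[X], e ≠ 0 ∧ (∀ i y, op φ (e i) (op φ ρ y) = op φ ρ (op φ (e i) y)) ∧
      ∑ i, op φ (e i) (α i) = 0 := by
  classical
  have hρ0 : ρ ≠ 0 := fun h0 => by simp [h0] at hρ; omega
  choose a a0 a1 a2 using exists_pow hφ hq hρ0
  set N := Finset.univ.sup (fun z => (c z).natDegree) + 1
  have hN : ∀ z, (c z).natDegree < N := fun z =>
    Nat.lt_succ_of_le (Finset.le_sup (f := fun z => (c z).natDegree) (Finset.mem_univ z))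
  let u : ι → Fin r × ℕ → K[X] := fun i z =>
    monomial z.1 ((c (i, z.1)).coeff z.2) * (a z.2).map (φ ^ (z.1 : ℕ))
  refine exists_end hφ hq hq0 (hρ ▸ hr) (α := α)
    (m₀ := fun i => ∑ z ∈ Finset.univ ×ˢ Finset.range N, u i z) (fun h0 => hc ?_) fun n => ?_
  · funext ⟨i, j⟩
    have hu : ∀ z, u i z ≠ 0 → (u i z).degree = (r * z.2 + z.1 : ℕ) := fun z hz => by
      have h1 : (c (i, z.1)).coeff z.2 ≠ 0 := fun h1 => hz (by simp [u, h1])
      rw [show u i z = _ * _ from rfl, degree_mul, degree_monomial _ h1, degree_map,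
        degree_eq_natDegree (a0 _), a1, hρ, add_comm, Nat.cast_add]
    have h2 := degree_sum_eq_of_disjoint (u i) (Finset.univ ×ˢ Finset.range N)
      fun z hz z' hz' hne h2 => by
        simp only [Function.comp_apply, hu z hz.2, hu z' hz'.2, Nat.cast_inj] at h2
        have h3 := congrArg (· % r) h2
        simp only [Nat.mul_add_mod, Nat.mod_eq_of_lt z.1.2, Nat.mod_eq_of_lt z'.1.2] at h3
        exact hne (Prod.ext (Fin.ext h3) (Nat.eq_of_mul_eq_mul_left hr (by omega)))
    rw [show ∑ z ∈ _, u i z = 0 from congrFun h0 i, degree_zero, eq_comm,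
      Finset.sup_eq_bot_iff] at h2
    ext l
    by_cases hl : l < N
    · have h3 := degree_eq_bot.1 (h2 (j, l) (by simpa using hl))
      simpa [u, a0] using h3
    · exact coeff_eq_zero_of_natDegree_lt ((hN _).trans_le (not_lt.1 hl))
  · have h1 := congrArg (fun y => y.coeff (n + 1)) h
    simp only [coeff_ev_pos b (n := n + 1) (by omega), HahnSeries.coeff_sum, coeff_ev_mul,
      coeff_fr_iter, Fintype.sum_prod_type] at h1
    rw [← h1]
    refine Finset.sum_congr rfl fun i _ => ?_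
    rw [op_sum, Finset.sum_product]
    refine Finset.sum_congr rfl fun j _ => ?_
    rw [sum_over_range' _ (fun _ => by exact zero_mul _) _ (hN (i, j))]
    refine Finset.sum_congr rfl fun l _ => ?_
    rw [show u i (j, l) = _ * _ from rfl, op_mul_map, a2, ← Function.iterate_add_apply,
      ← coeff_series hρ (hf0 i) (hf i)]
    congr 3
    push_cast
    ring

/-- The filtration by `r` times the order. -/
def ordF (K : Type*) [Field K] (r : ℕ) (n : ℤ) : AddSubgroup (LS K) where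
  carrier := {x | ∀ i : ℤ, r * i < n → x.coeff i = 0}
  add_mem' ha hb i hi := by rw [HahnSeries.coeff_add, ha i hi, hb i hi, add_zero]
  zero_mem' _ _ := rfl
  neg_mem' ha i hi := by rw [HahnSeries.coeff_neg, ha i hi, neg_zero]

lemma mem_ordF {r : ℕ} (hr : 0 < r) {x : LS K} {m n : ℤ} {a : K} (hx : Lead x m a)
    (h : n ≤ r * m) : x ∈ ordF K r n := fun i hi =>
  hx.1 i (lt_of_mul_lt_mul_left (hi.trans_le h) (by positivity))

lemma zf_ordF {r : ℕ} (hr : 0 < r) : ZF (ordF K r) where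
  mul a b x y hx hy i hi := by
    rw [HahnSeries.coeff_mul]
    refine Finset.sum_eq_zero fun z hz => ?_
    have h1 := (Finset.mem_antidiagonal.1 hz).2.2
    by_cases h : r * z.1 < a
    · rw [hx _ h, zero_mul]
    · rw [hy z.2 (by rw [← h1, mul_add] at hi; omega), mul_zero]
  one := mem_ordF hr lead_one (by simp)
  anti _ _ h _ hx i hi := hx i (hi.trans_le h)
  sep x n h := by
    ext i
    exact h (r * i - n + 1).toNat i (by omega)
  ex x := ⟨r * x.order, fun i hi =>
    HahnSeries.coeff_eq_zero_of_lt_order (lt_of_mul_lt_mul_left hi (by positivity))⟩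

lemma exists_dec (p : ℕ) [Fact p.Prime] [CharP K p] [PerfectRing K p] (g : K[X]) :
    ∃ y : Fin p → K[X], g = ∑ l : Fin p, X ^ (l : ℕ) * y l ^ p := by
  classical
  have hp : p.Prime := Fact.out
  induction g using Polynomial.induction_on' with
  | add f g hf hg =>
    obtain ⟨y, rfl⟩ := hf
    obtain ⟨z, rfl⟩ := hg
    exact ⟨y + z, by simp only [Pi.add_apply, add_pow_char, mul_add, Finset.sum_add_distrib]⟩
  | monomial n c =>
    obtain ⟨d, rfl⟩ := (bijective_frobenius K p).2 c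
    refine ⟨Pi.single ⟨n % p, Nat.mod_lt _ hp.pos⟩ (monomial (n / p) d), ?_⟩
    rw [Finset.sum_eq_single ⟨n % p, Nat.mod_lt _ hp.pos⟩ (fun l _ hl => by simp [hl, hp.ne_zero])
      (by simp), Pi.single_eq_same, monomial_pow, X_pow_mul_monomial, Nat.div_add_mod', frobenius_def]

lemma eq_zero_of_dec {p : ℕ} (hp : 0 < p) {y : Fin p → LS K}
    (h : ∑ l : Fin p, ev X ^ (l : ℕ) * y l ^ p = 0) : y = 0 := by
  classical
  by_contra h0
  obtain ⟨l₁, hl₁⟩ := Function.ne_iff.1 h0
  obtain ⟨l₀, h1, h2⟩ := (Finset.univ.filter fun l => y l ≠ 0).exists_min_image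
    (fun l => (l : ℤ) * (-1) + p * (y l).order) ⟨l₁, by simpa using hl₁⟩
  have h3 : ∀ l : Fin p, Lead (ev X ^ (l : ℕ) * y l ^ p) ((l : ℤ) * (-1) + p * (y l).order)
      ((y l).coeff (y l).order ^ p) := fun l => by
    have h4 : Lead (ev (X : K[X])) (-1) 1 := by simpa using lead_ev' (X : K[X])
    simpa using (h4.pow l).mul (Lead.pow (x := y l) (n := (y l).order)
      ⟨fun _ hi => HahnSeries.coeff_eq_zero_of_lt_order hi, rfl⟩ p)
  have h4 := (Lead.sum (s := Finset.univ) (x := fun l : Fin p => ev X ^ (l : ℕ) * y l ^ p)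
    (n := (l₀ : ℤ) * (-1) + p * (y l₀).order)
    (a := fun l => if l = l₀ then (y l₀).coeff (y l₀).order ^ p else 0) fun l _ => by
      split_ifs with hl
      · exact hl ▸ h3 l
      by_cases h5 : y l = 0
      · simp [h5, hp.ne', Lead]
      refine (h3 l).lower (lt_of_le_of_ne (h2 l (by simpa using h5)) fun h6 => hl (Fin.ext ?_))
      have h7 : (p : ℤ) ∣ (l : ℤ) - l₀ := ⟨(y l).order - (y l₀).order, by linarith⟩
      have h8 := Int.eq_zero_of_abs_lt_dvd h7 (by
        have := l.2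
        have := l₀.2
        rw [abs_lt]
        omega)
      omega).2
  rw [h, Finset.sum_ite_eq', if_pos (Finset.mem_univ _), HahnSeries.coeff_zero, eq_comm] at h4
  exact HahnSeries.coeff_order_eq_zero.not.2 (Finset.mem_filter.1 h1).2 (pow_eq_zero_iff hp.ne' |>.1 h4)

/-- The companion system of the twists of `(t - ρ)⁻¹ α`. -/
lemma exists_sys {E : Type*} [Field E] {ι₀ : K[X] →+* E} {j : E →+* LS K}
    (hj : ∀ f, j (ι₀ f) = ev f) {ρ : K[X]} {s : ℕ} (ha : ρ.coeff (s + 1) ≠ 0) :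
    ∃ (A B : Matrix (Fin (s + 1)) (Fin (s + 1)) E) (c : Fin (s + 1) → E), A * B = 1 ∧
      (∀ m l : Fin (s + 1), j (A m l) ∈ ordF K (s + 1) (1 + (l : ℕ) - (m : ℕ))) ∧
      (∀ m l : Fin (s + 1), j (B m l) ∈ ordF K (s + 1) (-1 + (l : ℕ) - (m : ℕ))) ∧
      ∀ (α : K) (g : ℕ → LS K),
        ev X * g 0 = ∑ k ∈ Finset.range (s + 1 + 1), ev (C (ρ.coeff k)) * g k + ev (C α) →
        ∀ m : Fin (s + 1), g (m + 1) = ∑ l, j (B m l) * g l + j (c m * ι₀ (C α)) := by
  have hr := s.succ_pos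
  have hi : ∀ f, f ≠ 0 → ι₀ f ≠ 0 := fun f hf h => ev_ne_zero hf (by rw [← hj, h, map_zero])
  obtain ⟨a, hja⟩ : ∃ a : ℕ → E, ∀ k, a k = ι₀ (C (ρ.coeff k)) := ⟨_, fun _ => rfl⟩
  have ha1 : a (s + 1) ≠ 0 := hja _ ▸ hi _ (C_ne_zero.2 ha)
  have ha0 : ι₀ X - a 0 ≠ 0 := by
    rw [hja, ← map_sub]
    exact hi _ (X_sub_C_ne_zero _)
  have hS := zf_ordF (K := K) hr
  have hC : ∀ (x : K) (n : ℤ), n ≤ 0 → ev (C x) ∈ ordF K (s + 1) n := fun x n hn =>
    mem_ordF hr (lead_ev (f := C x) (n := 0) (by simp)) (by simpa using hn)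
  have h01 : ∀ (c : Prop) [Decidable c] (n : ℤ), (c → n ≤ 0) →
      j (if c then 1 else 0) ∈ ordF K (s + 1) n := fun c _ n hn => by
    split_ifs with h
    · rw [map_one]; exact hS.anti (hn h) hS.one
    · rw [map_zero]; exact zero_mem _
  refine ⟨fun m l =>
    Fin.cases (a (l + 1) / (ι₀ X - a 0)) (fun m' => if l = m'.castSucc then 1 else 0) m,
    fun m l => Fin.lastCases (((if l = 0 then ι₀ X else 0) - a l) / a (s + 1))
      (fun m' => if l = m'.succ then 1 else 0) m,
    fun m => Fin.lastCases (-1 / a (s + 1)) (fun _ => 0) m, ?_, fun m l => ?_, fun m l => ?_,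
    fun α g h m => ?_⟩
  · ext1 m l
    rw [Matrix.mul_apply, Matrix.one_apply]
    refine Fin.cases ?_ (fun m => by simp [eq_comm]) m
    rw [Fin.sum_univ_castSucc]
    refine Fin.cases ?_ (fun l => ?_) l
    · simp only [Fin.cases_zero, Fin.lastCases_castSucc, Fin.lastCases_last,
        (Fin.succ_ne_zero _).symm, if_false, if_true, mul_zero, Finset.sum_const_zero, zero_add,
        Fin.val_last, Fin.val_zero]
      field_simp
    · simp only [Fin.cases_zero, Fin.lastCases_castSucc, Fin.lastCases_last,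
        Fin.succ_ne_zero, (Fin.succ_ne_zero _).symm, if_false, Fin.succ_inj, mul_ite, mul_one,
        mul_zero, Finset.sum_ite_eq, Finset.mem_univ, if_true, Fin.val_last, Fin.val_castSucc,
        Fin.val_succ]
      field_simp
      ring
  · refine Fin.cases ?_ (fun m => h01 _ _ (by rintro rfl; simp [add_comm])) m
    have h1 := lead_ev' (X - C (ρ.coeff 0))
    rw [natDegree_X_sub_C, leadingCoeff_X_sub_C] at h1
    beta_reduce
    rw [Fin.cases_zero, hja, hja, ← map_sub ι₀, map_div₀, hj, hj, div_eq_mul_inv]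
    refine mem_ordF hr ((lead_ev (f := C _) (n := 0) (by simp)).mul h1.inv) ?_
    have := l.2
    simp only [Fin.val_zero]
    omega
  · refine Fin.lastCases ?_ (fun m => ?_) m <;> beta_reduce
    · have h1 : (j (a (s + 1)))⁻¹ = ev (C (ρ.coeff (s + 1))⁻¹) := by
        refine inv_eq_of_mul_eq_one_right ?_
        rw [hja, hj, ← map_mul, ← C_mul, mul_inv_cancel₀ ha, C_1, map_one]
      rw [Fin.lastCases_last, map_div₀, div_eq_mul_inv, h1, map_sub, Fin.val_last,
        ← add_zero (_ - _ : ℤ), hja, hj]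
      have := l.2
      refine hS.mul _ _ _ _ (sub_mem ?_ (hC _ _ (by omega))) (hC _ _ le_rfl)
      split_ifs with h
      · rw [hj]
        refine mem_ordF hr (lead_ev' X) ?_
        simp only [h, Fin.val_zero, natDegree_X]
        omega
      · rw [map_zero]; exact zero_mem _
    · rw [Fin.lastCases_castSucc]
      exact h01 _ _ (by rintro rfl; simp)
  · refine Fin.lastCases ?_ (fun m => by simp [apply_ite j]) m
    have h4 : ev (C (ρ.coeff (s + 1))) ≠ 0 := ev_ne_zero (C_ne_zero.2 ha)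
    rw [Finset.sum_range_succ, Finset.sum_range] at h
    simp only [hja, Fin.lastCases_last, map_div₀, map_sub j, map_neg, apply_ite j, hj, map_zero,
      div_mul_eq_mul_div, ← Finset.sum_div, sub_mul, Finset.sum_sub_distrib, ite_mul, zero_mul,
      Finset.sum_ite_eq', Finset.mem_univ, if_true, Fin.val_last, Fin.val_zero, neg_one_mul]
    rw [← add_div, eq_div_iff h4]
    linear_combination -h

open Kronecker in
lemma lin_of_sys {E : Type*} [Field E] [Algebra E (LS K)] {ι₀ : K[X] →+* E}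
    (hj : ∀ f, algebraMap E (LS K) (ι₀ f) = ev f) (σ : E ≃+* E)
    (hσ : ∀ x, fr φ (algebraMap E _ x) = algebraMap E _ (σ x)) (p : ℕ) [Fact p.Prime] [CharP K p]
    (hdec : ∀ c : E, ∃ y : Fin p → E, c = ∑ l : Fin p, ι₀ X ^ (l : ℕ) * y l ^ p)
    {ρ : K[X]} {s : ℕ} (ha : ρ.coeff (s + 1) ≠ 0) (α : ι → K) (f : ι → LS K)
    (hf : ∀ i, ev X * f i =
      ∑ k ∈ Finset.range (s + 1 + 1), ev (C (ρ.coeff k)) * (fr φ)^[k] (f i) + ev (C (α i)))
    {D : ℕ} {P : Mon (ι × Fin (s + 1)) D → K[X]} (hP : P ≠ 0)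
    (hrel : ∑ μ, ev (P μ) * ∏ z, (fr φ)^[z.2] (f z.1) ^ μ.1 z = 0) :
    ∃ (c : ι × Fin (s + 1) → E) (c₀ : E), c ≠ 0 ∧
      ∑ z, algebraMap E _ (c z) * (fr φ)^[z.2] (f z.1) = algebraMap E _ c₀ := by
  classical
  have hp : p.Prime := Fact.out
  have : CharP E p := charP_of_injective_ringHom (ι₀.comp C).injective p
  have : CharP (LS K) p := charP_of_injective_algebraMap (algebraMap E _).injective p
  obtain ⟨A, B, c, hAB, hA, hB, hc⟩ := exists_sys hj ha
  have hK : ∀ (M : Matrix (Fin (s + 1)) (Fin (s + 1)) E) (ε : ℤ),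
      (∀ m l : Fin (s + 1), algebraMap E _ (M m l) ∈ ordF K (s + 1) (ε + (l : ℕ) - (m : ℕ))) →
      ∀ z w : ι × Fin (s + 1), algebraMap E _ (((1 : Matrix ι ι E) ⊗ₖ M) z w) ∈
        ordF K (s + 1) (ε + (w.2 : ℕ) - (z.2 : ℕ)) := fun M ε hM z w => by
    rw [Matrix.kronecker_apply, Matrix.one_apply]
    split_ifs
    · rw [one_mul]; exact hM _ _
    · rw [zero_mul, map_zero]; exact zero_mem _
  refine linear_rel p (G := fun z : ι × Fin (s + 1) => (fr φ)^[z.2] (f z.1)) hdec
    (fun y hy => eq_zero_of_dec hp.pos (by rwa [hj] at hy))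
    (fun d hd hmin Q h1 h2 => grad_eq_zero (zf_ordF s.succ_pos) σ (fr φ) hσ
      (fun n x => forall₂_congr fun i _ => by rw [coeff_fr, map_eq_zero])
      (wt := fun z => ((z.2 : ℕ) : ℤ)) (c := fun z => c z.2 * ι₀ (C (α z.1)))
      (by rw [← Matrix.mul_kronecker_mul, hAB, one_mul, Matrix.one_kronecker_one])
      (hK A 1 hA) (hK B (-1) hB) (fun ⟨i, m⟩ => ?_) hd hmin h1 h2)
    ⟨∑ μ, MvPolynomial.monomial μ.1 (ι₀ (P μ)), fun h => hP (funext fun μ => ev_injective ?_), by
      simpa [MvPolynomial.aeval_monomial, Finsupp.prod_fintype, hj] using hrel⟩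
  · rw [← Function.iterate_succ_apply' (fr φ), hc (α i) (fun k => (fr φ)^[k] (f i)) (hf i),
      Fintype.sum_prod_type, Finset.sum_eq_single i (fun b _ hb => by simp [hb.symm]) (by simp)]
    simp
  · rw [← hj, show ι₀ (P μ) = 0 by
      simpa [MvPolynomial.coeff_sum, MvPolynomial.coeff_monomial, Subtype.val_inj] using
        congrArg (MvPolynomial.coeff μ.1) h]
    simp

/-- An algebraic relation over `K[t]` between the twists of the series `(t - ρ)⁻¹ α_i` gives a
relation between the points over the endomorphisms. -/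
theorem end_rel {F K : Type*} [Field F] [Fintype F] [Field K] [IsAlgClosed K] [Algebra F K]
    {φ : K →+* K} (hφ : ∀ x, φ x = x ^ Fintype.card F) {ι : Type*} [Fintype ι] {ρ : K[X]} {r : ℕ}
    (hr : 0 < r) (hρ : ρ.natDegree = r) (α : ι → K) (f : ι → LS K) (hf0 : ∀ i, Lead (f i) 0 0)
    (hf : ∀ i, ev X * f i =
      ∑ k ∈ Finset.range (r + 1), ev (C (ρ.coeff k)) * (fr φ)^[k] (f i) + ev (C (α i)))
    {D : ℕ} {P : Mon (ι × Fin r) D → K[X]} (hP : P ≠ 0)
    (hrel : ∑ μ, ev (P μ) * ∏ z, (fr φ)^[z.2] (f z.1) ^ μ.1 z = 0) :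
    ∃ e : ι → K[X], e ≠ 0 ∧ (∀ i y, op φ (e i) (op φ ρ y) = op φ ρ (op φ (e i) y)) ∧
      ∑ i, op φ (e i) (α i) = 0 := by
  classical
  obtain ⟨p, hp, k, hp', hk⟩ := FiniteField.card' F
  have : Fact p.Prime := ⟨hp'⟩
  have : CharP K p := charP_of_injective_algebraMap (algebraMap F K).injective p
  have hq : 2 ≤ Fintype.card F := Fintype.one_lt_card
  have hs : Function.Surjective φ := fun y => by
    simpa only [hφ] using IsAlgClosed.exists_pow_nat_eq y (by omega)
  have hi := RatFunc.algebraMap_injective K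
  let j : RatFunc K →+* LS K := IsFractionRing.lift ev_injective
  have hj : ∀ f, j (algebraMap K[X] _ f) = ev f := IsFractionRing.lift_algebraMap _
  let σ : RatFunc K ≃+* RatFunc K := IsFractionRing.ringEquivOfRingEquiv
    (mapEquiv (RingEquiv.ofBijective φ ⟨φ.injective, hs⟩))
  have hσ : ∀ f, σ (algebraMap K[X] _ f) = algebraMap K[X] _ (f.map φ) :=
    IsFractionRing.ringEquivOfRingEquiv_algebraMap _
  have hjσ : ∀ x, fr φ (j x) = j (σ x) := DFunLike.congr_fun
    (IsFractionRing.ringHom_ext (A := K[X]) (f1 := (fr φ).comp j) (f2 := j.comp σ) fun f => by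
      simp only [RingHom.comp_apply, RingHom.coe_coe]
      rw [hσ, hj, hj, fr_ev])
  obtain ⟨s, rfl⟩ : ∃ s, r = s + 1 := ⟨r - 1, by omega⟩
  obtain ⟨c, c₀, hc, h⟩ := @lin_of_sys K _ φ ι _ _ _ j.toAlgebra _ hj σ hjσ p _ _ (fun c => by
      obtain ⟨y, hy⟩ := exists_dec p (c.num * c.denom ^ (p - 1))
      have h0 := RatFunc.algebraMap_ne_zero c.denom_ne_zero
      refine ⟨fun l => algebraMap K[X] _ (y l) / algebraMap K[X] _ c.denom, ?_⟩
      simp only [div_pow, ← mul_div_assoc, ← Finset.sum_div, ← map_pow, ← map_mul, ← map_sum, ← hy]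
      rw [map_mul, map_pow, map_pow, ← mul_pow_sub_one hp'.ne_zero (algebraMap K[X] _ c.denom),
        mul_div_mul_right _ _ (pow_ne_zero _ h0), c.num_div_denom]) ρ s
    (hρ ▸ leadingCoeff_ne_zero.2 fun h0 => by simp [h0] at hρ) α f hf D P hP hrel
  replace h : ∑ z, j (c z) * (fr φ)^[z.2] (f z.1) = j c₀ := h
  obtain ⟨b, hb⟩ := IsLocalization.exist_integer_multiples_of_finite (nonZeroDivisors K[X])
    fun o : Option (ι × Fin (s + 1)) => o.elim c₀ c
  choose g hg using hb
  simp only [Algebra.smul_def] at hg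
  refine end_of_lin hφ hq (by rw [← map_natCast (algebraMap F K), FiniteField.cast_card_eq_zero,
    map_zero]) hr hρ α f hf0 hf (c := fun z => g (some z)) (b := g none)
    (fun h0 => hc (funext fun z => ?_)) ?_
  · have h1 := hg (some z)
    rw [show g (some z) = 0 from congrFun h0 z, map_zero, eq_comm, mul_eq_zero] at h1
    exact h1.resolve_left ((map_ne_zero_iff _ hi).2 (nonZeroDivisors.ne_zero b.2))
  · simp only [← hj, hg, Option.elim, map_mul, mul_assoc, ← Finset.mul_sum, h]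

lemma op_map (ψ : K →+* K) (hψ : ∀ x, ψ (φ x) = φ (ψ x)) (g : K[X]) (y : K) :
    op φ (g.map ψ) (ψ y) = ψ (op φ g y) := by
  induction g using Polynomial.induction_on' with
  | add p q hp hq => rw [Polynomial.map_add, op_add, op_add, hp, hq, map_add]
  | monomial n a =>
    rw [Polynomial.map_monomial, op_monomial, op_monomial, map_mul,
      (Function.Commute.iterate_right (f := ψ) (g := φ) hψ n) y]

/-- Untwisting. -/
theorem untwist_rel {K : Type*} [Field K] {φ : K →+* K} (hs : Function.Surjective φ) {ι : Type*}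
    [Fintype ι] {ρ : K[X]} {α : ι → K} (m : ℕ)
    (h : ∃ e : ι → K[X], e ≠ 0 ∧ (∀ i y, op φ (e i) (op φ (ρ.map (φ ^ m)) y) =
      op φ (ρ.map (φ ^ m)) (op φ (e i) y)) ∧ ∑ i, op φ (e i) (φ^[m] (α i)) = 0) :
    ∃ e : ι → K[X], e ≠ 0 ∧ (∀ i y, op φ (e i) (op φ ρ y) = op φ ρ (op φ (e i) y)) ∧
      ∑ i, op φ (e i) (α i) = 0 := by
  obtain ⟨e, h0, h1, h2⟩ := h
  have hs' : Function.Surjective (φ ^ m : K →+* K) := by
    rw [RingHom.coe_pow]; exact hs.iterate m
  choose u hu using fun i => map_surjective _ hs' (e i)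
  have h3 := op_map (φ := φ) (φ ^ m) fun x => by
    rw [RingHom.coe_pow, ← Function.iterate_succ_apply, Function.iterate_succ_apply']
  refine ⟨u, fun h => h0 (funext fun i => by simp [← hu, h]),
    fun i y => (φ ^ m).injective ?_, (φ ^ m).injective ?_⟩
  · simp only [← h3, hu, h1]
  · simpa only [map_sum, ← h3, hu, map_zero, ← RingHom.coe_pow] using h2

end Pool.Agent.Lib.MP_1f047c_nt.Dr
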