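import Pool.Agent.Lib.MP_1f047c_nt.DrSkew
import Pool.Agent.Lib.MP_1f047c_nt.CarZero

/-! Points dependent over the endomorphisms have dependent logarithms. -/

namespace Pool.Agent.Lib.MP_1f047c_nt.Dr

open Polynomial Car Filter Topology

section

variable {K : Type*} [Field K] {φ : K →+* K}

/-- The product of a twisted series and a twisted polynomial. -/
noncomputable def cv (φ : K →+* K) (β : ℕ → K) (g : K[X]) (n : ℕ) : K :=
  ∑ k ∈ Finset.range (n + 1), β (n - k) * φ^[n - k] (g.coeff k)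

lemma cv_add (β : ℕ → K) (g h : K[X]) : cv φ β (g + h) = cv φ β g + cv φ β h := by
  funext n
  simp [cv, iterate_map_add, mul_add, Finset.sum_add_distrib]

lemma cv_add' (β γ : ℕ → K) (g : K[X]) : cv φ (β + γ) g = cv φ β g + cv φ γ g := by
  funext n
  simp [cv, add_mul, Finset.sum_add_distrib]

lemma cv_smul (c : K) (β : ℕ → K) (g : K[X]) : cv φ (c • β) g = c • cv φ β g := by
  funext n
  simp [cv, mul_assoc, Finset.mul_sum]

lemma cv_monomial (β : ℕ → K) (k : ℕ) (c : K) (n : ℕ) :
    cv φ β (monomial k c) n = if k ≤ n then β (n - k) * φ^[n - k] c else 0 := by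
  have : ∀ i, β (n - i) * φ^[n - i] ((monomial k c).coeff i) =
      if k = i then β (n - k) * φ^[n - k] c else 0 := fun i => by
    rw [coeff_monomial]
    split_ifs with h
    exacts [by rw [h], by rw [iterate_map_zero, mul_zero]]
  simp [cv, this]

lemma cv_sm (β : ℕ → K) (a b : K[X]) : cv φ β (sm φ a b) = cv φ (cv φ β a) b := by
  induction a using Polynomial.induction_on' with
  | add p q hp hq =>
    rw [cv_add, cv_add', ← hp, ← hq, ← cv_add, sm, sum_add_index _ _ _ (by simp) (by simp [add_mul])]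
    rfl
  | monomial j c =>
    rw [sm, sum_monomial_index _ _ (by simp)]
    induction b using Polynomial.induction_on' with
    | add p q hp hq => rw [Polynomial.map_add, mul_add, cv_add, cv_add, hp, hq]
    | monomial l d =>
      funext n
      simp only [Polynomial.map_monomial, monomial_mul_monomial, cv_monomial]
      by_cases h : j + l ≤ n
      · obtain ⟨m, rfl⟩ := Nat.exists_eq_add_of_le' h
        rw [if_pos h, if_pos (by omega), if_pos (by omega), Nat.add_sub_cancel, ← add_assoc,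
          Nat.add_sub_cancel, Nat.add_sub_cancel, iterate_map_mul, Function.iterate_add_apply,
          RingHom.coe_pow, mul_assoc]
      · rw [if_neg h]
        split_ifs
        exacts [by omega, (zero_mul _).symm, rfl]

end

variable {F K : Type*} [Field F] [Fintype F] [NontriviallyNormedField K] [IsUltrametricDist K]
  [Algebra F K] {φ : K →+* K}

omit [IsUltrametricDist K] in
lemma hasSum_op {β : ℕ → K} {g : K[X]} {c z l : K} (hc : cv φ β g = c • β)
    (hs : ∀ k ∈ g.support, Summable fun j => β j * φ^[j] (g.coeff k * φ^[k] z))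
    (hl : HasSum (fun j => β j * φ^[j] z) l) :
    HasSum (fun j => β j * φ^[j] (op φ g z)) (c * l) := by
  have key : ∀ s ⊆ g.support, ∃ t,
      HasSum (fun j => β j * φ^[j] (op φ (∑ k ∈ s, monomial k (g.coeff k)) z)) t ∧
      HasSum (fun n => cv φ β (∑ k ∈ s, monomial k (g.coeff k)) n * φ^[n] z) t := fun s => by
    induction s using Finset.induction_on with
    | empty => exact fun _ => ⟨0, by simp [op_zero, hasSum_zero], by simp [cv, hasSum_zero]⟩
    | insert k s hk ih =>
      intro h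
      obtain ⟨t, h1, h2⟩ := ih ((Finset.subset_insert _ _).trans h)
      obtain ⟨u, hu⟩ := hs k (h (Finset.mem_insert_self _ _))
      simp only [Finset.sum_insert hk, op_add, cv_add, op_monomial, iterate_map_add, mul_add,
        Pi.add_apply, add_mul]
      refine ⟨u + t, hu.add h1, HasSum.add ((hasSum_nat_add_iff' k).1 ?_) h2⟩
      rw [Finset.sum_eq_zero fun i hi => by
        rw [cv_monomial, if_neg (by simpa using hi), zero_mul], sub_zero]
      simpa only [cv_monomial, le_add_iff_nonneg_left, zero_le, if_true, Nat.add_sub_cancel,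
        iterate_map_mul, Function.iterate_add_apply, mul_assoc] using hu
  obtain ⟨t, h1, h2⟩ := key _ subset_rfl
  rw [← as_sum_support] at h1 h2
  simp only [hc, Pi.smul_apply, smul_eq_mul, mul_assoc] at h2
  rwa [← h2.unique (hl.mul_left c)]

lemma norm_le_of_cv (hφ : ∀ x, φ x = x ^ Fintype.card F) {θ : K} {v : F[X]}
    (hv0 : 0 < ‖aeval θ v‖) (hv1 : ‖aeval θ v‖ < 1) {ρ : K[X]} (h0 : ρ.coeff 0 = θ)
    (hρ : ∀ k, ‖ρ.coeff k‖ ≤ 1) {β : ℕ → K} (hβ : cv φ β ρ = θ • β) (n : ℕ) :
    ‖β n‖ ≤ ‖β 0‖ / ‖aeval θ v‖ ^ n := by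
  have hq : 2 ≤ Fintype.card F := Fintype.one_lt_card
  have hθ : ‖θ‖ ≤ 1 := h0 ▸ hρ 0
  induction n using Nat.strong_induction_on with
  | h n ih =>
    obtain _ | n := n
    · simp
    have h1 := le_norm_sub_iter hφ (v := v) (w := φ^[1] θ) ((norm_iter_le hφ hq hθ 1).trans hθ) hθ
      (by
        rw [aeval_iter hφ, iter_eq hφ, norm_pow, pow_one]
        exact pow_lt_self_of_lt_one₀ hv0 hv1 hq) n
    have h2 := congrFun hβ (n + 1)
    rw [cv, Finset.sum_range_succ', h0, Nat.sub_zero, Pi.smul_apply, smul_eq_mul,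
      Function.iterate_add_apply, ← eq_sub_iff_add_eq, mul_comm θ, ← mul_sub] at h2
    rw [pow_succ, ← div_div, le_div_iff₀ hv0]
    refine (mul_le_mul_of_nonneg_left h1 (norm_nonneg _)).trans ?_
    rw [← norm_mul, ← h2]
    refine IsUltrametricDist.norm_sum_le_of_forall_le_of_nonneg (by positivity) fun k _ => ?_
    rw [norm_mul]
    refine (mul_le_of_le_one_right (norm_nonneg _)
      ((norm_iter_le hφ hq (hρ _) _).trans (hρ _))).trans ((ih _ (by omega)).trans ?_)
    exact div_le_div_of_nonneg_left (norm_nonneg _) (by positivity)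
      (pow_le_pow_of_le_one hv0.le hv1.le (by omega))

/-- Dependent points have dependent logarithms. -/
theorem log_rel {F K : Type*} [Field F] [Fintype F] [NontriviallyNormedField K]
    [IsUltrametricDist K] [CompleteSpace K] [Algebra F K] {φ : K →+* K}
    (hφ : ∀ x, φ x = x ^ Fintype.card F) {θ : K} (hθ : Transcendental F θ) {v : F[X]} (hv : v ≠ 0)
    (hv1 : ‖aeval θ v‖ < 1) {ρ : K[X]} (h0 : ρ.coeff 0 = θ) (hρ : ∀ k, ‖ρ.coeff k‖ ≤ 1)
    {β : ℕ → K} (hβ0 : β 0 = 1)
    (hβ : ∀ j, ∑ k ∈ Finset.range (j + 1), β (j - k) * φ^[j - k] (ρ.coeff k) = θ * β j)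
    {ι : Type*} [Fintype ι] {α lam : ι → K} (hα : ∀ i, ‖α i‖ < 1)
    (hlam : ∀ i, HasSum (fun j => β j * φ^[j] (α i)) (lam i)) {e : ι → K[X]}
    (he : ∀ i y, op φ (e i) (op φ ρ y) = op φ ρ (op φ (e i) y))
    (hrel : ∑ i, op φ (e i) (α i) = 0) :
    ∑ i, (e i).coeff 0 * lam i = 0 ∧ ∀ i, (e i).coeff 0 = 0 → e i = 0 := by
  have hq : 2 ≤ Fintype.card F := Fintype.one_lt_card
  have hθ1 : ‖θ‖ ≤ 1 := h0 ▸ hρ 0
  have hv0 : 0 < ‖aeval θ v‖ := norm_pos_iff.2 fun h => hθ ⟨v, hv, h⟩
  have : Infinite K := NontriviallyNormedField.infinite K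
  replace hβ : cv φ β ρ = θ • β := funext hβ
  have hS : ∀ y : K, ‖y‖ < 1 → Summable fun j => β j * φ^[j] y := fun y hy =>
    (summable_dexp hq (norm_nonneg _) hy hv0).of_norm_bounded fun j => by
      rw [norm_mul, iter_eq hφ, norm_pow, mul_comm, div_eq_mul_one_div, ← norm_one (α := K), ← hβ0]
      exact mul_le_mul_of_nonneg_left (norm_le_of_cv hφ hv0 hv1 h0 hρ hβ j) (by positivity)
  have hop : ∀ {g : K[X]} {c z l : K}, cv φ β g = c • β → ‖z‖ ≤ 1 →
      (∀ k ∈ g.support, ‖g.coeff k‖ * ‖z‖ < 1) → HasSum (fun j => β j * φ^[j] z) l →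
      HasSum (fun j => β j * φ^[j] (op φ g z)) (c * l) := fun hc hz hg =>
    hasSum_op hc fun k hk => hS _ (lt_of_le_of_lt (by
      rw [norm_mul]
      exact mul_le_mul_of_nonneg_left (norm_iter_le hφ hq hz k) (norm_nonneg _)) (hg k hk))
  have hc : ∀ i, cv φ β (e i) = (e i).coeff 0 • β := fun i => by
    have h1 : sm φ (e i) ρ = sm φ ρ (e i) := sub_eq_zero.1 (eq_zero_of_op hφ hq fun x => by
      rw [op_sub, op_sm, op_sm, he, sub_self])
    have h2 := norm_le_of_cv hφ hv0 hv1 h0 hρ (β := cv φ β (e i) + -(e i).coeff 0 • β) (by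
      rw [cv_add', ← cv_sm, h1, cv_sm, hβ, cv_smul, cv_smul, hβ, smul_add, smul_comm θ])
    funext n
    simpa [show cv φ β (e i) 0 = (e i).coeff 0 by simp [cv, hβ0], hβ0, add_neg_eq_zero] using h2 n
  have hρ' : ∀ z : K, ‖z‖ < 1 → ‖op φ ρ z - θ * z‖ ≤ ‖z‖ ^ 2 := fun z hz => by
    rw [op, sum_over_range _ (by simp), Finset.sum_range_succ', h0, Function.iterate_zero_apply,
      add_sub_cancel_right]
    refine IsUltrametricDist.norm_sum_le_of_forall_le_of_nonneg (by positivity) fun k _ => ?_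
    rw [norm_mul, iter_eq hφ, norm_pow]
    exact (mul_le_of_le_one_left (by positivity) (hρ _)).trans (pow_le_pow_of_le_one (norm_nonneg _)
      hz.le (hq.trans (Nat.le_self_pow k.succ_ne_zero _)))
  have hle : ∀ {z y c : K} {b : ℝ}, ‖y - c * z‖ ≤ ‖z‖ ^ 2 → ‖c‖ ≤ b → ‖z‖ ≤ b →
      ‖y‖ ≤ b * ‖z‖ := fun {z y c b} h1 h2 h3 => by
    rw [← sub_add_cancel y (c * z)]
    refine (IsUltrametricDist.norm_add_le_max _ _).trans (max_le (h1.trans ?_) ?_)
    · rw [sq]; gcongr
    · rw [norm_mul]; gcongr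
  obtain ⟨T, hT, hT'⟩ : ∃ T : K →+ K, (∀ i y, op φ (e i) (T y) = T (op φ (e i) y)) ∧
      ∀ z, ‖z‖ < 1 → ‖T z - aeval θ v * z‖ ≤ ‖z‖ ^ 2 ∧ ∀ l, HasSum (fun j => β j * φ^[j] z) l →
        HasSum (fun j => β j * φ^[j] (T z)) (aeval θ v * l) := by
    clear hv hv1 hv0
    induction v using Polynomial.induction_on with
    | C a =>
      have h1 : ∀ j y, φ^[j] (algebraMap F K a * y) = algebraMap F K a * φ^[j] y := fun j y => by
        rw [iterate_map_mul, iter_eq hφ j (algebraMap F K a), ← map_pow, FiniteField.pow_card_pow]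
      refine ⟨AddMonoidHom.mulLeft (algebraMap F K a), fun i y => ?_, fun z _ =>
        ⟨by simp, fun l hl => ?_⟩⟩
      · simp only [AddMonoidHom.coe_mulLeft, op, sum_def, h1, Finset.mul_sum, mul_left_comm]
      · simpa only [AddMonoidHom.coe_mulLeft, h1, mul_left_comm, aeval_C] using
          hl.mul_left (algebraMap F K a)
    | add p r hp hr =>
      obtain ⟨T, h1, h2⟩ := hp
      obtain ⟨U, h3, h4⟩ := hr
      refine ⟨T + U, fun i y => (map_add (opR φ (e i)) _ _).trans (congrArg₂ _ (h1 i y) (h3 i y)),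
        fun z hz => ⟨?_, fun l hl => ?_⟩⟩
      · rw [AddMonoidHom.add_apply, map_add, add_mul, add_sub_add_comm]
        exact (IsUltrametricDist.norm_add_le_max _ _).trans (max_le (h2 z hz).1 (h4 z hz).1)
      · simpa only [AddMonoidHom.add_apply, map_add, add_mul, iterate_map_add, mul_add] using
          ((h2 z hz).2 l hl).add ((h4 z hz).2 l hl)
    | monomial n a h =>
      obtain ⟨T, h1, h2⟩ := h
      rw [pow_succ, ← mul_assoc, map_mul, aeval_X]
      refine ⟨T.comp (opR φ ρ), fun i y => (h1 i _).trans (congrArg T (he i y)), fun z hz => ?_⟩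
      have h3 : ‖op φ ρ z‖ ≤ ‖z‖ := (hle (hρ' z hz) hθ1 hz.le).trans_eq (one_mul _)
      refine ⟨?_, fun l hl => mul_assoc _ θ l ▸ (h2 _ (h3.trans_lt hz)).2 _ (hop hβ hz.le
        (fun k _ => (mul_le_of_le_one_left (norm_nonneg _) (hρ k)).trans_lt hz) hl)⟩
      rw [← sub_add_sub_cancel _ (aeval θ (C a * X ^ n) * op φ ρ z), mul_assoc, ← mul_sub]
      refine (IsUltrametricDist.norm_add_le_max _ _).trans
        (max_le ((h2 _ (h3.trans_lt hz)).1.trans (by gcongr)) ?_)
      rw [norm_mul]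
      exact (mul_le_of_le_one_left (norm_nonneg _) (norm_aeval_le _ hθ1)).trans (hρ' z hz)
  have hit : ∀ i m, ‖T^[m] (α i)‖ ≤ max ‖aeval θ v‖ ‖α i‖ ^ m * ‖α i‖ ∧
      HasSum (fun j => β j * φ^[j] (T^[m] (α i))) (aeval θ v ^ m * lam i) := fun i m => by
    induction m with
    | zero => simpa using hlam i
    | succ m ih =>
      have h1 : ‖T^[m] (α i)‖ ≤ ‖α i‖ := ih.1.trans (mul_le_of_le_one_left (norm_nonneg _)
        (pow_le_one₀ (by positivity) (max_lt hv1 (hα i)).le))
      have h2 := hT' _ (h1.trans_lt (hα i))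
      rw [Function.iterate_succ_apply', pow_succ', pow_succ', mul_assoc, mul_assoc]
      exact ⟨(hle h2.1 (le_max_left _ _) (h1.trans (le_max_right _ _))).trans (by gcongr; exact ih.1),
        h2.2 _ ih.2⟩
  have hlim : ∀ i (c : ℝ), ∀ᶠ m in atTop, c * ‖T^[m] (α i)‖ < 1 := fun i c => by
    have h1 := ((tendsto_pow_atTop_nhds_zero_of_lt_one (by positivity)
      (max_lt hv1 (hα i))).mul_const ‖α i‖)
    rw [zero_mul] at h1
    exact ((squeeze_zero (fun _ => norm_nonneg _) (fun m => (hit i m).1) h1).const_mul c).eventually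
      (gt_mem_nhds (by simp))
  obtain ⟨m, hm⟩ := (eventually_all.2 fun i => (hlim i 1).and
    ((eventually_all_finset (e i).support).2 fun k _ => hlim i ‖(e i).coeff k‖)).exists
  refine ⟨?_, fun i hi => ?_⟩
  · have h1 := hasSum_sum (s := Finset.univ) fun i _ =>
      hop (hc i) (by simpa using (hm i).1.le) (hm i).2 (hit i m).2
    have h3 : ∀ m, ∑ i, op φ (e i) (T^[m] (α i)) = 0 := fun m => by
      induction m with
      | zero => exact hrel
      | succ m ih => simp only [Function.iterate_succ_apply', hT, ← map_sum, ih, map_zero]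
    have h2 : ∀ j, ∑ i, β j * φ^[j] (op φ (e i) (T^[m] (α i))) = 0 := fun j => by
      simp only [← Finset.mul_sum, ← RingHom.coe_pow, ← map_sum, h3, map_zero, mul_zero]
    simp only [h2, mul_left_comm _ (aeval θ v ^ m), ← Finset.mul_sum] at h1
    exact (mul_eq_zero.1 (h1.unique hasSum_zero)).resolve_left
      (pow_ne_zero _ (norm_pos_iff.1 hv0))
  · ext n
    induction n using Nat.strong_induction_on with
    | h n ih =>
      have h1 := congrFun (hc i) n
      rw [cv, Finset.sum_range_succ, Finset.sum_eq_zero fun k hk => by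
        rw [ih k (Finset.mem_range.1 hk), coeff_zero, iterate_map_zero, mul_zero]] at h1
      simpa [hi, hβ0] using h1

end Pool.Agent.Lib.MP_1f047c_nt.Dr
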