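import Pool.Agent.Lib.MP_1f047c_nt.DrVal
import Pool.Agent.Lib.MP_1f047c_nt.DrLog
import Pool.Agent.Lib.MP_1f047c_nt.CarMain

/-! Algebraic independence of Drinfeld logarithms at a finite place. -/

namespace Pool.Agent.Lib.MP_1f047c_nt.Dr

open Polynomial Filter Topology IntermediateField Car

lemma indep_of_alg {k K κ : Type*} [Field k] [Field K] [Algebra k K] [Finite κ] {y z : κ → K}
    (hy : AlgebraicIndependent k y) (h : ∀ i, IsAlgebraic (Algebra.adjoin k (Set.range z)) (y i)) :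
    AlgebraicIndependent k z := by
  let M := AlgebraicIndependent.matroid k K
  have h1 : M.Indep (Set.range y) := hy.to_subtype_range
  have h2 := h1.encard_le_eRk_of_subset (X := M.closure (Set.range z)) (by
    rw [AlgebraicIndependent.matroid_closure_eq]
    rintro _ ⟨i, rfl⟩
    exact h i)
  rw [M.eRk_closure_eq, ← Set.image_univ, hy.injective.encard_image] at h2
  have h3 := M.eRk_le_encard (Set.range z)
  have h4 := Set.encard_image_le z Set.univ
  refine .of_subtype_range (Set.injOn_univ.1 (Set.finite_univ.injOn_of_encard_image_eq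
    (h4.antisymm (Set.image_univ ▸ h2.trans h3)))) ((Matroid.indep_iff_eRk_eq_encard_of_finite
      (Set.finite_range z)).2 (h3.antisymm ((Set.image_univ ▸ h4).trans h2)))

variable {F K : Type*} [Field F] [Fintype F] [NontriviallyNormedField K] [IsUltrametricDist K]
  [Algebra F K] [CompleteSpace K] {φ : K →+* K} {ι : Type*} [Fintype ι]

omit [IsUltrametricDist K] [CompleteSpace K] in
lemma log_eq {β G c : ℕ → K} {ρ : K[X]} {r : ℕ} (hρ : ρ.natDegree = r) {θ lam : K} (hβ0 : β 0 = 1)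
    (hβ : ∀ j, ∑ k ∈ Finset.range (j + 1), β (j - k) * φ^[j - k] (ρ.coeff k) = θ * β j)
    (hG : ∀ s, θ * G (s + 1) =
      ∑ k ∈ Finset.range (r + 1), φ^[s + 1] (ρ.coeff k) * G (s + 1 + k) + c (s + 1))
    (hs : ∀ k, Summable fun s => β (s + 1) * φ^[s + 1] (ρ.coeff k) * G (s + 1 + k))
    (hl : HasSum (fun j => β j * c j) lam) :
    lam = c 0 + ∑ k ∈ Finset.range (r + 1), ρ.coeff k * G k - θ * G 0 := by
  have h1 := fun k => ((summable_nat_add_iff
    (f := fun s => β s * φ^[s] (ρ.coeff k) * G (s + k)) 1).1 (hs k)).hasSum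
  have h3 := hasSum_sum (s := Finset.range (r + 1)) fun k _ => (hasSum_nat_add_iff'
    (f := fun j => (if k ≤ j then β (j - k) * φ^[j - k] (ρ.coeff k) else 0) * G j) k).1 (by
      rw [Finset.sum_eq_zero fun i hi => by rw [if_neg (by simpa using hi), zero_mul], sub_zero]
      simpa only [le_add_iff_nonneg_left, zero_le, if_true, Nat.add_sub_cancel] using h1 k)
  have h4 := (hl.add (hasSum_sum (s := Finset.range (r + 1)) fun k _ => h1 k)).sub h3
  have h5 : ∀ j, ∑ k ∈ Finset.range (r + 1),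
      (if k ≤ j then β (j - k) * φ^[j - k] (ρ.coeff k) else 0) * G j = θ * β j * G j := fun j => by
    rw [← Finset.sum_mul, ← hβ, ← Finset.sum_filter]
    congr 1
    refine Finset.sum_subset (fun k hk => by simp_all) fun k h1 h2 => ?_
    rw [coeff_eq_zero_of_natDegree_lt (by simp_all), iterate_map_zero, mul_zero]
  simp only [h5, add_sub_cancel_right] at h4
  rw [h4.unique (hasSum_single 0 fun j hj => ?_)]
  · simp [hβ0]
  · obtain ⟨s, rfl⟩ := Nat.exists_eq_succ_of_ne_zero hj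
    simp only [mul_assoc, ← Finset.mul_sum]
    linear_combination -β (s + 1) * hG s

variable [DecidableEq ι] {n q : ℕ} {a : ℕ → K} {α : ι → K} {x : K} {γ ρ : ℝ}

lemma V_succ (hφ : ∀ x, φ x = x ^ q) (hq : 2 ≤ q) (h0 : 0 ≤ γ) (h1 : γ < 1) (ha : ∀ j, ‖a j‖ ≤ 1)
    (hα : ∀ i, ‖α i‖ ≤ γ) (hx1 : ‖x‖ ≤ 1) (hρ : 0 < ρ) (hx : ∀ s, ρ ≤ ‖x - φ^[s] (a 0)‖) (i : ι) :
    (x - a 0) * V φ n a α x (i, 0) = ∑ l : Fin (n + 1), a (l + 1) *
      V φ n (fun j => φ (a j)) (fun i => φ (α i)) x (i, l) + α i ∧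
    ∀ m : Fin n, V φ n a α x (i, m.succ) =
      V φ n (fun j => φ (a j)) (fun i => φ (α i)) x (i, m.castSucc) := by
  have h := val_succ hq h0 h1 (norm_cm (ι := ι) (n := n) hφ hq ha hx1) (norm_bs hφ h0 hα) hρ hx
  refine ⟨(h (i, 0)).trans ?_, fun m => mul_left_cancel₀ (norm_pos_iff.1 (hρ.trans_le (hx 0)))
    ((h (i, m.succ)).trans ?_)⟩
  · refine congrArg₂ _ ((cm_zero (evalRingHom x) _ i).trans ?_) (if_pos rfl)
    simp only [coe_evalRingHom, eval_C]
    rfl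
  · rw [if_neg m.succ_ne_zero, add_zero]
    refine (cm_succ (evalRingHom x) _ i m).trans ?_
    simp only [coe_evalRingHom, eval_sub, eval_X, eval_C]
    rfl

omit [CompleteSpace K] in
lemma norm_V (hφ : ∀ x, φ x = x ^ q) (hq : 2 ≤ q) (h0 : 0 ≤ γ) (ha : ∀ j, ‖a j‖ ≤ 1)
    (hα : ∀ i, ‖α i‖ ≤ γ) (hx1 : ‖x‖ ≤ 1) (hρ : 0 < ρ) (hx : ∀ s, ρ ≤ ‖x - φ^[s] (a 0)‖) {c : ℝ}
    (hc : ∀ j : ℕ, γ ^ q ^ j / ρ ^ j ≤ c) (k : ι × Fin (n + 1)) : ‖V φ n a α x k‖ ≤ c / ρ :=
  IsUltrametricDist.norm_tsum_le_of_forall_le fun j =>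
    (norm_trm_le (norm_cm hφ hq ha hx1) (norm_bs hφ h0 hα) hρ hx k j).trans (by gcongr; exact hc j)

omit [DecidableEq ι] in
theorem drinfeld [IsAlgClosed K] (hφ : ∀ x, φ x = x ^ Fintype.card F) {θ : K}
    (hθ : Transcendental F θ) {v : F[X]}
    (hv : v ≠ 0) (hv1 : ‖aeval θ v‖ < 1) {ρ : K[X]} (h0 : ρ.coeff 0 = θ) (hr : 0 < ρ.natDegree)
    (hρa : ∀ k, IsAlgebraic F⟮θ⟯ (ρ.coeff k)) (hρ : ∀ k, ‖ρ.coeff k‖ ≤ 1) {β : ℕ → K} (hβ0 : β 0 = 1)
    (hβ : ∀ j, ∑ k ∈ Finset.range (j + 1), β (j - k) * φ^[j - k] (ρ.coeff k) = θ * β j)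
    {α lam : ι → K} (hαa : ∀ i, IsAlgebraic F⟮θ⟯ (α i)) (hα : ∀ i, ‖α i‖ < 1)
    (hlam : ∀ i, HasSum (fun j => β j * φ^[j] (α i)) (lam i))
    (h : ¬AlgebraicIndependent F⟮θ⟯ lam) :
    ∃ e : ι → K[X], (∃ i, (e i).coeff 0 ≠ 0) ∧
      (∀ i y, op φ (e i) (op φ ρ y) = op φ ρ (op φ (e i) y)) ∧
      ∑ i, op φ (e i) (α i) = 0 ∧ ∑ i, (e i).coeff 0 * lam i = 0 := by
  classical
  suffices h : ∃ e : ι → K[X], e ≠ 0 ∧ (∀ i y, op φ (e i) (op φ ρ y) = op φ ρ (op φ (e i) y)) ∧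
      ∑ i, op φ (e i) (α i) = 0 by
    obtain ⟨e, h1, h2, h3⟩ := h
    obtain ⟨h4, h5⟩ := log_rel hφ hθ hv hv1 h0 hρ hβ0 hβ hα hlam h2 h3
    obtain ⟨i, hi⟩ := Function.ne_iff.1 h1
    exact ⟨e, ⟨i, fun h => hi (h5 i h)⟩, h2, h3, h4⟩
  wlog hm : v.Monic generalizing v
  · refine this (monic_mul_leadingCoeff_inv hv).ne_zero ?_ (monic_mul_leadingCoeff_inv hv)
    rw [map_mul, aeval_C, norm_mul]
    exact mul_lt_one_of_nonneg_of_lt_one_left (norm_nonneg _) hv1 (norm_algebraMap_le _)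
  have hd : 0 < v.natDegree := Nat.pos_of_ne_zero fun h => by
    simp [hm.natDegree_eq_zero.1 h] at hv1
  have hv0 : aeval θ v ≠ 0 := fun h => hθ ⟨v, hv, h⟩
  obtain ⟨p, hp, k, hp', hk⟩ := FiniteField.card' F
  have : Fact p.Prime := ⟨hp'⟩
  have : CharP F⟮θ⟯ p := charP_of_injective_algebraMap (algebraMap F _).injective p
  have hq : 2 ≤ Fintype.card F := Fintype.one_lt_card
  have hp0 : 0 < ‖aeval θ v‖ := norm_pos_iff.2 hv0
  have hθ1 : ‖θ‖ ≤ 1 := h0 ▸ hρ 0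
  obtain ⟨n, hn⟩ : ∃ n, ρ.natDegree = n + 1 := Nat.exists_eq_succ_of_ne_zero hr.ne'
  have ha : ρ.coeff (n + 1) ≠ 0 := hn ▸ leadingCoeff_ne_zero.2 fun h => by simp [h] at hr
  have hw : ∀ m, ‖aeval (φ^[m + 1] (ρ.coeff 0)) v‖ < ‖aeval θ v‖ := fun m => by
    rw [h0, aeval_iter hφ, iter_eq hφ, norm_pow]
    exact pow_lt_self_of_lt_one₀ hp0 hv1 (Nat.one_lt_pow m.succ_ne_zero hq)
  have ha1 := fun m j => (norm_iter_le hφ hq (hρ j) m).trans (hρ j)
  have hx := fun m => le_norm_sub_iter hφ (ha1 _ 0) hθ1 (hw m)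
  have hγ : ‖α‖ < 1 := (pi_norm_lt_iff one_pos).2 hα
  have hα1 : ∀ m i, ‖φ^[m] (α i)‖ ≤ ‖α‖ ^ Fintype.card F ^ m := fun m i => by
    rw [iter_eq hφ, norm_pow]
    gcongr
    exact norm_le_pi_norm α i
  obtain ⟨m, hm1, hm2⟩ : ∃ m, (∀ j, IsSeparable F⟮θ⟯ (φ^[m + 1] (ρ.coeff j))) ∧
      ∀ i, IsSeparable F⟮θ⟯ (φ^[m + 1] (α i)) := by
    choose N hN using fun z : Fin (n + 2) ⊕ ι => exists_pow_separable p
      (x := z.elim (fun j : Fin (n + 2) => ρ.coeff j) α) (by cases z; exacts [hρa _, hαa _])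
    have h1 : ∀ z : Fin (n + 2) ⊕ ι, IsSeparable F⟮θ⟯
        (φ^[Finset.univ.sup N + 1] (z.elim (fun j : Fin (n + 2) => ρ.coeff j) α)) := fun z => by
      obtain ⟨s, hs⟩ := Nat.exists_eq_add_of_le (((Finset.le_sup (f := N) (Finset.mem_univ z)).trans
        (Nat.le_succ _)).trans (Nat.le_mul_of_pos_left _ k.pos))
      rw [iter_eq hφ, hk, ← pow_mul, hs, pow_add, pow_mul]
      exact mem_separableClosure_iff.1 (pow_mem (mem_separableClosure_iff.2 (hN z)) _)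
    refine ⟨_, fun j => ?_, fun i => h1 (.inr i)⟩
    by_cases hj : j < n + 2
    · exact h1 (.inl ⟨j, hj⟩)
    · rw [coeff_eq_zero_of_natDegree_lt (by omega), iterate_map_zero]
      exact mem_separableClosure_iff.1 (zero_mem _)
  have hc : (ρ.map (φ ^ (m + 1))).coeff = fun j => φ^[m + 1] (ρ.coeff j) := funext fun j => by
    rw [coeff_map, RingHom.coe_pow]
  refine untwist_rel (fun y => by
    simpa only [hφ] using IsAlgClosed.exists_pow_nat_eq y (by omega)) (m + 1)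
    (indep_V hφ hm hd hv0 hv1 (n := n) (by rw [natDegree_map, hn]) (hc ▸ hw m) (hc ▸ ha1 _)
      (hc ▸ hm1) (fun i => (norm_iter_le hφ hq (hα i).le _).trans_lt (hα i)) hm2 fun hY => h ?_)
  obtain ⟨C, hC1, hC⟩ := exists_dexp_le hq hγ hp0
  rw [hc] at hY
  obtain ⟨Y, hY, h1, hb⟩ : ∃ Y : ℕ → ι × Fin (n + 1) → K, AlgebraicIndependent F⟮θ⟯ (Y (m + 1)) ∧
      (∀ s i, (θ - φ^[s + 1] (ρ.coeff 0)) * Y (s + 1) (i, 0) = ∑ l : Fin (n + 1),
        φ^[s + 1] (ρ.coeff (l + 1)) * Y (s + 1 + 1) (i, l) + φ^[s + 1] (α i) ∧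
        ∀ l : Fin n, Y (s + 1) (i, l.succ) = Y (s + 1 + 1) (i, l.castSucc)) ∧
      ∀ s k, ‖Y (s + 1) k‖ ≤ C * ‖α‖ ^ Fintype.card F ^ (s + 1) / ‖aeval θ v‖ := by
    refine ⟨fun s => V φ n (fun j => φ^[s] (ρ.coeff j)) (fun i => φ^[s] (α i)) θ, hY, fun s => ?_,
      fun s => norm_V hφ hq (by positivity) (ha1 _) (hα1 _) hθ1 hp0 (hx s)
        (hC _ (by positivity) (pow_le_of_le_one (norm_nonneg _) hγ.le (by positivity)))⟩
    simp only [Function.iterate_succ_apply' φ (s + 1)]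
    exact V_succ hφ hq (by positivity) (pow_lt_one₀ (norm_nonneg _) hγ (by positivity)) (ha1 _)
      (hα1 _) hθ1 hp0 (hx s)
  have h2 : ∀ i (l : Fin (n + 1)) s, Y (s + 1) (i, l) = Y (s + 1 + l) (i, 0) := fun i l => by
    induction l using Fin.induction with
    | zero => exact fun _ => rfl
    | succ l ih =>
      intro s
      rw [Fin.val_succ, show s + 1 + (l + 1) = s + 1 + 1 + l.castSucc by simp; omega, ← ih]
      exact (h1 s i).2 l
  have h3 : ∀ i s, θ * Y (s + 1) (i, 0) = ∑ k ∈ Finset.range (n + 1 + 1),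
      φ^[s + 1] (ρ.coeff k) * Y (s + 1 + k) (i, 0) + φ^[s + 1] (α i) := fun i s => by
    have h4 := (h1 s i).1
    rw [Finset.sum_congr rfl fun l _ => by rw [h2, add_right_comm, add_assoc]] at h4
    rw [Finset.sum_range_succ', ← Fin.sum_univ_eq_sum_range
      (fun k => φ^[s + 1] (ρ.coeff (k + 1)) * Y (s + 1 + (k + 1)) (i, 0))]
    linear_combination h4
  have h4 := fun i => log_eq (G := fun s => Y s (i, 0)) (c := fun s => φ^[s] (α i)) hn hβ0 hβ (h3 i)
    (fun k => ((summable_dexp hq (norm_nonneg _) hγ hp0).mul_left (C / ‖aeval θ v‖ ^ 2)).of_norm_bounded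
      fun s => by
        have e1 := norm_le_of_cv hφ hp0 hv1 h0 hρ (funext hβ) (s + 1)
        have e3 : ‖α‖ ^ Fintype.card F ^ (s + k + 1) ≤ ‖α‖ ^ Fintype.card F ^ s :=
          pow_le_pow_of_le_one (norm_nonneg _) hγ.le (Nat.pow_le_pow_right (by omega) (by omega))
        rw [hβ0, norm_one] at e1
        rw [norm_mul, norm_mul, add_right_comm]
        calc _ ≤ 1 / ‖aeval θ v‖ ^ (s + 1) * 1 * (C * ‖α‖ ^ Fintype.card F ^ s / ‖aeval θ v‖) := by
              gcongr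
              exacts [ha1 _ _, (hb _ _).trans (by gcongr)]
          _ = _ := by ring) (hlam i)
  let z : ι × Fin (n + 1) → K := fun k => if k.2 = 0 then lam k.1 else Y k.2 (k.1, 0)
  let S := Subalgebra.algebraicClosure (Algebra.adjoin F⟮θ⟯ (Set.range z)) K
  have hz : ∀ k, z k ∈ S := fun k => S.algebraMap_mem ⟨_, Algebra.subset_adjoin ⟨k, rfl⟩⟩
  have hS : ∀ s {y}, IsAlgebraic F⟮θ⟯ y → φ^[s] y ∈ S := fun s y hy => by
    rw [iter_eq hφ]
    exact pow_mem (hy.extendScalars (algebraMap F⟮θ⟯ _).injective) _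
  have h5 : ∀ i j, Y (j + 1) (i, 0) ∈ S := fun i j => by
    induction j using Nat.strong_induction_on with
    | h j ih =>
      rcases lt_or_ge j n with hj | hj
      · have := hz (i, ⟨j + 1, by omega⟩)
        rwa [show z _ = _ from if_neg (Fin.ne_of_val_ne j.succ_ne_zero)] at this
      obtain ⟨s, rfl⟩ := Nat.exists_eq_add_of_le' hj
      refine IsAlgebraic.of_mul (mem_nonZeroDivisors_of_ne_zero (x := φ^[s] (ρ.coeff (n + 1)))
        (by rw [iter_eq hφ]; exact pow_ne_zero _ ha)) (hS s (hρa _)) (show _ ∈ S from ?_)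
      obtain _ | s := s
      · have e := h4 i
        rw [Finset.sum_range_succ, Finset.sum_range_succ', h0] at e
        convert (show _ ∈ S from sub_mem (sub_mem (hz (i, 0)) (hS 0 (hαa i))) (sum_mem
          (t := Finset.range n) fun l hl => mul_mem (hS 0 (hρa (l + 1)))
            (ih l (by simpa using hl)))) using 1
        simp only [z, if_true, zero_add, Function.iterate_zero_apply] at e ⊢
        linear_combination -e
      · have e := h3 i s
        rw [Finset.sum_range_succ] at e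
        convert (show _ ∈ S from sub_mem (sub_mem (mul_mem (hS 0 (h0 ▸ hρa 0)) (ih s (by omega)))
          (hS (s + 1) (hαa i))) (sum_mem (t := Finset.range (n + 1)) fun l hl =>
            mul_mem (hS (s + 1) (hρa l)) (ih (s + l) (by simp at hl; omega)))) using 1
        simp only [add_right_comm s _ 1, Function.iterate_zero_apply]
        linear_combination -e
  have h6 := indep_of_alg (z := z) hY fun ⟨i, l⟩ => by
    have := h5 i (m + l)
    rwa [add_right_comm, ← h2] at this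
  simpa [z, Function.comp_def] using h6.comp (fun i => (i, 0)) fun _ _ h => congrArg Prod.fst h

end Pool.Agent.Lib.MP_1f047c_nt.Dr
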