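import Pool.Agent.Lib.MP_1f047c_nt.DrScale
import Pool.Agent.Lib.MP_1f047c_nt.CarMat

/-! Singular matrices of Drinfeld logarithms. -/

namespace Pool.Agent.Lib.MP_1f047c_nt.Dr

open Polynomial IntermediateField Finset Car

lemma coeff_sm {K : Type*} [Field K] (φ : K →+* K) (a b : K[X]) :
    (sm φ a b).coeff = cv φ a.coeff b := by
  have h : ∀ g : K[X], cv φ (Pi.single 0 1) g = g.coeff := fun g => funext fun n => by
    rw [cv, sum_range_succ, sum_eq_zero fun k hk => by
      rw [Pi.single_eq_of_ne (by simp at hk; omega), zero_mul]]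
    simp
  rw [← h, cv_sm, h]

/-- Endomorphisms are defined over the algebraic closure. -/
lemma end_alg {k K : Type*} [Field k] [Field K] [Infinite K] [Algebra k K] {φ : K →+* K} {q : ℕ}
    (hφ : ∀ x, φ x = x ^ q) (hq : 2 ≤ q) {ρ e : K[X]} (hr : 0 < ρ.natDegree)
    (hρ : ∀ j, IsAlgebraic k (ρ.coeff j)) (he : ∀ y, op φ e (op φ ρ y) = op φ ρ (op φ e y)) (j : ℕ) :
    IsAlgebraic k (e.coeff j) := by
  have h1 : sm φ e ρ = sm φ ρ e := sub_eq_zero.1 (eq_zero_of_op hφ hq fun x => by
    rw [op_sub, op_sm, op_sm, he, sub_self])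
  let S := algebraicClosure k K
  have hS : ∀ s {y}, IsAlgebraic k y → φ^[s] y ∈ S := fun s y hy => by
    rw [iter_eq hφ]
    exact pow_mem (mem_algebraicClosure_iff.2 hy) _
  have ha : ρ.leadingCoeff ≠ 0 := leadingCoeff_ne_zero.2 fun h => by simp [h] at hr
  suffices h : ∀ m j, e.natDegree < j + m → IsAlgebraic k (e.coeff j) from h (e.natDegree + 1) j (by omega)
  intro m
  induction m with
  | zero => exact fun j hj => coeff_eq_zero_of_natDegree_lt hj ▸ isAlgebraic_zero
  | succ m ih =>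
    intro j hj
    have h2 := congrArg (fun g => g.coeff (j + ρ.natDegree)) h1
    simp only [coeff_sm, cv] at h2
    rw [← add_sum_erase _ _ (a := ρ.natDegree) (by simp), ← add_sum_erase (range _) _ (a := j)
      (by simp), Nat.add_sub_cancel, Nat.add_sub_cancel_left] at h2
    have h3 : 1 < q ^ ρ.natDegree := Nat.one_lt_pow hr.ne' hq
    let f : S[X] := C ⟨_, hS 0 (hρ ρ.natDegree)⟩ * X ^ q ^ ρ.natDegree - C ⟨_, hS j (hρ ρ.natDegree)⟩ * X
    have h4 : f.coeff (q ^ ρ.natDegree) ≠ 0 := by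
      simpa [f, coeff_X, h3.ne, Subtype.ext_iff] using ha
    refine (IsAlgebraic.of_aeval f (fun h => h4 (coeff_eq_zero_of_natDegree_lt (by omega)))
      (mem_nonZeroDivisors_of_ne_zero (leadingCoeff_ne_zero.2 fun h => h4 (by simp [h])))
      ?_).restrictScalars k
    convert isAlgebraic_algebraMap (A := K) (⟨_, sub_mem (sum_mem (t := (range (j + ρ.natDegree + 1)).erase
      ρ.natDegree) (f := fun l => e.coeff (j + ρ.natDegree - l) * φ^[j + ρ.natDegree - l] (ρ.coeff l))
      fun l hl => ?_) (sum_mem (t := (range (j + ρ.natDegree + 1)).erase j)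
      (f := fun l => ρ.coeff (j + ρ.natDegree - l) * φ^[j + ρ.natDegree - l] (e.coeff l))
      fun l hl => ?_)⟩ : S)
    · simp only [f, map_sub, map_mul, aeval_C, map_pow, aeval_X, IntermediateField.algebraMap_apply,
        ← iter_eq hφ, Function.iterate_zero_apply]
      linear_combination -h2
    · rcases (ne_of_mem_erase hl).lt_or_gt with h | h
      · exact mul_mem (hS 0 (ih _ (by omega))) (hS _ (hρ l))
      · rw [coeff_eq_zero_of_natDegree_lt h, iterate_map_zero, mul_zero]
        exact zero_mem _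
    · rcases (ne_of_mem_erase hl).lt_or_gt with h | h
      · rw [coeff_eq_zero_of_natDegree_lt (by omega), zero_mul]
        exact zero_mem _
      · exact mul_mem (hS 0 (hρ _)) (hS _ (ih _ (by omega)))

variable {F K : Type*} [Field F] [Fintype F] [NontriviallyNormedField K] [IsUltrametricDist K]
  [Algebra F K] [CompleteSpace K] [IsAlgClosed K] {φ : K →+* K}

/-- A singular matrix with entries in the span of the logarithms over the field `E` generated by the
constant terms of the endomorphisms has a zero coefficient over `E`. -/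
theorem drinfeld_matrix (hφ : ∀ x, φ x = x ^ Fintype.card F) {θ : K} (hθ : Transcendental F θ)
    {v : F[X]} (hv : v ≠ 0) (hv1 : ‖aeval θ v‖ < 1) {ρ : K[X]} (h0 : ρ.coeff 0 = θ)
    (hr : 0 < ρ.natDegree) (hρa : ∀ k, IsAlgebraic F⟮θ⟯ (ρ.coeff k)) {β : ℕ → K} (hβ0 : β 0 = 1)
    (hβ : ∀ j, ∑ k ∈ range (j + 1), β (j - k) * φ^[j - k] (ρ.coeff k) = θ * β j)
    {E : IntermediateField F⟮θ⟯ K} (hE : E = adjoin F⟮θ⟯
      {c | ∃ e : K[X], (∀ y, op φ e (op φ ρ y) = op φ ρ (op φ e y)) ∧ e.coeff 0 = c})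
    {n : Type*} [Fintype n] [DecidableEq n] (M : Matrix n n K)
    (hM : ∀ i l, M i l ∈ Submodule.span E {x : K | ∃ a : K, IsAlgebraic F⟮θ⟯ a ∧
      (∀ k, 0 < k → ‖ρ.coeff k‖ * ‖a‖ ^ (Fintype.card F ^ k - 1) < 1) ∧
      HasSum (fun j => β j * φ^[j] a) x}) (hdet : M.det = 0) :
    ∃ w u : n → E, w ≠ 0 ∧ u ≠ 0 ∧ ∑ i, ∑ l, (w i : K) * M i l * u l = 0 := by
  classical
  have : Infinite K := NontriviallyNormedField.infinite K
  have : Algebra.IsAlgebraic F⟮θ⟯ E := hE ▸ isAlgebraic_adjoin (by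
    rintro _ ⟨e, he, rfl⟩
    exact (end_alg hφ Fintype.one_lt_card hr hρa he 0).isIntegral)
  choose T hT hT' using fun i l => Submodule.mem_span_finite_of_mem_span (hM i l)
  obtain ⟨b, hb, hb1, hb2⟩ := exists_linearIndependent E (⋃ i, ⋃ l, (T i l : Set K))
  have := ((Set.finite_iUnion fun i => Set.finite_iUnion fun l => (T i l).finite_toSet).subset
    hb).fintype
  choose a h1 h2 h3 using fun x : b =>
    Set.iUnion_subset (fun i => Set.iUnion_subset (hT i)) (hb x.2)
  have h4 : AlgebraicIndependent E ((↑) : b → K) := AlgebraicIndependent.extendScalars E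
    (by_contra fun h => by
      obtain ⟨e, ⟨i, hi⟩, h5, -, h6⟩ := drinfeld_scale hφ hθ hv hv1 h0 hr hρa hβ0 hβ h1 h2 h3 h
      exact hi (congrArg Subtype.val (Fintype.linearIndependent_iff.1 hb2
        (fun i => ⟨_, hE ▸ subset_adjoin _ _ ⟨e i, h5 i, rfl⟩⟩) h6 i)))
  choose A hA using fun i l => (Submodule.mem_span_range_iff_exists_fun E
    (v := ((↑) : b → K))).1 (by
      rw [Subtype.range_coe, hb1]
      exact Submodule.span_mono ((Set.subset_iUnion _ l).trans (Set.subset_iUnion
        (fun i => ⋃ l, (T i l : Set K)) i)) (hT' i l))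
  have : Infinite F⟮θ⟯ := Infinite.of_injective (fun m : ℕ => AdjoinSimple.gen F θ ^ m) fun a b h =>
    by simpa using congrArg natDegree (transcendental_iff_injective.1 hθ
      (a₁ := X ^ a) (a₂ := X ^ b) (by simpa using congrArg Subtype.val h))
  have : Infinite E := .of_injective _ (algebraMap F⟮θ⟯ E).injective
  obtain ⟨w, u, hw, hu, h5⟩ := singular_space A (algebraicIndependent_iff.1 h4 _ (by
    rw [AlgHom.map_det, ← hdet]
    congr 1
    ext i l
    simp [← hA, Algebra.smul_def]))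
  refine ⟨w, u, hw, hu, ?_⟩
  calc _ = ∑ j, (∑ i, ∑ l, w i * A i l j * u l) • (j : K) := by
        simp only [sum_smul]
        rw [sum_comm (γ := b)]
        refine sum_congr rfl fun i _ => ?_
        rw [sum_comm (γ := b)]
        refine sum_congr rfl fun l _ => ?_
        rw [← hA, mul_sum, sum_mul]
        refine sum_congr rfl fun j _ => ?_
        simp only [IntermediateField.smul_def, smul_eq_mul, MulMemClass.coe_mul]
        ring
    _ = 0 := by simp [h5]

end Pool.Agent.Lib.MP_1f047c_nt.Dr
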