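import Pool.Agent.Lib.MP_1f047c_nt.DrMain

/-! Reduction to an integral model by scaling. -/

namespace Pool.Agent.Lib.MP_1f047c_nt.Dr

open Polynomial IntermediateField Car

section

variable {K : Type*} [Field K] {φ : K →+* K}

/-- Conjugation by a scalar. -/
noncomputable def conj (φ : K →+* K) (c : K) (g : K[X]) : K[X] :=
  g.sum fun k a => monomial k (a * φ^[k] c / c)

lemma coeff_conj (c : K) (g : K[X]) (k : ℕ) : (conj φ c g).coeff k = g.coeff k * φ^[k] c / c := by
  simp only [conj, sum_def, finsetSum_coeff, coeff_monomial, Finset.sum_ite_eq']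
  split_ifs with h
  exacts [rfl, by rw [notMem_support_iff.1 h, zero_mul, zero_div]]

lemma op_conj (c : K) (g : K[X]) (y : K) : op φ (conj φ c g) y = op φ g (c * y) / c := by
  rw [conj, sum_def, op_sum, op, sum_def, Finset.sum_div]
  exact Finset.sum_congr rfl fun k _ => by rw [op_monomial, iterate_map_mul]; ring

lemma algInd_mul {k ι : Type*} [Field k] [Algebra k K] {c : K} (hc : IsAlgebraic k c) (h0 : c ≠ 0)
    {x : ι → K} (hx : AlgebraicIndependent k fun i => x i / c) : AlgebraicIndependent k x := by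
  let c' : algebraicClosure k K := ⟨c, mem_algebraicClosure_iff.2 hc⟩
  have h1 : c' ≠ 0 := fun h => h0 (congrArg Subtype.val h)
  have h2 := (hx.extendScalars (algebraicClosure k K)).polynomial_aeval_of_transcendental
    (f := fun _ => C c' * X) fun _ => Polynomial.transcendental _ (by simp [h1]) (by simp [h1])
  refine AlgebraicIndependent.restrictScalars (algebraMap k (algebraicClosure k K)).injective ?_
  simpa [c', mul_div_cancel₀ _ h0] using h2

end

variable {F K : Type*} [Field F] [Fintype F] [NontriviallyNormedField K] [IsUltrametricDist K]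
  [Algebra F K] [CompleteSpace K] [IsAlgClosed K] {φ : K →+* K} {ι : Type*} [Fintype ι]

/-- Every Drinfeld module with algebraic coefficients. -/
theorem drinfeld_scale (hφ : ∀ x, φ x = x ^ Fintype.card F) {θ : K} (hθ : Transcendental F θ)
    {v : F[X]} (hv : v ≠ 0) (hv1 : ‖aeval θ v‖ < 1) {ρ : K[X]} (h0 : ρ.coeff 0 = θ)
    (hr : 0 < ρ.natDegree) (hρa : ∀ k, IsAlgebraic F⟮θ⟯ (ρ.coeff k)) {β : ℕ → K} (hβ0 : β 0 = 1)
    (hβ : ∀ j, ∑ k ∈ Finset.range (j + 1), β (j - k) * φ^[j - k] (ρ.coeff k) = θ * β j)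
    {α lam : ι → K} (hαa : ∀ i, IsAlgebraic F⟮θ⟯ (α i))
    (hα : ∀ i k, 0 < k → ‖ρ.coeff k‖ * ‖α i‖ ^ (Fintype.card F ^ k - 1) < 1)
    (hlam : ∀ i, HasSum (fun j => β j * φ^[j] (α i)) (lam i))
    (h : ¬AlgebraicIndependent F⟮θ⟯ lam) :
    ∃ e : ι → K[X], (∃ i, (e i).coeff 0 ≠ 0) ∧
      (∀ i y, op φ (e i) (op φ ρ y) = op φ ρ (op φ (e i) y)) ∧
      ∑ i, op φ (e i) (α i) = 0 ∧ ∑ i, (e i).coeff 0 * lam i = 0 := by
  have hq : 2 ≤ Fintype.card F := Fintype.one_lt_card
  have hθ1 : ‖θ‖ ≤ 1 := by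
    have hm := monic_mul_leadingCoeff_inv hv
    have h1 : ‖aeval θ (v * C v.leadingCoeff⁻¹)‖ < 1 := by
      rw [map_mul, aeval_C, norm_mul]
      exact mul_lt_one_of_nonneg_of_lt_one_left (norm_nonneg _) hv1 (norm_algebraMap_le _)
    refine norm_le_one_of_monic hm (Nat.pos_of_ne_zero fun h2 => ?_) h1.le
    simp [hm.natDegree_eq_zero.1 h2] at h1
  have hn : ∀ k, k ≠ 0 → 0 < Fintype.card F ^ k - 1 := fun k hk =>
    Nat.sub_pos_of_lt (Nat.one_lt_pow hk hq)
  have hρ0 : ρ.coeff ρ.natDegree ≠ 0 := leadingCoeff_ne_zero.2 fun h0 => by simp [h0] at hr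
  choose! u hu using fun k hk => IsAlgClosed.exists_pow_nat_eq (ρ.coeff k)⁻¹ (hn k hk)
  obtain ⟨l, hl, hmin⟩ := (ρ.support.erase 0).exists_min_image (fun k => ‖u k‖)
    ⟨_, Finset.mem_erase.2 ⟨hr.ne', mem_support_iff.2 hρ0⟩⟩
  obtain ⟨l0, l1⟩ := Finset.mem_erase.1 hl
  rw [mem_support_iff] at l1
  have hc : u l ≠ 0 := fun h1 => inv_ne_zero l1 (by rw [← hu l l0, h1, zero_pow (hn l l0).ne'])
  have hca : IsAlgebraic F⟮θ⟯ (u l) := .of_pow (hn l l0) (hu l l0 ▸ (hρa l).inv)
  have hu1 : ∀ k ∈ ρ.support.erase 0, ‖ρ.coeff k‖ * ‖u k‖ ^ (Fintype.card F ^ k - 1) = 1 :=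
    fun k hk => by
      rw [← norm_pow, hu k (Finset.mem_erase.1 hk).1, ← norm_mul,
        mul_inv_cancel₀ (mem_support_iff.1 (Finset.mem_erase.1 hk).2), norm_one]
  have hφc : ∀ j, φ^[j] (u l) ≠ 0 := fun j => by rw [iter_eq hφ]; exact pow_ne_zero _ hc
  obtain ⟨e, e1, e2, e3, e4⟩ := drinfeld hφ hθ hv hv1 (ρ := conj φ (u l) ρ)
    (β := fun j => β j * φ^[j] (u l) / u l) (α := fun i => α i / u l) (lam := fun i => lam i / u l)
    (by simp [coeff_conj, h0, hc])
    (hr.trans_le (le_natDegree_of_ne_zero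
      (coeff_conj (u l) ρ _ ▸ div_ne_zero (mul_ne_zero hρ0 (hφc _)) hc)))
    (fun k => by
      rw [coeff_conj, iter_eq hφ, div_eq_mul_inv]
      exact ((hρa k).mul (hca.pow _)).mul hca.inv)
    (fun k => by
      rw [coeff_conj]
      obtain rfl | hk := eq_or_ne k 0
      · simpa [h0, hc] using hθ1
      by_cases h1 : ρ.coeff k = 0
      · simp [h1]
      have h2 : k ∈ ρ.support.erase 0 := Finset.mem_erase.2 ⟨hk, mem_support_iff.2 h1⟩
      rw [iter_eq hφ, mul_div_assoc, ← pow_sub_one_mul (by positivity), mul_div_cancel_right₀ _ hc,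
        norm_mul, norm_pow, ← hu1 k h2]
      have := hmin k h2
      gcongr)
    (by simp [hβ0, hc])
    (fun j => by
      rw [mul_div_assoc, ← mul_assoc, ← hβ, Finset.sum_mul]
      refine Finset.sum_congr rfl fun k hk => ?_
      have := hφc (j - k)
      rw [coeff_conj, ← RingHom.coe_pow, map_div₀, map_mul, RingHom.coe_pow,
        ← Function.iterate_add_apply, Nat.sub_add_cancel (Finset.mem_range_succ_iff.1 hk)]
      field_simp)
    (fun i => div_eq_mul_inv (α i) _ ▸ (hαa i).mul hca.inv)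
    (fun i => by
      rw [norm_div, div_lt_one (norm_pos_iff.2 hc)]
      exact lt_of_pow_lt_pow_left₀ _ (norm_nonneg _) (lt_of_mul_lt_mul_left
        ((hα i l (Nat.pos_of_ne_zero l0)).trans_eq (hu1 l hl).symm) (norm_nonneg _)))
    (fun i => by
      convert (hlam i).div_const (u l) using 2 with j
      have := hφc j
      rw [← RingHom.coe_pow, map_div₀, RingHom.coe_pow]
      field_simp)
    fun h1 => h (algInd_mul hca hc h1)
  refine ⟨fun i => conj φ (u l)⁻¹ (e i), by simpa [coeff_conj, hc] using e1, fun i y => ?_, ?_, ?_⟩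
  · have h1 := e2 i ((u l)⁻¹ * y)
    simp only [op_conj, mul_inv_cancel_left₀ hc] at h1
    rw [op_conj, op_conj, inv_mul_eq_div, h1, div_inv_eq_mul, div_inv_eq_mul,
      div_mul_cancel₀ _ hc, mul_comm]
  · simp only [op_conj, inv_mul_eq_div, ← Finset.sum_div, e3, zero_div]
  · simpa [coeff_conj, hc, ← mul_div_assoc, ← Finset.sum_div] using e4

end Pool.Agent.Lib.MP_1f047c_nt.Dr
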