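import Mathlib

/-! Twisted polynomials: a relation on the orbit of a point comes from endomorphisms. -/

namespace Pool.Agent.Lib.MP_1f047c_nt.Dr

open Polynomial

variable {K : Type*} [Field K] {φ : K →+* K} {q : ℕ}

/-- The action of a twisted polynomial. -/
noncomputable def op (φ : K →+* K) (a : K[X]) (x : K) : K := a.sum fun j c => c * φ^[j] x

/-- The product of twisted polynomials. -/
noncomputable def sm (φ : K →+* K) (a b : K[X]) : K[X] :=
  a.sum fun j c => monomial j c * b.map (φ ^ j)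

/-- The additive polynomial of a twisted polynomial. -/
noncomputable def lin (q : ℕ) (a : K[X]) : K[X] := a.sum fun j c => monomial (q ^ j) c

lemma op_monomial (j : ℕ) (c x : K) : op φ (monomial j c) x = c * φ^[j] x :=
  sum_monomial_index _ _ (zero_mul _)

lemma op_add (a b : K[X]) (x : K) : op φ (a + b) x = op φ a x + op φ b x :=
  sum_add_index _ _ _ (fun _ => zero_mul _) fun _ _ _ => add_mul _ _ _

lemma op_zero (x : K) : op φ 0 x = 0 := sum_zero_index _

/-- The action, additive in the operator. -/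
noncomputable def opL (φ : K →+* K) (x : K) : K[X] →+ K :=
  ⟨⟨fun a => op φ a x, op_zero x⟩, fun a b => op_add a b x⟩

/-- The action, additive in the point. -/
noncomputable def opR (φ : K →+* K) (a : K[X]) : K →+ K :=
  AddMonoidHom.mk' (op φ a) fun x y => by
    simp [op, sum_def, iterate_map_add, mul_add, Finset.sum_add_distrib]

lemma op_sub (a b : K[X]) (x : K) : op φ (a - b) x = op φ a x - op φ b x := map_sub (opL φ x) a b

lemma op_sum {ι : Type*} (s : Finset ι) (a : ι → K[X]) (x : K) :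
    op φ (∑ i ∈ s, a i) x = ∑ i ∈ s, op φ (a i) x := map_sum (opL φ x) a s

lemma op_sum' {ι : Type*} (s : Finset ι) (a : K[X]) (x : ι → K) :
    op φ a (∑ i ∈ s, x i) = ∑ i ∈ s, op φ a (x i) := map_sum (opR φ a) x s

lemma op_zero' (a : K[X]) : op φ a 0 = 0 := map_zero (opR φ a)

lemma op_sub' (a : K[X]) (x y : K) : op φ a (x - y) = op φ a x - op φ a y := map_sub (opR φ a) x y

lemma op_mul_map (j : ℕ) (c : K) (b : K[X]) (x : K) :
    op φ (monomial j c * b.map (φ ^ j)) x = c * φ^[j] (op φ b x) := by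
  induction b using Polynomial.induction_on' with
  | add p r hp hr => rw [Polynomial.map_add, mul_add, op_add, op_add, hp, hr, iterate_map_add, mul_add]
  | monomial n d =>
    rw [Polynomial.map_monomial, monomial_mul_monomial, op_monomial, op_monomial, iterate_map_mul,
      Function.iterate_add_apply, RingHom.coe_pow, mul_assoc]

lemma op_sm (a b : K[X]) (x : K) : op φ (sm φ a b) x = op φ a (op φ b x) := by
  simp only [sm, sum_def, op_sum, op_mul_map]
  rfl

lemma eval_lin (hφ : ∀ x, φ x = x ^ q) (a : K[X]) (x : K) : (lin q a).eval x = op φ a x := by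
  simp [lin, op, sum_def, eval_finsetSum, show ⇑φ = (· ^ q) from funext hφ, pow_iterate]

lemma coeff_lin (hq : 2 ≤ q) (a : K[X]) (j : ℕ) : (lin q a).coeff (q ^ j) = a.coeff j := by
  simp only [lin, sum_def, finsetSum_coeff, coeff_monomial, Nat.pow_right_inj hq,
    Finset.sum_ite_eq']
  split_ifs with h
  exacts [rfl, (notMem_support_iff.1 h).symm]

lemma natDegree_lin (hq : 2 ≤ q) {a : K[X]} (ha : a ≠ 0) : (lin q a).natDegree = q ^ a.natDegree := by
  refine natDegree_eq_of_le_of_coeff_ne_zero (natDegree_sum_le_of_forall_le _ _ fun j hj =>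
    (natDegree_monomial_le _).trans (Nat.pow_le_pow_right (by omega) (le_natDegree_of_mem_supp j hj)))
    ?_
  rw [coeff_lin hq]
  exact leadingCoeff_ne_zero.2 ha

lemma derivative_lin (hq : (q : K) = 0) (a : K[X]) : derivative (lin q a) = C (a.coeff 0) := by
  simp only [lin, sum_def, derivative_sum, derivative_monomial]
  rw [Finset.sum_eq_single 0 (fun j _ hj => by simp [hq, hj]) fun h => by
    simp [notMem_support_iff.1 h]]
  simp

lemma eq_zero_of_op [Infinite K] (hφ : ∀ x, φ x = x ^ q) (hq : 2 ≤ q) {a : K[X]}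
    (h : ∀ x, op φ a x = 0) : a = 0 := by
  have h1 : lin q a = 0 := Polynomial.funext fun x => by rw [eval_lin hφ, h, eval_zero]
  ext j
  rw [← coeff_lin hq, h1, coeff_zero, coeff_zero]

lemma natDegree_sm [Infinite K] (hφ : ∀ x, φ x = x ^ q) (hq : 2 ≤ q) {a b : K[X]} (ha : a ≠ 0)
    (hb : b ≠ 0) : sm φ a b ≠ 0 ∧ (sm φ a b).natDegree = a.natDegree + b.natDegree := by
  have h1 : lin q (sm φ a b) = (lin q a).comp (lin q b) := Polynomial.funext fun x => by
    simp only [eval_comp, eval_lin hφ, op_sm]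
  have h2 := congrArg natDegree h1
  rw [natDegree_comp, natDegree_lin hq ha, natDegree_lin hq hb, ← pow_add] at h2
  have h3 : sm φ a b ≠ 0 := fun h => by
    rw [h, lin, sum_zero_index, natDegree_zero] at h2
    exact (pow_pos (by omega) _).ne h2
  rw [natDegree_lin hq h3] at h2
  exact ⟨h3, (Nat.pow_right_inj hq).1 h2⟩

lemma exists_pow [Infinite K] (hφ : ∀ x, φ x = x ^ q) (hq : 2 ≤ q) {ρ : K[X]} (hρ : ρ ≠ 0) (n : ℕ) :
    ∃ a : K[X], a ≠ 0 ∧ a.natDegree = ρ.natDegree * n ∧ ∀ x, op φ a x = (op φ ρ)^[n] x := by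
  induction n with
  | zero => exact ⟨monomial 0 1, by simp, by simp, fun x => by rw [op_monomial, one_mul]; rfl⟩
  | succ n ih =>
    obtain ⟨a, h1, h2, h3⟩ := ih
    refine ⟨sm φ a ρ, (natDegree_sm hφ hq h1 hρ).1, ?_, fun x => by rw [op_sm, h3]; rfl⟩
    rw [(natDegree_sm hφ hq h1 hρ).2, h2, mul_add_one]

lemma exists_div (φ : K →+* K) {g : K[X]} (hg : g ≠ 0) (f : K[X]) :
    ∃ s r : K[X], r.degree < g.degree ∧ ∀ x, op φ f x = op φ s (op φ g x) + op φ r x := by
  induction h : f.natDegree using Nat.strong_induction_on generalizing f with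
  | h n ih =>
    by_cases h1 : f.degree < g.degree
    · exact ⟨0, f, h1, fun x => by rw [op_zero, zero_add]⟩
    have hf : f ≠ 0 := by
      rintro rfl
      exact h1 (bot_lt_iff_ne_bot.2 (degree_ne_bot.2 hg))
    obtain ⟨j, hj⟩ := Nat.exists_eq_add_of_le' (natDegree_le_natDegree (not_lt.1 h1))
    have h2 : (φ ^ j) g.leadingCoeff ≠ 0 := (_root_.map_ne_zero _).2 (leadingCoeff_ne_zero.2 hg)
    have h3 : f.leadingCoeff / (φ ^ j) g.leadingCoeff ≠ 0 :=
      div_ne_zero (leadingCoeff_ne_zero.2 hf) h2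
    set c := f.leadingCoeff / (φ ^ j) g.leadingCoeff with hc
    have h4 : (f - monomial j c * g.map (φ ^ j)).degree < f.degree := by
      refine degree_sub_lt_left ?_ hf ?_
      · rw [degree_mul, degree_monomial j h3, degree_map, degree_eq_natDegree hg,
          degree_eq_natDegree hf, hj, Nat.cast_add]
      · rw [leadingCoeff_mul, leadingCoeff_monomial, leadingCoeff_map, hc, div_mul_cancel₀ _ h2]
    have h5 : ∃ s r : K[X], r.degree < g.degree ∧ ∀ x,
        op φ (f - monomial j c * g.map (φ ^ j)) x = op φ s (op φ g x) + op φ r x := by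
      by_cases h0 : f - monomial j c * g.map (φ ^ j) = 0
      · exact ⟨0, 0, bot_lt_iff_ne_bot.2 (degree_ne_bot.2 hg), fun x => by simp [h0, op_zero]⟩
      · exact ih _ (h ▸ natDegree_lt_natDegree h0 h4) _ rfl
    obtain ⟨s, r, h6, h7⟩ := h5
    refine ⟨s + monomial j c, r, h6, fun x => ?_⟩
    have := h7 x
    rw [op_sub, op_mul_map] at this
    rw [op_add, op_monomial]
    linear_combination this

/-- The dual isogeny. -/
lemma exists_dual [IsAlgClosed K] (hφ : ∀ x, φ x = x ^ q) (hq : 2 ≤ q) (hq0 : (q : K) = 0)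
    {ρ ψ g : K[X]} (hρ : 0 < ρ.natDegree) (hg : g.coeff 0 ≠ 0)
    (h : ∀ x, op φ g (op φ ρ x) = op φ ψ (op φ g x)) :
    ∃ s : K[X], s ≠ 0 ∧ ∀ x, op φ s (op φ ψ x) = op φ ρ (op φ s x) := by
  classical
  have hg0 : g ≠ 0 := fun h0 => hg (by rw [h0, coeff_zero])
  have hρ0 : ρ ≠ 0 := fun h0 => by simp [h0] at hρ
  have hd := natDegree_lin hq hg0
  have hl : lin q g ≠ 0 := fun h0 => by
    rw [h0, natDegree_zero] at hd
    exact (pow_pos (by omega) _).ne hd
  have hsep : (lin q g).Separable := by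
    rw [separable_def, derivative_lin hq0]
    exact ⟨0, C (g.coeff 0)⁻¹, by rw [zero_mul, zero_add, ← C_mul, inv_mul_cancel₀ hg, C_1]⟩
  have hr : ∀ x, x ∈ (lin q g).roots.toFinset ↔ op φ g x = 0 := fun x => by
    rw [Multiset.mem_toFinset, mem_roots hl, IsRoot, eval_lin hφ]
  have hit : ∀ n x, op φ g x = 0 → op φ g ((op φ ρ)^[n] x) = 0 := fun n x hx => by
    induction n with
    | zero => exact hx
    | succ n ih => rw [Function.iterate_succ_apply', h, ih, op_zero']
  obtain ⟨i, j, hij, e⟩ := Finite.exists_ne_map_eq_of_infinite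
    fun (n : ℕ) (x : (lin q g).roots.toFinset) =>
      (⟨(op φ ρ)^[n] x, (hr _).2 (hit n x ((hr _).1 x.2))⟩ : (lin q g).roots.toFinset)
  obtain ⟨a, -, a1, a2⟩ := exists_pow hφ hq hρ0 i
  obtain ⟨b, -, b1, b2⟩ := exists_pow hφ hq hρ0 j
  obtain ⟨s, r, h1, h2⟩ := exists_div φ hg0 (a - b)
  have h3 : r = 0 := by
    by_contra h0
    have h4 : lin q r = 0 := eq_zero_of_natDegree_lt_card_of_eval_eq_zero' _
      (lin q g).roots.toFinset (fun x hx => by
        have h5 := h2 x
        rw [(hr x).1 hx, op_zero', zero_add, op_sub, a2, b2,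
          Subtype.mk.inj (congrFun e ⟨x, hx⟩), sub_self] at h5
        rw [eval_lin hφ, ← h5]) (by
        rw [Multiset.toFinset_card_of_nodup (nodup_roots hsep), IsAlgClosed.card_roots_eq_natDegree,
          hd, natDegree_lin hq h0]
        exact Nat.pow_lt_pow_right hq (natDegree_lt_natDegree h0 h1))
    exact h0 (eq_zero_of_op hφ hq fun x => by rw [← eval_lin hφ, h4, eval_zero])
  simp only [h3, op_zero, add_zero, op_sub, a2, b2] at h2
  refine ⟨s, fun h0 => hij ?_, fun y => ?_⟩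
  · have h4 : a - b = 0 := eq_zero_of_op hφ hq fun x => by rw [op_sub, a2, b2, h2, h0, op_zero]
    rw [sub_eq_zero.1 h4, b1] at a1
    exact (Nat.eq_of_mul_eq_mul_left hρ a1).symm
  · obtain ⟨x, hx⟩ := IsAlgClosed.exists_root (lin q g - C y) (by
      refine (natDegree_pos_iff_degree_pos.1 ?_).ne'
      rw [natDegree_sub_C, hd]
      positivity)
    rw [IsRoot, eval_sub, eval_C, eval_lin hφ, sub_eq_zero] at hx
    rw [← hx, ← h, ← h2, ← h2, op_sub', ← Function.iterate_succ_apply,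
      ← Function.iterate_succ_apply, Function.iterate_succ_apply', Function.iterate_succ_apply']

theorem exists_end [IsAlgClosed K] (hφ : ∀ x, φ x = x ^ q) (hq : 2 ≤ q) (hq0 : (q : K) = 0)
    {ι : Type*} [Fintype ι] {ρ : K[X]} (hρ : 0 < ρ.natDegree) {α : ι → K} {m₀ : ι → K[X]}
    (hm : m₀ ≠ 0) (h : ∀ n, ∑ i, op φ (m₀ i) ((op φ ρ)^[n] (α i)) = 0) :
    ∃ e : ι → K[X], e ≠ 0 ∧ (∀ i x, op φ (e i) (op φ ρ x) = op φ ρ (op φ (e i) x)) ∧
      ∑ i, op φ (e i) (α i) = 0 := by
  classical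
  have hρ0 : ρ ≠ 0 := fun h0 => by simp [h0] at hρ
  let N : Set (ι → K[X]) := {m | m ≠ 0 ∧ ∀ n, ∑ i, op φ (m i) ((op φ ρ)^[n] (α i)) = 0}
  let su : (ι → K[X]) → Finset ι := fun m => Finset.univ.filter fun i => m i ≠ 0
  obtain ⟨m₁, hm₁, h1⟩ := (measure fun m => (su m).card).wf.has_min N ⟨m₀, hm, h⟩
  obtain ⟨i₁, hi₁⟩ := Function.ne_iff.1 hm₁.1
  obtain ⟨m, ⟨hN, hsu⟩, h2⟩ := (measure fun m : ι → K[X] => (m i₁).natDegree).wf.has_min
    {m | m ∈ N ∧ su m ⊆ su m₁} ⟨m₁, hm₁, subset_rfl⟩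
  have h3 : ∀ m' ∈ N, su m' ⊆ su m₁ → m' i₁ ≠ 0 := fun m' h3 h4 h5 =>
    h1 m' h3 (Finset.card_lt_card ⟨h4, fun h6 => by simpa [su, h5] using h6 (x := i₁) (by simpa [su])⟩)
  have h4 : ∀ m' : ι → K[X], (∀ i, m i = 0 → m' i = 0) → (m' i₁).degree < (m i₁).degree →
      (∀ n, ∑ i, op φ (m' i) ((op φ ρ)^[n] (α i)) = 0) → m' = 0 := fun m' a1 a2 a3 => by
    by_contra h0
    have a4 : su m' ⊆ su m₁ := fun i hi => hsu (by
      simp only [su, Finset.mem_filter, Finset.mem_univ, true_and] at hi ⊢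
      exact fun h5 => hi (a1 i h5))
    exact h2 m' ⟨⟨h0, a3⟩, a4⟩ (natDegree_lt_natDegree (h3 m' ⟨h0, a3⟩ a4) a2)
  have h5 := h3 m hN hsu
  obtain ⟨ψ, r, h6, h7⟩ := exists_div φ h5 (sm φ (m i₁) ρ)
  have h8 := h4 (fun i => sm φ (m i) ρ - sm φ ψ (m i))
    (fun i hi => eq_zero_of_op hφ hq fun x => by simp [op_sub, op_sm, hi, op_zero, op_zero'])
    (by
      rwa [show sm φ (m i₁) ρ - sm φ ψ (m i₁) = r from sub_eq_zero.1 (eq_zero_of_op hφ hq fun x => by
        rw [op_sub, op_sub, h7, op_sm, add_sub_cancel_left, sub_self])])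
    fun n => by
      simp only [op_sub, op_sm, Finset.sum_sub_distrib, ← op_sum', hN.2 n, op_zero', sub_zero]
      simpa only [Function.iterate_succ_apply'] using hN.2 (n + 1)
  have h9 : ∀ i x, op φ (m i) (op φ ρ x) = op φ ψ (op φ (m i) x) := fun i x => by
    have := congrArg (fun a => op φ a x) (congrFun h8 i)
    simpa only [op_sub, op_sm, Pi.zero_apply, op_zero, sub_eq_zero] using this
  obtain ⟨i₀, hi₀⟩ : ∃ i, (m i).coeff 0 ≠ 0 := by
    by_contra h0
    push Not at h0
    have hs : Function.Surjective φ := fun y =>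
      (IsAlgClosed.exists_pow_nat_eq y (show 0 < q by omega)).imp fun x hx => (hφ x).trans hx
    choose m' hm' using fun i => map_surjective φ hs (m i).divX
    have e : ∀ i, m i = monomial 1 1 * (m' i).map (φ ^ 1) := fun i => by
      rw [pow_one, hm', monomial_one_one_eq_X]
      simpa [h0] using (X_mul_divX_add (m i)).symm
    have := h4 m' (fun i hi => by
        rw [e i, mul_eq_zero] at hi
        exact (Polynomial.map_eq_zero _).1 (hi.resolve_left (by simp)))
      (by rw [← degree_map (m' i₁) φ, hm']; exact degree_divX_lt h5) fun n => by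
        have a1 := hN.2 n
        simp only [e, op_mul_map, one_mul, Function.iterate_one, ← map_sum] at a1
        exact (map_eq_zero φ).1 a1
    exact h5 (by rw [e, this]; simp)
  obtain ⟨s, s0, s1⟩ := exists_dual hφ hq hq0 hρ hi₀ (h9 i₀)
  refine ⟨fun i => sm φ s (m i), fun h0 => (natDegree_sm hφ hq s0 h5).1 (congrFun h0 i₁),
    fun i x => by rw [op_sm, op_sm, h9, s1], ?_⟩
  simp only [op_sm, ← op_sum']
  rw [show ∑ i, op φ (m i) (α i) = 0 from hN.2 0, op_zero']

end Pool.Agent.Lib.MP_1f047c_nt.Dr
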