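import Pool.Agent.Lib.MP_1f047c_nt.CarZero
import Pool.Agent.Lib.MP_1f047c_nt.CarAux

/-! Affine difference systems: truncations, values and growth. -/

namespace Pool.Agent.Lib.MP_1f047c_nt.Dr

open Polynomial Filter Topology Car

variable {ι : Type*} [Fintype ι] [DecidableEq ι]

section Alg

variable {K : Type*} [Field K] {w : ℕ → K} {A : ℕ → Matrix ι ι K[X]} {b : ℕ → ι → K}

/-- Products of the transition matrices. -/
noncomputable def pr (A : ℕ → Matrix ι ι K[X]) : ℕ → Matrix ι ι K[X]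
  | 0 => 1
  | M + 1 => pr A M * A M

/-- Numerators of the truncations. -/
noncomputable def nm (w : ℕ → K) (A : ℕ → Matrix ι ι K[X]) (b : ℕ → ι → K) : ℕ → ι → K[X]
  | 0 => 0
  | M + 1 => fun k => nm w A b M k * (X - C (w M)) + ∑ l, pr A M k l * C (b M l)

lemma pr_succ' (A : ℕ → Matrix ι ι K[X]) (M : ℕ) :
    pr A (M + 1) = A 0 * pr (fun s => A (s + 1)) M := by
  induction M with
  | zero => simp [pr]
  | succ M ih => rw [pr, ih, pr, Matrix.mul_assoc]

lemma den_mul {T : Type*} [CommRing T] (j : K[X] →+* T) {Y : ℕ → ι → T}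
    (hY : ∀ s k, j (X - C (w s)) * Y s k = ∑ l, j (A s k l) * Y (s + 1) l + j (C (b s k)))
    (M : ℕ) (k : ι) : j (den w M) * Y 0 k = j (nm w A b M k) + ∑ l, j (pr A M k l) * Y M l := by
  induction M with
  | zero => simp [den, nm, pr, Matrix.one_apply, apply_ite]
  | succ M ih =>
    rw [den_succ, map_mul, mul_right_comm, ih, add_mul, Finset.sum_mul]
    simp only [mul_assoc, mul_comm (Y M _), hY, nm, pr, Matrix.mul_apply, map_add, map_mul, map_sum,
      mul_add, Finset.mul_sum, Finset.sum_mul, Finset.sum_add_distrib]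
    rw [Finset.sum_comm]
    ring

lemma pr_weight {wt : ι → ℕ} {r : ℕ}
    (hw : ∀ s k l d, (A s k l).coeff d ≠ 0 → r * d + 1 + wt l ≤ r + wt k) (M : ℕ) :
    ∀ k l d, (pr A M k l).coeff d ≠ 0 → r * d + M + wt l ≤ r * M + wt k := by
  induction M with
  | zero =>
    intro k l d h
    rw [pr, Matrix.one_apply] at h
    split_ifs at h with h1
    · obtain rfl : d = 0 := by_contra fun h2 => h (by rw [coeff_one, if_neg h2])
      simp [h1]
    · exact absurd (coeff_zero d) h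
  | succ M ih =>
    intro k l d h
    rw [pr, Matrix.mul_apply, finsetSum_coeff] at h
    obtain ⟨m, -, h⟩ := Finset.exists_ne_zero_of_sum_ne_zero h
    rw [coeff_mul] at h
    obtain ⟨z, hz, h⟩ := Finset.exists_ne_zero_of_sum_ne_zero h
    have h1 := ih k m _ (left_ne_zero_of_mul h)
    have h2 := hw M m l _ (right_ne_zero_of_mul h)
    rw [← Finset.HasAntidiagonal.mem_antidiagonal.1 hz, mul_add, mul_add]
    omega

lemma natDegree_pr {wt : ι → ℕ} {r : ℕ} (hr : ∀ k, wt k < r)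
    (hw : ∀ s k l d, (A s k l).coeff d ≠ 0 → r * d + 1 + wt l ≤ r + wt k) {M n : ℕ}
    (hM : r * n ≤ M) (k l : ι) : (pr A M k l).natDegree ≤ M - n := by
  refine natDegree_le_iff_coeff_eq_zero.2 fun d hd => by_contra fun h => ?_
  have h1 := pr_weight hw M k l d h
  have h2 := hr k
  have h3 := Nat.mul_le_mul_left r (show M + 1 ≤ d + n by omega)
  rw [mul_add, mul_add] at h3
  omega

lemma natDegree_nm (hA : ∀ M k l, (pr A M k l).natDegree ≤ M) (M : ℕ) (k : ι) :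
    (nm w A b M k).natDegree ≤ M := by
  induction M with
  | zero => simp [nm]
  | succ M ih =>
    refine natDegree_add_le_of_degree_le (natDegree_mul_le.trans ?_)
      (natDegree_sum_le_of_forall_le _ _ fun l _ =>
        (natDegree_mul_C_le _ _).trans ((hA M k l).trans M.le_succ))
    rw [natDegree_X_sub_C]
    omega

/-- The data at each level are the twists of the data at the previous level. -/
structure Sys (φ : K →+* K) (w : ℕ → K) (A : ℕ → Matrix ι ι K[X]) (b : ℕ → ι → K) : Prop where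
  hw : ∀ s, w (s + 1) = φ (w s)
  hA : ∀ s k l, A (s + 1) k l = (A s k l).map φ
  hb : ∀ s k, b (s + 1) k = φ (b s k)

variable {φ : K →+* K} {q : ℕ}

omit [Fintype ι] [DecidableEq ι] in
lemma Sys.add (h : Sys φ w A b) (s N : ℕ) : w (s + N) = (φ ^ N) (w s) ∧
    (∀ k l, A (s + N) k l = (A s k l).map (φ ^ N)) ∧ ∀ k, b (s + N) k = (φ ^ N) (b s k) := by
  induction N with
  | zero => simp [RingHom.one_def]
  | succ N ih =>
    simp only [← add_assoc, h.hw, h.hA, h.hb, ih, pow_succ', RingHom.mul_def, Polynomial.map_map,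
      RingHom.comp_apply, implies_true, and_self]

lemma Sys.pr_add (h : Sys φ w A b) (N M : ℕ) :
    ∀ k l, pr (fun s => A (s + N)) M k l = (pr A M k l).map (φ ^ N) := by
  induction M with
  | zero => simp [pr, Matrix.one_apply, apply_ite]
  | succ M ih => simp [pr, Matrix.mul_apply, Polynomial.map_sum, ih, (h.add M N).2.1]

lemma map_mem {W : ℕ → AddSubgroup K} (h : Fil W) (hφ : ∀ x, φ x = x ^ q) {f : K[X]}
    (hf : f ∈ polySub (W 1)) (s : ℕ) : f.map (φ ^ s) ∈ polySub (W (q ^ s)) := fun i => by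
  rw [coeff_map, RingHom.coe_pow]
  exact one_mul (q ^ s) ▸ h.iter hφ (hf i) s

lemma Sys.mem (hs : Sys φ w A b) {W : ℕ → AddSubgroup K} (h : Fil W) (hφ : ∀ x, φ x = x ^ q)
    (hq : 2 ≤ q) (hw : w 0 ∈ W 1) (hA : ∀ k l, A 0 k l ∈ polySub (W 1)) (hb : ∀ k, b 0 k ∈ W 1)
    (M : ℕ) : den w M ∈ polySub (W (q ^ M)) ∧ (∀ k l, pr A M k l ∈ polySub (W (q ^ M))) ∧
      ∀ k, nm w A b M k ∈ polySub (W (q ^ M)) := by
  induction M with
  | zero =>
    refine ⟨h.poly.mono (Nat.zero_le _) h.poly.one, fun k l => ?_, fun k => zero_mem _⟩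
    rw [pr, Matrix.one_apply]
    split_ifs
    exacts [h.poly.mono (Nat.zero_le _) h.poly.one, zero_mem _]
  | succ M ih =>
    have h1 : q ^ M + q ^ M ≤ q ^ (M + 1) := by rw [pow_succ]; nlinarith [Nat.zero_le (q ^ M)]
    obtain ⟨e1, e2, e3⟩ := hs.add 0 M
    rw [zero_add] at e1 e2 e3
    have h2 : X - C (w M) ∈ polySub (W (q ^ M)) := by
      simpa [e1] using map_mem h hφ (h.X_sub_C hw) M
    have h3 : ∀ l, C (b M l) ∈ polySub (W (q ^ M)) := fun l => by
      simpa [e3] using map_mem h hφ (monomial_mem_polySub (hb l) 0) M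
    rw [den_succ]
    exact ⟨h.poly.mono h1 (h.poly.mul _ _ _ _ ih.1 h2), fun k l => sum_mem fun m _ =>
      h.poly.mono h1 (h.poly.mul _ _ _ _ (ih.2.1 k m) ((e2 m l).symm ▸ map_mem h hφ (hA m l) M :
        A M m l ∈ _)),
      fun k => add_mem (h.poly.mono h1 (h.poly.mul _ _ _ _ (ih.2.2 k) h2))
        (sum_mem fun l _ => h.poly.mono h1 (h.poly.mul _ _ _ _ (ih.2.1 k l) (h3 l)))⟩

lemma Sys.den_mul_series (hs : Sys φ w A b) {G : ι → LS K}
    (hG : ∀ k, ev (X - C (w 0)) * G k = ∑ l, ev (A 0 k l) * fr φ (G l) + ev (C (b 0 k)))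
    (M : ℕ) (k : ι) :
    ev (den w M) * G k = ev (nm w A b M k) + ∑ l, ev (pr A M k l) * (fr φ)^[M] (G l) := by
  refine den_mul ev (Y := fun s k => (fr φ)^[s] (G k)) (fun s k => ?_) M k
  obtain ⟨e1, e2, e3⟩ := hs.add 0 s
  rw [zero_add] at e1 e2 e3
  have := congrArg (fr φ ^ s) (hG k)
  simp only [map_mul, map_add, map_sum, fr_pow_ev, Polynomial.map_sub, map_X, map_C, ← e1, ← e2,
    ← e3] at this
  simpa only [RingHom.coe_pow, Function.iterate_succ_apply] using this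

end Alg

variable {K : Type*} [NormedField K] {w : ℕ → K} {A : ℕ → Matrix ι ι K[X]} {b : ℕ → ι → K}
  {φ : K →+* K} {q : ℕ} {x : K} {β ρ : ℝ}

/-- The value of the solution. -/
noncomputable def val (w : ℕ → K) (A : ℕ → Matrix ι ι K[X]) (b : ℕ → ι → K) (x : K) (k : ι) : K :=
  ∑' M, (∑ l, (pr A M k l).eval x * b M l) / (den w (M + 1)).eval x

variable [IsUltrametricDist K]

lemma norm_pr_le (hA : ∀ s k l, ‖(A s k l).eval x‖ ≤ 1) (M : ℕ) :
    ∀ k l, ‖(pr A M k l).eval x‖ ≤ 1 := by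
  induction M with
  | zero =>
    intro k l
    rw [pr, Matrix.one_apply]
    split_ifs <;> simp
  | succ M ih =>
    intro k l
    rw [pr, Matrix.mul_apply, eval_finsetSum]
    refine IsUltrametricDist.norm_sum_le_of_forall_le_of_nonneg zero_le_one fun m _ => ?_
    rw [eval_mul, norm_mul]
    exact mul_le_one₀ (ih k m) (norm_nonneg _) (hA M m l)

lemma norm_pr_sum (hA : ∀ s k l, ‖(A s k l).eval x‖ ≤ 1) (M : ℕ) (k : ι) {y : ι → K} {c : ℝ}
    (hy : ∀ l, ‖y l‖ ≤ c) : ‖∑ l, (pr A M k l).eval x * y l‖ ≤ c :=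
  IsUltrametricDist.norm_sum_le_of_forall_le_of_nonneg ((norm_nonneg _).trans (hy k)) fun l _ => by
    rw [norm_mul]
    exact (mul_le_of_le_one_left (norm_nonneg _) (norm_pr_le hA M k l)).trans (hy l)

lemma norm_trm_le (hA : ∀ s k l, ‖(A s k l).eval x‖ ≤ 1) (hb : ∀ s k, ‖b s k‖ ≤ β ^ q ^ s)
    (hρ : 0 < ρ) (hx : ∀ s, ρ ≤ ‖x - w s‖) (k : ι) (M : ℕ) :
    ‖(∑ l, (pr A M k l).eval x * b M l) / (den w (M + 1)).eval x‖ ≤ β ^ q ^ M / ρ ^ M / ρ := by
  rw [norm_div, div_div, ← pow_succ]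
  exact div_le_div₀ ((norm_nonneg _).trans (hb M k)) (norm_pr_sum hA M k (hb M)) (by positivity)
    (le_norm_den hρ fun s _ => hx s)

lemma norm_nm_le (hA : ∀ s k l, ‖(A s k l).eval x‖ ≤ 1) {c : ℝ} (hρ : 0 < ρ)
    (hb : ∀ s k, ‖b s k‖ ≤ c * ρ ^ (s + 1)) (k : ι) (M : ℕ) (hx : ∀ s < M, ρ ≤ ‖x - w s‖) :
    ‖(nm w A b M k).eval x‖ ≤ c * ‖(den w M).eval x‖ := by
  have hc : 0 ≤ c := (mul_nonneg_iff_of_pos_right (pow_pos hρ _)).1 ((norm_nonneg _).trans (hb 0 k))
  induction M with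
  | zero => simp [nm, den, hc]
  | succ M ih =>
    rw [nm, eval_add]
    refine (IsUltrametricDist.norm_add_le_max _ _).trans (max_le ?_ ?_)
    · rw [den_succ, eval_mul, eval_mul, norm_mul, norm_mul, ← mul_assoc]
      exact mul_le_mul_of_nonneg_right (ih fun s hs => hx s (by omega)) (norm_nonneg _)
    · simp only [eval_finsetSum, eval_mul, eval_C]
      exact (norm_pr_sum hA M k (hb M)).trans (mul_le_mul_of_nonneg_left (le_norm_den hρ hx) hc)

variable [CompleteSpace K]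

lemma summable_val (hq : 2 ≤ q) (h0 : 0 ≤ β) (h1 : β < 1) (hA : ∀ s k l, ‖(A s k l).eval x‖ ≤ 1)
    (hb : ∀ s k, ‖b s k‖ ≤ β ^ q ^ s) (hρ : 0 < ρ) (hx : ∀ s, ρ ≤ ‖x - w s‖) (k : ι) :
    Summable fun M => (∑ l, (pr A M k l).eval x * b M l) / (den w (M + 1)).eval x :=
  ((summable_dexp hq h0 h1 hρ).div_const ρ).of_norm_bounded (norm_trm_le hA hb hρ hx k)

omit [Fintype ι] [DecidableEq ι] [IsUltrametricDist K] [CompleteSpace K] in
lemma shift_le (hb : ∀ s k, ‖b s k‖ ≤ β ^ q ^ s) (N s : ℕ) (k : ι) :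
    ‖b (s + N) k‖ ≤ (β ^ q ^ N) ^ q ^ s := by
  rw [← pow_mul, ← pow_add, add_comm N]
  exact hb _ _

lemma val_succ (hq : 2 ≤ q) (h0 : 0 ≤ β) (h1 : β < 1) (hA : ∀ s k l, ‖(A s k l).eval x‖ ≤ 1)
    (hb : ∀ s k, ‖b s k‖ ≤ β ^ q ^ s) (hρ : 0 < ρ) (hx : ∀ s, ρ ≤ ‖x - w s‖) (k : ι) :
    (x - w 0) * val w A b x k = ∑ l, (A 0 k l).eval x *
      val (fun s => w (s + 1)) (fun s => A (s + 1)) (fun s => b (s + 1)) x l + b 0 k := by
  have h : x - w 0 ≠ 0 := norm_pos_iff.1 (hρ.trans_le (hx 0))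
  have h2 := fun l => summable_val (w := fun s => w (s + 1)) (A := fun s => A (s + 1)) hq
    (pow_nonneg h0 _) (pow_lt_one₀ h0 h1 (by positivity)) (fun s => hA _) (shift_le hb 1) hρ
    (fun s => hx _) l
  rw [val, (summable_val hq h0 h1 hA hb hρ hx k).tsum_eq_zero_add, mul_add, add_comm]
  congr 1
  · simp only [val, ← tsum_mul_left]
    rw [← Summable.tsum_finsetSum fun l _ => (h2 l).mul_left _]
    refine tsum_congr fun M => ?_
    simp only [pr_succ', den, Finset.prod_range_succ' _ (M + 1), eval_mul, eval_sub, eval_X, eval_C,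
      Matrix.mul_apply, eval_finsetSum, ← mul_div_assoc, ← Finset.sum_div, Finset.mul_sum,
      Finset.sum_mul, mul_assoc]
    rw [Finset.sum_comm, mul_comm _ (x - w 0), ← mul_div_mul_left _ _ h]
    simp only [← Finset.mul_sum, mul_div_mul_left _ _ h]
  · simp [pr, den, Matrix.one_apply, apply_ite, mul_div_cancel₀ _ h]

lemma den_mul_val (hq : 2 ≤ q) (h0 : 0 ≤ β) (h1 : β < 1) (hA : ∀ s k l, ‖(A s k l).eval x‖ ≤ 1)
    (hb : ∀ s k, ‖b s k‖ ≤ β ^ q ^ s) (hρ : 0 < ρ) (hx : ∀ s, ρ ≤ ‖x - w s‖) (M : ℕ) (k : ι) :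
    (den w M).eval x * val w A b x k = (nm w A b M k).eval x + ∑ l, (pr A M k l).eval x *
      val (fun s => w (s + M)) (fun s => A (s + M)) (fun s => b (s + M)) x l := by
  refine den_mul (evalRingHom x) (Y := fun M k => val (fun s => w (s + M)) (fun s => A (s + M))
    (fun s => b (s + M)) x k) (fun N k => ?_) M k
  simpa [add_right_comm _ 1 N, add_assoc] using val_succ (w := fun s => w (s + N))
    (A := fun s => A (s + N)) hq (pow_nonneg h0 _) (pow_lt_one₀ h0 h1 (by positivity))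
    (fun s => hA _) (shift_le hb N) hρ (fun s => hx _) k

lemma Sys.val_iter (hs : Sys φ w A b) (hφ : ∀ x, φ x = x ^ q) (hq : 2 ≤ q) (h0 : 0 ≤ β) (h1 : β < 1)
    (hA : ∀ s k l, ‖(A s k l).eval x‖ ≤ 1) (hb : ∀ s k, ‖b s k‖ ≤ β ^ q ^ s) (hρ : 0 < ρ)
    (hx : ∀ s, ρ ≤ ‖x - w s‖) (N : ℕ) (k : ι) : (φ ^ N) (val w A b x k) =
      val (fun s => w (s + N)) (fun s => A (s + N)) (fun s => b (s + N)) ((φ ^ N) x) k := by
  have hc : Continuous (φ ^ N : K →+* K) := by
    rw [RingHom.coe_pow, show φ^[N] = (· ^ q ^ N) from funext (iter_eq hφ N)]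
    fun_prop
  rw [val, (summable_val hq h0 h1 hA hb hρ hx k).map_tsum (φ ^ N : K →+* K) hc]
  refine tsum_congr fun M => ?_
  simp only [map_div₀, map_sum, map_mul, hs.pr_add, eval_map, eval₂_at_apply, den, eval_prod,
    eval_sub, eval_X, eval_C, map_prod, map_sub, fun s => (hs.add s N).1, (hs.add M N).2.2]

/-- The truncations converge faster than any geometric sequence. -/
lemma tendsto_nm (hq : 2 ≤ q) (h0 : 0 ≤ β) (h1 : β < 1) (hA : ∀ s k l, ‖(A s k l).eval x‖ ≤ 1)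
    (hb : ∀ s k, ‖b s k‖ ≤ β ^ q ^ s) (hρ : 0 < ρ) (hx : ∀ s, ρ ≤ ‖x - w s‖) {r : ℝ} (hr : 0 < r)
    (k : ι) : Tendsto (fun M => ‖(nm w A b M k).eval x / (den w M).eval x - val w A b x k‖ / r ^ M)
      atTop (𝓝 0) := by
  obtain ⟨C, hC1, hC⟩ := exists_dexp_le hq h1 hρ
  have h := (summable_dexp hq h0 h1 (mul_pos hρ hr)).tendsto_atTop_zero.const_mul (C / ρ)
  rw [mul_zero] at h
  refine squeeze_zero (fun _ => by positivity) (fun M => ?_) h
  have h1' := le_norm_den hρ (w := w) (M := M) fun s _ => hx s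
  have h2 : 0 < ‖(den w M).eval x‖ := lt_of_lt_of_le (by positivity) h1'
  have h3 := norm_pr_sum hA M k (c := C / ρ * β ^ q ^ M)
    (y := val (fun s => w (s + M)) (fun s => A (s + M)) (fun s => b (s + M)) x) fun l =>
      IsUltrametricDist.norm_tsum_le_of_forall_le fun j =>
        (norm_trm_le (fun s => hA _) (shift_le hb M) hρ (fun s => hx _) l j).trans (by
          rw [div_mul_eq_mul_div]
          gcongr
          exact hC _ (pow_nonneg h0 _) (pow_le_of_le_one h0 h1.le (by positivity)) j)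
  rw [div_sub' (norm_pos_iff.1 h2), den_mul_val hq h0 h1 hA hb hρ hx, sub_add_cancel_left, norm_div,
    norm_neg, mul_pow, ← mul_div_assoc, ← div_div]
  gcongr

end Pool.Agent.Lib.MP_1f047c_nt.Dr
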