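import Pool.Agent.Lib.MP_1f047c_nt.DrABP
import Pool.Agent.Lib.MP_1f047c_nt.DrEnd

/-! The companion system of a twisted polynomial and the independence of its values. -/

namespace Pool.Agent.Lib.MP_1f047c_nt.Dr

open Polynomial Filter Topology IntermediateField Car

section Alg

variable {K : Type*} [Field K] {ι : Type*} [DecidableEq ι] {n : ℕ} {a : ℕ → K}

/-- The companion matrix. -/
noncomputable def cm (ι : Type*) [DecidableEq ι] (n : ℕ) (a : ℕ → K) :
    Matrix (ι × Fin (n + 1)) (ι × Fin (n + 1)) K[X] := fun k l =>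
  if k.1 = l.1 then
    if k.2 = 0 then C (a (l.2 + 1)) else if (l.2 : ℕ) + 1 = k.2 then X - C (a 0) else 0
  else 0

lemma cm_cases {p : K[X] → Prop} (k l : ι × Fin (n + 1)) (h0 : p 0)
    (h1 : k.2 = 0 → p (C (a (l.2 + 1)))) (h2 : (l.2 : ℕ) + 1 = k.2 → p (X - C (a 0))) :
    p (cm ι n a k l) := by
  rw [cm]
  split_ifs with e1 e2 e3
  exacts [h1 e2, h2 e3, h0, h0]

lemma cm_map (φ : K →+* K) (k l : ι × Fin (n + 1)) :
    cm ι n (fun j => φ (a j)) k l = (cm ι n a k l).map φ := by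
  simp only [cm]
  split_ifs <;> simp

variable [Fintype ι] {T : Type*} [CommRing T]

lemma cm_zero (j : K[X] →+* T) (Y : ι × Fin (n + 1) → T) (i : ι) :
    ∑ l, j (cm ι n a (i, 0) l) * Y l = ∑ l : Fin (n + 1), j (C (a (l + 1))) * Y (i, l) := by
  simp [cm, Fintype.sum_prod_type, apply_ite j, Finset.sum_ite_irrel]

lemma cm_succ (j : K[X] →+* T) (Y : ι × Fin (n + 1) → T) (i : ι) (m : Fin n) :
    ∑ l, j (cm ι n a (i, m.succ) l) * Y l = j (X - C (a 0)) * Y (i, m.castSucc) := by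
  rw [Finset.sum_eq_single (i, m.castSucc) (fun l _ hl => ?_) (by simp)]
  · simp [cm]
  · rw [cm]
    split_ifs with e1 e2 e3
    · exact absurd e2 m.succ_ne_zero
    · exact (hl (Prod.ext e1.symm (Fin.ext (by simpa using e3)))).elim
    all_goals simp

lemma cm_surj {x : K} (hx : x - a 0 ≠ 0) (ha : a (n + 1) ≠ 0) (y : ι × Fin (n + 1) → K) :
    ∃ z : ι × Fin (n + 1) → K, ∀ k, ∑ l, (cm ι n a k l).eval x * z l = y k := by
  refine ⟨fun l => Fin.lastCases ((y (l.1, 0) - ∑ m : Fin n, a (m + 1) * (y (l.1, m.succ) / (x - a 0)))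
    / a (n + 1)) (fun m => y (l.1, m.succ) / (x - a 0)) l.2, fun ⟨i, k⟩ => ?_⟩
  refine k.cases ((cm_zero (evalRingHom x) _ i).trans ?_) fun m =>
    (cm_succ (evalRingHom x) _ i m).trans ?_
  · simp [Fin.sum_univ_castSucc, mul_div_cancel₀ _ ha]
  · simp [mul_div_cancel₀ _ hx]

lemma exists_orbit (φ : K →+* K) {ρ : K[X]} {r : ℕ} (hρ : ρ.natDegree = r) (α : K) :
    ∃ f : LS K, Lead f 0 0 ∧
      ev X * f = ∑ k ∈ Finset.range (r + 1), ev (C (ρ.coeff k)) * (fr φ)^[k] f + ev (C α) := by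
  let h : ℤ → K := fun i => if 0 < i then (op φ ρ)^[(i - 1).toNat] α else 0
  have h0 : ∀ i : ℤ, i ≤ 0 → h i = 0 := fun i hi => if_neg hi.not_gt
  let f : LS K := HahnSeries.ofSuppBddBelow h ⟨0, fun m hm => not_lt.1 fun h => hm (h0 m h.le)⟩
  have hf : ∀ i, f.coeff i = h i := fun _ => rfl
  refine ⟨f, ⟨fun i hi => h0 i hi.le, h0 0 le_rfl⟩, ?_⟩
  ext i
  simp only [HahnSeries.coeff_add, HahnSeries.coeff_sum, ev_C, ev_X, HahnSeries.coeff_single_mul,
    sub_neg_eq_add, one_mul, sub_zero, coeff_fr_iter, hf, ← op_range ρ (n := r + 1) (by omega),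
    HahnSeries.coeff_single]
  rcases lt_trichotomy i 0 with hi | rfl | hi
  · rw [h0 _ (by omega), h0 _ hi.le, op_zero', if_neg hi.ne, add_zero]
  · simp [h, op_zero']
  · simp only [h, if_pos hi, if_pos (show 0 < i + 1 by omega), if_neg hi.ne', add_zero,
      show (i + 1 - 1).toNat = (i - 1).toNat + 1 by omega, Function.iterate_succ_apply']

end Alg

variable {F K : Type*} [Field F] [Fintype F] [NontriviallyNormedField K] [IsUltrametricDist K]
  [Algebra F K] [CompleteSpace K] {φ : K →+* K} {ι : Type*} [Fintype ι] [DecidableEq ι] {n : ℕ}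

/-- The values of the twisted logarithms. -/
noncomputable def V (φ : K →+* K) (n : ℕ) (a : ℕ → K) (α : ι → K) (x : K) : ι × Fin (n + 1) → K :=
  val (fun s => φ^[s] (a 0)) (fun s => cm ι n fun j => φ^[s] (a j))
    (fun s k => if k.2 = 0 then φ^[s] (α k.1) else 0) x

omit [CompleteSpace K] [Fintype ι] in
lemma norm_cm {q : ℕ} (hφ : ∀ x, φ x = x ^ q) (hq : 2 ≤ q) {a : ℕ → K} (ha : ∀ j, ‖a j‖ ≤ 1) {x : K}
    (hx : ‖x‖ ≤ 1) (s : ℕ) (k l : ι × Fin (n + 1)) :
    ‖(cm ι n (fun j => φ^[s] (a j)) k l).eval x‖ ≤ 1 := by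
  have h := fun j => (norm_iter_le hφ hq (ha j) s).trans (ha j)
  refine cm_cases (p := fun f => ‖f.eval x‖ ≤ 1) k l (by simp) (fun _ => by simpa using h _) fun _ => ?_
  simpa using (norm_sub_le_max' _ _).trans (max_le hx (h 0))

omit [CompleteSpace K] [Fintype ι] [DecidableEq ι] [IsUltrametricDist K] in
lemma norm_bs {q : ℕ} (hφ : ∀ x, φ x = x ^ q) {α : ι → K} {β : ℝ} (h0 : 0 ≤ β) (hα : ∀ i, ‖α i‖ ≤ β)
    (s : ℕ) (k : ι × Fin (n + 1)) : ‖if k.2 = 0 then φ^[s] (α k.1) else 0‖ ≤ β ^ q ^ s := by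
  split_ifs
  · rw [iter_eq hφ, norm_pow]
    gcongr
    exact hα _
  · rw [norm_zero]
    positivity

theorem indep_V [IsAlgClosed K] (hφ : ∀ x, φ x = x ^ Fintype.card F) {v : F[X]} (hv : v.Monic)
    (hd : 0 < v.natDegree) {θ : K} (hv0 : aeval θ v ≠ 0) (hv1 : ‖aeval θ v‖ < 1) {ρ : K[X]}
    (hρ : ρ.natDegree = n + 1) (hw : ‖aeval (ρ.coeff 0) v‖ < ‖aeval θ v‖)
    (hρ1 : ∀ j, ‖ρ.coeff j‖ ≤ 1) (hρs : ∀ j, IsSeparable F⟮θ⟯ (ρ.coeff j)) {α : ι → K}
    (hα : ∀ i, ‖α i‖ < 1) (hαs : ∀ i, IsSeparable F⟮θ⟯ (α i))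
    (h : ¬AlgebraicIndependent F⟮θ⟯ (V φ n ρ.coeff α θ)) :
    ∃ e : ι → K[X], e ≠ 0 ∧ (∀ i y, op φ (e i) (op φ ρ y) = op φ ρ (op φ (e i) y)) ∧
      ∑ i, op φ (e i) (α i) = 0 := by
  have hq : 2 ≤ Fintype.card F := Fintype.one_lt_card
  have hθ1 : ‖θ‖ ≤ 1 := norm_le_one_of_monic hv hd hv1.le
  have ha : ρ.coeff (n + 1) ≠ 0 := hρ ▸ leadingCoeff_ne_zero.2 fun h => by simp [h] at hρ
  rw [algebraicIndependent_iff] at h
  push Not at h
  obtain ⟨P, hP, hP0⟩ := h
  choose f hf0 hf using fun i => exists_orbit φ hρ (α i)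
  let S := (separableClosure F⟮θ⟯ K).toSubfield
  let R := liftsRing S.subtype
  have hR : ∀ g ∈ R, ∀ j, IsSeparable F⟮θ⟯ (g.coeff j) := fun g hg j => by
    obtain ⟨⟨y, hy⟩, h⟩ := (lifts_iff_coeff_lifts g).1 hg j
    exact h ▸ mem_separableClosure_iff.1 hy
  have hC : ∀ x ∈ S, C x ∈ R := fun x hx => C_mem_lifts S.subtype ⟨x, hx⟩
  have hX : X ∈ R := X_mem_lifts _
  have hS : ∀ j, ρ.coeff j ∈ S := fun j => mem_separableClosure_iff.2 (hρs j)
  have h1 : ∀ k : ι × Fin (n + 1), ∃ (t : ι × Fin (n + 1) → K[X]) (c : K[X]), (∀ l, t l ∈ R) ∧ c ∈ R ∧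
      fr φ ((fr φ)^[k.2] (f k.1)) = ev c + ∑ l, ev (t l) * (fr φ)^[l.2] (f l.1) := by
    rintro ⟨i, k⟩
    refine k.lastCases ⟨fun l => if l.1 = i then C (ρ.coeff (n + 1))⁻¹ *
      ((if l.2 = 0 then X else 0) - C (ρ.coeff l.2)) else 0, -(C (ρ.coeff (n + 1))⁻¹ * C (α i)),
      fun l => ?_, neg_mem (mul_mem (hC _ (inv_mem (hS _)))
        (hC _ (mem_separableClosure_iff.2 (hαs i)))), ?_⟩ fun m =>
      ⟨Pi.single (i, m.succ) 1, 0, fun l => ?_, zero_mem _, ?_⟩
    · dsimp only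
      split_ifs
      exacts [mul_mem (hC _ (inv_mem (hS _))) (sub_mem hX (hC _ (hS _))),
        mul_mem (hC _ (inv_mem (hS _))) (sub_mem (zero_mem _) (hC _ (hS _))), zero_mem _]
    · have h2 := hf i
      rw [Finset.sum_range_succ, ← Fin.sum_univ_eq_sum_range
        (fun k => ev (C (ρ.coeff k)) * (fr φ)^[k] (f i)), Function.iterate_succ_apply'] at h2
      have h3 : ev (C (ρ.coeff (n + 1))⁻¹) * ev (C (ρ.coeff (n + 1))) = (1 : LS K) := by
        rw [← map_mul, ← C_mul, inv_mul_cancel₀ ha, C_1, map_one]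
      simp only [Fintype.sum_prod_type, apply_ite ev, ite_mul, map_zero, zero_mul,
        Finset.sum_ite_irrel, Finset.sum_const_zero, Finset.sum_ite_eq', Finset.mem_univ, if_true,
        map_mul, map_sub, mul_assoc, ← Finset.mul_sum, sub_mul, Finset.sum_sub_distrib, map_neg,
        Fin.val_last, Fin.val_zero, Function.iterate_zero_apply]
      linear_combination (-ev (C (ρ.coeff (n + 1))⁻¹)) * h2 - fr φ ((fr φ)^[n] (f i)) * h3
    · rw [Pi.single_apply]
      split_ifs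
      exacts [one_mem _, zero_mem _]
    · simp [Pi.single_apply, apply_ite ev, Function.iterate_succ_apply']
  choose T' c₀ hT' hc₀ hG' using h1
  obtain ⟨g, hg0, hg⟩ := abp hφ hv hd hv0 hv1 (w := fun s => φ^[s] (ρ.coeff 0))
    (T := fun s => cm ι n fun j => φ^[s] (ρ.coeff j))
    (b := fun s k => if k.2 = 0 then φ^[s] (α k.1) else 0)
    ⟨fun s => Function.iterate_succ_apply' _ _ _,
      fun s k l => by simp only [Function.iterate_succ_apply', cm_map],
      fun s k => by simp only [Function.iterate_succ_apply', apply_ite φ, map_zero]⟩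
    (fun s => by
      rw [aeval_iter hφ]
      exact (norm_iter_le hφ hq (hw.trans hv1).le s).trans_lt hw)
    (norm_nonneg α) ((pi_norm_lt_iff one_pos).2 hα)
    (norm_bs hφ (norm_nonneg α) (norm_le_pi_norm α)) (fun x hx => norm_cm hφ hq hρ1 hx) (r₀ := n + 1)
    (fun M m hM => natDegree_pr (wt := fun k => k.2) (fun k => k.2.2) (fun s k l d =>
      cm_cases (p := fun g => g.coeff d ≠ 0 → _) k l (fun h => absurd (coeff_zero d) h)
        (fun _ h => by
          have := (le_natDegree_of_ne_zero h).trans (natDegree_C _).le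
          have := l.2.2
          simp only [Nat.le_zero.1 ‹d ≤ 0›]
          omega)
        fun h1 h => by
          have := Nat.mul_le_mul_left (n + 1)
            ((le_natDegree_of_ne_zero h).trans (natDegree_X_sub_C _).le)
          omega) hM)
    (fun s => cm_surj (norm_pos_iff.1 ((norm_pos_iff.2 hv0).trans_le
      (le_norm_sub_iter hφ (hρ1 0) hθ1 hw s))) (by rw [iter_eq hφ]; exact pow_ne_zero _ ha))
    (G := fun k => (fr φ)^[k.2] (f k.1)) (fun k => (hf0 k.1).iterate φ k.2)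
    (fun ⟨i, k⟩ => k.cases (by
      have h2 := hf i
      rw [Finset.sum_range_succ', ← Fin.sum_univ_eq_sum_range
        (fun k => ev (C (ρ.coeff (k + 1))) * (fr φ)^[k + 1] (f i))] at h2
      simp only [cm_zero, Function.iterate_succ_apply', Function.iterate_zero_apply, map_sub,
        if_true, Fin.val_zero] at h2 ⊢
      linear_combination h2) fun m => by
      simp [cm_succ, Function.iterate_succ_apply'])
    hG' (hρs 0) (fun k => by
      split_ifs
      exacts [hαs _, mem_separableClosure_iff.1 (zero_mem _)])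
    (fun k l => hR _ (cm_cases (p := (· ∈ R)) k l (zero_mem _) (fun _ => hC _ (hS _))
      fun _ => sub_mem hX (hC _ (hS _)))) (fun k l => hR _ (hT' k l)) (fun k => hR _ (hc₀ k))
    (D := P.totalDegree + 1) (Nat.succ_pos _) (P := fun μ => algebraMap F⟮θ⟯ K (P.coeff μ.1))
    (fun h => by
      obtain ⟨μ, hμ⟩ := MvPolynomial.ne_zero_iff.1 hP0
      exact hμ ((map_eq_zero _).1 (congrFun h ⟨μ, (MvPolynomial.le_totalDegree
        (MvPolynomial.mem_support_iff.2 hμ)).trans (Nat.le_succ _)⟩)))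
    (fun μ => isSeparable_algebraMap _) ((eval₂_eq_mon _ _ (Nat.le_succ _)).symm.trans hP)
  exact end_rel hφ n.succ_pos hρ α f hf0 hf hg0 hg

end Pool.Agent.Lib.MP_1f047c_nt.Dr
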