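import Pool.Agent.Lib.MP_1f047c_nt.TIARoy

/-! Matrices with entries in the rational span of the logarithms. -/

open Finset MvPolynomial

namespace Pool.Agent.Lib.MP_1f047c_nt.TI

lemma span_sing {n : Type} [Fintype n] [DecidableEq n] {r : ℕ} (A : n → n → Fin r → ℚ)
    (h : (Matrix.of fun i l => ∑ j, C (A i l j) * (X j : MvPolynomial (Fin r) ℚ)).det = 0) :
    ∃ w v : n → ℚ, w ≠ 0 ∧ v ≠ 0 ∧ ∀ j, ∑ i, ∑ l, w i * A i l j * v l = 0 := by
  obtain ⟨v, hv, h1⟩ := Matrix.exists_mulVec_eq_zero_iff.2 h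
  obtain ⟨w, hw, h2⟩ := Matrix.exists_vecMul_eq_zero_iff.2 h
  set N := Matrix.of fun i l => ∑ j, C (A i l j) * (X j : MvPolynomial (Fin r) ℚ) with hN
  have key : ∀ j, ∑ i, ∑ l, w i * C (A i l j) * v l = 0 := fun j => by
    have d : ∀ i l, pderiv j (N i l) = C (A i l j) := fun i l => by
      simp only [hN, Matrix.of_apply, map_sum, pderiv_C_mul]
      rw [sum_eq_single j, pderiv_X_self, mul_one]
      · intro b _ hb
        rw [pderiv_X_of_ne hb, mul_zero]
      · simp
    have e1 : ∀ i, ∑ l, (N i l * pderiv j (v l) + v l * C (A i l j)) = 0 := fun i => by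
      have := congrArg (pderiv j) (congrFun h1 i)
      simpa only [Matrix.mulVec, dotProduct, map_sum, Derivation.leibniz, smul_eq_mul, d,
        Pi.zero_apply, map_zero] using this
    have e2 : ∀ l, ∑ i, w i * N i l = 0 := fun l => congrFun h2 l
    calc _ = ∑ i, w i * ∑ l, (N i l * pderiv j (v l) + v l * C (A i l j)) -
          ∑ l, (∑ i, w i * N i l) * pderiv j (v l) := by
          simp only [mul_sum, sum_mul]
          rw [sum_comm (γ := n) (f := fun l i => w i * N i l * pderiv j (v l)), ← sum_sub_distrib]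
          refine sum_congr rfl fun i _ => ?_
          rw [← sum_sub_distrib]
          exact sum_congr rfl fun l _ => by ring
      _ = 0 := by simp [e1, e2]
  obtain ⟨i0, hi⟩ := Function.ne_iff.1 hw
  obtain ⟨l0, hl⟩ := Function.ne_iff.1 hv
  have : ∃ x, eval x (w i0 * v l0) ≠ 0 := by
    by_contra hx
    push Not at hx
    exact mul_ne_zero hi hl (MvPolynomial.funext fun x => by rw [hx, map_zero])
  obtain ⟨x, hx⟩ := this
  rw [map_mul] at hx
  refine ⟨fun i => eval x (w i), fun l => eval x (v l),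
    Function.ne_iff.2 ⟨i0, left_ne_zero_of_mul hx⟩, Function.ne_iff.2 ⟨l0, right_ne_zero_of_mul hx⟩,
    fun j => ?_⟩
  simpa using congrArg (eval x) (key j)

lemma span_deg {n σ K : Type} [Fintype n] [DecidableEq n] [CommRing K]
    (A : Matrix n n (MvPolynomial σ K)) (h : ∀ i j, (A i j).totalDegree ≤ 1) :
    A.det.totalDegree ≤ Fintype.card n := by
  rw [Matrix.det_apply]
  refine totalDegree_finsetSum_le fun τ _ => ?_
  rw [Units.smul_def]
  refine (totalDegree_smul_le _ _).trans ((totalDegree_finsetProd _ _).trans ?_)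
  exact (sum_le_card_nsmul _ _ 1 fun i _ => h _ _).trans (by simp)

theorem spanN (hZ : ZEst) (n N : ℕ) (δ : ℝ) (hδ : 0 < δ) : ∃ c : ℝ,
    ∀ (𝕜 : Type) [NormedField 𝕜] [CompleteSpace 𝕜] [CharZero 𝕜], TA.Nice 𝕜 →
    ∀ (K : Type) [Field K] [NumberField K] (φ : K →+* 𝕜) (α : Fin N → K) (l : Fin N → 𝕜),
      (∀ j, NormedSpace.exp (l j) = φ (α j)) →
      (∀ j, ‖l j‖ ≤ Real.exp (-(δ * Height.logHeight₁ (α j) + c * Module.finrank ℚ K))) →
      ∀ M : Matrix (Fin n) (Fin n) 𝕜, (∀ i j, M i j ∈ Submodule.span ℚ (Set.range l)) →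
      M.det = 0 →
      ∃ w v : Fin n → ℚ, w ≠ 0 ∧ v ≠ 0 ∧ ∑ i, ∑ j, (w i : 𝕜) * M i j * (v j : 𝕜) = 0 := by
  obtain ⟨c, H⟩ := twoN hZ (Fin N) n δ hδ
  refine ⟨c, fun 𝕜 _ _ _ hN K _ _ φ α l hexp hl M hM hdet => ?_⟩
  choose b hb using fun i j => (Submodule.mem_span_range_iff_exists_fun ℚ).1 (hM i j)
  let A : Matrix (Fin n) (Fin n) (MvPolynomial (Fin N) K) :=
    Matrix.of fun i j => ∑ k, C (b i j k : K) * X k
  have hA : ∀ i j, (A i j).totalDegree ≤ 1 := fun i j => by
    simp only [A, Matrix.of_apply]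
    exact totalDegree_finsetSum_le fun k _ => (totalDegree_mul _ _).trans (by simp)
  obtain ⟨r, a, q, h1, h2⟩ := H 𝕜 hN K φ α l hexp hl A.det
    ((span_deg A hA).trans (by simp)) (by
      rw [← coe_eval₂Hom, RingHom.map_det, ← hdet]
      congr 1
      ext i j
      simp [A, ← hb, Rat.smul_def])
  obtain ⟨w, v, hw, hv, h3⟩ := span_sing (fun i j t => ∑ k, b i j k * q k t) (by
    apply map_injective (algebraMap ℚ K) (algebraMap ℚ K).injective
    rw [map_zero, ← h2, RingHom.map_det, AlgHom.map_det]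
    congr 1
    ext1 i j
    simp only [A, RingHom.mapMatrix_apply, AlgHom.mapMatrix_apply, Matrix.map_apply,
      Matrix.of_apply, map_sum, map_mul, map_C, map_X, aeval_C, aeval_X, eq_ratCast, sum_mul,
      mul_sum, algebraMap_eq]
    rw [sum_comm]
    exact sum_congr rfl fun k _ => sum_congr rfl fun t _ => by ring)
  refine ⟨w, v, hw, hv, ?_⟩
  calc _ = ∑ t, ((∑ i, ∑ j, w i * (∑ k, b i j k * q k t) * v j : ℚ) : 𝕜) * l (a t) := by
        push_cast
        simp only [sum_mul]
        rw [sum_comm (γ := Fin r)]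
        refine sum_congr rfl fun i _ => ?_
        rw [sum_comm (γ := Fin r)]
        refine sum_congr rfl fun j _ => ?_
        have e : M i j = ∑ t, (∑ k, (b i j k : 𝕜) * q k t) * l (a t) := by
          rw [← hb]
          simp only [sum_mul]
          rw [sum_comm]
          refine sum_congr rfl fun k _ => ?_
          rw [Rat.smul_def, h1 k, mul_sum]
          exact sum_congr rfl fun t _ => by ring
        rw [e, mul_sum, sum_mul]
        exact sum_congr rfl fun t _ => by ring
    _ = 0 := by simp [h3]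

end Pool.Agent.Lib.MP_1f047c_nt.TI
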