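import Pool.Agent.Lib.MP_1f047c_nt.ThElim
import Pool.Agent.Lib.MP_1f047c_nt.TIASpan

/-! No relation among elements none of which is related to the smaller ones. -/

open Finset Submodule MvPolynomial

namespace Pool.Agent.Lib.MP_1f047c_nt.Th

variable {𝕜 : Type} [Field 𝕜] [CharZero 𝕜]

/-- Polynomials of degree at most `d` with coefficients in `U`. -/
def Lp (U : Submodule ℚ 𝕜) (d : ℕ) : Submodule ℚ (Polynomial 𝕜) where
  carrier := {P | P.natDegree ≤ d ∧ ∀ e, P.coeff e ∈ U}
  add_mem' h h' := ⟨Polynomial.natDegree_add_le_of_degree_le h.1 h'.1, fun e => by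
    rw [Polynomial.coeff_add]
    exact add_mem (h.2 e) (h'.2 e)⟩
  zero_mem' := ⟨by simp, fun e => by simp⟩
  smul_mem' c P h := ⟨(Polynomial.natDegree_smul_le c P).trans h.1, fun e => by
    rw [Polynomial.coeff_smul]
    exact smul_mem _ _ (h.2 e)⟩

lemma C_mem_Lp {U : Submodule ℚ 𝕜} {z : 𝕜} (h : z ∈ U) (d : ℕ) : Polynomial.C z ∈ Lp U d :=
  ⟨by simp, fun e => by
    rw [Polynomial.coeff_C]
    split_ifs
    · exact h
    · exact zero_mem _⟩

lemma Lp_pow (U : Submodule ℚ 𝕜) (D : ℕ) : Lp U 1 ^ D ≤ Lp (U ^ D) D := by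
  induction D with
  | zero =>
    rw [pow_zero (Lp U 1), pow_zero U, Submodule.one_le, ← Polynomial.C_1]
    exact C_mem_Lp (Submodule.one_le.1 le_rfl) 0
  | succ D ih =>
    rw [pow_succ (Lp U 1), Submodule.mul_le]
    intro P hP Q hQ
    refine ⟨Polynomial.natDegree_mul_le.trans (add_le_add (ih hP).1 hQ.1), fun e => ?_⟩
    rw [Polynomial.coeff_mul, pow_succ U]
    exact sum_mem fun c _ => mul_mem_mul ((ih hP).2 _) (hQ.2 _)

lemma aeval_degree {ι σ K : Type} [Field K] (f : ι → MvPolynomial σ K)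
    (hf : ∀ i, (f i).totalDegree ≤ 1) (F : MvPolynomial ι K) :
    (aeval f F).totalDegree ≤ F.totalDegree := by
  classical
  conv_lhs => rw [F.as_sum, map_sum]
  refine (totalDegree_finsetSum _ _).trans (Finset.sup_le fun β hβ => ?_)
  rw [aeval_monomial, algebraMap_eq]
  refine (totalDegree_mul _ _).trans ?_
  rw [totalDegree_C, zero_add]
  refine (totalDegree_finsetProd _ _).trans (le_trans ?_ (le_totalDegree hβ))
  refine sum_le_sum fun i _ => (totalDegree_pow _ _).trans ?_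
  simpa using Nat.mul_le_mul_left (β i) (hf i)

/-- `y` on `S`, zero elsewhere. -/
def cut (S : Finset ℕ) (y : ℕ → 𝕜) : ℕ → 𝕜 := fun a => if a ∈ S then y a else 0

omit [CharZero 𝕜] in
lemma cut_insert (S : Finset ℕ) (p : ℕ) (y : ℕ → 𝕜) :
    cut (insert p S) y = Function.update (cut S y) p (y p) := by
  funext a
  by_cases h : a = p
  · simp [cut, h]
  · simp [cut, h]

theorem indep {σ : Type} (θ : σ → 𝕜) (lam : ℕ → 𝕜) (D : ℕ) (S : Finset ℕ)
    (h : ∀ p ∈ S, ¬Rel D (Set.range θ ∪ lam '' (S.filter (· < p) : Finset ℕ)) (lam p)) :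
    ∀ F : MvPolynomial (σ ⊕ ℕ) ℚ, F.totalDegree ≤ D → aeval (Sum.elim θ (cut S lam)) F = 0 →
      ∀ y, aeval (Sum.elim θ (cut S y)) F = 0 := by
  induction S using Finset.induction_on_max with
  | empty => exact fun F _ hF y => hF
  | insert p S hp ih =>
    intro F hD hF y
    have ih' := ih fun q hq => by
      have := h q (mem_insert_of_mem hq)
      rwa [filter_insert, if_neg (hp q hq).not_gt] at this
    have h1 := h p (mem_insert_self _ _)
    rw [filter_insert, if_neg (lt_irrefl p), filter_true_of_mem hp] at h1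
    let g : (ℕ → 𝕜) → σ ⊕ ℕ → Polynomial 𝕜 := fun z => Sum.elim (fun i => Polynomial.C (θ i))
      fun a => if a = p then Polynomial.X else Polynomial.C (z a)
    have e1 : ∀ (z : ℕ → 𝕜) (t : 𝕜), (aeval (g z) F).eval t =
        aeval (Sum.elim θ (Function.update z p t)) F := fun z t => by
      have := comp_aeval_apply (f := g z) ((Polynomial.aeval t).restrictScalars ℚ) F
      rw [AlgHom.restrictScalars_apply, Polynomial.coe_aeval_eq_eval] at this
      rw [this]
      congr 2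
      funext v
      rcases v with i | a
      · simp [g]
      · by_cases ha : a = p <;> simp [g, ha]
    let f : ℚ → σ ⊕ ℕ → MvPolynomial (σ ⊕ ℕ) ℚ := fun t => Sum.elim (fun i => X (Sum.inl i))
      fun a => if a = p then C t else X (Sum.inr a)
    have e2 : ∀ (z : ℕ → 𝕜) (t : ℚ), aeval (Sum.elim θ z) (aeval (f t) F) =
        aeval (Sum.elim θ (Function.update z p t)) F := fun z t => by
      rw [comp_aeval_apply]
      congr 2
      funext v
      rcases v with i | a
      · simp [f]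
      · by_cases ha : a = p <;> simp [f, ha]
    have e3 : ∀ t v, (f t v).totalDegree ≤ 1 := fun t v => by
      rcases v with i | a
      · simp [f]
      · by_cases ha : a = p <;> simp [f, ha]
    have h2 : aeval (g (cut S lam)) F = 0 := by
      by_contra h0
      have hm := Lp_pow _ D (aeval_mem (L := Lp (V (Set.range θ ∪ lam '' S)) 1)
        (C_mem_Lp (one_mem_V _) 1) (g (cut S lam)) (fun v => ?_) F hD)
      · exact h1 ⟨_, h0, hm.1, hm.2, by rw [e1, ← cut_insert, hF]⟩
      · rcases v with i | a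
        · exact C_mem_Lp (mem_V (Set.mem_union_left _ (Set.mem_range_self i))) 1
        · simp only [g, Sum.elim_inr, cut]
          split_ifs with h3 h4
          · refine ⟨by simp, fun e => ?_⟩
            rw [Polynomial.coeff_X]
            split_ifs
            · exact one_mem_V _
            · exact zero_mem _
          · exact C_mem_Lp (mem_V (Set.mem_union_right _ (Set.mem_image_of_mem lam h4))) 1
          · exact C_mem_Lp (zero_mem _) 1
    have h3 : aeval (g (cut S y)) F = 0 := by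
      refine Polynomial.eq_zero_of_infinite_isRoot _
        ((Set.infinite_range_of_injective (Rat.cast_injective (α := 𝕜))).mono ?_)
      rintro _ ⟨t, rfl⟩
      change Polynomial.eval _ _ = 0
      rw [e1, ← e2]
      exact ih' _ ((aeval_degree _ (e3 t) F).trans hD) (by rw [e2, ← e1, h2, Polynomial.eval_zero]) y
    rw [cut_insert, ← e1, h3, Polynomial.eval_zero]

theorem indep_fin {N r D : ℕ} (lam : Fin N → 𝕜)
    (h : ∀ k : Fin N, r ≤ k → ¬Rel D (lam '' Set.Iio k) (lam k)) (G : MvPolynomial (Fin N) ℚ)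
    (hG : G.totalDegree ≤ D) (h0 : aeval lam G = 0) (y : Fin N → 𝕜)
    (hy : ∀ j : Fin N, (j : ℕ) < r → y j = lam j) : aeval y G = 0 := by
  let ex : (Fin N → 𝕜) → ℕ → 𝕜 := fun z a => if h : a < N then z ⟨a, h⟩ else 0
  let θ : {j : Fin N // (j : ℕ) < r} → 𝕜 := fun j => lam j
  let u : Fin N → {j : Fin N // (j : ℕ) < r} ⊕ ℕ :=
    fun k => if h : (k : ℕ) < r then Sum.inl ⟨k, h⟩ else Sum.inr k
  have e : ∀ z : Fin N → 𝕜, (∀ j : Fin N, (j : ℕ) < r → z j = lam j) →
      aeval (Sum.elim θ (cut (Ico r N) (ex z))) (rename u G) = aeval z G := fun z hz => by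
    rw [aeval_rename]
    congr 2
    funext k
    by_cases hk : (k : ℕ) < r
    · simp [u, θ, hk, hz k hk]
    · simp [u, ex, cut, hk, not_lt.1 hk]
  rw [← e y hy]
  refine indep θ (ex lam) D (Ico r N) (fun p hp hR => ?_) _ ((totalDegree_rename_le _ _).trans hG)
    (by rw [e lam fun _ _ => rfl, h0]) _
  obtain ⟨h1, h2⟩ := mem_Ico.1 hp
  refine h ⟨p, h2⟩ h1 ?_
  rw [show ex lam p = lam ⟨p, h2⟩ from dif_pos h2] at hR
  refine hR.mono le_rfl ?_
  rintro _ (⟨j, rfl⟩ | ⟨a, ha, rfl⟩)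
  · exact ⟨j, Fin.lt_def.2 (j.2.trans_le h1), rfl⟩
  · have h3 := (mem_filter.1 ha).2
    exact ⟨⟨a, h3.trans h2⟩, Fin.lt_def.2 h3, by simp [ex, h3.trans h2]⟩

lemma sing_of {n N : ℕ} (B : Fin N → Matrix (Fin n) (Fin n) ℚ) {g : MvPolynomial (Fin N) ℚ}
    (hg : g ≠ 0) (h : ∀ x, eval x g ≠ 0 → (Matrix.of fun i j => ∑ k, B k i j * x k).det = 0)
    (lam : Fin N → 𝕜) : ∃ w v : Fin n → ℚ, w ≠ 0 ∧ v ≠ 0 ∧
      ∑ i, ∑ j, (w i : 𝕜) * (∑ k, (B k i j : 𝕜) * lam k) * (v j : 𝕜) = 0 := by
  obtain ⟨w, v, hw, hv, h3⟩ := TI.span_sing (fun i j k => B k i j) (by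
    refine (mul_eq_zero.1 (MvPolynomial.funext fun x => ?_)).resolve_left hg
    rw [map_zero, map_mul]
    refine mul_eq_zero.2 (or_iff_not_imp_left.2 fun h0 => ?_)
    rw [RingHom.map_det, ← h x h0]
    congr 1
    ext i j
    simp)
  refine ⟨w, v, hw, hv, ?_⟩
  calc _ = ∑ t, ((∑ i, ∑ j, w i * B t i j * v j : ℚ) : 𝕜) * lam t := by
        push_cast
        simp only [sum_mul]
        rw [sum_comm (γ := Fin N)]
        refine sum_congr rfl fun i _ => ?_
        rw [sum_comm (γ := Fin N)]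
        refine sum_congr rfl fun j _ => ?_
        rw [mul_sum, sum_mul]
        exact sum_congr rfl fun t _ => by ring
    _ = 0 := by simp [h3]

lemma det_cast {n N : ℕ} (B : Fin N → Matrix (Fin n) (Fin n) ℚ) (x : Fin N → ℚ) {s : 𝕜}
    (hs : s ≠ 0) (h : (Matrix.of fun i j => ∑ k, (B k i j : 𝕜) * (s * x k)).det = 0) :
    (Matrix.of fun i j => ∑ k, B k i j * x k).det = 0 := by
  have h5 : (Matrix.of fun i j => ∑ k, (B k i j : 𝕜) * (s * x k)) =
      s • (algebraMap ℚ 𝕜).mapMatrix (Matrix.of fun i j => ∑ k, B k i j * x k) := by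
    ext i j
    simp only [Matrix.of_apply, Matrix.smul_apply, RingHom.mapMatrix_apply, Matrix.map_apply,
      map_sum, map_mul, eq_ratCast, smul_eq_mul, mul_sum]
    exact sum_congr rfl fun k _ => by ring
  rw [h5, Matrix.det_smul, ← RingHom.map_det, mul_eq_zero] at h
  exact (algebraMap ℚ 𝕜).injective ((h.resolve_left (pow_ne_zero _ hs)).trans (map_zero _).symm)

lemma low_one {n N r : ℕ} (hr : r ≤ 1) (B : Fin N → Matrix (Fin n) (Fin n) ℚ) (lam : Fin N → 𝕜)
    (h : ∀ y : Fin N → 𝕜, (∀ j : Fin N, (j : ℕ) < r → y j = lam j) →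
      (Matrix.of fun i j => ∑ k, (B k i j : 𝕜) * y k).det = 0) :
    ∃ w v : Fin n → ℚ, w ≠ 0 ∧ v ≠ 0 ∧
      ∑ i, ∑ j, (w i : 𝕜) * (∑ k, (B k i j : 𝕜) * lam k) * (v j : 𝕜) = 0 := by
  by_cases h0 : ∃ j : Fin N, (j : ℕ) < r ∧ lam j ≠ 0
  · obtain ⟨j, hj, h0⟩ := h0
    refine sing_of B (X_ne_zero j) (fun x hx => ?_) lam
    rw [eval_X] at hx
    have h2 : (x j : 𝕜) ≠ 0 := by exact_mod_cast hx
    refine det_cast B x (div_ne_zero h0 h2) (h _ fun k hk => ?_)
    rw [show k = j from Fin.ext (by omega), div_mul_cancel₀ _ h2]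
  · push Not at h0
    have e : ∀ (y : Fin N → 𝕜) i j, ∑ k : Fin N, (((if (k : ℕ) < r then 0 else B k) i j : ℚ) : 𝕜) *
        y k = ∑ k : Fin N, (B k i j : 𝕜) * if (k : ℕ) < r then 0 else y k := fun y i j =>
      sum_congr rfl fun k _ => by split_ifs <;> simp
    have := sing_of (fun k => if (k : ℕ) < r then 0 else B k) one_ne_zero (fun x _ =>
      det_cast (𝕜 := 𝕜) _ x one_ne_zero (by
        simp only [e]
        exact h _ fun j hj => by rw [if_pos hj, h0 j hj])) lam
    have e' : ∀ k : Fin N, (if (k : ℕ) < r then 0 else lam k) = lam k := fun k => by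
      split_ifs with hk
      · exact (h0 k hk).symm
      · rfl
    simpa only [e, e'] using this

lemma corank_one {n : ℕ} (B : Matrix (Fin n) (Fin n) ℚ) (hB : n ≤ B.rank + 1)
    (M : Matrix (Fin n) (Fin n) 𝕜) (h : ∀ t : 𝕜, (Matrix.of fun i j => M i j + t * B i j).det = 0) :
    ∃ w v : Fin n → ℚ, w ≠ 0 ∧ v ≠ 0 ∧ ∑ i, ∑ j, (w i : 𝕜) * M i j * (v j : 𝕜) = 0 := by
  classical
  let P : Matrix (Fin n) (Fin n) (Polynomial 𝕜) :=
    Matrix.of fun i j => Polynomial.C (B i j : 𝕜) + Polynomial.C (M i j) * Polynomial.X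
  have hP : P.det = 0 := by
    refine Polynomial.eq_zero_of_infinite_isRoot _
      ((Set.finite_singleton (0 : 𝕜)).infinite_compl.mono fun s hs => ?_)
    have e : (Polynomial.evalRingHom s).mapMatrix P =
        s • Matrix.of fun i j => M i j + s⁻¹ * B i j := by
      ext i j
      have := mul_inv_cancel_left₀ (show s ≠ 0 from hs) (B i j : 𝕜)
      simp only [P, RingHom.mapMatrix_apply, Matrix.map_apply, Matrix.of_apply, Matrix.smul_apply,
        Polynomial.coe_evalRingHom, Polynomial.eval_add, Polynomial.eval_mul, Polynomial.eval_C,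
        Polynomial.eval_X, smul_eq_mul, mul_add, this]
      ring
    change Polynomial.evalRingHom s P.det = 0
    rw [RingHom.map_det, e, Matrix.det_smul, h, mul_zero]
  obtain ⟨u, hu, h1⟩ := Matrix.exists_mulVec_eq_zero_iff.2 hP
  have hex : ∃ e, ∃ l, (u l).coeff e ≠ 0 := by
    by_contra h2
    push Not at h2
    exact hu (funext fun l => Polynomial.ext fun e => h2 e l)
  obtain ⟨l0, hl0⟩ := Nat.find_spec hex
  have hmin : ∀ e < Nat.find hex, ∀ l, (u l).coeff e = 0 := fun e he l => by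
    simpa using not_exists.1 (Nat.find_min hex he) l
  generalize Nat.find hex = e at hl0 hmin
  have c0 : ∀ i d, ∑ l, ((B i l : 𝕜) * (u l).coeff d + M i l * (Polynomial.X * u l).coeff d) = 0 :=
    fun i d => by
    have := congrArg (fun q : Polynomial 𝕜 => q.coeff d) (congrFun h1 i)
    simpa [P, Matrix.mulVec, dotProduct, add_mul, mul_assoc] using this
  have c1 : ∀ i, ∑ l, (B i l : 𝕜) * (u l).coeff e = 0 := fun i => by
    rw [← c0 i e]
    refine sum_congr rfl fun l _ => ?_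
    rcases e with _ | e
    · simp
    · rw [Polynomial.coeff_X_mul, hmin e e.lt_succ_self, mul_zero, add_zero]
  have hd : B.det = 0 := by
    refine (algebraMap ℚ 𝕜).injective ?_
    rw [RingHom.map_det, map_zero]
    exact Matrix.exists_mulVec_eq_zero_iff.1 ⟨fun l => (u l).coeff e,
      fun h0 => hl0 (congrFun h0 l0), funext fun i => c1 i⟩
  obtain ⟨v, hv, h2⟩ := Matrix.exists_mulVec_eq_zero_iff.2 hd
  obtain ⟨w, hw, h3⟩ := Matrix.exists_vecMul_eq_zero_iff.2 hd
  have hk : Module.finrank ℚ (LinearMap.ker B.mulVecLin) ≤ 1 := by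
    have := LinearMap.finrank_range_add_finrank_ker B.mulVecLin
    rw [Module.finrank_fin_fun] at this
    unfold Matrix.rank at hB
    omega
  obtain ⟨g, hg⟩ := finrank_le_one_iff.1 hk
  have c2 : ∀ j, (v j : 𝕜) * (u l0).coeff e = (v l0 : 𝕜) * (u j).coeff e := fun j => by
    rw [← sub_eq_zero, ← Module.forall_dual_apply_eq_zero_iff ℚ]
    intro π
    obtain ⟨a, ha⟩ := hg ⟨v, h2⟩
    obtain ⟨b, hb⟩ := hg ⟨fun l => π ((u l).coeff e), funext fun i => by
      simpa [← Rat.smul_def, Matrix.mulVec, dotProduct] using congrArg π (c1 i)⟩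
    have a1 := fun l => congrFun (congrArg Subtype.val ha) l
    have b1 := fun l => congrFun (congrArg Subtype.val hb) l
    simp only [Submodule.coe_smul, Pi.smul_apply, smul_eq_mul] at a1 b1
    rw [← Rat.smul_def, ← Rat.smul_def, map_sub, map_smul, map_smul, ← a1, ← a1, ← b1, ← b1]
    simp only [smul_eq_mul]
    ring
  refine ⟨w, v, hw, hv, mul_right_cancel₀ hl0 ?_⟩
  have c3 : ∀ l, ∑ i, (w i : 𝕜) * B i l = 0 := fun l => by
    exact_mod_cast congrFun h3 l
  calc _ = (v l0 : 𝕜) * (∑ i, (w i : 𝕜) * ∑ l, ((B i l : 𝕜) * (u l).coeff (e + 1) +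
          M i l * (Polynomial.X * u l).coeff (e + 1)) -
          ∑ l, (∑ i, (w i : 𝕜) * B i l) * (u l).coeff (e + 1)) := by
        simp only [mul_sum, sum_mul, Polynomial.coeff_X_mul]
        rw [sum_comm (γ := Fin n) (f := fun l i => (w i : 𝕜) * B i l * (u l).coeff (e + 1)),
          ← sum_sub_distrib, mul_sum]
        refine sum_congr rfl fun i _ => ?_
        rw [← sum_sub_distrib, mul_sum]
        refine sum_congr rfl fun l _ => ?_
        rw [mul_assoc, c2]
        ring
    _ = _ := by simp only [c0, c3, mul_zero, zero_mul, sum_const_zero, sub_zero]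

theorem matrix_of {n N r D : ℕ} (hn : n ≤ D) (lam : Fin N → 𝕜)
    (h : ∀ k : Fin N, r ≤ k → ¬Rel D (lam '' Set.Iio k) (lam k))
    (B : Fin N → Matrix (Fin n) (Fin n) ℚ)
    (hB : r ≤ 1 ∨ ∃ x : Fin N → ℚ, (∀ k : Fin N, (k : ℕ) < r → x k = 0) ∧
      n ≤ (∑ k, x k • B k).rank + 1)
    (M : Matrix (Fin n) (Fin n) 𝕜) (hM : ∀ i j, M i j = ∑ k, (B k i j : 𝕜) * lam k)
    (hdet : M.det = 0) :
    ∃ w v : Fin n → ℚ, w ≠ 0 ∧ v ≠ 0 ∧ ∑ i, ∑ j, (w i : 𝕜) * M i j * (v j : 𝕜) = 0 := by
  let A : Matrix (Fin n) (Fin n) (MvPolynomial (Fin N) ℚ) :=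
    Matrix.of fun i j => ∑ k, C (B k i j) * X k
  have hA : ∀ i j, (A i j).totalDegree ≤ 1 := fun i j => by
    simp only [A, Matrix.of_apply]
    exact totalDegree_finsetSum_le fun k _ => (totalDegree_mul _ _).trans (by simp)
  have ev : ∀ y : Fin N → 𝕜, aeval y A.det =
      (Matrix.of fun i j => ∑ k, (B k i j : 𝕜) * y k).det := fun y => by
    rw [AlgHom.map_det]
    congr 1
    ext i j
    simp [A]
  have H := indep_fin lam h A.det ((TI.span_deg A hA).trans (by simpa))
    (by rw [ev, ← hdet]; congr 1; ext i j; exact (hM i j).symm)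
  simp only [ev] at H
  rcases hB with hr | ⟨x, hx, hB⟩
  · simpa only [hM] using low_one hr B lam H
  · refine corank_one _ hB M fun t => ?_
    rw [← H (fun k => lam k + t * x k) fun j hj => by simp [hx j hj]]
    congr 1
    ext i j
    simp only [Matrix.of_apply, hM, Matrix.sum_apply, Matrix.smul_apply, smul_eq_mul, Rat.cast_sum,
      Rat.cast_mul, mul_sum, ← sum_add_distrib]
    exact sum_congr rfl fun k _ => by ring

end Pool.Agent.Lib.MP_1f047c_nt.Th
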