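import Pool.Agent.Lib.MP_1f047c_nt.ExMain
import Pool.Agent.Lib.MP_1f047c_nt.ThInd
import Pool.Agent.Lib.MP_8f9d9d_nt.H56Span

/-! Consequences: the matrix form and the number of exceptional tuples. -/

open Finset Submodule Module Filter MvPolynomial

namespace Pool.Agent.Lib.MP_1f047c_nt.Ex

open Th Pool.Agent.Lib.MP_8f9d9d_nt.H56

section Field

variable {𝕜 : Type} [Field 𝕜] [CharZero 𝕜]

theorem q1_of {n N : ℕ} {W : Submodule ℚ 𝕜} {l : Fin N → 𝕜}
    (h : ∀ F : MvPolynomial (Fin N) ℚ, F.totalDegree ≤ n → aeval l F = 0 → ∀ y : Fin N → 𝕜,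
      (∀ m : Fin N → ℚ, ∑ k, (m k : 𝕜) * l k ∈ W → ∑ k, (m k : 𝕜) * y k = ∑ k, (m k : 𝕜) * l k) →
        aeval y F = 0)
    (hW : finrank ℚ ↥(span ℚ (Set.range l) ⊓ W) ≤ 1) (M : Matrix (Fin n) (Fin n) 𝕜)
    (hM : ∀ i j, M i j ∈ span ℚ (Set.range l)) (hdet : M.det = 0) :
    ∃ w v : Fin n → ℚ, w ≠ 0 ∧ v ≠ 0 ∧ ∑ i, ∑ j, (w i : 𝕜) * M i j * (v j : 𝕜) = 0 := by
  choose B hB using fun i j => (mem_span_range_iff_exists_fun ℚ).1 (hM i j)
  let A : Matrix (Fin n) (Fin n) (MvPolynomial (Fin N) ℚ) :=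
    Matrix.of fun i j => ∑ k, C (B i j k) * X k
  have hA : ∀ i j, (A i j).totalDegree ≤ 1 := fun i j => by
    simp only [A, Matrix.of_apply]
    exact totalDegree_finsetSum_le fun k _ => (totalDegree_mul _ _).trans (by simp)
  have ev : ∀ y : Fin N → 𝕜, aeval y A.det =
      (Matrix.of fun i j => ∑ k, (B i j k : 𝕜) * y k).det := fun y => by
    rw [AlgHom.map_det]
    congr 1
    ext i j
    simp [A]
  have H := h A.det ((TI.span_deg A hA).trans (by simp))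
    (by rw [ev, ← hdet]; congr 1; ext i j; simp [← hB, Rat.smul_def])
  simp only [ev] at H
  have f1 := FiniteDimensional.span_of_finite ℚ (Set.finite_range l)
  let b := finBasis ℚ (span ℚ (Set.range l))
  let u : Fin N → span ℚ (Set.range l) := fun k => ⟨l k, subset_span ⟨k, rfl⟩⟩
  obtain ⟨⟨ν, h1, h2⟩, hν⟩ := finrank_le_one_iff.1 hW
  obtain ⟨g, hg, hx⟩ : ∃ g : MvPolynomial (Fin (finrank ℚ (span ℚ (Set.range l)))) ℚ, g ≠ 0 ∧
      ∀ x, eval x g ≠ 0 → ∃ s : 𝕜, s ≠ 0 ∧ s * (b.constr ℚ x ⟨ν, h1⟩ : ℚ) = ν := by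
    by_cases h0 : (⟨ν, h1⟩ : span ℚ (Set.range l)) = 0
    · exact ⟨1, one_ne_zero, fun x _ => ⟨1, one_ne_zero, by
        rw [h0, map_zero, Rat.cast_zero, mul_zero]; exact (congrArg Subtype.val h0).symm⟩⟩
    have e : ∀ x, eval x (∑ j, C (b.equivFun ⟨ν, h1⟩ j) * X j) = b.constr ℚ x ⟨ν, h1⟩ :=
      fun x => by simp
    refine ⟨∑ j, C (b.equivFun ⟨ν, h1⟩ j) * X j, fun h3 =>
      h0 (b.equivFun.map_eq_zero_iff.1 (funext fun j => ?_)), fun x hx => ?_⟩
    · simpa [Pi.single_apply] using congrArg (eval (Pi.single j 1)) h3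
    · rw [e] at hx
      have : ((b.constr ℚ x ⟨ν, h1⟩ : ℚ) : 𝕜) ≠ 0 := by exact_mod_cast hx
      exact ⟨_, div_ne_zero (fun h3 => h0 (Subtype.ext h3)) this, div_mul_cancel₀ _ this⟩
  have e2 : ∀ (π : span ℚ (Set.range l) →ₗ[ℚ] 𝕜) i j, ∑ t, ((b.equivFun ⟨M i j, hM i j⟩ t : ℚ) : 𝕜) *
      π (b t) = ∑ k, (B i j k : 𝕜) * π (u k) := fun π i j => by
    simp only [← Rat.smul_def, ← map_smul, ← map_sum, b.sum_equivFun]
    exact congrArg π (Subtype.ext (by simp [u, hB]))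
  have := sing_of (fun t => Matrix.of fun i j => b.equivFun ⟨M i j, hM i j⟩ t) hg (fun x h3 => by
    obtain ⟨s, hs, h4⟩ := hx x h3
    let π : span ℚ (Set.range l) →ₗ[ℚ] 𝕜 := (b.constr ℚ x).smulRight s
    refine det_cast _ x hs ((congrArg Matrix.det ?_).trans (H (fun k => π (u k)) fun m hm => ?_))
    · ext i j
      simp only [Matrix.of_apply, ← e2]
      simp [π, Rat.smul_def, mul_comm]
    · simp only [← Rat.smul_def, ← map_smul, ← map_sum] at hm ⊢
      obtain ⟨c, hc⟩ := hν ⟨_, sum_mem fun k _ => smul_mem _ _ (u k).2, hm⟩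
      have h5 : c • ν = ∑ k, m k • l k := congrArg Subtype.val hc
      rw [show ∑ k, m k • u k = c • ⟨ν, h1⟩ from Subtype.ext (by simp [u, h5]), map_smul, ← h5]
      exact congrArg (c • ·) (((Rat.smul_def _ _).trans (mul_comm _ _)).trans h4))
    fun t => (b t : 𝕜)
  have e3 := e2 (span ℚ (Set.range l)).subtype
  simp only [subtype_apply, u] at e3
  simpa only [Matrix.of_apply, e3, ← Rat.smul_def (B _ _ _), hB] using this

lemma few_gen [DecidableEq 𝕜] {N j : ℕ} (l : Fin N → 𝕜) (W : Finset 𝕜)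
    (h : j ≤ finrank ℚ ↥(span ℚ (Set.range l) ⊓ span ℚ (W : Set 𝕜))) :
    ∃ g : Fin (N - j) → Fin N, ∀ k, l k ∈ span ℚ ((univ.image (l ∘ g) ∪ W : Finset 𝕜) : Set 𝕜) := by
  obtain ⟨t, h1, h2⟩ : ∃ t : Finset (Fin N), (∀ k ∈ univ, l k ∈
      span ℚ ((t.image l ∪ W : Finset 𝕜) : Set 𝕜)) ∧ t.card + finrank ℚ (span ℚ (W : Set 𝕜)) ≤
        finrank ℚ (span ℚ ((t.image l ∪ W : Finset 𝕜) : Set 𝕜)) := by
    generalize (univ : Finset (Fin N)) = s
    induction s using Finset.induction_on with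
    | empty => exact ⟨∅, by simp, by rw [image_empty, empty_union, card_empty, zero_add]⟩
    | insert i s _ ih =>
      obtain ⟨t, h1, h2⟩ := ih
      by_cases h3 : l i ∈ span ℚ ((t.image l ∪ W : Finset 𝕜) : Set 𝕜)
      · exact ⟨t, forall_mem_insert _ _ _ |>.2 ⟨h3, h1⟩, h2⟩
      have h4 := rk_lt h3
      have h5 := card_insert_le i t
      refine ⟨insert i t, ?_⟩
      rw [image_insert, insert_union]
      exact ⟨forall_mem_insert _ _ _ |>.2 ⟨subset_span (mem_coe.2 (mem_insert_self _ _)),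
        fun k hk => span_mono (coe_subset.2 (subset_insert _ _)) (h1 k hk)⟩, by omega⟩
  have f1 := FiniteDimensional.span_of_finite ℚ (Set.finite_range l)
  have h3 := finrank_sup_add_finrank_inf_eq (span ℚ (Set.range l)) (span ℚ (W : Set 𝕜))
  have h4 : finrank ℚ (span ℚ (Set.range l)) ≤ N := (finrank_range_le_card l).trans (by simp)
  have h5 : finrank ℚ (span ℚ ((t.image l ∪ W : Finset 𝕜) : Set 𝕜)) ≤
      finrank ℚ ↥(span ℚ (Set.range l) ⊔ span ℚ (W : Set 𝕜)) := finrank_mono (by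
    rw [coe_union, span_union, coe_image]
    exact sup_le_sup_right (span_mono (Set.image_subset_range _ _)) _)
  obtain ⟨t', h6, -, h7⟩ := exists_subsuperset_card_eq (subset_univ t) (n := N - j) (by omega)
    (by simp)
  refine ⟨t'.orderEmbOfFin h7, fun k => span_mono (coe_subset.2 (union_subset_union_left ?_))
    (h1 k (mem_univ k))⟩
  rw [← image_image, image_orderEmbOfFin_univ]
  exact image_subset_image h6

lemma prod_ne {W : Submodule ℚ 𝕜} {l : Fin 2 → 𝕜} (hl : LinearIndependent ℚ l)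
    (hW : finrank ℚ ↥(span ℚ (Set.range l) ⊓ W) ≤ 1) : ∃ y : Fin 2 → 𝕜,
      (∀ m : Fin 2 → ℚ, ∑ k, (m k : 𝕜) * l k ∈ W → ∑ k, (m k : 𝕜) * y k = ∑ k, (m k : 𝕜) * l k) ∧
        y 0 * y 1 ≠ l 0 * l 1 := by
  have f1 := FiniteDimensional.span_of_finite ℚ (Set.finite_range l)
  have h0 : ∀ a b : ℚ, (a : 𝕜) * l 0 + b * l 1 = 0 → a = 0 ∧ b = 0 := fun a b h =>
    Fin.forall_fin_two.1 (Fintype.linearIndependent_iff.1 hl ![a, b] (by simpa [Rat.smul_def]))
  obtain ⟨⟨ν, h1, h2⟩, hν⟩ := finrank_le_one_iff.1 hW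
  obtain ⟨n, rfl⟩ := (mem_span_range_iff_exists_fun ℚ).1 h1
  obtain ⟨a, b, h3, h4⟩ : ∃ a b : ℚ, ¬(a = 0 ∧ b = 0) ∧ n 0 * a + n 1 * b = 0 := by
    by_cases h : n 1 = 0
    · exact ⟨0, 1, by simp, by simp [h]⟩
    · exact ⟨n 1, -n 0, fun h' => h h'.1, by ring⟩
  have h5 : ∀ s : 𝕜, ∀ m : Fin 2 → ℚ, ∑ k, (m k : 𝕜) * l k ∈ W →
      ∑ k, (m k : 𝕜) * ![l 0 + s * a, l 1 + s * b] k = ∑ k, (m k : 𝕜) * l k := fun s m hm => by
    obtain ⟨c, hc⟩ := hν ⟨_, sum_mem fun k _ => Rat.smul_def (m k) (l k) ▸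
      smul_mem _ _ (subset_span ⟨k, rfl⟩), hm⟩
    have h6 := congrArg Subtype.val hc
    simp only [SetLike.mk_smul_mk, Fin.sum_univ_two, Rat.smul_def] at h6
    obtain ⟨h7, h8⟩ := h0 (m 0 - c * n 0) (m 1 - c * n 1) (by push_cast; linear_combination -h6)
    have h9 : (m 0 : 𝕜) * a + m 1 * b = 0 := by
      exact_mod_cast (by linear_combination a * h7 + b * h8 + c * h4 : m 0 * a + m 1 * b = 0)
    simp only [Fin.sum_univ_two, Matrix.cons_val_zero, Matrix.cons_val_one]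
    linear_combination s * h9
  by_contra h
  push Not at h
  have h6 := h _ (h5 1)
  have h7 := h _ (h5 (-1))
  simp only [Matrix.cons_val_zero, Matrix.cons_val_one] at h6 h7
  exact h3 (h0 b a (by linear_combination (h6 - h7) / 2)).symm

end Field

open Complex

theorem span_count' (d R : ℕ) : ∃ c : ℕ, ∀ (M : ℕ) (b : ℝ), b ≤ M → ∀ Θ X : Finset ℂ,
    Θ.card ≤ R → (∀ z ∈ X, z ∈ span ℚ (Θ : Set ℂ) ∧ Alg d b (exp z) ∧ ‖z‖ ≤ b) →
    X.card ≤ c * (c * M + 3) ^ R := by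
  classical
  obtain ⟨D, hD⟩ : ∃ D, (d + 1) ^ (R + 2) = D := ⟨_, rfl⟩
  refine ⟨(north D).toFinset.card + 2 * (R * D), fun M b hb Θ X hΘ h => ?_⟩
  obtain ⟨κ, _, x, h1, h2, h3⟩ := auer X Θ fun z hz => (h z hz).1
  choose! t h3 h4 using h3
  obtain ⟨N, hN⟩ : ∃ N, R * D * M + 1 = N := ⟨_, rfl⟩
  have N0 : (0 : ℝ) < N := Nat.cast_pos.2 (by omega)
  have hη := inv_pos.2 N0
  refine (card_le_mul_card_image_of_maps_to (f := fun z i => ⌊(t z i : ℝ) / (N : ℝ)⁻¹⌋)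
    (t := Fintype.piFinset fun _ => Icc (-(N : ℤ)) N) (fun z hz => Fintype.mem_piFinset.2 fun i =>
      floor_mem hη (by rw [mul_inv_cancel₀ N0.ne']; exact_mod_cast h3 z hz i))
    (north D).toFinset.card fun u _ => ?_).trans (Nat.mul_le_mul (Nat.le_add_right _ _) ?_)
  · rcases (X.filter fun z => (fun i => ⌊(t z i : ℝ) / (N : ℝ)⁻¹⌋) = u).eq_empty_or_nonempty with
      e | ⟨z', hz'⟩
    · exact (card_eq_zero.2 e).trans_le (Nat.zero_le _)
    refine (card_le_card (t := (north D).toFinset.image fun f => log f + z')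
      fun z hz => ?_).trans card_image_le
    obtain ⟨k1, k2⟩ := mem_filter.1 hz
    obtain ⟨k3, k4⟩ := mem_filter.1 hz'
    have k5 : z - z' = ∑ i, (t z - t z') i • x i := by
      simp only [Pi.sub_apply, sub_smul, sum_sub_distrib, ← h4 z k1, ← h4 z' k3]
    have k6 : ∀ i, |((t z - t z') i : ℝ)| ≤ (N : ℝ)⁻¹ := fun i => by
      rw [Pi.sub_apply, Rat.cast_sub]
      exact floor_close hη (congrFun (k2.trans k4.symm) i)
    have k7 : R * ((N : ℝ)⁻¹ * (D * b)) ≤ 1 := by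
      rw [mul_left_comm, inv_mul_le_one₀ N0, ← hN]
      push_cast
      nlinarith [mul_le_mul_of_nonneg_left hb (show (0 : ℝ) ≤ R * D by positivity)]
    have b0 := (norm_nonneg _).trans (h z k1).2.2
    have k8 : ‖z - z'‖ ≤ 1 := by
      rw [k5]
      refine (norm_sum_le _ _).trans ((sum_le_card_nsmul _ _ ((N : ℝ)⁻¹ * (D * b))
        fun i _ => ?_).trans (le_trans ?_ k7))
      · rw [Rat.smul_def, norm_mul, norm_ratCast]
        exact mul_le_mul (k6 i) ((h _ (h2 i)).2.2.trans (le_mul_of_one_le_left b0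
          (by exact_mod_cast hD ▸ Nat.one_le_pow' _ _))) (norm_nonneg _) hη.le
      · rw [nsmul_eq_mul]
        exact mul_le_mul_of_nonneg_right (by exact_mod_cast h1.trans hΘ) (by positivity)
    have k9 := abs_le.1 ((abs_im_le_norm _).trans k8)
    exact mem_image.2 ⟨exp (z - z'), (north D).mem_toFinset.2 (hD ▸ close (h1.trans hΘ)
      (fun i => (h _ (h2 i)).2.1) (h z k1).2.1 (h z' k3).2.1 k5 hη.le k6 (hD.symm ▸ k7)), by
        rw [log_exp (by linarith [Real.pi_gt_three]) (by linarith [Real.pi_gt_three]),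
          sub_add_cancel]⟩
  · rw [Fintype.card_piFinset, prod_const, card_univ, Int.card_Icc]
    refine (Nat.pow_le_pow_left ?_ _).trans (Nat.pow_le_pow_right (by omega) (h1.trans hΘ))
    rw [add_mul, mul_assoc 2]
    omega

/-- few tuples span a space that meets one of few small spaces in dimension `j` -/
theorem meet_count (N R d j : ℕ) {ε : ℝ} (hε : 0 < ε) : ∀ᶠ H : ℕ in atTop, ∀ L : Finset ℂ,
    (∀ z ∈ L, Alg d (Real.log H) (exp z) ∧ ‖z‖ ≤ Real.log H) →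
    ∀ W : Finset ℂ, W.card ≤ R → ∀ S : Finset (Fin N → ℂ), (∀ l ∈ S, (∀ k, l k ∈ L) ∧
      j ≤ finrank ℚ ↥(span ℚ (Set.range l) ⊓ span ℚ (W : Set ℂ))) →
      (S.card : ℝ) ≤ (H : ℝ) ^ ε * L.card ^ (N - j) := by
  classical
  obtain ⟨c, hs⟩ := span_count' d (N + R)
  obtain ⟨δ, hδ⟩ : ∃ δ, ε / ((N + R + 1) * N + 1 : ℕ) = δ := ⟨_, rfl⟩
  have δ0 : 0 < δ := by rw [← hδ]; positivity
  have t1 := tendsto_natCast_atTop_atTop.eventually
    ((isLittleO_log_rpow_atTop δ0).bound (c := 1 / (2 * (c + 1))) (by positivity))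
  have t2 : Tendsto (fun y : ℕ => (y : ℝ) ^ δ) atTop atTop :=
    (tendsto_rpow_atTop δ0).comp tendsto_natCast_atTop_atTop
  filter_upwards [t1, t2.eventually_ge_atTop (2 * (c + 3)), eventually_ge_atTop 1]
    with y h1 h2 hy L hL W hW S hS
  have hy1 : (1 : ℝ) ≤ y := by exact_mod_cast hy
  have hl := Real.log_nonneg hy1
  rw [Real.norm_of_nonneg hl, Real.norm_of_nonneg (by positivity)] at h1
  rw [show (y : ℝ) ^ ε = ((y : ℝ) ^ δ) ^ ((N + R + 1) * N + 1) by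
    rw [← Real.rpow_mul_natCast (by positivity), ← hδ, div_mul_cancel₀ _ (by positivity)]]
  generalize (y : ℝ) ^ δ = u at h1 h2
  have c0 : (0 : ℝ) ≤ c := c.cast_nonneg
  have h3 : (c * ⌈Real.log y⌉₊ + 3 : ℝ) ≤ u := by
    rw [one_div_mul_eq_div, le_div_iff₀ (by positivity)] at h1
    nlinarith [mul_le_mul_of_nonneg_left (Nat.ceil_lt_add_one hl).le c0]
  have h4 := (card_le_card (s := S) (t := (Fintype.piFinset fun _ : Fin (N - j) => L).biUnion
    fun g => Fintype.piFinset fun _ : Fin N =>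
      L.filter (· ∈ span ℚ ((univ.image g ∪ W : Finset ℂ) : Set ℂ))) fun l hl => by
    obtain ⟨g, hg⟩ := few_gen l W (hS l hl).2
    exact mem_biUnion.2 ⟨l ∘ g, Fintype.mem_piFinset.2 fun _ => (hS l hl).1 _,
      Fintype.mem_piFinset.2 fun k => mem_filter.2 ⟨(hS l hl).1 k, hg k⟩⟩).trans
    (card_biUnion_le_card_mul _ _ ((c * (c * ⌈Real.log y⌉₊ + 3) ^ (N + R)) ^ N)
      fun g _ => by
        rw [Fintype.card_piFinset_const]
        refine Nat.pow_le_pow_left (hs _ _ (Nat.le_ceil _) (univ.image g ∪ W) _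
          ((card_union_le _ _).trans (add_le_add (card_image_le.trans (by simp)) hW))
          fun z hz => ?_) N
        exact ⟨(mem_filter.1 hz).2, hL z (mem_filter.1 hz).1⟩)
  rw [Fintype.card_piFinset_const, mul_comm] at h4
  have h5 : (c : ℝ) ≤ u := by linarith
  have h6 : 1 ≤ u := by linarith
  calc (S.card : ℝ) ≤ (c * (c * ⌈Real.log y⌉₊ + 3) ^ (N + R)) ^ N * L.card ^ (N - j) := by
        exact_mod_cast h4
    _ ≤ (u * u ^ (N + R)) ^ N * L.card ^ (N - j) := by gcongr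
    _ ≤ _ := by
        rw [← pow_succ', ← pow_mul]
        exact mul_le_mul_of_nonneg_right (pow_le_pow_right₀ h6 (Nat.le_succ _)) (by positivity)

end Pool.Agent.Lib.MP_1f047c_nt.Ex
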