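import Pool.Agent.Lib.MP_1f047c_nt.ThElim

/-! Tuples that are free over a finite set. -/

open Finset Submodule Module

namespace Pool.Agent.Lib.MP_1f047c_nt.Ex

open Th

section Ring

variable {R R' : Type} [CommRing R] [Algebra ℚ R] [CommRing R'] [Algebra ℚ R']

lemma V_map (f : R →ₐ[ℚ] R') (S : Set R) (n : ℕ) :
    (V S ^ n).map f.toLinearMap = V (f '' S) ^ n := by
  rw [Submodule.map_pow, V, V, map_span, Set.image_insert_eq]
  simp

lemma exists_poly {S : Set R} {x p : R} {n : ℕ} (h : p ∈ V (insert x S) ^ n) :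
    ∃ Q : Polynomial R, Q.natDegree ≤ n ∧ (∀ e, Q.coeff e ∈ V S ^ n) ∧ Q.eval x = p := by
  have H : ∀ p ∈ V (insert x S), ∃ a ∈ V S, ∃ b ∈ V S, a + b * x = p := fun p hp => by
    rw [V, Set.insert_comm] at hp
    obtain ⟨a, z, hz, rfl⟩ := mem_span_insert.1 hp
    exact ⟨z, hz, a • 1, smul_mem _ _ (one_mem_V S), by simp [add_comm]⟩
  induction h using Submodule.pow_induction_on_left' with
  | algebraMap r =>
    refine ⟨Polynomial.C (algebraMap ℚ R r), (Polynomial.natDegree_C _).le, fun e => ?_,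
      Polynomial.eval_C⟩
    rw [Polynomial.coeff_C]
    split_ifs
    exacts [algebraMap_mem r, zero_mem _]
  | add p q i _ _ h1 h2 =>
    obtain ⟨P, a1, a2, rfl⟩ := h1
    obtain ⟨Q, b1, b2, rfl⟩ := h2
    exact ⟨P + Q, Polynomial.natDegree_add_le_of_degree_le a1 b1,
      fun e => Polynomial.coeff_add P Q e ▸ add_mem (a2 e) (b2 e), Polynomial.eval_add⟩
  | mem_mul m hm i p _ h1 =>
    obtain ⟨P, a1, a2, rfl⟩ := h1
    obtain ⟨a, ha, b, hb, rfl⟩ := H m hm
    refine ⟨Polynomial.C a * P + Polynomial.C b * (Polynomial.X * P), ?_, fun e => ?_, ?_⟩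
    · compute_degree
      omega
    · rw [Polynomial.coeff_add, Polynomial.coeff_C_mul, Polynomial.coeff_C_mul, pow_succ']
      refine add_mem (mul_mem_mul ha (a2 e)) (mul_mem_mul hb ?_)
      rcases e with _ | e
      · simp
      · exact Polynomial.coeff_X_mul P e ▸ a2 e
    · simp [add_mul, mul_assoc]

end Ring

variable {𝕜 : Type} [Field 𝕜] [CharZero 𝕜] [DecidableEq 𝕜]

/-- No member of the tuple that is new over `Θ` and other members is related to them. -/
def Free {N : ℕ} (D : ℕ) (Θ : Finset 𝕜) (l : Fin N → 𝕜) : Prop :=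
  ∀ (s : Finset (Fin N)) (k : Fin N) (β : 𝕜), l k ∉ span ℚ ((s.image l ∪ Θ : Finset 𝕜) : Set 𝕜) →
    Rel D ∅ β → ¬Rel D (insert β ((s.image l ∪ Θ : Finset 𝕜) : Set 𝕜)) (l k)

omit [DecidableEq 𝕜] in
lemma gr_sub {Θ Θ' : Set 𝕜} {C r : ℕ} (h : Gr Θ' C r) (h' : Θ ⊆ Θ') : Gr Θ C r := fun n =>
  (h n).imp fun _ hs => ⟨hs.1, (pow_le_pow_left' (V_mono h') n).trans hs.2⟩

lemma tower (N D k : ℕ) : ∃ C : ℕ, ∀ (P : Set (Fin N → 𝕜)), ∀ l₀ ∈ P, ∃ Θ : Finset 𝕜,
    (∀ z ∈ Θ, ∃ l ∈ P, ∃ i, l i = z) ∧ ((Θ.card ≤ N * k ∧ ∀ l ∈ P, Free D Θ l) ∨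
      Θ.card ≤ N * (k + 1) ∧ (∀ i, l₀ i ∈ Θ) ∧
        ∃ r, Gr (Θ : Set 𝕜) C r ∧ r ≤ N * (k + 1) ∧ r + k ≤ finrank ℚ (span ℚ (Θ : Set 𝕜))) := by
  have c : ∀ (l : Fin N → 𝕜) (s : Finset (Fin N)), (s.image l).card ≤ N := fun l s =>
    card_image_le.trans ((card_le_univ s).trans (by simp))
  induction k with
  | zero =>
    refine ⟨1, fun P l hl => ⟨univ.image l, fun z hz => ⟨l, hl, by simpa using hz⟩,
      Or.inr ⟨by simpa using c l univ, by simp, ?_⟩⟩⟩
    obtain ⟨r, h3, h4, h5⟩ := Gr.many (Θ := (∅ : Finset 𝕜)) (by simpa using Gr.empty) (univ.image l)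
    rw [union_empty] at h3 h5
    have := c l univ
    exact ⟨r, h3, by omega, by omega⟩
  | succ k ih =>
    obtain ⟨C, hC⟩ := ih
    refine ⟨D * (D + 1) ^ (N * (k + 2)) * (D * (D + 1) ^ (N * (k + 2)) * C), fun P l₀ h0 => ?_⟩
    obtain ⟨Θ, h1, ⟨h2, h3⟩ | ⟨h2, h3, r, h4, h5, h6⟩⟩ := hC P l₀ h0
    · exact ⟨Θ, h1, Or.inl ⟨h2.trans (Nat.mul_le_mul_left _ k.le_succ), h3⟩⟩
    by_cases h7 : ∀ l ∈ P, Free D Θ l
    · exact ⟨Θ, h1, Or.inl ⟨h2, h7⟩⟩
    simp only [Free, not_forall, not_not] at h7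
    obtain ⟨l, hl, s, i, β, k1, k2, k3⟩ := h7
    obtain ⟨r', k4, k5, k6⟩ := h4.many (s.image l)
    have k7 := rk_lt k1
    have k8 := c l s
    have k9 := c l (insert i s)
    have k10 : D * (D + 1) ^ r' ≤ D * (D + 1) ^ (N * (k + 2)) := Nat.mul_le_mul_left _
      (Nat.pow_le_pow_right D.succ_pos (by rw [mul_add] at h5 ⊢; omega))
    refine ⟨insert (l i) (s.image l ∪ Θ), fun z hz => ?_, Or.inr ⟨?_,
      fun j => mem_insert_of_mem (mem_union_right _ (h3 j)), r', ?_, ?_, by omega⟩⟩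
    · rw [← insert_union, ← image_insert] at hz
      refine (mem_union.1 hz).elim (fun hz => ?_) (h1 z)
      obtain ⟨j, -, rfl⟩ := mem_image.1 hz
      exact ⟨l, hl, j, rfl⟩
    · rw [← insert_union, ← image_insert, mul_add]
      exact (card_union_le _ _).trans (by omega)
    · rw [coe_insert]
      exact gr_sub (((k4.rel (k2.mono le_rfl (Set.empty_subset _))).rel k3).mono
        (Nat.mul_le_mul k10 (Nat.mul_le_mul_right _ k10)))
        (Set.insert_subset_insert (Set.subset_insert _ _))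
    · rw [mul_add]
      omega

theorem Free.roy {N D d : ℕ} {Θ : Finset 𝕜} {l : Fin N → 𝕜} (h : Free (d + D) Θ l) (K : Type)
    [Field K] [NumberField K] (φ : K →+* 𝕜) (hd : finrank ℚ K ≤ d) (F : MvPolynomial (Fin N) K)
    (hF : F.totalDegree ≤ D) (h0 : MvPolynomial.eval₂ φ l F = 0) (y : Fin N → 𝕜)
    (hy : ∀ m : Fin N → ℚ, ∑ k, (m k : 𝕜) * l k ∈ span ℚ (Θ : Set 𝕜) →
      ∑ k, (m k : 𝕜) * y k = ∑ k, (m k : 𝕜) * l k) : MvPolynomial.eval₂ φ y F = 0 := by
  let b := Field.powerBasisOfFiniteOfSeparable ℚ K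
  let Δ : 𝕜 →ₐ[ℚ] 𝕜 × 𝕜 := (AlgHom.id ℚ 𝕜).prod (AlgHom.id ℚ 𝕜)
  let T : Finset (Fin N) → Set (𝕜 × 𝕜) := fun s =>
    (fun i => (l i, y i)) '' s ∪ Δ '' insert (φ b.gen) Θ
  have hβ : Rel (d + D) ∅ (φ b.gen) := by
    refine ⟨(minpoly ℚ b.gen).map (algebraMap ℚ 𝕜),
      Polynomial.map_ne_zero (minpoly.ne_zero b.isIntegral_gen),
      Polynomial.natDegree_map_le.trans ((minpoly.natDegree_le _).trans (by omega)), fun e => ?_, ?_⟩
    · rw [Polynomial.coeff_map, Algebra.algebraMap_eq_smul_one]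
      exact smul_mem _ _ (Submodule.one_le.1 (pow_mono (one_mem_V _) (Nat.zero_le _)))
    · rw [Polynomial.eval_map_algebraMap]
      exact (Polynomial.aeval_algHom_apply φ.toRatAlgHom _ _).trans (by simp)
  have H : ∀ s, ∀ p ∈ V (T s) ^ (d + D), p.1 = 0 → p.2 = 0 := fun s => by
    induction s using Finset.induction_on with
    | empty =>
      intro p hp
      simp only [T, coe_empty, Set.image_empty, Set.empty_union, ← V_map] at hp
      obtain ⟨z, -, rfl⟩ := hp
      exact id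
    | insert i s hi ih =>
      have e : T (insert i s) = insert (l i, y i) (T s) := by
        simp only [T, coe_insert, Set.image_insert_eq (a := i), Set.insert_union]
      rw [e]
      by_cases h1 : l i ∈ span ℚ ((s.image l ∪ Θ : Finset 𝕜) : Set 𝕜)
      · rw [coe_union, span_union, coe_image] at h1
        obtain ⟨_, h2, ν, h3, h4⟩ := mem_sup.1 h1
        obtain ⟨c, rfl⟩ := (mem_span_image_finset_iff_exists_fun' ℚ).1 h2
        have h5 : ∀ z : Fin N → 𝕜, ∑ k, ((Pi.single i 1 - fun j => if j ∈ s then c j else 0 :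
            Fin N → ℚ) k : 𝕜) * z k = z i - ∑ j ∈ s, c j • z j := fun z => by
          simp [sub_mul, Pi.single_apply, apply_ite (Rat.cast : ℚ → 𝕜), Rat.smul_def]
        have h6 := hy _ (by rw [h5, ← h4, add_sub_cancel_left]; exact h3)
        rw [h5, h5, ← h4, add_sub_cancel_left] at h6
        have h7 : (l i, y i) ∈ V (T s) := by
          have : (l i, y i) = ∑ j ∈ s, c j • (l j, y j) + Δ ν := by
            ext
            · simp [Δ, Prod.fst_sum, h4]
            · simp [Δ, Prod.snd_sum, ← h6]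
          rw [this]
          exact add_mem (sum_mem fun j hj => smul_mem _ _ (mem_V (Or.inl ⟨j, hj, rfl⟩)))
            (span_mono ((Set.image_mono (Set.subset_insert _ _)).trans
              (Set.subset_union_right.trans (Set.subset_insert _ _)))
              (apply_mem_span_image_of_mem_span Δ.toLinearMap h3))
        rwa [V, Set.insert_comm, span_insert_eq_span h7]
      · intro p hp h2
        obtain ⟨Q, h3, h4, rfl⟩ := exists_poly hp
        have h5 : Q.map (RingHom.fst 𝕜 𝕜) = 0 := by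
          by_contra h5
          refine h s i _ h1 hβ (Rel.mono (Θ := AlgHom.fst ℚ 𝕜 𝕜 '' T s) ⟨_, h5,
            Polynomial.natDegree_map_le.trans h3, fun e => ?_, ?_⟩ le_rfl ?_)
          · rw [Polynomial.coeff_map, ← V_map]
            exact mem_map_of_mem (h4 e)
          · rw [← h2]
            exact Polynomial.eval_map_apply (f := RingHom.fst 𝕜 𝕜) (l i, y i)
          · rintro _ ⟨_, ⟨j, hj, rfl⟩ | ⟨z, hz, rfl⟩, rfl⟩
            · exact Or.inr (mem_coe.2 (mem_union_left _ (mem_image_of_mem l hj)))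
            · exact hz.imp id fun hz => mem_coe.2 (mem_union_right _ hz)
        have h6 : Q = 0 := Polynomial.ext fun e => by
          have := congrArg (Polynomial.coeff · e) h5
          simp only [Polynomial.coeff_map, Polynomial.coeff_zero] at this
          exact Prod.ext this (ih _ (h4 e) this)
        simp [h6]
  have h1 : MvPolynomial.eval₂ (φ.prod φ) (fun i => (l i, y i)) F ∈ V (T univ) ^ (d + D) := by
    rw [MvPolynomial.eval₂_eq, pow_add]
    refine sum_mem fun β hβ => mul_mem_mul ?_ (pow_mono (one_mem_V _)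
      ((MvPolynomial.le_totalDegree hβ).trans hF)
      (prod_pow_mem (fun i => (l i, y i))
        (fun i => mem_V (Θ := T univ) (Or.inl ⟨i, mem_coe.2 (mem_univ i), rfl⟩)) β _))
    rw [← b.basis.sum_repr (F.coeff β), map_sum]
    refine sum_mem fun i _ => ?_
    rw [map_rat_smul, b.coe_basis, map_pow]
    exact smul_mem _ _ (pow_mono (one_mem_V _) (i.2.le.trans (b.finrank.ge.trans hd))
      (pow_mem_pow _ (mem_V (Θ := T univ) (Or.inr ⟨_, Or.inl rfl, rfl⟩)) _))
  exact (MvPolynomial.eval₂_comp_left (RingHom.snd 𝕜 𝕜) (φ.prod φ) _ F).symm.trans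
    (H _ _ h1 ((MvPolynomial.eval₂_comp_left (RingHom.fst 𝕜 𝕜) (φ.prod φ) _ F).trans h0))

end Pool.Agent.Lib.MP_1f047c_nt.Ex
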