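import Pool.Agent.Lib.MP_1f047c_nt.ThCount

/-! Few small cells in `ℂ` and in `ℂ_p`. -/

open Finset Filter

namespace Pool.Agent.Lib.MP_1f047c_nt.Th

lemma floor_close {a b η : ℝ} (hη : 0 < η) (h : ⌊a / η⌋ = ⌊b / η⌋) : |a - b| ≤ η := by
  have h1 := Int.abs_sub_lt_one_of_floor_eq_floor h
  rw [← sub_div, abs_div, abs_of_pos hη, div_lt_one hη] at h1
  exact h1.le

lemma floor_mem {a η : ℝ} (hη : 0 < η) {L : ℕ} (h : |a| ≤ L * η) :
    ⌊a / η⌋ ∈ Icc (-(L : ℤ)) L := by
  rw [abs_le] at h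
  refine mem_Icc.2 ⟨Int.le_floor.2 ?_, Int.floor_le_iff.2 ?_⟩
  · rw [le_div_iff₀ hη]
    push_cast
    linarith [h.1]
  · rw [div_lt_iff₀ hη]
    push_cast
    linarith [h.2]

theorem fam_complex : Fam (fun b => {z : ℂ | ‖z‖ ≤ b}) ⊤ where
  dom _ _ _ := trivial
  diff z _ z' _ := by rw [← Complex.exp_eq_exp_ℂ, Complex.exp_sub]
  mono b b' h z hz := le_trans hz h
  cov d A κ hκ := by
    refine ⟨κ / 6, by positivity, ?_⟩
    have t1 := tendsto_natCast_atTop_atTop.eventually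
      ((isLittleO_log_rpow_atTop (r := κ / 6) (by positivity)).bound (c := 1 / (2 * (|A| + 1)))
        (by positivity))
    have t2 : Tendsto (fun y : ℕ => (y : ℝ) ^ (κ / 6)) atTop atTop :=
      (tendsto_rpow_atTop (by positivity)).comp tendsto_natCast_atTop_atTop
    filter_upwards [t1, t2.eventually_ge_atTop 5, eventually_ge_atTop 1] with y h1 h2 hy
    have hy2 : (1 : ℝ) ≤ y := by exact_mod_cast hy
    have hu : (y : ℝ) ^ κ = ((y : ℝ) ^ (κ / 6)) ^ 6 := by
      rw [← Real.rpow_mul_natCast (by positivity)]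
      congr 1
      push_cast
      ring
    rw [Real.rpow_neg (by positivity), hu]
    have hl : 0 ≤ Real.log y := Real.log_nonneg hy2
    rw [Real.norm_of_nonneg hl, Real.norm_of_nonneg (by positivity)] at h1
    generalize (y : ℝ) ^ (κ / 6) = u at h1 h2
    have hu0 : 0 < u := by linarith
    have hη : 0 < u⁻¹ / 2 := by positivity
    have hL : A * Real.log y ≤ ⌈u ^ 2⌉₊ * (u⁻¹ / 2) :=
      calc _ ≤ (|A| + 1) * (1 / (2 * (|A| + 1)) * u) :=
            mul_le_mul (by linarith [le_abs_self A]) h1 hl (by positivity)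
        _ = u ^ 2 * (u⁻¹ / 2) := by field_simp
        _ ≤ _ := mul_le_mul_of_nonneg_right (Nat.le_ceil _) hη.le
    refine ⟨ℤ × ℤ, Icc (-(⌈u ^ 2⌉₊ : ℤ)) ⌈u ^ 2⌉₊ ×ˢ Icc (-(⌈u ^ 2⌉₊ : ℤ)) ⌈u ^ 2⌉₊,
      fun z => (⌊z.re / (u⁻¹ / 2)⌋, ⌊z.im / (u⁻¹ / 2)⌋), ?_, fun z ⟨_, hz⟩ => ?_,
      fun z _ z' _ hc => ?_⟩
    · have h3 : (Icc (-(⌈u ^ 2⌉₊ : ℤ)) ⌈u ^ 2⌉₊).card = 2 * ⌈u ^ 2⌉₊ + 1 := by
        rw [Int.card_Icc]
        omega
      have h4 := (Nat.ceil_lt_add_one (sq_nonneg u)).le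
      have h5 : (2 * ⌈u ^ 2⌉₊ + 1 : ℝ) ≤ u ^ 3 := by nlinarith
      rw [card_product, h3]
      push_cast
      calc _ ≤ u ^ 3 * u ^ 3 := mul_le_mul h5 h5 (by positivity) (by positivity)
        _ = _ := by ring
    · exact mem_product.2 ⟨floor_mem hη ((Complex.abs_re_le_norm _).trans (le_trans hz hL)),
        floor_mem hη ((Complex.abs_im_le_norm _).trans (le_trans hz hL))⟩
    · refine (Complex.norm_le_abs_re_add_abs_im _).trans ?_
      rw [Complex.sub_re, Complex.sub_im]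
      linarith [floor_close hη (congrArg Prod.fst hc), floor_close hη (congrArg Prod.snd hc)]

section Padic

variable {p : ℕ} [hp : Fact p.Prime]

lemma int_rel {d : ℕ} {b : ℝ} {x : ℂ_[p]} (h : Alg d b x) :
    ∃ g : Fin (d + 1) → ℤ, (∃ i, ¬(p : ℤ) ∣ g i) ∧ ∑ i, (g i : ℂ_[p]) * x ^ (i : ℕ) = 0 := by
  obtain ⟨K, _, _, φ, α, h1, rfl, -⟩ := h
  have h2 : ¬LinearIndependent ℤ fun i : Fin (d + 1) => α ^ (i : ℕ) := fun h => by
    have := ((LinearIndependent.iff_fractionRing ℤ ℚ).1 h).fintype_card_le_finrank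
    rw [Fintype.card_fin] at this
    omega
  obtain ⟨g, hg, i, hi⟩ := Fintype.not_linearIndependent_iff.1 h2
  obtain ⟨g', h3, h4⟩ := extract_gcd g (univ_nonempty (α := Fin (d + 1)))
  have h5 : (univ.gcd g : ℤ) ≠ 0 := fun h => hi (by rw [h3 i (mem_univ i), h, zero_mul])
  refine ⟨g', ?_, mul_left_cancel₀ (a := ((univ.gcd g : ℤ) : ℂ_[p])) (by exact_mod_cast h5) ?_⟩
  · by_contra h
    push Not at h
    have := h4 ▸ Finset.dvd_gcd (s := univ) fun i _ => h i
    exact hp.out.one_lt.ne' (by exact_mod_cast Int.eq_one_of_dvd_one (by positivity) this)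
  · rw [mul_zero, mul_sum, ← map_zero φ, ← hg, map_sum]
    refine sum_congr rfl fun i _ => ?_
    rw [← mul_assoc, ← Int.cast_mul, ← h3 i (mem_univ i), zsmul_eq_mul, map_mul, map_intCast,
      map_pow]

lemma root_bound {x c : ℂ_[p]} (hx : ‖x‖ ≤ 1) {δ : ℝ} (h0 : 0 ≤ δ) (h1 : δ ≤ 1)
    (s : Multiset ℂ_[p]) (hs : ∀ ρ ∈ s, δ ≤ ‖x - ρ‖) (i : ℕ) :
    δ ^ s.card * ‖(Polynomial.C c * (s.map fun a => Polynomial.X - Polynomial.C a).prod).coeff i‖ ≤
      ‖(Polynomial.C c * (s.map fun a => Polynomial.X - Polynomial.C a).prod).eval x‖ := by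
  induction s using Multiset.induction_on generalizing i with
  | empty =>
    simp only [Multiset.card_zero, pow_zero, Multiset.map_zero, Multiset.prod_zero, mul_one,
      one_mul, Polynomial.coeff_C, Polynomial.eval_C]
    split_ifs <;> simp
  | cons ρ s ih =>
    have ih' := ih fun a ha => hs a (Multiset.mem_cons_of_mem ha)
    have h2 := hs ρ (Multiset.mem_cons_self _ _)
    rw [Multiset.map_cons, Multiset.prod_cons, mul_left_comm, mul_comm (_ - _), Multiset.card_cons,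
      Polynomial.eval_mul, norm_mul, Polynomial.eval_sub, Polynomial.eval_X, Polynomial.eval_C]
    generalize Polynomial.C c * (s.map fun a => Polynomial.X - Polynomial.C a).prod = P at ih'
    have h3 : δ * ‖ρ‖ ≤ ‖x - ρ‖ := by
      rcases le_or_gt ‖ρ‖ 1 with h | h
      · exact (mul_le_of_le_one_right h0 h).trans h2
      · have := IsUltrametricDist.norm_add_le_max (ρ - x) x
        rw [sub_add_cancel, norm_sub_rev] at this
        exact (mul_le_of_le_one_left (norm_nonneg _) h1).trans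
          ((le_max_iff.1 this).resolve_right (by linarith))
    have h4 : ∀ j, δ ^ (s.card + 1) * ‖P.coeff j * ρ‖ ≤ ‖P.eval x‖ * ‖x - ρ‖ := fun j =>
      le_trans (le_of_eq (by rw [norm_mul]; ring))
        (mul_le_mul (ih' j) h3 (by positivity) (norm_nonneg _))
    have h5 : ∀ j, δ ^ (s.card + 1) * ‖P.coeff j‖ ≤ ‖P.eval x‖ * ‖x - ρ‖ := fun j =>
      le_trans (le_of_eq (by ring)) (mul_le_mul (ih' j) h2 h0 (norm_nonneg _))
    rcases i with _ | i
    · simpa using h4 0
    · rw [Polynomial.coeff_mul_X_sub_C, sub_eq_add_neg]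
      refine (mul_le_mul_of_nonneg_left (IsUltrametricDist.norm_add_le_max _ _)
        (by positivity)).trans ?_
      rw [mul_max_of_nonneg _ _ (by positivity), norm_neg]
      exact max_le (h5 i) (h4 _)

lemma cover_padic (d : ℕ) : ∃ B : ℕ, ∀ a : ℕ, ∃ T : Finset ℂ_[p], T.card ≤ B ^ a ∧
    ∀ b x, Alg d b x → ‖x‖ ≤ 1 → ∃ c ∈ T, ‖x - c‖ ≤ ((p : ℝ)⁻¹) ^ a := by
  classical
  refine ⟨(p ^ (d + 1)) ^ (d + 1) * (d + 1), fun a => ?_⟩
  rcases a with _ | a
  · exact ⟨{0}, by simp, fun b x _ hx => ⟨0, by simp, by simpa using hx⟩⟩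
  obtain ⟨k, hk⟩ : ∃ k, k = (a + 1) * d + 1 := ⟨_, rfl⟩
  let f : (Fin (d + 1) → ℤ) → Polynomial ℂ_[p] :=
    fun g => ∑ i : Fin (d + 1), Polynomial.monomial (i : ℕ) (g i : ℂ_[p])
  have hf : ∀ g, (f g).natDegree ≤ d := fun g => Polynomial.natDegree_sum_le_of_forall_le _ _
    fun i _ => (Polynomial.natDegree_monomial_le _).trans (Nat.le_of_lt_succ i.2)
  have hp1 : (1 : ℝ) < p := by exact_mod_cast hp.out.one_lt
  have hp2 : (0 : ℝ) < (p : ℝ)⁻¹ := by positivity
  have hp3 := inv_lt_one_of_one_lt₀ hp1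
  have hn : ∀ z : ℤ, ‖(z : ℂ_[p])‖ = ‖(z : ℚ_[p])‖ := fun z => by
    rw [← map_intCast (algebraMap ℚ_[p] ℂ_[p]), norm_algebraMap']
  refine ⟨(Fintype.piFinset fun _ => Ico (0 : ℤ) (p ^ k)).biUnion fun g => (f g).roots.toFinset,
    (card_biUnion_le_card_mul _ _ d fun g _ => (Multiset.toFinset_card_le _).trans
      ((Polynomial.card_roots' _).trans (hf g))).trans ?_, fun b x h hx => ?_⟩
  · rw [Fintype.card_piFinset_const, Int.card_Ico, sub_zero, ← Nat.cast_pow, Int.toNat_natCast,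
      mul_pow, ← pow_mul, ← pow_mul, ← pow_mul]
    refine Nat.mul_le_mul (Nat.pow_le_pow_right hp.out.pos ?_)
      (d.le_succ.trans (Nat.le_self_pow a.succ_ne_zero _))
    rw [hk]
    nlinarith [Nat.zero_le (a * d), Nat.zero_le a]
  · obtain ⟨g, ⟨i, hi⟩, hg⟩ := int_rel h
    have hq : (0 : ℤ) < p ^ k := by exact_mod_cast pow_pos hp.out.pos k
    by_contra hc
    push Not at hc
    have h1 := root_bound (c := (f fun i => g i % p ^ k).leadingCoeff) hx (pow_pos hp2 (a + 1)).le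
      (pow_le_one₀ hp2.le hp3.le) (f fun i => g i % p ^ k).roots (fun ρ hρ => (hc ρ
        (mem_biUnion.2 ⟨_, Fintype.mem_piFinset.2 fun i => mem_Ico.2
          ⟨Int.emod_nonneg _ hq.ne', Int.emod_lt_of_pos _ hq⟩, Multiset.mem_toFinset.2 hρ⟩)).le) i
    rw [Polynomial.C_leadingCoeff_mul_prod_multiset_X_sub_C IsAlgClosed.card_roots_eq_natDegree,
      IsAlgClosed.card_roots_eq_natDegree] at h1
    have h2 : 1 ≤ ‖(f fun i => g i % p ^ k).coeff i‖ := by
      have : (f fun i => g i % p ^ k).coeff i = ((g i % p ^ k : ℤ) : ℂ_[p]) := by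
        simp [f, Polynomial.coeff_monomial, Fin.val_inj]
      rw [this, hn, ← not_lt, Padic.norm_intCast_lt_one_iff]
      exact fun h => hi (Int.emod_add_mul_ediv (g i) (p ^ k) ▸
        dvd_add h ((dvd_pow_self (p : ℤ) (by omega)).mul_right _))
    have h3 : ‖(f fun i => g i % p ^ k).eval x‖ ≤ ((p : ℝ)⁻¹) ^ k := by
      have : (f fun i => g i % p ^ k).eval x =
          ∑ i, -((p : ℤ) : ℂ_[p]) ^ k * (((g i / p ^ k : ℤ) : ℂ_[p]) * x ^ (i : ℕ)) := by
        rw [← sub_zero (Polynomial.eval _ _), ← hg, Polynomial.eval_finsetSum, ← sum_sub_distrib]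
        refine sum_congr rfl fun i _ => ?_
        simp only [Polynomial.eval_monomial, Int.emod_def]
        push_cast
        ring
      rw [this]
      refine IsUltrametricDist.norm_sum_le_of_forall_le_of_nonneg (by positivity) fun i _ => ?_
      rw [norm_mul, norm_neg, norm_pow, hn, Int.cast_natCast, Padic.norm_p, norm_mul, norm_pow]
      exact mul_le_of_le_one_right (by positivity) (mul_le_one₀
        (IsUltrametricDist.norm_intCast_le_one _ _) (by positivity)
        (pow_le_one₀ (norm_nonneg _) hx))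
    have h4 := pow_le_pow_of_le_one (pow_pos hp2 (a + 1)).le (pow_le_one₀ hp2.le hp3.le)
      (hf fun i => g i % p ^ k)
    have h5 := pow_lt_pow_right_of_lt_one₀ hp2 hp3 (show (a + 1) * d < k by omega)
    rw [pow_mul] at h5
    nlinarith [pow_pos (pow_pos hp2 (a + 1)) (f fun i => g i % p ^ k).natDegree]

lemma exp_near {x : ℂ_[p]} (hx : ‖x‖ ≤ 1 / 16) :
    3 / 4 ≤ ‖NormedSpace.exp x‖ ∧ ‖NormedSpace.exp x‖ ≤ 1 := by
  have h := (good_padic p).tail (x := x) (by linarith) 1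
  simp only [range_one, sum_singleton, pow_zero, Nat.factorial_zero, Nat.cast_one, div_one,
    pow_one] at h
  constructor
  · have := norm_sub_norm_le 1 (NormedSpace.exp x)
    rw [norm_sub_rev, norm_one] at this
    linarith
  · have := IsUltrametricDist.norm_add_le_max (NormedSpace.exp x - 1) 1
    rw [sub_add_cancel, norm_one] at this
    exact this.trans (max_le (by linarith) le_rfl)

lemma norm_sub_small {x y : ℂ_[p]} (hx : ‖x‖ ≤ 1 / 16) (hy : ‖y‖ ≤ 1 / 16) : ‖x - y‖ ≤ 1 / 16 := by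
  rw [sub_eq_add_neg]
  exact (IsUltrametricDist.norm_add_le_max _ _).trans (max_le hx (by rwa [norm_neg]))

lemma exp_sub {x y : ℂ_[p]} (hx : ‖x‖ ≤ 1 / 16) (hy : ‖y‖ ≤ 1 / 16) :
    NormedSpace.exp (x - y) = NormedSpace.exp x / NormedSpace.exp y := by
  have h := (good_padic p).exp_add (x := x - y) (y := y) (by linarith [norm_sub_small hx hy])
    (by linarith)
  rw [sub_add_cancel] at h
  rw [h, mul_div_cancel_right₀ _ (norm_pos_iff.1 (by linarith [(exp_near hy).1]))]

lemma norm_le_exp_sub {x y : ℂ_[p]} (hx : ‖x‖ ≤ 1 / 16) (hy : ‖y‖ ≤ 1 / 16) :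
    ‖x - y‖ ≤ 3 * ‖NormedSpace.exp x - NormedSpace.exp y‖ := by
  have h0 := norm_sub_small hx hy
  have h := (good_padic p).tail (x := x - y) (by linarith) 2
  have h1 := (exp_near hy).1
  have h2 : NormedSpace.exp x - NormedSpace.exp y =
      (NormedSpace.exp (x - y) - 1) * NormedSpace.exp y := by
    rw [exp_sub hx hy, sub_mul, div_mul_cancel₀ _ (norm_pos_iff.1 (by linarith)), one_mul]
  simp only [sum_range_succ, range_zero, sum_empty, pow_zero, Nat.factorial_zero, Nat.cast_one,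
    div_one, zero_add, pow_one, Nat.factorial_one] at h
  have h3 := norm_sub_norm_le (x - y) (NormedSpace.exp (x - y) - 1)
  rw [norm_sub_rev (x - y), sub_sub (NormedSpace.exp (x - y))] at h3
  have h4 := norm_nonneg (x - y)
  have h5 : ‖x - y‖ ≤ 2 * ‖NormedSpace.exp (x - y) - 1‖ := by nlinarith
  rw [h2, norm_mul]
  nlinarith [norm_nonneg (NormedSpace.exp (x - y) - 1)]

/-- The closed ball of radius `1 / 16`. -/
def ball16 (p : ℕ) [Fact p.Prime] : AddSubgroup ℂ_[p] where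
  carrier := {z | ‖z‖ ≤ 1 / 16}
  add_mem' h h' := (IsUltrametricDist.norm_add_le_max _ _).trans (max_le h h')
  zero_mem' := by simp
  neg_mem' h := by simpa using h

theorem fam_padic : Fam (fun _ => {z : ℂ_[p] | ‖z‖ ≤ 1 / 16}) (ball16 p) where
  dom _ _ h := h
  diff z hz z' hz' := exp_sub hz hz'
  mono b b' h z hz := hz
  cov d A κ hκ := by
    obtain ⟨B, hB⟩ := cover_padic (p := p) d
    have hb : 0 < Real.log (B + 2) := Real.log_pos (by linarith [(B.cast_nonneg : (0 : ℝ) ≤ B)])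
    have hp1 : (1 : ℝ) < p := by exact_mod_cast hp.out.one_lt
    have hl := Real.log_pos hp1
    refine ⟨κ / Real.log (B + 2) * Real.log p / 2, by positivity, ?_⟩
    have t1 : Tendsto (fun y : ℕ => κ / Real.log (B + 2) * Real.log p / 2 * Real.log y)
        atTop atTop :=
      (Real.tendsto_log_atTop.comp tendsto_natCast_atTop_atTop).const_mul_atTop (by positivity)
    filter_upwards [t1.eventually_ge_atTop (Real.log 3 + Real.log p), eventually_ge_atTop 1]
      with y h1 hy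
    have hy1 : (1 : ℝ) ≤ y := by exact_mod_cast hy
    have h0 : 0 ≤ κ / Real.log (B + 2) * Real.log y :=
      mul_nonneg (by positivity) (Real.log_nonneg hy1)
    obtain ⟨T, hT, hT'⟩ := hB ⌊κ / Real.log (B + 2) * Real.log y⌋₊
    have f1 := Nat.floor_le h0
    have f2 := (Nat.lt_floor_add_one (κ / Real.log (B + 2) * Real.log y)).le
    generalize ⌊κ / Real.log (B + 2) * Real.log y⌋₊ = a at hT hT' f1 f2
    choose! c hc hc' using fun z (hz : z ∈ Adm (fun _ => {z : ℂ_[p] | ‖z‖ ≤ 1 / 16}) d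
      (A * Real.log y)) => hT' _ _ hz.1 (exp_near hz.2).2
    refine ⟨_, T, c, ?_, hc, fun z hz z' hz' e => ?_⟩
    · calc (T.card : ℝ) ≤ (B + 2 : ℝ) ^ a := by
            exact_mod_cast hT.trans (Nat.pow_le_pow_left (Nat.le_add_right B 2) a)
        _ = Real.exp (a * Real.log (B + 2)) := by
            rw [Real.exp_nat_mul, Real.exp_log (by positivity)]
        _ ≤ _ := by
            rw [Real.rpow_def_of_pos (by positivity), Real.exp_le_exp, ← le_div_iff₀ hb]
            exact f1.trans (le_of_eq (by ring))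
    · have h2 : ‖NormedSpace.exp z - NormedSpace.exp z'‖ ≤ ((p : ℝ)⁻¹) ^ a := by
        have := IsUltrametricDist.norm_add_le_max (NormedSpace.exp z - c z)
          (c z' - NormedSpace.exp z')
        rw [← e, sub_add_sub_cancel, norm_sub_rev (c z)] at this
        exact this.trans (max_le (hc' z hz) (e ▸ hc' z' hz'))
      have h3 := norm_le_exp_sub hz.2 hz'.2
      calc _ ≤ 3 * ((p : ℝ)⁻¹) ^ a := by linarith
        _ = Real.exp (Real.log 3 + a * -Real.log p) := by
            rw [Real.exp_add, Real.exp_nat_mul, Real.exp_neg, Real.exp_log (by norm_num),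
              Real.exp_log (by positivity)]
        _ ≤ _ := by
            rw [Real.rpow_def_of_pos (by positivity), Real.exp_le_exp]
            nlinarith [mul_le_mul_of_nonneg_right f2 hl.le]

end Padic

end Pool.Agent.Lib.MP_1f047c_nt.Th
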