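import Pool.Agent.Lib.MP_1f047c_nt.ExFree
import Pool.Agent.Lib.MP_1f047c_nt.ThCov

/-! Few exceptional spaces. -/

open Finset Submodule Module Filter

namespace Pool.Agent.Lib.MP_1f047c_nt.Ex

open Th

variable {𝕜 : Type} [NormedField 𝕜] [CompleteSpace 𝕜] [CharZero 𝕜] {Sm : ℝ → Set 𝕜}
  {Dm : AddSubgroup 𝕜}

lemma small (hN : TA.Nice 𝕜) (hA : Fam Sm Dm) (d r C : ℕ) {γ : ℝ} (hγ : 0 < γ) :
    ∀ᶠ y : ℕ in atTop, ∀ Θ : Set 𝕜, Gr Θ C r → ∀ z z' : Fin (r + 1) → 𝕜,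
      (∀ k, z k - z' k ∈ V Θ) → (∀ k, z k ∈ Adm Sm d (Real.log y)) →
      (∀ k, z' k ∈ Adm Sm d (Real.log y)) → (∀ k, ‖z k - z' k‖ ≤ (y : ℝ) ^ (-γ)) →
      ¬∀ m : Fin (r + 1) → ℤ, ∑ j, (m j : 𝕜) * (z j - z' j) = 0 → m = 0 := by
  obtain ⟨D, hD⟩ : ∃ D : ℕ, d ^ Fintype.card (Fin (r + 1) ⊕ Fin (r + 1)) = D := ⟨_, rfl⟩
  obtain ⟨c, hc⟩ := TI.allN TI.zest (r + 1) ((r + 1) * (C * (r + 1) ^ r)) (γ / (4 * (D + 1)))
    (by positivity)
  have t1 : Tendsto (fun y : ℕ => γ / 2 * Real.log y) atTop atTop :=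
    (Real.tendsto_log_atTop.comp tendsto_natCast_atTop_atTop).const_mul_atTop (by positivity)
  filter_upwards [t1.eventually_ge_atTop (|c| * D), eventually_ge_atTop 1] with y h1 hy Θ hG z z'
    h2 a1 a2 h4 hu
  have hy1 : (1 : ℝ) ≤ y := by exact_mod_cast hy
  obtain ⟨G, hG0, hGd, hG⟩ := hG.relation (fun k => z k - z' k) h2
  obtain ⟨L, _, α, k1, k2⟩ := compositum (Sum.elim (fun k => NormedSpace.exp (z k))
    fun k => NormedSpace.exp (z' k)) (Sum.rec (fun k => (a1 k).1) fun k => (a2 k).1)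
  rw [hD] at k1 k2
  refine hc 𝕜 hN L (algebraMap L 𝕜) (fun k => α (Sum.inl k) / α (Sum.inr k))
    (fun k => z k - z' k) (fun k => ?_) (fun k => ?_) hu
    (MvPolynomial.map (algebraMap ℚ L) G) (fun h => hG0 (MvPolynomial.map_injective _
      (algebraMap ℚ L).injective (h.trans (map_zero _).symm)))
    ((Finset.sup_mono (MvPolynomial.support_map_subset _ _)).trans hGd) ?_
  · rw [hA.diff _ (hA.dom _ _ (a1 k).2) _ (hA.dom _ _ (a2 k).2), map_div₀]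
    exact congrArg₂ _ (k2 (Sum.inl k)).1 (k2 (Sum.inr k)).1
  · refine (h4 k).trans ?_
    have h5 := Real.log_nonneg hy1
    have h6 := Height.logHeight₁_mul_le (α (Sum.inl k)) (α (Sum.inr k))⁻¹
    rw [Height.logHeight₁_inv, ← div_eq_mul_inv] at h6
    have h7 := mul_le_mul_of_nonneg_left (show Height.logHeight₁ (α (Sum.inl k) / α (Sum.inr k)) ≤
      2 * ((D + 1) * Real.log y) by linarith [(k2 (Sum.inl k)).2, (k2 (Sum.inr k)).2])
      (show 0 ≤ γ / (4 * (D + 1)) by positivity)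
    have h8 : γ / (4 * (D + 1)) * (2 * ((D + 1) * Real.log y)) = γ / 2 * Real.log y := by
      field_simp
      ring
    have h9 : c * finrank ℚ L ≤ |c| * D :=
      mul_le_mul (le_abs_self _) (by exact_mod_cast k1) (by positivity) (abs_nonneg _)
    rw [Real.rpow_def_of_pos (by positivity), Real.exp_le_exp]
    linarith
  · rw [MvPolynomial.eval₂_map,
      Subsingleton.elim ((algebraMap L 𝕜).comp (algebraMap ℚ L)) (algebraMap ℚ 𝕜)]
    exact hG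

variable [DecidableEq 𝕜]

theorem cells (hN : TA.Nice 𝕜) (hA : Fam Sm Dm) (N D d : ℕ) {γ : ℝ} (hγ : 0 < γ) :
    ∀ᶠ y : ℕ in atTop, ∀ P : Set (Fin N → 𝕜), (∀ l ∈ P, ∀ i, l i ∈ Adm Sm d (Real.log y)) →
      (∀ l ∈ P, ∀ l' ∈ P, ∀ i, ‖l i - l' i‖ ≤ (y : ℝ) ^ (-γ)) → ∃ Θ : Finset 𝕜,
        Θ.card ≤ N * (N + 1) ∧ (∀ z ∈ Θ, ∃ l ∈ P, ∃ i, l i = z) ∧ ∀ l ∈ P, Free D Θ l := by
  obtain ⟨C, hC⟩ := tower (𝕜 := 𝕜) N D (N + 1)
  filter_upwards [(eventually_all_finset (range (N * (N + 2) + 1))).2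
    fun r _ => small hN hA d r C hγ] with y hy P h1 h2
  rcases P.eq_empty_or_nonempty with rfl | ⟨p, hp⟩
  · exact ⟨∅, by simp, by simp, by simp⟩
  obtain ⟨Θ, h3, ⟨h4, h5⟩ | ⟨-, h5, r, h6, h7, h8⟩⟩ := hC P p hp
  · exact ⟨Θ, h4, h3, h5⟩
  choose l hl i hi using fun z : Θ => h3 z z.2
  let e : Θ → 𝕜 := fun z => l z (i z) - p (i z)
  have g4 : span ℚ (Θ : Set 𝕜) ≤ span ℚ (Set.range e) ⊔ span ℚ (Set.range p) := by
    refine span_le.2 fun z hz => ?_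
    rw [show z = e ⟨z, hz⟩ + p (i ⟨z, hz⟩) from ((sub_add_cancel _ _).trans (hi ⟨z, hz⟩)).symm]
    exact add_mem_sup (subset_span ⟨_, rfl⟩) (subset_span ⟨_, rfl⟩)
  have f1 := FiniteDimensional.span_of_finite ℚ (Set.finite_range e)
  have f2 := FiniteDimensional.span_of_finite ℚ (Set.finite_range p)
  have g5 := (finrank_mono g4).trans (finrank_add_le_finrank_add_finrank _ _)
  have g6 : finrank ℚ (span ℚ (Set.range p)) ≤ N := (finrank_range_le_card p).trans (by simp)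
  obtain ⟨u, hu⟩ := exists_indep e (n := r + 1) (by omega)
  exact absurd hu (hy r (mem_range.2 (Nat.lt_succ_of_le h7)) Θ h6 (fun k => l (u k) (i (u k)))
    (fun k => p (i (u k))) (fun k => sub_mem (mem_V (hi (u k) ▸ (u k).2)) (mem_V (h5 _)))
    (fun k => h1 _ (hl _) _) (fun k => h1 _ hp _) fun k => h2 _ (hl _) _ hp _)

theorem exc (hN : TA.Nice 𝕜) (hA : Fam Sm Dm) (N D d : ℕ) {ε : ℝ} (hε : 0 < ε) :
    ∀ᶠ y : ℕ in atTop, ∀ L : Set 𝕜, L ⊆ Adm Sm d (Real.log y) → ∃ 𝒲 : Finset (Finset 𝕜),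
      (𝒲.card : ℝ) ≤ (y : ℝ) ^ ε ∧ (∀ W ∈ 𝒲, W.card ≤ N * (N + 1) ∧ (W : Set 𝕜) ⊆ L) ∧
        ∀ l : Fin N → 𝕜, (∀ k, l k ∈ L) → ∃ W ∈ 𝒲, Free D W l := by
  classical
  obtain ⟨γ, hγ, hc⟩ := hA.cov d 1 (ε / (N + 1 : ℕ)) (by positivity)
  simp only [one_mul] at hc
  filter_upwards [hc, cells hN hA N D d hγ, eventually_ge_atTop 1]
    with y ⟨β, T, cell, hT, hcT, hcell⟩ h0 hy L hL
  have hy1 : (1 : ℝ) ≤ y := by exact_mod_cast hy
  choose Θ h1 h2 h3 using fun b : Fin N → β => h0 {l | ∀ k, l k ∈ L ∧ cell (l k) = b k}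
    (fun l hl i => hL (hl i).1) fun l hl l' hl' i =>
      hcell _ (hL (hl i).1) _ (hL (hl' i).1) ((hl i).2.trans (hl' i).2.symm)
  refine ⟨(Fintype.piFinset fun _ => T).image Θ, ?_, fun W hW => ?_, fun l hl =>
    ⟨_, mem_image_of_mem Θ (Fintype.mem_piFinset.2 fun k => hcT _ (hL (hl k))),
      h3 _ l fun k => ⟨hl k, rfl⟩⟩⟩
  · refine (Nat.cast_le.2 card_image_le).trans ?_
    rw [Fintype.card_piFinset_const, Nat.cast_pow]
    refine (pow_le_pow_left₀ (by positivity) hT _).trans ((pow_le_pow_right₀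
      (Real.one_le_rpow hy1 (by positivity)) N.le_succ).trans_eq ?_)
    rw [← Real.rpow_mul_natCast (by positivity), div_mul_cancel₀ _ (by positivity)]
  · obtain ⟨b, -, rfl⟩ := mem_image.1 hW
    refine ⟨h1 b, fun z hz => ?_⟩
    obtain ⟨l, hl, i, rfl⟩ := h2 b z hz
    exact (hl i).1

lemma alg_of {R K : Type} [Field R] [Field K] [NumberField K] {d H : ℕ} {q : R} {φ : K →+* R}
    {α : K} (h1 : finrank ℚ K ≤ d) (h2 : q = φ α) (h3 : Height.mulHeight₁ α ≤ H) :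
    Alg d (Real.log H) q :=
  ⟨K, _, ‹_›, φ, α, h1, h2, Real.log_le_log (by positivity) h3⟩

end Pool.Agent.Lib.MP_1f047c_nt.Ex
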