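import Mathlib

/-! Logarithmic differentials in finitely generated fields: the residue lemma. -/

open Polynomial Finset

namespace Pool.Agent.Lib.MP_1f047c_nt

/-- A derivation from a section of the dual numbers. -/
noncomputable def derOfHom {A : Type*} [CommRing A] (Φ : A →+* DualNumber A)
    (h : ∀ a, (Φ a).fst = a) : Derivation ℤ A A :=
  Derivation.mk' (AddMonoidHom.toIntLinearMap
    { toFun := fun a => (Φ a).snd
      map_zero' := by simp
      map_add' := by simp })
    (by
      intro a b
      simp [h, mul_comm])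

@[simp] lemma derOfHom_apply {A : Type*} [CommRing A] (Φ : A →+* DualNumber A)
    (h : ∀ a, (Φ a).fst = a) (a : A) : derOfHom Φ h a = (Φ a).snd := rfl

/-- The residue property. -/
def Res (E k : Type) [Field E] [Field k] [Algebra E k] (u : k) : Prop :=
  ∃ d : Derivation ℤ k k, d u = 1 ∧ ∃ ord : k → ℤ,
    (∀ x y, x ≠ 0 → y ≠ 0 → ord (x * y) = ord x + ord y) ∧ ord u ≠ 0 ∧
    ∀ (ι : Type) [Fintype ι] (c : ι → E) (w : ι → k) (T : k), (∀ i, w i ≠ 0) →
      ∑ i, algebraMap E k (c i) * (d (w i) / w i) = d T → ∑ i, c i * ord (w i) = 0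

lemma exists_der_frac (E F : Type) [Field E] [Field F] [Algebra E[X] F] [IsFractionRing E[X] F] :
    ∃ d : Derivation ℤ F F,
    ∀ p : E[X], d (algebraMap _ _ p) = algebraMap _ _ (derivative p) := by
  let φ : E[X] →+* DualNumber F :=
    { toFun := fun p => TrivSqZeroExt.inl (algebraMap _ _ p) +
        TrivSqZeroExt.inr (algebraMap _ F (derivative p))
      map_one' := by simp
      map_mul' := by
        intro p q
        ext <;> simp [mul_comm, add_comm, Algebra.smul_def, TrivSqZeroExt.algebraMap_eq_inl]
      map_zero' := by simp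
      map_add' := by
        intro p q
        ext <;> simp [Algebra.smul_def] }
  have hu : ∀ y : nonZeroDivisors E[X], IsUnit (φ y) := by
    intro y
    rw [TrivSqZeroExt.isUnit_iff_isUnit_fst]
    simp [φ, nonZeroDivisors.coe_ne_zero y]
  let Φ : F →+* DualNumber F := IsLocalization.lift hu
  have hΦ : ∀ p : E[X], Φ (algebraMap _ _ p) = φ p := fun p => IsLocalization.lift_eq hu p
  have h : ∀ a, (Φ a).fst = a := by
    have : (TrivSqZeroExt.fstHom F F F).toRingHom.comp Φ =
        RingHom.id _ := by
      apply IsLocalization.ringHom_ext (nonZeroDivisors E[X])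
      refine RingHom.ext fun p => ?_
      simp [hΦ, φ]
    intro a
    exact congrArg (fun f => f a) this
  refine ⟨derOfHom Φ h, fun p => ?_⟩
  simp [hΦ, φ, Algebra.smul_def, TrivSqZeroExt.algebraMap_eq_inl]

open scoped WithZero in
lemma res_frac (E F : Type) [Field E] [CharZero E] [Field F] [Algebra E[X] F]
    [IsFractionRing E[X] F] [Algebra E F] [IsScalarTower E E[X] F] :
    Res E F (algebraMap E[X] F X) := by
  obtain ⟨d, hd⟩ := exists_der_frac E F
  have inj : ∀ p : E[X], p ≠ 0 → algebraMap E[X] F p ≠ 0 := fun p hp => by simpa using hp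
  set t := algebraMap E[X] F X with ht
  have t0 : t ≠ 0 := inj _ X_ne_zero
  have hdX : d t = 1 := by
    have := hd X
    simpa using this
  set v : Valuation F ℤᵐ⁰ := (Polynomial.idealX E).valuation F with hv
  have vX : v t = WithZero.exp (-1) := by
    rw [hv, ht, IsDedekindDomain.HeightOneSpectrum.valuation_of_algebraMap]
    exact IsDedekindDomain.HeightOneSpectrum.intValuation_singleton _ X_ne_zero (idealX_span E)
  have vX1 : v t < 1 := by
    rw [vX, ← WithZero.exp_zero, WithZero.exp_lt_exp]; norm_num
  have vp : ∀ p : E[X], v (algebraMap _ _ p) ≤ 1 := fun p =>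
    IsDedekindDomain.HeightOneSpectrum.valuation_le_one _ p
  have vp1 : ∀ p : E[X], ¬ X ∣ p → v (algebraMap _ _ p) = 1 := by
    intro p hp
    refine le_antisymm (vp p) (not_lt.mp fun h => hp ?_)
    rw [IsDedekindDomain.HeightOneSpectrum.valuation_lt_one_iff_dvd, Polynomial.idealX_span,
      Ideal.span_singleton_dvd_span_singleton_iff_dvd] at h
    exact h
  have vC : ∀ c : E, c ≠ 0 → v (algebraMap E _ c) = 1 := by
    intro c hc
    rw [IsScalarTower.algebraMap_apply E E[X] F]
    exact vp1 (C c) (by simpa [X_dvd_iff] using hc)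
  have vC' : ∀ c : E, v (algebraMap E _ c) ≤ 1 := by
    intro c
    by_cases hc : c = 0
    · simp [hc]
    · exact (vC c hc).le
  let ord : F → ℤ := fun x => - WithZero.log (v x)
  have ordm : ∀ x y, x ≠ 0 → y ≠ 0 → ord (x * y) = ord x + ord y := by
    intro x y hx hy
    simp only [ord, map_mul]
    rw [WithZero.log_mul (by simpa using hx) (by simpa using hy)]
    ring
  have ord1 : ord 1 = 0 := by simp [ord]
  have ordX : ord t = 1 := by simp [ord, vX]
  let Pr : F → Prop := fun x => v (t * (d x / x) - ord x) < 1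
  have Prm : ∀ x y, x ≠ 0 → y ≠ 0 → Pr x → Pr y → Pr (x * y) := by
    intro x y hx hy h1 h2
    have : t * (d (x * y) / (x * y)) - ord (x * y) =
        (t * (d x / x) - ord x) + (t * (d y / y) - ord y) := by
      rw [ordm x y hx hy, Derivation.leibniz]
      simp only [smul_eq_mul]
      push_cast
      field_simp
      ring
    simp only [Pr]
    rw [this]
    exact v.map_add_lt h1 h2
  have Pri : ∀ x, x ≠ 0 → Pr x → Pr x⁻¹ := by
    intro x hx h1
    have e : ord x⁻¹ = - ord x := by
      have := ordm x x⁻¹ hx (inv_ne_zero hx)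
      rw [mul_inv_cancel₀ hx, ord1] at this
      omega
    have : t * (d x⁻¹ / x⁻¹) - ord x⁻¹ = -(t * (d x / x) - ord x) := by
      rw [e, Derivation.leibniz_inv]
      simp only [smul_eq_mul]
      push_cast
      field_simp
      ring
    simp only [Pr]
    rw [this, v.map_neg]
    exact h1
  have PrX : Pr t := by
    simp only [Pr, hdX, ordX]
    rw [mul_one_div_cancel t0]
    simp
  have Prp : ∀ p : E[X], p ≠ 0 → Pr (algebraMap _ _ p) := by
    intro p hp
    obtain ⟨q, hq, hq'⟩ := exists_eq_pow_rootMultiplicity_mul_and_not_dvd p hp 0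
    simp only [map_zero, sub_zero] at hq hq'
    have hq0 : q ≠ 0 := by rintro rfl; simp at hq'
    have h1 : Pr (algebraMap _ _ q) := by
      simp only [Pr, ord, vp1 q hq', hd]
      simp only [WithZero.log_one, neg_zero, Int.cast_zero, sub_zero, map_mul, map_div₀, vp1 q hq',
        div_one]
      exact lt_of_le_of_lt (mul_le_of_le_one_right' (vp _)) vX1
    have h2 : ∀ n : ℕ, Pr (t ^ n) := by
      intro n
      induction n with
      | zero => simp [Pr, ord1]
      | succ n ih =>
        rw [pow_succ]
        exact Prm _ _ (pow_ne_zero _ t0) t0 ih PrX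
    rw [hq, map_mul, map_pow, ← ht]
    exact Prm _ _ (pow_ne_zero _ t0) (by simpa using hq0) (h2 _) h1
  have Prx : ∀ x, x ≠ 0 → Pr x := by
    intro x hx
    obtain ⟨p, q, hq, rfl⟩ := IsFractionRing.div_surjective (A := E[X]) x
    have hq0 := nonZeroDivisors.ne_zero hq
    have hp0 : p ≠ 0 := by rintro rfl; simp at hx
    rw [div_eq_mul_inv]
    exact Prm _ _ (inj _ hp0) (inv_ne_zero (inj _ hq0)) (Prp _ hp0) (Pri _ (inj _ hq0) (Prp _ hq0))
  refine ⟨d, hdX, ord, ordm, by simp [ordX], ?_⟩
  intro ι _ c w T hw h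
  by_contra hs
  have h1 : v (t * d T - algebraMap E _ (∑ i, c i * ord (w i))) < 1 := by
    have : t * d T - algebraMap E _ (∑ i, c i * ord (w i)) =
        ∑ i, algebraMap E _ (c i) * (t * (d (w i) / w i) - ord (w i)) := by
      rw [← h, map_sum, mul_sum, ← sum_sub_distrib]
      refine sum_congr rfl fun i _ => ?_
      simp only [map_mul, map_intCast]
      ring
    rw [this]
    refine v.map_sum_lt one_ne_zero fun i _ => ?_
    rw [map_mul]
    exact lt_of_le_of_lt (mul_le_of_le_one_left' (vC' _)) (Prx _ (hw i))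
  have h2 : v (t * d T) = 1 := by
    have := v.map_add_eq_of_lt_left (x := algebraMap E _ (∑ i, c i * ord (w i)))
      (y := t * d T - algebraMap E _ (∑ i, c i * ord (w i))) (by rw [vC _ hs]; exact h1)
    rw [add_sub_cancel, vC _ hs] at this
    exact this
  have hT : T ≠ 0 := by
    rintro rfl
    simp at h2
  have h3 : t * d T = T * (ord T + (t * (d T / T) - ord T)) := by
    field_simp
    ring
  have h4 := Prx T hT
  simp only [Pr] at h4
  rw [h3, map_mul] at h2
  by_cases h0 : ord T = 0
  · have : v T = 1 := by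
      have hvT : v T ≠ 0 := by simpa using hT
      rw [← WithZero.exp_log hvT, show WithZero.log (v T) = 0 by simpa [ord] using h0]
      rfl
    rw [this, h0] at h2
    rw [h0] at h4
    simp only [Int.cast_zero, sub_zero, zero_add, one_mul] at h2 h4
    exact h4.ne h2
  · have h5 : v (ord T : F) = 1 := by
      have := vC (ord T : E) (by exact_mod_cast h0)
      simpa using this
    rw [v.map_add_eq_of_lt_left (by rw [h5]; exact h4), h5, mul_one] at h2
    exact h0 (by simp [ord, h2])

lemma Res.finite {E F k : Type} [Field E] [Field F] [Field k] [CharZero F] [Algebra E F]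
    [Algebra F k] [Algebra E k] [IsScalarTower E F k] [FiniteDimensional F k] {x : F}
    (h : Res E F x) : Res E k (algebraMap F k x) := by
  classical
  obtain ⟨d, hd, ord, ordm, ordx, hres⟩ := h
  let _ : Differential F := ⟨d⟩
  let _ : Differential k := Differential.differentialFiniteDimensional F k
  have _ : DifferentialAlgebra F k := Differential.differentialAlgebraFiniteDimensional
  let L := IntermediateField.normalClosure F k (AlgebraicClosure k)
  have _ : IsGalois F L := {}
  let j : k →ₐ[F] L := IsScalarTower.toAlgHom F k L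
  have jd : ∀ y : k, j (Differential.deriv y) = Differential.deriv (j y) := fun y =>
    Differential.algHom_deriv' j j.injective y
  have hx : x ≠ 0 := by
    rintro rfl
    simp at hd
  have ordp : ∀ n : ℕ, ord (x ^ n) = n * ord x := by
    intro n
    induction n with
    | zero =>
      have := ordm 1 1 one_ne_zero one_ne_zero
      simp at this
      simpa using this
    | succ n ih => rw [pow_succ, ordm _ _ (pow_ne_zero _ hx) hx, ih]; push_cast; ring
  have nz : ∀ y : k, y ≠ 0 → Algebra.norm F (j y) ≠ 0 := fun y hy => by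
    rw [Algebra.norm_ne_zero_iff]
    simpa using hy
  refine ⟨Differential.deriv, ?_, fun y => ord (Algebra.norm F (j y)), ?_, ?_, ?_⟩
  · rw [DifferentialAlgebra.deriv_algebraMap]
    change algebraMap F k (d x) = 1
    rw [hd, map_one]
  · intro y z hy hz
    simp only [map_mul]
    exact ordm _ _ (nz y hy) (nz z hz)
  · simp only [AlgHom.commutes, Algebra.norm_algebraMap, ordp]
    exact mul_ne_zero (by exact_mod_cast Module.finrank_pos.ne') ordx
  · intro ι _ c w T hw h
    refine hres ι c _ (Algebra.trace F L (j T)) (fun i => nz _ (hw i)) ?_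
    apply (algebraMap F L).injective
    have e1 : ∀ y : F, algebraMap F L (d y) = Differential.deriv (algebraMap F L y) := fun y =>
      (DifferentialAlgebra.deriv_algebraMap y).symm
    have e2 : ∀ i, algebraMap F L (d (Algebra.norm F (j (w i))) / Algebra.norm F (j (w i))) =
        ∑ σ : L ≃ₐ[F] L, σ (j (Differential.deriv (w i) / w i)) := by
      intro i
      rw [map_div₀, e1, Algebra.norm_eq_prod_automorphisms]
      have := Differential.logDeriv_prod _ univ (fun σ : L ≃ₐ[F] L => σ (j (w i)))
        (fun σ _ => by simpa using hw i)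
      simp only [Differential.logDeriv] at this
      rw [this]
      refine sum_congr rfl fun σ _ => ?_
      rw [map_div₀, map_div₀, jd, Differential.algEquiv_deriv']
    rw [e1, trace_eq_sum_automorphisms, map_sum, map_sum]
    simp only [map_mul, e2, mul_sum]
    rw [sum_comm]
    refine sum_congr rfl fun σ _ => ?_
    rw [← Differential.algEquiv_deriv', ← jd, ← h, map_sum, map_sum]
    refine sum_congr rfl fun i _ => ?_
    rw [map_mul, map_mul, IsScalarTower.algebraMap_apply E F k, AlgHom.commutes, AlgEquiv.commutes]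

open IntermediateField in
lemma exists_res {k σ : Type} [Field k] [CharZero k] [Finite σ] (y : σ → k)
    (hy : adjoin ℚ (Set.range y) = ⊤) (u : k) (hu : Transcendental ℚ u) :
    ∃ E : IntermediateField ℚ k, (∀ c, IsAlgebraic ℚ c → c ∈ E) ∧ Res E k u := by
  classical
  let C0 := algebraicClosure ℚ k
  have _ : Algebra.IsAlgebraic ℚ C0 := algebraicClosure.isAlgebraic ℚ k
  have hu0 : Transcendental C0 u := hu.extendScalars C0
  obtain ⟨t, hut, ht⟩ := exists_isTranscendenceBasis_superset (R := C0) (s := {u})
    (by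
      have := algebraicIndependent_unique_type_iff (R := C0) (x := fun i : ({u} : Set k) => (i : k))
      exact this.2 hu0)
  have hut' : u ∈ t := hut rfl
  let E0 : IntermediateField C0 k := adjoin C0 (t \ {u})
  have hE : Transcendental E0 u := by
    have := ht.1.transcendental_adjoin (s := {i | i ≠ ⟨u, hut'⟩}) (i := ⟨u, hut'⟩) (by simp)
    rw [transcendental_adjoin_iff]
    have e : t \ {u} = ((↑) : t → k) '' {i | i ≠ ⟨u, hut'⟩} := by
      ext x
      constructor
      · rintro ⟨h1, h2⟩
        exact ⟨⟨x, h1⟩, fun h => h2 (congrArg Subtype.val h), rfl⟩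
      · rintro ⟨⟨z, hz⟩, h1, rfl⟩
        exact ⟨hz, fun h => h1 (Subtype.ext h)⟩
    rw [e]
    exact this
  refine ⟨E0.restrictScalars ℚ, fun c hc => E0.algebraMap_mem ⟨c, mem_algebraicClosure_iff.2 hc⟩, ?_⟩
  change Res E0 k u
  let F := E0⟮u⟯
  let _ : Algebra E0[X] F := (aeval (AdjoinSimple.gen E0 u)).toRingHom.toAlgebra
  have _ : IsScalarTower E0 E0[X] F := IsScalarTower.of_algebraMap_eq fun c => by
    change _ = aeval _ _
    simp
  have _ : IsFractionRing E0[X] F :=
    IsLocalization.isLocalization_of_algEquiv (nonZeroDivisors E0[X]) (S := RatFunc E0)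
      { (RatFunc.algEquivOfTranscendental u hE).toRingEquiv with
        commutes' := fun g => RatFunc.algEquivOfTranscendental_algebraMap u hE g }
  have halg : Algebra.IsAlgebraic F k := by
    have h1 := ht.isAlgebraic_field
    have hle : adjoin C0 (Set.range ((↑) : t → k)) ≤ F.restrictScalars C0 := by
      rw [adjoin_le_iff]
      rintro _ ⟨⟨z, hz⟩, rfl⟩
      by_cases h : z = u
      · subst h
        exact mem_adjoin_simple_self E0 z
      · exact F.algebraMap_mem ⟨z, subset_adjoin C0 _ ⟨hz, h⟩⟩
    refine ⟨fun z => ?_⟩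
    have := (h1.isAlgebraic z).tower_top_of_subalgebra_le
      (A := (adjoin C0 (Set.range ((↑) : t → k))).toSubalgebra)
      (B := (F.restrictScalars C0).toSubalgebra) hle
    exact this
  have _ : FiniteDimensional F k := by
    have h1 : FiniteDimensional F (adjoin F (Set.range y)) :=
      finiteDimensional_adjoin fun x _ => (halg.isAlgebraic x).isIntegral
    have h2 : adjoin F (Set.range y) = ⊤ := by
      rw [eq_top_iff]
      intro x _
      have : adjoin ℚ (Set.range y) ≤ (adjoin F (Set.range y)).restrictScalars ℚ :=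
        adjoin_le_iff.2 (subset_adjoin F _)
      exact this (hy ▸ mem_top)
    rw [h2] at h1
    exact (topEquiv (F := F) (E := k)).toLinearEquiv.finiteDimensional
  have := (res_frac E0 F).finite (k := k)
  convert this
  change u = ((aeval (AdjoinSimple.gen E0 u) (X : E0[X]) : F) : k)
  simp

lemma alg_of_const {k σ : Type} [Field k] [CharZero k] [Finite σ] (y : σ → k)
    (hy : IntermediateField.adjoin ℚ (Set.range y) = ⊤) (u : k)
    (h : ∀ d : Derivation ℤ k k, d u = 0) : IsAlgebraic ℚ u := by
  by_contra hu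
  obtain ⟨E, -, d, hd, -⟩ := exists_res y hy u hu
  simp [h d] at hd

lemma exists_monomial {k σ ι : Type} [Field k] [CharZero k] [Finite σ] [Fintype ι] (y : σ → k)
    (hy : IntermediateField.adjoin ℚ (Set.range y) = ⊤) (a c : ι → k) (T : k)
    (ha : ∀ i, a i ≠ 0) (hc : ∀ i, IsAlgebraic ℚ (c i)) (hc0 : c ≠ 0)
    (h : ∀ d : Derivation ℤ k k, ∑ i, c i * (d (a i) / a i) = d T) :
    ∃ m : ι → ℤ, m ≠ 0 ∧ IsAlgebraic ℚ (∏ i, a i ^ m i) := by
  classical
  obtain ⟨i0, hi0⟩ := Function.ne_iff.1 hc0
  obtain ⟨l, hl⟩ := Module.Projective.exists_dual_ne_zero ℚ hi0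
  obtain ⟨N, hN⟩ := IsLocalization.exist_integer_multiples_of_finite (nonZeroDivisors ℤ)
    (fun i => l (c i))
  choose m hm using hN
  have hN0 : ((N : ℤ) : ℚ) ≠ 0 := by exact_mod_cast nonZeroDivisors.coe_ne_zero N
  have hm' : ∀ i, (m i : ℚ) = (N : ℤ) * l (c i) := fun i => by simpa using hm i
  refine ⟨m, Function.ne_iff.2 ⟨i0, fun h0 => ?_⟩, ?_⟩
  · have := hm' i0
    rw [h0] at this
    simp only [Pi.zero_apply, Int.cast_zero] at this
    exact mul_ne_zero hN0 hl this.symm
  by_contra hu
  obtain ⟨E, hE, d, -, ord, ordm, ordu, hres⟩ := exists_res y hy _ hu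
  have h1 := hres ι (fun i => ⟨c i, hE _ (hc i)⟩) a T ha (h d)
  have h2 : ∑ i, (ord (a i) : ℚ) • c i = 0 := by
    have := congrArg (algebraMap E k) h1
    simp only [map_sum, map_mul, map_intCast, map_zero] at this
    rw [← this]
    refine sum_congr rfl fun i _ => ?_
    rw [Int.cast_smul_eq_zsmul, zsmul_eq_mul, mul_comm]
    rfl
  have h3 : ∑ i, m i * ord (a i) = 0 := by
    have := congrArg l h2
    simp only [map_sum, map_smul, smul_eq_mul, map_zero] at this
    have h4 : ((∑ i, m i * ord (a i) : ℤ) : ℚ) = (N : ℤ) * ∑ i, (ord (a i) : ℚ) * l (c i) := by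
      push_cast
      rw [mul_sum]
      exact sum_congr rfl fun i _ => by rw [hm']; ring
    rw [this, mul_zero] at h4
    exact_mod_cast h4
  let f : kˣ →* Multiplicative ℤ := MonoidHom.mk' (fun x => Multiplicative.ofAdd (ord x))
    fun x z => by
      rw [Units.val_mul, ordm _ _ x.ne_zero z.ne_zero, ofAdd_add]
  have h5 : f (∏ i, Units.mk0 (a i) (ha i) ^ m i) = 1 := by
    rw [map_prod]
    simp only [map_zpow]
    apply Multiplicative.toAdd.injective
    simpa [f, toAdd_prod] using h3
  apply ordu
  have h6 : ord ((∏ i, Units.mk0 (a i) (ha i) ^ m i : kˣ) : k) = 0 := h5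
  simpa using h6

end Pool.Agent.Lib.MP_1f047c_nt
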