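import Pool.Agent.Lib.MP_1f047c_nt.Stab
import Pool.Agent.Lib.MP_1f047c_nt.Resid

/-! The support of the limit valuation is stable under logarithmic derivations. -/

open Finset Module MvPolynomial Sum
open scoped NNReal

namespace Pool.Agent.Lib.MP_1f047c_nt

/-- Additive derivations of a ring. -/
abbrev Der (A : Type) [CommRing A] := Derivation ℤ A A

/-- Polynomials in the algebraic data. -/
abbrev R0 (ι κ : Type) := MvPolynomial (ι ⊕ κ) ℚ

/-- Polynomials in the algebraic data and the logarithms. -/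
abbrev SS (ι κ : Type) := MvPolynomial ι (R0 ι κ)

variable {ι κ : Type}

/-- Remainder of the exponential series. -/
noncomputable def rem (i : ι) (T : ℕ) : SS ι κ :=
  1 + C (X (inl i)) - ∑ j ∈ range T, algebraMap ℚ (SS ι κ) (1 / j.factorial) * X i ^ j

/-- The hypotheses on the limit valuation. -/
structure Hyp (V : Valuation (SS ι κ) ℝ≥0) (θ : ℝ≥0) (Cst : ℕ) : Prop where
  pos : 0 < θ
  lt : θ < 1
  hQ : ∀ q : ℚ, q ≠ 0 → V (algebraMap ℚ _ q) = 1
  hΛ : ∀ i, V (X i) ≤ θ
  hΓ : ∀ j, V (C (X (inr j))) ≤ 1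
  hE : ∀ i T, V (rem i T) ≤ θ ^ T
  hL : ∀ P : R0 ι κ, V (C P) ≠ 0 → θ ^ (Cst * P.totalDegree) ≤ V (C P)

variable {V : Valuation (SS ι κ) ℝ≥0} {θ : ℝ≥0} {Cst : ℕ}

lemma Hyp.hZ (H : Hyp V θ Cst) (i : ι) : V (C (X (inl i))) ≤ θ := by
  simpa [rem] using H.hE i 1

lemma Hyp.hQ' (H : Hyp V θ Cst) (q : ℚ) : V (algebraMap ℚ _ q) ≤ 1 := by
  by_cases h : q = 0
  · simp [h]
  · exact (H.hQ q h).le

lemma Hyp.le_one (H : Hyp V θ Cst) (f : SS ι κ) : V f ≤ 1 := by
  induction f using MvPolynomial.induction_on with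
  | C r =>
    induction r using MvPolynomial.induction_on with
    | C q => exact H.hQ' q
    | add p q hp hq => rw [map_add]; exact V.map_add_le hp hq
    | mul_X p s hp =>
      rw [map_mul, map_mul]
      refine mul_le_one' hp ?_
      rcases s with i | j
      · exact (H.hZ i).trans H.lt.le
      · exact H.hΓ j
  | add p q hp hq => exact V.map_add_le hp hq
  | mul_X p i hp => rw [map_mul]; exact mul_le_one' hp ((H.hΛ i).trans H.lt.le)

lemma finrank_rtd (σ : Type) [Fintype σ] (n : ℕ) :
    finrank ℚ (restrictTotalDegree σ ℚ n) ≤ (n + 1) ^ Fintype.card σ := by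
  classical
  refine (Submodule.finrank_mono (restrictTotalDegree_le_restrictDegree σ (R := ℚ) n)).trans ?_
  have := (basisRestrictSupport ℚ {s : σ →₀ ℕ | ∀ i, s i ≤ n}).mk_eq_rank''
  change finrank ℚ (restrictSupport ℚ {s : σ →₀ ℕ | ∀ i, s i ≤ n}) ≤ _
  rw [finrank, ← this]
  change Nat.card _ ≤ _
  refine (Nat.card_le_card_of_injective (β := σ → Fin (n + 1))
    (fun s i => ⟨s.1 i, Nat.lt_succ_of_le (s.2 i)⟩) fun s t h => ?_).trans (by simp)
  ext i
  exact congrArg Fin.val (congrFun h i)

lemma exists_der [Fintype ι] (D0 : Derivation ℚ (R0 ι κ) (R0 ι κ)) (c : ι → R0 ι κ) :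
    ∃ D : Der (SS ι κ), (∀ r, D (C r) = C (D0 r)) ∧ (∀ i, D (X i) = C (c i)) ∧
      ∀ f β, coeff β (D f) =
        D0 (coeff β f) + ∑ i, c i * (coeff (β + Finsupp.single i 1) f * (β i + 1)) := by
  classical
  let ψ : R0 ι κ →+* DualNumber (SS ι κ) :=
    { toFun := fun r => TrivSqZeroExt.inl (C r) + TrivSqZeroExt.inr (C (D0 r))
      map_one' := by simp
      map_mul' := by
        intro p q
        ext1 <;> simp [mul_comm]
      map_zero' := by simp
      map_add' := by
        intro p q
        ext1 <;> simp }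
  let Φ : SS ι κ →+* DualNumber (SS ι κ) :=
    eval₂Hom ψ fun i => TrivSqZeroExt.inl (X i) + TrivSqZeroExt.inr (C (c i))
  have h : ∀ a, (Φ a).fst = a := by
    intro a
    induction a using MvPolynomial.induction_on with
    | C r => simp [Φ, ψ]
    | add p q hp hq => simp [hp, hq]
    | mul_X p i hp => rw [map_mul, TrivSqZeroExt.fst_mul, hp]; simp [Φ]
  let D := derOfHom Φ h
  have h1 : ∀ r, D (C r) = C (D0 r) := fun r => by simp [D, Φ, ψ]
  have h2 : ∀ i, D (X i) = C (c i) := fun i => by simp [D, Φ]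
  refine ⟨D, h1, h2, fun f β => ?_⟩
  have key : ∀ f β, coeff β (D f - ∑ i, C (c i) * pderiv i f) = D0 (coeff β f) := by
    intro f
    induction f using MvPolynomial.induction_on with
    | C r =>
      intro β
      simp only [h1, pderiv_C, mul_zero, sum_const_zero, sub_zero, coeff_C]
      split_ifs <;> simp
    | add p q hp hq =>
      intro β
      rw [coeff_add, map_add D0, ← hp, ← hq, ← coeff_add]
      simp only [map_add, mul_add, sum_add_distrib]
      congr 1
      ring
    | mul_X p n hp =>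
      intro β
      have : D (p * X n) - ∑ i, C (c i) * pderiv i (p * X n) =
          (D p - ∑ i, C (c i) * pderiv i p) * X n := by
        have e : ∑ i, C (c i) * (p * pderiv i (X n : SS ι κ)) = p * C (c n) := by
          rw [sum_eq_single n, pderiv_X_self, mul_one, mul_comm]
          · intro i _ hi
            rw [pderiv_X_of_ne hi.symm, mul_zero, mul_zero]
          · simp
        simp only [Derivation.leibniz, smul_eq_mul, h2, mul_add, sum_add_distrib, e, sub_mul,
          sum_mul]
        rw [add_sub_add_left_eq_sub, mul_comm]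
        congr 1
        exact sum_congr rfl fun i _ => by ring
      rw [this, coeff_mul_X', coeff_mul_X']
      split_ifs
      · exact hp _
      · simp
  rw [← key f β, coeff_sub, coeff_sum]
  simp only [coeff_C_mul, coeff_pderiv, sub_add_cancel]

lemma der_rat {k : Type} [Field k] [CharZero k] (d : Der k) (q : ℚ) : d (q : k) = 0 := by
  rw [Rat.cast_def, Derivation.leibniz_div]
  simp

lemma Hyp.stab [Fintype ι] [Fintype κ] (H : Hyp V θ Cst) (D0 : Derivation ℚ (R0 ι κ) (R0 ι κ)) (c : ι → R0 ι κ)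
    (D : Der (SS ι κ)) (h1 : ∀ r, D (C r) = C (D0 r)) (h2 : ∀ i, D (X i) = C (c i))
    (h3 : ∀ i, D0 (X (inl i)) = c i * (1 + X (inl i)))
    (h4 : ∀ r, V (C r) = 0 → V (C (D0 r)) = 0) (f : SS ι κ) (hf : V f = 0) : V (D f) = 0 := by
  classical
  obtain ⟨W, W1, W2⟩ := exists_gauss D V θ H.lt H.le_one fun n hn => by
    simpa using H.hQ n (by exact_mod_cast hn)
  have hVW : ∀ u, V u ≤ W u := fun u => by simpa using W1 u 0
  have hW : ∀ u, W u ≤ 1 := fun u => W2 _ _ fun k =>
    mul_le_one' (pow_le_one₀ zero_le H.lt.le) (H.le_one _)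
  have Wrec : ∀ u g, V u ≤ g → θ * W (D u) ≤ g → W u ≤ g := by
    intro u g hu hD
    refine W2 _ _ fun k => ?_
    rcases k with _ | k
    · simpa using hu
    · rw [pow_succ', mul_assoc, Function.iterate_succ_apply]
      exact (mul_le_mul_right (W1 _ k) _).trans hD
  have hc : ∀ r, V (C r) = 0 → W (C r) = 0 := by
    intro r hr
    refine nonpos_iff_eq_zero.1 (W2 _ _ fun k => ?_)
    have : ∃ r', D^[k] (C r) = C r' ∧ V (C r') = 0 := by
      induction k with
      | zero => exact ⟨r, rfl, hr⟩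
      | succ k ih =>
        obtain ⟨r', e, h⟩ := ih
        exact ⟨D0 r', by rw [Function.iterate_succ_apply', e, h1], h4 _ h⟩
    obtain ⟨r', e, h⟩ := this
    simp [e, h]
  have Dq : ∀ q : ℚ, D (algebraMap ℚ _ q) = 0 := fun q => by
    rw [IsScalarTower.algebraMap_apply ℚ (R0 ι κ) (SS ι κ), algebraMap_eq, h1, D0.map_algebraMap,
      map_zero]
  have WΛ : ∀ i, W (X i) ≤ θ := fun i => Wrec _ _ (H.hΛ i) (mul_le_of_le_one_right' (hW _))
  have Drem : ∀ i T, D (rem i (T + 1)) = C (c i) * rem i T := by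
    intro i T
    induction T with
    | zero => simp [rem, h1, h3]
    | succ T ih =>
      have e : ∀ T, rem (κ := κ) i (T + 1) =
          rem i T - algebraMap ℚ _ (1 / T.factorial) * X i ^ T := fun T => by
        simp only [rem, sum_range_succ]; ring
      have e2 : algebraMap ℚ (SS ι κ) (1 / (T + 1).factorial) * ((T + 1 : ℕ) : SS ι κ) =
          algebraMap ℚ _ (1 / T.factorial) := by
        rw [← map_natCast (algebraMap ℚ (SS ι κ)), ← map_mul]
        congr 1
        rw [Nat.factorial_succ]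
        push_cast
        field_simp
      rw [e (T + 1), map_sub, ih, e T, Derivation.leibniz, Dq, Derivation.leibniz_pow, h2, ← e2]
      simp only [smul_eq_mul, nsmul_eq_mul, Nat.add_sub_cancel]
      ring
  have Wrem : ∀ i T, W (rem i T) ≤ θ ^ T := by
    intro i T
    induction T with
    | zero => simpa using hW _
    | succ T ih =>
      refine Wrec _ _ (H.hE i _) ?_
      rw [Drem, map_mul, pow_succ']
      exact mul_le_mul_right ((mul_le_of_le_one_left' (hW _)).trans ih) _
  have WZ : ∀ i, W (C (X (inl i))) ≤ θ := fun i => by simpa [rem] using Wrem i 1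
  let ζ : MvPolynomial ι ℚ →ₐ[ℚ] SS ι κ := aeval fun i => C (X (inl i))
  have apΛ : ∀ i T, ∃ p, W (X i - ζ p) ≤ θ ^ (T + 1) := by
    intro i T
    induction T with
    | zero => exact ⟨0, by simpa using WΛ i⟩
    | succ T ih =>
      obtain ⟨p, hp⟩ := ih
      have hθT : θ ^ (T + 1) ≤ θ := pow_le_of_le_one zero_le H.lt.le (by omega)
      have hy : W (ζ p) ≤ θ := by
        have := W.map_sub_le (WΛ i) (hp.trans hθT)
        rwa [sub_sub_cancel] at this
      have p1 : ∀ j, W (X i ^ j - ζ p ^ j) ≤ θ ^ (T + 1) := fun j => by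
        obtain ⟨r, hr⟩ := sub_dvd_pow_sub_pow (X i : SS ι κ) (ζ p) j
        rw [hr, map_mul]
        exact (mul_le_of_le_one_right' (hW _)).trans hp
      have p2 : ∀ j, W (X i ^ (j + 2) - ζ p ^ (j + 2)) ≤ θ ^ (T + 1 + 1) := fun j => by
        rw [show X i ^ (j + 2) - ζ p ^ (j + 2) =
          (X i ^ (j + 1) - ζ p ^ (j + 1)) * X i + (X i - ζ p) * (ζ p * ζ p ^ j) by ring, pow_succ θ]
        refine W.map_add_le ?_ ?_
        · rw [map_mul]; exact mul_le_mul' (p1 _) (WΛ i)
        · rw [map_mul, map_mul]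
          exact mul_le_mul' hp ((mul_le_of_le_one_right' (hW _)).trans hy)
      refine ⟨X i - ∑ j ∈ range T, C (1 / (j + 2).factorial : ℚ) * p ^ (j + 2), ?_⟩
      have e : X i - ζ (X i - ∑ j ∈ range T, C (1 / (j + 2).factorial : ℚ) * p ^ (j + 2)) =
          - rem i (T + 2) - ∑ j ∈ range T, algebraMap ℚ _ (1 / (j + 2).factorial : ℚ) *
            (X i ^ (j + 2) - ζ p ^ (j + 2)) := by
        simp only [rem, sum_range_succ', map_sub, map_sum, map_mul, map_pow, mul_sub,
          sum_sub_distrib, ζ, aeval_X, aeval_C, add_assoc]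
        simp
        ring
      rw [e]
      refine W.map_sub_le (by rw [W.map_neg]; exact Wrem i _) (W.map_sum_le fun j _ => ?_)
      rw [map_mul]
      exact (mul_le_of_le_one_left' (hW _)).trans (p2 j)
  let ξ : MvPolynomial ι ℚ →ₐ[ℚ] SS ι κ := aeval X
  have ap1 : ∀ a T, ∃ p, W (ξ a - ζ p) ≤ θ ^ T := by
    intro a T
    induction a using MvPolynomial.induction_on with
    | C q => exact ⟨C q, by simp [ξ, ζ]⟩
    | add a b ha hb =>
      obtain ⟨p, hp⟩ := ha
      obtain ⟨q, hq⟩ := hb
      refine ⟨p + q, ?_⟩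
      rw [map_add, map_add, add_sub_add_comm]
      exact W.map_add_le hp hq
    | mul_X a i ha =>
      obtain ⟨p, hp⟩ := ha
      obtain ⟨q, hq⟩ := apΛ i T
      refine ⟨p * q, ?_⟩
      rw [map_mul, map_mul, show ξ (X i) = X i from aeval_X _ _,
        show ξ a * X i - ζ p * ζ q = (ξ a - ζ p) * X i + (X i - ζ q) * ζ p by ring]
      refine W.map_add_le ?_ ?_ <;> rw [map_mul] <;> refine (mul_le_of_le_one_right' (hW _)).trans ?_
      · exact hp
      · exact hq.trans (pow_le_pow_of_le_one zero_le H.lt.le (by omega))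
  have trunc : ∀ p T, ∃ p1 : MvPolynomial ι ℚ, p1.totalDegree ≤ T ∧ W (ζ p - ζ p1) ≤ θ ^ T := by
    intro p T
    induction p using MvPolynomial.induction_on' with
    | monomial s a =>
      by_cases h : (s.sum fun _ e => e) ≤ T
      · exact ⟨monomial s a, (totalDegree_monomial_le _ _).trans h, by simp⟩
      · refine ⟨0, by simp, ?_⟩
        rw [map_zero, sub_zero, aeval_monomial, map_mul, Finsupp.prod, map_prod]
        refine (mul_le_of_le_one_left' (hW _)).trans ?_
        refine le_trans (prod_le_prod' (g := fun i => θ ^ s i) fun i _ => ?_) ?_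
        · rw [map_pow]; exact pow_le_pow_left' (WZ i) _
        · rw [prod_pow_eq_pow_sum]
          exact pow_le_pow_of_le_one zero_le H.lt.le (not_le.1 h).le
    | add a b ha hb =>
      obtain ⟨p, hp, hp'⟩ := ha
      obtain ⟨q, hq, hq'⟩ := hb
      refine ⟨p + q, (totalDegree_add _ _).trans (max_le hp hq), ?_⟩
      rw [map_add, map_add, add_sub_add_comm]
      exact W.map_add_le hp' hq'
  have ζe : ∀ p, ζ p = C (rename inl p) := fun p => by
    induction p using MvPolynomial.induction_on with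
    | C q => simp [ζ]
    | add a b ha hb => simp [ha, hb]
    | mul_X a i ha => rw [map_mul, map_mul, map_mul, ha]; simp [ζ]
  let γ : R0 ι κ →ₗ[ℚ] SS ι κ := (IsScalarTower.toAlgHom ℚ (R0 ι κ) (SS ι κ)).toLinearMap
  have γe : ∀ r, γ r = C r := fun r => rfl
  let P : ℕ → Submodule ℚ (SS ι κ) := fun n => (restrictTotalDegree _ ℚ n).map γ
  have mP : ∀ n u, u ∈ P n ↔ ∃ r : R0 ι κ, r.totalDegree ≤ n ∧ C r = u := fun n u => by
    simp only [P, Submodule.mem_map, mem_restrictTotalDegree, γe]
  let N : ℕ → Submodule ℚ (SS ι κ) := fun n =>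
    Submodule.span ℚ {x | ∃ a, ∃ r : R0 ι κ, r.totalDegree ≤ n ∧ x = ξ a * C r}
  have Nmono : ∀ n m, n ≤ m → N n ≤ N m := fun n m h => Submodule.span_mono <| by
    rintro _ ⟨a, r, hr, rfl⟩
    exact ⟨a, r, hr.trans h, rfl⟩
  have hN : ∀ f : SS ι κ, ∃ e, ∀ n, ∀ g ∈ N n, f * g ∈ N (n + e) := by
    intro f
    have gen : ∀ a (r : R0 ι κ) n, ∀ g ∈ N n, ξ a * C r * g ∈ N (n + r.totalDegree) := by
      intro a r n g hg
      induction hg using Submodule.span_induction with
      | mem x hx =>
        obtain ⟨b, s, hs, rfl⟩ := hx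
        refine Submodule.subset_span ⟨a * b, r * s, (totalDegree_mul _ _).trans (by omega), ?_⟩
        rw [map_mul, map_mul]; ring
      | zero => simp
      | add x y _ _ hx hy => rw [mul_add]; exact add_mem hx hy
      | smul q x _ hx => rw [mul_smul_comm]; exact Submodule.smul_mem _ q hx
    induction f using MvPolynomial.induction_on' with
    | monomial s r =>
      refine ⟨r.totalDegree, fun n g hg => ?_⟩
      convert gen (monomial s 1) r n g hg using 2
      rw [aeval_monomial, monomial_eq, map_one, one_mul, mul_comm]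
    | add p q hp hq =>
      obtain ⟨e1, k1⟩ := hp
      obtain ⟨e2, k2⟩ := hq
      refine ⟨e1 + e2, fun n g hg => ?_⟩
      rw [add_mul]
      exact add_mem (Nmono _ _ (by omega) (k1 n g hg)) (Nmono _ _ (by omega) (k2 n g hg))
  obtain ⟨e, he⟩ := hN f
  have hWf := count V W θ H.pos H.lt hW hVW P N Cst (Fintype.card (ι ⊕ κ))
    (fun n => (Submodule.finrank_map_le _ _).trans (finrank_rtd _ n))
    (fun n => (mP _ _).2 ⟨1, by simp, map_one _⟩)
    (fun n m h u hu => by
      obtain ⟨r, hr, rfl⟩ := (mP _ _).1 hu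
      exact Submodule.subset_span ⟨1, r, hr.trans h, by simp⟩)
    (fun n m h u hu => by
      obtain ⟨r, hr, rfl⟩ := (mP _ _).1 hu
      exact (mP _ _).2 ⟨r, hr.trans h, rfl⟩)
    (fun n T u hu => by
      induction hu using Submodule.span_induction with
      | mem x hx =>
        obtain ⟨a, r, hr, rfl⟩ := hx
        obtain ⟨p, hp⟩ := ap1 a T
        obtain ⟨q, hq, hq'⟩ := trunc p T
        refine ⟨ζ q * C r, (mP _ _).2 ⟨rename inl q * r, (totalDegree_mul _ _).trans
          (add_le_add ((totalDegree_rename_le _ _).trans hq) hr), by rw [map_mul, ζe]⟩, ?_⟩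
        rw [← sub_mul, map_mul, ← sub_add_sub_cancel _ (ζ p)]
        exact (mul_le_of_le_one_right' (hW _)).trans (W.map_add_le hp hq')
      | zero => exact ⟨0, zero_mem _, by simp⟩
      | add x y _ _ hx hy =>
        obtain ⟨p, hp, hp'⟩ := hx
        obtain ⟨q, hq, hq'⟩ := hy
        refine ⟨p + q, add_mem hp hq, ?_⟩
        rw [add_sub_add_comm]
        exact W.map_add_le hp' hq'
      | smul q x _ hx =>
        obtain ⟨p, hp, hp'⟩ := hx
        refine ⟨q • p, Submodule.smul_mem _ q hp, ?_⟩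
        rw [← smul_sub, Algebra.smul_def, map_mul]
        exact (mul_le_of_le_one_left' (hW _)).trans hp')
    (fun n u hu => by
      obtain ⟨r, -, rfl⟩ := (mP _ _).1 hu
      exact hc r)
    (fun n u hu h => by
      obtain ⟨r, hr, rfl⟩ := (mP _ _).1 hu
      exact (pow_le_pow_of_le_one zero_le H.lt.le (Nat.mul_le_mul_left _ hr)).trans (H.hL r h))
    f e he hf
  have := W1 f 1
  rw [hWf, pow_one, nonpos_iff_eq_zero, mul_eq_zero] at this
  exact this.resolve_left H.pos.ne'

end Pool.Agent.Lib.MP_1f047c_nt
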