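import Mathlib

/-! Liouville inequalities and the exponential series near the origin. -/

open Finset Height NormedSpace

namespace Pool.Agent.Lib.MP_1f047c_nt

/-- The two properties of `ℂ` and `ℂ_p` that are used. -/
structure Good (𝕜 : Type) [NormedField 𝕜] : Prop where
  fac : ∀ n : ℕ, ‖((n.factorial : 𝕜))⁻¹‖ ≤ 2 ^ n
  liou : ∀ (K : Type) [Field K] [NumberField K] (φ : K →+* 𝕜) (x : K), ‖φ x‖ ≤ mulHeight₁ x

lemma good_complex : Good ℂ where
  fac n := by
    rw [norm_inv, Complex.norm_natCast]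
    exact (inv_le_one_of_one_le₀ (by exact_mod_cast n.factorial_pos)).trans (one_le_pow₀ one_le_two)
  liou K _ _ φ x := by
    classical
    rw [NumberField.mulHeight₁_eq, ← NumberField.InfinitePlace.apply]
    set w := NumberField.InfinitePlace.mk φ
    refine le_trans ?_ (le_mul_of_one_le_right (prod_nonneg fun _ _ => by positivity)
      (one_le_finprod fun _ => le_max_right _ _))
    rw [← mul_prod_erase univ _ (mem_univ w)]
    refine le_trans ?_ (le_mul_of_one_le_right (by positivity)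
      (Finset.one_le_prod fun v _ => one_le_pow₀ (le_max_right _ _)))
    exact (le_max_left _ _).trans (le_self_pow₀ (le_max_right _ _) w.mult_pos.ne')

lemma norm_inv_nat (p : ℕ) [Fact p.Prime] {n : ℕ} (hn : n ≠ 0) :
    ‖(n : ℂ_[p])⁻¹‖ = (p ^ padicValNat p n : ℕ) := by
  have : (n : ℂ_[p]) = ((n : ℚ_[p]) : PadicAlgCl p) := by
    rw [map_natCast, PadicComplex.coe_natCast]
  rw [norm_inv, this, PadicComplex.norm_extends', ← Rat.cast_natCast, Padic.eq_padicNorm,
    padicNorm.eq_zpow_of_nonzero (by exact_mod_cast hn)]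
  simp

lemma norm_le_one_of_integral {K 𝕜 : Type} [Field K] [NormedField 𝕜] [IsUltrametricDist 𝕜]
    (φ : K →+* 𝕜) {x : K} (h : IsIntegral ℤ x) : ‖φ x‖ ≤ 1 := by
  have h3 : IsIntegral ℤ (φ x) := h.map φ.toIntAlgHom
  let v := NormedField.valuation (K := 𝕜)
  exact (Valuation.integer.integers v).mem_of_integral (h3.tower_top (A := v.integer))

lemma good_padic (p : ℕ) [hp : Fact p.Prime] : Good ℂ_[p] where
  fac n := by
    rw [norm_inv_nat p n.factorial_ne_zero]
    have h1 : (p - 1) * padicValNat p n.factorial ≤ n := by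
      rw [sub_one_mul_padicValNat_factorial]; omega
    have h2 : p ≤ 2 ^ (p - 1) := by
      have := Nat.lt_two_pow_self (n := p - 1)
      omega
    have : p ^ padicValNat p n.factorial ≤ 2 ^ n := by
      refine (Nat.pow_le_pow_left h2 _).trans ?_
      rw [← pow_mul]
      exact Nat.pow_le_pow_right (by norm_num) h1
    exact_mod_cast this
  liou K _ _ φ x := by
    obtain ⟨n, hn, h1, h2⟩ := NumberField.exists_nat_le_mulHeight₁ x
    have h5 : ‖φ (n * x)‖ ≤ 1 := norm_le_one_of_integral φ h2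
    have h6 : φ x = (n : ℂ_[p])⁻¹ * φ (n * x) := by
      rw [map_mul, map_natCast, inv_mul_cancel_left₀ (by exact_mod_cast hn)]
    rw [h6, norm_mul, norm_inv_nat p hn]
    refine (mul_le_of_le_one_right (by positivity) h5).trans (le_trans ?_ h1)
    exact_mod_cast Nat.le_of_dvd (Nat.pos_of_ne_zero hn) pow_padicValNat_dvd

section Exp

variable {𝕜 : Type} [NormedField 𝕜] [CompleteSpace 𝕜] [CharZero 𝕜]

omit [CompleteSpace 𝕜] [CharZero 𝕜] in
lemma Good.term (G : Good 𝕜) (x : 𝕜) (n : ℕ) : ‖x ^ n / n.factorial‖ ≤ (2 * ‖x‖) ^ n := by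
  rw [div_eq_mul_inv, norm_mul, norm_pow, mul_pow, mul_comm]
  exact mul_le_mul_of_nonneg_right (G.fac n) (by positivity)

omit [CompleteSpace 𝕜] [CharZero 𝕜] in
lemma Good.summable (G : Good 𝕜) {x : 𝕜} (hx : ‖x‖ ≤ 1 / 4) :
    Summable fun n : ℕ => ‖x ^ n / n.factorial‖ :=
  (summable_geometric_of_lt_one (r := 2 * ‖x‖) (by positivity) (by linarith)).of_nonneg_of_le
    (fun _ => norm_nonneg _) (G.term x)

lemma Good.tail (G : Good 𝕜) {x : 𝕜} (hx : ‖x‖ ≤ 1 / 4) (T : ℕ) :
    ‖exp x - ∑ j ∈ range T, x ^ j / j.factorial‖ ≤ 2 * (2 * ‖x‖) ^ T := by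
  rw [exp_eq_tsum_div]
  simp only
  rw [← (G.summable hx).of_norm.sum_add_tsum_nat_add T, add_sub_cancel_left]
  have h := (hasSum_geometric_two.mul_left ((2 * ‖x‖) ^ T))
  rw [mul_comm]
  refine tsum_of_norm_bounded h fun n => (G.term x _).trans ?_
  rw [pow_add, mul_comm]
  gcongr
  linarith

lemma Good.exp_add (G : Good 𝕜) {x y : 𝕜} (hx : ‖x‖ ≤ 1 / 4) (hy : ‖y‖ ≤ 1 / 4) :
    exp (x + y) = exp x * exp y := by
  rw [exp_eq_tsum_div]
  simp only
  rw [tsum_mul_tsum_eq_tsum_sum_antidiagonal_of_summable_norm (G.summable hx) (G.summable hy)]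
  refine tsum_congr fun n => ?_
  rw [(Commute.all x y).add_pow', sum_div]
  refine sum_congr rfl fun kl hkl => ?_
  rw [← mem_antidiagonal.1 hkl, nsmul_eq_mul, Nat.cast_add_choose]
  have h1 : (kl.1.factorial : 𝕜) ≠ 0 := by exact_mod_cast kl.1.factorial_ne_zero
  have h2 : (kl.2.factorial : 𝕜) ≠ 0 := by exact_mod_cast kl.2.factorial_ne_zero
  have h3 : ((kl.1 + kl.2).factorial : 𝕜) ≠ 0 := by exact_mod_cast Nat.factorial_ne_zero _
  field_simp

omit [CompleteSpace 𝕜] [CharZero 𝕜] in
lemma norm_nat_mul (n : ℕ) (x : 𝕜) : ‖n * x‖ ≤ n * ‖x‖ := by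
  rw [← nsmul_eq_mul]
  exact norm_nsmul_le

lemma Good.exp_nat (G : Good 𝕜) (x : 𝕜) (n : ℕ) (h : n * ‖x‖ ≤ 1 / 4) :
    exp (n * x) = exp x ^ n := by
  induction n with
  | zero => simp
  | succ n ih =>
    have := norm_nonneg x
    have h0 : (0 : ℝ) ≤ n * ‖x‖ := by positivity
    push_cast at h ⊢
    rw [add_mul, one_mul, G.exp_add ((norm_nat_mul n x).trans (by linarith)) (by linarith),
      ih (by linarith), pow_succ]

lemma Good.exp_sum (G : Good 𝕜) {ι : Type} (s : Finset ι) (x : ι → 𝕜) (n : ι → ℕ)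
    (h : ∑ i ∈ s, n i * ‖x i‖ ≤ 1 / 4) : exp (∑ i ∈ s, n i * x i) = ∏ i ∈ s, exp (x i) ^ n i := by
  classical
  induction s using Finset.induction_on with
  | empty => simp
  | insert a s ha ih =>
    rw [sum_insert ha] at h ⊢
    have h1 : 0 ≤ ∑ i ∈ s, n i * ‖x i‖ := sum_nonneg fun _ _ => by positivity
    have h2 : (0 : ℝ) ≤ n a * ‖x a‖ := by positivity
    rw [prod_insert ha, G.exp_add ((norm_nat_mul _ _).trans (by linarith))
      ((norm_sum_le_of_le _ fun i _ => norm_nat_mul _ _).trans (by linarith)),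
      G.exp_nat _ _ (by linarith), ih (by linarith)]

lemma Good.exp_inj (G : Good 𝕜) {x y : 𝕜} (hx : ‖x‖ ≤ 1 / 32) (hy : ‖y‖ ≤ 1 / 32)
    (h : exp x = exp y) : x = y := by
  have hw : ‖x - y‖ ≤ 1 / 16 := (norm_sub_le _ _).trans (by linarith)
  have h1 := G.exp_add (x := x - y) (y := y) (by linarith) (by linarith)
  have h2 : exp y ≠ 0 := by
    intro h0
    have := G.tail (x := y) (by linarith) 1
    simp [h0] at this
    linarith
  rw [sub_add_cancel, h, eq_comm, mul_eq_right₀ h2] at h1
  have h3 := G.tail (x := x - y) (by linarith) 2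
  simp only [h1, sum_range_succ, range_zero, sum_empty, pow_zero, Nat.factorial_zero,
    Nat.cast_one, div_one, zero_add, pow_one, Nat.factorial_one, sub_add_cancel_left,
    norm_neg] at h3
  have h4 := norm_nonneg (x - y)
  exact sub_eq_zero.1 (norm_eq_zero.1 (by nlinarith))

end Exp

section Height

open AdmissibleAbsValues Multiset in
lemma mulHeight₁_le_of_local {K : Type} [Field K] [AdmissibleAbsValues K] {α : Type}
    (s : Finset α) (x : α → K) (z : K) (n : ℕ)
    (h1 : ∀ v : AbsoluteValue K ℝ, max (v z) 1 ≤ n * ∏ a ∈ s, max (v (x a)) 1)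
    (h2 : ∀ v : AbsoluteValue K ℝ, IsNonarchimedean v → max (v z) 1 ≤ ∏ a ∈ s, max (v (x a)) 1) :
    mulHeight₁ z ≤ n ^ (totalWeight K) * ∏ a ∈ s, mulHeight₁ (x a) := by
  have fin : ∀ y : K, (fun v : nonarchAbsVal => max (v.val y) 1).HasFiniteMulSupport := by
    intro y
    rcases eq_or_ne y 0 with rfl | hy
    · simp [Function.HasFiniteMulSupport]
    · exact (hasFiniteMulSupport hy).subset fun v hv h => hv (by simp only [h, max_self])
  simp only [mulHeight₁_eq, totalWeight]
  rw [prod_mul_distrib, ← prod_replicate, ← map_const, ← finprod_prod_comm _ _ (fun a _ => fin _),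
    ← prod_map_prod, ← mul_assoc, ← prod_map_mul]
  simp only [Function.const_apply]
  gcongr
  · exact finprod_nonneg fun _ ↦ by positivity
  · exact prod_map_nonneg fun _ h ↦ by positivity
  · exact prod_map_le_prod_map₀ _ _ (fun _ _ ↦ by positivity) fun v _ ↦ h1 v
  · exact finprod_le_finprod (fin _) (fun _ ↦ by positivity)
      (Function.HasFiniteMulSupport.prod (fun a => fin _) s) fun v ↦ h2 _ (isNonarchimedean _ v.prop)

open MvPolynomial in
lemma mulHeight₁_aeval_le {K σ : Type} [Field K] [CharZero K] [AdmissibleAbsValues K] [Fintype σ]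
    (P : MvPolynomial σ ℚ) (y : σ → K) : mulHeight₁ (aeval y P) ≤
      (P.support.card + 1 : ℕ) ^ (totalWeight K) * ((∏ β ∈ P.support, mulHeight₁ ((coeff β P : ℚ) : K)) *
        (∏ i, mulHeight₁ (y i)) ^ P.totalDegree) := by
  classical
  let x : (σ →₀ ℕ) ⊕ σ → K := Sum.elim (fun β => ((coeff β P : ℚ) : K)) fun i => y i ^ P.totalDegree
  have e : aeval y P = ∑ β ∈ P.support, ((coeff β P : ℚ) : K) * ∏ i, y i ^ β i := by
    rw [aeval_def, eval₂_eq']
    rfl
  have one : ∀ v : AbsoluteValue K ℝ, 1 ≤ ∏ a ∈ P.support.disjSum univ, max (v (x a)) 1 :=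
    fun v => Finset.one_le_prod fun _ _ => le_max_right _ _
  have term : ∀ v : AbsoluteValue K ℝ, ∀ β ∈ P.support,
      v (((coeff β P : ℚ) : K) * ∏ i, y i ^ β i) ≤
        ∏ a ∈ P.support.disjSum univ, max (v (x a)) 1 := by
    intro v β hβ
    rw [prod_disjSum, map_mul, map_prod]
    refine mul_le_mul (le_prod_max_one hβ fun β => v ((coeff β P : ℚ) : K))
      (prod_le_prod (fun _ _ => by positivity) fun i _ => ?_) (prod_nonneg fun _ _ => by positivity)
      (prod_nonneg fun _ _ => by positivity)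
    have hi : β i ≤ P.totalDegree := (monomial_le_degreeOf i hβ).trans (degreeOf_le_totalDegree _ _)
    simp only [x, Sum.elim_inr, map_pow]
    rcases le_total (v (y i)) 1 with h | h
    · exact (pow_le_one₀ (by positivity) h).trans (le_max_right _ _)
    · exact (pow_le_pow_right₀ h hi).trans (le_max_left _ _)
  have := mulHeight₁_le_of_local (P.support.disjSum univ) x (aeval y P) (P.support.card + 1)
    (fun v => by
      have h0 := one v
      have h1 : v (aeval y P) ≤ P.support.card * ∏ a ∈ P.support.disjSum univ, max (v (x a)) 1 := by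
        rw [e, ← nsmul_eq_mul]
        exact (v.sum_le _ _).trans (sum_le_card_nsmul _ _ _ (term v))
      have h2 : (0 : ℝ) ≤ P.support.card := by positivity
      push_cast
      refine max_le ?_ ?_ <;> nlinarith)
    (fun v hv => by
      refine max_le ?_ (one v)
      rw [e]
      rcases P.support.eq_empty_or_nonempty with h | h
      · rw [h, sum_empty, map_zero, ← h]
        exact zero_le_one.trans (one v)
      · exact (hv.apply_sum_le_sup h).trans (sup'_le h _ (term v)))
  simpa only [prod_disjSum, x, Sum.elim_inl, Sum.elim_inr, mulHeight₁_pow, prod_pow] using this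

lemma exists_rat_bound (q : ℚ) : ∃ B : ℝ, 1 ≤ B ∧ ∀ (K : Type) [Field K] [CharZero K]
    [AdmissibleAbsValues K], mulHeight₁ (q : K) ≤ B ^ totalWeight K := by
  have nat : ∀ (n : ℕ) (K : Type) [Field K] [AdmissibleAbsValues K],
      mulHeight₁ (n : K) ≤ (n + 1 : ℝ) ^ totalWeight K := by
    intro n K _ _
    rcases n.eq_zero_or_pos with rfl | hn
    · simp
    · have := mulHeight₁_sum_le (K := K) (s := range n) ⟨0, mem_range.2 hn⟩ fun _ => 1
      simp only [sum_const, card_range, nsmul_eq_mul, mul_one, mulHeight₁_one,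
        prod_const_one] at this
      exact this.trans (by gcongr; linarith)
  refine ⟨(q.num.natAbs + 1) * (q.den + 1), one_le_mul_of_one_le_of_one_le (by simp) (by simp),
    fun K _ _ _ => ?_⟩
  rw [Rat.cast_def, div_eq_mul_inv, mul_pow]
  refine (mulHeight₁_mul_le _ _).trans (mul_le_mul ?_ ?_ (by positivity) (by positivity))
  · rcases Int.natAbs_eq q.num with h | h
    · conv_lhs => rw [h, Int.cast_natCast]
      exact nat _ K
    · conv_lhs => rw [h, Int.cast_neg, Int.cast_natCast, mulHeight₁_neg]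
      exact nat _ K
  · rw [mulHeight₁_inv]
    exact nat _ K

open MvPolynomial in
lemma exists_liou {σ : Type} [Fintype σ] (P : MvPolynomial σ ℚ) : ∃ c : ℝ, 0 ≤ c ∧
    ∀ (K : Type) [Field K] [NumberField K] (y : σ → K), logHeight₁ (aeval y P) ≤
      P.totalDegree * ∑ i, logHeight₁ (y i) + c * Module.finrank ℚ K := by
  choose B hB hB' using exists_rat_bound
  have h1 : (1 : ℝ) ≤ (P.support.card + 1 : ℕ) * ∏ β ∈ P.support, B (coeff β P) :=
    one_le_mul_of_one_le_of_one_le (by simp) (Finset.one_le_prod fun _ _ => hB _)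
  refine ⟨Real.log ((P.support.card + 1 : ℕ) * ∏ β ∈ P.support, B (coeff β P)),
    Real.log_nonneg h1, fun K _ _ y => ?_⟩
  have h2 := (mulHeight₁_aeval_le P y).trans (mul_le_mul_of_nonneg_left
    (mul_le_mul_of_nonneg_right (prod_le_prod (fun _ _ => by positivity) fun β _ => hB' _ K)
      (by positivity)) (by positivity))
  rw [prod_pow, ← mul_assoc, ← mul_pow, NumberField.totalWeight_eq_finrank] at h2
  refine (Real.log_le_log (by positivity) h2).trans (le_of_eq ?_)
  rw [Real.log_mul (by positivity) (by positivity), Real.log_pow, Real.log_pow,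
    Real.log_prod fun _ _ => by positivity]
  simp only [logHeight₁_eq_log_mulHeight₁]
  ring

end Height

end Pool.Agent.Lib.MP_1f047c_nt
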