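import Pool.Agent.Lib.MP_1f047c_nt.Ostro
import Pool.Agent.Lib.MP_1f047c_nt.Liouv

/-! The limit valuation along an ultrafilter. -/

open Finset MvPolynomial Sum Filter Topology Height
open scoped NNReal

namespace Pool.Agent.Lib.MP_1f047c_nt

lemma exists_limit {S : Type} [CommRing S] (U : Ultrafilter ℕ) (A : ℕ → S → ℝ) (c : ℕ → ℝ)
    (h0 : ∀ k u, 0 ≤ A k u) (hz : ∀ᶠ k in U, A k 0 = 0) (h1 : ∀ k, A k 1 = 1)
    (hm : ∀ k u v, A k (u * v) = A k u * A k v) (hc : Tendsto c U (𝓝 1))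
    (ha : ∀ u v, ∀ᶠ k in U, A k (u + v) ≤ c k * max (A k u) (A k v))
    (hb : ∀ u, ∃ B, ∀ᶠ k in U, A k u ≤ B) :
    ∃ V : Valuation S ℝ≥0, ∀ u, Tendsto (fun k => A k u) U (𝓝 (V u)) := by
  have : ∀ u, ∃ x : ℝ≥0, Tendsto (fun k => A k u) U (𝓝 x) := by
    intro u
    obtain ⟨B, hB⟩ := hb u
    obtain ⟨x, hx, h⟩ := (isCompact_Icc (a := 0) (b := B)).ultrafilter_le_nhds'
      (U.map fun k => A k u) (hB.mono fun k hk => ⟨h0 k u, hk⟩)
    exact ⟨⟨x, hx.1⟩, h⟩
  choose V hV using this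
  refine ⟨⟨⟨⟨V, ?_⟩, ?_, fun u v => ?_⟩, fun u v => ?_⟩, hV⟩
  · exact NNReal.eq (tendsto_nhds_unique (hV 0) (tendsto_const_nhds.congr' (hz.mono fun _ => .symm)))
  · exact NNReal.eq (tendsto_nhds_unique (hV 1) (by simp [h1]))
  · exact NNReal.eq (tendsto_nhds_unique (hV _) (by simpa [hm] using (hV u).mul (hV v)))
  · have := le_of_tendsto_of_tendsto (hV _) (hc.mul ((hV u).max (hV v))) (ha u v)
    rw [one_mul] at this
    exact_mod_cast this

/-- Logarithms `lam` of algebraic numbers `α`, with further algebraic numbers `γ`. -/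
structure Dat (ι κ : Type) where
  𝕜 : Type
  [nf : NormedField 𝕜]
  [cs : CompleteSpace 𝕜]
  [cz : CharZero 𝕜]
  G : Good 𝕜
  K : Type
  [fK : Field K]
  [nK : NumberField K]
  φ : K →+* 𝕜
  α : ι → K
  γ : κ → K
  lam : ι → 𝕜
  h : ℝ
  h0 : 0 ≤ h
  hα : ∀ i, logHeight₁ (α i) ≤ h
  hγ : ∀ j, logHeight₁ (γ j) ≤ h
  hexp : ∀ i, NormedSpace.exp (lam i) = φ (α i)
  nγ : ∀ j, ‖φ (γ j)‖ ≤ 1

attribute [instance] Dat.nf Dat.cs Dat.cz Dat.fK Dat.nK

variable {ι κ : Type}

/-- The algebraic point. -/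
noncomputable def Dat.y (X : Dat ι κ) : ι ⊕ κ → X.K := Sum.elim (fun i => X.α i - 1) X.γ

/-- Evaluation. -/
noncomputable def Dat.ev (X : Dat ι κ) : SS ι κ →+* X.𝕜 :=
  eval₂Hom (X.φ.comp (aeval X.y : R0 ι κ →ₐ[ℚ] X.K).toRingHom) X.lam

/-- The degree. -/
noncomputable def Dat.d (X : Dat ι κ) : ℝ := Module.finrank ℚ X.K

lemma Dat.d1 (X : Dat ι κ) : 1 ≤ X.d := by
  unfold Dat.d
  exact_mod_cast Module.finrank_pos

lemma Dat.ev_C (X : Dat ι κ) (P : R0 ι κ) : X.ev (C P) = X.φ (aeval X.y P) := by simp [Dat.ev]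

lemma Dat.ev_X (Y : Dat ι κ) (i : ι) : Y.ev (X i) = Y.lam i := by simp [Dat.ev]

lemma Good.lower {𝕜 : Type} [NormedField 𝕜] (G : Good 𝕜) {K : Type} [Field K] [NumberField K]
    (φ : K →+* 𝕜) {x : K} (hx : x ≠ 0) : Real.exp (-logHeight₁ x) ≤ ‖φ x‖ := by
  have := G.liou K φ x⁻¹
  rw [mulHeight₁_inv, map_inv₀, norm_inv] at this
  rw [Real.exp_neg, logHeight₁_eq_log_mulHeight₁, Real.exp_log (mulHeight₁_pos x)]
  exact inv_le_of_inv_le₀ (norm_pos_iff.2 (by simpa using hx)) this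

theorem core [Fintype ι] [Fintype κ] (U : Ultrafilter ℕ) (hU : (U : Filter ℕ) ≤ atTop)
    (Y : ℕ → Dat ι κ) (l : ℕ → ℝ) (δ : ℝ) (hδ : 0 < δ)
    (hl : ∀ k, δ * (Y k).h + k * (Y k).d ≤ l k)
    (hlam : ∀ k i, ‖(Y k).lam i‖ ≤ Real.exp (-l k)) (f0 : SS ι κ)
    (hf0 : ∀ T : ℕ, ∀ᶠ k in U, ‖(Y k).ev f0‖ ≤ Real.exp (-T * l k))
    (hne : ∃ β, ∀ᶠ k in U, aeval (Y k).y (coeff β f0) ≠ 0) :
    ∃ m : ι → ℤ, m ≠ 0 ∧ ∀ᶠ k in U, ∑ i, m i * (Y k).lam i = 0 := by
  classical
  have kd : ∀ k : ℕ, k * (Y k).d ≤ l k := fun k => by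
    have := mul_nonneg hδ.le (Y k).h0
    linarith [hl k]
  have kl : ∀ k : ℕ, (k : ℝ) ≤ l k := fun k =>
    (le_mul_of_one_le_right (by positivity) (Y k).d1).trans (kd k)
  have ev_ge : ∀ n : ℕ, ∀ᶠ k in U, (n : ℝ) ≤ l k := fun n =>
    ((eventually_ge_atTop n).filter_mono hU).mono fun k hk => (Nat.cast_le.2 hk).trans (kl k)
  have lpos : ∀ᶠ k in U, 0 < l k := (ev_ge 1).mono fun k hk => by simp at hk; linarith
  have l0 : ∀ k, 0 ≤ l k := fun k => (Nat.cast_nonneg k).trans (kl k)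
  have small : Tendsto (fun k => (Y k).d / l k) U (𝓝 0) := by
    refine squeeze_zero' (.of_forall fun k => div_nonneg (by linarith [(Y k).d1]) (l0 k)) ?_
      (tendsto_one_div_atTop_nhds_zero_nat.mono_left hU)
    filter_upwards [lpos, hU (eventually_gt_atTop 0)] with k h1 h2
    rw [div_le_div_iff₀ h1 (by exact_mod_cast h2)]
    linarith [kd k]
  have lim : ∀ a b : ℝ, Tendsto (fun k => Real.exp (a + b * ((Y k).d / l k))) U (𝓝 (Real.exp a)) :=
    fun a b => by
      have := (Real.continuous_exp.tendsto _).comp ((small.const_mul b).const_add a)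
      simpa [Function.comp_def] using this
  have rp : ∀ a b : ℝ, ∀ k, 0 < l k → Real.exp (a * l k + b * (Y k).d) ^ (1 / l k) =
      Real.exp (a + b * ((Y k).d / l k)) := fun a b k hk => by
    rw [← Real.exp_mul]
    congr 1
    field_simp
  let A : ℕ → SS ι κ → ℝ := fun k u => ‖(Y k).ev u‖ ^ (1 / l k)
  have e0 : ∀ k, 0 ≤ 1 / l k := fun k => one_div_nonneg.2 (l0 k)
  have up : ∀ u (a b : ℝ), (∀ᶠ k in U, ‖(Y k).ev u‖ ≤ Real.exp (a * l k + b * (Y k).d)) →
      ∀ᶠ k in U, A k u ≤ Real.exp (a + b * ((Y k).d / l k)) := fun u a b h => by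
    filter_upwards [h, lpos] with k h1 h2
    rw [← rp a b k h2]
    exact Real.rpow_le_rpow (norm_nonneg _) h1 (e0 k)
  have two : ∀ k, 2 ≤ Real.exp (Y k).d := fun k => by
    linarith [Real.add_one_le_exp (Y k).d, (Y k).d1]
  have q4 : ∀ᶠ k in U, ∀ i, ‖(Y k).lam i‖ ≤ 1 / 4 := (ev_ge 3).mono fun k hk i => by
    refine (hlam k i).trans ?_
    rw [Real.exp_neg, one_div]
    exact inv_anti₀ (by norm_num) (by push_cast at hk; linarith [Real.add_one_le_exp (l k)])
  have evq : ∀ k (q : ℚ), (Y k).ev (algebraMap ℚ _ q) = q := fun k q =>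
    eq_ratCast ((Y k).ev.comp (algebraMap ℚ _)) q
  have bq : ∀ q : ℚ, ∃ b : ℝ, ∀ k, ‖(Y k).ev (algebraMap ℚ _ q)‖ ≤
      Real.exp (0 * l k + b * (Y k).d) := fun q => by
    obtain ⟨B, hB, h⟩ := exists_rat_bound q
    refine ⟨Real.log B, fun k => ?_⟩
    rw [evq, ← map_ratCast (Y k).φ, zero_mul, zero_add, Real.exp_mul, Real.exp_log (by linarith),
      Dat.d, Real.rpow_natCast, ← NumberField.totalWeight_eq_finrank]
    exact ((Y k).G.liou _ _ _).trans (h _)
  have bE : ∀ i (T : ℕ), ∀ᶠ k in U, ‖(Y k).ev (rem i T)‖ ≤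
      Real.exp (-T * l k + (T + 1 : ℕ) * (Y k).d) := fun i T => by
    filter_upwards [q4] with k hk
    have e : (Y k).ev (rem i T) = NormedSpace.exp ((Y k).lam i) -
        ∑ j ∈ range T, (Y k).lam i ^ j / j.factorial := by
      simp only [rem, map_sub, map_add, map_one, map_sum, map_mul, map_pow, evq, Dat.ev_C,
        Dat.ev_X, aeval_X, Dat.y, Sum.elim_inl, (Y k).hexp, add_sub_cancel]
      congr 1
      exact sum_congr rfl fun j _ => by push_cast; ring
    rw [e]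
    refine ((Y k).G.tail (hk i) T).trans ?_
    rw [Real.exp_add, Real.exp_nat_mul, show -(T : ℝ) * l k = T * -l k by ring, Real.exp_nat_mul,
      mul_pow, ← mul_assoc, ← pow_succ', mul_comm]
    gcongr
    · exact hlam k i
    · exact two k
  have hadd : ∀ u v k, ‖(Y k).ev (u + v)‖ ≤
      Real.exp (Y k).d * max ‖(Y k).ev u‖ ‖(Y k).ev v‖ := fun u v k => by
    rw [map_add]
    refine (norm_add_le _ _).trans (le_trans ?_ (mul_le_mul_of_nonneg_right (two k) (by positivity)))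
    linarith [le_max_left ‖(Y k).ev u‖ ‖(Y k).ev v‖, le_max_right ‖(Y k).ev u‖ ‖(Y k).ev v‖]
  have bd : ∀ u, ∃ b : ℝ, ∀ᶠ k in U, ‖(Y k).ev u‖ ≤ Real.exp (0 * l k + b * (Y k).d) := by
    let Q : SS ι κ → Prop := fun u =>
      ∃ b : ℝ, ∀ᶠ k in U, ‖(Y k).ev u‖ ≤ Real.exp (0 * l k + b * (Y k).d)
    have Qa : ∀ u v, Q u → Q v → Q (u + v) := by
      rintro u v ⟨a, ha⟩ ⟨b, hb⟩
      refine ⟨1 + max a b, ?_⟩
      filter_upwards [ha, hb] with k h1 h2
      refine (hadd u v k).trans ?_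
      have := (Y k).d1
      rw [zero_mul, zero_add] at *
      rw [add_mul, one_mul, Real.exp_add]
      refine mul_le_mul_of_nonneg_left (max_le (h1.trans ?_) (h2.trans ?_)) (by positivity)
      · gcongr; exact le_max_left _ _
      · gcongr; exact le_max_right _ _
    have Qm : ∀ u v, Q u → Q v → Q (u * v) := by
      rintro u v ⟨a, ha⟩ ⟨b, hb⟩
      refine ⟨a + b, ?_⟩
      filter_upwards [ha, hb] with k h1 h2
      rw [zero_mul, zero_add] at *
      rw [map_mul, norm_mul, add_mul, Real.exp_add]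
      exact mul_le_mul h1 h2 (by positivity) (by positivity)
    intro u
    change Q u
    induction u using MvPolynomial.induction_on with
    | C r =>
      induction r using MvPolynomial.induction_on with
      | C q => exact (bq q).imp fun b hb => .of_forall hb
      | add p q hp hq => rw [map_add]; exact Qa _ _ hp hq
      | mul_X p s hp =>
        rw [map_mul]
        refine Qm _ _ hp ?_
        rcases s with i | j
        · refine ⟨(1 + 1 : ℕ), (bE i 1).mono fun k hk => ?_⟩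
          have e : rem (κ := κ) i 1 = C (X (inl i)) := by simp [rem]
          rw [e] at hk
          refine hk.trans (Real.exp_le_exp.2 ?_)
          have := l0 k
          push_cast
          linarith
        · exact ⟨0, .of_forall fun k => by simpa [Dat.ev_C, Dat.y] using (Y k).nγ j⟩
    | add p q hp hq => exact Qa _ _ hp hq
    | mul_X p i hp =>
      refine Qm _ _ hp ⟨0, q4.mono fun k hk => ?_⟩
      simp only [Dat.ev_X, zero_mul, add_zero, Real.exp_zero]
      linarith [hk i]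
  obtain ⟨V, hV⟩ := exists_limit U A (fun k => Real.exp (0 + 1 * ((Y k).d / l k)))
    (fun k u => by positivity) (lpos.mono fun k hk => by simp [A, hk.ne']) (fun k => by simp [A])
    (fun k u v => by simp only [A, map_mul, norm_mul]; exact Real.mul_rpow (by positivity) (by positivity))
    (by simpa using lim 0 1)
    (fun u v => lpos.mono fun k hk => by
      rw [← rp 0 1 k hk, zero_mul, zero_add, one_mul]
      refine (Real.rpow_le_rpow (norm_nonneg _) (hadd u v k) (e0 k)).trans ?_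
      rw [Real.mul_rpow (by positivity) (by positivity), Real.rpow_max (by positivity) (by positivity) (e0 k)])
    (fun u => by
      obtain ⟨b, hb⟩ := bd u
      exact ⟨Real.exp 0 + 1, ((up u 0 b hb).and ((lim 0 b).eventually
        (eventually_le_nhds (lt_add_one _)))).mono fun k hk => hk.1.trans hk.2⟩)
  have up' : ∀ u (a b : ℝ), (∀ᶠ k in U, ‖(Y k).ev u‖ ≤ Real.exp (a * l k + b * (Y k).d)) →
      (V u : ℝ) ≤ Real.exp a := fun u a b h =>
    le_of_tendsto_of_tendsto (hV u) (lim a b) (up u a b h)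
  let θ : ℝ≥0 := ⟨Real.exp (-1), by positivity⟩
  have θp : ∀ n : ℕ, ((θ ^ n : ℝ≥0) : ℝ) = Real.exp (-n) := fun n => by
    rw [NNReal.coe_pow]
    change Real.exp (-1) ^ n = _
    rw [← Real.exp_nat_mul]
    simp
  let Cst := ⌈(Fintype.card (ι ⊕ κ) : ℝ) / δ⌉₊
  have dich : ∀ P : R0 ι κ, (∀ᶠ k in U, aeval (Y k).y P ≠ 0) →
      θ ^ (Cst * P.totalDegree) ≤ V (C P) := by
    intro P hP
    obtain ⟨c, -, hc⟩ := exists_liou P
    rw [← NNReal.coe_le_coe, θp]
    refine le_of_tendsto_of_tendsto (lim _ (-(c + P.totalDegree * Fintype.card (ι ⊕ κ)))) (hV _) ?_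
    filter_upwards [hP, lpos] with k h1 h2
    rw [← rp _ _ k h2]
    refine Real.rpow_le_rpow (by positivity) (le_trans (Real.exp_le_exp.2 ?_)
      (((Y k).G.lower (Y k).φ h1).trans (by rw [Dat.ev_C]))) (e0 k)
    have h3 := hc _ (Y k).y
    have hd := (Y k).d1
    have h4 : ∑ s, logHeight₁ ((Y k).y s) ≤ Fintype.card (ι ⊕ κ) * ((Y k).h + (Y k).d) := by
      rw [← nsmul_eq_mul, ← card_univ]
      refine sum_le_card_nsmul _ _ _ fun s _ => ?_
      rcases s with i | j
      · refine (logHeight₁_sub_le _ _).trans ?_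
        rw [NumberField.totalWeight_eq_finrank, logHeight₁_one]
        have := (Y k).hα i
        have h5 : Real.log 2 ≤ 1 := by linarith [Real.log_two_lt_d9]
        change (Y k).d * _ + _ + _ ≤ _
        nlinarith
      · exact ((Y k).hγ j).trans (by linarith)
    have h5 : Fintype.card (ι ⊕ κ) * (Y k).h ≤ Cst * l k := by
      have h6 : (Fintype.card (ι ⊕ κ) : ℝ) ≤ Cst * δ := (div_le_iff₀ hδ).1 (Nat.le_ceil _)
      have h7 : δ * (Y k).h ≤ l k := by
        have : (0 : ℝ) ≤ k * (Y k).d := by positivity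
        linarith [hl k]
      calc _ ≤ Cst * δ * (Y k).h := mul_le_mul_of_nonneg_right h6 (Y k).h0
        _ ≤ _ := by rw [mul_assoc]; gcongr
    have h6 := mul_le_mul_of_nonneg_left h4 (Nat.cast_nonneg (α := ℝ) P.totalDegree)
    have h7 := mul_le_mul_of_nonneg_left h5 (Nat.cast_nonneg (α := ℝ) P.totalDegree)
    change _ ≤ _ + c * (Y k).d at h3
    push_cast
    nlinarith
  have θ0 : 0 < θ := Real.exp_pos _
  have Vq : ∀ q : ℚ, V (algebraMap ℚ _ q) ≤ 1 := fun q => by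
    obtain ⟨b, hb⟩ := bq q
    simpa using up' _ 0 b (.of_forall hb)
  have H : Hyp V θ Cst :=
    { pos := θ0
      lt := Real.exp_lt_one_iff.2 (by norm_num)
      hQ := fun q hq => le_antisymm (Vq q) (by
        have : V (algebraMap ℚ _ q) * V (algebraMap ℚ _ q⁻¹) = 1 := by
          rw [← map_mul, ← map_mul, mul_inv_cancel₀ hq, map_one, map_one]
        exact this ▸ mul_le_of_le_one_right' (Vq _))
      hΛ := fun i => up' _ (-1) 0 (.of_forall fun k => by simpa [Dat.ev_X] using hlam k i)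
      hΓ := fun j => by
        simpa using up' (C (X (inr j))) 0 0
          (.of_forall fun k => by simpa [Dat.ev_C, Dat.y] using (Y k).nγ j)
      hE := fun i T => by
        rw [← NNReal.coe_le_coe, θp]
        exact up' _ _ _ (bE i T)
      hL := fun P hP => dich P (by
        refine Ultrafilter.eventually_not.2 fun h => ?_
        apply hP
        refine NNReal.eq (tendsto_nhds_unique (hV _) (tendsto_const_nhds.congr' ?_))
        filter_upwards [h, lpos] with k h1 h2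
        simp [A, Dat.ev_C, h1, h2.ne']) }
  have hV0 : V f0 = 0 := by
    by_contra h
    obtain ⟨T, hT⟩ := NNReal.exists_pow_lt_of_lt_one (pos_iff_ne_zero.2 h) H.lt
    refine hT.not_ge ?_
    rw [← NNReal.coe_le_coe, θp]
    exact up' _ _ 0 (by simpa using hf0 T)
  obtain ⟨m, hm, hm'⟩ := H.ko f0 hV0 (hne.imp fun β hβ =>
    ((pow_pos θ0 _).trans_le (dich _ hβ)).ne')
  refine ⟨m, hm, ?_⟩
  have h1 : ∀ᶠ k in U, aeval (Y k).y (∏ i, (1 + X (inl i)) ^ (m i).toNat -
      ∏ i, (1 + X (inl i)) ^ (-m i).toNat : R0 ι κ) = 0 := by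
    by_contra h
    rw [← Ultrafilter.eventually_not] at h
    exact ((pow_pos θ0 _).trans_le (dich _ h)).ne' hm'
  have sm : ∀ n : ι → ℕ, ∀ᶠ k in U, ∑ i, n i * ‖(Y k).lam i‖ ≤ 1 / 32 := fun n =>
    (ev_ge (32 * ∑ i, n i)).mono fun k hk => by
      have : ∑ i, n i * ‖(Y k).lam i‖ ≤ (∑ i, n i : ℕ) * Real.exp (-l k) := by
        push_cast
        rw [sum_mul]
        exact sum_le_sum fun i _ => by gcongr; exact hlam k i
      refine this.trans ?_
      rw [Real.exp_neg, ← div_eq_mul_inv, div_le_iff₀ (by positivity)]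
      push_cast at hk ⊢
      linarith [Real.add_one_le_exp (l k)]
  filter_upwards [h1, sm fun i => (m i).toNat, sm fun i => (-m i).toNat] with k h1 h2 h3
  have h4 := congrArg (Y k).φ (sub_eq_zero.1 ((map_sub _ _ _).symm.trans h1))
  simp only [map_prod, map_pow, map_add, map_one, aeval_X, Dat.y, Sum.elim_inl,
    add_sub_cancel, ← (Y k).hexp] at h4
  rw [← (Y k).G.exp_sum _ _ _ (h2.trans (by norm_num)),
    ← (Y k).G.exp_sum _ _ _ (h3.trans (by norm_num))] at h4
  have h5 := (Y k).G.exp_inj ((norm_sum_le_of_le _ fun i _ => norm_nat_mul _ _).trans h2)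
    ((norm_sum_le_of_le _ fun i _ => norm_nat_mul _ _).trans h3) h4
  rw [← sub_eq_zero, ← sum_sub_distrib] at h5
  rw [← h5]
  refine sum_congr rfl fun i _ => ?_
  rw [← sub_mul, ← Int.cast_natCast (m i).toNat, ← Int.cast_natCast (-m i).toNat, ← Int.cast_sub,
    Int.toNat_sub_toNat_neg]

end Pool.Agent.Lib.MP_1f047c_nt
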