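import Pool.Agent.Lib.MP_1f047c_nt.Limit

/-! The main theorem over a good normed field. -/

open Finset MvPolynomial Sum Filter Height

namespace Pool.Agent.Lib.MP_1f047c_nt

/-- The statement with two constants. -/
def Two (ι : Type) [Fintype ι] (D : ℕ) (δ c c' : ℝ) : Prop :=
  ∀ (𝕜 : Type) [NormedField 𝕜] [CompleteSpace 𝕜] [CharZero 𝕜], Good 𝕜 →
    ∀ (K : Type) [Field K] [NumberField K] (φ : K →+* 𝕜) (α : ι → K) (lam : ι → 𝕜)
      (F : MvPolynomial ι K) (h : ℝ), F.totalDegree ≤ D → (∀ i, logHeight₁ (α i) ≤ h) →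
      (∀ β, logHeight₁ (coeff β F) ≤ h) → (∀ i, NormedSpace.exp (lam i) = φ (α i)) →
      (∀ i, ‖lam i‖ ≤ Real.exp (-(δ * h + c * Module.finrank ℚ K))) →
      ‖eval₂ φ lam F‖ < Real.exp (-(c' * (h + Module.finrank ℚ K))) →
      ∃ (r : ℕ) (a : Fin r → ι) (q : ι → Fin r → ℚ), (∀ i, lam i = ∑ j, q i j * lam (a j)) ∧
        aeval (fun i => ∑ j, C (q i j : K) * X j) F = (0 : MvPolynomial (Fin r) K)

theorem two (ι : Type) [Fintype ι] (D : ℕ) (δ : ℝ) (hδ : 0 < δ) :
    ∃ k : ℕ, Two ι D δ k (k * (k + δ)) := by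
  classical
  by_contra hcon
  simp only [Two, not_exists, not_forall] at hcon
  choose 𝕜 nf cs cz G K fK nK φ α lam F h hD hα hF hexp hlam hsm hno using hcon
  let κ := {β : ι →₀ ℕ | β.degree ≤ D}
  let _ : Fintype κ := (Finsupp.finite_of_degree_le D).fintype
  have h0 : ∀ k, 0 ≤ h k := fun k => (zero_le_logHeight₁ _).trans (hF k 0)
  have : ∀ k, ∃ β0 : κ, ∀ β : κ, ‖φ k (coeff β.1 (F k))‖ ≤ ‖φ k (coeff β0.1 (F k))‖ := fun k => by
    obtain ⟨β0, -, h⟩ := exists_max_image univ (fun β : κ => ‖φ k (coeff β.1 (F k))‖)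
      ⟨⟨0, by simp [κ]⟩, mem_univ _⟩
    exact ⟨β0, fun β => h β (mem_univ _)⟩
  choose β0 hβ0 using this
  let c0 := fun k => coeff (β0 k).1 (F k)
  let γ : ∀ k, κ → K k := fun k β => coeff β.1 (F k) / c0 k
  have hγ : ∀ k β, c0 k * γ k β = coeff β.1 (F k) := fun k β => by
    by_cases h : c0 k = 0
    · have := hβ0 k β
      change _ ≤ ‖φ k (c0 k)‖ at this
      rw [h, map_zero, norm_zero, norm_le_zero_iff, map_eq_zero] at this
      rw [h, this, zero_mul]
    · exact mul_div_cancel₀ _ h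
  have hF' : ∀ k, F k = ∑ β : κ, monomial β.1 (coeff β.1 (F k)) := fun k => by
    ext β
    simp only [coeff_sum, coeff_monomial]
    by_cases hβ : β.degree ≤ D
    · rw [sum_eq_single (⟨β, hβ⟩ : κ), if_pos rfl]
      · exact fun b _ hb => if_neg fun h => hb (Subtype.ext h)
      · simp
    · rw [sum_eq_zero fun b _ => if_neg fun h : b.1 = β => hβ (h ▸ b.2)]
      by_contra h
      exact hβ ((le_totalDegree (mem_support_iff.2 h)).trans (hD k))
  let U := hyperfilter ℕ
  have hU : (U : Filter ℕ) ≤ atTop := Nat.hyperfilter_le_atTop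
  let L : Submodule ℚ (ι → ℚ) :=
    { carrier := {m | ∀ᶠ k in U, ∑ i, m i * lam k i = 0}
      add_mem' := fun {a b} ha hb => by
        filter_upwards [ha, hb] with k h1 h2
        simp only [Pi.add_apply, Rat.cast_add, add_mul, sum_add_distrib, h1, h2, add_zero]
      zero_mem' := by simp
      smul_mem' := fun c a ha => by
        filter_upwards [ha] with k h1
        simp only [Pi.smul_apply, smul_eq_mul, Rat.cast_mul, mul_assoc, ← mul_sum, h1, mul_zero] }
  let v : ι → (ι → ℚ) ⧸ L := fun i => L.mkQ (Pi.single i 1)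
  obtain ⟨κ', a', ha', hsp, hli⟩ := exists_linearIndependent' ℚ v
  have _ : Finite κ' := Finite.of_injective a' ha'
  obtain ⟨r, ⟨e⟩⟩ := Finite.exists_equiv_fin κ'
  let a : Fin r → ι := a' ∘ e.symm
  have hli' : LinearIndependent ℚ (v ∘ a) := hli.comp e.symm e.symm.injective
  have mL : ∀ m : Fin r → ℚ, ∀ k, ∑ i, (∑ j, m j • (Pi.single (a j) 1 : ι → ℚ)) i * lam k i =
      ∑ j, m j * lam k (a j) := fun m k => by
    simp only [Finset.sum_apply, Pi.smul_apply, smul_eq_mul, Rat.cast_sum, sum_mul]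
    rw [sum_comm]
    refine sum_congr rfl fun j _ => ?_
    rw [sum_eq_single (a j)]
    · simp
    · intro b _ hb; simp [hb]
    · simp
  have : ∀ i, ∃ q : Fin r → ℚ, ∀ᶠ k in U, lam k i = ∑ j, q j * lam k (a j) := fun i => by
    have : v i ∈ Submodule.span ℚ (Set.range (v ∘ a)) := by
      rw [show Set.range (v ∘ a) = Set.range (v ∘ a') from e.symm.surjective.range_comp (v ∘ a'),
        hsp]
      exact Submodule.subset_span ⟨i, rfl⟩
    obtain ⟨q, hq⟩ := (Submodule.mem_span_range_iff_exists_fun ℚ).1 this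
    refine ⟨q, ?_⟩
    have h1 : (Pi.single i 1 : ι → ℚ) - ∑ j, q j • Pi.single (a j) 1 ∈ L := by
      rw [← Submodule.Quotient.mk_eq_zero, ← Submodule.mkQ_apply, map_sub, map_sum, sub_eq_zero]
      simpa [v] using hq.symm
    filter_upwards [h1] with k hk
    simp only [Pi.sub_apply, Rat.cast_sub, sub_mul, sum_sub_distrib, mL] at hk
    rw [← sub_eq_zero.1 hk, sum_eq_single i]
    · simp
    · intro b _ hb; simp [hb]
    · simp
  choose q hq using this
  have hq' : ∀ᶠ k in U, ∀ i, lam k i = ∑ j, q i j * lam k (a j) := eventually_all.2 hq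
  let Y : ℕ → Dat (Fin r) κ := fun k =>
    { 𝕜 := 𝕜 k, G := G k, K := K k, φ := φ k, α := α k ∘ a, γ := γ k, lam := lam k ∘ a
      h := 2 * h k
      h0 := by linarith [h0 k]
      hα := fun j => (hα k _).trans (by linarith [h0 k])
      hγ := fun β => by
        simp only [γ, div_eq_mul_inv]
        refine (logHeight₁_mul_le _ _).trans ?_
        rw [logHeight₁_inv]
        linarith [hF k β.1, hF k (β0 k).1]
      hexp := fun j => hexp k _
      nγ := fun β => by
        simp only [γ, map_div₀, norm_div]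
        exact div_le_one_of_le₀ (hβ0 k β) (norm_nonneg _) }
  let f0 : SS (Fin r) κ := ∑ β : κ, C (X (inr β)) *
    ∏ i, (∑ j, algebraMap ℚ _ (q i j) * X j) ^ β.1 i
  let π : ∀ k, R0 (Fin r) κ →+* K k := fun k =>
    (aeval (Y k).y : R0 (Fin r) κ →ₐ[ℚ] K k).toRingHom
  have e1 : ∀ k, aeval (fun i => ∑ j, C (q i j : K k) * X j) (F k) = C (c0 k) * map (π k) f0 := by
    intro k
    have πq : ∀ x : ℚ, map (π k) (algebraMap ℚ (SS (Fin r) κ) x) = C (x : K k) := fun x => by
      rw [IsScalarTower.algebraMap_apply ℚ (R0 (Fin r) κ) (SS (Fin r) κ), algebraMap_eq, map_C]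
      congr 1
      exact eq_ratCast ((π k).comp (algebraMap ℚ _)) x
    conv_lhs => rw [hF' k]
    simp only [f0, map_sum, map_mul, map_prod, map_pow, map_X, map_C, πq, mul_sum, aeval_monomial]
    refine sum_congr rfl fun β _ => ?_
    rw [Finsupp.prod_fintype _ _ (by simp), ← mul_assoc, ← map_mul, ← hγ]
    simp [π, Y, Dat.y]
  by_cases hA : ∀ β, ∀ᶠ k in U, aeval (Y k).y (coeff β f0) = 0
  · have h1 : ∀ᶠ k in U, ∀ β ∈ f0.support, aeval (Y k).y (coeff β f0) = 0 :=
      (eventually_all_finset _).2 fun β _ => hA β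
    obtain ⟨k, k1, k2⟩ := (h1.and hq').exists
    refine hno k r a q ⟨k2, ?_⟩
    rw [e1, show map (π k) f0 = 0 from ?_, mul_zero]
    ext β
    rw [coeff_map, coeff_zero]
    by_cases hβ : β ∈ f0.support
    · exact k1 β hβ
    · rw [notMem_support_iff.1 hβ, map_zero]
  · obtain ⟨β, hβ⟩ := not_forall.1 hA
    obtain ⟨m, hm, hm'⟩ := core U hU Y (fun k => δ * h k + k * Module.finrank ℚ (K k)) (δ / 2)
      (by positivity) (fun k => le_of_eq (by simp only [Y, Dat.d]; ring)) (fun k j => hlam k _) f0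
      (fun T => by
        filter_upwards [hq', (eventually_ge_atTop (T + 1)).filter_mono hU] with k k1 k2
        have e2 : eval₂ (φ k) (lam k) (F k) = φ k (c0 k) * (Y k).ev f0 := by
          have e3 : (Y k).ev f0 = eval₂ (φ k) (lam k ∘ a) (map (π k) f0) := by
            rw [eval₂_map]; rfl
          rw [e3, ← eval₂_C (φ k) (lam k ∘ a), ← eval₂_mul, ← e1]
          refine congrArg (fun f : MvPolynomial ι (K k) →+* 𝕜 k => f (F k))
            (show eval₂Hom (φ k) (lam k) = (eval₂Hom (φ k) (lam k ∘ a)).comp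
              (aeval (fun i => ∑ j, C (q i j : K k) * X j)).toRingHom from ?_)
          ext x
          · simp
          · simpa using k1 x
        by_cases hc : c0 k = 0
        · have : (Y k).ev f0 = 0 := by
            simp only [f0, map_sum, map_mul]
            refine sum_eq_zero fun β _ => ?_
            have : (Y k).y (inr β) = 0 := by
              change coeff _ _ / c0 k = 0
              rw [hc, div_zero]
            rw [Dat.ev_C, aeval_X, this, map_zero, zero_mul]
          rw [this, norm_zero]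
          positivity
        · have h1 := (G k).lower (φ k) hc
          have h2 := hsm k
          rw [e2, norm_mul] at h2
          have h3 := (mul_le_mul_of_nonneg_right
            ((Real.exp_le_exp.2 (neg_le_neg (hF k (β0 k).1))).trans h1) (norm_nonneg _)).trans h2.le
          rw [← le_div_iff₀' (by positivity), ← Real.exp_sub] at h3
          refine h3.trans (Real.exp_le_exp.2 ?_)
          have h4 : (T : ℝ) + 1 ≤ k := by exact_mod_cast k2
          have h5 : (0 : ℝ) ≤ Module.finrank ℚ (K k) := by positivity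
          have h6 : (0 : ℝ) ≤ T := by positivity
          have h7 := h0 k
          generalize (Module.finrank ℚ (K k) : ℝ) = d at *
          have h8 : δ * h k + k * d ≤ (k + δ) * (h k + d) := by nlinarith
          have h9 : h k ≤ (k + δ) * (h k + d) := by nlinarith
          have h10 : (T + 1) * ((k + δ) * (h k + d)) ≤ k * ((k + δ) * (h k + d)) := by
            gcongr
          nlinarith)
      ⟨β, Ultrafilter.eventually_not.2 hβ⟩
    apply hm
    have h1 : ∑ j, (m j : ℚ) • (v ∘ a) j = 0 := by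
      have : ∑ j, (m j : ℚ) • (Pi.single (a j) 1 : ι → ℚ) ∈ L := by
        filter_upwards [hm'] with k hk
        rw [mL]
        simpa [Y] using hk
      rw [← Submodule.Quotient.mk_eq_zero, ← Submodule.mkQ_apply, map_sum] at this
      simpa [v] using this
    funext j
    exact_mod_cast Fintype.linearIndependent_iff.1 hli' _ h1 j

theorem one (ι : Type) [Fintype ι] (D : ℕ) (δ : ℝ) (hδ : 0 < δ) :
    ∃ c : ℝ, 0 ≤ c ∧ ∀ c', c ≤ c' → Two ι D δ c' c' := by
  obtain ⟨k, hk⟩ := two ι D δ hδ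
  refine ⟨k + k * (k + δ), by positivity, fun c' hc 𝕜 _ _ _ G K _ _ φ α lam F h hD hα hF hexp
    hlam hsm => hk 𝕜 G K φ α lam F h hD hα hF hexp (fun i => (hlam i).trans ?_) (hsm.trans_le ?_)⟩
  · have : (0 : ℝ) ≤ k * (k + δ) := by positivity
    gcongr
    linarith
  · have h0 : 0 ≤ h := (zero_le_logHeight₁ _).trans (hF 0)
    have : (0 : ℝ) ≤ k := by positivity
    gcongr
    linarith

lemma singular_space {n : Type} [Fintype n] [DecidableEq n] {r : ℕ} (A : n × n → Fin r → ℚ)
    (h : (Matrix.of fun i l => ∑ j, C (A (i, l) j) * (X j : MvPolynomial (Fin r) ℚ)).det = 0) :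
    ∃ w v : n → ℚ, w ≠ 0 ∧ v ≠ 0 ∧ ∀ j, ∑ i, ∑ l, w i * A (i, l) j * v l = 0 := by
  obtain ⟨v, hv, h1⟩ := Matrix.exists_mulVec_eq_zero_iff.2 h
  obtain ⟨w, hw, h2⟩ := Matrix.exists_vecMul_eq_zero_iff.2 h
  set N := Matrix.of fun i l => ∑ j, C (A (i, l) j) * (X j : MvPolynomial (Fin r) ℚ) with hN
  have key : ∀ j, ∑ i, ∑ l, w i * C (A (i, l) j) * v l = 0 := fun j => by
    have d : ∀ i l, pderiv j (N i l) = C (A (i, l) j) := fun i l => by
      simp only [hN, Matrix.of_apply, map_sum, pderiv_C_mul]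
      rw [sum_eq_single j, pderiv_X_self, mul_one]
      · intro b _ hb
        rw [pderiv_X_of_ne hb, mul_zero]
      · simp
    have e1 : ∀ i, ∑ l, (N i l * pderiv j (v l) + v l * C (A (i, l) j)) = 0 := fun i => by
      have := congrArg (pderiv j) (congrFun h1 i)
      simpa only [Matrix.mulVec, dotProduct, map_sum, Derivation.leibniz, smul_eq_mul, d,
        Pi.zero_apply, map_zero] using this
    have e2 : ∀ l, ∑ i, w i * N i l = 0 := fun l => congrFun h2 l
    calc _ = ∑ i, w i * ∑ l, (N i l * pderiv j (v l) + v l * C (A (i, l) j)) -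
          ∑ l, (∑ i, w i * N i l) * pderiv j (v l) := by
          simp only [mul_sum, sum_mul]
          rw [sum_comm (γ := n) (f := fun l i => w i * N i l * pderiv j (v l)), ← sum_sub_distrib]
          refine sum_congr rfl fun i _ => ?_
          rw [← sum_sub_distrib]
          exact sum_congr rfl fun l _ => by ring
      _ = 0 := by simp [e1, e2]
  obtain ⟨i0, hi⟩ := Function.ne_iff.1 hw
  obtain ⟨l0, hl⟩ := Function.ne_iff.1 hv
  have : ∃ x, eval x (w i0 * v l0) ≠ 0 := by
    by_contra hx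
    push Not at hx
    exact mul_ne_zero hi hl (MvPolynomial.funext fun x => by rw [hx, map_zero])
  obtain ⟨x, hx⟩ := this
  rw [map_mul] at hx
  refine ⟨fun i => eval x (w i), fun l => eval x (v l),
    Function.ne_iff.2 ⟨i0, left_ne_zero_of_mul hx⟩, Function.ne_iff.2 ⟨l0, right_ne_zero_of_mul hx⟩,
    fun j => ?_⟩
  simpa using congrArg (eval x) (key j)

theorem matrix (n : ℕ) (δ : ℝ) (hδ : 0 < δ) : ∃ c : ℝ, ∀ c', c ≤ c' →
    ∀ (𝕜 : Type) [NormedField 𝕜] [CompleteSpace 𝕜] [CharZero 𝕜], Good 𝕜 →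
    ∀ (K : Type) [Field K] [NumberField K] (φ : K →+* 𝕜) (α : Matrix (Fin n) (Fin n) K)
      (M : Matrix (Fin n) (Fin n) 𝕜) (h : ℝ), 0 ≤ h → (∀ i j, logHeight₁ (α i j) ≤ h) →
      (∀ i j, NormedSpace.exp (M i j) = φ (α i j)) →
      (∀ i j, ‖M i j‖ ≤ Real.exp (-(δ * h + c' * Module.finrank ℚ K))) →
      ‖M.det‖ < Real.exp (-(c' * (h + Module.finrank ℚ K))) →
      ∃ w v : Fin n → ℚ, w ≠ 0 ∧ v ≠ 0 ∧ ∑ i, ∑ j, w i * M i j * v j = 0 := by
  classical
  let F0 : MvPolynomial (Fin n × Fin n) ℚ := (Matrix.of fun i l => X (i, l)).det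
  obtain ⟨c, hc, H⟩ := one (Fin n × Fin n) F0.totalDegree δ hδ
  choose B hB hB' using exists_rat_bound
  let b := ∑ β ∈ F0.support, Real.log (B (coeff β F0))
  have b0 : ∀ β ∈ F0.support, 0 ≤ Real.log (B (coeff β F0)) := fun β _ => Real.log_nonneg (hB _)
  have hb : 0 ≤ b := sum_nonneg b0
  refine ⟨δ * b + c * (1 + b), fun c' hc' 𝕜 _ _ _ G K _ _ φ α M h h0 hα hexp hM hdet => ?_⟩
  have hd : (0 : ℝ) ≤ Module.finrank ℚ K := by positivity
  have hbd := mul_nonneg hb hd
  have hδb := mul_nonneg hδ.le hb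
  have hcb := mul_nonneg hc hb
  obtain ⟨r, a, q, h1, h2⟩ := H c le_rfl 𝕜 G K φ (fun x => α x.1 x.2) (fun x => M x.1 x.2)
    (map (algebraMap ℚ K) F0) (h + b * Module.finrank ℚ K)
    (Finset.sup_mono (support_map_subset _ _)) (fun x => (hα _ _).trans (by linarith))
    (fun β => by
      rw [coeff_map]
      by_cases hβ : β ∈ F0.support
      · have := Real.log_le_log (by positivity) (hB' (coeff β F0) K)
        rw [Real.log_pow, NumberField.totalWeight_eq_finrank] at this
        have h3 := mul_le_mul_of_nonneg_left (single_le_sum b0 hβ) hd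
        rw [eq_ratCast, logHeight₁_eq_log_mulHeight₁]
        linarith
      · rw [notMem_support_iff.1 hβ, map_zero, logHeight₁_zero]
        linarith)
    (fun x => hexp _ _) (fun x => (hM _ _).trans (Real.exp_le_exp.2 (by nlinarith)))
    (by
      have : eval₂ φ (fun x => M x.1 x.2) (map (algebraMap ℚ K) F0) = M.det := by
        rw [eval₂_map, ← coe_eval₂Hom, RingHom.map_det]
        congr 1
        ext i j
        simp
      rw [this]
      refine hdet.trans_le (Real.exp_le_exp.2 (neg_le_neg ?_))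
      calc _ ≤ c * (1 + b) * (h + Module.finrank ℚ K) := by
            rw [mul_assoc]; gcongr; nlinarith
        _ ≤ _ := by gcongr; linarith)
  obtain ⟨w, v, hw, hv, h3⟩ := singular_space q (by
    apply map_injective (algebraMap ℚ K) (algebraMap ℚ K).injective
    rw [map_zero, ← h2, aeval_map_algebraMap, RingHom.map_det, AlgHom.map_det]
    congr 1
    ext1 i j
    simp)
  refine ⟨w, v, hw, hv, ?_⟩
  calc _ = ∑ j, ((∑ i, ∑ l, w i * q (i, l) j * v l : ℚ) : 𝕜) * M (a j).1 (a j).2 := by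
        push_cast
        simp only [sum_mul]
        rw [sum_comm (γ := Fin r)]
        refine sum_congr rfl fun i _ => ?_
        rw [sum_comm (γ := Fin r)]
        refine sum_congr rfl fun l _ => ?_
        rw [show M i l = _ from h1 (i, l), mul_sum, sum_mul]
        exact sum_congr rfl fun j _ => by ring
    _ = 0 := by simp [h3]

theorem poly (ι : Type) [Fintype ι] (D : ℕ) (δ : ℝ) (hδ : 0 < δ) : ∃ c : ℝ, ∀ c', c ≤ c' →
    ∀ (𝕜 : Type) [NormedField 𝕜] [CompleteSpace 𝕜] [CharZero 𝕜], Good 𝕜 →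
    ∀ (K : Type) [Field K] [NumberField K] (φ : K →+* 𝕜) (α : ι → K) (lam : ι → 𝕜)
      (F : MvPolynomial ι K) (h : ℝ), F.totalDegree ≤ D → (∀ i, logHeight₁ (α i) ≤ h) →
      (∀ β, logHeight₁ (coeff β F) ≤ h) → (∀ i, NormedSpace.exp (lam i) = φ (α i)) →
      (∀ i, ‖lam i‖ ≤ Real.exp (-(δ * h + c' * Module.finrank ℚ K))) →
      ‖eval₂ φ lam F‖ < Real.exp (-(c' * (h + Module.finrank ℚ K))) →
      ∀ x : ι → K, (∀ m : ι → ℚ, ∑ i, m i * lam i = 0 → ∑ i, m i * x i = 0) → eval x F = 0 := by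
  classical
  obtain ⟨c, -, H⟩ := one ι D δ hδ
  refine ⟨c, fun c' hc 𝕜 _ _ _ G K _ _ φ α lam F h hD hα hF hexp hlam hsm x hx => ?_⟩
  obtain ⟨r, a, q, h1, h2⟩ := H c' hc 𝕜 G K φ α lam F h hD hα hF hexp hlam hsm
  have gen : ∀ {k : Type} [Field k] [CharZero k] (y : ι → k) (i : ι),
      ∑ s, ((Pi.single i 1 - ∑ j, q i j • Pi.single (a j) 1 : ι → ℚ) s : k) * y s =
        y i - ∑ j, q i j * y (a j) := by
    intro k _ _ y i
    simp only [Pi.sub_apply, Finset.sum_apply, Pi.smul_apply, smul_eq_mul, Rat.cast_sub,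
      Rat.cast_sum, sub_mul, sum_mul, sum_sub_distrib]
    rw [sum_comm]
    simp [Pi.single_apply, apply_ite]
  have h3 : x = fun i => ∑ j, q i j * x (a j) := funext fun i => by
    rw [← sub_eq_zero, ← gen]
    exact hx _ (by rw [gen, ← h1, sub_self])
  have := congrArg (eval (x ∘ a)) h2
  rw [map_zero, ← coe_aeval_eq_eval, RingHom.coe_coe, ← AlgHom.comp_apply, comp_aeval] at this
  rw [h3, ← this]
  simp

end Pool.Agent.Lib.MP_1f047c_nt
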