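import Pool.Agent.Lib.MP_1f047c_nt.Kolchin

/-! The Kolchin-Ostrowski step. -/

open Finset Module MvPolynomial Sum
open scoped NNReal

namespace Pool.Agent.Lib.MP_1f047c_nt

variable {ι κ : Type} {V : Valuation (SS ι κ) ℝ≥0} {θ : ℝ≥0} {Cst : ℕ}

lemma near_one {k : Type} [Field k] (U : Valuation k ℝ≥0) [Fintype ι] (a : ι → k)
    (ha : ∀ i, U (a i - 1) < 1) (m : ι → ℤ) : U (∏ i, a i ^ m i - 1) < 1 := by
  have one : ∀ u, U (u - 1) < 1 → U u = 1 := fun u h => by
    simpa using U.map_one_add_of_lt h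
  have mul : ∀ u w, U (u - 1) < 1 → U (w - 1) < 1 → U (u * w - 1) < 1 := fun u w h1 h2 => by
    rw [show u * w - 1 = (u - 1) * w + (w - 1) by ring]
    exact U.map_add_lt (by rw [map_mul, one w h2, mul_one]; exact h1) h2
  have pw : ∀ u (n : ℕ), U (u - 1) < 1 → U (u ^ n - 1) < 1 := fun u n h => by
    induction n with
    | zero => simp
    | succ n ih => rw [pow_succ]; exact mul _ _ ih h
  have inv : ∀ u, U (u - 1) < 1 → U (u⁻¹ - 1) < 1 := fun u h => by
    have h0 : u ≠ 0 := by
      rintro rfl
      simp at h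
    rw [show u⁻¹ - 1 = -(u - 1) / u by field_simp; ring, map_div₀, U.map_neg, one u h, div_one]
    exact h
  refine prod_induction _ (fun u => U (u - 1) < 1) mul (by simp) fun i _ => ?_
  rcases m i with n | n
  · simpa using pw _ n (ha i)
  · rw [zpow_negSucc]
    exact inv _ (pw _ _ (ha i))

lemma Hyp.ko_field [Fintype ι] [Fintype κ] (H : Hyp V θ Cst) {k : Type} [Field k] [CharZero k]
    (π : R0 ι κ →+* k) (U : Valuation k ℝ≥0) (hU : ∀ r, U (π r) = V (C r))
    (hfrac : ∀ x : k, ∃ a b, π b ≠ 0 ∧ x = π a / π b)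
    (f0 : SS ι κ) (hf0 : V f0 = 0) (hne : map π f0 ≠ 0) :
    ∃ m : ι → ℤ, m ≠ 0 ∧ ∏ i, π (1 + X (inl i)) ^ m i = 1 := by
  classical
  have hker : ∀ r, π r = 0 ↔ V (C r) = 0 := fun r => by rw [← hU, U.zero_iff]
  have πC : ∀ q : ℚ, π (C q) = q := fun q => eq_ratCast (π.comp C) q
  set a : ι → k := fun i => π (1 + X (inl i)) with ha
  have a1 : ∀ i, U (a i - 1) < 1 := fun i => by
    simp only [a, map_add, map_one, add_sub_cancel_left, hU]
    exact (H.hZ i).trans_lt H.lt
  have a0 : ∀ i, a i ≠ 0 := fun i h => by simpa [h] using a1 i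
  have hy : IntermediateField.adjoin ℚ (Set.range fun s => π (X s)) = ⊤ := by
    have : ∀ r, π r ∈ IntermediateField.adjoin ℚ (Set.range fun s => π (X s)) := fun r => by
      induction r using MvPolynomial.induction_on with
      | C q => rw [πC]; exact SubfieldClass.ratCast_mem _ q
      | add p q hp hq => rw [map_add]; exact add_mem hp hq
      | mul_X p s hp =>
        rw [map_mul]; exact mul_mem hp (IntermediateField.subset_adjoin _ _ ⟨s, rfl⟩)
    rw [eq_top_iff]
    intro x _
    obtain ⟨a, b, -, rfl⟩ := hfrac x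
    exact div_mem (this a) (this b)
  -- lifting derivations
  have lift : ∀ d : Der k, ∃ (D : SS ι κ → SS ι κ) (D0 : R0 ι κ → R0 ι κ) (b : k), b ≠ 0 ∧
      (∀ f, V f = 0 → V (D f) = 0) ∧ (∀ r, π (D0 r) = b * d (π r)) ∧
      ∀ f β, coeff β (map π (D f)) = b * (d (coeff β (map π f)) +
        ∑ i, d (a i) / a i * (coeff (β + Finsupp.single i 1) (map π f) * (β i + 1))) := by
    intro d
    let x : ι ⊕ κ → k := Sum.elim (fun i => d (a i) / a i) fun j => d (π (X (inr j)))
    choose n b hb hx using fun s => hfrac (x s)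
    let B := π (∏ s, b s)
    have hB : B ≠ 0 := by
      simp only [B, map_prod]
      exact prod_ne_zero_iff.2 fun s _ => hb s
    have : ∀ s, ∃ r, π r = B * x s := fun s => ⟨n s * ∏ t ∈ univ.erase s, b t, by
      simp only [B]
      rw [← mul_prod_erase univ b (mem_univ s), hx s, map_mul, map_mul]
      field_simp [hb s]⟩
    choose r hr using this
    let D0 := mkDerivation ℚ (Sum.elim (fun i => r (inl i) * (1 + X (inl i))) fun j => r (inr j))
    obtain ⟨D, h1, h2, h5⟩ := exists_der D0 fun i => r (inl i)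
    have h6 : ∀ p, π (D0 p) = B * d (π p) := fun p => by
      induction p using MvPolynomial.induction_on with
      | C q => rw [πC, der_rat, derivation_C, map_zero, mul_zero]
      | add p q hp hq => rw [map_add, map_add, map_add, map_add, hp, hq, mul_add]
      | mul_X p s hp =>
        have : π (D0 (X s)) = B * d (π (X s)) := by
          rw [mkDerivation_X]
          rcases s with i | j
          · have e : d (π (X (inl i))) = d (a i) := by simp [a]
            rw [Sum.elim_inl, map_mul, hr, e]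
            change B * (d (a i) / a i) * a i = _
            field_simp [a0 i]
          · exact hr _
        simp only [Derivation.leibniz, smul_eq_mul, map_add, map_mul, this, hp]
        ring
    refine ⟨D, D0, B, hB, H.stab D0 _ D h1 h2 (fun i => mkDerivation_X _ _ _) fun p hp => ?_, h6,
      fun f β => ?_⟩
    · rw [← hker] at hp ⊢
      rw [h6, hp, map_zero, mul_zero]
    · simp only [coeff_map, h5, map_add, map_sum, map_mul, h6, hr, map_natCast, map_one, mul_add,
        mul_sum]
      congr 1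
      exact sum_congr rfl fun i _ => by simp only [x, Sum.elim_inl]; ring
  -- a minimal relation
  let deg : (ι →₀ ℕ) → ℕ := fun β => β.sum fun _ e => e
  let top : ℕ → SS ι κ → Finset (ι →₀ ℕ) := fun n f => (map π f).support.filter fun β => deg β = n
  have ex1 : ∃ n, ∃ f, V f = 0 ∧ map π f ≠ 0 ∧ (map π f).totalDegree = n := ⟨_, f0, hf0, hne, rfl⟩
  set n0 := Nat.find ex1 with hn0
  have ex2 : ∃ m, ∃ f, V f = 0 ∧ map π f ≠ 0 ∧ (map π f).totalDegree = n0 ∧ (top n0 f).card = m := by
    obtain ⟨f, h1, h2, h3⟩ := Nat.find_spec ex1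
    exact ⟨_, f, h1, h2, h3, rfl⟩
  obtain ⟨f, hf, hf1, hf2, hf3⟩ := Nat.find_spec ex2
  obtain ⟨β0, hβ0, hβ0'⟩ := exists_mem_eq_sup (map π f).support (support_nonempty.2 hf1) deg
  have hd0 : deg β0 = n0 := hβ0'.symm.trans hf2
  set F := fun β => coeff β (map π f) with hF
  have e0 : F β0 ≠ 0 := mem_support_iff.1 hβ0
  have big : ∀ β, n0 < deg β → F β = 0 := fun β h => by
    by_contra h0
    exact absurd ((le_totalDegree (mem_support_iff.2 h0)).trans hf2.le) (not_le.2 h)
  have degs : ∀ β i, deg (β + Finsupp.single i 1) = deg β + 1 := fun β i => by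
    simp only [deg]
    rw [Finsupp.sum_add_index' (fun _ => rfl) (fun _ _ _ => rfl), Finsupp.sum_single_index rfl]
  have key : ∀ (d : Der k) β, F β0 * (d (F β) +
      ∑ i, d (a i) / a i * (F (β + Finsupp.single i 1) * (β i + 1))) = d (F β0) * F β := by
    intro d
    obtain ⟨D, D0, b, hb, k1, k2, k3⟩ := lift d
    let g := C (coeff β0 f) * D f - C (D0 (coeff β0 f)) * f
    have hg : V g = 0 := nonpos_iff_eq_zero.1 (V.map_sub_le (by simp [k1 f hf]) (by simp [hf]))
    have cg : ∀ β, coeff β (map π g) = b * (F β0 * (d (F β) +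
        ∑ i, d (a i) / a i * (F (β + Finsupp.single i 1) * (β i + 1))) - d (F β0) * F β) := by
      intro β
      have e1 : π (coeff β0 f) = F β0 := (coeff_map π f β0).symm
      simp only [g, map_sub, map_mul, map_C, coeff_sub, coeff_C_mul]
      rw [k3, k2, e1]
      simp only [hF]
      ring
    have cg' : ∀ β, n0 ≤ deg β → coeff β (map π g) = b * (F β0 * d (F β) - d (F β0) * F β) := by
      intro β h
      rw [cg, sum_eq_zero fun i _ => by rw [big _ (by rw [degs]; omega)]; simp, add_zero]
    have g0 : map π g = 0 := by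
      by_contra g0
      have t1 : (map π g).totalDegree ≤ n0 := Finset.sup_le fun β hβ => by
        by_contra h
        have h' : n0 < deg β := not_le.1 h
        exact mem_support_iff.1 hβ (by rw [cg' β h'.le, big β h']; simp)
      have t2 : (map π g).totalDegree = n0 := le_antisymm t1 (Nat.find_min' ex1 ⟨g, hg, g0, rfl⟩)
      have t3 : top n0 g ⊆ (top n0 f).erase β0 := fun β hβ => by
        obtain ⟨h1, h2⟩ := mem_filter.1 hβ
        have h3 := mem_support_iff.1 h1
        rw [cg' β h2.ge] at h3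
        refine mem_erase.2 ⟨?_, mem_filter.2 ⟨mem_support_iff.2 fun h => h3 ?_, h2⟩⟩
        · rintro rfl
          exact h3 (by ring)
        · change F β = 0 at h
          simp [h]
      have t4 := Nat.find_min' ex2 ⟨g, hg, g0, t2, rfl⟩
      have t5 := (card_le_card t3).trans_lt (card_erase_lt_of_mem (mem_filter.2 ⟨hβ0, hd0⟩))
      omega
    intro β
    have := cg β
    rw [g0, coeff_zero] at this
    exact sub_eq_zero.1 ((mul_eq_zero.1 this.symm).resolve_left hb)
  have alg : ∀ β, deg β = n0 → IsAlgebraic ℚ (F β / F β0) := fun β h =>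
    alg_of_const _ hy _ fun d => by
      have := key d β
      rw [sum_eq_zero fun i _ => by rw [big _ (by rw [degs]; omega)]; simp, add_zero] at this
      rw [Derivation.leibniz_div]
      simp only [smul_eq_mul]
      rw [this]
      ring
  have hβ : β0 ≠ 0 := by
    rintro rfl
    have hn : n0 = 0 := by simpa [deg] using hd0.symm
    apply e0
    simp only [F, coeff_map, hker]
    have : C (coeff 0 f) = f - ∑ β ∈ f.support.erase 0, C (coeff β f) * monomial β 1 := by
      rw [eq_sub_iff_add_eq]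
      conv_rhs => rw [f.as_sum]
      simp only [C_mul_monomial, mul_one]
      by_cases h : 0 ∈ f.support
      · rw [← add_sum_erase _ _ h]; rfl
      · rw [erase_eq_of_notMem h, notMem_support_iff.1 h, map_zero, zero_add]
    rw [this]
    refine nonpos_iff_eq_zero.1 (V.map_sub_le hf.le (V.map_sum_le fun β hβ => ?_))
    have h1 : F β = 0 := big β (by
      rw [hn]
      refine Nat.pos_of_ne_zero fun h => (mem_erase.1 hβ).1 ?_
      exact (Finsupp.degree_eq_zero_iff β).1 h)
    simp only [F, coeff_map, hker] at h1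
    simp [h1]
  obtain ⟨i0, hi0⟩ := Finsupp.ne_iff.1 hβ
  have hi0' : 1 ≤ β0 i0 := Nat.one_le_iff_ne_zero.2 hi0
  let β := β0 - Finsupp.single i0 1
  have eβ : β + Finsupp.single i0 1 = β0 :=
    tsub_add_cancel_of_le (Finsupp.single_le_iff.2 hi0')
  have dβ : ∀ i, deg (β + Finsupp.single i 1) = n0 := fun i => by
    rw [degs, ← degs β i0, eβ, hd0]
  obtain ⟨m, hm, halg⟩ := exists_monomial _ hy a
    (fun i => F (β + Finsupp.single i 1) / F β0 * (β i + 1)) (-(F β / F β0)) a0
    (fun i => (alg _ (dβ i)).mul (by exact_mod_cast isAlgebraic_natCast (β i + 1)))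
    (Function.ne_iff.2 ⟨i0, by
      rw [eβ, div_self e0, one_mul]
      exact Nat.cast_add_one_ne_zero _⟩)
    (fun d => by
      have := key d β
      rw [map_neg, Derivation.leibniz_div]
      simp only [smul_eq_mul]
      have e : ∑ i, F (β + Finsupp.single i 1) / F β0 * (β i + 1) * (d (a i) / a i) =
          (∑ i, d (a i) / a i * (F (β + Finsupp.single i 1) * (β i + 1))) / F β0 := by
        rw [sum_div]
        exact sum_congr rfl fun i _ => by ring
      rw [e]
      generalize ∑ i, d (a i) / a i * (F (β + Finsupp.single i 1) * (β i + 1)) = s at this ⊢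
      field_simp
      linear_combination this)
  refine ⟨m, hm, ?_⟩
  have _ : U.IsTrivialOn ℚ := ⟨fun q hq => by
    rw [eq_ratCast, ← πC, hU]
    exact H.hQ q hq⟩
  by_contra h
  exact Valuation.transcendental_of_ne_one (v := U) ℚ _ (sub_ne_zero.2 h) (near_one U a a1 m).ne
    (halg.sub isAlgebraic_one)

theorem Hyp.ko [Fintype ι] [Fintype κ] (H : Hyp V θ Cst) (f0 : SS ι κ) (hf0 : V f0 = 0)
    (hne : ∃ β, V (C (coeff β f0)) ≠ 0) : ∃ m : ι → ℤ, m ≠ 0 ∧
      V (C (∏ i, (1 + X (inl i)) ^ (m i).toNat - ∏ i, (1 + X (inl i)) ^ (-m i).toNat)) = 0 := by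
  let V0 : Valuation (R0 ι κ) ℝ≥0 := V.comap C
  let A := R0 ι κ ⧸ V0.supp
  let k := FractionRing A
  let π : R0 ι κ →+* k := (algebraMap A k).comp (Ideal.Quotient.mk _)
  have hS : nonZeroDivisors A ≤ (V0.onQuot le_rfl).supp.primeCompl := by
    intro x hx h
    rw [Valuation.supp_quot_supp] at h
    exact nonZeroDivisors.ne_zero hx h
  let U := (V0.onQuot le_rfl).extendToLocalization hS k
  have hU : ∀ r, U (π r) = V (C r) := fun r =>
    Valuation.extendToLocalization_apply_map_apply _ hS k _
  have _ : CharZero k := algebraRat.charZero k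
  have hker : ∀ r, π r = 0 ↔ V (C r) = 0 := fun r => by rw [← hU, U.zero_iff]
  obtain ⟨m, hm, h⟩ := H.ko_field π U hU (fun x => by
    obtain ⟨a, b, hb, rfl⟩ := IsFractionRing.div_surjective (A := A) x
    obtain ⟨a, rfl⟩ := Ideal.Quotient.mk_surjective a
    obtain ⟨b, rfl⟩ := Ideal.Quotient.mk_surjective b
    exact ⟨a, b, IsFractionRing.to_map_ne_zero_of_mem_nonZeroDivisors (R := A) hb, rfl⟩) f0 hf0 (by
    obtain ⟨β, hβ⟩ := hne
    intro h
    apply hβ
    rw [← hker, ← coeff_map, h, coeff_zero])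
  refine ⟨m, hm, ?_⟩
  have a0 : ∀ i, π (1 + X (inl i)) ≠ 0 := fun i => by
    rw [Ne, hker, map_add, map_one, V.map_one_add_of_lt ((H.hZ i).trans_lt H.lt)]
    exact one_ne_zero
  rw [← hker, map_sub, map_prod, map_prod, sub_eq_zero, ← div_eq_one_iff_eq, ← prod_div_distrib,
    ← h]
  · refine prod_congr rfl fun i _ => ?_
    rw [map_pow, map_pow, ← zpow_natCast, ← zpow_natCast, ← zpow_sub₀ (a0 i), Int.toNat_sub_toNat_neg]
  · exact prod_ne_zero_iff.2 fun i _ => by rw [map_pow]; exact pow_ne_zero _ (a0 i)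

end Pool.Agent.Lib.MP_1f047c_nt
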