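import Pool.Agent.Lib.MP_1f047c_nt.PLBin

open Polynomial Finset

namespace Pool.Agent.Lib.MP_1f047c_nt.PL

lemma plbin2_zero (k : ℕ) : (descPochhammer ℤ (k + 1)).coeff 0 = 0 := by
  rw [descPochhammer_succ_left, coeff_X_mul_zero]

lemma plbin2_succ (k s : ℕ) : (descPochhammer ℤ (k + 1)).coeff (s + 1) =
    (descPochhammer ℤ k).coeff s - k * (descPochhammer ℤ k).coeff (s + 1) := by
  rw [descPochhammer_succ_right, mul_sub, coeff_sub, coeff_mul_X, coeff_mul_natCast, mul_comm]

lemma plbin2_abs (k s : ℕ) : |(descPochhammer ℤ k).coeff s| ≤ k.factorial := by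
  induction k generalizing s with
  | zero =>
    rw [descPochhammer_zero, coeff_one]
    split_ifs <;> simp
  | succ k ih =>
    rcases s with _ | s
    · rw [plbin2_zero, abs_zero]
      positivity
    · rw [plbin2_succ, Nat.factorial_succ]
      refine (abs_sub _ _).trans ?_
      rw [abs_mul, Nat.abs_cast]
      have h1 := ih s
      have h2 := mul_le_mul_of_nonneg_left (ih (s + 1)) (Nat.cast_nonneg (α := ℤ) k)
      push_cast
      linarith

lemma plbin2_dvd_lcm {ν k : ℕ} (hk : k + 1 ≤ ν) : ((k : ℤ) + 1) ∣ (Nat.lcmUpto ν : ℤ) := by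
  have : k + 1 ∣ Nat.lcmUpto ν := Finset.dvd_lcm (f := id) (mem_Icc.2 ⟨by omega, hk⟩)
  exact_mod_cast this

lemma plbin2_dvd_aux (ν k s : ℕ) (hk : k ≤ ν) :
    (k.factorial : ℤ) ∣ (Nat.lcmUpto ν : ℤ) ^ s * (descPochhammer ℤ (k + 1)).coeff (s + 1) := by
  induction k generalizing s with
  | zero => simp
  | succ k ih =>
    rw [plbin2_succ, mul_sub, Nat.factorial_succ]
    push_cast
    refine dvd_sub ?_ ?_
    · rcases s with _ | s
      · rw [plbin2_zero, mul_zero]
        exact dvd_zero _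
      · rw [pow_succ', mul_assoc]
        exact mul_dvd_mul (plbin2_dvd_lcm hk) (ih s (by omega))
    · rw [mul_left_comm]
      exact mul_dvd_mul_left _ (ih s (by omega))

lemma plbin2_dvd (ν E k s : ℕ) (hk : k ≤ ν) (hs : s ≤ E) :
    (k.factorial : ℤ) ∣ (Nat.lcmUpto ν : ℤ) ^ E * (descPochhammer ℤ k).coeff s := by
  obtain ⟨e, rfl⟩ := Nat.exists_eq_add_of_le' hs
  rw [pow_add, mul_assoc]
  refine Dvd.dvd.mul_left ?_ _
  rcases k with _ | k
  · simp
  · rcases s with _ | s
    · rw [plbin2_zero, mul_zero]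
      exact dvd_zero _
    · rw [pow_succ', mul_assoc, Nat.factorial_succ]
      push_cast
      exact mul_dvd_mul (plbin2_dvd_lcm hk) (plbin2_dvd_aux ν k s (by omega))

/-- Pascal recursion from initial values. -/
def plbin2_pas (w : ℕ → ℤ) : ℕ → ℕ → ℤ
  | 0, k => w k
  | a + 1, 0 => plbin2_pas w a 0
  | a + 1, k + 1 => plbin2_pas w a (k + 1) + plbin2_pas w a k

lemma plbin2_pas_abs (w : ℕ → ℤ) (ν : ℕ) (M : ℝ) (hM : 0 ≤ M) (hw : ∀ k ≤ ν, |(w k : ℝ)| ≤ M)
    (a : ℕ) : ∀ k ≤ ν, |(plbin2_pas w a k : ℝ)| ≤ M * 2 ^ a := by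
  induction a with
  | zero => simpa [plbin2_pas] using hw
  | succ a ih =>
    have h0 : 0 ≤ M * 2 ^ a := by positivity
    rintro (_ | k) hk
    · rw [plbin2_pas, pow_succ]
      linarith [ih 0 hk]
    · rw [plbin2_pas, pow_succ, Int.cast_add]
      linarith [ih (k + 1) hk, ih k (by omega),
        abs_add_le (plbin2_pas w a (k + 1) : ℝ) (plbin2_pas w a k)]

lemma plbin2_row_zero {R : Type} [CommRing R] (D : R[X]) (a s : ℕ) :
    row 0 D a s = ((derivative ^ s : Module.End R R[X]) D).eval (a : R) := by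
  rw [row, op, zero_smul, zero_add]

lemma plbin2_lcm_le (ν : ℕ) : (Nat.lcmUpto ν : ℝ) ≤ Real.exp (6 * ν) := by
  have h1 := Chebyshev.psi_le_const_mul_self (x := (ν : ℝ)) (Nat.cast_nonneg ν)
  rw [Chebyshev.psi_eq_log_lcmUpto] at h1
  have h2 : Real.log 4 ≤ 2 := by
    rw [show (4 : ℝ) = 2 ^ 2 by norm_num, Real.log_pow]
    have := Real.log_two_lt_d9
    push_cast
    linarith
  have h3 : (0 : ℝ) < Nat.lcmUpto ν := by exact_mod_cast Nat.lcmUpto_pos ν
  rw [← Real.exp_log h3]
  refine Real.exp_le_exp.2 (h1.trans ?_)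
  exact mul_le_mul_of_nonneg_right (by linarith) (Nat.cast_nonneg ν)

/-- Integrality and size of the derivatives of the binomial polynomials. -/
theorem bp_int (ν E : ℕ) : ∃ z : ℕ → ℕ → ℕ → ℤ,
    (∀ k ≤ ν, ∀ s ≤ E, ∀ a, |(z k s a : ℝ)| ≤ E.factorial * Real.exp ((6 * E + 1) * ν + a)) ∧
    ∀ (K : Type) [Field K] [CharZero K], ∀ k ≤ ν, ∀ s ≤ E, ∀ a : ℕ,
      ((derivative ^ s : Module.End K K[X]) (bp K ν E k)).eval (a : K) = z k s a := by
  have hq : ∀ k s : ℕ, ∃ q : ℤ, k ≤ ν → s ≤ E →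
      (Nat.lcmUpto ν : ℤ) ^ E * (descPochhammer ℤ k).coeff s = k.factorial * q := by
    intro k s
    by_cases h : k ≤ ν ∧ s ≤ E
    · obtain ⟨q, hq⟩ := plbin2_dvd ν E k s h.1 h.2
      exact ⟨q, fun _ _ => hq⟩
    · exact ⟨0, fun h1 h2 => absurd ⟨h1, h2⟩ h⟩
  choose q hq using hq
  refine ⟨fun k s a => plbin2_pas (fun k => s.factorial * q k s) a k, ?_, ?_⟩
  · intro k hk s hs a
    have hw : ∀ k ≤ ν, |(((s.factorial : ℤ) * q k s : ℤ) : ℝ)| ≤
        E.factorial * Real.exp (6 * ν) ^ E := by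
      intro k hk
      have h1 : |q k s| ≤ (Nat.lcmUpto ν : ℤ) ^ E := by
        have hp : (0 : ℤ) < k.factorial := by exact_mod_cast k.factorial_pos
        refine le_of_mul_le_mul_left ?_ hp
        have h2 : (k.factorial : ℤ) * |q k s| =
            (Nat.lcmUpto ν : ℤ) ^ E * |(descPochhammer ℤ k).coeff s| := by
          have := congrArg abs (hq k s hk hs)
          rw [abs_mul, abs_mul, abs_pow, Nat.abs_cast, Nat.abs_cast] at this
          exact this.symm
        rw [h2, mul_comm]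
        exact mul_le_mul_of_nonneg_right (plbin2_abs k s) (by positivity)
      have h2 : |(q k s : ℝ)| ≤ (Nat.lcmUpto ν : ℝ) ^ E := by exact_mod_cast h1
      have h3 : (s.factorial : ℝ) ≤ E.factorial := by exact_mod_cast Nat.factorial_le hs
      rw [Int.cast_mul, Int.cast_natCast, abs_mul, Nat.abs_cast]
      exact mul_le_mul h3 (h2.trans (pow_le_pow_left₀ (Nat.cast_nonneg _) (plbin2_lcm_le ν) E))
        (abs_nonneg _) (Nat.cast_nonneg _)
    refine (plbin2_pas_abs _ ν _ (by positivity) hw a k hk).trans ?_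
    rw [mul_assoc]
    refine mul_le_mul_of_nonneg_left ?_ (Nat.cast_nonneg _)
    have h2 : (2 : ℝ) ^ a ≤ Real.exp a := by
      rw [← mul_one (a : ℝ), Real.exp_nat_mul]
      exact pow_le_pow_left₀ (by norm_num) (by linarith [Real.add_one_le_exp 1]) a
    rw [Real.exp_add, ← Real.exp_nat_mul]
    refine mul_le_mul (Real.exp_le_exp.2 ?_) h2 (by positivity) (by positivity)
    have := Nat.cast_nonneg (α := ℝ) ν
    linarith
  · intro K _ _ k hk s hs a
    rw [← plbin2_row_zero]
    induction a generalizing k with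
    | zero =>
      have h1 : (k.factorial : K) ≠ 0 := Nat.cast_ne_zero.2 k.factorial_ne_zero
      have h2 := congrArg (Int.cast (R := K)) (hq k s hk hs)
      rw [plbin2_row_zero, Nat.cast_zero, ← coeff_zero_eq_eval_zero, Module.End.pow_apply,
        coeff_iterate_derivative, zero_add, Nat.descFactorial_self, bp, coeff_C_mul,
        ← descPochhammer_map (Int.castRingHom K), coeff_map, nsmul_eq_mul, eq_intCast]
      simp only [plbin2_pas]
      push_cast at h2 ⊢
      rw [div_mul_eq_mul_div, h2, mul_div_cancel_left₀ _ h1]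
    | succ a ih =>
      rcases k with _ | k
      · rw [← row_shift, bp_zero, C_comp, ← bp_zero, ih 0 hk]
        simp only [plbin2_pas]
      · rw [← row_shift, bp_shift, row_add, ih (k + 1) hk, ih k (by omega)]
        simp only [plbin2_pas, Int.cast_add]

/-- Local bounds for the rows. -/
theorem row_bound (K : Type) [Field K] [CharZero K] (v : AbsoluteValue K ℝ) (ν E : ℕ) (c : K)
    (k a i : ℕ) (hk : k ≤ ν) (hi : i ≤ E) :
    v (row c (bp K ν E k) a i) ≤
        2 ^ E * E.factorial * Real.exp ((6 * E + 1) * ν + a) * max (v (c ^ E)) 1 ∧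
      (IsNonarchimedean v → v (row c (bp K ν E k) a i) ≤ max (v (c ^ E)) 1) := by
  obtain ⟨z, hz1, hz2⟩ := bp_int ν E
  have hc : ∀ j ≤ E, v (c ^ j) ≤ max (v (c ^ E)) 1 := by
    intro j hj
    rw [map_pow, map_pow]
    rcases le_total (v c) 1 with h | h
    · exact (pow_le_one₀ (v.nonneg c) h).trans (le_max_right _ _)
    · exact (pow_le_pow_right₀ h hj).trans (le_max_left _ _)
  have hrow : row c (bp K ν E k) a i =
      ∑ s ∈ range (i + 1), (i.choose s : K) * c ^ (i - s) * (z k s a : K) := by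
    rw [row_eq]
    refine sum_congr rfl fun s hs => ?_
    rw [hz2 K k hk s (by have := mem_range.1 hs; omega)]
  have hm : 0 ≤ max (v (c ^ E)) 1 := zero_le_one.trans (le_max_right _ _)
  rw [hrow]
  constructor
  · set B := (E.factorial : ℝ) * Real.exp ((6 * E + 1) * ν + a) with hB
    have hB0 : 0 ≤ B := by positivity
    refine (v.sum_le _ _).trans ?_
    have h1 : ∀ s ∈ range (i + 1), v ((i.choose s : K) * c ^ (i - s) * (z k s a : K)) ≤
        (i.choose s : ℝ) * (B * max (v (c ^ E)) 1) := by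
      intro s hs
      have hs' : s ≤ E := by have := mem_range.1 hs; omega
      have h2 : v (z k s a : K) ≤ B := by
        rw [← v.apply_natAbs_eq]
        refine (v.apply_nat_le_self _).trans (le_trans (le_of_eq ?_) (hz1 k hk s hs' a))
        rw [Nat.cast_natAbs, Int.cast_abs]
      rw [map_mul, map_mul, mul_assoc, mul_comm B]
      exact mul_le_mul (v.apply_nat_le_self _)
        (mul_le_mul (hc _ (by omega)) h2 (v.nonneg _) hm) (by positivity) (Nat.cast_nonneg _)
    refine (sum_le_sum h1).trans ?_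
    rw [← sum_mul, ← Nat.cast_sum, Nat.sum_range_choose, mul_assoc ((2 : ℝ) ^ E), ← hB,
      mul_assoc ((2 : ℝ) ^ E)]
    refine mul_le_mul_of_nonneg_right ?_ (mul_nonneg hB0 hm)
    exact_mod_cast Nat.pow_le_pow_right (by norm_num) hi
  · intro hna
    obtain ⟨s, -, hs⟩ := hna.finset_image_add_of_nonempty
      (fun s => (i.choose s : K) * c ^ (i - s) * (z k s a : K)) (t := range (i + 1))
      nonempty_range_add_one
    refine hs.trans ?_
    rw [map_mul, map_mul]
    refine (mul_le_of_le_one_right (by positivity) hna.apply_intCast_le_one).trans ?_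
    exact (mul_le_of_le_one_left (v.nonneg _) hna.apply_natCast_le_one).trans (hc _ (by omega))

end Pool.Agent.Lib.MP_1f047c_nt.PL
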