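import Pool.Agent.Lib.MP_1f047c_nt.PLDefs
import Pool.Agent.Lib.MP_1f047c_nt.Liouv

open Polynomial Finset

namespace Pool.Agent.Lib.MP_1f047c_nt.PL

private lemma pldet_term {F ι : Type} [Field F] [Fintype ι] [DecidableEq ι]
    (v : AbsoluteValue F ℝ) (M : Matrix ι ι F) (r : ι → ℝ) (h : ∀ i j, v (M i j) ≤ r i)
    (σ : Equiv.Perm ι) : v (Equiv.Perm.sign σ • ∏ i, M (σ i) i) ≤ ∏ i, r i := by
  rw [v.map_units_int_smul, v.map_prod, ← Equiv.prod_comp σ r]
  exact prod_le_prod (fun _ _ => v.nonneg _) fun i _ => h _ _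

private lemma pldet_arch {F ι : Type} [Field F] [Fintype ι] [DecidableEq ι]
    (v : AbsoluteValue F ℝ) (M : Matrix ι ι F) (r : ι → ℝ) (h : ∀ i j, v (M i j) ≤ r i) :
    v M.det ≤ (Fintype.card ι).factorial * ∏ i, r i := by
  rw [Matrix.det_apply]
  refine (v.sum_le _ _).trans ((sum_le_card_nsmul _ _ _ fun σ _ => pldet_term v M r h σ).trans ?_)
  rw [card_univ, Fintype.card_perm, nsmul_eq_mul]

private lemma pldet_nonarch {F ι : Type} [Field F] [Fintype ι] [DecidableEq ι]
    (v : AbsoluteValue F ℝ) (hv : IsNonarchimedean v) (M : Matrix ι ι F) (r : ι → ℝ)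
    (h : ∀ i j, v (M i j) ≤ r i) : v M.det ≤ ∏ i, r i := by
  rw [Matrix.det_apply]
  exact (hv.apply_sum_le_sup univ_nonempty).trans
    (sup'_le _ _ fun σ _ => pldet_term v M r h σ)

private lemma pldet_minor {F ι J : Type} [Field F] [Fintype ι] [DecidableEq ι] [Fintype J]
    (M : Matrix ι J F) (h : LinearIndependent F M.row) :
    ∃ c : ι → J, (M.submatrix id c).det ≠ 0 := by
  obtain ⟨κ, a, ha, hsp, hli⟩ := exists_linearIndependent' F M.col
  have : Finite κ := Finite.of_injective a ha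
  have : Fintype κ := Fintype.ofFinite κ
  have h1 : Fintype.card κ = Fintype.card ι := by
    rw [linearIndependent_iff_card_eq_finrank_span.1 hli, Set.finrank, hsp,
      ← Matrix.rank_eq_finrank_span_cols, h.rank_matrix]
  let e : ι ≃ κ := (Fintype.equivOfCardEq h1).symm
  refine ⟨a ∘ e, ?_⟩
  have h2 : LinearIndependent F (M.submatrix id (a ∘ e)).col := hli.comp e e.injective
  exact ((Matrix.isUnit_iff_isUnit_det _).1
    (Matrix.linearIndependent_cols_iff_isUnit.1 h2)).ne_zero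

/-- A non-zero minor, its height and its size. -/
theorem detlemma {𝕜 K ιA ιB J σA σB : Type} [NormedField 𝕜] (G : Good 𝕜) [Field K] [NumberField K]
    (φ : K →+* 𝕜) [Fintype ιA] [Fintype ιB] [Fintype J] [Fintype σA] [Fintype σB]
    (A : ιA → J → K) (B : ιB → J → K) (T : ιB → J → 𝕜) (yA : σA → K) (yB : σB → K) (Z τ : ℝ)
    (hZ : 1 ≤ Z) (hτ : 0 ≤ τ)
    (hind : ∀ γ : ιB → K, ∑ b, γ b • B b ∈ Submodule.span K (Set.range A) → γ = 0)
    (hT : ∀ b, (fun j => φ (B b j) - T b j) ∈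
      Submodule.span 𝕜 (Set.range fun a => fun j => φ (A a j)))
    (hτ' : ∀ b j, ‖T b j‖ ≤ τ)
    (hA : ∀ (v : AbsoluteValue K ℝ) a j, v (A a j) ≤ Z * ∏ s, max (v (yA s)) 1 ∧
      (IsNonarchimedean v → v (A a j) ≤ ∏ s, max (v (yA s)) 1))
    (hB : ∀ (v : AbsoluteValue K ℝ) b j, v (B b j) ≤ Z * ∏ s, max (v (yB s)) 1 ∧
      (IsNonarchimedean v → v (B b j) ≤ ∏ s, max (v (yB s)) 1)) :
    1 ≤ (2 * Z * (Fintype.card ιA + Fintype.card ιB + 1 : ℕ)) ^
          ((Fintype.card ιA + Fintype.card ιB) * (Module.finrank ℚ K + 1)) *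
        (∏ s, Height.mulHeight₁ (yA s)) ^ (2 * Fintype.card ιA) *
        ((∏ s, Height.mulHeight₁ (yB s)) * τ) ^ Fintype.card ιB := by
  classical
  obtain ⟨κ, a, ha, hsp, hli⟩ := exists_linearIndependent' K A
  have : Finite κ := Finite.of_injective a ha
  have : Fintype κ := Fintype.ofFinite κ
  have hκ : Fintype.card κ ≤ Fintype.card ιA := Fintype.card_le_of_injective a ha
  let M : Matrix (κ ⊕ ιB) J K := Matrix.of (Sum.elim (A ∘ a) B)
  have hM : LinearIndependent K M.row := by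
    rw [Fintype.linearIndependent_iff]
    intro g hg
    rw [Fintype.sum_sum_type] at hg
    have hg' : ∑ k, g (Sum.inl k) • (A ∘ a) k + ∑ b, g (Sum.inr b) • B b = 0 := hg
    have h1 : (fun b => g (Sum.inr b)) = 0 := by
      apply hind
      rw [← hsp, eq_neg_of_add_eq_zero_right hg']
      exact Submodule.neg_mem _ (Submodule.sum_mem _ fun k _ =>
        Submodule.smul_mem _ _ (Submodule.subset_span ⟨k, rfl⟩))
    have h1' : ∀ b, g (Sum.inr b) = 0 := fun b => congrFun h1 b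
    simp only [h1', zero_smul, sum_const_zero, add_zero] at hg'
    have h2 := Fintype.linearIndependent_iff.1 hli _ hg'
    rintro (k | b)
    · exact h2 k
    · exact h1' b
  obtain ⟨c, hc⟩ := pldet_minor M hM
  set Δ := (M.submatrix id c).det with hΔ
  set ρ := Fintype.card κ with hρ
  set b := Fintype.card ιB with hb
  set d := Module.finrank ℚ K with hd
  set HA := ∏ s, Height.mulHeight₁ (yA s) with hHA
  set HB := ∏ s, Height.mulHeight₁ (yB s) with hHB
  set W : ℝ := (2 * Z * (Fintype.card ιA + b + 1 : ℕ)) with hW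
  have hHA1 : 1 ≤ HA := Finset.one_le_prod fun _ _ => Height.one_le_mulHeight₁ _
  have hHB1 : 1 ≤ HB := Finset.one_le_prod fun _ _ => Height.one_le_mulHeight₁ _
  have hcard : Fintype.card (κ ⊕ ιB) = ρ + b := Fintype.card_sum
  have hZ0 : 0 ≤ Z := zero_le_one.trans hZ
  have hW1 : 1 ≤ W := by
    rw [hW]
    have : (1 : ℝ) ≤ (Fintype.card ιA + b + 1 : ℕ) := by exact_mod_cast Nat.le_add_left 1 _
    nlinarith
  let n : ℕ := (ρ + b).factorial * ⌈Z⌉₊ ^ (ρ + b)
  have hn1 : ((ρ + b).factorial : ℝ) * Z ^ (ρ + b) ≤ n := by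
    simp only [n, Nat.cast_mul, Nat.cast_pow]
    gcongr
    exact Nat.le_ceil Z
  have hn0 : (1 : ℝ) ≤ ((ρ + b).factorial : ℝ) * Z ^ (ρ + b) :=
    one_le_mul_of_one_le_of_one_le (by exact_mod_cast (ρ + b).factorial_pos) (one_le_pow₀ hZ)
  have hn2 : (n : ℝ) ≤ W ^ (Fintype.card ιA + b) := by
    refine le_trans ?_ (pow_le_pow_right₀ hW1 (Nat.add_le_add_right hκ b))
    simp only [n, Nat.cast_mul, Nat.cast_pow]
    rw [hW, mul_pow, mul_comm]
    have h1 : (⌈Z⌉₊ : ℝ) ≤ 2 * Z := by linarith [Nat.ceil_lt_add_one hZ0]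
    have h2 : ((ρ + b).factorial : ℝ) ≤ ((Fintype.card ιA + b + 1 : ℕ) : ℝ) ^ (ρ + b) := by
      exact_mod_cast (Nat.factorial_le_pow _).trans (Nat.pow_le_pow_left (by omega) _)
    gcongr
  -- the height of the minor
  have hH : Height.mulHeight₁ Δ ≤ (W ^ (Fintype.card ιA + b)) ^ d * (HA ^ ρ * HB ^ b) := by
    let x : (κ × σA) ⊕ (ιB × σB) → K := Sum.elim (fun p => yA p.2) fun p => yB p.2
    have hx : ∀ f : K → ℝ, ∏ t, f (x t) = (∏ s, f (yA s)) ^ ρ * (∏ s, f (yB s)) ^ b := by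
      intro f
      rw [Fintype.prod_sum_type, Fintype.prod_prod_type, Fintype.prod_prod_type]
      simp only [x, Sum.elim_inl, Sum.elim_inr, prod_const, card_univ, hρ, hb]
    have one : ∀ v : AbsoluteValue K ℝ, 1 ≤ ∏ t, max (v (x t)) 1 :=
      fun v => Finset.one_le_prod fun _ _ => le_max_right _ _
    have h := mulHeight₁_le_of_local univ x Δ n (fun v => by
      have h0 := one v
      refine max_le ?_ (one_le_mul_of_one_le_of_one_le (hn0.trans hn1) h0)
      have h1 := pldet_arch v (M.submatrix id c)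
        (Sum.elim (fun _ => Z * ∏ s, max (v (yA s)) 1) fun _ => Z * ∏ s, max (v (yB s)) 1)
        (by
          rintro (k | b) j
          · exact (hA v _ _).1
          · exact (hB v _ _).1)
      refine h1.trans (le_trans (le_of_eq ?_) (mul_le_mul_of_nonneg_right hn1 (by positivity)))
      rw [hx fun y => max (v y) 1, hcard, Fintype.prod_sum_type]
      simp only [Sum.elim_inl, Sum.elim_inr, prod_const, card_univ, ← hρ, ← hb]
      ring) (fun v hv => by
      refine max_le ?_ (one v)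
      have h1 := pldet_nonarch v hv (M.submatrix id c)
        (Sum.elim (fun _ => ∏ s, max (v (yA s)) 1) fun _ => ∏ s, max (v (yB s)) 1)
        (by
          rintro (k | b) j
          · exact (hA v _ _).2 hv
          · exact (hB v _ _).2 hv)
      refine h1.trans (le_of_eq ?_)
      rw [hx fun y => max (v y) 1, Fintype.prod_sum_type]
      simp only [Sum.elim_inl, Sum.elim_inr, prod_const, card_univ, ← hρ, ← hb])
    rw [hx Height.mulHeight₁, NumberField.totalWeight_eq_finrank] at h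
    refine h.trans ?_
    gcongr
  -- the size of the minor
  have hspan : ∀ i, (fun j => φ (A i j)) ∈
      Submodule.span 𝕜 (Set.range fun k => fun j => φ (A (a k) j)) := by
    intro i
    have h1 : A i ∈ Submodule.span K (Set.range (A ∘ a)) := by
      rw [hsp]
      exact Submodule.subset_span ⟨i, rfl⟩
    obtain ⟨g, hg⟩ := (Submodule.mem_span_range_iff_exists_fun K).1 h1
    refine (Submodule.mem_span_range_iff_exists_fun 𝕜).2 ⟨fun k => φ (g k), ?_⟩
    funext j
    rw [← hg]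
    simp [Finset.sum_apply, map_sum]
  have hT' : ∀ i, ∃ g : κ → 𝕜, ∑ k, g k • (fun j => φ (A (a k) j)) =
      fun j => φ (B i j) - T i j := by
    intro i
    refine (Submodule.mem_span_range_iff_exists_fun 𝕜).1 ?_
    refine (Submodule.span_le.2 ?_) (hT i)
    rintro _ ⟨i, rfl⟩
    exact hspan i
  choose g hg using hT'
  let M' : Matrix (κ ⊕ ιB) (κ ⊕ ιB) 𝕜 :=
    Matrix.of (Sum.elim (fun k j => φ (A (a k) (c j))) fun i j => T i (c j))
  have hdet : φ Δ = M'.det := by
    have h1 : φ.mapMatrix (M.submatrix id c) =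
        Matrix.fromBlocks 1 0 (Matrix.of g) 1 * M' := by
      ext i j
      rw [Matrix.mul_apply, Fintype.sum_sum_type]
      rcases i with k | i
      · simp [M, M', Matrix.one_apply]
      · have := congrFun (hg i) (c j)
        simp only [Finset.sum_apply, Pi.smul_apply, smul_eq_mul] at this
        simp [M, M', Matrix.one_apply, this]
    rw [hΔ, RingHom.map_det, h1, Matrix.det_mul, Matrix.det_fromBlocks_zero₁₂]
    simp
  have hS : ‖φ Δ‖ ≤ W ^ (Fintype.card ιA + b) * (HA ^ ρ * τ ^ b) := by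
    let w : AbsoluteValue 𝕜 ℝ := IsAbsoluteValue.toAbsoluteValue (norm : 𝕜 → ℝ)
    have h1 := pldet_arch w M' (Sum.elim (fun _ => Z * HA) fun _ => τ) (by
      rintro (k | i) j
      · refine (hA (w.comp φ.injective) (a k) (c j)).1.trans ?_
        refine mul_le_mul_of_nonneg_left (prod_le_prod (fun _ _ => by positivity) fun s _ => ?_) hZ0
        exact max_le (G.liou K φ _) (Height.one_le_mulHeight₁ _)
      · exact hτ' _ _)
    rw [hdet]
    refine le_trans h1 ?_
    rw [hcard, Fintype.prod_sum_type]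
    simp only [Sum.elim_inl, Sum.elim_inr, prod_const, card_univ, ← hρ, ← hb]
    have h2 : ((ρ + b).factorial : ℝ) * Z ^ ρ ≤ W ^ (Fintype.card ιA + b) := by
      refine le_trans ?_ (hn1.trans hn2)
      gcongr
      omega
    calc ((ρ + b).factorial : ℝ) * ((Z * HA) ^ ρ * τ ^ b)
        = (((ρ + b).factorial : ℝ) * Z ^ ρ) * (HA ^ ρ * τ ^ b) := by ring
      _ ≤ _ := by gcongr
  have hL : 1 ≤ Height.mulHeight₁ Δ * ‖φ Δ‖ := by
    have h1 := G.liou K φ Δ⁻¹
    have h2 : 0 < ‖φ Δ‖ := norm_pos_iff.2 ((map_ne_zero φ).2 hc)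
    rw [Height.mulHeight₁_inv, map_inv₀, norm_inv] at h1
    exact (inv_le_iff_one_le_mul₀ h2).1 h1
  have hW0 : 0 ≤ W := zero_le_one.trans hW1
  have hHA0 : 0 ≤ HA := zero_le_one.trans hHA1
  have hHB0 : 0 ≤ HB := zero_le_one.trans hHB1
  calc (1 : ℝ) ≤ Height.mulHeight₁ Δ * ‖φ Δ‖ := hL
    _ ≤ ((W ^ (Fintype.card ιA + b)) ^ d * (HA ^ ρ * HB ^ b)) *
        (W ^ (Fintype.card ιA + b) * (HA ^ ρ * τ ^ b)) := by gcongr
    _ = W ^ ((Fintype.card ιA + b) * (d + 1)) * HA ^ (2 * ρ) * (HB * τ) ^ b := by ring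
    _ ≤ _ := by gcongr

end Pool.Agent.Lib.MP_1f047c_nt.PL
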