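import Pool.Agent.Lib.MP_1f047c_nt.PLBin

open Polynomial Finset

namespace Pool.Agent.Lib.MP_1f047c_nt.PL

lemma texp_degree {𝕜 : Type} [Field 𝕜] (l : 𝕜) (τ : ℕ) : (texp l τ).degree < τ := by
  rw [← mem_degreeLT]
  unfold texp
  refine Submodule.sum_mem _ fun s hs => ?_
  rw [mem_degreeLT]
  exact (degree_C_mul_X_pow_le s _).trans_lt (by exact_mod_cast mem_range.1 hs)

private lemma pltail_op {R : Type} [CommRing R] (c : R) (D : R[X]) :
    op c D = C c * D + derivative D := by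
  simp [op, smul_eq_C_mul]

private lemma pltail_succ {R : Type} [CommRing R] (c : R) (D : R[X]) (a i : ℕ) :
    row c D a (i + 1) = row c (op c D) a i := by
  simp only [row, pow_succ, Module.End.mul_apply]

private lemma pltail_zero {R : Type} [CommRing R] (c : R) (D : R[X]) (a : ℕ) :
    row c D a 0 = D.eval (a : R) := by
  simp [row]

private lemma pltail_mul {R : Type} [CommRing R] (l u : R) (P Q : R[X]) (a i : ℕ) :
    row (l + u) (P * Q) a (i + 1) =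
      row (l + u) (op u P * Q) a i + row (l + u) (P * op l Q) a i := by
  rw [pltail_succ, ← row_add]
  congr 1
  simp only [pltail_op, derivative_mul, map_add]
  ring

private lemma pltail_prod {𝕜 : Type} [NormedField 𝕜] (l u : 𝕜) (a : ℕ) (W η : ℝ) (i : ℕ) :
    ∀ P Q : 𝕜[X], (∀ k ≤ i, ‖row u P a k‖ ≤ W) → (∀ k ≤ i, ‖row l Q a k‖ ≤ η) →
      ‖row (l + u) (P * Q) a i‖ ≤ 2 ^ i * (W * η) := by
  induction i with
  | zero =>
    intro P Q hP hQ
    have h1 := hP 0 le_rfl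
    have h2 := hQ 0 le_rfl
    rw [pltail_zero] at h1 h2 ⊢
    rw [eval_mul, norm_mul, pow_zero, one_mul]
    exact mul_le_mul h1 h2 (norm_nonneg _) ((norm_nonneg _).trans h1)
  | succ i ih =>
    intro P Q hP hQ
    rw [pltail_mul]
    have h1 := ih (op u P) Q (fun k hk => by rw [← pltail_succ]; exact hP _ (by omega))
      (fun k hk => hQ _ (by omega))
    have h2 := ih P (op l Q) (fun k hk => hP _ (by omega))
      (fun k hk => by rw [← pltail_succ]; exact hQ _ (by omega))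
    refine (norm_add_le _ _).trans ?_
    rw [pow_succ]
    linarith

private lemma pltail_diff {𝕜 : Type} [NormedField 𝕜] (l u e : 𝕜) (a : ℕ) (W η : ℝ) (T : 𝕜[X])
    (h0 : ‖e - T.eval (a : 𝕜)‖ ≤ η) (hT : ∀ k, ‖row l (op l T) a k‖ ≤ η) (i : ℕ) :
    ∀ P : 𝕜[X], (∀ k ≤ i, ‖row u P a k‖ ≤ W) →
      ‖e * row u P a i - row (l + u) (P * T) a i‖ ≤ 2 ^ i * (W * η) := by
  induction i with
  | zero =>
    intro P hP
    have h1 := hP 0 le_rfl
    rw [pltail_zero] at h1 ⊢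
    rw [pltail_zero, eval_mul, pow_zero, one_mul,
      show e * eval (a : 𝕜) P - eval (a : 𝕜) P * eval (a : 𝕜) T =
        eval (a : 𝕜) P * (e - eval (a : 𝕜) T) by ring, norm_mul]
    exact mul_le_mul h1 h0 (norm_nonneg _) ((norm_nonneg _).trans h1)
  | succ i ih =>
    intro P hP
    rw [pltail_mul, pltail_succ, ← sub_sub]
    have h1 := ih (op u P) (fun k hk => by rw [← pltail_succ]; exact hP _ (by omega))
    have h2 := pltail_prod l u a W η i P (op l T) (fun k hk => hP _ (by omega)) (fun k _ => hT k)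
    refine (norm_sub_le _ _).trans ?_
    rw [pow_succ]
    linarith

private lemma pltail_der {𝕜 : Type} [Field 𝕜] [CharZero 𝕜] (c : 𝕜) (n : ℕ) :
    derivative (C (c / ((n + 1).factorial : 𝕜)) * X ^ (n + 1)) =
      C (c / (n.factorial : 𝕜)) * X ^ n := by
  rw [derivative_C_mul_X_pow]
  congr 2
  have h1 : (n.factorial : 𝕜) ≠ 0 := by exact_mod_cast n.factorial_ne_zero
  have h2 : ((n : 𝕜) + 1) ≠ 0 := by exact_mod_cast n.succ_ne_zero
  rw [Nat.factorial_succ]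
  push_cast
  field_simp

private lemma pltail_mono {𝕜 : Type} [NormedField 𝕜] [CharZero 𝕜]
    (hG : ∀ a s : ℕ, ‖(a : 𝕜) ^ s / (s.factorial : 𝕜)‖ ≤ 2 ^ s * 3 ^ a) (l c : 𝕜)
    (hl : ‖l‖ ≤ 1 / 4) (a m : ℕ) :
    ∀ n : ℕ, ‖row l (C (c / (n.factorial : 𝕜)) * X ^ n) a m‖ ≤ ‖c‖ * (2 ^ n * 3 ^ a) := by
  induction m with
  | zero =>
    intro n
    rw [pltail_zero, eval_mul, eval_C, eval_pow, eval_X,
      show c / (n.factorial : 𝕜) * (a : 𝕜) ^ n = c * ((a : 𝕜) ^ n / (n.factorial : 𝕜)) by ring,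
      norm_mul]
    exact mul_le_mul_of_nonneg_left (hG a n) (norm_nonneg _)
  | succ m ih =>
    intro n
    rw [pltail_succ, pltail_op, row_add, ← smul_eq_C_mul, row_smul]
    refine (norm_add_le _ _).trans ?_
    rw [norm_mul]
    have h1 : ‖l‖ * ‖row l (C (c / (n.factorial : 𝕜)) * X ^ n) a m‖ ≤
        1 / 4 * (‖c‖ * (2 ^ n * 3 ^ a)) :=
      mul_le_mul hl (ih n) (norm_nonneg _) (by norm_num)
    have h0 : 0 ≤ ‖c‖ * (2 ^ n * 3 ^ a) := by positivity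
    rcases n with _ | n
    · have h2 : derivative (C (c / ((0 : ℕ).factorial : 𝕜)) * X ^ 0) = 0 := by simp
      rw [h2]
      have h3 : row l (0 : 𝕜[X]) a m = 0 := by simp [row]
      rw [h3, norm_zero]
      linarith
    · rw [pltail_der]
      have h2 := ih n
      have h3 : ‖c‖ * (2 ^ (n + 1) * 3 ^ a) = 2 * (‖c‖ * (2 ^ n * 3 ^ a)) := by ring
      linarith

private lemma pltail_optexp {𝕜 : Type} [Field 𝕜] [CharZero 𝕜] (l : 𝕜) (n : ℕ) :
    op l (texp l (n + 1)) = C (-(-l) ^ (n + 1) / (n.factorial : 𝕜)) * X ^ n := by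
  induction n with
  | zero => simp [texp, pltail_op]
  | succ n ih =>
    have h : texp l (n + 1 + 1) =
        texp l (n + 1) + C ((-l) ^ (n + 1) / ((n + 1).factorial : 𝕜)) * X ^ (n + 1) := by
      simp only [texp]
      rw [sum_range_succ]
    rw [h, map_add, ih, pltail_op, pltail_der, ← mul_assoc, ← C_mul, neg_div, C_neg]
    have h2 : l * ((-l) ^ (n + 1) / ((n + 1).factorial : 𝕜)) =
        -(-l) ^ (n + 1 + 1) / ((n + 1).factorial : 𝕜) := by ring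
    rw [h2]
    ring

/-- Replacing the exponential by its truncation. -/
theorem tail1 {𝕜 : Type} [NormedField 𝕜] [CharZero 𝕜]
    (hG : ∀ a s : ℕ, ‖(a : 𝕜) ^ s / (s.factorial : 𝕜)‖ ≤ 2 ^ s * 3 ^ a) (l u e : 𝕜)
    (hl : ‖l‖ ≤ 1 / 4) (a E τ : ℕ) (hτ : 1 ≤ τ)
    (he : HasSum (fun s : ℕ => (-l * a) ^ s / (s.factorial : 𝕜)) e) (P : 𝕜[X]) (W : ℝ)
    (hW : ∀ i ≤ E, ‖row u P a i‖ ≤ W) (i : ℕ) (hi : i ≤ E) :
    ‖e‖ ≤ 2 * 3 ^ a ∧
      ‖e * row u P a i - row (l + u) (P * texp l τ) a i‖ ≤ 2 * 4 ^ E * W * 3 ^ a * (2 * ‖l‖) ^ τ := by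
  have hterm : ∀ s : ℕ, ‖(-l * a) ^ s / (s.factorial : 𝕜)‖ ≤ (2 * ‖l‖) ^ s * 3 ^ a := by
    intro s
    rw [mul_pow, mul_div_assoc, norm_mul, norm_pow, norm_neg, mul_pow, mul_comm (2 ^ s : ℝ),
      mul_assoc]
    exact mul_le_mul_of_nonneg_left (hG a s) (by positivity)
  have hhalf : ∀ s : ℕ, (2 * ‖l‖) ^ s ≤ (1 / 2 : ℝ) ^ s := fun s =>
    pow_le_pow_left₀ (by positivity) (by linarith) s
  have htail : ∀ t : ℕ, ‖e - ∑ s ∈ range t, (-l * a) ^ s / (s.factorial : 𝕜)‖ ≤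
      2 * ((2 * ‖l‖) ^ t * 3 ^ a) := by
    intro t
    have h1 := (hasSum_nat_add_iff' t).2 he
    have h2 := hasSum_geometric_two.mul_right ((2 * ‖l‖) ^ t * 3 ^ a)
    refine h1.norm_le_of_bounded h2 fun s => (hterm _).trans ?_
    rw [pow_add, mul_assoc]
    exact mul_le_mul_of_nonneg_right (hhalf s) (by positivity)
  refine ⟨by simpa using htail 0, ?_⟩
  obtain ⟨n, rfl⟩ : ∃ n, τ = n + 1 := ⟨τ - 1, by omega⟩
  have hW0 : 0 ≤ W := (norm_nonneg _).trans (hW 0 (Nat.zero_le _))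
  have h0 : ‖e - (texp l (n + 1)).eval (a : 𝕜)‖ ≤ 2 * ((2 * ‖l‖) ^ (n + 1) * 3 ^ a) := by
    have h1 : (texp l (n + 1)).eval (a : 𝕜) =
        ∑ s ∈ range (n + 1), (-l * a) ^ s / (s.factorial : 𝕜) := by
      rw [texp, eval_finsetSum]
      refine sum_congr rfl fun s _ => ?_
      rw [eval_mul, eval_C, eval_pow, eval_X, mul_pow]
      ring
    rw [h1]
    exact htail _
  have hT : ∀ k, ‖row l (op l (texp l (n + 1))) a k‖ ≤ 2 * ((2 * ‖l‖) ^ (n + 1) * 3 ^ a) := by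
    intro k
    rw [pltail_optexp]
    refine (pltail_mono hG l _ hl a k n).trans ?_
    rw [norm_neg, norm_pow, norm_neg, mul_pow, pow_succ (2 : ℝ) n]
    have : 0 ≤ ‖l‖ ^ (n + 1) * (2 ^ n * 3 ^ a) := by positivity
    nlinarith
  refine (pltail_diff l u e a W _ _ h0 hT i P fun k hk => hW k (hk.trans hi)).trans ?_
  have h4 : (2 : ℝ) ^ i ≤ 4 ^ E :=
    (pow_le_pow_right₀ (by norm_num) hi).trans (pow_le_pow_left₀ (by norm_num) (by norm_num) E)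
  have h5 : 0 ≤ W * (2 * ((2 * ‖l‖) ^ (n + 1) * 3 ^ a)) := by positivity
  calc (2 : ℝ) ^ i * (W * (2 * ((2 * ‖l‖) ^ (n + 1) * 3 ^ a)))
      ≤ 4 ^ E * (W * (2 * ((2 * ‖l‖) ^ (n + 1) * 3 ^ a))) := mul_le_mul_of_nonneg_right h4 h5
    _ = _ := by ring

private lemma pltail_sum {R κ : Type} [CommRing R] [Fintype κ] (c : R) (g : κ → R)
    (B : κ → R[X]) (a i : ℕ) : row c (∑ k, g k • B k) a i = ∑ k, g k * row c (B k) a i := by
  simp only [row, map_sum, map_smul, eval_finsetSum, eval_smul, smul_eq_mul]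

private lemma pltail_mom {𝕜 ι : Type} [Field 𝕜] [Fintype ι] (C : ι → 𝕜 × 𝕜) (c₁ c₂ : 𝕜)
    (E : ℕ) (γ : ι → 𝕜)
    (hγ : ∀ i ≤ E, ∀ j ≤ E, c₁ ^ i * c₂ ^ j = ∑ e, γ e * ((C e).1 ^ i * (C e).2 ^ j))
    (D D' : 𝕜[X]) (a b i j : ℕ) (hi : i ≤ E) (hj : j ≤ E) :
    row c₁ D a i * row c₂ D' b j = ∑ e, γ e * (row (C e).1 D a i * row (C e).2 D' b j) := by
  simp only [row_eq, sum_mul_sum]
  simp only [mul_sum]
  rw [sum_comm (s := univ)]
  refine sum_congr rfl fun s _ => ?_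
  rw [sum_comm (s := univ)]
  refine sum_congr rfl fun t _ => ?_
  have h := hγ (i - s) (by omega) (j - t) (by omega)
  calc _ = (c₁ ^ (i - s) * c₂ ^ (j - t)) * ((i.choose s : 𝕜) * (j.choose t : 𝕜) *
        ((derivative ^ s : Module.End 𝕜 𝕜[X]) D).eval (a : 𝕜) *
        ((derivative ^ t : Module.End 𝕜 𝕜[X]) D').eval (b : 𝕜)) := by ring
    _ = _ := by
      rw [h, sum_mul]
      exact sum_congr rfl fun e _ => by ring

/-- A row at a point in the span of the moment vectors is in the span of the rows. -/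
theorem row_span {𝕜 ι : Type} [Field 𝕜] [CharZero 𝕜] [Fintype ι] (C : ι → 𝕜 × 𝕜) (c₁ c₂ : 𝕜)
    (E : ℕ) (γ : ι → 𝕜)
    (hγ : ∀ i ≤ E, ∀ j ≤ E, c₁ ^ i * c₂ ^ j = ∑ e, γ e * ((C e).1 ^ i * (C e).2 ^ j))
    (ν₁ ν₂ N₁ N₂ : ℕ) (D D' : 𝕜[X]) (hD : D.degree < ν₁) (hD' : D'.degree < ν₂) :
    (fun p : (Fin N₁ × Fin (E + 1)) × (Fin N₂ × Fin (E + 1)) =>
        row c₁ D p.1.1 p.1.2 * row c₂ D' p.2.1 p.2.2) ∈
      Submodule.span 𝕜 (Set.range fun e : ι × Fin ν₁ × Fin ν₂ => fun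
        p : (Fin N₁ × Fin (E + 1)) × (Fin N₂ × Fin (E + 1)) =>
          row (C e.1).1 (bp 𝕜 ν₁ E e.2.1) p.1.1 p.1.2 *
            row (C e.1).2 (bp 𝕜 ν₂ E e.2.2) p.2.1 p.2.2) := by
  obtain ⟨g₁, rfl⟩ := mem_span_bp 𝕜 ν₁ E ν₁ D hD
  obtain ⟨g₂, rfl⟩ := mem_span_bp 𝕜 ν₂ E ν₂ D' hD'
  rw [Submodule.mem_span_range_iff_exists_fun]
  refine ⟨fun e => γ e.1 * (g₁ e.2.1 * g₂ e.2.2), ?_⟩
  funext p
  rw [pltail_mom C c₁ c₂ E γ hγ _ _ _ _ _ _ (Nat.lt_succ_iff.1 p.1.2.2) (Nat.lt_succ_iff.1 p.2.2.2)]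
  simp only [Finset.sum_apply, Pi.smul_apply, smul_eq_mul, pltail_sum, sum_mul_sum,
    Fintype.sum_prod_type]
  simp only [mul_sum]
  exact sum_congr rfl fun e _ => sum_congr rfl fun k _ => sum_congr rfl fun k' _ => by ring

end Pool.Agent.Lib.MP_1f047c_nt.PL
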