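import Pool.Agent.Lib.MP_1f047c_nt.PLInd
import Pool.Agent.Lib.MP_1f047c_nt.PLBin2
import Pool.Agent.Lib.MP_1f047c_nt.PLDet
import Pool.Agent.Lib.MP_1f047c_nt.PLTail

open Polynomial Finset

namespace Pool.Agent.Lib.MP_1f047c_nt.PL

/-- The constant in the local bounds. -/
noncomputable def plarithF (E : ℕ) : ℝ := 2 ^ E * E.factorial

/-- The rate in the local bounds. -/
noncomputable def plarithG (E C₀ : ℕ) : ℝ := (6 * E + 1) * C₀ + 2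

lemma plarith_one_le_F (E : ℕ) : 1 ≤ plarithF E :=
  one_le_mul_of_one_le_of_one_le (one_le_pow₀ one_le_two) (by exact_mod_cast E.factorial_pos)

lemma plarith_G_nonneg (E C₀ : ℕ) : 0 ≤ plarithG E C₀ := by
  unfold plarithG
  positivity

lemma plarith_row (K : Type) [Field K] [CharZero K] (v : AbsoluteValue K ℝ) (E C₀ n : ℕ) (c : K)
    (k a i : ℕ) (hk : k ≤ C₀ * n) (ha : a ≤ 2 * n) (hi : i ≤ E) :
    v (row c (bp K (C₀ * n) E k) a i) ≤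
        plarithF E * Real.exp (plarithG E C₀ * n) * max (v (c ^ E)) 1 ∧
      (IsNonarchimedean v → v (row c (bp K (C₀ * n) E k) a i) ≤ max (v (c ^ E)) 1) := by
  obtain ⟨h1, h2⟩ := row_bound K v (C₀ * n) E c k a i hk hi
  refine ⟨h1.trans ?_, h2⟩
  have ha' : (a : ℝ) ≤ 2 * n := by exact_mod_cast ha
  have h3 : ((6 * E + 1) * ((C₀ * n : ℕ) : ℝ) + a) ≤ plarithG E C₀ * n := by
    unfold plarithG
    push_cast
    linarith
  unfold plarithF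
  gcongr

lemma plarith_pow {K : Type} [Field K] (v : AbsoluteValue K ℝ) (x : K) {a N : ℕ} (h : a ≤ N) :
    v (x ^ a) ≤ max (v (x ^ N)) 1 := by
  rw [map_pow, map_pow]
  rcases le_total (v x) 1 with hx | hx
  · exact (pow_le_one₀ (v.nonneg x) hx).trans (le_max_right _ _)
  · exact (pow_le_pow_right₀ hx h).trans (le_max_left _ _)

lemma plarith_single {ι : Type} [Fintype ι] (f : ι → ℝ) (i : ι) :
    max (f i) 1 ≤ ∏ e, max (f e) 1 := by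
  classical
  rw [← mul_prod_erase univ _ (mem_univ i)]
  exact le_mul_of_one_le_right (by positivity) (Finset.one_le_prod fun _ _ => le_max_right _ _)

lemma plarith_tail {𝕜 : Type} [NormedField 𝕜] [CharZero 𝕜]
    (hG : ∀ a s : ℕ, ‖(a : 𝕜) ^ s / (s.factorial : 𝕜)‖ ≤ 2 ^ s * 3 ^ a) (l u e : 𝕜)
    (hl : ‖l‖ ≤ 1 / 4) (E C₀ n τ k a i : ℕ) (hτ : 1 ≤ τ) (hk : k ≤ C₀ * n) (ha : a ≤ 2 * n)
    (hi : i ≤ E) (he : HasSum (fun s : ℕ => (-l * a) ^ s / (s.factorial : 𝕜)) e) {θ : ℝ}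
    (hθ : (2 * ‖l‖) ^ τ ≤ θ) :
    ‖e * row u (bp 𝕜 (C₀ * n) E k) a i‖ ≤
        2 * (plarithF E * Real.exp ((plarithG E C₀ + 4) * n) * max ‖u ^ E‖ 1) ∧
      ‖e * row u (bp 𝕜 (C₀ * n) E k) a i - row (l + u) (bp 𝕜 (C₀ * n) E k * texp l τ) a i‖ ≤
        2 * 4 ^ E * (plarithF E * Real.exp ((plarithG E C₀ + 4) * n) * max ‖u ^ E‖ 1) * θ := by
  have hW : ∀ i ≤ E, ‖row u (bp 𝕜 (C₀ * n) E k) a i‖ ≤
      plarithF E * Real.exp (plarithG E C₀ * n) * max ‖u ^ E‖ 1 := fun i hi =>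
    (plarith_row 𝕜 (NormedField.toAbsoluteValue 𝕜) E C₀ n u k a i hk ha hi).1
  obtain ⟨h1, h2⟩ := tail1 hG l u e hl a E τ hτ he _ _ hW i hi
  have hF := plarith_one_le_F E
  have h3 : (3 : ℝ) ^ a ≤ Real.exp (4 * n) := by
    have b1 : (3 : ℝ) ≤ Real.exp 2 := by linarith [Real.add_one_le_exp 2]
    have b2 : (a : ℝ) ≤ 2 * n := by exact_mod_cast ha
    calc (3 : ℝ) ^ a ≤ Real.exp 2 ^ a := pow_le_pow_left₀ (by norm_num) b1 a
      _ = Real.exp (a * 2) := (Real.exp_nat_mul 2 a).symm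
      _ ≤ Real.exp (4 * n) := Real.exp_le_exp.2 (by linarith)
  have h4 : plarithF E * Real.exp ((plarithG E C₀ + 4) * n) * max ‖u ^ E‖ 1 =
      plarithF E * Real.exp (plarithG E C₀ * n) * max ‖u ^ E‖ 1 * Real.exp (4 * n) := by
    rw [add_mul, Real.exp_add]
    ring
  rw [h4]
  have hW0 : 0 ≤ plarithF E * Real.exp (plarithG E C₀ * n) * max ‖u ^ E‖ 1 := by positivity
  have hWi := hW i hi
  generalize plarithF E * Real.exp (plarithG E C₀ * n) * max ‖u ^ E‖ 1 = W at *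
  constructor
  · rw [norm_mul]
    calc ‖e‖ * ‖row u (bp 𝕜 (C₀ * n) E k) a i‖ ≤ (2 * Real.exp (4 * n)) * W :=
          mul_le_mul (h1.trans (by linarith)) hWi (norm_nonneg _) (by positivity)
      _ = 2 * (W * Real.exp (4 * n)) := by ring
  · refine h2.trans ?_
    calc 2 * 4 ^ E * W * 3 ^ a * (2 * ‖l‖) ^ τ ≤ 2 * 4 ^ E * W * Real.exp (4 * n) * θ := by
          gcongr
      _ = 2 * 4 ^ E * (W * Real.exp (4 * n)) * θ := by ring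

lemma plarith_prod {𝕜 : Type} [NormedField 𝕜] {x x' y y' : 𝕜} {W₁ W₂ q θ : ℝ} (hq : 1 ≤ q)
    (hW₁ : 0 ≤ W₁) (hW₂ : 0 ≤ W₂) (hθ0 : 0 ≤ θ) (hθ : θ ≤ 1) (hx : ‖x‖ ≤ 2 * W₁)
    (hx' : ‖x - x'‖ ≤ 2 * q * W₁ * θ) (hy : ‖y‖ ≤ 2 * W₂) (hy' : ‖y - y'‖ ≤ 2 * q * W₂ * θ) :
    ‖x * y - x' * y'‖ ≤ 12 * q ^ 2 * (W₁ * W₂) * θ := by
  have h1 : ‖y'‖ ≤ 4 * q * W₂ := by
    have a1 : ‖y'‖ ≤ ‖y‖ + ‖y - y'‖ := by
      simpa using norm_sub_le y (y - y')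
    have a2 : 2 * q * W₂ * θ ≤ 2 * q * W₂ := mul_le_of_le_one_right (by positivity) hθ
    nlinarith [mul_le_mul_of_nonneg_right hq hW₂]
  have h2 : x * y - x' * y' = x * (y - y') + (x - x') * y' := by ring
  have h3 : ‖x * (y - y')‖ ≤ 2 * W₁ * (2 * q * W₂ * θ) := by
    rw [norm_mul]
    exact mul_le_mul hx hy' (norm_nonneg _) (by positivity)
  have h4 : ‖(x - x') * y'‖ ≤ 2 * q * W₁ * θ * (4 * q * W₂) := by
    rw [norm_mul]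
    exact mul_le_mul hx' h1 (norm_nonneg _) (by positivity)
  have h5 : q * (W₁ * W₂ * θ) ≤ q ^ 2 * (W₁ * W₂ * θ) :=
    mul_le_mul_of_nonneg_right (by nlinarith) (by positivity)
  rw [h2]
  refine (norm_add_le _ _).trans ?_
  nlinarith

lemma plarith_deg {𝕜 : Type} [Field 𝕜] [CharZero 𝕜] (l : 𝕜) (ν E C₀ n k : ℕ) (hC : 1 ≤ C₀)
    (hk : k < n) : (bp 𝕜 ν E k * texp l ((C₀ - 1) * n)).degree < (C₀ * n : ℕ) := by
  obtain ⟨c, rfl⟩ : ∃ c, C₀ = c + 1 := ⟨C₀ - 1, by omega⟩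
  rw [degree_mul, bp_degree, Nat.add_sub_cancel]
  have h1 := texp_degree l (c * n)
  rcases eq_or_ne (texp l (c * n)) 0 with h | h
  · rw [h, degree_zero, WithBot.add_bot]
    exact WithBot.bot_lt_coe _
  · rw [degree_eq_natDegree h] at h1 ⊢
    have h2 : (texp l (c * n)).natDegree < c * n := by exact_mod_cast h1
    have h3 : k + (texp l (c * n)).natDegree < (c + 1) * n := by nlinarith
    exact_mod_cast h3

theorem plarith_det {𝕜 : Type} [NormedField 𝕜] [CharZero 𝕜] (G : Good 𝕜)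
    (hG : ∀ a s : ℕ, ‖(a : 𝕜) ^ s / (s.factorial : 𝕜)‖ ≤ 2 ^ s * 3 ^ a)
    {K : Type} [Field K] [NumberField K] (φ : K →+* 𝕜) (α β u v : K) (l m : 𝕜) {s : ℕ}
    (C : Fin s → K × K) (γ : Fin s → 𝕜) (hα : α ≠ 0) (hβ : β ≠ 0)
    (hl : ∀ a : ℕ, HasSum (fun s : ℕ => (-l * a) ^ s / (s.factorial : 𝕜)) (φ α ^ a))
    (hm : ∀ a : ℕ, HasSum (fun s : ℕ => (-m * a) ^ s / (s.factorial : 𝕜)) (φ β ^ a))
    (hl4 : ‖l‖ ≤ 1 / 4) (hm4 : ‖m‖ ≤ 1 / 4) (E C₀ n₁ n₂ : ℕ) (hC : 2 ≤ C₀) (h1 : 1 ≤ n₁)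
    (h2 : 1 ≤ n₂)
    (hγ : ∀ i ≤ E, ∀ j ≤ E, (l + φ u) ^ i * (m + φ v) ^ j =
      ∑ e, γ e * (φ (C e).1 ^ i * φ (C e).2 ^ j))
    (hZ : ZK C u v α β (C₀ * n₁) (C₀ * n₂) E n₁ n₂) {θ : ℝ} (hθ : θ ≤ 1)
    (hθ1 : (2 * ‖l‖) ^ ((C₀ - 1) * n₁) ≤ θ) (hθ2 : (2 * ‖m‖) ^ ((C₀ - 1) * n₂) ≤ θ) :
    1 ≤ (2 * (plarithF E ^ 2 * Real.exp (plarithG E C₀ * (n₁ + n₂))) *
          ((s * C₀ ^ 2 + 1) * (n₁ * n₂) + 1 : ℕ)) ^
            ((s * C₀ ^ 2 + 1) * (Module.finrank ℚ K + 1)) *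
        ((∏ e, Height.mulHeight₁ ((C e).1 ^ E)) * ∏ e, Height.mulHeight₁ ((C e).2 ^ E)) ^
          (2 * (s * C₀ ^ 2)) *
        (Height.mulHeight₁ α ^ (2 * n₁) * Height.mulHeight₁ β ^ (2 * n₂) *
          Height.mulHeight₁ (u ^ E) * Height.mulHeight₁ (v ^ E) *
          (12 * (4 ^ E) ^ 2 * (plarithF E ^ 2 * Real.exp ((plarithG E C₀ + 4) * (n₁ + n₂)) *
            (max ‖φ u ^ E‖ 1 * max ‖φ v ^ E‖ 1)) * θ)) := by
  have hF := plarith_one_le_F E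
  have hg := plarith_G_nonneg E C₀
  have hθ0 : 0 ≤ θ := le_trans (by positivity) hθ1
  have hZe : plarithF E ^ 2 * Real.exp (plarithG E C₀ * (n₁ + n₂)) =
      plarithF E * Real.exp (plarithG E C₀ * n₁) * (plarithF E * Real.exp (plarithG E C₀ * n₂)) := by
    rw [mul_add, Real.exp_add]
    ring
  have hlt : ∀ {n k : ℕ}, k < n → k ≤ C₀ * n := fun h => by nlinarith
  have key := detlemma G φ
    (fun (e : Fin s × Fin (C₀ * n₁) × Fin (C₀ * n₂))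
      (p : (Fin (2 * n₁ + 1) × Fin (E + 1)) × (Fin (2 * n₂ + 1) × Fin (E + 1))) =>
        row (C e.1).1 (bp K (C₀ * n₁) E e.2.1) p.1.1 p.1.2 *
          row (C e.1).2 (bp K (C₀ * n₂) E e.2.2) p.2.1 p.2.2)
    (fun (b : Fin n₁ × Fin n₂) p =>
      α ^ (p.1.1 : ℕ) * row u (bp K (C₀ * n₁) E b.1) p.1.1 p.1.2 *
        (β ^ (p.2.1 : ℕ) * row v (bp K (C₀ * n₂) E b.2) p.2.1 p.2.2))
    (fun b p => φ α ^ (p.1.1 : ℕ) * row (φ u) (bp 𝕜 (C₀ * n₁) E b.1) p.1.1 p.1.2 *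
        (φ β ^ (p.2.1 : ℕ) * row (φ v) (bp 𝕜 (C₀ * n₂) E b.2) p.2.1 p.2.2) -
      row (l + φ u) (bp 𝕜 (C₀ * n₁) E b.1 * texp l ((C₀ - 1) * n₁)) p.1.1 p.1.2 *
        row (m + φ v) (bp 𝕜 (C₀ * n₂) E b.2 * texp m ((C₀ - 1) * n₂)) p.2.1 p.2.2)
    (Sum.elim (fun e : Fin s => (C e).1 ^ E) (fun e : Fin s => (C e).2 ^ E))
    ![α ^ (2 * n₁), β ^ (2 * n₂), u ^ E, v ^ E]
    (plarithF E ^ 2 * Real.exp (plarithG E C₀ * (n₁ + n₂)))
    (12 * (4 ^ E) ^ 2 * (plarithF E ^ 2 * Real.exp ((plarithG E C₀ + 4) * (n₁ + n₂)) *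
      (max ‖φ u ^ E‖ 1 * max ‖φ v ^ E‖ 1)) * θ)
    (one_le_mul_of_one_le_of_one_le (one_le_pow₀ hF) (Real.one_le_exp (by positivity)))
    (by positivity) (fun γ' hγ' => indep C u v α β hα hβ _ _ E n₁ n₂ hZ γ' hγ') ?_ ?_ ?_ ?_
  · simp only [Fintype.card_prod, Fintype.card_fin, Fintype.prod_sum_type, Sum.elim_inl,
      Sum.elim_inr, Fin.prod_univ_four, Matrix.cons_val_zero, Matrix.cons_val_one,
      Matrix.cons_val] at key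
    rw [Height.mulHeight₁_pow α, Height.mulHeight₁_pow β,
      show s * (C₀ * n₁ * (C₀ * n₂)) + n₁ * n₂ = (s * C₀ ^ 2 + 1) * (n₁ * n₂) by ring,
      show (s * C₀ ^ 2 + 1) * (n₁ * n₂) * (Module.finrank ℚ K + 1) =
        (s * C₀ ^ 2 + 1) * (Module.finrank ℚ K + 1) * (n₁ * n₂) by ring,
      show 2 * (s * (C₀ * n₁ * (C₀ * n₂))) = 2 * (s * C₀ ^ 2) * (n₁ * n₂) by ring,
      pow_mul _ _ (n₁ * n₂), pow_mul _ _ (n₁ * n₂), ← mul_pow, ← mul_pow] at key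
    exact (one_le_pow_iff_of_nonneg (by positivity) (by positivity)).1 key
  · intro b
    simp only [map_mul, map_pow, row_map, bp_map, sub_sub_cancel]
    exact row_span (fun e => (φ (C e).1, φ (C e).2)) _ _ E γ hγ _ _ _ _ _ _
      (plarith_deg l _ E C₀ n₁ b.1 (by omega) b.1.2) (plarith_deg m _ E C₀ n₂ b.2 (by omega) b.2.2)
  · intro b p
    have hτ : ∀ n, 1 ≤ n → 1 ≤ (C₀ - 1) * n := fun n hn => Nat.mul_pos (by omega) hn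
    obtain ⟨a1, a2⟩ := plarith_tail hG l (φ u) _ hl4 E C₀ n₁ _ b.1 p.1.1 p.1.2 (hτ _ h1)
      (hlt b.1.2) (Nat.lt_succ_iff.1 p.1.1.2) (Nat.lt_succ_iff.1 p.1.2.2) (hl _) hθ1
    obtain ⟨a3, a4⟩ := plarith_tail hG m (φ v) _ hm4 E C₀ n₂ _ b.2 p.2.1 p.2.2 (hτ _ h2)
      (hlt b.2.2) (Nat.lt_succ_iff.1 p.2.1.2) (Nat.lt_succ_iff.1 p.2.2.2) (hm _) hθ2
    refine (plarith_prod (one_le_pow₀ (by norm_num)) (by positivity) (by positivity) hθ0 hθ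
      a1 a2 a3 a4).trans_eq ?_
    rw [mul_add (plarithG E C₀ + 4), Real.exp_add]
    ring
  · intro w e p
    obtain ⟨a1, a2⟩ := plarith_row K w E C₀ n₁ (C e.1).1 e.2.1 p.1.1 p.1.2 e.2.1.2.le
      (Nat.lt_succ_iff.1 p.1.1.2) (Nat.lt_succ_iff.1 p.1.2.2)
    obtain ⟨a3, a4⟩ := plarith_row K w E C₀ n₂ (C e.1).2 e.2.2 p.2.1 p.2.2 e.2.2.2.le
      (Nat.lt_succ_iff.1 p.2.1.2) (Nat.lt_succ_iff.1 p.2.2.2)
    have a5 : max (w ((C e.1).1 ^ E)) 1 * max (w ((C e.1).2 ^ E)) 1 ≤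
        (∏ e, max (w ((C e).1 ^ E)) 1) * ∏ e, max (w ((C e).2 ^ E)) 1 :=
      mul_le_mul (plarith_single (fun e => w ((C e).1 ^ E)) e.1)
        (plarith_single (fun e => w ((C e).2 ^ E)) e.1) (by positivity)
        (prod_nonneg fun _ _ => by positivity)
    simp only [Fintype.prod_sum_type, Sum.elim_inl, Sum.elim_inr, map_mul]
    refine ⟨(mul_le_mul a1 a3 (w.nonneg _) (by positivity)).trans ?_, fun hw =>
      (mul_le_mul (a2 hw) (a4 hw) (w.nonneg _) (by positivity)).trans a5⟩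
    rw [hZe, mul_mul_mul_comm]
    exact mul_le_mul_of_nonneg_left a5 (by positivity)
  · intro w b p
    obtain ⟨a1, a2⟩ := plarith_row K w E C₀ n₁ u b.1 p.1.1 p.1.2 (hlt b.1.2)
      (Nat.lt_succ_iff.1 p.1.1.2) (Nat.lt_succ_iff.1 p.1.2.2)
    obtain ⟨a3, a4⟩ := plarith_row K w E C₀ n₂ v b.2 p.2.1 p.2.2 (hlt b.2.2)
      (Nat.lt_succ_iff.1 p.2.1.2) (Nat.lt_succ_iff.1 p.2.2.2)
    have a5 := plarith_pow w α (Nat.lt_succ_iff.1 p.1.1.2)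
    have a6 := plarith_pow w β (Nat.lt_succ_iff.1 p.2.1.2)
    simp only [Fin.prod_univ_four, Matrix.cons_val_zero, Matrix.cons_val_one, Matrix.cons_val,
      map_mul]
    constructor
    · refine (mul_le_mul (mul_le_mul a5 a1 (w.nonneg _) (by positivity))
        (mul_le_mul a6 a3 (w.nonneg _) (by positivity)) (by positivity)
        (by positivity)).trans_eq ?_
      rw [hZe]
      ring
    · intro hw
      refine (mul_le_mul (mul_le_mul a5 (a2 hw) (w.nonneg _) (by positivity))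
        (mul_le_mul a6 (a4 hw) (w.nonneg _) (by positivity)) (by positivity)
        (by positivity)).trans_eq ?_
      ring

lemma plarith_small {x H T : ℝ} (hx : 0 ≤ x) (hH : 0 < H) (hxH : x ≤ Real.exp (-H)) (C₀ : ℕ)
    (hC : 1 ≤ C₀) (N : ℝ) (hN : (⌈T / H⌉₊ : ℝ) ≤ N) :
    (2 * x) ^ ((C₀ - 1) * ⌈T / H⌉₊) ≤ Real.exp (C₀ * N - (C₀ - 1) * T) := by
  obtain ⟨c, rfl⟩ : ∃ c, C₀ = c + 1 := ⟨C₀ - 1, by omega⟩
  have h1 : 2 * x ≤ Real.exp (1 - H) := by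
    rw [sub_eq_add_neg, Real.exp_add]
    exact mul_le_mul (by linarith [Real.add_one_le_exp 1]) hxH hx (by positivity)
  have h2 : T ≤ ⌈T / H⌉₊ * H := (div_le_iff₀ hH).1 (Nat.le_ceil _)
  have h3 : (0 : ℝ) ≤ ⌈T / H⌉₊ := Nat.cast_nonneg _
  have h4 : (0 : ℝ) ≤ c := Nat.cast_nonneg _
  rw [Nat.add_sub_cancel]
  refine (pow_le_pow_left₀ (by positivity) h1 _).trans ?_
  rw [← Real.exp_nat_mul]
  refine Real.exp_le_exp.2 ?_
  push_cast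
  nlinarith [mul_le_mul_of_nonneg_left h2 h4, mul_le_mul_of_nonneg_left hN h4]

lemma plarith_height {K : Type} [Field K] [NumberField K] (α : K) {δ H T : ℝ} (hδ : 0 < δ)
    (hH : 0 < H) (hT : 0 ≤ T) (h : δ * Height.logHeight₁ α ≤ H) :
    Height.mulHeight₁ α ^ (2 * ⌈T / H⌉₊) ≤ Real.exp (2 / δ * T + 2 * H / δ) := by
  have h1 : Height.mulHeight₁ α ≤ Real.exp (H / δ) := by
    rw [← Real.exp_log (Height.mulHeight₁_pos α), ← Height.logHeight₁_eq_log_mulHeight₁]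
    exact Real.exp_le_exp.2 ((le_div_iff₀' hδ).2 h)
  have h2 : (⌈T / H⌉₊ : ℝ) * H ≤ T + H := by
    have := mul_le_mul_of_nonneg_right (Nat.ceil_lt_add_one (div_nonneg hT hH.le)).le hH.le
    rwa [add_mul, div_mul_cancel₀ _ hH.ne', one_mul] at this
  refine (pow_le_pow_left₀ (by positivity) h1 _).trans ?_
  rw [← Real.exp_nat_mul]
  refine Real.exp_le_exp.2 ?_
  push_cast
  calc 2 * (⌈T / H⌉₊ : ℝ) * (H / δ) = 2 / δ * (⌈T / H⌉₊ * H) := by ring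
    _ ≤ 2 / δ * (T + H) := mul_le_mul_of_nonneg_left h2 (by positivity)
    _ = 2 / δ * T + 2 * H / δ := by ring

lemma plarith_count (S n₁ n₂ : ℕ) (hS : 1 ≤ S) :
    ((S * (n₁ * n₂) + 1 : ℕ) : ℝ) ≤ 2 * S * Real.exp (n₁ + n₂) := by
  have h1 : (n₁ : ℝ) ≤ Real.exp n₁ := by linarith [Real.add_one_le_exp (n₁ : ℝ)]
  have h2 : (n₂ : ℝ) ≤ Real.exp n₂ := by linarith [Real.add_one_le_exp (n₂ : ℝ)]
  have h3 : (n₁ : ℝ) * n₂ ≤ Real.exp (n₁ + n₂) := by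
    rw [Real.exp_add]
    exact mul_le_mul h1 h2 (by positivity) (by positivity)
  have h4 : 1 ≤ Real.exp (n₁ + n₂) := Real.one_le_exp (by positivity)
  have h5 : (1 : ℝ) ≤ S := by exact_mod_cast hS
  push_cast
  nlinarith [mul_le_mul_of_nonneg_left h3 (zero_le_one.trans h5)]

lemma plarith_exp {S g C₀ δ d c N T : ℝ} (hS : 0 ≤ S) (hg : 0 ≤ g) (hC0 : 0 ≤ C₀) (hd : 1 ≤ d)
    (hc : c = 4 * S * (g + 1) + 2 * (g + 4 + C₀)) (hT : 0 ≤ T) (hN0 : 0 ≤ N)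
    (hN : N ≤ 2 * (T / (c * d)) + 2) (hC : 4 / δ + 3 ≤ C₀) :
    S * (d + 1) * ((g + 1) * N) + 2 / δ * T + 2 / δ * T + (g + 4) * N + (C₀ * N - (C₀ - 1) * T) ≤
      c * d - T := by
  have hc0 : 0 < c := by rw [hc]; positivity
  have h1 : S * (d + 1) * (g + 1) + (g + 4 + C₀) ≤ c * d / 2 := by
    rw [hc]
    nlinarith [mul_nonneg hS (by linarith : 0 ≤ g + 1), mul_nonneg (mul_nonneg hS
      (by linarith : 0 ≤ g + 1)) (by linarith : 0 ≤ d - 1),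
      mul_nonneg (by linarith : 0 ≤ g + 4 + C₀) (by linarith : 0 ≤ d - 1)]
  have h2 : c * d / 2 * (2 * (T / (c * d)) + 2) = T + c * d := by field_simp
  have h3 := mul_le_mul h1 hN hN0 (by positivity)
  have h4 := mul_le_mul_of_nonneg_right hC hT
  have h5 : 2 / δ * T + 2 / δ * T = 4 / δ * T := by ring
  nlinarith

/-- The arithmetic step. -/
theorem arith (δ : ℝ) (hδ : 0 < δ) (C₀ : ℕ) (hC : 4 / δ + 3 ≤ C₀) (E s : ℕ) : ∃ c : ℝ, 1 ≤ c ∧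
    ∀ (𝕜 : Type) [NormedField 𝕜] [CharZero 𝕜], Good 𝕜 →
    (∀ a s : ℕ, ‖(a : 𝕜) ^ s / (s.factorial : 𝕜)‖ ≤ 2 ^ s * 3 ^ a) →
    ∀ (K : Type) [Field K] [NumberField K] (φ : K →+* 𝕜) (α β u v : K) (l m : 𝕜) (H₁ H₂ : ℝ)
      (C : Fin s → K × K) (γ : Fin s → 𝕜), α ≠ 0 → β ≠ 0 →
      (∀ a : ℕ, HasSum (fun s : ℕ => (-l * a) ^ s / (s.factorial : 𝕜)) (φ α ^ a)) →
      (∀ a : ℕ, HasSum (fun s : ℕ => (-m * a) ^ s / (s.factorial : 𝕜)) (φ β ^ a)) →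
      δ * Height.logHeight₁ α ≤ H₁ → c * Module.finrank ℚ K ≤ H₁ → ‖l‖ ≤ Real.exp (-H₁) →
      δ * Height.logHeight₁ β ≤ H₂ → c * Module.finrank ℚ K ≤ H₂ → ‖m‖ ≤ Real.exp (-H₂) →
      (∀ i ≤ E, ∀ j ≤ E, (l + φ u) ^ i * (m + φ v) ^ j =
        ∑ e, γ e * (φ (C e).1 ^ i * φ (C e).2 ^ j)) →
      ¬ ∀ᶠ T : ℝ in Filter.atTop,
        ZK C u v α β (C₀ * ⌈T / H₁⌉₊) (C₀ * ⌈T / H₂⌉₊) E ⌈T / H₁⌉₊ ⌈T / H₂⌉₊ := by
  have hF := plarith_one_le_F E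
  have hg := plarith_G_nonneg E C₀
  have hC2 : 2 ≤ C₀ := by
    have : (0 : ℝ) < 4 / δ := by positivity
    have : (2 : ℝ) ≤ C₀ := by linarith
    exact_mod_cast this
  obtain ⟨S, hS⟩ : ∃ S : ℕ, S = s * C₀ ^ 2 + 1 := ⟨_, rfl⟩
  obtain ⟨c, hc⟩ : ∃ c : ℝ, c = 4 * S * (plarithG E C₀ + 1) + 2 * (plarithG E C₀ + 4 + C₀) :=
    ⟨_, rfl⟩
  have hc2 : 2 ≤ c := by
    have a1 : (0 : ℝ) ≤ 4 * S * (plarithG E C₀ + 1) := by positivity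
    have a2 : (0 : ℝ) ≤ C₀ := Nat.cast_nonneg _
    linarith
  refine ⟨c, by linarith, ?_⟩
  intro 𝕜 _ _ G hG K _ _ φ α β u v l m H₁ H₂ C γ hα hβ hl hm h1 h1' h1'' h2 h2' h2'' hγ hev
  have hd : (1 : ℝ) ≤ Module.finrank ℚ K := by exact_mod_cast Module.finrank_pos
  have hcd : 2 ≤ c * Module.finrank ℚ K := by nlinarith
  have h4 : ∀ {x H : ℝ}, 2 ≤ H → x ≤ Real.exp (-H) → x ≤ 1 / 4 := by
    intro x H hH hx
    refine hx.trans ((Real.exp_le_exp.2 (neg_le_neg hH)).trans ?_)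
    rw [Real.exp_neg, one_div]
    refine inv_anti₀ (by norm_num) ?_
    have a1 : Real.exp 2 = Real.exp 1 * Real.exp 1 := by rw [← Real.exp_add]; norm_num
    nlinarith [Real.add_one_le_exp 1]
  have hl4 := h4 (hcd.trans h1') h1''
  have hm4 := h4 (hcd.trans h2') h2''
  have hH1 : 0 < H₁ := by linarith
  have hH2 : 0 < H₂ := by linarith
  obtain ⟨HA, hHA⟩ : ∃ HA : ℝ, HA = ((∏ e, Height.mulHeight₁ ((C e).1 ^ E)) *
    ∏ e, Height.mulHeight₁ ((C e).2 ^ E)) ^ (2 * (s * C₀ ^ 2)) := ⟨_, rfl⟩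
  have hHA0 : 0 ≤ HA := by rw [hHA]; positivity
  obtain ⟨Q, hQ⟩ : ∃ Q : ℝ, Q = (4 * S * plarithF E ^ 2) ^ (S * (Module.finrank ℚ K + 1)) * HA *
    (Real.exp (2 * H₁ / δ) * Real.exp (2 * H₂ / δ) * Height.mulHeight₁ (u ^ E) *
      Height.mulHeight₁ (v ^ E) * (12 * (4 ^ E) ^ 2 * (plarithF E ^ 2 *
        (max ‖φ u ^ E‖ 1 * max ‖φ v ^ E‖ 1)))) := ⟨_, rfl⟩
  have hQ0 : 0 ≤ Q := by rw [hQ]; positivity
  obtain ⟨T, hZ, hT⟩ := (hev.and (Filter.eventually_ge_atTop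
    (c * Module.finrank ℚ K + Q))).exists
  have hT0 : 0 < T := by linarith
  have hn : ∀ {H : ℝ}, c * Module.finrank ℚ K ≤ H →
      (⌈T / H⌉₊ : ℝ) ≤ T / (c * Module.finrank ℚ K) + 1 := by
    intro H hH
    refine (Nat.ceil_lt_add_one (div_nonneg hT0.le (by linarith))).le.trans ?_
    gcongr
  have key := plarith_det G hG φ α β u v l m C γ hα hβ hl hm hl4 hm4 E C₀ _ _ hC2
    (Nat.ceil_pos.2 (div_pos hT0 hH1)) (Nat.ceil_pos.2 (div_pos hT0 hH2)) hγ hZ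
    (θ := max ((2 * ‖l‖) ^ ((C₀ - 1) * ⌈T / H₁⌉₊)) ((2 * ‖m‖) ^ ((C₀ - 1) * ⌈T / H₂⌉₊)))
    (max_le (pow_le_one₀ (by positivity) (by linarith)) (pow_le_one₀ (by positivity) (by linarith)))
    (le_max_left _ _) (le_max_right _ _)
  have b1 := max_le
    (plarith_small (T := T) (norm_nonneg l) hH1 h1'' C₀ (by omega) (⌈T / H₁⌉₊ + ⌈T / H₂⌉₊)
      (le_add_of_nonneg_right (Nat.cast_nonneg _)))
    (plarith_small (T := T) (norm_nonneg m) hH2 h2'' C₀ (by omega) (⌈T / H₁⌉₊ + ⌈T / H₂⌉₊)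
      (le_add_of_nonneg_left (Nat.cast_nonneg _)))
  have b2 := plarith_height α hδ hH1 hT0.le h1
  have b3 := plarith_height β hδ hH2 hT0.le h2
  have b4 := plarith_count S ⌈T / H₁⌉₊ ⌈T / H₂⌉₊ (by omega)
  have b5 := plarith_exp (S := S) (N := ⌈T / H₁⌉₊ + ⌈T / H₂⌉₊) (Nat.cast_nonneg _) hg
    (Nat.cast_nonneg C₀) hd hc hT0.le (by positivity) (by linarith [hn h1', hn h2']) hC
  rw [← hS, ← hHA] at key
  generalize (⌈T / H₁⌉₊ : ℝ) + ⌈T / H₂⌉₊ = N at key b1 b4 b5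
  have b6 : 1 ≤ Q * Real.exp (S * (Module.finrank ℚ K + 1) * ((plarithG E C₀ + 1) * N) +
      2 / δ * T + 2 / δ * T + (plarithG E C₀ + 4) * N + (C₀ * N - (C₀ - 1) * T)) := by
    refine key.trans (le_trans (b := (2 * (plarithF E ^ 2 * Real.exp (plarithG E C₀ * N)) *
      (2 * S * Real.exp N)) ^ (S * (Module.finrank ℚ K + 1)) * HA *
      (Real.exp (2 / δ * T + 2 * H₁ / δ) * Real.exp (2 / δ * T + 2 * H₂ / δ) *
        Height.mulHeight₁ (u ^ E) * Height.mulHeight₁ (v ^ E) *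
        (12 * (4 ^ E) ^ 2 * (plarithF E ^ 2 * Real.exp ((plarithG E C₀ + 4) * N) *
          (max ‖φ u ^ E‖ 1 * max ‖φ v ^ E‖ 1)) * Real.exp (C₀ * N - (C₀ - 1) * T)))) ?_ ?_)
    · gcongr
    · have e1 : 2 * (plarithF E ^ 2 * Real.exp (plarithG E C₀ * N)) * (2 * S * Real.exp N) =
          4 * S * plarithF E ^ 2 * Real.exp ((plarithG E C₀ + 1) * N) := by
        rw [add_mul, one_mul, Real.exp_add]
        ring
      rw [e1, mul_pow, ← Real.exp_nat_mul, hQ]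
      simp only [Real.exp_add]
      push_cast
      refine le_of_eq ?_
      ring
  have b7 := b6.trans (mul_le_mul_of_nonneg_left (Real.exp_le_exp.2 b5) hQ0)
  rw [← neg_sub, Real.exp_neg, ← div_eq_mul_inv, one_le_div (Real.exp_pos _)] at b7
  linarith [Real.add_one_le_exp (T - c * Module.finrank ℚ K)]

end Pool.Agent.Lib.MP_1f047c_nt.PL
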