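import Pool.Agent.Lib.MP_1f047c_nt.PLDefs

open Polynomial Finset

namespace Pool.Agent.Lib.MP_1f047c_nt.PL

lemma plbin_op_apply {R : Type} [CommRing R] (c : R) (D : R[X]) :
    op c D = c • D + derivative D := rfl

lemma plbin_pow_succ {R : Type} [CommRing R] (c : R) (D : R[X]) (i : ℕ) :
    (op c ^ (i + 1)) D = op c ((op c ^ i) D) := by
  rw [pow_succ', Module.End.mul_apply]

lemma row_eq {R : Type} [CommRing R] (c : R) (D : R[X]) (a i : ℕ) :
    row c D a i = ∑ s ∈ range (i + 1),
      (i.choose s : R) * c ^ (i - s) * ((derivative ^ s : Module.End R R[X]) D).eval (a : R) := by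
  have hc : Commute (derivative : Module.End R R[X]) (c • (1 : Module.End R R[X])) :=
    (Commute.one_right _).smul_right c
  rw [row, op, add_comm, hc.add_pow, LinearMap.sum_apply, eval_finsetSum]
  refine Finset.sum_congr rfl fun s _ => ?_
  rw [_root_.smul_pow, one_pow, mul_smul_comm, mul_one, smul_mul_assoc, LinearMap.smul_apply,
    Module.End.mul_apply, Module.End.natCast_apply, map_nsmul, eval_smul, nsmul_eq_mul, eval_mul,
    eval_natCast, smul_eq_mul]
  ring

lemma plbin_op_map {R S : Type} [CommRing R] [CommRing S] (φ : R →+* S) (c : R) (D : R[X])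
    (i : ℕ) : ((op c ^ i) D).map φ = (op (φ c) ^ i) (D.map φ) := by
  induction i with
  | zero => rfl
  | succ i ih =>
    rw [plbin_pow_succ, plbin_pow_succ, ← ih, plbin_op_apply, plbin_op_apply, Polynomial.map_add,
      Polynomial.map_smul, derivative_map]

lemma row_map {R S : Type} [CommRing R] [CommRing S] (φ : R →+* S) (c : R) (D : R[X]) (a i : ℕ) :
    φ (row c D a i) = row (φ c) (D.map φ) a i := by
  rw [row, row, ← plbin_op_map, ← map_natCast φ a, eval_map, eval₂_at_apply]

lemma row_add {R : Type} [CommRing R] (c : R) (D D' : R[X]) (a i : ℕ) :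
    row c (D + D') a i = row c D a i + row c D' a i := by
  rw [row, row, row, map_add, eval_add]

lemma row_smul {R : Type} [CommRing R] (c t : R) (D : R[X]) (a i : ℕ) :
    row c (t • D) a i = t * row c D a i := by
  rw [row, row, map_smul, eval_smul, smul_eq_mul]

lemma plbin_op_shift {R : Type} [CommRing R] (c : R) (D : R[X]) (i : ℕ) :
    (op c ^ i) (D.comp (X + 1)) = ((op c ^ i) D).comp (X + 1) := by
  induction i with
  | zero => rfl
  | succ i ih =>
    rw [plbin_pow_succ, plbin_pow_succ, ih, plbin_op_apply, plbin_op_apply, add_comp, smul_comp,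
      derivative_comp]
    simp

lemma row_shift {R : Type} [CommRing R] (c : R) (D : R[X]) (a i : ℕ) :
    row c (D.comp (X + 1)) a i = row c D (a + 1) i := by
  rw [row, row, plbin_op_shift, eval_comp]
  simp

lemma bp_map {K L : Type} [Field K] [Field L] (φ : K →+* L) (ν E k : ℕ) :
    (bp K ν E k).map φ = bp L ν E k := by
  rw [bp, bp, Polynomial.map_mul, map_C, map_div₀, map_natCast, map_natCast, descPochhammer_map]

lemma plbin_coef_ne (K : Type) [Field K] [CharZero K] (ν E k : ℕ) :
    ((Nat.lcmUpto ν ^ E : ℕ) : K) / (k.factorial : K) ≠ 0 :=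
  div_ne_zero (Nat.cast_ne_zero.2 (pow_ne_zero _ (Nat.lcmUpto_pos ν).ne'))
    (Nat.cast_ne_zero.2 k.factorial_ne_zero)

lemma bp_degree (K : Type) [Field K] [CharZero K] (ν E k : ℕ) : (bp K ν E k).degree = k := by
  rw [bp, degree_C_mul (plbin_coef_ne K ν E k),
    degree_eq_natDegree (monic_descPochhammer K k).ne_zero, descPochhammer_natDegree]

lemma bp_zero (K : Type) [Field K] (ν E : ℕ) :
    bp K ν E 0 = C ((Nat.lcmUpto ν ^ E : ℕ) : K) := by
  rw [bp, descPochhammer_zero, mul_one, Nat.factorial_zero, Nat.cast_one, div_one]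

lemma plbin_desc_shift (K : Type) [Field K] (k : ℕ) :
    (descPochhammer K (k + 1)).comp (X + 1) =
      descPochhammer K (k + 1) + C ((k : K) + 1) * descPochhammer K k := by
  have h : (descPochhammer K (k + 1)).comp (X + 1) = (X + 1) * descPochhammer K k := by
    rw [descPochhammer_succ_left, mul_comp, X_comp, comp_assoc, sub_comp, X_comp, one_comp,
      add_sub_cancel_right, comp_X]
  rw [h, descPochhammer_succ_right, map_add, map_natCast, map_one]
  ring

lemma bp_shift (K : Type) [Field K] [CharZero K] (ν E k : ℕ) :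
    (bp K ν E (k + 1)).comp (X + 1) = bp K ν E (k + 1) + bp K ν E k := by
  have h : ((Nat.lcmUpto ν ^ E : ℕ) : K) / ((k + 1).factorial : K) * ((k : K) + 1) =
      ((Nat.lcmUpto ν ^ E : ℕ) : K) / (k.factorial : K) := by
    have h1 : (k.factorial : K) ≠ 0 := Nat.cast_ne_zero.2 k.factorial_ne_zero
    have h2 : (k : K) + 1 ≠ 0 := Nat.cast_add_one_ne_zero k
    rw [Nat.factorial_succ, Nat.cast_mul, Nat.cast_add, Nat.cast_one]
    field_simp
  rw [bp, bp, mul_comp, C_comp, plbin_desc_shift, mul_add, ← mul_assoc, ← C_mul, h]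

lemma mem_span_bp (K : Type) [Field K] [CharZero K] (ν E N : ℕ) (D : K[X]) (hD : D.degree < N) :
    ∃ γ : Fin N → K, D = ∑ k, γ k • bp K ν E k := by
  induction N generalizing D with
  | zero =>
    refine ⟨fun _ => 0, ?_⟩
    rw [Finset.univ_eq_empty, Finset.sum_empty]
    exact degree_eq_bot.1 (Nat.WithBot.lt_zero_iff.1 hD)
  | succ N ih =>
    have hl : (bp K ν E N).coeff N ≠ 0 := coeff_ne_zero_of_eq_degree (bp_degree K ν E N)
    set t := D.coeff N / (bp K ν E N).coeff N with ht
    have h1 : (D - t • bp K ν E N).degree < N := by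
      rw [degree_lt_iff_coeff_zero]
      intro m hm
      rw [coeff_sub, coeff_smul, smul_eq_mul]
      rcases eq_or_lt_of_le hm with rfl | hm
      · rw [ht, div_mul_cancel₀ _ hl, sub_self]
      · rw [coeff_eq_zero_of_degree_lt (hD.trans_le (by exact_mod_cast hm)),
          coeff_eq_zero_of_degree_lt (by rw [bp_degree]; exact_mod_cast hm), mul_zero, sub_zero]
    obtain ⟨γ, hγ⟩ := ih _ h1
    refine ⟨Fin.snoc (α := fun _ => K) γ t, ?_⟩
    rw [Fin.sum_univ_castSucc]
    simp only [Fin.snoc_castSucc, Fin.snoc_last, Fin.val_castSucc, Fin.val_last]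
    rw [← hγ, sub_add_cancel]

end Pool.Agent.Lib.MP_1f047c_nt.PL
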