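import Pool.Agent.Lib.MP_1f047c_nt.PLDefs

open Polynomial Finset

namespace Pool.Agent.Lib.MP_1f047c_nt.PL

lemma dd_apply (f : Sm) (x : ℝ) : (dd f).1 x = deriv f.1 x := rfl

lemma sh_apply (c : ℂ) (f : Sm) : sh c f = c • f + dd f := rfl

lemma dd_mul (f g : Sm) : dd (f * g) = dd f * g + f * dd g :=
  Subtype.ext <| funext fun x => deriv_mul (Sm.diff f x) (Sm.diff g x)

lemma plcalc_succ (k : ℕ) (f : Sm) : (dd ^ (k + 1)) f = (dd ^ k) (dd f) := by
  rw [pow_succ, Module.End.mul_apply]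

lemma plcalc_add (f g : Sm) (x : ℝ) : (f + g).1 x = f.1 x + g.1 x := rfl

lemma plcalc_mul (f g : Sm) (x : ℝ) : (f * g).1 x = f.1 x * g.1 x := rfl

lemma plcalc_smul (c : ℂ) (f : Sm) (x : ℝ) : (c • f).1 x = c * f.1 x := rfl

lemma plcalc_bd_dd {n : ℝ} {f : Sm} {A b : ℝ} (h : Bd n f A b) : Bd n (dd f) (A * b) b := by
  intro k x hx
  rw [← plcalc_succ]
  refine (h (k + 1) x hx).trans_eq ?_
  ring

lemma Bd.mono {n : ℝ} {f : Sm} {A A' b b' : ℝ} (h : Bd n f A b) (hA : 0 ≤ A) (hb : 0 ≤ b)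
    (h1 : A ≤ A') (h2 : b ≤ b') : Bd n f A' b' := by
  intro k x hx
  refine (h k x hx).trans ?_
  exact mul_le_mul h1 (pow_le_pow_left₀ hb h2 k) (pow_nonneg hb k) (hA.trans h1)

lemma Bd.mul {n : ℝ} {f g : Sm} {A A' b b' : ℝ} (hf : Bd n f A b) (hg : Bd n g A' b')
    (hA : 0 ≤ A) (hA' : 0 ≤ A') (hb : 0 ≤ b) (hb' : 0 ≤ b') : Bd n (f * g) (A * A') (b + b') := by
  intro k x hx
  induction k generalizing f g A A' with
  | zero =>
    have h1 := hf 0 x hx
    have h2 := hg 0 x hx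
    simp only [pow_zero, Module.End.one_apply, mul_one] at h1 h2 ⊢
    rw [plcalc_mul, norm_mul]
    exact mul_le_mul h1 h2 (norm_nonneg _) hA
  | succ k ih =>
    rw [plcalc_succ, dd_mul, map_add, plcalc_add]
    refine (norm_add_le _ _).trans ?_
    have h1 := ih (plcalc_bd_dd hf) hg (mul_nonneg hA hb) hA'
    have h2 := ih hf (plcalc_bd_dd hg) hA (mul_nonneg hA' hb')
    refine (add_le_add h1 h2).trans_eq ?_
    ring

lemma Bd.sh {n : ℝ} {f : Sm} {A b : ℝ} (hf : Bd n f A b) (c : ℂ) :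
    Bd n (sh c f) (A * (‖c‖ + b)) b := by
  intro k x hx
  rw [sh_apply, map_add, map_smul, plcalc_add, plcalc_smul]
  refine (norm_add_le _ _).trans ?_
  rw [norm_mul]
  have h1 := mul_le_mul_of_nonneg_left (hf k x hx) (norm_nonneg c)
  have h2 := plcalc_bd_dd hf k x hx
  refine (add_le_add h1 h2).trans_eq ?_
  ring

lemma dd_cj (f : Sm) : dd (cj f) = cj (dd f) := by
  refine Subtype.ext <| funext fun x => ?_
  have h := (Sm.diff f x).hasDerivAt
  exact (Complex.conjCLE.toContinuousLinearMap.hasFDerivAt.comp_hasDerivAt x h).deriv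

lemma plcalc_pow_cj (k : ℕ) (f : Sm) : (dd ^ k) (cj f) = cj ((dd ^ k) f) := by
  induction k generalizing f with
  | zero => rfl
  | succ k ih => rw [plcalc_succ, plcalc_succ, dd_cj, ih]

lemma Bd.cj {n : ℝ} {f : Sm} {A b : ℝ} (hf : Bd n f A b) : Bd n (cj f) A b := by
  intro k x hx
  rw [plcalc_pow_cj]
  exact (Complex.norm_conj _).trans_le (hf k x hx)

lemma plcalc_dd_const (c : ℂ) : dd (algebraMap ℂ Sm c) = 0 :=
  Subtype.ext <| funext fun x => deriv_const x c

lemma plcalc_dd_one : dd (1 : Sm) = 0 := by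
  simpa using plcalc_dd_const 1

lemma plcalc_dd_xS : dd xS = 1 :=
  Subtype.ext <| funext fun x => (Complex.ofRealCLM.hasDerivAt (x := x)).deriv

lemma plcalc_bd_lin {n : ℝ} (hn : 0 < n) {f : Sm} (h0 : ∀ x ∈ Set.Icc (0 : ℝ) n, ‖f.1 x‖ ≤ n)
    (h1 : ∀ x, ‖(dd f).1 x‖ ≤ 1) (h2 : dd (dd f) = 0) : Bd n f n (1 / n) := by
  intro k x hx
  match k with
  | 0 => simpa using h0 x hx
  | 1 =>
    rw [pow_one, pow_one, mul_one_div_cancel hn.ne']
    exact h1 x
  | k + 2 =>
    rw [plcalc_succ, plcalc_succ, h2, map_zero]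
    have : ((0 : Sm) : ℝ → ℂ) x = 0 := rfl
    rw [this, norm_zero]
    positivity

lemma plcalc_bd_one (n : ℝ) : Bd n 1 1 0 := by
  intro k x _
  cases k with
  | zero =>
    have : ((1 : Sm) : ℝ → ℂ) x = 1 := rfl
    simp [this]
  | succ k =>
    rw [plcalc_succ, plcalc_dd_one, map_zero]
    have : ((0 : Sm) : ℝ → ℂ) x = 0 := rfl
    rw [this, norm_zero]
    positivity

lemma plcalc_base (n x : ℝ) :
    (xS * (algebraMap ℂ Sm (n : ℂ) - xS)).1 x = ((x * (n - x) : ℝ) : ℂ) := by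
  push_cast
  rfl

lemma bd_wS {n : ℝ} (hn : 0 < n) (κ : ℕ) : Bd n (wS n κ) (n ^ (2 * κ)) (2 * κ / n) := by
  have hx : Bd n xS n (1 / n) := by
    refine plcalc_bd_lin hn (fun x hx => ?_) (fun x => ?_) ?_
    · show ‖(x : ℂ)‖ ≤ n
      rw [Complex.norm_real, Real.norm_of_nonneg hx.1]
      exact hx.2
    · rw [plcalc_dd_xS]
      exact norm_one.le
    · rw [plcalc_dd_xS, plcalc_dd_one]
  have hd : dd (algebraMap ℂ Sm (n : ℂ) - xS) = -1 := by
    rw [map_sub, plcalc_dd_const, plcalc_dd_xS, zero_sub]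
  have hy : Bd n (algebraMap ℂ Sm (n : ℂ) - xS) n (1 / n) := by
    refine plcalc_bd_lin hn (fun x hx => ?_) (fun x => ?_) ?_
    · show ‖(n : ℂ) - (x : ℂ)‖ ≤ n
      rw [← Complex.ofReal_sub, Complex.norm_real, Real.norm_of_nonneg (sub_nonneg.2 hx.2)]
      linarith [hx.1]
    · rw [hd]
      show ‖(-1 : ℂ)‖ ≤ 1
      simp
    · rw [hd, map_neg, plcalc_dd_one, neg_zero]
  have hxy := hx.mul hy hn.le hn.le (by positivity) (by positivity)
  induction κ with
  | zero => simpa [wS] using plcalc_bd_one n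
  | succ κ ih =>
    have h := ih.mul hxy (by positivity) (by positivity) (by positivity) (by positivity)
    have e1 : n ^ (2 * κ) * (n * n) = n ^ (2 * (κ + 1)) := by ring
    have e2 : 2 * (κ : ℝ) / n + (1 / n + 1 / n) = 2 * ((κ + 1 : ℕ) : ℝ) / n := by
      push_cast
      ring
    rw [e1, e2] at h
    unfold wS at h ⊢
    rw [pow_succ]
    exact h

lemma wS_apply (n : ℝ) (κ : ℕ) (x : ℝ) : (wS n κ).1 x = (((x * (n - x)) ^ κ : ℝ) : ℂ) := by
  rw [Complex.ofReal_pow, ← plcalc_base]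
  rfl

lemma plcalc_van_dd {n : ℝ} {f : Sm} {k : ℕ} (hf : Van n f k) : Van n (dd f) (k - 1) := by
  intro i hi
  rw [← plcalc_succ]
  exact hf (i + 1) (by omega)

lemma plcalc_van_mul {n : ℝ} {f g : Sm} {k l : ℕ} (hf : Van n f k) (hg : Van n g l) :
    Van n (f * g) (k + l) := by
  intro i hi
  induction i generalizing f g k l with
  | zero =>
    simp only [pow_zero, Module.End.one_apply, plcalc_mul]
    rcases Nat.eq_zero_or_pos k with h | h
    · have h1 := hg 0 (by omega)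
      simp only [pow_zero, Module.End.one_apply] at h1
      rw [h1.1, h1.2, mul_zero, mul_zero]
      exact ⟨rfl, rfl⟩
    · have h1 := hf 0 h
      simp only [pow_zero, Module.End.one_apply] at h1
      rw [h1.1, h1.2, zero_mul, zero_mul]
      exact ⟨rfl, rfl⟩
  | succ i ih =>
    have h1 := ih (plcalc_van_dd hf) hg (by omega)
    have h2 := ih hf (plcalc_van_dd hg) (by omega)
    rw [plcalc_succ, dd_mul, map_add, plcalc_add, plcalc_add, h1.1, h1.2, h2.1, h2.2, add_zero]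
    exact ⟨rfl, rfl⟩

lemma Van.mul {n : ℝ} {f : Sm} {k : ℕ} (hf : Van n f k) (g : Sm) : Van n (f * g) k :=
  plcalc_van_mul (l := 0) hf fun _ hi => absurd hi (Nat.not_lt_zero _)

lemma Van.mono {n : ℝ} {f : Sm} {k l : ℕ} (hf : Van n f k) (h : l ≤ k) : Van n f l :=
  fun i hi => hf i (hi.trans_le h)

lemma Van.sh {n : ℝ} {f : Sm} {k : ℕ} (hf : Van n f (k + 1)) (c : ℂ) : Van n (sh c f) k := by
  intro i hi
  have h1 := hf i (by omega)
  have h2 := plcalc_van_dd hf i (by omega)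
  rw [sh_apply, map_add, map_smul, plcalc_add, plcalc_add, plcalc_smul, plcalc_smul, h1.1, h1.2,
    h2.1, h2.2, mul_zero, add_zero]
  exact ⟨rfl, rfl⟩

lemma van_wS (n : ℝ) (κ : ℕ) : Van n (wS n κ) κ := by
  have h1 : Van n (xS * (algebraMap ℂ Sm (n : ℂ) - xS)) 1 := by
    intro i hi
    obtain rfl : i = 0 := by omega
    simp only [pow_zero, Module.End.one_apply, plcalc_base]
    simp
  induction κ with
  | zero => exact fun _ hi => absurd hi (Nat.not_lt_zero _)
  | succ κ ih =>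
    unfold wS at ih ⊢
    rw [pow_succ]
    exact plcalc_van_mul ih h1

/-- Integration by parts. -/
lemma ibp {n : ℝ} {f : Sm} (hf : Van n f 1) (c : ℂ) (g : Sm) :
    ∫ x in (0 : ℝ)..n, (sh c f * g).1 x = ∫ x in (0 : ℝ)..n, (f * (c • g - dd g)).1 x := by
  have e : sh c f * g = f * (c • g - dd g) + dd (f * g) := by
    rw [sh_apply, dd_mul, add_mul, mul_sub, smul_mul_assoc, mul_smul_comm]
    abel
  have h0 := hf 0 Nat.one_pos
  simp only [pow_zero, Module.End.one_apply] at h0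
  have h1 : ∫ x in (0 : ℝ)..n, (dd (f * g)).1 x = 0 := by
    have := intervalIntegral.integral_deriv_eq_sub (f := (f * g).1) (a := 0) (b := n)
      (fun x _ => Sm.diff (f * g) x) ((Sm.cont (dd (f * g))).intervalIntegrable _ _)
    rw [plcalc_mul, plcalc_mul, h0.1, h0.2, zero_mul, zero_mul, sub_zero] at this
    exact this
  rw [e]
  simp only [plcalc_add]
  rw [intervalIntegral.integral_add ((Sm.cont _).intervalIntegrable _ _)
    ((Sm.cont _).intervalIntegrable _ _), h1, add_zero]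

end Pool.Agent.Lib.MP_1f047c_nt.PL
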