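import Pool.Agent.Lib.MP_1f047c_nt.PLCalc

open Polynomial Finset

namespace Pool.Agent.Lib.MP_1f047c_nt.PL

lemma polyS_apply (P : ℂ[X]) (x : ℝ) : (polyS P).1 x = P.eval (x : ℂ) := by
  induction P using Polynomial.induction_on' with
  | add p q hp hq =>
    rw [map_add, eval_add, ← hp, ← hq]
    rfl
  | monomial n a =>
    rw [polyS, aeval_monomial, eval_monomial]
    rfl

lemma dd_polyS (P : ℂ[X]) : dd (polyS P) = polyS (derivative P) := by
  refine Subtype.ext (funext fun x => ?_)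
  rw [dd_apply, polyS_apply, funext (polyS_apply P)]
  exact (P.hasDerivAt (x : ℂ)).comp_ofReal.deriv

lemma dd_expS (z : ℂ) : dd (expS z) = z • expS z := by
  refine Subtype.ext (funext fun x => ?_)
  rw [dd_apply]
  have h : HasDerivAt (fun w : ℂ => Complex.exp (z * w)) (Complex.exp (z * x) * (z * 1)) x :=
    ((hasDerivAt_id (x : ℂ)).const_mul z).cexp
  have h2 := h.comp_ofReal.deriv
  rw [mul_one, mul_comm] at h2
  exact h2

lemma fn_apply {ν : ℕ} (z : ℂ) (D : TS ν) : fn z D = polyS D.1.1 + D.2 • expS z := by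
  rfl

lemma dd_fn {ν : ℕ} (z : ℂ) (D : TS ν) : dd (fn z D) = fn z (dT z D) := by
  rw [fn_apply, fn_apply, map_add, map_smul, dd_polyS, dd_expS, smul_smul, mul_comm]
  rfl

lemma sh_pow_polyS (c : ℂ) (P : ℂ[X]) (i a : ℕ) :
    ((sh c ^ i) (polyS P)).1 (a : ℕ) = row c P a i := by
  have h : ∀ i : ℕ, ∀ P : ℂ[X], (sh c ^ i) (polyS P) = polyS ((op c ^ i) P) := by
    intro i
    induction i with
    | zero => intro P; rfl
    | succ i ih =>
      intro P
      rw [pow_succ, pow_succ, Module.End.mul_apply, Module.End.mul_apply, ← ih, sh_apply, dd_polyS,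
        ← map_smul, ← map_add]
      rfl
  rw [h, polyS_apply, row, Complex.ofReal_natCast]

lemma sh_pow_expS (c z : ℂ) (i : ℕ) (x : ℝ) :
    ((sh c ^ i) (expS z)).1 x = (c + z) ^ i * Complex.exp (z * x) := by
  have h : (sh c ^ i) (expS z) = (c + z) ^ i • expS z := by
    induction i with
    | zero => simp
    | succ i ih =>
      rw [pow_succ', Module.End.mul_apply, ih, map_smul, sh_apply, dd_expS, ← add_smul, smul_smul,
        pow_succ]
  rw [h]
  rfl

/-- The test space is killed by `d ^ ν (z - d)`. -/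
lemma dT_kill {ν : ℕ} (z : ℂ) :
    ((0 : ℂ) • (1 : Module.End ℂ (TS ν)) - dT z) ^ ν * (z • 1 - dT z) = 0 := by
  have h : ∀ (k : ℕ) (D : TS ν), D.2 = 0 → ((dT z ^ k) D).2 = 0 ∧
      ((dT z ^ k) D).1.1 = derivative^[k] D.1.1 := by
    intro k
    induction k with
    | zero => exact fun D h => ⟨h, rfl⟩
    | succ k ih =>
      intro D h
      rw [pow_succ, Module.End.mul_apply, Function.iterate_succ_apply]
      refine ih (dT z D) ?_
      change z • D.2 = 0
      rw [h, smul_zero]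
  have e : (0 : ℂ) • (1 : Module.End ℂ (TS ν)) - dT z = (-1 : ℂ) • dT z :=
    LinearMap.ext fun D => by simp
  rw [e, _root_.smul_pow, smul_mul_assoc]
  refine smul_eq_zero_of_right _ (LinearMap.ext fun D => ?_)
  rw [Module.End.mul_apply]
  obtain ⟨h1, h2⟩ := h ν ((z • 1 - dT z) D) (by
    change z • D.2 - z • D.2 = 0
    rw [sub_self])
  refine Prod.ext (Subtype.ext (h2.trans ?_)) h1
  generalize ((z • 1 - dT z : Module.End ℂ (TS ν)) D).1 = Q
  by_cases hQ : Q.1 = 0
  · rw [hQ]
    simp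
  · exact iterate_derivative_eq_zero ((natDegree_lt_iff_degree_lt hQ).2 (mem_degreeLT.1 Q.2))

/-- Leibniz rule in the form used for the sampling identity. -/
lemma leib {ι : Type} [Fintype ι] (c y : ι → ℂ) (D : ι → Sm) (x : ℝ) (E : ℕ)
    (h : ∀ i ≤ E, ∑ e, ((sh (c e) ^ i) (D e)).1 x * y e = 0) (φ : Sm) :
    ∀ k ≤ E, ∑ e, ((sh (c e) ^ k) (φ * D e)).1 x * y e = 0 := by
  have hs : ∀ (c : ℂ) (φ g : Sm), sh c (φ * g) = dd φ * g + φ * sh c g := by
    intro c φ g
    rw [sh_apply, sh_apply, dd_mul, mul_add, mul_smul_comm]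
    ring
  have key : ∀ (k : ℕ) (φ : Sm) (i : ℕ), i + k ≤ E →
      ∑ e, ((sh (c e) ^ k) (φ * (sh (c e) ^ i) (D e))).1 x * y e = 0 := by
    intro k
    induction k with
    | zero =>
      intro φ i hi
      have h2 : ∀ e, ((sh (c e) ^ 0) (φ * (sh (c e) ^ i) (D e))).1 x * y e =
          φ.1 x * (((sh (c e) ^ i) (D e)).1 x * y e) := fun e => by
        rw [← mul_assoc]
        rfl
      simp only [h2]
      rw [← Finset.mul_sum, h i (by omega), mul_zero]
    | succ k ih =>
      intro φ i hi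
      have h2 : ∀ e, ((sh (c e) ^ (k + 1)) (φ * (sh (c e) ^ i) (D e))).1 x * y e =
          ((sh (c e) ^ k) (dd φ * (sh (c e) ^ i) (D e))).1 x * y e +
          ((sh (c e) ^ k) (φ * (sh (c e) ^ (i + 1)) (D e))).1 x * y e := fun e => by
        rw [pow_succ, Module.End.mul_apply, hs, map_add, pow_succ' (sh (c e)) i,
          Module.End.mul_apply, ← add_mul]
        rfl
      simp only [h2]
      rw [Finset.sum_add_distrib, ih _ i (by omega), ih _ (i + 1) (by omega), add_zero]
  intro k hk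
  exact key k φ 0 (by omega)

end Pool.Agent.Lib.MP_1f047c_nt.PL
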