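import Mathlib

/-! Definitions for the theorem on products of two logarithms. -/

open Polynomial Finset

namespace Pool.Agent.Lib.MP_1f047c_nt.PL

noncomputable section

/-- Smooth complex functions on the real line. -/
def Sm : Subalgebra ℂ (ℝ → ℂ) where
  carrier := {f | ContDiff ℝ (⊤ : ℕ∞) f}
  mul_mem' := fun {f g} hf hg =>
    ContDiff.mul (show ContDiff ℝ (⊤ : ℕ∞) f from hf) (show ContDiff ℝ (⊤ : ℕ∞) g from hg)
  add_mem' := fun {f g} hf hg =>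
    ContDiff.add (show ContDiff ℝ (⊤ : ℕ∞) f from hf) (show ContDiff ℝ (⊤ : ℕ∞) g from hg)
  algebraMap_mem' := fun c => show ContDiff ℝ (⊤ : ℕ∞) (fun _ : ℝ => c) from contDiff_const

lemma Sm.smooth (f : Sm) : ContDiff ℝ (⊤ : ℕ∞) f.1 := f.2

lemma mem_Sm {f : ℝ → ℂ} (h : ContDiff ℝ (⊤ : ℕ∞) f) : f ∈ Sm := h

lemma Sm.diff (f : Sm) : Differentiable ℝ f.1 := (contDiff_infty_iff_deriv.1 (Sm.smooth f)).1

lemma Sm.cont (f : Sm) : Continuous f.1 := (Sm.smooth f).continuous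

/-- The derivative. -/
def dd : Module.End ℂ Sm where
  toFun f := ⟨deriv f.1, mem_Sm (contDiff_infty_iff_deriv.1 (Sm.smooth f)).2⟩
  map_add' f g := Subtype.ext <| funext fun x => deriv_add (Sm.diff f x) (Sm.diff g x)
  map_smul' c f := Subtype.ext <| funext fun x => deriv_const_smul c (Sm.diff f x)

/-- The operator `c + d/dx`. -/
def sh (c : ℂ) : Module.End ℂ Sm := c • 1 + dd

/-- All derivatives are geometrically bounded on `[0, n]`. -/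
def Bd (n : ℝ) (f : Sm) (A b : ℝ) : Prop :=
  ∀ k : ℕ, ∀ x ∈ Set.Icc (0 : ℝ) n, ‖((dd ^ k) f).1 x‖ ≤ A * b ^ k

/-- Vanishing to order `k` at `0` and at `n`. -/
def Van (n : ℝ) (f : Sm) (k : ℕ) : Prop :=
  ∀ i < k, ((dd ^ i) f).1 0 = 0 ∧ ((dd ^ i) f).1 n = 0

/-- Bound for the derivatives at the origin. -/
def Fl (f : Sm) (A : ℝ) : Prop := ∀ k : ℕ, ‖((dd ^ k) f).1 0‖ ≤ A * 2 ^ k

def xS : Sm := ⟨fun x => (x : ℂ), mem_Sm Complex.ofRealCLM.contDiff⟩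

def polyS : ℂ[X] →ₐ[ℂ] Sm := aeval xS

def expS (z : ℂ) : Sm :=
  ⟨fun x => Complex.exp (z * x), mem_Sm (contDiff_const.mul Complex.ofRealCLM.contDiff).cexp⟩

def cj (f : Sm) : Sm :=
  ⟨fun x => starRingEnd ℂ (f.1 x), mem_Sm (Complex.conjCLE.contDiff.comp (Sm.smooth f))⟩

/-- The weight `(x (n - x)) ^ κ`. -/
def wS (n : ℝ) (κ : ℕ) : Sm := (xS * (algebraMap ℂ Sm (n : ℂ) - xS)) ^ κ

/-- Test space: a polynomial of degree `< ν` and the coefficient of one exponential. -/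
abbrev TS (ν : ℕ) : Type := degreeLT ℂ ν × ℂ

instance (ν : ℕ) : Module.Finite ℂ (degreeLT ℂ ν) := Module.Finite.equiv (degreeLTEquiv ℂ ν).symm

/-- The function `P(x) + γ exp (z x)`. -/
def fn {ν : ℕ} (z : ℂ) : TS ν →ₗ[ℂ] Sm :=
  polyS.toLinearMap ∘ₗ (degreeLT ℂ ν).subtype ∘ₗ LinearMap.fst ℂ _ ℂ +
    (LinearMap.snd ℂ _ ℂ).smulRight (expS z)

/-- The derivative on the test space. -/
def dT {ν : ℕ} (z : ℂ) : Module.End ℂ (TS ν) :=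
  LinearMap.prodMap
    (derivative.restrict fun _ hp => mem_degreeLT.2 (degree_derivative_le.trans_lt (mem_degreeLT.1 hp)))
    (z • LinearMap.id)

/-- Weighted `L²` norm on `[0, n]`. -/
def nq (n : ℝ) (κ : ℕ) (f : Sm) : ℝ :=
  √(∫ x in (0 : ℝ)..n, (x * (n - x)) ^ κ * ‖f.1 x‖ ^ 2)

/-- The functional `l` has norm at most `A`. -/
def Rho {ν : ℕ} (n : ℝ) (κ : ℕ) (z : ℂ) (l : TS ν →ₗ[ℂ] ℂ) (A : ℝ) : Prop :=
  ∀ D, ‖l D‖ ≤ A * nq n κ (fn z D)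

def wm (m : ℤ) : ℂ := 2 * Real.pi * Complex.I * m

/-- Fourier coefficient on `[0, n]`. -/
def fc (n : ℝ) (m : ℤ) (f : Sm) : ℂ := ∫ x in (0 : ℝ)..n, (f * expS (-wm m)).1 x

/-- Window of frequencies and interpolation nodes. -/
abbrev Ix (R E : ℕ) : Type := (Finset.Icc (-(R : ℤ)) R) ⊕ Fin (E + 1)

def pos {R E : ℕ} : Ix R E → ℂ := Sum.elim (fun m => wm m.1) fun k => ((k : ℕ) : ℂ)

def org (R E : ℕ) : Ix R E := Sum.inl ⟨0, by simp⟩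

def inW {R E : ℕ} (i : Ix R E) : Prop := i.isLeft = true

def okS {R E : ℕ} (j : ℕ) (S : Finset (Ix R E)) : Prop :=
  S.card ≤ j ∧ ∀ i ∈ S, inW i ∧ i ≠ org R E

/-- A family of functionals placed at the points `p i` which reproduces a sampling sum. -/
def Adm {ν : ℕ} {ι : Type} [Fintype ι] (n E : ℕ) (z : ℂ) (p : ι → ℂ) (f : ι → TS ν →ₗ[ℂ] ℂ) :
    Prop :=
  ∃ φ : Sm, ∀ c : ℂ, ∀ k ≤ E, ∀ D : TS ν,
    ∑ i, (c + p i) ^ k * f i D = ∑ a ∈ range (n + 1), ((sh c ^ k) (φ * fn z D)).1 (a : ℕ)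

/-- The algebraic input on the curve. -/
def CurveOK {A ι₁ ι₂ : Type} [AddCommGroup A] [Module ℂ A] (o₁ : ι₁) (o₂ : ι₂)
    (in₁ : ι₁ → Prop) (in₂ : ι₂ → Prop) (ok : Finset ι₂ → Prop) (𝒢 : Set (ι₁ → ι₂ → A))
    (one : A) : Prop :=
  ∃ (pm pt pb : A →ₗ[ℂ] A) (M : Set A) (Yt : Set (ι₁ → A)) (Yb : Set (ι₂ → A)),
    M.Finite ∧ Yt.Finite ∧ Yb.Finite ∧ (∀ g, pm g + pt g + pb g = g) ∧
    (∀ g, pm g ∈ Submodule.span ℂ M) ∧ one ∈ Submodule.span ℂ M ∧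
    (∀ g ∈ M, ∃ (s : ℕ) (G : Fin s → ι₁ → ι₂ → A) (S : Fin s → Finset ι₂),
      (∀ e, G e ∈ 𝒢) ∧ (∀ e, ok (S e)) ∧ ∑ e, G e o₁ o₂ = g ∧
      (∀ e i j, in₁ i → in₂ j → ¬ (i = o₁ ∧ j = o₂) → j ∉ S e → G e i j = 0) ∧
      (∀ e i j, in₂ j → pt (G e i j) = 0) ∧ (∀ e i j, in₁ i → pb (G e i j) = 0) ∧
      (∀ e j, (fun i => pt (G e i j)) ∈ Submodule.span ℂ Yt) ∧
      (∀ e i, (fun j => pb (G e i j)) ∈ Submodule.span ℂ Yb)) ∧
    (∀ y ∈ Yt, ∃ G ∈ 𝒢, (∀ i, pt (G i o₂) = y i) ∧ (∀ i j, in₂ j → j ≠ o₂ → pt (G i j) = 0) ∧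
      (∀ j, (fun i => pt (G i j)) ∈ Submodule.span ℂ Yt) ∧ ∀ i j, pb (G i j) = 0) ∧
    (∀ y ∈ Yb, ∃ G ∈ 𝒢, (∀ j, pb (G o₁ j) = y j) ∧ (∀ i j, in₁ i → i ≠ o₁ → pb (G i j) = 0) ∧
      (∀ i, (fun j => pb (G i j)) ∈ Submodule.span ℂ Yb) ∧ ∀ i j, pt (G i j) = 0)

/-- Translates of polynomials of bidegree at most `(E, E)` in `x, y`. -/
def gen {A ι₁ ι₂ : Type} [CommRing A] [Algebra ℂ A] (x y : A) (E : ℕ) (p₁ : ι₁ → ℂ)
    (p₂ : ι₂ → ℂ) : Submodule ℂ (ι₁ → ι₂ → A) :=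
  Submodule.span ℂ {G | ∃ k ≤ E, ∃ l ≤ E,
    G = fun i j => (x + algebraMap ℂ A (p₁ i)) ^ k * (y + algebraMap ℂ A (p₂ j)) ^ l}

/-- The operator `c + d/dX` on polynomials. -/
def op {R : Type} [CommRing R] (c : R) : Module.End R R[X] := c • 1 + derivative

/-- The value at `a` of `(c + d/dX) ^ i D`. -/
def row {R : Type} [CommRing R] (c : R) (D : R[X]) (a i : ℕ) : R := ((op c ^ i) D).eval (a : R)

/-- The zero estimate, for points `C e` of a curve and the point `(u, v; α, β)`. -/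
def ZK {K ι : Type} [Field K] (C : ι → K × K) (u v α β : K) (ν₁ ν₂ E n₁ n₂ : ℕ) : Prop :=
  ∀ (t : ℕ) (pt : Fin t → ι) (D D' : Fin t → K[X]), (∀ e, (D e).degree < ν₁) →
    (∀ e, (D' e).degree < ν₂) → ¬ ∀ a ≤ n₁, ∀ b ≤ n₂, ∀ i ≤ E, ∀ j ≤ E,
      ∑ e, row (C (pt e)).1 (D e) a i * row (C (pt e)).2 (D' e) b j =
        u ^ i * α ^ a * (v ^ j * β ^ b)

/-- A multiple of the binomial polynomial with integral derivatives at the integers. -/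
def bp (K : Type) [Field K] (ν E k : ℕ) : K[X] :=
  C (((Nat.lcmUpto ν ^ E : ℕ) : K) / (k.factorial : K)) * descPochhammer K k

/-- Truncation of `exp (-l X)`. -/
def texp {𝕜 : Type} [Field 𝕜] (l : 𝕜) (τ : ℕ) : 𝕜[X] :=
  ∑ s ∈ range τ, C ((-l) ^ s / (s.factorial : 𝕜)) * X ^ s

end

end Pool.Agent.Lib.MP_1f047c_nt.PL
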