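import Pool.Agent.Lib.MP_1f047c_nt.PLCalc2

open Polynomial Finset

namespace Pool.Agent.Lib.MP_1f047c_nt.PL

private lemma plgrow_pow {ν : ℕ} (z : ℂ) (D : TS ν) (k : ℕ) :
    (dd ^ k) (fn z D) = polyS (derivative^[k] D.1.1) + (D.2 * z ^ k) • expS z := by
  induction k with
  | zero => simpa using fn_apply z D
  | succ k ih =>
    rw [pow_succ', Module.End.mul_apply, ih, map_add, map_smul, dd_polyS, dd_expS, smul_smul,
      Function.iterate_succ_apply', pow_succ, mul_assoc]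

private lemma plgrow_coef {ν : ℕ} (z : ℂ) (D : TS ν) (k : ℕ) :
    ((dd ^ k) (fn z D)).1 0 = (k.factorial : ℂ) * D.1.1.coeff k + D.2 * z ^ k := by
  rw [plgrow_pow]
  change (polyS (derivative^[k] D.1.1)).1 0 + (D.2 * z ^ k) • Complex.exp (z * ((0 : ℝ) : ℂ)) = _
  rw [polyS_apply, Complex.ofReal_zero, ← coeff_zero_eq_eval_zero, coeff_iterate_derivative,
    zero_add, Nat.descFactorial_self]
  simp

private lemma plgrow_big {ν : ℕ} (z : ℂ) (D : TS ν) {k : ℕ} (hk : ν ≤ k) :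
    ((dd ^ k) (fn z D)).1 0 = D.2 * z ^ k := by
  rw [plgrow_coef, coeff_eq_zero_of_degree_lt
    ((mem_degreeLT.1 D.1.2).trans_le (by exact_mod_cast hk)), mul_zero, zero_add]

private lemma plgrow_dT {ν : ℕ} (z : ℂ) (D : TS ν) (k : ℕ) :
    (dd ^ k) (fn z D) = fn z ((dT z ^ k) D) := by
  induction k with
  | zero => simp
  | succ k ih => rw [pow_succ', pow_succ', Module.End.mul_apply, Module.End.mul_apply, ih, dd_fn]

private lemma plgrow_taylor {ν : ℕ} (z : ℂ) (D : TS ν) (x : ℝ) :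
    HasSum (fun k : ℕ => ((dd ^ k) (fn z D)).1 0 * ((x : ℂ) ^ k / k.factorial))
      ((fn z D).1 x) := by
  have h1 : HasSum (fun k : ℕ => D.1.1.coeff k * (x : ℂ) ^ k) (D.1.1.eval (x : ℂ)) := by
    rw [eval_eq_sum_range]
    refine hasSum_sum_of_ne_finset_zero fun k hk => ?_
    rw [coeff_eq_zero_of_natDegree_lt (by simpa using hk), zero_mul]
  have h2 : HasSum (fun k : ℕ => (z * x) ^ k / k.factorial) (Complex.exp (z * x)) := by
    rw [Complex.exp_eq_exp_ℂ]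
    exact NormedSpace.expSeries_div_hasSum_exp _
  have h3 := h1.add (h2.mul_left D.2)
  have e : (fn z D).1 x = D.1.1.eval (x : ℂ) + D.2 * Complex.exp (z * x) := by
    rw [fn_apply, ← polyS_apply]
    rfl
  rw [e]
  convert h3 using 2 with k
  have hk : (k.factorial : ℂ) ≠ 0 := by exact_mod_cast k.factorial_ne_zero
  rw [plgrow_coef, mul_pow]
  field_simp

private lemma plgrow_val {ν : ℕ} {z : ℂ} {D : TS ν} {A : ℝ} (h : Fl (fn z D) A) {x : ℝ}
    (hx : 0 ≤ x) : ‖(fn z D).1 x‖ ≤ A * Real.exp (2 * x) := by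
  have h2 : HasSum (fun k : ℕ => (2 * x) ^ k / k.factorial) (Real.exp (2 * x)) := by
    rw [Real.exp_eq_exp_ℝ]
    exact NormedSpace.expSeries_div_hasSum_exp _
  refine (plgrow_taylor z D x).norm_le_of_bounded (h2.mul_left A) fun k => ?_
  rw [norm_mul, norm_div, norm_pow, Complex.norm_real, Real.norm_of_nonneg hx,
    Complex.norm_natCast]
  refine (mul_le_mul_of_nonneg_right (h k) (by positivity)).trans (le_of_eq ?_)
  rw [mul_pow]
  ring

private lemma plgrow_nonneg {f : Sm} {A : ℝ} (h : Fl f A) : 0 ≤ A := by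
  simpa using (norm_nonneg _).trans (h 0)

private lemma plgrow_op {ν : ℕ} (z : ℂ) (D : TS ν) (a : ℂ) (k : ℕ) :
    ((dd ^ k) (fn z ((a • 1 - dT z : Module.End ℂ (TS ν)) D))).1 0 =
      a * ((dd ^ k) (fn z D)).1 0 - ((dd ^ (k + 1)) (fn z D)).1 0 := by
  rw [LinearMap.sub_apply, LinearMap.smul_apply, Module.End.one_apply, map_sub, map_smul,
    ← dd_fn, map_sub, map_smul, pow_succ, Module.End.mul_apply]
  rfl

lemma bd_of_fl {n : ℝ} {ν : ℕ} {z : ℂ} {D : TS ν} {A : ℝ}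
    (h : Fl (fn z D) A) : Bd n (fn z D) (A * Real.exp (2 * n)) 2 := by
  intro k x hx
  have hA := plgrow_nonneg h
  have h1 : Fl (fn z ((dT z ^ k) D)) (A * 2 ^ k) := by
    intro j
    rw [← plgrow_dT, ← Module.End.mul_apply, ← pow_add]
    refine (h (j + k)).trans (le_of_eq ?_)
    ring
  rw [plgrow_dT]
  refine (plgrow_val h1 hx.1).trans ?_
  have h2 : Real.exp (2 * x) ≤ Real.exp (2 * n) := Real.exp_le_exp.2 (by linarith [hx.2])
  calc A * 2 ^ k * Real.exp (2 * x) ≤ A * 2 ^ k * Real.exp (2 * n) := by gcongr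
    _ = _ := by ring

lemma nq_le {n : ℝ} (hn : 0 ≤ n) (κ : ℕ) {f : Sm} {A b : ℝ} (hA : 0 ≤ A) (h : Bd n f A b) :
    nq n κ f ≤ √n * n ^ κ * A := by
  unfold nq
  refine Real.sqrt_le_iff.2 ⟨by positivity, ?_⟩
  have h1 := intervalIntegral.norm_integral_le_of_norm_le_const (a := 0) (b := n)
    (C := (n * n) ^ κ * A ^ 2) (f := fun x => (x * (n - x)) ^ κ * ‖f.1 x‖ ^ 2) (by
      intro x hx
      rw [Set.uIoc_of_le hn] at hx
      have h0 : 0 ≤ n - x := sub_nonneg.2 hx.2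
      have h2 := hx.1.le
      have h3 : ‖f.1 x‖ ≤ A := by simpa using h 0 x ⟨h2, hx.2⟩
      rw [Real.norm_of_nonneg (by positivity)]
      have h4 : x * (n - x) ≤ n * n := by nlinarith [hx.2]
      gcongr)
  rw [sub_zero, abs_of_nonneg hn] at h1
  refine ((le_abs_self _).trans h1).trans (le_of_eq ?_)
  rw [mul_pow, mul_pow, mul_pow, Real.sq_sqrt hn]
  ring

lemma fl_op {ν : ℕ} {z : ℂ} {D : TS ν} {A : ℝ} (a : ℂ) (h : Fl (fn z D) A) :
    Fl (fn z ((a • 1 - dT z : Module.End ℂ (TS ν)) D)) (A * (‖a‖ + 2)) := by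
  intro k
  rw [plgrow_op]
  refine (norm_sub_le _ _).trans ?_
  rw [norm_mul]
  have h1 := mul_le_mul_of_nonneg_left (h k) (norm_nonneg a)
  have h2 := h (k + 1)
  rw [pow_succ (2 : ℝ)] at h2
  linarith

lemma fl_inv {ν : ℕ} {z a : ℂ} (hz : ‖z‖ ≤ 1) (ha : 3 ≤ ‖a‖) {D : TS ν} {A : ℝ}
    (h : Fl (fn z ((a • 1 - dT z : Module.End ℂ (TS ν)) D)) A) : Fl (fn z D) A := by
  have hA := plgrow_nonneg h
  have big : ∀ k, ν ≤ k → ‖((dd ^ k) (fn z D)).1 0‖ ≤ A * 2 ^ k := by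
    intro k hk
    have h1 := h k
    rw [plgrow_op, plgrow_big z D (Nat.le_succ_of_le hk), pow_succ z, ← mul_assoc,
      ← plgrow_big z D hk, mul_comm a, ← mul_sub, norm_mul] at h1
    have h2 : 1 ≤ ‖a - z‖ := by linarith [norm_sub_norm_le a z]
    exact (le_mul_of_one_le_right (norm_nonneg _) h2).trans h1
  have step : ∀ k, ‖((dd ^ (k + 1)) (fn z D)).1 0‖ ≤ A * 2 ^ (k + 1) →
      ‖((dd ^ k) (fn z D)).1 0‖ ≤ A * 2 ^ k := by
    intro k hk
    have h1 := h k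
    rw [plgrow_op] at h1
    have h2 := norm_sub_norm_le (a * ((dd ^ k) (fn z D)).1 0) (((dd ^ (k + 1)) (fn z D)).1 0)
    rw [norm_mul] at h2
    rw [pow_succ (2 : ℝ)] at hk
    have h3 := mul_le_mul_of_nonneg_right ha (norm_nonneg (((dd ^ k) (fn z D)).1 0))
    linarith
  intro k
  rcases le_total ν k with hk | hk
  · exact big k hk
  · exact Nat.decreasingInduction (fun j _ hj => step j hj) (big ν le_rfl) hk

lemma fl_zero {ν : ℕ} {z : ℂ} (hz : z ≠ 0) {D : TS ν} (h : Fl (fn z D) 0) : D = 0 := by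
  have h0 : ∀ k, ((dd ^ k) (fn z D)).1 0 = 0 := fun k => by simpa using h k
  have h1 : D.2 = 0 := by
    have h2 := h0 ν
    rw [plgrow_big z D le_rfl] at h2
    exact (mul_eq_zero.1 h2).resolve_right (pow_ne_zero _ hz)
  refine Prod.ext (Subtype.ext (Polynomial.ext fun k => ?_)) h1
  have h2 := h0 k
  have hk : (k.factorial : ℂ) ≠ 0 := by exact_mod_cast k.factorial_ne_zero
  rw [plgrow_coef, h1, zero_mul, add_zero] at h2
  exact (mul_eq_zero.1 h2).resolve_left hk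

lemma fl_snd {ν : ℕ} {z : ℂ} (hz : z ≠ 0) {D : TS ν} {A : ℝ} (h : Fl (fn z D) A) :
    ‖D.2‖ ≤ (2 / ‖z‖) ^ ν * A := by
  have h1 := h ν
  rw [plgrow_big z D le_rfl, norm_mul, norm_pow] at h1
  have h2 : 0 < ‖z‖ ^ ν := pow_pos (norm_pos_iff.2 hz) ν
  rw [div_pow, div_mul_eq_mul_div, le_div_iff₀ h2, mul_comm ((2 : ℝ) ^ ν)]
  exact h1

end Pool.Agent.Lib.MP_1f047c_nt.PL
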