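import Pool.Agent.Lib.MP_1f047c_nt.PLCalc2

open Polynomial Finset

namespace Pool.Agent.Lib.MP_1f047c_nt.PL

lemma plgrow2_nodes {F : ℝ → ℝ} (hF : Continuous F) (a : ℝ) {η : ℝ} (hη : 0 < η) (m : ℕ)
    (h0 : ∀ x ∈ Set.Icc a (a + m * η), 0 ≤ F x) :
    ∃ x₀ ∈ Set.Icc a (a + η), ∀ j < m, η * F (x₀ + j * η) ≤ ∫ x in a..(a + m * η), F x := by
  have hc : Continuous fun x => ∑ j ∈ range m, F (x + j * η) := by fun_prop
  have hab : a ≤ a + η := le_add_of_nonneg_right hη.le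
  obtain ⟨x₀, hx, hmin⟩ := isCompact_Icc.exists_isMinOn (Set.nonempty_Icc.2 hab) hc.continuousOn
  refine ⟨x₀, hx, fun j hj => ?_⟩
  have h1 : ∫ x in a..(a + η), ∑ j ∈ range m, F (x + j * η) = ∫ x in a..(a + m * η), F x := by
    rw [intervalIntegral.integral_finsetSum
      (fun (j : ℕ) _ => (by fun_prop : Continuous fun x => F (x + j * η)).intervalIntegrable _ _)]
    have := intervalIntegral.sum_integral_adjacent_intervals (f := F) (μ := MeasureTheory.volume)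
      (a := fun k => a + k * η) (n := m) (fun k _ => hF.intervalIntegrable _ _)
    simp only [Nat.cast_zero, zero_mul, add_zero] at this
    rw [← this]
    refine sum_congr rfl fun j _ => ?_
    rw [intervalIntegral.integral_comp_add_right]
    congr 1
    push_cast
    ring
  have h2 : η * ∑ j ∈ range m, F (x₀ + j * η) ≤
      ∫ x in a..(a + η), ∑ j ∈ range m, F (x + j * η) := by
    have := intervalIntegral.integral_mono_on (μ := MeasureTheory.volume) hab
      intervalIntegrable_const (hc.intervalIntegrable _ _) (fun x hx => hmin hx)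
    rwa [intervalIntegral.integral_const, add_sub_cancel_left, smul_eq_mul] at this
  refine le_trans (mul_le_mul_of_nonneg_left ?_ hη.le) (h2.trans_eq h1)
  refine single_le_sum (f := fun j : ℕ => F (x₀ + j * η)) (fun i hi => h0 _ ⟨?_, ?_⟩)
    (mem_range.2 hj)
  · have : 0 ≤ (i : ℝ) * η := by positivity
    linarith [hx.1]
  · have : (i : ℝ) + 1 ≤ m := by exact_mod_cast mem_range.1 hi
    nlinarith [hx.2]

lemma plgrow2_diff {P : ℂ[X]} {ν : ℕ} (hP : P.natDegree < ν) (x₀ η : ℂ) :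
    ∑ j ∈ range (ν + 1), ((-1) ^ (ν - j) * (ν.choose j : ℂ)) * P.eval (x₀ + j * η) = 0 := by
  have h1 : (P.comp (C η * X + C x₀)).natDegree < ν :=
    natDegree_comp_le.trans_lt (lt_of_le_of_lt (mul_le_of_le_one_right' natDegree_linear_le) hP)
  have h2 := congrFun (Polynomial.fwdDiff_iter_eq_zero_of_degree_lt h1) 0
  rw [fwdDiff_iter_eq_sum_shift, Pi.zero_apply] at h2
  rw [← h2]
  refine sum_congr rfl fun j _ => ?_
  simp only [eval_comp, eval_add, eval_mul, eval_C, eval_X, zsmul_eq_mul, nsmul_eq_mul, mul_one,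
    zero_add]
  push_cast
  rw [add_comm x₀, mul_comm η]

lemma plgrow2_gam {P : ℂ[X]} {ν : ℕ} (hP : P.natDegree < ν) (γ : ℂ) {z : ℂ} (hz : ‖z‖ ≤ 1)
    {x₀ η M N : ℝ} (hx0 : 0 ≤ x₀) (hxN : x₀ ≤ N) (hη : 0 < η) (hη2 : η ≤ 1 / 2)
    (h : ∀ j < ν + 1, ‖P.eval ((x₀ + j * η : ℝ) : ℂ) +
      γ * Complex.exp (z * ((x₀ + j * η : ℝ) : ℂ))‖ ≤ M) :
    ‖γ‖ * ‖z‖ ^ ν ≤ M * Real.exp N * (4 / η) ^ ν := by
  have hM : 0 ≤ M := (norm_nonneg _).trans (h 0 (Nat.succ_pos _))
  have e1 : ∑ j ∈ range (ν + 1), ((-1) ^ (ν - j) * (ν.choose j : ℂ)) *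
      (P.eval ((x₀ + j * η : ℝ) : ℂ) + γ * Complex.exp (z * ((x₀ + j * η : ℝ) : ℂ))) =
      γ * Complex.exp (z * x₀) * (Complex.exp (z * η) - 1) ^ ν := by
    have := plgrow2_diff hP x₀ η
    push_cast
    rw [sum_congr rfl fun j _ => mul_add _ _ _, sum_add_distrib, this, zero_add,
      sub_eq_add_neg, add_pow, mul_sum]
    refine sum_congr rfl fun j _ => ?_
    rw [mul_add, Complex.exp_add, ← Complex.exp_nat_mul,
      show z * ((j : ℂ) * η) = j * (z * η) by ring]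
    ring
  have e2 : ‖γ * Complex.exp (z * x₀) * (Complex.exp (z * η) - 1) ^ ν‖ ≤ 2 ^ ν * M := by
    rw [← e1]
    refine (norm_sum_le_of_le _ (n := fun j => (ν.choose j : ℝ) * M) fun j hj => ?_).trans_eq ?_
    · rw [norm_mul, norm_mul, norm_pow, norm_neg, norm_one, one_pow, one_mul, Complex.norm_natCast]
      exact mul_le_mul_of_nonneg_left (h j (mem_range.1 hj)) (Nat.cast_nonneg _)
    · rw [← sum_mul, ← Nat.cast_sum, Nat.sum_range_choose]
      push_cast
      rfl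
  have e3 : 1 ≤ ‖Complex.exp (z * x₀)‖ * Real.exp N := by
    rw [Complex.norm_exp, ← Real.exp_add]
    refine Real.one_le_exp ?_
    have h1 := Complex.abs_re_le_norm (z * x₀)
    rw [norm_mul, Complex.norm_real, Real.norm_of_nonneg hx0] at h1
    have h2 := neg_abs_le (z * x₀).re
    nlinarith
  have e4 : ‖z‖ * η / 2 ≤ ‖Complex.exp (z * η) - 1‖ := by
    have hw : ‖z * η‖ = ‖z‖ * η := by rw [norm_mul, Complex.norm_real, Real.norm_of_nonneg hη.le]
    have hw2 : ‖z‖ * η ≤ 1 / 2 := by nlinarith [norm_nonneg z]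
    have h1 := Complex.norm_exp_sub_one_sub_id_le (x := z * η) (by rw [hw]; linarith)
    have h2 := norm_sub_norm_le (z * η) (Complex.exp (z * η) - 1)
    rw [norm_sub_rev] at h1
    rw [hw] at h1 h2
    have : 0 ≤ ‖z‖ * η := by positivity
    nlinarith
  have e5 : (‖z‖ * η / 2) ^ ν ≤ ‖Complex.exp (z * η) - 1‖ ^ ν :=
    pow_le_pow_left₀ (by positivity) e4 ν
  rw [norm_mul, norm_mul, norm_pow] at e2
  have e6 : ‖z‖ ^ ν = (‖z‖ * η / 2) ^ ν * (2 / η) ^ ν := by
    rw [← mul_pow]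
    congr 1
    field_simp
  have e7 : (4 / η) ^ ν = 2 ^ ν * (2 / η) ^ ν := by
    rw [← mul_pow]
    congr 1
    ring
  calc ‖γ‖ * ‖z‖ ^ ν = ‖γ‖ * 1 * (‖z‖ * η / 2) ^ ν * (2 / η) ^ ν := by rw [e6]; ring
    _ ≤ ‖γ‖ * (‖Complex.exp (z * x₀)‖ * Real.exp N) * ‖Complex.exp (z * η) - 1‖ ^ ν *
        (2 / η) ^ ν := by gcongr
    _ = ‖γ‖ * ‖Complex.exp (z * x₀)‖ * ‖Complex.exp (z * η) - 1‖ ^ ν * Real.exp N *
        (2 / η) ^ ν := by ring
    _ ≤ 2 ^ ν * M * Real.exp N * (2 / η) ^ ν := by gcongr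
    _ = _ := by rw [e7]; ring

lemma plgrow2_tail {z : ℂ} (hz : ‖z‖ ≤ 1) {x : ℝ} (hx : 0 ≤ x) (ν : ℕ) :
    ‖Complex.exp (z * x) - ∑ k ∈ range ν, (z * x) ^ k / k.factorial‖ ≤ ‖z‖ ^ ν * Real.exp x := by
  have h1 := (hasSum_nat_add_iff' ν).2 (NormedSpace.expSeries_div_hasSum_exp (z * x))
  have h2 := ((hasSum_nat_add_iff' ν).2 (NormedSpace.expSeries_div_hasSum_exp x)).mul_left
    (‖z‖ ^ ν)
  rw [← Complex.exp_eq_exp_ℂ] at h1
  rw [← Real.exp_eq_exp_ℝ] at h2
  refine (h1.norm_le_of_bounded h2 fun i => ?_).trans ?_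
  · rw [norm_div, norm_pow, norm_mul, Complex.norm_real, Real.norm_of_nonneg hx,
      Complex.norm_natCast, mul_pow, mul_div_assoc]
    exact mul_le_mul_of_nonneg_right (pow_le_pow_of_le_one (norm_nonneg _) hz (by omega))
      (by positivity)
  · refine mul_le_mul_of_nonneg_left (sub_le_self _ ?_) (by positivity)
    exact sum_nonneg fun i _ => by positivity

lemma plgrow2_prod (j m : ℕ) :
    ∏ l ∈ (range (j + m + 1)).erase j, |(j : ℝ) - l| = j.factorial * m.factorial := by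
  induction m with
  | zero =>
    rw [add_zero, range_add_one, erase_insert notMem_range_self]
    have : ∏ l ∈ range j, |(j : ℝ) - l| = ∏ l ∈ range j, ((j : ℝ) - l) :=
      prod_congr rfl fun l hl => abs_of_nonneg (sub_nonneg.2 (by exact_mod_cast (mem_range.1 hl).le))
    rw [this, Finset.prod_range_natCast_sub, ← Nat.descFactorial_eq_prod_range,
      Nat.descFactorial_self]
    simp
  | succ m ih =>
    rw [← add_assoc, range_add_one, erase_insert_of_ne (by omega),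
      prod_insert (by simp), ih, Nat.factorial_succ]
    push_cast
    rw [show (j : ℝ) - (j + m + 1) = -(m + 1) by ring, abs_neg, abs_of_nonneg (by positivity)]
    ring

lemma plgrow2_dd (P : ℂ[X]) (γ z : ℂ) (k : ℕ) : (dd ^ k) (polyS P + γ • expS z) =
    polyS (derivative^[k] P) + (γ * z ^ k) • expS z := by
  induction k with
  | zero => simp
  | succ k ih =>
    rw [pow_succ', Module.End.mul_apply, ih, map_add, map_smul, dd_polyS, dd_expS, smul_smul,
      Function.iterate_succ_apply', pow_succ, mul_assoc]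

lemma plgrow2_dd0 (P : ℂ[X]) (k : ℕ) : ((dd ^ k) (polyS P)).1 0 = (derivative^[k] P).eval 0 := by
  have := plgrow2_dd P 0 0 k
  simp only [zero_smul, add_zero, zero_mul] at this
  rw [this, polyS_apply, Complex.ofReal_zero]

lemma plgrow2_bd {P : ℂ[X]} {A b : ℝ} :
    Bd 0 (polyS P) A b ↔ ∀ k, ‖(derivative^[k] P).eval 0‖ ≤ A * b ^ k := by
  constructor
  · intro h k
    rw [← plgrow2_dd0]
    exact h k 0 (by simp)
  · intro h k x hx
    obtain rfl : x = 0 := by simpa using hx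
    rw [plgrow2_dd0]
    exact h k

lemma plgrow2_lin (c : ℂ) {a : ℂ} {N : ℝ} (hN : 0 < N) (ha : ‖a‖ ≤ N) :
    Bd 0 (polyS (C c * (X - C a))) (‖c‖ * N) (1 / N) := by
  refine plgrow2_bd.2 fun k => ?_
  rcases k with _ | _ | k
  · simp only [Function.iterate_zero, id, eval_mul, eval_C, eval_sub, eval_X, zero_sub, norm_mul,
      norm_neg, pow_zero, mul_one]
    gcongr
  · simp [hN.ne']
  · rw [iterate_derivative_eq_zero
      (((natDegree_C_mul_le _ _).trans (natDegree_X_sub_C_le _)).trans_lt (by omega))]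
    simp only [eval_zero, norm_zero]
    positivity

lemma plgrow2_bas (v : ℕ → ℂ) (w : ℂ) {N : ℝ} (hN : 0 < N) (s : Finset ℕ)
    (hv : ∀ l ∈ s, ‖v l‖ ≤ N) : Bd 0 (polyS (∏ l ∈ s, Lagrange.basisDivisor w (v l)))
      (∏ l ∈ s, (‖(w - v l)⁻¹‖ * N)) (s.card / N) := by
  induction s using Finset.induction_on with
  | empty =>
    refine plgrow2_bd.2 fun k => ?_
    rcases k with _ | k
    · simp
    · rw [iterate_derivative_eq_zero (by simp)]
      simp
  | insert a s ha ih =>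
    rw [prod_insert ha, prod_insert ha, card_insert_of_notMem ha, map_mul]
    have := (plgrow2_lin (w - v a)⁻¹ hN (hv a (mem_insert_self _ _))).mul
      (ih fun l hl => hv l (mem_insert_of_mem hl)) (by positivity)
      (prod_nonneg fun l _ => by positivity) (by positivity) (by positivity)
    rw [show ((#s + 1 : ℕ) : ℝ) / N = 1 / N + #s / N by push_cast; ring]
    exact this

lemma plgrow2_lag {Q : ℂ[X]} {ν : ℕ} (hQ : Q.degree < (ν + 1 : ℕ)) {x₀ η M N : ℝ} (hη : 0 < η)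
    (hx0 : 0 ≤ x₀) (hN : x₀ + ν * η ≤ N) (hN0 : 0 < N)
    (h : ∀ j < ν + 1, ‖Q.eval ((x₀ + j * η : ℝ) : ℂ)‖ ≤ M) (k : ℕ) :
    ‖(derivative^[k] Q).eval 0‖ ≤ (ν + 1) * (M * Real.exp (2 * N / η) * (ν / N) ^ k) := by
  have hM : 0 ≤ M := (norm_nonneg _).trans (h 0 (Nat.succ_pos _))
  obtain ⟨v, hv⟩ : ∃ v : ℕ → ℂ, ∀ j, v j = ((x₀ + j * η : ℝ) : ℂ) := ⟨_, fun _ => rfl⟩
  have hinj : Set.InjOn v (range (ν + 1) : Finset ℕ) := by
    intro i _ j _ hij
    rw [hv, hv, Complex.ofReal_inj, add_right_inj, mul_left_inj' hη.ne'] at hij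
    exact_mod_cast hij
  have e := Lagrange.eq_interpolate (f := Q) hinj (by rwa [card_range])
  rw [Lagrange.interpolate_apply] at e
  rw [e, iterate_derivative_sum, eval_finsetSum]
  refine (norm_sum_le_of_le _ (n := fun _ => M * Real.exp (2 * N / η) * (ν / N) ^ k)
    fun j hj => ?_).trans_eq (by simp)
  have hj' := mem_range.1 hj
  rw [iterate_derivative_C_mul, eval_mul, eval_C, norm_mul, mul_assoc]
  refine mul_le_mul (by rw [hv]; exact h j hj') ?_ (norm_nonneg _) hM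
  have hb := plgrow2_bd.1 (plgrow2_bas v (v j) hN0 ((range (ν + 1)).erase j) fun l hl => by
    have : (l : ℝ) ≤ ν := by exact_mod_cast Nat.lt_succ_iff.1 (mem_range.1 (mem_of_mem_erase hl))
    rw [hv, Complex.norm_real, Real.norm_of_nonneg (by positivity)]
    nlinarith) k
  rw [card_erase_of_mem hj, card_range, Nat.add_sub_cancel] at hb
  refine hb.trans (mul_le_mul_of_nonneg_right ?_ (by positivity))
  obtain ⟨m, rfl⟩ := Nat.exists_eq_add_of_le (Nat.lt_succ_iff.1 hj')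
  have e1 : ∀ l : ℕ, ‖(v j - v l)⁻¹‖ * N = N / η * |(j : ℝ) - l|⁻¹ := by
    intro l
    rw [hv, hv, ← Complex.ofReal_sub, norm_inv, Complex.norm_real, Real.norm_eq_abs,
      show x₀ + j * η - (x₀ + l * η) = (j - l) * η by ring, abs_mul, abs_of_pos hη, mul_inv]
    ring
  simp only [e1]
  rw [prod_mul_distrib, prod_const, prod_inv_distrib, plgrow2_prod, card_erase_of_mem hj,
    card_range, Nat.add_sub_cancel, show 2 * N / η = N / η + N / η by ring, Real.exp_add]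
  have h1 := Real.pow_div_factorial_le_exp (N / η) (by positivity) j
  have h2 := Real.pow_div_factorial_le_exp (N / η) (by positivity) m
  calc _ = (N / η) ^ j / j.factorial * ((N / η) ^ m / m.factorial) := by
        rw [pow_add, mul_inv]; ring
    _ ≤ _ := mul_le_mul h1 h2 (by positivity) (by positivity)

lemma plgrow2_pow {x : ℝ} (hx : 0 ≤ x) (m : ℕ) : x ^ m ≤ Real.exp (x * m) := by
  rw [mul_comm, Real.exp_nat_mul]
  exact pow_le_pow_left₀ hx (by linarith [Real.add_one_le_exp x]) m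

/-- The bound in terms of the values at the nodes. -/
lemma plgrow2_main {C₀ n : ℕ} (hC : 1 ≤ C₀) (hn : 1 ≤ n) {z : ℂ} (hz : ‖z‖ ≤ 1)
    (D : TS (C₀ * n)) {x₀ η M : ℝ} (hη : η = n / (2 * ((C₀ * n : ℕ) + 1))) (hx0 : 0 ≤ x₀)
    (hN : x₀ + (C₀ * n : ℕ) * η ≤ n) (h : ∀ j < C₀ * n + 1, ‖(fn z D).1 (x₀ + j * η)‖ ≤ M) :
    Fl (fn z D) (Real.exp ((17 * C₀ ^ 2 + 9 * C₀ + 3) * n) * M) := by
  have hM : 0 ≤ M := (norm_nonneg _).trans (h 0 (Nat.succ_pos _))
  have hc : (1 : ℝ) ≤ C₀ := by exact_mod_cast hC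
  have hn' : (1 : ℝ) ≤ n := by exact_mod_cast hn
  have hν : ((C₀ * n : ℕ) : ℝ) = C₀ * n := by push_cast; rfl
  have hν1 : 1 ≤ C₀ * n := Nat.mul_pos hC hn
  have hcn : (n : ℝ) ≤ C₀ * n := by nlinarith
  obtain ⟨⟨P, hP⟩, γ⟩ := D
  rw [mem_degreeLT] at hP
  rw [fn_apply] at h ⊢
  dsimp only at h ⊢
  generalize C₀ * n = ν at *
  have hη0 : 0 < η := by rw [hη]; positivity
  have hη2 : η ≤ 1 / 2 := by
    rw [hη, div_le_div_iff₀ (by positivity) (by positivity)]
    linarith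
  have hf : ∀ x : ℝ, (polyS P + γ • expS z).1 x = P.eval (x : ℂ) + γ * Complex.exp (z * x) := by
    intro x
    rw [← polyS_apply]
    rfl
  simp only [hf] at h
  have hPn : P.natDegree < ν := by
    by_cases h0 : P = 0
    · rw [h0, natDegree_zero]; exact hν1
    · exact (natDegree_lt_iff_degree_lt h0).2 hP
  have hd : ∀ k, ((dd ^ k) (polyS P + γ • expS z)).1 0 =
      (derivative^[k] P).eval 0 + γ * z ^ k := by
    intro k
    rw [plgrow2_dd, ← plgrow2_dd0]
    have := plgrow2_dd P 0 0 k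
    simp only [zero_smul, add_zero, zero_mul] at this
    rw [this]
    change _ + γ * z ^ k * Complex.exp (z * ((0 : ℝ) : ℂ)) = _
    simp
  have hG : ‖γ‖ * ‖z‖ ^ ν ≤ Real.exp ((16 * C₀ ^ 2 + 1) * n) * M := by
    refine (plgrow2_gam hPn γ hz hx0 (N := n) (by nlinarith [mul_nonneg (Nat.cast_nonneg ν) hη0.le])
      hη0 hη2 h).trans ?_
    have h1 : 4 / η ≤ 16 * C₀ := by
      rw [div_le_iff₀ hη0, hη, ← mul_div_assoc, le_div_iff₀ (by positivity)]
      nlinarith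
    have h2 : (4 / η) ^ ν ≤ Real.exp (16 * C₀ * ν) :=
      (pow_le_pow_left₀ (by positivity) h1 ν).trans (plgrow2_pow (by positivity) ν)
    rw [show (16 * (C₀ : ℝ) ^ 2 + 1) * n = n + 16 * C₀ * ν by rw [hν]; ring, Real.exp_add,
      mul_comm _ M, ← mul_assoc]
    gcongr
  intro k
  rw [hd]
  refine le_trans ?_ (le_mul_of_one_le_right (by positivity) (one_le_pow₀ one_le_two))
  rcases le_or_gt ν k with hk | hk
  · rw [iterate_derivative_eq_zero (hPn.trans_le hk), eval_zero, zero_add, norm_mul, norm_pow]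
    refine (mul_le_mul_of_nonneg_left (pow_le_pow_of_le_one (norm_nonneg _) hz hk)
      (norm_nonneg _)).trans (hG.trans ?_)
    refine mul_le_mul_of_nonneg_right (Real.exp_le_exp.2 ?_) hM
    exact mul_le_mul_of_nonneg_right (by nlinarith) (by positivity)
  obtain ⟨T, hT⟩ : ∃ T : ℂ[X], T = ∑ s ∈ range ν, monomial s (z ^ s / s.factorial) := ⟨_, rfl⟩
  have hTd : T.degree < ν := by
    rw [hT, ← mem_degreeLT]
    refine Submodule.sum_mem _ fun s hs => mem_degreeLT.2 ((degree_monomial_le _ _).trans_lt ?_)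
    exact_mod_cast mem_range.1 hs
  have hTe : ∀ w : ℂ, T.eval w = ∑ s ∈ range ν, (z * w) ^ s / s.factorial := by
    intro w
    rw [hT, eval_finsetSum]
    refine sum_congr rfl fun s _ => ?_
    rw [eval_monomial, mul_pow]
    ring
  have hTk : (derivative^[k] T).eval 0 = z ^ k := by
    rw [← coeff_zero_eq_eval_zero, coeff_iterate_derivative, zero_add, Nat.descFactorial_self, hT,
      finsetSum_coeff]
    simp only [coeff_monomial, sum_ite_eq', mem_range, hk, if_true, nsmul_eq_mul]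
    have : (k.factorial : ℂ) ≠ 0 := by exact_mod_cast k.factorial_ne_zero
    field_simp
  have hQ : (P + C γ * T).degree < (ν + 1 : ℕ) := by
    refine lt_trans (b := (ν : WithBot ℕ)) ?_ (by exact_mod_cast Nat.lt_succ_self ν)
    rw [← smul_eq_C_mul]
    exact (degree_add_le _ _).trans_lt (max_lt hP ((degree_smul_le _ _).trans_lt hTd))
  have hl := plgrow2_lag hQ hη0 hx0 hN (by positivity)
    (M := Real.exp ((16 * C₀ ^ 2 + 3) * n) * M) (fun j hj => by
      have hj' : (j : ℝ) ≤ ν := by exact_mod_cast Nat.lt_succ_iff.1 hj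
      have hx : 0 ≤ x₀ + j * η := by positivity
      have hx' : x₀ + j * η ≤ n := by nlinarith
      have h1 := h j hj
      have h2 := plgrow2_tail hz hx ν
      rw [← hTe] at h2
      generalize x₀ + j * η = x at *
      have e : (P + C γ * T).eval (x : ℂ) = (P.eval (x : ℂ) + γ * Complex.exp (z * x)) -
          γ * (Complex.exp (z * x) - T.eval (x : ℂ)) := by
        rw [eval_add, eval_mul, eval_C]
        ring
      rw [e]
      refine (norm_sub_le _ _).trans ?_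
      rw [norm_mul]
      have h3 : ‖γ‖ * ‖Complex.exp (z * x) - T.eval (x : ℂ)‖ ≤
          Real.exp ((16 * C₀ ^ 2 + 2) * n) * M :=
        calc _ ≤ ‖γ‖ * (‖z‖ ^ ν * Real.exp n) := by
              refine mul_le_mul_of_nonneg_left (h2.trans ?_) (norm_nonneg _)
              gcongr
          _ = ‖γ‖ * ‖z‖ ^ ν * Real.exp n := by ring
          _ ≤ Real.exp ((16 * C₀ ^ 2 + 1) * n) * M * Real.exp n := by gcongr
          _ = _ := by rw [mul_right_comm, ← Real.exp_add]; congr 2; ring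
      have h4 : 1 ≤ Real.exp ((16 * C₀ ^ 2 + 2) * n) := Real.one_le_exp (by positivity)
      have h5 : 2 ≤ Real.exp n := by linarith [Real.add_one_le_exp (n : ℝ)]
      rw [show (16 * (C₀ : ℝ) ^ 2 + 3) * n = (16 * C₀ ^ 2 + 2) * n + n by ring, Real.exp_add]
      generalize Real.exp ((16 * C₀ ^ 2 + 2) * n) = E at *
      have h6 : M ≤ E * M := le_mul_of_one_le_left hM h4
      have h7 : E * M * 2 ≤ E * M * Real.exp n :=
        mul_le_mul_of_nonneg_left h5 (hM.trans h6)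
      linarith) k
  rw [iterate_map_add, iterate_derivative_C_mul, eval_add, eval_mul, eval_C, hTk] at hl
  refine hl.trans ?_
  have a1 : (ν : ℝ) + 1 ≤ Real.exp ν := Real.add_one_le_exp _
  have a2 : Real.exp (2 * n / η) ≤ Real.exp (8 * ν) := by
    refine Real.exp_le_exp.2 ?_
    rw [div_le_iff₀ hη0, hη, ← mul_div_assoc, le_div_iff₀ (by positivity)]
    have : (1 : ℝ) ≤ ν := by exact_mod_cast hν1
    nlinarith
  have a3 : ((ν : ℝ) / n) ^ k ≤ Real.exp (C₀ * ν) := by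
    rw [show (ν : ℝ) / n = C₀ by rw [hν]; field_simp]
    exact (pow_le_pow_right₀ hc hk.le).trans (plgrow2_pow (by positivity) ν)
  calc _ ≤ Real.exp ν * (Real.exp ((16 * C₀ ^ 2 + 3) * n) * M * Real.exp (8 * ν) *
        Real.exp (C₀ * ν)) := by gcongr
    _ = _ := by
      rw [show (17 * (C₀ : ℝ) ^ 2 + 9 * C₀ + 3) * n =
        ν + ((16 * C₀ ^ 2 + 3) * n + (8 * ν + C₀ * ν)) by rw [hν]; ring,
        Real.exp_add, Real.exp_add, Real.exp_add]
      ring

/-- Growth lemma: the derivatives at the origin are controlled by the weighted norm. -/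
theorem growth (C₀ : ℕ) (hC : 1 ≤ C₀) : ∃ L : ℝ, 0 < L ∧ ∀ n : ℕ, 1 ≤ n → ∀ (κ : ℕ) (z : ℂ),
    z ≠ 0 → ‖z‖ ≤ 1 → ∀ D : TS (C₀ * n),
      Fl (fn z D) (Real.exp (L * n) * (3 / n) ^ κ * nq n κ (fn z D)) := by
  refine ⟨17 * C₀ ^ 2 + 11 * C₀ + 3, by positivity, fun n hn κ z _ hz D => ?_⟩
  have hc : (1 : ℝ) ≤ C₀ := by exact_mod_cast hC
  have hn' : (1 : ℝ) ≤ n := by exact_mod_cast hn
  have hν : ((C₀ * n : ℕ) : ℝ) = C₀ * n := by push_cast; rfl
  obtain ⟨η, hη⟩ : ∃ η : ℝ, η = n / (2 * ((C₀ * n : ℕ) + 1)) := ⟨_, rfl⟩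
  have hη0 : 0 < η := by rw [hη]; positivity
  have hηe : ((C₀ * n + 1 : ℕ) : ℝ) * η = n / 2 := by
    rw [hη, Nat.cast_add, Nat.cast_one]
    field_simp
  have hF : Continuous fun x : ℝ => (x * (n - x)) ^ κ * ‖(fn z D).1 x‖ ^ 2 := by
    have := Sm.cont (fn z D)
    fun_prop
  have hF0 : ∀ x ∈ Set.Icc (0 : ℝ) n, 0 ≤ (x * (n - x)) ^ κ * ‖(fn z D).1 x‖ ^ 2 := fun x hx =>
    mul_nonneg (pow_nonneg (mul_nonneg hx.1 (sub_nonneg.2 hx.2)) _) (sq_nonneg _)
  obtain ⟨x₀, hx, hb⟩ := plgrow2_nodes hF ((n : ℝ) / 4) hη0 (C₀ * n + 1) fun x hx =>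
    hF0 x ⟨by linarith [hx.1], by linarith [hx.2]⟩
  have hI : ∫ x in (n : ℝ) / 4..(n : ℝ) / 4 + (C₀ * n + 1 : ℕ) * η,
      (x * (n - x)) ^ κ * ‖(fn z D).1 x‖ ^ 2 ≤ nq n κ (fn z D) ^ 2 := by
    rw [nq, Real.sq_sqrt (intervalIntegral.integral_nonneg (by positivity) hF0)]
    refine intervalIntegral.integral_mono_interval (by positivity) (by linarith) (by linarith) ?_
      (hF.intervalIntegrable _ _)
    exact (MeasureTheory.ae_restrict_iff' measurableSet_Ioc).2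
      (Filter.Eventually.of_forall fun x hx => hF0 x (Set.Ioc_subset_Icc_self hx))
  have hq : 0 ≤ nq n κ (fn z D) := Real.sqrt_nonneg _
  have hηe' : ((C₀ * n : ℕ) : ℝ) * η + η = n / 2 := by
    rw [← hηe, Nat.cast_add, Nat.cast_one]
    ring
  have key := plgrow2_main hC hn hz D hη (x₀ := x₀) (by linarith [hx.1]) (by linarith [hx.2])
    (M := 2 * C₀ * ((3 / n) ^ κ * nq n κ (fn z D))) fun j hj => by
      have hj' : (j : ℝ) ≤ (C₀ * n : ℕ) := by exact_mod_cast Nat.lt_succ_iff.1 hj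
      have h1 := (hb j hj).trans hI
      have h2 : (n : ℝ) / 4 ≤ x₀ + j * η := by
        have : 0 ≤ (j : ℝ) * η := by positivity
        linarith [hx.1]
      have h3 : x₀ + j * η ≤ 3 * n / 4 := by nlinarith [hx.2]
      generalize x₀ + j * η = x at *
      have h4 : ((n : ℝ) / 3) ^ 2 ≤ x * (n - x) := by nlinarith
      have h5 : (((n : ℝ) / 3) ^ κ) ^ 2 ≤ (x * (n - x)) ^ κ := by
        rw [← pow_mul, mul_comm κ, pow_mul]
        exact pow_le_pow_left₀ (by positivity) h4 κ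
      have h6 : 1 ≤ (2 * (C₀ : ℝ)) ^ 2 * η := by
        rw [hη, ← mul_div_assoc, le_div_iff₀ (by positivity), hν]
        have : (C₀ : ℝ) * n ≤ C₀ ^ 2 * n := by nlinarith
        nlinarith
      have h7 : (((n : ℝ) / 3) ^ κ * ‖(fn z D).1 x‖) ^ 2 ≤ (2 * C₀ * nq n κ (fn z D)) ^ 2 :=
        calc _ = 1 * ((((n : ℝ) / 3) ^ κ) ^ 2 * ‖(fn z D).1 x‖ ^ 2) := by ring
          _ ≤ (2 * (C₀ : ℝ)) ^ 2 * η * ((x * (n - x)) ^ κ * ‖(fn z D).1 x‖ ^ 2) := by gcongr
          _ = (2 * (C₀ : ℝ)) ^ 2 * (η * ((x * (n - x)) ^ κ * ‖(fn z D).1 x‖ ^ 2)) := by ring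
          _ ≤ (2 * (C₀ : ℝ)) ^ 2 * nq n κ (fn z D) ^ 2 := by gcongr
          _ = _ := by ring
      have h8 := (pow_le_pow_iff_left₀ (by positivity) (by positivity) two_ne_zero).1 h7
      have h9 : (3 / (n : ℝ)) ^ κ * ((n : ℝ) / 3) ^ κ = 1 := by
        rw [← mul_pow, show 3 / (n : ℝ) * (n / 3) = 1 by field_simp, one_pow]
      calc _ = (3 / (n : ℝ)) ^ κ * (((n : ℝ) / 3) ^ κ * ‖(fn z D).1 x‖) := by
            rw [← mul_assoc, h9, one_mul]
        _ ≤ (3 / (n : ℝ)) ^ κ * (2 * C₀ * nq n κ (fn z D)) := by gcongr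
        _ = _ := by ring
  intro k
  refine (key k).trans (mul_le_mul_of_nonneg_right ?_ (by positivity))
  have a1 : 2 * (C₀ : ℝ) ≤ Real.exp (2 * C₀ * n) := by
    nlinarith [Real.add_one_le_exp (2 * (C₀ : ℝ) * n)]
  rw [show (17 * (C₀ : ℝ) ^ 2 + 11 * C₀ + 3) * n = (17 * C₀ ^ 2 + 9 * C₀ + 3) * n + 2 * C₀ * n by
    ring, Real.exp_add, mul_assoc, mul_assoc, mul_assoc]
  refine mul_le_mul_of_nonneg_left ?_ (by positivity)
  rw [← mul_assoc 2]
  exact mul_le_mul_of_nonneg_right a1 (by positivity)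

end Pool.Agent.Lib.MP_1f047c_nt.PL
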