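import Pool.Agent.Lib.MP_1f047c_nt.PLPart

open Polynomial Finset

namespace Pool.Agent.Lib.MP_1f047c_nt.PL

noncomputable section

/-- Laurent polynomials over the complex numbers. -/
abbrev plhypA : Type := LaurentPolynomial ℂ

/-- The projection to the weights which satisfy `P`. -/
def plhypPr (P : ℤ → Prop) [DecidablePred P] : plhypA →ₗ[ℂ] plhypA :=
  (AddMonoidAlgebra.basis ℤ ℂ).constr ℂ fun w => if P w then LaurentPolynomial.T w else 0

lemma plhyp_basis (w : ℤ) : AddMonoidAlgebra.basis ℤ ℂ w = (LaurentPolynomial.T w : plhypA) :=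
  rfl

lemma plhyp_pr_T (P : ℤ → Prop) [DecidablePred P] (w : ℤ) :
    plhypPr P (LaurentPolynomial.T w) = if P w then LaurentPolynomial.T w else 0 := by
  rw [← plhyp_basis w, plhypPr, Module.Basis.constr_basis, plhyp_basis]

/-- Weights `w` with `σ w ≤ k`. -/
def plhypL (σ k : ℤ) : Submodule ℂ plhypA :=
  Submodule.span ℂ {f | ∃ w : ℤ, σ * w ≤ k ∧ f = LaurentPolynomial.T w}

lemma plhyp_T_mem {σ k w : ℤ} (h : σ * w ≤ k) : (LaurentPolynomial.T w : plhypA) ∈ plhypL σ k :=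
  Submodule.subset_span ⟨w, h, rfl⟩

lemma plhyp_L_mono {σ k l : ℤ} (h : k ≤ l) {f : plhypA} (hf : f ∈ plhypL σ k) :
    f ∈ plhypL σ l := by
  refine Submodule.span_mono ?_ hf
  rintro _ ⟨w, hw, rfl⟩
  exact ⟨w, hw.trans h, rfl⟩

lemma plhyp_L_mul {σ k l : ℤ} {f g : plhypA} (hf : f ∈ plhypL σ k) (hg : g ∈ plhypL σ l) :
    f * g ∈ plhypL σ (k + l) := by
  induction hf using Submodule.span_induction with
  | zero => simp
  | add a b _ _ ha hb => rw [add_mul]; exact add_mem ha hb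
  | smul c a _ ha => rw [smul_mul_assoc]; exact Submodule.smul_mem _ _ ha
  | mem a ha =>
    obtain ⟨w, hw, rfl⟩ := ha
    induction hg using Submodule.span_induction with
    | zero => simp
    | add a b _ _ ha hb => rw [mul_add]; exact add_mem ha hb
    | smul c a _ ha => rw [mul_smul_comm]; exact Submodule.smul_mem _ _ ha
    | mem b hb =>
      obtain ⟨w', hw', rfl⟩ := hb
      rw [← LaurentPolynomial.T_add]
      exact plhyp_T_mem (by rw [mul_add]; omega)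

lemma plhyp_L_one (σ : ℤ) : (1 : plhypA) ∈ plhypL σ 0 := by
  rw [← LaurentPolynomial.T_zero]; exact plhyp_T_mem (by simp)

lemma plhyp_L_alg (σ : ℤ) (c : ℂ) : algebraMap ℂ plhypA c ∈ plhypL σ 0 := by
  rw [Algebra.algebraMap_eq_smul_one]; exact Submodule.smul_mem _ _ (plhyp_L_one σ)

lemma plhyp_L_pow {σ k : ℤ} {f : plhypA} (hf : f ∈ plhypL σ k) (n : ℕ) :
    f ^ n ∈ plhypL σ (n * k) := by
  induction n with
  | zero => simpa using plhyp_L_one σ
  | succ n ih =>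
    rw [pow_succ]
    have := plhyp_L_mul ih hf
    refine plhyp_L_mono (le_of_eq ?_) this
    push_cast; ring

lemma plhyp_L_prod {ι : Type} {σ : ℤ} (s : Finset ι) (f : ι → plhypA) (k : ι → ℤ)
    (hf : ∀ i ∈ s, f i ∈ plhypL σ (k i)) : ∏ i ∈ s, f i ∈ plhypL σ (∑ i ∈ s, k i) := by
  classical
  induction s using Finset.induction_on with
  | empty => simpa using plhyp_L_one σ
  | insert a s ha ih =>
    rw [prod_insert ha, sum_insert ha]
    exact plhyp_L_mul (hf a (mem_insert_self _ _)) (ih fun i hi => hf i (mem_insert_of_mem hi))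

lemma plhyp_L_aeval {σ : ℤ} {v : plhypA} (hv : v ∈ plhypL σ 0) (g : ℂ[X]) :
    aeval v g ∈ plhypL σ 0 := by
  rw [aeval_eq_sum_range]
  refine Submodule.sum_mem _ fun i _ => Submodule.smul_mem _ _ ?_
  simpa using plhyp_L_pow hv i

lemma plhyp_pr_zero (P : ℤ → Prop) [DecidablePred P] {σ k : ℤ} (h : ∀ w, σ * w ≤ k → ¬ P w)
    {f : plhypA} (hf : f ∈ plhypL σ k) : plhypPr P f = 0 := by
  induction hf using Submodule.span_induction with
  | zero => simp
  | add a b _ _ ha hb => rw [map_add, ha, hb, add_zero]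
  | smul c a _ ha => rw [map_smul, ha, smul_zero]
  | mem a ha =>
    obtain ⟨w, hw, rfl⟩ := ha
    rw [plhyp_pr_T, if_neg (h w hw)]

section gen

variable {A ι₁ ι₂ : Type} [CommRing A] [Algebra ℂ A]

/-- Translates of polynomials of bidegree at most `(e₁, e₂)`. -/
def plhypG (x y : A) (p₁ : ι₁ → ℂ) (p₂ : ι₂ → ℂ) (e₁ e₂ : ℕ) : Submodule ℂ (ι₁ → ι₂ → A) :=
  Submodule.span ℂ {G | ∃ k ≤ e₁, ∃ l ≤ e₂,
    G = fun i j => (x + algebraMap ℂ A (p₁ i)) ^ k * (y + algebraMap ℂ A (p₂ j)) ^ l}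

variable {x y : A} {p₁ : ι₁ → ℂ} {p₂ : ι₂ → ℂ}

lemma plhyp_G_mono {e₁ e₂ e₁' e₂' : ℕ} (h₁ : e₁ ≤ e₁') (h₂ : e₂ ≤ e₂') {G : ι₁ → ι₂ → A}
    (hG : G ∈ plhypG x y p₁ p₂ e₁ e₂) : G ∈ plhypG x y p₁ p₂ e₁' e₂' := by
  refine Submodule.span_mono ?_ hG
  rintro _ ⟨k, hk, l, hl, rfl⟩
  exact ⟨k, hk.trans h₁, l, hl.trans h₂, rfl⟩

lemma plhyp_G_mem (k l : ℕ) :
    (fun i j => (x + algebraMap ℂ A (p₁ i)) ^ k * (y + algebraMap ℂ A (p₂ j)) ^ l) ∈
      plhypG x y p₁ p₂ k l :=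
  Submodule.subset_span ⟨k, le_rfl, l, le_rfl, rfl⟩

lemma plhyp_G_mul {e₁ e₂ e₁' e₂' : ℕ} {G G' : ι₁ → ι₂ → A}
    (hG : G ∈ plhypG x y p₁ p₂ e₁ e₂) (hG' : G' ∈ plhypG x y p₁ p₂ e₁' e₂') :
    G * G' ∈ plhypG x y p₁ p₂ (e₁ + e₁') (e₂ + e₂') := by
  induction hG using Submodule.span_induction with
  | zero => simp
  | add a b _ _ ha hb => rw [add_mul]; exact add_mem ha hb
  | smul c a _ ha => rw [smul_mul_assoc]; exact Submodule.smul_mem _ _ ha
  | mem a ha =>
    obtain ⟨k, hk, l, hl, rfl⟩ := ha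
    induction hG' using Submodule.span_induction with
    | zero => simp
    | add a b _ _ ha hb => rw [mul_add]; exact add_mem ha hb
    | smul c a _ ha => rw [mul_smul_comm]; exact Submodule.smul_mem _ _ ha
    | mem b hb =>
      obtain ⟨k', hk', l', hl', rfl⟩ := hb
      refine Submodule.subset_span ⟨k + k', by omega, l + l', by omega, ?_⟩
      funext i j
      simp only [Pi.mul_apply]
      ring

lemma plhyp_G_one : (1 : ι₁ → ι₂ → A) ∈ plhypG x y p₁ p₂ 0 0 := by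
  refine Submodule.subset_span ⟨0, le_rfl, 0, le_rfl, ?_⟩
  funext i j
  simp

lemma plhyp_G_prod {ι : Type} (s : Finset ι) (f : ι → ι₁ → ι₂ → A)
    (hf : ∀ m ∈ s, f m ∈ plhypG x y p₁ p₂ 1 1) :
    ∏ m ∈ s, f m ∈ plhypG x y p₁ p₂ s.card s.card := by
  classical
  induction s using Finset.induction_on with
  | empty => simpa using plhyp_G_one
  | insert a s ha ih =>
    rw [prod_insert ha, card_insert_of_notMem ha, add_comm]
    exact plhyp_G_mul (hf a (mem_insert_self _ _)) (ih fun i hi => hf i (mem_insert_of_mem hi))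

lemma plhyp_G_fac (a b r : ℂ) :
    (fun i j => (x + algebraMap ℂ A (p₁ i) + algebraMap ℂ A a) *
      (y + algebraMap ℂ A (p₂ j) + algebraMap ℂ A b) - algebraMap ℂ A r) ∈
      plhypG x y p₁ p₂ 1 1 := by
  have h11 := plhyp_G_mem (x := x) (y := y) (p₁ := p₁) (p₂ := p₂) 1 1
  have h10 := plhyp_G_mono le_rfl zero_le_one
    (plhyp_G_mem (x := x) (y := y) (p₁ := p₁) (p₂ := p₂) 1 0)
  have h01 := plhyp_G_mono zero_le_one le_rfl
    (plhyp_G_mem (x := x) (y := y) (p₁ := p₁) (p₂ := p₂) 0 1)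
  have h00 := plhyp_G_mono zero_le_one zero_le_one
    (plhyp_G_mem (x := x) (y := y) (p₁ := p₁) (p₂ := p₂) 0 0)
  have := add_mem (add_mem (add_mem h11 (Submodule.smul_mem _ b h10))
    (Submodule.smul_mem _ a h01)) (Submodule.smul_mem _ (a * b - r) h00)
  convert this using 1
  funext i j
  simp only [Pi.add_apply, Pi.smul_apply]
  simp only [Algebra.smul_def, map_sub, map_mul]
  ring

lemma plhyp_G_aeval₂ (k : ℕ) (g : ℂ[X]) :
    (fun i j => (x + algebraMap ℂ A (p₁ i)) ^ k * aeval (y + algebraMap ℂ A (p₂ j)) g) ∈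
      plhypG x y p₁ p₂ k g.natDegree := by
  have : (fun i j => (x + algebraMap ℂ A (p₁ i)) ^ k * aeval (y + algebraMap ℂ A (p₂ j)) g) =
      ∑ n ∈ range (g.natDegree + 1), g.coeff n •
        fun i j => (x + algebraMap ℂ A (p₁ i)) ^ k * (y + algebraMap ℂ A (p₂ j)) ^ n := by
    funext i j
    simp only [Finset.sum_apply, Pi.smul_apply, aeval_eq_sum_range, Finset.mul_sum,
      mul_smul_comm]
  rw [this]
  refine Submodule.sum_mem _ fun n hn => Submodule.smul_mem _ _ ?_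
  exact plhyp_G_mono le_rfl (by simpa [Nat.lt_succ_iff] using hn) (plhyp_G_mem k n)

lemma plhyp_G_aeval₁ (k : ℕ) (g : ℂ[X]) :
    (fun i j => (y + algebraMap ℂ A (p₂ j)) ^ k * aeval (x + algebraMap ℂ A (p₁ i)) g) ∈
      plhypG x y p₁ p₂ g.natDegree k := by
  have : (fun i j => (y + algebraMap ℂ A (p₂ j)) ^ k * aeval (x + algebraMap ℂ A (p₁ i)) g) =
      ∑ n ∈ range (g.natDegree + 1), g.coeff n •
        fun i j => (x + algebraMap ℂ A (p₁ i)) ^ n * (y + algebraMap ℂ A (p₂ j)) ^ k := by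
    funext i j
    simp only [Finset.sum_apply, Pi.smul_apply, aeval_eq_sum_range, Finset.mul_sum,
      mul_smul_comm, mul_comm]
  rw [this]
  refine Submodule.sum_mem _ fun n hn => Submodule.smul_mem _ _ ?_
  exact plhyp_G_mono (by simpa [Nat.lt_succ_iff] using hn) le_rfl (plhyp_G_mem n k)

lemma plhyp_span_top (π : A →ₗ[ℂ] A) {e₁ e₂ : ℕ} {G : ι₁ → ι₂ → A}
    (hG : G ∈ plhypG x y p₁ p₂ e₁ e₂) (j : ι₂) :
    (fun i => π (G i j)) ∈ Submodule.span ℂ {Y : ι₁ → A | ∃ k ≤ e₁, ∃ q ≤ e₂,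
      Y = fun i => π ((x + algebraMap ℂ A (p₁ i)) ^ k * y ^ q)} := by
  induction hG using Submodule.span_induction with
  | zero => simp only [Pi.zero_apply, map_zero]; exact Submodule.zero_mem _
  | add a b _ _ ha hb => simp only [Pi.add_apply, map_add]; exact add_mem ha hb
  | smul c a _ ha => simp only [Pi.smul_apply, map_smul]; exact Submodule.smul_mem _ c ha
  | mem a ha =>
    obtain ⟨k, hk, l, hl, rfl⟩ := ha
    have : (fun i => π ((x + algebraMap ℂ A (p₁ i)) ^ k * (y + algebraMap ℂ A (p₂ j)) ^ l)) =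
        ∑ q ∈ range (l + 1), ((p₂ j) ^ (l - q) * (l.choose q : ℂ)) •
          fun i => π ((x + algebraMap ℂ A (p₁ i)) ^ k * y ^ q) := by
      funext i
      simp only [Finset.sum_apply, Pi.smul_apply, ← map_smul, ← map_sum]
      congr 1
      rw [add_pow y, Finset.mul_sum]
      refine Finset.sum_congr rfl fun q _ => ?_
      simp only [Algebra.smul_def, map_mul, map_pow, map_natCast]
      ring
    rw [this]
    refine Submodule.sum_mem _ fun q hq => Submodule.smul_mem _ _ ?_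
    exact Submodule.subset_span ⟨k, hk, q, by have := mem_range.1 hq; omega, rfl⟩

lemma plhyp_span_bot (π : A →ₗ[ℂ] A) {e₁ e₂ : ℕ} {G : ι₁ → ι₂ → A}
    (hG : G ∈ plhypG x y p₁ p₂ e₁ e₂) (i : ι₁) :
    (fun j => π (G i j)) ∈ Submodule.span ℂ {Y : ι₂ → A | ∃ k ≤ e₂, ∃ q ≤ e₁,
      Y = fun j => π ((y + algebraMap ℂ A (p₂ j)) ^ k * x ^ q)} := by
  induction hG using Submodule.span_induction with
  | zero => simp only [Pi.zero_apply, map_zero]; exact Submodule.zero_mem _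
  | add a b _ _ ha hb => simp only [Pi.add_apply, map_add]; exact add_mem ha hb
  | smul c a _ ha => simp only [Pi.smul_apply, map_smul]; exact Submodule.smul_mem _ c ha
  | mem a ha =>
    obtain ⟨k, hk, l, hl, rfl⟩ := ha
    have : (fun j => π ((x + algebraMap ℂ A (p₁ i)) ^ k * (y + algebraMap ℂ A (p₂ j)) ^ l)) =
        ∑ q ∈ range (k + 1), ((p₁ i) ^ (k - q) * (k.choose q : ℂ)) •
          fun j => π ((y + algebraMap ℂ A (p₂ j)) ^ l * x ^ q) := by
      funext j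
      simp only [Finset.sum_apply, Pi.smul_apply, ← map_smul, ← map_sum]
      congr 1
      rw [add_pow x, Finset.sum_mul]
      refine Finset.sum_congr rfl fun q _ => ?_
      simp only [Algebra.smul_def, map_mul, map_pow, map_natCast]
      ring
    rw [this]
    refine Submodule.sum_mem _ fun q hq => Submodule.smul_mem _ _ ?_
    exact Submodule.subset_span ⟨l, hl, q, by have := mem_range.1 hq; omega, rfl⟩

end gen

lemma plhyp_G_wt {ι₁ ι₂ : Type} {x y : plhypA} {p₁ : ι₁ → ℂ} {p₂ : ι₂ → ℂ} {σ a b : ℤ}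
    (ha : 0 ≤ a) (hb : 0 ≤ b) (hx : x ∈ plhypL σ a) (hy : y ∈ plhypL σ b) {e₁ e₂ : ℕ}
    {G : ι₁ → ι₂ → plhypA} (hG : G ∈ plhypG x y p₁ p₂ e₁ e₂) (i : ι₁) (j : ι₂) :
    G i j ∈ plhypL σ (e₁ * a + e₂ * b) := by
  induction hG using Submodule.span_induction with
  | zero => simp
  | add a b _ _ ha hb => exact add_mem ha hb
  | smul c a _ ha => exact Submodule.smul_mem _ c ha
  | mem G hG =>
    obtain ⟨k, hk, l, hl, rfl⟩ := hG
    have h1 := plhyp_L_pow (add_mem hx (plhyp_L_mono ha (plhyp_L_alg σ (p₁ i)))) k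
    have h2 := plhyp_L_pow (add_mem hy (plhyp_L_mono hb (plhyp_L_alg σ (p₂ j)))) l
    refine plhyp_L_mono ?_ (plhyp_L_mul h1 h2)
    have hk' : (k : ℤ) ≤ e₁ := by exact_mod_cast hk
    have hl' : (l : ℤ) ≤ e₂ := by exact_mod_cast hl
    gcongr

lemma plhyp_wm_zero : wm 0 = 0 := by simp [wm]

lemma plhyp_wm_neg (m : ℤ) : wm (-m) = -wm m := by simp [wm]

lemma plhyp_c_ne : (2 * Real.pi * Complex.I : ℂ) ≠ 0 := by
  simp [Real.pi_ne_zero]

lemma plhyp_wm_ne {m : ℤ} (hm : m ≠ 0) : wm m ≠ 0 :=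
  mul_ne_zero plhyp_c_ne (by exact_mod_cast hm)

lemma plhyp_wm_inj {m m' : ℤ} (h : wm m = wm m') : m = m' := by
  have := mul_left_cancel₀ plhyp_c_ne h
  exact_mod_cast this

/-- The jets for the top and the bottom family. -/
lemma plhyp_fam {σ : ℤ} {u v : plhypA} (hu : u ∈ plhypL σ 1) (hv : v ∈ plhypL σ (-1))
    (R : ℕ) (π : plhypA →ₗ[ℂ] plhypA)
    (hπ : ∀ f ∈ plhypL σ ((8 * R ^ 2 + 4 * R : ℕ) : ℤ), π f = 0) (k q : ℕ)
    (hk : k ≤ 8 * R ^ 2 + 8 * R) :
    ∃ g : ℂ[X], g.natDegree ≤ 8 * R ^ 2 + 4 * R ∧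
      (∀ ξ : ℂ, π ((u + algebraMap ℂ plhypA ξ) ^ k * aeval v g) =
        π ((u + algebraMap ℂ plhypA ξ) ^ k * v ^ q)) ∧
      ∀ ξ : ℂ, ∀ m ∈ Finset.Icc (-(R : ℤ)) R, m ≠ 0 →
        π ((u + algebraMap ℂ plhypA ξ) ^ k * aeval (v + algebraMap ℂ plhypA (wm m)) g) = 0 := by
  have hv0 : v ∈ plhypL σ 0 := plhyp_L_mono (by norm_num) hv
  have key : ∀ (ξ : ℂ) (n : ℕ), 4 * R ≤ n → ∀ h : ℂ[X],
      π ((u + algebraMap ℂ plhypA ξ) ^ k * (v ^ n * aeval v h)) = 0 := by
    intro ξ n hn h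
    apply hπ
    have h1 := plhyp_L_pow (add_mem hu (plhyp_L_mono zero_le_one (plhyp_L_alg σ ξ))) k
    have h2 := plhyp_L_mul (plhyp_L_pow hv n) (plhyp_L_aeval hv0 h)
    refine plhyp_L_mono ?_ (plhyp_L_mul h1 h2)
    have hk' : (k : ℤ) ≤ ((8 * R ^ 2 + 8 * R : ℕ) : ℤ) := by exact_mod_cast hk
    have hn' : ((4 * R : ℕ) : ℤ) ≤ n := by exact_mod_cast hn
    push_cast at hk' hn' ⊢
    linarith
  by_cases hq : q < 4 * R
  · obtain ⟨g, hg, ⟨h, hh⟩, hg2⟩ := jetpoly ((Finset.Icc (-(R : ℤ)) R).erase 0) wm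
      (fun m hm => plhyp_wm_ne (mem_erase.1 hm).1) (4 * R) q hq
    refine ⟨g, ?_, fun ξ => ?_, fun ξ m hm hm0 => ?_⟩
    · have hc : ((Finset.Icc (-(R : ℤ)) R).erase 0).card = 2 * R := by
        rw [card_erase_of_mem (by simp), Int.card_Icc]
        omega
      rw [hc] at hg
      refine hg.trans (le_of_eq ?_)
      ring
    · have : g = X ^ q + X ^ (4 * R) * h := by rw [← hh]; ring
      have e : aeval v g = v ^ q + v ^ (4 * R) * aeval v h := by
        rw [this]; simp only [map_add, map_mul, map_pow, aeval_X]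
      rw [e, mul_add, map_add, key ξ (4 * R) le_rfl h, add_zero]
    · obtain ⟨h', hh'⟩ := hg2 m (mem_erase.2 ⟨hm0, hm⟩)
      have : aeval (v + algebraMap ℂ plhypA (wm m)) g = v ^ (4 * R) * aeval v h' := by
        have e := congrArg (aeval v) hh'
        rw [aeval_comp, map_add, aeval_X, aeval_C, map_mul, map_pow, aeval_X] at e
        exact e
      rw [this]
      exact key ξ (4 * R) le_rfl h'
  · refine ⟨0, by simp, fun ξ => ?_, fun ξ m _ _ => by simp⟩
    have := key ξ q (not_lt.1 hq) 1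
    simp only [map_one, mul_one] at this
    rw [this]
    simp

/-- Every Laurent polynomial with weights in `[-d, d]` is a polynomial of bidegree `(d, d)`. -/
lemma plhyp_lift {ι₁ ι₂ : Type} (r : ℂ) (hr : r ≠ 0) (p₁ : ι₁ → ℂ) (p₂ : ι₂ → ℂ) (o₁ : ι₁)
    (o₂ : ι₂) (h₁ : p₁ o₁ = 0) (h₂ : p₂ o₂ = 0) (d : ℕ) (a : ℂ[X]) (ha : a.natDegree ≤ 2 * d) :
    ∃ G ∈ plhypG (LaurentPolynomial.T 1 : plhypA)
      (LaurentPolynomial.C r * LaurentPolynomial.T (-1)) p₁ p₂ d d,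
      G o₁ o₂ = LaurentPolynomial.T (-d) * aeval (LaurentPolynomial.T 1 : plhypA) a := by
  have one : ∀ n ≤ 2 * d, ∃ G ∈ plhypG (LaurentPolynomial.T 1 : plhypA)
      (LaurentPolynomial.C r * LaurentPolynomial.T (-1)) p₁ p₂ d d,
      G o₁ o₂ = LaurentPolynomial.T (-d) * LaurentPolynomial.T 1 ^ n := by
    intro n hn
    rcases le_total d n with h | h
    · obtain ⟨k, rfl⟩ := Nat.exists_eq_add_of_le h
      refine ⟨_, plhyp_G_mono (by omega) (Nat.zero_le d) (plhyp_G_mem k 0), ?_⟩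
      simp only [h₁, map_zero, add_zero, pow_zero, mul_one, LaurentPolynomial.T_pow,
        ← LaurentPolynomial.T_add]
      congr 1
      push_cast
      ring
    · obtain ⟨k, rfl⟩ := Nat.exists_eq_add_of_le h
      refine ⟨_, Submodule.smul_mem _ ((r ^ k)⁻¹)
        (plhyp_G_mono (Nat.zero_le _) (by omega) (plhyp_G_mem 0 k)), ?_⟩
      simp only [Pi.smul_apply, h₂, map_zero, add_zero, pow_zero, one_mul, mul_pow,
        LaurentPolynomial.T_pow, ← LaurentPolynomial.T_add]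
      rw [← map_pow, ← LaurentPolynomial.smul_eq_C_mul, smul_smul,
        inv_mul_cancel₀ (pow_ne_zero k hr), one_smul]
      congr 1
      push_cast
      ring
  choose! G hG hG' using one
  refine ⟨∑ n ∈ range (a.natDegree + 1), a.coeff n • G n, ?_, ?_⟩
  · refine Submodule.sum_mem _ fun n hn => Submodule.smul_mem _ _ (hG n ?_)
    have := mem_range.1 hn
    omega
  · simp only [Finset.sum_apply, Pi.smul_apply]
    rw [aeval_eq_sum_range, Finset.mul_sum]
    refine Finset.sum_congr rfl fun n hn => ?_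
    have := mem_range.1 hn
    rw [hG' n (by omega), mul_smul_comm]

/-- Weight of a product of factors, many of which degenerate. -/
lemma plhyp_prod_wt {ι : Type} [DecidableEq ι] {σ : ℤ} (U Z : Finset ι) (hZ : Z ⊆ U)
    (f : ι → plhypA) (h1 : ∀ m ∈ U, f m ∈ plhypL σ 1) (h2 : ∀ m ∈ Z, f m ∈ plhypL σ (-1)) :
    ∏ m ∈ U, f m ∈ plhypL σ ((U.card : ℤ) - 2 * Z.card) := by
  rw [← prod_sdiff hZ]
  have a1 := plhyp_L_prod (σ := σ) (U \ Z) f (fun _ => 1) fun m hm => h1 m (mem_sdiff.1 hm).1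
  have a2 := plhyp_L_prod (σ := σ) Z f (fun _ => -1) h2
  refine plhyp_L_mono (le_of_eq ?_) (plhyp_L_mul a1 a2)
  have := card_sdiff_add_card_eq_card hZ
  simp only [sum_const, nsmul_eq_mul, mul_one]
  have h' : ((U \ Z).card : ℤ) + Z.card = U.card := by exact_mod_cast this
  linarith

lemma plhyp_prod_T {ι : Type} (s : Finset ι) (f : ι → plhypA) (e : ι → ℤ)
    (hf : ∀ m ∈ s, ∃ c : ℂ, c ≠ 0 ∧ f m = c • LaurentPolynomial.T (e m)) :
    ∃ c : ℂ, c ≠ 0 ∧ ∏ m ∈ s, f m = c • LaurentPolynomial.T (∑ m ∈ s, e m) := by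
  classical
  induction s using Finset.induction_on with
  | empty => exact ⟨1, one_ne_zero, by simp⟩
  | insert a s ha ih =>
    obtain ⟨c, hc, h⟩ := ih fun i hi => hf i (mem_insert_of_mem hi)
    obtain ⟨c', hc', h'⟩ := hf a (mem_insert_self _ _)
    refine ⟨c' * c, mul_ne_zero hc' hc, ?_⟩
    rw [prod_insert ha, sum_insert ha, h, h', smul_mul_smul_comm, LaurentPolynomial.T_add]

/-- The quadratic polynomial attached to a translate of the hyperbola. -/
def plhypPsi (r : ℂ) (m : ℤ × ℤ) : ℂ[X] :=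
  C (wm m.2) * X ^ 2 + C (wm m.1 * wm m.2) * X + C (wm m.1 * r)

lemma plhyp_xy (r : ℂ) : (LaurentPolynomial.T 1 : plhypA) *
    (LaurentPolynomial.C r * LaurentPolynomial.T (-1)) = algebraMap ℂ plhypA r := by
  rw [mul_left_comm, ← LaurentPolynomial.T_add, ← LaurentPolynomial.C_eq_algebraMap]
  simp

lemma plhyp_card_I (R : ℕ) : (Finset.Icc (-(R : ℤ)) R).card = 2 * R + 1 := by
  rw [Int.card_Icc]; omega

/-- At least `2 R` elements in each row. -/
lemma plhyp_row (R : ℕ) (S : Finset (ℤ × ℤ)) (φ : ℤ → ℤ × ℤ) (hφ : Function.Injective φ)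
    (hI : ∀ t ∈ Finset.Icc (-(R : ℤ)) R,
      φ t ∈ Finset.Icc (-(R : ℤ)) R ×ˢ Finset.Icc (-(R : ℤ)) R)
    (hB : ∀ t t', (φ t = 0 ∨ φ t ∈ S) → (φ t' = 0 ∨ φ t' ∈ S) → t = t') :
    ∃ Z ⊆ (Finset.Icc (-(R : ℤ)) R ×ˢ Finset.Icc (-(R : ℤ)) R).erase 0 \ S,
      2 * R ≤ Z.card ∧ ∀ m ∈ Z, ∃ t, φ t = m := by
  classical
  refine ⟨((Finset.Icc (-(R : ℤ)) R).filter fun t => ¬ (φ t = 0 ∨ φ t ∈ S)).image φ, ?_, ?_, ?_⟩
  · intro m hm
    obtain ⟨t, ht, rfl⟩ := mem_image.1 hm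
    obtain ⟨ht1, ht2⟩ := mem_filter.1 ht
    rw [not_or] at ht2
    exact mem_sdiff.2 ⟨mem_erase.2 ⟨ht2.1, hI t ht1⟩, ht2.2⟩
  · rw [card_image_of_injective _ hφ]
    have h1 := card_filter_add_card_filter_not (s := Finset.Icc (-(R : ℤ)) R)
      fun t => φ t = 0 ∨ φ t ∈ S
    have h2 : ((Finset.Icc (-(R : ℤ)) R).filter fun t => φ t = 0 ∨ φ t ∈ S).card ≤ 1 :=
      card_le_one.2 fun a ha b hb => hB a b (mem_filter.1 ha).2 (mem_filter.1 hb).2
    rw [plhyp_card_I] at h1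
    omega
  · intro m hm
    obtain ⟨t, _, rfl⟩ := mem_image.1 hm
    exact ⟨t, rfl⟩

/-- The function attached to one term of the decomposition. -/
lemma plhyp_GS {ι : Type} (r : ℂ) (hr : r ≠ 0) (R : ℕ) (p : ι → ℂ) (o : ι) (ho : p o = 0)
    (S : Finset (ℤ × ℤ))
    (hS : S ⊆ (Finset.Icc (-(R : ℤ)) R).erase 0 ×ˢ (Finset.Icc (-(R : ℤ)) R).erase 0)
    (hrow : ∀ m ∈ S, ∀ m' ∈ S, m.2 = m'.2 → m.1 = m'.1)
    (hcol : ∀ m ∈ S, ∀ m' ∈ S, m.1 = m'.1 → m.2 = m'.2)
    (a : ℂ[X]) (ha : a.natDegree ≤ 2 * S.card + 2 * (4 * R ^ 2 + 4 * R)) :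
    ∃ G ∈ plhypG (LaurentPolynomial.T 1 : plhypA)
      (LaurentPolynomial.C r * LaurentPolynomial.T (-1)) p p (8 * R ^ 2 + 8 * R)
        (8 * R ^ 2 + 8 * R),
      G o o = LaurentPolynomial.T (-((8 * R ^ 2 + 4 * R : ℕ) : ℤ)) *
        aeval (LaurentPolynomial.T 1 : plhypA) (a * ∏ m ∈ ((Finset.Icc (-(R : ℤ)) R).erase 0 ×ˢ
          (Finset.Icc (-(R : ℤ)) R).erase 0) \ S, plhypPsi r m) ∧
      (∀ i j, ∀ m₁ ∈ Finset.Icc (-(R : ℤ)) R, ∀ m₂ ∈ Finset.Icc (-(R : ℤ)) R, p i = wm m₁ →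
        p j = wm m₂ → ¬ (m₁ = 0 ∧ m₂ = 0) → (-m₁, -m₂) ∉ S → G i j = 0) ∧
      (∀ i j, ∀ m₂ ∈ Finset.Icc (-(R : ℤ)) R, p j = wm m₂ →
        G i j ∈ plhypL 1 ((8 * R ^ 2 + 4 * R : ℕ) : ℤ)) ∧
      (∀ i j, ∀ m₁ ∈ Finset.Icc (-(R : ℤ)) R, p i = wm m₁ →
        G i j ∈ plhypL (-1) ((8 * R ^ 2 + 4 * R : ℕ) : ℤ)) := by
  classical
  set I := Finset.Icc (-(R : ℤ)) R with hIdef
  set x : plhypA := LaurentPolynomial.T 1 with hx
  set y : plhypA := LaurentPolynomial.C r * LaurentPolynomial.T (-1) with hy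
  have hxy : x * y = algebraMap ℂ plhypA r := plhyp_xy r
  have hIneg : ∀ m ∈ I, -m ∈ I := by
    intro m hm
    simp only [hIdef, mem_Icc] at hm ⊢
    omega
  have h0I : (0 : ℤ) ∈ I := by simp [hIdef]
  have hcI : I.card = 2 * R + 1 := plhyp_card_I R
  have hcI0 : (I.erase 0).card = 2 * R := by rw [card_erase_of_mem h0I, hcI]; omega
  set W := I.erase 0 ×ˢ I.erase 0 with hW
  set V := (I ×ˢ I).erase 0 with hV
  have hWV : W ⊆ V := by
    intro m hm
    obtain ⟨h1, h2⟩ := mem_product.1 hm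
    refine mem_erase.2 ⟨fun h => (mem_erase.1 h1).1 (by rw [h]; rfl), mem_product.2
      ⟨(mem_erase.1 h1).2, (mem_erase.1 h2).2⟩⟩
  have hcW : W.card = 4 * R ^ 2 := by rw [hW, card_product, hcI0]; ring
  have hcV : V.card = 4 * R ^ 2 + 4 * R := by
    have h00 : ((0 : ℤ × ℤ)) ∈ I ×ˢ I := mem_product.2 ⟨h0I, h0I⟩
    have := card_erase_add_one h00
    rw [card_product, hcI] at this
    have e : (2 * R + 1) * (2 * R + 1) = 4 * R ^ 2 + 4 * R + 1 := by ring
    rw [hV]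
    omega
  have hcU : (V \ S).card + S.card = 4 * R ^ 2 + 4 * R := by
    rw [card_sdiff_add_card_eq_card (hS.trans hWV), hcV]
  have hcWS : (W \ S).card + S.card = 4 * R ^ 2 := by
    rw [card_sdiff_add_card_eq_card hS, hcW]
  set F : ℤ × ℤ → ι → ι → plhypA := fun m i j =>
    (x + algebraMap ℂ plhypA (p i) + algebraMap ℂ plhypA (wm m.1)) *
      (y + algebraMap ℂ plhypA (p j) + algebraMap ℂ plhypA (wm m.2)) - algebraMap ℂ plhypA r
    with hF
  have hFG : ∀ m, F m ∈ plhypG x y p p 1 1 := fun m => plhyp_G_fac _ _ _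
  obtain ⟨G₀, hG₀, hG₀o⟩ := plhyp_lift r hr p p o o ho ho (S.card + (4 * R ^ 2 + 4 * R)) a
    (by omega)
  have hyT : y = r • LaurentPolynomial.T (-1) := by rw [hy, LaurentPolynomial.smul_eq_C_mul]
  -- the axes
  obtain ⟨c, hc, hcA⟩ := plhyp_prod_T (V \ W) (fun m => F m o o)
    (fun m => if m.1 = 0 then 1 else -1) (by
      intro m hm
      obtain ⟨hmV, hmW⟩ := mem_sdiff.1 hm
      obtain ⟨hm0, hmI⟩ := mem_erase.1 hmV
      obtain ⟨hm1, hm2⟩ := mem_product.1 hmI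
      by_cases h1 : m.1 = 0
      · have h2 : m.2 ≠ 0 := fun h2 => hm0 (Prod.ext h1 h2)
        refine ⟨wm m.2, plhyp_wm_ne h2, ?_⟩
        simp only [hF, ho, h1, plhyp_wm_zero, map_zero, add_zero, if_true]
        rw [mul_add, hxy, Algebra.smul_def]
        ring
      · have h2 : m.2 = 0 := by
          by_contra h2
          exact hmW (mem_product.2 ⟨mem_erase.2 ⟨h1, hm1⟩, mem_erase.2 ⟨h2, hm2⟩⟩)
        refine ⟨wm m.1 * r, mul_ne_zero (plhyp_wm_ne h1) hr, ?_⟩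
        simp only [hF, ho, h1, h2, plhyp_wm_zero, map_zero, add_zero, if_false]
        rw [add_mul, hxy, mul_smul, ← hyT, Algebra.smul_def]
        ring)
  have hsum : ∑ m ∈ V \ W, (if m.1 = 0 then (1 : ℤ) else -1) = 0 := by
    have hchar : ∀ m ∈ V \ W, (m.1 = 0 ∧ m.2 ≠ 0) ∨ (m.1 ≠ 0 ∧ m.2 = 0) := by
      intro m hm
      obtain ⟨hmV, hmW⟩ := mem_sdiff.1 hm
      obtain ⟨hm0, hmI⟩ := mem_erase.1 hmV
      obtain ⟨hm1, hm2⟩ := mem_product.1 hmI
      by_cases h1 : m.1 = 0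
      · exact Or.inl ⟨h1, fun h2 => hm0 (Prod.ext h1 h2)⟩
      · refine Or.inr ⟨h1, ?_⟩
        by_contra h2
        exact hmW (mem_product.2 ⟨mem_erase.2 ⟨h1, hm1⟩, mem_erase.2 ⟨h2, hm2⟩⟩)
    refine Finset.sum_involution (fun m _ => m.swap) ?_ ?_ ?_ ?_
    · intro m hm
      rcases hchar m hm with ⟨h1, h2⟩ | ⟨h1, h2⟩ <;> simp [h1, h2]
    · intro m hm _ h
      have e : m.2 = m.1 := congrArg Prod.fst h
      rcases hchar m hm with ⟨h1, h2⟩ | ⟨h1, h2⟩
      · exact h2 (e.trans h1)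
      · exact h1 (e.symm.trans h2)
    · intro m hm
      obtain ⟨hmV, hmW⟩ := mem_sdiff.1 hm
      obtain ⟨hm0, hmI⟩ := mem_erase.1 hmV
      obtain ⟨hm1, hm2⟩ := mem_product.1 hmI
      refine mem_sdiff.2 ⟨mem_erase.2 ⟨fun h => hm0 ?_, mem_product.2 ⟨hm2, hm1⟩⟩, fun h => hmW ?_⟩
      · exact Prod.ext (congrArg Prod.snd h) (congrArg Prod.fst h)
      · exact mem_product.2 ⟨(mem_product.1 h).2, (mem_product.1 h).1⟩
    · intro m _
      rfl
  rw [hsum, LaurentPolynomial.T_zero] at hcA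
  have hxm : x ∈ plhypL 1 1 := plhyp_T_mem (by norm_num)
  have hxm' : x ∈ plhypL (-1) (-1) := plhyp_T_mem (by norm_num)
  have hym : y ∈ plhypL 1 (-1) := by
    rw [hyT]; exact Submodule.smul_mem _ _ (plhyp_T_mem (by norm_num))
  have hym' : y ∈ plhypL (-1) 1 := by
    rw [hyT]; exact Submodule.smul_mem _ _ (plhyp_T_mem (by norm_num))
  refine ⟨c⁻¹ • (G₀ * ∏ m ∈ V \ S, F m), Submodule.smul_mem _ _ ?_, ?_, ?_, ?_, ?_⟩
  · exact plhyp_G_mono (by omega) (by omega)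
      (plhyp_G_mul hG₀ (plhyp_G_prod (V \ S) F fun m _ => hFG m))
  · have hsub : W \ S ⊆ V \ S := sdiff_subset_sdiff hWV Subset.rfl
    have hsd : (V \ S) \ (W \ S) = V \ W := by
      ext m
      simp only [mem_sdiff]
      constructor
      · rintro ⟨⟨h1, h2⟩, h3⟩
        exact ⟨h1, fun h => h3 ⟨h, h2⟩⟩
      · rintro ⟨h1, h2⟩
        exact ⟨⟨h1, fun h => h2 (hS h)⟩, fun h => h2 h.1⟩
    have hψ : ∀ m, F m o o = LaurentPolynomial.T (-1) * aeval x (plhypPsi r m) := by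
      intro m
      have hT : LaurentPolynomial.T (-1) * x = 1 := by
        rw [hx, ← LaurentPolynomial.T_add]; simp
      have hy' : y = algebraMap ℂ plhypA r * LaurentPolynomial.T (-1) := by
        rw [hyT, Algebra.smul_def]
      simp only [hF, ho, map_zero, add_zero, plhypPsi, map_add, map_mul, map_pow, aeval_C,
        aeval_X]
      rw [hy']
      linear_combination (algebraMap ℂ plhypA r - algebraMap ℂ plhypA (wm m.2) * x -
        algebraMap ℂ plhypA (wm m.1) * algebraMap ℂ plhypA (wm m.2)) * hT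
    simp only [Pi.smul_apply, Pi.mul_apply, Finset.prod_apply]
    rw [← prod_sdiff hsub, hsd, hcA, hG₀o]
    simp only [hψ]
    rw [prod_mul_distrib, prod_const, map_mul, map_prod, LaurentPolynomial.T_pow,
      smul_mul_assoc, one_mul, mul_smul_comm, smul_smul, inv_mul_cancel₀ hc, one_smul]
    have e : (LaurentPolynomial.T (-((8 * R ^ 2 + 4 * R : ℕ) : ℤ)) : plhypA) =
        LaurentPolynomial.T (-((S.card + (4 * R ^ 2 + 4 * R) : ℕ) : ℤ)) *
          LaurentPolynomial.T (((W \ S).card : ℤ) * -1) := by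
      rw [← LaurentPolynomial.T_add]
      congr 1
      have : (((W \ S).card + S.card : ℕ) : ℤ) = ((4 * R ^ 2 : ℕ) : ℤ) := by rw [hcWS]
      push_cast at this ⊢
      linarith
    rw [e]
    ring
  · intro i j m₁ hm₁ m₂ hm₂ hi hj hne hnS
    have hmem : (-m₁, -m₂) ∈ V \ S := by
      refine mem_sdiff.2 ⟨mem_erase.2 ⟨fun h => hne ?_, mem_product.2
        ⟨hIneg _ hm₁, hIneg _ hm₂⟩⟩, hnS⟩
      have h1 : -m₁ = 0 := congrArg Prod.fst h
      have h2 : -m₂ = 0 := congrArg Prod.snd h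
      exact ⟨neg_eq_zero.1 h1, neg_eq_zero.1 h2⟩
    have hz : F (-m₁, -m₂) i j = 0 := by
      simp only [hF, hi, hj, plhyp_wm_neg, map_neg, add_neg_cancel_right]
      rw [hxy, sub_self]
    simp only [Pi.smul_apply, Pi.mul_apply, Finset.prod_apply]
    rw [prod_eq_zero hmem hz, mul_zero, smul_zero]
  · intro i j m₂ hm₂ hj
    obtain ⟨Z, hZ, hZc, hZm⟩ := plhyp_row R S (fun t => (t, -m₂))
      (fun a b h => congrArg Prod.fst h)
      (fun t ht => mem_product.2 ⟨ht, hIneg _ hm₂⟩) (by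
        rintro t t' (h | h) (h' | h')
        · exact (congrArg Prod.fst h).trans (congrArg Prod.fst h').symm
        · exact absurd (congrArg Prod.snd h) (mem_erase.1 (mem_product.1 (hS h')).2).1
        · exact absurd (congrArg Prod.snd h') (mem_erase.1 (mem_product.1 (hS h)).2).1
        · exact hrow _ h _ h' rfl)
    have h1 := plhyp_prod_wt (σ := 1) (V \ S) Z hZ (fun m => F m i j)
      (fun m _ => by
        simpa using plhyp_G_wt zero_le_one le_rfl hxm (plhyp_L_mono (by norm_num) hym) (hFG m) i j)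
      (fun m hm => by
        obtain ⟨t, rfl⟩ := hZm m hm
        have : F (t, -m₂) i j = (p i + wm t) • y := by
          simp only [hF, hj, plhyp_wm_neg, map_neg, add_neg_cancel_right, Algebra.smul_def,
            map_add]
          rw [← hxy]
          ring
        show F (t, -m₂) i j ∈ _
        rw [this]
        exact Submodule.smul_mem _ _ hym)
    have h2 := plhyp_G_wt zero_le_one le_rfl hxm (plhyp_L_mono (by norm_num) hym) hG₀ i j
    simp only [Pi.smul_apply, Pi.mul_apply, Finset.prod_apply]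
    refine Submodule.smul_mem _ _ (plhyp_L_mono ?_ (plhyp_L_mul h2 h1))
    have e1 : (((V \ S).card + S.card : ℕ) : ℤ) = ((4 * R ^ 2 + 4 * R : ℕ) : ℤ) := by rw [hcU]
    have e2 : ((2 * R : ℕ) : ℤ) ≤ Z.card := by exact_mod_cast hZc
    push_cast at e1 e2 ⊢
    linarith
  · intro i j m₁ hm₁ hi
    obtain ⟨Z, hZ, hZc, hZm⟩ := plhyp_row R S (fun t => (-m₁, t))
      (fun a b h => congrArg Prod.snd h)
      (fun t ht => mem_product.2 ⟨hIneg _ hm₁, ht⟩) (by
        rintro t t' (h | h) (h' | h')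
        · exact (congrArg Prod.snd h).trans (congrArg Prod.snd h').symm
        · exact absurd (congrArg Prod.fst h) (mem_erase.1 (mem_product.1 (hS h')).1).1
        · exact absurd (congrArg Prod.fst h') (mem_erase.1 (mem_product.1 (hS h)).1).1
        · exact hcol _ h _ h' rfl)
    have h1 := plhyp_prod_wt (σ := -1) (V \ S) Z hZ (fun m => F m i j)
      (fun m _ => by
        simpa using plhyp_G_wt le_rfl zero_le_one (plhyp_L_mono (by norm_num) hxm') hym'
          (hFG m) i j)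
      (fun m hm => by
        obtain ⟨t, rfl⟩ := hZm m hm
        have : F (-m₁, t) i j = (p j + wm t) • x := by
          simp only [hF, hi, plhyp_wm_neg, map_neg, add_neg_cancel_right, Algebra.smul_def,
            map_add]
          rw [← hxy]
          ring
        show F (-m₁, t) i j ∈ _
        rw [this]
        exact Submodule.smul_mem _ _ hxm')
    have h2 := plhyp_G_wt le_rfl zero_le_one (plhyp_L_mono (by norm_num) hxm') hym' hG₀ i j
    simp only [Pi.smul_apply, Pi.mul_apply, Finset.prod_apply]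
    refine Submodule.smul_mem _ _ (plhyp_L_mono ?_ (plhyp_L_mul h2 h1))
    have e1 : (((V \ S).card + S.card : ℕ) : ℤ) = ((4 * R ^ 2 + 4 * R : ℕ) : ℤ) := by rw [hcU]
    have e2 : ((2 * R : ℕ) : ℤ) ≤ Z.card := by exact_mod_cast hZc
    push_cast at e1 e2 ⊢
    linarith

lemma plhyp_psi_eval (r τ : ℂ) (m : ℤ × ℤ) :
    (plhypPsi r m).eval τ = wm m.2 * τ ^ 2 + wm m.1 * wm m.2 * τ + wm m.1 * r := by
  simp [plhypPsi]

lemma plhyp_pr_sum (p : ℤ) (hp : 0 ≤ p) (g : plhypA) :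
    plhypPr (fun w => |w| ≤ p) g + plhypPr (fun w => p < w) g + plhypPr (fun w => w < -p) g
      = g := by
  have : plhypPr (fun w => |w| ≤ p) + plhypPr (fun w => p < w) + plhypPr (fun w => w < -p)
      = LinearMap.id := by
    refine (AddMonoidAlgebra.basis ℤ ℂ).ext fun w => ?_
    simp only [plhyp_basis, LinearMap.add_apply, plhyp_pr_T, LinearMap.id_apply, abs_le]
    by_cases h1 : p < w
    · rw [if_neg (by omega), if_pos h1, if_neg (by omega)]; simp
    · by_cases h2 : w < -p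
      · rw [if_neg (by omega), if_neg h1, if_pos h2]; simp
      · rw [if_pos (by omega), if_neg h1, if_neg h2]; simp
  exact congrArg (fun L : plhypA →ₗ[ℂ] plhypA => L g) this

lemma plhyp_pr_mid (p : ℤ) (g : plhypA) : plhypPr (fun w => |w| ≤ p) g ∈
    Submodule.span ℂ ((fun w : ℤ => (LaurentPolynomial.T w : plhypA)) '' Set.Icc (-p) p) := by
  have hg : g ∈ Submodule.span ℂ (Set.range (AddMonoidAlgebra.basis ℤ ℂ)) := by
    rw [Module.Basis.span_eq]; trivial
  induction hg using Submodule.span_induction with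
  | zero => simp
  | add a b _ _ ha hb => rw [map_add]; exact add_mem ha hb
  | smul c a _ ha => rw [map_smul]; exact Submodule.smul_mem _ _ ha
  | mem a ha =>
    obtain ⟨w, rfl⟩ := ha
    rw [plhyp_basis, plhyp_pr_T]
    split_ifs with h
    · exact Submodule.subset_span ⟨w, abs_le.1 h, rfl⟩
    · exact Submodule.zero_mem _

lemma plhyp_fin {B : Type} (E : ℕ) (f : ℕ → ℕ → B) :
    {Y : B | ∃ k ≤ E, ∃ q ≤ E, Y = f k q}.Finite := by
  refine ((Set.finite_Iic E).image2 f (Set.finite_Iic E)).subset ?_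
  rintro _ ⟨k, hk, q, hq, rfl⟩
  exact ⟨k, hk, q, hq, rfl⟩

lemma plhyp_inW {R E : ℕ} {i : Ix R E} (hi : inW i) :
    ∃ m : Finset.Icc (-(R : ℤ)) R, i = Sum.inl m := by
  rcases i with m | k
  · exact ⟨m, rfl⟩
  · simp [inW] at hi

end

open LaurentPolynomial in
/-- The algebraic input for the hyperbola `x y = r`. -/
theorem hyper_ok (r : ℂ) (hr : r ≠ 0) (R j : ℕ) (hR : 1 ≤ R)
    (hj : ∀ a b : ℂ, a ≠ 0 → b ≠ 0 → ∀ S : Finset (ℤ × ℤ), (∀ m ∈ S, |m.1| ≤ R ∧ |m.2| ≤ R ∧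
      m.1 ≠ 0 ∧ m.2 ≠ 0 ∧ a * m.2 + b * m.1 + m.1 * m.2 = 0) → S.card ≤ j) :
    CurveOK (org R (8 * R ^ 2 + 8 * R)) (org R (8 * R ^ 2 + 8 * R)) inW inW (okS j)
      (gen (T 1 : LaurentPolynomial ℂ) (LaurentPolynomial.C r * T (-1)) (8 * R ^ 2 + 8 * R)
        (pos (R := R) (E := 8 * R ^ 2 + 8 * R)) (pos (R := R) (E := 8 * R ^ 2 + 8 * R)) :
          Set (Ix R (8 * R ^ 2 + 8 * R) → Ix R (8 * R ^ 2 + 8 * R) → LaurentPolynomial ℂ)) 1 := by
  classical
  set E := 8 * R ^ 2 + 8 * R with hE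
  set p : ℤ := ((8 * R ^ 2 + 4 * R : ℕ) : ℤ) with hp
  have hp0 : 0 ≤ p := Int.natCast_nonneg _
  set x : plhypA := T 1 with hx
  set y : plhypA := LaurentPolynomial.C r * T (-1) with hy
  set pt := plhypPr fun w => p < w with hpt
  set pb := plhypPr fun w => w < -p with hpb
  have hpt0 : ∀ f ∈ plhypL 1 p, pt f = 0 := fun f hf =>
    plhyp_pr_zero _ (fun w hw => by omega) hf
  have hpb0 : ∀ f ∈ plhypL (-1) p, pb f = 0 := fun f hf =>
    plhyp_pr_zero _ (fun w hw => by omega) hf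
  have hyT : y = r • T (-1) := by rw [hy, LaurentPolynomial.smul_eq_C_mul]
  have hxm : x ∈ plhypL 1 1 := plhyp_T_mem (by norm_num)
  have hxm' : x ∈ plhypL (-1) (-1) := plhyp_T_mem (by norm_num)
  have hym : y ∈ plhypL 1 (-1) := by
    rw [hyT]; exact Submodule.smul_mem _ _ (plhyp_T_mem (by norm_num))
  have hym' : y ∈ plhypL (-1) 1 := by
    rw [hyT]; exact Submodule.smul_mem _ _ (plhyp_T_mem (by norm_num))
  have horg : pos (org R E) = 0 := plhyp_wm_zero
  have hpE : 8 * R ^ 2 + 4 * R ≤ E := by omega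
  refine ⟨plhypPr fun w => |w| ≤ p, pt, pb, (fun w : ℤ => (T w : plhypA)) '' Set.Icc (-p) p,
    {Y | ∃ k ≤ E, ∃ q ≤ E, Y = fun i => pt ((x + algebraMap ℂ plhypA (pos i)) ^ k * y ^ q)},
    {Y | ∃ k ≤ E, ∃ q ≤ E, Y = fun j => pb ((y + algebraMap ℂ plhypA (pos j)) ^ k * x ^ q)},
    (Set.finite_Icc _ _).image _, plhyp_fin E _, plhyp_fin E _, plhyp_pr_sum p hp0,
    plhyp_pr_mid p, Submodule.subset_span ⟨0, ⟨by omega, hp0⟩, T_zero⟩, ?_, ?_, ?_⟩
  · rintro _ ⟨w, ⟨hw1, hw2⟩, rfl⟩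
    set I := Finset.Icc (-(R : ℤ)) R with hIdef
    set W := I.erase 0 ×ˢ I.erase 0 with hW
    have hcW : W.card = 4 * R ^ 2 := by
      have hcI0 : (I.erase 0).card = 2 * R := by
        rw [card_erase_of_mem (by simp [hIdef]), plhyp_card_I]; omega
      rw [hW, card_product, hcI0]; ring
    have hWne : ∀ m ∈ W, m.1 ≠ 0 ∧ m.2 ≠ 0 := fun m hm =>
      ⟨(mem_erase.1 (mem_product.1 hm).1).1, (mem_erase.1 (mem_product.1 hm).2).1⟩
    have hWI : ∀ m ∈ W, m.1 ∈ I ∧ m.2 ∈ I := fun m hm =>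
      ⟨(mem_erase.1 (mem_product.1 hm).1).2, (mem_erase.1 (mem_product.1 hm).2).2⟩
    obtain ⟨n, hn⟩ : ∃ n : ℕ, (n : ℤ) = w + p := ⟨(w + p).toNat, Int.toNat_of_nonneg (by omega)⟩
    obtain ⟨s, S, a, hS, ha, hsum⟩ := partfrac W (plhypPsi r)
      (fun m hm => natDegree_quadratic (plhyp_wm_ne (hWne m hm).2)) (4 * R ^ 2 + 4 * R) (X ^ n)
      (by
        rw [natDegree_X_pow, hcW]
        have : (n : ℤ) ≤ ((2 * (4 * R ^ 2) + 2 * (4 * R ^ 2 + 4 * R) : ℕ) : ℤ) := by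
          rw [hn]
          have : w + p ≤ 2 * p := by omega
          refine this.trans (le_of_eq ?_)
          rw [hp]; push_cast; ring
        exact_mod_cast this)
    have hSW : ∀ e, S e ⊆ W := by
      intro e
      rcases hS e with h | ⟨τ, h⟩
      · rw [h]; exact empty_subset _
      · rw [h]; exact filter_subset _ _
    have hroot : ∀ e, ∃ τ : ℂ, ∀ m ∈ S e,
        wm m.2 * τ ^ 2 + wm m.1 * wm m.2 * τ + wm m.1 * r = 0 := by
      intro e
      rcases hS e with h | ⟨τ, h⟩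
      · exact ⟨0, by simp [h]⟩
      · refine ⟨τ, fun m hm => ?_⟩
        rw [h] at hm
        rw [← plhyp_psi_eval]
        exact (mem_filter.1 hm).2
    have hrow : ∀ e, ∀ m ∈ S e, ∀ m' ∈ S e, m.2 = m'.2 → m.1 = m'.1 := by
      intro e m hm m' hm' h2
      obtain ⟨τ, hτ⟩ := hroot e
      have e1 := hτ m hm
      have e2 := hτ m' hm'
      rw [← h2] at e2
      by_contra hne
      have hd : wm m.1 - wm m'.1 ≠ 0 := sub_ne_zero.2 fun h => hne (plhyp_wm_inj h)
      have e3 : wm m.2 * τ + r = 0 := by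
        apply mul_left_cancel₀ hd
        linear_combination e1 - e2
      have e4 : wm m.2 * τ ^ 2 = 0 := by linear_combination e1 - wm m.1 * e3
      have hτ0 : τ = 0 := by
        rcases mul_eq_zero.1 e4 with h | h
        · exact absurd h (plhyp_wm_ne (hWne m (hSW e hm)).2)
        · exact pow_eq_zero_iff (two_ne_zero) |>.1 h
      rw [hτ0] at e3
      exact hr (by simpa using e3)
    have hcol : ∀ e, ∀ m ∈ S e, ∀ m' ∈ S e, m.1 = m'.1 → m.2 = m'.2 := by
      intro e m hm m' hm' h1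
      obtain ⟨τ, hτ⟩ := hroot e
      have e1 := hτ m hm
      have e2 := hτ m' hm'
      rw [← h1] at e2
      by_contra hne
      have hd : wm m.2 - wm m'.2 ≠ 0 := sub_ne_zero.2 fun h => hne (plhyp_wm_inj h)
      have e3 : τ ^ 2 + wm m.1 * τ = 0 := by
        apply mul_left_cancel₀ hd
        linear_combination e1 - e2
      have e4 : wm m.1 * r = 0 := by linear_combination e1 - wm m.2 * e3
      exact mul_ne_zero (plhyp_wm_ne (hWne m (hSW e hm)).1) hr e4
    have hcard : ∀ e, (S e).card ≤ j := by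
      intro e
      rcases (S e).eq_empty_or_nonempty with h | ⟨m₀, hm₀⟩
      · rw [h]; simp
      obtain ⟨τ, hτ⟩ := hroot e
      have hτ0 : τ ≠ 0 := by
        intro h
        have := hτ m₀ hm₀
        rw [h] at this
        exact mul_ne_zero (plhyp_wm_ne (hWne m₀ (hSW e hm₀)).1) hr (by simpa using this)
      have hc := plhyp_c_ne
      refine hj (τ / (2 * Real.pi * Complex.I)) (r / (2 * Real.pi * Complex.I * τ))
        (div_ne_zero hτ0 hc) (div_ne_zero hr (mul_ne_zero hc hτ0)) (S e) fun m hm => ?_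
      obtain ⟨h1, h2⟩ := hWI m (hSW e hm)
      obtain ⟨h3, h4⟩ := hWne m (hSW e hm)
      refine ⟨abs_le.2 (mem_Icc.1 h1), abs_le.2 (mem_Icc.1 h2), h3, h4, ?_⟩
      have e1 := hτ m hm
      simp only [wm] at e1
      generalize (2 * Real.pi * Complex.I : ℂ) = c at *
      field_simp
      apply mul_left_cancel₀ hc
      linear_combination e1
    choose G hG hGo hGz hGt hGb using fun e => plhyp_GS r hr R (pos (R := R) (E := E)) (org R E)
      horg (S e) (hSW e) (hrow e) (hcol e) (a e) (ha e)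
    have hneg : ∀ m ∈ I, -m ∈ I := by
      intro m hm
      simp only [hIdef, mem_Icc] at hm ⊢
      omega
    refine ⟨s, G, fun e => (S e).attach.image fun m =>
      (Sum.inl ⟨-m.1.2, hneg _ (hWI m.1 (hSW e m.2)).2⟩ : Ix R E), hG, fun e => ⟨?_, ?_⟩, ?_, ?_,
      ?_, ?_, fun e j => plhyp_span_top pt (hG e) j, fun e i => plhyp_span_bot pb (hG e) i⟩
    · exact card_image_le.trans (by rw [card_attach]; exact hcard e)
    · intro i hi
      obtain ⟨m, _, rfl⟩ := mem_image.1 hi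
      refine ⟨rfl, fun h => ?_⟩
      have h1 : -m.1.2 = 0 := congrArg Subtype.val (Sum.inl.inj h)
      exact (hWne m.1 (hSW e m.2)).2 (neg_eq_zero.1 h1)
    · simp only [hGo]
      rw [← Finset.mul_sum, ← map_sum, hsum, map_pow, aeval_X, T_pow, ← T_add, hn]
      congr 1
      ring
    · intro e i j hi hj hne hjS
      obtain ⟨m₁, rfl⟩ := plhyp_inW hi
      obtain ⟨m₂, rfl⟩ := plhyp_inW hj
      refine hGz e _ _ m₁.1 m₁.2 m₂.1 m₂.2 rfl rfl (fun h => hne ⟨?_, ?_⟩) fun h => hjS ?_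
      · exact congrArg Sum.inl (Subtype.ext h.1)
      · exact congrArg Sum.inl (Subtype.ext h.2)
      · exact mem_image.2 ⟨⟨_, h⟩, mem_attach _ _, congrArg Sum.inl (Subtype.ext (neg_neg _))⟩
    · intro e i j hj
      obtain ⟨m₂, rfl⟩ := plhyp_inW hj
      exact hpt0 _ (hGt e _ _ m₂.1 m₂.2 rfl)
    · intro e i j hi
      obtain ⟨m₁, rfl⟩ := plhyp_inW hi
      exact hpb0 _ (hGb e _ _ m₁.1 m₁.2 rfl)
  · rintro _ ⟨k, hk, q, _, rfl⟩
    obtain ⟨g, hg, hg1, hg2⟩ := plhyp_fam hxm hym R pt hpt0 k q hk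
    have hG := plhyp_G_aeval₂ (x := x) (y := y) (p₁ := pos (R := R) (E := E))
      (p₂ := pos (R := R) (E := E)) k g
    have hG' := plhyp_G_mono hk (hg.trans hpE) hG
    refine ⟨_, hG', fun i => ?_, fun i j hj hne => ?_, fun j => plhyp_span_top pt hG' j,
      fun i j => hpb0 _ ?_⟩
    · simp only [horg, map_zero, add_zero]
      exact hg1 _
    · obtain ⟨m, rfl⟩ := plhyp_inW hj
      exact hg2 _ m.1 m.2 fun h => hne (congrArg Sum.inl (Subtype.ext h))
    · have := plhyp_G_wt le_rfl zero_le_one (plhyp_L_mono (by norm_num) hxm') hym' hG i j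
      refine plhyp_L_mono ?_ this
      have h' : (g.natDegree : ℤ) ≤ p := by rw [hp]; exact_mod_cast hg
      simpa using h'
  · rintro _ ⟨k, hk, q, _, rfl⟩
    obtain ⟨g, hg, hg1, hg2⟩ := plhyp_fam hym' hxm' R pb hpb0 k q hk
    have hG := plhyp_G_aeval₁ (x := x) (y := y) (p₁ := pos (R := R) (E := E))
      (p₂ := pos (R := R) (E := E)) k g
    have hG' := plhyp_G_mono (hg.trans hpE) hk hG
    refine ⟨_, hG', fun j => ?_, fun i j hi hne => ?_, fun i => plhyp_span_bot pb hG' i,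
      fun i j => hpt0 _ ?_⟩
    · simp only [horg, map_zero, add_zero]
      exact hg1 _
    · obtain ⟨m, rfl⟩ := plhyp_inW hi
      exact hg2 _ m.1 m.2 fun h => hne (congrArg Sum.inl (Subtype.ext h))
    · have := plhyp_G_wt zero_le_one le_rfl hxm (plhyp_L_mono (by norm_num) hym) hG i j
      refine plhyp_L_mono ?_ this
      have h' : (g.natDegree : ℤ) ≤ p := by rw [hp]; exact_mod_cast hg
      simpa using h'

end Pool.Agent.Lib.MP_1f047c_nt.PL
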