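import Pool.Agent.Lib.MP_1f047c_nt.PLBin

open Polynomial Finset

namespace Pool.Agent.Lib.MP_1f047c_nt.PL

/-- Repeated differences isolate the top coefficient. -/
lemma plind_top {K W : Type} [Field K] [CharZero K] (u α : K) (hα : α ≠ 0) (ν E : ℕ)
    (P : ℕ → (ℕ → ℕ → W → K) → Prop)
    (hsh : ∀ N F, P (N + 1) F → P N fun a i x => α⁻¹ * F (a + 1) i x - F a i x) (N n : ℕ)
    (w : Fin (n + 1) → W → K)
    (h : P (N + n) fun a i x => ∑ k : Fin (n + 1), α ^ a * row u (bp K ν E k) a i * w k x) :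
    P N fun a i x => α ^ a * row u (bp K ν E 0) a i * w (Fin.last n) x := by
  induction n with
  | zero => simpa using h
  | succ n ih =>
    refine ih (fun k => w k.succ) ?_
    have h1 := hsh (N + n) _ h
    convert h1 using 4 with a i x
    have e0 : row u (bp K ν E 0) (a + 1) i = row u (bp K ν E 0) a i := by
      rw [← row_shift, bp_zero, C_comp]
    have e1 : ∀ k, row u (bp K ν E (k + 1)) (a + 1) i =
        row u (bp K ν E (k + 1)) a i + row u (bp K ν E k) a i := fun k => by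
      rw [← row_shift, bp_shift, row_add]
    rw [mul_sum, ← sum_sub_distrib, Fin.sum_univ_succ (n := n + 1)]
    simp only [Fin.val_zero, Fin.val_succ, e0, e1]
    rw [show α⁻¹ * (α ^ (a + 1) * row u (bp K ν E 0) a i * w 0 x) -
      α ^ a * row u (bp K ν E 0) a i * w 0 x = 0 by field_simp; ring, zero_add]
    refine sum_congr rfl fun k _ => ?_
    field_simp
    ring

/-- All coefficients vanish if a single row cannot occur. -/
lemma plind_zero {K W V : Type} [Field K] [CharZero K] [Zero V] (u α : K) (hα : α ≠ 0) (ν E : ℕ)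
    (P : ℕ → (ℕ → ℕ → W → K) → Prop)
    (hsh : ∀ N F, P (N + 1) F → P N fun a i x => α⁻¹ * F (a + 1) i x - F a i x)
    (hmono : ∀ N F, P (N + 1) F → P N F) (φ : V → W → K) (hφ : ∀ x, φ 0 x = 0) (N : ℕ)
    (hz : ∀ y, (P N fun a i x => α ^ a * row u (bp K ν E 0) a i * φ y x) → y = 0) (n : ℕ)
    (w : Fin n → V)
    (h : P (N + n) fun a i x => ∑ k : Fin n, α ^ a * row u (bp K ν E k) a i * φ (w k) x) :
    w = 0 := by
  induction n with
  | zero => exact Subsingleton.elim _ _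
  | succ n ih =>
    have h1 := hmono (N + n) _ h
    have h2 := hz _ (plind_top u α hα ν E P hsh N n (fun k => φ (w k)) h1)
    have h3 : (fun k : Fin n => w k.castSucc) = 0 := by
      refine ih _ ?_
      simpa only [Fin.sum_univ_castSucc, h2, hφ, mul_zero, add_zero, Fin.val_castSucc] using h1
    funext k
    refine Fin.lastCases h2 (fun k => congrFun h3 k) k

/-- The span of the rows on the curve. -/
def plindA {K ι : Type} [Field K] (C : ι → K × K) (ν₁ ν₂ : ℕ) :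
    Submodule K (ℕ → ℕ → ℕ → ℕ → K) :=
  Submodule.span K {G | ∃ (e : ι) (D D' : K[X]), D.degree < ν₁ ∧ D'.degree < ν₂ ∧
    G = fun a i b j => row (C e).1 D a i * row (C e).2 D' b j}

/-- Agreement with a combination of rows on the curve in a box. -/
def plindIn {K ι : Type} [Field K] (C : ι → K × K) (ν₁ ν₂ E N₁ N₂ : ℕ)
    (F : ℕ → ℕ → ℕ → ℕ → K) : Prop :=
  ∃ G ∈ plindA C ν₁ ν₂, ∀ a ≤ N₁, ∀ b ≤ N₂, ∀ i ≤ E, ∀ j ≤ E, G a i b j = F a i b j

lemma plind_deg {K : Type} [Field K] {D : K[X]} {ν : ℕ} (h : D.degree < ν) :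
    (D.comp (X + 1)).degree < ν := by
  have := degree_taylor D 1
  rw [taylor_apply, C_1] at this
  rwa [this]

lemma plind_sh₁ {K ι : Type} [Field K] {C : ι → K × K} {ν₁ ν₂ : ℕ} {G : ℕ → ℕ → ℕ → ℕ → K}
    (h : G ∈ plindA C ν₁ ν₂) : (fun a => G (a + 1)) ∈ plindA C ν₁ ν₂ := by
  induction h using Submodule.span_induction with
  | mem G hG =>
    obtain ⟨e, D, D', h1, h2, rfl⟩ := hG
    refine Submodule.subset_span ⟨e, D.comp (X + 1), D', plind_deg h1, h2, ?_⟩
    simp only [row_shift]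
  | zero => exact zero_mem _
  | add G G' _ _ h1 h2 => exact add_mem h1 h2
  | smul c G _ h1 => exact Submodule.smul_mem _ c h1

lemma plind_sh₂ {K ι : Type} [Field K] {C : ι → K × K} {ν₁ ν₂ : ℕ} {G : ℕ → ℕ → ℕ → ℕ → K}
    (h : G ∈ plindA C ν₁ ν₂) : (fun a i b => G a i (b + 1)) ∈ plindA C ν₁ ν₂ := by
  induction h using Submodule.span_induction with
  | mem G hG =>
    obtain ⟨e, D, D', h1, h2, rfl⟩ := hG
    refine Submodule.subset_span ⟨e, D, D'.comp (X + 1), h1, plind_deg h2, ?_⟩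
    simp only [row_shift]
  | zero => exact zero_mem _
  | add G G' _ _ h1 h2 => exact add_mem h1 h2
  | smul c G _ h1 => exact Submodule.smul_mem _ c h1

lemma plind_row_C {K : Type} [Field K] (u c : K) (a i : ℕ) : row u (C c) a i = c * u ^ i := by
  have : (op u ^ i) (C c) = C (c * u ^ i) := by
    induction i with
    | zero => simp
    | succ i ih =>
      rw [pow_succ', Module.End.mul_apply, ih]
      simp only [op, LinearMap.add_apply, LinearMap.smul_apply, Module.End.one_apply,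
        derivative_C, add_zero, smul_C, smul_eq_mul]
      congr 1
      ring
  rw [row, this, eval_C]

lemma plind_base {K ι : Type} [Field K] [CharZero K] {C : ι → K × K} {u v α β : K}
    {ν₁ ν₂ E n₁ n₂ : ℕ} (h : ZK C u v α β ν₁ ν₂ E n₁ n₂) (c : K)
    (hc : plindIn C ν₁ ν₂ E n₁ n₂ fun a i b j =>
      β ^ b * row v (bp K ν₂ E 0) b j * (α ^ a * row u (bp K ν₁ E 0) a i * c)) : c = 0 := by
  by_contra h0
  obtain ⟨G, hG, hF⟩ := hc
  have hL : ∀ ν : ℕ, ((Nat.lcmUpto ν ^ E : ℕ) : K) ≠ 0 := fun ν =>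
    Nat.cast_ne_zero.2 (pow_ne_zero _ (Nat.lcmUpto_ne_zero ν))
  obtain ⟨t, f, g, rfl⟩ := Submodule.mem_span_set'.1 hG
  choose e D D' h1 h2 h3 using fun k => (g k).2
  refine h t e (fun k => ((((Nat.lcmUpto ν₁ ^ E : ℕ) : K) * ((Nat.lcmUpto ν₂ ^ E : ℕ) : K) * c)⁻¹ *
    f k) • D k) D' (fun k => (degree_smul_le _ _).trans_lt (h1 k)) h2 fun a ha b hb i hi j hj => ?_
  have h4 := hF a ha b hb i hi j hj
  simp only [Finset.sum_apply, Pi.smul_apply, h3, smul_eq_mul, bp_zero, plind_row_C] at h4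
  simp only [row_smul, mul_assoc]
  rw [← mul_sum]
  simp only [mul_assoc] at h4
  rw [h4]
  have := hL ν₁
  have := hL ν₂
  field_simp

/-- The rows at the point `(u, v; α, β)` are independent modulo the rows on the curve. -/
theorem indep {K ι : Type} [Field K] [CharZero K] (C : ι → K × K) (u v α β : K) (hα : α ≠ 0)
    (hβ : β ≠ 0) (ν₁ ν₂ E n₁ n₂ : ℕ) (h : ZK C u v α β ν₁ ν₂ E n₁ n₂)
    (γ : Fin n₁ × Fin n₂ → K)
    (hγ : (∑ b : Fin n₁ × Fin n₂, γ b • fun
        p : (Fin (2 * n₁ + 1) × Fin (E + 1)) × (Fin (2 * n₂ + 1) × Fin (E + 1)) =>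
          α ^ (p.1.1 : ℕ) * row u (bp K ν₁ E b.1) p.1.1 p.1.2 *
            (β ^ (p.2.1 : ℕ) * row v (bp K ν₂ E b.2) p.2.1 p.2.2)) ∈
      Submodule.span K (Set.range fun e : ι × Fin ν₁ × Fin ν₂ => fun
        p : (Fin (2 * n₁ + 1) × Fin (E + 1)) × (Fin (2 * n₂ + 1) × Fin (E + 1)) =>
          row (C e.1).1 (bp K ν₁ E e.2.1) p.1.1 p.1.2 *
            row (C e.1).2 (bp K ν₂ E e.2.2) p.2.1 p.2.2)) : γ = 0 := by
  have hA : plindIn C ν₁ ν₂ E (n₁ + n₁) (n₂ + n₂) fun a i b j => ∑ k : Fin n₁,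
      α ^ a * row u (bp K ν₁ E k) a i *
        ∑ l : Fin n₂, β ^ b * row v (bp K ν₂ E l) b j * γ (k, l) := by
    obtain ⟨c, hc⟩ := (Finsupp.mem_span_range_iff_exists_finsupp).1 hγ
    refine ⟨c.sum fun e r => r • fun a i b j => row (C e.1).1 (bp K ν₁ E e.2.1) a i *
      row (C e.1).2 (bp K ν₂ E e.2.2) b j, ?_, fun a ha b hb i hi j hj => ?_⟩
    · refine Submodule.sum_mem _ fun e _ => Submodule.smul_mem _ _ (Submodule.subset_span
        ⟨e.1, _, _, ?_, ?_, rfl⟩)
      · rw [bp_degree]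
        exact_mod_cast e.2.1.2
      · rw [bp_degree]
        exact_mod_cast e.2.2.2
    · have h1 := congrFun hc ((⟨a, by omega⟩, ⟨i, by omega⟩), (⟨b, by omega⟩, ⟨j, by omega⟩))
      simp only [Finsupp.sum, Finset.sum_apply, Pi.smul_apply, smul_eq_mul] at h1 ⊢
      rw [h1, Fintype.sum_prod_type]
      refine sum_congr rfl fun k _ => ?_
      rw [mul_sum]
      exact sum_congr rfl fun l _ => by ring
  have key : (fun k l => γ (k, l)) = 0 := by
    refine plind_zero (W := ℕ × ℕ) (V := Fin n₂ → K) u α hα ν₁ E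
      (fun N F => plindIn C ν₁ ν₂ E N (n₂ + n₂) fun a i b j => F a i (b, j)) ?_ ?_
      (fun y x => ∑ l : Fin n₂, β ^ x.1 * row v (bp K ν₂ E l) x.1 x.2 * y l) (by simp) n₁ ?_ n₁ _ hA
    · rintro N F ⟨G, hG, hF⟩
      refine ⟨(α⁻¹ • fun a => G (a + 1)) - G,
        sub_mem (Submodule.smul_mem _ _ (plind_sh₁ hG)) hG, fun a ha b hb i hi j hj => ?_⟩
      simp only [Pi.sub_apply, Pi.smul_apply, smul_eq_mul]
      rw [hF (a + 1) (by omega) b hb i hi j hj, hF a (by omega) b hb i hi j hj]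
    · rintro N F ⟨G, hG, hF⟩
      exact ⟨G, hG, fun a ha => hF a (by omega)⟩
    intro y hy
    refine plind_zero (W := ℕ × ℕ) (V := K) v β hβ ν₂ E
      (fun N F => plindIn C ν₁ ν₂ E n₁ N fun a i b j => F b j (a, i)) ?_ ?_
      (fun c x => α ^ x.1 * row u (bp K ν₁ E 0) x.1 x.2 * c) (by simp) n₂
      (fun c hc => plind_base h c hc) n₂ y ?_
    · rintro N F ⟨G, hG, hF⟩
      refine ⟨(β⁻¹ • fun a i b => G a i (b + 1)) - G,
        sub_mem (Submodule.smul_mem _ _ (plind_sh₂ hG)) hG, fun a ha b hb i hi j hj => ?_⟩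
      simp only [Pi.sub_apply, Pi.smul_apply, smul_eq_mul]
      rw [hF a ha (b + 1) (by omega) i hi j hj, hF a ha b (by omega) i hi j hj]
    · rintro N F ⟨G, hG, hF⟩
      exact ⟨G, hG, fun a ha b hb => hF a ha b (by omega)⟩
    · obtain ⟨G, hG, hF⟩ := hy
      refine ⟨G, hG, fun a ha b hb i hi j hj => ?_⟩
      rw [hF a ha b hb i hi j hj]
      simp only [mul_sum]
      exact sum_congr rfl fun l _ => by ring
  funext b
  exact congrFun (congrFun key b.1) b.2

end Pool.Agent.Lib.MP_1f047c_nt.PL
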