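import Pool.Agent.Lib.MP_1f047c_nt.PLDefs

open Polynomial Finset

namespace Pool.Agent.Lib.MP_1f047c_nt.PL

private lemma pljar_two (ρ a b : ℝ) (hρ : ρ ≠ 0) (v : ℤ × ℤ) (hv : v ≠ 0) (T : Finset (ℤ × ℤ))
    (hT : ∀ m ∈ T, (a + m.1) * (b + m.2) = ρ ∧ (a + m.1 - v.1) * (b + m.2 - v.2) = ρ) :
    T.card ≤ 2 := by
  by_contra hc
  obtain ⟨m, n, k, hm, hn, hk, hmn, hmk, hnk⟩ := Finset.two_lt_card_iff.1 (not_le.1 hc)
  have hq : ∀ m ∈ T, (v.2 : ℝ) * (a + m.1) ^ 2 - v.1 * v.2 * (a + m.1) + ρ * v.1 = 0 := by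
    intro m hm
    obtain ⟨h1, h2⟩ := hT m hm
    linear_combination (a + m.1 - v.1) * h1 - (a + m.1) * h2
  have hne : ∀ m ∈ T, ∀ n ∈ T, m ≠ n → (m.1 : ℝ) - n.1 ≠ 0 := by
    intro m hm n hn hmn h
    apply hmn
    have h1 := (hT m hm).1
    have h2 := (hT n hn).1
    have e1 : (m.1 : ℝ) = n.1 := sub_eq_zero.1 h
    have hx : a + (n.1 : ℝ) ≠ 0 := by
      intro h0
      rw [h0, zero_mul] at h2
      exact hρ h2.symm
    rw [e1] at h1
    have e2 : (m.2 : ℝ) = n.2 := by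
      have := mul_left_cancel₀ hx (h1.trans h2.symm)
      linarith
    exact Prod.ext (by exact_mod_cast e1) (by exact_mod_cast e2)
  have hv2 : (v.2 : ℝ) ≠ 0 := by
    intro h0
    have h1 := hq m hm
    rw [h0] at h1
    have h2 : ρ * v.1 = 0 := by linear_combination h1
    have h3 : (v.1 : ℝ) = 0 := (mul_eq_zero.1 h2).resolve_left hρ
    exact hv (Prod.ext (by exact_mod_cast h3) (by exact_mod_cast h0))
  have hs : ∀ m ∈ T, ∀ n ∈ T, m ≠ n → 2 * a + (m.1 : ℝ) + n.1 - v.1 = 0 := by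
    intro m hm n hn hmn
    have h1 : (v.2 : ℝ) * (((m.1 : ℝ) - n.1) * (2 * a + (m.1 : ℝ) + n.1 - v.1)) = 0 := by
      linear_combination hq m hm - hq n hn
    exact (mul_eq_zero.1 ((mul_eq_zero.1 h1).resolve_left hv2)).resolve_left (hne m hm n hn hmn)
  apply hne n hn k hk hnk
  linear_combination hs m hm n hn hmn - hs m hm k hk hmk

private lemma pljar_close (σ : ℤ) (hσ : 1 ≤ σ) (p q : ℤ) (h : p / σ = q / σ) :
    p - q < σ ∧ q - p < σ := by
  have h1 := Int.emod_add_mul_ediv p σ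
  have h2 := Int.emod_add_mul_ediv q σ
  have h3 := Int.emod_nonneg p (show σ ≠ 0 by omega)
  have h4 := Int.emod_nonneg q (show σ ≠ 0 by omega)
  have h5 := Int.emod_lt_of_pos p (show 0 < σ by omega)
  have h6 := Int.emod_lt_of_pos q (show 0 < σ by omega)
  rw [h] at h1
  constructor <;> linarith

private lemma pljar_real (R σ : ℕ) (hσ : 1 ≤ σ) (a b ρ : ℝ) (η : ℤ) (hη : η = 1 ∨ η = -1)
    (hρ : 0 < η * ρ) (S : Finset (ℤ × ℤ))
    (hS : ∀ m ∈ S, |m.1| ≤ R ∧ |m.2| ≤ R ∧ (a + m.1) * (b + m.2) = ρ) :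
    S.card ≤ 2 * (4 * R / σ + 1) + 8 * σ ^ 2 := by
  classical
  have hρ0 : ρ ≠ 0 := by
    intro h
    rw [h, mul_zero] at hρ
    exact lt_irrefl _ hρ
  set key : ℤ × ℤ → Bool × ℤ :=
    fun m => (decide (0 < a + m.1), (m.1 - η * m.2 + 2 * R) / σ) with hkey
  set rep : ℤ × ℤ → ℤ × ℤ := fun m => Function.invFunOn key (S : Set (ℤ × ℤ)) (key m) with hrep
  have hr : ∀ m ∈ S, rep m ∈ S ∧ key (rep m) = key m := by
    intro m hm
    have := Function.invFunOn_pos (f := key) (s := (S : Set (ℤ × ℤ))) (b := key m)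
      ⟨m, hm, rfl⟩
    exact ⟨this.1, this.2⟩
  have hσ' : (1 : ℤ) ≤ σ := by exact_mod_cast hσ
  have h1 : (S.filter fun m => rep m = m).card ≤ 2 * (4 * R / σ + 1) := by
    have hc : ((Finset.univ : Finset Bool) ×ˢ Finset.Icc (0 : ℤ) ((4 * R / σ : ℕ) : ℤ)).card
        = 2 * (4 * R / σ + 1) := by
      rw [Finset.card_product, Int.card_Icc]
      simp only [Finset.card_univ, Fintype.card_bool, sub_zero]
      congr 1
    rw [← hc]
    apply Finset.card_le_card_of_injOn key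
    · intro m hm
      have hm' := (Finset.mem_filter.1 (Finset.mem_coe.1 hm)).1
      obtain ⟨b1, b2, -⟩ := hS m hm'
      have b1' := abs_le.1 b1
      have b2' := abs_le.1 b2
      simp only [Finset.coe_product, Set.mem_prod, Finset.coe_univ, Set.mem_univ, true_and,
        Finset.mem_coe, Finset.mem_Icc, hkey]
      constructor
      · apply Int.ediv_nonneg _ (by omega)
        rcases hη with rfl | rfl <;> omega
      · push_cast
        apply Int.ediv_le_ediv (by omega)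
        rcases hη with rfl | rfl <;> omega
    · intro m hm n hn hmn
      have e1 := (Finset.mem_filter.1 (Finset.mem_coe.1 hm)).2
      have e2 := (Finset.mem_filter.1 (Finset.mem_coe.1 hn)).2
      rw [← e1, ← e2]
      simp only [hrep, hmn]
  have hcl : ∀ m ∈ S, ∀ n ∈ S, key m = key n →
      m - n ∈ Finset.Ioo (-(σ : ℤ)) σ ×ˢ Finset.Ioo (-(σ : ℤ)) σ := by
    intro m hm n hn hmn
    have k1 : decide (0 < a + m.1) = decide (0 < a + n.1) := congrArg Prod.fst hmn
    have k2 : (m.1 - η * m.2 + 2 * R) / σ = (n.1 - η * n.2 + 2 * R) / σ := congrArg Prod.snd hmn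
    have k3 := pljar_close σ hσ' _ _ k2
    have em := (hS m hm).2.2
    have en := (hS n hn).2.2
    have hxm : a + (m.1 : ℝ) ≠ 0 := by
      intro h0
      rw [h0, zero_mul] at em
      exact hρ0 em.symm
    have hxn : a + (n.1 : ℝ) ≠ 0 := by
      intro h0
      rw [h0, zero_mul] at en
      exact hρ0 en.symm
    have hxx : 0 < (a + (m.1 : ℝ)) * (a + n.1) := by
      rw [decide_eq_decide] at k1
      rcases lt_or_gt_of_ne hxm with h | h
      · have h' : a + (n.1 : ℝ) < 0 :=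
          lt_of_le_of_ne (not_lt.1 fun h2 => absurd (k1.2 h2) (not_lt.2 h.le)) hxn
        exact mul_pos_of_neg_of_neg h h'
      · exact mul_pos h (k1.1 h)
    have hsign : (m.1 - n.1) * (η * (m.2 - n.2)) ≤ 0 := by
      have e : ((a + (m.1 : ℝ)) * (a + n.1)) * (((m.1 : ℝ) - n.1) * (η * ((m.2 : ℝ) - n.2)))
          = -((η * ρ) * ((m.1 : ℝ) - n.1) ^ 2) := by
        linear_combination (η * ((m.1 : ℝ) - n.1) * (a + n.1)) * em
          - (η * ((m.1 : ℝ) - n.1) * (a + m.1)) * en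
      have e2 : ((m.1 : ℝ) - n.1) * (η * ((m.2 : ℝ) - n.2)) ≤ 0 := by
        by_contra hc
        have h3 := mul_pos hxx (not_le.1 hc)
        have h4 : 0 ≤ (η * ρ) * ((m.1 : ℝ) - n.1) ^ 2 := mul_nonneg hρ.le (sq_nonneg _)
        linarith
      exact_mod_cast e2
    simp only [Finset.mem_product, Finset.mem_Ioo, Prod.fst_sub, Prod.snd_sub]
    rcases mul_nonpos_iff.1 hsign with h | h <;> rcases hη with rfl | rfl <;> omega
  have h2 : (S.filter fun m => ¬ rep m = m).card ≤ 8 * σ ^ 2 := by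
    have hc : (Finset.Ioo (-(σ : ℤ)) σ ×ˢ Finset.Ioo (-(σ : ℤ)) σ).card ≤ 4 * σ ^ 2 := by
      rw [Finset.card_product, Int.card_Ioo]
      have : ((σ : ℤ) - -(σ : ℤ) - 1).toNat ≤ 2 * σ := by omega
      calc _ ≤ (2 * σ) * (2 * σ) := Nat.mul_le_mul this this
        _ = 4 * σ ^ 2 := by ring
    have h3 := Finset.card_le_mul_card_image_of_maps_to
      (f := fun m => m - rep m) (s := S.filter fun m => ¬ rep m = m)
      (t := (Finset.Ioo (-(σ : ℤ)) σ ×ˢ Finset.Ioo (-(σ : ℤ)) σ))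
      (fun m hm => by
        have hm' := (Finset.mem_filter.1 hm).1
        exact hcl m hm' _ (hr m hm').1 (hr m hm').2.symm) 2
      (fun v _ => by
        by_cases hv : v = 0
        · rw [Finset.filter_eq_empty_iff.2]
          · simp
          · intro m hm h
            exact (Finset.mem_filter.1 hm).2 (sub_eq_zero.1 (h.trans hv)).symm
        · apply pljar_two ρ a b hρ0 v hv
          intro m hm
          obtain ⟨hm1, hm2⟩ := Finset.mem_filter.1 hm
          have hm' := (Finset.mem_filter.1 hm1).1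
          refine ⟨(hS m hm').2.2, ?_⟩
          have h4 := (hS _ (hr m hm').1).2.2
          rw [← hm2]
          simp only [Prod.fst_sub, Prod.snd_sub]
          push_cast
          linear_combination h4)
    omega
  have h3 := Finset.card_filter_add_card_filter_not (s := S) (fun m => rep m = m)
  omega

/-- Few lattice translates of a hyperbola pass through one point. -/
theorem jarnik (R σ : ℕ) (hσ : 1 ≤ σ) (a b : ℂ) (ha : a ≠ 0) (hb : b ≠ 0) (S : Finset (ℤ × ℤ))
    (hS : ∀ m ∈ S, |m.1| ≤ R ∧ |m.2| ≤ R ∧ m.1 ≠ 0 ∧ m.2 ≠ 0 ∧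
      a * m.2 + b * m.1 + m.1 * m.2 = 0) :
    S.card ≤ 2 * (4 * R / σ + 1) + 8 * σ ^ 2 + 1 := by
  have hre : ∀ m ∈ S, (a.re + m.1) * (b.re + m.2) = a.re * b.re := by
    intro m hm
    have h := congrArg Complex.re (hS m hm).2.2.2.2
    simp only [Complex.add_re, Complex.mul_re, Complex.intCast_re, Complex.intCast_im, mul_zero,
      sub_zero, Complex.zero_re] at h
    linear_combination h
  rcases lt_trichotomy (a.re * b.re) 0 with h | h | h
  · have := pljar_real R σ hσ a.re b.re _ (-1) (Or.inr rfl) (by push_cast; linarith) S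
      fun m hm => ⟨(hS m hm).1, (hS m hm).2.1, hre m hm⟩
    omega
  · have : S.card ≤ 1 := by
      rw [Finset.card_le_one]
      intro m hm n hn
      obtain ⟨-, -, m1, m2, em⟩ := hS m hm
      obtain ⟨-, -, n1, n2, en⟩ := hS n hn
      have rm := hre m hm
      have rn := hre n hn
      rcases mul_eq_zero.1 h with h0 | h0
      · rw [h0, zero_add, zero_mul] at rm rn
        have r1 := (mul_eq_zero.1 rm).resolve_left (by exact_mod_cast m1)
        have r2 := (mul_eq_zero.1 rn).resolve_left (by exact_mod_cast n1)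
        have e2 : m.2 = n.2 := by
          have : (m.2 : ℝ) = n.2 := by linarith
          exact_mod_cast this
        rw [e2] at em
        have hb2 : b + (n.2 : ℂ) ≠ 0 := by
          intro h1
          have h2 : a * n.2 = 0 := by linear_combination en - (n.1 : ℂ) * h1
          exact (mul_ne_zero ha (by exact_mod_cast n2)) h2
        have e1 : (m.1 : ℂ) = n.1 := by
          apply mul_left_cancel₀ hb2
          linear_combination em - en
        exact Prod.ext (by exact_mod_cast e1) e2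
      · rw [h0, zero_add, mul_zero] at rm rn
        have r1 := (mul_eq_zero.1 rm).resolve_right (by exact_mod_cast m2)
        have r2 := (mul_eq_zero.1 rn).resolve_right (by exact_mod_cast n2)
        have e1 : m.1 = n.1 := by
          have : (m.1 : ℝ) = n.1 := by linarith
          exact_mod_cast this
        rw [e1] at em
        have ha2 : a + (n.1 : ℂ) ≠ 0 := by
          intro h1
          have h2 : b * n.1 = 0 := by linear_combination en - (n.2 : ℂ) * h1
          exact (mul_ne_zero hb (by exact_mod_cast n1)) h2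
        have e2 : (m.2 : ℂ) = n.2 := by
          apply mul_left_cancel₀ ha2
          linear_combination em - en
        exact Prod.ext e1 (by exact_mod_cast e2)
    omega
  · have := pljar_real R σ hσ a.re b.re _ 1 (Or.inl rfl) (by push_cast; linarith) S
      fun m hm => ⟨(hS m hm).1, (hS m hm).2.1, hre m hm⟩
    omega

theorem exists_window (L : ℝ) : ∃ R j : ℕ, 1 ≤ R ∧ L * (1 + j * (1 + Real.log R)) ≤ R ∧
    ∀ a b : ℂ, a ≠ 0 → b ≠ 0 → ∀ S : Finset (ℤ × ℤ), (∀ m ∈ S, |m.1| ≤ R ∧ |m.2| ≤ R ∧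
      m.1 ≠ 0 ∧ m.2 ≠ 0 ∧ a * m.2 + b * m.1 + m.1 * m.2 = 0) → S.card ≤ j := by
  obtain ⟨τ, hτ⟩ := exists_nat_ge (172 * |L| + 1)
  have hL := abs_nonneg L
  have hτ1 : (1 : ℝ) ≤ τ := by linarith
  have hτ1' : 1 ≤ τ := by exact_mod_cast hτ1
  refine ⟨τ ^ 8, 19 * τ ^ 6, Nat.one_le_pow _ _ hτ1', ?_, ?_⟩
  · push_cast
    have h1 : Real.log ((τ : ℝ) ^ 8) ≤ 8 * τ := by
      rw [Real.log_pow]
      have := Real.log_le_sub_one_of_pos (show (0 : ℝ) < τ by linarith)
      push_cast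
      linarith
    have h0 : 0 ≤ Real.log ((τ : ℝ) ^ 8) := Real.log_nonneg (one_le_pow₀ hτ1)
    have h6 : (0 : ℝ) ≤ (τ : ℝ) ^ 6 := by positivity
    have h7 : (1 : ℝ) ≤ (τ : ℝ) ^ 7 := one_le_pow₀ hτ1
    have h2 : 1 + 19 * (τ : ℝ) ^ 6 * (1 + Real.log ((τ : ℝ) ^ 8)) ≤ 172 * (τ : ℝ) ^ 7 := by
      have h3 : 19 * (τ : ℝ) ^ 6 * (1 + Real.log ((τ : ℝ) ^ 8)) ≤ 19 * (τ : ℝ) ^ 6 * (9 * τ) :=
        mul_le_mul_of_nonneg_left (by linarith) (by linarith)
      have h4 : 19 * (τ : ℝ) ^ 6 * (9 * τ) = 171 * (τ : ℝ) ^ 7 := by ring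
      linarith
    have h5 : 0 ≤ 1 + 19 * (τ : ℝ) ^ 6 * (1 + Real.log ((τ : ℝ) ^ 8)) := by positivity
    calc L * (1 + 19 * (τ : ℝ) ^ 6 * (1 + Real.log ((τ : ℝ) ^ 8)))
        ≤ |L| * (172 * (τ : ℝ) ^ 7) :=
          (mul_le_mul_of_nonneg_right (le_abs_self L) h5).trans (mul_le_mul_of_nonneg_left h2 hL)
      _ = (172 * |L|) * (τ : ℝ) ^ 7 := by ring
      _ ≤ τ * (τ : ℝ) ^ 7 := mul_le_mul_of_nonneg_right (by linarith) (by linarith)
      _ = (τ : ℝ) ^ 8 := by ring
  · intro a b ha hb S hS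
    have h := jarnik (τ ^ 8) (τ ^ 2) (Nat.one_le_pow _ _ hτ1') a b ha hb S hS
    have e : 4 * τ ^ 8 / τ ^ 2 = 4 * τ ^ 6 := by
      apply Nat.div_eq_of_eq_mul_left (Nat.one_le_pow _ _ hτ1')
      ring
    have h4 : (τ ^ 2) ^ 2 ≤ τ ^ 6 := by
      rw [← pow_mul]
      exact Nat.pow_le_pow_right hτ1' (by norm_num)
    have h6 : 1 ≤ τ ^ 6 := Nat.one_le_pow _ _ hτ1'
    rw [e] at h
    omega

end Pool.Agent.Lib.MP_1f047c_nt.PL
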