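import Pool.Agent.Lib.MP_1f047c_nt.PLCalc2

open Polynomial Finset

namespace Pool.Agent.Lib.MP_1f047c_nt.PL

lemma nq_nonneg (n : ℝ) (κ : ℕ) (f : Sm) : 0 ≤ nq n κ f := Real.sqrt_nonneg _

private lemma plriesz_int_nonneg {n : ℝ} (hn : 0 ≤ n) (κ : ℕ) (u : ℝ → ℝ) :
    0 ≤ ∫ x in (0 : ℝ)..n, (x * (n - x)) ^ κ * u x ^ 2 :=
  intervalIntegral.integral_nonneg hn fun _ hx =>
    mul_nonneg (pow_nonneg (mul_nonneg hx.1 (sub_nonneg.2 hx.2)) _) (sq_nonneg _)

private lemma plriesz_cs_real {n : ℝ} (hn : 0 ≤ n) (κ : ℕ) {u v : ℝ → ℝ} (hu : Continuous u)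
    (hv : Continuous v) :
    ∫ x in (0 : ℝ)..n, (x * (n - x)) ^ κ * (u x * v x) ≤
      √(∫ x in (0 : ℝ)..n, (x * (n - x)) ^ κ * u x ^ 2) *
        √(∫ x in (0 : ℝ)..n, (x * (n - x)) ^ κ * v x ^ 2) := by
  set a := ∫ x in (0 : ℝ)..n, (x * (n - x)) ^ κ * u x ^ 2 with ha
  set b := ∫ x in (0 : ℝ)..n, (x * (n - x)) ^ κ * (u x * v x) with hb
  set c := ∫ x in (0 : ℝ)..n, (x * (n - x)) ^ κ * v x ^ 2 with hc
  have ha0 : 0 ≤ a := plriesz_int_nonneg hn κ u
  have key : ∀ t : ℝ, 0 ≤ a * (t * t) + (2 * b) * t + c := by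
    intro t
    have h0 := plriesz_int_nonneg hn κ (fun x => t * u x + v x)
    have i1 : IntervalIntegrable (fun x => (x * (n - x)) ^ κ * u x ^ 2 * (t * t))
        MeasureTheory.volume 0 n := Continuous.intervalIntegrable (by fun_prop) _ _
    have i2 : IntervalIntegrable (fun x => (x * (n - x)) ^ κ * (u x * v x) * (2 * t))
        MeasureTheory.volume 0 n := Continuous.intervalIntegrable (by fun_prop) _ _
    have i3 : IntervalIntegrable (fun x => (x * (n - x)) ^ κ * v x ^ 2)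
        MeasureTheory.volume 0 n := Continuous.intervalIntegrable (by fun_prop) _ _
    have h1 : ∫ x in (0 : ℝ)..n, (x * (n - x)) ^ κ * (t * u x + v x) ^ 2 =
        a * (t * t) + (2 * b) * t + c := by
      have h2 : (fun x => (x * (n - x)) ^ κ * (t * u x + v x) ^ 2) = fun x =>
          (x * (n - x)) ^ κ * u x ^ 2 * (t * t) + (x * (n - x)) ^ κ * (u x * v x) * (2 * t) +
            (x * (n - x)) ^ κ * v x ^ 2 := by
        funext x; ring
      rw [h2, intervalIntegral.integral_add (i1.add i2) i3, intervalIntegral.integral_add i1 i2,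
        intervalIntegral.integral_mul_const, intervalIntegral.integral_mul_const]
      ring
    rw [← h1]
    exact h0
  have hd := discrim_le_zero key
  rw [discrim] at hd
  rw [← Real.sqrt_mul ha0]
  exact le_trans (le_abs_self b) (Real.abs_le_sqrt (by nlinarith))

private lemma plriesz_integrand (n : ℝ) (κ : ℕ) (f g : Sm) (m : ℤ) (x : ℝ) :
    (wS n κ * cj f * g * expS (-wm m)).1 x =
      (((x * (n - x)) ^ κ : ℝ) : ℂ) * starRingEnd ℂ (f.1 x) * g.1 x *
        Complex.exp (-wm m * x) := by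
  rw [← wS_apply]
  rfl

private lemma plriesz_norm_exp (m : ℤ) (x : ℝ) : ‖Complex.exp (-wm m * x)‖ = 1 := by
  have h : -wm m * x = ((-(2 * Real.pi * m * x) : ℝ) : ℂ) * Complex.I := by
    simp only [wm]
    push_cast
    ring
  rw [h, Complex.norm_exp_ofReal_mul_I]

/-- Cauchy–Schwarz with a unimodular factor. -/
lemma cs {n : ℝ} (hn : 0 ≤ n) (κ : ℕ) (f g : Sm) (m : ℤ) :
    ‖fc n m (wS n κ * cj f * g)‖ ≤ nq n κ f * nq n κ g := by
  have hf := Sm.cont f
  have hg := Sm.cont g
  refine le_trans ?_ (plriesz_cs_real hn κ hf.norm hg.norm)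
  refine le_trans (intervalIntegral.norm_integral_le_integral_norm hn) (le_of_eq ?_)
  refine intervalIntegral.integral_congr fun x hx => ?_
  rw [Set.uIcc_of_le hn] at hx
  have hw : 0 ≤ (x * (n - x)) ^ κ := pow_nonneg (mul_nonneg hx.1 (sub_nonneg.2 hx.2)) _
  rw [plriesz_integrand, norm_mul, norm_mul, norm_mul, plriesz_norm_exp, Complex.norm_conj,
    Complex.norm_real, Real.norm_of_nonneg hw]
  ring

private noncomputable def plriesz_fcL (n : ℝ) (m : ℤ) : Sm →ₗ[ℂ] ℂ where
  toFun f := fc n m f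
  map_add' f g := by
    simp only [fc]
    rw [← intervalIntegral.integral_add ((Sm.cont _).intervalIntegrable _ _)
      ((Sm.cont _).intervalIntegrable _ _), add_mul]
    rfl
  map_smul' c f := by
    simp only [fc, RingHom.id_apply]
    rw [← intervalIntegral.integral_smul, smul_mul_assoc]
    rfl

private lemma plriesz_cj_add (f g : Sm) : cj (f + g) = cj f + cj g :=
  Subtype.ext <| funext fun x => map_add (starRingEnd ℂ) (f.1 x) (g.1 x)

private lemma plriesz_cj_smul (c : ℂ) (f : Sm) : cj (c • f) = starRingEnd ℂ c • cj f :=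
  Subtype.ext <| funext fun x => map_mul (starRingEnd ℂ) c (f.1 x)

private lemma plriesz_diag {n : ℝ} (hn : 0 ≤ n) (κ : ℕ) (f : Sm) :
    fc n 0 (wS n κ * cj f * f) = ((nq n κ f ^ 2 : ℝ) : ℂ) := by
  rw [nq, Real.sq_sqrt (plriesz_int_nonneg hn κ fun x => ‖f.1 x‖), fc,
    ← intervalIntegral.integral_ofReal]
  refine intervalIntegral.integral_congr fun x _ => ?_
  rw [plriesz_integrand, mul_assoc _ (starRingEnd ℂ (f.1 x)), Complex.conj_mul']
  simp [wm]

/-- Riesz representation on the test space. -/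
theorem riesz {n : ℝ} (hn : 0 ≤ n) (κ : ℕ) {ν : ℕ} (z : ℂ)
    (hpos : ∀ D : TS ν, nq n κ (fn z D) = 0 → D = 0) (l : TS ν →ₗ[ℂ] ℂ) (A : ℝ) (hA : 0 ≤ A)
    (hl : Rho n κ z l A) :
    ∃ P : TS ν, nq n κ (fn z P) ≤ A ∧ ∀ D, l D = fc n 0 (wS n κ * cj (fn z P) * fn z D) := by
  classical
  let b := Module.finBasis ℂ (TS ν)
  let B : TS ν → TS ν →ₗ[ℂ] ℂ := fun P =>
    plriesz_fcL n 0 ∘ₗ LinearMap.mulLeft ℂ (wS n κ * cj (fn z P)) ∘ₗ fn z
  have hB : ∀ P D, B P D = fc n 0 (wS n κ * cj (fn z P) * fn z D) := fun _ _ => rfl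
  have hBadd : ∀ P P', B (P + P') = B P + B P' := by
    intro P P'
    refine LinearMap.ext fun D => ?_
    change plriesz_fcL n 0 (wS n κ * cj (fn z (P + P')) * fn z D) =
      plriesz_fcL n 0 (wS n κ * cj (fn z P) * fn z D) +
        plriesz_fcL n 0 (wS n κ * cj (fn z P') * fn z D)
    rw [map_add, plriesz_cj_add, mul_add, add_mul, map_add]
  have hBsmul : ∀ (c : ℂ) P, B (c • P) = starRingEnd ℂ c • B P := by
    intro c P
    refine LinearMap.ext fun D => ?_
    change plriesz_fcL n 0 (wS n κ * cj (fn z (c • P)) * fn z D) =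
      starRingEnd ℂ c • plriesz_fcL n 0 (wS n κ * cj (fn z P) * fn z D)
    rw [map_smul, plriesz_cj_smul, mul_smul_comm, smul_mul_assoc, map_smul]
  let pt : (Fin (Module.finrank ℂ (TS ν)) → ℂ) → TS ν := fun c =>
    b.equivFun.symm fun i => starRingEnd ℂ (c i)
  let Ψ : (Fin (Module.finrank ℂ (TS ν)) → ℂ) →ₗ[ℂ] (Fin (Module.finrank ℂ (TS ν)) → ℂ) :=
    { toFun := fun c j => B (pt c) (b j)
      map_add' := by
        intro c c'
        funext j
        have h : pt (c + c') = pt c + pt c' := by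
          simp only [pt]
          rw [← map_add]
          congr 1
          funext i
          simp
        rw [h, hBadd]
        rfl
      map_smul' := by
        intro a c
        funext j
        have h : pt (a • c) = starRingEnd ℂ a • pt c := by
          simp only [pt]
          rw [← map_smul]
          congr 1
          funext i
          simp
        rw [h, hBsmul]
        simp }
  have hinj : Function.Injective Ψ := by
    rw [injective_iff_map_eq_zero]
    intro c hc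
    have h1 : B (pt c) = 0 := b.ext fun j => congrFun hc j
    have h2 : ((nq n κ (fn z (pt c)) ^ 2 : ℝ) : ℂ) = 0 := by
      rw [← plriesz_diag hn, ← hB, h1]
      rfl
    have h3 : nq n κ (fn z (pt c)) = 0 := by
      have h4 : nq n κ (fn z (pt c)) ^ 2 = 0 := by exact_mod_cast h2
      exact pow_eq_zero_iff two_ne_zero |>.1 h4
    have h5 := hpos _ h3
    simp only [pt] at h5
    rw [LinearEquiv.map_eq_zero_iff] at h5
    funext i
    have h6 := congrFun h5 i
    simpa using h6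
  obtain ⟨c, hc⟩ := (LinearMap.injective_iff_surjective.1 hinj) fun j => l (b j)
  have hBl : B (pt c) = l := b.ext fun j => congrFun hc j
  refine ⟨pt c, ?_, fun D => by rw [← hB, hBl]⟩
  have h1 := hl (pt c)
  rw [← hBl, hB, plriesz_diag hn, Complex.norm_real, Real.norm_of_nonneg (sq_nonneg _)] at h1
  have h2 := nq_nonneg n κ (fn z (pt c))
  by_contra h3
  push Not at h3
  nlinarith

/-- Moments up to order `E` are realised by masses at the nodes `0, ..., E`. -/
theorem nodes (E : ℕ) : ∃ C : ℝ, 0 < C ∧ ∃ γ : Fin (E + 1) → ℕ → ℂ,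
    (∀ k, ∑ j ∈ range (E + 1), ‖γ k j‖ ≤ C) ∧
    ∀ i ≤ E, ∀ j ≤ E, ∑ k : Fin (E + 1), ((k : ℕ) : ℂ) ^ i * γ k j = if i = j then 1 else 0 := by
  classical
  let V : Matrix (Fin (E + 1)) (Fin (E + 1)) ℂ :=
    (Matrix.vandermonde fun k : Fin (E + 1) => ((k : ℕ) : ℂ)).transpose
  have hV : V.det ≠ 0 := by
    rw [Matrix.det_transpose, Matrix.det_vandermonde_ne_zero_iff]
    intro a b h
    exact Fin.ext (Nat.cast_injective (R := ℂ) h)
  have hVV : V * V⁻¹ = 1 := Matrix.mul_nonsing_inv V (isUnit_iff_ne_zero.2 hV)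
  let γ : Fin (E + 1) → ℕ → ℂ := fun k j => if h : j < E + 1 then V⁻¹ k ⟨j, h⟩ else 0
  refine ⟨1 + ∑ k : Fin (E + 1), ∑ j ∈ range (E + 1), ‖γ k j‖, by positivity, γ, fun k => ?_, ?_⟩
  · have := Finset.single_le_sum (f := fun k : Fin (E + 1) => ∑ j ∈ range (E + 1), ‖γ k j‖)
      (fun k _ => by positivity) (Finset.mem_univ k)
    linarith
  · intro i hi j hj
    have hi' : i < E + 1 := by omega
    have hj' : j < E + 1 := by omega
    have h := congrFun (congrFun hVV ⟨i, hi'⟩) ⟨j, hj'⟩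
    rw [Matrix.mul_apply, Matrix.one_apply] at h
    simp only [Fin.mk.injEq] at h
    rw [← h]
    refine Finset.sum_congr rfl fun k _ => ?_
    simp only [γ, dif_pos hj', V, Matrix.transpose_apply, Matrix.vandermonde_apply]

end Pool.Agent.Lib.MP_1f047c_nt.PL
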