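import Pool.Agent.Lib.MP_1f047c_nt.PLPois
import Pool.Agent.Lib.MP_1f047c_nt.PLGrow
import Pool.Agent.Lib.MP_1f047c_nt.PLGrow2
import Pool.Agent.Lib.MP_1f047c_nt.PLRiesz

open Polynomial Finset

namespace Pool.Agent.Lib.MP_1f047c_nt.PL

noncomputable def phiL : List ℂ → Sm → Sm
  | [], f => f
  | a :: as, f => sh a (phiL as f)

noncomputable def omL {ν : ℕ} (z w : ℂ) : List ℂ → Module.End ℂ (TS ν)
  | [] => 1
  | a :: as => omL z w as * ((w + a) • 1 - dT z)

lemma van_phiL {n : ℝ} {f : Sm} (as : List ℂ) {k : ℕ} (h : Van n f (k + as.length)) :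
    Van n (phiL as f) k := by
  induction as generalizing k with
  | nil => exact h
  | cons a as ih =>
    refine Van.sh (ih ?_) a
    rwa [List.length_cons, ← add_assoc, add_right_comm] at h

lemma bd_phiL {n : ℝ} {f : Sm} {A b G : ℝ} (h : Bd n f A b) (hA : 0 ≤ A) (hb : 0 ≤ b)
    (as : List ℂ) (has : ∀ a ∈ as, ‖a‖ + b ≤ G) : Bd n (phiL as f) (A * G ^ as.length) b := by
  induction as with
  | nil => simpa [phiL] using h
  | cons a as ih =>
    have h1 := has a List.mem_cons_self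
    have hG : 0 ≤ G := le_trans (by positivity) h1
    refine ((ih fun a ha => has a (List.mem_cons_of_mem _ ha)).sh a).mono (by positivity) hb ?_
      le_rfl
    rw [List.length_cons, pow_succ, ← mul_assoc]
    gcongr

lemma fc_phiL {n : ℝ} {f : Sm} {ν : ℕ} (z : ℂ) (m : ℤ) (as : List ℂ) (h : Van n f as.length)
    (D : TS ν) : fc n m (phiL as f * fn z D) = fc n m (f * fn z (omL z (wm m) as D)) := by
  induction as generalizing D with
  | nil => rfl
  | cons a as ih =>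
    have h1 : Van n (phiL as f) 1 := van_phiL as (by rwa [List.length_cons, add_comm] at h)
    have h2 := ih (h.mono (by simp)) (((wm m + a) • 1 - dT z : Module.End ℂ (TS ν)) D)
    rw [omL, Module.End.mul_apply, ← h2, fc, fc, phiL, mul_assoc, ibp h1, mul_assoc]
    have h3 : a • (fn z D * expS (-wm m)) - dd (fn z D * expS (-wm m)) =
        fn z (((wm m + a) • 1 - dT z : Module.End ℂ (TS ν)) D) * expS (-wm m) := by
      rw [dd_mul, dd_expS, dd_fn, LinearMap.sub_apply, LinearMap.smul_apply, Module.End.one_apply,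
        map_sub, map_smul, sub_mul, smul_mul_assoc, mul_smul_comm, add_smul, neg_smul]
      abel
    rw [h3]

lemma fl_omL {ν : ℕ} {z w : ℂ} {G : ℝ} (as : List ℂ) (has : ∀ a ∈ as, ‖w + a‖ + 2 ≤ G) {D : TS ν}
    {A : ℝ} (hA : 0 ≤ A) (h : Fl (fn z D) A) :
    Fl (fn z (omL z w as D)) (A * G ^ as.length) := by
  induction as generalizing D A with
  | nil => simpa [omL] using h
  | cons a as ih =>
    have h1 := has a List.mem_cons_self
    have hG : 0 ≤ G := le_trans (by positivity) h1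
    have h2 := ih (fun a ha => has a (List.mem_cons_of_mem _ ha)) (by positivity) (fl_op (w + a) h)
    intro k
    refine (h2 k).trans ?_
    rw [List.length_cons, pow_succ', ← mul_assoc A]
    gcongr

lemma fl_omL_inv {ν : ℕ} {z w : ℂ} (hz : ‖z‖ ≤ 1) (as : List ℂ) (has : ∀ a ∈ as, 3 ≤ ‖w + a‖)
    {D : TS ν} {A : ℝ} (h : Fl (fn z (omL z w as D)) A) : Fl (fn z D) A := by
  induction as generalizing D with
  | nil => exact h
  | cons a as ih =>
    exact fl_inv hz (has a List.mem_cons_self) (ih (fun a ha => has a (List.mem_cons_of_mem _ ha)) h)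

lemma omL_append {ν : ℕ} (z w : ℂ) (as bs : List ℂ) :
    omL (ν := ν) z w (as ++ bs) = omL z w bs * omL z w as := by
  induction as with
  | nil => simp [omL]
  | cons a as ih => rw [List.cons_append, omL, omL, ih, mul_assoc]

lemma omL_replicate {ν : ℕ} (z w a : ℂ) (k : ℕ) :
    omL (ν := ν) z w (List.replicate k a) = ((w + a) • 1 - dT z) ^ k := by
  induction k with
  | zero => rfl
  | succ k ih => rw [List.replicate_succ, omL, ih, pow_succ]

/-- The list of shifts which kills the test space at the given points. -/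
def blocks (ν : ℕ) (z : ℂ) (l : List ℂ) : List ℂ :=
  l.flatMap fun w => (-w + z) :: List.replicate ν (-w)

lemma length_blocks (ν : ℕ) (z : ℂ) (l : List ℂ) : (blocks ν z l).length = l.length * (ν + 1) := by
  induction l with
  | nil => simp [blocks]
  | cons a l ih =>
    simp only [blocks, List.flatMap_cons, List.length_append, List.length_cons,
      List.length_replicate] at ih ⊢
    rw [ih]; ring

lemma mem_blocks {ν : ℕ} {z a : ℂ} {l : List ℂ} (h : a ∈ blocks ν z l) :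
    ∃ w ∈ l, a = -w + z ∨ a = -w := by
  simp only [blocks, List.mem_flatMap, List.mem_cons, List.mem_replicate] at h
  obtain ⟨w, hw, h | h⟩ := h
  · exact ⟨w, hw, Or.inl h⟩
  · exact ⟨w, hw, Or.inr h.2⟩

lemma omL_blocks {ν : ℕ} (z w : ℂ) (l : List ℂ) (h : w ∈ l) :
    omL (ν := ν) z w (blocks ν z l) = 0 := by
  induction l with
  | nil => simp at h
  | cons a l ih =>
    have : blocks ν z (a :: l) = ((-a + z) :: List.replicate ν (-a)) ++ blocks ν z l := by
      simp [blocks]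
    rw [this, omL_append]
    rcases List.mem_cons.1 h with rfl | h
    · rw [omL, omL_replicate, add_neg_cancel, add_neg_cancel_left, dT_kill, mul_zero]
    · rw [ih h, zero_mul]

noncomputable def fcL (n : ℝ) (m : ℤ) : Sm →ₗ[ℂ] ℂ where
  toFun := fc n m
  map_add' f g := by
    simp only [fc, add_mul]
    exact intervalIntegral.integral_add ((Sm.cont _).intervalIntegrable _ _)
      ((Sm.cont _).intervalIntegrable _ _)
  map_smul' c f := by
    simp only [fc, smul_mul_assoc]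
    exact intervalIntegral.integral_smul c _

noncomputable def evS (x : ℝ) : Sm →ₗ[ℂ] ℂ := (LinearMap.proj x) ∘ₗ Sm.val.toLinearMap

lemma sh_pow (c : ℂ) (k : ℕ) :
    sh c ^ k = ∑ j ∈ range (k + 1), ((k.choose j : ℂ) * c ^ (k - j)) • dd ^ j := by
  have h : Commute dd (c • (1 : Module.End ℂ Sm)) := (Commute.one_right _).smul_right c
  rw [sh, add_comm, h.add_pow]
  refine sum_congr rfl fun j _ => ?_
  rw [_root_.smul_pow, one_pow, mul_smul_comm, mul_one, ← nsmul_eq_mul', ← Nat.cast_smul_eq_nsmul ℂ,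
    smul_smul]

lemma norm_wm (m : ℤ) : ‖wm m‖ = 2 * Real.pi * |(m : ℝ)| := by
  simp [wm, abs_of_pos Real.pi_pos]

lemma norm_wm_le {R : ℕ} (m : Finset.Icc (-(R : ℤ)) R) : ‖wm m.1‖ ≤ 8 * R := by
  have h := Finset.mem_Icc.1 m.2
  have h1 : |(m.1 : ℝ)| ≤ R := by exact_mod_cast abs_le.2 h
  rw [norm_wm]
  have := Real.pi_le_four
  have := Real.pi_pos
  have := abs_nonneg (m.1 : ℝ)
  nlinarith

lemma norm_wm_ge {m : ℤ} (hm : m ≠ 0) : 4 ≤ ‖wm m‖ := by
  have h1 : (1 : ℝ) ≤ |(m : ℝ)| := by exact_mod_cast Int.one_le_abs hm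
  rw [norm_wm]
  have := Real.two_le_pi
  nlinarith

lemma okS_pos {R E j : ℕ} {S : Finset (Ix R E)} (hS : okS j S) {w : ℂ}
    (hw : w ∈ S.toList.map pos) : 4 ≤ ‖w‖ ∧ ‖w‖ ≤ 8 * R := by
  obtain ⟨i, hi, rfl⟩ := List.mem_map.1 hw
  obtain ⟨h1, h2⟩ := hS.2 i (Finset.mem_toList.1 hi)
  rcases i with m | k
  · refine ⟨norm_wm_ge fun h => h2 ?_, norm_wm_le m⟩
    exact congrArg Sum.inl (Subtype.ext h)
  · simp [inW] at h1

theorem lift_core {n ν κ R E j : ℕ} (hn : 1 ≤ n) (hR : 1 ≤ R) {z : ℂ} (hz : z ≠ 0) (hz1 : ‖z‖ ≤ 1)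
    {Λ Θ Cn : ℝ} (hΛ : 0 ≤ Λ) (hgrow : ∀ D : TS ν, Fl (fn z D) (Λ * nq n κ (fn z D)))
    (hΘ : Θ = √n * n ^ κ * Real.exp (2 * n) * Λ) (hΘ1 : 1 ≤ Θ) (γ : Fin (E + 1) → ℕ → ℂ)
    (hγ : ∀ k, ∑ j ∈ range (E + 1), ‖γ k j‖ ≤ Cn)
    (hγ' : ∀ i ≤ E, ∀ j ≤ E, ∑ k : Fin (E + 1), ((k : ℕ) : ℂ) ^ i * γ k j = if i = j then 1 else 0)
    (S : Finset (Ix R E)) (hS : okS j S) (hk : S.card * (ν + 1) + E + 2 ≤ κ)
    (hb : 2 * (κ : ℝ) / n + 4 ≤ R) (l : TS ν →ₗ[ℂ] ℂ) (A : ℝ) (hA : 0 ≤ A) (hl : Rho n κ z l A) :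
    ∃ f : Ix R E → TS ν →ₗ[ℂ] ℂ, Adm n E z pos f ∧ f (org R E) = l ∧ (∀ i ∈ S, f i = 0) ∧
      (∀ i, inW i → Rho n κ z (f i)
        ((if S = ∅ then 1 else Θ ^ 2 * (20 * R) ^ (S.card * (ν + 1))) * A)) ∧
      ∀ i, ¬ inW i → Rho n κ z (f i) (Cn * (4 * n * (n ^ (2 * κ) * Λ ^ 2 * Real.exp (4 * n) * Θ *
        (20 * R) ^ (S.card * (ν + 1))) * R ^ (E + 2) *
          ((2 * (κ : ℝ) / n + 4) / R) ^ (κ - S.card * (ν + 1))) * A) := by
  have hn0 : (0 : ℝ) < n := by exact_mod_cast hn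
  have hR0 : (1 : ℝ) ≤ R := by exact_mod_cast hR
  set as := blocks ν z (S.toList.map pos) with has
  have hlen : as.length = S.card * (ν + 1) := by rw [has, length_blocks]; simp
  have hnorm : ∀ a ∈ as, 3 ≤ ‖a‖ ∧ ‖a‖ ≤ 8 * R + 1 := by
    intro a ha
    obtain ⟨w, hw, h⟩ := mem_blocks ha
    obtain ⟨h1, h2⟩ := okS_pos hS hw
    rcases h with rfl | rfl
    · have h3 := norm_add_le (-w) z
      have h4 := norm_sub_norm_le (-w) (-z)
      rw [sub_neg_eq_add] at h4
      simp only [norm_neg] at h3 h4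
      constructor <;> linarith
    · rw [norm_neg]; constructor <;> linarith
  have hnq : ∀ (D : TS ν) (c : ℝ), 0 ≤ c → Fl (fn z D) (Λ * c) → nq n κ (fn z D) ≤ Θ * c := by
    intro D c hc h
    refine (nq_le hn0.le κ (by positivity) (bd_of_fl h)).trans (le_of_eq ?_)
    rw [hΘ]; ring
  have hpos : ∀ D : TS ν, nq n κ (fn z D) = 0 → D = 0 := fun D h =>
    fl_zero hz (by simpa [h] using hgrow D)
  have has0 : ∀ a ∈ as, 3 ≤ ‖0 + a‖ := fun a ha => by rw [zero_add]; exact (hnorm a ha).1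
  have hinj : Function.Injective (omL (ν := ν) z 0 as) := by
    rw [injective_iff_map_eq_zero]
    intro D hD
    refine fl_zero hz (fl_omL_inv hz1 as has0 ?_)
    rw [hD]
    intro k
    simp
  set e := LinearEquiv.ofInjectiveEndo _ hinj with he
  have he' : ∀ D, omL z 0 as (e.symm D) = D := fun D => e.apply_symm_apply D
  set A₁ := (if S = ∅ then 1 else Θ) * A with hA₁
  have hA₁0 : 0 ≤ A₁ := by rw [hA₁]; split_ifs <;> positivity
  have hA₁1 : A₁ ≤ Θ * A := by
    rw [hA₁]; split_ifs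
    · gcongr
    · exact le_rfl
  have hemp : S = ∅ → as = [] := fun h => by rw [has, h]; simp [blocks]
  have hl' : Rho n κ z (l ∘ₗ e.symm.toLinearMap) A₁ := by
    intro D
    refine (hl (e.symm D)).trans ?_
    rw [hA₁]
    split_ifs with h
    · have := he' D
      rw [hemp h] at this
      change e.symm D = D at this
      rw [this, one_mul]
    · have h1 := hnq (e.symm D) _ (nq_nonneg _ _ _)
        (fl_omL_inv hz1 as has0 (by rw [he']; exact hgrow D))
      rw [mul_comm Θ, mul_assoc]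
      gcongr
  obtain ⟨P, hP, hP'⟩ := riesz hn0.le κ z hpos _ A₁ hA₁0 hl'
  set φ₀ := wS n κ * cj (fn z P) with hφ₀
  have hv₀ : Van n φ₀ κ := (van_wS _ _).mul _
  set φ := phiL as φ₀ with hφ
  set mu : TS ν →ₗ[ℂ] Sm := LinearMap.mulLeft ℂ φ ∘ₗ fn z with hmu
  set I : ℤ → TS ν →ₗ[ℂ] ℂ := fun m => fcL n m ∘ₗ mu with hI
  have hI' : ∀ m D, I m D = fc n m (φ₀ * fn z (omL z (wm m) as D)) := fun m D =>
    fc_phiL z m as (hv₀.mono (by omega)) D
  set samp : ℕ → TS ν →ₗ[ℂ] ℂ := fun i => ∑ a ∈ range (n + 1), evS (a : ℕ) ∘ₗ (dd ^ i) ∘ₗ mu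
    with hsamp
  set O : ℕ → TS ν →ₗ[ℂ] ℂ := fun i => samp i - ∑ m ∈ Finset.Icc (-(R : ℤ)) R, wm m ^ i • I m
    with hO
  refine ⟨Sum.elim (fun m => I m.1) fun k => ∑ i ∈ range (E + 1), γ k i • O i,
    ⟨φ, fun c k hk D => ?_⟩, ?_, ?_, ?_, ?_⟩
  · have h1 : ∀ i ≤ E, ∑ x : Ix R E, pos x ^ i * (Sum.elim (fun m => I m.1)
        (fun k => ∑ i ∈ range (E + 1), γ k i • O i) x : TS ν →ₗ[ℂ] ℂ) D = samp i D := by
      intro i hi
      rw [Fintype.sum_sum_type]
      simp only [pos, Sum.elim_inl, Sum.elim_inr, LinearMap.sum_apply, LinearMap.smul_apply,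
        smul_eq_mul, mul_sum]
      rw [sum_comm, Finset.sum_coe_sort (Finset.Icc (-(R : ℤ)) R) fun m => wm m ^ i * I m D]
      have h2 : ∀ i' ∈ range (E + 1), ∑ k : Fin (E + 1), ((k : ℕ) : ℂ) ^ i * (γ k i' * O i' D) =
          if i = i' then O i' D else 0 := by
        intro i' hi'
        simp only [← mul_assoc, ← sum_mul, hγ' i hi i' (by simpa [Nat.lt_succ_iff] using hi')]
        split_ifs <;> simp
      rw [sum_congr rfl h2, sum_ite_eq, if_pos (by simpa [Nat.lt_succ_iff] using hi), hO]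
      simp only [LinearMap.sub_apply, LinearMap.sum_apply, LinearMap.smul_apply, smul_eq_mul]
      ring
    have h3 : ∀ a : ℕ, ((sh c ^ k) (φ * fn z D)).1 (a : ℕ) =
        ∑ i ∈ range (k + 1), (k.choose i : ℂ) * c ^ (k - i) * evS (a : ℕ) ((dd ^ i) (mu D)) := by
      intro a
      change evS (a : ℕ) ((sh c ^ k) (mu D)) = _
      rw [sh_pow]
      simp only [LinearMap.sum_apply, LinearMap.smul_apply, map_sum, map_smul, smul_eq_mul]
    simp only [h3, add_comm c, add_pow, sum_mul]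
    rw [sum_comm, sum_comm (s := range (n + 1))]
    refine sum_congr rfl fun i hi => ?_
    have h4 := h1 i (by have := mem_range.1 hi; omega)
    rw [← mul_sum]
    simp only [hsamp, LinearMap.sum_apply, LinearMap.comp_apply] at h4
    rw [← h4, mul_sum]
    refine sum_congr rfl fun x _ => by ring
  · refine LinearMap.ext fun D => ?_
    change I 0 D = l D
    have h0 : wm 0 = 0 := by simp [wm]
    rw [hI', h0, ← hP']
    exact congrArg l (e.symm_apply_apply D)
  · intro i hi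
    rcases i with m | k
    · refine LinearMap.ext fun D => ?_
      change I m.1 D = 0
      rw [hI', has, omL_blocks z (wm m.1) _ (List.mem_map.2 ⟨_, Finset.mem_toList.2 hi, rfl⟩)]
      simp [fc]
    · simpa [inW] using (hS.2 _ hi).1
  · intro i hi D
    rcases i with m | k
    · change ‖I m.1 D‖ ≤ _
      rw [hI']
      refine (cs hn0.le κ _ _ _).trans ?_
      have hq := nq_nonneg n κ (fn z D)
      split_ifs with h
      · rw [hemp h]
        change _ * nq n κ (fn z D) ≤ _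
        rw [hA₁, if_pos h] at hP
        gcongr
      · have h1 := fl_omL (w := wm m.1) (G := 20 * R) as (fun a ha => by
          have := norm_add_le (wm m.1) a
          have := norm_wm_le m
          have := (hnorm a ha).2
          linarith) (by positivity) (hgrow D)
        rw [mul_assoc, hlen] at h1
        have h2 := hnq _ _ (by positivity) h1
        calc _ ≤ (Θ * A) * (Θ * (nq n κ (fn z D) * (20 * R) ^ (S.card * (ν + 1)))) :=
              mul_le_mul (hP.trans hA₁1) h2 (nq_nonneg _ _ _) (by positivity)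
          _ = _ := by ring
    · simp [inW] at hi
  · intro i hi D
    rcases i with m | k
    · simp [inW] at hi
    · have hq := nq_nonneg n κ (fn z D)
      have hqP := nq_nonneg n κ (fn z P)
      have hΘ0 : 0 ≤ Θ := by linarith
      have b0 : Bd n φ₀ (n ^ (2 * κ) * (Λ * (Θ * A) * Real.exp (2 * n))) (2 * κ / n + 2) :=
        (bd_wS hn0 κ).mul ((bd_of_fl (hgrow P)).cj.mono (by positivity) (by positivity)
          (by gcongr; exact hP.trans hA₁1) le_rfl) (by positivity) (by positivity) (by positivity)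
          (by positivity)
      have b1 := (bd_phiL (G := 20 * R) b0 (by positivity) (by positivity) as fun a ha => by
        have := (hnorm a ha).2
        linarith).mul (bd_of_fl (hgrow D)) (by positivity) (by positivity) (by positivity)
          (by positivity)
      have v1 : Van n (φ * fn z D) (κ - S.card * (ν + 1)) :=
        (van_phiL as (hv₀.mono (by omega))).mul _
      have h1 : ∀ i ∈ range (E + 1), ‖O i D‖ ≤ 4 * n * (n ^ (2 * κ) * Λ ^ 2 * Real.exp (4 * n) * Θ *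
          (20 * R) ^ (S.card * (ν + 1))) * R ^ (E + 2) *
            ((2 * (κ : ℝ) / n + 4) / R) ^ (κ - S.card * (ν + 1)) * A * nq n κ (fn z D) := by
        intro i hi
        have hi' : i ≤ E := by simpa [Nat.lt_succ_iff] using hi
        have h2 := poisson n R _ i hR (by omega) _ _ _ (by positivity) (by positivity) v1 b1
        have h3 : O i D = ∑ a ∈ range (n + 1), ((dd ^ i) (φ * fn z D)).1 (a : ℕ) -
            ∑ m ∈ Finset.Icc (-(R : ℤ)) R, wm m ^ i * fc n m (φ * fn z D) := by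
          simp only [hO, hsamp, LinearMap.sub_apply, LinearMap.sum_apply, LinearMap.smul_apply,
            smul_eq_mul]
          rfl
        rw [h3]
        refine h2.trans ?_
        have h4 : (R : ℝ) ^ (i + 2) ≤ R ^ (E + 2) := pow_le_pow_right₀ hR0 (by omega)
        have h5 : Real.exp (4 * n) = Real.exp (2 * n) * Real.exp (2 * n) := by
          rw [← Real.exp_add]; ring_nf
        rw [hlen, h5, add_assoc, show (2 : ℝ) + 2 = 4 by norm_num]
        calc _ ≤ 4 * n * (n ^ (2 * κ) * (Λ * (Θ * A) * Real.exp (2 * n)) *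
              (20 * R) ^ (S.card * (ν + 1)) * (Λ * nq n κ (fn z D) * Real.exp (2 * n))) *
              R ^ (E + 2) * ((2 * (κ : ℝ) / n + 4) / R) ^ (κ - S.card * (ν + 1)) := by gcongr
          _ = _ := by ring
      simp only [Sum.elim_inr, LinearMap.sum_apply, LinearMap.smul_apply, smul_eq_mul]
      refine (norm_sum_le_of_le _ fun i hi => (norm_mul_le _ _).trans
        (mul_le_mul_of_nonneg_left (h1 i hi) (norm_nonneg _))).trans ?_
      rw [← sum_mul, mul_assoc Cn, mul_assoc Cn]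
      exact mul_le_mul_of_nonneg_right (hγ k) (by positivity)

theorem lifts (C₀ : ℕ) (hC : 1 ≤ C₀) : ∃ L : ℝ, 0 < L ∧ ∀ R j : ℕ, 1 ≤ R →
    L * (1 + j * (1 + Real.log R)) ≤ R → ∃ β : ℝ, 0 < β ∧ ∀ E : ℕ, ∃ C : ℝ, 0 < C ∧ ∃ n₀ : ℕ,
    ∀ n ≥ n₀, ∃ κ : ℕ, ∀ z : ℂ, z ≠ 0 → ‖z‖ ≤ 1 →
      (∃ A₀ : ℝ, 0 ≤ A₀ ∧ Rho n κ z (LinearMap.snd ℂ (degreeLT ℂ (C₀ * n)) ℂ) A₀) ∧
      ∀ S : Finset (Ix R E), okS j S → ∀ (l : TS (C₀ * n) →ₗ[ℂ] ℂ) (A : ℝ), 0 ≤ A →
        Rho n κ z l A → ∃ f : Ix R E → TS (C₀ * n) →ₗ[ℂ] ℂ, Adm n E z pos f ∧ f (org R E) = l ∧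
          (∀ i ∈ S, f i = 0) ∧
          (∀ i, inW i → Rho n κ z (f i) ((if S = ∅ then 1 else Real.exp (β * n)) * A)) ∧
          ∀ i, ¬ inW i → Rho n κ z (f i) (C * Real.exp (-(2 * β * n)) * A) := by
  obtain ⟨L, hL, hgrow⟩ := growth C₀ hC
  have hC' : (1 : ℝ) ≤ C₀ := by exact_mod_cast hC
  refine ⟨6 * 3 ^ 16 * C₀ * (4 * L + 100), by positivity, fun R j hR hLR => ?_⟩
  have hR0 : (1 : ℝ) ≤ R := by exact_mod_cast hR
  have hlog : 0 ≤ Real.log R := Real.log_nonneg hR0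
  set K := ⌊(R : ℝ) / (6 * 3 ^ 16 * C₀)⌋₊ with hK
  have hK1 : (K : ℝ) * (6 * 3 ^ 16 * C₀) ≤ R :=
    (le_div_iff₀ (by positivity)).1 (Nat.floor_le (by positivity))
  have hj0 : (0 : ℝ) ≤ j * (1 + Real.log R) := by positivity
  have hK2 : 4 * L + 99 + 100 * (j * (1 + Real.log R)) ≤ K := by
    have h1 : (4 * L + 100) * (1 + j * (1 + Real.log R)) ≤ (R : ℝ) / (6 * 3 ^ 16 * C₀) := by
      rw [le_div_iff₀ (by positivity)]
      linarith
    have h2 : _ < (K : ℝ) + 1 := Nat.lt_floor_add_one ((R : ℝ) / (6 * 3 ^ 16 * C₀))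
    have h3 := mul_nonneg hL.le hj0
    nlinarith
  set g := Real.log (20 * R) with hg
  have hg1 : g ≤ 19 + Real.log R := by
    rw [hg, Real.log_mul (by norm_num) (by positivity)]
    have := Real.log_le_sub_one_of_pos (show (0 : ℝ) < 20 by norm_num)
    linarith
  have hg0 : 0 ≤ g := Real.log_nonneg (by linarith)
  have hjn : (0 : ℝ) ≤ j := Nat.cast_nonneg j
  have hK3 : 32 * j + 7 * L + 18 + 6 * (j * g) ≤ 2 * K := by nlinarith
  have hK4 : 2 * j + 1 ≤ K := by
    have : (2 * j + 1 : ℝ) ≤ K := by nlinarith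
    exact_mod_cast this
  have hK5 : (1 : ℝ) ≤ K := by exact_mod_cast (by omega : 1 ≤ K)
  refine ⟨4 * K * C₀ + (2 * L + 5) + 2 * j * C₀ * g, by positivity, fun E => ?_⟩
  obtain ⟨Cn, hCn, γ, hγ, hγ'⟩ := nodes E
  refine ⟨Cn * (4 * R ^ (E + 2)), by positivity, E + 2, fun n hn => ⟨K * (C₀ * n),
    fun z hz hz1 => ?_⟩⟩
  have hn1 : 1 ≤ n := by omega
  have hn0 : (1 : ℝ) ≤ n := by exact_mod_cast hn1
  set ν := C₀ * n with hν
  set κ := K * ν with hκ
  have hνn : n ≤ ν := Nat.le_mul_of_pos_left _ hC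
  have hνn' : (n : ℝ) ≤ ν := by exact_mod_cast hνn
  have hν' : (ν : ℝ) = C₀ * n := by rw [hν]; push_cast; ring
  have hκ' : (κ : ℝ) = K * ν := by rw [hκ]; push_cast; ring
  have hgr := hgrow n hn1 κ z hz hz1
  set Λ := Real.exp (L * n) * (3 / n) ^ κ with hΛ
  have hΛ0 : 0 ≤ Λ := by positivity
  refine ⟨⟨(2 / ‖z‖) ^ ν * Λ, by positivity, fun D => ?_⟩, fun S hS l A hA hl => ?_⟩
  · rw [mul_assoc]
    exact fl_snd hz (hgr D)
  set len := S.card * (ν + 1) with hlen
  have hlen1 : len ≤ 2 * j * ν := by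
    calc len ≤ j * (2 * ν) := Nat.mul_le_mul hS.1 (by omega)
      _ = _ := by ring
  have hlen2 : len + ν ≤ κ := by
    calc len + ν ≤ (2 * j + 1) * ν := by rw [add_mul, one_mul]; omega
      _ ≤ κ := Nat.mul_le_mul_right _ hK4
  have hlen' : (len : ℝ) ≤ 2 * j * ν := by exact_mod_cast hlen1
  have hb1 : 2 * (κ : ℝ) / n + 4 ≤ 6 * (K * C₀) := by
    have : 2 * (κ : ℝ) / n = 2 * (K * C₀) := by rw [hκ', hν']; field_simp
    rw [this]
    nlinarith
  have hKC : (0 : ℝ) ≤ K * C₀ := by positivity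
  have h3 : (3 : ℝ) ^ κ ≤ Real.exp (2 * κ) := by
    rw [mul_comm, Real.exp_nat_mul]
    exact pow_le_pow_left₀ (by norm_num) (by linarith [Real.add_one_le_exp 2]) _
  have hnΛ : (n : ℝ) ^ κ * Λ = 3 ^ κ * Real.exp (L * n) := by
    rw [hΛ, div_pow]; field_simp
  have hnΛ' : (n : ℝ) ^ κ * Λ ≤ Real.exp (2 * κ + L * n) := by
    rw [hnΛ, Real.exp_add]; gcongr
  have hne : (n : ℝ) ≤ Real.exp n := by linarith [Real.add_one_le_exp (n : ℝ)]
  have hsq : √(n : ℝ) ≤ n := Real.sqrt_le_iff.2 ⟨by positivity, by nlinarith⟩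
  have hsq1 : 1 ≤ √(n : ℝ) := Real.one_le_sqrt.2 hn0
  set Θ := √(n : ℝ) * n ^ κ * Real.exp (2 * n) * Λ with hΘ
  have hΘ' : Θ = √(n : ℝ) * Real.exp (2 * n) * (n ^ κ * Λ) := by rw [hΘ]; ring
  have hΘ1 : 1 ≤ Θ := by
    rw [hΘ', hnΛ]
    exact one_le_mul_of_one_le_of_one_le (one_le_mul_of_one_le_of_one_le hsq1
      (Real.one_le_exp (by positivity))) (one_le_mul_of_one_le_of_one_le
        (one_le_pow₀ (by norm_num)) (Real.one_le_exp (by positivity)))
  have hΘ2 : Θ ≤ Real.exp (n + 2 * n + (2 * κ + L * n)) := by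
    rw [hΘ', Real.exp_add, Real.exp_add]
    gcongr
    exact hsq.trans hne
  have hΘ3 : Θ ^ 2 ≤ Real.exp (n + 4 * n + 2 * (2 * κ + L * n)) := by
    have e1 : Θ ^ 2 = n * (Real.exp (2 * n) * Real.exp (2 * n)) * ((n ^ κ * Λ) * (n ^ κ * Λ)) := by
      rw [hΘ', mul_pow, mul_pow, Real.sq_sqrt (by positivity)]; ring
    rw [e1, ← Real.exp_add, Real.exp_add _ (2 * (2 * κ + L * n)), Real.exp_add n,
      two_mul (2 * κ + L * n : ℝ), Real.exp_add (2 * κ + L * n),
      show (2 * n + 2 * n : ℝ) = 4 * n by ring]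
    gcongr
  have hG : (20 * R : ℝ) ^ len ≤ Real.exp (2 * j * ν * g) := by
    rw [← Real.exp_log (show (0 : ℝ) < 20 * R by positivity), ← Real.exp_nat_mul]
    exact Real.exp_le_exp.2 (mul_le_mul_of_nonneg_right hlen' hg0)
  have hq : ((2 * (κ : ℝ) / n + 4) / R) ^ (κ - len) ≤ Real.exp (-(16 * (κ - 2 * j * ν))) := by
    have e1 : (2 * (κ : ℝ) / n + 4) / R ≤ Real.exp (-16) := by
      have e2 : Real.exp 16 ≤ 3 ^ 16 := by
        rw [show (16 : ℝ) = (16 : ℕ) * 1 by norm_num, Real.exp_nat_mul]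
        exact pow_le_pow_left₀ (Real.exp_pos _).le (Real.exp_one_lt_d9.le.trans (by norm_num)) _
      rw [Real.exp_neg, div_le_iff₀ (by positivity), inv_mul_eq_div, le_div_iff₀ (Real.exp_pos _)]
      calc _ ≤ 6 * ((K : ℝ) * C₀) * 3 ^ 16 := by gcongr
        _ ≤ R := by linarith
    refine (pow_le_pow_left₀ (by positivity) e1 _).trans ?_
    rw [← Real.exp_nat_mul, Nat.cast_sub (by omega)]
    exact Real.exp_le_exp.2 (by linarith)
  obtain ⟨f, f1, f2, f3, f4, f5⟩ := lift_core hn1 hR hz hz1 hΛ0 hgr hΘ hΘ1 γ hγ hγ' S hS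
    (show len + E + 2 ≤ κ by omega) (by nlinarith) l A hA hl
  refine ⟨f, f1, f2, f3, fun i hi D => (f4 i hi D).trans ?_, fun i hi D => (f5 i hi D).trans ?_⟩
  · have := nq_nonneg n κ (fn z D)
    split_ifs
    · exact le_rfl
    · gcongr
      refine (mul_le_mul hΘ3 hG (by positivity) (by positivity)).trans ?_
      rw [← Real.exp_add]
      refine Real.exp_le_exp.2 (le_of_eq ?_)
      rw [hκ', hν']; ring
  · have := nq_nonneg n κ (fn z D)
    have e1 : (n : ℝ) * (n ^ (2 * κ) * Λ ^ 2 * Real.exp (4 * n) * Θ * (20 * R) ^ len) *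
        ((2 * (κ : ℝ) / n + 4) / R) ^ (κ - len) ≤
        Real.exp (-(2 * (4 * K * C₀ + (2 * L + 5) + 2 * j * C₀ * g) * n)) := by
      have e2 : (n : ℝ) ^ (2 * κ) * Λ ^ 2 = (n ^ κ * Λ) * (n ^ κ * Λ) := by ring
      calc _ ≤ Real.exp n * (Real.exp (2 * κ + L * n) * Real.exp (2 * κ + L * n) *
            Real.exp (4 * n) * Real.exp (n + 2 * n + (2 * κ + L * n)) * Real.exp (2 * j * ν * g)) *
            Real.exp (-(16 * (κ - 2 * j * ν))) := by rw [e2]; gcongr
        _ ≤ _ := by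
          simp only [← Real.exp_add]
          refine Real.exp_le_exp.2 ?_
          have e3 : (32 * j + 7 * L + 18 + 6 * (j * g)) * ν ≤ 2 * K * ν := by gcongr
          have e4 : (7 * L + 18) * n ≤ (7 * L + 18) * ν := by gcongr
          have e5 : (K : ℝ) * C₀ * n = K * ν := by rw [hν']; ring
          have e6 : (j : ℝ) * C₀ * g * n = j * g * ν := by rw [hν']; ring
          rw [hκ']
          nlinarith
    calc _ = Cn * (4 * R ^ (E + 2)) * ((n : ℝ) * (n ^ (2 * κ) * Λ ^ 2 * Real.exp (4 * n) * Θ *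
          (20 * R) ^ len) * ((2 * (κ : ℝ) / n + 4) / R) ^ (κ - len)) * A * nq n κ (fn z D) := by
          ring
      _ ≤ _ := by gcongr

end Pool.Agent.Lib.MP_1f047c_nt.PL
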