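import Pool.Agent.Lib.MP_1f047c_nt.PLZero
import Pool.Agent.Lib.MP_1f047c_nt.PLHyp
import Pool.Agent.Lib.MP_1f047c_nt.PLJar
import Pool.Agent.Lib.MP_1f047c_nt.PLArith

open Polynomial Finset

namespace Pool.Agent.Lib.MP_1f047c_nt.PL

lemma zk_map {K L ι ι' : Type} [Field K] [Field L] (φ : K →+* L) (C : ι → K × K) (C' : ι' → L × L)
    (g : ι → ι') (hg : ∀ i, C' (g i) = (φ (C i).1, φ (C i).2)) {u v α β : K} {ν₁ ν₂ E n₁ n₂ : ℕ}
    (h : ZK C' (φ u) (φ v) (φ α) (φ β) ν₁ ν₂ E n₁ n₂) : ZK C u v α β ν₁ ν₂ E n₁ n₂ := by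
  intro t pt D D' hD hD' H
  refine h t (fun e => g (pt e)) (fun e => (D e).map φ) (fun e => (D' e).map φ)
    (fun e => (degree_map_le).trans_lt (hD e)) (fun e => (degree_map_le).trans_lt (hD' e))
    fun a ha b hb i hi j hj => ?_
  have := congrArg φ (H a ha b hb i hi j hj)
  simpa only [map_sum, map_mul, map_pow, row_map, hg] using this

/-- Evaluation of a Laurent polynomial. -/
noncomputable def evL (t : ℂˣ) : LaurentPolynomial ℂ →ₐ[ℂ] ℂ :=
  { LaurentPolynomial.eval₂ (RingHom.id ℂ) t with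
    commutes' := fun c => by
      simp [← LaurentPolynomial.C_eq_algebraMap] }

lemma evL_T (t : ℂˣ) : evL t (LaurentPolynomial.T 1) = t := by
  change LaurentPolynomial.eval₂ (RingHom.id ℂ) t _ = _
  rw [LaurentPolynomial.eval₂_T, zpow_one]

lemma evL_inv (t : ℂˣ) (r : ℂ) :
    evL t (LaurentPolynomial.C r * LaurentPolynomial.T (-1)) = r / t := by
  change LaurentPolynomial.eval₂ (RingHom.id ℂ) t _ = _
  rw [LaurentPolynomial.eval₂_C_mul_T]
  simp [div_eq_mul_inv]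

lemma hyper_span (E : ℕ) (r t : ℂ) (ht : t ≠ 0) : ∃ γ : Fin (2 * E + 1) → ℂ, ∀ i ≤ E, ∀ j ≤ E,
    t ^ i * (r / t) ^ j =
      ∑ e, γ e * ((((e : ℕ) + 1 : ℕ) : ℂ) ^ i * (r / (((e : ℕ) + 1 : ℕ) : ℂ)) ^ j) := by
  set nd : Fin (2 * E + 1) → ℂ := fun e => (((e : ℕ) + 1 : ℕ) : ℂ) with hnd
  have hinj : Set.InjOn nd (univ : Finset (Fin (2 * E + 1))) := by
    intro a _ b _ h
    simp only [hnd, Nat.cast_inj, add_left_inj] at h
    exact Fin.ext h
  refine ⟨fun e => (Lagrange.basis univ nd e).eval t * nd e ^ E / t ^ E, fun i hi j hj => ?_⟩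
  have h1 := Lagrange.eq_interpolate (f := (X ^ (E + i - j) : ℂ[X])) hinj (by
    rw [degree_X_pow, card_univ, Fintype.card_fin]
    exact_mod_cast (by omega : E + i - j < 2 * E + 1))
  have h2 := congrArg (eval t) h1
  simp only [Lagrange.interpolate_apply, eval_finsetSum, eval_mul, eval_C, eval_pow, eval_X] at h2
  have key : ∀ s : ℂ, s ≠ 0 → s ^ E * (s ^ i * (r / s) ^ j) = r ^ j * s ^ (E + i - j) := by
    intro s hs
    have : s ^ E * s ^ i = s ^ (E + i - j) * s ^ j := by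
      rw [← pow_add, ← pow_add]; congr 1; omega
    rw [← mul_assoc, this, div_pow]
    field_simp
  have hE : t ^ E ≠ 0 := pow_ne_zero _ ht
  apply mul_left_cancel₀ hE
  rw [key t ht, h2, mul_sum, mul_sum]
  refine sum_congr rfl fun e _ => ?_
  have hn : nd e ≠ 0 := Nat.cast_ne_zero.2 (Nat.succ_ne_zero _)
  have := key (nd e) hn
  change _ = t ^ E * (_ * (nd e ^ i * (r / nd e) ^ j))
  field_simp
  linear_combination (-(Lagrange.basis univ nd e).eval t) * this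

lemma cx_fac (a s : ℕ) : ‖(a : ℂ) ^ s / (s.factorial : ℂ)‖ ≤ 2 ^ s * 3 ^ a := by
  rw [norm_div, norm_pow, Complex.norm_natCast, Complex.norm_natCast]
  refine (Real.pow_div_factorial_le_exp _ (Nat.cast_nonneg a) s).trans ?_
  have h1 : Real.exp a ≤ 3 ^ a := by
    rw [← mul_one (a : ℝ), Real.exp_nat_mul]
    exact pow_le_pow_left₀ (Real.exp_pos _).le (Real.exp_one_lt_d9.le.trans (by norm_num)) _
  exact h1.trans (le_mul_of_one_le_left (by positivity) (one_le_pow₀ one_le_two))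

lemma cx_sum {l a : ℂ} (h : Complex.exp l = a) (n : ℕ) :
    HasSum (fun s : ℕ => (-l * n) ^ s / (s.factorial : ℂ)) (a⁻¹ ^ n) := by
  have h1 := NormedSpace.expSeries_div_hasSum_exp (-l * n)
  rwa [← Complex.exp_eq_exp_ℂ, mul_comm (-l) n, Complex.exp_nat_mul, Complex.exp_neg, h,
    mul_comm] at h1

theorem core (δ : ℝ) (hδ : 0 < δ) : ∃ c : ℝ,
    ∀ (K : Type) [Field K] [NumberField K] (φ : K →+* ℂ) (α β : K) (lam mu : ℂ),
      Complex.exp lam = φ α → Complex.exp mu = φ β → lam ≠ 0 → mu ≠ 0 →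
      ‖lam‖ ≤ Real.exp (-(δ * Height.logHeight₁ α + c * Module.finrank ℚ K)) →
      ‖mu‖ ≤ Real.exp (-(δ * Height.logHeight₁ β + c * Module.finrank ℚ K)) →
      Height.logHeight₁ α ≤ Height.logHeight₁ β →
      ∀ x y r : K, r ≠ 0 → (lam - φ x) * (mu - φ y) ≠ φ r := by
  set C₀ := ⌈4 / δ + 3⌉₊ with hC₀
  have hC : 4 / δ + 3 ≤ C₀ := Nat.le_ceil _
  have hC1 : 1 ≤ C₀ := by
    have : (0 : ℝ) < 4 / δ := by positivity
    have : (1 : ℝ) ≤ C₀ := by linarith
    exact_mod_cast this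
  obtain ⟨L, hL⟩ := zero_est C₀ hC1
  obtain ⟨R, j, hR, hLR, hj⟩ := exists_window L
  set E := 8 * R ^ 2 + 8 * R with hE
  obtain ⟨c, hc1, hc⟩ := arith δ hδ C₀ hC E (2 * E + 1)
  refine ⟨c, fun K _ _ φ α β lam mu hα hβ hl hm hl' hm' hh x y r hr heq => ?_⟩
  have hr' : φ r ≠ 0 := (map_ne_zero φ).2 hr
  have ht : lam - φ x ≠ 0 := fun h => hr' (by rw [← heq, h, zero_mul])
  have hα0 : α ≠ 0 := fun h => Complex.exp_ne_zero lam (by rw [hα, h, map_zero])
  have hβ0 : β ≠ 0 := fun h => Complex.exp_ne_zero mu (by rw [hβ, h, map_zero])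
  obtain ⟨n₀, hn₀⟩ := hL R j hR hLR E _ _ _ (hyper_ok (φ r) hr' R j hR hj)
  obtain ⟨γ, hγ⟩ := hyper_span E (φ r) _ ht
  have hd : (1 : ℝ) ≤ Module.finrank ℚ K := by exact_mod_cast Module.finrank_pos
  have h1 := Height.zero_le_logHeight₁ α
  have h2 := Height.zero_le_logHeight₁ β
  set H₁ := δ * Height.logHeight₁ α + c * Module.finrank ℚ K with hH₁
  set H₂ := δ * Height.logHeight₁ β + c * Module.finrank ℚ K with hH₂
  have hcd : 0 < c * Module.finrank ℚ K := by positivity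
  have h3 : 0 ≤ δ * Height.logHeight₁ α := by positivity
  have h4 : 0 ≤ δ * Height.logHeight₁ β := by positivity
  have hH : H₁ ≤ H₂ := by nlinarith
  have hH0 : 0 < H₁ := by linarith
  have hH0' : 0 < H₂ := by linarith
  have hmu : φ r / (lam - φ x) = mu - φ y := by rw [← heq]; field_simp
  refine hc ℂ good_complex cx_fac K φ α⁻¹ β⁻¹ (-x) (-y) lam mu H₁ H₂
    (fun e => ((((e : ℕ) + 1 : ℕ) : K), r / (((e : ℕ) + 1 : ℕ) : K))) γ (inv_ne_zero hα0)
    (inv_ne_zero hβ0) (fun a => by rw [map_inv₀]; exact cx_sum hα a)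
    (fun a => by rw [map_inv₀]; exact cx_sum hβ a)
    (by rw [Height.logHeight₁_inv]; linarith) (by linarith) hl'
    (by rw [Height.logHeight₁_inv]; linarith) (by linarith) hm' (fun i hi k hk => ?_) ?_
  · have := hγ i hi k hk
    rw [hmu] at this
    simpa only [map_neg, ← sub_eq_add_neg, map_natCast, map_div₀] using this
  · filter_upwards [Filter.eventually_ge_atTop (n₀ * H₂)] with T hT
    have hT0 : 0 ≤ T := le_trans (by positivity) hT
    have hn2 : n₀ ≤ ⌈T / H₂⌉₊ := by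
      have : (n₀ : ℝ) ≤ T / H₂ := by rwa [le_div_iff₀ hH0']
      exact_mod_cast this.trans (Nat.le_ceil _)
    have hn1 : ⌈T / H₂⌉₊ ≤ ⌈T / H₁⌉₊ := Nat.ceil_mono (div_le_div_of_nonneg_left hT0 hH0 hH)
    have hz := hn₀ _ _ hn2 hn1 (-lam) (-mu) (neg_ne_zero.2 hl)
      (by rw [norm_neg]; exact hl'.trans (Real.exp_le_one_iff.2 (by linarith))) (neg_ne_zero.2 hm)
      (by rw [norm_neg]; exact hm'.trans (Real.exp_le_one_iff.2 (by linarith)))
      (evL (Units.mk0 _ ht))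
    rw [evL_T, evL_inv, Units.val_mk0, hmu, Complex.exp_neg, Complex.exp_neg, hα, hβ,
      show lam - φ x + -lam = φ (-x) by rw [map_neg]; ring,
      show mu - φ y + -mu = φ (-y) by rw [map_neg]; ring, ← map_inv₀, ← map_inv₀] at hz
    refine zk_map φ _ _ (fun e : Fin (2 * E + 1) => evL (Units.mk0 (((e : ℕ) + 1 : ℕ) : ℂ)
      (Nat.cast_ne_zero.2 (Nat.succ_ne_zero _)))) (fun e => ?_) hz
    simp only [evL_T, evL_inv, Units.val_mk0, map_natCast, map_div₀]

theorem prod_ne (δ : ℝ) (hδ : 0 < δ) : ∃ c : ℝ,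
    ∀ (K : Type) [Field K] [NumberField K] (φ : K →+* ℂ) (α β : K) (lam mu : ℂ),
      Complex.exp lam = φ α → Complex.exp mu = φ β → lam ≠ 0 → mu ≠ 0 →
      ‖lam‖ ≤ Real.exp (-(δ * Height.logHeight₁ α + c * Module.finrank ℚ K)) →
      ‖mu‖ ≤ Real.exp (-(δ * Height.logHeight₁ β + c * Module.finrank ℚ K)) →
      ∀ a b e : K, lam * mu ≠ φ a * lam + φ b * mu + φ e := by
  obtain ⟨c, hc⟩ := core δ hδ
  refine ⟨c, fun K _ _ φ α β lam mu hα hβ hl hm hl' hm' a b e heq => ?_⟩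
  have one : ∀ (α : K) (lam : ℂ), Complex.exp lam = φ α → lam ≠ 0 →
      ‖lam‖ ≤ Real.exp (-(δ * Height.logHeight₁ α + c * Module.finrank ℚ K)) →
      ∀ b : K, lam ≠ φ b := by
    intro α lam hα hl hl' b hb
    have hb0 : b ≠ 0 := fun h => hl (by rw [hb, h, map_zero])
    exact hc K φ α α lam lam hα hα hl hl hl' hl' le_rfl 0 0 (b * b) (mul_ne_zero hb0 hb0)
      (by rw [map_zero, sub_zero, map_mul, ← hb])
  have h1 : (lam - φ b) * (mu - φ a) = φ (e + a * b) := by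
    rw [map_add, map_mul]; linear_combination heq
  have hr : e + a * b ≠ 0 := by
    intro h
    rw [h, map_zero, mul_eq_zero, sub_eq_zero, sub_eq_zero] at h1
    exact h1.elim (one α lam hα hl hl' b) (one β mu hβ hm hm' a)
  rcases le_total (Height.logHeight₁ α) (Height.logHeight₁ β) with h | h
  · exact hc K φ α β lam mu hα hβ hl hm hl' hm' h b a _ hr h1
  · exact hc K φ β α mu lam hβ hα hm hl hm' hl' h a b _ hr (by rw [mul_comm, h1])

end Pool.Agent.Lib.MP_1f047c_nt.PL
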