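import Pool.Agent.Lib.MP_1f047c_nt.PLDefs

open Polynomial Finset

namespace Pool.Agent.Lib.MP_1f047c_nt.PL

/-- Functionals bounded on `Y` are bounded at `x`, with loss `c`. -/
def plneuCtl {E : Type} [AddCommGroup E] [Module ℂ E] (Y : Set E) (x : E) (c : ℝ) : Prop :=
  ∀ (L : E →ₗ[ℂ] ℂ) (V : ℝ), 0 ≤ V → (∀ y ∈ Y, ‖L y‖ ≤ V) → ‖L x‖ ≤ c * V

theorem plneu_ctl {E : Type} [AddCommGroup E] [Module ℂ E] {Y : Set E} {x : E}
    (hx : x ∈ Submodule.span ℂ Y) : ∀ᶠ c in Filter.atTop, plneuCtl Y x c := by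
  suffices h : ∃ c, plneuCtl Y x c by
    obtain ⟨c, hc⟩ := h
    filter_upwards [Filter.eventually_ge_atTop c] with c' h L V hV hL
    exact (hc L V hV hL).trans (mul_le_mul_of_nonneg_right h hV)
  induction hx using Submodule.span_induction with
  | mem y hy => exact ⟨1, fun L V _ hL => by simpa using hL y hy⟩
  | zero => exact ⟨0, fun L V _ _ => by simp⟩
  | add x y _ _ hx hy =>
    obtain ⟨c, hc⟩ := hx
    obtain ⟨c', hc'⟩ := hy
    refine ⟨c + c', fun L V hV hL => ?_⟩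
    rw [map_add, add_mul]
    exact norm_add_le_of_le (hc L V hV hL) (hc' L V hV hL)
  | smul a x _ hx =>
    obtain ⟨c, hc⟩ := hx
    refine ⟨‖a‖ * c, fun L V hV hL => ?_⟩
    rw [map_smul, norm_smul, mul_assoc]
    exact mul_le_mul_of_nonneg_left (hc L V hV hL) (norm_nonneg a)

theorem plneu_iter (P : ℝ → Prop) {a : ℝ} (ha : 0 ≤ a) (h0 : ∀ᶠ V in Filter.atTop, P V)
    (step : ∀ V, 0 ≤ V → P V → P (a + V / 2)) :
    ∃ W : ℝ, ∀ k : ℕ, P (2 * a + W * (1 / 2) ^ k) := by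
  obtain ⟨V, hV, h⟩ := (h0.and (Filter.eventually_ge_atTop (2 * a))).exists
  refine ⟨V - 2 * a, fun k => ?_⟩
  induction k with
  | zero => simpa using hV
  | succ k ih =>
    have h1 : 0 ≤ V - 2 * a := by linarith
    have := step _ (by positivity) ih
    rwa [show a + (2 * a + (V - 2 * a) * (1 / 2) ^ k) / 2 =
      2 * a + (V - 2 * a) * (1 / 2) ^ (k + 1) by ring] at this

theorem plneu_lim {t a W u w : ℝ} (h : ∀ k : ℕ, t ≤ (a + W * (1 / 2) ^ k) * u * w) :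
    t ≤ a * u * w := by
  have h1 := ((((tendsto_pow_atTop_nhds_zero_of_lt_one (r := (1 / 2 : ℝ)) (by norm_num)
    (by norm_num)).const_mul W).const_add a).mul_const u).mul_const w
  rw [mul_zero, add_zero] at h1
  exact ge_of_tendsto' h1 h

theorem plneu_sum {ι : Type} [Fintype ι] {f : ι → ℂ} {c b : ℝ} (hc : (Fintype.card ι : ℝ) ≤ c)
    (hb : 0 ≤ b) (h : ∀ i, ‖f i‖ ≤ b) : ‖∑ i, f i‖ ≤ c * b := by
  refine (norm_sum_le_of_le _ fun i _ => h i).trans ?_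
  rw [sum_const, nsmul_eq_mul]
  exact mul_le_mul_of_nonneg_right hc hb

section side

variable {A ι₁ ι₂ F₁ F₂ : Type} [AddCommGroup A] [Module ℂ A] [Fintype ι₁] [Fintype ι₂]
  [AddCommGroup F₁] [Module ℂ F₁] [AddCommGroup F₂] [Module ℂ F₂]

theorem plneu_one (Δ : A →ₗ[ℂ] F₁ →ₗ[ℂ] F₂ →ₗ[ℂ] ℂ) {M : Set A} {g : A} {c : ℝ}
    (h : plneuCtl M g c) {l : F₁} {l' : F₂} {V : ℝ} (hV : 0 ≤ V)
    (hM : ∀ y ∈ M, ‖Δ y l l'‖ ≤ V) : ‖Δ g l l'‖ ≤ c * V :=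
  h ((Δ.flip l).flip l') V hV hM

theorem plneu_fam (Δ : A →ₗ[ℂ] F₁ →ₗ[ℂ] F₂ →ₗ[ℂ] ℂ) {Y : Set (ι₁ → A)} {x : ι₁ → A} {c : ℝ}
    (h : plneuCtl Y x c) {f : ι₁ → F₁} {l' : F₂} {V : ℝ} (hV : 0 ≤ V)
    (hY : ∀ y ∈ Y, ‖∑ i, Δ (y i) (f i) l'‖ ≤ V) : ‖∑ i, Δ (x i) (f i) l'‖ ≤ c * V := by
  have := h (∑ i, (Δ.flip (f i)).flip l' ∘ₗ LinearMap.proj i) V hV
    (fun y hy => by simpa using hY y hy)
  simpa using this

theorem plneu_side (Δ : A →ₗ[ℂ] F₁ →ₗ[ℂ] F₂ →ₗ[ℂ] ℂ) (pm pt : A →ₗ[ℂ] A) {M : Set A}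
    {Y : Set (ι₁ → A)} (hY : Y.Finite) {o₂ : ι₂} {in₂ : ι₂ → Prop} {ρ₁ : F₁ → ℝ → Prop}
    {ρ₂ : F₂ → ℝ → Prop} {Ad₂ : (ι₂ → F₂) → Prop} {c B ε N b : ℝ}
    (hc₁ : (Fintype.card ι₁ : ℝ) ≤ c) (hc₂ : (Fintype.card ι₂ : ℝ) ≤ c) (hB : 0 ≤ B) (hε : 0 ≤ ε)
    (hcε : c ^ 2 * ε ≤ 1 / 2) (hN0 : 0 ≤ N) (hb : 0 ≤ b) {f : ι₁ → F₁} (hf : ∀ i, ρ₁ (f i) b)
    (hG : ∀ y ∈ Y, ∃ G : ι₁ → ι₂ → A,
      (∀ f', Ad₂ f' → ∑ i, ∑ j, Δ (G i j) (f i) (f' j) = 0) ∧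
      (∀ i j, pm (G i j) + pt (G i j) = G i j) ∧ (∀ i, pt (G i o₂) = y i) ∧
      (∀ i j, in₂ j → j ≠ o₂ → pt (G i j) = 0) ∧ (∀ j, plneuCtl Y (fun i => pt (G i j)) c) ∧
      ∀ i j, plneuCtl M (pm (G i j)) c)
    (lift : ∀ l a, 0 ≤ a → ρ₂ l a → ∃ f, Ad₂ f ∧ f o₂ = l ∧ (∀ j, ρ₂ (f j) (B * a)) ∧
      ∀ j, ¬ in₂ j → ρ₂ (f j) (ε * a))
    (hbd : ∀ g, ∃ N : ℝ, 0 ≤ N ∧ ∀ l l' a a', 0 ≤ a → 0 ≤ a' → ρ₁ l a → ρ₂ l' a' →
      ‖Δ g l l'‖ ≤ N * a * a')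
    (hN : ∀ g ∈ M, ∀ l l' a a', 0 ≤ a → 0 ≤ a' → ρ₁ l a → ρ₂ l' a' → ‖Δ g l l'‖ ≤ N * a * a') :
    ∀ y ∈ Y, ∀ l' a', 0 ≤ a' → ρ₂ l' a' →
      ‖∑ i, Δ (y i) (f i) l'‖ ≤ 2 * (c ^ 3 * N * B) * b * a' := by
  classical
  have hc0 : 0 ≤ c := (Nat.cast_nonneg _).trans hc₁
  obtain ⟨W, hW⟩ := plneu_iter (fun V => ∀ y ∈ Y, ∀ l' a', 0 ≤ a' → ρ₂ l' a' →
      ‖∑ i, Δ (y i) (f i) l'‖ ≤ V * b * a') (a := c ^ 3 * N * B) (by positivity) (by
    refine (Filter.eventually_all_finite hY).2 fun y _ => ?_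
    choose N' _ hN' using fun i => hbd (y i)
    filter_upwards [Filter.eventually_ge_atTop (∑ i, N' i)] with V hV l' a' ha' hl'
    refine (norm_sum_le_of_le _ fun i _ => hN' i _ _ _ _ hb ha' (hf i) hl').trans ?_
    rw [← sum_mul, ← sum_mul]
    gcongr) (by
    intro V hV hP y hy l' a' ha' hl'
    obtain ⟨G, h1, h2, h3, h4, h5, h6⟩ := hG y hy
    obtain ⟨f', a1, rfl, a3, a4⟩ := lift l' a' ha' hl'
    have e := h1 f' a1
    have e1 : ∑ i, ∑ j, Δ (G i j) (f i) (f' j) = ∑ i, ∑ j, Δ (pm (G i j)) (f i) (f' j) +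
        ∑ j, ∑ i, Δ (pt (G i j)) (f i) (f' j) := by
      rw [sum_comm (f := fun j i => Δ (pt (G i j)) (f i) (f' j)), ← sum_add_distrib]
      refine sum_congr rfl fun i _ => ?_
      rw [← sum_add_distrib]
      refine sum_congr rfl fun j _ => ?_
      rw [← LinearMap.add_apply, ← LinearMap.add_apply, ← map_add, h2]
    have e2 : ∑ j, ∑ i, Δ (pt (G i j)) (f i) (f' j) = ∑ i, Δ (y i) (f i) (f' o₂) +
        ∑ j, if j = o₂ then 0 else ∑ i, Δ (pt (G i j)) (f i) (f' j) := by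
      rw [← add_sum_erase _ _ (mem_univ o₂), ← add_sum_erase _ _ (mem_univ o₂), if_pos rfl,
        zero_add]
      simp only [h3]
      exact congrArg _ (sum_congr rfl fun j hj => (if_neg (ne_of_mem_erase hj)).symm)
    have b1 : ‖∑ i, ∑ j, Δ (pm (G i j)) (f i) (f' j)‖ ≤ c * (c * (c * (N * b * (B * a')))) :=
      plneu_sum hc₁ (by positivity) fun i => plneu_sum hc₂ (by positivity) fun j =>
        plneu_one Δ (h6 i j) (by positivity) fun g hg =>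
          hN g hg _ _ _ _ hb (by positivity) (hf i) (a3 j)
    have b2 : ‖∑ j, if j = o₂ then 0 else ∑ i, Δ (pt (G i j)) (f i) (f' j)‖ ≤
        c * (c * (V * b * (ε * a'))) := by
      refine plneu_sum hc₂ (by positivity) fun j => ?_
      by_cases hj : j = o₂
      · rw [if_pos hj, norm_zero]
        positivity
      rw [if_neg hj]
      by_cases hi : in₂ j
      · simp only [fun i => h4 i j hi hj, map_zero, LinearMap.zero_apply, sum_const_zero, norm_zero]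
        positivity
      · exact plneu_fam Δ (h5 j) (by positivity) fun y hy => hP y hy _ _ (by positivity) (a4 j hi)
    rw [e1, e2, add_left_comm, add_eq_zero_iff_eq_neg] at e
    rw [e, norm_neg]
    refine (norm_add_le_of_le b1 b2).trans ?_
    have := mul_le_mul_of_nonneg_right hcε (show 0 ≤ V * b * a' by positivity)
    linarith)
  exact fun y hy l' a' ha' hl' => plneu_lim fun k => hW k y hy l' a' ha' hl'

end side

/-- The contraction argument. -/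
theorem neumann {A ι₁ ι₂ : Type} [AddCommGroup A] [Module ℂ A] [Fintype ι₁] [Fintype ι₂]
    (o₁ : ι₁) (o₂ : ι₂) (in₁ : ι₁ → Prop) (in₂ : ι₂ → Prop) (ok : Finset ι₂ → Prop)
    (𝒢 : Set (ι₁ → ι₂ → A)) (one : A) (h : CurveOK o₁ o₂ in₁ in₂ ok 𝒢 one) (hok : ok ∅)
    (ho₁ : in₁ o₁) (ho₂ : in₂ o₂) : ∃ C : ℝ, 0 < C ∧
    ∀ (F₁ F₂ : Type) [AddCommGroup F₁] [Module ℂ F₁] [AddCommGroup F₂] [Module ℂ F₂]
      (ρ₁ : F₁ → ℝ → Prop) (ρ₂ : F₂ → ℝ → Prop) (Ad₁ : (ι₁ → F₁) → Prop)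
      (Ad₂ : (ι₂ → F₂) → Prop) (B₁ B₂ ε₁ ε₂ : ℝ) (Δ : A →ₗ[ℂ] F₁ →ₗ[ℂ] F₂ →ₗ[ℂ] ℂ),
      1 ≤ B₁ → 1 ≤ B₂ → 0 ≤ ε₁ → 0 ≤ ε₂ → C * B₁ * B₂ * (ε₁ + ε₂) ≤ 1 →
      (∀ l a, 0 ≤ a → ρ₁ l a → ∃ f, Ad₁ f ∧ f o₁ = l ∧ (∀ i, ρ₁ (f i) (B₁ * a)) ∧
        ∀ i, ¬ in₁ i → ρ₁ (f i) (ε₁ * a)) →
      (∀ S, ok S → ∀ l a, 0 ≤ a → ρ₂ l a → ∃ f, Ad₂ f ∧ f o₂ = l ∧ (∀ j ∈ S, f j = 0) ∧
        (∀ j, ρ₂ (f j) (B₂ * a)) ∧ ∀ j, ¬ in₂ j → ρ₂ (f j) (ε₂ * a)) →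
      (∀ g, ∃ N : ℝ, 0 ≤ N ∧ ∀ l l' a a', 0 ≤ a → 0 ≤ a' → ρ₁ l a → ρ₂ l' a' →
        ‖Δ g l l'‖ ≤ N * a * a') →
      (∀ G ∈ 𝒢, ∀ f f', Ad₁ f → Ad₂ f' → ∑ i, ∑ j, Δ (G i j) (f i) (f' j) = 0) →
      ∀ l l' a a', 0 ≤ a → 0 ≤ a' → ρ₁ l a → ρ₂ l' a' → Δ one l l' = 0 := by
  classical
  obtain ⟨pm, pt, pb, M, Yt, Yb, fM, ft, fb, hsum, hpm, hone, hM, ht, hb⟩ := h
  have evM : ∀ᶠ c : ℝ in Filter.atTop, ∀ g ∈ M, ∃ (s : ℕ) (G : Fin s → ι₁ → ι₂ → A)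
      (S : Fin s → Finset ι₂), (∀ e, G e ∈ 𝒢) ∧ (∀ e, ok (S e)) ∧ ∑ e, G e o₁ o₂ = g ∧
      (∀ e i j, in₁ i → in₂ j → ¬ (i = o₁ ∧ j = o₂) → j ∉ S e → G e i j = 0) ∧
      (∀ e i j, in₂ j → pt (G e i j) = 0) ∧ (∀ e i j, in₁ i → pb (G e i j) = 0) ∧
      (∀ e j, plneuCtl Yt (fun i => pt (G e i j)) c) ∧
      (∀ e i, plneuCtl Yb (fun j => pb (G e i j)) c) ∧
      (∀ e i j, plneuCtl M (pm (G e i j)) c) ∧ (s : ℝ) ≤ c := by
    refine (Filter.eventually_all_finite fM).2 fun g hg => ?_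
    obtain ⟨s, G, S, h1, h2, h3, h4, h5, h6, h7, h8⟩ := hM g hg
    filter_upwards [Filter.eventually_all.2 fun e => Filter.eventually_all.2 fun j =>
      plneu_ctl (h7 e j), Filter.eventually_all.2 fun e => Filter.eventually_all.2 fun i =>
      plneu_ctl (h8 e i), Filter.eventually_all.2 fun e => Filter.eventually_all.2 fun i =>
      Filter.eventually_all.2 fun j => plneu_ctl (hpm (G e i j)),
      Filter.eventually_ge_atTop (s : ℝ)] with c a1 a2 a3 a4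
    exact ⟨s, G, S, h1, h2, h3, h4, h5, h6, a1, a2, a3, a4⟩
  have evT : ∀ᶠ c : ℝ in Filter.atTop, ∀ y ∈ Yt, ∃ G ∈ 𝒢, (∀ i, pt (G i o₂) = y i) ∧
      (∀ i j, in₂ j → j ≠ o₂ → pt (G i j) = 0) ∧ (∀ i j, pb (G i j) = 0) ∧
      (∀ j, plneuCtl Yt (fun i => pt (G i j)) c) ∧ ∀ i j, plneuCtl M (pm (G i j)) c := by
    refine (Filter.eventually_all_finite ft).2 fun y hy => ?_
    obtain ⟨G, h1, h2, h3, h4, h5⟩ := ht y hy
    filter_upwards [Filter.eventually_all.2 fun j => plneu_ctl (h4 j),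
      Filter.eventually_all.2 fun i => Filter.eventually_all.2 fun j => plneu_ctl (hpm (G i j))]
      with c a1 a2
    exact ⟨G, h1, h2, h3, h5, a1, a2⟩
  have evB : ∀ᶠ c : ℝ in Filter.atTop, ∀ y ∈ Yb, ∃ G ∈ 𝒢, (∀ j, pb (G o₁ j) = y j) ∧
      (∀ i j, in₁ i → i ≠ o₁ → pb (G i j) = 0) ∧ (∀ i j, pt (G i j) = 0) ∧
      (∀ i, plneuCtl Yb (fun j => pb (G i j)) c) ∧ ∀ i j, plneuCtl M (pm (G i j)) c := by
    refine (Filter.eventually_all_finite fb).2 fun y hy => ?_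
    obtain ⟨G, h1, h2, h3, h4, h5⟩ := hb y hy
    filter_upwards [Filter.eventually_all.2 fun i => plneu_ctl (h4 i),
      Filter.eventually_all.2 fun i => Filter.eventually_all.2 fun j => plneu_ctl (hpm (G i j))]
      with c a1 a2
    exact ⟨G, h1, h2, h3, h5, a1, a2⟩
  obtain ⟨c, ⟨⟨⟨⟨⟨⟨kM, kT⟩, kB⟩, k1⟩, hc1⟩, hc₁⟩, hc₂⟩⟩ := ((((((evM.and evT).and evB).and
    (plneu_ctl hone)).and (Filter.eventually_ge_atTop 1)).and
    (Filter.eventually_ge_atTop (Fintype.card ι₁ : ℝ))).and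
    (Filter.eventually_ge_atTop (Fintype.card ι₂ : ℝ))).exists
  have hc0 : 0 < c := by linarith
  refine ⟨10 * c ^ 6, by positivity, ?_⟩
  intro F₁ F₂ _ _ _ _ ρ₁ ρ₂ Ad₁ Ad₂ B₁ B₂ ε₁ ε₂ Δ hB₁ hB₂ hε₁ hε₂ hC l₁ l₂ hbd hH
  have hB₁0 : 0 ≤ B₁ := by linarith
  have hB₂0 : 0 ≤ B₂ := by linarith
  have hsm : c ^ 2 * (ε₁ + ε₂) ≤ 1 / 2 := by
    have h1 : c ^ 2 ≤ c ^ 6 := pow_le_pow_right₀ hc1 (by norm_num)
    have h2 : c ^ 6 ≤ c ^ 6 * (B₁ * B₂) :=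
      le_mul_of_one_le_right (by positivity) (one_le_mul_of_one_le_of_one_le hB₁ hB₂)
    have h3 := mul_le_mul_of_nonneg_right (h1.trans h2) (add_nonneg hε₁ hε₂)
    linarith
  have hs₁ : c ^ 2 * ε₁ ≤ 1 / 2 := by nlinarith [mul_nonneg (sq_nonneg c) hε₂]
  have hs₂ : c ^ 2 * ε₂ ≤ 1 / 2 := by nlinarith [mul_nonneg (sq_nonneg c) hε₁]
  obtain ⟨W, hW⟩ := plneu_iter (fun V => ∀ g ∈ M, ∀ l l' a a', 0 ≤ a → 0 ≤ a' → ρ₁ l a →
      ρ₂ l' a' → ‖Δ g l l'‖ ≤ V * a * a') (a := 0) le_rfl (by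
    refine (Filter.eventually_all_finite fM).2 fun g _ => ?_
    obtain ⟨N, -, hN⟩ := hbd g
    filter_upwards [Filter.eventually_ge_atTop N] with V hV l l' a a' ha ha' hl hl'
    refine (hN _ _ _ _ ha ha' hl hl').trans ?_
    gcongr) (by
    intro V hV hP g hg l l' a a' ha ha' hl hl'
    obtain ⟨s, G, S, h1, h2, rfl, h4, h5, h6, h7, h8, h9, hs⟩ := kM g hg
    obtain ⟨f, a1, rfl, a3, a4⟩ := l₁ l a ha hl
    have top := plneu_side Δ pm pt (M := M) ft (o₂ := o₂) (in₂ := in₂) (Ad₂ := Ad₂) hc₁ hc₂ hB₂0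
      hε₂ hs₂ hV (mul_nonneg hB₁0 ha) a3 (fun y hy => by
        obtain ⟨G, g1, g2, g3, g4, g5, g6⟩ := kT y hy
        exact ⟨G, fun f' => hH G g1 f f' a1, fun i j => by simpa [g4] using hsum (G i j),
          g2, g3, g5, g6⟩) (fun l a ha hl => by
        obtain ⟨f, b1, b2, -, b3, b4⟩ := l₂ ∅ hok l a ha hl
        exact ⟨f, b1, b2, b3, b4⟩) hbd hP
    have key : ∀ e, ‖Δ (G e o₁ o₂) (f o₁) l'‖ ≤
        5 * c ^ 5 * (V * B₁ * B₂ * (ε₁ + ε₂) * a * a') := by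
      intro e
      obtain ⟨f', b1, rfl, b2, b3, b4⟩ := l₂ (S e) (h2 e) l' a' ha' hl'
      have bot := plneu_side (LinearMap.lflip.toLinearMap ∘ₗ Δ) pm pb (M := M) fb (o₂ := o₁)
        (in₂ := in₁) (Ad₂ := Ad₁) hc₂ hc₁ hB₁0 hε₁ hs₁ hV (mul_nonneg hB₂0 ha') b3 (fun y hy => by
          obtain ⟨G, g1, g2, g3, g4, g5, g6⟩ := kB y hy
          exact ⟨fun j i => G i j, fun f hf => sum_comm.trans (hH G g1 f f' hf b1),
            fun j i => by simpa [g4] using hsum (G i j), g2, fun j i => g3 i j, g5,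
            fun j i => g6 i j⟩) l₁ (fun g => by
          obtain ⟨N, n0, hN⟩ := hbd g
          exact ⟨N, n0, fun l' l a' a ha' ha hl' hl =>
            (hN l l' a a' ha ha' hl hl').trans_eq (mul_right_comm _ _ _)⟩)
        (fun g hg l' l a' a ha' ha hl' hl =>
          (hP g hg l l' a a' ha ha' hl hl').trans_eq (mul_right_comm _ _ _))
      have e0 := hH _ (h1 e) f f' a1 b1
      have e1 : ∑ i, ∑ j, Δ (G e i j) (f i) (f' j) = ∑ i, ∑ j, Δ (pm (G e i j)) (f i) (f' j) +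
          ∑ j, ∑ i, Δ (pt (G e i j)) (f i) (f' j) + ∑ i, ∑ j, Δ (pb (G e i j)) (f i) (f' j) := by
        rw [sum_comm (f := fun j i => Δ (pt (G e i j)) (f i) (f' j)), ← sum_add_distrib,
          ← sum_add_distrib]
        refine sum_congr rfl fun i _ => ?_
        rw [← sum_add_distrib, ← sum_add_distrib]
        refine sum_congr rfl fun j _ => ?_
        rw [← LinearMap.add_apply, ← LinearMap.add_apply, ← LinearMap.add_apply,
          ← LinearMap.add_apply, ← map_add, ← map_add, hsum]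
      have e2 : ∑ i, ∑ j, Δ (pm (G e i j)) (f i) (f' j) = Δ (G e o₁ o₂) (f o₁) (f' o₂) +
          ∑ i, ∑ j, if i = o₁ ∧ j = o₂ then 0 else Δ (pm (G e i j)) (f i) (f' j) := by
        have e3 : pm (G e o₁ o₂) = G e o₁ o₂ := by
          simpa [h5 e o₁ o₂ ho₂, h6 e o₁ o₂ ho₁] using hsum (G e o₁ o₂)
        have e4 : Δ (G e o₁ o₂) (f o₁) (f' o₂) =
            ∑ i, ∑ j, if i = o₁ ∧ j = o₂ then Δ (pm (G e i j)) (f i) (f' j) else 0 := by
          simp [ite_and, e3]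
        rw [e4, ← sum_add_distrib]
        refine sum_congr rfl fun i _ => ?_
        rw [← sum_add_distrib]
        refine sum_congr rfl fun j _ => ?_
        split_ifs <;> simp
      have c1 : ‖∑ i, ∑ j, if i = o₁ ∧ j = o₂ then 0 else Δ (pm (G e i j)) (f i) (f' j)‖ ≤
          c * (c * (c * (V * B₁ * B₂ * (ε₁ + ε₂) * a * a'))) := by
        refine plneu_sum hc₁ (by positivity) fun i => plneu_sum hc₂ (by positivity) fun j => ?_
        by_cases hij : i = o₁ ∧ j = o₂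
        · rw [if_pos hij, norm_zero]
          positivity
        rw [if_neg hij]
        by_cases hi : in₁ i
        · by_cases hj : in₂ j
          · by_cases hS : j ∈ S e
            · rw [b2 j hS, map_zero, norm_zero]
              positivity
            · simp only [h4 e i j hi hj hij hS, map_zero, LinearMap.zero_apply, norm_zero]
              positivity
          · refine plneu_one Δ (h9 e i j) (by positivity) fun g hg =>
              (hP g hg _ _ _ _ (by positivity) (by positivity) (a3 i) (b4 j hj)).trans ?_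
            calc V * (B₁ * a) * (ε₂ * a') = V * B₁ * 1 * (0 + ε₂) * a * a' := by ring
              _ ≤ _ := by gcongr
        · refine plneu_one Δ (h9 e i j) (by positivity) fun g hg =>
            (hP g hg _ _ _ _ (by positivity) (by positivity) (a4 i hi) (b3 j)).trans ?_
          calc V * (ε₁ * a) * (B₂ * a') = V * 1 * B₂ * (ε₁ + 0) * a * a' := by ring
            _ ≤ _ := by gcongr
      have c2 : ‖∑ j, ∑ i, Δ (pt (G e i j)) (f i) (f' j)‖ ≤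
          c * (c * (2 * (c ^ 3 * V * B₂) * (B₁ * a) * (ε₂ * a'))) := by
        refine plneu_sum hc₂ (by positivity) fun j => ?_
        by_cases hj : in₂ j
        · simp only [fun i => h5 e i j hj, map_zero, LinearMap.zero_apply, sum_const_zero,
            norm_zero]
          positivity
        · exact plneu_fam Δ (h7 e j) (by positivity) fun y hy =>
            top y hy _ _ (by positivity) (b4 j hj)
      have c3 : ‖∑ i, ∑ j, Δ (pb (G e i j)) (f i) (f' j)‖ ≤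
          c * (c * (2 * (c ^ 3 * V * B₁) * (B₂ * a') * (ε₁ * a))) := by
        refine plneu_sum hc₁ (by positivity) fun i => ?_
        by_cases hi : in₁ i
        · simp only [fun j => h6 e i j hi, map_zero, LinearMap.zero_apply, sum_const_zero,
            norm_zero]
          positivity
        · exact plneu_fam (LinearMap.lflip.toLinearMap ∘ₗ Δ) (h8 e i) (by positivity) fun y hy =>
            bot y hy _ _ (by positivity) (a4 i hi)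
      rw [e1, e2, add_assoc, add_assoc, add_eq_zero_iff_eq_neg] at e0
      rw [e0, norm_neg]
      refine (norm_add_le_of_le c1 (norm_add_le_of_le c2 c3)).trans ?_
      have d1 := mul_le_mul_of_nonneg_right (pow_le_pow_right₀ hc1 (show 3 ≤ 5 by norm_num))
        (show 0 ≤ V * B₁ * B₂ * (ε₁ + ε₂) * a * a' by positivity)
      have d2 : 0 ≤ c ^ 5 * (V * B₁ * B₂ * (ε₁ + ε₂) * a * a') := by positivity
      linarith
    rw [map_sum, LinearMap.sum_apply, LinearMap.sum_apply]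
    refine (plneu_sum (c := c) (by simpa using hs) (by positivity) key).trans ?_
    have := mul_le_mul_of_nonneg_right hC (show 0 ≤ V * a * a' by positivity)
    linarith)
  intro l l' a a' ha ha' hl hl'
  have := plneu_one Δ k1 (l := l) (l' := l') le_rfl fun g hg => by
    simpa using plneu_lim fun k => hW k g hg l l' a a' ha ha' hl hl'
  simpa using this

end Pool.Agent.Lib.MP_1f047c_nt.PL
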