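import Pool.Agent.Lib.MP_1f047c_nt.PLDefs

open Polynomial Finset

namespace Pool.Agent.Lib.MP_1f047c_nt.PL

private theorem plpart_deg {ι : Type} (W : Finset ι) (ψ : ι → ℂ[X])
    (hψ : ∀ m ∈ W, (ψ m).natDegree = 2) :
    ∏ m ∈ W, ψ m ≠ 0 ∧ (∏ m ∈ W, ψ m).natDegree = 2 * W.card := by
  have h : ∀ m ∈ W, ψ m ≠ 0 := fun m hm c => by simpa [c] using hψ m hm
  refine ⟨prod_ne_zero_iff.2 h, ?_⟩
  rw [natDegree_prod _ _ h, sum_congr rfl hψ, sum_const, smul_eq_mul, mul_comm]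

/-- Partial fractions with degree control. -/
theorem partfrac {ι : Type} [DecidableEq ι] (W : Finset ι) (ψ : ι → ℂ[X])
    (hψ : ∀ m ∈ W, (ψ m).natDegree = 2) (q : ℕ) (f : ℂ[X]) (hf : f.natDegree ≤ 2 * W.card + 2 * q) :
    ∃ (s : ℕ) (S : Fin s → Finset ι) (a : Fin s → ℂ[X]),
      (∀ e, S e = ∅ ∨ ∃ τ : ℂ, S e = W.filter fun m => (ψ m).eval τ = 0) ∧
      (∀ e, (a e).natDegree ≤ 2 * (S e).card + 2 * q) ∧
      ∑ e, a e * ∏ m ∈ W \ S e, ψ m = f := by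
  obtain ⟨S, hS⟩ : ∃ S : ℂ → Finset ι, ∀ τ, S τ = W.filter fun m => (ψ m).eval τ = 0 :=
    ⟨_, fun _ => rfl⟩
  have sub : ∀ τ, S τ ⊆ W := fun τ => hS τ ▸ filter_subset _ _
  obtain ⟨n0, d0⟩ := plpart_deg W ψ hψ
  have d1 := fun τ => plpart_deg (S τ) ψ fun m hm => hψ m (sub τ hm)
  have d2 := fun τ => plpart_deg (W \ S τ) ψ fun m hm => hψ m (sdiff_subset hm)
  obtain ⟨T, hT⟩ : ∃ T : Finset ℂ, ∀ z, (∏ m ∈ W, ψ m).eval z = 0 → z ∈ T :=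
    ⟨(∏ m ∈ W, ψ m).roots.toFinset, fun z hz => Multiset.mem_toFinset.2 ((mem_roots n0).2 hz)⟩
  have cop : IsCoprime (∑ τ ∈ T, (∏ σ ∈ T.erase τ, (X - C σ)) * ∏ m ∈ W \ S τ, ψ m)
      (∏ m ∈ W, ψ m) := by
    refine (isCoprime_iff_aeval_ne_zero_of_isAlgClosed ℂ ℂ _ _).2 fun z => ?_
    rw [coe_aeval_eq_eval]
    refine or_iff_not_imp_right.2 fun hz => ?_
    rw [eval_finsetSum, sum_eq_single_of_mem z (hT z (not_not.1 hz)), eval_mul, eval_prod,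
      eval_prod]
    · refine mul_ne_zero (prod_ne_zero_iff.2 fun σ hσ => ?_) (prod_ne_zero_iff.2 fun m hm c => ?_)
      · simpa [sub_eq_zero] using (ne_of_mem_erase hσ).symm
      · exact (mem_sdiff.1 hm).2 (hS z ▸ mem_filter.2 ⟨(mem_sdiff.1 hm).1, c⟩)
    · intro τ _ n
      rw [eval_mul, eval_prod, prod_eq_zero (mem_erase.2 ⟨n.symm, hT z (not_not.1 hz)⟩) (by simp),
        zero_mul]
  obtain ⟨A, B, hAB⟩ := cop
  obtain ⟨b, hb⟩ : ∃ b : ℂ → ℂ[X], ∀ τ, b τ = f * A * ∏ σ ∈ T.erase τ, (X - C σ) :=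
    ⟨_, fun _ => rfl⟩
  obtain ⟨a, ha⟩ : ∃ a : ℂ → ℂ[X], ∀ τ, a τ = b τ % ∏ m ∈ S τ, ψ m := ⟨_, fun _ => rfl⟩
  have da : ∀ τ, (a τ).natDegree ≤ 2 * (S τ).card := fun τ => by
    rw [ha, ← (d1 τ).2]
    exact natDegree_le_natDegree (degree_mod_lt _ (d1 τ).1).le
  obtain ⟨c, hc⟩ : ∃ c : ℂ[X], ∑ τ ∈ T, a τ * ∏ m ∈ W \ S τ, ψ m + c * ∏ m ∈ W, ψ m = f := by
    refine ⟨f * B + ∑ τ ∈ T, b τ / ∏ m ∈ S τ, ψ m, ?_⟩
    have e : ∑ τ ∈ T, a τ * ∏ m ∈ W \ S τ, ψ m + (∑ τ ∈ T, b τ / ∏ m ∈ S τ, ψ m) * ∏ m ∈ W, ψ m =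
        f * A * ∑ τ ∈ T, (∏ σ ∈ T.erase τ, (X - C σ)) * ∏ m ∈ W \ S τ, ψ m := by
      rw [sum_mul, mul_sum, ← sum_add_distrib]
      refine sum_congr rfl fun τ _ => ?_
      rw [← prod_sdiff (sub τ), ← mul_assoc (f * A), ← hb, ha]
      linear_combination (∏ m ∈ W \ S τ, ψ m) * EuclideanDomain.mod_add_div (b τ) (∏ m ∈ S τ, ψ m)
    linear_combination e + f * hAB
  have dc : c.natDegree ≤ 2 * q := by
    by_cases c0 : c = 0
    · simp [c0]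
    have h1 : (∑ τ ∈ T, a τ * ∏ m ∈ W \ S τ, ψ m).natDegree ≤ 2 * W.card + 2 * q := by
      refine natDegree_sum_le_of_forall_le _ _ fun τ _ => natDegree_mul_le.trans ?_
      have := card_sdiff_add_card_eq_card (sub τ)
      have := da τ
      rw [(d2 τ).2]
      omega
    have h2 := (natDegree_sub_le_of_le hf h1).trans (max_self _).le
    rw [← hc, add_sub_cancel_left, natDegree_mul c0 n0, d0] at h2
    omega
  refine ⟨T.card + 1, Fin.cons ∅ fun i => S (T.equivFin.symm i),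
    Fin.cons c fun i => a (T.equivFin.symm i), fun e => ?_, fun e => ?_, ?_⟩
  · refine Fin.cases (Or.inl rfl) (fun i => Or.inr ⟨_, hS _⟩) e
  · refine Fin.cases (by simpa using dc) (fun i => (da _).trans (Nat.le_add_right _ _)) e
  · rw [Fin.sum_univ_succ, ← hc, add_comm, ← sum_coe_sort T,
      ← Equiv.sum_comp T.equivFin.symm]
    simp

/-- A polynomial with a prescribed jet at the origin and zero jets at other points. -/
theorem jetpoly {ι : Type} (W : Finset ι) (w : ι → ℂ) (hw : ∀ m ∈ W, w m ≠ 0) (N q : ℕ)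
    (hq : q < N) : ∃ g : ℂ[X], g.natDegree ≤ N * (W.card + 1) ∧ X ^ N ∣ g - X ^ q ∧
      ∀ m ∈ W, X ^ N ∣ g.comp (X + C (w m)) := by
  have cop : IsCoprime (∏ m ∈ W, (X - C (w m)) ^ N) (X ^ N : ℂ[X]) := by
    refine IsCoprime.prod_left fun m hm => IsCoprime.pow ?_
    simpa using isCoprime_X_sub_C_of_isUnit_sub (b := 0) (by simpa using hw m hm : IsUnit (w m - 0))
  obtain ⟨A, B, hAB⟩ := cop
  have mo : (X ^ N : ℂ[X]).Monic := monic_X_pow N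
  refine ⟨(X ^ q * A) %ₘ X ^ N * ∏ m ∈ W, (X - C (w m)) ^ N, natDegree_mul_le.trans ?_,
    ⟨-((X ^ q * A) /ₘ X ^ N * ∏ m ∈ W, (X - C (w m)) ^ N) - X ^ q * B, ?_⟩, fun m hm => ?_⟩
  · have h1 : ((X ^ q * A) %ₘ X ^ N).natDegree ≤ N :=
      (natDegree_le_natDegree (degree_modByMonic_lt _ mo).le).trans (natDegree_X_pow N).le
    have h2 : (∏ m ∈ W, (X - C (w m)) ^ N).natDegree ≤ N * W.card := by
      refine (natDegree_prod_le _ _).trans (le_of_eq ?_)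
      simp [mul_comm]
    rw [mul_add]
    omega
  · linear_combination (∏ m ∈ W, (X - C (w m)) ^ N) * modByMonic_add_div (X ^ q * A) (X ^ N) +
      X ^ q * hAB
  · rw [mul_comp, Polynomial.prod_comp]
    refine Dvd.dvd.mul_left (dvd_trans (dvd_of_eq ?_) (dvd_prod_of_mem _ hm)) _
    simp

end Pool.Agent.Lib.MP_1f047c_nt.PL
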