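import Pool.Agent.Lib.MP_1f047c_nt.PLCalc2

open Polynomial Finset

namespace Pool.Agent.Lib.MP_1f047c_nt.PL

private lemma plpois_exp (m : ℤ) (a : ℕ) (x : ℝ) :
    (expS (-wm m)).1 (x + a) = (expS (-wm m)).1 x := by
  change Complex.exp (-wm m * ((x + a : ℝ) : ℂ)) = Complex.exp (-wm m * x)
  have h := Complex.exp_int_mul_two_pi_mul_I (-(m * a))
  rw [show -wm m * ((x + a : ℝ) : ℂ) =
    -wm m * x + ((-(m * a) : ℤ) : ℂ) * (2 * Real.pi * Complex.I) by
      rw [wm]; push_cast; ring, Complex.exp_add, h, mul_one]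

private lemma plpois_exact (n : ℕ) (g : Sm) (h0 : g.1 0 = 0) (h1 : g.1 n = 0)
    (hs : Summable fun m : ℤ => fc n m g) :
    HasSum (fun m : ℤ => fc n m g) (∑ a ∈ range (n + 1), g.1 (a : ℕ)) := by
  have : Fact ((0 : ℝ) < 1) := ⟨one_pos⟩
  have hc : Continuous fun x : ℝ => ∑ a ∈ range n, g.1 (x + a) :=
    continuous_finsetSum _ fun a _ => (Sm.cont g).comp (continuous_id.add continuous_const)
  have e0 : ∑ a ∈ range n, g.1 ((0 : ℝ) + a) = ∑ a ∈ range (n + 1), g.1 (a : ℕ) := by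
    rw [sum_range_succ, h1, add_zero]
    simp only [zero_add]
  have e1 : ∑ a ∈ range n, g.1 ((0 : ℝ) + 1 + a) = ∑ a ∈ range (n + 1), g.1 (a : ℕ) := by
    rw [sum_range_succ', Nat.cast_zero, h0, add_zero]
    refine sum_congr rfl fun a _ => ?_
    rw [show (0 : ℝ) + 1 + a = ((a + 1 : ℕ) : ℝ) by push_cast; ring]
  let F : C(AddCircle (1 : ℝ), ℂ) :=
    ⟨AddCircle.liftIco 1 0 fun x : ℝ => ∑ a ∈ range n, g.1 (x + a),
      AddCircle.liftIco_continuous (e0.trans e1.symm) hc.continuousOn⟩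
  have hF : ∀ m : ℤ, fourierCoeff F m = fc n m g := fun m => by
    have hi := intervalIntegral.sum_integral_adjacent_intervals (μ := MeasureTheory.volume)
      (f := (g * expS (-wm m)).1) (a := fun k : ℕ => (k : ℝ)) (n := n)
      fun k _ => (Sm.cont _).intervalIntegrable _ _
    simp only [Nat.cast_zero] at hi
    rw [fourierCoeff_eq_intervalIntegral _ _ 0, fc, ← hi, div_one, one_smul, zero_add]
    have h2 : ∀ a : ℕ, ∫ x in (a : ℝ)..((a + 1 : ℕ) : ℝ), (g * expS (-wm m)).1 x =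
        ∫ x in (0 : ℝ)..1, (g * expS (-wm m)).1 (x + a) := fun a => by
      rw [intervalIntegral.integral_comp_add_right (g * expS (-wm m)).1]
      congr 1
      · simp
      · push_cast; ring
    simp only [h2]
    rw [← intervalIntegral.integral_finsetSum
      (f := fun (a : ℕ) (x : ℝ) => (g * expS (-wm m)).1 (x + a)) fun a _ =>
      ((Sm.cont (g * expS (-wm m))).comp (continuous_id.add continuous_const)).intervalIntegrable
        _ _]
    refine intervalIntegral.integral_congr_Ioo_of_le zero_le_one fun x hx => ?_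
    have h3 : F (x : AddCircle (1 : ℝ)) = ∑ a ∈ range n, g.1 (x + a) :=
      AddCircle.liftIco_zero_coe_apply (f := fun x : ℝ => ∑ a ∈ range n, g.1 (x + a))
        (Set.Ioo_subset_Ico_self hx)
    have h4 : fourier (-m) (x : AddCircle (1 : ℝ)) = (expS (-wm m)).1 x := by
      rw [fourier_coe_apply]
      change _ = Complex.exp (-wm m * x)
      congr 1
      rw [wm]; push_cast; ring
    simp only [h3, h4, smul_eq_mul, mul_sum]
    refine sum_congr rfl fun a _ => ?_
    change _ = g.1 (x + a) * (expS (-wm m)).1 (x + a)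
    rw [plpois_exp, mul_comm]
  have h5 := has_pointwise_sum_fourier_series_of_summable (f := F)
    (by rw [show fourierCoeff F = fun m => fc n m g from funext hF]; exact hs) 0
  simp only [hF, fourier_eval_zero, smul_eq_mul, mul_one] at h5
  have h6 : F ((0 : ℝ) : AddCircle (1 : ℝ)) = ∑ a ∈ range n, g.1 ((0 : ℝ) + a) :=
    AddCircle.liftIco_zero_coe_apply (f := fun x : ℝ => ∑ a ∈ range n, g.1 (x + a))
      ⟨le_rfl, one_pos⟩
  rw [← e0, ← h6]
  exact h5

private lemma plpois_dd {n : ℝ} (m : ℤ) {f : Sm} (hf : Van n f 1) :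
    fc n m (dd f) = wm m * fc n m f := by
  have h := ibp hf 0 (expS (-wm m))
  rw [sh_apply, zero_smul, zero_add, zero_smul, zero_sub, dd_expS, ← neg_smul, neg_neg,
    mul_smul_comm] at h
  rw [fc, h, fc, ← intervalIntegral.integral_const_mul]
  rfl

private lemma plpois_pow {n : ℝ} (m : ℤ) {f : Sm} {k : ℕ} (hf : Van n f k) :
    ∀ j ≤ k, fc n m ((dd ^ j) f) = wm m ^ j * fc n m f := by
  intro j
  induction j with
  | zero => simp
  | succ j ih =>
    intro hj
    have h1 : Van n ((dd ^ j) f) 1 := fun i hi => by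
      obtain rfl : i = 0 := by omega
      simpa using hf j (by omega)
    rw [pow_succ', Module.End.mul_apply, plpois_dd m h1, ih (by omega)]
    ring

private lemma plpois_fc {n : ℝ} (hn : 0 ≤ n) (m : ℤ) {g : Sm} {B : ℝ}
    (h : ∀ x ∈ Set.Icc (0 : ℝ) n, ‖g.1 x‖ ≤ B) : ‖fc n m g‖ ≤ B * n := by
  have := intervalIntegral.norm_integral_le_of_norm_le_const (a := 0) (b := n) (C := B)
    (f := (g * expS (-wm m)).1) fun x hx => by
      rw [Set.uIoc_of_le hn] at hx
      change ‖g.1 x * Complex.exp (-wm m * x)‖ ≤ B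
      have e : -wm m * x = ((-(2 * Real.pi * m * x) : ℝ) : ℂ) * Complex.I := by
        rw [wm]; push_cast; ring
      rw [norm_mul, e, Complex.norm_exp_ofReal_mul_I, mul_one]
      exact h x (Set.Ioc_subset_Icc_self hx)
  rwa [sub_zero, abs_of_nonneg hn] at this

private lemma plpois_wm (m : ℤ) : |(m : ℝ)| ≤ ‖wm m‖ := by
  have : ‖wm m‖ = 2 * Real.pi * |(m : ℝ)| := by
    simp [wm, abs_of_pos Real.pi_pos]
  rw [this]
  have h1 := Real.pi_gt_three
  have h2 := abs_nonneg (m : ℝ)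
  nlinarith

private lemma plpois_zeta : ∃ s : ℝ, s ≤ 4 ∧ HasSum (fun m : ℤ => 1 / (m : ℝ) ^ 2) s := by
  refine ⟨_, ?_, HasSum.of_nat_of_neg (f := fun m : ℤ => 1 / (m : ℝ) ^ 2)
    (by simpa using hasSum_zeta_two) (by simpa using hasSum_zeta_two)⟩
  have h1 := Real.pi_lt_d2
  have h2 := Real.pi_pos
  norm_num
  nlinarith

/-- Truncated Poisson summation. -/
theorem poisson (n R k j : ℕ) (hR : 1 ≤ R) (hj : j + 2 ≤ k) (f : Sm) (A b : ℝ) (hA : 0 ≤ A)
    (hb : 0 ≤ b) (hv : Van n f k) (hf : Bd n f A b) :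
    ‖∑ a ∈ range (n + 1), ((dd ^ j) f).1 (a : ℕ) -
        ∑ m ∈ Finset.Icc (-(R : ℤ)) R, wm m ^ j * fc n m f‖ ≤
      4 * n * A * (R : ℝ) ^ (j + 2) * (b / R) ^ k := by
  obtain ⟨s, hs4, hs⟩ := plpois_zeta
  obtain ⟨d, rfl⟩ : ∃ d, k = j + 2 + d := ⟨k - (j + 2), by omega⟩
  have hR0 : (0 : ℝ) < R := by exact_mod_cast hR
  set C : ℝ := n * A * (R : ℝ) ^ (j + 2) * (b / R) ^ (j + 2 + d) with hC
  have hC0 : 0 ≤ C := by positivity
  have hC1 : C * (R : ℝ) ^ d = A * b ^ (j + 2 + d) * n := by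
    rw [hC, div_pow, pow_add (R : ℝ) (j + 2) d]
    field_simp
  let u : ℤ → ℂ := fun m => if m ∈ Finset.Icc (-(R : ℤ)) R then wm m ^ j * fc n m f else 0
  have hu : HasSum u (∑ m ∈ Finset.Icc (-(R : ℤ)) R, wm m ^ j * fc n m f) := by
    have := hasSum_sum_of_ne_finset_zero (L := SummationFilter.unconditional ℤ) (f := u)
      (s := Finset.Icc (-(R : ℤ)) R) fun m hm => if_neg hm
    rwa [sum_congr rfl fun m hm => if_pos hm] at this
  have hbd : ∀ m : ℤ, ‖fc n m ((dd ^ j) f) - u m‖ ≤ C * (1 / (m : ℝ) ^ 2) := fun m => by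
    rw [plpois_pow m hv j (by omega)]
    by_cases hm : m ∈ Finset.Icc (-(R : ℤ)) R
    · simp only [u, if_pos hm, sub_self, norm_zero]
      positivity
    simp only [u, if_neg hm, sub_zero]
    have h1 : (R : ℝ) ≤ |(m : ℝ)| := by
      have : (R : ℤ) ≤ |m| := by
        rw [Finset.mem_Icc] at hm
        rw [le_abs]
        omega
      exact_mod_cast this
    have h2 := plpois_fc (Nat.cast_nonneg n) m (hf (j + 2 + d))
    rw [plpois_pow m hv _ le_rfl, show wm m ^ (j + 2 + d) * fc n m f =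
      wm m ^ 2 * wm m ^ d * (wm m ^ j * fc n m f) by ring, norm_mul, norm_mul, norm_pow, norm_pow,
      ← hC1] at h2
    have h3 : (m : ℝ) ^ 2 ≤ ‖wm m‖ ^ 2 := by
      rw [← sq_abs]
      exact pow_le_pow_left₀ (abs_nonneg _) (plpois_wm m) 2
    have h4 : (R : ℝ) ^ d ≤ ‖wm m‖ ^ d := pow_le_pow_left₀ hR0.le (h1.trans (plpois_wm m)) d
    have h5 : (0 : ℝ) < (m : ℝ) ^ 2 := by
      rw [← sq_abs]
      exact pow_pos (hR0.trans_le h1) 2
    have h6 : (0 : ℝ) < (R : ℝ) ^ d := by positivity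
    rw [mul_one_div, le_div_iff₀ h5]
    refine le_of_mul_le_mul_right (le_trans ?_ h2) h6
    rw [show ‖wm m ^ j * fc n m f‖ * (m : ℝ) ^ 2 * (R : ℝ) ^ d =
      (m : ℝ) ^ 2 * (R : ℝ) ^ d * ‖wm m ^ j * fc n m f‖ by ring]
    exact mul_le_mul_of_nonneg_right (mul_le_mul h3 h4 h6.le (by positivity)) (norm_nonneg _)
  have hsum : Summable fun m : ℤ => fc n m ((dd ^ j) f) := by
    have := (Summable.of_norm_bounded (hs.mul_left C).summable hbd).add hu.summable
    simpa using this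
  have hj' := hv j (by omega)
  have h7 := ((plpois_exact n _ hj'.1 hj'.2 hsum).sub hu).norm_le_of_bounded (hs.mul_left C) hbd
  refine h7.trans ?_
  rw [show 4 * n * A * (R : ℝ) ^ (j + 2) * (b / R) ^ (j + 2 + d) = C * 4 by rw [hC]; ring]
  exact mul_le_mul_of_nonneg_left hs4 hC0

end Pool.Agent.Lib.MP_1f047c_nt.PL
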