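import Pool.Agent.Lib.MP_1f047c_nt.PLLift
import Pool.Agent.Lib.MP_1f047c_nt.PLNeu

open Polynomial Finset

namespace Pool.Agent.Lib.MP_1f047c_nt.PL

lemma plzero_mono {ν : ℕ} {n : ℝ} {κ : ℕ} {z : ℂ} {l : TS ν →ₗ[ℂ] ℂ} {A B : ℝ}
    (h : Rho n κ z l A) (hAB : A ≤ B) : Rho n κ z l B :=
  fun D => (h D).trans (mul_le_mul_of_nonneg_right hAB (nq_nonneg _ _ _))

/-- The trilinear pairing. -/
noncomputable def plzeroD {A ι T₁ T₂ : Type} [CommRing A] [Algebra ℂ A] [Fintype ι]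
    [AddCommGroup T₁] [Module ℂ T₁] [AddCommGroup T₂] [Module ℂ T₂] (P : ι → A →ₐ[ℂ] ℂ)
    (D₁ : ι → T₁) (D₂ : ι → T₂) : A →ₗ[ℂ] (T₁ →ₗ[ℂ] ℂ) →ₗ[ℂ] (T₂ →ₗ[ℂ] ℂ) →ₗ[ℂ] ℂ :=
  ∑ o, (P o).toLinearMap.smulRight
    ((LinearMap.applyₗ (D₁ o)).smulRight (LinearMap.applyₗ (D₂ o)))

lemma plzeroD_apply {A ι T₁ T₂ : Type} [CommRing A] [Algebra ℂ A] [Fintype ι]
    [AddCommGroup T₁] [Module ℂ T₁] [AddCommGroup T₂] [Module ℂ T₂] (P : ι → A →ₐ[ℂ] ℂ)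
    (D₁ : ι → T₁) (D₂ : ι → T₂) (g : A) (l : T₁ →ₗ[ℂ] ℂ) (l' : T₂ →ₗ[ℂ] ℂ) :
    plzeroD P D₁ D₂ g l l' = ∑ o, P o g * (l (D₁ o) * l' (D₂ o)) := by
  simp [plzeroD, LinearMap.sum_apply]

lemma plzero_sum {A ι ι₁ ι₂ : Type} [CommRing A] [Algebra ℂ A] [Fintype ι] [Fintype ι₁]
    [Fintype ι₂] {ν₁ ν₂ n₁ n₂ E : ℕ} {z₁ z₂ : ℂ} (P : ι → A →ₐ[ℂ] ℂ) (D₁ : ι → TS ν₁)
    (D₂ : ι → TS ν₂) (x y : A) (p₁ : ι₁ → ℂ) (p₂ : ι₂ → ℂ)
    (h : ∀ a ≤ n₁, ∀ b ≤ n₂, ∀ i ≤ E, ∀ j ≤ E,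
      ∑ o, ((sh (P o x) ^ i) (fn z₁ (D₁ o))).1 (a : ℕ) *
        ((sh (P o y) ^ j) (fn z₂ (D₂ o))).1 (b : ℕ) = 0)
    {G : ι₁ → ι₂ → A} (hG : G ∈ gen x y E p₁ p₂) {f : ι₁ → TS ν₁ →ₗ[ℂ] ℂ}
    {f' : ι₂ → TS ν₂ →ₗ[ℂ] ℂ} (hf : Adm n₁ E z₁ p₁ f) (hf' : Adm n₂ E z₂ p₂ f') :
    ∑ i, ∑ j, plzeroD P D₁ D₂ (G i j) (f i) (f' j) = 0 := by
  induction hG using Submodule.span_induction with
  | zero => simp
  | add G G' _ _ h1 h2 =>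
    simp only [Pi.add_apply, map_add, LinearMap.add_apply, sum_add_distrib, h1, h2, add_zero]
  | smul c G _ h1 =>
    simp only [Pi.smul_apply, map_smul, LinearMap.smul_apply, ← smul_sum, h1, smul_zero]
  | mem G hG =>
    obtain ⟨k, hk, l, hl, rfl⟩ := hG
    obtain ⟨φ, hφ⟩ := hf
    obtain ⟨φ', hφ'⟩ := hf'
    have e : ∑ i, ∑ j, plzeroD P D₁ D₂
        ((x + algebraMap ℂ A (p₁ i)) ^ k * (y + algebraMap ℂ A (p₂ j)) ^ l) (f i) (f' j) =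
        ∑ o, (∑ i, (P o x + p₁ i) ^ k * f i (D₁ o)) * ∑ j, (P o y + p₂ j) ^ l * f' j (D₂ o) := by
      simp only [plzeroD_apply, sum_mul_sum, map_mul, map_pow, map_add, AlgHom.commutes,
        Algebra.algebraMap_self, RingHom.id_apply]
      rw [sum_comm (s := univ (α := ι))]
      refine sum_congr rfl fun i _ => ?_
      rw [sum_comm]
      exact sum_congr rfl fun o _ => sum_congr rfl fun j _ => by ring
    rw [e]
    simp only [hφ _ k hk, hφ' _ l hl, sum_mul_sum]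
    rw [sum_comm]
    refine sum_eq_zero fun a ha => ?_
    rw [sum_comm]
    refine sum_eq_zero fun b hb => ?_
    have h1 := leib (fun o => P o y) (fun o => ((sh (P o x) ^ k) (φ * fn z₁ (D₁ o))).1 (a : ℕ))
      (fun o => fn z₂ (D₂ o)) (b : ℕ) E (fun j hj => by
        simpa only [mul_comm] using leib (fun o => P o x)
          (fun o => ((sh (P o y) ^ j) (fn z₂ (D₂ o))).1 (b : ℕ)) (fun o => fn z₁ (D₁ o)) (a : ℕ) E
          (fun i hi => h a (Nat.lt_succ_iff.1 (mem_range.1 ha)) b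
            (Nat.lt_succ_iff.1 (mem_range.1 hb)) i hi j hj) φ k hk) φ' l hl
    simpa only [mul_comm] using h1

/-- The zero estimate for a curve with the algebraic input `CurveOK`. -/
theorem zero_est (C₀ : ℕ) (hC : 1 ≤ C₀) : ∃ L : ℝ, ∀ R j : ℕ, 1 ≤ R →
    L * (1 + j * (1 + Real.log R)) ≤ R → ∀ (E : ℕ) (A : Type) [CommRing A] [Algebra ℂ A] (x y : A),
    CurveOK (org R E) (org R E) inW inW (okS j)
      (gen x y E (pos (R := R) (E := E)) (pos (R := R) (E := E)) : Set (Ix R E → Ix R E → A)) 1 →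
    ∃ n₀ : ℕ, ∀ n₁ n₂ : ℕ, n₀ ≤ n₂ → n₂ ≤ n₁ → ∀ z₁ z₂ : ℂ, z₁ ≠ 0 → ‖z₁‖ ≤ 1 → z₂ ≠ 0 →
      ‖z₂‖ ≤ 1 → ∀ e₀ : A →ₐ[ℂ] ℂ,
      ZK (fun e : A →ₐ[ℂ] ℂ => (e x, e y)) (e₀ x + z₁) (e₀ y + z₂) (Complex.exp z₁)
        (Complex.exp z₂) (C₀ * n₁) (C₀ * n₂) E n₁ n₂ := by
  obtain ⟨L, -, hL⟩ := lifts C₀ hC
  refine ⟨L, fun R j hR hRL E A _ _ x y hok => ?_⟩
  obtain ⟨β, hβ, hβE⟩ := hL R j hR hRL
  obtain ⟨C, hC0, n₀, hn₀⟩ := hβE E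
  have h0 : okS j (∅ : Finset (Ix R E)) := ⟨Nat.zero_le _, by simp⟩
  obtain ⟨C', hC', hneu⟩ := neumann _ _ _ _ _ _ _ hok h0 rfl rfl
  refine ⟨max n₀ ⌈(2 * C' * C + C) / β⌉₊, ?_⟩
  intro n₁ n₂ h2 h12 z₁ z₂ hz₁ hz₁' hz₂ hz₂' e₀ t pt D D' hD hD' hall
  obtain ⟨κ₁, hκ₁⟩ := hn₀ n₁ ((le_max_left _ _).trans (h2.trans h12))
  obtain ⟨κ₂, hκ₂⟩ := hn₀ n₂ ((le_max_left _ _).trans h2)
  obtain ⟨⟨A₁, hA₁, hs₁⟩, hf₁⟩ := hκ₁ z₁ hz₁ hz₁'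
  obtain ⟨⟨A₂, hA₂, hs₂⟩, hf₂⟩ := hκ₂ z₂ hz₂ hz₂'
  have hb : 2 * C' * C + C ≤ β * n₂ := by
    rw [mul_comm β, ← div_le_iff₀ hβ]
    exact Nat.ceil_le.1 ((le_max_right _ _).trans h2)
  have hCC : 0 < C' * C := mul_pos hC' hC0
  have hB : 2 * C' * C + C + 1 ≤ Real.exp (β * n₂) := by linarith [Real.add_one_le_exp (β * n₂)]
  have hB1 : 1 ≤ Real.exp (β * n₂) := by linarith
  have he : Real.exp (β * n₂) * Real.exp (β * n₂) * Real.exp (-(2 * β * n₂)) = 1 := by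
    rw [← Real.exp_add, ← Real.exp_add, ← Real.exp_zero]
    congr 1
    ring
  have h21 : Real.exp (-(2 * β * n₁)) ≤ Real.exp (-(2 * β * n₂)) :=
    Real.exp_le_exp.2 (neg_le_neg (mul_le_mul_of_nonneg_left (Nat.cast_le.2 h12) (by positivity)))
  have hp₁ := Real.exp_pos (-(2 * β * n₁))
  have hp₂ := Real.exp_pos (-(2 * β * n₂))
  have hw : (2 * C' * C + C + 1) * (Real.exp (β * n₂) * Real.exp (-(2 * β * n₂))) ≤ 1 := by
    refine (mul_le_mul_of_nonneg_right hB (mul_pos (Real.exp_pos _) hp₂).le).trans_eq ?_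
    rw [← mul_assoc, he]
  have hv : Real.exp (-(2 * β * n₂)) ≤ Real.exp (β * n₂) * Real.exp (-(2 * β * n₂)) :=
    le_mul_of_one_le_left hp₂.le hB1
  have hε₂ : C * Real.exp (-(2 * β * n₂)) ≤ 1 := by nlinarith
  have hε₁ : C * Real.exp (-(2 * β * n₁)) ≤ 1 :=
    (mul_le_mul_of_nonneg_left h21 hC0.le).trans hε₂
  have key := hneu _ _ (Rho n₁ κ₁ z₁) (Rho n₂ κ₂ z₂) (Adm n₁ E z₁ pos) (Adm n₂ E z₂ pos) 1
    (Real.exp (β * n₂)) (C * Real.exp (-(2 * β * n₁))) (C * Real.exp (-(2 * β * n₂)))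
    (plzeroD (fun o : Option (Fin t) => o.elim e₀ pt)
      (fun o => o.elim ((0, 1) : TS (C₀ * n₁)) fun e => (⟨D e, mem_degreeLT.2 (hD e)⟩, 0))
      fun o => o.elim ((0, -1) : TS (C₀ * n₂)) fun e => (⟨D' e, mem_degreeLT.2 (hD' e)⟩, 0))
    le_rfl hB1 (by positivity) (by positivity) ?_ (fun l a ha hl => ?_)
    (fun S hS l a ha hl => ?_) (fun g => ?_) (fun G hG f f' hf hf' => ?_) _ _ _ _ hA₁ hA₂ hs₁ hs₂
  · simp [plzeroD_apply, Fintype.sum_option] at key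
  · nlinarith [mul_le_mul_of_nonneg_left h21 (mul_pos hCC (Real.exp_pos (β * n₂))).le,
      mul_pos (Real.exp_pos (β * n₂)) hp₂]
  · obtain ⟨f, a1, a2, -, a3, a4⟩ := hf₁ ∅ h0 l a ha hl
    refine ⟨f, a1, a2, fun i => ?_, a4⟩
    by_cases hi : inW i
    · simpa using a3 i hi
    · exact plzero_mono (a4 i hi) (mul_le_mul_of_nonneg_right hε₁ ha)
  · obtain ⟨f, a1, a2, a5, a3, a4⟩ := hf₂ S hS l a ha hl
    refine ⟨f, a1, a2, a5, fun i => ?_, a4⟩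
    by_cases hi : inW i
    · refine plzero_mono (a3 i hi) (mul_le_mul_of_nonneg_right ?_ ha)
      split_ifs
      · exact hB1
      · exact le_rfl
    · exact plzero_mono (a4 i hi) (mul_le_mul_of_nonneg_right (hε₂.trans hB1) ha)
  · generalize (fun o : Option (Fin t) => o.elim e₀ pt) = P
    generalize (fun o : Option (Fin t) => o.elim ((0, 1) : TS (C₀ * n₁)) _) = T₁
    generalize (fun o : Option (Fin t) => o.elim ((0, -1) : TS (C₀ * n₂)) _) = T₂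
    refine ⟨∑ o, ‖P o g‖ * (nq n₁ κ₁ (fn z₁ (T₁ o)) * nq n₂ κ₂ (fn z₂ (T₂ o))),
      sum_nonneg fun o _ => mul_nonneg (norm_nonneg _)
        (mul_nonneg (nq_nonneg _ _ _) (nq_nonneg _ _ _)), fun l l' a a' ha ha' hl hl' => ?_⟩
    rw [plzeroD_apply, sum_mul, sum_mul]
    refine (norm_sum_le _ _).trans (sum_le_sum fun o _ => ?_)
    rw [norm_mul, norm_mul, mul_assoc, mul_assoc]
    refine mul_le_mul_of_nonneg_left ((mul_le_mul (hl _) (hl' _) (norm_nonneg _)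
      (mul_nonneg ha (nq_nonneg _ _ _))).trans (le_of_eq (by ring))) (norm_nonneg _)
  · refine plzero_sum _ _ _ x y pos pos (fun a ha b hb i hi j hj => ?_) hG hf hf'
    have h := hall a ha b hb i hi j hj
    simp only [Fintype.sum_option, Option.elim, fn_apply, zero_smul, add_zero, one_smul,
      ZeroMemClass.coe_zero, map_zero, zero_add, neg_smul, map_neg, NegMemClass.coe_neg,
      Pi.neg_apply, sh_pow_polyS, sh_pow_expS, h, Complex.ofReal_natCast, mul_comm z₁,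
      mul_comm z₂, Complex.exp_nat_mul]
    ring

end Pool.Agent.Lib.MP_1f047c_nt.PL
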