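import Mathlib

/-! The Gauss valuation attached to a derivation, and the counting lemma. -/

open Finset Module
open scoped NNReal

namespace Pool.Agent.Lib.MP_1f047c_nt

section Gauss

variable {S : Type} [CommRing S] (D : Derivation ℤ S S)

lemma iter_add (n : ℕ) (u v : S) : D^[n] (u + v) = D^[n] u + D^[n] v := by
  induction n generalizing u v with
  | zero => rfl
  | succ n ih => simp [Function.iterate_succ_apply, ih]

lemma iter_zero (n : ℕ) : D^[n] (0 : S) = 0 := Function.iterate_fixed (map_zero D) n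

lemma iter_mul (n : ℕ) (u v : S) : D^[n] (u * v) =
    ∑ p ∈ antidiagonal n, n.choose p.1 • (D^[p.1] u * D^[p.2] v) := by
  induction n with
  | zero => simp
  | succ n ih =>
    rw [sum_antidiagonal_choose_succ_nsmul (M := S) (fun i j => D^[i] u * D^[j] v) n]
    simp only [Function.iterate_succ_apply', ih, map_sum, map_nsmul, Derivation.leibniz, smul_add,
      sum_add_distrib, smul_eq_mul, add_right_inj]
    refine sum_congr rfl fun ⟨i, j⟩ hij => ?_
    rw [n.choose_symm_of_eq_add (mem_antidiagonal.1 hij).symm, mul_comm]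

lemma exists_first_max (a : ℕ → ℝ≥0) (θ : ℝ≥0) (hθ : θ < 1) (ha : ∀ k, a k ≤ θ ^ k) :
    ∃ k0, (∀ k, a k ≤ a k0) ∧ ∀ k < k0, a k < a k0 := by
  classical
  have : ∃ k0, ∀ k, a k ≤ a k0 := by
    by_cases h : ∀ k, a k = 0
    · exact ⟨0, fun k => by simp [h]⟩
    push Not at h
    obtain ⟨k1, hk1⟩ := h
    obtain ⟨N, hN⟩ := NNReal.exists_pow_lt_of_lt_one (pos_iff_ne_zero.2 hk1) hθ
    obtain ⟨k2, -, hk2⟩ := exists_max_image (range (N + k1 + 1)) a ⟨0, by simp⟩
    refine ⟨k2, fun k => ?_⟩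
    by_cases hk : k < N + k1 + 1
    · exact hk2 k (mem_range.2 hk)
    · exact (ha k).trans ((pow_le_pow_of_le_one zero_le hθ.le (by omega)).trans
        (hN.le.trans (hk2 k1 (mem_range.2 (by omega)))))
  refine ⟨Nat.find this, Nat.find_spec this, fun k hk => ?_⟩
  have h1 := Nat.find_min this hk
  push Not at h1
  obtain ⟨j, hj⟩ := h1
  exact hj.trans_le (Nat.find_spec this j)

lemma exists_gauss (V : Valuation S ℝ≥0) (θ : ℝ≥0) (hθ : θ < 1) (h1 : ∀ u, V u ≤ 1)
    (hn : ∀ n : ℕ, n ≠ 0 → V n = 1) :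
    ∃ W : Valuation S ℝ≥0, (∀ u k, θ ^ k * V (D^[k] u) ≤ W u) ∧
      ∀ u g, (∀ k, θ ^ k * V (D^[k] u) ≤ g) → W u ≤ g := by
  classical
  have hb : ∀ u k, θ ^ k * V (D^[k] u) ≤ θ ^ k := fun u k => mul_le_of_le_one_right' (h1 _)
  choose k0 hk0 hk0' using fun u => exists_first_max (fun k => θ ^ k * V (D^[k] u)) θ hθ (hb u)
  let W : S → ℝ≥0 := fun u => θ ^ k0 u * V (D^[k0 u] u)
  have W1 : ∀ u k, θ ^ k * V (D^[k] u) ≤ W u := hk0
  have W2 : ∀ u g, (∀ k, θ ^ k * V (D^[k] u) ≤ g) → W u ≤ g := fun u g h => h _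
  have term : ∀ u v (n : ℕ), ∀ p ∈ antidiagonal n,
      θ ^ n * V (n.choose p.1 • (D^[p.1] u * D^[p.2] v)) =
        θ ^ p.1 * V (D^[p.1] u) * (θ ^ p.2 * V (D^[p.2] v)) := by
    intro u v n p hp
    have hp' := mem_antidiagonal.1 hp
    rw [nsmul_eq_mul, map_mul, map_mul, hn _ (Nat.choose_pos (by omega)).ne', ← hp', pow_add]
    ring
  have Wm : ∀ u v, W (u * v) ≤ W u * W v := by
    intro u v
    refine W2 _ _ fun n => ?_
    rcases eq_or_ne θ 0 with h0 | h0
    · rcases n with _ | n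
      · simpa using mul_le_mul' (W1 u 0) (W1 v 0)
      · simp [h0]
    have hp : 0 < θ ^ n := pow_pos (pos_iff_ne_zero.2 h0) n
    rw [iter_mul, ← le_div_iff₀' hp]
    refine V.map_sum_le fun p hp' => ?_
    rw [le_div_iff₀' hp, term u v n p hp']
    exact mul_le_mul' (W1 u _) (W1 v _)
  have Wm' : ∀ u v, W u * W v ≤ W (u * v) := by
    intro u v
    rcases eq_or_ne (W u * W v) 0 with h0 | h0
    · simp [h0]
    have hu : 0 < W u := pos_iff_ne_zero.2 (left_ne_zero_of_mul h0)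
    have hv : 0 < W v := pos_iff_ne_zero.2 (right_ne_zero_of_mul h0)
    refine le_trans (le_of_eq ?_) (W1 (u * v) (k0 u + k0 v))
    have hmem : (k0 u, k0 v) ∈ antidiagonal (k0 u + k0 v) := by simp
    have e := term u v _ _ hmem
    rw [iter_mul, V.map_sum_eq_of_lt hmem, e]
    intro p hp
    have hp1 : p ∈ antidiagonal (k0 u + k0 v) := (mem_sdiff.1 hp).1
    have hp2 : p ≠ (k0 u, k0 v) := by simpa using (mem_sdiff.1 hp).2
    refine lt_of_mul_lt_mul_left' (a := θ ^ (k0 u + k0 v)) ?_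
    rw [e, term u v _ p hp1]
    have := mem_antidiagonal.1 hp1
    by_cases h : p.1 < k0 u
    · exact (mul_le_mul_right (W1 v _) _).trans_lt (mul_lt_mul_of_pos_right (hk0' u _ h) hv)
    · have h' : p.2 < k0 v := by
        by_contra h'
        exact hp2 (Prod.ext (by simp; omega) (by simp; omega))
      exact (mul_le_mul_left (W1 u _) _).trans_lt (mul_lt_mul_of_pos_left (hk0' v _ h') hu)
  refine ⟨⟨⟨⟨W, ?_⟩, ?_, fun u v => le_antisymm (Wm u v) (Wm' u v)⟩, fun u v => ?_⟩, W1, W2⟩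
  · simp [W, iter_zero]
  · refine le_antisymm ((hb _ _).trans (pow_le_one₀ zero_le hθ.le)) ?_
    simpa using W1 1 0
  · refine W2 _ _ fun n => ?_
    rw [iter_add]
    rcases V.map_add' (D^[n] u) (D^[n] v) with h | h
    · exact ((mul_le_mul_right h _).trans (W1 u n)).trans (le_max_left _ _)
    · exact ((mul_le_mul_right h _).trans (W1 v n)).trans (le_max_right _ _)

end Gauss

section Count

lemma finrank_map_le_of_ker {M M1 M2 : Type} [AddCommGroup M] [AddCommGroup M1] [AddCommGroup M2]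
    [Module ℚ M] [Module ℚ M1] [Module ℚ M2] (N : Submodule ℚ M) (f1 : M →ₗ[ℚ] M1)
    (f2 : M →ₗ[ℚ] M2) [FiniteDimensional ℚ (N.map f1)] (h : ∀ x ∈ N, f1 x = 0 → f2 x = 0) :
    finrank ℚ (N.map f2) ≤ finrank ℚ (N.map f1) := by
  have hk : LinearMap.ker (f1.domRestrict N) ≤ LinearMap.ker (f2.domRestrict N) :=
    fun x hx => h x x.2 hx
  have e1 : LinearMap.range (f1.domRestrict N) = N.map f1 := LinearMap.range_domRestrict _ _
  have e2 : LinearMap.range (f2.domRestrict N) = N.map f2 := LinearMap.range_domRestrict _ _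
  rw [← e1, ← e2, ← (LinearMap.quotKerEquivRange (f1.domRestrict N)).finrank_eq,
    ← Submodule.range_liftQ _ _ hk]
  have : FiniteDimensional ℚ (LinearMap.range (f1.domRestrict N)) := by rw [e1]; infer_instance
  have := (LinearMap.quotKerEquivRange (f1.domRestrict N)).symm.finiteDimensional
  exact LinearMap.finrank_range_le _

lemma growth_false (φ : ℕ → ℕ) (B M : ℕ) (hB : 2 ≤ B) (h1 : ∀ n, 1 ≤ φ n)
    (h2 : ∀ n, φ n ≤ (n + 1) ^ M) (h3 : ∀ n, 1 ≤ n → n * φ n ≤ φ (B * n)) : False := by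
  have key : ∀ J m, B ^ (J * m) ≤ φ (B ^ (J + m)) := by
    intro J m
    induction m with
    | zero => simpa using h1 _
    | succ m ih =>
      have := h3 (B ^ (J + m)) (Nat.one_le_pow _ _ (by omega))
      rw [← add_assoc, pow_succ' B (J + m), mul_add, mul_one, pow_add, mul_comm]
      refine le_trans (Nat.mul_le_mul ?_ ih) this
      exact Nat.pow_le_pow_right (by omega) (by omega)
  have h4 := (key (2 * M + 1) (2 * M + 1)).trans (h2 _)
  have h5 : B ^ (2 * M + 1 + (2 * M + 1)) + 1 ≤ B ^ (2 * M + 1 + (2 * M + 1) + 1) := by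
    have : 1 ≤ B ^ (2 * M + 1 + (2 * M + 1)) := Nat.one_le_pow _ _ (by omega)
    rw [pow_succ]
    nlinarith
  have h6 := h4.trans (Nat.pow_le_pow_left h5 M)
  rw [← pow_mul, Nat.pow_le_pow_iff_right (by omega)] at h6
  nlinarith

variable {S : Type} [CommRing S] [Algebra ℚ S]

/-- Balls of a valuation as subspaces. -/
def ball (W : Valuation S ℝ≥0) (hW : ∀ u, W u ≤ 1) (g : ℝ≥0) : Submodule ℚ S where
  carrier := {u | W u ≤ g}
  add_mem' := W.map_add_le
  zero_mem' := by simp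
  smul_mem' := fun c u hu => by
    change W _ ≤ g
    rw [Algebra.smul_def, map_mul]
    exact (mul_le_of_le_one_left' (hW _)).trans hu

lemma count (V W : Valuation S ℝ≥0) (θ : ℝ≥0) (hθ0 : 0 < θ) (hθ : θ < 1) (hW : ∀ u, W u ≤ 1)
    (hVW : ∀ u, V u ≤ W u) (P N : ℕ → Submodule ℚ S) [∀ n, FiniteDimensional ℚ (P n)]
    (C M : ℕ) (hP : ∀ n, finrank ℚ (P n) ≤ (n + 1) ^ M) (hP1 : ∀ n, 1 ∈ P n)
    (hPN : ∀ n m, n ≤ m → P n ≤ N m) (hPm : ∀ n m, n ≤ m → P n ≤ P m)
    (happ : ∀ n T, ∀ u ∈ N n, ∃ p ∈ P (T + n), W (u - p) ≤ θ ^ T)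
    (hc : ∀ n, ∀ p ∈ P n, V p = 0 → W p = 0)
    (hL : ∀ n, ∀ p ∈ P n, V p ≠ 0 → θ ^ (C * n) ≤ V p)
    (f : S) (e : ℕ) (hf : ∀ n, ∀ g ∈ N n, f * g ∈ N (n + e)) (hVf : V f = 0) : W f = 0 := by
  by_contra hWf
  obtain ⟨c, hc'⟩ := NNReal.exists_pow_lt_of_lt_one (pos_iff_ne_zero.2 hWf) hθ
  let A : ℕ → Submodule ℚ S := fun T => ball W hW (θ ^ T)
  let Z : Submodule ℚ S := ball W hW 0
  have mA : ∀ T u, (A T).mkQ u = 0 ↔ W u ≤ θ ^ T := fun T u => Submodule.Quotient.mk_eq_zero _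
  have mZ : ∀ u, Z.mkQ u = 0 ↔ W u = 0 := fun u =>
    (Submodule.Quotient.mk_eq_zero _).trans (nonpos_iff_eq_zero (a := W u))
  let φ : ℕ → ℕ := fun n => finrank ℚ ((P n).map Z.mkQ)
  let H : ℕ → ℕ → ℕ := fun T n => finrank ℚ ((N n).map (A T).mkQ)
  have le1 : ∀ T n, (N n).map (A T).mkQ ≤ (P (T + n)).map (A T).mkQ := by
    rintro T n _ ⟨u, hu, rfl⟩
    obtain ⟨p, hp, h⟩ := happ n T u hu
    refine ⟨p, hp, ?_⟩
    rw [eq_comm, ← sub_eq_zero, ← map_sub, mA]
    exact h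
  have fin1 : ∀ T n, FiniteDimensional ℚ ((N n).map (A T).mkQ) := fun T n =>
    Submodule.finiteDimensional_of_le (le1 T n)
  have Hφ : ∀ T n, H T n ≤ φ (T + n) := fun T n =>
    (Submodule.finrank_mono (le1 T n)).trans (finrank_map_le_of_ker _ _ _ fun x _ hx => by
      rw [mA, (mZ x).1 hx]; exact zero_le)
  have small : ∀ n0 T, C * n0 < T → ∀ p ∈ P n0, V p ≤ θ ^ T → W p = 0 := by
    intro n0 T hT p hp h
    refine hc _ p hp ?_
    by_contra h0
    exact absurd ((hL _ p hp h0).trans h) (not_le.2 (pow_lt_pow_right_of_lt_one₀ hθ0 hθ hT))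
  have step : ∀ n0 T n, C * n0 < T → n0 ≤ n → φ n0 + H T n ≤ H (T + c) (n + e) := by
    intro n0 T n hT hn
    let X := (P n0).map (A (T + c)).mkQ
    let Y := (N n).map ((A (T + c)).mkQ ∘ₗ LinearMap.mulLeft ℚ f)
    have hX : X ≤ (N (n + e)).map (A (T + c)).mkQ := Submodule.map_mono (hPN _ _ (by omega))
    have hY : Y ≤ (N (n + e)).map (A (T + c)).mkQ := by
      rintro _ ⟨g, hg, rfl⟩
      exact ⟨f * g, hf _ g hg, rfl⟩
    have := fin1 (T + c) (n + e)
    have fX : FiniteDimensional ℚ X := Submodule.finiteDimensional_of_le hX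
    have fY : FiniteDimensional ℚ Y := Submodule.finiteDimensional_of_le hY
    have hXY : X ⊓ Y = ⊥ := by
      rw [eq_bot_iff]
      rintro _ ⟨⟨p, hp, rfl⟩, g, -, hg⟩
      have h1 : W (p - f * g) ≤ θ ^ (T + c) := by
        rw [← mA, map_sub, sub_eq_zero]
        exact hg.symm
      have h2 : V p ≤ θ ^ (T + c) := by
        rw [← V.map_sub_of_right_eq_zero (y := f * g) (by simp [hVf])]
        exact (hVW _).trans h1
      rw [Submodule.mem_bot, mA, small n0 _ (by omega) p hp h2]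
      exact zero_le
    have h1 := Submodule.finrank_sup_add_finrank_inf_eq X Y
    rw [hXY, finrank_bot, add_zero] at h1
    have h2 : φ n0 ≤ finrank ℚ X := finrank_map_le_of_ker _ _ _ fun p hp h => by
      rw [mZ]
      exact small n0 _ (by omega) p hp ((hVW _).trans ((mA _ _).1 h))
    have h3 : H T n ≤ finrank ℚ Y := finrank_map_le_of_ker _ _ _ fun g _ h => by
      rw [mA]
      have h4 : W (f * g) ≤ θ ^ (T + c) := (mA _ _).1 h
      rw [map_mul, pow_add, mul_comm] at h4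
      exact le_of_mul_le_mul_right ((mul_le_mul_right hc'.le _).trans h4) (pow_pos hθ0 c)
    exact (add_le_add h2 h3).trans (h1 ▸ Submodule.finrank_mono (sup_le hX hY))
  have iter : ∀ n0 j, j * φ n0 ≤ H (C * n0 + 1 + j * c) (n0 + j * e) := by
    intro n0 j
    induction j with
    | zero => simp
    | succ j ih =>
      have := step n0 (C * n0 + 1 + j * c) (n0 + j * e) (by omega) (by omega)
      rw [add_mul, add_mul, add_mul, one_mul, one_mul, one_mul, ← add_assoc, ← add_assoc]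
      omega
  refine growth_false φ (C + 2 + c + e) M (by omega) (fun n => ?_) (fun n => ?_) fun n hn => ?_
  · refine Nat.one_le_iff_ne_zero.2 fun h => ?_
    have h1 : (P n).map Z.mkQ = ⊥ := Submodule.finrank_eq_zero.1 h
    have h2 : Z.mkQ 1 = 0 := by
      rw [← Submodule.mem_bot ℚ, ← h1]
      exact ⟨1, hP1 n, rfl⟩
    simpa using (mZ 1).1 h2
  · exact (Submodule.finrank_map_le _ _).trans (hP n)
  · refine (iter n n).trans ((Hφ _ _).trans (Submodule.finrank_mono (Submodule.map_mono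
      (hPm _ _ ?_))))
    nlinarith

end Count

end Pool.Agent.Lib.MP_1f047c_nt
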