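import Pool.Agent.Lib.MP_1f047c_nt.TAArithA

/-! The arithmetic step for functionals (`PL.arith` with moments in place of points). -/

open Finset Polynomial

namespace Pool.Agent.Lib.MP_1f047c_nt.TA

open PL

lemma taarith_map {K L : Type} [CommRing K] [CommRing L] (φ : K →+* L) (ψ : ℕ → ℕ → K)
    (D D' : K[X]) (a i b j : ℕ) :
    φ (rowF ψ D D' a i b j) = rowF (fun i j => φ (ψ i j)) (D.map φ) (D'.map φ) a i b j := by
  have h : ∀ (P : K[X]) (s n : ℕ),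
      φ ((derivative^[s] P).eval (n : K)) = (derivative^[s] (P.map φ)).eval (n : L) := by
    intro P s n
    rw [iterate_derivative_map, ← map_natCast φ n, eval_map, eval₂_at_apply]
  simp only [rowF, map_sum, map_mul, map_natCast, h]

lemma taarith_int (K : Type) [Field K] [CharZero K] (w : AbsoluteValue K ℝ) (E C₀ n : ℕ) {k a : ℕ}
    (hk : k ≤ C₀ * n) (ha : a ≤ 2 * n) {s : ℕ} (hs : s ≤ E) :
    w ((derivative^[s] (bp K (C₀ * n) E k)).eval (a : K)) ≤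
        E.factorial * Real.exp (plarithG E C₀ * n) ∧
      (IsNonarchimedean w → w ((derivative^[s] (bp K (C₀ * n) E k)).eval (a : K)) ≤ 1) := by
  obtain ⟨z, hz1, hz2⟩ := bp_int (C₀ * n) E
  have h := hz2 K k hk s hs a
  rw [Module.End.pow_apply] at h
  rw [h]
  refine ⟨?_, fun hw => hw.apply_intCast_le_one⟩
  have ha' : (a : ℝ) ≤ 2 * n := by exact_mod_cast ha
  have h3 : ((6 * E + 1) * ((C₀ * n : ℕ) : ℝ) + a) ≤ plarithG E C₀ * n := by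
    unfold plarithG
    push_cast
    linarith
  rw [← w.apply_natAbs_eq]
  refine (w.apply_nat_le_self _).trans (le_trans (le_of_eq ?_) ((hz1 k hk s hs a).trans ?_))
  · rw [Nat.cast_natAbs, Int.cast_abs]
  · exact mul_le_mul_of_nonneg_left (Real.exp_le_exp.2 h3) (Nat.cast_nonneg _)

lemma taarith_row (K : Type) [Field K] [CharZero K] (w : AbsoluteValue K ℝ) (E C₀ n₁ n₂ : ℕ)
    (ψ : ℕ → ℕ → K) {k k' a i b j : ℕ} (hk : k ≤ C₀ * n₁) (hk' : k' ≤ C₀ * n₂) (ha : a ≤ 2 * n₁)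
    (hi : i ≤ E) (hb : b ≤ 2 * n₂) (hj : j ≤ E) {M : ℝ} (hM0 : 0 ≤ M)
    (hM : ∀ i ≤ E, ∀ j ≤ E, w (ψ i j) ≤ M) :
    w (rowF ψ (bp K (C₀ * n₁) E k) (bp K (C₀ * n₂) E k') a i b j) ≤
        plarithF E * Real.exp (plarithG E C₀ * n₁) * (plarithF E * Real.exp (plarithG E C₀ * n₂)) *
          M ∧
      (IsNonarchimedean w → w (rowF ψ (bp K (C₀ * n₁) E k) (bp K (C₀ * n₂) E k') a i b j) ≤ M) := by
  unfold rowF
  constructor
  · set B₁ := (E.factorial : ℝ) * Real.exp (plarithG E C₀ * n₁) with hB₁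
    set B₂ := (E.factorial : ℝ) * Real.exp (plarithG E C₀ * n₂) with hB₂
    have hB₁0 : 0 ≤ B₁ := by positivity
    have hB₂0 : 0 ≤ B₂ := by positivity
    have h1 : ∀ s ∈ range (i + 1), ∀ t ∈ range (j + 1),
        w ((i.choose s : K) * (j.choose t : K) * ψ (i - s) (j - t) *
          ((derivative^[s] (bp K (C₀ * n₁) E k)).eval (a : K) *
            (derivative^[t] (bp K (C₀ * n₂) E k')).eval (b : K))) ≤
          (i.choose s : ℝ) * (j.choose t : ℝ) * (M * (B₁ * B₂)) := by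
      intro s hs t ht
      have a1 := (taarith_int K w E C₀ n₁ hk ha (s := s) (by have := mem_range.1 hs; omega)).1
      have a2 := (taarith_int K w E C₀ n₂ hk' hb (s := t) (by have := mem_range.1 ht; omega)).1
      rw [map_mul, map_mul, map_mul, map_mul, mul_assoc]
      exact mul_le_mul (mul_le_mul (w.apply_nat_le_self _) (w.apply_nat_le_self _) (w.nonneg _)
        (Nat.cast_nonneg _)) (mul_le_mul (hM _ (by omega) _ (by omega))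
          (mul_le_mul a1 a2 (w.nonneg _) hB₁0) (by positivity) hM0) (by positivity) (by positivity)
    refine (w.sum_le _ _).trans ((sum_le_sum fun s hs => (w.sum_le _ _).trans
      (sum_le_sum (h1 s hs))).trans ?_)
    simp only [← sum_mul]
    rw [← sum_mul_sum, ← Nat.cast_sum, ← Nat.cast_sum, Nat.sum_range_choose, Nat.sum_range_choose]
    have b1 : ((2 ^ i : ℕ) : ℝ) ≤ 2 ^ E := by exact_mod_cast Nat.pow_le_pow_right (by norm_num) hi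
    have b2 : ((2 ^ j : ℕ) : ℝ) ≤ 2 ^ E := by exact_mod_cast Nat.pow_le_pow_right (by norm_num) hj
    refine (mul_le_mul_of_nonneg_right (mul_le_mul b1 b2 (Nat.cast_nonneg _) (by positivity))
      (by positivity)).trans_eq ?_
    rw [hB₁, hB₂, plarithF]
    ring
  · intro hw
    obtain ⟨s, hs, h1⟩ := hw.finset_image_add_of_nonempty
      (fun s => ∑ t ∈ range (j + 1), (i.choose s : K) * (j.choose t : K) * ψ (i - s) (j - t) *
        ((derivative^[s] (bp K (C₀ * n₁) E k)).eval (a : K) *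
          (derivative^[t] (bp K (C₀ * n₂) E k')).eval (b : K))) (t := range (i + 1))
      nonempty_range_add_one
    obtain ⟨t, ht, h2⟩ := hw.finset_image_add_of_nonempty
      (fun t => (i.choose s : K) * (j.choose t : K) * ψ (i - s) (j - t) *
        ((derivative^[s] (bp K (C₀ * n₁) E k)).eval (a : K) *
          (derivative^[t] (bp K (C₀ * n₂) E k')).eval (b : K))) (t := range (j + 1))
      nonempty_range_add_one
    refine h1.trans (h2.trans ?_)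
    have a1 := (taarith_int K w E C₀ n₁ hk ha (s := s) (by have := mem_range.1 hs; omega)).2 hw
    have a2 := (taarith_int K w E C₀ n₂ hk' hb (s := t) (by have := mem_range.1 ht; omega)).2 hw
    rw [map_mul, map_mul, map_mul, map_mul]
    refine (mul_le_of_le_one_right (by positivity) (mul_le_one₀ a1 (w.nonneg _) a2)).trans ?_
    exact (mul_le_of_le_one_left (w.nonneg _) (mul_le_one₀ hw.apply_natCast_le_one (w.nonneg _)
      hw.apply_natCast_le_one)).trans (hM _ (by omega) _ (by omega))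

theorem taarith_det {𝕜 : Type} [NormedField 𝕜] [CharZero 𝕜] (G : Good 𝕜)
    (hG : ∀ a s : ℕ, ‖(a : 𝕜) ^ s / (s.factorial : 𝕜)‖ ≤ 2 ^ s * 3 ^ a)
    {K : Type} [Field K] [NumberField K] (φ : K →+* 𝕜) (α β u v : K) (l m : 𝕜) {s : ℕ}
    (ψ : Fin s → ℕ → ℕ → K) (γ : Fin s → 𝕜) (hα : α ≠ 0) (hβ : β ≠ 0)
    (hl : ∀ a : ℕ, HasSum (fun s : ℕ => (-l * a) ^ s / (s.factorial : 𝕜)) (φ α ^ a))
    (hm : ∀ a : ℕ, HasSum (fun s : ℕ => (-m * a) ^ s / (s.factorial : 𝕜)) (φ β ^ a))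
    (hl4 : ‖l‖ ≤ 1 / 4) (hm4 : ‖m‖ ≤ 1 / 4) (E C₀ n₁ n₂ : ℕ) (hC : 2 ≤ C₀) (h1 : 1 ≤ n₁)
    (h2 : 1 ≤ n₂)
    (hγ : ∀ i ≤ E, ∀ j ≤ E, (l + φ u) ^ i * (m + φ v) ^ j = ∑ e, γ e * φ (ψ e i j))
    (hZ : ZF ψ u v α β (C₀ * n₁) (C₀ * n₂) E n₁ n₂) {θ : ℝ} (hθ : θ ≤ 1)
    (hθ1 : (2 * ‖l‖) ^ ((C₀ - 1) * n₁) ≤ θ) (hθ2 : (2 * ‖m‖) ^ ((C₀ - 1) * n₂) ≤ θ) :
    1 ≤ (2 * (plarithF E ^ 2 * Real.exp (plarithG E C₀ * (n₁ + n₂))) *
          ((s * C₀ ^ 2 + 1) * (n₁ * n₂) + 1 : ℕ)) ^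
            ((s * C₀ ^ 2 + 1) * (Module.finrank ℚ K + 1)) *
        (∏ σ : Fin s × Fin (E + 1) × Fin (E + 1), Height.mulHeight₁ (ψ σ.1 σ.2.1 σ.2.2)) ^
          (2 * (s * C₀ ^ 2)) *
        (Height.mulHeight₁ α ^ (2 * n₁) * Height.mulHeight₁ β ^ (2 * n₂) *
          Height.mulHeight₁ (u ^ E) * Height.mulHeight₁ (v ^ E) *
          (12 * (4 ^ E) ^ 2 * (plarithF E ^ 2 * Real.exp ((plarithG E C₀ + 4) * (n₁ + n₂)) *
            (max ‖φ u ^ E‖ 1 * max ‖φ v ^ E‖ 1)) * θ)) := by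
  have hF := plarith_one_le_F E
  have hg := plarith_G_nonneg E C₀
  have hθ0 : 0 ≤ θ := le_trans (by positivity) hθ1
  have hZe : plarithF E ^ 2 * Real.exp (plarithG E C₀ * (n₁ + n₂)) =
      plarithF E * Real.exp (plarithG E C₀ * n₁) * (plarithF E * Real.exp (plarithG E C₀ * n₂)) := by
    rw [mul_add, Real.exp_add]
    ring
  have hlt : ∀ {n k : ℕ}, k < n → k ≤ C₀ * n := fun h => by nlinarith
  have key := detlemma G φ
    (fun (e : Fin s × Fin (C₀ * n₁) × Fin (C₀ * n₂))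
      (p : (Fin (2 * n₁ + 1) × Fin (E + 1)) × (Fin (2 * n₂ + 1) × Fin (E + 1))) =>
        rowF (ψ e.1) (bp K (C₀ * n₁) E e.2.1) (bp K (C₀ * n₂) E e.2.2) p.1.1 p.1.2 p.2.1 p.2.2)
    (fun (b : Fin n₁ × Fin n₂) p =>
      α ^ (p.1.1 : ℕ) * row u (bp K (C₀ * n₁) E b.1) p.1.1 p.1.2 *
        (β ^ (p.2.1 : ℕ) * row v (bp K (C₀ * n₂) E b.2) p.2.1 p.2.2))
    (fun b p => φ α ^ (p.1.1 : ℕ) * row (φ u) (bp 𝕜 (C₀ * n₁) E b.1) p.1.1 p.1.2 *
        (φ β ^ (p.2.1 : ℕ) * row (φ v) (bp 𝕜 (C₀ * n₂) E b.2) p.2.1 p.2.2) -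
      row (l + φ u) (bp 𝕜 (C₀ * n₁) E b.1 * texp l ((C₀ - 1) * n₁)) p.1.1 p.1.2 *
        row (m + φ v) (bp 𝕜 (C₀ * n₂) E b.2 * texp m ((C₀ - 1) * n₂)) p.2.1 p.2.2)
    (fun σ : Fin s × Fin (E + 1) × Fin (E + 1) => ψ σ.1 σ.2.1 σ.2.2)
    ![α ^ (2 * n₁), β ^ (2 * n₂), u ^ E, v ^ E]
    (plarithF E ^ 2 * Real.exp (plarithG E C₀ * (n₁ + n₂)))
    (12 * (4 ^ E) ^ 2 * (plarithF E ^ 2 * Real.exp ((plarithG E C₀ + 4) * (n₁ + n₂)) *
      (max ‖φ u ^ E‖ 1 * max ‖φ v ^ E‖ 1)) * θ)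
    (one_le_mul_of_one_le_of_one_le (one_le_pow₀ hF) (Real.one_le_exp (by positivity)))
    (by positivity) (fun γ' hγ' => indepF ψ u v α β hα hβ _ _ E n₁ n₂ hZ γ' hγ') ?_ ?_ ?_ ?_
  · simp only [Fintype.card_prod, Fintype.card_fin, Fin.prod_univ_four, Matrix.cons_val_zero, Matrix.cons_val_one,
      Matrix.cons_val] at key
    rw [Height.mulHeight₁_pow α, Height.mulHeight₁_pow β,
      show s * (C₀ * n₁ * (C₀ * n₂)) + n₁ * n₂ = (s * C₀ ^ 2 + 1) * (n₁ * n₂) by ring,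
      show (s * C₀ ^ 2 + 1) * (n₁ * n₂) * (Module.finrank ℚ K + 1) =
        (s * C₀ ^ 2 + 1) * (Module.finrank ℚ K + 1) * (n₁ * n₂) by ring,
      show 2 * (s * (C₀ * n₁ * (C₀ * n₂))) = 2 * (s * C₀ ^ 2) * (n₁ * n₂) by ring,
      pow_mul _ _ (n₁ * n₂), pow_mul _ _ (n₁ * n₂), ← mul_pow, ← mul_pow] at key
    exact (one_le_pow_iff_of_nonneg (by positivity) (by positivity)).1 key
  · intro b
    simp only [map_mul, map_pow, row_map, taarith_map, bp_map, sub_sub_cancel]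
    exact row_spanF (fun e i j => φ (ψ e i j)) _ _ E γ hγ _ _ _ _ _ _
      (plarith_deg l _ E C₀ n₁ b.1 (by omega) b.1.2) (plarith_deg m _ E C₀ n₂ b.2 (by omega) b.2.2)
  · intro b p
    have hτ : ∀ n, 1 ≤ n → 1 ≤ (C₀ - 1) * n := fun n hn => Nat.mul_pos (by omega) hn
    obtain ⟨a1, a2⟩ := plarith_tail hG l (φ u) _ hl4 E C₀ n₁ _ b.1 p.1.1 p.1.2 (hτ _ h1)
      (hlt b.1.2) (Nat.lt_succ_iff.1 p.1.1.2) (Nat.lt_succ_iff.1 p.1.2.2) (hl _) hθ1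
    obtain ⟨a3, a4⟩ := plarith_tail hG m (φ v) _ hm4 E C₀ n₂ _ b.2 p.2.1 p.2.2 (hτ _ h2)
      (hlt b.2.2) (Nat.lt_succ_iff.1 p.2.1.2) (Nat.lt_succ_iff.1 p.2.2.2) (hm _) hθ2
    refine (plarith_prod (one_le_pow₀ (by norm_num)) (by positivity) (by positivity) hθ0 hθ
      a1 a2 a3 a4).trans_eq ?_
    rw [mul_add (plarithG E C₀ + 4), Real.exp_add]
    ring
  · intro w e p
    rw [hZe]
    exact taarith_row K w E C₀ n₁ n₂ (ψ e.1) e.2.1.2.le e.2.2.2.le (Nat.lt_succ_iff.1 p.1.1.2)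
      (Nat.lt_succ_iff.1 p.1.2.2) (Nat.lt_succ_iff.1 p.2.1.2) (Nat.lt_succ_iff.1 p.2.2.2)
      (prod_nonneg fun _ _ => by positivity) fun i hi j hj => (le_max_left _ _).trans
        (plarith_single (fun σ : Fin s × Fin (E + 1) × Fin (E + 1) => w (ψ σ.1 σ.2.1 σ.2.2))
          (e.1, ⟨i, Nat.lt_succ_of_le hi⟩, ⟨j, Nat.lt_succ_of_le hj⟩))
  · intro w b p
    obtain ⟨a1, a2⟩ := plarith_row K w E C₀ n₁ u b.1 p.1.1 p.1.2 (hlt b.1.2)
      (Nat.lt_succ_iff.1 p.1.1.2) (Nat.lt_succ_iff.1 p.1.2.2)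
    obtain ⟨a3, a4⟩ := plarith_row K w E C₀ n₂ v b.2 p.2.1 p.2.2 (hlt b.2.2)
      (Nat.lt_succ_iff.1 p.2.1.2) (Nat.lt_succ_iff.1 p.2.2.2)
    have a5 := plarith_pow w α (Nat.lt_succ_iff.1 p.1.1.2)
    have a6 := plarith_pow w β (Nat.lt_succ_iff.1 p.2.1.2)
    simp only [Fin.prod_univ_four, Matrix.cons_val_zero, Matrix.cons_val_one, Matrix.cons_val,
      map_mul]
    constructor
    · refine (mul_le_mul (mul_le_mul a5 a1 (w.nonneg _) (by positivity))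
        (mul_le_mul a6 a3 (w.nonneg _) (by positivity)) (by positivity)
        (by positivity)).trans_eq ?_
      rw [hZe]
      ring
    · intro hw
      refine (mul_le_mul (mul_le_mul a5 (a2 hw) (w.nonneg _) (by positivity))
        (mul_le_mul a6 (a4 hw) (w.nonneg _) (by positivity)) (by positivity)
        (by positivity)).trans_eq ?_
      ring

theorem arithF (δ : ℝ) (hδ : 0 < δ) (C₀ : ℕ) (hC : 4 / δ + 3 ≤ C₀) (E s : ℕ) : ∃ c : ℝ, 1 ≤ c ∧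
    ∀ (𝕜 : Type) [NormedField 𝕜] [CharZero 𝕜], Good 𝕜 →
    (∀ a s : ℕ, ‖(a : 𝕜) ^ s / (s.factorial : 𝕜)‖ ≤ 2 ^ s * 3 ^ a) →
    ∀ (K : Type) [Field K] [NumberField K] (φ : K →+* 𝕜) (α β u v : K) (l m : 𝕜) (H₁ H₂ : ℝ)
      (ψ : Fin s → ℕ → ℕ → K) (γ : Fin s → 𝕜), α ≠ 0 → β ≠ 0 →
      (∀ a : ℕ, HasSum (fun s : ℕ => (-l * a) ^ s / (s.factorial : 𝕜)) (φ α ^ a)) →
      (∀ a : ℕ, HasSum (fun s : ℕ => (-m * a) ^ s / (s.factorial : 𝕜)) (φ β ^ a)) →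
      δ * Height.logHeight₁ α ≤ H₁ → c * Module.finrank ℚ K ≤ H₁ → ‖l‖ ≤ Real.exp (-H₁) →
      δ * Height.logHeight₁ β ≤ H₂ → c * Module.finrank ℚ K ≤ H₂ → ‖m‖ ≤ Real.exp (-H₂) →
      (∀ i ≤ E, ∀ j ≤ E, (l + φ u) ^ i * (m + φ v) ^ j = ∑ e, γ e * φ (ψ e i j)) →
      ¬ ∀ᶠ T : ℝ in Filter.atTop,
        ZF ψ u v α β (C₀ * ⌈T / H₁⌉₊) (C₀ * ⌈T / H₂⌉₊) E ⌈T / H₁⌉₊ ⌈T / H₂⌉₊ := by
  have hF := plarith_one_le_F E
  have hg := plarith_G_nonneg E C₀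
  have hC2 : 2 ≤ C₀ := by
    have : (0 : ℝ) < 4 / δ := by positivity
    have : (2 : ℝ) ≤ C₀ := by linarith
    exact_mod_cast this
  obtain ⟨S, hS⟩ : ∃ S : ℕ, S = s * C₀ ^ 2 + 1 := ⟨_, rfl⟩
  obtain ⟨c, hc⟩ : ∃ c : ℝ, c = 4 * S * (plarithG E C₀ + 1) + 2 * (plarithG E C₀ + 4 + C₀) :=
    ⟨_, rfl⟩
  have hc2 : 2 ≤ c := by
    have a1 : (0 : ℝ) ≤ 4 * S * (plarithG E C₀ + 1) := by positivity
    have a2 : (0 : ℝ) ≤ C₀ := Nat.cast_nonneg _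
    linarith
  refine ⟨c, by linarith, ?_⟩
  intro 𝕜 _ _ G hG K _ _ φ α β u v l m H₁ H₂ ψ γ hα hβ hl hm h1 h1' h1'' h2 h2' h2'' hγ hev
  have hd : (1 : ℝ) ≤ Module.finrank ℚ K := by exact_mod_cast Module.finrank_pos
  have hcd : 2 ≤ c * Module.finrank ℚ K := by nlinarith
  have h4 : ∀ {x H : ℝ}, 2 ≤ H → x ≤ Real.exp (-H) → x ≤ 1 / 4 := by
    intro x H hH hx
    refine hx.trans ((Real.exp_le_exp.2 (neg_le_neg hH)).trans ?_)
    rw [Real.exp_neg, one_div]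
    refine inv_anti₀ (by norm_num) ?_
    have a1 : Real.exp 2 = Real.exp 1 * Real.exp 1 := by rw [← Real.exp_add]; norm_num
    nlinarith [Real.add_one_le_exp 1]
  have hl4 := h4 (hcd.trans h1') h1''
  have hm4 := h4 (hcd.trans h2') h2''
  have hH1 : 0 < H₁ := by linarith
  have hH2 : 0 < H₂ := by linarith
  obtain ⟨HA, hHA⟩ : ∃ HA : ℝ, HA = (∏ σ : Fin s × Fin (E + 1) × Fin (E + 1),
    Height.mulHeight₁ (ψ σ.1 σ.2.1 σ.2.2)) ^ (2 * (s * C₀ ^ 2)) := ⟨_, rfl⟩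
  have hHA0 : 0 ≤ HA := by rw [hHA]; positivity
  obtain ⟨Q, hQ⟩ : ∃ Q : ℝ, Q = (4 * S * plarithF E ^ 2) ^ (S * (Module.finrank ℚ K + 1)) * HA *
    (Real.exp (2 * H₁ / δ) * Real.exp (2 * H₂ / δ) * Height.mulHeight₁ (u ^ E) *
      Height.mulHeight₁ (v ^ E) * (12 * (4 ^ E) ^ 2 * (plarithF E ^ 2 *
        (max ‖φ u ^ E‖ 1 * max ‖φ v ^ E‖ 1)))) := ⟨_, rfl⟩
  have hQ0 : 0 ≤ Q := by rw [hQ]; positivity
  obtain ⟨T, hZ, hT⟩ := (hev.and (Filter.eventually_ge_atTop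
    (c * Module.finrank ℚ K + Q))).exists
  have hT0 : 0 < T := by linarith
  have hn : ∀ {H : ℝ}, c * Module.finrank ℚ K ≤ H →
      (⌈T / H⌉₊ : ℝ) ≤ T / (c * Module.finrank ℚ K) + 1 := by
    intro H hH
    refine (Nat.ceil_lt_add_one (div_nonneg hT0.le (by linarith))).le.trans ?_
    gcongr
  have key := taarith_det G hG φ α β u v l m ψ γ hα hβ hl hm hl4 hm4 E C₀ _ _ hC2
    (Nat.ceil_pos.2 (div_pos hT0 hH1)) (Nat.ceil_pos.2 (div_pos hT0 hH2)) hγ hZ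
    (θ := max ((2 * ‖l‖) ^ ((C₀ - 1) * ⌈T / H₁⌉₊)) ((2 * ‖m‖) ^ ((C₀ - 1) * ⌈T / H₂⌉₊)))
    (max_le (pow_le_one₀ (by positivity) (by linarith)) (pow_le_one₀ (by positivity) (by linarith)))
    (le_max_left _ _) (le_max_right _ _)
  have b1 := max_le
    (plarith_small (T := T) (norm_nonneg l) hH1 h1'' C₀ (by omega) (⌈T / H₁⌉₊ + ⌈T / H₂⌉₊)
      (le_add_of_nonneg_right (Nat.cast_nonneg _)))
    (plarith_small (T := T) (norm_nonneg m) hH2 h2'' C₀ (by omega) (⌈T / H₁⌉₊ + ⌈T / H₂⌉₊)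
      (le_add_of_nonneg_left (Nat.cast_nonneg _)))
  have b2 := plarith_height α hδ hH1 hT0.le h1
  have b3 := plarith_height β hδ hH2 hT0.le h2
  have b4 := plarith_count S ⌈T / H₁⌉₊ ⌈T / H₂⌉₊ (by omega)
  have b5 := plarith_exp (S := S) (N := ⌈T / H₁⌉₊ + ⌈T / H₂⌉₊) (Nat.cast_nonneg _) hg
    (Nat.cast_nonneg C₀) hd hc hT0.le (by positivity) (by linarith [hn h1', hn h2']) hC
  rw [← hS, ← hHA] at key
  generalize (⌈T / H₁⌉₊ : ℝ) + ⌈T / H₂⌉₊ = N at key b1 b4 b5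
  have b6 : 1 ≤ Q * Real.exp (S * (Module.finrank ℚ K + 1) * ((plarithG E C₀ + 1) * N) +
      2 / δ * T + 2 / δ * T + (plarithG E C₀ + 4) * N + (C₀ * N - (C₀ - 1) * T)) := by
    refine key.trans (le_trans (b := (2 * (plarithF E ^ 2 * Real.exp (plarithG E C₀ * N)) *
      (2 * S * Real.exp N)) ^ (S * (Module.finrank ℚ K + 1)) * HA *
      (Real.exp (2 / δ * T + 2 * H₁ / δ) * Real.exp (2 / δ * T + 2 * H₂ / δ) *
        Height.mulHeight₁ (u ^ E) * Height.mulHeight₁ (v ^ E) *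
        (12 * (4 ^ E) ^ 2 * (plarithF E ^ 2 * Real.exp ((plarithG E C₀ + 4) * N) *
          (max ‖φ u ^ E‖ 1 * max ‖φ v ^ E‖ 1)) * Real.exp (C₀ * N - (C₀ - 1) * T)))) ?_ ?_)
    · gcongr
    · have e1 : 2 * (plarithF E ^ 2 * Real.exp (plarithG E C₀ * N)) * (2 * S * Real.exp N) =
          4 * S * plarithF E ^ 2 * Real.exp ((plarithG E C₀ + 1) * N) := by
        rw [add_mul, one_mul, Real.exp_add]
        ring
      rw [e1, mul_pow, ← Real.exp_nat_mul, hQ]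
      simp only [Real.exp_add]
      push_cast
      refine le_of_eq ?_
      ring
  have b7 := b6.trans (mul_le_mul_of_nonneg_left (Real.exp_le_exp.2 b5) hQ0)
  rw [← neg_sub, Real.exp_neg, ← div_eq_mul_inv, one_le_div (Real.exp_pos _)] at b7
  linarith [Real.add_one_le_exp (T - c * Module.finrank ℚ K)]

end Pool.Agent.Lib.MP_1f047c_nt.TA
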