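import Pool.Agent.Lib.MP_1f047c_nt.TADefs
import Pool.Agent.Lib.MP_1f047c_nt.PLArith

/-! The arithmetic step for functionals (`PL.arith` with moments in place of points). -/

open Finset Polynomial

namespace Pool.Agent.Lib.MP_1f047c_nt.TA

open PL

lemma arA_shift {K : Type} [CommRing K] (D : K[X]) (s a : ℕ) :
    (derivative^[s] (D.comp (X + 1))).eval (a : K) = (derivative^[s] D).eval ((a + 1 : ℕ) : K) := by
  have h : derivative^[s] (D.comp (X + 1)) = (derivative^[s] D).comp (X + 1) := by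
    induction s with
    | zero => rfl
    | succ s ih =>
      rw [Function.iterate_succ_apply', Function.iterate_succ_apply', ih, derivative_comp]
      simp
  rw [h, eval_comp]
  simp

lemma arA_sh₁ {K : Type} [CommRing K] (ψ : ℕ → ℕ → K) (D D' : K[X]) (a i b j : ℕ) :
    rowF ψ (D.comp (X + 1)) D' a i b j = rowF ψ D D' (a + 1) i b j := by
  simp only [rowF, arA_shift]

lemma arA_sh₂ {K : Type} [CommRing K] (ψ : ℕ → ℕ → K) (D D' : K[X]) (a i b j : ℕ) :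
    rowF ψ D (D'.comp (X + 1)) a i b j = rowF ψ D D' a i (b + 1) j := by
  simp only [rowF, arA_shift]

lemma arA_smul {K : Type} [CommRing K] (ψ : ℕ → ℕ → K) (c : K) (D D' : K[X]) (a i b j : ℕ) :
    rowF ψ (c • D) D' a i b j = c * rowF ψ D D' a i b j := by
  simp only [rowF, iterate_derivative_smul, eval_smul, smul_eq_mul, mul_sum]
  exact sum_congr rfl fun s _ => sum_congr rfl fun t _ => by ring

lemma arA_sum {K κ κ' : Type} [CommRing K] [Fintype κ] [Fintype κ'] (ψ : ℕ → ℕ → K) (g : κ → K)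
    (B : κ → K[X]) (g' : κ' → K) (B' : κ' → K[X]) (a i b j : ℕ) :
    rowF ψ (∑ k, g k • B k) (∑ k, g' k • B' k) a i b j =
      ∑ k, ∑ k', g k * g' k' * rowF ψ (B k) (B' k') a i b j := by
  simp only [rowF, iterate_derivative_sum, iterate_derivative_smul, eval_finsetSum, eval_smul,
    smul_eq_mul, sum_mul_sum]
  simp only [mul_sum]
  symm
  refine (sum_congr rfl fun k _ => sum_comm).trans (sum_comm.trans (sum_congr rfl fun s _ => ?_))
  refine (sum_congr rfl fun k _ => sum_comm).trans (sum_comm.trans (sum_congr rfl fun t _ => ?_))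
  exact sum_congr rfl fun k _ => sum_congr rfl fun k' _ => by ring

/-- The span of the rows of the functionals. -/
def arA {K ι : Type} [Field K] (ψ : ι → ℕ → ℕ → K) (ν₁ ν₂ : ℕ) :
    Submodule K (ℕ → ℕ → ℕ → ℕ → K) :=
  Submodule.span K {G | ∃ (e : ι) (D D' : K[X]), D.degree < ν₁ ∧ D'.degree < ν₂ ∧
    G = fun a i b j => rowF (ψ e) D D' a i b j}

/-- Agreement with a combination of rows of the functionals in a box. -/
def arIn {K ι : Type} [Field K] (ψ : ι → ℕ → ℕ → K) (ν₁ ν₂ E N₁ N₂ : ℕ)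
    (F : ℕ → ℕ → ℕ → ℕ → K) : Prop :=
  ∃ G ∈ arA ψ ν₁ ν₂, ∀ a ≤ N₁, ∀ b ≤ N₂, ∀ i ≤ E, ∀ j ≤ E, G a i b j = F a i b j

lemma arA_mem₁ {K ι : Type} [Field K] {ψ : ι → ℕ → ℕ → K} {ν₁ ν₂ : ℕ} {G : ℕ → ℕ → ℕ → ℕ → K}
    (h : G ∈ arA ψ ν₁ ν₂) : (fun a => G (a + 1)) ∈ arA ψ ν₁ ν₂ := by
  induction h using Submodule.span_induction with
  | mem G hG =>
    obtain ⟨e, D, D', h1, h2, rfl⟩ := hG
    refine Submodule.subset_span ⟨e, D.comp (X + 1), D', plind_deg h1, h2, ?_⟩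
    simp only [arA_sh₁]
  | zero => exact zero_mem _
  | add G G' _ _ h1 h2 => exact add_mem h1 h2
  | smul c G _ h1 => exact Submodule.smul_mem _ c h1

lemma arA_mem₂ {K ι : Type} [Field K] {ψ : ι → ℕ → ℕ → K} {ν₁ ν₂ : ℕ} {G : ℕ → ℕ → ℕ → ℕ → K}
    (h : G ∈ arA ψ ν₁ ν₂) : (fun a i b => G a i (b + 1)) ∈ arA ψ ν₁ ν₂ := by
  induction h using Submodule.span_induction with
  | mem G hG =>
    obtain ⟨e, D, D', h1, h2, rfl⟩ := hG
    refine Submodule.subset_span ⟨e, D, D'.comp (X + 1), h1, plind_deg h2, ?_⟩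
    simp only [arA_sh₂]
  | zero => exact zero_mem _
  | add G G' _ _ h1 h2 => exact add_mem h1 h2
  | smul c G _ h1 => exact Submodule.smul_mem _ c h1

lemma arA_base {K ι : Type} [Field K] [CharZero K] {ψ : ι → ℕ → ℕ → K} {u v α β : K}
    {ν₁ ν₂ E n₁ n₂ : ℕ} (h : ZF ψ u v α β ν₁ ν₂ E n₁ n₂) (c : K)
    (hc : arIn ψ ν₁ ν₂ E n₁ n₂ fun a i b j =>
      β ^ b * row v (bp K ν₂ E 0) b j * (α ^ a * row u (bp K ν₁ E 0) a i * c)) : c = 0 := by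
  by_contra h0
  obtain ⟨G, hG, hF⟩ := hc
  have hL : ∀ ν : ℕ, ((Nat.lcmUpto ν ^ E : ℕ) : K) ≠ 0 := fun ν =>
    Nat.cast_ne_zero.2 (pow_ne_zero _ (Nat.lcmUpto_ne_zero ν))
  obtain ⟨t, f, g, rfl⟩ := Submodule.mem_span_set'.1 hG
  choose e D D' h1 h2 h3 using fun k => (g k).2
  refine h t e (fun k => ((((Nat.lcmUpto ν₁ ^ E : ℕ) : K) * ((Nat.lcmUpto ν₂ ^ E : ℕ) : K) * c)⁻¹ *
    f k) • D k) D' (fun k => (degree_smul_le _ _).trans_lt (h1 k)) h2 fun a ha b hb i hi j hj => ?_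
  have h4 := hF a ha b hb i hi j hj
  simp only [Finset.sum_apply, Pi.smul_apply, h3, smul_eq_mul, bp_zero, plind_row_C] at h4
  simp only [arA_smul, mul_assoc]
  rw [← mul_sum, h4]
  have := hL ν₁
  have := hL ν₂
  field_simp

lemma arA_mom {𝕜 ι : Type} [Field 𝕜] [Fintype ι] (ψ : ι → ℕ → ℕ → 𝕜) (c₁ c₂ : 𝕜)
    (E : ℕ) (γ : ι → 𝕜) (hγ : ∀ i ≤ E, ∀ j ≤ E, c₁ ^ i * c₂ ^ j = ∑ e, γ e * ψ e i j)
    (D D' : 𝕜[X]) (a b i j : ℕ) (hi : i ≤ E) (hj : j ≤ E) :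
    row c₁ D a i * row c₂ D' b j = ∑ e, γ e * rowF (ψ e) D D' a i b j := by
  simp only [row_eq, rowF, sum_mul_sum, Module.End.pow_apply]
  simp only [mul_sum]
  rw [sum_comm (s := univ)]
  refine sum_congr rfl fun s _ => ?_
  rw [sum_comm (s := univ)]
  refine sum_congr rfl fun t _ => ?_
  have h := hγ (i - s) (by omega) (j - t) (by omega)
  calc _ = (c₁ ^ (i - s) * c₂ ^ (j - t)) * ((i.choose s : 𝕜) * (j.choose t : 𝕜) *
        (derivative^[s] D).eval (a : 𝕜) * (derivative^[t] D').eval (b : 𝕜)) := by ring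
    _ = _ := by
      rw [h, sum_mul]
      exact sum_congr rfl fun e _ => by ring

theorem indepF {K ι : Type} [Field K] [CharZero K] (ψ : ι → ℕ → ℕ → K) (u v α β : K) (hα : α ≠ 0)
    (hβ : β ≠ 0) (ν₁ ν₂ E n₁ n₂ : ℕ) (h : ZF ψ u v α β ν₁ ν₂ E n₁ n₂)
    (γ : Fin n₁ × Fin n₂ → K)
    (hγ : (∑ b : Fin n₁ × Fin n₂, γ b • fun
        p : (Fin (2 * n₁ + 1) × Fin (E + 1)) × (Fin (2 * n₂ + 1) × Fin (E + 1)) =>
          α ^ (p.1.1 : ℕ) * row u (bp K ν₁ E b.1) p.1.1 p.1.2 *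
            (β ^ (p.2.1 : ℕ) * row v (bp K ν₂ E b.2) p.2.1 p.2.2)) ∈
      Submodule.span K (Set.range fun e : ι × Fin ν₁ × Fin ν₂ => fun
        p : (Fin (2 * n₁ + 1) × Fin (E + 1)) × (Fin (2 * n₂ + 1) × Fin (E + 1)) =>
          rowF (ψ e.1) (bp K ν₁ E e.2.1) (bp K ν₂ E e.2.2) p.1.1 p.1.2 p.2.1 p.2.2)) : γ = 0 := by
  have hA : arIn ψ ν₁ ν₂ E (n₁ + n₁) (n₂ + n₂) fun a i b j => ∑ k : Fin n₁,
      α ^ a * row u (bp K ν₁ E k) a i *
        ∑ l : Fin n₂, β ^ b * row v (bp K ν₂ E l) b j * γ (k, l) := by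
    obtain ⟨c, hc⟩ := (Finsupp.mem_span_range_iff_exists_finsupp).1 hγ
    refine ⟨c.sum fun e r => r • fun a i b j =>
      rowF (ψ e.1) (bp K ν₁ E e.2.1) (bp K ν₂ E e.2.2) a i b j, ?_, fun a ha b hb i hi j hj => ?_⟩
    · refine Submodule.sum_mem _ fun e _ => Submodule.smul_mem _ _ (Submodule.subset_span
        ⟨e.1, _, _, ?_, ?_, rfl⟩)
      · rw [bp_degree]
        exact_mod_cast e.2.1.2
      · rw [bp_degree]
        exact_mod_cast e.2.2.2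
    · have h1 := congrFun hc ((⟨a, by omega⟩, ⟨i, by omega⟩), (⟨b, by omega⟩, ⟨j, by omega⟩))
      simp only [Finsupp.sum, Finset.sum_apply, Pi.smul_apply, smul_eq_mul] at h1 ⊢
      rw [h1, Fintype.sum_prod_type]
      refine sum_congr rfl fun k _ => ?_
      rw [mul_sum]
      exact sum_congr rfl fun l _ => by ring
  have key : (fun k l => γ (k, l)) = 0 := by
    refine plind_zero (W := ℕ × ℕ) (V := Fin n₂ → K) u α hα ν₁ E
      (fun N F => arIn ψ ν₁ ν₂ E N (n₂ + n₂) fun a i b j => F a i (b, j)) ?_ ?_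
      (fun y x => ∑ l : Fin n₂, β ^ x.1 * row v (bp K ν₂ E l) x.1 x.2 * y l) (by simp) n₁ ?_ n₁ _ hA
    · rintro N F ⟨G, hG, hF⟩
      refine ⟨(α⁻¹ • fun a => G (a + 1)) - G,
        sub_mem (Submodule.smul_mem _ _ (arA_mem₁ hG)) hG, fun a ha b hb i hi j hj => ?_⟩
      simp only [Pi.sub_apply, Pi.smul_apply, smul_eq_mul]
      rw [hF (a + 1) (by omega) b hb i hi j hj, hF a (by omega) b hb i hi j hj]
    · rintro N F ⟨G, hG, hF⟩
      exact ⟨G, hG, fun a ha => hF a (by omega)⟩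
    intro y hy
    refine plind_zero (W := ℕ × ℕ) (V := K) v β hβ ν₂ E
      (fun N F => arIn ψ ν₁ ν₂ E n₁ N fun a i b j => F b j (a, i)) ?_ ?_
      (fun c x => α ^ x.1 * row u (bp K ν₁ E 0) x.1 x.2 * c) (by simp) n₂
      (fun c hc => arA_base h c hc) n₂ y ?_
    · rintro N F ⟨G, hG, hF⟩
      refine ⟨(β⁻¹ • fun a i b => G a i (b + 1)) - G,
        sub_mem (Submodule.smul_mem _ _ (arA_mem₂ hG)) hG, fun a ha b hb i hi j hj => ?_⟩
      simp only [Pi.sub_apply, Pi.smul_apply, smul_eq_mul]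
      rw [hF a ha (b + 1) (by omega) i hi j hj, hF a ha b (by omega) i hi j hj]
    · rintro N F ⟨G, hG, hF⟩
      exact ⟨G, hG, fun a ha b hb => hF a ha b (by omega)⟩
    · obtain ⟨G, hG, hF⟩ := hy
      refine ⟨G, hG, fun a ha b hb i hi j hj => ?_⟩
      rw [hF a ha b hb i hi j hj]
      simp only [mul_sum]
      exact sum_congr rfl fun l _ => by ring
  funext b
  exact congrFun (congrFun key b.1) b.2

theorem row_spanF {𝕜 ι : Type} [Field 𝕜] [CharZero 𝕜] [Fintype ι] (ψ : ι → ℕ → ℕ → 𝕜) (c₁ c₂ : 𝕜)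
    (E : ℕ) (γ : ι → 𝕜) (hγ : ∀ i ≤ E, ∀ j ≤ E, c₁ ^ i * c₂ ^ j = ∑ e, γ e * ψ e i j)
    (ν₁ ν₂ N₁ N₂ : ℕ) (D D' : 𝕜[X]) (hD : D.degree < ν₁) (hD' : D'.degree < ν₂) :
    (fun p : (Fin N₁ × Fin (E + 1)) × (Fin N₂ × Fin (E + 1)) =>
        row c₁ D p.1.1 p.1.2 * row c₂ D' p.2.1 p.2.2) ∈
      Submodule.span 𝕜 (Set.range fun e : ι × Fin ν₁ × Fin ν₂ => fun
        p : (Fin N₁ × Fin (E + 1)) × (Fin N₂ × Fin (E + 1)) =>
          rowF (ψ e.1) (bp 𝕜 ν₁ E e.2.1) (bp 𝕜 ν₂ E e.2.2) p.1.1 p.1.2 p.2.1 p.2.2) := by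
  obtain ⟨g₁, rfl⟩ := mem_span_bp 𝕜 ν₁ E ν₁ D hD
  obtain ⟨g₂, rfl⟩ := mem_span_bp 𝕜 ν₂ E ν₂ D' hD'
  rw [Submodule.mem_span_range_iff_exists_fun]
  refine ⟨fun e => γ e.1 * (g₁ e.2.1 * g₂ e.2.2), ?_⟩
  funext p
  rw [arA_mom ψ c₁ c₂ E γ hγ _ _ _ _ _ _ (Nat.lt_succ_iff.1 p.1.2.2) (Nat.lt_succ_iff.1 p.2.2.2)]
  simp only [Finset.sum_apply, Pi.smul_apply, smul_eq_mul, arA_sum, Fintype.sum_prod_type]
  simp only [mul_sum]
  exact sum_congr rfl fun e _ => sum_congr rfl fun k _ => sum_congr rfl fun k' _ => by ring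

end Pool.Agent.Lib.MP_1f047c_nt.TA
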