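import Pool.Agent.Lib.MP_1f047c_nt.TABasicA

/-! Algebraic calculus in two variables. -/

open Finset MvPolynomial

namespace Pool.Agent.Lib.MP_1f047c_nt.TA

open PL (wm)

lemma basic_lr_X {Ω : Type} [CommRing Ω] [Algebra ℂ Ω] (p : Fin 2 → Ω) (v : Fin 2 → ℂ)
    (j : Fin 2) : lr p v (X j) =
      Polynomial.C (p j) + Polynomial.C (algebraMap ℂ Ω (v j)) * Polynomial.X := aeval_X _ _

lemma basic_lr_C {Ω : Type} [CommRing Ω] [Algebra ℂ Ω] (p : Fin 2 → Ω) (v : Fin 2 → ℂ)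
    (c : ℂ) : lr p v (C c) = Polynomial.C (algebraMap ℂ Ω c) := aeval_C _ _

lemma lr_dv {Ω : Type} [CommRing Ω] [Algebra ℂ Ω] (p : Fin 2 → Ω) (v : Fin 2 → ℂ) (G : S) :
    Polynomial.derivative (lr p v G) = lr p v (dv v G) := by
  induction G using MvPolynomial.induction_on with
  | C a => rw [basic_lr_C, dv_C, map_zero, Polynomial.derivative_C]
  | add G H hG hH => rw [map_add, map_add, hG, hH, map_add, map_add]
  | mul_X G j hG =>
    rw [map_mul, Polynomial.derivative_mul, hG, dv_mul, map_add, map_mul, map_mul, dv_X,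
      basic_lr_C, basic_lr_X]
    simp

lemma lr_dv_pow {Ω : Type} [CommRing Ω] [Algebra ℂ Ω] (p : Fin 2 → Ω) (v : Fin 2 → ℂ) (k : ℕ)
    (G : S) : Polynomial.derivative^[k] (lr p v G) = lr p v ((dv v ^ k) G) := by
  induction k with
  | zero => rfl
  | succ k ih => rw [Function.iterate_succ_apply', ih, lr_dv, pow_succ', Module.End.mul_apply]

lemma lr_eval {Ω : Type} [CommRing Ω] [Algebra ℂ Ω] (p : Fin 2 → Ω) (v : Fin 2 → ℂ) (t : ℂ)
    (G : S) : (lr p v G).eval (algebraMap ℂ Ω t) = aeval p (tr (t • v) G) := by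
  rw [aeval_tr]
  induction G using MvPolynomial.induction_on with
  | C a => rw [basic_lr_C, Polynomial.eval_C, aeval_C]
  | add G H hG hH => rw [map_add, map_add, Polynomial.eval_add, hG, hH]
  | mul_X G j hG =>
    rw [map_mul, map_mul, Polynomial.eval_mul, hG, basic_lr_X, aeval_X, Polynomial.eval_add,
      Polynomial.eval_mul, Polynomial.eval_C, Polynomial.eval_C, Polynomial.eval_X, Pi.smul_apply,
      smul_eq_mul, map_mul, mul_comm (algebraMap ℂ Ω t)]

lemma lr_evalC (p v : Fin 2 → ℂ) (t : ℂ) (G : S) : (lr p v G).eval t = eval (p + t • v) G := by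
  have h := lr_eval p v t G
  rw [← eval_tr]
  exact h

lemma lr_natDegree {Ω : Type} [CommRing Ω] [Algebra ℂ Ω] (p : Fin 2 → Ω) (v : Fin 2 → ℂ) {G : S}
    {E : ℕ} (h : G ∈ Vp E) : (lr p v G).natDegree ≤ E := by
  let W : Submodule ℂ S :=
    { carrier := {G | (lr p v G).natDegree ≤ E}
      add_mem' := fun {a b} ha hb => by
        change (lr p v (a + b)).natDegree ≤ E
        rw [map_add]
        exact Polynomial.natDegree_add_le_of_degree_le ha hb
      zero_mem' := by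
        change (lr p v 0).natDegree ≤ E
        rw [map_zero, Polynomial.natDegree_zero]
        exact Nat.zero_le _
      smul_mem' := fun c a ha => by
        change (lr p v (c • a)).natDegree ≤ E
        rw [map_smul]
        exact (Polynomial.natDegree_smul_le _ _).trans ha }
  have hX : ∀ j, (lr p v (X j)).natDegree ≤ 1 := fun j => by
    rw [basic_lr_X]
    refine Polynomial.natDegree_add_le_of_degree_le (by simp) ?_
    exact (Polynomial.natDegree_C_mul_le _ _).trans Polynomial.natDegree_X_le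
  refine (Vp_le (W := W) fun i j hij => ?_) h
  change (lr p v (X 0 ^ i * X 1 ^ j)).natDegree ≤ E
  rw [map_mul, map_pow, map_pow]
  refine Polynomial.natDegree_mul_le.trans (le_trans (add_le_add ?_ ?_) hij)
  · simpa using Polynomial.natDegree_pow_le_of_le i (hX 0)
  · simpa using Polynomial.natDegree_pow_le_of_le j (hX 1)

lemma basic_lr_e1 {Ω : Type} [Field Ω] [Algebra ℂ Ω] (p : Fin 2 → Ω) (F : S) :
    lr p e1 F = ((toBi F).map (Polynomial.aeval (p 0) : Polynomial ℂ →ₐ[ℂ] Ω).toRingHom).comp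
      (Polynomial.X + Polynomial.C (p 1)) := by
  induction F using MvPolynomial.induction_on with
  | C a => simp [toBi]
  | add G H hG hH => simp only [toBi, map_add, Polynomial.map_add, Polynomial.add_comp, hG, hH]
  | mul_X G j hG =>
    simp only [toBi, map_mul, Polynomial.map_mul, Polynomial.mul_comp, hG, basic_lr_X]
    congr 1
    fin_cases j
    · simp [e1]
    · simp [e1, add_comm]

lemma lr_monic {Ω : Type} [Field Ω] [Algebra ℂ Ω] (p : Fin 2 → Ω) {F : S} {D : ℕ} (h : Mon F D) :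
    (lr p e1 F).Monic ∧ (lr p e1 F).natDegree = D := by
  obtain ⟨-, -, hm, hd⟩ := h
  rw [basic_lr_e1]
  refine ⟨(hm.map _).comp_X_add_C _, ?_⟩
  rw [← Polynomial.taylor_apply, Polynomial.natDegree_taylor, hm.natDegree_map, hd]

/-- Taylor formula. -/
lemma taylor (ξ : Fin 2 → ℂ) {G : S} {E : ℕ} (h : G ∈ Vp E) :
    tr ξ G = ∑ e ∈ range (E + 1), ((e.factorial : ℂ)⁻¹) • (dv ξ ^ e) G := by
  refine MvPolynomial.funext fun x => ?_
  have h1 : eval x (tr ξ G) = (lr x ξ G).eval 1 := by rw [lr_evalC, one_smul, eval_tr]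
  rw [h1, Polynomial.eval_eq_sum_range' (Nat.lt_succ_of_le (lr_natDegree x ξ h)), map_sum]
  refine sum_congr rfl fun e _ => ?_
  have h2 : eval x ((dv ξ ^ e) G) = (lr x ξ ((dv ξ ^ e) G)).eval 0 := by
    rw [lr_evalC, zero_smul, add_zero]
  have h3 : (e.factorial : ℂ) ≠ 0 := Nat.cast_ne_zero.2 e.factorial_ne_zero
  rw [smul_eval, h2, ← lr_dv_pow, ← Polynomial.coeff_zero_eq_eval_zero,
    Polynomial.coeff_iterate_derivative, zero_add, Nat.descFactorial_self, one_pow, mul_one,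
    nsmul_eq_mul, ← mul_assoc, inv_mul_cancel₀ h3, one_mul]

lemma taylor_smul (w : ℂ) (v : Fin 2 → ℂ) {G : S} {E : ℕ} (h : G ∈ Vp E) :
    tr (w • v) G = ∑ e ∈ range (E + 1), ((e.factorial : ℂ)⁻¹ * w ^ e) • (dv v ^ e) G := by
  rw [taylor _ h]
  refine sum_congr rfl fun e _ => ?_
  rw [dv_smul, smul_pow, LinearMap.smul_apply, smul_smul]

lemma taylor2 (ξ : Fin 2 → ℂ) {G : S} {E : ℕ} (h : G ∈ Vp E) :
    tr ξ G = ∑ e ∈ range (E + 1), ∑ f ∈ range (E + 1),
      ((e.factorial : ℂ)⁻¹ * (f.factorial : ℂ)⁻¹ * (ξ 0 ^ e * ξ 1 ^ f)) •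
        (dv e1 ^ f * dv e0 ^ e) G := by
  have h1 : ξ = ξ 1 • e1 + ξ 0 • e0 := by
    ext j
    fin_cases j <;> simp [e0, e1]
  conv_lhs => rw [h1, ← tr_tr, taylor_smul (ξ 0) e0 h, map_sum]
  refine sum_congr rfl fun e _ => ?_
  rw [map_smul, taylor_smul (ξ 1) e1 (dv_pow_Vp e0 e h), smul_sum]
  refine sum_congr rfl fun f _ => ?_
  rw [smul_smul, Module.End.mul_apply]
  congr 1
  ring

lemma tr_mem {W : Submodule ℂ S} (h : ∀ v, ∀ G ∈ W, dv v G ∈ W) (ξ : Fin 2 → ℂ) {G : S}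
    (hG : G ∈ W) : tr ξ G ∈ W := by
  obtain ⟨E, hE⟩ := exists_mem_Vp G
  rw [taylor ξ hE]
  exact W.sum_mem fun e _ => W.smul_mem _ (dv_pow_mem (h ξ) e hG)

lemma act_C (c : ℂ) : act (C c) = c • (1 : Module.End ℂ S) := by
  rw [← Algebra.algebraMap_eq_smul_one]
  exact act.commutes c

lemma basic_act_X (j : Fin 2) : act (X j) =
    dv e0 ^ (Finsupp.single j 1 (0 : Fin 2)) * dv e1 ^ (Finsupp.single j 1 (1 : Fin 2)) := by
  rw [act, X, ← single_eq_monomial, AddMonoidAlgebra.lift_single, one_smul]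
  rfl

lemma act_X0 : act (X 0) = dv e0 := by
  rw [basic_act_X]
  simp

lemma act_X1 : act (X 1) = dv e1 := by
  rw [basic_act_X]
  simp

lemma act_lin (v : Fin 2 → ℂ) : act (lin v) = dv v := by
  rw [lin, map_add, map_mul, map_mul, act_C, act_C, act_X0, act_X1, dv_eq v, smul_mul_assoc,
    smul_mul_assoc, one_mul, one_mul]

lemma act_mul_apply (g h Q : S) : act (g * h) Q = act g (act h Q) := by
  rw [map_mul, Module.End.mul_apply]

lemma act_dv (g : S) (v : Fin 2 → ℂ) (k : ℕ) (Q : S) :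
    (dv v ^ k) (act g Q) = act g ((dv v ^ k) Q) := by
  rw [← act_lin, ← map_pow, ← act_mul_apply, ← act_mul_apply, mul_comm]

lemma act_Vp (g : S) {Q : S} {E : ℕ} (h : Q ∈ Vp E) : act g Q ∈ Vp E := by
  induction g using MvPolynomial.induction_on generalizing Q with
  | C a =>
    rw [act_C]
    exact (Vp E).smul_mem a h
  | add G H hG hH =>
    rw [map_add]
    exact (Vp E).add_mem (hG h) (hH h)
  | mul_X G j hG =>
    rw [act_mul_apply]
    refine hG ?_
    fin_cases j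
    · change act (X 0) Q ∈ Vp E
      rw [act_X0]
      exact dv_Vp _ h
    · change act (X 1) Q ∈ Vp E
      rw [act_X1]
      exact dv_Vp _ h

lemma act_dvd {g : S} {r : ℕ} (hg : g ∈ Vp r) (q : S) (k : ℕ) {φ : S} (h : q ^ (k + r) ∣ φ) :
    q ^ k ∣ act g φ := by
  let W : Submodule ℂ S :=
    { carrier := {g | q ^ k ∣ act g φ}
      add_mem' := fun {a b} ha hb => by
        change q ^ k ∣ act (a + b) φ
        rw [map_add]
        exact dvd_add ha hb
      zero_mem' := by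
        change q ^ k ∣ act 0 φ
        rw [map_zero]
        exact dvd_zero _
      smul_mem' := fun c a ha => by
        change q ^ k ∣ act (c • a) φ
        rw [map_smul, LinearMap.smul_apply, smul_eq_C_mul]
        exact Dvd.dvd.mul_left ha _ }
  refine (Vp_le (W := W) fun i j hij => ?_) hg
  change q ^ k ∣ act (X 0 ^ i * X 1 ^ j) φ
  rw [act_mul_apply, map_pow, map_pow, act_X0, act_X1]
  refine dv_pow_dvd _ _ _ _ (dv_pow_dvd _ _ _ _ ((pow_dvd_pow q ?_).trans h))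
  omega

lemma symb_Vp (𝓛 : Finset ((ℤ × ℤ) × ℤ)) (ν : ℕ) : symb 𝓛 ν ∈ Vp (𝓛.card * ν) := by
  refine Vp_prod _ _ fun l _ => ?_
  have h := Vp_pow ((Vp 1).sub_mem (lin_mem_Vp (cz l.1)) (C_mem_Vp (wm l.2) 1)) ν
  rwa [mul_one] at h

lemma dotC_wv (v m : ℤ × ℤ) : dotC (cz v) (wv m) = wm (dotZ v m) := by
  simp only [dotC, cz, wv, wm, dotZ, Matrix.cons_val_zero, Matrix.cons_val_one]
  push_cast
  ring

lemma wv_zero : wv 0 = 0 := by
  ext j
  fin_cases j <;> simp [wv, wm]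

lemma dotC_dual {θ : ℤ × ℤ} (h : θ ≠ 0) (w : ℂ) : dotC (cz θ) (w • dual θ) = w := by
  have h1 : θ.1 ^ 2 + θ.2 ^ 2 ≠ 0 := fun h0 => h (Prod.ext
    (by change θ.1 = 0; nlinarith [sq_nonneg θ.1, sq_nonneg θ.2])
    (by change θ.2 = 0; nlinarith [sq_nonneg θ.1, sq_nonneg θ.2]))
  have h2 : ((θ.1 ^ 2 + θ.2 ^ 2 : ℤ) : ℂ) ≠ 0 := Int.cast_ne_zero.2 h1
  have h3 := mul_inv_cancel₀ h2
  simp only [dotC, cz, dual, Pi.smul_apply, smul_eq_mul, Matrix.cons_val_zero,
    Matrix.cons_val_one]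
  generalize ((θ.1 ^ 2 + θ.2 ^ 2 : ℤ) : ℂ)⁻¹ = u at h3 ⊢
  push_cast at h3
  linear_combination w * h3

lemma perp_ne {θ : ℤ × ℤ} (h : θ ≠ 0) : perp θ ≠ 0 := fun h0 => by
  have h1 : -θ.2 = 0 := congrArg Prod.fst h0
  have h2 : θ.1 = 0 := congrArg Prod.snd h0
  exact h (Prod.ext h2 (neg_eq_zero.1 h1))

lemma abs_dotZ {ρ R : ℕ} {v m : ℤ × ℤ} (hv : Sml ρ v) (hm : m ∈ box R) :
    |dotZ v m| ≤ 2 * ρ * R := by
  rw [box, mem_product, mem_Icc, mem_Icc, ← abs_le, ← abs_le] at hm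
  have h1 := mul_le_mul hv.1 hm.1 (abs_nonneg _) (Int.natCast_nonneg _)
  have h2 := mul_le_mul hv.2 hm.2 (abs_nonneg _) (Int.natCast_nonneg _)
  have h3 := abs_add_le (v.1 * m.1) (v.2 * m.2)
  rw [abs_mul, abs_mul] at h3
  rw [dotZ]
  linarith

lemma norm_wm (k : ℤ) : ‖wm k‖ = 2 * Real.pi * |(k : ℝ)| := by
  rw [wm, norm_mul, norm_mul, norm_mul, Complex.norm_I, Complex.norm_real, Complex.norm_intCast,
    Real.norm_of_nonneg Real.pi_pos.le, Complex.norm_two, mul_one]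

/-- The symbol kills the frequencies on its lines. -/
lemma act_adj_symb {𝓛 : Finset ((ℤ × ℤ) × ℤ)} {ν d : ℕ} (hν : d < ν) {m : ℤ × ℤ}
    (hm : ∃ l ∈ 𝓛, dotZ l.1 m = l.2) {Q : S} (hQ : Q ∈ Vp d) :
    act (adj (wv m) (symb 𝓛 ν)) Q = 0 := by
  obtain ⟨l, hl, he⟩ := hm
  have h1 : adj (wv m) (lin (cz l.1) - C (wm l.2)) = lin (-cz l.1) := by
    have h2 : adj (wv m) (C (wm l.2)) = C (wm l.2) := (adj (wv m)).commutes _
    rw [map_sub, adj_lin, dotC_wv, he, h2]
    simp only [lin, Pi.neg_apply, map_neg]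
    ring
  have h3 := dv_pow_zero (-cz l.1) (-cz l.1) (i := ν) (j := 0) hQ (by omega)
  rw [pow_zero, mul_one] at h3
  rw [symb, ← prod_erase_mul _ _ hl, map_mul, act_mul_apply, map_pow, h1, map_pow, act_lin, h3,
    map_zero]

lemma lr_act (p v : Fin 2 → ℂ) (c : ℂ) (ν : ℕ) (φ : S) :
    lr p v (act ((lin v - C c) ^ ν) φ) =
      act1 ((Polynomial.X - Polynomial.C c) ^ ν) (lr p v φ) := by
  induction ν with
  | zero => simp [act1]
  | succ ν ih =>
    have h1 : act1 ((Polynomial.X - Polynomial.C c) ^ (ν + 1)) (lr p v φ) =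
        Polynomial.derivative (act1 ((Polynomial.X - Polynomial.C c) ^ ν) (lr p v φ)) -
          c • act1 ((Polynomial.X - Polynomial.C c) ^ ν) (lr p v φ) := by
      simp only [act1]
      rw [pow_succ', map_mul, Module.End.mul_apply, map_sub, Polynomial.aeval_X,
        Polynomial.aeval_C, LinearMap.sub_apply, Module.algebraMap_end_apply]
    rw [h1, ← ih, pow_succ', act_mul_apply, map_sub, act_lin, act_C, LinearMap.sub_apply, map_sub,
      lr_dv, LinearMap.smul_apply, Module.End.one_apply, map_smul]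

end Pool.Agent.Lib.MP_1f047c_nt.TA
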