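import Pool.Agent.Lib.MP_1f047c_nt.TADefs

/-! Algebraic calculus in two variables. -/

open Finset MvPolynomial

namespace Pool.Agent.Lib.MP_1f047c_nt.TA

open PL (wm)

lemma mem_Vp {G : S} {E : ℕ} : G ∈ Vp E ↔ G.totalDegree ≤ E := mem_restrictTotalDegree _ _ _

lemma Vp_mono {a b : ℕ} (h : a ≤ b) : Vp a ≤ Vp b := fun _ hG => mem_Vp.2 ((mem_Vp.1 hG).trans h)

lemma Vp_mul {G H : S} {a b : ℕ} (hG : G ∈ Vp a) (hH : H ∈ Vp b) : G * H ∈ Vp (a + b) :=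
  mem_Vp.2 ((totalDegree_mul G H).trans (add_le_add (mem_Vp.1 hG) (mem_Vp.1 hH)))

lemma Vp_pow {G : S} {a : ℕ} (hG : G ∈ Vp a) (k : ℕ) : G ^ k ∈ Vp (k * a) :=
  mem_Vp.2 ((totalDegree_pow G k).trans (Nat.mul_le_mul_left k (mem_Vp.1 hG)))

lemma Vp_prod {ι : Type} (s : Finset ι) (f : ι → S) {d : ℕ} (h : ∀ i ∈ s, f i ∈ Vp d) :
    ∏ i ∈ s, f i ∈ Vp (s.card * d) := by
  refine mem_Vp.2 ((totalDegree_finsetProd s f).trans ?_)
  rw [← smul_eq_mul]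
  exact Finset.sum_le_card_nsmul _ _ _ fun i hi => mem_Vp.1 (h i hi)

lemma C_mem_Vp (c : ℂ) (E : ℕ) : (C c : S) ∈ Vp E := mem_Vp.2 ((totalDegree_C c).trans_le (Nat.zero_le E))

lemma one_mem_Vp (E : ℕ) : (1 : S) ∈ Vp E := C_mem_Vp 1 E

lemma X_mem_Vp (j : Fin 2) : (X j : S) ∈ Vp 1 := mem_Vp.2 (totalDegree_X j).le

lemma lin_mem_Vp (v : Fin 2 → ℂ) : lin v ∈ Vp 1 :=
  add_mem (Vp_mul (C_mem_Vp _ 0) (X_mem_Vp 0)) (Vp_mul (C_mem_Vp _ 0) (X_mem_Vp 1))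

lemma mono_mem_Vp {i j E : ℕ} (h : i + j ≤ E) : (X 0 ^ i * X 1 ^ j : S) ∈ Vp E :=
  Vp_mono (by omega) (Vp_mul (Vp_pow (X_mem_Vp 0) i) (Vp_pow (X_mem_Vp 1) j))

lemma aeval_mem_Vp (u : Polynomial ℂ) {G : S} (hG : G ∈ Vp 1) {E : ℕ} (h : u.natDegree ≤ E) :
    Polynomial.aeval G u ∈ Vp E := by
  rw [Polynomial.aeval_eq_sum_range]
  refine Submodule.sum_mem _ fun i hi => Submodule.smul_mem _ _ (Vp_mono ?_ (Vp_pow hG i))
  have := Finset.mem_range.1 hi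
  omega

/-- Induction over the monomials. -/
lemma Vp_le {E : ℕ} {W : Submodule ℂ S} (h : ∀ i j : ℕ, i + j ≤ E → (X 0 ^ i * X 1 ^ j : S) ∈ W) :
    Vp E ≤ W := fun G hG => by
  rw [G.as_sum]
  refine Submodule.sum_mem _ fun s hs => ?_
  have h1 := (le_totalDegree hs).trans (mem_Vp.1 hG)
  rw [Finsupp.sum_fintype _ _ (fun _ => rfl), Fin.sum_univ_two] at h1
  rw [monomial_eq, Finsupp.prod_fintype _ _ (fun _ => pow_zero _), Fin.prod_univ_two,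
    ← smul_eq_C_mul]
  exact W.smul_mem _ (h _ _ h1)

lemma exists_mem_Vp (G : S) : ∃ E, G ∈ Vp E := ⟨_, mem_Vp.2 le_rfl⟩

/-- The directional derivative as a derivation. -/
noncomputable def der_BA (v : Fin 2 → ℂ) : Derivation ℂ S S := v 0 • pderiv 0 + v 1 • pderiv 1

lemma dv_der_BA (v : Fin 2 → ℂ) (G : S) : dv v G = der_BA v G := rfl

lemma dv_mul (v : Fin 2 → ℂ) (G H : S) : dv v (G * H) = dv v G * H + G * dv v H := by
  rw [dv_der_BA, dv_der_BA, dv_der_BA, Derivation.leibniz, smul_eq_mul, smul_eq_mul]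
  ring

lemma dv_add (v w : Fin 2 → ℂ) : dv (v + w) = dv v + dv w := by
  simp only [dv, Pi.add_apply, add_smul]
  abel

lemma dv_smul (c : ℂ) (v : Fin 2 → ℂ) : dv (c • v) = c • dv v := by
  simp only [dv, Pi.smul_apply, smul_eq_mul, mul_smul, smul_add]

lemma dv_eq (v : Fin 2 → ℂ) : dv v = v 0 • dv e0 + v 1 • dv e1 := by
  simp [dv, e0, e1]

lemma dv_C (v : Fin 2 → ℂ) (c : ℂ) : dv v (C c) = 0 := (der_BA v).map_algebraMap c

lemma dv_X (v : Fin 2 → ℂ) (j : Fin 2) : dv v (X j) = C (v j) := by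
  fin_cases j <;> simp [dv, pderiv_X, smul_eq_C_mul]

lemma dv_lin (v w : Fin 2 → ℂ) : dv v (lin w) = C (dotC w v) := by
  simp only [lin, dotC, map_add, dv_mul, dv_C, dv_X, map_mul, zero_mul, zero_add]

lemma dv_aeval (v : Fin 2 → ℂ) (G : S) (u : Polynomial ℂ) :
    dv v (Polynomial.aeval G u) = Polynomial.aeval G (Polynomial.derivative u) * dv v G :=
  (der_BA v).map_aeval u G

lemma dv_one_BA (v : Fin 2 → ℂ) : dv v 1 = 0 := dv_C v 1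

lemma dv_pow_succ_BA (v : Fin 2 → ℂ) (q : S) (m : ℕ) :
    dv v (q ^ (m + 1)) = (m + 1) • (q ^ m * dv v q) := (der_BA v).leibniz_pow q (m + 1)

lemma dv_X_pow_BA (v : Fin 2 → ℂ) (j : Fin 2) (i : ℕ) : dv v (X j ^ (i + 1)) ∈ Vp i := by
  rw [dv_pow_succ_BA, dv_X]
  exact nsmul_mem (Vp_mono (by omega) (Vp_mul (Vp_pow (X_mem_Vp j) i) (C_mem_Vp _ 0))) _

lemma dv_Vp_succ (v : Fin 2 → ℂ) {G : S} {E : ℕ} (h : G ∈ Vp (E + 1)) : dv v G ∈ Vp E := by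
  refine Vp_le (W := (Vp E).comap (dv v)) (fun i j hij => ?_) h
  rw [Submodule.mem_comap, dv_mul]
  refine add_mem ?_ ?_
  · rcases i with _ | i
    · rw [pow_zero, dv_one_BA, zero_mul]
      exact zero_mem _
    · exact Vp_mono (by omega) (Vp_mul (dv_X_pow_BA v 0 i) (Vp_pow (X_mem_Vp 1) j))
  · rcases j with _ | j
    · rw [pow_zero, dv_one_BA, mul_zero]
      exact zero_mem _
    · exact Vp_mono (by omega) (Vp_mul (Vp_pow (X_mem_Vp 0) i) (dv_X_pow_BA v 1 j))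

lemma dv_Vp (v : Fin 2 → ℂ) {G : S} {E : ℕ} (h : G ∈ Vp E) : dv v G ∈ Vp E :=
  dv_Vp_succ v (Vp_mono (Nat.le_succ E) h)

lemma dv_pow_Vp (v : Fin 2 → ℂ) (k : ℕ) {G : S} {E : ℕ} (h : G ∈ Vp E) : (dv v ^ k) G ∈ Vp E := by
  induction k with
  | zero => exact h
  | succ k ih =>
    rw [pow_succ', Module.End.mul_apply]
    exact dv_Vp v ih

lemma dv_drop_BA (v : Fin 2 → ℂ) (k : ℕ) {G : S} {E : ℕ} (h : G ∈ Vp (E + k)) :
    (dv v ^ k) G ∈ Vp E := by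
  induction k generalizing G with
  | zero => exact h
  | succ k ih =>
    rw [pow_succ, Module.End.mul_apply]
    exact ih (dv_Vp_succ v h)

lemma dv_kill_BA (v : Fin 2 → ℂ) {k : ℕ} {G : S} {E : ℕ} (h : G ∈ Vp E) (hE : E < k) :
    (dv v ^ k) G = 0 := by
  obtain ⟨r, rfl⟩ := Nat.exists_eq_add_of_lt hE
  have h0 : Vp 0 ≤ LinearMap.ker (dv v) := Vp_le fun i j hij => by
    obtain rfl : i = 0 := by omega
    obtain rfl : j = 0 := by omega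
    rw [pow_zero, pow_zero, mul_one]
    exact dv_one_BA v
  have h1 : dv v ((dv v ^ E) G) = 0 := h0 (dv_drop_BA v E (by rwa [zero_add]))
  rw [show E + r + 1 = r + (1 + E) by omega, pow_add, pow_add, pow_one, Module.End.mul_apply,
    Module.End.mul_apply, h1, map_zero]

lemma dv_pow_zero (v w : Fin 2 → ℂ) {i j : ℕ} {G : S} {E : ℕ} (h : G ∈ Vp E) (hE : E < i + j) :
    (dv v ^ i * dv w ^ j) G = 0 := by
  rw [Module.End.mul_apply]
  by_cases hj : E < j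
  · rw [dv_kill_BA w h hj, map_zero]
  · obtain ⟨e, rfl⟩ := Nat.exists_eq_add_of_le' (not_lt.1 hj)
    exact dv_kill_BA v (dv_drop_BA w j h) (by omega)

lemma dv_pow_mem {W : Submodule ℂ S} {v : Fin 2 → ℂ} (h : ∀ G ∈ W, dv v G ∈ W) (k : ℕ) {G : S}
    (hG : G ∈ W) : (dv v ^ k) G ∈ W := by
  induction k with
  | zero => exact hG
  | succ k ih =>
    rw [pow_succ', Module.End.mul_apply]
    exact h _ ih

lemma dv_pow_dvd (v : Fin 2 → ℂ) (q : S) (k r : ℕ) {φ : S} (h : q ^ (k + r) ∣ φ) :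
    q ^ k ∣ (dv v ^ r) φ := by
  induction r generalizing φ with
  | zero => exact h
  | succ r ih =>
    rw [pow_succ, Module.End.mul_apply]
    refine ih ?_
    obtain ⟨ψ, rfl⟩ := h
    rw [dv_mul, ← add_assoc, dv_pow_succ_BA, nsmul_eq_mul]
    exact dvd_add (((dvd_mul_right _ _).mul_left _).mul_right _)
      ((pow_dvd_pow q (Nat.le_succ _)).mul_right _)

lemma tr_zero (G : S) : tr 0 G = G := by
  simp [tr]

lemma tr_tr (ξ η : Fin 2 → ℂ) (G : S) : tr ξ (tr η G) = tr (ξ + η) G := by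
  have h : (tr ξ).comp (tr η) = tr (ξ + η) := MvPolynomial.algHom_ext fun j => by
    simp [tr, add_assoc]
  exact DFunLike.congr_fun h G

lemma tr_X (ξ : Fin 2 → ℂ) (j : Fin 2) : tr ξ (X j) = X j + C (ξ j) := aeval_X _ j

lemma tr_C (ξ : Fin 2 → ℂ) (c : ℂ) : tr ξ (C c) = C c := (tr ξ).commutes c

lemma hom_Vp_BA (f : S →ₐ[ℂ] S) (hf : ∀ j, f (X j) ∈ Vp 1) {G : S} {E : ℕ} (h : G ∈ Vp E) :
    f G ∈ Vp E := by
  refine Vp_le (W := (Vp E).comap f.toLinearMap) (fun i j hij => ?_) h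
  rw [Submodule.mem_comap, AlgHom.toLinearMap_apply, map_mul, map_pow, map_pow]
  exact Vp_mono (by omega) (Vp_mul (Vp_pow (hf 0) i) (Vp_pow (hf 1) j))

lemma adj_X_BA (ξ : Fin 2 → ℂ) (j : Fin 2) : adj ξ (X j) = C (ξ j) - X j := aeval_X _ j

lemma tr_Vp (ξ : Fin 2 → ℂ) {G : S} {E : ℕ} (h : G ∈ Vp E) : tr ξ G ∈ Vp E :=
  hom_Vp_BA (tr ξ) (fun j => tr_X ξ j ▸ add_mem (X_mem_Vp j) (C_mem_Vp _ 1)) h

lemma adj_Vp (ξ : Fin 2 → ℂ) {G : S} {E : ℕ} (h : G ∈ Vp E) : adj ξ G ∈ Vp E :=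
  hom_Vp_BA (adj ξ) (fun j => adj_X_BA ξ j ▸ sub_mem (C_mem_Vp _ 1) (X_mem_Vp j)) h

lemma adj_lin (ξ v : Fin 2 → ℂ) : adj ξ (lin v) = C (dotC v ξ) - lin v := by
  have h : ∀ c : ℂ, adj ξ (C c) = C c := (adj ξ).commutes
  simp only [lin, dotC, map_add, map_mul, adj_X_BA, h]
  ring

lemma dv_tr (v ξ : Fin 2 → ℂ) (G : S) : dv v (tr ξ G) = tr ξ (dv v G) := by
  induction G using MvPolynomial.induction_on with
  | C a => rw [tr_C, dv_C, map_zero]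
  | add p q hp hq => simp only [map_add, hp, hq]
  | mul_X p j hp => simp only [map_mul, map_add, dv_mul, hp, tr_X, dv_X, dv_C, tr_C, add_zero]

lemma dv_pow_tr (v ξ : Fin 2 → ℂ) (k : ℕ) (G : S) : (dv v ^ k) (tr ξ G) = tr ξ ((dv v ^ k) G) := by
  induction k with
  | zero => rfl
  | succ k ih => rw [pow_succ', Module.End.mul_apply, Module.End.mul_apply, ih, dv_tr]

lemma aeval_tr {Ω : Type} [CommRing Ω] [Algebra ℂ Ω] (c : Fin 2 → Ω) (ξ : Fin 2 → ℂ) (G : S) :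
    aeval c (tr ξ G) = aeval (fun j => c j + algebraMap ℂ Ω (ξ j)) G := by
  have h : (aeval c : S →ₐ[ℂ] Ω).comp (tr ξ) = aeval fun j => c j + algebraMap ℂ Ω (ξ j) :=
    MvPolynomial.algHom_ext fun j => by simp [tr]
  exact DFunLike.congr_fun h G

lemma eval_tr (x ξ : Fin 2 → ℂ) (G : S) : eval x (tr ξ G) = eval (x + ξ) G := aeval_tr x ξ G

end Pool.Agent.Lib.MP_1f047c_nt.TA
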