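import Pool.Agent.Lib.MP_1f047c_nt.TABasic

/-! Degrees of translates on a branch at infinity. -/

open Finset MvPolynomial

namespace Pool.Agent.Lib.MP_1f047c_nt.TA

variable {Ω : Type} [Field Ω]

section

variable {o : CyV.Ord Ω} {q q' : ℚ} {u u' : Ω}

lemma Le.mono (h : Le o q u) (hq : q ≤ q') : Le o q' u := CyV.Ord.Ge.mono h (neg_le_neg hq)

lemma Le.mul (h : Le o q u) (h' : Le o q' u') : Le o (q + q') (u * u') := by
  have := CyV.Ord.Ge.mul h h'
  rwa [← neg_add] at this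

lemma Exa.le (h : Exa o q u) : Le o q u := Or.inr h.2.ge

lemma Exa.mul (h : Exa o q u) (h' : Exa o q' u') : Exa o (q + q') (u * u') :=
  ⟨mul_ne_zero h.1 h'.1, by rw [o.v_mul _ _ h.1 h'.1, h.2, h'.2, neg_add]⟩

lemma Exa.le_of_le (h : Exa o q u) (h' : Le o q' u) : q ≤ q' := by
  have := CyV.Ord.Ge.le h' h.1
  rw [h.2] at this
  linarith

lemma Exa.cancel (h' : Exa o q' u') (h : Le o (q + q') (u * u')) : Le o q u := by
  by_cases hu : u = 0
  · exact Or.inl hu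
  have := CyV.Ord.Ge.le h (mul_ne_zero hu h'.1)
  rw [o.v_mul _ _ hu h'.1, h'.2] at this
  exact Or.inr (by linarith)

lemma Exa.add (h : Exa o q u) (h' : Le o q' u') (hq : q' < q) : Exa o q (u + u') := by
  have h1 : o.Gt (o.v u) u' := CyV.Ord.Ge.gt h' (by rw [h.2]; linarith)
  have h2 := CyV.Ord.add_of_gt h.1 h1
  exact ⟨h2.1, h2.2.trans h.2⟩

lemma exa_one (o : CyV.Ord Ω) : Exa o 0 1 := ⟨one_ne_zero, by simp⟩

lemma Exa.pow (h : Exa o q u) (k : ℕ) : Exa o (k * q) (u ^ k) :=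
  ⟨pow_ne_zero _ h.1, by rw [o.v_pow _ h.1, h.2]; ring⟩

lemma Exa.prod {ι : Type} (s : Finset ι) (f : ι → Ω) (g : ι → ℚ) (h : ∀ i ∈ s, Exa o (g i) (f i)) :
    Exa o (∑ i ∈ s, g i) (∏ i ∈ s, f i) := by
  refine ⟨Finset.prod_ne_zero_iff.mpr fun i hi => (h i hi).1, ?_⟩
  rw [o.v_prod s f fun i hi => (h i hi).1, ← Finset.sum_neg_distrib]
  exact Finset.sum_congr rfl fun i hi => (h i hi).2

lemma Le.gba_pow (h : Le o q u) (k : ℕ) : Le o (k * q) (u ^ k) := by
  have := CyV.Ord.Ge.pow h k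
  rwa [mul_neg] at this

lemma Le.gba_prod {ι : Type} (s : Finset ι) (f : ι → Ω) (g : ι → ℚ)
    (h : ∀ i ∈ s, Le o (g i) (f i)) : Le o (∑ i ∈ s, g i) (∏ i ∈ s, f i) := by
  classical
  induction s using Finset.induction_on with
  | empty => simpa using (exa_one o).le
  | insert a s ha ih =>
    rw [Finset.sum_insert ha, Finset.prod_insert ha]
    exact (h a (Finset.mem_insert_self a s)).mul (ih fun i hi => h i (Finset.mem_insert_of_mem hi))

end

lemma del_pos (D : ℕ) : 0 < del D := by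
  unfold del
  positivity

lemma del_le_one (D : ℕ) : del D ≤ 1 := by
  unfold del
  rw [div_le_one (by positivity)]
  exact_mod_cast Nat.factorial_pos D

lemma del_mul (D s : ℕ) : ((D.factorial * s : ℕ) : ℚ) * del D = s := by
  unfold del
  have : (D.factorial : ℚ) ≠ 0 := by positivity
  push_cast
  field_simp

variable [Algebra ℂ Ω]

/-- Interpolation at complex nodes. -/
lemma coeff_mem (W : Submodule ℂ Ω) (g : Polynomial Ω) (s : Finset ℂ) (hs : g.natDegree < s.card)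
    (h : ∀ t ∈ s, g.eval (algebraMap ℂ Ω t) ∈ W) (k : ℕ) : g.coeff k ∈ W := by
  classical
  induction s using Finset.induction_on generalizing g k with
  | empty => simp at hs
  | insert a s ha ih =>
    have h0 := h a (Finset.mem_insert_self a s)
    by_cases hd : g.natDegree = 0
    · rw [Polynomial.eq_C_of_natDegree_eq_zero hd, Polynomial.eval_C] at h0
      rw [Polynomial.eq_C_of_natDegree_eq_zero hd, Polynomial.coeff_C]
      split_ifs
      · exact h0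
      · exact W.zero_mem
    have e := Polynomial.modByMonic_add_div g (Polynomial.X - Polynomial.C (algebraMap ℂ Ω a))
    rw [Polynomial.modByMonic_X_sub_C_eq_C_eval] at e
    have hd1 : (g /ₘ (Polynomial.X - Polynomial.C (algebraMap ℂ Ω a))).natDegree < s.card := by
      rw [Polynomial.natDegree_divByMonic _ (Polynomial.monic_X_sub_C _),
        Polynomial.natDegree_X_sub_C]
      rw [Finset.card_insert_of_notMem ha] at hs
      omega
    generalize g /ₘ (Polynomial.X - Polynomial.C (algebraMap ℂ Ω a)) = g₁ at e hd1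
    have h1 := ih g₁ hd1 (fun t ht => by
      have h2 := h t (Finset.mem_insert_of_mem ht)
      have hta : t - a ≠ 0 := sub_ne_zero.mpr fun hh => ha (hh ▸ ht)
      have e2 := congrArg (Polynomial.eval (algebraMap ℂ Ω t)) e
      simp only [Polynomial.eval_add, Polynomial.eval_mul, Polynomial.eval_sub, Polynomial.eval_C,
        Polynomial.eval_X] at e2
      have e3 : g₁.eval (algebraMap ℂ Ω t) =
          (t - a)⁻¹ • (g.eval (algebraMap ℂ Ω t) - g.eval (algebraMap ℂ Ω a)) := by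
        rw [← e2, add_sub_cancel_left, ← map_sub, ← Algebra.smul_def, smul_smul,
          inv_mul_cancel₀ hta, one_smul]
      rw [e3]
      exact W.smul_mem _ (W.sub_mem h2 h0))
    rw [← e, sub_mul, Polynomial.coeff_add, Polynomial.coeff_sub, Polynomial.coeff_C_mul,
      ← Algebra.smul_def]
    refine W.add_mem ?_ (W.sub_mem ?_ (W.smul_mem _ (h1 k)))
    · rw [Polynomial.coeff_C]
      split_ifs
      · exact h0
      · exact W.zero_mem
    · cases k with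
      | zero => rw [Polynomial.coeff_X_mul_zero]; exact W.zero_mem
      | succ k => rw [Polynomial.coeff_X_mul]; exact h1 k

lemma eval_mem (W : Submodule ℂ Ω) (g : Polynomial Ω) (h : ∀ k, g.coeff k ∈ W) (t : ℂ) :
    g.eval (algebraMap ℂ Ω t) ∈ W := by
  rw [Polynomial.eval_eq_sum_range]
  refine W.sum_mem fun k _ => ?_
  rw [← map_pow, mul_comm, ← Algebra.smul_def]
  exact W.smul_mem _ (h k)

variable {F : S} {D : ℕ} (p : Pl Ω F D)

lemma Pl.mem_LeS {q : ℚ} {u : Ω} : u ∈ p.LeS q ↔ Le p.o q u := Iff.rfl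

lemma Pl.mem_GB {i : Fin D} {q : ℚ} {G : S} :
    G ∈ p.GB i q ↔ ∀ ξ, Le p.o q (aeval (p.c i) (tr ξ G)) := by
  simp only [Pl.GB, Submodule.mem_iInf, Submodule.mem_comap]
  rfl

lemma Pl.mem_LB {i : Fin D} {q : ℚ} {G : S} :
    G ∈ p.LB i q ↔ ∀ t : ℂ, Le p.o q (aeval (p.c i) (tr (t • p.dir i) G)) := by
  simp only [Pl.LB, Submodule.mem_iInf, Submodule.mem_comap]
  rfl

/-- Elements of order more than `r`. -/
def Pl.gbaGt (r : ℚ) : Submodule ℂ Ω where
  carrier := {u | p.o.Gt r u}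
  add_mem' := fun h h' => CyV.Ord.Gt.add h h'
  zero_mem' := CyV.Ord.gt_zero _
  smul_mem' := fun z u h => by
    rcases eq_or_ne z 0 with rfl | hz
    · rw [zero_smul]
      exact CyV.Ord.gt_zero _
    · have h0 : p.o.Ge 0 (algebraMap ℂ Ω z) := Or.inr (p.const z hz).ge
      have h1 := CyV.Ord.Ge.mul_gt h0 h
      rw [zero_add] at h1
      rw [Algebra.smul_def]
      exact h1

/-- The generic degree of the values of a polynomial at complex points. -/
lemma Pl.gauss (g : Polynomial Ω) (hg : g ≠ 0) {d : ℕ} (hd : g.natDegree ≤ d) :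
    ∃ (q : ℚ) (Z : Finset ℂ), Z.card ≤ d ∧ (∀ k, Le p.o q (g.coeff k)) ∧
      (∀ t : ℂ, Le p.o q (g.eval (algebraMap ℂ Ω t))) ∧
      ∀ t : ℂ, t ∉ Z → Exa p.o q (g.eval (algebraMap ℂ Ω t)) := by
  classical
  obtain ⟨k₀, hk₀, hmin⟩ := g.support.exists_min_image (fun k => p.o.v (g.coeff k))
    (Polynomial.support_nonempty.mpr hg)
  have hc : ∀ k, Le p.o (-p.o.v (g.coeff k₀)) (g.coeff k) := by
    intro k
    by_cases hk : g.coeff k = 0
    · exact Or.inl hk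
    · exact Or.inr (by rw [neg_neg]; exact hmin k (Polynomial.mem_support_iff.mpr hk))
  have he : ∀ t : ℂ, Le p.o (-p.o.v (g.coeff k₀)) (g.eval (algebraMap ℂ Ω t)) :=
    eval_mem (p.LeS _) g hc
  have hb : ∀ s : Finset ℂ, (∀ t ∈ s, g.eval (algebraMap ℂ Ω t) ∈ p.gbaGt (p.o.v (g.coeff k₀))) →
      s.card ≤ d := by
    intro s hs
    by_contra hlt
    exact CyV.Ord.not_gt_self (Polynomial.mem_support_iff.mp hk₀)
      (coeff_mem _ g s (by omega) hs k₀)
  have hfin : {t : ℂ | g.eval (algebraMap ℂ Ω t) ∈ p.gbaGt (p.o.v (g.coeff k₀))}.Finite := by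
    by_contra hinf
    obtain ⟨s, hs, hcard⟩ := Set.Infinite.exists_subset_card_eq hinf (d + 1)
    have := hb s fun t ht => hs ht
    omega
  refine ⟨_, hfin.toFinset, hb _ fun t ht => hfin.mem_toFinset.mp ht, hc, he, fun t ht => ?_⟩
  rw [hfin.mem_toFinset] at ht
  have h0 : g.eval (algebraMap ℂ Ω t) ≠ 0 := fun h => ht (Or.inl h)
  exact ⟨h0, le_antisymm (by rw [neg_neg]; exact not_lt.mp fun h => ht (Or.inr h))
    (CyV.Ord.Ge.le (he t) h0)⟩

variable {i : Fin D} {q q' : ℚ} {G H : S}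

lemma Pl.le_of_Vp (i : Fin D) {e : ℕ} (h : G ∈ Vp e) : Le p.o e (aeval (p.c i) G) := by
  have h0 : Le p.o 1 (p.c i 0) := (p.x0 i).le
  have h1 : Le p.o 1 (p.c i 1) := by
    have h2 : p.c i 1 - algebraMap ℂ Ω (p.a i) * p.c i 0 ∈ p.LeS 1 :=
      (p.slope i).mono (by linarith [del_pos D])
    have h3 : p.a i • p.c i 0 ∈ p.LeS 1 := (p.LeS 1).smul_mem _ h0
    have h4 := (p.LeS 1).add_mem h2 h3
    rwa [Algebra.smul_def, sub_add_cancel] at h4
  refine Vp_le (W := (p.LeS e).comap (aeval (p.c i)).toLinearMap) (fun a b hab => ?_) h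
  change Le p.o e (aeval (p.c i) (X 0 ^ a * X 1 ^ b : S))
  rw [map_mul, map_pow, map_pow, aeval_X, aeval_X]
  refine ((h0.gba_pow a).mul (h1.gba_pow b)).mono ?_
  rw [mul_one, mul_one]
  exact_mod_cast hab

lemma Pl.gb_of_Vp (i : Fin D) {e : ℕ} (h : G ∈ Vp e) : G ∈ p.GB i e :=
  p.mem_GB.2 fun ξ => p.le_of_Vp i (tr_Vp ξ h)

lemma Pl.GB_mono (i : Fin D) (h : q ≤ q') : p.GB i q ≤ p.GB i q' :=
  fun _ hG => p.mem_GB.2 fun ξ => (p.mem_GB.1 hG ξ).mono h

lemma Pl.LB_mono (i : Fin D) (h : q ≤ q') : p.LB i q ≤ p.LB i q' :=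
  fun _ hG => p.mem_LB.2 fun t => (p.mem_LB.1 hG t).mono h

lemma Pl.GB_le_LB (i : Fin D) (q : ℚ) : p.GB i q ≤ p.LB i q :=
  fun _ hG => p.mem_LB.2 fun _ => p.mem_GB.1 hG _

lemma Pl.le_of_LB (h : G ∈ p.LB i q) : Le p.o q (aeval (p.c i) G) := by
  have := p.mem_LB.1 h 0
  rwa [zero_smul, tr_zero] at this

lemma Pl.EX.exa (h : p.EX i q G) : Exa p.o q (aeval (p.c i) G) := by
  have := h 0
  rwa [zero_smul, tr_zero] at this

lemma Pl.EX.lb (h : p.EX i q G) : G ∈ p.LB i q := p.mem_LB.2 fun t => (h t).le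

lemma Pl.gb_mul (h : G ∈ p.GB i q) (h' : H ∈ p.GB i q') : G * H ∈ p.GB i (q + q') :=
  p.mem_GB.2 fun ξ => by
    rw [map_mul, map_mul]
    exact (p.mem_GB.1 h ξ).mul (p.mem_GB.1 h' ξ)

lemma Pl.lb_mul (h : G ∈ p.LB i q) (h' : H ∈ p.LB i q') : G * H ∈ p.LB i (q + q') :=
  p.mem_LB.2 fun t => by
    rw [map_mul, map_mul]
    exact (p.mem_LB.1 h t).mul (p.mem_LB.1 h' t)

lemma Pl.ex_mul (h : p.EX i q G) (h' : p.EX i q' H) : p.EX i (q + q') (G * H) := fun t => by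
  rw [map_mul, map_mul]
  exact (h t).mul (h' t)

lemma Pl.gb_pow (h : G ∈ p.GB i q) (k : ℕ) : G ^ k ∈ p.GB i (k * q) :=
  p.mem_GB.2 fun ξ => by
    rw [map_pow, map_pow]
    exact (p.mem_GB.1 h ξ).gba_pow k

lemma Pl.lb_pow (h : G ∈ p.LB i q) (k : ℕ) : G ^ k ∈ p.LB i (k * q) :=
  p.mem_LB.2 fun t => by
    rw [map_pow, map_pow]
    exact (p.mem_LB.1 h t).gba_pow k

lemma Pl.ex_pow (h : p.EX i q G) (k : ℕ) : p.EX i (k * q) (G ^ k) := fun t => by
  rw [map_pow, map_pow]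
  exact (h t).pow k

lemma Pl.gb_prod {ι : Type} (s : Finset ι) (f : ι → S) (g : ι → ℚ)
    (h : ∀ j ∈ s, f j ∈ p.GB i (g j)) : ∏ j ∈ s, f j ∈ p.GB i (∑ j ∈ s, g j) :=
  p.mem_GB.2 fun ξ => by
    rw [map_prod, map_prod]
    exact Le.gba_prod s _ g fun j hj => p.mem_GB.1 (h j hj) ξ

lemma Pl.lb_prod {ι : Type} (s : Finset ι) (f : ι → S) (g : ι → ℚ)
    (h : ∀ j ∈ s, f j ∈ p.LB i (g j)) : ∏ j ∈ s, f j ∈ p.LB i (∑ j ∈ s, g j) :=
  p.mem_LB.2 fun t => by
    rw [map_prod, map_prod]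
    exact Le.gba_prod s _ g fun j hj => p.mem_LB.1 (h j hj) t

lemma Pl.ex_prod {ι : Type} (s : Finset ι) (f : ι → S) (g : ι → ℚ)
    (h : ∀ j ∈ s, p.EX i (g j) (f j)) : p.EX i (∑ j ∈ s, g j) (∏ j ∈ s, f j) := fun t => by
  rw [map_prod, map_prod]
  exact Exa.prod s _ g fun j hj => h j hj t

lemma Pl.lb_cancel (h' : p.EX i q' H) (h : G * H ∈ p.LB i (q + q')) : G ∈ p.LB i q :=
  p.mem_LB.2 fun t => by
    have h1 := p.mem_LB.1 h t
    rw [map_mul, map_mul] at h1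
    exact (h' t).cancel h1

lemma Pl.gb_tr (h : G ∈ p.GB i q) (ξ : Fin 2 → ℂ) : tr ξ G ∈ p.GB i q :=
  p.mem_GB.2 fun η => by
    rw [tr_tr]
    exact p.mem_GB.1 h _

lemma Pl.lb_tr (h : G ∈ p.LB i q) {ξ : Fin 2 → ℂ} (hξ : p.ell i ξ = 0) : tr ξ G ∈ p.LB i q :=
  p.mem_LB.2 fun t => by
    have e : t • p.dir i + ξ = (t + ξ 0) • p.dir i := by
      have h1 : ξ 1 = p.a i * ξ 0 := sub_eq_zero.mp hξ
      funext j
      fin_cases j
      · simp [Pl.dir]
      · simp [Pl.dir, h1]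
        ring
    rw [tr_tr, e]
    exact p.mem_LB.1 h _

end Pool.Agent.Lib.MP_1f047c_nt.TA
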