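import Pool.Agent.Lib.MP_1f047c_nt.TAJarA
import Pool.Agent.Lib.MP_1f047c_nt.TAGBA

/-! Lattice points on lines and on the curve. -/

open Finset MvPolynomial

namespace Pool.Agent.Lib.MP_1f047c_nt.TA

open PL (wm)

variable {Ω : Type} [Field Ω] [Algebra ℂ Ω] {F : S} {D : ℕ}

private lemma tajar_roots {g : Polynomial ℂ} (hg : g ≠ 0) {d : ℕ} (hd : g.natDegree ≤ d) :
    ∃ Z : Finset ℂ, Z.card ≤ d ∧ ∀ z, g.eval z = 0 → z ∈ Z :=
  ⟨g.roots.toFinset, ((Multiset.toFinset_card_le _).trans g.card_roots').trans hd,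
    fun _ hz => Multiset.mem_toFinset.2 ((Polynomial.mem_roots hg).2 hz)⟩

private lemma tajar_vert (hF : Mon F D) (x : ℂ) :
    ∃ Z : Finset ℂ, Z.card ≤ D ∧ ∀ y, eval ![x, y] F = 0 → y ∈ Z := by
  obtain ⟨h1, h2⟩ := lr_monic (Ω := ℂ) ![x, 0] hF
  obtain ⟨Z, hZ, h⟩ := tajar_roots h1.ne_zero h2.le
  refine ⟨Z, hZ, fun y hy => h y ?_⟩
  have e : (![x, 0] : Fin 2 → ℂ) + y • e1 = ![x, y] := by
    ext j
    fin_cases j <;> simp [e1]
  rw [lr_evalC, e, hy]

private lemma tajar_eta (x : Fin 2 → ℂ) : (![x 0, x 1] : Fin 2 → ℂ) = x := by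
  ext j
  fin_cases j <;> rfl

/-- Weak Bezout bound. -/
theorem card_inter (p : Pl Ω F D) (hF : Mon F D) {G : S} (hG : G ∈ Vp D) (h : ¬ F ∣ G)
    (T : Finset (Fin 2 → ℂ)) (hT : ∀ x ∈ T, eval x F = 0 ∧ eval x G = 0) : T.card ≤ D ^ 3 := by
  classical
  obtain ⟨N, hN, hdeg, b, w, hb⟩ := p.norm G h
  have hd : N.natDegree ≤ D ^ 2 := by
    have h1 : ∑ i, -p.o.v (aeval (p.c i) G) ≤ ∑ _i : Fin D, (D : ℚ) :=
      Finset.sum_le_sum fun i _ => by
        have h2 : p.o.Ge (-(D : ℚ)) (aeval (p.c i) G) := p.le_of_Vp i hG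
        have h3 := h2.le fun h0 => h ((p.ker i G).1 h0)
        linarith
    rw [← hdeg, Finset.sum_const, Finset.card_univ, Fintype.card_fin, nsmul_eq_mul] at h1
    rw [sq]
    exact_mod_cast h1
  obtain ⟨Z, hZ, hZ'⟩ := tajar_roots hN hd
  have h1 := Finset.card_le_mul_card_image_of_maps_to (f := fun x : Fin 2 → ℂ => x 0) (s := T)
    (t := Z) (fun x hx => hZ' _ (by
      have h2 := congrArg (aeval x) hb
      have h3 : aeval x F = 0 := (hT x hx).1
      have h4 : aeval x G = 0 := (hT x hx).2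
      rw [map_sub, map_mul, map_mul, ← Polynomial.aeval_algHom_apply, aeval_X, h3, h4, mul_zero,
        zero_mul, sub_zero, Polynomial.coe_aeval_eq_eval] at h2
      exact h2)) D fun z _ => by
      obtain ⟨Y, hY, hY'⟩ := tajar_vert hF z
      refine le_trans (Finset.card_le_card_of_injOn (fun x => x 1) (fun x hx => ?_) ?_) hY
      · obtain ⟨h2, h3⟩ := Finset.mem_filter.1 (Finset.mem_coe.1 hx)
        refine hY' _ ?_
        rw [← h3, tajar_eta]
        exact (hT x h2).1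
      · intro x hx y hy hxy
        have h2 := (Finset.mem_filter.1 (Finset.mem_coe.1 hx)).2
        have h3 := (Finset.mem_filter.1 (Finset.mem_coe.1 hy)).2
        rw [← tajar_eta x, ← tajar_eta y, h2, h3, show x 1 = y 1 from hxy]
  calc T.card ≤ D * Z.card := h1
    _ ≤ D * D ^ 2 := Nat.mul_le_mul_left _ hZ
    _ = D ^ 3 := by ring

private lemma tajar_all (p : Pl Ω F D) (hF : Mon F D) {ξ : Fin 2 → ℂ} (h : F ∣ tr ξ F) (t : ℂ) :
    F ∣ tr (t • ξ) F := by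
  have hk : ∀ k : ℕ, F ∣ tr ((k : ℂ) • ξ) F := by
    intro k
    induction k with
    | zero => rw [Nat.cast_zero, zero_smul, tr_zero]
    | succ k ih =>
      rw [Nat.cast_succ, add_smul, one_smul, ← tr_tr]
      exact ih.trans (map_dvd _ h)
  let i : Fin D := ⟨0, hF.1⟩
  have h0 : lr (p.c i) ξ F = 0 := by
    refine Polynomial.eq_zero_of_infinite_isRoot _ (Set.infinite_of_injective_forall_mem
      (f := fun k : ℕ => algebraMap ℂ Ω (k : ℂ)) (fun a b hab => ?_) fun k => ?_)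
    · exact Nat.cast_injective (R := ℂ) ((algebraMap ℂ Ω).injective hab)
    · change (lr (p.c i) ξ F).eval (algebraMap ℂ Ω (k : ℂ)) = 0
      rw [lr_eval]
      exact (p.ker i _).2 (hk k)
  refine (p.ker i _).1 ?_
  rw [← lr_eval, h0, Polynomial.eval_zero]

private lemma tajar_wv (m : ℤ × ℤ) : wv m = (2 * Real.pi * Complex.I : ℂ) • cz m := by
  ext j
  fin_cases j <;> simp [wv, cz, wm]

private lemma tajar_cz_inj : Function.Injective cz := fun m n h => by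
  have h0 : (m.1 : ℂ) = n.1 := congrFun h 0
  have h1 : (m.2 : ℂ) = n.2 := congrFun h 1
  exact Prod.ext (by exact_mod_cast h0) (by exact_mod_cast h1)

private lemma tajar_cz_add (m n : ℤ × ℤ) : cz (m + n) = cz m + cz n := by
  ext j
  fin_cases j <;> simp [cz]

private lemma tajar_lines (hF : Mon F D) {ρ : ℕ} (hρ : 1 ≤ ρ) (hN : NL F ρ) (R : ℕ) {v : ℤ × ℤ}
    (hv : v ≠ 0) (h : ∀ t : ℂ, F ∣ tr (t • cz v) F) (T : Finset (ℤ × ℤ)) (hT : T ⊆ box R)
    (τ : Fin 2 → ℂ) (hz : ∀ m ∈ T, eval (τ - wv m) F = 0) : T.card ≤ D * (2 * R / ρ + 1) := by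
  classical
  have hpar : ∀ θ : ℤ × ℤ, θ ≠ 0 → Sml ρ θ → ∀ s : ℂ, cz θ ≠ s • cz v := fun θ h0 h1 s hs =>
    hN θ h0 h1 fun t => by
      rw [hs, smul_smul]
      exact h _
  have hv1 : (v.1 : ℂ) ≠ 0 := fun h0 => by
    have hv2 : (v.2 : ℂ) ≠ 0 := fun h1 =>
      hv (Prod.ext (by exact_mod_cast h0) (by exact_mod_cast h1))
    refine hpar (0, 1) (by simp) ⟨by simp, by simpa using hρ⟩ (v.2 : ℂ)⁻¹ ?_
    ext j
    fin_cases j <;> simp [cz, h0, hv2]
  have hc : (2 * Real.pi * Complex.I : ℂ) ≠ 0 := Complex.two_pi_I_ne_zero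
  obtain ⟨a, ha⟩ : ∃ a : ℂ, (v.2 : ℂ) = a * v.1 := ⟨v.2 / v.1, by field_simp⟩
  obtain ⟨Y, hY, hY'⟩ := tajar_vert hF 0
  have h1 := Finset.card_le_mul_card_image_of_maps_to
    (f := fun m : ℤ × ℤ => (m.2 : ℂ) - a * m.1) (s := T)
    (t := Y.image fun y => (τ 1 - a * τ 0 - y) / (2 * Real.pi * Complex.I)) (fun m hm => by
      refine Finset.mem_image.2 ⟨τ 1 - a * τ 0 - 2 * Real.pi * Complex.I * (m.2 - a * m.1),
        hY' _ ?_, by field_simp; ring⟩
      obtain ⟨x, hx⟩ : ∃ x, x = τ - wv m := ⟨_, rfl⟩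
      have hx0 : x 0 = τ 0 - 2 * Real.pi * Complex.I * m.1 := by rw [hx]; rfl
      have hx1 : x 1 = τ 1 - 2 * Real.pi * Complex.I * m.2 := by rw [hx]; rfl
      obtain ⟨w, hw⟩ := h (-(x 0) / v.1)
      have h2 := congrArg (eval x) hw
      have h3 : eval x F = 0 := by rw [hx]; exact hz m hm
      rw [map_mul, h3, zero_mul, eval_tr, ← tajar_eta (x + (-(x 0) / v.1) • cz v)] at h2
      have e0 : (x + (-(x 0) / v.1) • cz v) 0 = 0 := by
        change x 0 + -(x 0) / v.1 * v.1 = 0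
        rw [div_mul_cancel₀ _ hv1, add_neg_cancel]
      have e1 : (x + (-(x 0) / v.1) • cz v) 1 =
          τ 1 - a * τ 0 - 2 * Real.pi * Complex.I * (m.2 - a * m.1) := by
        change x 1 + -(x 0) / v.1 * v.2 = _
        rw [ha, mul_comm a, ← mul_assoc, div_mul_cancel₀ _ hv1, hx0, hx1]
        ring
      rwa [e0, e1] at h2) (2 * R / ρ + 1) fun z _ => by
      refine le_trans (Finset.card_le_card (Finset.filter_subset_filter _ hT)) ?_
      convert card_line hρ R (a := a) (fun θ h0 h1 h2 => hpar θ h0 h1 (θ.1 / v.1) ?_) z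
      ext j
      fin_cases j
      · simp [cz, hv1]
      · simp [cz, h2, ha]
        field_simp
  rw [mul_comm]
  exact h1.trans (Nat.mul_le_mul_left _ (Finset.card_image_le.trans hY))

private lemma tajar_sub (hF : Mon F D) (τ : Fin 2 → ℂ) :
    ∃ f : S, f ≠ 0 ∧ f ∈ Vp D ∧ ∀ m, eval (cz m) f = eval (τ - wv m) F := by
  have hc : (2 * Real.pi * Complex.I : ℂ) ≠ 0 := Complex.two_pi_I_ne_zero
  let φ : S →ₐ[ℂ] S := aeval fun j => C (τ j) - (2 * Real.pi * Complex.I : ℂ) • X j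
  have hφ : ∀ (x : Fin 2 → ℂ) (G : S),
      eval x (φ G) = eval (τ - (2 * Real.pi * Complex.I : ℂ) • x) G := fun x G => by
    have e : (aeval x).comp φ = aeval (τ - (2 * Real.pi * Complex.I : ℂ) • x) :=
      MvPolynomial.algHom_ext fun j => by simp [φ]
    exact DFunLike.congr_fun e G
  have hX : ∀ j, φ (X j) ∈ Vp 1 := fun j => by
    rw [show φ (X j) = C (τ j) - (2 * Real.pi * Complex.I : ℂ) • X j from aeval_X _ _]
    exact sub_mem (C_mem_Vp _ _) (Submodule.smul_mem _ _ (X_mem_Vp j))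
  refine ⟨φ F, fun h0 => ?_, ?_, fun m => by rw [hφ, tajar_wv]⟩
  · have h1 : F = 0 := MvPolynomial.funext fun x => by
      have h2 := hφ ((2 * Real.pi * Complex.I : ℂ)⁻¹ • (τ - x)) F
      rw [h0, smul_smul, mul_inv_cancel₀ hc, one_smul, sub_sub_cancel] at h2
      rw [← h2, map_zero, map_zero]
    have h2 := hF.2.2.1.ne_zero
    rw [h1] at h2
    exact h2 (map_zero _)
  · have h1 : Vp D ≤ (Vp D).comap φ.toLinearMap := Vp_le fun i j hij => by
      change φ (X 0 ^ i * X 1 ^ j) ∈ Vp D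
      rw [map_mul, map_pow, map_pow]
      exact Vp_mono (by omega) (Vp_mul (Vp_pow (hX 0) i) (Vp_pow (hX 1) j))
    exact h1 (mem_Vp.2 hF.2.1)

theorem card_thr (p : Pl Ω F D) (hF : Mon F D) {ρ : ℕ} (hρ : 1 ≤ ρ) (hN : NL F ρ) (R : ℕ) {ℓ : ℕ}
    (hℓ : ℓ.Prime) (W : Finset (ℤ × ℤ)) (hW : W ⊆ box R) (τ : Fin 2 → ℂ) :
    (thr F W τ).card ≤ jj D ρ R ℓ := by
  classical
  have hc : (2 * Real.pi * Complex.I : ℂ) ≠ 0 := Complex.two_pi_I_ne_zero
  have hmem : ∀ m ∈ thr F W τ, m ∈ W ∧ eval (τ - wv m) F = 0 := fun m hm => by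
    simpa [thr] using hm
  have hT : thr F W τ ⊆ box R := fun m hm => hW (hmem m hm).1
  unfold jj
  by_cases hv : ∃ v : ℤ × ℤ, v ≠ 0 ∧ F ∣ tr (-wv v) F
  · obtain ⟨v, hv, h⟩ := hv
    refine le_trans (tajar_lines hF hρ hN R hv (fun t => ?_) _ hT τ fun m hm => (hmem m hm).2)
      (Nat.le_add_left _ _)
    have h1 := tajar_all p hF h (-t / (2 * Real.pi * Complex.I))
    rwa [tajar_wv, ← neg_smul, smul_smul, mul_neg, div_mul_cancel₀ _ hc, neg_neg] at h1
  · obtain ⟨f, hf, hfD, hfe⟩ := tajar_sub hF τ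
    refine le_trans (card_diff hℓ.one_le _ hT
      (card_classes hf hfD hℓ _ fun m hm => (hfe m).trans (hmem m hm).2) fun v h0 => ?_)
      (Nat.le_add_right _ _)
    have hinj : Function.Injective fun m : ℤ × ℤ => τ - wv m := fun m n h => by
      have h1 : wv m = wv n := sub_right_injective h
      rw [tajar_wv, tajar_wv] at h1
      exact tajar_cz_inj (smul_right_injective _ hc h1)
    rw [← Finset.card_image_of_injective _ hinj]
    refine card_inter p hF (tr_Vp (-wv v) (mem_Vp.2 hF.2.1)) (fun h => hv ⟨v, h0, h⟩) _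
      fun x hx => ?_
    obtain ⟨m, hm, rfl⟩ := Finset.mem_image.1 hx
    obtain ⟨h1, h2⟩ := Finset.mem_filter.1 hm
    refine ⟨(hmem m h1).2, ?_⟩
    have h3 := (hmem _ h2).2
    rw [tajar_wv, tajar_cz_add, smul_add, ← tajar_wv, ← tajar_wv, ← sub_sub, sub_eq_add_neg] at h3
    rw [eval_tr, h3]

end Pool.Agent.Lib.MP_1f047c_nt.TA
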