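import Pool.Agent.Lib.MP_1f047c_nt.TAGB
import Pool.Agent.Lib.MP_1f047c_nt.TAJar

/-! Construction of the multipliers. -/

open Finset MvPolynomial

namespace Pool.Agent.Lib.MP_1f047c_nt.TA

open PL (wm)

section Aux

variable {Ω : Type} [Field Ω] [Algebra ℂ Ω] {F : S} {D : ℕ} (p : Pl Ω F D)

lemma mult_two_pi : (2 * Real.pi * Complex.I : ℂ) ≠ 0 := Complex.two_pi_I_ne_zero

lemma mult_wm_inj : Function.Injective wm := fun a b h => by
  have := mul_left_cancel₀ mult_two_pi h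
  exact_mod_cast this

lemma mult_cls (ρ : ℕ) : ∃ t ≤ D, ∃ (θ : Fin t → ℤ × ℤ) (α : Fin t → ℂ)
    (cls : Fin D → Option (Fin t)),
    (∀ τ, θ τ ≠ 0 ∧ Sml ρ (θ τ) ∧ ((θ τ).2 : ℂ) = α τ * (θ τ).1) ∧
    (∀ i τ, cls i = some τ ↔ p.a i = α τ) ∧
    ∀ i, cls i = none → ∀ θ' : ℤ × ℤ, θ' ≠ 0 → Sml ρ θ' → (θ'.2 : ℂ) ≠ p.a i * θ'.1 := by
  classical
  set A := (univ.image p.a).filter
    fun a => ∃ θ : ℤ × ℤ, θ ≠ 0 ∧ Sml ρ θ ∧ (θ.2 : ℂ) = a * θ.1 with hA
  have h1 : A.card ≤ D := (card_filter_le _ _).trans (card_image_le.trans (by simp))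
  choose θ hθ using fun τ : Fin A.card => (mem_filter.1 (A.equivFin.symm τ).2).2
  refine ⟨A.card, h1, θ, fun τ => A.equivFin.symm τ,
    fun i => if h : p.a i ∈ A then some (A.equivFin ⟨_, h⟩) else none, hθ, fun i τ => ?_,
    fun i hi θ' h2 h3 h4 => ?_⟩
  · constructor
    · intro h
      dsimp only at h ⊢
      split_ifs at h with h2
      rw [← Option.some.inj h, Equiv.symm_apply_apply]
    · intro h
      dsimp only at h ⊢
      rw [dif_pos (h ▸ (A.equivFin.symm τ).2)]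
      simp [h]
  · dsimp only at hi
    rw [dif_pos (mem_filter.2 ⟨mem_image_of_mem _ (mem_univ i), θ', h2, h3, h4⟩)] at hi
    cases hi

lemma mult_fst_ne {θ : ℤ × ℤ} {a : ℂ} (h : θ ≠ 0) (h' : (θ.2 : ℂ) = a * θ.1) : θ.1 ≠ 0 := by
  intro h0
  rw [h0, Int.cast_zero, mul_zero, Int.cast_eq_zero] at h'
  exact h (Prod.ext h0 h')

lemma mult_cz {θ : ℤ × ℤ} {i : Fin D} (h : (θ.2 : ℂ) = p.a i * θ.1) :
    cz θ = (θ.1 : ℂ) • p.dir i := by
  funext j
  fin_cases j <;> simp [cz, Pl.dir, h, mul_comm]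

lemma mult_dot {θ : ℤ × ℤ} {i : Fin D} (h : (θ.2 : ℂ) = p.a i * θ.1) (ξ : Fin 2 → ℂ) :
    dotC (cz (perp θ)) ξ = θ.1 * p.ell i ξ := by
  simp only [dotC, cz, perp, Pl.ell, Matrix.cons_val_zero, Matrix.cons_val_one, Int.cast_neg, h]
  ring

lemma mult_ell_add (i : Fin D) (ξ η : Fin 2 → ℂ) : p.ell i (ξ + η) = p.ell i ξ + p.ell i η := by
  simp only [Pl.ell, Pi.add_apply]
  ring

lemma mult_ell_wv (i : Fin D) (m : ℤ × ℤ) :
    p.ell i (-wv m) = -(2 * Real.pi * Complex.I) * ((m.2 : ℂ) - p.a i * m.1) := by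
  simp only [Pl.ell, wv, wm, Pi.neg_apply, Matrix.cons_val_zero, Matrix.cons_val_one]
  ring

lemma mult_eq_dir {i : Fin D} {ξ : Fin 2 → ℂ} (h : p.ell i ξ = 0) : ξ = ξ 0 • p.dir i := by
  funext j
  fin_cases j <;> simp [Pl.dir, sub_eq_zero.1 h, mul_comm]

lemma mult_line_inj (i : Fin D) {m m' : ℤ × ℤ} (h : p.ell i (-wv m) = 0)
    (h' : p.ell i (-wv m') = 0) (h1 : m.1 = m'.1) : m = m' := by
  rw [mult_ell_wv, mul_eq_zero, or_iff_right (neg_ne_zero.2 mult_two_pi), sub_eq_zero] at h h'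
  refine Prod.ext h1 ?_
  rw [h1, ← h'] at h
  exact_mod_cast h

lemma mult_xi (Z : Fin D → Finset ℂ) (a z : ℂ) (h : ∀ i, p.a i = a → z ∉ Z i) :
    ∃ ξ : Fin 2 → ℂ, (∀ i, p.a i = a → p.ell i ξ = z) ∧ ∀ i, p.ell i ξ ∉ Z i := by
  classical
  obtain ⟨t, ht⟩ := Infinite.exists_notMem_finset
    (univ.biUnion fun i => (Z i).image fun y => (y - z) / (a - p.a i))
  have h1 : ∀ i, p.ell i ![t, z + a * t] = z + (a - p.a i) * t := fun i => by
    simp only [Pl.ell, Matrix.cons_val_zero, Matrix.cons_val_one]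
    ring
  refine ⟨![t, z + a * t], fun i hi => by simp [h1, hi], fun i hi => ?_⟩
  rw [h1] at hi
  by_cases h2 : p.a i = a
  · exact h i h2 (by simpa [h2] using hi)
  · refine ht (mem_biUnion.2 ⟨i, mem_univ _, mem_image.2 ⟨_, hi, ?_⟩⟩)
    have h3 : a - p.a i ≠ 0 := sub_ne_zero.2 (Ne.symm h2)
    field_simp
    ring

lemma mult_gb_drop {ι : Type} {i : Fin D} (s : Finset ι) (f : ι → S) (g c : ℚ) {j₀ : ι}
    (h₀ : j₀ ∈ s) (h : ∀ j ∈ s, f j ∈ p.GB i g) (h' : f j₀ ∈ p.GB i (g - c)) :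
    ∏ j ∈ s, f j ∈ p.GB i (s.card * g - c) := by
  classical
  have h1 := p.gb_mul h' (p.gb_prod (s.erase j₀) f (fun _ => g) fun j hj => h j (mem_of_mem_erase hj))
  rw [mul_prod_erase s f h₀] at h1
  refine p.GB_mono i (le_of_eq ?_) h1
  rw [sum_const, nsmul_eq_mul, ← card_erase_add_one h₀]
  push_cast
  ring

lemma mult_lb_drop {ι : Type} {i : Fin D} (s : Finset ι) (f : ι → S) (g c : ℚ) {j₀ : ι}
    (h₀ : j₀ ∈ s) (h : ∀ j ∈ s, f j ∈ p.LB i g) (h' : f j₀ ∈ p.LB i (g - c)) :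
    ∏ j ∈ s, f j ∈ p.LB i (s.card * g - c) := by
  classical
  have h1 := p.lb_mul h' (p.lb_prod (s.erase j₀) f (fun _ => g) fun j hj => h j (mem_of_mem_erase hj))
  rw [mul_prod_erase s f h₀] at h1
  refine p.LB_mono i (le_of_eq ?_) h1
  rw [sum_const, nsmul_eq_mul, ← card_erase_add_one h₀]
  push_cast
  ring

open Classical in
lemma mult_card_none {ρ : ℕ} (hρ : 1 ≤ ρ) (R : ℕ) {i : Fin D}
    (ha : ∀ θ : ℤ × ℤ, θ ≠ 0 → Sml ρ θ → (θ.2 : ℂ) ≠ p.a i * θ.1) (Z : Finset ℂ) :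
    ((box R).filter fun m => p.ell i (-wv m) ∈ Z).card ≤ Z.card * (2 * R / ρ + 1) := by
  refine (card_le_card (t := Z.biUnion fun z => (box R).filter
    fun m => (m.2 : ℂ) - p.a i * m.1 = z / -(2 * Real.pi * Complex.I)) fun m hm => ?_).trans
    (card_biUnion_le_card_mul _ _ _ fun z _ => card_line hρ R ha _)
  obtain ⟨h1, h2⟩ := mem_filter.1 hm
  refine mem_biUnion.2 ⟨_, h2, mem_filter.2 ⟨h1, ?_⟩⟩
  rw [mult_ell_wv, mul_div_cancel_left₀ _ (neg_ne_zero.2 mult_two_pi)]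

open Classical in
lemma mult_card_zero (R : ℕ) (i : Fin D) :
    ((box R).filter fun m => p.ell i (-wv m) = 0).card ≤ 2 * R + 1 := by
  refine (card_le_card_of_injOn (t := Icc (-(R : ℤ)) R) Prod.fst
    (fun m hm => (mem_product.1 (mem_filter.1 hm).1).1)
    fun m hm m' hm' h => mult_line_inj p i (mem_filter.1 hm).2 (mem_filter.1 hm').2 h).trans ?_
  rw [Int.card_Icc]
  omega

open Classical in
lemma mult_card_some (R : ℕ) (i : Fin D) (Z : Finset ℂ) :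
    ((box R).filter fun m => p.ell i (-wv m) = 0 ∧ -wm m.1 ∈ Z).card ≤ Z.card :=
  card_le_card_of_injOn (fun m => -wm m.1) (fun _ hm => (mem_filter.1 hm).2.2)
    fun _ hm _ hm' h => mult_line_inj p i (mem_filter.1 hm).2.1 (mem_filter.1 hm').2.1
      (mult_wm_inj (neg_injective h))

lemma mult_lin_Vp (a : ℂ) : (X 1 - C a * X 0 : S) ∈ Vp 1 :=
  sub_mem (X_mem_Vp 1) (by simpa using Vp_mul (C_mem_Vp a 0) (X_mem_Vp 0))

/-- The product of the translates indexed by `W`. -/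
lemma mult_prF (R : ℕ) {i : Fin D} {g l : ℚ} {Z Z' : Finset ℂ} (P : Prop) (hg : g ≤ D)
    (h1 : F ∈ p.GB i g) (h2 : ∀ ξ, p.ell i ξ ∉ Z → p.EX i g (tr ξ F))
    (h3 : P → (D : ℚ) - D ^ 2 ≤ l ∧ F ∈ p.LB i l ∧
      ∀ t : ℂ, t ∉ Z' → Exa p.o l (aeval (p.c i) (tr (t • p.dir i) F)))
    {W : Finset (ℤ × ℤ)} (hW : ∀ m ∈ W, m ∈ box R ∧
      (p.ell i (-wv m) ∉ Z ∨ (P ∧ p.ell i (-wv m) = 0 ∧ -wm m.1 ∉ Z'))) :
    ∃ q : ℚ, Exa p.o q (aeval (p.c i) (prF F W)) ∧ prF F W ∈ p.LB i q ∧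
      prF F W ∈ p.GB i (W.card * g) ∧ W.card * g ≤ q + (D ^ 2 * (2 * R + 1) : ℕ) ∧
      (¬ P → W.card * g = q) := by
  classical
  refine ⟨∑ m ∈ W, if p.ell i (-wv m) ∈ Z then l else g, ?_, ?_, ?_, ?_, fun hP => ?_⟩
  · rw [prF, map_prod]
    refine Exa.prod _ _ _ fun m hm => ?_
    split_ifs with h
    · obtain ⟨h4, h5, h6⟩ := (hW m hm).2.resolve_left (not_not.2 h)
      rw [mult_eq_dir p h5]
      exact (h3 h4).2.2 _ h6
    · exact (h2 _ h).exa
  · refine p.lb_prod _ _ _ fun m hm => ?_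
    split_ifs with h
    · obtain ⟨h4, h5, -⟩ := (hW m hm).2.resolve_left (not_not.2 h)
      exact p.lb_tr (h3 h4).2.1 h5
    · exact (h2 _ h).lb
  · simpa only [sum_const, nsmul_eq_mul, prF] using
      p.gb_prod W (fun m => tr (-wv m) F) (fun _ => g) fun m _ => p.gb_tr h1 _
  · have h4 : ∑ m ∈ W, g ≤ ∑ m ∈ W, ((if p.ell i (-wv m) ∈ Z then l else g) +
        if p.ell i (-wv m) = 0 then (D : ℚ) ^ 2 else 0) := by
      refine sum_le_sum fun m hm => ?_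
      by_cases h : p.ell i (-wv m) ∈ Z
      · obtain ⟨h4, h5, -⟩ := (hW m hm).2.resolve_left (not_not.2 h)
        rw [if_pos h, if_pos h5]
        linarith [(h3 h4).1]
      · rw [if_neg h]
        split_ifs
        · linarith [sq_nonneg (D : ℚ)]
        · linarith
    rw [sum_const, nsmul_eq_mul, sum_add_distrib, ← sum_filter, sum_const, nsmul_eq_mul] at h4
    have h5 : ((W.filter fun m => p.ell i (-wv m) = 0).card : ℚ) ≤ (2 * R + 1 : ℕ) := by
      exact_mod_cast (card_le_card (filter_subset_filter _ fun m hm => (hW m hm).1)).trans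
        (mult_card_zero p R i)
    have h6 := mul_le_mul_of_nonneg_right h5 (sq_nonneg (D : ℚ))
    push_cast at h6 ⊢
    linarith
  · rw [sum_congr rfl fun m hm => if_neg ((hW m hm).2.resolve_right fun h => hP h.1), sum_const,
      nsmul_eq_mul]

end Aux

theorem exists_mult (D ρ R s : ℕ) (hρ : 1 ≤ ρ) : ∃ e : ℕ, ∀ (Ω : Type) [Field Ω] [Algebra ℂ Ω]
    (F : S) (p : Pl Ω F D), Mon F D → NL F ρ → Nonempty (Mult p ρ R s e) := by
  classical
  set x := D ^ 2 * (2 * R + 1) with hx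
  set N := D.factorial * (s + x) with hN
  set Q := D.factorial * s with hQ
  set dV := D * (4 * ρ * R + 1) * (N * D) with hdV
  refine ⟨D * (2 * R + 1) ^ 2 + dV + x + D * Q, fun Ω _ _ F p hF hNL => ?_⟩
  obtain ⟨t, ht, θ, α, cls, hθ, hcls, hnone⟩ := mult_cls p ρ
  have hθ1 : ∀ τ, (θ τ).1 ≠ 0 := fun τ => mult_fst_ne (hθ τ).1 (hθ τ).2.2
  have hθ1' : ∀ τ, ((θ τ).1 : ℂ) ≠ 0 := fun τ => Int.cast_ne_zero.2 (hθ1 τ)
  have hsl : ∀ {i τ}, cls i = some τ → ((θ τ).2 : ℂ) = p.a i * (θ τ).1 := fun {i τ} h => by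
    rw [(hcls i τ).1 h, (hθ τ).2.2]
  choose g Z hZ hg0 hgD hgb hex hlb using p.exists_g hF
  have hl : ∀ i, ∃ (l : ℚ) (Z' : Finset ℂ), cls i ≠ none → Z'.card ≤ D ∧ (D : ℚ) - D ^ 2 ≤ l ∧
      F ∈ p.LB i l ∧ ∀ t : ℂ, t ∉ Z' → Exa p.o l (aeval (p.c i) (tr (t • p.dir i) F)) := by
    intro i
    rcases h : cls i with _ | τ
    · exact ⟨0, ∅, fun h => absurd rfl h⟩
    · obtain ⟨l, Z', h1⟩ := p.exists_l hF i fun h2 => hNL (θ τ) (hθ τ).1 (hθ τ).2.1 fun u => by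
        rw [mult_cz p (hsl h), smul_smul]
        exact h2 _
      exact ⟨l, Z', fun _ => h1⟩
  choose l Z' hl using hl
  set K : Fin t → Finset ℤ := fun τ => (Icc (-(2 * ρ * R : ℤ)) (2 * ρ * R)).filter
    fun k => k ≠ 0 ∧ ∃ i, cls i = some τ ∧ -wm k / (θ τ).1 ∈ Z i with hK
  set W := (box R).filter fun m => m ≠ 0 ∧ ∀ i, p.ell i (-wv m) ∉ Z i ∨
    (cls i ≠ none ∧ p.ell i (-wv m) = 0 ∧ -wm m.1 ∉ Z' i) with hW
  set S0 := (box R).filter fun m => m ≠ 0 ∧ m ∉ W ∧ ¬ ∃ τ, dotZ (perp (θ τ)) m ∈ K τ with hS0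
  set Ix := (univ ×ˢ Icc (-(2 * ρ * R : ℤ)) (2 * ρ * R)).filter
    fun y : Fin t × ℤ => y.2 ≠ 0 ∧ y.2 ∉ K y.1 with hIx
  have hξ : ∀ y : Fin t × ℤ, ∃ ξ : Fin 2 → ℂ, y ∈ Ix →
      (∀ i, cls i = some y.1 → p.ell i ξ = -wm y.2 / (θ y.1).1) ∧ ∀ i, p.ell i ξ ∉ Z i := by
    intro y
    by_cases hy : y ∈ Ix
    · obtain ⟨h1, h2, h3⟩ := mem_filter.1 hy
      obtain ⟨ξ, h4, h5⟩ := mult_xi p Z (α y.1) (-wm y.2 / (θ y.1).1) fun i hi h4 =>
        h3 (mem_filter.2 ⟨(mem_product.1 h1).2, h2, i, (hcls _ _).2 hi, h4⟩)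
      exact ⟨ξ, fun _ => ⟨fun i hi => h4 i ((hcls _ _).1 hi), h5⟩⟩
    · exact ⟨0, fun h => absurd h hy⟩
  choose ξ hξ using hξ
  set VV : S := ∏ y ∈ Ix, tr (ξ y) F ^ N with hVV
  have hIc : Ix.card ≤ D * (4 * ρ * R + 1) := by
    refine (card_filter_le _ _).trans ?_
    rw [card_product, card_univ, Fintype.card_fin, Int.card_Icc]
    refine Nat.mul_le_mul ht (Int.toNat_le.2 (le_of_eq ?_))
    push_cast
    ring
  have hVd : VV ∈ Vp dV := Vp_mono (Nat.mul_le_mul_right _ hIc)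
    (Vp_prod Ix _ fun y _ => Vp_pow (tr_Vp _ (mem_Vp.2 hF.2.1)) N)
  set V : Fin D → ℚ := fun i => Ix.card * (N * g i) with hV
  have hV0 : ∀ i, 0 ≤ V i := fun i => by have := hg0 i; positivity
  have hVex : ∀ i, p.EX i (V i) VV := fun i => by
    simpa only [sum_const, nsmul_eq_mul] using p.ex_prod Ix (fun y => tr (ξ y) F ^ N)
      (fun _ => N * g i) fun y hy => p.ex_pow (hex i _ ((hξ y hy).2 i)) N
  have hVgb : ∀ i, VV ∈ p.GB i (V i) := fun i => by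
    simpa only [sum_const, nsmul_eq_mul] using p.gb_prod Ix (fun y => tr (ξ y) F ^ N)
      (fun _ => N * g i) fun y _ => p.gb_pow (p.gb_tr (hgb i) _) N
  have hVn : ∀ i τ, cls i = some τ → ∀ k : ℤ, k ≠ 0 → |k| ≤ 2 * ρ * R → k ∉ K τ →
      ∀ η, dotC (cz (perp (θ τ))) η = wm k → tr η VV ∈ p.LB i (V i - (s + x : ℕ)) := by
    intro i τ hi k h1 h2 h3 η h4
    have h5 : (τ, k) ∈ Ix :=
      mem_filter.2 ⟨mem_product.2 ⟨mem_univ _, mem_Icc.2 (abs_le.1 h2)⟩, h1, h3⟩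
    rw [hVV, map_prod]
    refine mult_lb_drop p Ix _ _ _ h5
      (fun y _ => p.GB_le_LB i _ (p.gb_tr (p.gb_pow (p.gb_tr (hgb i) _) N) _)) ?_
    rw [map_pow, tr_tr, ← del_mul D (s + x), ← mul_sub]
    refine p.lb_pow (hlb i _ ?_) _
    have h6 := hθ1' τ
    rw [mult_ell_add, (hξ _ h5).1 i hi, ← h4, mult_dot p (hsl hi)]
    field_simp
    ring
  choose q hq1 hq2 hq3 hq4 hq5 using fun i => mult_prF p R (cls i ≠ none) (hgD i) (hgb i) (hex i)
    (fun h => (hl i h).2) (W := W) fun m hm => ⟨(mem_filter.1 hm).1, (mem_filter.1 hm).2.2 i⟩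
  have hXe : ∀ i (n : ℕ), p.EX i n (X 0 ^ n) := fun i n => by
    simpa only [mul_one] using p.ex_pow (p.ex_X i) n
  have hXV : ∀ n : ℕ, (X 0 ^ n : S) ∈ Vp n := fun n => by
    simpa only [mul_one] using Vp_pow (X_mem_Vp 0) n
  set lam : Fin t → Fin t → S := fun τ τ' => if τ' = τ then X 0 else X 1 - C (α τ') * X 0 with hlam
  have hlV : ∀ τ τ', lam τ τ' ^ Q ∈ Vp Q := fun τ τ' => by
    have h1 : lam τ τ' ∈ Vp 1 := by
      simp only [hlam]
      split_ifs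
      exacts [X_mem_Vp 0, mult_lin_Vp _]
    simpa only [mul_one] using Vp_pow h1 Q
  have hlP : ∀ τ, ∏ τ', lam τ τ' ^ Q ∈ Vp (t * Q) := fun τ => by
    simpa only [card_univ, Fintype.card_fin] using Vp_prod univ _ fun τ' _ => hlV τ τ'
  have htQ : t * Q ≤ D * Q := Nat.mul_le_mul_right _ ht
  exact ⟨{
    t := t
    ht := ht
    θ := θ
    cls := cls
    θ_ne := fun τ => (hθ τ).1
    θ_sml := fun τ => (hθ τ).2.1
    cls_dir := fun i τ h => ⟨hθ1 τ, mult_cz p (hsl h)⟩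
    K := K
    K_card := fun τ => by
      refine (card_le_card (t := univ.biUnion fun i => (K τ).filter
        fun k => -wm k / (θ τ).1 ∈ Z i) fun k hk => ?_).trans
        ((card_biUnion_le_card_mul _ _ D fun i _ => ?_).trans (by simp [sq]))
      · obtain ⟨-, -, i, -, h⟩ := mem_filter.1 hk
        exact mem_biUnion.2 ⟨i, mem_univ _, mem_filter.2 ⟨hk, h⟩⟩
      · exact (card_le_card_of_injOn (fun k => -wm k / (θ τ).1) (fun k hk => (mem_filter.1 hk).2)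
          fun k _ k' _ h => mult_wm_inj (neg_injective ((div_left_inj' (hθ1' τ)).1 h))).trans (hZ i)
    K_mem := fun τ k hk =>
      ⟨(mem_filter.1 hk).2.1, abs_le.2 (mem_Icc.1 (mem_filter.1 hk).1)⟩
    W := W
    S0 := S0
    W_mem := fun m hm => ⟨(mem_filter.1 hm).1, (mem_filter.1 hm).2.1⟩
    S0_mem := fun m hm => ⟨(mem_filter.1 hm).1, (mem_filter.1 hm).2.1⟩
    S0_card := by
      refine (card_le_card (t := univ.biUnion fun i => if cls i = none then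
        (box R).filter fun m => p.ell i (-wv m) ∈ Z i else
        (box R).filter fun m => p.ell i (-wv m) = 0 ∧ -wm m.1 ∈ Z' i) fun m hm => ?_).trans
        ((card_biUnion_le_card_mul _ _ (D * (2 * R / ρ + 1)) fun i _ => ?_).trans
          (by simp [sq, mul_assoc]))
      · obtain ⟨h1, h2, h3, h4⟩ := mem_filter.1 hm
        have h5 : ¬ ∀ i, p.ell i (-wv m) ∉ Z i ∨
            (cls i ≠ none ∧ p.ell i (-wv m) = 0 ∧ -wm m.1 ∉ Z' i) :=
          fun h => h3 (mem_filter.2 ⟨h1, h2, h⟩)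
        obtain ⟨i, h6⟩ := not_forall.1 h5
        obtain ⟨h7, h8⟩ := not_or.1 h6
        refine mem_biUnion.2 ⟨i, mem_univ _, ?_⟩
        split_ifs with h9
        · exact mem_filter.2 ⟨h1, not_not.1 h7⟩
        · obtain ⟨τ, hτ⟩ := Option.ne_none_iff_exists'.1 h9
          have h10 : p.ell i (-wv m) = -wm (dotZ (perp (θ τ)) m) / (θ τ).1 := by
            have h11 := hθ1' τ
            rw [← dotC_wv, mult_dot p (hsl hτ)]
            simp only [Pl.ell, Pi.neg_apply]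
            field_simp
            ring
          have h11 : p.ell i (-wv m) = 0 := by
            by_contra h11
            refine h4 ⟨τ, mem_filter.2 ⟨mem_Icc.2 (abs_le.1 (abs_dotZ
              ⟨by simpa [perp] using (hθ τ).2.1.2, (hθ τ).2.1.1⟩ h1)), fun h12 => h11 ?_,
              i, hτ, h10 ▸ not_not.1 h7⟩⟩
            rw [h10, h12]
            simp [wm]
          exact mem_filter.2 ⟨h1, h11, not_not.1 fun h12 => h8 ⟨h9, h11, h12⟩⟩
      · split_ifs with h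
        · exact (mult_card_none p hρ R (hnone i h) _).trans (Nat.mul_le_mul_right _ (hZ i))
        · exact (mult_card_some p R i _).trans
            ((hl i h).1.trans (Nat.le_mul_of_pos_right _ (Nat.succ_pos _)))
    cover := fun m h1 h2 => by
      by_cases h3 : m ∈ W
      · exact Or.inl h3
      by_cases h4 : ∃ τ, dotZ (perp (θ τ)) m ∈ K τ
      · exact Or.inr (Or.inr h4)
      · exact Or.inr (Or.inl (mem_filter.2 ⟨h1, h2, h3, h4⟩))
    M1 := VV * X 0 ^ x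
    M1_deg := Vp_mono (by omega) (Vp_mul hVd (hXV x))
    he := by omega
    π := fun i => q i + (V i + x)
    ω := fun i => V i + (t * Q : ℕ)
    π_nonneg := fun i => by
      have h1 : (0 : ℚ) ≤ W.card * g i := by have := hg0 i; positivity
      linarith [hq4 i, hV0 i]
    ω_nonneg := fun i => by have := hV0 i; positivity
    M_exa := fun i => by
      rw [map_mul]
      exact (hq1 i).mul (p.ex_mul (hVex i) (hXe i x)).exa
    M_none := fun i h =>
      p.gb_mul (hq5 i (not_not.2 h) ▸ hq3 i) (p.gb_mul (hVgb i) (p.gb_of_Vp i (hXV x)))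
    M_gb := fun i => p.GB_mono i (by linarith [hq4 i])
      (p.gb_mul (hq3 i) (p.gb_mul (hVgb i) (p.gb_of_Vp i (hXV x))))
    M_lb := fun i _ _ => p.lb_mul (hq2 i) (p.ex_mul (hVex i) (hXe i x)).lb
    M_near := fun i τ hi k h1 h2 h3 η h4 => by
      rw [map_mul, map_mul]
      refine p.LB_mono i ?_ (p.lb_mul (p.GB_le_LB i _ (p.gb_tr (hq3 i) η))
        (p.lb_mul (hVn i τ hi k h1 h2 h3 η h4) (p.GB_le_LB i _ (p.gb_tr (p.gb_of_Vp i (hXV x)) η))))
      rw [Nat.cast_add]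
      linarith [hq4 i]
    W0 := VV * X 0 ^ (t * Q)
    Wt := fun τ => VV * ∏ τ', lam τ τ' ^ Q
    W0_deg := Vp_mono (by omega) (Vp_mul hVd (hXV _))
    Wt_deg := fun τ => Vp_mono (by omega) (Vp_mul hVd (hlP τ))
    W0_exa := fun i => (p.ex_mul (hVex i) (hXe i _)).exa
    W0_gb := fun i => p.gb_mul (hVgb i) (p.gb_of_Vp i (hXV _))
    Wt_gb := fun τ i => p.gb_mul (hVgb i) (p.gb_of_Vp i (hlP τ))
    Wt_ex := fun τ i hi => by
      refine p.ex_mul (hVex i) ?_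
      have h1 : ∀ τ', p.EX i 1 (lam τ τ') := fun τ' => by
        simp only [hlam]
        split_ifs with h
        · exact p.ex_X i
        · exact p.ex_lin fun h2 => h (Option.some.inj (((hcls i τ').2 h2.symm).symm.trans hi))
      simpa using p.ex_prod univ (fun τ' => lam τ τ' ^ Q) (fun _ => Q * 1)
        fun τ' _ => p.ex_pow (h1 τ') Q
    Wt_near := fun τ i hi k h1 h2 h3 η h4 => by
      rw [map_mul]
      refine p.LB_mono i ?_ (p.lb_mul (hVn i τ hi k h1 h2 h3 η h4)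
        (p.GB_le_LB i _ (p.gb_tr (p.gb_of_Vp i (hlP τ)) η)))
      rw [Nat.cast_add]
      linarith [Nat.cast_nonneg (α := ℚ) x]
    Wt_other := fun τ τ' i hi hne => by
      rw [add_sub_assoc]
      refine p.gb_mul (hVgb i) ?_
      have h1 := mult_gb_drop p univ (fun τ'' => lam τ τ'' ^ Q) Q s (mem_univ τ')
        (fun τ'' _ => p.gb_of_Vp i (hlV τ τ'')) (by
          have h2 := p.gb_pow (p.gb_lin i) Q
          rw [mul_sub, mul_one, del_mul, (hcls i τ').1 hi] at h2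
          simpa only [hlam, if_neg hne] using h2)
      simpa using h1 }⟩

end Pool.Agent.Lib.MP_1f047c_nt.TA
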