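import Pool.Agent.Lib.MP_e2821c_ag.Cy.VDer

/-! Degrees on an algebraic closure of the rational function field. -/

open Finset Polynomial

namespace Pool.Agent.Lib.MP_1f047c_nt.TA

open CyV CyV.Ord

theorem plA_split {K : Type} [Field K] [IsAlgClosed K] {p : K[X]} {D : ℕ} (hp : p.Monic)
    (hD : p.natDegree = D) :
    ∃ η : Fin D → K, p.roots = univ.val.map η ∧ p = Lagrange.nodal univ η := by
  have hs := IsAlgClosed.splits p
  obtain ⟨l, hl⟩ := Quot.exists_rep p.roots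
  have h1 : l.length = D := by
    rw [← hD, hs.natDegree_eq_card_roots, ← hl]
    rfl
  subst h1
  have h2 : p.roots = univ.val.map l.get := by
    rw [Fin.univ_val_map, List.ofFn_get, ← hl]
    rfl
  refine ⟨l.get, h2, ?_⟩
  conv_lhs => rw [hs.eq_prod_roots_of_monic hp, h2, Multiset.map_map]
  rfl

section Ord

variable {Ω : Type} [Field Ω] {o : CyV.Ord Ω}

theorem plA_prod {ι : Type} {r : ℚ} (s : Finset ι) {f : ι → Ω} (h : ∀ i ∈ s, o.Ge r (f i)) :
    o.Ge (s.card * r) (∏ i ∈ s, f i) := by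
  classical
  induction s using Finset.induction_on with
  | empty => simpa using ge_one
  | insert a s ha ih =>
    rw [prod_insert ha, card_insert_of_notMem ha]
    refine ((h a (by simp)).mul (ih fun i hi => h i (by simp [hi]))).mono (le_of_eq ?_)
    push_cast
    ring

theorem plA_nodal {ι : Type} (s : Finset ι) {η : ι → Ω} (h : ∀ i, o.Ge (-1) (η i)) (k : ℕ) :
    o.Ge (-s.card) ((Lagrange.nodal s η).coeff k) := by
  classical
  induction s using Finset.induction_on generalizing k with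
  | empty =>
    rw [Lagrange.nodal_empty, coeff_one]
    split_ifs
    · simpa using ge_one
    · exact ge_zero _
  | insert a s ha ih =>
    rw [Lagrange.nodal_insert_eq_nodal ha, card_insert_of_notMem ha, sub_mul, coeff_sub,
      coeff_C_mul]
    refine Ge.sub ?_ (((h a).mul (ih k)).mono (le_of_eq (by push_cast; ring)))
    cases k with
    | zero => rw [coeff_X_mul_zero]; exact ge_zero _
    | succ k => rw [coeff_X_mul]; exact (ih k).mono (by push_cast; linarith)

theorem plA_slope0 {D : ℕ} (hD : 1 ≤ D) {t : Ω} {a : Fin D → Ω} (ha : ∀ i, o.Ge 0 (a i))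
    {ε : ℕ → Ω} (hε : ∀ k < D, o.Ge 1 (ε k))
    (h : ∏ i, (t - a i) = ∑ k ∈ range D, ε k * t ^ k) : ∃ i, o.Ge (1 / D) (t - a i) := by
  by_contra hc
  push Not at hc
  have h0 : ∀ i, t - a i ≠ 0 := fun i e => hc i (Or.inl e)
  have h1 : ∀ i, o.v (t - a i) < 1 / D := fun i => not_le.1 fun e => hc i (Or.inr e)
  have hP : ∏ i, (t - a i) ≠ 0 := prod_ne_zero_iff.2 fun i _ => h0 i
  have hv := o.v_prod univ (fun i => t - a i) fun i _ => h0 i
  have hD' : (0 : ℚ) < D := by exact_mod_cast hD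
  by_cases ht : o.Ge 0 t
  · have h2 : o.Ge 1 (∏ i, (t - a i)) := by
      rw [h]
      exact Ge.sum fun k hk => by simpa using (hε k (mem_range.1 hk)).mul (ht.pow₀ k)
    have h3 : ∑ i, o.v (t - a i) < ∑ _i : Fin D, (1 / D : ℚ) :=
      sum_lt_sum_of_nonempty ⟨⟨0, hD⟩, mem_univ _⟩ fun i _ => h1 i
    rw [sum_const, card_univ, Fintype.card_fin, nsmul_eq_mul, mul_one_div_cancel hD'.ne'] at h3
    linarith [h2.le hP]
  · have ht0 : t ≠ 0 := fun e => ht (Or.inl e)
    have ht1 : o.v t < 0 := not_le.1 fun e => ht (Or.inr e)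
    have h2 : ∀ i, o.v (t - a i) = o.v t := fun i => by
      rw [sub_eq_add_neg]
      exact (add_of_gt ht0 ((ha i).neg.gt ht1)).2
    have h3 : o.Gt (D * o.v t) (∏ i, (t - a i)) := by
      rw [h]
      refine Gt.sum fun k hk => ((hε k (mem_range.1 hk)).mul ((ge_self t).pow k)).gt ?_
      have : (k : ℚ) < D := by exact_mod_cast mem_range.1 hk
      nlinarith
    simp only [h2, sum_const, card_univ, Fintype.card_fin, nsmul_eq_mul] at hv
    linarith [h3.lt hP]

theorem plA_interp {D : ℕ} {η : Fin D → Ω} (hη : Function.Injective η)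
    (h1 : ∀ i, o.Ge (-1) (η i))
    (hN : ∑ i, o.v ((derivative (Lagrange.nodal univ η)).eval (η i)) ≤ 0) {r : Polynomial Ω}
    (hr : r.degree < D) {q : ℚ} (hq : ∀ i, o.Ge (-q) (r.eval (η i))) (k : ℕ) :
    o.Ge (-(q + D ^ 2)) (r.coeff k) := by
  have hc : ∀ i : Fin D, ((univ.erase i).card : ℚ) = D - 1 := fun i => by
    have := card_erase_add_one (mem_univ i)
    rw [card_univ, Fintype.card_fin] at this
    rw [eq_sub_iff_add_eq]
    exact_mod_cast this
  have hw : ∀ i, (derivative (Lagrange.nodal univ η)).eval (η i) =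
      ∏ j ∈ univ.erase i, (η i - η j) := fun i => by
    rw [Lagrange.eval_nodal_derivative_eval_node_eq (mem_univ i), Lagrange.eval_nodal]
  have hw0 : ∀ i, (derivative (Lagrange.nodal univ η)).eval (η i) ≠ 0 := fun i => by
    rw [hw]
    exact prod_ne_zero_iff.2 fun j hj => sub_ne_zero.2 fun e => (mem_erase.1 hj).1 (hη e).symm
  have hw1 : ∀ i, -(D - 1 : ℚ) ≤ o.v ((derivative (Lagrange.nodal univ η)).eval (η i)) := fun i => by
    have := plA_prod (o := o) (univ.erase i) (f := fun j => η i - η j) fun j _ => (h1 i).sub (h1 j)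
    rw [← hw, hc] at this
    linarith [this.le (hw0 i)]
  have hw2 : ∀ i, o.Ge (-(D - 1) ^ 2) (Lagrange.nodalWeight univ η i) := fun i => by
    rw [Lagrange.nodalWeight_eq_eval_derivative_nodal (mem_univ i)]
    refine Or.inr ?_
    rw [o.v_inv _ (hw0 i)]
    rw [← add_sum_erase _ _ (mem_univ i)] at hN
    have := card_nsmul_le_sum (univ.erase i) _ _ fun j _ => hw1 j
    rw [nsmul_eq_mul, hc] at this
    nlinarith
  rw [Lagrange.eq_interpolate (s := univ) (f := r) hη.injOn (by simpa using hr),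
    Lagrange.interpolate_eq_nodalWeight_mul_nodal_div_X_sub_C, finsetSum_coeff]
  refine Ge.sum fun i _ => ?_
  rw [← Lagrange.nodal_erase_eq_nodal_div (mem_univ i), coeff_mul_C, coeff_C_mul]
  refine (((hw2 i).mul (plA_nodal _ h1 k)).mul (hq i)).mono ?_
  rw [hc]
  have : (0 : ℚ) ≤ D := by positivity
  nlinarith

end Ord

section Deg

variable {Ω : Type} [Field Ω] [Algebra ℂ[X] Ω] [FaithfulSMul ℂ[X] Ω]

theorem plA_ker {f : ℂ[X][X]} (hm : f.Monic) (hi : Irreducible f) {η : Ω}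
    (h : aeval η f = 0) (g : ℂ[X][X]) : aeval η g = 0 ↔ f ∣ g := by
  have hint : IsIntegral ℂ[X] η := ⟨f, hm, h⟩
  refine ⟨fun hg => ?_, fun hg => aeval_eq_zero_of_dvd_aeval_eq_zero hg h⟩
  refine Dvd.dvd.trans ?_ (minpoly.isIntegrallyClosed_dvd hint hg)
  exact ((minpoly.irreducible hint).associated_of_dvd hi
    (minpoly.isIntegrallyClosed_dvd hint h)).symm.dvd

theorem plA_not_dvd {f : ℂ[X][X]} (hD : 1 ≤ f.natDegree) : ¬ f ∣ derivative f := by
  intro h
  have h1 : derivative f = 0 :=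
    eq_zero_of_dvd_of_natDegree_lt h (natDegree_derivative_lt (by omega))
  have := derivative_eq_zero.1 h1
  omega

omit [FaithfulSMul ℂ[X] Ω] in
theorem plA_norm [IsAlgClosed Ω] {f : ℂ[X][X]} {D : ℕ} (hm : f.Monic) (hD : f.natDegree = D)
    (h1 : 1 ≤ D) {η : Fin D → Ω} (hη : (f.map (algebraMap ℂ[X] Ω)).roots = univ.val.map η)
    (g : ℂ[X][X]) : ∃ N : ℂ[X], algebraMap ℂ[X] Ω N = ∏ i, aeval (η i) g ∧
      ∃ b, f ∣ C N - b * g := by
  refine ⟨resultant f g D g.natDegree, ?_, ?_⟩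
  · have := resultant_eq_prod_eval (f.map (algebraMap ℂ[X] Ω)) (g.map (algebraMap ℂ[X] Ω))
      g.natDegree natDegree_map_le (IsAlgClosed.splits _)
    rw [resultant_map_map, hm.natDegree_map, hD, (hm.map _).leadingCoeff, one_pow, one_mul, hη,
      Multiset.map_map] at this
    rw [this]
    simp only [Function.comp_def, eval_map_algebraMap]
    rfl
  · obtain ⟨p, q, -, -, h⟩ := exists_mul_add_mul_eq_C_resultant f g hD.le le_rfl
      (Or.inl (by omega))
    exact ⟨q, p, by rw [← h]; ring⟩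

variable {o : CyV.Ord Ω}
  (ho : ∀ r : ℂ[X], r ≠ 0 → o.v (algebraMap ℂ[X] Ω r) = -(r.natDegree : ℚ))

include ho

omit [FaithfulSMul ℂ[X] Ω] in
theorem plA_ge {r : ℂ[X]} {n : ℕ} (h : r.natDegree ≤ n) : o.Ge (-n) (algebraMap ℂ[X] Ω r) := by
  by_cases hr : r = 0
  · rw [hr, map_zero]
    exact ge_zero _
  · exact Or.inr (by rw [ho r hr]; exact neg_le_neg (by exact_mod_cast h))

theorem plA_deg {r : ℂ[X]} {n : ℕ} (h : o.Ge (-n) (algebraMap ℂ[X] Ω r)) : r.natDegree ≤ n := by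
  by_cases hr : r = 0
  · simp [hr]
  · have := h.le (alg_ne_zero hr)
    rw [ho r hr] at this
    exact_mod_cast neg_le_neg_iff.1 this

omit [FaithfulSMul ℂ[X] Ω] in
theorem plA_X : o.v (algebraMap ℂ[X] Ω X) = -1 := by simpa using ho X X_ne_zero

variable [Algebra ℂ Ω] [IsScalarTower ℂ ℂ[X] Ω]

omit [FaithfulSMul ℂ[X] Ω] in
theorem plA_const (z : ℂ) (hz : z ≠ 0) : o.v (algebraMap ℂ Ω z) = 0 := by
  rw [IsScalarTower.algebraMap_apply ℂ ℂ[X] Ω, ho _ (by simpa using hz)]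
  simp

theorem plA_der [Algebra.IsAlgebraic ℂ[X] Ω] : ∃ d : Derivation ℂ Ω Ω,
    d (algebraMap ℂ[X] Ω X) = 1 ∧ ∀ q u, o.Ge (-q) u → o.Ge (-(q - 1)) (d u) := by
  have : CharZero Ω := charZero_of_injective_algebraMap (algebraMap ℂ Ω).injective
  obtain ⟨d, hd⟩ := exists_der (S := ℂ) (R := ℂ[X]) (Ω := Ω)
    ((Algebra.linearMap ℂ[X] Ω).compDer derivative')
  have hd' : ∀ r, d (algebraMap ℂ[X] Ω r) = algebraMap ℂ[X] Ω (derivative r) := hd
  have hs : algebraMap ℂ[X] Ω X ≠ 0 := alg_ne_zero X_ne_zero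
  refine ⟨d, by simp [hd'], fun q u hu => ?_⟩
  by_cases h0 : u = 0
  · rw [h0, map_zero]
    exact ge_zero _
  have h := o.sd1R (R := ℂ[X]) (algebraMap ℂ[X] Ω X • d) (o.hn_of_triv (plA_const ho))
    (fun r hr => ⟨-r.natDegree, by simpa using ho r hr⟩) (fun r hr => by
      rw [Derivation.smul_apply, hd', smul_eq_mul, ← map_mul, ge_div_iff (alg_ne_zero hr),
        zero_add, ho r hr]
      refine plA_ge ho (natDegree_le_iff_coeff_eq_zero.2 fun N hN => ?_)
      obtain ⟨M, rfl⟩ : ∃ M, N = M + 1 := ⟨N - 1, by omega⟩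
      rw [coeff_X_mul, coeff_derivative, coeff_eq_zero_of_natDegree_lt hN, zero_mul]) u
  rw [Derivation.smul_apply, smul_eq_mul, ge_div_iff h0, zero_add] at h
  have h2 : o.Ge (-(q - 1)) (algebraMap ℂ[X] Ω X * d u / algebraMap ℂ[X] Ω X) := by
    rw [ge_div_iff hs, plA_X ho]
    exact h.mono (by linarith [hu.le h0])
  rwa [mul_div_cancel_left₀ _ hs] at h2

theorem plA_slope {f : ℂ[X][X]} {D : ℕ} (hm : f.Monic) (hD : f.natDegree = D) (h1 : 1 ≤ D)
    (hc : ∀ k, (f.coeff k).natDegree ≤ D - k) {η : Ω} (h : aeval η f = 0) :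
    ∃ a : ℂ, o.Ge (-(1 - 1 / D)) (η - algebraMap ℂ Ω a * algebraMap ℂ[X] Ω X) := by
  have hs : algebraMap ℂ[X] Ω X ≠ 0 := alg_ne_zero X_ne_zero
  have hε : ∀ k, ∃ ε : Ω, k < D → o.Ge 1 ε ∧ algebraMap ℂ[X] Ω (f.coeff k) =
      algebraMap ℂ[X] Ω X ^ (D - k) * (algebraMap ℂ Ω ((f.coeff k).coeff (D - k)) - ε) := by
    intro k
    refine ⟨algebraMap ℂ[X] Ω (C ((f.coeff k).coeff (D - k)) * X ^ (D - k) - f.coeff k) /
      algebraMap ℂ[X] Ω X ^ (D - k), fun hk => ⟨?_, ?_⟩⟩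
    · rw [ge_div_iff (pow_ne_zero _ hs), o.v_pow _ hs, plA_X ho]
      refine (plA_ge ho (n := D - k - 1) (natDegree_le_iff_coeff_eq_zero.2 fun N hN => ?_)).mono ?_
      · rw [coeff_sub, coeff_C_mul, coeff_X_pow]
        split_ifs with e
        · rw [e, mul_one, sub_self]
        · rw [mul_zero, coeff_eq_zero_of_natDegree_lt (lt_of_le_of_lt (hc k) (by omega)), sub_self]
      · rw [Nat.cast_sub (by omega : 1 ≤ D - k)]
        push_cast
        linarith
    · rw [map_sub, map_mul, map_pow, IsScalarTower.algebraMap_apply ℂ ℂ[X] Ω, algebraMap_eq]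
      field_simp
      ring
  choose ε hε using hε
  obtain ⟨t, rfl⟩ : ∃ t, η = t * algebraMap ℂ[X] Ω X := ⟨η / _, (div_mul_cancel₀ _ hs).symm⟩
  have hdeg : (∑ k ∈ range D, C ((f.coeff k).coeff (D - k)) * X ^ k : ℂ[X]).degree < D :=
    mem_degreeLT.1 (Submodule.sum_mem _ fun k hk => mem_degreeLT.2
      ((degree_C_mul_X_pow_le _ _).trans_lt (by exact_mod_cast mem_range.1 hk)))
  obtain ⟨a, -, ha⟩ := plA_split (D := D) (monic_X_pow_add hdeg) (by
    rw [natDegree_add_eq_left_of_degree_lt (by rwa [degree_X_pow]), natDegree_X_pow])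
  have h2 := congrArg (aeval t) ha
  simp only [map_add, map_pow, aeval_X, map_sum, map_mul, aeval_C, Lagrange.nodal, map_prod,
    map_sub] at h2
  have h3 : algebraMap ℂ[X] Ω X ^ D * (t ^ D + ∑ k ∈ range D,
      (algebraMap ℂ Ω ((f.coeff k).coeff (D - k)) - ε k) * t ^ k) = 0 := by
    rw [← h]
    conv_rhs => rw [hm.as_sum, hD]
    simp only [map_add, map_pow, aeval_X, map_sum, map_mul, aeval_C, mul_add, mul_sum]
    refine congrArg₂ _ (by ring) (sum_congr rfl fun k hk => ?_)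
    rw [(hε k (mem_range.1 hk)).2, ← pow_sub_mul_pow _ (mem_range.1 hk).le]
    ring
  have h4 := (mul_eq_zero.1 h3).resolve_left (pow_ne_zero _ hs)
  simp only [sub_mul, sum_sub_distrib] at h4
  obtain ⟨i, hi⟩ := plA_slope0 (o := o) h1 (t := t) (a := fun i => algebraMap ℂ Ω (a i))
    (fun i => o.ge_of_triv (plA_const ho) _) (fun k hk => (hε k hk).1)
    (by rw [← h2]; linear_combination h4)
  refine ⟨a i, ?_⟩
  rw [← sub_mul]
  refine (hi.mul (ge_self _)).mono (le_of_eq ?_)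
  rw [plA_X ho]
  ring

end Deg

end Pool.Agent.Lib.MP_1f047c_nt.TA
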