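import Pool.Agent.Lib.MP_1f047c_nt.TABasic
import Pool.Agent.Lib.MP_1f047c_nt.TAPlA

/-! Existence of the branches at infinity. -/

open Finset MvPolynomial

namespace Pool.Agent.Lib.MP_1f047c_nt.TA

theorem plB_coeff {G : S} {D : ℕ} (h : G.totalDegree ≤ D) (k : ℕ) :
    ((toBi G).coeff k).natDegree ≤ D - k := by
  let W : Submodule ℂ S :=
    { carrier := {G | ((toBi G).coeff k).natDegree ≤ D - k}
      add_mem' := fun {a b} ha hb => by
        change ((toBi (a + b)).coeff k).natDegree ≤ D - k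
        rw [toBi, map_add, Polynomial.coeff_add]
        exact (Polynomial.natDegree_add_le _ _).trans (max_le ha hb)
      zero_mem' := by simp
      smul_mem' := fun c a ha => by
        change ((toBi (c • a)).coeff k).natDegree ≤ D - k
        rw [toBi, map_smul, Polynomial.coeff_smul]
        exact (Polynomial.natDegree_smul_le _ _).trans ha }
  refine Vp_le (W := W) (E := D) (fun i j hij => ?_) (mem_Vp.2 h)
  change ((toBi (X 0 ^ i * X 1 ^ j : S)).coeff k).natDegree ≤ D - k
  rw [toBi, map_mul, map_pow, map_pow, Polynomial.Bivariate.equivMvPolynomial_symm_X_0,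
    Polynomial.Bivariate.equivMvPolynomial_symm_X_1, ← map_pow, Polynomial.coeff_C_mul,
    Polynomial.coeff_X_pow]
  split_ifs with e
  · rw [mul_one, Polynomial.natDegree_X_pow]
    omega
  · simp

theorem plB_aeval {Ω : Type} [Field Ω] [Algebra (Polynomial ℂ) Ω] [Algebra ℂ Ω]
    [IsScalarTower ℂ (Polynomial ℂ) Ω] (η : Ω) (G : S) :
    aeval ![algebraMap (Polynomial ℂ) Ω Polynomial.X, η] G = Polynomial.aeval η (toBi G) := by
  have : (aeval ![algebraMap (Polynomial ℂ) Ω Polynomial.X, η] : S →ₐ[ℂ] Ω) =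
      ((Polynomial.aeval η).restrictScalars ℂ).comp
        (Polynomial.Bivariate.equivMvPolynomial ℂ).symm.toAlgHom := by
    refine MvPolynomial.algHom_ext fun i => ?_
    fin_cases i <;> simp
  rw [this]
  rfl

theorem plB_dvd (F G : S) : F ∣ G ↔ toBi F ∣ toBi G :=
  (map_dvd_iff (Polynomial.Bivariate.equivMvPolynomial ℂ).symm).symm

theorem plB_C (N : Polynomial ℂ) : toBi (Polynomial.aeval (X 0 : S) N) = Polynomial.C N := by
  rw [toBi, AlgEquiv.symm_apply_eq]
  exact (Polynomial.aevalAeval_C _ _ N).symm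

theorem plB_main {F : S} {D : ℕ} (hF : Mon F D) (hirr : Irreducible F) (Ω : Type) [Field Ω]
    [IsAlgClosed Ω] [Algebra (Polynomial ℂ) Ω] [FaithfulSMul (Polynomial ℂ) Ω] [Algebra ℂ Ω]
    [IsScalarTower ℂ (Polynomial ℂ) Ω] [Algebra.IsAlgebraic (Polynomial ℂ) Ω] :
    Nonempty (Pl Ω F D) := by
  obtain ⟨h1, hT, hm, hD⟩ := hF
  have hi : Irreducible (toBi F) :=
    (MulEquiv.irreducible_iff (Polynomial.Bivariate.equivMvPolynomial ℂ).symm).2 hirr
  obtain ⟨o, ho'⟩ := CyV.exists_ord (R := Polynomial ℂ) Ω (fun r => -(r.natDegree : ℤ))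
    (fun x y hx hy => by rw [Polynomial.natDegree_mul hx hy]; push_cast; ring)
    (fun x y _ _ _ => by
      have := Polynomial.natDegree_add_le x y
      omega)
  have ho : ∀ r : Polynomial ℂ, r ≠ 0 → o.v (algebraMap _ Ω r) = -(r.natDegree : ℚ) :=
    fun r hr => by simpa using ho' r hr
  obtain ⟨η, hη, hη'⟩ := plA_split (D := D) (hm.map (algebraMap (Polynomial ℂ) Ω))
    (by rw [hm.natDegree_map, hD])
  have hs : algebraMap (Polynomial ℂ) Ω Polynomial.X ≠ 0 := CyV.alg_ne_zero Polynomial.X_ne_zero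
  have h0 : ∀ i, Polynomial.aeval (η i) (toBi F) = 0 := fun i => by
    rw [← Polynomial.eval_map_algebraMap, hη', Lagrange.eval_nodal_at_node (mem_univ i)]
  have hker := fun i => plA_ker hm hi (h0 i)
  choose a ha using fun i => plA_slope ho hm hD h1 (plB_coeff hT) (h0 i)
  have hD0 : (0 : ℚ) < D := by exact_mod_cast h1
  have hle : ∀ i, o.Ge (-1) (η i) := fun i => by
    have e1 := (ha i).mono (s := -1) (by linarith [one_div_pos.2 hD0])
    have e2 := (o.ge_of_triv (plA_const ho) (a i)).mul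
      (CyV.Ord.ge_self (algebraMap (Polynomial ℂ) Ω Polynomial.X))
    rw [plA_X ho, zero_add] at e2
    simpa using e1.add e2
  have hnorm : ∀ g, ¬ toBi F ∣ g → ∃ N : Polynomial ℂ, N ≠ 0 ∧
      (N.natDegree : ℚ) = ∑ i, -o.v (Polynomial.aeval (η i) g) ∧
        ∃ b, toBi F ∣ Polynomial.C N - b * g := by
    intro g hg
    obtain ⟨N, e1, e2⟩ := plA_norm hm hD h1 hη g
    have e3 : ∀ i ∈ (univ : Finset (Fin D)), Polynomial.aeval (η i) g ≠ 0 :=
      fun i _ e => hg ((hker i g).1 e)
    have e4 : N ≠ 0 := by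
      rintro rfl
      exact prod_ne_zero_iff.2 e3 (by rw [← e1, map_zero])
    refine ⟨N, e4, ?_, e2⟩
    rw [sum_neg_distrib, ← o.v_prod _ _ e3, ← e1, ho N e4, neg_neg]
  have hnd := plA_not_dvd (f := toBi F) (by omega)
  have hder : ∀ i, (Polynomial.derivative (Lagrange.nodal univ η)).eval (η i) =
      Polynomial.aeval (η i) (Polynomial.derivative (toBi F)) := fun i => by
    rw [← hη', Polynomial.derivative_map, Polynomial.eval_map_algebraMap]
  have hinj : Function.Injective η := by
    intro i j e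
    by_contra hij
    refine hnd ((hker i _).1 ?_)
    rw [← hder, Lagrange.eval_nodal_derivative_eval_node_eq (mem_univ i), e]
    exact Lagrange.eval_nodal_at_node (mem_erase.2 ⟨Ne.symm hij, mem_univ j⟩)
  have hN : ∑ i, o.v ((Polynomial.derivative (Lagrange.nodal univ η)).eval (η i)) ≤ 0 := by
    obtain ⟨N, -, e, -⟩ := hnorm _ hnd
    simp only [hder]
    rw [sum_neg_distrib] at e
    have : (0 : ℚ) ≤ N.natDegree := by positivity
    linarith
  obtain ⟨d, hd1, hd2⟩ := plA_der ho
  refine ⟨⟨o, fun i => ![algebraMap (Polynomial ℂ) Ω Polynomial.X, η i], a, plA_const ho,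
    fun i => ⟨hs, plA_X ho⟩, fun i => (ha i).mono ?_, ⟨d, fun _ => hd1, hd2⟩, fun i G => ?_,
    fun G hG => ?_, fun G => ?_⟩⟩
  · have : (D : ℚ) ≤ D.factorial := by exact_mod_cast Nat.self_le_factorial D
    have := one_div_le_one_div_of_le hD0 this
    rw [del]
    linarith
  · rw [plB_aeval, plB_dvd, hker]
  · obtain ⟨N, e1, e2, b, e3⟩ := hnorm _ (fun h => hG ((plB_dvd F G).2 h))
    refine ⟨N, e1, by simpa only [plB_aeval] using e2,
      Polynomial.Bivariate.equivMvPolynomial ℂ b, ?_⟩
    rw [plB_dvd, ← plB_C N] at *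
    simpa only [toBi, map_sub, map_mul, AlgEquiv.symm_apply_apply] using e3
  · have hr : (toBi G %ₘ toBi F).degree < D := by
      have := Polynomial.degree_modByMonic_lt (toBi G) hm
      rwa [Polynomial.degree_eq_natDegree hm.ne_zero, hD] at this
    refine ⟨fun k => (toBi G %ₘ toBi F).coeff k, ?_, fun q hq k => ?_⟩
    · have e : toBi (∑ k : Fin D, Polynomial.aeval (X 0 : S) ((toBi G %ₘ toBi F).coeff k) *
          X 1 ^ (k : ℕ)) = toBi G %ₘ toBi F := by
        conv_rhs => rw [← Polynomial.sum_monomial_eq (toBi G %ₘ toBi F),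
          ← Polynomial.sum_fin _ Polynomial.monomial_zero_right hr]
        rw [toBi, map_sum]
        refine sum_congr rfl fun k _ => ?_
        rw [map_mul, map_pow, Polynomial.Bivariate.equivMvPolynomial_symm_X_1,
          ← Polynomial.C_mul_X_pow_eq_monomial]
        exact congrArg (· * _) (plB_C _)
      rw [plB_dvd]
      have e2 : ∀ A B : S, toBi (A - B) = toBi A - toBi B := fun A B => map_sub _ A B
      rw [e2, e, Polynomial.modByMonic_eq_sub_mul_div, sub_sub_cancel]
      exact dvd_mul_right _ _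
    · refine plA_deg ho ?_
      have := plA_interp hinj hle hN (r := (toBi G %ₘ toBi F).map (algebraMap (Polynomial ℂ) Ω))
        (Polynomial.degree_map_le.trans_lt hr) (q := q) (fun i => by
          rw [Polynomial.eval_map_algebraMap, Polynomial.aeval_modByMonic_eq_self_of_root (h0 i),
            ← plB_aeval]
          exact hq i) k
      rw [Polynomial.coeff_map] at this
      exact_mod_cast this

theorem exists_pl {F : S} {D : ℕ} (hF : Mon F D) (hirr : Irreducible F) :
    ∃ (Ω : Type) (_ : Field Ω) (_ : Algebra ℂ Ω), Nonempty (Pl Ω F D) := by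
  have := FaithfulSMul.trans (Polynomial ℂ) (FractionRing (Polynomial ℂ))
    (AlgebraicClosure (FractionRing (Polynomial ℂ)))
  have : Algebra.IsAlgebraic (Polynomial ℂ) (AlgebraicClosure (FractionRing (Polynomial ℂ))) :=
    (IsFractionRing.comap_isAlgebraic_iff (K := FractionRing (Polynomial ℂ))).2 inferInstance
  exact ⟨AlgebraicClosure (FractionRing (Polynomial ℂ)), inferInstance, inferInstance,
    plB_main hF hirr _⟩

end Pool.Agent.Lib.MP_1f047c_nt.TA
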