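import Pool.Agent.Lib.MP_1f047c_nt.TAChainA
import Pool.Agent.Lib.MP_1f047c_nt.TAMult
import Pool.Agent.Lib.MP_1f047c_nt.TAPl

/-! The algebraic data of a curve. -/

open Finset MvPolynomial

namespace Pool.Agent.Lib.MP_1f047c_nt.TA

open PL (wm)

lemma Jq_mono {D D' : ℕ} (h : D ≤ D') (ρ R ℓ : ℕ) : Jq D ρ R ℓ ≤ Jq D' ρ R ℓ := by
  unfold Jq jj
  gcongr

lemma CD.mono {F : S} {ρ R J E J' E' : ℕ} (cd : CD F ρ R J E) (hJ : J ≤ J') (hE : E ≤ E') :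
    Nonempty (CD F ρ R J' E') :=
  ⟨{ cd with
    P_le := cd.P_le.trans (Vp_mono hE)
    K_card := fun τ => (cd.K_card τ).trans hJ
    good := fun g hg hM => by
      obtain ⟨s, G, 𝓛, h1, h2⟩ := cd.good g hg hM
      exact ⟨s, G, 𝓛, h1, fun e => ⟨(h2 e).1, (h2 e).2.1.trans hJ, (h2 e).2.2⟩⟩ }⟩

/-- A coordinate line through a lattice point which misses the origin. -/
def pline (a : ℤ × ℤ) : (ℤ × ℤ) × ℤ := if a.1 = 0 then ((0, 1), a.2) else ((1, 0), a.1)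

lemma pline_dot (a : ℤ × ℤ) : dotZ (pline a).1 a = (pline a).2 := by
  unfold pline dotZ
  split_ifs <;> simp

lemma pline_ok {ρ R : ℕ} (hρ : 1 ≤ ρ) {a : ℤ × ℤ} (ha : a ∈ box R) (h0 : a ≠ 0) :
    Sml ρ (pline a).1 ∧ (pline a).2 ≠ 0 ∧ |(pline a).2| ≤ 2 * ρ * R := by
  have h1 : (1 : ℤ) ≤ ρ := by exact_mod_cast hρ
  have h2 : (R : ℤ) ≤ 2 * ρ * R := by nlinarith [(Nat.cast_nonneg R : (0 : ℤ) ≤ R)]
  simp only [box, mem_product, mem_Icc] at ha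
  unfold pline Sml
  split_ifs with h
  · refine ⟨⟨by simp, by simpa using h1⟩, fun h' => h0 (Prod.ext h h'), ?_⟩
    exact (abs_le.2 ha.2).trans h2
  · exact ⟨⟨by simpa using h1, by simp⟩, h, (abs_le.2 ha.1).trans h2⟩

lemma prF_dvd {F : S} {W : Finset (ℤ × ℤ)} {a : ℤ × ℤ} (ha : a ∈ W) : F ∣ tr (wv a) (prF F W) := by
  have h : tr (-wv a) F ∣ prF F W := dvd_prod_of_mem (fun m => tr (-wv m) F) ha
  have h2 := map_dvd (tr (wv a)) h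
  rwa [tr_tr, add_neg_cancel, tr_zero] at h2

variable {Ω : Type} [Field Ω] [Algebra ℂ Ω] {F : S} {D : ℕ} {p : Pl Ω F D} {ρ R s e : ℕ}
  (m : Mult p ρ R s e)

namespace Mult

/-- The lines which are killed. -/
def lines (T : Finset (ℤ × ℤ)) : Finset ((ℤ × ℤ) × ℤ) :=
  (m.S0 ∪ T).image pline ∪ univ.biUnion fun τ => (m.K τ).image fun k => (perp (m.θ τ), k)

lemma lines_card (T : Finset (ℤ × ℤ)) :
    (m.lines T).card ≤ D ^ 2 * (2 * R / ρ + 1) + D ^ 3 + T.card := by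
  have h1 : ((m.S0 ∪ T).image pline).card ≤ m.S0.card + T.card :=
    card_image_le.trans (card_union_le _ _)
  have h2 : (univ.biUnion fun τ => (m.K τ).image fun k => (perp (m.θ τ), k)).card ≤ m.t * D ^ 2 := by
    refine card_biUnion_le.trans ((sum_le_card_nsmul _ _ (D ^ 2) fun τ _ =>
      card_image_le.trans (m.K_card τ)).trans_eq ?_)
    simp
  have h3 : m.t * D ^ 2 ≤ D ^ 3 := (Nat.mul_le_mul_right _ m.ht).trans_eq (by ring)
  have h4 := m.S0_card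
  have h5 := card_union_le ((m.S0 ∪ T).image pline)
    (univ.biUnion fun τ => (m.K τ).image fun k => (perp (m.θ τ), k))
  unfold lines
  omega

lemma lines_K (T : Finset (ℤ × ℤ)) {τ : Fin m.t} {k : ℤ} (hk : k ∈ m.K τ) :
    (perp (m.θ τ), k) ∈ m.lines T :=
  mem_union_right _ (mem_biUnion.2 ⟨τ, mem_univ _, mem_image_of_mem _ hk⟩)

lemma lines_ok (hρ : 1 ≤ ρ) {T : Finset (ℤ × ℤ)} (hT : T ⊆ m.W) :
    ∀ l ∈ m.lines T, Sml ρ l.1 ∧ l.2 ≠ 0 ∧ |l.2| ≤ 2 * ρ * R := by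
  intro l hl
  rcases mem_union.1 hl with h | h
  · obtain ⟨a, ha, rfl⟩ := mem_image.1 h
    rcases mem_union.1 ha with h' | h'
    · exact pline_ok hρ (m.S0_mem a h').1 (m.S0_mem a h').2
    · exact pline_ok hρ (m.W_mem a (hT h')).1 (m.W_mem a (hT h')).2
  · obtain ⟨τ, -, h'⟩ := mem_biUnion.1 h
    obtain ⟨k, hk, rfl⟩ := mem_image.1 h'
    refine ⟨⟨?_, (m.θ_sml τ).1⟩, m.K_mem τ k hk⟩
    simpa [perp] using (m.θ_sml τ).2

lemma lines_W (T : Finset (ℤ × ℤ)) {a : ℤ × ℤ} (ha : a ∈ box R) (h0 : a ≠ 0)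
    (h : ∀ l ∈ m.lines T, dotZ l.1 a ≠ l.2) : a ∈ m.W \ T := by
  have h1 : a ∉ m.S0 ∪ T := fun h' =>
    h _ (mem_union_left _ (mem_image_of_mem pline h')) (pline_dot a)
  rw [mem_union, not_or] at h1
  rcases m.cover a ha h0 with h2 | h2 | ⟨τ, h2⟩
  · exact mem_sdiff.2 ⟨h2, h1.2⟩
  · exact absurd h2 h1.1
  · exact absurd rfl (h _ (m.lines_K T h2))

lemma ell_zero {i : Fin D} {τ : Fin m.t} (hi : m.cls i = some τ) {ξ : Fin 2 → ℂ}
    (h : dotC (cz (perp (m.θ τ))) ξ = 0) : p.ell i ξ = 0 := by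
  obtain ⟨h1, h2⟩ := m.cls_dir i τ hi
  have h3 := congrFun h2 1
  have h4 : ((m.θ τ).1 : ℂ) ≠ 0 := by exact_mod_cast h1
  simp only [cz, Pl.dir, Matrix.cons_val_one, Matrix.cons_val_zero, Pi.smul_apply,
    smul_eq_mul] at h3
  simp only [dotC, cz, perp, Matrix.cons_val_one, Matrix.cons_val_zero, Int.cast_neg, h3] at h
  refine mul_left_cancel₀ h4 ?_
  unfold Pl.ell
  linear_combination h

lemma good_M (hF : Mon F D) {j l : ℕ} (hj : j * xx D R ≤ s) {h : S} (hh : h ∈ m.Mid j l)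
    (τ : Fin m.t) {k : ℤ} (hk : |k| ≤ 2 * ρ * R) (hK : k ∉ m.K τ) {ξ : Fin 2 → ℂ}
    (hξ : dotC (cz (perp (m.θ τ))) ξ = wm k) : tr ξ (h * m.MM) ∈ m.MT τ (j + 1) l := by
  refine m.mem_MT.2 fun i hi => ?_
  rcases eq_or_ne k 0 with rfl | h0
  · refine p.lb_tr (m.mem_MT.1 ((m.mem_Mid.1 (m.mul_M hF hh)).2 τ) i hi) (m.ell_zero hi ?_)
    rw [hξ]
    simp [wm]
  · rw [map_mul, qv_j]
    have h1 := p.GB_le_LB i _ (p.gb_tr ((m.mem_PP.1 (m.mem_Mid.1 hh).1).2 i) ξ)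
    refine p.LB_mono i ?_ (p.lb_mul h1 (m.M_near i τ hi k h0 hk hK ξ hξ))
    have h2 := m.sl_le j i
    have h3 : ((j * xx D R : ℕ) : ℚ) ≤ s := by exact_mod_cast hj
    linarith

theorem cd_level (hρ : 1 ≤ ρ) (hF : Mon F D) {j l jb : ℕ} (hj : (j + 1) * xx D R ≤ s)
    (hjb : ∀ τ, (thr F m.W τ).card ≤ jb) (h1 : m.cc (j + 1) (l + 1) = m.cc j (l + 1))
    (h2 : ∀ τ, m.rr τ (j + 1) l = m.rr τ (j + 1) (l + 1)) :
    Nonempty (CD F ρ R (D ^ 2 * (2 * R / ρ + 1) + D ^ 3 + jb)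
      (k0 D e + (j + 1) * (2 * e) + (l + 1) * e)) := by
  choose r hr using fun τ => exists_proj ((m.rr_l τ (j + 1) l).2 (h2 τ))
  have hs : ∀ i, m.sl (j + 1) i ≤ s := fun i => (m.sl_le _ i).trans (by exact_mod_cast hj)
  have hA : ∀ τ, ∀ H ∈ m.PP (j + 1) (l + 1), ∃ h ∈ m.PP (j + 1) l, r τ H = h * m.Wt τ := by
    intro τ H hH
    obtain ⟨h, hh, e⟩ := (hr τ H hH).1
    exact ⟨h, hh, e.symm⟩
  have hone : (1 : S) ∈ m.Mid (j + 1) (l + 1) := m.low_mid (one_mem_Vp _) _ _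
  have hD : D ^ 2 ≤ D ^ 3 := Nat.pow_le_pow_right hF.1 (by norm_num)
  refine ⟨{
    t := m.t
    θ := m.θ
    P := m.PP (j + 1) (l + 1)
    M := fun τ => m.MT τ (j + 1) (l + 1)
    M0 := fun τ => m.MZ τ (j + 1) (l + 1)
    rho := r
    K := m.K
    P_le := inf_le_left
    one_P := (m.mem_Mid.1 hone).1
    one_M := (m.mem_Mid.1 hone).2
    P_dv := fun v G => m.PP_dv v
    θ_ne := m.θ_ne
    θ_sml := m.θ_sml
    M_dv := fun τ G hG => m.mem_MT.2 fun i hi => by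
      rw [(m.cls_dir i τ hi).2]
      exact p.lb_dv (m.mem_MT.1 hG i hi) _
    M0_dv := fun τ v G hG => m.mem_MZ.2 fun i hi => p.gb_dv (m.mem_MZ.1 hG i hi) v
    M0_le := fun τ G hG => m.mem_MT.2 fun i hi => p.GB_le_LB i _ (m.mem_MZ.1 hG i hi)
    rho_P := fun τ H hH => by
      obtain ⟨h, hh, e⟩ := hA τ H hH
      rw [e]
      exact m.mul_PP (m.Wt_deg τ) (m.Wt_gb τ) hh
    rho_sub := fun τ H hH => (hr τ H hH).2.1.2
    rho_zero := fun τ H hH hM => (hr τ H hH).2.2 ⟨hH, hM⟩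
    rho_other := fun τ τ' hτ H hH => m.mem_MZ.2 fun i hi => by
      obtain ⟨h, hh, e⟩ := hA τ H hH
      rw [e, qv_l]
      refine p.GB_mono i ?_ (p.gb_mul ((m.mem_PP.1 hh).2 i) (m.Wt_other τ τ' i hi hτ))
      linarith [hs i]
    rho_near := fun τ H hH k h0 hk hK => m.mem_MT.2 fun i hi => by
      obtain ⟨h, hh, e⟩ := hA τ H hH
      rw [e, qv_l, map_mul]
      refine p.LB_mono i ?_ (p.lb_mul (p.GB_le_LB i _ (p.gb_tr ((m.mem_PP.1 hh).2 i) _))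
        (m.Wt_near τ i hi k h0 hk hK _ (dotC_dual (perp_ne (m.θ_ne τ)) _)))
      linarith [hs i]
    K_card := fun τ => (m.K_card τ).trans (by omega)
    K_mem := m.K_mem
    good := fun g hg hM => ?_ }⟩
  have hg' : g ∈ m.Mid (j + 1) (l + 1) := m.mem_Mid.2 ⟨hg, hM⟩
  obtain ⟨h, n, c, τ, hc, hd⟩ := p.low hF m.W m.M1_deg m.card_W (not_dvd_of_exa hF.1 m.M_exa) g
  obtain ⟨h', hh, hd'⟩ := (m.cc_j hF j (l + 1)).2 h1 g hg' h _
    (Submodule.sum_mem _ fun a _ => m.low_mid (hc a) _ _) hd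
  have hsub : ∀ a, thr F m.W (τ a) ⊆ m.W := fun a => by
    classical
    exact filter_subset _ _
  refine ⟨n + 1, Fin.cons (h' * m.MM) fun a => c a * prF F (m.W \ thr F m.W (τ a)),
    Fin.cons (m.lines ∅) fun a => m.lines (thr F m.W (τ a)), ?_, fun a => ?_⟩
  · rw [Fin.sum_univ_succ]
    simp only [Fin.cons_zero, Fin.cons_succ]
    have h3 := hd.add (hd'.mul_right m.MM)
    unfold MM at h3 ⊢
    refine h3.trans (dvd_of_eq ?_)
    ring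
  · refine Fin.cases ?_ (fun a => ?_) a
    · simp only [Fin.cons_zero]
      refine ⟨(m.mem_Mid.1 (m.mul_M hF hh)).1, (m.lines_card ∅).trans (by simp),
        m.lines_ok hρ (empty_subset _), fun a ha h0 hl => ?_, fun σ k hk hK ξ hξ => ?_⟩
      · have h3 := prF_dvd (F := F) (mem_sdiff.1 (m.lines_W ∅ ha h0 hl)).1
        rw [MM, map_mul, map_mul]
        exact (h3.mul_right _).mul_left _
      · exact m.good_M hF (le_trans (Nat.mul_le_mul_right _ (Nat.le_succ j)) hj) hh σ hk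
          (fun h' => hK (m.lines_K ∅ h')) hξ
    · simp only [Fin.cons_succ]
      refine ⟨(m.mem_Mid.1 (m.low_mid (hc a) _ _)).1,
        (m.lines_card _).trans (Nat.add_le_add_left (hjb _) _), m.lines_ok hρ (hsub a),
        fun b hb h0 hl => ?_, fun σ k _ _ ξ _ => m.low_MT (tr_Vp ξ (hc a)) σ _ _⟩
      rw [map_mul]
      exact (prF_dvd (m.lines_W _ hb h0 hl)).mul_left _

end Mult

theorem chain (D ρ R e j : ℕ) (hρ : 1 ≤ ρ) : ∃ E : ℕ, ∀ (Ω : Type) [Field Ω] [Algebra ℂ Ω]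
    (F : S) (p : Pl Ω F D), Mon F D →
      ∀ m : Mult p ρ R ((D * (D ^ 2 + D) + 1) * (D ^ 2 * (2 * R + 1))) e,
        (∀ τ, (thr F m.W τ).card ≤ j) →
          Nonempty (CD F ρ R (D ^ 2 * (2 * R / ρ + 1) + D ^ 3 + j) E) := by
  obtain ⟨κ, hκ⟩ : ∃ κ, κ = D * (D ^ 2 + D) := ⟨_, rfl⟩
  obtain ⟨B, hB⟩ : ∃ B, B = (D.factorial * ((κ + 1) * xx D R) + 1) * (D * ((κ + 1) * xx D R)) :=
    ⟨_, rfl⟩
  refine ⟨k0 D e + (κ + 1) * (2 * e) + (D * (κ + 2) * B + 1) * e, fun Ω _ _ F p hF m hj => ?_⟩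
  obtain ⟨a, ha, l, hl, h1, h2⟩ := pigeon m.cc m.rr κ B (hκ ▸ m.cc_zero) (m.cc_l hF.1 0)
    (fun a l => (m.cc_j hF a l).1) (fun τ a _ l => (m.rr_l τ a l).1)
    fun τ a ha l => (m.rr_le τ a l).trans (by rw [hB]; gcongr)
  obtain ⟨cd⟩ := m.cd_level hρ hF (j := a) (l := l) (by rw [← hκ, xx]; gcongr) hj h1 h2
  have ht := m.ht
  refine cd.mono le_rfl ?_
  have h3 : l ≤ D * (κ + 2) * B := hl.trans (by gcongr)
  gcongr

theorem exists_cd (D₀ ρ R ℓ : ℕ) (hρ : 1 ≤ ρ) (hℓ : ℓ.Prime) : ∃ E : ℕ, ∀ (F : S) (D : ℕ),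
    D ≤ D₀ → Mon F D → Irreducible F → NL F ρ → Nonempty (CD F ρ R (Jq D₀ ρ R ℓ) E) := by
  have h : ∀ D : ℕ, ∃ E : ℕ, ∀ F : S, Mon F D → Irreducible F → NL F ρ →
      Nonempty (CD F ρ R (Jq D ρ R ℓ) E) := by
    intro D
    obtain ⟨e, he⟩ := exists_mult D ρ R ((D * (D ^ 2 + D) + 1) * (D ^ 2 * (2 * R + 1))) hρ
    obtain ⟨E, hE⟩ := chain D ρ R e (jj D ρ R ℓ) hρ
    refine ⟨E, fun F hF hi hN => ?_⟩
    obtain ⟨Ω, _, _, ⟨p⟩⟩ := exists_pl hF hi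
    obtain ⟨m⟩ := he Ω F p hF hN
    exact hE Ω F p hF m fun τ => card_thr p hF hρ hN R hℓ m.W (fun a ha => (m.W_mem a ha).1) τ
  choose E hE using h
  refine ⟨(range (D₀ + 1)).sup E, fun F D hD hF hi hN => ?_⟩
  obtain ⟨cd⟩ := hE D F hF hi hN
  exact cd.mono (Jq_mono hD ρ R ℓ) (le_sup (mem_range.2 (by omega)))

end Pool.Agent.Lib.MP_1f047c_nt.TA
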