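import Mathlib

/-! Linear algebra and pigeonhole lemmas. -/

open Finset Module

namespace Pool.Agent.Lib.MP_1f047c_nt.TA

variable {W W' : Type} [AddCommGroup W] [Module ℂ W] [AddCommGroup W'] [Module ℂ W']

theorem lin_rank_null (f : W →ₗ[ℂ] W') (A : Submodule ℂ W) [Module.Finite ℂ A] :
    finrank ℂ (A.map f) + finrank ℂ (A ⊓ LinearMap.ker f : Submodule ℂ W) = finrank ℂ A := by
  have h := (f.domRestrict A).finrank_range_add_finrank_ker
  rw [LinearMap.range_domRestrict, LinearMap.ker_domRestrict,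
    ← Submodule.finrank_map_subtype_eq A, Submodule.map_comap_subtype] at h
  exact h

theorem lin_key (μ : W →ₗ[ℂ] W') (A : Submodule ℂ W) (P : Submodule ℂ W') [Module.Finite ℂ A]
    [Module.Finite ℂ P] : finrank ℂ A + finrank ℂ P =
      finrank ℂ (A ⊓ P.comap μ : Submodule ℂ W) + finrank ℂ (A.map μ ⊔ P : Submodule ℂ W') := by
  have h1 := lin_rank_null (P.mkQ ∘ₗ μ) A
  have h2 := lin_rank_null P.mkQ (A.map μ ⊔ P)
  rw [LinearMap.ker_comp, Submodule.ker_mkQ, Submodule.map_comp] at h1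
  rw [Submodule.ker_mkQ, Submodule.map_sup, Submodule.mkQ_map_self, sup_bot_eq,
    inf_eq_right.2 le_sup_right] at h2
  omega

/-- Surjective case: the codimension does not grow, and equality gives exact division. -/
theorem cod_surj (μ : W →ₗ[ℂ] W') {P₀ L₀ : Submodule ℂ W} {P₁ L₁ : Submodule ℂ W'}
    [Module.Finite ℂ L₀] [Module.Finite ℂ L₁] (h₀ : P₀ ≤ L₀) (h₁ : P₁ ≤ L₁) (hP : P₀.map μ ≤ P₁)
    (hL : L₀.map μ ≤ L₁) (hs : L₁ ≤ L₀.map μ ⊔ P₁) :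
    finrank ℂ L₁ - finrank ℂ P₁ ≤ finrank ℂ L₀ - finrank ℂ P₀ ∧
      (finrank ℂ L₁ - finrank ℂ P₁ = finrank ℂ L₀ - finrank ℂ P₀ →
        ∀ u ∈ L₀, μ u ∈ P₁ → u ∈ P₀) := by
  have : Module.Finite ℂ P₁ := Submodule.finiteDimensional_of_le h₁
  have : Module.Finite ℂ (L₀ ⊓ P₁.comap μ : Submodule ℂ W) :=
    Submodule.finiteDimensional_of_le inf_le_left
  have hk := lin_key μ L₀ P₁
  rw [le_antisymm (sup_le hL h₁) hs] at hk
  have hQ : P₀ ≤ L₀ ⊓ P₁.comap μ := le_inf h₀ (Submodule.map_le_iff_le_comap.1 hP)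
  have a1 := Submodule.finrank_mono hQ
  have a2 := Submodule.finrank_mono (inf_le_left : L₀ ⊓ P₁.comap μ ≤ L₀)
  refine ⟨by omega, fun h u hu hμ => ?_⟩
  rw [Submodule.eq_of_le_of_finrank_le hQ (by omega)]
  exact ⟨hu, hμ⟩

/-- Injective case: the codimension does not drop, and equality gives surjectivity. -/
theorem cod_inj (μ : W →ₗ[ℂ] W') {P₀ L₀ : Submodule ℂ W} {P₁ L₁ : Submodule ℂ W'}
    [Module.Finite ℂ L₀] [Module.Finite ℂ L₁] (h₀ : P₀ ≤ L₀) (h₁ : P₁ ≤ L₁) (hP : P₀.map μ ≤ P₁)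
    (hL : L₀.map μ ≤ L₁) (hi : ∀ u ∈ L₀, μ u ∈ P₁ → u ∈ P₀) :
    finrank ℂ L₀ - finrank ℂ P₀ ≤ finrank ℂ L₁ - finrank ℂ P₁ ∧
      (finrank ℂ L₀ - finrank ℂ P₀ = finrank ℂ L₁ - finrank ℂ P₁ → L₁ ≤ L₀.map μ ⊔ P₁) := by
  have : Module.Finite ℂ P₁ := Submodule.finiteDimensional_of_le h₁
  have hk := lin_key μ L₀ P₁
  have hQ : L₀ ⊓ P₁.comap μ = P₀ := le_antisymm (fun u hu => hi u hu.1 hu.2)
    (le_inf h₀ (Submodule.map_le_iff_le_comap.1 hP))
  rw [hQ] at hk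
  have a1 := Submodule.finrank_mono (sup_le hL h₁)
  have a2 := Submodule.finrank_mono h₀
  have a3 := Submodule.finrank_mono h₁
  refine ⟨by omega, fun h => ?_⟩
  exact (Submodule.eq_of_le_of_finrank_le (sup_le hL h₁) (by omega)).ge

theorem cod_le {r : ℕ} (φ : Fin r → W →ₗ[ℂ] W') {P M : Submodule ℂ W} {L₀ L₁ : Submodule ℂ W'}
    [Module.Finite ℂ P] [Module.Finite ℂ L₁] (hM : M ≤ P) {d : ℕ}
    (hd : finrank ℂ L₁ ≤ finrank ℂ L₀ + d) (h₀ : L₀ ≤ L₁) (h : ∀ f, ∀ H ∈ P, φ f H ∈ L₁)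
    (hk : ∀ H ∈ P, (∀ f, φ f H ∈ L₀) → H ∈ M) : finrank ℂ P - finrank ℂ M ≤ r * d := by
  have : Module.Finite ℂ L₀ := Submodule.finiteDimensional_of_le h₀
  have : Module.Finite ℂ M := Submodule.finiteDimensional_of_le hM
  have H : ∀ s : Finset (Fin r), finrank ℂ P ≤
      finrank ℂ (P ⊓ s.inf fun f => L₀.comap (φ f) : Submodule ℂ W) + s.card * d := by
    intro s
    induction s using Finset.induction_on with
    | empty => rw [inf_empty, inf_top_eq]; exact Nat.le_add_right _ _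
    | insert f s hf ih =>
      have : Module.Finite ℂ (P ⊓ s.inf fun f => L₀.comap (φ f) : Submodule ℂ W) :=
        Submodule.finiteDimensional_of_le inf_le_left
      have h1 := lin_key (φ f) (P ⊓ s.inf fun f => L₀.comap (φ f)) L₀
      have h2 : (P ⊓ s.inf fun f => L₀.comap (φ f)).map (φ f) ⊔ L₀ ≤ L₁ :=
        sup_le (Submodule.map_le_iff_le_comap.2 fun x hx => h f x hx.1) h₀
      have h3 := Submodule.finrank_mono h2
      rw [inf_insert, inf_comm (L₀.comap (φ f)), ← inf_assoc, card_insert_of_notMem hf, add_mul]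
      omega
  have h1 := H univ
  have h2 : (P ⊓ univ.inf fun f => L₀.comap (φ f)) ≤ M := fun x hx =>
    hk x hx.1 fun f => (Finset.inf_le (f := fun f => L₀.comap (φ f)) (mem_univ f)) hx.2
  have h3 := Submodule.finrank_mono h2
  rw [card_univ, Fintype.card_fin] at h1
  omega

theorem exists_proj {P A B : Submodule ℂ W} (h : P ≤ A ⊔ B) : ∃ ρ : W →ₗ[ℂ] W,
    ∀ H ∈ P, ρ H ∈ A ∧ H - ρ H ∈ B ∧ (H ∈ B → ρ H = 0) := by
  obtain ⟨g, hg⟩ := (B.mkQ ∘ₗ A.subtype).rangeRestrict.exists_rightInverse_of_surjective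
    (LinearMap.range_rangeRestrict _)
  obtain ⟨g', hg'⟩ := g.exists_extend
  refine ⟨A.subtype ∘ₗ g' ∘ₗ B.mkQ, fun H hH => ⟨(g' (B.mkQ H)).2, ?_, fun hB => ?_⟩⟩
  · obtain ⟨a, ha, b, hb, rfl⟩ := Submodule.mem_sup.1 (h hH)
    have h1 : B.mkQ (a + b) ∈ LinearMap.range (B.mkQ ∘ₗ A.subtype) :=
      ⟨⟨a, ha⟩, by simp [(Submodule.Quotient.mk_eq_zero B).2 hb]⟩
    have h2 : g' (B.mkQ (a + b)) = g ⟨_, h1⟩ := DFunLike.congr_fun hg' ⟨_, h1⟩
    have h4 := congrArg Subtype.val (DFunLike.congr_fun hg ⟨B.mkQ (a + b), h1⟩)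
    have h3 : B.mkQ (g ⟨_, h1⟩ : A) = B.mkQ (a + b) := h4
    rw [← Submodule.Quotient.eq]
    change B.mkQ (a + b) = B.mkQ (g' (B.mkQ (a + b)) : A)
    rw [h2, h3]
  · have h1 : B.mkQ H = 0 := (Submodule.Quotient.mk_eq_zero B).2 hB
    rw [LinearMap.comp_apply, LinearMap.comp_apply, h1, map_zero, map_zero]

theorem lin_stall_up (f : ℕ → ℕ) (N : ℕ) (h : ∀ l, f l ≤ f (l + 1)) (hN : ∀ l, f l ≤ N) :
    ∃ l ≤ N, f l = f (l + 1) := by
  by_contra hc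
  have H : ∀ l ≤ N + 1, l ≤ f l := by
    intro l
    induction l with
    | zero => simp
    | succ l ih =>
      intro hl
      have h1 := ih (by omega)
      have h2 := h l
      have h3 : f l ≠ f (l + 1) := fun e => hc ⟨l, by omega, e⟩
      omega
  have h1 := H (N + 1) le_rfl
  have h2 := hN (N + 1)
  omega

theorem lin_stall_down (g : ℕ → ℕ) (N : ℕ) (h : ∀ l, g (l + 1) ≤ g l) (hN : g 0 ≤ N) :
    ∃ l ≤ N, g (l + 1) = g l := by
  have h0 : ∀ l, g l ≤ N := fun l => by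
    induction l with
    | zero => exact hN
    | succ l ih => exact (h l).trans ih
  obtain ⟨l, hl, e⟩ := lin_stall_up (fun l => N - g l) N
    (fun l => Nat.sub_le_sub_left (h l) N) fun l => Nat.sub_le _ _
  have h1 := h0 l
  have h2 := h0 (l + 1)
  exact ⟨l, hl, by omega⟩

/-- The two-parameter pigeonhole principle. -/
theorem pigeon {t : ℕ} (c : ℕ → ℕ → ℕ) (r : Fin t → ℕ → ℕ → ℕ) (κ B : ℕ) (h0 : c 0 0 ≤ κ)
    (h1 : ∀ l, c 0 (l + 1) ≤ c 0 l) (h2 : ∀ j l, c (j + 1) l ≤ c j l)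
    (h3 : ∀ τ, ∀ j ≤ κ + 1, ∀ l, r τ j l ≤ r τ j (l + 1))
    (h4 : ∀ τ, ∀ j ≤ κ + 1, ∀ l, r τ j l ≤ B) :
    ∃ j ≤ κ, ∃ l ≤ t * (κ + 2) * B, c (j + 1) (l + 1) = c j (l + 1) ∧
      ∀ τ, r τ (j + 1) l = r τ (j + 1) (l + 1) := by
  have hm : ∀ l, ∀ x ∈ (univ : Finset (Fin t)) ×ˢ range (κ + 2), r x.1 x.2 l ≤ r x.1 x.2 (l + 1) :=
    fun l x hx => h3 _ _ (Nat.lt_succ_iff.1 (mem_range.1 (mem_product.1 hx).2)) l
  obtain ⟨l, hl, e⟩ := lin_stall_up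
    (fun l => ∑ x ∈ (univ : Finset (Fin t)) ×ˢ range (κ + 2), r x.1 x.2 l) (t * (κ + 2) * B)
    (fun l => sum_le_sum (hm l)) fun l => by
      refine (sum_le_card_nsmul _ _ B fun x hx =>
        h4 _ _ (Nat.lt_succ_iff.1 (mem_range.1 (mem_product.1 hx).2)) l).trans (le_of_eq ?_)
      rw [card_product, card_univ, Fintype.card_fin, card_range, smul_eq_mul]
  have hc : ∀ l, c 0 l ≤ κ := fun l => by
    induction l with
    | zero => exact h0
    | succ l ih => exact (h1 l).trans ih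
  obtain ⟨j, hj, e'⟩ := lin_stall_down (fun j => c j (l + 1)) κ (fun j => h2 j _) (hc _)
  exact ⟨j, hj, l, hl, e', fun τ => (sum_eq_sum_iff_of_le (hm l)).1 e (τ, j + 1)
    (mem_product.2 ⟨mem_univ _, mem_range.2 (by omega)⟩)⟩

end Pool.Agent.Lib.MP_1f047c_nt.TA
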