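import Pool.Agent.Lib.MP_1f047c_nt.TALow
import Pool.Agent.Lib.MP_1f047c_nt.TALin

/-! The levels of the two chains. -/

open Finset MvPolynomial Module

namespace Pool.Agent.Lib.MP_1f047c_nt.TA

open PL (wm)

variable {Ω : Type} [Field Ω] [Algebra ℂ Ω] {F : S} {D : ℕ}

lemma Pl.ev_mul (p : Pl Ω F D) (G H : S) : p.ev (G * H) = p.ev G * p.ev H := by
  funext i
  simp [Pl.ev]

/-- One step of the division chain. -/
theorem Pl.cstep (p : Pl Ω F D) (hD : 1 ≤ D) {Mu : S} {q₀ q₁ w : Fin D → ℚ}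
    (hw : ∀ i, Exa p.o (w i) (aeval (p.c i) Mu)) (hq : ∀ i, q₁ i = q₀ i + w i)
    {P₀ P₁ : Submodule ℂ S} (h₀ : ∀ G ∈ P₀, p.ev G ∈ p.LL q₀) (h₁ : ∀ G ∈ P₁, p.ev G ∈ p.LL q₁)
    (hmul : ∀ h ∈ P₀, h * Mu ∈ P₁) (hlow : ∀ G : S, ∃ h r : S, r ∈ P₁ ∧ F ∣ G - (h * Mu + r)) :
    finrank ℂ (p.LL q₁) - finrank ℂ (P₁.map p.ev) ≤ finrank ℂ (p.LL q₀) - finrank ℂ (P₀.map p.ev) ∧
      (finrank ℂ (p.LL q₁) - finrank ℂ (P₁.map p.ev) =
          finrank ℂ (p.LL q₀) - finrank ℂ (P₀.map p.ev) →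
        ∀ g ∈ P₁, ∀ h r : S, r ∈ P₁ → F ∣ g - (h * Mu + r) → ∃ h' ∈ P₀, F ∣ h - h') := by
  have := p.LL_finite q₀
  have := p.LL_finite q₁
  have hc : ∀ g h r : S, p.ev g ∈ p.LL q₁ → r ∈ P₁ → F ∣ g - (h * Mu + r) →
      p.ev h ∈ p.LL q₀ ∧ p.ev h * p.ev Mu = p.ev g - p.ev r := by
    intro g h r hg hr hd
    have e1 : p.ev h * p.ev Mu = p.ev g - p.ev r := by
      rw [(p.ev_eq_iff hD).2 hd, map_add, p.ev_mul, add_sub_cancel_right]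
    refine ⟨p.mem_LL.2 fun i => (hw i).cancel ?_, e1⟩
    have h2 : p.ev (h * Mu) ∈ p.LL q₁ := by
      rw [p.ev_mul, e1]
      exact sub_mem hg (h₁ r hr)
    have h3 := p.mem_LL.1 h2 i
    rwa [hq, map_mul] at h3
  obtain ⟨a1, a2⟩ := cod_surj (LinearMap.mulRight ℂ (p.ev Mu)) (P₀ := P₀.map p.ev)
    (L₀ := p.LL q₀) (P₁ := P₁.map p.ev) (L₁ := p.LL q₁)
    (by rintro _ ⟨G, hG, rfl⟩; exact h₀ G hG) (by rintro _ ⟨G, hG, rfl⟩; exact h₁ G hG)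
    (by
      rintro _ ⟨_, ⟨G, hG, rfl⟩, rfl⟩
      exact ⟨G * Mu, hmul G hG, p.ev_mul _ _⟩)
    (by
      rintro _ ⟨u, hu, rfl⟩
      obtain ⟨G, rfl⟩ := hu.1
      change p.ev G * p.ev Mu ∈ _
      rw [← p.ev_mul]
      refine p.mem_LL.2 fun i => ?_
      rw [hq, map_mul]
      exact (p.mem_LL.1 hu i).mul (hw i).le)
    (by
      intro u hu
      obtain ⟨G, rfl⟩ := hu.1
      obtain ⟨h, r, hr, hd⟩ := hlow G
      obtain ⟨b1, b2⟩ := hc G h r hu hr hd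
      refine Submodule.mem_sup.2 ⟨p.ev h * p.ev Mu, ⟨_, b1, rfl⟩, p.ev r, ⟨r, hr, rfl⟩, ?_⟩
      rw [b2, sub_add_cancel])
  refine ⟨a1, fun he g hg h r hr hd => ?_⟩
  obtain ⟨b1, b2⟩ := hc g h r (h₁ g hg) hr hd
  obtain ⟨h', hh, e⟩ := a2 he _ b1 (by
    change p.ev h * p.ev Mu ∈ _
    rw [b2, ← map_sub]
    exact ⟨_, sub_mem hg hr, rfl⟩)
  exact ⟨h', hh, (p.ev_eq_iff hD).1 e.symm⟩

def xx (D R : ℕ) : ℕ := D ^ 2 * (2 * R + 1)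

def k0 (D e : ℕ) : ℕ := D * (2 * e) + D + e

lemma card_box (R : ℕ) : (box R).card = (2 * R + 1) ^ 2 := by
  have h : (Icc (-(R : ℤ)) R).card = 2 * R + 1 := by
    rw [Int.card_Icc]
    omega
  rw [box, card_product, h, sq]

variable {p : Pl Ω F D} {ρ R s e : ℕ} (m : Mult p ρ R s e)

namespace Mult

noncomputable def MM : S := prF F m.W * m.M1

def qv (j l : ℕ) (i : Fin D) : ℚ := k0 D e + j * m.π i + l * m.ω i

def sl (j : ℕ) (i : Fin D) : ℚ := if m.cls i = none then 0 else (j * xx D R : ℕ)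

noncomputable def PP (j l : ℕ) : Submodule ℂ S :=
  Vp (k0 D e + j * (2 * e) + l * e) ⊓ ⨅ i, p.GB i (m.qv j l i + m.sl j i)

noncomputable def MT (τ : Fin m.t) (j l : ℕ) : Submodule ℂ S :=
  ⨅ i, ⨅ _ : m.cls i = some τ, p.LB i (m.qv j l i)

noncomputable def MZ (τ : Fin m.t) (j l : ℕ) : Submodule ℂ S :=
  ⨅ i, ⨅ _ : m.cls i = some τ, p.GB i (m.qv j l i)

noncomputable def Mid (j l : ℕ) : Submodule ℂ S := m.PP j l ⊓ ⨅ τ, m.MT τ j l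

variable {j l : ℕ} {G h : S}

lemma mem_PP : G ∈ m.PP j l ↔
    G ∈ Vp (k0 D e + j * (2 * e) + l * e) ∧ ∀ i, G ∈ p.GB i (m.qv j l i + m.sl j i) := by
  simp only [PP, Submodule.mem_inf, Submodule.mem_iInf]

lemma mem_MT {τ : Fin m.t} : G ∈ m.MT τ j l ↔ ∀ i, m.cls i = some τ → G ∈ p.LB i (m.qv j l i) := by
  simp only [MT, Submodule.mem_iInf]

lemma mem_MZ {τ : Fin m.t} : G ∈ m.MZ τ j l ↔ ∀ i, m.cls i = some τ → G ∈ p.GB i (m.qv j l i) := by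
  simp only [MZ, Submodule.mem_iInf]

lemma mem_Mid : G ∈ m.Mid j l ↔ G ∈ m.PP j l ∧ ∀ τ, G ∈ m.MT τ j l := by
  simp only [Mid, Submodule.mem_inf, Submodule.mem_iInf]

lemma k0_le (j l : ℕ) (i : Fin D) : (k0 D e : ℚ) ≤ m.qv j l i := by
  have h1 := m.π_nonneg i
  have h2 := m.ω_nonneg i
  have h3 : 0 ≤ (j : ℚ) * m.π i := by positivity
  have h4 : 0 ≤ (l : ℚ) * m.ω i := by positivity
  unfold qv
  linarith

lemma sl_nonneg (j : ℕ) (i : Fin D) : 0 ≤ m.sl j i := by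
  unfold sl
  split_ifs
  · exact le_rfl
  · positivity

lemma sl_le (j : ℕ) (i : Fin D) : m.sl j i ≤ (j * xx D R : ℕ) := by
  unfold sl
  split_ifs
  · positivity
  · exact le_rfl

lemma qv_j (j l : ℕ) (i : Fin D) : m.qv (j + 1) l i = m.qv j l i + m.π i := by
  unfold qv
  push_cast
  ring

lemma qv_l (j l : ℕ) (i : Fin D) : m.qv j (l + 1) i = m.qv j l i + m.ω i := by
  unfold qv
  push_cast
  ring

lemma low_gb (hG : G ∈ Vp (k0 D e)) (j l : ℕ) (i : Fin D) : G ∈ p.GB i (m.qv j l i) :=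
  p.GB_mono i (m.k0_le j l i) (p.gb_of_Vp i hG)

lemma low_MT (hG : G ∈ Vp (k0 D e)) (τ : Fin m.t) (j l : ℕ) : G ∈ m.MT τ j l :=
  m.mem_MT.2 fun i _ => p.GB_le_LB i _ (m.low_gb hG j l i)

lemma low_mid (hG : G ∈ Vp (k0 D e)) (j l : ℕ) : G ∈ m.Mid j l :=
  m.mem_Mid.2 ⟨m.mem_PP.2 ⟨Vp_mono (by omega) hG, fun i =>
    p.GB_mono i (le_add_of_nonneg_right (m.sl_nonneg j i)) (m.low_gb hG j l i)⟩,
    fun τ => m.low_MT hG τ j l⟩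

lemma mid_LL (hG : G ∈ m.Mid j l) : p.ev G ∈ p.LL (m.qv j l) := by
  refine p.mem_LL.2 fun i => ?_
  obtain ⟨h1, h2⟩ := m.mem_Mid.1 hG
  rcases hc : m.cls i with _ | τ
  · have h3 := (m.mem_PP.1 h1).2 i
    rw [sl, if_pos hc, add_zero] at h3
    exact p.le_of_LB (p.GB_le_LB i _ h3)
  · exact p.le_of_LB (m.mem_MT.1 (h2 τ) i hc)

lemma card_W : m.W.card * D ≤ e := by
  have h1 : m.W.card ≤ (2 * R + 1) ^ 2 := by
    rw [← card_box]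
    exact card_le_card fun a ha => (m.W_mem a ha).1
  have h2 := m.he
  nlinarith

lemma MM_deg (hF : Mon F D) : m.MM ∈ Vp (2 * e) := by
  have h1 : prF F m.W ∈ Vp (m.W.card * D) :=
    Vp_prod _ _ fun a _ => tr_Vp _ (mem_Vp.2 hF.2.1)
  have h2 := m.card_W
  exact Vp_mono (by omega) (Vp_mul h1 m.M1_deg)

lemma mul_M (hF : Mon F D) (hh : h ∈ m.Mid j l) : h * m.MM ∈ m.Mid (j + 1) l := by
  obtain ⟨h1, h2⟩ := m.mem_Mid.1 hh
  obtain ⟨h3, h4⟩ := m.mem_PP.1 h1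
  refine m.mem_Mid.2 ⟨m.mem_PP.2 ⟨Vp_mono (le_of_eq (by ring)) (Vp_mul h3 (m.MM_deg hF)),
    fun i => ?_⟩, fun τ => m.mem_MT.2 fun i hi => ?_⟩
  · by_cases hc : m.cls i = none
    · refine p.GB_mono i (le_of_eq ?_) (p.gb_mul (h4 i) (m.M_none i hc))
      rw [qv_j, sl, sl, if_pos hc, if_pos hc]
      ring
    · refine p.GB_mono i (le_of_eq ?_) (p.gb_mul (h4 i) (m.M_gb i))
      rw [qv_j, sl, sl, if_neg hc, if_neg hc, xx]
      push_cast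
      ring
  · rw [qv_j]
    exact p.lb_mul (m.mem_MT.1 (h2 τ) i hi) (m.M_lb i τ hi)

lemma mul_PP {Mu : S} (h1 : Mu ∈ Vp e) (h2 : ∀ i, Mu ∈ p.GB i (m.ω i)) (hh : h ∈ m.PP j l) :
    h * Mu ∈ m.PP j (l + 1) := by
  obtain ⟨h3, h4⟩ := m.mem_PP.1 hh
  refine m.mem_PP.2 ⟨Vp_mono (le_of_eq (by ring)) (Vp_mul h3 h1), fun i => ?_⟩
  refine p.GB_mono i (le_of_eq ?_) (p.gb_mul (h4 i) (h2 i))
  rw [qv_l]
  ring

lemma mul_MT {Mu : S} (h2 : ∀ i, Mu ∈ p.GB i (m.ω i)) {τ : Fin m.t} (hh : h ∈ m.MT τ j l) :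
    h * Mu ∈ m.MT τ j (l + 1) := by
  refine m.mem_MT.2 fun i hi => ?_
  rw [qv_l]
  exact p.lb_mul (m.mem_MT.1 hh i hi) (p.GB_le_LB i _ (h2 i))

lemma mul_W0 (hh : h ∈ m.Mid j l) : h * m.W0 ∈ m.Mid j (l + 1) := by
  obtain ⟨h1, h2⟩ := m.mem_Mid.1 hh
  exact m.mem_Mid.2 ⟨m.mul_PP m.W0_deg m.W0_gb h1, fun τ => m.mul_MT m.W0_gb (h2 τ)⟩

lemma PP_dv (v : Fin 2 → ℂ) (hG : G ∈ m.PP j l) : dv v G ∈ m.PP j l := by
  obtain ⟨h1, h2⟩ := m.mem_PP.1 hG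
  exact m.mem_PP.2 ⟨dv_Vp v h1, fun i => p.gb_dv (h2 i) v⟩

instance (j l : ℕ) : Module.Finite ℂ (m.PP j l) :=
  Module.Finite.of_injective (Submodule.inclusion (inf_le_left : m.PP j l ≤ Vp _))
    (Submodule.inclusion_injective _)

/-- The defect of the middle space. -/
noncomputable def cc (j l : ℕ) : ℕ :=
  finrank ℂ (p.LL (m.qv j l)) - finrank ℂ ((m.Mid j l).map p.ev)

/-- The dimension of the top part. -/
noncomputable def rr (τ : Fin m.t) (j l : ℕ) : ℕ :=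
  finrank ℂ (m.PP j l) - finrank ℂ (m.PP j l ⊓ m.MT τ j l : Submodule ℂ S)

lemma not_dvd_of_exa (hD : 1 ≤ D) {Mu : S} {w : Fin D → ℚ}
    (hw : ∀ i, Exa p.o (w i) (aeval (p.c i) Mu)) : ¬ F ∣ Mu :=
  fun h => (hw ⟨0, hD⟩).1 ((p.ker _ _).2 h)

lemma cc_zero : m.cc 0 0 ≤ D * (D ^ 2 + D) := by
  have h1 := p.LL_const (k0 D e) (by unfold k0; omega)
  have h2 : m.qv 0 0 = fun _ => (k0 D e : ℚ) := by
    funext i
    simp [qv]
  have := p.LL_finite (m.qv 0 0)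
  have h3 : finrank ℂ ((Vp (k0 D e)).map p.ev) ≤ finrank ℂ ((m.Mid 0 0).map p.ev) := by
    have : Module.Finite ℂ ((m.Mid 0 0).map p.ev) :=
      Module.Finite.of_injective (Submodule.inclusion (p' := p.LL (m.qv 0 0)) (by
        rintro _ ⟨G, hG, rfl⟩
        exact m.mid_LL hG)) (Submodule.inclusion_injective _)
    exact Submodule.finrank_mono (Submodule.map_mono fun G hG => m.low_mid hG 0 0)
  unfold cc
  rw [h2]
  omega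

lemma cc_l (hD : 1 ≤ D) (j l : ℕ) : m.cc j (l + 1) ≤ m.cc j l :=
  (p.cstep hD m.W0_exa (m.qv_l j l) (fun _ => m.mid_LL) (fun _ => m.mid_LL)
    (fun _ => m.mul_W0) fun G => by
      obtain ⟨h, r, hr, hd⟩ := p.div m.W0_deg (not_dvd_of_exa hD m.W0_exa) G
      exact ⟨h, r, m.low_mid (Vp_mono (by unfold k0; nlinarith) hr) _ _, hd⟩).1

lemma cc_j (hF : Mon F D) (j l : ℕ) : m.cc (j + 1) l ≤ m.cc j l ∧ (m.cc (j + 1) l = m.cc j l →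
    ∀ g ∈ m.Mid (j + 1) l, ∀ h r : S, r ∈ m.Mid (j + 1) l → F ∣ g - (h * m.MM + r) →
      ∃ h' ∈ m.Mid j l, F ∣ h - h') :=
  p.cstep hF.1 m.M_exa (m.qv_j j l) (fun _ => m.mid_LL) (fun _ => m.mid_LL)
    (fun _ => m.mul_M hF) fun G => by
      obtain ⟨h, s, r, τ, hr, hd⟩ :=
        p.low hF m.W m.M1_deg m.card_W (not_dvd_of_exa hF.1 m.M_exa) G
      exact ⟨h, _, Submodule.sum_mem _ fun a _ => m.low_mid (hr a) _ _, hd⟩

lemma rr_l (τ : Fin m.t) (j l : ℕ) : m.rr τ j l ≤ m.rr τ j (l + 1) ∧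
    (m.rr τ j l = m.rr τ j (l + 1) → m.PP j (l + 1) ≤
      (m.PP j l).map (LinearMap.mulRight ℂ (m.Wt τ)) ⊔ (m.PP j (l + 1) ⊓ m.MT τ j (l + 1))) := by
  refine cod_inj (LinearMap.mulRight ℂ (m.Wt τ)) inf_le_left inf_le_left ?_ ?_ ?_
  · rintro _ ⟨h, hh, rfl⟩
    exact ⟨m.mul_PP (m.Wt_deg τ) (m.Wt_gb τ) hh.1, m.mul_MT (m.Wt_gb τ) hh.2⟩
  · rintro _ ⟨h, hh, rfl⟩
    exact m.mul_PP (m.Wt_deg τ) (m.Wt_gb τ) hh
  · intro h hh hm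
    refine ⟨hh, m.mem_MT.2 fun i hi => p.lb_cancel (m.Wt_ex τ i hi) ?_⟩
    rw [← qv_l]
    exact m.mem_MT.1 hm.2 i hi

lemma rr_le (τ : Fin m.t) (j l : ℕ) :
    m.rr τ j l ≤ (D.factorial * (j * xx D R) + 1) * (D * (j * xx D R)) := by
  have := p.LL_finite fun i => m.qv j l i + (j * xx D R : ℕ)
  refine cod_le (fun f : Fin (D.factorial * (j * xx D R) + 1) =>
    p.ev ∘ₗ (dv (cz (m.θ τ)) ^ (f : ℕ))) inf_le_left
    (p.LL_step (q := m.qv j l) (fun i => le_trans (by unfold k0; push_cast; nlinarith [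
      (Nat.cast_nonneg D : (0 : ℚ) ≤ D), (Nat.cast_nonneg e : (0 : ℚ) ≤ e)]) (m.k0_le j l i))
      (j * xx D R))
    (p.LL_mono fun i => le_add_of_nonneg_right (by positivity)) (fun f H hH => ?_)
    fun H hH h0 => ⟨hH, m.mem_MT.2 fun i hi => ?_⟩
  · have h1 := dv_pow_mem (W := m.PP j l) (fun G => m.PP_dv (cz (m.θ τ))) f hH
    refine p.mem_LL.2 fun i => ?_
    refine (p.le_of_LB (p.GB_le_LB i _ ((m.mem_PP.1 h1).2 i))).mono ?_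
    have := m.sl_le j i
    linarith
  · obtain ⟨h1, h2⟩ := m.cls_dir i τ hi
    refine p.lb_of_dv (s := j * xx D R) (c := ((m.θ τ).1 : ℂ)) (by exact_mod_cast h1)
      (p.GB_mono i ?_ ((m.mem_PP.1 hH).2 i)) fun f hf => ?_
    · have := m.sl_le j i
      linarith
    · rw [← h2]
      exact p.mem_LL.1 (h0 ⟨f, by omega⟩) i

end Mult

end Pool.Agent.Lib.MP_1f047c_nt.TA
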