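import Pool.Agent.Lib.MP_1f047c_nt.TAChordA

/-! Chords of the square and the two summation formulas for `UU`. -/

open Finset MvPolynomial

namespace Pool.Agent.Lib.MP_1f047c_nt.TA

open PL (wm)

private lemma chord_fac (e : ℕ) : ‖((e.factorial : ℂ))⁻¹‖ ≤ 1 := by
  rw [norm_inv, Complex.norm_natCast]
  exact inv_le_one_of_one_le₀ (by exact_mod_cast e.factorial_pos)

private lemma chord_sum {ι : Type} (s : Finset ι) (c z : ι → ℂ) {B : ℝ} (hc : ∀ i ∈ s, ‖c i‖ ≤ 1)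
    (hz : ∀ i ∈ s, ‖z i‖ ≤ B) : ‖∑ i ∈ s, c i * z i‖ ≤ s.card * B := by
  refine (norm_sum_le _ _).trans ?_
  rw [← nsmul_eq_mul]
  refine Finset.sum_le_card_nsmul _ _ _ fun i hi => ?_
  rw [norm_mul]
  calc ‖c i‖ * ‖z i‖ ≤ 1 * B := mul_le_mul (hc i hi) (hz i hi) (norm_nonneg _) zero_le_one
    _ = B := one_mul B

/-- Poisson summation on a chord. -/
theorem poisC (E : ℕ) {θ : ℤ × ℤ} (hθ : θ ≠ 0) (T : S →ₗ[ℂ] S) (a : ℤ × ℤ) {G : S}
    (hG : G ∈ Vp E) {α β : ℝ} (hαβ : α ≤ β) {R k : ℕ} (hR : 1 ≤ R) (hk : E + 2 ≤ k) {A b : ℝ}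
    (hA : 0 ≤ A) (hb : 0 ≤ b)
    (h : ∀ e ≤ E, BdP α β (Uc E θ T a ((dv (dual (perp θ)) ^ e) G)) A b ∧
      VanP α β (Uc E θ T a ((dv (dual (perp θ)) ^ e) G)) k) :
    ‖∑ j ∈ Icc ⌈α⌉ ⌊β⌋, eval (cz (a + j • perp θ)) (UU E T G) -
        ∑ m ∈ Icc (-(R : ℤ)) R, I1 α β m (Uc E θ T a (tr (wm m • dual (perp θ)) G))‖ ≤
      (E + 1) * (4 * (β - α) * A * (R : ℝ) ^ (E + 2) * (b / R) ^ k) := by
  have e1 : ∑ j ∈ Icc ⌈α⌉ ⌊β⌋, eval (cz (a + j • perp θ)) (UU E T G) -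
        ∑ m ∈ Icc (-(R : ℤ)) R, I1 α β m (Uc E θ T a (tr (wm m • dual (perp θ)) G)) =
      ∑ e ∈ range (E + 1), (e.factorial : ℂ)⁻¹ *
        (∑ j ∈ Icc ⌈α⌉ ⌊β⌋, (Polynomial.derivative^[e]
            (Uc E θ T a ((dv (dual (perp θ)) ^ e) G))).eval (j : ℂ) -
          ∑ m ∈ Icc (-(R : ℤ)) R,
            wm m ^ e * I1 α β m (Uc E θ T a ((dv (dual (perp θ)) ^ e) G))) := by
    simp only [UU_chord E hθ T a _ hG, Uc_tr E θ T a _ _ hG, I1_sum, I1_smul, mul_sub,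
      Finset.sum_sub_distrib, Finset.mul_sum, mul_assoc]
    rw [Finset.sum_comm, Finset.sum_comm (s := Icc (-(R : ℤ)) R)]
  rw [e1]
  have hR' : (1 : ℝ) ≤ R := by exact_mod_cast hR
  have h2 := chord_sum (range (E + 1)) (fun e => (e.factorial : ℂ)⁻¹)
    (fun e => ∑ j ∈ Icc ⌈α⌉ ⌊β⌋, (Polynomial.derivative^[e]
            (Uc E θ T a ((dv (dual (perp θ)) ^ e) G))).eval (j : ℂ) -
          ∑ m ∈ Icc (-(R : ℤ)) R,
            wm m ^ e * I1 α β m (Uc E θ T a ((dv (dual (perp θ)) ^ e) G)))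
    (B := 4 * (β - α) * A * (R : ℝ) ^ (E + 2) * (b / R) ^ k) (fun e _ => chord_fac e)
    (fun e he => by
      have he' : e ≤ E := Nat.lt_succ_iff.1 (Finset.mem_range.1 he)
      refine (poissonP hαβ R k e hR (by omega) _ A b hA hb (h e he').2 (h e he').1).trans ?_
      have h3 : (R : ℝ) ^ (e + 2) ≤ (R : ℝ) ^ (E + 2) := pow_le_pow_right₀ hR' (by omega)
      have h4 : 0 ≤ β - α := sub_nonneg.2 hαβ
      gcongr)
  rw [Finset.card_range] at h2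
  push_cast at h2
  exact h2

/-- Direct bound on a chord. -/
theorem dirC (E : ℕ) {θ : ℤ × ℤ} (hθ : θ ≠ 0) (T : S →ₗ[ℂ] S) (a : ℤ × ℤ) {G : S}
    (hG : G ∈ Vp E) (l : ℕ) {A b : ℝ} (hA : 0 ≤ A) (hb : 1 ≤ b)
    (h : ∀ e ≤ E, BdP 0 l (Uc E θ T a ((dv (dual (perp θ)) ^ e) G)) A b) :
    ‖∑ j ∈ Icc (0 : ℤ) l, eval (cz (a + j • perp θ)) (UU E T G)‖ ≤
      (l + 1) * ((E + 1) * (A * b ^ E)) := by
  have h2 := chord_sum (Icc (0 : ℤ) l) (fun _ => 1)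
    (fun j => eval (cz (a + j • perp θ)) (UU E T G)) (B := (E + 1) * (A * b ^ E))
    (fun _ _ => norm_one.le) (fun j hj => by
      rw [UU_chord E hθ T a j hG]
      have h3 := chord_sum (range (E + 1)) (fun e => (e.factorial : ℂ)⁻¹)
        (fun e => (Polynomial.derivative^[e]
          (Uc E θ T a ((dv (dual (perp θ)) ^ e) G))).eval (j : ℂ)) (B := A * b ^ E)
        (fun e _ => chord_fac e) (fun e he => by
          have he' : e ≤ E := Nat.lt_succ_iff.1 (Finset.mem_range.1 he)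
          obtain ⟨hj0, hj1⟩ := Finset.mem_Icc.1 hj
          have h4 := h e he' e (j : ℝ) ⟨by exact_mod_cast hj0, by exact_mod_cast hj1⟩
          rw [Complex.ofReal_intCast] at h4
          exact h4.trans (mul_le_mul_of_nonneg_left (pow_le_pow_right₀ hb he') hA))
      rw [Finset.card_range] at h3
      push_cast at h3
      exact h3)
  simp only [one_mul, Int.card_Icc, sub_zero] at h2
  have e1 : (((l : ℤ) + 1).toNat : ℝ) = l + 1 := by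
    have : ((l : ℤ) + 1).toNat = l + 1 := by omega
    rw [this]
    push_cast
    ring
  rw [e1] at h2
  exact h2

/-- Poisson summation on the square. -/
theorem poisU (E R : ℕ) (hR : 1 ≤ R) : ∃ c : ℝ, 0 ≤ c ∧ ∀ (n k : ℕ) (T : S →ₗ[ℂ] S) (G : S)
    (A b : ℝ), G ∈ Vp E → 2 * E + 2 ≤ k → 0 ≤ A → 0 ≤ b → b ≤ R →
    (∀ e ≤ E, ∀ f ≤ E, qq n ^ k ∣ T ((dv e1 ^ f * dv e0 ^ e) G) ∧
      Bd2 (sqB n) (T ((dv e1 ^ f * dv e0 ^ e) G)) A b) →
    ‖∑ a ∈ latB n, eval (cz a) (UU E T G) - ∑ m ∈ box R, I2 n m (T (tr (wv m) G))‖ ≤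
      c * (n + 1) ^ 2 * A * (b / R) ^ (k - E) := by
  obtain ⟨c, hc, hp⟩ := poisson2 E R hR
  refine ⟨(E + 1) * ((E + 1) * c), by positivity, ?_⟩
  intro n k T G A b hG hk hA hb hbR h
  have w0 : ∀ m : ℤ × ℤ, wv m 0 = wm m.1 := fun _ => rfl
  have w1 : ∀ m : ℤ × ℤ, wv m 1 = wm m.2 := fun _ => rfl
  have e2 : ∑ a ∈ latB n, eval (cz a) (UU E T G) - ∑ m ∈ box R, I2 n m (T (tr (wv m) G)) =
      ∑ e ∈ range (E + 1), (e.factorial : ℂ)⁻¹ * ∑ f ∈ range (E + 1), (f.factorial : ℂ)⁻¹ *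
        (∑ a ∈ latB n, eval (cz a) ((dv e0 ^ e * dv e1 ^ f) (T ((dv e1 ^ f * dv e0 ^ e) G))) -
          ∑ m ∈ box R, wm m.1 ^ e * wm m.2 ^ f * I2 n m (T ((dv e1 ^ f * dv e0 ^ e) G))) := by
    simp only [UU_apply, taylor2 _ hG, map_sum, map_smul, I2_sum, I2_smul, w0, w1, smul_eval,
      mul_sub, Finset.sum_sub_distrib, Finset.mul_sum, mul_assoc]
    congr 1
    · rw [Finset.sum_comm]
      exact Finset.sum_congr rfl fun e _ => Finset.sum_comm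
    · rw [Finset.sum_comm]
      exact Finset.sum_congr rfl fun e _ => Finset.sum_comm
  rw [e2]
  have h2 := chord_sum (range (E + 1)) (fun e => (e.factorial : ℂ)⁻¹)
    (fun e => ∑ f ∈ range (E + 1), (f.factorial : ℂ)⁻¹ *
        (∑ a ∈ latB n, eval (cz a) ((dv e0 ^ e * dv e1 ^ f) (T ((dv e1 ^ f * dv e0 ^ e) G))) -
          ∑ m ∈ box R, wm m.1 ^ e * wm m.2 ^ f * I2 n m (T ((dv e1 ^ f * dv e0 ^ e) G))))
    (B := (E + 1) * (c * (n + 1) ^ 2 * A * (b / R) ^ (k - E))) (fun e _ => chord_fac e)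
    (fun e he => by
      have he' : e ≤ E := Nat.lt_succ_iff.1 (Finset.mem_range.1 he)
      have h3 := chord_sum (range (E + 1)) (fun f => (f.factorial : ℂ)⁻¹)
        (fun f => ∑ a ∈ latB n, eval (cz a) ((dv e0 ^ e * dv e1 ^ f)
            (T ((dv e1 ^ f * dv e0 ^ e) G))) -
          ∑ m ∈ box R, wm m.1 ^ e * wm m.2 ^ f * I2 n m (T ((dv e1 ^ f * dv e0 ^ e) G)))
        (B := c * (n + 1) ^ 2 * A * (b / R) ^ (k - E)) (fun f _ => chord_fac f)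
        (fun f hf => by
          have hf' : f ≤ E := Nat.lt_succ_iff.1 (Finset.mem_range.1 hf)
          exact hp n k e f _ A b he' hf' hk hA hb hbR (h e he' f hf').1 (h e he' f hf').2)
      rw [Finset.card_range] at h3
      push_cast at h3
      exact h3)
  rw [Finset.card_range] at h2
  push_cast at h2
  exact h2.trans (le_of_eq (by ring))

variable {F : S} {ρ R J E : ℕ} (cd : CD F ρ R J E)

lemma CD.pi0_mem {H : S} (hH : H ∈ cd.P) : cd.pi0 H ∈ cd.Mid := by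
  have e1 : cd.pi0 H = H - ∑ τ, cd.rho τ H := by
    simp only [CD.pi0, LinearMap.sub_apply, LinearMap.id_apply, LinearMap.sum_apply]
  rw [e1]
  refine Submodule.mem_inf.2 ⟨cd.P.sub_mem hH (cd.P.sum_mem fun τ _ => cd.rho_P τ H hH), ?_⟩
  refine (Submodule.mem_iInf _).2 fun τ => ?_
  rw [← Finset.add_sum_erase _ _ (Finset.mem_univ τ), ← sub_sub]
  refine (cd.M τ).sub_mem (cd.rho_sub τ H hH) ((cd.M τ).sum_mem fun τ' hτ' => ?_)
  exact cd.M0_le τ (cd.rho_other τ' τ (Finset.ne_of_mem_erase hτ').symm H hH)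

lemma CD.split (Λ : S →ₗ[ℂ] S) : Λ = Λ ∘ₗ cd.pi0 + ∑ τ, Λ ∘ₗ cd.rho τ := by
  refine LinearMap.ext fun H => ?_
  simp only [CD.pi0, LinearMap.add_apply, LinearMap.comp_apply, LinearMap.sub_apply,
    LinearMap.id_apply, LinearMap.sum_apply, map_sub, map_sum, sub_add_cancel]

lemma CD.tr_P (ξ : Fin 2 → ℂ) {H : S} (hH : H ∈ cd.P) : tr ξ H ∈ cd.P := tr_mem cd.P_dv ξ hH

/-- The top part vanishes on `M τ`. -/
lemma CD.Ex_zero (τ : Fin cd.t) (u : Fin 2 → ℂ) (T : S →ₗ[ℂ] S) {H : S} (hH : H ∈ cd.P)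
    (hM : H ∈ cd.M τ) : Ex E u (cz (cd.θ τ)) (T ∘ₗ cd.rho τ) H = 0 := by
  refine Ex_eq_zero _ _ _ fun f => ?_
  rw [LinearMap.comp_apply, cd.rho_zero τ _ (dv_pow_mem (cd.P_dv _) f hH)
    (dv_pow_mem (cd.M_dv τ) f hM), map_zero]

/-- The top part does not see `rho`. -/
lemma CD.Ex_rho (τ : Fin cd.t) (u : Fin 2 → ℂ) (T : S →ₗ[ℂ] S) {H : S} (hH : H ∈ cd.P) :
    Ex E u (cz (cd.θ τ)) (T ∘ₗ cd.rho τ) (cd.rho τ H) = Ex E u (cz (cd.θ τ)) (T ∘ₗ cd.rho τ) H := by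
  have h := cd.Ex_zero τ u T (cd.P.sub_mem hH (cd.rho_P τ H hH)) (cd.rho_sub τ H hH)
  rw [map_sub, sub_eq_zero] at h
  exact h.symm

end Pool.Agent.Lib.MP_1f047c_nt.TA
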