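import Pool.Agent.Lib.MP_1f047c_nt.TAUUA

/-! The operators `Ex` and `UU`. -/

open Finset MvPolynomial

namespace Pool.Agent.Lib.MP_1f047c_nt.TA

open PL (wm)

lemma UU_apply (E : ℕ) (Λ : S →ₗ[ℂ] S) (G : S) :
    UU E Λ G = ∑ e ∈ range (E + 1), ∑ f ∈ range (E + 1),
      ((e.factorial : ℂ)⁻¹ * (f.factorial : ℂ)⁻¹) •
        (dv e0 ^ e * dv e1 ^ f) (Λ ((dv e1 ^ f * dv e0 ^ e) G)) := by
  rw [UU, Ex_apply]
  refine Finset.sum_congr rfl fun e _ => ?_
  rw [Ex_apply, map_sum, Finset.smul_sum]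
  refine Finset.sum_congr rfl fun f _ => ?_
  rw [map_smul, smul_smul, Module.End.mul_apply, Module.End.mul_apply]

lemma UU_add (E : ℕ) (Λ Λ' : S →ₗ[ℂ] S) : UU E (Λ + Λ') = UU E Λ + UU E Λ' := by
  rw [UU, Ex_add, Ex_add, UU, UU]

lemma UU_smul (E : ℕ) (c : ℂ) (Λ : S →ₗ[ℂ] S) : UU E (c • Λ) = c • UU E Λ := by
  rw [UU, Ex_smul, Ex_smul, UU]

lemma UU_sum {ι : Type} (s : Finset ι) (E : ℕ) (Λ : ι → S →ₗ[ℂ] S) :
    UU E (∑ i ∈ s, Λ i) = ∑ i ∈ s, UU E (Λ i) := by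
  rw [UU, Ex_sum, Ex_sum]
  rfl

lemma UU_tr (E : ℕ) (ξ : Fin 2 → ℂ) (Λ : S →ₗ[ℂ] S) (G : S) :
    UU E ((tr ξ).toLinearMap ∘ₗ Λ) G = tr ξ (UU E Λ G) := by
  rw [UU_apply, UU_apply, map_sum]
  refine Finset.sum_congr rfl fun e _ => ?_
  rw [map_sum]
  refine Finset.sum_congr rfl fun f _ => ?_
  rw [map_smul, LinearMap.comp_apply, AlgHom.toLinearMap_apply, Module.End.mul_apply, dv_pow_tr,
    dv_pow_tr, Module.End.mul_apply (dv e0 ^ e)]

private lemma uu_Ex_one (E : ℕ) (u θ : Fin 2 → ℂ) (Λ : S →ₗ[ℂ] S) : Ex E u θ Λ 1 = Λ 1 := by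
  rw [Ex_apply, Finset.sum_eq_single 0]
  · simp
  · intro f _ hf
    have h := dv_pow_zero θ θ (i := f) (j := 0) (one_mem_Vp 0) (by omega)
    rw [pow_zero, mul_one] at h
    rw [h, map_zero, map_zero, smul_zero]
  · intro h
    exact absurd (Finset.mem_range.2 (Nat.succ_pos E)) h

lemma UU_one (E : ℕ) (Λ : S →ₗ[ℂ] S) : UU E Λ 1 = Λ 1 := by
  rw [UU, uu_Ex_one, uu_Ex_one]

/-- Derivative on both sides. -/
private noncomputable def uuA (u θ : Fin 2 → ℂ) : Module.End ℂ (S →ₗ[ℂ] S) where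
  toFun Λ := dv u ∘ₗ Λ ∘ₗ dv θ
  map_add' Λ Λ' := by rw [LinearMap.add_comp, LinearMap.comp_add]
  map_smul' c Λ := by rw [LinearMap.smul_comp, LinearMap.comp_smul, RingHom.id_apply]

private lemma uuA_apply (u θ : Fin 2 → ℂ) (Λ : S →ₗ[ℂ] S) (G : S) :
    uuA u θ Λ G = dv u (Λ (dv θ G)) := rfl

private lemma uuA_pow (u θ : Fin 2 → ℂ) (k : ℕ) (Λ : S →ₗ[ℂ] S) (G : S) :
    (uuA u θ ^ k) Λ G = (dv u ^ k) (Λ ((dv θ ^ k) G)) := by
  induction k generalizing G with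
  | zero => simp
  | succ k ih =>
    rw [pow_succ', Module.End.mul_apply, uuA_apply, ih, pow_succ' (dv u), pow_succ (dv θ),
      Module.End.mul_apply, Module.End.mul_apply]

private lemma uu_dv_dv (v w : Fin 2 → ℂ) (G : S) : dv v (dv w G) = dv w (dv v G) :=
  LinearMap.congr_fun (dv_comm v w).eq G

private lemma uuA_comm (u θ u' θ' : Fin 2 → ℂ) : Commute (uuA u θ) (uuA u' θ') := by
  refine LinearMap.ext fun Λ => LinearMap.ext fun G => ?_
  simp only [Module.End.mul_apply, uuA_apply]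
  rw [uu_dv_dv u u', uu_dv_dv θ θ']

private lemma uu_square {M : Type} [AddCommMonoid M] (E : ℕ) (f : ℕ → ℕ → M)
    (h : ∀ i j, E < i + j → f i j = 0) :
    ∑ i ∈ range (E + 1), ∑ j ∈ range (E + 1), f i j =
      ∑ n ∈ range (E + 1), ∑ k ∈ range (n + 1), f k (n - k) := by
  rw [Finset.sum_range_diag_flip]
  refine Finset.sum_congr rfl fun i _ => ?_
  refine (Finset.sum_subset (Finset.range_subset_range.2 (Nat.sub_le _ _)) fun j _ hj => ?_).symm
  rw [Finset.mem_range] at hj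
  exact h i j (by omega)

private lemma uu_Ex_Ex (E : ℕ) (v θ' u θ : Fin 2 → ℂ) (Λ : S →ₗ[ℂ] S) {G : S} (hG : G ∈ Vp E) :
    Ex E v θ' (Ex E u θ Λ) G =
      ∑ n ∈ range (E + 1), ((n.factorial : ℂ)⁻¹) • ((uuA v θ' + uuA u θ) ^ n) Λ G := by
  have h1 : Ex E v θ' (Ex E u θ Λ) G = ∑ e ∈ range (E + 1), ∑ f ∈ range (E + 1),
      ((e.factorial : ℂ)⁻¹ * (f.factorial : ℂ)⁻¹) • (uuA v θ' ^ e * uuA u θ ^ f) Λ G := by
    rw [Ex_apply]
    refine Finset.sum_congr rfl fun e _ => ?_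
    rw [Ex_apply, map_sum, Finset.smul_sum]
    refine Finset.sum_congr rfl fun f _ => ?_
    rw [map_smul, smul_smul, Module.End.mul_apply, uuA_pow, uuA_pow]
  rw [h1, uu_square]
  · refine Finset.sum_congr rfl fun n _ => ?_
    rw [(uuA_comm v θ' u θ).add_pow, LinearMap.sum_apply, LinearMap.sum_apply, Finset.smul_sum]
    refine Finset.sum_congr rfl fun k hk => ?_
    have hk' : k ≤ n := Nat.lt_succ_iff.1 (Finset.mem_range.1 hk)
    rw [Module.End.mul_apply _ (n.choose k : Module.End ℂ (S →ₗ[ℂ] S)), Module.End.natCast_apply,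
      map_nsmul, LinearMap.smul_apply, ← Nat.cast_smul_eq_nsmul ℂ, smul_smul]
    congr 1
    have h2 : (n.factorial : ℂ) = n.choose k * k.factorial * (n - k).factorial := by
      exact_mod_cast (Nat.choose_mul_factorial_mul_factorial hk').symm
    have h3 : (k.factorial : ℂ) ≠ 0 := by exact_mod_cast k.factorial_ne_zero
    have h4 : ((n - k).factorial : ℂ) ≠ 0 := by exact_mod_cast (n - k).factorial_ne_zero
    have h5 : (n.choose k : ℂ) ≠ 0 := by exact_mod_cast (Nat.choose_pos hk').ne'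
    rw [h2]
    field_simp
  · intro i j hij
    have h2 := dv_pow_zero θ θ' (i := j) (j := i) hG (by omega)
    rw [Module.End.mul_apply] at h2
    rw [Module.End.mul_apply, uuA_pow, uuA_pow, h2, map_zero, map_zero, map_zero, smul_zero]

/-- Change of coordinates. -/
theorem UU_dual (E : ℕ) {v θ' u θ : Fin 2 → ℂ}
    (h : ∀ i j, v i * θ' j + u i * θ j = if i = j then 1 else 0) (Λ : S →ₗ[ℂ] S) {G : S}
    (hG : G ∈ Vp E) : UU E Λ G = Ex E v θ' (Ex E u θ Λ) G := by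
  have h1 : uuA e0 e0 + uuA e1 e1 = uuA v θ' + uuA u θ := by
    refine LinearMap.ext fun T => LinearMap.ext fun H => ?_
    simp only [LinearMap.add_apply, uuA_apply]
    rw [dv_eq v, dv_eq θ', dv_eq u, dv_eq θ]
    simp only [LinearMap.add_apply, LinearMap.smul_apply, map_add, map_smul]
    have h00 : v 0 * θ' 0 + u 0 * θ 0 = 1 := by simpa using h 0 0
    have h01 : v 0 * θ' 1 + u 0 * θ 1 = 0 := by simpa using h 0 1
    have h10 : v 1 * θ' 0 + u 1 * θ 0 = 0 := by simpa using h 1 0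
    have h11 : v 1 * θ' 1 + u 1 * θ 1 = 1 := by simpa using h 1 1
    linear_combination (norm := module) (-h00) • dv e0 (T (dv e0 H)) + (-h01) • dv e0 (T (dv e1 H)) +
      (-h10) • dv e1 (T (dv e0 H)) + (-h11) • dv e1 (T (dv e1 H))
  rw [UU, uu_Ex_Ex E _ _ _ _ Λ hG, uu_Ex_Ex E _ _ _ _ Λ hG, h1]

lemma dual_id {θ : ℤ × ℤ} (hθ : θ ≠ 0) (i j : Fin 2) :
    cz (perp θ) i * dual (perp θ) j + dual θ i * cz θ j = if i = j then 1 else 0 := by
  have h0 : θ.1 ^ 2 + θ.2 ^ 2 ≠ 0 := by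
    intro h
    apply hθ
    have h1 : θ.1 = 0 := by nlinarith [sq_nonneg θ.1, sq_nonneg θ.2]
    have h2 : θ.2 = 0 := by nlinarith [sq_nonneg θ.1, sq_nonneg θ.2]
    exact Prod.ext h1 h2
  have h1 : (θ.1 : ℂ) ^ 2 + (θ.2 : ℂ) ^ 2 ≠ 0 := by exact_mod_cast h0
  have h2 : (θ.2 : ℂ) ^ 2 + (θ.1 : ℂ) ^ 2 ≠ 0 := by rwa [add_comm]
  fin_cases i <;> fin_cases j <;> simp [cz, perp, dual] <;> field_simp <;> ring

private lemma uu_Ex_comp (E : ℕ) (u θ w : Fin 2 → ℂ) (g : ℕ) (T : S →ₗ[ℂ] S) (H : S) :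
    Ex E u θ (T ∘ₗ (dv w ^ g)) H = Ex E u θ T ((dv w ^ g) H) := by
  rw [Ex_apply, Ex_apply]
  refine Finset.sum_congr rfl fun f _ => ?_
  have h := LinearMap.congr_fun ((dv_comm w θ).pow_pow g f).eq H
  rw [Module.End.mul_apply, Module.End.mul_apply] at h
  rw [LinearMap.comp_apply, h]

/-- Multiplication by a test function keeps the zeros. -/
theorem UU_mul_zero (E : ℕ) (φ : S) (Λ : S →ₗ[ℂ] S) (x : Fin 2 → ℂ)
    (h : ∀ H ∈ Vp E, eval x (UU E Λ H) = 0) {G : S} (hG : G ∈ Vp E) :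
    eval x (UU E (LinearMap.mulLeft ℂ φ ∘ₗ Λ) G) = 0 := by
  have h1 : UU E (LinearMap.mulLeft ℂ φ ∘ₗ Λ) G =
      Ex E e0 e0 (∑ g ∈ range (E + 1), ((g.factorial : ℂ)⁻¹) •
        (LinearMap.mulLeft ℂ ((dv e1 ^ g) φ) ∘ₗ (Ex E e1 e1 Λ ∘ₗ (dv e1 ^ g)))) G := by
    refine Ex_congr E e0 e0 fun f => ?_
    rw [Ex_mul E e1 e1 φ Λ (dv_pow_Vp e0 f hG), LinearMap.sum_apply]
    rfl
  rw [h1, Ex_sum, LinearMap.sum_apply, map_sum]
  refine Finset.sum_eq_zero fun g _ => ?_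
  rw [Ex_smul, LinearMap.smul_apply, smul_eval, Ex_mul E e0 e0 _ _ hG, map_sum]
  refine mul_eq_zero_of_right _ (Finset.sum_eq_zero fun f _ => ?_)
  rw [smul_eval, map_mul, uu_Ex_comp]
  have h2 := h _ (dv_pow_Vp e1 g (dv_pow_Vp e0 f hG))
  rw [UU] at h2
  rw [h2, mul_zero, mul_zero]

/-- The value of `UU` on a lattice line. -/
theorem UU_chord (E : ℕ) {θ : ℤ × ℤ} (hθ : θ ≠ 0) (T : S →ₗ[ℂ] S) (a : ℤ × ℤ) (j : ℤ) {G : S}
    (hG : G ∈ Vp E) : eval (cz (a + j • perp θ)) (UU E T G) =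
      ∑ e ∈ range (E + 1), (e.factorial : ℂ)⁻¹ * (Polynomial.derivative^[e]
        (Uc E θ T a ((dv (dual (perp θ)) ^ e) G))).eval (j : ℂ) := by
  have h1 : cz (a + j • perp θ) = cz a + (j : ℂ) • cz (perp θ) := by
    funext i
    fin_cases i <;> simp [cz]
  rw [UU_dual E (dual_id hθ) T hG, Ex_apply, map_sum, h1]
  refine Finset.sum_congr rfl fun e _ => ?_
  rw [smul_eval, Uc, lr_dv_pow, lr_evalC]

lemma Uc_tr (E : ℕ) (θ : ℤ × ℤ) (T : S →ₗ[ℂ] S) (a : ℤ × ℤ) (w : ℂ) (v : Fin 2 → ℂ) {G : S}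
    (hG : G ∈ Vp E) : Uc E θ T a (tr (w • v) G) =
      ∑ e ∈ range (E + 1), ((e.factorial : ℂ)⁻¹ * w ^ e) • Uc E θ T a ((dv v ^ e) G) := by
  rw [taylor_smul w v hG]
  simp only [Uc, map_sum, map_smul]

private lemma uu_sep0 (e : ℕ) (D D' : Polynomial ℂ) :
    (dv e0 ^ e) (Polynomial.aeval (X 0 : S) D * Polynomial.aeval (X 1 : S) D') =
      Polynomial.aeval (X 0 : S) (Polynomial.derivative^[e] D) * Polynomial.aeval (X 1 : S) D' := by
  induction e with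
  | zero => simp
  | succ e ih =>
    rw [pow_succ', Module.End.mul_apply, ih, dv_mul, dv_aeval, dv_aeval, dv_X, dv_X,
      Function.iterate_succ_apply']
    simp [e0]

private lemma uu_sep1 (e : ℕ) (D D' : Polynomial ℂ) :
    (dv e1 ^ e) (Polynomial.aeval (X 0 : S) D * Polynomial.aeval (X 1 : S) D') =
      Polynomial.aeval (X 0 : S) D * Polynomial.aeval (X 1 : S) (Polynomial.derivative^[e] D') := by
  induction e with
  | zero => simp
  | succ e ih =>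
    rw [pow_succ', Module.End.mul_apply, ih, dv_mul, dv_aeval, dv_aeval, dv_X, dv_X,
      Function.iterate_succ_apply']
    simp [e1]

private lemma uu_eval (x : Fin 2 → ℂ) (k : Fin 2) (D : Polynomial ℂ) :
    eval x (Polynomial.aeval (X k : S) D) = D.eval (x k) := by
  rw [← coe_aeval_eq_eval]
  change aeval x (Polynomial.aeval (X k : S) D) = _
  rw [← Polynomial.aeval_algHom_apply, aeval_X, Polynomial.coe_aeval_eq_eval]

/-- The value of `UU` on a monomial for a map of rank one. -/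
theorem UU_row (E : ℕ) (ψ : S →ₗ[ℂ] ℂ) (D D' : Polynomial ℂ) (a b i j : ℕ) (hi : i ≤ E)
    (hj : j ≤ E) :
    eval (cz (a, b)) (UU E (ψ.smulRight (Polynomial.aeval (X 0 : S) D * Polynomial.aeval (X 1 : S) D'))
      (X 0 ^ i * X 1 ^ j)) = rowF (fun i j => ψ (X 0 ^ i * X 1 ^ j)) D D' a i b j := by
  have h1 : ∀ e f : ℕ, (dv e1 ^ f * dv e0 ^ e) (X 0 ^ i * X 1 ^ j : S) =
      ((i.descFactorial e : ℂ) * (j.descFactorial f : ℂ)) • (X 0 ^ (i - e) * X 1 ^ (j - f)) := by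
    intro e f
    have h2 : (X 0 ^ i * X 1 ^ j : S) = Polynomial.aeval (X 0 : S) (Polynomial.X ^ i : Polynomial ℂ) *
        Polynomial.aeval (X 1 : S) (Polynomial.X ^ j : Polynomial ℂ) := by simp
    rw [h2, Module.End.mul_apply, uu_sep0, uu_sep1, Polynomial.iterate_derivative_X_pow_eq_smul,
      Polynomial.iterate_derivative_X_pow_eq_smul]
    simp only [map_smul, map_pow, Polynomial.aeval_X]
    rw [smul_mul_smul_comm]
  have h3 : ∀ e f : ℕ, eval (cz (a, b)) (((e.factorial : ℂ)⁻¹ * (f.factorial : ℂ)⁻¹) •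
      (dv e0 ^ e * dv e1 ^ f)
        ((ψ.smulRight (Polynomial.aeval (X 0 : S) D * Polynomial.aeval (X 1 : S) D'))
          ((dv e1 ^ f * dv e0 ^ e) (X 0 ^ i * X 1 ^ j)))) =
      (i.choose e : ℂ) * (j.choose f : ℂ) * ψ (X 0 ^ (i - e) * X 1 ^ (j - f)) *
        ((Polynomial.derivative^[e] D).eval (a : ℂ) * (Polynomial.derivative^[f] D').eval (b : ℂ)) := by
    intro e f
    have h4 : (e.factorial : ℂ) ≠ 0 := by exact_mod_cast e.factorial_ne_zero
    have h5 : (f.factorial : ℂ) ≠ 0 := by exact_mod_cast f.factorial_ne_zero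
    rw [h1, LinearMap.smulRight_apply, map_smul ψ, map_smul (dv e0 ^ e * dv e1 ^ f),
      Module.End.mul_apply, uu_sep1, uu_sep0,
      smul_eval, smul_eval, map_mul (eval (cz (a, b))), uu_eval, uu_eval, Nat.descFactorial_eq_factorial_mul_choose,
      Nat.descFactorial_eq_factorial_mul_choose]
    simp only [cz, Matrix.cons_val_zero, Matrix.cons_val_one, Int.cast_natCast, smul_eq_mul,
      Nat.cast_mul]
    field_simp
  rw [UU_apply, map_sum, rowF]
  simp only [map_sum, h3]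
  refine (Finset.sum_subset (Finset.range_subset_range.2 (Nat.succ_le_succ hi))
    fun e _ he => ?_).symm.trans ?_
  · rw [Finset.mem_range] at he
    refine Finset.sum_eq_zero fun f _ => ?_
    rw [Nat.choose_eq_zero_of_lt (by omega : i < e)]
    simp
  · refine Finset.sum_congr rfl fun e _ => ?_
    refine (Finset.sum_subset (Finset.range_subset_range.2 (Nat.succ_le_succ hj))
      fun f _ hf => ?_).symm
    rw [Finset.mem_range] at hf
    rw [Nat.choose_eq_zero_of_lt (by omega : j < f)]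
    simp

end Pool.Agent.Lib.MP_1f047c_nt.TA
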