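import Pool.Agent.Lib.MP_1f047c_nt.TAInt
import Pool.Agent.Lib.MP_1f047c_nt.TAUU

/-! Chords of the square and the two summation formulas for `UU`. -/

open Finset MvPolynomial

namespace Pool.Agent.Lib.MP_1f047c_nt.TA

open PL (wm)

private theorem chordA_eval (n : ℕ) (a v : ℤ × ℤ) (y : ℝ) :
    (lr (cz a) (cz v) (qq n)).eval (y : ℂ) =
      ((((a.1 : ℝ) + y * v.1) * (n - (a.1 + y * v.1)) *
        (((a.2 : ℝ) + y * v.2) * (n - (a.2 + y * v.2))) : ℝ) : ℂ) := by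
  simp [lr, qq, cz]
  ring

private theorem chordA_mem (n : ℕ) (a : ℤ × ℤ) : a ∈ latB n ↔ ((a.1 : ℝ), (a.2 : ℝ)) ∈ sqB n := by
  simp only [latB, sqB, mem_product, mem_Icc, Set.mem_prod, Set.mem_Icc]
  norm_cast

/-- The chord through a lattice point. -/
theorem exists_chord (n : ℕ) {a v : ℤ × ℤ} (ha : a ∈ latB n) (hv : v ≠ 0) : ∃ α β : ℝ,
    α ≤ 0 ∧ 0 ≤ β ∧ β - α ≤ n ∧
      (∀ y : ℝ, ((a.1 : ℝ) + y * v.1, (a.2 : ℝ) + y * v.2) ∈ sqB n ↔ y ∈ Set.Icc α β) ∧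
      (lr (cz a) (cz v) (qq n)).eval (α : ℂ) = 0 ∧ (lr (cz a) (cz v) (qq n)).eval (β : ℂ) = 0 := by
  let g : ℝ → ℝ × ℝ := fun y => ((a.1 : ℝ) + y * v.1, (a.2 : ℝ) + y * v.2)
  have hg : Continuous g := by fun_prop
  have h0 : (0 : ℝ) ∈ g ⁻¹' sqB n := by simpa [g] using (chordA_mem n a).1 ha
  have h1 : ∀ y ∈ g ⁻¹' sqB n, ∀ z ∈ g ⁻¹' sqB n, |y - z| ≤ n := by
    rintro y ⟨⟨a1, a2⟩, a3, a4⟩ z ⟨⟨b1, b2⟩, b3, b4⟩
    simp only [g] at a1 a2 a3 a4 b1 b2 b3 b4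
    have h2 : ∀ w : ℤ, w ≠ 0 → |(y - z) * w| ≤ n → |y - z| ≤ n := fun w hw h => by
      rw [abs_mul] at h
      exact (le_mul_of_one_le_right (abs_nonneg _) (by exact_mod_cast Int.one_le_abs hw)).trans h
    by_cases h3 : v.1 = 0
    · exact h2 v.2 (fun h => hv (Prod.ext h3 h)) (abs_le.2 ⟨by linarith, by linarith⟩)
    · exact h2 v.1 h3 (abs_le.2 ⟨by linarith, by linarith⟩)
  have h2 : Convex ℝ (g ⁻¹' sqB n) := by
    intro y hy z hz s t hs ht hst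
    have h3 := ((convex_Icc (0 : ℝ) n).prod (convex_Icc (0 : ℝ) n)) hy hz hs ht hst
    have h4 : g (s • y + t • z) = s • g y + t • g z := by
      obtain rfl : t = 1 - s := by linarith
      ext <;> simp [g] <;> ring
    rw [Set.mem_preimage, h4]
    exact h3
  obtain ⟨α, β, h3⟩ : ∃ α β, g ⁻¹' sqB n = Set.Icc α β :=
    ⟨_, _, eq_Icc_csInf_csSup_of_connected_bdd_closed (h2.isConnected ⟨0, h0⟩)
      ⟨-n, fun y hy => by simpa using (abs_le.1 (h1 y hy 0 h0)).1⟩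
      ⟨n, fun y hy => by simpa using (abs_le.1 (h1 y hy 0 h0)).2⟩
      ((isClosed_Icc.prod isClosed_Icc).preimage hg)⟩
  have h4 : ∀ y ∈ Set.Icc α β, y ∉ Set.Ioo α β → (lr (cz a) (cz v) (qq n)).eval (y : ℂ) = 0 := by
    intro y hy hy'
    rw [← h3] at hy
    obtain ⟨⟨a1, a2⟩, a3, a4⟩ := hy
    rw [chordA_eval, Complex.ofReal_eq_zero]
    by_contra h
    simp only [mul_eq_zero, not_or, sub_eq_zero] at h
    refine hy' (Icc_mem_nhds_iff.1 ?_)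
    rw [← h3]
    exact hg.continuousAt.preimage_mem_nhds (prod_mem_nhds
      (Icc_mem_nhds (a1.lt_of_ne' h.1.1) (a2.lt_of_ne' h.1.2))
      (Icc_mem_nhds (a3.lt_of_ne' h.2.1) (a4.lt_of_ne' h.2.2)))
  rw [h3] at h0 h1
  have h5 : α ≤ β := h0.1.trans h0.2
  exact ⟨α, β, h0.1, h0.2,
    (le_abs_self _).trans (h1 β (Set.right_mem_Icc.2 h5) α (Set.left_mem_Icc.2 h5)),
    fun y => h3 ▸ Iff.rfl, h4 α (Set.left_mem_Icc.2 h5) Set.left_notMem_Ioo,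
    h4 β (Set.right_mem_Icc.2 h5) Set.right_notMem_Ioo⟩

/-- Summation over the square chord by chord. -/
theorem sum_chords (n : ℕ) {v : ℤ × ℤ} (hv : v ≠ 0) (f : ℤ × ℤ → ℂ) {T : ℝ} (hT : 0 ≤ T)
    (h : ∀ a ∈ latB n, ∃ α β : ℝ,
      (∀ y : ℝ, ((a.1 : ℝ) + y * v.1, (a.2 : ℝ) + y * v.2) ∈ sqB n ↔ y ∈ Set.Icc α β) ∧
        ‖∑ j ∈ Icc ⌈α⌉ ⌊β⌋, f (a + j • v)‖ ≤ T) :
    ‖∑ a ∈ latB n, f a‖ ≤ (n + 1) ^ 2 * T := by
  classical
  let π : ℤ × ℤ → (ℤ × ℤ) ⧸ AddSubgroup.zmultiples v := QuotientAddGroup.mk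
  rw [← sum_fiberwise_of_maps_to (g := π) fun a ha => mem_image_of_mem π ha]
  refine (norm_sum_le _ _).trans ((sum_le_card_nsmul _ _ T fun c hc => ?_).trans ?_)
  · obtain ⟨a, ha, rfl⟩ := mem_image.1 hc
    obtain ⟨α, β, h1, h2⟩ := h a ha
    refine le_of_eq_of_le (congrArg norm ?_) h2
    have h3 : ∀ j : ℤ, a + j • v ∈ latB n ↔ j ∈ Icc ⌈α⌉ ⌊β⌋ := fun j => by
      rw [chordA_mem, mem_Icc, Int.ceil_le, Int.le_floor, ← Set.mem_Icc, ← h1]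
      simp
    symm
    refine sum_bij (fun j _ => a + j • v) (fun j hj => mem_filter.2 ⟨(h3 j).2 hj, ?_⟩)
      (fun i _ j _ e => smul_left_injective ℤ hv (add_left_cancel e)) (fun b hb => ?_)
      fun _ _ => rfl
    · exact QuotientAddGroup.mk_add_of_mem a (AddSubgroup.zsmul_mem_zmultiples v j)
    · obtain ⟨h4, h5⟩ := mem_filter.1 hb
      obtain ⟨j, hj⟩ := QuotientAddGroup.eq.1 h5.symm
      have h6 : a + j • v = b := by
        rw [show j • v = -a + b from hj]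
        abel
      exact ⟨j, (h3 j).1 (h6 ▸ h4), h6⟩
  · rw [nsmul_eq_mul]
    refine mul_le_mul_of_nonneg_right ?_ hT
    have h1 : ((latB n).image π).card ≤ (n + 1) ^ 2 := card_image_le.trans (by
      simp [latB, sq])
    exact_mod_cast h1

end Pool.Agent.Lib.MP_1f047c_nt.TA
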