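import Pool.Agent.Lib.MP_1f047c_nt.TAFieldB

/-! Reduction to an absolutely irreducible monic polynomial. -/

open Finset MvPolynomial

namespace Pool.Agent.Lib.MP_1f047c_nt.TA

section FieldAux

variable {K 𝕜 : Type} [CommRing K] [CommRing 𝕜]

lemma fld_toBi_X0 : toBi (X 0 : MvPolynomial (Fin 2) K) = Polynomial.C Polynomial.X :=
  Polynomial.Bivariate.equivMvPolynomial_symm_X_0

lemma fld_toBi_X1 : toBi (X 1 : MvPolynomial (Fin 2) K) = Polynomial.X :=
  Polynomial.Bivariate.equivMvPolynomial_symm_X_1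

lemma fld_toBi_C (a : K) : toBi (C a : MvPolynomial (Fin 2) K) = Polynomial.C (Polynomial.C a) :=
  Polynomial.Bivariate.equivMvPolynomial_symm_C a

lemma fld_eval₂_toBi (φ : K →+* 𝕜) (P : Fin 2 → 𝕜) (G : MvPolynomial (Fin 2) K) :
    eval₂ φ P G = Polynomial.eval₂ (Polynomial.eval₂RingHom φ (P 0)) (P 1) (toBi G) := by
  induction G using MvPolynomial.induction_on with
  | C a => rw [fld_toBi_C]; simp
  | add p q hp hq => rw [eval₂_add, hp, hq, toBi, toBi, toBi, map_add, Polynomial.eval₂_add]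
  | mul_X p k hp =>
    rw [eval₂_mul, hp, toBi, toBi, map_mul, Polynomial.eval₂_mul]
    congr 1
    fin_cases k
    · simp
    · simp

lemma fld_toBi_map (φ : K →+* 𝕜) (G : MvPolynomial (Fin 2) K) :
    toBi (MvPolynomial.map φ G) = (toBi G).map (Polynomial.mapRingHom φ) := by
  induction G using MvPolynomial.induction_on with
  | C a => rw [map_C, fld_toBi_C, fld_toBi_C]; simp
  | add p q hp hq =>
    rw [map_add, toBi, map_add, toBi, map_add, Polynomial.map_add, ← hp, ← hq]
  | mul_X p k hp =>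
    rw [map_mul, toBi, map_mul, toBi, map_mul, Polynomial.map_mul, ← hp, map_X]
    congr 1
    fin_cases k
    · simp
    · simp

lemma fld_eval₂_fib (φ : K →+* 𝕜) (z : 𝕜) (G : MvPolynomial (Fin 2) K) :
    eval₂ φ ![0, z] G = Polynomial.eval₂ φ z (fib G 0) := by
  rw [fld_eval₂_toBi, fib, Polynomial.eval₂_map]
  congr 1
  ext a <;> simp

lemma fld_toBi_mono (i j : ℕ) : toBi (X 0 ^ i * X 1 ^ j : MvPolynomial (Fin 2) K) =
    Polynomial.C (Polynomial.X ^ i) * Polynomial.X ^ j := by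
  rw [toBi, map_mul, map_pow, map_pow]
  simp

lemma fld_coeff_deg (F : MvPolynomial (Fin 2) K) (b : ℕ) :
    ((toBi F).coeff b).natDegree ≤ F.totalDegree := by
  conv_lhs => rw [F.as_sum]
  rw [toBi, map_sum, Polynomial.finsetSum_coeff]
  refine Polynomial.natDegree_sum_le_of_forall_le _ _ fun m hm => ?_
  have h1 : (monomial m (coeff m F) : MvPolynomial (Fin 2) K) =
      C (coeff m F) * (X 0 ^ m 0 * X 1 ^ m 1) := by
    rw [monomial_eq, Finsupp.prod_fintype _ _ (by simp), Fin.prod_univ_two]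
  have h2 : m 0 ≤ F.totalDegree := by
    have h3 := le_totalDegree hm
    rw [Finsupp.sum_fintype _ _ (by simp), Fin.sum_univ_two] at h3
    omega
  rw [h1, map_mul]
  change ((toBi _ * toBi _).coeff b).natDegree ≤ _
  rw [fld_toBi_C, fld_toBi_mono, ← mul_assoc, ← map_mul, Polynomial.coeff_C_mul,
    Polynomial.coeff_X_pow]
  split_ifs
  · rw [mul_one]
    exact (Polynomial.natDegree_C_mul_le _ _).trans ((Polynomial.natDegree_X_pow_le _).trans h2)
  · simp

lemma fld_rem [Nontrivial K] {f : Polynomial (Polynomial K)} {D n : ℕ} (hD : 1 ≤ D) (hm : f.Monic)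
    (hd : f.natDegree = D) (hc : ∀ b, (f.coeff b).natDegree ≤ n) (j : ℕ) :
    ∀ b, ((Polynomial.X ^ j %ₘ f).coeff b).natDegree ≤ j * n := by
  have hdeg : f.degree = (D : ℕ) := by rw [Polynomial.degree_eq_natDegree hm.ne_zero, hd]
  induction j with
  | zero =>
    intro b
    have h1 : (1 : Polynomial (Polynomial K)) %ₘ f = 1 := by
      rw [Polynomial.modByMonic_eq_self_iff hm, hdeg, Polynomial.degree_one]
      exact_mod_cast hD
    rw [pow_zero, h1, Polynomial.coeff_one]
    split_ifs <;> simp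
  | succ j ih =>
    obtain ⟨d, rfl⟩ : ∃ d, D = d + 1 := ⟨D - 1, by omega⟩
    set r := Polynomial.X ^ j %ₘ f with hr
    have hlt : r.degree < (d + 1 : ℕ) := hdeg ▸ Polynomial.degree_modByMonic_lt _ hm
    have hz : ∀ m, d + 1 ≤ m → r.coeff m = 0 := (Polynomial.degree_lt_iff_coeff_zero _ _).1 hlt
    have h1 : Polynomial.X ^ (j + 1) %ₘ f = Polynomial.X * r - Polynomial.C (r.coeff d) * f := by
      refine (Polynomial.div_modByMonic_unique
        (Polynomial.X * (Polynomial.X ^ j /ₘ f) + Polynomial.C (r.coeff d)) _ hm ⟨?_, ?_⟩).2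
      · have h2 := Polynomial.modByMonic_add_div (Polynomial.X ^ j) f
        rw [← hr] at h2
        rw [pow_succ]
        linear_combination Polynomial.X * h2
      · rw [hdeg, Polynomial.degree_lt_iff_coeff_zero]
        intro m hm'
        obtain ⟨m', rfl⟩ : ∃ m', m = m' + 1 := ⟨m - 1, by omega⟩
        rw [Polynomial.coeff_sub, Polynomial.coeff_X_mul, Polynomial.coeff_C_mul]
        rcases eq_or_lt_of_le hm' with h | h
        · have h3 : m' = d := by omega
          subst h3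
          have h4 : f.coeff (m' + 1) = 1 := by
            rw [← hd]
            exact hm
          rw [h4, mul_one, sub_self]
        · rw [hz m' (by omega), Polynomial.coeff_eq_zero_of_natDegree_lt (p := f) (by omega)]
          simp
    intro b
    rw [h1, Polynomial.coeff_sub, Polynomial.coeff_C_mul]
    refine (Polynomial.natDegree_sub_le _ _).trans (max_le ?_ ?_)
    · rcases b with _ | b
      · simp
      · rw [Polynomial.coeff_X_mul]
        exact (ih b).trans (by nlinarith)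
    · refine Polynomial.natDegree_mul_le.trans ?_
      have := ih d
      have := hc b
      nlinarith

end FieldAux

/-- The case of lines. -/
theorem line_case {L 𝕜 : Type} [Field L] [CharZero L] [Field 𝕜] (φ : L →+* 𝕜) (ι : L →+* ℂ)
    {G : MvPolynomial (Fin 2) L} {D : ℕ} (hG : Mon G D) (hs : (fib G 0).Splits) {θ : ℤ × ℤ}
    (hθ : θ ≠ 0) (h : ∀ t : ℂ, MvPolynomial.map ι G ∣ tr (t • cz θ) (MvPolynomial.map ι G))
    (P : Fin 2 → 𝕜) (hP : eval₂ φ P G = 0) :
    θ.1 ≠ 0 ∧ ∃ κ : L, (θ.1 : 𝕜) * P 1 - θ.2 * P 0 = φ κ := by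
  set G' : S := MvPolynomial.map ι G with hG'
  have hM : Mon G' D := hG.map ι
  have key : ∀ (t : ℂ) (x : Fin 2 → ℂ), eval (x + t • cz θ) G' = eval x G' := by
    intro t x
    have hB : lr x e1 (tr (t • cz θ) G') = lr (x + t • cz θ) e1 G' := by
      refine Polynomial.funext fun s => ?_
      rw [lr_evalC, lr_evalC, eval_tr]
      congr 2
      abel
    have hd : lr x e1 G' ∣ lr (x + t • cz θ) e1 G' := hB ▸ map_dvd (lr x e1) (h t)
    have hA := lr_monic x hM
    have hA' := lr_monic (x + t • cz θ) hM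
    have he := Polynomial.eq_of_monic_of_dvd_of_natDegree_le hA.1 hA'.1 hd (by rw [hA.2, hA'.2])
    have h0 := congrArg (Polynomial.eval (0 : ℂ)) he
    rw [lr_evalC, lr_evalC] at h0
    simpa using h0
  have hmon : (fib G 0).Monic := hG.2.2.1.map _
  have hdeg : (fib G 0).natDegree = D := by
    rw [fib, hG.2.2.1.natDegree_map, hG.2.2.2]
  have hev : ∀ z : ℂ, eval ![0, z] G' = Polynomial.eval₂ ι z (fib G 0) := by
    intro z
    rw [hG', eval_map, fld_eval₂_fib]
  have h1 : θ.1 ≠ 0 := by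
    intro h1
    have h2 : (θ.2 : ℂ) ≠ 0 := by
      intro h2
      exact hθ (Prod.ext h1 (by exact_mod_cast h2))
    have h3 : (fib G 0).map ι = Polynomial.C (eval ![0, 0] G') := by
      refine Polynomial.funext fun z => ?_
      rw [Polynomial.eval_map, ← hev, Polynomial.eval_C, ← key (z / θ.2) ![0, 0]]
      congr 2
      funext k
      fin_cases k
      · simp [cz, h1]
      · simp [cz, h2]
    have h4 := congrArg Polynomial.natDegree h3
    rw [hmon.natDegree_map, hdeg, Polynomial.natDegree_C] at h4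
    have := hG.1
    omega
  refine ⟨h1, ?_⟩
  have h1L : (θ.1 : L) ≠ 0 := by exact_mod_cast h1
  have h1C : (θ.1 : ℂ) ≠ 0 := by exact_mod_cast h1
  set a : L := (θ.2 : L) / θ.1 with ha
  have hid : G = Polynomial.eval₂ C (X 1 - C a * X 0 : MvPolynomial (Fin 2) L) (fib G 0) := by
    apply MvPolynomial.map_injective ι ι.injective
    refine MvPolynomial.funext fun x => ?_
    rw [← hG', ← key (-(x 0) / θ.1) x, eval_map ι x, ← coe_eval₂Hom, Polynomial.hom_eval₂]
    have h5 : (eval₂Hom ι x).comp C = ι := by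
      ext c
      simp
    rw [h5, ← hev]
    congr 2
    funext k
    fin_cases k
    · simp [cz, h1C]
    · simp [cz, ha]
      ring
  rw [hid, ← coe_eval₂Hom, Polynomial.hom_eval₂] at hP
  have h5 : (eval₂Hom φ P).comp C = φ := by
    ext c
    simp
  rw [h5, ← Polynomial.eval_map] at hP
  have h6 : (eval₂Hom φ P) (X 1 - C a * X 0 : MvPolynomial (Fin 2) L) ∈
      ((fib G 0).map φ).roots := (Polynomial.mem_roots (hmon.map φ).ne_zero).2 hP
  rw [hs.roots_map φ, Multiset.mem_map] at h6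
  obtain ⟨r, -, hr⟩ := h6
  refine ⟨θ.1 * r, ?_⟩
  have h7 : φ a * (θ.1 : 𝕜) = θ.2 := by
    rw [← map_intCast φ θ.1, ← map_mul, ha, div_mul_cancel₀ _ h1L, map_intCast]
  rw [map_mul, map_intCast, hr]
  simp only [map_sub, map_mul, eval₂Hom_X', eval₂Hom_C]
  linear_combination P 0 * h7

theorem parab_mon {K : Type} [Field K] (κ : K) :
    Mon (X 1 ^ 2 - X 0 + C κ : MvPolynomial (Fin 2) K) 2 := by
  have h1 : toBi (X 1 ^ 2 - X 0 + C κ : MvPolynomial (Fin 2) K) =
      Polynomial.X ^ 2 + Polynomial.C (Polynomial.C κ - Polynomial.X) := by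
    rw [toBi, map_add, map_sub, map_pow]
    simp only [Polynomial.Bivariate.equivMvPolynomial_symm_X_0,
      Polynomial.Bivariate.equivMvPolynomial_symm_X_1,
      Polynomial.Bivariate.equivMvPolynomial_symm_C, map_sub]
    ring
  refine ⟨by norm_num, ?_, ?_, ?_⟩
  · refine (totalDegree_add _ _).trans (max_le ((totalDegree_sub _ _).trans (max_le ?_ ?_)) ?_)
    · exact (totalDegree_X_pow _ _).le
    · rw [totalDegree_X]
      norm_num
    · rw [totalDegree_C]
      norm_num
  · rw [h1]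
    exact Polynomial.monic_X_pow_add_C _ (by norm_num)
  · rw [h1, Polynomial.natDegree_X_pow_add_C]

theorem parab_irr (κ : ℂ) : Irreducible (X 1 ^ 2 - X 0 + C κ : S) := by
  let σ : S →ₐ[ℂ] S := aeval ![X 1 ^ 2 - X 0 + C κ, X 1]
  have h0 : σ (X 0) = X 1 ^ 2 - X 0 + C κ := by simp [σ]
  have h1 : σ (X 1) = X 1 := by simp [σ]
  have hσ : σ.comp σ = AlgHom.id ℂ S := by
    refine MvPolynomial.algHom_ext fun k => ?_
    fin_cases k
    · change σ (σ (X 0)) = X 0
      rw [h0, map_add, map_sub, map_pow, h0, h1, algHom_C, algebraMap_eq]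
      ring
    · change σ (σ (X 1)) = X 1
      rw [h1, h1]
  have h2 : Irreducible (X 0 : S) := MvPolynomial.X_prime.irreducible
  rw [← h0]
  exact (MulEquiv.irreducible_iff (AlgEquiv.ofAlgHom σ σ hσ hσ)).2 h2

theorem parab_nl (κ : ℂ) (ρ : ℕ) : NL (X 1 ^ 2 - X 0 + C κ) ρ := by
  intro θ hθ _ h
  have key : ∀ t : ℂ, (t * θ.2) ^ 2 - t * θ.1 = 0 := by
    intro t
    obtain ⟨H, hH⟩ := h t
    have h1 := congrArg (eval ![κ, 0]) hH
    rw [eval_tr] at h1
    simp [cz] at h1
    linear_combination h1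
  have h1 : (θ.1 : ℂ) = 0 := by linear_combination (key (-1) - key 1) / 2
  have h2 : (θ.2 : ℂ) ^ 2 = 0 := by linear_combination key 1 + h1
  exact hθ (Prod.ext (by exact_mod_cast h1) (by exact_mod_cast pow_eq_zero_iff two_ne_zero |>.1 h2))

/-- The coefficient functionals of the remainder modulo `F`. -/
theorem exists_moments (D₀ E : ℕ) : ∃ s : ℕ, ∀ (K : Type) [Field K] (F : MvPolynomial (Fin 2) K)
    (D : ℕ), D ≤ D₀ → Mon F D → ∃ ψ : Fin s → ℕ → ℕ → K,
      (∀ ι : K →+* ℂ, ∃ Ψ : Fin s → S →ₗ[ℂ] ℂ, (∀ e h, Ψ e (MvPolynomial.map ι F * h) = 0) ∧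
        ∀ e i j, Ψ e (X 0 ^ i * X 1 ^ j) = ι (ψ e i j)) ∧
      ∀ (𝕜 : Type) [Field 𝕜] (φ : K →+* 𝕜) (P : Fin 2 → 𝕜), eval₂ φ P F = 0 →
        ∃ γ : Fin s → 𝕜, ∀ i ≤ E, ∀ j ≤ E, P 0 ^ i * P 1 ^ j = ∑ e, γ e * φ (ψ e i j) := by
  set N := E + E * D₀ + 1 with hN
  refine ⟨D₀ * N, fun K _ F D hD hF => ?_⟩
  let q : Fin (D₀ * N) ≃ Fin D₀ × Fin N := finProdFinEquiv.symm
  have hm : (toBi F).Monic := hF.2.2.1
  refine ⟨fun e i j => ((toBi (X 0 ^ i * X 1 ^ j) %ₘ toBi F).coeff (q e).1).coeff (q e).2,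
    fun ι => ?_, fun 𝕜 _ φ P hP => ?_⟩
  · have hm' : (toBi (MvPolynomial.map ι F)).Monic := (hF.map ι).2.2.1
    refine ⟨fun e => Polynomial.lcoeff ℂ (q e).2 ∘ₗ
      (Polynomial.lcoeff (Polynomial ℂ) (q e).1 ∘ₗ
        Polynomial.modByMonicHom (toBi (MvPolynomial.map ι F))).restrictScalars ℂ ∘ₗ
      (Polynomial.Bivariate.equivMvPolynomial ℂ).symm.toLinearMap, fun e h => ?_, fun e i j => ?_⟩
    · change ((toBi (MvPolynomial.map ι F * h) %ₘ toBi (MvPolynomial.map ι F)).coeff _).coeff _ = 0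
      rw [toBi, map_mul, Polynomial.self_mul_modByMonic hm']
      simp
    · change ((toBi (X 0 ^ i * X 1 ^ j : S) %ₘ toBi (MvPolynomial.map ι F)).coeff _).coeff _ = _
      have h1 : (X 0 ^ i * X 1 ^ j : S) = MvPolynomial.map ι (X 0 ^ i * X 1 ^ j) := by simp
      rw [h1, fld_toBi_map, fld_toBi_map, ← Polynomial.map_modByMonic _ hm, Polynomial.coeff_map,
        Polynomial.coe_mapRingHom, Polynomial.coeff_map]
  · refine ⟨fun e => P 0 ^ ((q e).2 : ℕ) * P 1 ^ ((q e).1 : ℕ), fun i hi j hj => ?_⟩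
    set r := toBi (X 0 ^ i * X 1 ^ j : MvPolynomial (Fin 2) K) %ₘ toBi F with hr
    have hD1 := hF.1
    have h1 : r.natDegree < D₀ := by
      refine lt_of_lt_of_le ?_ hD
      rw [← hF.2.2.2]
      refine Polynomial.natDegree_modByMonic_lt _ hm fun h => ?_
      have h2 := hF.2.2.2
      rw [h, Polynomial.natDegree_one] at h2
      omega
    have h2 : ∀ b, (r.coeff b).natDegree < N := by
      intro b
      rw [hr, fld_toBi_mono, ← Polynomial.smul_eq_C_mul, Polynomial.smul_modByMonic,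
        Polynomial.coeff_smul, smul_eq_mul]
      have h3 := fld_rem hF.1 hm hF.2.2.2 (fun b => (fld_coeff_deg F b).trans (hF.2.1.trans hD)) j b
      have h4 : j * D₀ ≤ E * D₀ := Nat.mul_le_mul_right _ hj
      have h5 := Polynomial.natDegree_X_pow_le (R := K) i
      refine lt_of_le_of_lt Polynomial.natDegree_mul_le ?_
      omega
    have h3 : P 0 ^ i * P 1 ^ j = Polynomial.eval₂ (Polynomial.eval₂RingHom φ (P 0)) (P 1) r := by
      rw [hr, Polynomial.eval₂_modByMonic_eq_self_of_root (by rw [← fld_eval₂_toBi, hP]),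
        ← fld_eval₂_toBi]
      simp
    rw [h3, Polynomial.eval₂_eq_sum_range' _ h1, Finset.sum_range,
      ← Equiv.sum_comp q.symm, Fintype.sum_prod_type]
    refine Finset.sum_congr rfl fun b _ => ?_
    rw [Polynomial.coe_eval₂RingHom, Polynomial.eval₂_eq_sum_range' _ (h2 b), Finset.sum_range,
      Finset.sum_mul]
    refine Finset.sum_congr rfl fun a _ => ?_
    simp only [Equiv.apply_symm_apply]
    ring

end Pool.Agent.Lib.MP_1f047c_nt.TA
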