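import Pool.Agent.Lib.MP_1f047c_nt.TADefs

/-! Heights in a finite extension; the fields `ℂ` and `ℂ_p`. -/

namespace Pool.Agent.Lib.MP_1f047c_nt.TA

open NumberField in
private theorem hgt_prod_places {K : Type} [Field K] [NumberField K] (f : InfinitePlace K → ℝ) :
    ∏ v : InfinitePlace K, f v ^ v.mult = ∏ φ : K →+* ℂ, f (InfinitePlace.mk φ) := by
  classical
  rw [← Finset.prod_fiberwise Finset.univ InfinitePlace.mk (fun φ => f (InfinitePlace.mk φ))]
  refine Finset.prod_congr rfl fun v _ => ?_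
  rw [Finset.prod_congr rfl (g := fun _ => f v) (fun φ hφ => by rw [(Finset.mem_filter.1 hφ).2]),
    Finset.prod_const, InfinitePlace.card_filter_mk_eq]

private theorem hgt_card_fiber {K L : Type} [Field K] [NumberField K] [Field L] [NumberField L]
    [Algebra K L] (φ : K →+* ℂ)
    [DecidablePred fun ψ : L →+* ℂ => ψ.comp (algebraMap K L) = φ] :
    (Finset.univ.filter fun ψ : L →+* ℂ => ψ.comp (algebraMap K L) = φ).card =
      Module.finrank K L := by
  classical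
  let _ : Algebra K ℂ := φ.toAlgebra
  rw [← AlgHom.card K L ℂ, ← Finset.card_univ]
  refine Finset.card_bij (fun ψ hψ => ({ ψ with
    commutes' := fun c => RingHom.congr_fun (Finset.mem_filter.1 hψ).2 c } : L →ₐ[K] ℂ))
    (fun _ _ => Finset.mem_univ _) (fun ψ _ ψ' _ h => ?_) (fun σ _ => ?_)
  · exact RingHom.ext fun y => AlgHom.congr_fun h y
  · exact ⟨σ.toRingHom, Finset.mem_filter.2 ⟨Finset.mem_univ _, RingHom.ext fun c => σ.commutes c⟩,
      rfl⟩

private theorem hgt_prod_emb {K L : Type} [Field K] [NumberField K] [Field L] [NumberField L]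
    [Algebra K L] (g : (K →+* ℂ) → ℝ) :
    ∏ ψ : L →+* ℂ, g (ψ.comp (algebraMap K L)) = (∏ φ : K →+* ℂ, g φ) ^ Module.finrank K L := by
  classical
  rw [← Finset.prod_fiberwise Finset.univ (fun ψ : L →+* ℂ => ψ.comp (algebraMap K L))
    (fun ψ => g (ψ.comp (algebraMap K L))), ← Finset.prod_pow]
  refine Finset.prod_congr rfl fun φ _ => ?_
  rw [Finset.prod_congr rfl (g := fun _ => g φ) (fun ψ hψ => by rw [(Finset.mem_filter.1 hψ).2]),
    Finset.prod_const, hgt_card_fiber]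

open NumberField in
private theorem hgt_formula {K : Type} [Field K] [NumberField K] {x : Fin 2 → 𝓞 K} (hx : x ≠ 0) :
    ((Ideal.span (Set.range x)).absNorm : ℝ) * Height.mulHeight (fun i => (x i : K)) =
      ∏ φ : K →+* ℂ, ⨆ i, ‖φ (x i)‖ := by
  have hx' : (fun i => (x i : K)) ≠ 0 := by
    intro h
    refine hx (funext fun i => ?_)
    exact RingOfIntegers.ext (congrFun h i)
  rw [NumberField.mulHeight_eq hx', mul_left_comm, absNorm_mul_finprod_finitePlace_eq_one hx,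
    mul_one, hgt_prod_places (fun v => ⨆ i, v (x i : K))]
  rfl

open NumberField in
private theorem hgt_mul_ext {K L : Type} [Field K] [NumberField K] [Field L] [NumberField L]
    [Algebra K L] (x : K) :
    Height.mulHeight₁ (algebraMap K L x) = Height.mulHeight₁ x ^ Module.finrank K L := by
  obtain ⟨a, b, hb, rfl⟩ := IsFractionRing.div_surjective (A := 𝓞 K) x
  have hb0 : b ≠ 0 := nonZeroDivisors.ne_zero hb
  have h1 : (![a, b] : Fin 2 → 𝓞 K) ≠ 0 := fun h => hb0 (congrFun h 1)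
  have h2 : (fun i => algebraMap (𝓞 K) (𝓞 L) (![a, b] i)) ≠ 0 := fun h =>
    hb0 (FaithfulSMul.algebraMap_injective (𝓞 K) (𝓞 L) ((congrFun h 1).trans (map_zero _).symm))
  have e1 := hgt_formula h1
  have e2 := hgt_formula h2
  have e3 : Ideal.span (Set.range fun i => algebraMap (𝓞 K) (𝓞 L) (![a, b] i)) =
      (Ideal.span (Set.range ![a, b])).map (algebraMap (𝓞 K) (𝓞 L)) := by
    rw [Ideal.map_span, ← Set.range_comp]
    rfl
  have e4 := hgt_prod_emb (L := L) (fun φ : K →+* ℂ => ⨆ i, ‖φ ((![a, b] i : 𝓞 K) : K)‖)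
  have e5 : (∏ φ : L →+* ℂ, ⨆ i, ‖φ ((algebraMap (𝓞 K) (𝓞 L) (![a, b] i) : 𝓞 L) : L)‖) =
      ∏ ψ : L →+* ℂ, ⨆ i, ‖(ψ.comp (algebraMap K L)) ((![a, b] i : 𝓞 K) : K)‖ := rfl
  rw [e5, e4, ← e1, e3, Ideal.absNorm_algebraMap,
    ← IsFractionRing.finrank_eq (𝓞 K) K (𝓞 L) L, mul_pow, Nat.cast_pow] at e2
  have hN : ((Ideal.span (Set.range ![a, b])).absNorm : ℝ) ≠ 0 := by
    rw [Nat.cast_ne_zero, Ne, Ideal.absNorm_eq_zero_iff, Ideal.span_eq_bot]
    exact fun h => hb0 (h b ⟨1, rfl⟩)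
  have e6 := mul_left_cancel₀ (pow_ne_zero _ hN) e2
  rw [map_div₀, Height.mulHeight₁_div_eq_mulHeight, Height.mulHeight₁_div_eq_mulHeight]
  have f1 : ![algebraMap K L (algebraMap (𝓞 K) K a), algebraMap K L (algebraMap (𝓞 K) K b)] =
      fun i => ((algebraMap (𝓞 K) (𝓞 L) (![a, b] i) : 𝓞 L) : L) := by
    funext i
    fin_cases i <;> rfl
  have f2 : ![algebraMap (𝓞 K) K a, algebraMap (𝓞 K) K b] =
      fun i => ((![a, b] i : 𝓞 K) : K) := by
    funext i
    fin_cases i <;> rfl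
  rw [f1, f2, e6]

theorem logHeight_ext {K L : Type} [Field K] [NumberField K] [Field L] [NumberField L]
    [Algebra K L] (x : K) :
    Height.logHeight₁ (algebraMap K L x) ≤ Module.finrank K L * Height.logHeight₁ x := by
  rw [Height.logHeight₁_eq_log_mulHeight₁, Height.logHeight₁_eq_log_mulHeight₁, hgt_mul_ext,
    Real.log_pow]

theorem logHeight_zpow_mul {K : Type} [Field K] [NumberField K] (α β : K) (a b : ℤ) {h : ℝ}
    (hα : Height.logHeight₁ α ≤ h) (hβ : Height.logHeight₁ β ≤ h) :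
    Height.logHeight₁ (α ^ a * β ^ b) ≤ (|(a : ℝ)| + |(b : ℝ)|) * h := by
  refine (Height.logHeight₁_mul_le _ _).trans ?_
  rw [Height.logHeight₁_zpow, Height.logHeight₁_zpow, Nat.cast_natAbs, Nat.cast_natAbs,
    Int.cast_abs, Int.cast_abs, add_mul]
  exact add_le_add (mul_le_mul_of_nonneg_left hα (abs_nonneg _))
    (mul_le_mul_of_nonneg_left hβ (abs_nonneg _))

private theorem hgt_exp_mul_neg {𝕜 : Type} [NormedField 𝕜] [CompleteSpace 𝕜] [CharZero 𝕜]
    (G : Good 𝕜) {l : 𝕜} (h : ‖l‖ ≤ 1 / 4) : NormedSpace.exp l * NormedSpace.exp (-l) = 1 := by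
  rw [← G.exp_add h (by rwa [norm_neg]), add_neg_cancel, NormedSpace.exp_zero]

private theorem hgt_exp_neg {𝕜 : Type} [NormedField 𝕜] [CompleteSpace 𝕜] [CharZero 𝕜]
    (G : Good 𝕜) {l : 𝕜} (h : ‖l‖ ≤ 1 / 4) : NormedSpace.exp (-l) = (NormedSpace.exp l)⁻¹ :=
  eq_inv_of_mul_eq_one_right (hgt_exp_mul_neg G h)

theorem nice_complex : Nice ℂ where
  good := good_complex
  fac a s := by
    rw [norm_div, norm_pow, Complex.norm_natCast, Complex.norm_natCast]
    refine (Real.pow_div_factorial_le_exp _ (Nat.cast_nonneg a) s).trans ?_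
    have h1 : Real.exp a ≤ 3 ^ a := by
      rw [← mul_one (a : ℝ), Real.exp_nat_mul]
      exact pow_le_pow_left₀ (Real.exp_pos _).le (Real.exp_one_lt_d9.le.trans (by norm_num)) _
    exact h1.trans (le_mul_of_one_le_left (by positivity) (one_le_pow₀ one_le_two))
  sum l _ n := by
    have h1 := NormedSpace.expSeries_div_hasSum_exp (-l * n)
    rwa [← Complex.exp_eq_exp_ℂ, mul_comm (-l) n, Complex.exp_nat_mul, Complex.exp_neg,
      mul_comm, Complex.exp_eq_exp_ℂ] at h1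

theorem nice_padic (p : ℕ) [Fact p.Prime] : Nice ℂ_[p] where
  good := good_padic p
  fac a s := by
    refine ((good_padic p).term _ s).trans ?_
    have h1 : ‖(a : ℂ_[p])‖ ≤ 1 := IsUltrametricDist.norm_natCast_le_one _ a
    refine le_trans (pow_le_pow_left₀ (by positivity) (by linarith) s)
      (le_mul_of_one_le_right (by positivity) (one_le_pow₀ (by norm_num)))
  sum l hl a := by
    have G := good_padic p
    have hn : ∀ n : ℕ, ‖-l * n‖ ≤ 1 / 4 := fun n => by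
      rw [norm_mul, norm_neg]
      exact (mul_le_of_le_one_right (norm_nonneg _)
        (IsUltrametricDist.norm_natCast_le_one _ n)).trans hl
    have he : ∀ n : ℕ, NormedSpace.exp (-l * n) = (NormedSpace.exp l)⁻¹ ^ n := fun n => by
      induction n with
      | zero => simp
      | succ n ih =>
        rw [Nat.cast_succ, mul_add, mul_one, G.exp_add (hn n) (by rwa [norm_neg]), ih,
          hgt_exp_neg G hl, pow_succ]
    rw [← he, NormedSpace.exp_eq_tsum_div]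
    exact (G.summable (hn a)).of_norm.hasSum

private theorem hgt_int {𝕜 : Type} [NormedField 𝕜] [CompleteSpace 𝕜] [CharZero 𝕜] (G : Good 𝕜)
    (l : 𝕜) (a : ℤ) (h : |(a : ℝ)| * ‖l‖ ≤ 1 / 4) :
    ‖(a : 𝕜) * l‖ ≤ |(a : ℝ)| * ‖l‖ ∧ NormedSpace.exp ((a : 𝕜) * l) = NormedSpace.exp l ^ a := by
  obtain ⟨n, rfl | rfl⟩ := a.eq_nat_or_neg
  · rw [Int.cast_natCast, Nat.abs_cast] at h
    rw [Int.cast_natCast, Int.cast_natCast, Nat.abs_cast, zpow_natCast]
    exact ⟨norm_nat_mul n l, G.exp_nat l n h⟩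
  · rw [Int.cast_neg, Int.cast_natCast, abs_neg, Nat.abs_cast] at h
    rw [Int.cast_neg, Int.cast_neg, Int.cast_natCast, Int.cast_natCast, abs_neg, Nat.abs_cast,
      zpow_neg, zpow_natCast, neg_mul, norm_neg, hgt_exp_neg G ((norm_nat_mul n l).trans h),
      G.exp_nat l n h]
    exact ⟨norm_nat_mul n l, rfl⟩

theorem exp_int_comb {𝕜 : Type} [NormedField 𝕜] [CompleteSpace 𝕜] [CharZero 𝕜] (G : Good 𝕜)
    (l m : 𝕜) (a b : ℤ) (h : |(a : ℝ)| * ‖l‖ + |(b : ℝ)| * ‖m‖ ≤ 1 / 32) :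
    ‖(a : 𝕜) * l + b * m‖ ≤ |(a : ℝ)| * ‖l‖ + |(b : ℝ)| * ‖m‖ ∧
      NormedSpace.exp ((a : 𝕜) * l + b * m) = NormedSpace.exp l ^ a * NormedSpace.exp m ^ b ∧
      (NormedSpace.exp ((a : 𝕜) * l + b * m) = 1 → (a : 𝕜) * l + b * m = 0) := by
  have h1 : 0 ≤ |(a : ℝ)| * ‖l‖ := by positivity
  have h2 : 0 ≤ |(b : ℝ)| * ‖m‖ := by positivity
  obtain ⟨a1, a2⟩ := hgt_int G l a (by linarith)
  obtain ⟨b1, b2⟩ := hgt_int G m b (by linarith)
  have h3 : ‖(a : 𝕜) * l + b * m‖ ≤ |(a : ℝ)| * ‖l‖ + |(b : ℝ)| * ‖m‖ :=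
    (norm_add_le _ _).trans (add_le_add a1 b1)
  refine ⟨h3, ?_, fun h4 => G.exp_inj (h3.trans h) (by rw [norm_zero]; norm_num) ?_⟩
  · rw [G.exp_add (by linarith) (by linarith), a2, b2]
  · rw [h4, NormedSpace.exp_zero]

theorem exp_ne_zero {𝕜 : Type} [NormedField 𝕜] [CompleteSpace 𝕜] [CharZero 𝕜] (G : Good 𝕜)
    {l : 𝕜} (h : ‖l‖ ≤ 1 / 32) : NormedSpace.exp l ≠ 0 :=
  left_ne_zero_of_mul_eq_one (hgt_exp_mul_neg G (h.trans (by norm_num)))

end Pool.Agent.Lib.MP_1f047c_nt.TA
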