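import Pool.Agent.Lib.MP_1f047c_nt.TADefs

/-! Choice of the parameters. -/

namespace Pool.Agent.Lib.MP_1f047c_nt.TA

theorem par_Jq (D s ℓ : ℕ) (hs : 1 ≤ s) (h1 : s ^ 4 < ℓ) (h2 : ℓ ≤ 2 * s ^ 4) :
    Jq D (s ^ 2) (s ^ 6) ℓ ≤ (3 * D ^ 2 + 26 * D ^ 3 + 5 * D) * s ^ 4 := by
  have p2 : 1 ≤ s ^ 2 := Nat.one_le_pow _ _ hs
  have p4 : 1 ≤ s ^ 4 := Nat.one_le_pow _ _ hs
  have a1 : 2 * s ^ 6 / s ^ 2 + 1 ≤ 3 * s ^ 4 := by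
    have : 2 * s ^ 6 / s ^ 2 ≤ 2 * s ^ 4 := Nat.div_le_of_le_mul (le_of_eq (by ring))
    omega
  have a2 : 4 * s ^ 6 / ℓ + 1 ≤ 5 * s ^ 2 := by
    have : 4 * s ^ 6 / ℓ ≤ 4 * s ^ 2 := Nat.div_le_of_le_mul
      ((le_of_eq (by ring)).trans (Nat.mul_le_mul_right (4 * s ^ 2) h1.le))
    omega
  unfold Jq jj
  calc _ ≤ D ^ 2 * (3 * s ^ 4) + D ^ 3 * s ^ 4 +
        (D * (2 * s ^ 4) + D ^ 3 * (5 * s ^ 2) ^ 2 + D * (3 * s ^ 4)) := by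
        gcongr
        exact Nat.le_mul_of_pos_right _ p4
    _ = _ := by ring

theorem par_aa (C c J s : ℕ) (hs : 1 ≤ s) (hJ : J ≤ c * s ^ 4) :
    aa C (s ^ 2) (s ^ 6) J ≤ ((1000 * C ^ 2 + 72 * c * C + 30) * s ^ 5 : ℕ) := by
  have s1 : (1 : ℝ) ≤ s := by exact_mod_cast hs
  have hJ' : (J : ℝ) ≤ c * s ^ 4 := by exact_mod_cast hJ
  have l1 : Real.log (20 * (s : ℝ) ^ 2 * (s : ℝ) ^ 6) + 9 ≤ 36 * s := by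
    have e : 20 * (s : ℝ) ^ 2 * (s : ℝ) ^ 6 = 20 * (s : ℝ) ^ 8 := by ring
    rw [e, Real.log_mul (by norm_num) (by positivity), Real.log_pow]
    have b1 := Real.log_le_sub_one_of_pos (show (0 : ℝ) < 20 by norm_num)
    have b2 := Real.log_le_sub_one_of_pos (show (0 : ℝ) < s by linarith)
    push_cast
    linarith
  have l0 : 0 ≤ Real.log (20 * (s : ℝ) ^ 2 * (s : ℝ) ^ 6) + 9 := by
    have : (1 : ℝ) ≤ 20 * (s : ℝ) ^ 2 * (s : ℝ) ^ 6 := by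
      have := one_le_pow₀ (n := 8) s1
      nlinarith
    have := Real.log_nonneg this
    linarith
  have p1 : ((s : ℝ) ^ 2) ^ 2 ≤ s ^ 5 := by
    rw [← pow_mul]
    exact pow_le_pow_right₀ s1 (by norm_num)
  have p2 : (1 : ℝ) ≤ s ^ 5 := one_le_pow₀ s1
  unfold aa
  push_cast
  calc _ ≤ 1000 * (s : ℝ) ^ 5 * C ^ 2 + 2 * (c * s ^ 4) * C * (36 * s) + 30 * s ^ 5 := by
        gcongr
        linarith
    _ = _ := by ring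

/-- Existence of parameters. -/
theorem exists_par (C₁ D : ℕ) (hC : 1 ≤ C₁) : ∃ ρ R ℓ K : ℕ, ℓ.Prime ∧
    Par C₁ ρ R (Jq D ρ R ℓ) K := by
  obtain ⟨c, hc⟩ : ∃ c, c = 3 * D ^ 2 + 26 * D ^ 3 + 5 * D := ⟨_, rfl⟩
  obtain ⟨b, hb⟩ : ∃ b, b = 1000 * C₁ ^ 2 + 72 * c * C₁ + 30 := ⟨_, rfl⟩
  obtain ⟨s, hs⟩ : ∃ s, s = 40000 * (2 * b + 2) := ⟨_, rfl⟩
  have s1 : 1 ≤ s := by omega
  obtain ⟨ℓ, hℓ, h1, h2⟩ := Nat.exists_prime_lt_and_le_two_mul (s ^ 4) (by positivity)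
  have p5 : 1 ≤ s ^ 5 := Nat.one_le_pow _ _ s1
  have h3 := par_aa C₁ c _ s s1 (hc ▸ par_Jq D s ℓ s1 h1 h2)
  rw [← hb] at h3
  refine ⟨s ^ 2, s ^ 6, ℓ, 2 * (b * s ^ 5) + 1, hℓ, hC, Nat.one_le_pow _ _ s1, ?_, ?_⟩
  · calc 40000 * (2 * (b * s ^ 5) + 1 + 1) ≤ 40000 * (2 * (b * s ^ 5) + 2 * s ^ 5) := by omega
      _ = 40000 * (2 * b + 2) * s ^ 5 := by ring
      _ = s ^ 6 := by rw [← hs]; ring
  · push_cast at h3 ⊢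
    linarith

end Pool.Agent.Lib.MP_1f047c_nt.TA
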