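import Pool.Agent.Lib.MP_1f047c_nt.TANeu
import Pool.Agent.Lib.MP_1f047c_nt.TAPar
import Pool.Agent.Lib.MP_1f047c_nt.TAChain
import Pool.Agent.Lib.MP_1f047c_nt.TAArith
import Pool.Agent.Lib.MP_1f047c_nt.TAHeight
import Pool.Agent.Lib.MP_1f047c_nt.TAField

/-! Algebraic relations of bounded degree between two logarithms. -/

open Finset MvPolynomial

namespace Pool.Agent.Lib.MP_1f047c_nt.TA

lemma core_exp_le {H : ℝ} (h : 4 ≤ H) : Real.exp (-H) ≤ 1 / 32 := by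
  have h1 : (32 : ℝ) ≤ Real.exp 4 := by
    have h2 : Real.exp 4 = Real.exp 1 ^ 4 := by rw [← Real.exp_nat_mul]; norm_num
    have h3 : (2.5 : ℝ) ≤ Real.exp 1 := le_trans (by norm_num) Real.exp_one_gt_d9.le
    rw [h2]
    exact le_trans (by norm_num) (pow_le_pow_left₀ (by norm_num) h3 4)
  rw [Real.exp_neg, one_div]
  exact inv_anti₀ (by norm_num) (h1.trans (Real.exp_le_exp.2 h))

theorem core (δ : ℝ) (hδ : 0 < δ) (D₀ : ℕ) : ∃ (ρ : ℕ) (c : ℝ), 4 ≤ c ∧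
    ∀ (𝕜 : Type) [NormedField 𝕜] [CompleteSpace 𝕜] [CharZero 𝕜], Nice 𝕜 →
    ∀ (K : Type) [Field K] [NumberField K] (φ : K →+* 𝕜) (ι : K →+* ℂ) (α β : K) (l m : 𝕜) (H : ℝ)
      (F : MvPolynomial (Fin 2) K) (D : ℕ), D ≤ D₀ → Mon F D → Irreducible (MvPolynomial.map ι F) →
      NL (MvPolynomial.map ι F) ρ → α ≠ 1 ∨ β ≠ 1 → NormedSpace.exp l = φ α →
      NormedSpace.exp m = φ β → δ * Height.logHeight₁ α ≤ H → δ * Height.logHeight₁ β ≤ H →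
      c * Module.finrank ℚ K ≤ H → ‖l‖ ≤ Real.exp (-H) → ‖m‖ ≤ Real.exp (-H) →
      eval₂ φ ![l, m] F ≠ 0 := by
  set C₀ := ⌈4 / δ + 3⌉₊ with hC₀
  have hC : 4 / δ + 3 ≤ C₀ := Nat.le_ceil _
  have hC1 : 1 ≤ C₀ := by
    have : (0 : ℝ) < 4 / δ := by positivity
    have : (1 : ℝ) ≤ C₀ := by linarith
    exact_mod_cast this
  obtain ⟨ρ, R, ℓ, K', hℓ, hp⟩ := exists_par (12 * C₀) D₀ (by omega)
  obtain ⟨E, hE⟩ := exists_cd D₀ ρ R ℓ hp.2.1 hℓ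
  obtain ⟨s, hs⟩ := exists_moments D₀ E
  obtain ⟨c, hc1, hc⟩ := arithF δ hδ C₀ hC E s
  refine ⟨ρ, c + 4, by linarith, fun 𝕜 _ _ _ hN K _ _ φ ι α β l m H F D hD hF hirr hNL h1 hα hβ
    ha hb hH hl hm heq => ?_⟩
  obtain ⟨cd⟩ := hE _ D hD (hF.map ι) hirr hNL
  obtain ⟨n₀, hn₀⟩ := zf_of_cd cd hp
  obtain ⟨ψ, hψ1, hψ2⟩ := hs K F D hD hF
  obtain ⟨Ψ, hΨ1, hΨ2⟩ := hψ1 ι
  obtain ⟨γ, hγ⟩ := hψ2 𝕜 φ _ heq
  have hd : (1 : ℝ) ≤ Module.finrank ℚ K := by exact_mod_cast Module.finrank_pos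
  have hH4 : 4 ≤ H := by nlinarith
  have hcH : c * Module.finrank ℚ K ≤ H := by nlinarith
  have hl' : ‖l‖ ≤ 1 / 32 := hl.trans (core_exp_le hH4)
  have hm' : ‖m‖ ≤ 1 / 32 := hm.trans (core_exp_le hH4)
  have hα0 : α ≠ 0 := fun h => exp_ne_zero hN.good hl' (by rw [hα, h, map_zero])
  have hβ0 : β ≠ 0 := fun h => exp_ne_zero hN.good hm' (by rw [hβ, h, map_zero])
  refine hc 𝕜 hN.good hN.fac K φ α⁻¹ β⁻¹ 0 0 l m H H ψ γ (inv_ne_zero hα0) (inv_ne_zero hβ0)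
    (fun a => by rw [map_inv₀, ← hα]; exact hN.sum l (by linarith) a)
    (fun a => by rw [map_inv₀, ← hβ]; exact hN.sum m (by linarith) a)
    (by rw [Height.logHeight₁_inv]; exact ha) hcH hl
    (by rw [Height.logHeight₁_inv]; exact hb) hcH hm (fun i hi j hj => ?_) ?_
  · have := hγ i hi j hj
    simpa using this
  · filter_upwards [Filter.eventually_ge_atTop (n₀ * H)] with T hT
    have hn : n₀ ≤ ⌈T / H⌉₊ := by
      have : (n₀ : ℝ) ≤ T / H := by rwa [le_div_iff₀ (by linarith)]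
      exact_mod_cast this.trans (Nat.le_ceil _)
    have hz := hn₀ _ hn (Fin s) Ψ hΨ1 (ι 0) (ι 0) (ι α⁻¹) (ι β⁻¹) (by
      refine h1.imp (fun h e => h ?_) (fun h e => h ?_)
      · exact inv_eq_one.1 (ι.injective (e.trans (map_one ι).symm))
      · exact inv_eq_one.1 (ι.injective (e.trans (map_one ι).symm)))
    simp only [hΨ2] at hz
    exact zf_map ι ψ hz

end Pool.Agent.Lib.MP_1f047c_nt.TA
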