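import Pool.Agent.Lib.MP_1f047c_nt.PLDefs
import Pool.Agent.Lib.MP_1f047c_nt.Liouv
import Pool.Agent.Lib.MP_e2821c_ag.Cy.VOrd

/-! Definitions for the theorem on algebraic relations between two logarithms. -/

open Finset MvPolynomial

namespace Pool.Agent.Lib.MP_1f047c_nt.TA

open PL (wm)

noncomputable section

/-- Polynomials in two variables. -/
abbrev S : Type := MvPolynomial (Fin 2) ℂ

/-- Polynomials of total degree at most `E`. -/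
abbrev Vp (E : ℕ) : Submodule ℂ S := restrictTotalDegree (Fin 2) ℂ E

def e0 : Fin 2 → ℂ := ![1, 0]

def e1 : Fin 2 → ℂ := ![0, 1]

/-- The directional derivative. -/
def dv (v : Fin 2 → ℂ) : Module.End ℂ S :=
  v 0 • (pderiv (R := ℂ) (0 : Fin 2)).toLinearMap + v 1 • (pderiv (R := ℂ) (1 : Fin 2)).toLinearMap

/-- The linear form with coefficients `v`. -/
def lin (v : Fin 2 → ℂ) : S := C (v 0) * X 0 + C (v 1) * X 1

/-- Translation: `tr ξ G = G (X + ξ)`. -/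
def tr (ξ : Fin 2 → ℂ) : S →ₐ[ℂ] S := aeval fun j => X j + C (ξ j)

/-- Reflection: `adj ξ g = g (ξ - X)`. -/
def adj (ξ : Fin 2 → ℂ) : S →ₐ[ℂ] S := aeval fun j => C (ξ j) - X j

/-- Restriction to a line: `lr p v G = G (p + t v)`. -/
def lr {Ω : Type} [CommRing Ω] [Algebra ℂ Ω] (p : Fin 2 → Ω) (v : Fin 2 → ℂ) :
    S →ₐ[ℂ] Polynomial Ω :=
  aeval fun j => Polynomial.C (p j) + Polynomial.C (algebraMap ℂ Ω (v j)) * Polynomial.X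

lemma dv_comm (v w : Fin 2 → ℂ) : Commute (dv v) (dv w) := by
  have h : ∀ i j : Fin 2, Commute (pderiv (R := ℂ) i).toLinearMap (pderiv (R := ℂ) j).toLinearMap := by
    intro i j
    refine LinearMap.ext fun G => ?_
    change pderiv i (pderiv j G) = pderiv j (pderiv i G)
    have h0 : ∀ i j k : Fin 2, pderiv i (pderiv j (X k : S)) = 0 := by
      intro i j k
      rw [pderiv_X, Pi.single_apply]
      split_ifs <;> simp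
    induction G using MvPolynomial.induction_on with
    | C a => simp
    | add p q hp hq => simp [hp, hq]
    | mul_X p k hp =>
      simp only [Derivation.leibniz, smul_eq_mul, map_add, hp, h0]
      ring
  exact (((h 0 0).smul_right _).add_right ((h 0 1).smul_right _)).smul_left _ |>.add_left
    ((((h 1 0).smul_right _).add_right ((h 1 1).smul_right _)).smul_left _)

/-- The monoid map behind `act`. -/
def actM : Multiplicative (Fin 2 →₀ ℕ) →* Module.End ℂ S where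
  toFun α := dv e0 ^ (α.toAdd 0) * dv e1 ^ (α.toAdd 1)
  map_one' := by simp
  map_mul' α β := by
    simp only [toAdd_mul, Finsupp.add_apply, pow_add]
    exact ((dv_comm e0 e1).pow_pow _ _).mul_mul_mul_comm _ _

/-- The differential operator with constant coefficients and symbol `g`. -/
def act : S →ₐ[ℂ] Module.End ℂ S := AddMonoidAlgebra.lift ℂ (Module.End ℂ S) (Fin 2 →₀ ℕ) actM

/-- `Ex E u θ Λ H = ∑ f ≤ E, (1 / f!) ∂_u ^ f (Λ (∂_θ ^ f H))`. -/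
def Ex (E : ℕ) (u θ : Fin 2 → ℂ) (Λ : S →ₗ[ℂ] S) : S →ₗ[ℂ] S :=
  ∑ f ∈ range (E + 1), ((f.factorial : ℂ)⁻¹) • ((dv u ^ f) ∘ₗ Λ ∘ₗ (dv θ ^ f))

/-- The operator `G (X + ∂)` applied through `Λ`. -/
def UU (E : ℕ) (Λ : S →ₗ[ℂ] S) : S →ₗ[ℂ] S := Ex E e0 e0 (Ex E e1 e1 Λ)

def cz (m : ℤ × ℤ) : Fin 2 → ℂ := ![(m.1 : ℂ), (m.2 : ℂ)]

def cr (x : ℝ × ℝ) : Fin 2 → ℂ := ![(x.1 : ℂ), (x.2 : ℂ)]

def wv (m : ℤ × ℤ) : Fin 2 → ℂ := ![wm m.1, wm m.2]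

def dotZ (v m : ℤ × ℤ) : ℤ := v.1 * m.1 + v.2 * m.2

def dotC (v ξ : Fin 2 → ℂ) : ℂ := v 0 * ξ 0 + v 1 * ξ 1

def perp (θ : ℤ × ℤ) : ℤ × ℤ := (-θ.2, θ.1)

/-- `θ / |θ| ^ 2`. -/
def dual (θ : ℤ × ℤ) : Fin 2 → ℂ := (((θ.1 ^ 2 + θ.2 ^ 2 : ℤ) : ℂ)⁻¹) • cz θ

/-- Both coordinates are at most `r` in absolute value. -/
def Sml (r : ℕ) (v : ℤ × ℤ) : Prop := |v.1| ≤ r ∧ |v.2| ≤ r

/-- The window of frequencies. -/
def box (R : ℕ) : Finset (ℤ × ℤ) := Icc (-(R : ℤ)) R ×ˢ Icc (-(R : ℤ)) R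

/-- Lattice points of the small square. -/
def latB (n : ℕ) : Finset (ℤ × ℤ) := Icc (0 : ℤ) n ×ˢ Icc (0 : ℤ) n

/-- Lattice points of the big square. -/
def latX (n : ℕ) : Finset (ℤ × ℤ) := Icc (-(n : ℤ)) (2 * n) ×ˢ Icc (-(n : ℤ)) (2 * n)

def sqB (n : ℕ) : Set (ℝ × ℝ) := Set.Icc (0 : ℝ) n ×ˢ Set.Icc (0 : ℝ) n

def sqX (n : ℕ) : Set (ℝ × ℝ) := Set.Icc (-(n : ℝ)) (2 * n) ×ˢ Set.Icc (-(n : ℝ)) (2 * n)

/-! One variable. -/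

/-- All derivatives are geometrically bounded on `[α, β]`. -/
def BdP (α β : ℝ) (p : Polynomial ℂ) (A b : ℝ) : Prop :=
  ∀ k : ℕ, ∀ x ∈ Set.Icc α β, ‖(Polynomial.derivative^[k] p).eval (x : ℂ)‖ ≤ A * b ^ k

/-- Vanishing to order `k` at both ends. -/
def VanP (α β : ℝ) (p : Polynomial ℂ) (k : ℕ) : Prop :=
  (Polynomial.X - Polynomial.C (α : ℂ)) ^ k ∣ p ∧ (Polynomial.X - Polynomial.C (β : ℂ)) ^ k ∣ p

/-- Fourier coefficient on `[α, β]`. -/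
def I1 (α β : ℝ) (m : ℤ) (p : Polynomial ℂ) : ℂ :=
  ∫ x in α..β, p.eval (x : ℂ) * Complex.exp (-wm m * x)

/-- The weight `(x (n - x)) ^ κ`. -/
def wP (n κ : ℕ) : Polynomial ℂ := (Polynomial.X * (Polynomial.C (n : ℂ) - Polynomial.X)) ^ κ

def cjP (p : Polynomial ℂ) : Polynomial ℂ := p.map (starRingEnd ℂ)

/-- Weighted `L²` norm on `[0, n]`. -/
def nqP (n κ : ℕ) (p : Polynomial ℂ) : ℝ :=
  √(∫ x in (0 : ℝ)..n, (x * (n - x)) ^ κ * ‖p.eval (x : ℂ)‖ ^ 2)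

/-- The differential operator with symbol `g` in one variable. -/
def act1 (g : Polynomial ℂ) : Module.End ℂ (Polynomial ℂ) :=
  Polynomial.aeval (Polynomial.derivative : Module.End ℂ (Polynomial ℂ)) g

/-! Two variables. -/

/-- All partial derivatives are geometrically bounded on `Ω`. -/
def Bd2 (Ω : Set (ℝ × ℝ)) (Q : S) (A b : ℝ) : Prop :=
  ∀ i j : ℕ, ∀ x ∈ Ω, ‖eval (cr x) ((dv e0 ^ i * dv e1 ^ j) Q)‖ ≤ A * b ^ (i + j)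

/-- The polynomial vanishing on the boundary of the small square. -/
def qq (n : ℕ) : S := X 0 * (C (n : ℂ) - X 0) * (X 1 * (C (n : ℂ) - X 1))

def cj2 (Q : S) : S := MvPolynomial.map (starRingEnd ℂ) Q

/-- Fourier coefficient on the small square. -/
def I2 (n : ℕ) (m : ℤ × ℤ) (Q : S) : ℂ :=
  ∫ x in (0 : ℝ)..n, (∫ y in (0 : ℝ)..n, eval (cr (x, y)) Q * Complex.exp (-wm m.2 * y)) *
    Complex.exp (-wm m.1 * x)

/-- Weighted `L²` norm on the small square. -/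
def nq2 (n κ : ℕ) (Q : S) : ℝ :=
  √(∫ x in (0 : ℝ)..n, ∫ y in (0 : ℝ)..n,
    (x * (n - x) * (y * (n - y))) ^ κ * ‖eval (cr (x, y)) Q‖ ^ 2)

/-- `H` is a combination of the `b k` with coefficients of total size at most `A`. -/
def Dom {r : ℕ} (b : Fin r → S) (H : S) (A : ℝ) : Prop :=
  ∃ γ : Fin r → ℂ, H = ∑ k, γ k • b k ∧ ∑ k, ‖γ k‖ ≤ A

/-- The symbol which kills the frequencies on the lines `v · m = k`. -/
def symb (𝓛 : Finset ((ℤ × ℤ) × ℤ)) (ν : ℕ) : S := ∏ l ∈ 𝓛, (lin (cz l.1) - C (wm l.2)) ^ ν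

/-- The symbol which kills the frequencies in `K`. -/
def symb1 (K : Finset ℤ) (ν : ℕ) : Polynomial ℂ :=
  ∏ k ∈ K, (Polynomial.X - Polynomial.C (wm k)) ^ ν

/-- The algebraic data of the curve used by the analytic part. -/
structure CD (F : S) (ρ R J E : ℕ) where
  t : ℕ
  θ : Fin t → ℤ × ℤ
  P : Submodule ℂ S
  M : Fin t → Submodule ℂ S
  M0 : Fin t → Submodule ℂ S
  rho : Fin t → S →ₗ[ℂ] S
  K : Fin t → Finset ℤ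
  P_le : P ≤ Vp E
  one_P : (1 : S) ∈ P
  one_M : ∀ τ, (1 : S) ∈ M τ
  P_dv : ∀ v, ∀ G ∈ P, dv v G ∈ P
  θ_ne : ∀ τ, θ τ ≠ 0
  θ_sml : ∀ τ, Sml ρ (θ τ)
  M_dv : ∀ τ, ∀ G ∈ M τ, dv (cz (θ τ)) G ∈ M τ
  M0_dv : ∀ τ v, ∀ G ∈ M0 τ, dv v G ∈ M0 τ
  M0_le : ∀ τ, M0 τ ≤ M τ
  rho_P : ∀ τ, ∀ H ∈ P, rho τ H ∈ P
  rho_sub : ∀ τ, ∀ H ∈ P, H - rho τ H ∈ M τ
  rho_zero : ∀ τ, ∀ H ∈ P, H ∈ M τ → rho τ H = 0
  rho_other : ∀ τ τ', τ' ≠ τ → ∀ H ∈ P, rho τ H ∈ M0 τ'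
  rho_near : ∀ τ, ∀ H ∈ P, ∀ k : ℤ, k ≠ 0 → |k| ≤ 2 * ρ * R → k ∉ K τ →
    tr (wm k • dual (perp (θ τ))) (rho τ H) ∈ M τ
  K_card : ∀ τ, (K τ).card ≤ J
  K_mem : ∀ τ, ∀ k ∈ K τ, k ≠ 0 ∧ |k| ≤ 2 * ρ * R
  good : ∀ g ∈ P, (∀ τ, g ∈ M τ) → ∃ (s : ℕ) (G : Fin s → S) (𝓛 : Fin s → Finset ((ℤ × ℤ) × ℤ)),
    F ∣ g - ∑ e, G e ∧ ∀ e, G e ∈ P ∧ (𝓛 e).card ≤ J ∧
      (∀ l ∈ 𝓛 e, Sml ρ l.1 ∧ l.2 ≠ 0 ∧ |l.2| ≤ 2 * ρ * R) ∧
      (∀ m ∈ box R, m ≠ 0 → (∀ l ∈ 𝓛 e, dotZ l.1 m ≠ l.2) → F ∣ tr (wv m) (G e)) ∧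
      ∀ τ, ∀ k : ℤ, |k| ≤ 2 * ρ * R → (perp (θ τ), k) ∉ 𝓛 e →
        ∀ ξ, dotC (cz (perp (θ τ))) ξ = wm k → tr ξ (G e) ∈ M τ

/-- The middle space. -/
def CD.Mid {F : S} {ρ R J E : ℕ} (cd : CD F ρ R J E) : Submodule ℂ S := cd.P ⊓ ⨅ τ, cd.M τ

/-- The projection to the middle space. -/
def CD.pi0 {F : S} {ρ R J E : ℕ} (cd : CD F ρ R J E) : S →ₗ[ℂ] S := LinearMap.id - ∑ τ, cd.rho τ

/-- A solution of the homogeneous problem. -/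
def Adm (F : S) (E C₁ n : ℕ) (Λ : S →ₗ[ℂ] S) : Prop :=
  (∀ h, Λ (F * h) = 0) ∧ (∀ G, Λ G ∈ Vp (C₁ * n)) ∧
    ∀ H ∈ Vp E, ∀ a ∈ latX n, eval (cz a) (UU E Λ H) = 0

/-- The chord polynomial. -/
def Uc (E : ℕ) (θ : ℤ × ℤ) (Λ : S →ₗ[ℂ] S) (a : ℤ × ℤ) (H : S) : Polynomial ℂ :=
  lr (cz a) (cz (perp θ)) (Ex E (dual θ) (cz θ) Λ H)

/-- The loss in the exponent. -/
def aa (C₁ ρ R J : ℕ) : ℝ :=
  1000 * ρ ^ 2 * C₁ ^ 2 + 2 * J * C₁ * (Real.log (20 * ρ * R) + 9) + 30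

/-- Admissible parameters. -/
def Par (C₁ ρ R J K : ℕ) : Prop :=
  1 ≤ C₁ ∧ 1 ≤ ρ ∧ 40000 * (K + 1) ≤ R ∧ 2 * aa C₁ ρ R J + 1 ≤ K

/-- The bound on the middle space. -/
def NB (n : ℕ) (Λ : S →ₗ[ℂ] S) {r : ℕ} (b : Fin r → S) (N : ℝ) : Prop :=
  ∀ k, Bd2 (sqX n) (Λ (b k)) N 2

/-- The bound on the chords. -/
def VB {F : S} {ρ R J E : ℕ} (cd : CD F ρ R J E) (n : ℕ) (Λ : S →ₗ[ℂ] S) {r : ℕ} (b : Fin r → S)
    (V : ℝ) : Prop :=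
  ∀ τ, ∀ a ∈ latB n, ∀ k, BdP 0 0 (Uc E (cd.θ τ) (Λ ∘ₗ cd.rho τ) a (b k)) V 2

/-! The curve and its places at infinity. -/

/-- A polynomial in two variables as a polynomial in the second variable. -/
abbrev toBi {K : Type} [CommRing K] (G : MvPolynomial (Fin 2) K) : Polynomial (Polynomial K) :=
  (Polynomial.Bivariate.equivMvPolynomial K).symm G

/-- Monic of degree `D` in the second variable and of total degree `D`. -/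
def Mon {K : Type} [CommRing K] (F : MvPolynomial (Fin 2) K) (D : ℕ) : Prop :=
  1 ≤ D ∧ F.totalDegree ≤ D ∧ (toBi F).Monic ∧ (toBi F).natDegree = D

/-- The curve is not a union of lines with a small rational direction. -/
def NL (F : S) (ρ : ℕ) : Prop := ∀ θ : ℤ × ℤ, θ ≠ 0 → Sml ρ θ → ¬ ∀ t : ℂ, F ∣ tr (t • cz θ) F

section Val

variable {Ω : Type} [Field Ω]

/-- Degree at most `q`. -/
def Le (o : CyV.Ord Ω) (q : ℚ) (u : Ω) : Prop := o.Ge (-q) u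

/-- Degree less than `q`. -/
def Lt (o : CyV.Ord Ω) (q : ℚ) (u : Ω) : Prop := o.Gt (-q) u

/-- Degree exactly `q`. -/
def Exa (o : CyV.Ord Ω) (q : ℚ) (u : Ω) : Prop := u ≠ 0 ∧ o.v u = -q

/-- The gap of the value group. -/
def del (D : ℕ) : ℚ := 1 / (D.factorial : ℚ)

variable [Algebra ℂ Ω]

/-- The branches at infinity of the curve. -/
structure Pl (Ω : Type) [Field Ω] [Algebra ℂ Ω] (F : S) (D : ℕ) where
  o : CyV.Ord Ω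
  c : Fin D → Fin 2 → Ω
  a : Fin D → ℂ
  const : ∀ z : ℂ, z ≠ 0 → o.v (algebraMap ℂ Ω z) = 0
  x0 : ∀ i, Exa o 1 (c i 0)
  slope : ∀ i, Le o (1 - del D) (c i 1 - algebraMap ℂ Ω (a i) * c i 0)
  der : ∃ d : Derivation ℂ Ω Ω, (∀ i, d (c i 0) = 1) ∧ ∀ q u, Le o q u → Le o (q - 1) (d u)
  ker : ∀ i (G : S), aeval (c i) G = 0 ↔ F ∣ G
  norm : ∀ G : S, ¬ F ∣ G → ∃ N : Polynomial ℂ, N ≠ 0 ∧
    (N.natDegree : ℚ) = ∑ i, -o.v (aeval (c i) G) ∧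
      ∃ b : S, F ∣ Polynomial.aeval (X 0 : S) N - b * G
  rem : ∀ G : S, ∃ u : Fin D → Polynomial ℂ,
    F ∣ G - ∑ k, Polynomial.aeval (X 0 : S) (u k) * X 1 ^ (k : ℕ) ∧
      ∀ q : ℕ, (∀ i, Le o q (aeval (c i) G)) → ∀ k, (u k).natDegree ≤ q + D ^ 2

variable {F : S} {D : ℕ} (p : Pl Ω F D)

/-- Elements of degree at most `q`. -/
def Pl.LeS (q : ℚ) : Submodule ℂ Ω where
  carrier := {u | Le p.o q u}
  add_mem' := fun h h' => CyV.Ord.Ge.add h h'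
  zero_mem' := p.o.ge_zero _
  smul_mem' := fun z u h => by
    rcases eq_or_ne z 0 with rfl | hz
    · rw [zero_smul]
      exact p.o.ge_zero _
    · have h0 : p.o.Ge 0 (algebraMap ℂ Ω z) := Or.inr (p.const z hz).ge
      have h1 := CyV.Ord.Ge.mul h0 h
      rw [zero_add] at h1
      rw [Algebra.smul_def]
      exact h1

def Pl.dir (i : Fin D) : Fin 2 → ℂ := ![1, p.a i]

def Pl.ell (i : Fin D) (ξ : Fin 2 → ℂ) : ℂ := ξ 1 - p.a i * ξ 0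

/-- All translates have degree at most `q` on the branch `i`. -/
def Pl.GB (i : Fin D) (q : ℚ) : Submodule ℂ S :=
  ⨅ ξ : Fin 2 → ℂ, (p.LeS q).comap ((aeval (p.c i)).toLinearMap ∘ₗ (tr ξ).toLinearMap)

/-- All translates along the asymptotic direction have degree at most `q`. -/
def Pl.LB (i : Fin D) (q : ℚ) : Submodule ℂ S :=
  ⨅ t : ℂ, (p.LeS q).comap ((aeval (p.c i)).toLinearMap ∘ₗ (tr (t • p.dir i)).toLinearMap)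

/-- All translates along the asymptotic direction have degree exactly `q`. -/
def Pl.EX (i : Fin D) (q : ℚ) (G : S) : Prop :=
  ∀ t : ℂ, Exa p.o q (aeval (p.c i) (tr (t • p.dir i) G))

/-- The product of the translates of `F` by `-w m`. -/
def prF (F : S) (W : Finset (ℤ × ℤ)) : S := ∏ m ∈ W, tr (-wv m) F

/-- The translates through a point. -/
def thr (F : S) (W : Finset (ℤ × ℤ)) (τ : Fin 2 → ℂ) : Finset (ℤ × ℤ) :=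
  open Classical in W.filter fun m => eval (τ - wv m) F = 0

/-- The multipliers. -/
structure Mult (ρ R s e : ℕ) where
  t : ℕ
  ht : t ≤ D
  θ : Fin t → ℤ × ℤ
  cls : Fin D → Option (Fin t)
  θ_ne : ∀ τ, θ τ ≠ 0
  θ_sml : ∀ τ, Sml ρ (θ τ)
  cls_dir : ∀ i τ, cls i = some τ → (θ τ).1 ≠ 0 ∧ cz (θ τ) = ((θ τ).1 : ℂ) • p.dir i
  K : Fin t → Finset ℤ
  K_card : ∀ τ, (K τ).card ≤ D ^ 2
  K_mem : ∀ τ, ∀ k ∈ K τ, k ≠ 0 ∧ |k| ≤ 2 * ρ * R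
  W : Finset (ℤ × ℤ)
  S0 : Finset (ℤ × ℤ)
  W_mem : ∀ m ∈ W, m ∈ box R ∧ m ≠ 0
  S0_mem : ∀ m ∈ S0, m ∈ box R ∧ m ≠ 0
  S0_card : S0.card ≤ D ^ 2 * (2 * R / ρ + 1)
  cover : ∀ m ∈ box R, m ≠ 0 → m ∈ W ∨ m ∈ S0 ∨ ∃ τ, dotZ (perp (θ τ)) m ∈ K τ
  M1 : S
  M1_deg : M1 ∈ Vp e
  he : D * (2 * R + 1) ^ 2 ≤ e
  π : Fin D → ℚ
  ω : Fin D → ℚ
  π_nonneg : ∀ i, 0 ≤ π i
  ω_nonneg : ∀ i, 0 ≤ ω i
  M_exa : ∀ i, Exa p.o (π i) (aeval (p.c i) (prF F W * M1))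
  M_none : ∀ i, cls i = none → prF F W * M1 ∈ p.GB i (π i)
  M_gb : ∀ i, prF F W * M1 ∈ p.GB i (π i + (D ^ 2 * (2 * R + 1) : ℕ))
  M_lb : ∀ i τ, cls i = some τ → prF F W * M1 ∈ p.LB i (π i)
  M_near : ∀ i τ, cls i = some τ → ∀ k : ℤ, k ≠ 0 → |k| ≤ 2 * ρ * R → k ∉ K τ →
    ∀ ξ, dotC (cz (perp (θ τ))) ξ = wm k → tr ξ (prF F W * M1) ∈ p.LB i (π i - s)
  W0 : S
  Wt : Fin t → S
  W0_deg : W0 ∈ Vp e
  Wt_deg : ∀ τ, Wt τ ∈ Vp e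
  W0_exa : ∀ i, Exa p.o (ω i) (aeval (p.c i) W0)
  W0_gb : ∀ i, W0 ∈ p.GB i (ω i)
  Wt_gb : ∀ τ i, Wt τ ∈ p.GB i (ω i)
  Wt_ex : ∀ τ i, cls i = some τ → p.EX i (ω i) (Wt τ)
  Wt_near : ∀ τ i, cls i = some τ → ∀ k : ℤ, k ≠ 0 → |k| ≤ 2 * ρ * R → k ∉ K τ →
    ∀ ξ, dotC (cz (perp (θ τ))) ξ = wm k → tr ξ (Wt τ) ∈ p.LB i (ω i - s)
  Wt_other : ∀ τ τ' i, cls i = some τ' → τ' ≠ τ → Wt τ ∈ p.GB i (ω i - s)

end Val

/-- Bound for the number of translates through a point. -/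
def jj (D ρ R ℓ : ℕ) : ℕ := D * ℓ + D ^ 3 * (4 * R / ℓ + 1) ^ 2 + D * (2 * R / ρ + 1)

/-- The number of lines to be killed. -/
def Jq (D ρ R ℓ : ℕ) : ℕ := D ^ 2 * (2 * R / ρ + 1) + D ^ 3 + jj D ρ R ℓ

/-! The arithmetic step. -/

/-- The row attached to a functional with moments `ψ`. -/
def rowF {K : Type} [CommRing K] (ψ : ℕ → ℕ → K) (D D' : Polynomial K) (a i b j : ℕ) : K :=
  ∑ s ∈ range (i + 1), ∑ t ∈ range (j + 1), (i.choose s : K) * (j.choose t : K) * ψ (i - s) (j - t) *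
    ((Polynomial.derivative^[s] D).eval (a : K) * (Polynomial.derivative^[t] D').eval (b : K))

/-- The zero estimate for functionals with moments `ψ e` and the point `(u, v; α, β)`. -/
def ZF {K ι : Type} [Field K] (ψ : ι → ℕ → ℕ → K) (u v α β : K) (ν₁ ν₂ E n₁ n₂ : ℕ) : Prop :=
  ∀ (t : ℕ) (pt : Fin t → ι) (D D' : Fin t → Polynomial K), (∀ e, (D e).degree < ν₁) →
    (∀ e, (D' e).degree < ν₂) → ¬ ∀ a ≤ n₁, ∀ b ≤ n₂, ∀ i ≤ E, ∀ j ≤ E,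
      ∑ e, rowF (ψ (pt e)) (D e) (D' e) a i b j = u ^ i * α ^ a * (v ^ j * β ^ b)

/-- The normed fields to which the theorem applies. -/
structure Nice (𝕜 : Type) [NormedField 𝕜] [CharZero 𝕜] : Prop where
  good : Good 𝕜
  fac : ∀ a s : ℕ, ‖(a : 𝕜) ^ s / (s.factorial : 𝕜)‖ ≤ 2 ^ s * 3 ^ a
  sum : ∀ l : 𝕜, ‖l‖ ≤ 1 / 4 → ∀ a : ℕ,
    HasSum (fun s : ℕ => (-l * a) ^ s / (s.factorial : 𝕜)) ((NormedSpace.exp l)⁻¹ ^ a)

end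

end Pool.Agent.Lib.MP_1f047c_nt.TA
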