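import Pool.Agent.Lib.MP_1f047c_nt.TABasic

/-! Reduction to an absolutely irreducible monic polynomial. -/

open Finset MvPolynomial

namespace Pool.Agent.Lib.MP_1f047c_nt.TA

/-- The polynomial `F (x, Y)`. -/
noncomputable def fib {K : Type} [CommRing K] (F : MvPolynomial (Fin 2) K) (x : K) : Polynomial K :=
  (toBi F).map (Polynomial.evalRingHom x)

lemma fieldA_toBi_map {K L : Type} [CommRing K] [CommRing L] (φ : K →+* L)
    (F : MvPolynomial (Fin 2) K) :
    toBi (MvPolynomial.map φ F) = (toBi F).map (Polynomial.mapRingHom φ) := by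
  induction F using MvPolynomial.induction_on with
  | C a => simp
  | add p q hp hq => simp only [toBi, map_add, Polynomial.map_add] at hp hq ⊢; rw [hp, hq]
  | mul_X p i hp =>
    simp only [toBi, map_mul, Polynomial.map_mul, map_X] at hp ⊢
    rw [hp]
    fin_cases i <;> simp

lemma fieldA_fib_map {K L : Type} [CommRing K] [CommRing L] (φ : K →+* L)
    (F : MvPolynomial (Fin 2) K) (x : K) : fib (MvPolynomial.map φ F) (φ x) = (fib F x).map φ := by
  rw [fib, fib, fieldA_toBi_map, Polynomial.map_map, Polynomial.map_map]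
  congr 1
  ext <;> simp

lemma Mon.map {K L : Type} [Field K] [Field L] (φ : K →+* L) {F : MvPolynomial (Fin 2) K} {D : ℕ}
    (h : Mon F D) : Mon (MvPolynomial.map φ F) D := by
  obtain ⟨h1, h2, h3, h4⟩ := h
  refine ⟨h1, (Finset.sup_mono (support_map_subset φ F)).trans h2, ?_, ?_⟩
  · rw [fieldA_toBi_map]
    exact h3.map _
  · rw [fieldA_toBi_map, h3.natDegree_map, h4]

lemma fieldA_deg {K : Type} [CommRing K] {F : MvPolynomial (Fin 2) K} {m : Fin 2 →₀ ℕ}
    (hm : m ∈ F.support) : m 0 + m 1 ≤ F.totalDegree := by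
  have := le_totalDegree hm
  rwa [Finsupp.sum_fintype _ _ fun _ => rfl, Fin.sum_univ_two] at this

lemma fieldA_coeff {R : Type} [CommRing R] (a b : R) {i j D : ℕ} (h : i + j ≤ D) :
    ((Polynomial.C a + Polynomial.C b * Polynomial.X) ^ i * Polynomial.X ^ j).natDegree ≤ D ∧
    ((Polynomial.C a + Polynomial.C b * Polynomial.X) ^ i * Polynomial.X ^ j).coeff D =
      if i + j = D then b ^ i else 0 := by
  have h1 : (Polynomial.C a + Polynomial.C b * Polynomial.X).natDegree ≤ 1 := by
    compute_degree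
  have h2 : ((Polynomial.C a + Polynomial.C b * Polynomial.X) ^ i *
      Polynomial.X ^ j).natDegree ≤ i + j :=
    Polynomial.natDegree_mul_le_of_le
      ((Polynomial.natDegree_pow_le_of_le i h1).trans (mul_one i).le)
      (Polynomial.natDegree_X_pow_le j)
  refine ⟨h2.trans h, ?_⟩
  split_ifs with h3
  · have h4 := Polynomial.coeff_pow_of_natDegree_le (m := i) h1
    rw [mul_one] at h4
    rw [← h3, Polynomial.coeff_mul_X_pow, h4]
    simp
  · exact Polynomial.coeff_eq_zero_of_natDegree_lt (by omega)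

/-- A shear makes the polynomial monic. -/
theorem exists_shear {K : Type} [Field K] [CharZero K] {F : MvPolynomial (Fin 2) K}
    (h : 1 ≤ F.totalDegree) : ∃ (γ : ℕ) (c : K), γ ≤ F.totalDegree ∧ c ≠ 0 ∧
      Mon (C c * aeval ![X 0 + C (γ : K) * X 1, X 1] F) F.totalDegree := by
  set D := F.totalDegree with hD
  have hF : F.support.Nonempty := support_nonempty.2 fun e => by
    rw [hD, e, totalDegree_zero] at h
    omega
  obtain ⟨m₀, hm₀, e₀⟩ := Finset.exists_mem_eq_sup _ hF fun m : Fin 2 →₀ ℕ => m.sum fun _ e => e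
  rw [Finsupp.sum_fintype _ _ fun _ => rfl, Fin.sum_univ_two] at e₀
  have e₁ : m₀ 0 + m₀ 1 = D := e₀.symm
  set p : Polynomial K := ∑ m ∈ F.support,
    if m 0 + m 1 = D then Polynomial.monomial (m 0) (F.coeff m) else 0 with hp
  have h1 : p ≠ 0 := fun e => by
    have h2 := congrArg (fun q => Polynomial.coeff q (m₀ 0)) e
    simp only [hp, Polynomial.finsetSum_coeff, Polynomial.coeff_zero] at h2
    rw [Finset.sum_eq_single_of_mem m₀ hm₀, if_pos e₁, Polynomial.coeff_monomial_same] at h2
    · exact mem_support_iff.1 hm₀ h2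
    · intro m _ hne
      split_ifs with h3
      · refine Polynomial.coeff_monomial_of_ne _ fun h4 => hne ?_
        ext i
        fin_cases i
        · exact h4.symm
        · show m 1 = m₀ 1
          omega
      · rfl
  have h2 : p.natDegree ≤ D := by
    refine Polynomial.natDegree_sum_le_of_forall_le _ _ fun m _ => ?_
    split_ifs with h3
    · exact (Polynomial.natDegree_monomial_le _).trans (by omega)
    · simp
  obtain ⟨γ, hγ⟩ : ∃ γ : Fin (D + 1), p.eval ((γ : ℕ) : K) ≠ 0 := by
    by_contra hc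
    refine h1 (Polynomial.eq_zero_of_natDegree_lt_card_of_eval_eq_zero p
      (f := fun γ : Fin (D + 1) => ((γ : ℕ) : K)) (Nat.cast_injective.comp Fin.val_injective)
      (fun γ => by_contra fun e => hc ⟨γ, e⟩) ?_)
    rw [Fintype.card_fin]
    omega
  have h3 : aeval ![X 0 + C ((γ : ℕ) : K) * X 1, X 1] F = ∑ m ∈ F.support,
      (C (F.coeff m) * ((X 0 + C ((γ : ℕ) : K) * X 1) ^ m 0 * X 1 ^ m 1) :
        MvPolynomial (Fin 2) K) := by
    rw [aeval_def, eval₂_eq']
    refine Finset.sum_congr rfl fun m _ => ?_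
    rw [Fin.prod_univ_two]
    rfl
  have h4 : toBi (C (p.eval ((γ : ℕ) : K))⁻¹ * aeval ![X 0 + C ((γ : ℕ) : K) * X 1, X 1] F) =
      Polynomial.C (Polynomial.C (p.eval ((γ : ℕ) : K))⁻¹) * ∑ m ∈ F.support,
        Polynomial.C (Polynomial.C (F.coeff m)) * ((Polynomial.C Polynomial.X +
          Polynomial.C (Polynomial.C ((γ : ℕ) : K)) * Polynomial.X) ^ m 0 *
            Polynomial.X ^ m 1) := by
    simp only [h3, toBi, map_mul, map_sum, map_pow, map_add,
      Polynomial.Bivariate.equivMvPolynomial_symm_C, Polynomial.Bivariate.equivMvPolynomial_symm_X_0,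
      Polynomial.Bivariate.equivMvPolynomial_symm_X_1]
  have h5 : (toBi (C (p.eval ((γ : ℕ) : K))⁻¹ *
      aeval ![X 0 + C ((γ : ℕ) : K) * X 1, X 1] F)).natDegree ≤ D := by
    rw [h4]
    exact (Polynomial.natDegree_C_mul_le _ _).trans (Polynomial.natDegree_sum_le_of_forall_le _ _
      fun m hm => (Polynomial.natDegree_C_mul_le _ _).trans (fieldA_coeff _ _ (fieldA_deg hm)).1)
  have h6 : (toBi (C (p.eval ((γ : ℕ) : K))⁻¹ *
      aeval ![X 0 + C ((γ : ℕ) : K) * X 1, X 1] F)).coeff D = 1 := by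
    rw [h4, Polynomial.coeff_C_mul, Polynomial.finsetSum_coeff, ← Polynomial.C_1,
      ← inv_mul_cancel₀ hγ, Polynomial.C_mul]
    congr 1
    rw [hp, Polynomial.eval_finsetSum, map_sum]
    refine Finset.sum_congr rfl fun m hm => ?_
    rw [Polynomial.coeff_C_mul, (fieldA_coeff _ _ (fieldA_deg hm)).2]
    by_cases h7 : m 0 + m 1 = D
    · rw [if_pos h7, if_pos h7, Polynomial.eval_monomial, map_mul, map_pow]
    · rw [if_neg h7, if_neg h7, mul_zero, Polynomial.eval_zero, map_zero]
  refine ⟨γ, (p.eval ((γ : ℕ) : K))⁻¹, Nat.le_of_lt_succ γ.2, inv_ne_zero hγ, h, ?_,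
    Polynomial.monic_of_natDegree_le_of_coeff_eq_one D h5 h6,
    Polynomial.natDegree_eq_of_le_of_coeff_ne_zero h5 (h6.trans_ne one_ne_zero)⟩
  have h7 : (X 0 + C ((γ : ℕ) : K) * X 1 : MvPolynomial (Fin 2) K).totalDegree ≤ 1 :=
    (totalDegree_add _ _).trans (max_le (totalDegree_X 0).le ((totalDegree_mul _ _).trans
      (by rw [totalDegree_C, totalDegree_X])))
  rw [h3]
  refine (totalDegree_mul _ _).trans ?_
  rw [totalDegree_C, zero_add]
  refine totalDegree_finsetSum_le fun m hm => (totalDegree_mul _ _).trans ?_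
  rw [totalDegree_C, zero_add]
  refine (totalDegree_mul _ _).trans (le_trans (add_le_add ?_ ?_) (fieldA_deg hm))
  · exact (totalDegree_pow _ _).trans ((Nat.mul_le_mul_left _ h7).trans (mul_one _).le)
  · exact (totalDegree_X_pow _ _).le

lemma fieldA_finrank {K : Type} [Field K] [CharZero K] (Q : Polynomial K) :
    Module.finrank K Q.SplittingField ≤ Q.natDegree.factorial := by
  have : IsGalois K Q.SplittingField := {}
  have : Fact (Q.map (algebraMap K Q.SplittingField)).Splits :=
    ⟨Polynomial.SplittingField.splits Q⟩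
  have h1 := Nat.card_le_card_of_injective _
    (Polynomial.Gal.galActionHom_injective Q Q.SplittingField)
  rw [Nat.card_perm] at h1
  exact (IsGalois.card_aut_eq_finrank K Q.SplittingField).symm.le.trans
    (h1.trans (Nat.factorial_le (Polynomial.ncard_rootSet_le Q _)))

/-- A field of bounded degree which splits the fibres. -/
theorem exists_split (D₀ : ℕ) : ∃ κ : ℕ, 1 ≤ κ ∧ ∀ (K : Type) [Field K] [NumberField K]
    (F : MvPolynomial (Fin 2) K) (D : ℕ), D ≤ D₀ → Mon F D →
      ∃ (L : Type) (_ : Field L) (_ : NumberField L) (_ : Algebra K L), Module.finrank K L ≤ κ ∧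
        ∀ x : ℕ, x ≤ D → (fib (MvPolynomial.map (algebraMap K L) F) (x : L)).Splits := by
  refine ⟨((D₀ + 1) * D₀).factorial, Nat.factorial_pos _, fun K _ _ F D hD hF => ?_⟩
  obtain ⟨-, -, h3, h4⟩ := hF
  have h1 : ∀ x : K, (fib F x).Monic := fun x => h3.map _
  set Q : Polynomial K := ∏ x ∈ range (D + 1), fib F (x : K) with hQ
  have h2 : Q.Monic := Polynomial.monic_prod_of_monic _ _ fun x _ => h1 x
  have h5 : Q.natDegree ≤ (D₀ + 1) * D₀ := by
    rw [hQ, Polynomial.natDegree_prod_of_monic _ _ fun (x : ℕ) _ => h1 (x : K)]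
    simp only [fib, h3.natDegree_map, h4, sum_const, card_range, smul_eq_mul]
    exact Nat.mul_le_mul (by omega) hD
  refine ⟨Q.SplittingField, inferInstance, NumberField.of_module_finite K _, inferInstance,
    (fieldA_finrank Q).trans (Nat.factorial_le h5), fun x hx => ?_⟩
  rw [← map_natCast (algebraMap K Q.SplittingField), fieldA_fib_map]
  exact (Polynomial.SplittingField.splits Q).of_dvd (h2.map _).ne_zero
    (Polynomial.map_dvd _ (dvd_prod_of_mem _ (mem_range.2 (Nat.lt_succ_of_le hx))))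

end Pool.Agent.Lib.MP_1f047c_nt.TA
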