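import Pool.Agent.Lib.MP_1f047c_nt.TAFieldA

/-! Reduction to an absolutely irreducible monic polynomial. -/

open Finset MvPolynomial

namespace Pool.Agent.Lib.MP_1f047c_nt.TA

lemma toBi_monomial_fB {K : Type} [CommRing K] (m : Fin 2 →₀ ℕ) (c : K) :
    toBi (monomial m c) = Polynomial.monomial (m 1) (Polynomial.monomial (m 0) c) := by
  rw [monomial_eq, Finsupp.prod_fintype _ _ (fun _ => pow_zero _), Fin.prod_univ_two]
  simp only [toBi, map_mul, map_pow, Polynomial.Bivariate.equivMvPolynomial_symm_C,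
    Polynomial.Bivariate.equivMvPolynomial_symm_X_0,
    Polynomial.Bivariate.equivMvPolynomial_symm_X_1]
  rw [← Polynomial.C_mul_X_pow_eq_monomial, ← Polynomial.C_mul_X_pow_eq_monomial, map_mul, map_pow,
    mul_assoc]

lemma toBi_sum_fB {K : Type} [CommRing K] (G : MvPolynomial (Fin 2) K) :
    toBi G = ∑ m ∈ G.support, Polynomial.monomial (m 1) (Polynomial.monomial (m 0) (coeff m G)) := by
  conv_lhs => rw [G.as_sum]
  rw [toBi, map_sum]
  exact sum_congr rfl fun m _ => toBi_monomial_fB m _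

lemma supp_le_fB {K : Type} [CommRing K] {G : MvPolynomial (Fin 2) K} {m : Fin 2 →₀ ℕ}
    (hm : m ∈ G.support) : m 0 + m 1 ≤ G.totalDegree := by
  have h := le_totalDegree hm
  rwa [Finsupp.sum_fintype _ _ (fun _ => rfl), Fin.sum_univ_two] at h

lemma natDegree_toBi_fB {K : Type} [CommRing K] (G : MvPolynomial (Fin 2) K) :
    (toBi G).natDegree ≤ G.totalDegree := by
  rw [toBi_sum_fB]
  refine Polynomial.natDegree_sum_le_of_forall_le _ _ fun m hm => ?_
  exact (Polynomial.natDegree_monomial_le _).trans (le_of_add_le_right (supp_le_fB hm))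

lemma natDegree_coeff_toBi_fB {K : Type} [CommRing K] (G : MvPolynomial (Fin 2) K) (k : ℕ) :
    ((toBi G).coeff k).natDegree ≤ G.totalDegree := by
  rw [toBi_sum_fB, Polynomial.finsetSum_coeff]
  refine Polynomial.natDegree_sum_le_of_forall_le _ _ fun m hm => ?_
  rw [Polynomial.coeff_monomial]
  split_ifs
  · exact (Polynomial.natDegree_monomial_le _).trans (le_of_add_le_left (supp_le_fB hm))
  · simp

lemma toBi_map_fB {K L : Type} [CommRing K] [CommRing L] (ι : K →+* L)
    (G : MvPolynomial (Fin 2) K) :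
    toBi (MvPolynomial.map ι G) = (toBi G).map (Polynomial.mapRingHom ι) := by
  induction G using MvPolynomial.induction_on with
  | C a => simp [toBi]
  | add p q hp hq =>
    simp only [toBi, map_add, Polynomial.map_add] at hp hq ⊢
    rw [hp, hq]
  | mul_X p n hp =>
    simp only [toBi, map_mul, Polynomial.map_mul, map_X] at hp ⊢
    rw [hp]
    congr 1
    fin_cases n <;> simp

/-- The factors of a monic polynomial of full degree are of the same kind. -/
lemma mon_of_mul_fB {K : Type} [Field K] {A B : MvPolynomial (Fin 2) K} {D : ℕ}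
    (h : Mon (A * B) D) (hA : (toBi A).Monic) (hB : (toBi B).Monic) :
    A.totalDegree ≤ (toBi A).natDegree ∧ B.totalDegree ≤ (toBi B).natDegree ∧
      (toBi A).natDegree + (toBi B).natDegree = D := by
  obtain ⟨-, h1, -, h3⟩ := h
  have hA0 : A ≠ 0 := fun h0 => hA.ne_zero (by rw [h0, toBi, map_zero])
  have hB0 : B ≠ 0 := fun h0 => hB.ne_zero (by rw [h0, toBi, map_zero])
  rw [totalDegree_mul_of_isDomain hA0 hB0] at h1
  rw [toBi, map_mul, hA.natDegree_mul hB] at h3
  have h4 := natDegree_toBi_fB A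
  have h5 := natDegree_toBi_fB B
  simp only [toBi] at h3 h4 h5 ⊢
  omega

/-- A polynomial with many values in a subfield has its coefficients there. -/
lemma lifts_of_values_fB {L M : Type} [Field L] [CharZero L] [Field M] (ι : L →+* M)
    {c : Polynomial M} {D : ℕ} (hc : c.natDegree ≤ D)
    (hv : ∀ x : ℕ, x ≤ D → c.eval (x : M) ∈ Set.range ι) : ∃ p : Polynomial L, p.map ι = c := by
  classical
  have hM : CharZero M := charZero_of_injective_ringHom ι.injective
  have hv' : ∀ x : ℕ, ∃ r : L, x ≤ D → ι r = c.eval (x : M) := by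
    intro x
    by_cases hx : x ≤ D
    · obtain ⟨r, hr⟩ := hv x hx
      exact ⟨r, fun _ => hr⟩
    · exact ⟨0, fun h => absurd h hx⟩
  choose r hr using hv'
  have hinj : Set.InjOn (fun x : ℕ => (x : L)) (range (D + 1) : Finset ℕ) :=
    Nat.cast_injective.injOn
  have hinj' : Set.InjOn (fun x : ℕ => (x : M)) (range (D + 1) : Finset ℕ) :=
    Nat.cast_injective.injOn
  refine ⟨Lagrange.interpolate (range (D + 1)) (fun x : ℕ => (x : L)) r, ?_⟩
  refine Polynomial.eq_of_degrees_lt_of_eval_index_eq (range (D + 1)) hinj' ?_ ?_ fun x hx => ?_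
  · exact Polynomial.degree_map_le.trans_lt (Lagrange.degree_interpolate_lt r hinj)
  · rw [card_range]
    exact Polynomial.degree_le_natDegree.trans_lt (by exact_mod_cast Nat.lt_succ_of_le hc)
  · have h1 := Lagrange.eval_interpolate_at_node r hinj hx
    rw [← hr x (Nat.lt_succ_iff.1 (mem_range.1 hx)), ← h1, ← map_natCast ι x,
      Polynomial.eval_map, Polynomial.eval₂_at_apply]

lemma fib_monic_fB {K : Type} [CommRing K] {F : MvPolynomial (Fin 2) K} (h : (toBi F).Monic)
    (x : K) : (fib F x).Monic := h.map _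

lemma fib_mul_fB {K : Type} [CommRing K] (A B : MvPolynomial (Fin 2) K) (x : K) :
    fib (A * B) x = fib A x * fib B x := by
  rw [fib, toBi, map_mul, Polynomial.map_mul]
  rfl

lemma fib_map_fB {K L : Type} [CommRing K] [CommRing L] (ι : K →+* L)
    (G : MvPolynomial (Fin 2) K) (x : K) :
    fib (MvPolynomial.map ι G) (ι x) = (fib G x).map ι := by
  rw [fib, fib, toBi_map_fB, Polynomial.map_map, Polynomial.map_map]
  congr 1
  ext <;> simp

/-- A monic factor over the complex numbers descends. -/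
lemma descend_fB {L : Type} [Field L] [CharZero L] (ι : L →+* ℂ) {F : MvPolynomial (Fin 2) L}
    {D : ℕ} (hF : Mon F D) (hs : ∀ x : ℕ, x ≤ D → (fib F (x : L)).Splits) {A : S}
    (hA : (toBi A).Monic) (hd : A.totalDegree ≤ D) (hdvd : A ∣ MvPolynomial.map ι F) :
    ∃ A' : MvPolynomial (Fin 2) L, (toBi A').Monic ∧ (toBi A').natDegree = (toBi A).natDegree ∧
      A' ∣ F := by
  have hl : toBi A ∈ Polynomial.lifts (Polynomial.mapRingHom ι) := by
    rw [Polynomial.lifts_iff_coeff_lifts]
    intro k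
    refine lifts_of_values_fB ι ((natDegree_coeff_toBi_fB A k).trans hd) fun x hx => ?_
    have h1 : fib A (x : ℂ) ∈ Polynomial.lifts ι := by
      refine (IsAlgClosed.splits _).mem_lift_of_roots_mem_range (fib_monic_fB hA _) ι
        fun a ha => ?_
      refine (hs x hx).mem_range_of_isRoot (fib_monic_fB hF.2.2.1 _).ne_zero ?_
      obtain ⟨B, hB⟩ := hdvd
      rw [← fib_map_fB, map_natCast, hB, fib_mul_fB]
      exact Polynomial.IsRoot.dvd (Polynomial.isRoot_of_mem_roots ha) (dvd_mul_right _ _)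
    have h2 := (Polynomial.lifts_iff_coeff_lifts _).1 h1 k
    rwa [fib, Polynomial.coeff_map, Polynomial.coe_evalRingHom] at h2
  obtain ⟨a, ha1, ha2, ha3⟩ := Polynomial.lifts_and_natDegree_eq_and_monic hl hA
  have h3 : a ∣ toBi F := by
    rw [← Polynomial.map_dvd_map (Polynomial.mapRingHom ι)
      (Polynomial.map_injective ι ι.injective) ha3, ha1, ← toBi_map_fB]
    exact map_dvd _ hdvd
  have h4 : toBi (Polynomial.Bivariate.equivMvPolynomial L a) = a := AlgEquiv.symm_apply_apply _ _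
  refine ⟨Polynomial.Bivariate.equivMvPolynomial L a, h4.symm ▸ ha3, h4.symm ▸ ha2, ?_⟩
  have h5 := map_dvd (Polynomial.Bivariate.equivMvPolynomial L) h3
  rwa [toBi, AlgEquiv.apply_symm_apply] at h5

/-- A reducible monic polynomial has a proper monic factor. -/
lemma exists_monic_factor_fB {K : Type} [Field K] {F : MvPolynomial (Fin 2) K} {D : ℕ}
    (hF : Mon F D) (h : ¬ Irreducible F) : ∃ A : MvPolynomial (Fin 2) K, (toBi A).Monic ∧
      A.totalDegree ≤ D ∧ 1 ≤ (toBi A).natDegree ∧ (toBi A).natDegree < D ∧ A ∣ F := by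
  have hm := hF.2.2.1
  have h1 : ¬ Irreducible (toBi F) := fun hi => h (by
    have h2 := hi.map (Polynomial.Bivariate.equivMvPolynomial K)
    rwa [toBi, AlgEquiv.apply_symm_apply] at h2)
  have hne : toBi F ≠ 1 := fun h1 => by
    have h2 := hF.2.2.2
    rw [h1, Polynomial.natDegree_one] at h2
    exact absurd hF.1 (by omega)
  rw [Polynomial.irreducible_of_monic hm hne] at h1
  push Not at h1
  obtain ⟨a, b, ha, hb, hab, ha1, hb1⟩ := h1
  have h4 : toBi (Polynomial.Bivariate.equivMvPolynomial K a) = a := AlgEquiv.symm_apply_apply _ _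
  have h5 : toBi (Polynomial.Bivariate.equivMvPolynomial K b) = b := AlgEquiv.symm_apply_apply _ _
  have h6 : Polynomial.Bivariate.equivMvPolynomial K a *
      Polynomial.Bivariate.equivMvPolynomial K b = F := by
    rw [← map_mul, hab, toBi, AlgEquiv.apply_symm_apply]
  obtain ⟨k1, -, k3⟩ := mon_of_mul_fB (h6.symm ▸ hF) (h4.symm ▸ ha) (h5.symm ▸ hb)
  rw [h4] at k1
  rw [h4, h5] at k3
  have ka : a.natDegree ≠ 0 := fun h0 => ha1 (ha.natDegree_eq_zero.1 h0)
  have kb : b.natDegree ≠ 0 := fun h0 => hb1 (hb.natDegree_eq_zero.1 h0)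
  refine ⟨Polynomial.Bivariate.equivMvPolynomial K a, h4.symm ▸ ha, by omega, ?_, ?_,
    ⟨_, h6.symm⟩⟩
  · rw [h4]
    omega
  · rw [h4]
    omega

/-- An absolutely irreducible factor through a given point. -/
theorem exists_factor {L 𝕜 : Type} [Field L] [CharZero L] [Field 𝕜] (φ : L →+* 𝕜) (ι : L →+* ℂ)
    {F : MvPolynomial (Fin 2) L} {D : ℕ} (hF : Mon F D)
    (hs : ∀ x : ℕ, x ≤ D → (fib F (x : L)).Splits) (P : Fin 2 → 𝕜) (hP : eval₂ φ P F = 0) :
    ∃ (G : MvPolynomial (Fin 2) L) (D' : ℕ), D' ≤ D ∧ Mon G D' ∧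
      Irreducible (MvPolynomial.map ι G) ∧ (fib G 0).Splits ∧ eval₂ φ P G = 0 := by
  induction D using Nat.strong_induction_on generalizing F with
  | _ D ih =>
    by_cases hi : Irreducible (MvPolynomial.map ι F)
    · refine ⟨F, D, le_rfl, hF, hi, ?_, hP⟩
      have h0 := hs 0 (Nat.zero_le _)
      rwa [Nat.cast_zero] at h0
    obtain ⟨A₀, k1, k2, k3, k4, k5⟩ := exists_monic_factor_fB (hF.map ι) hi
    obtain ⟨A, hA, hAd, B, rfl⟩ := descend_fB ι hF hs k1 k2 k5
    have hB : (toBi B).Monic := by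
      have h1 := hF.2.2.1
      rw [toBi, map_mul] at h1
      exact hA.of_mul_monic_left h1
    obtain ⟨l1, l2, l3⟩ := mon_of_mul_fB hF hA hB
    have hne : ∀ x : L, fib (A * B) x ≠ 0 := fun x => (fib_monic_fB hF.2.2.1 x).ne_zero
    rw [eval₂_mul, mul_eq_zero] at hP
    rcases hP with hP | hP
    · obtain ⟨G, D', m1, m2⟩ := ih (toBi A).natDegree (by omega) ⟨by omega, l1, hA, rfl⟩
        (fun x hx => (hs x (by omega)).of_dvd (hne _) ⟨_, fib_mul_fB A B _⟩) hP
      exact ⟨G, D', by omega, m2⟩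
    · obtain ⟨G, D', m1, m2⟩ := ih (toBi B).natDegree (by omega) ⟨by omega, l2, hB, rfl⟩
        (fun x hx => (hs x (by omega)).of_dvd (hne _)
          ⟨_, (fib_mul_fB A B _).trans (mul_comm _ _)⟩) hP
      exact ⟨G, D', by omega, m2⟩

end Pool.Agent.Lib.MP_1f047c_nt.TA
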