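import Pool.Agent.Lib.MP_1f047c_nt.TAGBA

/-! Degrees of translates on a branch at infinity. -/

open Finset MvPolynomial

namespace Pool.Agent.Lib.MP_1f047c_nt.TA

variable {Ω : Type} [Field Ω] [Algebra ℂ Ω] {F : S} {D : ℕ} (p : Pl Ω F D)
  {i : Fin D} {q q' : ℚ} {G H : S}

lemma gbb_coeff (c : Fin 2 → Ω) (v : Fin 2 → ℂ) (k : ℕ) (G : S) :
    aeval c ((dv v ^ k) G) = k.factorial • (lr c v G).coeff k := by
  have h1 := lr_eval c v 0 ((dv v ^ k) G)
  rw [zero_smul, tr_zero, map_zero, ← Polynomial.coeff_zero_eq_eval_zero, ← lr_dv_pow,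
    Polynomial.coeff_iterate_derivative, zero_add, Nat.descFactorial_self] at h1
  exact h1.symm

lemma gbb_dv_of_line (W : Submodule ℂ Ω) (c : Fin 2 → Ω) (v : Fin 2 → ℂ) (G : S)
    (h : ∀ t : ℂ, aeval c (tr (t • v) G) ∈ W) (k : ℕ) : aeval c ((dv v ^ k) G) ∈ W := by
  obtain ⟨s, hs⟩ := Infinite.exists_subset_card_eq ℂ ((lr c v G).natDegree + 1)
  rw [gbb_coeff]
  refine nsmul_mem (coeff_mem W _ s (by omega) (fun t _ => ?_) k) _
  rw [lr_eval]
  exact h t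

lemma gbb_line_of_dv (W : Submodule ℂ Ω) (c : Fin 2 → Ω) (v : Fin 2 → ℂ) (G : S)
    (h : ∀ k : ℕ, aeval c ((dv v ^ k) G) ∈ W) (t : ℂ) : aeval c (tr (t • v) G) ∈ W := by
  obtain ⟨E, hE⟩ := exists_mem_Vp G
  rw [taylor_smul t v hE, map_sum]
  refine W.sum_mem fun e _ => ?_
  rw [map_smul]
  exact W.smul_mem _ (h e)

lemma gbb_chain (d : Derivation ℂ Ω Ω) (c : Fin 2 → Ω) (G : S) :
    d (aeval c G) = d (c 0) * aeval c (dv e0 G) + d (c 1) * aeval c (dv e1 G) := by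
  induction G using MvPolynomial.induction_on with
  | C a => rw [dv_C, dv_C, aeval_C, Derivation.map_algebraMap, map_zero, mul_zero, mul_zero, add_zero]
  | add G H hG hH =>
    simp only [map_add, hG, hH]
    ring
  | mul_X G j hG =>
    rw [map_mul, Derivation.leibniz, hG, dv_mul, dv_mul, dv_X, dv_X]
    fin_cases j <;> simp [e0, e1] <;> ring

lemma Pl.gbb_const (z : ℂ) : Le p.o 0 (algebraMap ℂ Ω z) := by
  have h : z • (1 : Ω) ∈ p.LeS 0 := (p.LeS 0).smul_mem z (exa_one p.o).le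
  rwa [← Algebra.algebraMap_eq_smul_one] at h

lemma Pl.gbb_exa_const {z : ℂ} (hz : z ≠ 0) : Exa p.o 0 (algebraMap ℂ Ω z) :=
  ⟨(map_ne_zero _).2 hz, by rw [p.const z hz, neg_zero]⟩

lemma Pl.gb_dv (h : G ∈ p.GB i q) (v : Fin 2 → ℂ) : dv v G ∈ p.GB i q :=
  p.mem_GB.2 fun ξ => by
    rw [← dv_tr]
    have h1 := gbb_dv_of_line (p.LeS q) (p.c i) v (tr ξ G) (fun t => by
      rw [tr_tr]
      exact p.mem_GB.1 h _) 1
    rwa [pow_one] at h1

lemma Pl.lb_dv (h : G ∈ p.LB i q) (c : ℂ) : dv (c • p.dir i) G ∈ p.LB i q :=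
  p.mem_LB.2 fun u => by
    rw [← dv_tr]
    have h1 := gbb_dv_of_line (p.LeS q) (p.c i) (c • p.dir i) (tr (u • p.dir i) G) (fun t => by
      rw [tr_tr, smul_smul, ← add_smul]
      exact p.mem_LB.1 h _) 1
    rwa [pow_one] at h1

/-- The derivative in the asymptotic direction lowers the degree. -/
theorem Pl.drop (h : G ∈ p.GB i q) (c : ℂ) : dv (c • p.dir i) G ∈ p.GB i (q - del D) := by
  rw [dv_smul, LinearMap.smul_apply]
  refine Submodule.smul_mem _ c (p.mem_GB.2 fun ξ => ?_)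
  obtain ⟨d, hd1, hd2⟩ := p.der
  have h1 : Le p.o (q - del D) (d (aeval (p.c i) (tr ξ G))) :=
    (hd2 _ _ (p.mem_GB.1 h ξ)).mono (by linarith [del_le_one D])
  have h2 : Le p.o (q - del D) (d (p.c i 1 - algebraMap ℂ Ω (p.a i) * p.c i 0) *
      aeval (p.c i) (tr ξ (dv e1 G))) :=
    ((hd2 _ _ (p.slope i)).mul (p.mem_GB.1 (p.gb_dv h e1) ξ)).mono (le_of_eq (by ring))
  have e : aeval (p.c i) (tr ξ (dv (p.dir i) G)) = d (aeval (p.c i) (tr ξ G)) -
      d (p.c i 1 - algebraMap ℂ Ω (p.a i) * p.c i 0) * aeval (p.c i) (tr ξ (dv e1 G)) := by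
    have e0' : p.dir i 0 = 1 := rfl
    have e1' : p.dir i 1 = p.a i := rfl
    rw [gbb_chain, ← dv_tr, ← dv_tr, dv_eq (p.dir i), e0', e1', one_smul, LinearMap.add_apply,
      LinearMap.smul_apply, map_add, map_smul, map_sub, ← Algebra.smul_def, Derivation.map_smul,
      hd1, Algebra.smul_def, Algebra.smul_def]
    ring
  rw [e]
  exact (p.LeS _).sub_mem h1 h2

lemma Pl.gbb_drop_pow (h : G ∈ p.GB i q) (c : ℂ) (f : ℕ) :
    (dv (c • p.dir i) ^ f) G ∈ p.GB i (q - f * del D) := by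
  induction f with
  | zero => simpa using h
  | succ f ih =>
    rw [pow_succ', Module.End.mul_apply]
    refine p.GB_mono i (le_of_eq ?_) (p.drop ih c)
    push_cast
    ring

lemma Pl.gbb_le_of_GB (h : G ∈ p.GB i q) : Le p.o q (aeval (p.c i) G) :=
  p.le_of_LB (p.GB_le_LB i q h)

lemma Pl.drop_tr (h : G ∈ p.GB i q) (ξ : Fin 2 → ℂ) (t : ℂ) :
    Le p.o (q - del D) (aeval (p.c i) (tr (ξ + t • p.dir i) G) - aeval (p.c i) (tr ξ G)) := by
  obtain ⟨E, hE⟩ := exists_mem_Vp (tr ξ G)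
  rw [add_comm, ← tr_tr, taylor_smul t (p.dir i) hE, sum_range_succ', Nat.factorial_zero,
    Nat.cast_one, inv_one, pow_zero, pow_zero, mul_one, one_smul, Module.End.one_apply, map_add,
    add_sub_cancel_right, map_sum]
  refine (p.LeS _).sum_mem fun e _ => ?_
  rw [map_smul]
  refine (p.LeS _).smul_mem _ ?_
  have h1 := p.gbb_drop_pow (p.gb_tr h ξ) 1 (e + 1)
  rw [one_smul] at h1
  refine (p.gbb_le_of_GB h1).mono ?_
  have h2 : (0 : ℚ) ≤ e * del D := mul_nonneg (Nat.cast_nonneg e) (del_pos D).le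
  push_cast
  linarith

lemma Pl.gbb_split (i : Fin D) (ξ : Fin 2 → ℂ) (t : ℂ) :
    t • p.dir i + ξ = p.ell i ξ • e1 + (t + ξ 0) • p.dir i := by
  funext j
  fin_cases j
  · simp [Pl.dir, e1]
  · simp [Pl.dir, Pl.ell, e1]
    ring

lemma Pl.gb_of_line (h : ∀ t : ℂ, Le p.o q (aeval (p.c i) (tr (t • e1) G))) : G ∈ p.GB i q := by
  have key : ∀ n : ℕ, G ∈ p.GB i (q + n * del D) → G ∈ p.GB i q := by
    intro n
    induction n with
    | zero => intro h0; simpa using h0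
    | succ n ih =>
      intro h0
      refine ih (p.mem_GB.2 fun ξ => ?_)
      have e := p.gbb_split i ξ 0
      rw [zero_smul, zero_add] at e
      have h1 : Le p.o (q + n * del D) _ :=
        (p.drop_tr h0 (p.ell i ξ • e1) (0 + ξ 0)).mono (le_of_eq (by push_cast; ring))
      have h2 : Le p.o (q + n * del D) _ := (h (p.ell i ξ)).mono
        (le_add_of_nonneg_right (mul_nonneg (Nat.cast_nonneg n) (del_pos D).le))
      have h3 := (p.LeS _).add_mem h1 h2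
      rwa [sub_add_cancel, ← e] at h3
  obtain ⟨E, hE⟩ := exists_mem_Vp G
  obtain ⟨n, hn⟩ := Archimedean.arch ((E : ℚ) - q) (del_pos D)
  rw [nsmul_eq_mul] at hn
  exact key n (p.GB_mono i (by linarith) (p.gb_of_Vp i hE))

lemma Pl.lb_of_dv {s : ℕ} {c : ℂ} (hc : c ≠ 0) (h : G ∈ p.GB i (q + s))
    (h' : ∀ f ≤ D.factorial * s, Le p.o q (aeval (p.c i) ((dv (c • p.dir i) ^ f) G))) :
    G ∈ p.LB i q :=
  p.mem_LB.2 fun t => by
    have h1 := gbb_line_of_dv (p.LeS q) (p.c i) (c • p.dir i) G (fun f => by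
      rcases le_total f (D.factorial * s) with hf | hf
      · exact h' f hf
      · refine (p.gbb_le_of_GB (p.gbb_drop_pow h c f)).mono ?_
        have h2 : ((D.factorial * s : ℕ) : ℚ) * del D ≤ f * del D :=
          mul_le_mul_of_nonneg_right (by exact_mod_cast hf) (del_pos D).le
        rw [del_mul] at h2
        linarith) (t / c)
    rwa [smul_smul, div_mul_cancel₀ t hc] at h1

lemma Pl.ex_X (i : Fin D) : p.EX i 1 (X 0) := fun t => by
  rw [tr_X, map_add, aeval_X, aeval_C]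
  exact (p.x0 i).add (p.gbb_const _) one_pos

lemma gbb_lin (c : Fin 2 → Ω) (a : ℂ) (ξ : Fin 2 → ℂ) :
    aeval c (tr ξ (X 1 - C a * X 0 : S)) =
      c 1 - algebraMap ℂ Ω a * c 0 + algebraMap ℂ Ω (ξ 1 - a * ξ 0) := by
  rw [aeval_tr]
  simp only [map_sub, map_mul, aeval_X, aeval_C]
  ring

lemma Pl.ex_lin {i : Fin D} {a : ℂ} (h : a ≠ p.a i) : p.EX i 1 (X 1 - C a * X 0) := fun t => by
  rw [gbb_lin]
  refine Exa.add ?_ (p.gbb_const _) one_pos
  have h1 := ((p.gbb_exa_const (sub_ne_zero.2 h.symm)).mul (p.x0 i))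
  rw [zero_add] at h1
  have h2 := h1.add (p.slope i) (by linarith [del_pos D])
  have e : algebraMap ℂ Ω (p.a i - a) * p.c i 0 + (p.c i 1 - algebraMap ℂ Ω (p.a i) * p.c i 0) =
      p.c i 1 - algebraMap ℂ Ω a * p.c i 0 := by
    rw [map_sub]
    ring
  rwa [e] at h2

lemma Pl.gb_lin (i : Fin D) : (X 1 - C (p.a i) * X 0 : S) ∈ p.GB i (1 - del D) :=
  p.mem_GB.2 fun ξ => by
    rw [gbb_lin]
    exact (p.LeS _).add_mem (p.slope i) ((p.gbb_const _).mono (by linarith [del_le_one D]))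

lemma Pl.lower {e : ℕ} (hG : G ∈ Vp e) (h : Exa p.o q (aeval (p.c i) G)) :
    -((D : ℚ) - 1) * e ≤ q := by
  have hnd : ¬ F ∣ G := fun hd => h.1 ((p.ker i G).2 hd)
  obtain ⟨N, -, hN, -⟩ := p.norm G hnd
  have h0 : (0 : ℚ) ≤ ∑ j, -p.o.v (aeval (p.c j) G) := hN ▸ Nat.cast_nonneg _
  rw [← Finset.add_sum_erase _ _ (Finset.mem_univ i), h.2, neg_neg] at h0
  have h1 : ∑ j ∈ Finset.univ.erase i, -p.o.v (aeval (p.c j) G) ≤
      (Finset.univ.erase i).card • (e : ℚ) := by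
    refine Finset.sum_le_card_nsmul _ _ _ fun j _ => ?_
    have h2 := CyV.Ord.Ge.le (p.le_of_Vp j hG) fun h3 => hnd ((p.ker j G).1 h3)
    linarith
  have hD : 1 ≤ D := Nat.one_le_iff_ne_zero.2 (by
    rintro rfl
    exact i.elim0)
  rw [Finset.card_erase_of_mem (Finset.mem_univ i), Finset.card_univ, Fintype.card_fin,
    nsmul_eq_mul, Nat.cast_sub hD, Nat.cast_one] at h1
  linarith

/-- The degrees of the translates of `F`. -/
theorem Pl.exists_g (hF : Mon F D) (i : Fin D) : ∃ (g : ℚ) (Z : Finset ℂ), Z.card ≤ D ∧ 0 ≤ g ∧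
    g ≤ D ∧ F ∈ p.GB i g ∧ (∀ ξ, p.ell i ξ ∉ Z → p.EX i g (tr ξ F)) ∧
      ∀ ξ, p.ell i ξ = 0 → tr ξ F ∈ p.LB i (g - del D) := by
  obtain ⟨hm, hd⟩ := lr_monic (p.c i) hF
  obtain ⟨g, Z, hZ, hc, hle, hex⟩ := p.gauss _ hm.ne_zero hd.le
  simp only [lr_eval] at hle hex
  have hgb : F ∈ p.GB i g := p.gb_of_line hle
  refine ⟨g, Z, hZ, ?_, ?_, hgb, fun ξ hξ t => ?_, fun ξ hξ => p.mem_LB.2 fun t => ?_⟩
  · have h1 := hc (lr (p.c i) e1 F).natDegree
    rw [hm.coeff_natDegree] at h1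
    exact (exa_one p.o).le_of_le h1
  · obtain ⟨t, ht⟩ := Infinite.exists_notMem_finset Z
    exact (hex t ht).le_of_le (p.le_of_Vp i (tr_Vp _ (mem_Vp.2 hF.2.1)))
  · rw [tr_tr, p.gbb_split]
    have h1 := (hex _ hξ).add (p.drop_tr hgb (p.ell i ξ • e1) (t + ξ 0)) (by linarith [del_pos D])
    rwa [add_sub_cancel] at h1
  · rw [tr_tr, p.gbb_split, hξ, zero_smul]
    have h1 := p.drop_tr hgb 0 (t + ξ 0)
    rwa [tr_zero, (p.ker i F).2 dvd_rfl, sub_zero] at h1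

/-- The degrees of the translates of `F` along the asymptotic direction. -/
theorem Pl.exists_l (hF : Mon F D) (i : Fin D) (h : ¬ ∀ t : ℂ, F ∣ tr (t • p.dir i) F) :
    ∃ (l : ℚ) (Z : Finset ℂ), Z.card ≤ D ∧ (D : ℚ) - D ^ 2 ≤ l ∧ F ∈ p.LB i l ∧
      ∀ t : ℂ, t ∉ Z → Exa p.o l (aeval (p.c i) (tr (t • p.dir i) F)) := by
  have hV : F ∈ Vp D := mem_Vp.2 hF.2.1
  have h0 : lr (p.c i) (p.dir i) F ≠ 0 := fun h0 => h fun t => by
    rw [← p.ker i, ← lr_eval, h0, Polynomial.eval_zero]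
  obtain ⟨l, Z, hZ, -, hle, hex⟩ := p.gauss _ h0 (lr_natDegree _ _ hV)
  simp only [lr_eval] at hle hex
  refine ⟨l, Z, hZ, ?_, p.mem_LB.2 hle, hex⟩
  obtain ⟨t, ht⟩ := Infinite.exists_notMem_finset Z
  have h1 := p.lower (tr_Vp _ hV) (hex t ht)
  linarith

end Pool.Agent.Lib.MP_1f047c_nt.TA
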