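import Pool.Agent.Lib.MP_1f047c_nt.TAIntA

/-! Integrals over the square. -/

open Finset MvPolynomial

namespace Pool.Agent.Lib.MP_1f047c_nt.TA

open PL (wm)

private lemma int_pt1 (x y : ℝ) : cr (x, 0) + (y : ℂ) • e1 = cr (x, y) := by
  funext j
  fin_cases j <;> simp [cr, e1]

private lemma int_pt0 (x : ℝ) : cr (0, 0) + (x : ℂ) • e0 = cr (x, 0) := by
  funext j
  fin_cases j <;> simp [cr, e0]

private lemma int_ev1 (x y : ℝ) (G : S) :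
    (lr (cr (x, 0)) e1 G).eval (y : ℂ) = eval (cr (x, y)) G := by
  rw [lr_evalC, int_pt1]

private lemma int_ev0 (x : ℝ) (G : S) :
    (lr (cr (0, 0)) e0 G).eval (x : ℂ) = eval (cr (x, 0)) G := by
  rw [lr_evalC, int_pt0]

private lemma int_comm (i j : ℕ) (G : S) :
    (dv e1 ^ j) ((dv e0 ^ i) G) = (dv e0 ^ i * dv e1 ^ j) G := by
  rw [((dv_comm e0 e1).pow_pow i j).eq]
  rfl

private lemma int_cz (a₁ a₂ : ℤ) : cz (a₁, a₂) = cr ((a₁ : ℝ), (a₂ : ℝ)) := by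
  funext j
  fin_cases j <;> simp [cr, cz]

private lemma int_qq (n : ℕ) (x y : ℝ) :
    eval (cr (x, y)) (qq n) = (x : ℂ) * (n - x) * (y * (n - y)) := by
  simp [qq, cr]

private lemma int_van_of_iter {p : Polynomial ℂ} {t : ℂ} {k : ℕ}
    (h : ∀ i < k, (Polynomial.derivative^[i] p).eval t = 0) :
    (Polynomial.X - Polynomial.C t) ^ k ∣ p := by
  rcases eq_or_ne p 0 with rfl | hp
  · exact dvd_zero _
  rcases Nat.eq_zero_or_pos k with rfl | hk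
  · simp
  have h1 : k - 1 < p.rootMultiplicity t :=
    Polynomial.lt_rootMultiplicity_of_isRoot_iterate_derivative hp fun m hm => h m (by omega)
  exact (Polynomial.le_rootMultiplicity_iff hp).1 (by omega)

private lemma int_iter {T : S →ₗ[ℂ] Polynomial ℂ}
    (hT : ∀ Q, Polynomial.derivative (T Q) = T (dv e0 Q)) (i : ℕ) (Q : S) :
    Polynomial.derivative^[i] (T Q) = T ((dv e0 ^ i) Q) := by
  induction i with
  | zero => rfl
  | succ i ih => rw [Function.iterate_succ_apply', ih, hT, pow_succ']; rfl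

private lemma int_norm_exp (m : ℤ) (y : ℝ) : ‖Complex.exp (-wm m * y)‖ = 1 := by
  rw [Complex.norm_exp]
  have : (-wm m * y).re = 0 := by simp [wm]
  rw [this, Real.exp_zero]

private lemma int_I1_le (n : ℕ) (m : ℤ) (p : Polynomial ℂ) {B : ℝ}
    (h : ∀ y ∈ Set.Icc (0 : ℝ) n, ‖p.eval (y : ℂ)‖ ≤ B) : ‖I1 0 n m p‖ ≤ B * n := by
  have h0 : (0 : ℝ) ≤ n := Nat.cast_nonneg n
  have h1 := intervalIntegral.norm_integral_le_of_norm_le_const (a := (0 : ℝ)) (b := (n : ℝ))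
    (C := B) (f := fun y : ℝ => p.eval (y : ℂ) * Complex.exp (-wm m * y)) (fun y hy => by
      rw [Set.uIoc_of_le h0] at hy
      rw [norm_mul, int_norm_exp, mul_one]
      exact h y ⟨hy.1.le, hy.2⟩)
  rw [sub_zero, abs_of_nonneg h0] at h1
  exact h1

private lemma int_I2 {n : ℕ} {m₂ : ℤ} {T : S →ₗ[ℂ] Polynomial ℂ}
    (hT : ∀ (Q : S) (x : ℝ), (T Q).eval (x : ℂ) = I1 0 n m₂ (lr (cr (x, 0)) e1 Q)) (m₁ : ℤ)
    (Q : S) : I1 0 n m₁ (T Q) = I2 n (m₁, m₂) Q := by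
  unfold I2
  rw [I1]
  refine intervalIntegral.integral_congr fun x _ => ?_
  simp only [hT, I1, int_ev1]

private lemma int_lr_zero {n : ℕ} {x : ℝ} (hx : x = 0 ∨ x = n) {G : S} (h : qq n ∣ G) :
    lr (cr (x, 0)) e1 G = 0 := by
  obtain ⟨H, rfl⟩ := h
  have : lr (cr (x, 0)) e1 (qq n) = 0 := by
    rcases hx with rfl | rfl <;> simp [qq, lr, cr, e1]
  rw [map_mul, this, zero_mul]

/-- Truncated Poisson summation on the square. -/
theorem poisson2 (E R : ℕ) (hR : 1 ≤ R) : ∃ c : ℝ, 0 ≤ c ∧ ∀ (n k e f : ℕ) (Ψ : S) (A b : ℝ),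
    e ≤ E → f ≤ E → 2 * E + 2 ≤ k → 0 ≤ A → 0 ≤ b → b ≤ R → qq n ^ k ∣ Ψ → Bd2 (sqB n) Ψ A b →
    ‖∑ a ∈ latB n, eval (cz a) ((dv e0 ^ e * dv e1 ^ f) Ψ) -
        ∑ m ∈ box R, wm m.1 ^ e * wm m.2 ^ f * I2 n m Ψ‖ ≤
      c * (n + 1) ^ 2 * A * (b / R) ^ (k - E) := by
  refine ⟨4 * (R : ℝ) ^ (2 * E + 2) + (2 * R + 1) * (7 * R) ^ E * (4 * (R : ℝ) ^ (E + 2)),
    by positivity, ?_⟩
  intro n k e f Ψ A b he hf hk hA hb hbR hq hΨ
  have hR1 : (1 : ℝ) ≤ R := by exact_mod_cast hR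
  have hR0 : (0 : ℝ) < R := by linarith
  have hn0 : (0 : ℝ) ≤ n := Nat.cast_nonneg n
  have hr0 : 0 ≤ b / R := div_nonneg hb hR0.le
  have hr1 : b / R ≤ 1 := (div_le_one hR0).2 hbR
  have hrk : (b / R) ^ k ≤ (b / R) ^ (k - E) := pow_le_pow_of_le_one hr0 hr1 (Nat.sub_le _ _)
  have hI : Icc ⌈(0 : ℝ)⌉ ⌊(n : ℝ)⌋ = Icc (0 : ℤ) n := by simp
  choose T hT hT' using fun m => exists_int2 n m
  -- first step: summation in the second variable
  have h1 : ∀ a₁ ∈ Icc (0 : ℤ) n,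
      ‖∑ a₂ ∈ Icc (0 : ℤ) n, eval (cz (a₁, a₂)) ((dv e0 ^ e * dv e1 ^ f) Ψ) -
        ∑ m₂ ∈ Icc (-(R : ℤ)) R, wm m₂ ^ f *
          (Polynomial.derivative^[e] (T m₂ Ψ)).eval (a₁ : ℂ)‖ ≤
        4 * n * A * (R : ℝ) ^ (2 * E + 2) * (b / R) ^ k := by
    intro a₁ ha
    rw [mem_Icc] at ha
    have ha0 : (0 : ℝ) ≤ a₁ := by exact_mod_cast ha.1
    have ha1 : (a₁ : ℝ) ≤ n := by exact_mod_cast ha.2
    have hd : qq n ^ (k - e) ∣ (dv e0 ^ e) Ψ :=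
      dv_pow_dvd e0 _ _ _ (by rwa [Nat.sub_add_cancel (by omega)])
    have hv : VanP 0 n (lr (cr ((a₁ : ℝ), 0)) e1 ((dv e0 ^ e) Ψ)) (k - e) := by
      refine vanP_of_dvd (q := lr (cr ((a₁ : ℝ), 0)) e1 (qq n)) ?_ ?_ ?_
      · rw [int_ev1, int_qq]; simp
      · rw [int_ev1, int_qq]; simp
      · rw [← map_pow]; exact map_dvd _ hd
    have hp : BdP 0 n (lr (cr ((a₁ : ℝ), 0)) e1 ((dv e0 ^ e) Ψ)) (A * b ^ e) b := by
      intro j y hy
      rw [lr_dv_pow, int_ev1, int_comm, mul_assoc, ← pow_add]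
      exact hΨ e j _ ⟨⟨ha0, ha1⟩, hy⟩
    have h2 := poissonP hn0 R (k - e) f hR (by omega) _ _ b (by positivity) hb hv hp
    rw [hI] at h2
    have e1' : ∀ a₂ : ℤ, (Polynomial.derivative^[f]
        (lr (cr ((a₁ : ℝ), 0)) e1 ((dv e0 ^ e) Ψ))).eval (a₂ : ℂ) =
        eval (cz (a₁, a₂)) ((dv e0 ^ e * dv e1 ^ f) Ψ) := by
      intro a₂
      rw [lr_dv_pow, int_comm, int_cz, ← int_ev1, Complex.ofReal_intCast]
    have e2' : ∀ m₂ : ℤ, I1 0 n m₂ (lr (cr ((a₁ : ℝ), 0)) e1 ((dv e0 ^ e) Ψ)) =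
        (Polynomial.derivative^[e] (T m₂ Ψ)).eval (a₁ : ℂ) := by
      intro m₂
      rw [int_iter (hT' m₂), ← hT, Complex.ofReal_intCast]
    simp only [e1', e2'] at h2
    refine h2.trans ?_
    have h3 : b ^ e * (b / R) ^ (k - e) = (R : ℝ) ^ e * (b / R) ^ k := by
      have : (b / R) ^ k = (b / R) ^ e * (b / R) ^ (k - e) := by
        rw [← pow_add, Nat.add_sub_cancel' (by omega)]
      rw [this, ← mul_assoc, ← mul_pow, mul_div_cancel₀ _ hR0.ne']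
    have h4 : (R : ℝ) ^ (f + 2) * (R : ℝ) ^ e ≤ (R : ℝ) ^ (2 * E + 2) := by
      rw [← pow_add]
      exact pow_le_pow_right₀ hR1 (by omega)
    calc 4 * ((n : ℝ) - 0) * (A * b ^ e) * (R : ℝ) ^ (f + 2) * (b / R) ^ (k - e)
        = 4 * n * A * (R : ℝ) ^ (f + 2) * (b ^ e * (b / R) ^ (k - e)) := by ring
      _ = 4 * n * A * ((R : ℝ) ^ (f + 2) * (R : ℝ) ^ e) * (b / R) ^ k := by rw [h3]; ring
      _ ≤ _ := by gcongr
  -- second step: summation in the first variable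
  have h2 : ∀ m₂ ∈ Icc (-(R : ℤ)) R,
      ‖wm m₂ ^ f * (∑ a₁ ∈ Icc (0 : ℤ) n, (Polynomial.derivative^[e] (T m₂ Ψ)).eval (a₁ : ℂ) -
        ∑ m₁ ∈ Icc (-(R : ℤ)) R, wm m₁ ^ e * I2 n (m₁, m₂) Ψ)‖ ≤
        (7 * R) ^ E * (4 * n * (A * n) * (R : ℝ) ^ (E + 2) * (b / R) ^ k) := by
    intro m₂ hm
    rw [mem_Icc] at hm
    have hz : ∀ x : ℝ, x = 0 ∨ x = n → ∀ i < k,
        (Polynomial.derivative^[i] (T m₂ Ψ)).eval (x : ℂ) = 0 := by
      intro x hx i hi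
      have hd : qq n ^ 1 ∣ (dv e0 ^ i) Ψ :=
        dv_pow_dvd e0 _ _ _ ((pow_dvd_pow _ (by omega)).trans hq)
      rw [pow_one] at hd
      rw [int_iter (hT' m₂), hT, int_lr_zero hx hd, I1_zero]
    have hv : VanP 0 n (T m₂ Ψ) k :=
      ⟨int_van_of_iter (hz 0 (Or.inl rfl)), int_van_of_iter (hz n (Or.inr rfl))⟩
    have hp : BdP 0 n (T m₂ Ψ) (A * n) b := by
      intro i x hx
      rw [int_iter (hT' m₂), hT]
      refine (int_I1_le n m₂ _ (B := A * b ^ i) fun y hy => ?_).trans (le_of_eq (by ring))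
      rw [int_ev1]
      have := hΨ i 0 (x, y) ⟨hx, hy⟩
      rwa [pow_zero, mul_one, add_zero] at this
    have h3 := poissonP hn0 R k e hR (by omega) _ _ b (by positivity) hb hv hp
    rw [hI] at h3
    simp only [int_I2 (hT m₂)] at h3
    have h4 : ‖wm m₂ ^ f‖ ≤ (7 * R) ^ E := by
      rw [norm_pow]
      have h5 : ‖wm m₂‖ ≤ 7 * R := by
        rw [norm_wm]
        have h6 : |(m₂ : ℝ)| ≤ R := by
          rw [abs_le]
          exact ⟨by exact_mod_cast hm.1, by exact_mod_cast hm.2⟩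
        have h7 := Real.pi_lt_d2
        have h8 := abs_nonneg (m₂ : ℝ)
        nlinarith
      calc ‖wm m₂‖ ^ f ≤ (7 * R) ^ f := pow_le_pow_left₀ (norm_nonneg _) h5 f
        _ ≤ (7 * R) ^ E := pow_le_pow_right₀ (by linarith) hf
    rw [norm_mul]
    refine mul_le_mul h4 (h3.trans ?_) (norm_nonneg _) (by positivity)
    have h9 : (R : ℝ) ^ (e + 2) ≤ (R : ℝ) ^ (E + 2) := pow_le_pow_right₀ hR1 (by omega)
    rw [sub_zero]
    gcongr
  have hsplit : ∑ a ∈ latB n, eval (cz a) ((dv e0 ^ e * dv e1 ^ f) Ψ) -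
        ∑ m ∈ box R, wm m.1 ^ e * wm m.2 ^ f * I2 n m Ψ =
      ∑ a₁ ∈ Icc (0 : ℤ) n, (∑ a₂ ∈ Icc (0 : ℤ) n, eval (cz (a₁, a₂)) ((dv e0 ^ e * dv e1 ^ f) Ψ) -
        ∑ m₂ ∈ Icc (-(R : ℤ)) R, wm m₂ ^ f *
          (Polynomial.derivative^[e] (T m₂ Ψ)).eval (a₁ : ℂ)) +
      ∑ m₂ ∈ Icc (-(R : ℤ)) R, wm m₂ ^ f *
        (∑ a₁ ∈ Icc (0 : ℤ) n, (Polynomial.derivative^[e] (T m₂ Ψ)).eval (a₁ : ℂ) -
          ∑ m₁ ∈ Icc (-(R : ℤ)) R, wm m₁ ^ e * I2 n (m₁, m₂) Ψ) := by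
    rw [latB, box, sum_product, sum_product_right, sum_sub_distrib,
      sum_comm (s := Icc (0 : ℤ) n) (t := Icc (-(R : ℤ)) R)]
    simp only [mul_sub, sum_sub_distrib, mul_sum]
    have : ∀ m₁ m₂ : ℤ, wm m₁ ^ e * wm m₂ ^ f * I2 n (m₁, m₂) Ψ =
        wm m₂ ^ f * (wm m₁ ^ e * I2 n (m₁, m₂) Ψ) := fun _ _ => by ring
    simp only [this]
    ring
  rw [hsplit]
  have c1 : ((Icc (0 : ℤ) n).card : ℝ) = n + 1 := by
    rw [Int.card_Icc]
    have : ((n : ℤ) + 1 - 0).toNat = n + 1 := by omega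
    rw [this]; push_cast; ring
  have c2 : ((Icc (-(R : ℤ)) R).card : ℝ) = 2 * R + 1 := by
    rw [Int.card_Icc]
    have : ((R : ℤ) + 1 - -R).toNat = 2 * R + 1 := by omega
    rw [this]; push_cast; ring
  have b1 := (norm_sum_le _ _).trans (sum_le_card_nsmul _ _ _ h1)
  have b2 := (norm_sum_le _ _).trans (sum_le_card_nsmul _ _ _ h2)
  rw [nsmul_eq_mul, c1] at b1
  rw [nsmul_eq_mul, c2] at b2
  refine (norm_add_le _ _).trans ((add_le_add b1 b2).trans ?_)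
  have n1 : ((n : ℝ) + 1) * n ≤ (n + 1) ^ 2 := by nlinarith
  have n2 : (n : ℝ) * n ≤ (n + 1) ^ 2 := by nlinarith
  calc ((n : ℝ) + 1) * (4 * n * A * (R : ℝ) ^ (2 * E + 2) * (b / R) ^ k) +
        (2 * R + 1) * ((7 * R) ^ E * (4 * n * (A * n) * (R : ℝ) ^ (E + 2) * (b / R) ^ k))
      = 4 * (R : ℝ) ^ (2 * E + 2) * ((n + 1) * n) * A * (b / R) ^ k +
        (2 * R + 1) * (7 * R) ^ E * (4 * (R : ℝ) ^ (E + 2)) * (n * n) * A * (b / R) ^ k := by ring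
    _ ≤ 4 * (R : ℝ) ^ (2 * E + 2) * (n + 1) ^ 2 * A * (b / R) ^ (k - E) +
        (2 * R + 1) * (7 * R) ^ E * (4 * (R : ℝ) ^ (E + 2)) * (n + 1) ^ 2 * A *
          (b / R) ^ (k - E) := by gcongr
    _ = _ := by ring

private lemma int_cont (Q : S) : Continuous fun z : ℝ × ℝ => eval (cr z) Q := by
  refine (MvPolynomial.continuous_eval Q).comp (continuous_pi fun j => ?_)
  fin_cases j
  · exact Complex.continuous_ofReal.comp continuous_fst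
  · exact Complex.continuous_ofReal.comp continuous_snd

private lemma int_cont1 (p : Polynomial ℂ) : Continuous fun x : ℝ => p.eval (x : ℂ) :=
  p.continuous.comp Complex.continuous_ofReal

private lemma int_w_nonneg {n : ℕ} (κ : ℕ) {x : ℝ} (hx : x ∈ Set.Icc (0 : ℝ) n) :
    0 ≤ (x * (n - x)) ^ κ := pow_nonneg (mul_nonneg hx.1 (sub_nonneg.2 hx.2)) κ

private lemma int_nqP_sq (n κ : ℕ) (p : Polynomial ℂ) :
    nqP n κ p ^ 2 = ∫ x in (0 : ℝ)..n, (x * (n - x)) ^ κ * ‖p.eval (x : ℂ)‖ ^ 2 :=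
  Real.sq_sqrt (intervalIntegral.integral_nonneg (Nat.cast_nonneg n) fun _ hx =>
    mul_nonneg (int_w_nonneg κ hx) (sq_nonneg _))

private lemma int_nq_le (n κ : ℕ) (Q : S) (p : Polynomial ℂ) {M : ℝ} (hM : 0 ≤ M)
    (h : ∀ x : ℝ, ‖p.eval (x : ℂ)‖ ≤ M * nqP n κ (lr (cr (x, 0)) e1 Q)) :
    nqP n κ p ≤ M * nq2 n κ Q := by
  have h0 : (0 : ℝ) ≤ n := Nat.cast_nonneg n
  have hc := int_cont Q
  have hc1 := int_cont1 p
  have hF : Continuous (Function.uncurry fun x y : ℝ =>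
      (x * (n - x) * (y * (n - y))) ^ κ * ‖eval (cr (x, y)) Q‖ ^ 2) := by
    have : Continuous fun z : ℝ × ℝ =>
        (z.1 * (n - z.1) * (z.2 * (n - z.2))) ^ κ * ‖eval (cr z) Q‖ ^ 2 := by fun_prop
    exact this
  have hG := intervalIntegral.continuous_parametric_intervalIntegral_of_continuous'
    (μ := MeasureTheory.volume) hF 0 n
  have key : (∫ x in (0 : ℝ)..n, (x * (n - x)) ^ κ * ‖p.eval (x : ℂ)‖ ^ 2) ≤
      M ^ 2 * ∫ x in (0 : ℝ)..n, ∫ y in (0 : ℝ)..n,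
        (x * (n - x) * (y * (n - y))) ^ κ * ‖eval (cr (x, y)) Q‖ ^ 2 := by
    rw [← intervalIntegral.integral_const_mul]
    refine intervalIntegral.integral_mono_on h0 (Continuous.intervalIntegrable (by fun_prop) _ _)
      (Continuous.intervalIntegrable (continuous_const.mul hG) _ _) fun x hx => ?_
    have h1 : ‖p.eval (x : ℂ)‖ ^ 2 ≤ (M * nqP n κ (lr (cr (x, 0)) e1 Q)) ^ 2 :=
      pow_le_pow_left₀ (norm_nonneg _) (h x) 2
    rw [mul_pow, int_nqP_sq] at h1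
    simp only [int_ev1] at h1
    have h2 : (∫ y in (0 : ℝ)..n, (x * (n - x) * (y * (n - y))) ^ κ * ‖eval (cr (x, y)) Q‖ ^ 2) =
        (x * (n - x)) ^ κ * ∫ y in (0 : ℝ)..n, (y * (n - y)) ^ κ * ‖eval (cr (x, y)) Q‖ ^ 2 := by
      rw [← intervalIntegral.integral_const_mul]
      refine intervalIntegral.integral_congr fun y _ => ?_
      simp only [mul_pow _ (y * (n - y)) κ, mul_assoc ((x * (n - x)) ^ κ)]
    rw [h2, mul_left_comm]
    exact mul_le_mul_of_nonneg_left h1 (int_w_nonneg κ hx)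
  unfold nqP nq2
  refine (Real.sqrt_le_sqrt key).trans (le_of_eq ?_)
  rw [Real.sqrt_mul (sq_nonneg M), Real.sqrt_sq hM]

/-- The weighted norm controls all derivatives. -/
theorem growth2 {C₀ n : ℕ} (hC : 1 ≤ C₀) (hn : 1 ≤ n) (κ : ℕ) {Q : S} {d : ℕ} (hd : d < C₀ * n)
    (hQ : Q ∈ Vp d) :
    Bd2 (sqX n) Q (Real.exp ((62 * C₀ ^ 2 + 8) * n) * (9 / n ^ 2) ^ κ * nq2 n κ Q) 2 := by
  have hz : (0 : ℝ) ∈ Set.Icc (0 : ℝ) 0 := ⟨le_rfl, le_rfl⟩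
  set M : ℝ := Real.exp (31 * C₀ ^ 2 * n) * (3 / n) ^ κ with hM
  have hM0 : 0 ≤ M := by positivity
  have hq := nq2_nonneg n κ Q
  have h0 : Bd2 {(0, 0)} Q (M * M * nq2 n κ Q) 2 := by
    intro i j z hz'
    rw [Set.mem_singleton_iff] at hz'
    subst hz'
    have h1 : ∀ x : ℝ, ‖(lr (cr (0, 0)) e0 ((dv e1 ^ j) Q)).eval (x : ℂ)‖ ≤
        M * 2 ^ j * nqP n κ (lr (cr (x, 0)) e1 Q) := by
      intro x
      have h2 := growthP hC hn κ ((lr_natDegree (cr (x, 0)) e1 hQ).trans_lt hd) j 0 hz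
      rw [lr_dv_pow, int_ev1] at h2
      rw [int_ev0]
      exact h2.trans (le_of_eq (by rw [hM]; ring))
    have h3 := int_nq_le n κ Q _ (by positivity) h1
    have h4 := growthP hC hn κ
      ((lr_natDegree (cr (0, 0)) e0 (dv_pow_Vp e1 j hQ)).trans_lt hd) i 0 hz
    rw [lr_dv_pow, int_ev0, ← hM] at h4
    refine h4.trans ?_
    calc M * nqP n κ (lr (cr (0, 0)) e0 ((dv e1 ^ j) Q)) * 2 ^ i
        ≤ M * (M * 2 ^ j * nq2 n κ Q) * 2 ^ i := by gcongr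
      _ = _ := by rw [pow_add]; ring
  have h5 := h0.shift (by positivity) n
  have h6 : M * M * nq2 n κ Q * Real.exp (8 * n) =
      Real.exp ((62 * C₀ ^ 2 + 8) * n) * (9 / n ^ 2) ^ κ * nq2 n κ Q := by
    have e1' : Real.exp ((62 * C₀ ^ 2 + 8) * n) =
        Real.exp (31 * C₀ ^ 2 * n) * Real.exp (31 * C₀ ^ 2 * n) * Real.exp (8 * n) := by
      rw [← Real.exp_add, ← Real.exp_add]
      congr 1
      ring
    have e2' : ((9 : ℝ) / n ^ 2) ^ κ = (3 / n) ^ κ * (3 / n) ^ κ := by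
      rw [← mul_pow]
      congr 1
      ring
    rw [e1', e2', hM]
    ring
  rwa [h6] at h5

end Pool.Agent.Lib.MP_1f047c_nt.TA
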