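import Pool.Agent.Lib.MP_1f047c_nt.TAOne

/-! Truncated Poisson summation on an interval with real end points. -/

open Finset Polynomial

namespace Pool.Agent.Lib.MP_1f047c_nt.TA

open PL (wm)

open scoped FourierTransform in
private lemma tapois_exact {α β : ℝ} (hαβ : α ≤ β) (g : ℂ[X]) (h0 : g.eval (α : ℂ) = 0)
    (h1 : g.eval (β : ℂ) = 0) (hs : Summable fun m : ℤ => I1 α β m g) :
    HasSum (fun m : ℤ => I1 α β m g) (∑ a ∈ Icc ⌈α⌉ ⌊β⌋, g.eval (a : ℂ)) := by
  let f : ℝ → ℂ := fun x => g.eval ((max α (min β x) : ℝ) : ℂ)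
  have hc : Continuous f := g.continuous.comp (Complex.continuous_ofReal.comp
    (continuous_const.max (continuous_const.min continuous_id)))
  have hin : ∀ x ∈ Set.Icc α β, f x = g.eval (x : ℂ) := fun x hx => by
    simp only [f, min_eq_right hx.2, max_eq_right hx.1]
  have hlo : ∀ x, x ≤ α → f x = 0 := fun x hx => by
    simp only [f, max_eq_left ((min_le_right β x).trans hx), h0]
  have hhi : ∀ x, β ≤ x → f x = 0 := fun x hx => by
    simp only [f, min_eq_left hx, max_eq_right hαβ, h1]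
  have hout : ∀ x, x ∉ Set.Ioc α β → f x = 0 := fun x hx => by
    by_cases h : x ≤ α
    · exact hlo x h
    · exact hhi x (le_of_not_ge fun h' => hx ⟨not_le.1 h, h'⟩)
  have hF : ∀ m : ℤ, 𝓕 f (m : ℝ) = I1 α β m g := fun m => by
    rw [Real.fourier_real_eq_integral_exp_smul, I1, intervalIntegral.integral_of_le hαβ,
      ← MeasureTheory.setIntegral_eq_integral_of_forall_compl_eq_zero (s := Set.Ioc α β)
        fun x hx => by rw [hout x hx, smul_zero]]
    refine MeasureTheory.setIntegral_congr_fun measurableSet_Ioc fun x hx => ?_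
    simp only [hin x (Set.Ioc_subset_Icc_self hx), smul_eq_mul]
    rw [mul_comm]
    congr 2
    rw [wm]
    push_cast
    ring
  have hO : f =O[Filter.cocompact ℝ] fun x : ℝ => |x| ^ (-(2 : ℝ)) := by
    refine Filter.EventuallyEq.trans_isBigO ?_ (Asymptotics.isBigO_zero _ _)
    filter_upwards [(isCompact_Icc (a := α) (b := β)).compl_mem_cocompact] with x hx
    exact hout x fun h => hx (Set.Ioc_subset_Icc_self h)
  have h5 := Real.tsum_eq_tsum_fourier_of_rpow_decay_of_summable hc one_lt_two hO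
    (by simp only [hF]; exact hs) 0
  have h6 : ∑' n : ℤ, f ((0 : ℝ) + n) = ∑ a ∈ Icc ⌈α⌉ ⌊β⌋, g.eval (a : ℂ) := by
    rw [tsum_eq_sum (s := Icc ⌈α⌉ ⌊β⌋)]
    · refine sum_congr rfl fun a ha => ?_
      rw [mem_Icc, Int.ceil_le, Int.le_floor] at ha
      rw [zero_add, hin a ha, Complex.ofReal_intCast]
    · intro a ha
      rw [mem_Icc, Int.ceil_le, Int.le_floor] at ha
      rw [zero_add]
      exact hout a fun h => ha (Set.Ioc_subset_Icc_self h)
  simp only [hF, AddCircle.coe_zero, fourier_eval_zero, mul_one] at h5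
  rw [← h6, h5]
  exact hs.hasSum

private lemma tapois_van {α β : ℝ} {p : ℂ[X]} {k j : ℕ} (hv : VanP α β p k) (hj : j < k) :
    VanP α β (derivative^[j] p) 1 :=
  ⟨(pow_dvd_pow _ (by omega)).trans (pow_sub_dvd_iterate_derivative_of_pow_dvd j hv.1),
    (pow_dvd_pow _ (by omega)).trans (pow_sub_dvd_iterate_derivative_of_pow_dvd j hv.2)⟩

private lemma tapois_pow {α β : ℝ} (m : ℤ) {p : ℂ[X]} {k : ℕ} (hv : VanP α β p k) :
    ∀ j ≤ k, I1 α β m (derivative^[j] p) = wm m ^ j * I1 α β m p := by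
  intro j
  induction j with
  | zero => simp
  | succ j ih =>
    intro hj
    rw [Function.iterate_succ_apply', I1_deriv m (tapois_van hv (by omega)), ih (by omega)]
    ring

private lemma tapois_fc {α β : ℝ} (hαβ : α ≤ β) (m : ℤ) {g : ℂ[X]} {B : ℝ}
    (h : ∀ x ∈ Set.Icc α β, ‖g.eval (x : ℂ)‖ ≤ B) : ‖I1 α β m g‖ ≤ B * (β - α) := by
  have := intervalIntegral.norm_integral_le_of_norm_le_const (a := α) (b := β) (C := B)
    (f := fun x : ℝ => g.eval (x : ℂ) * Complex.exp (-wm m * x)) fun x hx => by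
      rw [Set.uIoc_of_le hαβ] at hx
      have e : -wm m * x = ((-(2 * Real.pi * m * x) : ℝ) : ℂ) * Complex.I := by
        rw [wm]; push_cast; ring
      rw [norm_mul, e, Complex.norm_exp_ofReal_mul_I, mul_one]
      exact h x (Set.Ioc_subset_Icc_self hx)
  rwa [abs_of_nonneg (sub_nonneg.2 hαβ)] at this

private lemma tapois_wm (m : ℤ) : |(m : ℝ)| ≤ ‖wm m‖ := by
  have : ‖wm m‖ = 2 * Real.pi * |(m : ℝ)| := by
    simp [wm, abs_of_pos Real.pi_pos]
  rw [this]
  have h1 := Real.pi_gt_three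
  have h2 := abs_nonneg (m : ℝ)
  nlinarith

private lemma tapois_zeta : ∃ s : ℝ, s ≤ 4 ∧ HasSum (fun m : ℤ => 1 / (m : ℝ) ^ 2) s := by
  refine ⟨_, ?_, HasSum.of_nat_of_neg (f := fun m : ℤ => 1 / (m : ℝ) ^ 2)
    (by simpa using hasSum_zeta_two) (by simpa using hasSum_zeta_two)⟩
  have h1 := Real.pi_lt_d2
  have h2 := Real.pi_pos
  norm_num
  nlinarith

theorem poissonP {α β : ℝ} (hαβ : α ≤ β) (R k j : ℕ) (hR : 1 ≤ R) (hj : j + 2 ≤ k) (p : ℂ[X])
    (A b : ℝ) (hA : 0 ≤ A) (hb : 0 ≤ b) (hv : VanP α β p k) (hp : BdP α β p A b) :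
    ‖∑ a ∈ Icc ⌈α⌉ ⌊β⌋, (derivative^[j] p).eval (a : ℂ) -
        ∑ m ∈ Icc (-(R : ℤ)) R, wm m ^ j * I1 α β m p‖ ≤
      4 * (β - α) * A * (R : ℝ) ^ (j + 2) * (b / R) ^ k := by
  obtain ⟨s, hs4, hs⟩ := tapois_zeta
  obtain ⟨d, rfl⟩ : ∃ d, k = j + 2 + d := ⟨k - (j + 2), by omega⟩
  have hR0 : (0 : ℝ) < R := by exact_mod_cast hR
  have hl : 0 ≤ β - α := sub_nonneg.2 hαβ
  set c : ℝ := (β - α) * A * (R : ℝ) ^ (j + 2) * (b / R) ^ (j + 2 + d) with hC
  have hC0 : 0 ≤ c := by positivity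
  have hC1 : c * (R : ℝ) ^ d = A * b ^ (j + 2 + d) * (β - α) := by
    rw [hC, div_pow, pow_add (R : ℝ) (j + 2) d]
    field_simp
  let u : ℤ → ℂ := fun m => if m ∈ Finset.Icc (-(R : ℤ)) R then wm m ^ j * I1 α β m p else 0
  have hu : HasSum u (∑ m ∈ Finset.Icc (-(R : ℤ)) R, wm m ^ j * I1 α β m p) := by
    have := hasSum_sum_of_ne_finset_zero (L := SummationFilter.unconditional ℤ) (f := u)
      (s := Finset.Icc (-(R : ℤ)) R) fun m hm => if_neg hm
    rwa [sum_congr rfl fun m hm => if_pos hm] at this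
  have hbd : ∀ m : ℤ, ‖I1 α β m (derivative^[j] p) - u m‖ ≤ c * (1 / (m : ℝ) ^ 2) := fun m => by
    rw [tapois_pow m hv j (by omega)]
    by_cases hm : m ∈ Finset.Icc (-(R : ℤ)) R
    · simp only [u, if_pos hm, sub_self, norm_zero]
      positivity
    simp only [u, if_neg hm, sub_zero]
    have h1 : (R : ℝ) ≤ |(m : ℝ)| := by
      have : (R : ℤ) ≤ |m| := by
        rw [Finset.mem_Icc] at hm
        rw [le_abs]
        omega
      exact_mod_cast this
    have h2 := tapois_fc hαβ m (hp (j + 2 + d))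
    rw [tapois_pow m hv _ le_rfl, show wm m ^ (j + 2 + d) * I1 α β m p =
      wm m ^ 2 * wm m ^ d * (wm m ^ j * I1 α β m p) by ring, norm_mul, norm_mul, norm_pow,
      norm_pow, ← hC1] at h2
    have h3 : (m : ℝ) ^ 2 ≤ ‖wm m‖ ^ 2 := by
      rw [← sq_abs]
      exact pow_le_pow_left₀ (abs_nonneg _) (tapois_wm m) 2
    have h4 : (R : ℝ) ^ d ≤ ‖wm m‖ ^ d := pow_le_pow_left₀ hR0.le (h1.trans (tapois_wm m)) d
    have h5 : (0 : ℝ) < (m : ℝ) ^ 2 := by
      rw [← sq_abs]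
      exact pow_pos (hR0.trans_le h1) 2
    have h6 : (0 : ℝ) < (R : ℝ) ^ d := by positivity
    rw [mul_one_div, le_div_iff₀ h5]
    refine le_of_mul_le_mul_right (le_trans ?_ h2) h6
    rw [show ‖wm m ^ j * I1 α β m p‖ * (m : ℝ) ^ 2 * (R : ℝ) ^ d =
      (m : ℝ) ^ 2 * (R : ℝ) ^ d * ‖wm m ^ j * I1 α β m p‖ by ring]
    exact mul_le_mul_of_nonneg_right (mul_le_mul h3 h4 h6.le (by positivity)) (norm_nonneg _)
  have hsum : Summable fun m : ℤ => I1 α β m (derivative^[j] p) := by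
    have := (Summable.of_norm_bounded (hs.mul_left c).summable hbd).add hu.summable
    simpa using this
  have hj' := tapois_van hv (show j < j + 2 + d by omega)
  rw [VanP, pow_one, pow_one, dvd_iff_isRoot, dvd_iff_isRoot] at hj'
  have h7 := ((tapois_exact hαβ _ hj'.1 hj'.2 hsum).sub hu).norm_le_of_bounded (hs.mul_left c) hbd
  refine h7.trans ?_
  rw [show 4 * (β - α) * A * (R : ℝ) ^ (j + 2) * (b / R) ^ (j + 2 + d) = c * 4 by rw [hC]; ring]
  exact mul_le_mul_of_nonneg_left hs4 hC0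

end Pool.Agent.Lib.MP_1f047c_nt.TA
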