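import Pool.Agent.Lib.MP_1f047c_nt.TATwo
import Pool.Agent.Lib.MP_1f047c_nt.TAPois

/-! Integrals over the square. -/

open Finset MvPolynomial

namespace Pool.Agent.Lib.MP_1f047c_nt.TA

open PL (wm)

lemma intA_dv_e0 (Q : S) : dv e0 Q = pderiv 0 Q := by
  simp [dv, e0]

lemma intA_lr_mono (x : ℝ) (α : Fin 2 →₀ ℕ) (c : ℂ) :
    lr (cr (x, 0)) e1 (monomial α c) = (c * (x : ℂ) ^ α 0) • (Polynomial.X ^ α 1) := by
  rw [lr, aeval_monomial, Finsupp.prod_fintype _ _ (by simp), Fin.prod_univ_two]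
  simp [cr, e1, Polynomial.smul_eq_C_mul, mul_assoc]

/-- Integration in the second variable, as a linear map to polynomials in the first one. -/
theorem exists_int2 (n : ℕ) (m : ℤ) : ∃ T : S →ₗ[ℂ] Polynomial ℂ,
    (∀ (Q : S) (x : ℝ), (T Q).eval (x : ℂ) = I1 0 n m (lr (cr (x, 0)) e1 Q)) ∧
      ∀ Q, Polynomial.derivative (T Q) = T (dv e0 Q) := by
  obtain ⟨T, hT⟩ : ∃ T : S →ₗ[ℂ] Polynomial ℂ, ∀ α c, T (monomial α c) =
      (c * I1 0 n m (Polynomial.X ^ α 1)) • Polynomial.X ^ α 0 := by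
    refine ⟨(basisMonomials (Fin 2) ℂ).constr ℂ fun α =>
      I1 0 n m (Polynomial.X ^ α 1) • Polynomial.X ^ α 0, fun α c => ?_⟩
    have h : (monomial α c : S) = c • basisMonomials (Fin 2) ℂ α := by
      simp [smul_monomial]
    rw [h, map_smul, Module.Basis.constr_basis, smul_smul]
  refine ⟨T, fun Q x => ?_, fun Q => ?_⟩
  · induction Q using MvPolynomial.induction_on' with
    | monomial α c =>
      rw [hT, intA_lr_mono, I1_smul]
      simp only [Polynomial.eval_smul, Polynomial.eval_pow, Polynomial.eval_X, smul_eq_mul]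
      ring
    | add p q hp hq => rw [map_add, map_add, I1_add, Polynomial.eval_add, hp, hq]
  · induction Q using MvPolynomial.induction_on' with
    | monomial α c =>
      rw [intA_dv_e0, pderiv_monomial, hT, hT, map_smul, Polynomial.derivative_X_pow]
      simp only [Finsupp.coe_tsub, Pi.sub_apply, Finsupp.single_eq_same, ne_eq, one_ne_zero,
        not_false_eq_true, Finsupp.single_eq_of_ne, tsub_zero, Polynomial.smul_eq_C_mul, map_mul]
      ring
    | add p q hp hq => simp only [map_add, hp, hq]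

lemma intA_eval (x y : ℝ) (Q : S) :
    (lr (cr (x, 0)) e1 Q).eval (y : ℂ) = eval (cr (x, y)) Q := by
  rw [lr_evalC]
  congr 2
  funext j
  fin_cases j <;> simp [cr, e1]

lemma intA_I2 (n : ℕ) (m : ℤ × ℤ) {T : S →ₗ[ℂ] Polynomial ℂ}
    (hT : ∀ (Q : S) (x : ℝ), (T Q).eval (x : ℂ) = I1 0 n m.2 (lr (cr (x, 0)) e1 Q)) (Q : S) :
    I2 n m Q = I1 0 n m.1 (T Q) := by
  rw [I2, I1]
  simp only [hT, I1, intA_eval]

lemma I2_add (n : ℕ) (m : ℤ × ℤ) (P Q : S) : I2 n m (P + Q) = I2 n m P + I2 n m Q := by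
  obtain ⟨T, hT, -⟩ := exists_int2 n m.2
  simp only [intA_I2 n m hT, map_add, I1_add]

lemma I2_smul (n : ℕ) (m : ℤ × ℤ) (c : ℂ) (P : S) : I2 n m (c • P) = c * I2 n m P := by
  obtain ⟨T, hT, -⟩ := exists_int2 n m.2
  simp only [intA_I2 n m hT, map_smul, I1_smul]

lemma I2_sum {ι : Type} (n : ℕ) (m : ℤ × ℤ) (s : Finset ι) (f : ι → S) :
    I2 n m (∑ i ∈ s, f i) = ∑ i ∈ s, I2 n m (f i) := by
  obtain ⟨T, hT, -⟩ := exists_int2 n m.2
  simp only [intA_I2 n m hT, map_sum, I1_sum]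

lemma I2_zero (n : ℕ) (m : ℤ × ℤ) : I2 n m 0 = 0 := by
  simp [I2]

lemma intA_qq (n : ℕ) (x y : ℝ) :
    eval (cr (x, y)) (qq n) = ((x * (n - x) * (y * (n - y)) : ℝ) : ℂ) := by
  simp [qq, cr]

lemma intA_van {p : Polynomial ℂ} {α β : ℝ} (h0 : p.eval (α : ℂ) = 0) (h1 : p.eval (β : ℂ) = 0) :
    VanP α β p 1 := by
  constructor <;> rw [pow_one, Polynomial.dvd_iff_isRoot] <;> assumption

lemma I2_dv (n : ℕ) (m : ℤ × ℤ) (v : Fin 2 → ℂ) {P : S} (h : qq n ∣ P) :
    I2 n m (dv v P) = dotC v (wv m) * I2 n m P := by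
  obtain ⟨T, hT, hD⟩ := exists_int2 n m.2
  obtain ⟨R, rfl⟩ := h
  have z : ∀ x y : ℝ, x * (n - x) * (y * (n - y)) = 0 → eval (cr (x, y)) (qq n * R) = 0 := by
    intro x y e
    rw [map_mul, intA_qq, e]
    simp
  have a : ∀ x : ℝ, x * (n - x) = 0 → (T (qq n * R)).eval (x : ℂ) = 0 := by
    intro x e
    rw [hT, I1]
    simp only [intA_eval]
    rw [intervalIntegral.integral_congr (g := fun _ => 0) fun y _ => by
      simp only [z x y (by rw [e, zero_mul]), zero_mul]]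
    simp
  have h0 : I2 n m (dv e0 (qq n * R)) = wm m.1 * I2 n m (qq n * R) := by
    rw [intA_I2 n m hT, intA_I2 n m hT, ← hD, I1_deriv _ (intA_van (a 0 (by simp)) (a n (by simp)))]
  have h1 : I2 n m (dv e1 (qq n * R)) = wm m.2 * I2 n m (qq n * R) := by
    rw [intA_I2 n m hT, intA_I2 n m hT, ← I1_smul, I1, I1]
    refine intervalIntegral.integral_congr fun x _ => ?_
    rw [Polynomial.eval_smul, hT, hT, ← lr_dv, I1_deriv _ (intA_van
      (by rw [intA_eval]; exact z x 0 (by simp)) (by rw [intA_eval]; exact z x n (by simp))),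
      smul_eq_mul]
  rw [dv_eq, LinearMap.add_apply, LinearMap.smul_apply, LinearMap.smul_apply, I2_add, I2_smul,
    I2_smul, h0, h1]
  simp only [dotC, wv, Matrix.cons_val_zero, Matrix.cons_val_one]
  ring

lemma intA_step (n : ℕ) (m : ℤ × ℤ) (v : Fin 2 → ℂ) {g : S} {r : ℕ}
    (hg : ∀ φ, qq n ^ r ∣ φ → ∀ Q, I2 n m (act g φ * Q) = I2 n m (φ * act (adj (wv m) g) Q))
    (φ : S) (h : qq n ^ (r + 1) ∣ φ) (Q : S) :
    I2 n m (act (lin v * g) φ * Q) = I2 n m (φ * act (adj (wv m) (lin v * g)) Q) := by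
  have h1 : qq n ^ r ∣ dv v φ := by simpa using dv_pow_dvd v (qq n) r 1 h
  have h2 : qq n ∣ φ := (dvd_pow_self _ (Nat.succ_ne_zero r)).trans h
  rw [mul_comm (lin v) g, act_mul_apply, act_lin, hg _ h1, mul_comm g, map_mul, act_mul_apply,
    adj_lin, map_sub, act_lin, act_C]
  generalize act (adj (wv m) g) Q = R
  have h3 := I2_dv n m v (h2.mul_right R)
  rw [dv_mul, I2_add, ← I2_smul] at h3
  have h4 : dotC v (wv m) • (φ * R) =
      φ * (dotC v (wv m) • (1 : Module.End ℂ S) - dv v) R + φ * dv v R := by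
    simp [mul_sub]
  rw [h4, I2_add] at h3
  exact add_right_cancel h3

/-- Integration by parts. -/
theorem I2_adj (n : ℕ) (m : ℤ × ℤ) {g : S} {r : ℕ} (hg : g ∈ Vp r) {φ : S} (h : qq n ^ r ∣ φ)
    (Q : S) : I2 n m (act g φ * Q) = I2 n m (φ * act (adj (wv m) g) Q) := by
  have l0 : lin e0 = X 0 := by simp [lin, e0]
  have l1 : lin e1 = X 1 := by simp [lin, e1]
  have a : ∀ j : ℕ, ∀ φ, qq n ^ j ∣ φ → ∀ Q, I2 n m (act (X 1 ^ j) φ * Q) =
      I2 n m (φ * act (adj (wv m) (X 1 ^ j)) Q) := by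
    intro j
    induction j with
    | zero => simp
    | succ j ih =>
      rw [pow_succ' (X 1 : S), ← l1]
      rw [← l1] at ih
      exact intA_step n m e1 ih
  have b : ∀ j i : ℕ, ∀ φ, qq n ^ (j + i) ∣ φ → ∀ Q, I2 n m (act (X 0 ^ i * X 1 ^ j) φ * Q) =
      I2 n m (φ * act (adj (wv m) (X 0 ^ i * X 1 ^ j)) Q) := by
    intro j i
    induction i with
    | zero => simpa using a j
    | succ i ih =>
      have e : (X 0 ^ (i + 1) * X 1 ^ j : S) = lin e0 * (X 0 ^ i * X 1 ^ j) := by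
        rw [l0]
        ring
      rw [e]
      exact intA_step n m e0 ih
  let W : Submodule ℂ S :=
    { carrier := {g | I2 n m (act g φ * Q) = I2 n m (φ * act (adj (wv m) g) Q)}
      add_mem' := fun {p q} hp hq => by
        simp only [Set.mem_ofPred_eq, map_add, LinearMap.add_apply, add_mul, mul_add, I2_add] at *
        rw [hp, hq]
      zero_mem' := by simp
      smul_mem' := fun c p hp => by
        simp only [Set.mem_ofPred_eq, map_smul, LinearMap.smul_apply, smul_mul_assoc,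
          mul_smul_comm, I2_smul] at *
        rw [hp] }
  exact Vp_le (W := W) (fun i j hij => b j i φ ((pow_dvd_pow _ (by omega)).trans h) Q) hg

lemma nq2_nonneg (n κ : ℕ) (Q : S) : 0 ≤ nq2 n κ Q := Real.sqrt_nonneg _

lemma intA_cj (x y : ℝ) (Q : S) :
    eval (cr (x, y)) (cj2 Q) = starRingEnd ℂ (eval (cr (x, y)) Q) := by
  induction Q using MvPolynomial.induction_on with
  | C a => simp [cj2]
  | add p q hp hq =>
    simp only [cj2, map_add] at *
    rw [hp, hq]
  | mul_X p k hp =>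
    simp only [cj2, map_mul, map_X, eval_X] at *
    rw [hp]
    fin_cases k <;> simp [cr]

lemma I2_nq (n κ : ℕ) (Q : S) : I2 n 0 (qq n ^ κ * cj2 Q * Q) = ((nq2 n κ Q ^ 2 : ℝ) : ℂ) := by
  have hn : (0 : ℝ) ≤ n := n.cast_nonneg
  rw [nq2, Real.sq_sqrt (intervalIntegral.integral_nonneg hn fun x hx =>
    intervalIntegral.integral_nonneg hn fun y hy => mul_nonneg (pow_nonneg (mul_nonneg
      (mul_nonneg hx.1 (sub_nonneg.2 hx.2)) (mul_nonneg hy.1 (sub_nonneg.2 hy.2))) _)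
      (sq_nonneg _)), I2, ← intervalIntegral.integral_ofReal]
  refine intervalIntegral.integral_congr fun x _ => ?_
  rw [← intervalIntegral.integral_ofReal]
  simp only [wm, Prod.fst_zero, Prod.snd_zero, Int.cast_zero, mul_zero, neg_zero, zero_mul,
    Complex.exp_zero, mul_one]
  refine intervalIntegral.integral_congr fun y _ => ?_
  rw [map_mul, map_mul, map_pow, intA_qq, intA_cj, mul_assoc (_ ^ κ), Complex.conj_mul']
  push_cast
  ring

end Pool.Agent.Lib.MP_1f047c_nt.TA
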