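import Pool.Agent.Lib.MP_1f047c_nt.TABasic

/-! Lattice points on lines and on the curve. -/

open Finset MvPolynomial

namespace Pool.Agent.Lib.MP_1f047c_nt.TA

open PL (wm)

lemma card_spaced_JarA {α : Type} {ρ : ℕ} (hρ : 1 ≤ ρ) (R : ℕ) (T : Finset α) (g : α → ℤ)
    (hg : ∀ m ∈ T, -(R : ℤ) ≤ g m ∧ g m ≤ R)
    (hs : ∀ m ∈ T, ∀ m' ∈ T, m ≠ m' → (ρ : ℤ) ≤ |g m - g m'|) : T.card ≤ 2 * R / ρ + 1 := by
  rw [← card_range (2 * R / ρ + 1)]
  refine card_le_card_of_injOn (fun m => (g m + R).toNat / ρ) (fun m hm => ?_)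
    (fun m hm m' hm' h => ?_)
  · have h1 := hg m hm
    rw [mem_coe, mem_range, Nat.lt_succ_iff]
    exact Nat.div_le_div_right (by omega)
  · by_contra hne
    have h1 := hg m hm
    have h2 := hg m' hm'
    have h3 := hs m hm m' hm' hne
    have h4 := Nat.div_add_mod (g m + R).toNat ρ
    have h5 := Nat.div_add_mod (g m' + R).toNat ρ
    have h6 := Nat.mod_lt (g m + R).toNat hρ
    have h7 := Nat.mod_lt (g m' + R).toNat hρ
    simp only at h
    rw [h] at h4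
    generalize ρ * ((g m' + R).toNat / ρ) = w at h4 h5
    rcases le_abs.1 h3 with h8 | h8 <;> omega

lemma mem_box_JarA {R : ℕ} {m : ℤ × ℤ} :
    m ∈ box R ↔ (-(R : ℤ) ≤ m.1 ∧ m.1 ≤ R) ∧ (-(R : ℤ) ≤ m.2 ∧ m.2 ≤ R) := by
  rw [box, mem_product, mem_Icc, mem_Icc]

open Classical in
/-- Lattice points on a line whose direction is not a small rational one. -/
theorem card_line {ρ : ℕ} (hρ : 1 ≤ ρ) (R : ℕ) {a : ℂ}
    (ha : ∀ θ : ℤ × ℤ, θ ≠ 0 → Sml ρ θ → (θ.2 : ℂ) ≠ a * θ.1) (z : ℂ) :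
    ((box R).filter fun m => (m.2 : ℂ) - a * m.1 = z).card ≤ 2 * R / ρ + 1 := by
  have key : ∀ m ∈ (box R).filter fun m => (m.2 : ℂ) - a * m.1 = z,
      ∀ m' ∈ (box R).filter fun m => (m.2 : ℂ) - a * m.1 = z, m ≠ m' →
        ((ρ : ℤ) < |m.1 - m'.1| ∨ (ρ : ℤ) < |m.2 - m'.2|) ∧
          ((|m.2 - m'.2| : ℤ) : ℝ) = ‖a‖ * ((|m.1 - m'.1| : ℤ) : ℝ) := by
    intro m hm m' hm' hne
    have h1 := (mem_filter.1 hm).2
    have h2 := (mem_filter.1 hm').2
    have h3 : ((m.2 - m'.2 : ℤ) : ℂ) = a * ((m.1 - m'.1 : ℤ) : ℂ) := by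
      push_cast
      linear_combination h1 - h2
    constructor
    · by_contra hc
      push Not at hc
      exact ha (m - m') (sub_ne_zero.2 hne) ⟨hc.1, hc.2⟩ h3
    · have h4 := congrArg norm h3
      rw [norm_mul, Complex.norm_intCast, Complex.norm_intCast] at h4
      rw [Int.cast_abs, Int.cast_abs]
      exact h4
  rcases le_total ‖a‖ 1 with h | h
  · refine card_spaced_JarA hρ R _ (fun m => m.1)
      (fun m hm => (mem_box_JarA.1 (mem_filter.1 hm).1).1) (fun m hm m' hm' hne => ?_)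
    obtain ⟨h1, h2⟩ := key m hm m' hm' hne
    have h3 : ((|m.2 - m'.2| : ℤ) : ℝ) ≤ ((|m.1 - m'.1| : ℤ) : ℝ) := by
      rw [h2]
      exact mul_le_of_le_one_left (Int.cast_nonneg (abs_nonneg _)) h
    have h4 : |m.2 - m'.2| ≤ |m.1 - m'.1| := Int.cast_le.1 h3
    rcases h1 with h1 | h1
    · exact h1.le
    · exact (h1.trans_le h4).le
  · refine card_spaced_JarA hρ R _ (fun m => m.2)
      (fun m hm => (mem_box_JarA.1 (mem_filter.1 hm).1).2) (fun m hm m' hm' hne => ?_)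
    obtain ⟨h1, h2⟩ := key m hm m' hm' hne
    have h3 : ((|m.1 - m'.1| : ℤ) : ℝ) ≤ ((|m.2 - m'.2| : ℤ) : ℝ) := by
      rw [h2]
      exact le_mul_of_one_le_left (Int.cast_nonneg (abs_nonneg _)) h
    have h4 : |m.1 - m'.1| ≤ |m.2 - m'.2| := Int.cast_le.1 h3
    rcases h1 with h1 | h1
    · exact (h1.trans_le h4).le
    · exact h1.le

lemma exists_fun_JarA {ι : Type} (c : ι → ℂ) (hfin : (Set.range c).Finite) (h0 : ∃ i, c i ≠ 0)
    {ℓ : ℕ} (hℓ : ℓ.Prime) :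
    ∃ ψ : Submodule.span ℤ (Set.range c) →ₗ[ℤ] ZMod ℓ,
      ∃ i, ψ ⟨c i, Submodule.subset_span ⟨i, rfl⟩⟩ ≠ 0 := by
  have := Fact.mk hℓ
  have hf : Module.Finite ℤ (Submodule.span ℤ (Set.range c)) := Module.Finite.span_of_finite ℤ hfin
  have hn : Nontrivial (Submodule.span ℤ (Set.range c)) := by
    obtain ⟨i, hi⟩ := h0
    exact ⟨⟨c i, Submodule.subset_span ⟨i, rfl⟩⟩, 0, fun h => hi (congrArg Subtype.val h)⟩
  let b := Module.Free.chooseBasis ℤ (Submodule.span ℤ (Set.range c))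
  obtain ⟨j⟩ := b.index_nonempty
  refine ⟨(Int.castAddHom (ZMod ℓ)).toIntLinearMap ∘ₗ b.coord j, ?_⟩
  by_contra hc
  push Not at hc
  have h1 : ∀ x (hx : x ∈ Submodule.span ℤ (Set.range c)),
      ((Int.castAddHom (ZMod ℓ)).toIntLinearMap ∘ₗ b.coord j) ⟨x, hx⟩ = 0 := by
    intro x hx
    induction hx using Submodule.span_induction with
    | mem x hx =>
      obtain ⟨i, rfl⟩ := hx
      exact hc i
    | zero => exact map_zero _
    | add x y hx hy h1 h2 =>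
      rw [← AddMemClass.mk_add_mk _ x y hx hy, map_add, h1, h2, add_zero]
    | smul r x hx h1 =>
      rw [← SetLike.mk_smul_mk _ r x hx, map_smul, h1, smul_zero]
  have h2 := h1 (b j).1 (b j).2
  simp at h2

lemma exists_red_JarA {f : S} {D : ℕ} (hf : f ≠ 0) (hD : f ∈ Vp D) {ℓ : ℕ} (hℓ : ℓ.Prime) :
    ∃ g : MvPolynomial (Fin 2) (ZMod ℓ), g ≠ 0 ∧ g.totalDegree ≤ D ∧
      ∀ m : ℤ × ℤ, eval (cz m) f = 0 → eval ![(m.1 : ZMod ℓ), (m.2 : ZMod ℓ)] g = 0 := by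
  classical
  have hfin : (Set.range fun m => coeff m f).Finite := by
    refine ((f.support.image fun m => coeff m f).finite_toSet.insert 0).subset ?_
    rintro _ ⟨m, rfl⟩
    by_cases hm : m ∈ f.support
    · exact Or.inr (mem_coe.2 (mem_image_of_mem _ hm))
    · exact Or.inl (notMem_support_iff.1 hm)
  obtain ⟨ψ, m₀, hm₀⟩ := exists_fun_JarA (fun m => coeff m f) hfin (exists_coeff_ne_zero hf) hℓ
  set c : (Fin 2 →₀ ℕ) → Submodule.span ℤ (Set.range fun m => coeff m f) :=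
    fun m => ⟨coeff m f, Submodule.subset_span ⟨m, rfl⟩⟩ with hc
  have hm₀s : m₀ ∈ f.support := by
    by_contra h
    apply hm₀
    have : c m₀ = 0 := Subtype.ext (notMem_support_iff.1 h)
    change ψ (c m₀) = 0
    rw [this, map_zero]
  refine ⟨∑ m ∈ f.support, monomial m (ψ (c m)), fun h => hm₀ ?_, ?_, fun x hx => ?_⟩
  · have h1 := congrArg (coeff m₀) h
    rw [coeff_sum, sum_eq_single m₀ (fun m _ hm => by rw [coeff_monomial, if_neg hm])
      (fun h => absurd hm₀s h), coeff_monomial, if_pos rfl, coeff_zero] at h1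
    exact h1
  · refine (totalDegree_finsetSum _ _).trans (Finset.sup_le fun m hm => ?_)
    exact (totalDegree_monomial_le _ _).trans ((le_totalDegree hm).trans (mem_Vp.1 hD))
  · have h1 : ∑ m ∈ f.support, (x.1 ^ m 0 * x.2 ^ m 1) • c m = 0 := by
      apply Subtype.ext
      rw [eval_eq'] at hx
      rw [Submodule.coe_sum, Submodule.coe_zero, ← hx]
      refine sum_congr rfl fun m _ => ?_
      simp [hc, cz, Fin.prod_univ_two, mul_comm]
    have h2 := congrArg ψ h1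
    rw [map_sum, map_zero] at h2
    rw [map_sum, ← h2]
    refine sum_congr rfl fun m _ => ?_
    rw [eval_monomial, Finsupp.prod_fintype _ _ (by simp), map_smul]
    simp [Fin.prod_univ_two, mul_comm]

/-- Integer zeros of a polynomial lie in few residue classes. -/
theorem card_classes {f : S} {D : ℕ} (hf : f ≠ 0) (hD : f ∈ Vp D) {ℓ : ℕ} (hℓ : ℓ.Prime)
    (T : Finset (ℤ × ℤ)) (hT : ∀ m ∈ T, eval (cz m) f = 0) :
    (T.image fun m => ((m.1 : ZMod ℓ), (m.2 : ZMod ℓ))).card ≤ D * ℓ := by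
  classical
  have := Fact.mk hℓ
  obtain ⟨g, hg0, hgD, hg⟩ := exists_red_JarA hf hD hℓ
  have h1 := schwartz_zippel_totalDegree hg0 (univ : Finset (ZMod ℓ))
  rw [card_univ, ZMod.card] at h1
  have hl : (0 : ℚ≥0) < ℓ := Nat.cast_pos.2 hℓ.pos
  have h2 : #{x ∈ Fintype.piFinset fun _ : Fin 2 => (univ : Finset (ZMod ℓ)) | eval x g = 0} ≤
      D * ℓ := by
    rw [div_le_iff₀ (pow_pos hl 2), pow_two, ← mul_assoc, div_mul_cancel₀ _ hl.ne'] at h1
    have h3 : #{x ∈ Fintype.piFinset fun _ : Fin 2 => (univ : Finset (ZMod ℓ)) | eval x g = 0} ≤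
        g.totalDegree * ℓ := by exact_mod_cast h1
    exact h3.trans (Nat.mul_le_mul_right _ hgD)
  refine le_trans (card_le_card_of_injOn (fun p => ![p.1, p.2]) (fun p hp => ?_)
    (fun p _ p' _ h => ?_)) h2
  · obtain ⟨m, hm, rfl⟩ := mem_image.1 (mem_coe.1 hp)
    rw [mem_coe, mem_filter]
    exact ⟨Fintype.mem_piFinset.2 fun _ => mem_univ _, hg m (hT m hm)⟩
  · exact Prod.ext (congrFun h 0) (congrFun h 1)

/-- Counting with differences. -/
theorem card_diff {R ℓ c B : ℕ} (hℓ : 1 ≤ ℓ) (T : Finset (ℤ × ℤ)) (hT : T ⊆ box R)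
    (hc : (T.image fun m => ((m.1 : ZMod ℓ), (m.2 : ZMod ℓ))).card ≤ c)
    (hB : ∀ v : ℤ × ℤ, v ≠ 0 → (T.filter fun m => m + v ∈ T).card ≤ B) :
    T.card ≤ c + B * (4 * R / ℓ + 1) ^ 2 := by
  classical
  set cl : ℤ × ℤ → ZMod ℓ × ZMod ℓ := fun m => ((m.1 : ZMod ℓ), (m.2 : ZMod ℓ)) with hcl
  have hex : ∀ p : ZMod ℓ × ZMod ℓ, ∃ r : ℤ × ℤ, p ∈ T.image cl → r ∈ T ∧ cl r = p := fun p => by
    by_cases hp : p ∈ T.image cl
    · obtain ⟨r, h1, h2⟩ := mem_image.1 hp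
      exact ⟨r, fun _ => ⟨h1, h2⟩⟩
    · exact ⟨0, fun h => absurd h hp⟩
  choose r hr using hex
  set W : Finset ℤ := (Icc (-((2 * R : ℕ) : ℤ)) (2 * R : ℕ)).filter fun k => (ℓ : ℤ) ∣ k with hW
  have hWc : W.card ≤ 4 * R / ℓ + 1 := by
    have h1 := card_spaced_JarA hℓ (2 * R) W id
      (fun k hk => mem_Icc.1 (mem_filter.1 hk).1) (fun k hk k' hk' hne =>
        Int.le_of_dvd (abs_pos.2 (sub_ne_zero.2 hne))
          ((dvd_abs _ _).2 (dvd_sub (mem_filter.1 hk).2 (mem_filter.1 hk').2)))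
    rwa [show 2 * (2 * R) = 4 * R by ring] at h1
  have hsub : T ⊆ (T.image cl).image r ∪
      ((W ×ˢ W).erase 0).biUnion fun v => T.filter fun m => m + v ∈ T := by
    intro m hm
    obtain ⟨h1, h2⟩ := hr _ (mem_image_of_mem cl hm)
    by_cases h : r (cl m) = m
    · exact mem_union_left _ (mem_image.2 ⟨_, mem_image_of_mem cl hm, h⟩)
    · refine mem_union_right _ (mem_biUnion.2 ⟨r (cl m) - m, mem_erase.2 ⟨sub_ne_zero.2 h, ?_⟩,
        mem_filter.2 ⟨hm, by rwa [add_sub_cancel]⟩⟩)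
      have h3 := mem_box_JarA.1 (hT hm)
      have h4 := mem_box_JarA.1 (hT h1)
      have h5 := (ZMod.intCast_eq_intCast_iff_dvd_sub _ _ _).1 (congrArg Prod.fst h2).symm
      have h6 := (ZMod.intCast_eq_intCast_iff_dvd_sub _ _ _).1 (congrArg Prod.snd h2).symm
      rw [mem_product, hW, mem_filter, mem_filter, mem_Icc, mem_Icc, Prod.fst_sub, Prod.snd_sub]
      exact ⟨⟨by push_cast; omega, h5⟩, ⟨by push_cast; omega, h6⟩⟩
  refine (card_le_card hsub).trans ((card_union_le _ _).trans (add_le_add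
    (card_image_le.trans hc) ?_))
  refine (card_biUnion_le_card_mul _ _ B fun v hv => hB v (mem_erase.1 hv).1).trans ?_
  rw [mul_comm]
  refine Nat.mul_le_mul_left _ ((card_erase_le).trans ?_)
  rw [card_product, pow_two]
  exact Nat.mul_le_mul hWc hWc

end Pool.Agent.Lib.MP_1f047c_nt.TA
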