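import Pool.Agent.Lib.MP_1f047c_nt.TALowA

/-! Division with remainder on the curve. -/

open Finset MvPolynomial

namespace Pool.Agent.Lib.MP_1f047c_nt.TA

variable {Ω : Type} [Field Ω] [Algebra ℂ Ω] {F : S} {D : ℕ} (p : Pl Ω F D)

/-- Evaluation on all branches. -/
noncomputable def Pl.ev : S →ₗ[ℂ] (Fin D → Ω) := LinearMap.pi fun i => (aeval (p.c i)).toLinearMap

/-- Functions on the curve with bounded degrees. -/
noncomputable def Pl.LL (q : Fin D → ℚ) : Submodule ℂ (Fin D → Ω) :=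
  LinearMap.range p.ev ⊓ Submodule.pi Set.univ fun i => p.LeS (q i)

lemma Pl.ev_apply_low (G : S) (i : Fin D) : p.ev G i = aeval (p.c i) G := rfl

lemma Pl.ev_eq_low {G H : S} (h : F ∣ G - H) : p.ev G = p.ev H := by
  funext i
  have h1 := (p.ker i _).2 h
  rw [map_sub, sub_eq_zero] at h1
  exact h1

lemma Pl.ev_eq_iff (hD : 1 ≤ D) {G H : S} : p.ev G = p.ev H ↔ F ∣ G - H := by
  refine ⟨fun h => (p.ker ⟨0, hD⟩ _).1 ?_, p.ev_eq_low⟩
  rw [map_sub, sub_eq_zero]
  exact congrFun h ⟨0, hD⟩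

lemma Pl.mem_LL {q : Fin D → ℚ} {G : S} :
    p.ev G ∈ p.LL q ↔ ∀ i, Le p.o (q i) (aeval (p.c i) G) :=
  ⟨fun h i => h.2 i (Set.mem_univ i), fun h => ⟨⟨G, rfl⟩, fun i _ => h i⟩⟩

lemma Pl.LL_mono {q q' : Fin D → ℚ} (h : ∀ i, q i ≤ q' i) : p.LL q ≤ p.LL q' := by
  rintro _ ⟨⟨G, rfl⟩, hG⟩
  exact p.mem_LL.2 fun i => Le.mono (hG i (Set.mem_univ i)) (h i)

lemma Pl.LL_le_low (N : ℕ) {W : Submodule ℂ (Fin D → Ω)}
    (hW : ∀ (k : Fin D) (a : ℕ), a ≤ N + D ^ 2 → p.ev (X 0 ^ a * X 1 ^ (k : ℕ)) ∈ W) :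
    (p.LL fun _ => N) ≤ W := by
  rintro _ ⟨⟨G, rfl⟩, hG⟩
  obtain ⟨u, h1, h2⟩ := p.rem G
  rw [p.ev_eq_low h1, map_sum]
  refine W.sum_mem fun k _ => ?_
  rw [Polynomial.aeval_eq_sum_range, Finset.sum_mul, map_sum]
  refine W.sum_mem fun a ha => ?_
  rw [smul_mul_assoc, map_smul]
  exact W.smul_mem _ (hW k a ((Nat.lt_succ_iff.1 (mem_range.1 ha)).trans
    (h2 N (fun i => hG i (Set.mem_univ i)) k)))

theorem Pl.LL_finite (q : Fin D → ℚ) : Module.Finite ℂ (p.LL q) := by
  obtain ⟨B, hB⟩ := (Set.finite_range q).bddAbove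
  obtain ⟨N, hN⟩ := exists_nat_ge B
  have h1 : p.LL q ≤ (Vp (N + D ^ 2 + D)).map p.ev :=
    (p.LL_mono fun i => (hB ⟨i, rfl⟩).trans hN).trans (p.LL_le_low N fun k a ha =>
      Submodule.mem_map_of_mem (mono_mem_Vp (add_le_add ha k.2.le)))
  exact Submodule.finiteDimensional_of_le h1

lemma finrank_le_low {W ι : Type} [AddCommGroup W] [Module ℂ W] [Fintype ι]
    {L A : Submodule ℂ W} [Module.Finite ℂ A] (v : ι → W)
    (h : L ≤ A ⊔ Submodule.span ℂ (Set.range v)) :
    Module.finrank ℂ L ≤ Module.finrank ℂ A + Fintype.card ι := by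
  have : Module.Finite ℂ (Submodule.span ℂ (Set.range v)) :=
    Module.Finite.span_of_finite ℂ (Set.finite_range v)
  exact (Submodule.finrank_mono h).trans ((Submodule.finrank_add_le_finrank_add_finrank _ _).trans
    (Nat.add_le_add_left (finrank_range_le_card v) _))

theorem Pl.LL_const (κ : ℕ) (hκ : D ≤ κ) :
    Module.finrank ℂ (p.LL fun _ => κ) ≤ Module.finrank ℂ ((Vp κ).map p.ev) + D * (D ^ 2 + D) := by
  have h := finrank_le_low (L := p.LL fun _ => κ) (A := (Vp κ).map p.ev)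
    (fun x : Fin D × Fin (D ^ 2 + D) => p.ev (X 0 ^ (κ - D + 1 + x.2) * X 1 ^ (x.1 : ℕ)))
    (p.LL_le_low κ fun k a ha => by
      by_cases h : a + D ≤ κ
      · exact Submodule.mem_sup_left (Submodule.mem_map_of_mem
          (mono_mem_Vp ((Nat.add_le_add_left k.2.le a).trans h)))
      · refine Submodule.mem_sup_right (Submodule.subset_span
          ⟨(k, ⟨a - (κ - D + 1), by omega⟩), ?_⟩)
        have e : κ - D + 1 + (a - (κ - D + 1)) = a := by omega
        simp only [e])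
  simpa using h

lemma Pl.LL_one_low {q : Fin D → ℚ} (hq : ∀ i, (D : ℚ) ≤ q i) :
    Module.finrank ℂ (p.LL fun i => q i + 1) ≤ Module.finrank ℂ (p.LL q) + D := by
  have := p.LL_finite q
  have h := finrank_le_low (L := p.LL fun i => q i + 1)
    (A := (p.LL q).map (LinearMap.mulRight ℂ (p.ev (X 0))))
    (fun k : Fin D => p.ev (X 1 ^ (k : ℕ))) (by
      rintro _ ⟨⟨G, rfl⟩, hG⟩
      obtain ⟨u, h1, -⟩ := p.rem G
      obtain ⟨H, hH⟩ : ∃ H : S,
        H = ∑ k, Polynomial.aeval (X 0 : S) (u k).divX * X 1 ^ (k : ℕ) := ⟨_, rfl⟩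
      obtain ⟨R, hR⟩ : ∃ R : S, R = ∑ k : Fin D, (u k).coeff 0 • X 1 ^ (k : ℕ) := ⟨_, rfl⟩
      have e : ∑ k, Polynomial.aeval (X 0 : S) (u k) * X 1 ^ (k : ℕ) = H * X 0 + R := by
        rw [hH, hR, Finset.sum_mul, ← Finset.sum_add_distrib]
        refine Finset.sum_congr rfl fun k _ => ?_
        conv_lhs => rw [← (u k).divX_mul_X_add]
        rw [map_add, map_mul, Polynomial.aeval_X, Polynomial.aeval_C, Algebra.smul_def]
        ring
      have e2 : p.ev G = p.ev H * p.ev (X 0) + p.ev R := by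
        rw [p.ev_eq_low h1, e, map_add]
        congr 1
        funext i
        exact map_mul (aeval (p.c i)) _ _
      have hRV : R ∈ Vp D := by
        rw [hR]
        refine Submodule.sum_mem _ fun k _ => Submodule.smul_mem _ _ ?_
        have := mono_mem_Vp (i := 0) (j := k) (E := D) (by simp)
        rwa [pow_zero, one_mul] at this
      have hHL : p.ev H ∈ p.LL q := by
        refine p.mem_LL.2 fun i => Exa.cancel (p.x0 i) ?_
        have e3 : aeval (p.c i) H * p.c i 0 = p.ev G i - p.ev R i := by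
          rw [e2, Pi.add_apply, add_sub_cancel_right, Pi.mul_apply, p.ev_apply_low,
            p.ev_apply_low, aeval_X]
        rw [e3]
        exact (p.LeS (q i + 1)).sub_mem (hG i (Set.mem_univ i))
          ((p.le_of_Vp i hRV).mono ((hq i).trans (by linarith)))
      rw [e2]
      refine Submodule.add_mem_sup ⟨_, hHL, rfl⟩ ?_
      rw [hR, map_sum]
      refine Submodule.sum_mem _ fun k _ => ?_
      rw [map_smul]
      exact Submodule.smul_mem _ _ (Submodule.subset_span ⟨k, rfl⟩))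
  rw [Fintype.card_fin] at h
  exact h.trans (Nat.add_le_add_right (Submodule.finrank_map_le _ _) _)

theorem Pl.LL_step {q : Fin D → ℚ} (hq : ∀ i, (D : ℚ) ≤ q i) (s : ℕ) :
    Module.finrank ℂ (p.LL fun i => q i + s) ≤ Module.finrank ℂ (p.LL q) + D * s := by
  induction s with
  | zero =>
    have e : (fun i => q i + ((0 : ℕ) : ℚ)) = q := by
      funext i
      simp
    rw [e]
    simp
  | succ s ih =>
    have e : (fun i => q i + ((s + 1 : ℕ) : ℚ)) = fun i => (q i + s) + 1 := by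
      funext i
      push_cast
      ring
    have h := p.LL_one_low (q := fun i => q i + s) fun i =>
      (hq i).trans (le_add_of_nonneg_right (Nat.cast_nonneg s))
    rw [e, mul_add, mul_one]
    omega

end Pool.Agent.Lib.MP_1f047c_nt.TA
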