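import Pool.Agent.Lib.MP_1f047c_nt.TAGB

/-! Division with remainder on the curve. -/

open Finset MvPolynomial

namespace Pool.Agent.Lib.MP_1f047c_nt.TA

variable {Ω : Type} [Field Ω] [Algebra ℂ Ω] {F : S} {D : ℕ} (p : Pl Ω F D)

include p in
theorem Pl.div {M : S} {e : ℕ} (hM : M ∈ Vp e) (h : ¬ F ∣ M) (G : S) :
    ∃ h r : S, r ∈ Vp (D * e + D) ∧ F ∣ G - (h * M + r) := by
  obtain ⟨N, hN, hdeg, b, hb⟩ := p.norm M h
  obtain ⟨u, hu, -⟩ := p.rem G
  have h1 : N.natDegree ≤ D * e := by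
    have h2 : ∑ i, -p.o.v (aeval (p.c i) M) ≤ ∑ _i : Fin D, (e : ℚ) := by
      refine sum_le_sum fun i _ => ?_
      have h3 : -(e : ℚ) ≤ p.o.v (aeval (p.c i) M) :=
        CyV.Ord.Ge.le (p.le_of_Vp i hM) fun h0 => h ((p.ker i M).1 h0)
      linarith
    rw [← hdeg, sum_const, card_univ, Fintype.card_fin, nsmul_eq_mul] at h2
    exact_mod_cast h2
  refine ⟨(∑ k, Polynomial.aeval (X 0 : S) (u k / N) * X 1 ^ (k : ℕ)) * b,
    ∑ k, Polynomial.aeval (X 0 : S) (u k % N) * X 1 ^ (k : ℕ), sum_mem fun k _ => ?_, ?_⟩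
  · have h2 : (u k % N).natDegree ≤ D * e :=
      (Polynomial.natDegree_le_natDegree (Polynomial.degree_mod_lt _ hN).le).trans h1
    refine Vp_mono ?_ (Vp_mul (aeval_mem_Vp _ (X_mem_Vp 0) h2) (Vp_pow (X_mem_Vp 1) k))
    have := k.2
    omega
  · have h2 : ∑ k, Polynomial.aeval (X 0 : S) (u k) * X 1 ^ (k : ℕ) =
        (∑ k, Polynomial.aeval (X 0 : S) (u k / N) * X 1 ^ (k : ℕ)) * Polynomial.aeval (X 0 : S) N +
          ∑ k, Polynomial.aeval (X 0 : S) (u k % N) * X 1 ^ (k : ℕ) := by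
      rw [sum_mul, ← sum_add_distrib]
      refine sum_congr rfl fun k _ => ?_
      conv_lhs => rw [← EuclideanDomain.div_add_mod (u k) N, map_add, map_mul]
      ring
    rw [h2] at hu
    have h3 := dvd_add hu (hb.mul_left (∑ k, Polynomial.aeval (X 0 : S) (u k / N) * X 1 ^ (k : ℕ)))
    refine (congrArg (F ∣ ·) ?_).mp h3
    ring

/-- The products over the translates missing a point generate the unit ideal on the curve. -/
theorem unit_ideal (F : S) (W : Finset (ℤ × ℤ)) : ∃ (s : ℕ) (a : Fin s → S)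
    (τ : Fin s → Fin 2 → ℂ), F ∣ 1 - ∑ e, a e * prF F (W \ thr F W (τ e)) := by
  have h : Ideal.span (Set.range fun τ : Fin 2 → ℂ => prF F (W \ thr F W τ)) = ⊤ := by
    by_contra hc
    obtain ⟨m, hm, hle⟩ := Ideal.exists_le_maximal _ hc
    obtain ⟨τ, rfl⟩ := MvPolynomial.isMaximal_iff_eq_vanishingIdeal_singleton.1 hm
    have h1 : prF F (W \ thr F W τ) ∈ vanishingIdeal ℂ {τ} := hle (Ideal.subset_span ⟨τ, rfl⟩)
    rw [MvPolynomial.mem_vanishingIdeal_singleton_iff, prF, map_prod, prod_eq_zero_iff] at h1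
    obtain ⟨w, hw, h2⟩ := h1
    rw [mem_sdiff, thr, mem_filter] at hw
    refine hw.2 ⟨hw.1, ?_⟩
    rw [sub_eq_add_neg, ← eval_tr]
    exact h2
  have h1 : (1 : S) ∈ Submodule.span S (Set.range fun τ : Fin 2 → ℂ => prF F (W \ thr F W τ)) :=
    (Ideal.eq_top_iff_one _).1 h
  obtain ⟨s, a, g, hg⟩ := Submodule.mem_span_set'.1 h1
  choose τ hτ using fun e => (g e).2
  refine ⟨s, a, τ, ?_⟩
  have h2 : ∑ e, a e * prF F (W \ thr F W (τ e)) = 1 := by
    rw [← hg]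
    exact sum_congr rfl fun e _ => by rw [← hτ e, smul_eq_mul]
  rw [h2, sub_self]
  exact dvd_zero F

theorem prF_Vp_lowA (hF : Mon F D) {W V : Finset (ℤ × ℤ)} {e : ℕ} (hW : W.card * D ≤ e)
    (hV : V ⊆ W) : prF F V ∈ Vp e :=
  Vp_mono ((Nat.mul_le_mul_right D (card_le_card hV)).trans hW)
    (Vp_prod V _ fun _ _ => tr_Vp _ (mem_Vp.2 hF.2.1))

include p in
theorem Pl.low (hF : Mon F D) (W : Finset (ℤ × ℤ)) {M1 : S} {e : ℕ} (h1 : M1 ∈ Vp e)
    (hW : W.card * D ≤ e) (h : ¬ F ∣ prF F W * M1) (G : S) :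
    ∃ (h : S) (s : ℕ) (r : Fin s → S) (τ : Fin s → Fin 2 → ℂ),
      (∀ j, r j * prF F (W \ thr F W (τ j)) ∈ Vp (D * (2 * e) + D + e)) ∧
        F ∣ G - (h * (prF F W * M1) + ∑ j, r j * prF F (W \ thr F W (τ j))) := by
  obtain ⟨s, a, τ, hs⟩ := unit_ideal F W
  have hsub : ∀ j, thr F W (τ j) ⊆ W := fun j m hm => by
    rw [thr, mem_filter] at hm
    exact hm.1
  have hpr : ∀ j, prF F W * M1 = prF F (thr F W (τ j)) * M1 * prF F (W \ thr F W (τ j)) := by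
    intro j
    rw [prF, prF, prF, ← prod_sdiff (hsub j)]
    ring
  have hdiv : ∀ j, ∃ h r : S, r ∈ Vp (D * (2 * e) + D) ∧
      F ∣ G * a j - (h * (prF F (thr F W (τ j)) * M1) + r) := fun j =>
    p.div (Vp_mono (by omega) (Vp_mul (prF_Vp_lowA hF hW (hsub j)) h1))
      (fun hd => h (by rw [hpr j]; exact hd.mul_right _)) _
  choose q r hr hq using hdiv
  refine ⟨∑ j, q j, s, r, τ, fun j => Vp_mul (hr j) (prF_Vp_lowA hF hW sdiff_subset), ?_⟩
  have h2 := dvd_add (hs.mul_left G)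
    (dvd_sum fun j (_ : j ∈ univ) => (hq j).mul_right (prF F (W \ thr F W (τ j))))
  refine (congrArg (F ∣ ·) ?_).mp h2
  have h3 : ∑ j, (G * a j - (q j * (prF F (thr F W (τ j)) * M1) + r j)) *
      prF F (W \ thr F W (τ j)) = G * ∑ j, a j * prF F (W \ thr F W (τ j)) -
        ((∑ j, q j) * (prF F W * M1) + ∑ j, r j * prF F (W \ thr F W (τ j))) := by
    rw [mul_sum, sum_mul, ← sum_add_distrib, ← sum_sub_distrib]
    refine sum_congr rfl fun j _ => ?_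
    rw [hpr j]
    ring
  rw [h3]
  ring

end Pool.Agent.Lib.MP_1f047c_nt.TA
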