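import Pool.Agent.Lib.MP_1f047c_nt.TACore

/-! Algebraic relations of bounded degree between two logarithms. -/

open Finset MvPolynomial

namespace Pool.Agent.Lib.MP_1f047c_nt.TA

lemma main_comb {𝕜 : Type} [NormedField 𝕜] [CompleteSpace 𝕜] [CharZero 𝕜] (hG : Good 𝕜)
    {K L : Type} [Field K] [NumberField K] [Field L] [NumberField L] [Algebra K L]
    {φ : K →+* 𝕜} {φ' : L →+* 𝕜} (hφ : ∀ x, φ' (algebraMap K L x) = φ x) {α β : K} {l m : 𝕜}
    {h H δ : ℝ} {κ B : ℕ} (hδ : 0 < δ) (hκ1 : 1 ≤ κ) (hκ : Module.finrank K L ≤ κ)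
    (hα : Height.logHeight₁ α ≤ h) (hβ : Height.logHeight₁ β ≤ h)
    (el : NormedSpace.exp l = φ α) (em : NormedSpace.exp m = φ β) (hH : 4 ≤ H) (hh : δ * h ≤ H)
    (hl : ‖l‖ ≤ Real.exp (-(H + B))) (hm : ‖m‖ ≤ Real.exp (-(H + B)))
    (hind : ∀ a b : ℤ, (a : 𝕜) * l + b * m = 0 → a = 0 ∧ b = 0) (a b : ℤ) {B' : ℕ}
    (hB1 : 1 ≤ B') (hB : B' ≤ B) (hab : |a| + |b| ≤ B') :
    ‖(a : 𝕜) * l + b * m‖ ≤ Real.exp (-H) ∧
      NormedSpace.exp ((a : 𝕜) * l + b * m) = φ' (algebraMap K L (α ^ a * β ^ b)) ∧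
      δ / (κ * B') * Height.logHeight₁ (algebraMap K L (α ^ a * β ^ b)) ≤ H ∧
      (¬ (a = 0 ∧ b = 0) → algebraMap K L (α ^ a * β ^ b) ≠ 1) := by
  have hab' : |(a : ℝ)| + |(b : ℝ)| ≤ B' := by exact_mod_cast hab
  have hB' : (B' : ℝ) ≤ B := by exact_mod_cast hB
  have h0 : 0 ≤ h := (Height.zero_le_logHeight₁ α).trans hα
  have h1 : |(a : ℝ)| * ‖l‖ + |(b : ℝ)| * ‖m‖ ≤ Real.exp (-H) := by
    have e1 : (B : ℝ) ≤ Real.exp B := by linarith [Real.add_one_le_exp (B : ℝ)]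
    have e2 : Real.exp B * Real.exp (-(H + B)) = Real.exp (-H) := by
      rw [← Real.exp_add]; congr 1; ring
    have e3 := Real.exp_pos (-(H + B))
    calc |(a : ℝ)| * ‖l‖ + |(b : ℝ)| * ‖m‖
        ≤ |(a : ℝ)| * Real.exp (-(H + B)) + |(b : ℝ)| * Real.exp (-(H + B)) := by gcongr
      _ = (|(a : ℝ)| + |(b : ℝ)|) * Real.exp (-(H + B)) := by ring
      _ ≤ Real.exp B * Real.exp (-(H + B)) := by gcongr; linarith
      _ = _ := e2
  obtain ⟨h2, h3, h4⟩ := exp_int_comb hG l m a b (h1.trans (core_exp_le hH))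
  have h5 : NormedSpace.exp ((a : 𝕜) * l + b * m) = φ' (algebraMap K L (α ^ a * β ^ b)) := by
    rw [h3, hφ, map_mul, map_zpow₀, map_zpow₀, el, em]
  refine ⟨h2.trans h1, h5, ?_, fun hne e => hne (hind a b (h4 ?_))⟩
  · have hκ' : (Module.finrank K L : ℝ) ≤ κ := by exact_mod_cast hκ
    have hκ1' : (1 : ℝ) ≤ κ := by exact_mod_cast hκ1
    have hB1' : (1 : ℝ) ≤ B' := by exact_mod_cast hB1
    have e1 : Height.logHeight₁ (algebraMap K L (α ^ a * β ^ b)) ≤ κ * (B' * h) := by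
      refine (logHeight_ext _).trans ?_
      have e2 := logHeight_zpow_mul α β a b hα hβ
      have e3 := Height.zero_le_logHeight₁ (α ^ a * β ^ b)
      gcongr
      exact e2.trans (by gcongr)
    calc δ / (κ * B') * Height.logHeight₁ (algebraMap K L (α ^ a * β ^ b))
        ≤ δ / (κ * B') * (κ * (B' * h)) := by gcongr
      _ = δ * h := by field_simp
      _ ≤ H := hh
  · rw [h5, e, map_one]

lemma main_shear {K 𝕜 : Type} [Field K] [Field 𝕜] (φ : K →+* 𝕜) (F : MvPolynomial (Fin 2) K)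
    (γ : ℕ) (c : K) (l m : 𝕜) :
    eval₂ φ ![l - γ * m, m] (C c * aeval ![X 0 + C (γ : K) * X 1, X 1] F) =
      φ c * eval₂ φ ![l, m] F := by
  rw [eval₂_mul, eval₂_C]
  congr 1
  have := eval₂Hom_bind₁ φ ![l - γ * m, m] ![X 0 + C (γ : K) * X 1, X 1] F
  simp only [coe_eval₂Hom] at this
  rw [aeval_eq_bind₁, this]
  congr 1
  funext i
  fin_cases i <;> simp

theorem allDeg (D : ℕ) (δ : ℝ) (hδ : 0 < δ) : ∃ c : ℝ,
    ∀ (𝕜 : Type) [NormedField 𝕜] [CompleteSpace 𝕜] [CharZero 𝕜] [IsAlgClosed 𝕜], Nice 𝕜 →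
    ∀ (K : Type) [Field K] [NumberField K] (φ : K →+* 𝕜) (α β : K) (l m : 𝕜) (h : ℝ),
      Height.logHeight₁ α ≤ h → Height.logHeight₁ β ≤ h → NormedSpace.exp l = φ α →
      NormedSpace.exp m = φ β → ‖l‖ ≤ Real.exp (-(δ * h + c * Module.finrank ℚ K)) →
      ‖m‖ ≤ Real.exp (-(δ * h + c * Module.finrank ℚ K)) →
      (∀ a b : ℤ, (a : 𝕜) * l + b * m = 0 → a = 0 ∧ b = 0) →
      ∀ F : MvPolynomial (Fin 2) K, F ≠ 0 → F.totalDegree ≤ D → eval₂ φ ![l, m] F ≠ 0 := by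
  obtain ⟨κ, hκ1, hκ⟩ := exists_split D
  have hκ1' : (1 : ℝ) ≤ κ := by exact_mod_cast hκ1
  obtain ⟨ρ, c₁, hc₁, core₁⟩ := core (δ / (κ * (D + 1 : ℕ))) (by positivity) D
  set B : ℕ := ρ * (D + 2) + D + 1 with hB
  obtain ⟨ρ₂, c₂, hc₂, core₂⟩ := core (δ / (κ * B)) (by positivity) 2
  refine ⟨(c₁ + c₂) * κ + B, fun 𝕜 _ _ _ _ hN K _ _ φ α β l m h hα hβ el em hl hm hind F hF hD
    heq => ?_⟩
  rcases Nat.eq_zero_or_pos F.totalDegree with h0 | h0
  · rw [totalDegree_eq_zero_iff_eq_C] at h0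
    rw [h0, eval₂_C, map_eq_zero] at heq
    exact hF (by rw [h0, heq, map_zero])
  obtain ⟨γ, c, hγ, hc, hM⟩ := exists_shear h0
  obtain ⟨L, _, _, _, hL, hs⟩ := hκ K _ _ hD hM
  let _ : Algebra K 𝕜 := φ.toAlgebra
  have : Module.Finite K L := Module.Finite.of_restrictScalars_finite ℚ K L
  set φ' : L →+* 𝕜 := (IsAlgClosed.lift : L →ₐ[K] 𝕜).toRingHom with hφ'
  have hφ : ∀ x, φ' (algebraMap K L x) = φ x := fun x => (IsAlgClosed.lift : L →ₐ[K] 𝕜).commutes x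
  obtain ⟨ι⟩ : Nonempty (L →+* ℂ) := inferInstance
  have hP := main_shear φ F γ c l m
  rw [heq, mul_zero, ← show φ'.comp (algebraMap K L) = φ from RingHom.ext hφ, ← eval₂_map] at hP
  obtain ⟨G, D', hD', hG, hirr, hsG, hPG⟩ := exists_factor φ' ι (hM.map _) hs _ hP
  set d := Module.finrank ℚ K with hd
  have hd1 : (1 : ℝ) ≤ d := by exact_mod_cast Module.finrank_pos
  have hdL : (Module.finrank ℚ L : ℝ) ≤ κ * d := by
    rw [← Module.finrank_mul_finrank ℚ K L, mul_comm]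
    exact_mod_cast Nat.mul_le_mul_right _ hL
  have hh : 0 ≤ δ * h := mul_nonneg hδ.le ((Height.zero_le_logHeight₁ α).trans hα)
  set H : ℝ := δ * h + ((c₁ + c₂) * κ + B) * d - B with hH
  have hκd : (1 : ℝ) ≤ κ * d := one_le_mul_of_one_le_of_one_le hκ1' hd1
  have hBd : (B : ℝ) ≤ B * d := le_mul_of_one_le_right (by positivity) hd1
  have hH0 : δ * h + c₁ * (κ * d) + c₂ * (κ * d) ≤ H := by rw [hH]; nlinarith
  have e1 : 4 ≤ c₁ * (κ * d) := by nlinarith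
  have e2 : 4 ≤ c₂ * (κ * d) := by nlinarith
  have e3 : c₁ * Module.finrank ℚ L ≤ c₁ * (κ * d) := by gcongr
  have e4 : c₂ * Module.finrank ℚ L ≤ c₂ * (κ * d) := by gcongr
  have hHB : H + B = δ * h + ((c₁ + c₂) * κ + B) * d := by rw [hH]; ring
  have comb := fun (a b : ℤ) (B' : ℕ) => main_comb (H := H) (B := B) hN.good hφ hδ hκ1 hL hα hβ el
    em (by linarith) (by linarith) (by rwa [hHB]) (by rwa [hHB]) hind a b (B' := B')
  have hγD : γ ≤ D := hγ.trans hD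
  by_cases hNL : NL (MvPolynomial.map ι G) ρ
  · obtain ⟨a1, a2, a3, -⟩ := comb 1 (-γ) (D + 1) (by omega) (by omega)
      (by rw [abs_neg, abs_one, Nat.abs_cast]; push_cast; omega)
    obtain ⟨b1, b2, b3, b4⟩ := comb 0 1 (D + 1) (by omega) (by omega)
      (by rw [abs_zero, abs_one]; push_cast; omega)
    refine core₁ 𝕜 hN L φ' ι _ _ _ _ H G D' (hD'.trans hD) hG hirr hNL (Or.inr (b4 (by simp))) a2
      b2 a3 b3 (by linarith) a1 b1 ?_
    simpa [sub_eq_add_neg] using hPG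
  · unfold NL at hNL
    push Not at hNL
    obtain ⟨θ, hθ, hS, hθ'⟩ := hNL
    obtain ⟨h1, κ', hκ'⟩ := line_case φ' ι hG hsG hθ hθ' _ hPG
    obtain ⟨a1, a2, a3, a4⟩ := comb (-θ.2) (θ.1 + γ * θ.2) B (by omega) le_rfl (by
      have f1 : |θ.1 + γ * θ.2| ≤ |θ.1| + γ * |θ.2| := by
        refine (abs_add_le _ _).trans ?_
        rw [abs_mul, Nat.abs_cast]
      have f2 : (γ : ℤ) * |θ.2| ≤ D * ρ :=
        mul_le_mul (by exact_mod_cast hγD) hS.2 (abs_nonneg _) (by positivity)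
      rw [abs_neg, hB]
      push_cast
      nlinarith [hS.1, hS.2])
    refine core₂ 𝕜 hN L φ' ι _ 1 _ 0 H _ 2 le_rfl (parab_mon κ') (by simpa using parab_irr (ι κ'))
      (by simpa using parab_nl (ι κ') ρ₂) (Or.inl (a4 fun e => h1 ?_)) a2 (by simp) a3
      (by simp; linarith) (by linarith) a1 (by simpa using (Real.exp_pos _).le) ?_
    · have f1 : θ.2 = 0 := by omega
      simpa [f1] using e.2
    · simp only [Matrix.cons_val_one, Matrix.cons_val_zero] at hκ'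
      simp only [eval₂_add, eval₂_sub, eval₂_pow, eval₂_X, eval₂_C, Matrix.cons_val_one,
        Matrix.cons_val_zero, ← hκ']
      push_cast
      ring

end Pool.Agent.Lib.MP_1f047c_nt.TA
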