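import Pool.Agent.Lib.MP_1f047c_nt.TANeuA
import Pool.Agent.Lib.MP_1f047c_nt.TAUU

/-! The homogeneous uniqueness theorem and the zero estimate. -/

open Finset MvPolynomial

namespace Pool.Agent.Lib.MP_1f047c_nt.TA

open PL (wm)

/-- A polynomial which is an eigenvector of a translation with eigenvalue other than one vanishes
at the origin. -/
lemma neu_shift (P : S) (e : Fin 2 → ℂ) (γ : ℂ) (hγ : γ ≠ 1)
    (h : ∀ x, eval (x + e) P = γ * eval x P) : eval 0 P = 0 := by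
  set p : Polynomial ℂ := aeval (fun j => Polynomial.C (e j) * Polynomial.X) P with hp
  have hev : ∀ t : ℂ, p.eval t = eval (t • e) P := by
    intro t
    rw [hp]
    clear hp h p
    induction P using MvPolynomial.induction_on with
    | C a => simp
    | add p q hp hq => simp only [map_add, Polynomial.eval_add, hp, hq]
    | mul_X p k hp =>
      simp only [map_mul, Polynomial.eval_mul, hp, aeval_X, eval_X, Polynomial.eval_C,
        Polynomial.eval_X, Pi.smul_apply, smul_eq_mul]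
      ring
  have h1 : Polynomial.taylor 1 p = Polynomial.C γ * p := by
    refine Polynomial.funext fun t => ?_
    rw [Polynomial.taylor_eval, Polynomial.eval_mul, Polynomial.eval_C, hev, hev, add_smul,
      one_smul, h]
  have h2 : p.leadingCoeff = γ * p.leadingCoeff := by
    have h3 := congrArg Polynomial.leadingCoeff h1
    rwa [Polynomial.leadingCoeff_taylor, Polynomial.leadingCoeff_mul,
      Polynomial.leadingCoeff_C] at h3
  have h4 : p = 0 := by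
    rw [← Polynomial.leadingCoeff_eq_zero]
    have h5 : (1 - γ) * p.leadingCoeff = 0 := by rw [sub_mul, one_mul, ← h2, sub_self]
    exact (mul_eq_zero.1 h5).resolve_left (sub_ne_zero.2 hγ.symm)
  have h6 := hev 0
  rw [h4, zero_smul] at h6
  simpa using h6.symm

lemma neu_cz_add (m m' : ℤ × ℤ) : cz m + cz m' = cz (m + m') := by
  funext j
  fin_cases j <;> simp [cz]

/-- The difference of two translates solves the homogeneous problem. -/
lemma neu_adm {F : S} {E C₁ n n' : ℕ} (Λ : S →ₗ[ℂ] S) (h1 : ∀ h, Λ (F * h) = 0)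
    (h2 : ∀ G, Λ G ∈ Vp (C₁ * n')) (u v α β : ℂ)
    (h3 : ∀ a ≤ n, ∀ b ≤ n, ∀ i ≤ E, ∀ j ≤ E,
      eval (cz ((a : ℕ), (b : ℕ))) (UU E Λ (X 0 ^ i * X 1 ^ j)) = u ^ i * α ^ a * (v ^ j * β ^ b))
    (hn : 3 * n' + 1 ≤ n) (d₁ d₂ : ℕ) (hd₁ : d₁ ≤ 1) (hd₂ : d₂ ≤ 1) :
    Adm F E C₁ n' ((tr (cz (n' + d₁, n' + d₂))).toLinearMap ∘ₗ Λ +
      (-(α ^ d₁ * β ^ d₂)) • ((tr (cz (n', n'))).toLinearMap ∘ₗ Λ)) := by
  refine ⟨fun h => ?_, fun G => ?_, fun H hH a ha => ?_⟩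
  · simp [h1]
  · exact Submodule.add_mem _ (tr_Vp _ (h2 G)) (Submodule.smul_mem _ _ (tr_Vp _ (h2 G)))
  · have key : Vp E ≤ LinearMap.ker ((aeval (R := ℂ) (cz a)).toLinearMap ∘ₗ
        UU E ((tr (cz (n' + d₁, n' + d₂))).toLinearMap ∘ₗ Λ +
          (-(α ^ d₁ * β ^ d₂)) • ((tr (cz (n', n'))).toLinearMap ∘ₗ Λ))) := by
      refine Vp_le fun i j hij => ?_
      rw [LinearMap.mem_ker, LinearMap.comp_apply, AlgHom.toLinearMap_apply, aeval_eq_eval,
        UU_add, UU_smul, LinearMap.add_apply, LinearMap.smul_apply, UU_tr, UU_tr, map_add,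
        smul_eval, eval_tr, eval_tr, neu_cz_add, neu_cz_add]
      obtain ⟨a₁, a₂⟩ := a
      simp only [latX, mem_product, mem_Icc] at ha
      obtain ⟨p, hp⟩ : ∃ p : ℕ, a₁ + n' = p := ⟨(a₁ + n').toNat, by omega⟩
      obtain ⟨q, hq⟩ : ∃ q : ℕ, a₂ + n' = q := ⟨(a₂ + n').toNat, by omega⟩
      have e1 : ((a₁, a₂) + ((n' : ℤ) + d₁, (n' : ℤ) + d₂) : ℤ × ℤ) =
          (((p + d₁ : ℕ) : ℤ), ((q + d₂ : ℕ) : ℤ)) := by
        rw [Prod.mk_add_mk, Prod.mk.injEq]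
        constructor <;> omega
      have e2 : ((a₁, a₂) + ((n' : ℤ), (n' : ℤ)) : ℤ × ℤ) = ((p : ℤ), (q : ℤ)) := by
        rw [Prod.mk_add_mk, hp, hq]
      rw [e1, e2, h3 _ (by omega) _ (by omega) i (by omega) j (by omega),
        h3 _ (by omega) _ (by omega) i (by omega) j (by omega)]
      ring
    have h4 := key hH
    rwa [LinearMap.mem_ker, LinearMap.comp_apply, AlgHom.toLinearMap_apply, aeval_eq_eval] at h4

theorem zf_of_cd {F : S} {ρ R J E C₀ K : ℕ} (cd : CD F ρ R J E) (hp : Par (12 * C₀) ρ R J K) :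
    ∃ n₀ : ℕ, ∀ n, n₀ ≤ n → ∀ (ι : Type) (ψ : ι → S →ₗ[ℂ] ℂ), (∀ e h, ψ e (F * h) = 0) →
      ∀ u v α β : ℂ, α ≠ 1 ∨ β ≠ 1 →
        ZF (fun e i j => ψ e (X 0 ^ i * X 1 ^ j)) u v α β (C₀ * n) (C₀ * n) E n n := by
  obtain ⟨n₀, hn₀⟩ := neumann cd hp
  refine ⟨3 * n₀ + 4, fun n hn ι ψ hψ u v α β hαβ t pt D D' hD hD' hrow => ?_⟩
  obtain ⟨n', hn1, hn2, hn3⟩ : ∃ n' : ℕ, 3 * n' + 1 ≤ n ∧ n ≤ 6 * n' ∧ n₀ ≤ n' :=
    ⟨(n - 1) / 3, by omega, by omega, by omega⟩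
  set Λ : S →ₗ[ℂ] S := ∑ e, (ψ (pt e)).smulRight
    (Polynomial.aeval (X 0 : S) (D e) * Polynomial.aeval (X 1 : S) (D' e)) with hΛ
  have h1 : ∀ h, Λ (F * h) = 0 := by
    intro h
    rw [hΛ, LinearMap.sum_apply]
    refine Finset.sum_eq_zero fun e _ => ?_
    rw [LinearMap.smulRight_apply, hψ, zero_smul]
  have h2 : ∀ G, Λ G ∈ Vp (12 * C₀ * n') := by
    intro G
    rw [hΛ, LinearMap.sum_apply]
    refine Submodule.sum_mem _ fun e _ => ?_
    rw [LinearMap.smulRight_apply]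
    refine Submodule.smul_mem _ _ (Vp_mono ?_ (Vp_mul
      (aeval_mem_Vp _ (X_mem_Vp 0) (Polynomial.natDegree_le_of_degree_le (hD e).le))
      (aeval_mem_Vp _ (X_mem_Vp 1) (Polynomial.natDegree_le_of_degree_le (hD' e).le))))
    have h := Nat.mul_le_mul_left C₀ hn2
    calc C₀ * n + C₀ * n ≤ C₀ * (6 * n') + C₀ * (6 * n') := Nat.add_le_add h h
      _ = 12 * C₀ * n' := by ring
  have h3 : ∀ a ≤ n, ∀ b ≤ n, ∀ i ≤ E, ∀ j ≤ E,
      eval (cz ((a : ℕ), (b : ℕ))) (UU E Λ (X 0 ^ i * X 1 ^ j)) =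
        u ^ i * α ^ a * (v ^ j * β ^ b) := by
    intro a ha b hb i hi j hj
    rw [← hrow a ha b hb i hi j hj, hΛ, UU_sum, LinearMap.sum_apply, map_sum]
    exact Finset.sum_congr rfl fun e _ => UU_row E _ _ _ a b i j hi hj
  obtain ⟨d₁, d₂, hd₁, hd₂, hγ⟩ : ∃ d₁ d₂ : ℕ, d₁ ≤ 1 ∧ d₂ ≤ 1 ∧ α ^ d₁ * β ^ d₂ ≠ 1 := by
    rcases hαβ with h | h
    · exact ⟨1, 0, le_rfl, zero_le_one, by simpa using h⟩
    · exact ⟨0, 1, zero_le_one, le_rfl, by simpa using h⟩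
  have h4 := hn₀ n' hn3 _ (neu_adm Λ h1 h2 u v α β h3 hn1 d₁ d₂ hd₁ hd₂)
  rw [LinearMap.add_apply, LinearMap.smul_apply, LinearMap.comp_apply, LinearMap.comp_apply,
    AlgHom.toLinearMap_apply, AlgHom.toLinearMap_apply] at h4
  have h5 : eval 0 (Λ 1) = 0 := by
    refine neu_shift (Λ 1) (cz (d₁, d₂)) _ hγ fun x => ?_
    have h6 := congrArg (eval (x - cz (n', n'))) h4
    rw [map_add, smul_eval, eval_tr, eval_tr, map_zero, sub_add_cancel, ← Prod.mk_add_mk,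
      ← neu_cz_add, ← add_assoc, sub_add_cancel] at h6
    linear_combination h6
  have h7 := h3 0 (Nat.zero_le _) 0 (Nat.zero_le _) 0 (Nat.zero_le _) 0 (Nat.zero_le _)
  have h8 : cz (((0 : ℕ) : ℤ), ((0 : ℕ) : ℤ)) = 0 := by
    funext j
    fin_cases j <;> simp [cz]
  rw [pow_zero, pow_zero, mul_one, UU_one, h8, h5] at h7
  simp at h7

lemma neu_rowF_map {K L : Type} [Field K] [Field L] (φ : K →+* L) (ψ : ℕ → ℕ → K)
    (D D' : Polynomial K) (a i b j : ℕ) :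
    rowF (fun i j => φ (ψ i j)) (D.map φ) (D'.map φ) a i b j = φ (rowF ψ D D' a i b j) := by
  simp only [rowF, map_sum, map_mul, map_natCast, Polynomial.iterate_derivative_map,
    Polynomial.eval_natCast_map]

lemma zf_map {K L ι : Type} [Field K] [Field L] (φ : K →+* L) (ψ : ι → ℕ → ℕ → K)
    {u v α β : K} {ν₁ ν₂ E n₁ n₂ : ℕ}
    (h : ZF (fun e i j => φ (ψ e i j)) (φ u) (φ v) (φ α) (φ β) ν₁ ν₂ E n₁ n₂) :
    ZF ψ u v α β ν₁ ν₂ E n₁ n₂ := by
  intro t pt D D' hD hD' hrow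
  refine h t pt (fun e => (D e).map φ) (fun e => (D' e).map φ)
    (fun e => Polynomial.degree_map_le.trans_lt (hD e))
    (fun e => Polynomial.degree_map_le.trans_lt (hD' e)) fun a ha b hb i hi j hj => ?_
  have h1 := congrArg φ (hrow a ha b hb i hi j hj)
  rw [map_sum, map_mul, map_mul, map_mul, map_pow, map_pow, map_pow, map_pow] at h1
  rw [← h1]
  exact Finset.sum_congr rfl fun e _ => neu_rowF_map φ _ _ _ a i b j

end Pool.Agent.Lib.MP_1f047c_nt.TA
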