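import Pool.Agent.Lib.MP_1f047c_nt.TAStepT

/-! The estimate on the middle space. -/

open Finset MvPolynomial

namespace Pool.Agent.Lib.MP_1f047c_nt.TA

open PL (wm)

lemma stepN_log {ρ R : ℕ} (hρ : 1 ≤ ρ) (hR : 1 ≤ R) : (1 : ℝ) ≤ 20 * ρ * R := by
  have h1 : (1 : ℝ) ≤ ρ := by exact_mod_cast hρ
  have h2 : (1 : ℝ) ≤ R := by exact_mod_cast hR
  nlinarith

lemma stepN_par {C₁ ρ R J K : ℕ} (hp : Par C₁ ρ R J K) : J * (C₁ + 1) + 1 ≤ K := by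
  obtain ⟨h1, h2, h3, h4⟩ := hp
  have h5 := Real.log_nonneg (stepN_log h2 (R := R) (by omega))
  have h6 : (1 : ℝ) ≤ C₁ := by exact_mod_cast h1
  have h7 : (0 : ℝ) ≤ J := Nat.cast_nonneg _
  have h8 : ((J * (C₁ + 1) + 1 : ℕ) : ℝ) ≤ K := by
    unfold aa at h4
    push_cast
    have h9 : (0 : ℝ) ≤ 1000 * ρ ^ 2 * C₁ ^ 2 := by positivity
    have h10 : (0 : ℝ) ≤ J * C₁ * Real.log (20 * ρ * R) := by positivity
    have h11 : (J : ℝ) ≤ J * C₁ := le_mul_of_one_le_right h7 h6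
    nlinarith
  exact_mod_cast h8

lemma stepN_exp5 : (81 : ℝ) ≤ Real.exp 5 := by
  have h1 : Real.exp 5 = Real.exp 1 ^ 5 := by
    rw [← Real.exp_nat_mul]; norm_num
  rw [h1]
  exact le_trans (by norm_num) (pow_le_pow_left₀ (by norm_num) Real.exp_one_gt_d9.le 5)

lemma stepN_exp9 : (1 / 10000 : ℝ) ≤ Real.exp (-9) := by
  have h1 : Real.exp 9 = Real.exp 1 ^ 9 := by
    rw [← Real.exp_nat_mul]; norm_num
  have h2 : Real.exp 9 ≤ 10000 := by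
    rw [h1]
    exact le_trans (pow_le_pow_left₀ (Real.exp_pos _).le Real.exp_one_lt_d9.le 9) (by norm_num)
  rw [Real.exp_neg, one_div]
  exact inv_anti₀ (Real.exp_pos _) h2

/-- The numerical inequality. -/
lemma stepN_num {C₁ ρ R J K E n L k : ℕ} (hp : Par C₁ ρ R J K) (hn : 1 ≤ n) (hL : L ≤ J)
    (hk : k + L * ((C₁ + 1) * n) = K * n) (hE : E ≤ k) :
    ((n : ℝ) + 1) ^ 3 * Real.exp (2 * n) * ((n : ℝ) ^ (4 * (K * n)) *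
      (Real.exp ((62 * ((C₁ + 1 : ℕ) : ℝ) ^ 2 + 8) * n) * (9 / n ^ 2) ^ (K * n)) ^ 2) *
      (20 * ρ * R : ℝ) ^ (L * ((C₁ + 1) * n)) * ((4 * K + 2 + 2) / R : ℝ) ^ (k - E) *
      (2 * ρ : ℝ) ^ (C₁ * n) ≤ Real.exp (9 * E) * Real.exp ((aa C₁ ρ R J - 4 * K) * n) := by
  obtain ⟨h1, h2, h3, -⟩ := hp
  have hn0 : (0 : ℝ) < n := by exact_mod_cast hn
  have hC : (1 : ℝ) ≤ C₁ := by exact_mod_cast h1
  have hρ : (1 : ℝ) ≤ ρ := by exact_mod_cast h2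
  have hl := stepN_log h2 (R := R) (by omega)
  have hl0 := Real.log_nonneg hl
  have e1 : ((n : ℝ) + 1) ^ 3 ≤ Real.exp (3 * n) := by
    rw [show (3 : ℝ) * n = (3 : ℕ) * n by norm_num, Real.exp_nat_mul]
    exact pow_le_pow_left₀ (by positivity) (Real.add_one_le_exp _) 3
  have e2 : (n : ℝ) ^ (4 * (K * n)) *
      (Real.exp ((62 * ((C₁ + 1 : ℕ) : ℝ) ^ 2 + 8) * n) * (9 / n ^ 2) ^ (K * n)) ^ 2 ≤
      Real.exp (2 * ((62 * ((C₁ + 1 : ℕ) : ℝ) ^ 2 + 8) * n)) * Real.exp ((K * n : ℕ) * 5) := by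
    have h5 : (n : ℝ) ^ (4 * (K * n)) * ((9 / n ^ 2) ^ (K * n)) ^ 2 = 81 ^ (K * n) := by
      rw [← pow_mul, mul_comm (K * n) 2, pow_mul, pow_mul (9 / (n : ℝ) ^ 2), ← mul_pow]
      congr 1
      field_simp
      norm_num
    rw [mul_pow, mul_left_comm, h5, ← Real.exp_nat_mul, Real.exp_nat_mul 5]
    exact mul_le_mul_of_nonneg_left (pow_le_pow_left₀ (by norm_num) stepN_exp5 _)
      (Real.exp_pos _).le
  have e3 : (20 * ρ * R : ℝ) ^ (L * ((C₁ + 1) * n)) =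
      Real.exp ((L * ((C₁ + 1) * n) : ℕ) * Real.log (20 * ρ * R)) := by
    rw [Real.exp_nat_mul, Real.exp_log (by linarith)]
  have e4 : ((4 * K + 2 + 2) / R : ℝ) ^ (k - E) ≤ Real.exp ((k - E : ℕ) * (-9)) := by
    rw [Real.exp_nat_mul]
    refine pow_le_pow_left₀ (by positivity) (le_trans ?_ stepN_exp9) _
    have h5 : ((40000 * (K + 1) : ℕ) : ℝ) ≤ R := by exact_mod_cast h3
    push_cast at h5
    have h6 : (0 : ℝ) ≤ K := Nat.cast_nonneg _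
    rw [div_le_iff₀ (by linarith)]
    linarith
  have e5 : (2 * ρ : ℝ) ^ (C₁ * n) ≤ Real.exp ((C₁ * n : ℕ) * (2 * ρ)) := by
    rw [Real.exp_nat_mul]
    exact pow_le_pow_left₀ (by positivity) (by linarith [Real.add_one_le_exp (2 * ρ : ℝ)]) _
  rw [e3]
  refine le_trans (mul_le_mul (mul_le_mul (mul_le_mul_of_nonneg_right (mul_le_mul
    (mul_le_mul_of_nonneg_right e1 (by positivity)) e2 (by positivity) (by positivity))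
    (by positivity)) e4 (by positivity) (by positivity)) e5 (by positivity) (by positivity)) ?_
  simp only [← Real.exp_add]
  apply Real.exp_le_exp.2
  have hk' : (k : ℝ) = K * n - L * ((C₁ + 1) * n) := by
    have : ((k + L * ((C₁ + 1) * n) : ℕ) : ℝ) = (K * n : ℕ) := by rw [hk]
    push_cast at this
    linarith
  have hL' : (L : ℝ) ≤ J := by exact_mod_cast hL
  have hL0 : (0 : ℝ) ≤ L := Nat.cast_nonneg _
  rw [Nat.cast_sub hE, hk']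
  push_cast
  unfold aa
  have a1 : (L : ℝ) * (C₁ + 1) ≤ 2 * J * C₁ := by nlinarith
  have a2 : (L : ℝ) * (C₁ + 1) * (Real.log (20 * ρ * R) + 9) ≤
      2 * J * C₁ * (Real.log (20 * ρ * R) + 9) := mul_le_mul_of_nonneg_right a1 (by linarith)
  have a3 : (C₁ : ℝ) ^ 2 ≤ ρ ^ 2 * C₁ ^ 2 := le_mul_of_one_le_left (by positivity) (by nlinarith)
  have a4 : (C₁ : ℝ) * ρ ≤ ρ ^ 2 * C₁ ^ 2 := by
    have : (1 : ℝ) ≤ C₁ * ρ := by nlinarith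
    nlinarith
  have a5 : 5 + 2 * (62 * ((C₁ : ℝ) + 1) ^ 2 + 8) + L * (C₁ + 1) * (Real.log (20 * ρ * R) + 9) +
      C₁ * (2 * ρ) ≤ 1000 * ρ ^ 2 * C₁ ^ 2 + 2 * J * C₁ * (Real.log (20 * ρ * R) + 9) + 30 := by
    nlinarith
  nlinarith [mul_le_mul_of_nonneg_right a5 hn0.le]

/-- The sum over the window. -/
lemma stepN_win {F : S} {ρ R J E : ℕ} (cd : CD F ρ R J E) {G : S} (hG : G ∈ cd.P)
    {𝓛 : Finset ((ℤ × ℤ) × ℤ)} (h1 : ∀ l ∈ 𝓛, l.2 ≠ 0)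
    (h2 : ∀ m ∈ box R, m ≠ 0 → (∀ l ∈ 𝓛, dotZ l.1 m ≠ l.2) → F ∣ tr (wv m) G)
    (h3 : ∀ τ, ∀ k : ℤ, |k| ≤ 2 * ρ * R → (perp (cd.θ τ), k) ∉ 𝓛 →
      ∀ ξ, dotC (cz (perp (cd.θ τ))) ξ = wm k → tr ξ G ∈ cd.M τ)
    {n ν d κ : ℕ} (hd : d < ν) (hκ : 𝓛.card * ν ≤ κ) {Λ : S →ₗ[ℂ] S} (hF : ∀ h, Λ (F * h) = 0)
    (hΛ : ∀ H, Λ H ∈ Vp d) {Q : S} (hQ : Q = act (adj 0 (symb 𝓛 ν)) (Λ G)) :
    ∑ m ∈ box R, I2 n m (act (symb 𝓛 ν) (qq n ^ κ * cj2 Q) * Λ (cd.pi0 (tr (wv m) G))) =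
      ((nq2 n κ Q ^ 2 : ℝ) : ℂ) := by
  have hdv : qq n ^ (𝓛.card * ν) ∣ qq n ^ κ * cj2 Q := (pow_dvd_pow _ hκ).mul_right _
  have hpi : ∀ m ∈ box R, (∀ l ∈ 𝓛, dotZ l.1 m ≠ l.2) →
      cd.pi0 (tr (wv m) G) = tr (wv m) G := by
    intro m hm hl
    have h4 : ∀ τ, cd.rho τ (tr (wv m) G) = 0 := fun τ => by
      have h5 : Sml ρ (perp (cd.θ τ)) := ⟨by
        simpa [perp] using (cd.θ_sml τ).2, (cd.θ_sml τ).1⟩
      exact cd.rho_zero τ _ (cd.tr_P _ hG)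
        (h3 τ _ (abs_dotZ h5 hm) (fun h => hl _ h rfl) _ (dotC_wv _ _))
    simp [CD.pi0, h4]
  have h0 : (0 : ℤ × ℤ) ∈ box R := by simp [box]
  rw [sum_eq_single_of_mem 0 h0]
  · rw [hpi 0 h0 fun l hl h => h1 l hl (by simpa [dotZ] using h.symm),
      I2_adj n 0 (symb_Vp 𝓛 ν) hdv, wv_zero, tr_zero, ← hQ, I2_nq]
  · intro m hm hm0
    by_cases hl : ∃ l ∈ 𝓛, dotZ l.1 m = l.2
    · rw [I2_adj n m (symb_Vp 𝓛 ν) hdv, act_adj_symb hd hl (hΛ _), mul_zero, I2_zero]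
    · have hl' : ∀ l ∈ 𝓛, dotZ l.1 m ≠ l.2 := fun l h h' => hl ⟨l, h, h'⟩
      obtain ⟨h, hh⟩ := h2 m hm hm0 hl'
      rw [hpi m hm hl', hh, hF, mul_zero, I2_zero]

/-- The estimate for one good polynomial. -/
lemma stepN_one {F : S} {ρ R J E C₁ K : ℕ} (cd : CD F ρ R J E) (hp : Par C₁ ρ R J K) {r r' : ℕ}
    (bP : Fin r → S) (bM : Fin r' → S) (hP : Submodule.span ℂ (Set.range bP) = cd.P)
    (hM : Submodule.span ℂ (Set.range bM) = cd.Mid) {G : S} (hG : G ∈ cd.P)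
    {𝓛 : Finset ((ℤ × ℤ) × ℤ)} (hJ : 𝓛.card ≤ J)
    (h1 : ∀ l ∈ 𝓛, Sml ρ l.1 ∧ l.2 ≠ 0 ∧ |l.2| ≤ 2 * ρ * R)
    (h2 : ∀ m ∈ box R, m ≠ 0 → (∀ l ∈ 𝓛, dotZ l.1 m ≠ l.2) → F ∣ tr (wv m) G)
    (h3 : ∀ τ, ∀ k : ℤ, |k| ≤ 2 * ρ * R → (perp (cd.θ τ), k) ∉ 𝓛 →
      ∀ ξ, dotC (cz (perp (cd.θ τ))) ξ = wm k → tr ξ G ∈ cd.M τ) :
    ∃ c : ℝ, 0 ≤ c ∧ ∀ n, 2 * E + 2 ≤ n →
      ∀ (Λ : S →ₗ[ℂ] S) (N V : ℝ), 0 ≤ N → 0 ≤ V → Adm F E C₁ n Λ → NB n Λ bM N →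
        VB cd n Λ bP V →
          Bd2 (sqX n) (Λ G) (c * Real.exp ((aa C₁ ρ R J - 4 * K) * n) * (N + V)) 2 := by
  have hR1 : 1 ≤ R := by have := hp.2.2.1; omega
  have hGE : G ∈ Vp E := cd.P_le hG
  obtain ⟨c₀, hc₀, hU⟩ := poisU E R hR1
  obtain ⟨c₁, hc₁, hD⟩ := exists_dom bM
    (fun i : Fin (E + 1) × Fin (E + 1) => cd.pi0 ((dv e1 ^ (i.2 : ℕ) * dv e0 ^ (i.1 : ℕ)) G))
    fun i => hM ▸ cd.pi0_mem (dv_pow_mem (cd.P_dv e1) _ (dv_pow_mem (cd.P_dv e0) _ hG))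
  choose c hc hT using fun τ => topN cd hp.2.1 hR1 bP hP τ hG 𝓛 (h3 τ)
  have hcs : 0 ≤ ∑ τ, c τ := sum_nonneg fun τ _ => hc τ
  refine ⟨(c₀ * c₁ + ∑ τ, c τ) * Real.exp (9 * E), by positivity, ?_⟩
  intro n hn Λ N V hN hV hA hNB hVB
  have hn1 : 1 ≤ n := by omega
  have hn0 : (0 : ℝ) < n := by exact_mod_cast hn1
  have hd : C₁ * n < (C₁ + 1) * n := by rw [add_mul]; omega
  obtain ⟨k, hk, hkE⟩ : ∃ k, k + 𝓛.card * ((C₁ + 1) * n) = K * n ∧ 2 * E + 2 ≤ k := by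
    have h4 := Nat.mul_le_mul_right n (stepN_par hp)
    have h5 : 𝓛.card * ((C₁ + 1) * n) ≤ J * ((C₁ + 1) * n) := Nat.mul_le_mul_right _ hJ
    rw [add_mul, one_mul, mul_assoc] at h4
    exact ⟨K * n - 𝓛.card * ((C₁ + 1) * n), by omega, by omega⟩
  set ν := (C₁ + 1) * n with hν
  set Q := act (adj 0 (symb 𝓛 ν)) (Λ G) with hQ
  set B := Real.exp ((62 * ((C₁ + 1 : ℕ) : ℝ) ^ 2 + 8) * n) * (9 / n ^ 2) ^ (K * n) with hB
  set q := nq2 n (K * n) Q with hq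
  have hq0 : 0 ≤ q := nq2_nonneg _ _ _
  have hB0 : 0 ≤ B := by positivity
  have hK0 : (0 : ℝ) ≤ K := Nat.cast_nonneg _
  have hRK : (40000 * (K + 1) : ℝ) ≤ R := by exact_mod_cast hp.2.2.1
  have b1 : Bd2 (sqX n) Q (B * q) 2 :=
    growth2 (C₀ := C₁ + 1) (by omega) hn1 (K * n) hd (act_Vp _ (hA.2.1 G))
  have b2 : Bd2 (sqB n) (qq n ^ (K * n) * cj2 Q) ((n : ℝ) ^ (4 * (K * n)) * (B * q))
      (4 * K + 2) := by
    have h4 := (bd2_qq hn1 (K * n)).mul (b1.subset (sqB_subset n)).cj (by positivity)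
      (by positivity) (by positivity) (by norm_num)
    have h5 : (4 * (K * n : ℕ) / n : ℝ) = 4 * K := by
      push_cast
      field_simp
    rwa [h5] at h4
  set φ := act (symb 𝓛 ν) (qq n ^ (K * n) * cj2 Q) with hφ
  set A := (n : ℝ) ^ (4 * (K * n)) * (B * q) * (20 * ρ * R) ^ (𝓛.card * ν) with hA'
  have hA0 : 0 ≤ A := by positivity
  have b3 : Bd2 (sqB n) φ A (4 * K + 2) := by
    refine b2.symb (by positivity) (by positivity) 𝓛 ν (ρ := ρ) fun l hl => ⟨(h1 l hl).1, ?_⟩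
    have h4 : |(l.2 : ℝ)| ≤ 2 * ρ * R := by exact_mod_cast (h1 l hl).2.2
    have h5 : (0 : ℝ) ≤ ρ := Nat.cast_nonneg _
    have h6 : Real.pi * |(l.2 : ℝ)| ≤ 4 * (2 * ρ * R) :=
      mul_le_mul Real.pi_le_four h4 (abs_nonneg _) (by norm_num)
    have h7 : (ρ : ℝ) * (4 * K + 2) ≤ ρ * R := mul_le_mul_of_nonneg_left (by linarith) h5
    have h8 : (0 : ℝ) ≤ ρ * R := by positivity
    rw [norm_wm]
    linarith
  have hdv0 : qq n ^ (k + 𝓛.card * ν) ∣ qq n ^ (K * n) * cj2 Q := hk ▸ dvd_mul_right _ _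
  have hdv : qq n ^ k ∣ φ := act_dvd (symb_Vp 𝓛 ν) _ _ hdv0
  have s1 := hU n k (LinearMap.mulLeft ℂ φ ∘ₗ (Λ ∘ₗ cd.pi0)) G (A * (c₁ * N)) (4 * K + 2 + 2) hGE
    hkE (by positivity) (by positivity) (by linarith) fun e he f hf =>
      ⟨hdv.mul_right _, b3.mul
        (((hD (⟨e, by omega⟩, ⟨f, by omega⟩)).bd2 Λ hN (by norm_num) hNB).subset (sqB_subset n))
        hA0 (by positivity) (by positivity) (by norm_num)⟩
  have s2 := fun τ => hT τ n ν (C₁ * n) k Λ _ A (4 * K + 2) V hd hA.2.1 hkE hdv0 hA0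
    (by linarith) (by linarith) hV b3 hVB
  have s3 : ∑ m ∈ box R, I2 n m ((LinearMap.mulLeft ℂ φ ∘ₗ (Λ ∘ₗ cd.pi0)) (tr (wv m) G)) =
      ((q ^ 2 : ℝ) : ℂ) :=
    stepN_win cd hG (fun l hl => (h1 l hl).2.1) h2 h3 hd (by omega) hA.1 hA.2.1 hQ
  have s4 : ∑ a ∈ latB n, eval (cz a) (UU E (LinearMap.mulLeft ℂ φ ∘ₗ (Λ ∘ₗ cd.pi0)) G) +
      ∑ τ, ∑ a ∈ latB n, eval (cz a) (UU E (LinearMap.mulLeft ℂ φ ∘ₗ (Λ ∘ₗ cd.rho τ)) G) = 0 := by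
    rw [sum_comm, ← sum_add_distrib]
    refine sum_eq_zero fun a ha => ?_
    have h4 := UU_mul_zero E φ Λ (cz a) (fun H hH => hA.2.2 H hH a (latB_subset n ha)) hGE
    have h5 : LinearMap.mulLeft ℂ φ ∘ₗ Λ = LinearMap.mulLeft ℂ φ ∘ₗ (Λ ∘ₗ cd.pi0) +
        ∑ τ, LinearMap.mulLeft ℂ φ ∘ₗ (Λ ∘ₗ cd.rho τ) := by
      conv_lhs => rw [cd.split Λ]
      refine LinearMap.ext fun H => ?_
      simp [mul_add, mul_sum]
    rw [h5, UU_add, UU_sum, LinearMap.add_apply, LinearMap.sum_apply, map_add, map_sum] at h4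
    exact h4
  set η := ((4 * K + 2 + 2) / R : ℝ) ^ (k - E) with hη
  have hη0 : 0 ≤ η := by positivity
  rw [s3] at s1
  have s5 : q ^ 2 ≤ (c₀ * c₁ + ∑ τ, c τ) * (((n : ℝ) + 1) ^ 3 * Real.exp (2 * n)) * A * η *
      (N + V) := by
    have h4 : ((q ^ 2 : ℝ) : ℂ) = -(∑ a ∈ latB n,
        eval (cz a) (UU E (LinearMap.mulLeft ℂ φ ∘ₗ (Λ ∘ₗ cd.pi0)) G) - ((q ^ 2 : ℝ) : ℂ)) -
        ∑ τ, ∑ a ∈ latB n,
          eval (cz a) (UU E (LinearMap.mulLeft ℂ φ ∘ₗ (Λ ∘ₗ cd.rho τ)) G) := by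
      linear_combination s4
    have h5 : q ^ 2 = ‖((q ^ 2 : ℝ) : ℂ)‖ := by
      rw [Complex.norm_real, Real.norm_of_nonneg (sq_nonneg _)]
    have h6 : ((n : ℝ) + 1) ^ 2 ≤ ((n : ℝ) + 1) ^ 3 * Real.exp (2 * n) :=
      (pow_le_pow_right₀ (by linarith) (by norm_num)).trans
        (le_mul_of_one_le_right (by positivity) (Real.one_le_exp (by positivity)))
    rw [h5, h4]
    refine (norm_sub_le _ _).trans ?_
    rw [norm_neg]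
    refine (add_le_add s1 ((norm_sum_le _ _).trans (sum_le_sum fun τ _ => s2 τ))).trans ?_
    rw [← sum_mul, ← sum_mul, ← sum_mul, ← sum_mul]
    set W := ((n : ℝ) + 1) ^ 3 * Real.exp (2 * n) with hW
    have hW0 : 0 ≤ W := by positivity
    calc c₀ * ((n : ℝ) + 1) ^ 2 * (A * (c₁ * N)) * η +
          (∑ τ, c τ) * ((n : ℝ) + 1) ^ 3 * A * (V * Real.exp (2 * n)) * η
        = c₀ * c₁ * ((n : ℝ) + 1) ^ 2 * A * η * N + (∑ τ, c τ) * W * A * η * V := by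
          rw [hW]; ring
      _ ≤ c₀ * c₁ * W * A * η * (N + V) + (∑ τ, c τ) * W * A * η * (N + V) := by
          gcongr <;> linarith
      _ = _ := by ring
  have s6 : q ≤ (c₀ * c₁ + ∑ τ, c τ) * (((n : ℝ) + 1) ^ 3 * Real.exp (2 * n)) *
      ((n : ℝ) ^ (4 * (K * n)) * B * (20 * ρ * R) ^ (𝓛.card * ν)) * η * (N + V) := by
    rcases hq0.eq_or_lt with h4 | h4
    · rw [← h4]; positivity
    · refine le_of_mul_le_mul_right ?_ h4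
      rw [← pow_two]
      refine s5.trans (le_of_eq ?_)
      rw [hA']; ring
  have b4 := Bd2.inv 𝓛 ν hp.2.1 (fun l hl => ⟨(h1 l hl).1, (h1 l hl).2.1⟩) (hA.2.1 G)
    (by positivity) b1
  refine b4.mono (by positivity) (by norm_num) ?_ le_rfl
  have s7 := stepN_num (E := E) hp hn1 hJ hk (by omega)
  calc B * q * (2 * ρ : ℝ) ^ (C₁ * n)
      ≤ B * ((c₀ * c₁ + ∑ τ, c τ) * (((n : ℝ) + 1) ^ 3 * Real.exp (2 * n)) *
        ((n : ℝ) ^ (4 * (K * n)) * B * (20 * ρ * R) ^ (𝓛.card * ν)) * η * (N + V)) *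
          (2 * ρ : ℝ) ^ (C₁ * n) := by gcongr
    _ = (c₀ * c₁ + ∑ τ, c τ) * (((n : ℝ) + 1) ^ 3 * Real.exp (2 * n) *
        ((n : ℝ) ^ (4 * (K * n)) * B ^ 2) * (20 * ρ * R) ^ (𝓛.card * ν) * η *
          (2 * ρ : ℝ) ^ (C₁ * n)) * (N + V) := by ring
    _ ≤ (c₀ * c₁ + ∑ τ, c τ) * (Real.exp (9 * E) * Real.exp ((aa C₁ ρ R J - 4 * K) * n)) *
        (N + V) := by gcongr
    _ = _ := by ring

theorem stepN {F : S} {ρ R J E C₁ K : ℕ} (cd : CD F ρ R J E) (hp : Par C₁ ρ R J K) {r r' : ℕ}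
    (bP : Fin r → S) (bM : Fin r' → S) (hP : Submodule.span ℂ (Set.range bP) = cd.P)
    (hM : Submodule.span ℂ (Set.range bM) = cd.Mid) : ∃ c : ℝ, 0 ≤ c ∧ ∃ n₀ : ℕ, ∀ n, n₀ ≤ n →
      ∀ (Λ : S →ₗ[ℂ] S) (N V : ℝ), 0 ≤ N → 0 ≤ V → Adm F E C₁ n Λ → NB n Λ bM N →
        VB cd n Λ bP V →
          NB n Λ bM (c * Real.exp ((aa C₁ ρ R J - 4 * K) * n) * (N + V)) := by
  have key : ∀ k, ∃ c : ℝ, 0 ≤ c ∧ ∀ n, 2 * E + 2 ≤ n →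
      ∀ (Λ : S →ₗ[ℂ] S) (N V : ℝ), 0 ≤ N → 0 ≤ V → Adm F E C₁ n Λ → NB n Λ bM N →
        VB cd n Λ bP V →
          Bd2 (sqX n) (Λ (bM k)) (c * Real.exp ((aa C₁ ρ R J - 4 * K) * n) * (N + V)) 2 := by
    intro k
    have hk : bM k ∈ cd.Mid := hM ▸ Submodule.subset_span ⟨k, rfl⟩
    obtain ⟨s, G, 𝓛, ⟨h, hh⟩, hG⟩ := cd.good (bM k) hk.1 ((Submodule.mem_iInf _).1 hk.2)
    choose c hc hb using fun e => stepN_one cd hp bP bM hP hM (hG e).1 (hG e).2.1 (hG e).2.2.1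
      (hG e).2.2.2.1 (hG e).2.2.2.2
    refine ⟨∑ e, c e, sum_nonneg fun e _ => hc e, fun n hn Λ N V hN hV hA hNB hVB => ?_⟩
    have h1 : Λ (bM k) = ∑ e, Λ (G e) := by
      rw [← map_sum, ← sub_eq_zero, ← map_sub, hh, hA.1]
    rw [h1, sum_mul, sum_mul]
    exact Bd2.sum _ _ _ fun e _ => hb e n hn Λ N V hN hV hA hNB hVB
  choose c hc hb using key
  refine ⟨∑ k, c k, sum_nonneg fun k _ => hc k, 2 * E + 2,
    fun n hn Λ N V hN hV hA hNB hVB k => ?_⟩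
  have h1 := hc k
  refine (hb k n hn Λ N V hN hV hA hNB hVB).mono (by positivity) (by norm_num) ?_ le_rfl
  gcongr
  exact single_le_sum (fun k _ => hc k) (mem_univ k)

end Pool.Agent.Lib.MP_1f047c_nt.TA
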