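import Pool.Agent.Lib.MP_1f047c_nt.TAStepV
import Pool.Agent.Lib.MP_1f047c_nt.TAStepN

/-! The homogeneous uniqueness theorem and the zero estimate. -/

open Finset MvPolynomial

namespace Pool.Agent.Lib.MP_1f047c_nt.TA

open PL (wm)

lemma neuA_aa_nonneg {C₁ ρ R J K : ℕ} (hp : Par C₁ ρ R J K) : 0 ≤ aa C₁ ρ R J := by
  obtain ⟨-, hρ, hR, -⟩ := hp
  have h1 : (1 : ℝ) ≤ ρ := by exact_mod_cast hρ
  have h2 : (1 : ℝ) ≤ R := by exact_mod_cast (by omega : 1 ≤ R)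
  have h3 : 0 ≤ Real.log (20 * ρ * R) := Real.log_nonneg (by nlinarith)
  unfold aa
  positivity

lemma neuA_NB_mono {n r : ℕ} {Λ : S →ₗ[ℂ] S} {b : Fin r → S} {N N' : ℝ} (h : NB n Λ b N)
    (hN : 0 ≤ N) (h1 : N ≤ N') : NB n Λ b N' :=
  fun k => (h k).mono hN (by norm_num) h1 le_rfl

lemma neuA_VB_mono {F : S} {ρ R J E : ℕ} {cd : CD F ρ R J E} {n r : ℕ} {Λ : S →ₗ[ℂ] S}
    {b : Fin r → S} {V V' : ℝ} (h : VB cd n Λ b V) (hV : 0 ≤ V) (h1 : V ≤ V') : VB cd n Λ b V' :=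
  fun τ a ha k => (h τ a ha k).mono hV (by norm_num) h1 le_rfl

lemma neuA_exists_NB (n : ℕ) {r : ℕ} (Λ : S →ₗ[ℂ] S) (b : Fin r → S) :
    ∃ N, 0 ≤ N ∧ NB n Λ b N := by
  choose A hA0 hA using fun k => exists_bd2 n (Λ (b k))
  refine ⟨∑ k, A k, sum_nonneg fun k _ => hA0 k, fun k => ?_⟩
  exact (hA k).mono (hA0 k) (by norm_num) (single_le_sum (fun k _ => hA0 k) (mem_univ k)) le_rfl

lemma neuA_exists_VB {F : S} {ρ R J E : ℕ} (cd : CD F ρ R J E) (n : ℕ) {r : ℕ} (Λ : S →ₗ[ℂ] S)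
    (b : Fin r → S) : ∃ V, 0 ≤ V ∧ VB cd n Λ b V := by
  choose A hA0 hA using fun (x : Fin cd.t × (ℤ × ℤ) × Fin r) =>
    exists_bdP 0 0 (Uc E (cd.θ x.1) (Λ ∘ₗ cd.rho x.1) x.2.1 (b x.2.2))
  refine ⟨∑ x ∈ univ ×ˢ latB n ×ˢ univ, A x, sum_nonneg fun x _ => hA0 x, fun τ a ha k => ?_⟩
  refine (hA (τ, a, k)).mono (hA0 _) (by norm_num) (single_le_sum (fun x _ => hA0 x) ?_) le_rfl
  simp [ha]

lemma neuA_small {c : ℝ} {n : ℕ} (hc : 0 ≤ c) (h : c ≤ n) {u : ℝ} (hu : u ≤ -1) :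
    c * Real.exp (u * n) ≤ 1 := by
  have h0 : (0 : ℝ) ≤ n := Nat.cast_nonneg n
  have h1 : Real.exp (u * n) ≤ Real.exp (-n) := Real.exp_le_exp.2 (by nlinarith)
  have h2 : (n : ℝ) + 1 ≤ Real.exp n := Real.add_one_le_exp _
  have h3 : Real.exp n * Real.exp (-n) = 1 := by rw [← Real.exp_add]; simp
  have h4 := Real.exp_pos (-(n : ℝ))
  calc c * Real.exp (u * n) ≤ c * Real.exp (-n) := mul_le_mul_of_nonneg_left h1 hc
    _ ≤ Real.exp n * Real.exp (-n) := mul_le_mul_of_nonneg_right (by linarith) h4.le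
    _ = 1 := h3

theorem neumann {F : S} {ρ R J E C₁ K : ℕ} (cd : CD F ρ R J E) (hp : Par C₁ ρ R J K) :
    ∃ n₀ : ℕ, ∀ n, n₀ ≤ n → ∀ Λ : S →ₗ[ℂ] S, Adm F E C₁ n Λ → Λ 1 = 0 := by
  obtain ⟨r, bP, hP⟩ := exists_span cd.P_le
  obtain ⟨r', bM, hM⟩ := exists_span (W := cd.Mid) (inf_le_left.trans cd.P_le)
  obtain ⟨cN, hcN, n₁, hN⟩ := stepN cd hp bP bM hP hM
  obtain ⟨cV, hcV, n₂, hV⟩ := stepV cd hp bP bM hP hM
  have ha := neuA_aa_nonneg hp
  have hK : 2 * aa C₁ ρ R J + 1 ≤ K := hp.2.2.2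
  set a := aa C₁ ρ R J
  obtain ⟨n₃, hn₃⟩ := exists_nat_ge (8 * cN * (cV + 1) + 2 * cV * (cV + 1))
  refine ⟨n₁ + n₂ + n₃ + 1, fun n hn Λ hΛ => ?_⟩
  have hn3 : (n₃ : ℝ) ≤ n := by exact_mod_cast (by omega : n₃ ≤ n)
  have hn0 : (0 : ℝ) ≤ n := Nat.cast_nonneg n
  have hc1 : 0 ≤ 8 * cN * (cV + 1) := by positivity
  have hc2 : 0 ≤ 2 * cV * (cV + 1) := by positivity
  have s1 : 8 * cN * (cV + 1) * Real.exp ((2 * a - K) * n) ≤ 1 :=
    neuA_small hc1 (by linarith) (by linarith)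
  have s2 : 2 * cV * (cV + 1) * Real.exp ((a - 6 * K) * n) ≤ 1 :=
    neuA_small hc2 (by linarith) (by linarith)
  have hX1 : 1 ≤ Real.exp ((3 * K + a) * n) := Real.one_le_exp (by positivity)
  have hXY : Real.exp ((a - 4 * K) * n) * Real.exp ((3 * K + a) * n) =
      Real.exp ((2 * a - K) * n) := by
    rw [← Real.exp_add]
    congr 1
    ring
  have hY0 := Real.exp_pos ((a - 4 * K) * n)
  have hZ0 := Real.exp_pos ((a - 6 * K) * n)
  set X := Real.exp ((3 * K + a) * n)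
  set Y := Real.exp ((a - 4 * K) * n)
  set Z := Real.exp ((a - 6 * K) * n)
  set M := 2 * (cV + 1) * X with hMdef
  have hM1 : 1 ≤ M := by nlinarith
  have step : ∀ t : ℝ, 0 ≤ t → NB n Λ bM t → VB cd n Λ bP (M * t) →
      NB n Λ bM (t / 2) ∧ VB cd n Λ bP (M * (t / 2)) := by
    intro t ht h1 h2
    have hMt : 0 ≤ M * t := by positivity
    have k1 := hN n (by omega) Λ t (M * t) ht hMt hΛ h1 h2
    have k2 := hV n (by omega) Λ t (M * t) ht hMt hΛ h1 h2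
    refine ⟨neuA_NB_mono k1 (by positivity) ?_, neuA_VB_mono k2 (by positivity) ?_⟩
    · have e1 : cN * Y * (1 + M) ≤ 1 / 2 := by
        calc cN * Y * (1 + M) ≤ cN * Y * (2 * M) :=
              mul_le_mul_of_nonneg_left (by linarith) (by positivity)
          _ = 8 * cN * (cV + 1) * (Y * X) / 2 := by rw [hMdef]; ring
          _ ≤ 1 / 2 := by rw [hXY]; linarith
      calc cN * Y * (t + M * t) = cN * Y * (1 + M) * t := by ring
        _ ≤ 1 / 2 * t := mul_le_mul_of_nonneg_right e1 ht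
        _ = t / 2 := by ring
    · have e1 : cV * (X + Z * M) ≤ M / 2 := by
        calc cV * (X + Z * M) = cV * X + 2 * cV * (cV + 1) * Z * X := by rw [hMdef]; ring
          _ ≤ cV * X + 1 * X := by gcongr
          _ = M / 2 := by rw [hMdef]; ring
      calc cV * (X * t + Z * (M * t)) = cV * (X + Z * M) * t := by ring
        _ ≤ M / 2 * t := mul_le_mul_of_nonneg_right e1 ht
        _ = M * (t / 2) := by ring
  obtain ⟨N₀, hN₀, hNB⟩ := neuA_exists_NB n Λ bM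
  obtain ⟨V₀, hV₀, hVB⟩ := neuA_exists_VB cd n Λ bP
  have iter : ∀ j : ℕ, NB n Λ bM ((N₀ + V₀) * (1 / 2) ^ j) ∧
      VB cd n Λ bP (M * ((N₀ + V₀) * (1 / 2) ^ j)) := by
    intro j
    induction j with
    | zero =>
      refine ⟨neuA_NB_mono hNB hN₀ (by simpa using hV₀), neuA_VB_mono hVB hV₀ ?_⟩
      rw [pow_zero, mul_one]
      nlinarith
    | succ j ih =>
      have := step _ (by positivity) ih.1 ih.2
      rwa [show (N₀ + V₀) * (1 / 2 : ℝ) ^ j / 2 = (N₀ + V₀) * (1 / 2) ^ (j + 1) by ring] at this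
  have hz : ∀ k, Λ (bM k) = 0 := by
    intro k
    refine zero_of_bd2 (n := n) (by omega) fun ε hε => ?_
    obtain ⟨j, hj⟩ := exists_pow_lt_of_lt_one (div_pos hε (by positivity : 0 < N₀ + V₀ + 1))
      (by norm_num : (1 / 2 : ℝ) < 1)
    refine ((iter j).1 k).mono (by positivity) (by norm_num) ?_ le_rfl
    rw [lt_div_iff₀ (by positivity)] at hj
    have : (0 : ℝ) < (1 / 2) ^ j := by positivity
    nlinarith
  have h1 : (1 : S) ∈ Submodule.span ℂ (Set.range bM) := by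
    rw [hM]
    exact ⟨cd.one_P, (Submodule.mem_iInf _).2 cd.one_M⟩
  have hle : Submodule.span ℂ (Set.range bM) ≤ LinearMap.ker Λ := by
    rw [Submodule.span_le]
    rintro _ ⟨k, rfl⟩
    exact hz k
  exact hle h1

end Pool.Agent.Lib.MP_1f047c_nt.TA
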