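import Pool.Agent.Lib.MP_1f047c_nt.TAOneA

/-! Estimates for polynomials in one variable. -/

open Finset Polynomial

namespace Pool.Agent.Lib.MP_1f047c_nt.TA

open PL (wm)

variable {α β : ℝ} {p q : ℂ[X]} {A A' b b' : ℝ}

lemma act1_eq_TAOne {g : ℂ[X]} {r : ℕ} (hg : g.natDegree ≤ r) (p : ℂ[X]) :
    act1 g p = ∑ i ∈ range (r + 1), g.coeff i • derivative^[i] p := by
  rw [act1, aeval_eq_sum_range' (Nat.lt_succ_of_le hg), LinearMap.sum_apply]
  refine sum_congr rfl fun i _ => ?_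
  rw [LinearMap.smul_apply, Module.End.pow_apply]

lemma act1_mul_TAOne (g h p : ℂ[X]) : act1 (g * h) p = act1 g (act1 h p) := by
  rw [act1, map_mul, Module.End.mul_apply]
  rfl

lemma act1_X_pow_TAOne (k : ℕ) (p : ℂ[X]) : act1 (X ^ k) p = derivative^[k] p := by
  rw [act1, map_pow, aeval_X, Module.End.pow_apply]

lemma act1_of_dvd_TAOne {g U : ℂ[X]} {ν : ℕ} (h : X ^ ν ∣ g) (hU : U.natDegree < ν) :
    act1 g U = 0 := by
  obtain ⟨h, rfl⟩ := h
  rw [mul_comm, act1_mul_TAOne, act1_X_pow_TAOne, iterate_derivative_eq_zero hU, map_zero]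

lemma VanP.mono {k l : ℕ} (h : VanP α β p k) (hl : l ≤ k) : VanP α β p l := by
  exact ⟨(pow_dvd_pow _ hl).trans h.1, (pow_dvd_pow _ hl).trans h.2⟩

lemma VanP.mul {k : ℕ} (h : VanP α β p k) (q : ℂ[X]) : VanP α β (p * q) k := by
  exact ⟨h.1.mul_right _, h.2.mul_right _⟩

lemma VanP.smul {k : ℕ} (h : VanP α β p k) (c : ℂ) : VanP α β (c • p) k := by
  rw [smul_eq_C_mul]
  exact ⟨h.1.mul_left _, h.2.mul_left _⟩

lemma VanP.sum {ι : Type} {k : ℕ} (s : Finset ι) (f : ι → ℂ[X]) (h : ∀ i ∈ s, VanP α β (f i) k) :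
    VanP α β (∑ i ∈ s, f i) k := by
  exact ⟨dvd_sum fun i hi => (h i hi).1, dvd_sum fun i hi => (h i hi).2⟩

lemma VanP.iter_TAOne {k i : ℕ} (h : VanP α β p (k + i)) : VanP α β (derivative^[i] p) k := by
  have h1 := pow_sub_dvd_iterate_derivative_of_pow_dvd i h.1
  have h2 := pow_sub_dvd_iterate_derivative_of_pow_dvd i h.2
  rw [Nat.add_sub_cancel] at h1 h2
  exact ⟨h1, h2⟩

lemma VanP.act {g : ℂ[X]} {k r : ℕ} (hg : g.natDegree ≤ r) (h : VanP α β p (k + r)) :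
    VanP α β (act1 g p) k := by
  rw [act1_eq_TAOne hg]
  refine VanP.sum _ _ fun i hi => VanP.smul (VanP.iter_TAOne (h.mono ?_)) _
  have := mem_range.1 hi
  omega

lemma van_wP (n κ : ℕ) : VanP 0 n (wP n κ) κ := by
  refine ⟨pow_dvd_pow_of_dvd ?_ κ, pow_dvd_pow_of_dvd ?_ κ⟩
  · exact dvd_iff_isRoot.2 (by simp)
  · exact dvd_iff_isRoot.2 (by simp)

lemma vanP_of_dvd {k : ℕ} (h0 : q.eval (α : ℂ) = 0) (h1 : q.eval (β : ℂ) = 0) (h : q ^ k ∣ p) :
    VanP α β p k := by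
  exact ⟨(pow_dvd_pow_of_dvd (dvd_iff_isRoot.2 h0) k).trans h,
    (pow_dvd_pow_of_dvd (dvd_iff_isRoot.2 h1) k).trans h⟩

lemma symb1_natDegree (K : Finset ℤ) (ν : ℕ) : (symb1 K ν).natDegree ≤ K.card * ν := by
  refine (natDegree_prod_le _ _).trans ?_
  refine (sum_le_card_nsmul _ _ ν fun k _ => ?_).trans (by simp)
  refine natDegree_pow_le.trans ?_
  rw [natDegree_X_sub_C, mul_one]

lemma act1_natDegree (g p : ℂ[X]) : (act1 g p).natDegree ≤ p.natDegree := by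
  rw [act1_eq_TAOne le_rfl]
  refine natDegree_sum_le_of_forall_le _ _ fun i _ => (natDegree_smul_le _ _).trans ?_
  exact (natDegree_iterate_derivative _ _).trans (Nat.sub_le _ _)

lemma int_TAOne (m : ℤ) (p : ℂ[X]) : IntervalIntegrable
    (fun x : ℝ => p.eval (x : ℂ) * Complex.exp (-wm m * x)) MeasureTheory.volume α β := by
  refine Continuous.intervalIntegrable ?_ _ _
  exact (p.continuous.comp Complex.continuous_ofReal).mul (by fun_prop)

lemma I1_add (m : ℤ) (p q : ℂ[X]) : I1 α β m (p + q) = I1 α β m p + I1 α β m q := by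
  simp only [I1, eval_add, add_mul]
  exact intervalIntegral.integral_add (int_TAOne m p) (int_TAOne m q)

lemma I1_smul (m : ℤ) (c : ℂ) (p : ℂ[X]) : I1 α β m (c • p) = c * I1 α β m p := by
  simp only [I1, eval_smul, smul_eq_mul, mul_assoc]
  exact intervalIntegral.integral_const_mul _ _

lemma I1_sum {ι : Type} (m : ℤ) (s : Finset ι) (f : ι → ℂ[X]) :
    I1 α β m (∑ i ∈ s, f i) = ∑ i ∈ s, I1 α β m (f i) := by
  simp only [I1, eval_finsetSum, sum_mul]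
  exact intervalIntegral.integral_finsetSum fun i _ => int_TAOne m (f i)

lemma I1_zero (m : ℤ) : I1 α β m 0 = 0 := by
  simp [I1]

lemma I1_deriv (m : ℤ) (h : VanP α β p 1) : I1 α β m (derivative p) = wm m * I1 α β m p := by
  have hd : ∀ x ∈ Set.uIcc α β, HasDerivAt (fun x : ℝ => p.eval (x : ℂ) * Complex.exp (-wm m * x))
      ((derivative p + (-wm m) • p).eval (x : ℂ) * Complex.exp (-wm m * x)) x := by
    intro x _
    have h1 : HasDerivAt (fun z : ℂ => p.eval z * Complex.exp (-wm m * z))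
        ((derivative p).eval (x : ℂ) * Complex.exp (-wm m * x) +
          p.eval (x : ℂ) * (Complex.exp (-wm m * x) * (-wm m * 1))) x :=
      (p.hasDerivAt _).mul ((hasDerivAt_id (x : ℂ)).const_mul (-wm m)).cexp
    have h2 : (derivative p + (-wm m) • p).eval (x : ℂ) * Complex.exp (-wm m * x) =
        (derivative p).eval (x : ℂ) * Complex.exp (-wm m * x) +
          p.eval (x : ℂ) * (Complex.exp (-wm m * x) * (-wm m * 1)) := by
      rw [eval_add, eval_smul, smul_eq_mul]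
      ring
    rw [h2]
    exact h1.comp_ofReal
  have h1 := intervalIntegral.integral_eq_sub_of_hasDerivAt hd (int_TAOne m _)
  have ha : p.eval (α : ℂ) = 0 := dvd_iff_isRoot.1 (by simpa using h.1)
  have hb : p.eval (β : ℂ) = 0 := dvd_iff_isRoot.1 (by simpa using h.2)
  rw [ha, hb, zero_mul, zero_mul, sub_zero] at h1
  have h2 : I1 α β m (derivative p + (-wm m) • p) = 0 := h1
  rw [I1_add, I1_smul] at h2
  linear_combination h2

lemma I1_step_TAOne (m : ℤ) (h : VanP α β p 1) (U : ℂ[X]) :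
    I1 α β m (derivative p * U) = I1 α β m (p * act1 (C (wm m) - X) U) := by
  have h1 := I1_deriv m (h.mul U)
  have h2 : p * act1 (C (wm m) - X) U = wm m • (p * U) + (-1 : ℂ) • (p * derivative U) := by
    have h3 : act1 (C (wm m) - X) U = wm m • U - derivative U := by
      simp [act1, Algebra.algebraMap_eq_smul_one]
    rw [h3, mul_sub, mul_smul_comm, neg_one_smul, sub_eq_add_neg]
  rw [derivative_mul, I1_add] at h1
  rw [h2, I1_add, I1_smul, I1_smul]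
  linear_combination h1

lemma I1_pow_TAOne (m : ℤ) (i : ℕ) (h : VanP α β p i) (U : ℂ[X]) :
    I1 α β m (derivative^[i] p * U) = I1 α β m (p * act1 ((C (wm m) - X) ^ i) U) := by
  induction i generalizing U with
  | zero => simp [act1]
  | succ i ih =>
    rw [Function.iterate_succ_apply', I1_step_TAOne m (VanP.iter_TAOne (by rwa [add_comm])),
      ih (h.mono (Nat.le_succ i)), pow_succ, act1_mul_TAOne]

/-- Integration by parts. -/
theorem I1_adj (m : ℤ) {g : ℂ[X]} {r : ℕ} (hg : g.natDegree ≤ r) (h : VanP α β p r) (U : ℂ[X]) :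
    I1 α β m (act1 g p * U) = I1 α β m (p * act1 (g.comp (C (wm m) - X)) U) := by
  have h1 : act1 (g.comp (C (wm m) - X)) U =
      ∑ i ∈ range (r + 1), g.coeff i • act1 ((C (wm m) - X) ^ i) U := by
    rw [comp_eq_aeval, aeval_eq_sum_range' (Nat.lt_succ_of_le hg), act1, map_sum,
      LinearMap.sum_apply]
    refine sum_congr rfl fun i _ => ?_
    rw [map_smul, LinearMap.smul_apply]
    rfl
  rw [h1, act1_eq_TAOne hg, sum_mul, mul_sum, I1_sum, I1_sum]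
  refine sum_congr rfl fun i hi => ?_
  rw [smul_mul_assoc, mul_smul_comm, I1_smul, I1_smul,
    I1_pow_TAOne m i (h.mono (Nat.lt_succ_iff.1 (mem_range.1 hi)))]

lemma I1_kill (m : ℤ) {ν : ℕ} (h : VanP α β p ν) {U : ℂ[X]} (hU : U.natDegree < ν) :
    I1 α β m (act1 ((X - C (wm m)) ^ ν) p * U) = 0 := by
  rw [I1_adj m (natDegree_pow_le.trans (by rw [natDegree_X_sub_C, mul_one])) h,
    act1_of_dvd_TAOne _ hU, mul_zero, I1_zero]
  rw [pow_comp]
  exact pow_dvd_pow_of_dvd (X_dvd_iff.2 (by simp)) ν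

lemma I1_kill_symb {K : Finset ℤ} {m : ℤ} (hm : m ∈ K) {ν : ℕ} (h : VanP α β p (K.card * ν))
    {U : ℂ[X]} (hU : U.natDegree < ν) : I1 α β m (act1 (symb1 K ν) p * U) = 0 := by
  rw [I1_adj m (symb1_natDegree K ν) h, act1_of_dvd_TAOne _ hU, mul_zero, I1_zero]
  rw [symb1, Polynomial.prod_comp]
  refine dvd_trans ?_ (dvd_prod_of_mem _ hm)
  rw [pow_comp]
  exact pow_dvd_pow_of_dvd (X_dvd_iff.2 (by simp)) ν

lemma nqP_nonneg (n κ : ℕ) (p : ℂ[X]) : 0 ≤ nqP n κ p := Real.sqrt_nonneg _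

lemma I1_nq (n κ : ℕ) (p : ℂ[X]) : I1 0 n 0 (wP n κ * cjP p * p) = ((nqP n κ p ^ 2 : ℝ) : ℂ) := by
  rw [nqP, Real.sq_sqrt (intervalIntegral.integral_nonneg (by positivity) fun x hx =>
    mul_nonneg (pow_nonneg (mul_nonneg hx.1 (sub_nonneg.2 hx.2)) _) (sq_nonneg _)),
    ← intervalIntegral.integral_ofReal, I1]
  refine intervalIntegral.integral_congr fun x _ => ?_
  have h1 : (cjP p).eval (x : ℂ) = starRingEnd ℂ (p.eval (x : ℂ)) := by
    have h2 := eval_map_apply (starRingEnd ℂ) (p := p) (x : ℂ)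
    rwa [Complex.conj_ofReal] at h2
  have h2 : wm 0 = 0 := by simp [wm]
  simp only [eval_mul, h1, h2, wP, eval_pow, eval_X, eval_sub, eval_C, neg_zero, zero_mul,
    Complex.exp_zero, mul_one]
  rw [mul_assoc, Complex.conj_mul']
  push_cast
  rfl

/-- The main term. -/
lemma I1_main (n κ : ℕ) (K : Finset ℤ) (ν : ℕ) (hκ : K.card * ν ≤ κ) (U : ℂ[X]) :
    I1 0 n 0 (act1 (symb1 K ν) (wP n κ * cjP (act1 ((symb1 K ν).comp (-X)) U)) * U) =
      ((nqP n κ (act1 ((symb1 K ν).comp (-X)) U) ^ 2 : ℝ) : ℂ) := by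
  have h2 : C (wm 0) - X = (-X : ℂ[X]) := by simp [wm]
  have h1 := I1_adj (α := 0) (β := n) 0 (symb1_natDegree K ν)
    (((van_wP n κ).mono hκ).mul (cjP (act1 ((symb1 K ν).comp (-X)) U))) U
  rw [h1, h2, I1_nq]

open PL in
lemma growth_TAOne (C₀ : ℕ) (hC : 1 ≤ C₀) (n : ℕ) (hn : 1 ≤ n) (κ : ℕ) (z : ℂ) (hz : ‖z‖ ≤ 1)
    (D : TS (C₀ * n)) : Fl (fn z D)
      (Real.exp ((17 * C₀ ^ 2 + 11 * C₀ + 3) * n) * (3 / n) ^ κ * nq n κ (fn z D)) := by
  have hc : (1 : ℝ) ≤ C₀ := by exact_mod_cast hC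
  have hn' : (1 : ℝ) ≤ n := by exact_mod_cast hn
  have hν : ((C₀ * n : ℕ) : ℝ) = C₀ * n := by push_cast; rfl
  obtain ⟨η, hη⟩ : ∃ η : ℝ, η = n / (2 * ((C₀ * n : ℕ) + 1)) := ⟨_, rfl⟩
  have hη0 : 0 < η := by rw [hη]; positivity
  have hηe : ((C₀ * n + 1 : ℕ) : ℝ) * η = n / 2 := by
    rw [hη, Nat.cast_add, Nat.cast_one]
    field_simp
  have hF : Continuous fun x : ℝ => (x * (n - x)) ^ κ * ‖(fn z D).1 x‖ ^ 2 := by
    have := Sm.cont (fn z D)
    fun_prop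
  have hF0 : ∀ x ∈ Set.Icc (0 : ℝ) n, 0 ≤ (x * (n - x)) ^ κ * ‖(fn z D).1 x‖ ^ 2 := fun x hx =>
    mul_nonneg (pow_nonneg (mul_nonneg hx.1 (sub_nonneg.2 hx.2)) _) (sq_nonneg _)
  obtain ⟨x₀, hx, hb⟩ := plgrow2_nodes hF ((n : ℝ) / 4) hη0 (C₀ * n + 1) fun x hx =>
    hF0 x ⟨by linarith [hx.1], by linarith [hx.2]⟩
  have hI : ∫ x in (n : ℝ) / 4..(n : ℝ) / 4 + (C₀ * n + 1 : ℕ) * η,
      (x * (n - x)) ^ κ * ‖(fn z D).1 x‖ ^ 2 ≤ nq n κ (fn z D) ^ 2 := by
    rw [nq, Real.sq_sqrt (intervalIntegral.integral_nonneg (by positivity) hF0)]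
    refine intervalIntegral.integral_mono_interval (by positivity) (by linarith) (by linarith) ?_
      (hF.intervalIntegrable _ _)
    exact (MeasureTheory.ae_restrict_iff' measurableSet_Ioc).2
      (Filter.Eventually.of_forall fun x hx => hF0 x (Set.Ioc_subset_Icc_self hx))
  have hq : 0 ≤ nq n κ (fn z D) := Real.sqrt_nonneg _
  have hηe' : ((C₀ * n : ℕ) : ℝ) * η + η = n / 2 := by
    rw [← hηe, Nat.cast_add, Nat.cast_one]
    ring
  have key := plgrow2_main hC hn hz D hη (x₀ := x₀) (by linarith [hx.1]) (by linarith [hx.2])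
    (M := 2 * C₀ * ((3 / n) ^ κ * nq n κ (fn z D))) fun j hj => by
      have hj' : (j : ℝ) ≤ (C₀ * n : ℕ) := by exact_mod_cast Nat.lt_succ_iff.1 hj
      have h1 := (hb j hj).trans hI
      have h2 : (n : ℝ) / 4 ≤ x₀ + j * η := by
        have : 0 ≤ (j : ℝ) * η := by positivity
        linarith [hx.1]
      have h3 : x₀ + j * η ≤ 3 * n / 4 := by nlinarith [hx.2]
      generalize x₀ + j * η = x at *
      have h4 : ((n : ℝ) / 3) ^ 2 ≤ x * (n - x) := by nlinarith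
      have h5 : (((n : ℝ) / 3) ^ κ) ^ 2 ≤ (x * (n - x)) ^ κ := by
        rw [← pow_mul, mul_comm κ, pow_mul]
        exact pow_le_pow_left₀ (by positivity) h4 κ
      have h6 : 1 ≤ (2 * (C₀ : ℝ)) ^ 2 * η := by
        rw [hη, ← mul_div_assoc, le_div_iff₀ (by positivity), hν]
        have : (C₀ : ℝ) * n ≤ C₀ ^ 2 * n := by nlinarith
        nlinarith
      have h7 : (((n : ℝ) / 3) ^ κ * ‖(fn z D).1 x‖) ^ 2 ≤ (2 * C₀ * nq n κ (fn z D)) ^ 2 :=
        calc _ = 1 * ((((n : ℝ) / 3) ^ κ) ^ 2 * ‖(fn z D).1 x‖ ^ 2) := by ring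
          _ ≤ (2 * (C₀ : ℝ)) ^ 2 * η * ((x * (n - x)) ^ κ * ‖(fn z D).1 x‖ ^ 2) := by gcongr
          _ = (2 * (C₀ : ℝ)) ^ 2 * (η * ((x * (n - x)) ^ κ * ‖(fn z D).1 x‖ ^ 2)) := by ring
          _ ≤ (2 * (C₀ : ℝ)) ^ 2 * nq n κ (fn z D) ^ 2 := by gcongr
          _ = _ := by ring
      have h8 := (pow_le_pow_iff_left₀ (by positivity) (by positivity) two_ne_zero).1 h7
      have h9 : (3 / (n : ℝ)) ^ κ * ((n : ℝ) / 3) ^ κ = 1 := by
        rw [← mul_pow, show 3 / (n : ℝ) * (n / 3) = 1 by field_simp, one_pow]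
      calc _ = (3 / (n : ℝ)) ^ κ * (((n : ℝ) / 3) ^ κ * ‖(fn z D).1 x‖) := by
            rw [← mul_assoc, h9, one_mul]
        _ ≤ (3 / (n : ℝ)) ^ κ * (2 * C₀ * nq n κ (fn z D)) := by gcongr
        _ = _ := by ring
  intro k
  refine (key k).trans (mul_le_mul_of_nonneg_right ?_ (by positivity))
  have a1 : 2 * (C₀ : ℝ) ≤ Real.exp (2 * C₀ * n) := by
    nlinarith [Real.add_one_le_exp (2 * (C₀ : ℝ) * n)]
  rw [show (17 * (C₀ : ℝ) ^ 2 + 11 * C₀ + 3) * n = (17 * C₀ ^ 2 + 9 * C₀ + 3) * n + 2 * C₀ * n by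
    ring, Real.exp_add, mul_assoc, mul_assoc, mul_assoc]
  refine mul_le_mul_of_nonneg_left ?_ (by positivity)
  rw [← mul_assoc 2]
  exact mul_le_mul_of_nonneg_right a1 (by positivity)

/-- Explicit form of `PL.growth` for polynomials (copy its proof, `L = 17 C ^ 2 + 11 C + 3`). -/
theorem growthP {C₀ n : ℕ} (hC : 1 ≤ C₀) (hn : 1 ≤ n) (κ : ℕ) (hp : p.natDegree < C₀ * n) :
    BdP 0 0 p (Real.exp (31 * C₀ ^ 2 * n) * (3 / n) ^ κ * nqP n κ p) 2 := by
  have hd : p ∈ degreeLT ℂ (C₀ * n) :=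
    mem_degreeLT.2 (degree_le_natDegree.trans_lt (by exact_mod_cast hp))
  have h1 := growth_TAOne C₀ hC n hn κ 1 (by simp) (⟨p, hd⟩, 0)
  have h2 : PL.fn (1 : ℂ) ((⟨p, hd⟩, 0) : PL.TS (C₀ * n)) = PL.polyS p := by
    rw [PL.fn_apply, zero_smul, add_zero]
  have h3 : PL.nq n κ (PL.polyS p) = nqP n κ p := by
    simp only [PL.nq, nqP, PL.polyS_apply]
  rw [h2, h3] at h1
  intro k x hx
  have hx0 : x = 0 := le_antisymm hx.2 hx.1
  have h4 := h1 k
  rw [PL.plgrow2_dd0] at h4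
  rw [hx0, Complex.ofReal_zero]
  refine h4.trans ?_
  have hc : (1 : ℝ) ≤ C₀ := by exact_mod_cast hC
  have h5 := nqP_nonneg n κ p
  have h6 : (17 * (C₀ : ℝ) ^ 2 + 11 * C₀ + 3) ≤ 31 * C₀ ^ 2 := by nlinarith
  gcongr

end Pool.Agent.Lib.MP_1f047c_nt.TA
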