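import Pool.Agent.Lib.MP_1f047c_nt.TABasic
import Pool.Agent.Lib.MP_1f047c_nt.PLGrow2

/-! Estimates for polynomials in one variable. -/

open Finset Polynomial

namespace Pool.Agent.Lib.MP_1f047c_nt.TA

open PL (wm)

variable {α β : ℝ} {p q : ℂ[X]} {A A' b b' : ℝ}

lemma BdP.mono (h : BdP α β p A b) (hA : 0 ≤ A) (hb : 0 ≤ b) (h1 : A ≤ A') (h2 : b ≤ b') :
    BdP α β p A' b' := fun k x hx =>
  (h k x hx).trans (mul_le_mul h1 (pow_le_pow_left₀ hb h2 k) (pow_nonneg hb k) (hA.trans h1))

lemma BdP.add (h : BdP α β p A b) (h' : BdP α β q A' b) : BdP α β (p + q) (A + A') b := by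
  intro k x hx
  rw [← Module.End.pow_apply, map_add, Module.End.pow_apply, Module.End.pow_apply, eval_add,
    add_mul]
  exact norm_add_le_of_le (h k x hx) (h' k x hx)

lemma BdP.smul (h : BdP α β p A b) (c : ℂ) : BdP α β (c • p) (‖c‖ * A) b := by
  intro k x hx
  rw [iterate_derivative_smul, eval_smul, norm_smul, mul_assoc]
  exact mul_le_mul_of_nonneg_left (h k x hx) (norm_nonneg c)

lemma BdP.sum {ι : Type} (s : Finset ι) (f : ι → ℂ[X]) (B : ι → ℝ)
    (h : ∀ i ∈ s, BdP α β (f i) (B i) b) : BdP α β (∑ i ∈ s, f i) (∑ i ∈ s, B i) b := by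
  intro k x hx
  rw [iterate_derivative_sum, eval_finsetSum, sum_mul]
  exact norm_sum_le_of_le _ fun i hi => h i hi k x hx

lemma oneA_der (h : BdP α β p A b) : BdP α β (derivative p) (A * b) b := by
  intro k x hx
  rw [← Function.iterate_succ_apply]
  refine (h (k + 1) x hx).trans_eq ?_
  ring

lemma BdP.mul (h : BdP α β p A b) (h' : BdP α β q A' b') (hA : 0 ≤ A) (hA' : 0 ≤ A') (hb : 0 ≤ b)
    (hb' : 0 ≤ b') : BdP α β (p * q) (A * A') (b + b') := by
  intro k x hx
  induction k generalizing p q A A' with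
  | zero =>
    have h1 := h 0 x hx
    have h2 := h' 0 x hx
    simp only [pow_zero, Function.iterate_zero, id, mul_one] at h1 h2 ⊢
    rw [eval_mul, norm_mul]
    exact mul_le_mul h1 h2 (norm_nonneg _) hA
  | succ k ih =>
    rw [Function.iterate_succ_apply, derivative_mul, ← Module.End.pow_apply, map_add,
      Module.End.pow_apply, Module.End.pow_apply, eval_add]
    have h1 := ih (oneA_der h) h' (mul_nonneg hA hb) hA'
    have h2 := ih h (oneA_der h') hA (mul_nonneg hA' hb')
    refine (norm_add_le_of_le h1 h2).trans_eq ?_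
    ring

lemma BdP.cj (h : BdP α β p A b) : BdP α β (cjP p) A b := by
  intro k x hx
  rw [cjP, iterate_derivative_map, ← Complex.conj_ofReal x, eval_map, eval₂_at_apply,
    Complex.norm_conj]
  exact h k x hx

/-- From the origin to an interval, by the Taylor formula. -/
lemma BdP.shift (h : BdP 0 0 p A b) (hA : 0 ≤ A) (hb : 0 ≤ b) {r : ℝ}
    (hr : ∀ x ∈ Set.Icc α β, |x| ≤ r) : BdP α β p (A * Real.exp (b * r)) b := by
  intro k x hx
  have hx' := hr x hx
  have hr0 : 0 ≤ r := (abs_nonneg x).trans hx'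
  have hc : ∀ j : ℕ, ‖(derivative^[k] p).coeff j‖ ≤ A * b ^ k * (b ^ j / j.factorial) := by
    intro j
    have h1 := h (j + k) 0 ⟨le_rfl, le_rfl⟩
    rw [Function.iterate_add_apply, Complex.ofReal_zero, ← coeff_zero_eq_eval_zero,
      coeff_iterate_derivative, zero_add, Nat.descFactorial_self, nsmul_eq_mul, norm_mul,
      Complex.norm_natCast] at h1
    have h2 : (0 : ℝ) < j.factorial := by exact_mod_cast j.factorial_pos
    rw [← mul_div_assoc, le_div_iff₀ h2, mul_comm]
    refine h1.trans_eq ?_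
    ring
  rw [eval_eq_sum_range]
  refine (norm_sum_le_of_le _ (n := fun j => A * b ^ k * ((b * r) ^ j / j.factorial))
    fun j _ => ?_).trans ?_
  · rw [norm_mul, norm_pow, Complex.norm_real, Real.norm_eq_abs]
    refine (mul_le_mul (hc j) (pow_le_pow_left₀ (abs_nonneg x) hx' j) (by positivity)
      (by positivity)).trans_eq ?_
    ring
  · rw [← mul_sum]
    refine (mul_le_mul_of_nonneg_left (Real.sum_le_exp_of_nonneg (mul_nonneg hb hr0) _)
      (by positivity)).trans_eq ?_
    ring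

lemma oneA_lin {n : ℝ} (hn : 0 < n) (h0 : ∀ x ∈ Set.Icc (0 : ℝ) n, ‖p.eval (x : ℂ)‖ ≤ n)
    (h1 : ∀ x : ℂ, ‖(derivative p).eval x‖ ≤ 1) (h2 : derivative (derivative p) = 0) :
    BdP 0 n p n (1 / n) := by
  intro k x hx
  match k with
  | 0 => simpa using h0 x hx
  | 1 =>
    rw [pow_one, mul_one_div_cancel hn.ne']
    exact h1 x
  | k + 2 =>
    rw [Function.iterate_succ_apply, Function.iterate_succ_apply, h2, iterate_derivative_zero,
      eval_zero, norm_zero]
    positivity

lemma oneA_one : BdP α β 1 1 0 := by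
  intro k x _
  cases k with
  | zero => simp
  | succ k => simp [Function.iterate_succ_apply]

lemma bd_wP {n : ℕ} (hn : 1 ≤ n) (κ : ℕ) :
    BdP 0 n (wP n κ) ((n : ℝ) ^ (2 * κ)) (2 * κ / n) := by
  have hn' : (0 : ℝ) < n := by exact_mod_cast hn
  have hx : BdP 0 n X n (1 / n) := by
    refine oneA_lin hn' (fun x hx => ?_) (fun x => by simp) (by simp)
    rw [eval_X, Complex.norm_real, Real.norm_of_nonneg hx.1]
    exact hx.2
  have hy : BdP 0 n (C (n : ℂ) - X) n (1 / n) := by
    refine oneA_lin hn' (fun x hx => ?_) (fun x => by simp) (by simp)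
    rw [eval_sub, eval_C, eval_X, ← Complex.ofReal_natCast, ← Complex.ofReal_sub,
      Complex.norm_real, Real.norm_of_nonneg (sub_nonneg.2 hx.2)]
    linarith [hx.1]
  have hxy := hx.mul hy hn'.le hn'.le (by positivity) (by positivity)
  induction κ with
  | zero => simpa [wP] using oneA_one
  | succ κ ih =>
    have h := ih.mul hxy (by positivity) (by positivity) (by positivity) (by positivity)
    have e1 : (n : ℝ) ^ (2 * κ) * (n * n) = n ^ (2 * (κ + 1)) := by ring
    have e2 : 2 * (κ : ℝ) / n + (1 / n + 1 / n) = 2 * ((κ + 1 : ℕ) : ℝ) / n := by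
      push_cast
      ring
    rw [e1, e2] at h
    unfold wP at h ⊢
    rw [pow_succ]
    exact h

lemma oneA_mul (g g' p : ℂ[X]) : act1 (g * g') p = act1 g (act1 g' p) := by
  rw [act1, map_mul]
  rfl

lemma oneA_act_one (p : ℂ[X]) : act1 1 p = p := by
  rw [act1, map_one]
  rfl

lemma oneA_fac (w : ℂ) (p : ℂ[X]) : act1 (X - C w) p = (-w) • p + derivative p := by
  rw [act1, map_sub, aeval_X, aeval_C, LinearMap.sub_apply, Module.algebraMap_end_apply, neg_smul]
  abel

lemma oneA_fac' (w : ℂ) (p : ℂ[X]) :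
    act1 ((X - C w).comp (-X)) p = (-w) • p - derivative p := by
  rw [sub_comp, X_comp, C_comp, act1, map_sub, map_neg, aeval_X, aeval_C, LinearMap.sub_apply,
    LinearMap.neg_apply, Module.algebraMap_end_apply, neg_smul]
  abel

lemma oneA_pow {w : ℂ} {L : ℝ} (hb : 0 ≤ b) (hL : ‖w‖ + b ≤ L) (ν : ℕ) (h : BdP α β p A b)
    (hA : 0 ≤ A) : BdP α β (act1 ((X - C w) ^ ν) p) (A * L ^ ν) b := by
  have hL0 : 0 ≤ L := le_trans (by positivity) hL
  induction ν with
  | zero => simpa [oneA_act_one] using h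
  | succ ν ih =>
    rw [pow_succ', oneA_mul, oneA_fac]
    refine ((ih.smul (-w)).add (oneA_der ih)).mono (by positivity) hb ?_ le_rfl
    rw [norm_neg, pow_succ]
    have := mul_le_mul_of_nonneg_left hL (show 0 ≤ A * L ^ ν by positivity)
    linarith

lemma BdP.symb (h : BdP α β p A b) (hA : 0 ≤ A) (hb : 0 ≤ b) (K : Finset ℤ) (ν : ℕ) {L : ℝ}
    (hL : ∀ k ∈ K, ‖wm k‖ + b ≤ L) :
    BdP α β (act1 (symb1 K ν) p) (A * L ^ (K.card * ν)) b := by
  induction K using Finset.induction_on with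
  | empty => simpa [symb1, oneA_act_one] using h
  | insert k K hk ih =>
    have h1 := hL k (mem_insert_self _ _)
    have hL0 : 0 ≤ L := le_trans (by positivity) h1
    have h2 := oneA_pow hb h1 ν (ih fun j hj => hL j (mem_insert_of_mem hj)) (by positivity)
    rw [symb1, prod_insert hk, oneA_mul, card_insert_of_notMem hk, add_mul, one_mul, pow_add,
      ← mul_assoc]
    exact h2

lemma oneA_inv {w : ℂ} (hw : 3 ≤ ‖w‖) (h : BdP α β (act1 ((X - C w).comp (-X)) p) A 2) :
    BdP α β p A 2 := by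
  intro k x hx
  have hA : 0 ≤ A := by simpa using (norm_nonneg _).trans (h 0 x hx)
  have big : ∀ k, p.natDegree + 1 ≤ k → ‖(derivative^[k] p).eval (x : ℂ)‖ ≤ A * 2 ^ k := by
    intro k hk
    rw [iterate_derivative_eq_zero hk, eval_zero, norm_zero]
    positivity
  have step : ∀ k, ‖(derivative^[k + 1] p).eval (x : ℂ)‖ ≤ A * 2 ^ (k + 1) →
      ‖(derivative^[k] p).eval (x : ℂ)‖ ≤ A * 2 ^ k := by
    intro k hk
    have h1 := h k x hx
    rw [oneA_fac', iterate_derivative_sub, iterate_derivative_smul, ← Function.iterate_succ_apply,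
      eval_sub, eval_smul] at h1
    have h2 := norm_sub_norm_le ((-w) • (derivative^[k] p).eval (x : ℂ))
      ((derivative^[k + 1] p).eval (x : ℂ))
    rw [norm_smul, norm_neg] at h2
    rw [pow_succ (2 : ℝ)] at hk
    have h3 := mul_le_mul_of_nonneg_right hw (norm_nonneg ((derivative^[k] p).eval (x : ℂ)))
    linarith
  rcases le_total (p.natDegree + 1) k with hk | hk
  · exact big k hk
  · exact Nat.decreasingInduction (fun j _ hj => step j hj) (big _ le_rfl) hk

lemma oneA_inv_pow {w : ℂ} (hw : 3 ≤ ‖w‖) (ν : ℕ)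
    (h : BdP α β (act1 (((X - C w) ^ ν).comp (-X)) p) A 2) : BdP α β p A 2 := by
  induction ν with
  | zero => simpa [oneA_act_one] using h
  | succ ν ih =>
    rw [pow_succ', mul_comp, oneA_mul] at h
    exact ih (oneA_inv hw h)

lemma BdP.inv (K : Finset ℤ) (hK : ∀ k ∈ K, k ≠ 0) (ν : ℕ)
    (h : BdP α β (act1 ((symb1 K ν).comp (-X)) p) A 2) : BdP α β p A 2 := by
  induction K using Finset.induction_on with
  | empty => simpa [symb1, oneA_act_one] using h
  | insert k K hk ih =>
    rw [symb1, prod_insert hk, mul_comp, oneA_mul] at h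
    refine ih (fun j hj => hK j (mem_insert_of_mem hj)) (oneA_inv_pow ?_ ν h)
    have h1 : (1 : ℝ) ≤ |(k : ℝ)| := by
      exact_mod_cast Int.one_le_abs (hK k (mem_insert_self _ _))
    rw [norm_wm]
    nlinarith [Real.pi_gt_three]

lemma exists_bdP (α β : ℝ) (p : ℂ[X]) : ∃ A, 0 ≤ A ∧ BdP α β p A 2 := by
  have h0 : 0 ≤ ∑ k ∈ range (p.natDegree + 1), ‖(derivative^[k] p).eval 0‖ :=
    sum_nonneg fun _ _ => norm_nonneg _
  have h : BdP 0 0 p (∑ k ∈ range (p.natDegree + 1), ‖(derivative^[k] p).eval 0‖) 2 := by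
    intro k x hx
    obtain rfl : x = 0 := le_antisymm hx.2 hx.1
    rw [Complex.ofReal_zero]
    rcases le_or_gt (p.natDegree + 1) k with hk | hk
    · rw [iterate_derivative_eq_zero hk, eval_zero, norm_zero]
      positivity
    · exact (single_le_sum (f := fun k => ‖(derivative^[k] p).eval 0‖)
        (fun _ _ => norm_nonneg _) (mem_range.2 hk)).trans
        (le_mul_of_one_le_right h0 (one_le_pow₀ one_le_two))
  exact ⟨_, by positivity, h.shift h0 zero_le_two (r := max |α| |β|) fun x hx =>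
    abs_le_max_abs_abs hx.1 hx.2⟩

end Pool.Agent.Lib.MP_1f047c_nt.TA
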