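import Pool.Agent.Lib.MP_1f047c_nt.TAChord

/-! The estimate on the middle space. -/

open Finset MvPolynomial

namespace Pool.Agent.Lib.MP_1f047c_nt.TA

open PL (wm)

/-- Leibniz rule for the chord polynomial. -/
lemma stT_uc_mul (E : ℕ) (θ : ℤ × ℤ) (φ : S) (Λ : S →ₗ[ℂ] S) (a : ℤ × ℤ) {H : S} (hH : H ∈ Vp E) :
    Uc E θ (LinearMap.mulLeft ℂ φ ∘ₗ Λ) a H =
      ∑ g ∈ range (E + 1), ((g.factorial : ℂ)⁻¹) •
        (lr (cz a) (cz (perp θ)) ((dv (dual θ) ^ g) φ) * Uc E θ Λ a ((dv (cz θ) ^ g) H)) := by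
  unfold Uc
  rw [Ex_mul E _ _ φ Λ hH, map_sum]
  refine Finset.sum_congr rfl fun g _ => ?_
  rw [map_smul, map_mul]

lemma stT_van {n j : ℕ} {a v : ℤ × ℤ} {α β : ℝ}
    (h0 : (lr (cz a) (cz v) (qq n)).eval (α : ℂ) = 0)
    (h1 : (lr (cz a) (cz v) (qq n)).eval (β : ℂ) = 0) {ψ : S} (h : qq n ^ j ∣ ψ) :
    VanP α β (lr (cz a) (cz v) ψ) j := by
  refine vanP_of_dvd h0 h1 ?_
  rw [← map_pow]
  exact map_dvd _ h

/-- The frequencies on a line of the symbol are killed. -/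
lemma stT_kill {E n ν d k : ℕ} (θ : ℤ × ℤ) (𝓛 : Finset ((ℤ × ℤ) × ℤ)) (Λ : S →ₗ[ℂ] S) (φ₀ : S)
    (hd : d < ν) (hΛ : ∀ H, Λ H ∈ Vp d) (hk : E ≤ k) (hφ : qq n ^ (k + 𝓛.card * ν) ∣ φ₀)
    {a : ℤ × ℤ} {α β : ℝ} (h0 : (lr (cz a) (cz (perp θ)) (qq n)).eval (α : ℂ) = 0)
    (h1 : (lr (cz a) (cz (perp θ)) (qq n)).eval (β : ℂ) = 0) {m : ℤ} (hm : (perp θ, m) ∈ 𝓛)
    {H : S} (hH : H ∈ Vp E) :
    I1 α β m (Uc E θ (LinearMap.mulLeft ℂ (act (symb 𝓛 ν) φ₀) ∘ₗ Λ) a H) = 0 := by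
  rw [stT_uc_mul E θ _ Λ a hH, I1_sum]
  refine Finset.sum_eq_zero fun g hg => ?_
  have hg' : g ≤ E := Nat.lt_succ_iff.1 (Finset.mem_range.1 hg)
  have e1 : symb 𝓛 ν = (lin (cz (perp θ)) - C (wm m)) ^ ν * symb (𝓛.erase (perp θ, m)) ν :=
    (Finset.mul_prod_erase 𝓛 (fun l => (lin (cz l.1) - C (wm l.2)) ^ ν) hm).symm
  have e2 : (𝓛.erase (perp θ, m)).card + 1 = 𝓛.card := Finset.card_erase_add_one hm
  rw [I1_smul, act_dv, e1, act_mul_apply, lr_act, I1_kill, mul_zero]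
  · refine stT_van h0 h1 (act_dvd (symb_Vp _ ν) _ ν (dv_pow_dvd _ _ _ g ?_))
    refine (pow_dvd_pow _ ?_).trans hφ
    rw [← e2, add_mul, one_mul]
    omega
  · exact lt_of_le_of_lt (lr_natDegree _ _ (Ex_Vp E _ _ hΛ _)) hd

/-- The contribution of one direction. -/
theorem topN {F : S} {ρ R J E : ℕ} (cd : CD F ρ R J E) (hρ : 1 ≤ ρ) (hR : 1 ≤ R) {r : ℕ}
    (bP : Fin r → S) (hP : Submodule.span ℂ (Set.range bP) = cd.P) (τ : Fin cd.t) {G : S}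
    (hG : G ∈ cd.P) (𝓛 : Finset ((ℤ × ℤ) × ℤ))
    (hg : ∀ k : ℤ, |k| ≤ 2 * ρ * R → (perp (cd.θ τ), k) ∉ 𝓛 →
      ∀ ξ, dotC (cz (perp (cd.θ τ))) ξ = wm k → tr ξ G ∈ cd.M τ) :
    ∃ c : ℝ, 0 ≤ c ∧ ∀ (n ν d k : ℕ) (Λ : S →ₗ[ℂ] S) (φ₀ : S) (A b V : ℝ), d < ν →
      (∀ H, Λ H ∈ Vp d) → 2 * E + 2 ≤ k → qq n ^ (k + 𝓛.card * ν) ∣ φ₀ → 0 ≤ A → 1 ≤ b →
      b + 2 ≤ R → 0 ≤ V → Bd2 (sqB n) (act (symb 𝓛 ν) φ₀) A b → VB cd n Λ bP V →
      ‖∑ a ∈ latB n, eval (cz a)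
          (UU E (LinearMap.mulLeft ℂ (act (symb 𝓛 ν) φ₀) ∘ₗ (Λ ∘ₗ cd.rho τ)) G)‖ ≤
        c * (n + 1) ^ 3 * A * (V * Real.exp (2 * n)) * ((b + 2) / R) ^ (k - E) := by
  have hθ := cd.θ_ne τ
  have hθp := perp_ne hθ
  have hGE : G ∈ Vp E := cd.P_le hG
  obtain ⟨c0, hc0, hdom⟩ := exists_dom bP
    (fun p : Fin (E + 1) × Fin (E + 1) =>
      (dv (cz (cd.θ τ)) ^ (p.2 : ℕ)) ((dv (dual (perp (cd.θ τ))) ^ (p.1 : ℕ)) G))
    (fun p => by
      rw [hP]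
      exact dv_pow_mem (cd.P_dv _) _ (dv_pow_mem (cd.P_dv _) _ hG))
  have hR' : (1 : ℝ) ≤ R := by exact_mod_cast hR
  have hρ' : (1 : ℝ) ≤ ρ := by exact_mod_cast hρ
  refine ⟨(E + 1) * 4 * ((E + 1) * (2 * R) ^ E * c0) * (2 * ρ * R) ^ (E + 2), by positivity, ?_⟩
  intro n ν d k Λ φ₀ A b V hd hΛ hk hφ hA hb hbR hV hBd hVB
  set φ := act (symb 𝓛 ν) φ₀ with hφdef
  have hφk : qq n ^ k ∣ φ := act_dvd (symb_Vp 𝓛 ν) _ k hφ
  set W : ℝ := V * Real.exp (2 * n) with hW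
  have hW0 : 0 ≤ W := by positivity
  have hq0 : 0 ≤ (b + 2) / R := by positivity
  set c : ℝ := (E + 1) * 4 * ((E + 1) * (2 * R) ^ E * c0) * (2 * ρ * R) ^ (E + 2) with hc
  have hc' : 0 ≤ c := by positivity
  refine (sum_chords n hθp (fun a => eval (cz a)
    (UU E (LinearMap.mulLeft ℂ φ ∘ₗ (Λ ∘ₗ cd.rho τ)) G))
    (T := c * (n + 1) * A * W * ((b + 2) / R) ^ (k - E)) (by positivity) fun a ha => ?_).trans
    (le_of_eq (by ring))
  obtain ⟨α, β, hα, hβ, hαβ, hch, h0, h1⟩ := exists_chord n ha hθp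
  refine ⟨α, β, hch, ?_⟩
  have hsm : |((perp (cd.θ τ)).1 : ℝ)| + |((perp (cd.θ τ)).2 : ℝ)| ≤ 2 * ρ := by
    obtain ⟨s1, s2⟩ := cd.θ_sml τ
    have t1 : |((cd.θ τ).1 : ℝ)| ≤ ρ := by exact_mod_cast s1
    have t2 : |((cd.θ τ).2 : ℝ)| ≤ ρ := by exact_mod_cast s2
    simp only [perp, Int.cast_neg, abs_neg]
    linarith
  have hpo := poisC E hθ (LinearMap.mulLeft ℂ φ ∘ₗ (Λ ∘ₗ cd.rho τ)) a hGE (hα.trans hβ)
    (R := 2 * ρ * R) (k := k - E) (Nat.mul_pos (Nat.mul_pos two_pos hρ) hR) (by omega)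
    (A := (E + 1) * (A * (2 * R) ^ E * (c0 * W))) (b := 2 * ρ * b + 2) (by positivity)
    (by positivity) (fun e he => by
      rw [stT_uc_mul E _ φ _ a (dv_pow_Vp _ e hGE)]
      constructor
      · have hs := BdP.sum (α := α) (β := β) (b := 2 * ρ * b + 2) (range (E + 1))
          (fun g => ((g.factorial : ℂ)⁻¹) • (lr (cz a) (cz (perp (cd.θ τ)))
            ((dv (dual (cd.θ τ)) ^ g) φ) * Uc E (cd.θ τ) (Λ ∘ₗ cd.rho τ) a
              ((dv (cz (cd.θ τ)) ^ g) ((dv (dual (perp (cd.θ τ))) ^ e) G))))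
          (fun _ => A * (2 * R) ^ E * (c0 * W)) (fun g hg => by
            have hg' : g ≤ E := Nat.lt_succ_iff.1 (Finset.mem_range.1 hg)
            have hn0 : 0 ≤ ‖dual (cd.θ τ) 0‖ + ‖dual (cd.θ τ) 1‖ := by positivity
            have b1 := ((hBd.dv_pow (dual (cd.θ τ)) g).lr a (perp (cd.θ τ))
              (fun y hy => (hch y).2 hy)).mono (A' := A * (2 * R) ^ E) (b' := 2 * ρ * b)
              (by positivity) (by positivity) (mul_le_mul_of_nonneg_left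
                ((pow_le_pow_left₀ (by positivity) (mul_le_mul norm_dual (by linarith : b ≤ R)
                  (by linarith) (by norm_num)) g).trans
                  (pow_le_pow_right₀ (by linarith) hg')) hA)
              (mul_le_mul_of_nonneg_right hsm (by linarith))
            have b2 := ((hdom (⟨e, Nat.lt_succ_of_le he⟩, ⟨g, Nat.lt_succ_of_le hg'⟩)).uc E
              (cd.θ τ) (Λ ∘ₗ cd.rho τ) a hV (by norm_num) (hVB τ a ha)).shift (α := α) (β := β)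
              (by positivity) (by norm_num) (r := n) (fun x hx => by
                rw [abs_le]
                constructor <;> linarith [hx.1, hx.2])
            have b3 := (b1.mul b2 (by positivity) (by positivity) (by positivity)
              (by norm_num)).smul ((g.factorial : ℂ)⁻¹)
            refine b3.mono (by positivity) (by positivity) ?_ le_rfl
            have f1 : ‖((g.factorial : ℂ)⁻¹)‖ ≤ 1 := by
              rw [norm_inv, Complex.norm_natCast]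
              exact inv_le_one_of_one_le₀ (by exact_mod_cast g.factorial_pos)
            refine (mul_le_of_le_one_left (by positivity) f1).trans (le_of_eq ?_)
            rw [hW]
            ring)
        refine hs.mono (by positivity) (by positivity) (le_of_eq ?_) le_rfl
        rw [Finset.sum_const, Finset.card_range, nsmul_eq_mul]
        push_cast
        ring
      · refine VanP.sum _ _ fun g hg => ?_
        have hg' : g ≤ E := Nat.lt_succ_iff.1 (Finset.mem_range.1 hg)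
        refine ((stT_van h0 h1 (dv_pow_dvd _ _ _ g ?_)).mul _).smul _
        exact (pow_dvd_pow _ (by omega)).trans hφk)
  have hz : ∑ m ∈ Icc (-((2 * ρ * R : ℕ) : ℤ)) (2 * ρ * R : ℕ), I1 α β m (Uc E (cd.θ τ)
      (LinearMap.mulLeft ℂ φ ∘ₗ (Λ ∘ₗ cd.rho τ)) a (tr (wm m • dual (perp (cd.θ τ))) G)) = 0 := by
    refine Finset.sum_eq_zero fun m hm => ?_
    by_cases hL : (perp (cd.θ τ), m) ∈ 𝓛
    · exact stT_kill (cd.θ τ) 𝓛 (Λ ∘ₗ cd.rho τ) φ₀ hd (fun H => hΛ _) (by omega) hφ h0 h1 hL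
        (tr_Vp _ hGE)
    · have hm' : |m| ≤ 2 * ρ * R := by
        rw [Finset.mem_Icc] at hm
        push_cast at hm
        exact abs_le.2 hm
      have := cd.Ex_zero τ (dual (cd.θ τ)) (LinearMap.mulLeft ℂ φ ∘ₗ Λ) (cd.tr_P _ hG)
        (hg m hm' hL _ (dotC_dual hθp _))
      unfold Uc
      rw [← LinearMap.comp_assoc, this, map_zero, I1_zero]
  rw [hz, sub_zero] at hpo
  refine hpo.trans ?_
  push_cast
  have r1 : (2 * ρ * b + 2) / (2 * ρ * R) ≤ (b + 2) / R := by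
    rw [div_le_div_iff₀ (by positivity) (by positivity)]
    nlinarith [mul_nonneg (sub_nonneg.2 hρ') (show (0 : ℝ) ≤ R by linarith)]
  have r2 : ((2 * ρ * b + 2) / (2 * ρ * R)) ^ (k - E) ≤ ((b + 2) / R) ^ (k - E) :=
    pow_le_pow_left₀ (by positivity) r1 _
  have r3 : β - α ≤ n + 1 := by linarith
  calc _ = (c * A * W) * ((β - α) * ((2 * ρ * b + 2) / (2 * ρ * R)) ^ (k - E)) := by
        rw [hc]
        ring
    _ ≤ (c * A * W) * ((n + 1) * ((b + 2) / R) ^ (k - E)) :=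
        mul_le_mul_of_nonneg_left (mul_le_mul r3 r2 (by positivity) (by positivity))
          (by positivity)
    _ = _ := by ring

end Pool.Agent.Lib.MP_1f047c_nt.TA
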