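import Pool.Agent.Lib.MP_1f047c_nt.TAChord

/-! The estimate on the chords. -/

open Finset MvPolynomial

namespace Pool.Agent.Lib.MP_1f047c_nt.TA

open PL (wm)

/-- A test function which is constant across the chords. -/
lemma sv_phi (E : ℕ) {θ : ℤ × ℤ} (hθ : θ ≠ 0) (a : ℤ × ℤ) (ψ : Polynomial ℂ) :
    ∃ φ : S, ∀ (T : S →ₗ[ℂ] S) (H : S),
      Uc E θ (LinearMap.mulLeft ℂ φ ∘ₗ T) a H = ψ * Uc E θ T a H := by
  set w : Fin 2 → ℂ := dual (perp θ) with hw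
  set y : S := lin w - C (dotC w (cz a)) with hy
  have h0 : dotC w (dual θ) = 0 := by
    simp only [hw, dotC, dual, perp, cz, Pi.smul_apply, smul_eq_mul, Matrix.cons_val_zero,
      Matrix.cons_val_one]
    push_cast
    ring
  have h1 : dotC w (cz (perp θ)) = 1 := by
    have := dotC_dual (perp_ne hθ) 1
    rw [one_smul] at this
    rw [← this]
    simp only [dotC, hw]
    ring
  have hd : dv (dual θ) (Polynomial.aeval y ψ) = 0 := by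
    rw [dv_aeval, hy, map_sub, dv_lin, dv_C, h0]
    simp
  have hl : lr (cz a) (cz (perp θ)) y = Polynomial.X := by
    simp only [dotC] at h1
    simp only [hy, lr, lin, dotC, map_sub, map_add, map_mul, aeval_C, aeval_X,
      Polynomial.algebraMap_apply, Algebra.algebraMap_self, RingHom.id_apply]
    have h2 := congrArg (Polynomial.C : ℂ → Polynomial ℂ) h1
    simp only [map_add, map_mul, map_one] at h2
    linear_combination Polynomial.X * h2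
  refine ⟨Polynomial.aeval y ψ, fun T H => ?_⟩
  unfold Uc
  rw [Ex_mul_const E _ _ hd, map_mul, ← Polynomial.aeval_algHom_apply, hl,
    Polynomial.aeval_X_left_apply]

lemma sv_deg (E : ℕ) (θ : ℤ × ℤ) {T : S →ₗ[ℂ] S} {d : ℕ} (h : ∀ G, T G ∈ Vp d) (a : ℤ × ℤ)
    (H : S) : (Uc E θ T a H).natDegree ≤ d := lr_natDegree _ _ (Ex_Vp E _ _ h H)

lemma sv_mul_le {ρ n l : ℕ} (hl : ρ * l ≤ n) {y t : ℝ} (h0 : 0 ≤ y) (h1 : y ≤ l) (ht : |t| ≤ ρ) :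
    |y * t| ≤ n := by
  have : (ρ : ℝ) * l ≤ n := by exact_mod_cast hl
  rw [abs_mul, abs_of_nonneg h0]
  nlinarith [abs_nonneg t]

lemma sv_sml {ρ : ℕ} {θ : ℤ × ℤ} (hs : Sml ρ θ) :
    |((perp θ).1 : ℝ)| ≤ ρ ∧ |((perp θ).2 : ℝ)| ≤ ρ := by
  obtain ⟨h1, h2⟩ := hs
  constructor
  · simp only [perp, Int.cast_neg, abs_neg]
    exact_mod_cast h2
  · simp only [perp]
    exact_mod_cast h1

lemma sv_sq {ρ n l : ℕ} (hl : ρ * l ≤ n) {θ : ℤ × ℤ} (hs : Sml ρ θ) {a : ℤ × ℤ} (ha : a ∈ latB n)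
    {y : ℝ} (hy : y ∈ Set.Icc (0 : ℝ) l) :
    ((a.1 : ℝ) + y * (perp θ).1, (a.2 : ℝ) + y * (perp θ).2) ∈ sqX n := by
  obtain ⟨s1, s2⟩ := sv_sml hs
  obtain ⟨b1, b2⟩ := abs_le.mp (sv_mul_le hl hy.1 hy.2 s1)
  obtain ⟨b3, b4⟩ := abs_le.mp (sv_mul_le hl hy.1 hy.2 s2)
  simp only [latB, mem_product, mem_Icc] at ha
  obtain ⟨⟨a1, a2⟩, a3, a4⟩ := ha
  have a1' : (0 : ℝ) ≤ a.1 := by exact_mod_cast a1
  have a2' : (a.1 : ℝ) ≤ n := by exact_mod_cast a2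
  have a3' : (0 : ℝ) ≤ a.2 := by exact_mod_cast a3
  have a4' : (a.2 : ℝ) ≤ n := by exact_mod_cast a4
  refine ⟨⟨?_, ?_⟩, ?_, ?_⟩ <;> dsimp only <;> linarith

lemma sv_lat {ρ n l : ℕ} (hl : ρ * l ≤ n) {θ : ℤ × ℤ} (hs : Sml ρ θ) {a : ℤ × ℤ} (ha : a ∈ latB n)
    {j : ℤ} (hj : j ∈ Icc (0 : ℤ) l) : a + j • perp θ ∈ latX n := by
  rw [mem_Icc] at hj
  obtain ⟨⟨b1, b2⟩, b3, b4⟩ := sv_sq hl hs ha (y := j)
    ⟨by exact_mod_cast hj.1, by exact_mod_cast hj.2⟩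
  dsimp only at b1 b2 b3 b4
  simp only [latX, mem_product, mem_Icc, Prod.fst_add, Prod.snd_add, Prod.smul_fst, Prod.smul_snd,
    smul_eq_mul]
  refine ⟨⟨?_, ?_⟩, ?_, ?_⟩
  · exact_mod_cast b1
  · exact_mod_cast b2
  · exact_mod_cast b3
  · exact_mod_cast b4

/-- The chord polynomial from a bound in two variables. -/
lemma sv_uc (E : ℕ) {ρ n l : ℕ} (hl : ρ * l ≤ n) {θ : ℤ × ℤ} (hs : Sml ρ θ) {a : ℤ × ℤ}
    (ha : a ∈ latB n) (T : S →ₗ[ℂ] S) (H : S) {B : ℝ} (hB : 0 ≤ B)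
    (h : ∀ f ≤ E, Bd2 (sqX n) (T ((dv (cz θ) ^ f) H)) B 2) :
    BdP 0 l (Uc E θ T a H) ((E + 1) * 4 ^ E * B) (4 * ρ) := by
  have h1 : Bd2 (sqX n) (Ex E (dual θ) (cz θ) T H) (∑ _f ∈ range (E + 1), 4 ^ E * B) 2 := by
    rw [Ex_apply]
    refine Bd2.sum _ _ _ fun f hf => ?_
    have hf' : f ≤ E := Nat.lt_succ_iff.mp (mem_range.mp hf)
    have b0 : 0 ≤ (‖dual θ 0‖ + ‖dual θ 1‖) * 2 := by positivity
    refine (((h f hf').dv_pow (dual θ) f).smul _).mono (by positivity) (by norm_num) ?_ le_rfl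
    have b1 : ‖((f.factorial : ℂ))⁻¹‖ ≤ 1 := by
      rw [norm_inv, Complex.norm_natCast]
      exact inv_le_one_of_one_le₀ (by exact_mod_cast f.factorial_pos)
    have b2 : ((‖dual θ 0‖ + ‖dual θ 1‖) * 2) ^ f ≤ 4 ^ E :=
      (pow_le_pow_left₀ b0 (by linarith [norm_dual (θ := θ)]) f).trans
        (pow_le_pow_right₀ (by norm_num) hf')
    calc ‖((f.factorial : ℂ))⁻¹‖ * (B * ((‖dual θ 0‖ + ‖dual θ 1‖) * 2) ^ f)
        ≤ 1 * (B * 4 ^ E) := by gcongr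
      _ = 4 ^ E * B := by ring
  obtain ⟨s1, s2⟩ := sv_sml hs
  refine (h1.lr a (perp θ) fun y hy => sv_sq hl hs ha hy).mono
    (sum_nonneg fun _ _ => by positivity) (by positivity) ?_ (by linarith)
  rw [sum_const, card_range, nsmul_eq_mul]
  push_cast
  exact le_of_eq (by ring)

section Core

variable {F : S} {ρ R J E : ℕ} (cd : CD F ρ R J E)

lemma sv_other {τ τ' : Fin cd.t} (hτ : τ' ≠ τ) (T : S →ₗ[ℂ] S) {H : S} (hH : H ∈ cd.P) :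
    UU E (T ∘ₗ cd.rho τ') (cd.rho τ H) = 0 := by
  rw [UU_apply]
  refine sum_eq_zero fun e _ => sum_eq_zero fun f _ => ?_
  have m1 : (dv e1 ^ f * dv e0 ^ e) (cd.rho τ H) ∈ cd.P :=
    dv_pow_mem (cd.P_dv e1) f (dv_pow_mem (cd.P_dv e0) e (cd.rho_P τ H hH))
  have m2 : (dv e1 ^ f * dv e0 ^ e) (cd.rho τ H) ∈ cd.M0 τ' :=
    dv_pow_mem (cd.M0_dv τ' e1) f (dv_pow_mem (cd.M0_dv τ' e0) e (cd.rho_other τ τ' hτ H hH))
  rw [LinearMap.comp_apply, cd.rho_zero τ' _ m1 (cd.M0_le τ' m2)]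
  simp

lemma sv_split (τ : Fin cd.t) (φ : S) (Λ : S →ₗ[ℂ] S) {H : S} (hH : H ∈ cd.P) :
    UU E (LinearMap.mulLeft ℂ φ ∘ₗ Λ) (cd.rho τ H) =
      UU E (LinearMap.mulLeft ℂ φ ∘ₗ (Λ ∘ₗ cd.pi0)) (cd.rho τ H) +
        UU E (LinearMap.mulLeft ℂ φ ∘ₗ (Λ ∘ₗ cd.rho τ)) (cd.rho τ H) := by
  have e := cd.split (LinearMap.mulLeft ℂ φ ∘ₗ Λ)
  conv_lhs => rw [e]
  rw [UU_add, UU_sum, LinearMap.add_apply, LinearMap.sum_apply,
    sum_eq_single τ (fun τ' _ h => sv_other cd h _ hH) (by simp)]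
  rfl

/-- The sum over the window is the main term. -/
lemma sv_window (τ : Fin cd.t) {H : S} (hH : H ∈ cd.P) (a : ℤ × ℤ) {Λ : S →ₗ[ℂ] S} {d ν κ : ℕ}
    (l : ℕ) (hΛ : ∀ G, Λ G ∈ Vp d) (hd : d < ν) (hκ : (cd.K τ).card * ν ≤ κ) {Q : Polynomial ℂ}
    (hQ : Q = act1 ((symb1 (cd.K τ) ν).comp (-Polynomial.X))
      (Uc E (cd.θ τ) (Λ ∘ₗ cd.rho τ) a H)) :
    ∑ m ∈ Icc (-((2 * ρ * R : ℕ) : ℤ)) (2 * ρ * R : ℕ),
      I1 0 l m (act1 (symb1 (cd.K τ) ν) (wP l κ * cjP Q) * Uc E (cd.θ τ) (Λ ∘ₗ cd.rho τ) a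
        (tr (wm m • dual (perp (cd.θ τ))) (cd.rho τ H))) = ((nqP l κ Q ^ 2 : ℝ) : ℂ) := by
  rw [sum_eq_single 0]
  · have e0 : wm 0 • dual (perp (cd.θ τ)) = 0 := by simp [wm]
    have e1 : Uc E (cd.θ τ) (Λ ∘ₗ cd.rho τ) a (cd.rho τ H) =
        Uc E (cd.θ τ) (Λ ∘ₗ cd.rho τ) a H := by
      unfold Uc
      rw [cd.Ex_rho τ _ _ hH]
    rw [e0, tr_zero, e1, hQ]
    exact I1_main l κ _ ν hκ _
  · intro m hm hm0
    by_cases hK : m ∈ cd.K τ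
    · refine I1_kill_symb hK (((van_wP l κ).mul _).mono hκ) ?_
      exact (sv_deg E _ (T := Λ ∘ₗ cd.rho τ) (fun G => hΛ (cd.rho τ G)) a _).trans_lt hd
    · have h1 : |m| ≤ 2 * ρ * R := by
        rw [mem_Icc] at hm
        push_cast at hm
        exact abs_le.mpr hm
      have h2 := cd.rho_near τ H hH m hm0 h1 hK
      unfold Uc
      rw [cd.Ex_zero τ _ _ (cd.tr_P _ (cd.rho_P τ H hH)) h2, map_zero, mul_zero, I1_zero]
  · intro h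
    exact absurd (mem_Icc.mpr ⟨neg_nonpos.mpr (Int.natCast_nonneg _), Int.natCast_nonneg _⟩) h

/-- The quadratic inequality. -/
lemma sv_core (τ : Fin cd.t) {H : S} (hH : H ∈ cd.P) {n l C₁ ν κ k : ℕ} (hl : ρ * l ≤ n)
    {a : ℤ × ℤ} (ha : a ∈ latB n) {Λ : S →ₗ[ℂ] S} (hΛ : Adm F E C₁ n Λ) (hd : C₁ * n < ν)
    (hκ : k + (cd.K τ).card * ν = κ) (hk : E + 2 ≤ k) (hR : 1 ≤ 2 * ρ * R) {Q : Polynomial ℂ}
    (hQ : Q = act1 ((symb1 (cd.K τ) ν).comp (-Polynomial.X))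
      (Uc E (cd.θ τ) (Λ ∘ₗ cd.rho τ) a H)) {A b B W : ℝ} (hA : 0 ≤ A) (hb : 1 ≤ b) (hB : 0 ≤ B)
    (hW : 0 ≤ W) (hψ : BdP 0 l (act1 (symb1 (cd.K τ) ν) (wP l κ * cjP Q)) A b)
    (h1 : ∀ e ≤ E, ∀ f ≤ E, Bd2 (sqX n) (Λ (cd.pi0 ((dv (cz (cd.θ τ)) ^ f)
      ((dv (dual (perp (cd.θ τ))) ^ e) (cd.rho τ H))))) B 2)
    (h2 : ∀ e ≤ E, BdP 0 0 (Uc E (cd.θ τ) (Λ ∘ₗ cd.rho τ) a
      ((dv (dual (perp (cd.θ τ))) ^ e) (cd.rho τ H))) W 2) :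
    nqP l κ Q ^ 2 ≤ (l + 1) * ((E + 1) * (A * ((E + 1) * 4 ^ E * B) * (b + 4 * ρ) ^ E)) +
      (E + 1) * (4 * l * (A * (W * Real.exp (2 * l))) * ((2 * ρ * R : ℕ) : ℝ) ^ (E + 2) *
        ((b + 2) / ((2 * ρ * R : ℕ) : ℝ)) ^ k) := by
  set ψ := act1 (symb1 (cd.K τ) ν) (wP l κ * cjP Q) with hψd
  obtain ⟨φ, hφ⟩ := sv_phi E (cd.θ_ne τ) a ψ
  have hG : cd.rho τ H ∈ Vp E := cd.P_le (cd.rho_P τ H hH)
  have hvan : VanP 0 l ψ k :=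
    VanP.act (symb1_natDegree _ _) (by rw [hκ]; exact (van_wP l κ).mul _)
  have hρ0 : (0 : ℝ) ≤ ρ := Nat.cast_nonneg _
  have z : ∑ j ∈ Icc (0 : ℤ) l, eval (cz (a + j • perp (cd.θ τ)))
      (UU E (LinearMap.mulLeft ℂ φ ∘ₗ Λ) (cd.rho τ H)) = 0 :=
    sum_eq_zero fun j hj => UU_mul_zero E φ Λ _
      (fun H' hH' => hΛ.2.2 H' hH' _ (sv_lat hl (cd.θ_sml τ) ha hj)) hG
  simp only [sv_split cd τ φ Λ hH, map_add, sum_add_distrib] at z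
  have d1 := dirC E (cd.θ_ne τ) (LinearMap.mulLeft ℂ φ ∘ₗ (Λ ∘ₗ cd.pi0)) a hG l
    (A := A * ((E + 1) * 4 ^ E * B)) (b := b + 4 * ρ) (by positivity) (by linarith) fun e he => by
      rw [hφ]
      exact hψ.mul (sv_uc E hl (cd.θ_sml τ) ha _ _ hB fun f hf => h1 e he f hf) hA
        (by positivity) (by linarith) (by positivity)
  have d2 := poisC E (cd.θ_ne τ) (LinearMap.mulLeft ℂ φ ∘ₗ (Λ ∘ₗ cd.rho τ)) a hG
    (α := 0) (β := l) (Nat.cast_nonneg l) hR hk (A := A * (W * Real.exp (2 * l))) (b := b + 2)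
    (by positivity) (by linarith) fun e he => by
      rw [hφ]
      refine ⟨hψ.mul ((h2 e he).shift hW (by norm_num) fun x hx => ?_) hA (by positivity)
        (by linarith) (by norm_num), hvan.mul _⟩
      rw [abs_of_nonneg hx.1]
      exact hx.2
  simp only [hφ] at d2
  rw [Int.ceil_zero, Int.floor_natCast, sub_zero, hψd,
    sv_window cd τ hH a l hΛ.2.1 hd (by omega) hQ, eq_neg_of_add_eq_zero_right z] at d2
  set X1 := ∑ j ∈ Icc (0 : ℤ) l, eval (cz (a + j • perp (cd.θ τ)))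
    (UU E (LinearMap.mulLeft ℂ φ ∘ₗ (Λ ∘ₗ cd.pi0)) (cd.rho τ H)) with hX1
  have e : ((nqP l κ Q ^ 2 : ℝ) : ℂ) = -X1 - (-X1 - ((nqP l κ Q ^ 2 : ℝ) : ℂ)) := by ring
  have t := norm_sub_le (-X1) (-X1 - ((nqP l κ Q ^ 2 : ℝ) : ℂ))
  rw [← e, norm_neg, Complex.norm_real, Real.norm_of_nonneg (sq_nonneg _)] at t
  linarith

end Core

lemma sv_exp9 : (1 : ℝ) / 20000 ≤ Real.exp (-9) := by
  have h : Real.exp 9 ≤ 20000 := by
    have e : Real.exp 9 = Real.exp 1 ^ 9 := by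
      rw [← Real.exp_nat_mul]
      norm_num
    rw [e]
    calc Real.exp 1 ^ 9 ≤ 3 ^ 9 := by
          have := Real.exp_one_lt_d9
          exact pow_le_pow_left₀ (Real.exp_pos 1).le (by linarith) 9
      _ ≤ 20000 := by norm_num
  rw [Real.exp_neg, one_div]
  exact inv_anti₀ (Real.exp_pos 9) h

lemma sv_exp3 : (9 : ℝ) ≤ Real.exp 3 := by
  have e : Real.exp 3 = Real.exp 1 ^ 3 := by
    rw [← Real.exp_nat_mul]
    norm_num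
  rw [e]
  have := Real.exp_one_gt_d9
  calc (9 : ℝ) ≤ 2.5 ^ 3 := by norm_num
    _ ≤ Real.exp 1 ^ 3 := pow_le_pow_left₀ (by norm_num) (by linarith) 3

/-- Facts on the parameters. -/
lemma sv_par {C₁ ρ R J K : ℕ} (hp : Par C₁ ρ R J K) :
    J * (C₁ + 1) + 1 ≤ K ∧ (1 : ℝ) ≤ 20 * ρ * R := by
  obtain ⟨hC, hρ, hR, hK⟩ := hp
  have h1 : (1 : ℝ) ≤ 20 * ρ * R := by
    have : 1 ≤ 20 * ρ * R := by nlinarith
    exact_mod_cast this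
  refine ⟨?_, h1⟩
  have h2 := Real.log_nonneg h1
  have hC' : (1 : ℝ) ≤ C₁ := by exact_mod_cast hC
  have hJ : (0 : ℝ) ≤ J := Nat.cast_nonneg _
  have h3 : (J : ℝ) * (C₁ + 1) + 1 ≤ K := by
    unfold aa at hK
    have a1 : (0 : ℝ) ≤ 1000 * ρ ^ 2 * C₁ ^ 2 := by positivity
    have a2 : (0 : ℝ) ≤ J * C₁ * Real.log (20 * ρ * R) := by positivity
    have a3 : (J : ℝ) ≤ J * C₁ := le_mul_of_one_le_right hJ hC'
    nlinarith
  exact_mod_cast h3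

/-- The exponential bookkeeping. -/
lemma sv_num {C₁ ρ R J K n l : ℕ} (hp : Par C₁ ρ R J K) (hl : l ≤ n) :
    Real.exp (31 * ((2 * ρ * (C₁ + 1) : ℕ) : ℝ) ^ 2 * l) ^ 2 * Real.exp (2 * l) ^ 2 * (l + 1) *
      (20 * ρ * R : ℝ) ^ (J * ((C₁ + 1) * n)) * Real.exp (9 * (J * ((C₁ + 1) * n) : ℕ)) ≤
        Real.exp (aa C₁ ρ R J * n) := by
  have h1 := (sv_par hp).2
  obtain ⟨hC, hρ, -, -⟩ := hp
  have h2 := Real.log_nonneg h1
  have hC' : (1 : ℝ) ≤ C₁ := by exact_mod_cast hC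
  have hl' : (l : ℝ) ≤ n := by exact_mod_cast hl
  have hl0 : (0 : ℝ) ≤ l := Nat.cast_nonneg _
  have e1 : (20 * ρ * R : ℝ) ^ (J * ((C₁ + 1) * n)) =
      Real.exp ((J * ((C₁ + 1) * n) : ℕ) * Real.log (20 * ρ * R)) := by
    rw [Real.exp_nat_mul, Real.exp_log (by linarith)]
  have e2 : (l : ℝ) + 1 ≤ Real.exp l := Real.add_one_le_exp _
  rw [e1]
  refine le_trans (b := Real.exp (31 * ((2 * ρ * (C₁ + 1) : ℕ) : ℝ) ^ 2 * l) ^ 2 *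
    Real.exp (2 * l) ^ 2 * Real.exp l *
      Real.exp ((J * ((C₁ + 1) * n) : ℕ) * Real.log (20 * ρ * R)) *
        Real.exp (9 * (J * ((C₁ + 1) * n) : ℕ))) (by gcongr) ?_
  simp only [sq (Real.exp _), ← Real.exp_add]
  refine Real.exp_le_exp.mpr ?_
  unfold aa
  push_cast
  have a1 : (2 * ρ * (C₁ + 1) : ℝ) ^ 2 ≤ 16 * ρ ^ 2 * C₁ ^ 2 := by
    have : (2 * ρ * (C₁ + 1) : ℝ) ≤ 4 * ρ * C₁ := by
      have : (0 : ℝ) ≤ ρ := Nat.cast_nonneg _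
      nlinarith
    calc (2 * ρ * (C₁ + 1) : ℝ) ^ 2 ≤ (4 * ρ * C₁) ^ 2 :=
          pow_le_pow_left₀ (by positivity) this 2
      _ = 16 * ρ ^ 2 * C₁ ^ 2 := by ring
  have a2 : (2 * ρ * (C₁ + 1) : ℝ) ^ 2 * l ≤ 16 * ρ ^ 2 * C₁ ^ 2 * n := by gcongr
  have a3 : (J : ℝ) * ((C₁ + 1) * n) ≤ J * ((2 * C₁) * n) := by
    gcongr
    linarith
  have a4 := mul_le_mul_of_nonneg_right a3 h2
  have a5 : (0 : ℝ) ≤ ρ ^ 2 * C₁ ^ 2 * n := by positivity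
  nlinarith

lemma sv_nat {C₁ ρ J K n : ℕ} (hρ : 1 ≤ ρ) (hn : ρ ≤ n) (hJK : J * (C₁ + 1) + 1 ≤ K) :
    1 ≤ n / ρ ∧ n ≤ 2 * ρ * (n / ρ) ∧ C₁ * n < (C₁ + 1) * n ∧ J * ((C₁ + 1) * n) + n ≤ K * n ∧
      (C₁ + 1) * n ≤ 2 * ρ * (C₁ + 1) * (n / ρ) ∧ 1 ≤ 2 * ρ * (C₁ + 1) := by
  have h1 : 1 ≤ n / ρ := (Nat.le_div_iff_mul_le hρ).mpr (by omega)
  have h2 : n ≤ 2 * ρ * (n / ρ) := by
    have := Nat.lt_mul_div_succ n hρ
    nlinarith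
  refine ⟨h1, h2, ?_, ?_, ?_, ?_⟩
  · rw [add_mul]
    omega
  · have := Nat.mul_le_mul_right n hJK
    nlinarith
  · have := Nat.mul_le_mul_left (C₁ + 1) h2
    nlinarith
  · nlinarith

lemma sv_rate {ρ K n l : ℕ} (hl : 1 ≤ l) (h : n ≤ 2 * ρ * l) :
    2 * ((K * n : ℕ) : ℝ) / l + 2 ≤ 4 * K * ρ + 2 := by
  have hl0 : (0 : ℝ) < l := by exact_mod_cast hl
  have h1 : (n : ℝ) ≤ 2 * ρ * l := by exact_mod_cast h
  have h2 : 2 * ((K * n : ℕ) : ℝ) / l ≤ 4 * K * ρ := by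
    rw [div_le_iff₀ hl0]
    push_cast
    have : (0 : ℝ) ≤ K := Nat.cast_nonneg _
    nlinarith
  linarith

lemma sv_real {ρ R K : ℕ} (hρ : 1 ≤ ρ) (hR : 40000 * (K + 1) ≤ R) :
    1 ≤ 2 * ρ * R ∧ (4 * K * ρ + 2 + 2) / ((2 * ρ * R : ℕ) : ℝ) ≤ Real.exp (-9) ∧
      ∀ m : ℤ, |m| ≤ 2 * ρ * R → ‖wm m‖ + (4 * K * ρ + 2) ≤ 20 * ρ * R := by
  have hρ' : (1 : ℝ) ≤ ρ := by exact_mod_cast hρ
  have hRr : (40000 : ℝ) * (K + 1) ≤ R := by exact_mod_cast hR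
  have hK0 : (0 : ℝ) ≤ K := Nat.cast_nonneg _
  have h0 : 1 ≤ 2 * ρ * R := by nlinarith
  have h1 : (40000 : ℝ) * (K + 1) * ρ ≤ R * ρ := by gcongr
  refine ⟨h0, le_trans ?_ sv_exp9, fun m hm => ?_⟩
  · rw [div_le_div_iff₀ (by exact_mod_cast h0) (by norm_num)]
    push_cast
    nlinarith
  · have h2 : |(m : ℝ)| ≤ 2 * ρ * R := by exact_mod_cast hm
    have h3 := Real.pi_le_four
    have h4 : 2 * Real.pi * |(m : ℝ)| ≤ 2 * 4 * (2 * ρ * R) := by gcongr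
    rw [norm_wm]
    nlinarith

lemma sv_tail {t : ℝ} (h0 : 0 ≤ t) (h1 : t ≤ Real.exp (-9)) {κ i j : ℕ} (h : i ≤ j) :
    t ^ (κ - i) ≤ Real.exp (9 * (j : ℕ)) * Real.exp (-9 * (κ : ℝ)) := by
  refine (pow_le_pow_left₀ h0 h1 _).trans ?_
  rw [← Real.exp_nat_mul, ← Real.exp_add]
  refine Real.exp_le_exp.mpr ?_
  have h2 : κ ≤ (κ - i) + j := by omega
  have h3 : (κ : ℝ) ≤ ((κ - i : ℕ) : ℝ) + j := by exact_mod_cast h2
  linarith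

lemma sv_nine {l : ℝ} (hl : 0 < l) (K n : ℕ) :
    (3 / l) ^ (K * n) * (3 / l) ^ (K * n) * l ^ (2 * (K * n)) ≤ Real.exp (3 * K * n) := by
  have e : (3 / l) ^ (K * n) * (3 / l) ^ (K * n) * l ^ (2 * (K * n)) = 9 ^ (K * n) := by
    rw [pow_mul l 2, ← mul_pow, ← mul_pow]
    congr 1
    field_simp
    norm_num
  rw [e]
  refine (pow_le_pow_left₀ (by norm_num) sv_exp3 _).trans (le_of_eq ?_)
  rw [← Real.exp_nat_mul]
  push_cast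
  ring_nf

/-- Solving the quadratic inequality. -/
lemma sv_solve {q x p w e2 l y z L t N V c4 c5 e3 ea : ℝ} (hq : 0 ≤ q) (hx : 0 ≤ x) (hp : 0 ≤ p)
    (hw : 0 ≤ w) (he2 : 1 ≤ e2) (hl : 0 ≤ l) (hy : 1 ≤ y) (hz : 0 ≤ z) (hL : 0 ≤ L)
    (hN : 0 ≤ N) (hV : 0 ≤ V) (h4 : 0 ≤ c4) (h5 : 0 ≤ c5) (ht : t ≤ y * z)
    (h9 : p * p * w ≤ e3) (ha : x ^ 2 * e2 ^ 2 * (l + 1) * L * y ≤ ea)
    (core : q ^ 2 ≤ w * (x * p * q * e2) * L * ((l + 1) * (c4 * N) + e2 * l * c5 * V * t)) :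
    x * p * q ≤ (c4 + c5) * (e3 * ea * N + e3 * ea * z * V) := by
  have he0 : 0 ≤ e2 := by linarith
  have hy0 : 0 ≤ y := by linarith
  have he3 : 0 ≤ e3 := le_trans (by positivity) h9
  have hea : 0 ≤ ea := le_trans (by positivity) ha
  have t1 : (l + 1) * (c4 * N) + e2 * l * c5 * V * t ≤
      e2 * (l + 1) * y * (c4 * N + c5 * (z * V)) := by
    have t3 : 1 * (l + 1) * 1 * (c4 * N) ≤ e2 * (l + 1) * y * (c4 * N) := by gcongr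
    have t4 : e2 * l * c5 * V * t ≤ e2 * (l + 1) * c5 * V * (y * z) :=
      (mul_le_mul_of_nonneg_left ht (by positivity)).trans (by gcongr; linarith)
    linarith
  have hq1 : q ≤ w * (x * p * e2) * L * (e2 * (l + 1) * y * (c4 * N + c5 * (z * V))) := by
    rcases hq.eq_or_lt with h | h
    · rw [← h]
      positivity
    · refine le_of_mul_le_mul_left ?_ h
      have := core.trans (mul_le_mul_of_nonneg_left t1 (by positivity))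
      linarith
  calc x * p * q
      ≤ x * p * (w * (x * p * e2) * L * (e2 * (l + 1) * y * (c4 * N + c5 * (z * V)))) := by gcongr
    _ = (p * p * w) * (x ^ 2 * e2 ^ 2 * (l + 1) * L * y) * (c4 * N + c5 * (z * V)) := by ring
    _ ≤ e3 * ea * ((c4 + c5) * N + (c4 + c5) * (z * V)) := by
      gcongr <;> linarith
    _ = _ := by ring

theorem stepV {F : S} {ρ R J E C₁ K : ℕ} (cd : CD F ρ R J E) (hp : Par C₁ ρ R J K) {r r' : ℕ}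
    (bP : Fin r → S) (bM : Fin r' → S) (hP : Submodule.span ℂ (Set.range bP) = cd.P)
    (hM : Submodule.span ℂ (Set.range bM) = cd.Mid) : ∃ c : ℝ, 0 ≤ c ∧ ∃ n₀ : ℕ, ∀ n, n₀ ≤ n →
      ∀ (Λ : S →ₗ[ℂ] S) (N V : ℝ), 0 ≤ N → 0 ≤ V → Adm F E C₁ n Λ → NB n Λ bM N →
        VB cd n Λ bP V → VB cd n Λ bP (c * (Real.exp ((3 * K + aa C₁ ρ R J) * n) * N +
          Real.exp ((aa C₁ ρ R J - 6 * K) * n) * V)) := by
  have hbP : ∀ k, bP k ∈ cd.P := fun k => hP ▸ Submodule.subset_span ⟨k, rfl⟩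
  have hmem : ∀ τ k e, (dv (dual (perp (cd.θ τ))) ^ e) (cd.rho τ (bP k)) ∈ cd.P := fun τ k e =>
    dv_pow_mem (cd.P_dv _) e (cd.rho_P τ _ (hbP k))
  obtain ⟨c1, hc1, hd1⟩ := exists_dom bM
    (fun i : Fin cd.t × Fin r × Fin (E + 1) × Fin (E + 1) => cd.pi0 ((dv (cz (cd.θ i.1)) ^ (i.2.2.2 : ℕ))
      ((dv (dual (perp (cd.θ i.1))) ^ (i.2.2.1 : ℕ)) (cd.rho i.1 (bP i.2.1)))))
    fun i => hM ▸ cd.pi0_mem (dv_pow_mem (cd.P_dv _) _ (hmem _ _ _))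
  obtain ⟨c3, hc3, hd3⟩ := exists_dom bP
    (fun i : Fin cd.t × Fin r × Fin (E + 1) =>
      (dv (dual (perp (cd.θ i.1))) ^ (i.2.2 : ℕ)) (cd.rho i.1 (bP i.2.1)))
    fun i => hP ▸ hmem _ _ _
  obtain ⟨hJK, hL1⟩ := sv_par hp
  have hρ := hp.2.1
  obtain ⟨hR1, hR2, hR3⟩ := sv_real hρ hp.2.2.1
  have hb0 : (0 : ℝ) ≤ 4 * K * ρ := by positivity
  have hc4 : (0 : ℝ) ≤ (E + 1) * ((E + 1) * 4 ^ E * c1 * (4 * K * ρ + 2 + 4 * ρ) ^ E) := by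
    positivity
  have hc5 : (0 : ℝ) ≤ (E + 1) * (4 * c3 * ((2 * ρ * R : ℕ) : ℝ) ^ (E + 2)) := by positivity
  refine ⟨_, add_nonneg hc4 hc5, E + 2 + ρ, fun n hn Λ N V hN hV hΛ hNB hVB τ a ha k => ?_⟩
  obtain ⟨hl2, hl3, hd, hJν, hl5, hC0⟩ := sv_nat (n := n) hρ (by omega) hJK
  have hl1 : ρ * (n / ρ) ≤ n := Nat.mul_div_le n ρ
  have hnum := sv_num hp (Nat.div_le_self n ρ)
  generalize n / ρ = l at hl1 hl2 hl3 hl5 hnum
  have hl0 : (0 : ℝ) < l := by exact_mod_cast hl2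
  have hrate := sv_rate (K := K) hl2 hl3
  have h9 := sv_nine hl0 K n
  have f1 : Real.exp ((3 * K + aa C₁ ρ R J) * n) =
      Real.exp (3 * K * n) * Real.exp (aa C₁ ρ R J * n) := by
    rw [← Real.exp_add]
    ring_nf
  have f2 : Real.exp ((aa C₁ ρ R J - 6 * K) * n) =
      Real.exp (3 * K * n) * Real.exp (aa C₁ ρ R J * n) * Real.exp (-9 * ((K * n : ℕ) : ℝ)) := by
    rw [← Real.exp_add, ← Real.exp_add]
    push_cast
    ring_nf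
  rw [f1, f2]
  generalize (C₁ + 1) * n = ν at hd hJν hl5 hnum
  generalize K * n = κ at hJν hrate h9 ⊢
  have hKν : (cd.K τ).card * ν ≤ J * ν := Nat.mul_le_mul_right ν (cd.K_card τ)
  obtain ⟨Q, hQ⟩ : ∃ Q, Q = act1 ((symb1 (cd.K τ) ν).comp (-Polynomial.X))
    (Uc E (cd.θ τ) (Λ ∘ₗ cd.rho τ) a (bP k)) := ⟨_, rfl⟩
  have hdeg : Q.natDegree < 2 * ρ * (C₁ + 1) * l := by
    rw [hQ]
    exact (((act1_natDegree _ _).trans
      (sv_deg E _ (T := Λ ∘ₗ cd.rho τ) (fun G => hΛ.2.1 (cd.rho τ G)) a _)).trans_lt hd).trans_le hl5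
  have g1 := growthP hC0 hl2 κ hdeg
  have hq0 := nqP_nonneg l κ Q
  have hx0 := (Real.exp_pos (31 * ((2 * ρ * (C₁ + 1) : ℕ) : ℝ) ^ 2 * l)).le
  generalize Real.exp (31 * ((2 * ρ * (C₁ + 1) : ℕ) : ℝ) ^ 2 * l) = x at g1 hx0 hnum
  have hAQ : 0 ≤ x * (3 / (l : ℝ)) ^ κ * nqP l κ Q := by positivity
  have g2 : BdP 0 l Q (x * (3 / (l : ℝ)) ^ κ * nqP l κ Q * Real.exp (2 * l)) 2 :=
    g1.shift hAQ (by norm_num) fun y hy => by
      rw [abs_of_nonneg hy.1]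
      exact hy.2
  have g3 := ((bd_wP hl2 κ).mul g2.cj (by positivity) (by positivity) (by positivity)
    (by norm_num)).mono (by positivity) (by positivity) le_rfl hrate
  have g5 := (g3.symb (by positivity) (by positivity) (cd.K τ) ν
    fun m hm => hR3 m (cd.K_mem τ m hm).2).mono (by positivity) (by positivity)
      (mul_le_mul_of_nonneg_left (pow_le_pow_right₀ hL1 hKν) (by positivity)) le_rfl
  have core := sv_core cd τ (hbP k) hl1 ha hΛ hd (k := κ - (cd.K τ).card * ν) (κ := κ)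
    (by omega) (by omega) hR1 hQ (by positivity) (by linarith only [hb0]) (mul_nonneg hc1 hN)
    (mul_nonneg hc3 hV) g5
    (fun e he f hf => (hd1 (τ, k, ⟨e, by omega⟩, ⟨f, by omega⟩)).bd2 Λ hN (by norm_num) hNB)
    (fun e he => (hd3 (τ, k, ⟨e, by omega⟩)).uc E _ _ a hV (by norm_num) (hVB τ a ha))
  refine (BdP.inv (cd.K τ) (fun m hm => (cd.K_mem τ m hm).1) ν (hQ ▸ g1)).mono hAQ (by norm_num)
    ?_ le_rfl
  refine sv_solve hq0 hx0 (by positivity) (by positivity)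
    (Real.one_le_exp (by positivity)) hl0.le (Real.one_le_exp (by positivity)) (Real.exp_pos _).le
    (by positivity) hN hV hc4 hc5 (sv_tail (by positivity) hR2 hKν) h9 hnum
    (core.trans (le_of_eq ?_))
  ring

end Pool.Agent.Lib.MP_1f047c_nt.TA
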