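import Pool.Agent.Lib.MP_1f047c_nt.TATwoA

/-! Estimates for polynomials in two variables. -/

open Finset MvPolynomial

namespace Pool.Agent.Lib.MP_1f047c_nt.TA

open PL (wm)

variable {Ω Ω' : Set (ℝ × ℝ)} {P Q : S} {A A' b b' : ℝ}

private lemma two_zero (hA : 0 ≤ A) (hb : 0 ≤ b) : Bd2 Ω 0 A b := by
  intro i j x _
  rw [map_zero, map_zero, norm_zero]
  positivity

/-- Change of the rate for a polynomial of bounded degree. -/
lemma Bd2.rebase (h : Bd2 Ω P A 2) (hA : 0 ≤ A) {d ρ : ℕ} (hρ : 1 ≤ ρ) (hP : P ∈ Vp d) :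
    Bd2 Ω P (A * (2 * ρ) ^ d) (1 / ρ) := by
  intro i j x hx
  have hρ1 : (1 : ℝ) ≤ ρ := by exact_mod_cast hρ
  rcases lt_or_ge d (i + j) with hd | hd
  · rw [dv_pow_zero e0 e1 hP hd, map_zero, norm_zero]
    positivity
  · refine (h i j x hx).trans ?_
    have h1 : (2 * (ρ : ℝ)) ^ (i + j) ≤ (2 * ρ) ^ d := pow_le_pow_right₀ (by linarith) hd
    have h2 : (2 : ℝ) ^ (i + j) = (2 * (ρ : ℝ)) ^ (i + j) * (1 / ρ) ^ (i + j) := by
      rw [← mul_pow]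
      congr 1
      field_simp
    rw [h2, mul_assoc]
    gcongr

/-- Inversion of one factor. -/
private lemma two_inv_one (v : Fin 2 → ℂ) (w : ℂ) (hb : 0 ≤ b) (hv : (‖v 0‖ + ‖v 1‖) * b ≤ 2)
    (hw : 3 ≤ ‖w‖) (k : ℕ) : ∀ (P : S) (A : ℝ), (TA.dv v ^ k) P = 0 → 0 ≤ A →
      Bd2 Ω (act (-lin v - C w) P) A b → Bd2 Ω P A b := by
  have hact : ∀ P : S, act (-lin v - C w) P = -TA.dv v P - w • P := by
    intro P
    rw [map_sub, map_neg, act_lin, act_C]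
    rfl
  have hw0 : w ≠ 0 := by
    rintro rfl
    rw [norm_zero] at hw
    linarith
  induction k with
  | zero =>
    intro P A hP hA _
    rw [pow_zero, Module.End.one_apply] at hP
    rw [hP]
    exact two_zero hA hb
  | succ k ih =>
    intro P A hP hA h
    have h1 : Bd2 Ω (act (-lin v - C w) (TA.dv v P)) (A * 2) b := by
      have h2 := act_dv (-lin v - C w) v 1 P
      rw [pow_one] at h2
      rw [← h2]
      refine (h.dv v).mono (mul_nonneg hA (by positivity)) hb ?_ le_rfl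
      exact mul_le_mul_of_nonneg_left hv hA
    have h3 : Bd2 Ω (TA.dv v P) (A * 2) b := by
      refine ih _ _ ?_ (by positivity) h1
      rw [pow_succ, Module.End.mul_apply] at hP
      exact hP
    have h4 := (h.add h3).smul (-w⁻¹)
    have e : (-w⁻¹) • (act (-lin v - C w) P + TA.dv v P) = P := by
      rw [hact, show -TA.dv v P - w • P + TA.dv v P = -(w • P) by abel, smul_neg, smul_smul,
        neg_mul, inv_mul_cancel₀ hw0, neg_smul, one_smul, neg_neg]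
    rw [e] at h4
    refine h4.mono (by positivity) hb ?_ le_rfl
    rw [norm_neg, norm_inv, inv_mul_le_iff₀ (by linarith)]
    nlinarith

/-- Symbols whose operators can be inverted without loss. -/
private def twoInv (Ω : Set (ℝ × ℝ)) (b : ℝ) : Submonoid S where
  carrier := {g | ∀ (P : S) (A : ℝ), 0 ≤ A → Bd2 Ω (act g P) A b → Bd2 Ω P A b}
  mul_mem' := fun {g g'} hg hg' P A hA h => by
    rw [act_mul_apply] at h
    exact hg' P A hA (hg _ A hA h)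
  one_mem' := fun P A _ h => by
    rw [map_one, Module.End.one_apply] at h
    exact h

private lemma two_norm_cz (v : ℤ × ℤ) : ‖cz v 0‖ + ‖cz v 1‖ = |(v.1 : ℝ)| + |(v.2 : ℝ)| := by
  simp [cz]

/-- Inversion of the operator (rebase to the rate `1 / ρ`, invert factor by factor). -/
lemma Bd2.inv (𝓛 : Finset ((ℤ × ℤ) × ℤ)) (ν : ℕ) {ρ d : ℕ} (hρ : 1 ≤ ρ)
    (hL : ∀ l ∈ 𝓛, Sml ρ l.1 ∧ l.2 ≠ 0) (hP : P ∈ Vp d) (hA : 0 ≤ A)
    (h : Bd2 Ω (act (adj 0 (TA.symb 𝓛 ν)) P) A 2) : Bd2 Ω P (A * (2 * ρ) ^ d) 2 := by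
  have hρ1 : (1 : ℝ) ≤ ρ := by exact_mod_cast hρ
  have hb : (0 : ℝ) ≤ 1 / ρ := by positivity
  have h1 := h.rebase hA hρ (act_Vp _ hP)
  have hm : adj 0 (TA.symb 𝓛 ν) ∈ twoInv Ω (1 / ρ) := by
    unfold TA.symb
    rw [map_prod]
    refine prod_mem fun l hl => ?_
    rw [map_pow]
    refine pow_mem ?_ ν
    have e : adj 0 (lin (cz l.1) - C (wm l.2)) = -lin (cz l.1) - C (wm l.2) := by
      rw [map_sub, adj_lin]
      simp [dotC, adj]
    rw [e]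
    intro P A hA h
    obtain ⟨E, hE⟩ := exists_mem_Vp P
    obtain ⟨⟨h1, h2⟩, h3⟩ := hL l hl
    refine two_inv_one (cz l.1) (wm l.2) hb ?_ ?_ (E + 1) P A ?_ hA h
    · rw [two_norm_cz]
      have h1' : |(l.1.1 : ℝ)| ≤ ρ := by exact_mod_cast h1
      have h2' : |(l.1.2 : ℝ)| ≤ ρ := by exact_mod_cast h2
      rw [mul_one_div, div_le_iff₀ (by linarith)]
      linarith
    · rw [norm_wm]
      have h4 : (1 : ℝ) ≤ |(l.2 : ℝ)| := by exact_mod_cast Int.one_le_abs h3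
      nlinarith [Real.pi_gt_three]
    · have := dv_pow_zero (cz l.1) (cz l.1) (i := E + 1) (j := 0) hE (by omega)
      rwa [pow_zero, mul_one] at this
  refine (hm P _ (by positivity) h1).mono (by positivity) hb le_rfl ?_
  rw [div_le_iff₀ (by linarith)]
  linarith

private lemma two_tr (h : Bd2 Ω P A b) (hA : 0 ≤ A) (hb : 0 ≤ b) (ξ : Fin 2 → ℂ) :
    Bd2 Ω (tr ξ P) (A * Real.exp ((‖ξ 0‖ + ‖ξ 1‖) * b)) b := by
  obtain ⟨E, hE⟩ := exists_mem_Vp P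
  rw [taylor ξ hE]
  have h1 := Bd2.sum (range (E + 1)) (fun e => ((e.factorial : ℂ)⁻¹) • (TA.dv ξ ^ e) P)
    (fun e => ‖((e.factorial : ℂ)⁻¹)‖ * (A * ((‖ξ 0‖ + ‖ξ 1‖) * b) ^ e))
    (fun e _ => (h.dv_pow ξ e).smul _)
  refine h1.mono (sum_nonneg fun e _ => by positivity) hb ?_ le_rfl
  have h2 := Real.sum_le_exp_of_nonneg (x := (‖ξ 0‖ + ‖ξ 1‖) * b) (by positivity) (E + 1)
  refine le_trans (le_of_eq ?_) (mul_le_mul_of_nonneg_left h2 hA)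
  rw [mul_sum]
  refine sum_congr rfl fun e _ => ?_
  rw [norm_inv, Complex.norm_natCast]
  ring

private lemma two_eval (ξ : Fin 2 → ℂ) (i j : ℕ) (P : S) :
    eval (cr (0, 0)) ((TA.dv e0 ^ i * TA.dv e1 ^ j) (tr ξ P)) =
      eval ξ ((TA.dv e0 ^ i * TA.dv e1 ^ j) P) := by
  have e : cr (0, 0) + ξ = ξ := by
    funext k
    fin_cases k <;> simp [cr]
  rw [Module.End.mul_apply, dv_pow_tr, dv_pow_tr, eval_tr, e, Module.End.mul_apply]

/-- From the origin to the big square. -/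
lemma Bd2.shift (h : Bd2 {(0, 0)} P A 2) (hA : 0 ≤ A) (n : ℕ) :
    Bd2 (sqX n) P (A * Real.exp (8 * n)) 2 := by
  intro i j x hx
  have h1 := two_tr h hA (by norm_num) (cr x) i j (0, 0) rfl
  rw [two_eval] at h1
  refine h1.trans ?_
  obtain ⟨⟨h2, h3⟩, h4, h5⟩ := hx
  have hn : (0 : ℝ) ≤ n := Nat.cast_nonneg n
  have h6 : |x.1| ≤ 2 * n := abs_le.2 ⟨by linarith, h3⟩
  have h7 : |x.2| ≤ 2 * n := abs_le.2 ⟨by linarith, h5⟩
  have h8 : ‖cr x 0‖ + ‖cr x 1‖ = |x.1| + |x.2| := by simp [cr]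
  rw [h8]
  have h9 : Real.exp ((|x.1| + |x.2|) * 2) ≤ Real.exp (8 * n) := Real.exp_le_exp.2 (by linarith)
  gcongr

lemma Bd2.lr (h : Bd2 Ω P A b) (a v : ℤ × ℤ) {α β : ℝ}
    (hΩ : ∀ y ∈ Set.Icc α β, ((a.1 : ℝ) + y * v.1, (a.2 : ℝ) + y * v.2) ∈ Ω) :
    BdP α β (lr (cz a) (cz v) P) A ((|(v.1 : ℝ)| + |(v.2 : ℝ)|) * b) := by
  intro k y hy
  have h1 := h.dv_pow (cz v) k 0 0 _ (hΩ y hy)
  have e : cz a + (y : ℂ) • cz v = cr ((a.1 : ℝ) + y * v.1, (a.2 : ℝ) + y * v.2) := by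
    funext k
    fin_cases k <;> simp [cr, cz]
  rw [lr_dv_pow, lr_evalC, e]
  rw [two_norm_cz] at h1
  simpa using h1

lemma exists_bd2 (n : ℕ) (P : S) : ∃ A, 0 ≤ A ∧ Bd2 (sqX n) P A 2 := by
  obtain ⟨E, hE⟩ := exists_mem_Vp P
  set f : ℕ × ℕ → ℝ := fun p => ‖eval (cr (0, 0)) ((TA.dv e0 ^ p.1 * TA.dv e1 ^ p.2) P)‖ with hf
  have hA : 0 ≤ ∑ p ∈ range (E + 1) ×ˢ range (E + 1), f p := sum_nonneg fun _ _ => norm_nonneg _
  refine ⟨_, by positivity, Bd2.shift ?_ hA n⟩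
  rintro i j x rfl
  rcases lt_or_ge E (i + j) with hd | hd
  · rw [dv_pow_zero e0 e1 hE hd, map_zero, norm_zero]
    positivity
  · have h1 : f (i, j) ≤ ∑ p ∈ range (E + 1) ×ˢ range (E + 1), f p :=
      single_le_sum (f := f) (fun _ _ => norm_nonneg _)
        (mem_product.2 ⟨mem_range.2 (by omega), mem_range.2 (by omega)⟩)
    exact h1.trans (le_mul_of_one_le_right hA (one_le_pow₀ (by norm_num)))

lemma zero_of_bd2 {n : ℕ} (hn : 1 ≤ n) (h : ∀ ε : ℝ, 0 < ε → Bd2 (sqX n) P ε 2) : P = 0 := by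
  refine MvPolynomial.funext fun ξ => ?_
  rw [map_zero, ← norm_le_zero_iff]
  have hn1 : (1 : ℝ) ≤ n := by exact_mod_cast hn
  have h0 : ((0 : ℝ), (0 : ℝ)) ∈ sqX n := ⟨⟨by linarith, by linarith⟩, by linarith, by linarith⟩
  refine le_of_forall_pos_le_add fun ε hε => ?_
  have hc : 0 < Real.exp ((‖ξ 0‖ + ‖ξ 1‖) * 2) := Real.exp_pos _
  have h1 := two_tr (h _ (div_pos hε hc)) (div_pos hε hc).le (by norm_num) ξ 0 0 (0, 0) h0
  rw [two_eval, div_mul_cancel₀ _ hc.ne'] at h1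
  simpa using h1

lemma exists_dom {r : ℕ} (b : Fin r → S) {ι : Type} [Finite ι] (H : ι → S)
    (h : ∀ i, H i ∈ Submodule.span ℂ (Set.range b)) : ∃ c : ℝ, 0 ≤ c ∧ ∀ i, Dom b (H i) c := by
  choose γ hγ using fun i => (Submodule.mem_span_range_iff_exists_fun ℂ).1 (h i)
  obtain ⟨c, hc⟩ := Finite.exists_le fun i => ∑ k, ‖γ i k‖
  exact ⟨max c 0, le_max_right _ _, fun i => ⟨γ i, (hγ i).symm, (hc i).trans (le_max_left _ _)⟩⟩

lemma Dom.bd2 {r : ℕ} {b : Fin r → S} {H : S} {c N β : ℝ} (h : Dom b H c) (T : S →ₗ[ℂ] S)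
    (hN : 0 ≤ N) (hβ : 0 ≤ β) (hb : ∀ k, Bd2 Ω (T (b k)) N β) : Bd2 Ω (T H) (c * N) β := by
  obtain ⟨γ, rfl, hc⟩ := h
  rw [map_sum]
  simp_rw [map_smul]
  refine (Bd2.sum univ (fun k => γ k • T (b k)) (fun k => ‖γ k‖ * N)
    fun k _ => (hb k).smul _).mono (sum_nonneg fun k _ => by positivity) hβ ?_ le_rfl
  rw [← sum_mul]
  exact mul_le_mul_of_nonneg_right hc hN

lemma Dom.bdP {r : ℕ} {b : Fin r → S} {H : S} {c N γ α β : ℝ} (h : Dom b H c)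
    (T : S →ₗ[ℂ] Polynomial ℂ) (hN : 0 ≤ N) (hγ : 0 ≤ γ) (hb : ∀ k, BdP α β (T (b k)) N γ) :
    BdP α β (T H) (c * N) γ := by
  obtain ⟨u, rfl, hc⟩ := h
  rw [map_sum]
  simp_rw [map_smul]
  refine (BdP.sum univ (fun k => u k • T (b k)) (fun k => ‖u k‖ * N)
    fun k _ => (hb k).smul _).mono (sum_nonneg fun k _ => by positivity) hγ ?_ le_rfl
  rw [← sum_mul]
  exact mul_le_mul_of_nonneg_right hc hN

lemma Dom.uc {r : ℕ} {b : Fin r → S} {H : S} {c N γ α β : ℝ} (h : Dom b H c) (E : ℕ) (θ : ℤ × ℤ)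
    (T : S →ₗ[ℂ] S) (a : ℤ × ℤ) (hN : 0 ≤ N) (hγ : 0 ≤ γ)
    (hb : ∀ k, BdP α β (Uc E θ T a (b k)) N γ) : BdP α β (Uc E θ T a H) (c * N) γ :=
  h.bdP ((TA.lr (cz a) (cz (perp θ))).toLinearMap ∘ₗ Ex E (dual θ) (cz θ) T) hN hγ hb

lemma exists_span {W : Submodule ℂ S} {E : ℕ} (h : W ≤ Vp E) :
    ∃ (r : ℕ) (b : Fin r → S), Submodule.span ℂ (Set.range b) = W := by
  have h1 : FiniteDimensional ℂ W := Submodule.finiteDimensional_of_le h
  exact Submodule.fg_iff_exists_fin_generating_family.1 (Module.Finite.iff_fg.1 h1)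

end Pool.Agent.Lib.MP_1f047c_nt.TA
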