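import Pool.Agent.Lib.MP_1f047c_nt.TAOne

/-! Estimates for polynomials in two variables. -/

open Finset MvPolynomial

namespace Pool.Agent.Lib.MP_1f047c_nt.TA

open PL (wm)

variable {Ω Ω' : Set (ℝ × ℝ)} {P Q : S} {A A' b b' : ℝ}

lemma Bd2.mono (h : Bd2 Ω P A b) (hA : 0 ≤ A) (hb : 0 ≤ b) (h1 : A ≤ A') (h2 : b ≤ b') :
    Bd2 Ω P A' b' := fun i j x hx =>
  (h i j x hx).trans (mul_le_mul h1 (pow_le_pow_left₀ hb h2 _) (pow_nonneg hb _) (hA.trans h1))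

lemma Bd2.subset (h : Bd2 Ω P A b) (hΩ : Ω' ⊆ Ω) : Bd2 Ω' P A b := fun i j x hx => h i j x (hΩ hx)

lemma sqB_subset (n : ℕ) : sqB n ⊆ sqX n := by
  have h0 : (0 : ℝ) ≤ n := Nat.cast_nonneg n
  have h : Set.Icc (0 : ℝ) n ⊆ Set.Icc (-(n : ℝ)) (2 * n) :=
    Set.Icc_subset_Icc (by linarith) (by linarith)
  exact Set.prod_mono h h

lemma latB_subset (n : ℕ) : latB n ⊆ latX n := by
  have h : Icc (0 : ℤ) n ⊆ Icc (-(n : ℤ)) (2 * n) := Finset.Icc_subset_Icc (by omega) (by omega)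
  exact Finset.product_subset_product h h

lemma Bd2.add (h : Bd2 Ω P A b) (h' : Bd2 Ω Q A' b) : Bd2 Ω (P + Q) (A + A') b := by
  intro i j x hx
  rw [map_add, map_add, add_mul]
  exact (norm_add_le _ _).trans (add_le_add (h i j x hx) (h' i j x hx))

lemma Bd2.smul (h : Bd2 Ω P A b) (c : ℂ) : Bd2 Ω (c • P) (‖c‖ * A) b := by
  intro i j x hx
  rw [map_smul, smul_eval, norm_mul, mul_assoc]
  exact mul_le_mul_of_nonneg_left (h i j x hx) (norm_nonneg c)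

private lemma twoA_zero (hA : 0 ≤ A) (hb : 0 ≤ b) : Bd2 Ω 0 A b := by
  intro i j x _
  rw [map_zero, map_zero, norm_zero]
  exact mul_nonneg hA (pow_nonneg hb _)

lemma Bd2.sum {ι : Type} (s : Finset ι) (f : ι → S) (B : ι → ℝ)
    (h : ∀ i ∈ s, Bd2 Ω (f i) (B i) b) : Bd2 Ω (∑ i ∈ s, f i) (∑ i ∈ s, B i) b := by
  intro i j x hx
  rw [map_sum, map_sum, Finset.sum_mul]
  exact (norm_sum_le _ _).trans (Finset.sum_le_sum fun k hk => h k hk i j x hx)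

private lemma twoA_succ0 (i j : ℕ) (P : S) :
    (dv e0 ^ (i + 1) * dv e1 ^ j) P = (dv e0 ^ i * dv e1 ^ j) (dv e0 P) := by
  rw [pow_succ, mul_assoc, ((dv_comm e0 e1).pow_right j).eq, ← mul_assoc, Module.End.mul_apply]

private lemma twoA_succ1 (i j : ℕ) (P : S) :
    (dv e0 ^ i * dv e1 ^ (j + 1)) P = (dv e0 ^ i * dv e1 ^ j) (dv e1 P) := by
  rw [pow_succ, ← mul_assoc, Module.End.mul_apply]

private lemma twoA_d0 (h : Bd2 Ω P A b) : Bd2 Ω (dv e0 P) (A * b) b := by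
  intro i j x hx
  rw [← twoA_succ0]
  refine (h (i + 1) j x hx).trans_eq ?_
  ring

private lemma twoA_d1 (h : Bd2 Ω P A b) : Bd2 Ω (dv e1 P) (A * b) b := by
  intro i j x hx
  rw [← twoA_succ1]
  refine (h i (j + 1) x hx).trans_eq ?_
  ring

private lemma twoA_val (h : Bd2 Ω P A b) {x : ℝ × ℝ} (hx : x ∈ Ω) : ‖eval (cr x) P‖ ≤ A := by
  simpa using h 0 0 x hx

private lemma twoA_of (h : ∀ x ∈ Ω, ‖eval (cr x) P‖ ≤ A) (h0 : Bd2 Ω (dv e0 P) (A * b) b)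
    (h1 : Bd2 Ω (dv e1 P) (A * b) b) : Bd2 Ω P A b := by
  intro i j x hx
  rcases i with _ | i
  · rcases j with _ | j
    · simpa using h x hx
    · rw [twoA_succ1]
      refine (h1 0 j x hx).trans_eq ?_
      ring
  · rw [twoA_succ0]
    refine (h0 i j x hx).trans_eq ?_
    ring

private lemma twoA_mul (hb : 0 ≤ b) (hb' : 0 ≤ b') {x : ℝ × ℝ} (hx : x ∈ Ω) (N : ℕ) :
    ∀ (i j : ℕ) (P Q : S) (A A' : ℝ), i + j = N → Bd2 Ω P A b → Bd2 Ω Q A' b' → 0 ≤ A → 0 ≤ A' →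
      ‖eval (cr x) ((dv e0 ^ i * dv e1 ^ j) (P * Q))‖ ≤ A * A' * (b + b') ^ N := by
  induction N with
  | zero =>
    intro i j P Q A A' hN h h' hA hA'
    obtain ⟨rfl, rfl⟩ : i = 0 ∧ j = 0 := by omega
    simp only [pow_zero, mul_one, Module.End.one_apply, map_mul, norm_mul]
    exact mul_le_mul (twoA_val h hx) (twoA_val h' hx) (norm_nonneg _) hA
  | succ N ih =>
    intro i j P Q A A' hN h h' hA hA'
    rcases i with _ | i
    · obtain ⟨j, rfl⟩ : ∃ k, j = k + 1 := ⟨N, by omega⟩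
      rw [twoA_succ1, dv_mul, map_add, map_add]
      have h1 := ih 0 j _ _ _ _ (by omega) (twoA_d1 h) h' (mul_nonneg hA hb) hA'
      have h2 := ih 0 j _ _ _ _ (by omega) h (twoA_d1 h') hA (mul_nonneg hA' hb')
      refine (norm_add_le _ _).trans ((add_le_add h1 h2).trans_eq ?_)
      ring
    · rw [twoA_succ0, dv_mul, map_add, map_add]
      have h1 := ih i j _ _ _ _ (by omega) (twoA_d0 h) h' (mul_nonneg hA hb) hA'
      have h2 := ih i j _ _ _ _ (by omega) h (twoA_d0 h') hA (mul_nonneg hA' hb')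
      refine (norm_add_le _ _).trans ((add_le_add h1 h2).trans_eq ?_)
      ring

lemma Bd2.mul (h : Bd2 Ω P A b) (h' : Bd2 Ω Q A' b') (hA : 0 ≤ A) (hA' : 0 ≤ A') (hb : 0 ≤ b)
    (hb' : 0 ≤ b') : Bd2 Ω (P * Q) (A * A') (b + b') := fun i j _ hx =>
  twoA_mul hb hb' hx (i + j) i j P Q A A' rfl h h' hA hA'

lemma Bd2.dv (h : Bd2 Ω P A b) (v : Fin 2 → ℂ) :
    Bd2 Ω (dv v P) (A * ((‖v 0‖ + ‖v 1‖) * b)) b := by
  have h1 := ((twoA_d0 h).smul (v 0)).add ((twoA_d1 h).smul (v 1))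
  have h2 : TA.dv v P = v 0 • TA.dv e0 P + v 1 • TA.dv e1 P := by
    rw [dv_eq v, LinearMap.add_apply, LinearMap.smul_apply, LinearMap.smul_apply]
  have h3 : A * ((‖v 0‖ + ‖v 1‖) * b) = ‖v 0‖ * (A * b) + ‖v 1‖ * (A * b) := by ring
  rw [h2, h3]
  exact h1

lemma Bd2.dv_pow (h : Bd2 Ω P A b) (v : Fin 2 → ℂ) (k : ℕ) :
    Bd2 Ω ((TA.dv v ^ k) P) (A * ((‖v 0‖ + ‖v 1‖) * b) ^ k) b := by
  induction k with
  | zero => simpa using h
  | succ k ih =>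
    rw [pow_succ' (TA.dv v), Module.End.mul_apply, pow_succ, ← mul_assoc]
    exact ih.dv v

private lemma twoA_div {a N : ℤ} (h : |a| ≤ N) : ‖((N : ℂ))⁻¹ * (a : ℂ)‖ ≤ 1 := by
  rw [norm_mul, norm_inv, Complex.norm_intCast, Complex.norm_intCast, inv_mul_eq_div]
  refine div_le_one_of_le₀ ?_ (abs_nonneg _)
  have h1 : ((|a| : ℤ) : ℝ) ≤ (N : ℝ) := Int.cast_le.2 h
  rw [Int.cast_abs] at h1
  exact h1.trans (le_abs_self _)

lemma norm_dual {θ : ℤ × ℤ} : ‖dual θ 0‖ + ‖dual θ 1‖ ≤ 2 := by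
  have h1 : |θ.1| ≤ θ.1 ^ 2 := by
    rw [← sq_abs]
    exact Int.le_self_sq _
  have h2 : |θ.2| ≤ θ.2 ^ 2 := by
    rw [← sq_abs]
    exact Int.le_self_sq _
  have h3 : ‖dual θ 0‖ ≤ 1 := twoA_div (a := θ.1) (by nlinarith [sq_nonneg θ.2])
  have h4 : ‖dual θ 1‖ ≤ 1 := twoA_div (a := θ.2) (by nlinarith [sq_nonneg θ.1])
  linarith

private lemma twoA_cj0 (Q : S) : dv e0 (cj2 Q) = cj2 (dv e0 Q) := by
  simp [dv, e0, cj2, pderiv_map]

private lemma twoA_cj1 (Q : S) : dv e1 (cj2 Q) = cj2 (dv e1 Q) := by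
  simp [dv, e1, cj2, pderiv_map]

private lemma twoA_cj (i j : ℕ) (Q : S) :
    (dv e0 ^ i * dv e1 ^ j) (cj2 Q) = cj2 ((dv e0 ^ i * dv e1 ^ j) Q) := by
  induction i generalizing Q with
  | zero =>
    induction j generalizing Q with
    | zero => simp
    | succ j ih => rw [twoA_succ1, twoA_succ1, twoA_cj1, ih]
  | succ i ih => rw [twoA_succ0, twoA_succ0, twoA_cj0, ih]

private lemma twoA_eval_cj (x : ℝ × ℝ) (Q : S) :
    eval (cr x) (cj2 Q) = starRingEnd ℂ (eval (cr x) Q) := by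
  have h : ∀ k, starRingEnd ℂ (cr x k) = cr x k := by
    intro k
    fin_cases k <;> simp [cr]
  unfold cj2
  induction Q using MvPolynomial.induction_on with
  | C a => simp
  | add p q hp hq => simp only [map_add, hp, hq]
  | mul_X p k hp => simp only [map_mul, hp, map_X, eval_X, h]

lemma Bd2.cj (h : Bd2 Ω P A b) : Bd2 Ω (cj2 P) A b := by
  intro i j x hx
  rw [twoA_cj, twoA_eval_cj, Complex.norm_conj]
  exact h i j x hx

private lemma twoA_C {c : ℂ} (hc : ‖c‖ ≤ A) (hb : 0 ≤ b) : Bd2 Ω (C c) A b := by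
  have hA : 0 ≤ A := (norm_nonneg c).trans hc
  refine twoA_of (fun x _ => by simpa using hc) ?_ ?_
  · rw [dv_C]
    exact twoA_zero (mul_nonneg hA hb) hb
  · rw [dv_C]
    exact twoA_zero (mul_nonneg hA hb) hb

private lemma twoA_e (k : Fin 2) : ‖e0 k‖ ≤ 1 ∧ ‖e1 k‖ ≤ 1 := by
  fin_cases k <;> simp [e0, e1]

private lemma twoA_coord {n : ℕ} {x : ℝ × ℝ} (hx : x ∈ sqB n) (k : Fin 2) :
    ∃ t : ℝ, cr x k = t ∧ 0 ≤ t ∧ t ≤ n := by
  fin_cases k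
  · exact ⟨x.1, rfl, hx.1.1, hx.1.2⟩
  · exact ⟨x.2, rfl, hx.2.1, hx.2.2⟩

private lemma twoA_X {n : ℕ} (hn : 1 ≤ n) (k : Fin 2) : Bd2 (sqB n) (X k) n (1 / n) := by
  have hn0 : (0 : ℝ) < n := Nat.cast_pos.2 hn
  have h1 : (n : ℝ) * (1 / n) = 1 := mul_one_div_cancel hn0.ne'
  refine twoA_of (fun x hx => ?_) ?_ ?_
  · obtain ⟨t, ht, h0, h2⟩ := twoA_coord hx k
    rw [eval_X, ht, Complex.norm_real, Real.norm_of_nonneg h0]
    exact h2
  · rw [dv_X, h1]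
    exact twoA_C (twoA_e k).1 (by positivity)
  · rw [dv_X, h1]
    exact twoA_C (twoA_e k).2 (by positivity)

private lemma twoA_nX {n : ℕ} (hn : 1 ≤ n) (k : Fin 2) :
    Bd2 (sqB n) (C (n : ℂ) - X k) n (1 / n) := by
  have hn0 : (0 : ℝ) < n := Nat.cast_pos.2 hn
  have h1 : (n : ℝ) * (1 / n) = 1 := mul_one_div_cancel hn0.ne'
  refine twoA_of (fun x hx => ?_) ?_ ?_
  · obtain ⟨t, ht, h0, h2⟩ := twoA_coord hx k
    have h3 : (n : ℂ) - (t : ℂ) = (((n : ℝ) - t : ℝ) : ℂ) := by push_cast; rfl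
    rw [map_sub, eval_C, eval_X, ht, h3, Complex.norm_real, Real.norm_of_nonneg (sub_nonneg.2 h2)]
    linarith
  · rw [map_sub, dv_C, dv_X, h1, zero_sub, ← map_neg]
    exact twoA_C (by rw [norm_neg]; exact (twoA_e k).1) (by positivity)
  · rw [map_sub, dv_C, dv_X, h1, zero_sub, ← map_neg]
    exact twoA_C (by rw [norm_neg]; exact (twoA_e k).2) (by positivity)

lemma bd2_qq {n : ℕ} (hn : 1 ≤ n) (κ : ℕ) :
    Bd2 (sqB n) (qq n ^ κ) ((n : ℝ) ^ (4 * κ)) (4 * κ / n) := by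
  have hn0 : (0 : ℝ) ≤ n := Nat.cast_nonneg n
  have hb : (0 : ℝ) ≤ 1 / n := by positivity
  have h1 : ∀ k : Fin 2, Bd2 (sqB n) (X k * (C (n : ℂ) - X k)) (n * n) (1 / n + 1 / n) :=
    fun k => (twoA_X hn k).mul (twoA_nX hn k) hn0 hn0 hb hb
  have h2 : Bd2 (sqB n) (qq n) (n * n * (n * n)) (1 / n + 1 / n + (1 / n + 1 / n)) :=
    (h1 0).mul (h1 1) (by positivity) (by positivity) (by positivity) (by positivity)
  induction κ with
  | zero =>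
    rw [pow_zero, ← C_1]
    exact twoA_C (by simp) (by simp)
  | succ κ ih =>
    have h3 := ih.mul h2 (by positivity) (by positivity) (by positivity) (by positivity)
    have h4 : (n : ℝ) ^ (4 * (κ + 1)) = n ^ (4 * κ) * (n * n * (n * n)) := by ring
    have h5 : (4 * ((κ + 1 : ℕ) : ℝ) / n) = 4 * κ / n + (1 / n + 1 / n + (1 / n + 1 / n)) := by
      push_cast
      ring
    rw [pow_succ, h4, h5]
    exact h3

private lemma twoA_step (h : Bd2 Ω P A b) (hA : 0 ≤ A) (hb : 0 ≤ b) {ρ : ℕ} {L : ℝ}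
    {l : (ℤ × ℤ) × ℤ} (hl : Sml ρ l.1 ∧ ‖wm l.2‖ + 2 * ρ * b ≤ L) :
    Bd2 Ω (act (lin (cz l.1) - C (wm l.2)) P) (A * L) b := by
  have h0 : ∀ a : ℤ, |a| ≤ ρ → ‖(a : ℂ)‖ ≤ ρ := by
    intro a ha
    have h1 : ((|a| : ℤ) : ℝ) ≤ ((ρ : ℤ) : ℝ) := Int.cast_le.2 ha
    rw [Int.cast_abs, Int.cast_natCast] at h1
    rwa [Complex.norm_intCast]
  have h1 : ‖cz l.1 0‖ ≤ ρ := h0 _ hl.1.1
  have h2 : ‖cz l.1 1‖ ≤ ρ := h0 _ hl.1.2
  have h3 : act (lin (cz l.1) - C (wm l.2)) P = dv (cz l.1) P + (-wm l.2) • P := by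
    rw [map_sub, act_lin, act_C, LinearMap.sub_apply, LinearMap.smul_apply, Module.End.one_apply,
      neg_smul, sub_eq_add_neg]
  rw [h3]
  refine ((h.dv (cz l.1)).add (h.smul (-wm l.2))).mono (by positivity) hb ?_ le_rfl
  rw [norm_neg]
  have h4 : (‖cz l.1 0‖ + ‖cz l.1 1‖) * b ≤ 2 * ρ * b :=
    mul_le_mul_of_nonneg_right (by linarith) hb
  have h5 : (‖cz l.1 0‖ + ‖cz l.1 1‖) * b + ‖wm l.2‖ ≤ L := by linarith [hl.2]
  have h6 := mul_le_mul_of_nonneg_left h5 hA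
  linarith

private lemma twoA_pow (h : Bd2 Ω P A b) (hA : 0 ≤ A) (hb : 0 ≤ b) {ρ : ℕ} {L : ℝ}
    {l : (ℤ × ℤ) × ℤ} (hl : Sml ρ l.1 ∧ ‖wm l.2‖ + 2 * ρ * b ≤ L) (ν : ℕ) :
    Bd2 Ω (act ((lin (cz l.1) - C (wm l.2)) ^ ν) P) (A * L ^ ν) b := by
  have hL : 0 ≤ L := le_trans (by positivity) hl.2
  induction ν with
  | zero => simpa using h
  | succ ν ih =>
    rw [pow_succ', act_mul_apply, pow_succ, ← mul_assoc]
    exact twoA_step ih (by positivity) hb hl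

lemma Bd2.symb (h : Bd2 Ω P A b) (hA : 0 ≤ A) (hb : 0 ≤ b) (𝓛 : Finset ((ℤ × ℤ) × ℤ)) (ν : ℕ)
    {ρ : ℕ} {L : ℝ} (hL : ∀ l ∈ 𝓛, Sml ρ l.1 ∧ ‖wm l.2‖ + 2 * ρ * b ≤ L) :
    Bd2 Ω (act (symb 𝓛 ν) P) (A * L ^ (𝓛.card * ν)) b := by
  induction 𝓛 using Finset.induction_on with
  | empty => simpa [TA.symb] using h
  | insert l s hl ih =>
    have h1 := ih fun k hk => hL k (Finset.mem_insert_of_mem hk)
    have h2 := hL l (Finset.mem_insert_self _ _)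
    have h3 : 0 ≤ L := le_trans (by positivity) h2.2
    have h4 : TA.symb (insert l s) ν = (lin (cz l.1) - C (wm l.2)) ^ ν * TA.symb s ν :=
      Finset.prod_insert hl
    have h5 : A * L ^ ((insert l s).card * ν) = A * L ^ (s.card * ν) * L ^ ν := by
      rw [Finset.card_insert_of_notMem hl]
      ring
    rw [h4, act_mul_apply, h5]
    exact twoA_pow h1 (by positivity) hb h2 ν

end Pool.Agent.Lib.MP_1f047c_nt.TA
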