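import Pool.Agent.Lib.MP_1f047c_nt.TABasic

/-! The operators `Ex` and `UU`. -/

open Finset MvPolynomial

namespace Pool.Agent.Lib.MP_1f047c_nt.TA

open PL (wm)

lemma Ex_apply (E : ℕ) (u θ : Fin 2 → ℂ) (Λ : S →ₗ[ℂ] S) (H : S) :
    Ex E u θ Λ H = ∑ f ∈ range (E + 1), ((f.factorial : ℂ)⁻¹) • (dv u ^ f) (Λ ((dv θ ^ f) H)) := by
  simp only [Ex, LinearMap.sum_apply, LinearMap.smul_apply, LinearMap.comp_apply]

lemma Ex_add (E : ℕ) (u θ : Fin 2 → ℂ) (Λ Λ' : S →ₗ[ℂ] S) :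
    Ex E u θ (Λ + Λ') = Ex E u θ Λ + Ex E u θ Λ' :=
  LinearMap.ext fun H => by
    simp only [Ex_apply, LinearMap.add_apply, map_add, smul_add, sum_add_distrib]

lemma Ex_smul (E : ℕ) (u θ : Fin 2 → ℂ) (c : ℂ) (Λ : S →ₗ[ℂ] S) :
    Ex E u θ (c • Λ) = c • Ex E u θ Λ :=
  LinearMap.ext fun H => by
    simp only [Ex_apply, LinearMap.smul_apply, map_smul, smul_sum, smul_comm c]

lemma Ex_sum {ι : Type} (s : Finset ι) (E : ℕ) (u θ : Fin 2 → ℂ) (Λ : ι → S →ₗ[ℂ] S) :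
    Ex E u θ (∑ i ∈ s, Λ i) = ∑ i ∈ s, Ex E u θ (Λ i) :=
  LinearMap.ext fun H => by
    simp only [Ex_apply, LinearMap.sum_apply, map_sum, smul_sum]
    exact sum_comm

lemma Ex_Vp (E : ℕ) (u θ : Fin 2 → ℂ) {Λ : S →ₗ[ℂ] S} {d : ℕ} (h : ∀ G, Λ G ∈ Vp d) (H : S) :
    Ex E u θ Λ H ∈ Vp d := by
  rw [Ex_apply]
  exact sum_mem fun f _ => Submodule.smul_mem _ _ (dv_pow_Vp u f (h _))

/-- `Ex` only sees the values of `Λ` on a space stable under the derivative. -/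
lemma Ex_congr (E : ℕ) (u θ : Fin 2 → ℂ) {Λ Λ' : S →ₗ[ℂ] S} {H : S}
    (h : ∀ f : ℕ, Λ ((dv θ ^ f) H) = Λ' ((dv θ ^ f) H)) : Ex E u θ Λ H = Ex E u θ Λ' H := by
  simp only [Ex_apply, h]

lemma Ex_eq_zero (E : ℕ) (u θ : Fin 2 → ℂ) {Λ : S →ₗ[ℂ] S} {H : S}
    (h : ∀ f : ℕ, Λ ((dv θ ^ f) H) = 0) : Ex E u θ Λ H = 0 := by
  simp only [Ex_apply, h, map_zero, smul_zero, sum_const_zero]

/-- The iterated Leibniz rule for a directional derivative. -/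
lemma dv_pow_mul_UUA (u : Fin 2 → ℂ) (n : ℕ) (φ ψ : S) : (dv u ^ n) (φ * ψ) =
    ∑ g ∈ range (n + 1), n.choose g • ((dv u ^ g) φ * (dv u ^ (n - g)) ψ) := by
  induction n with
  | zero => simp
  | succ n ih =>
    rw [pow_succ', Module.End.mul_apply, ih, map_sum,
      sum_choose_succ_nsmul (fun i j => (dv u ^ i) φ * (dv u ^ j) ψ), ← sum_add_distrib]
    refine sum_congr rfl fun g hg => ?_
    rw [map_nsmul, dv_mul, smul_add, Nat.succ_sub (Nat.lt_succ_iff.1 (mem_range.1 hg)),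
      pow_succ', pow_succ', Module.End.mul_apply, Module.End.mul_apply]
    exact add_comm _ _

/-- Leibniz rule. -/
theorem Ex_mul (E : ℕ) (u θ : Fin 2 → ℂ) (φ : S) (Λ : S →ₗ[ℂ] S) {H : S} (hH : H ∈ Vp E) :
    Ex E u θ (LinearMap.mulLeft ℂ φ ∘ₗ Λ) H =
      ∑ g ∈ range (E + 1), ((g.factorial : ℂ)⁻¹) • ((dv u ^ g) φ * Ex E u θ Λ ((dv θ ^ g) H)) := by
  let T : ℕ → ℕ → S := fun g h => ((g.factorial : ℂ)⁻¹) • ((dv u ^ g) φ *
    ((h.factorial : ℂ)⁻¹) • (dv u ^ h) (Λ ((dv θ ^ h) ((dv θ ^ g) H))))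
  have h1 : Ex E u θ (LinearMap.mulLeft ℂ φ ∘ₗ Λ) H =
      ∑ f ∈ range (E + 1), ∑ g ∈ range (f + 1), T g (f - g) := by
    rw [Ex_apply]
    refine sum_congr rfl fun f _ => ?_
    rw [LinearMap.comp_apply, LinearMap.mulLeft_apply, dv_pow_mul_UUA, smul_sum]
    refine sum_congr rfl fun g hg => ?_
    have hg' := Nat.lt_succ_iff.1 (mem_range.1 hg)
    have h2 : ((f.factorial : ℂ)⁻¹) * (f.choose g : ℂ) =
        ((g.factorial : ℂ)⁻¹) * (((f - g).factorial : ℂ)⁻¹) := by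
      have h3 : (f.factorial : ℂ) ≠ 0 := Nat.cast_ne_zero.2 f.factorial_ne_zero
      rw [Nat.cast_choose ℂ hg', div_eq_mul_inv, inv_mul_cancel_left₀ h3, mul_inv]
    simp only [T]
    rw [← Module.End.mul_apply (dv θ ^ (f - g)), ← pow_add, Nat.sub_add_cancel hg', mul_smul_comm,
      smul_smul, ← h2, ← Nat.cast_smul_eq_nsmul ℂ, smul_smul]
  rw [h1, sum_range_diag_flip]
  refine sum_congr rfl fun g _ => ?_
  rw [Ex_apply, mul_sum, smul_sum]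
  refine sum_subset (range_subset_range.2 (Nat.sub_le _ _)) fun h _ hh => ?_
  have h4 : (dv θ ^ h) ((dv θ ^ g) H) = 0 :=
    dv_pow_zero θ θ hH (by rw [mem_range] at hh; omega)
  simp only [T, h4, map_zero, smul_zero, mul_zero]

lemma Ex_mul_const (E : ℕ) (u θ : Fin 2 → ℂ) {φ : S} (hφ : dv u φ = 0) (Λ : S →ₗ[ℂ] S) (H : S) :
    Ex E u θ (LinearMap.mulLeft ℂ φ ∘ₗ Λ) H = φ * Ex E u θ Λ H := by
  have h : ∀ (f : ℕ) (ψ : S), (dv u ^ f) (φ * ψ) = φ * (dv u ^ f) ψ := fun f ψ => by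
    induction f with
    | zero => simp
    | succ f ih =>
      rw [pow_succ', Module.End.mul_apply, ih, dv_mul, hφ, zero_mul, zero_add,
        Module.End.mul_apply]
  simp only [Ex_apply, LinearMap.comp_apply, LinearMap.mulLeft_apply, h, mul_sum, mul_smul_comm]

end Pool.Agent.Lib.MP_1f047c_nt.TA
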