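import Pool.Agent.Lib.MP_1f047c_nt.TIADet

/-! The arithmetic step in `N` variables. -/

open Polynomial Finset

namespace Pool.Agent.Lib.MP_1f047c_nt.TI

open PL

lemma tiaarith_count {N : ℕ} (S : ℕ) (n : Fin N → ℕ) (hS : 1 ≤ S) :
    ((S * ∏ j, n j + 1 : ℕ) : ℝ) ≤ 2 * S * Real.exp (∑ j, (n j : ℝ)) := by
  have h3 : (∏ j, (n j : ℝ)) ≤ Real.exp (∑ j, (n j : ℝ)) := by
    rw [Real.exp_sum]
    exact prod_le_prod (fun j _ => Nat.cast_nonneg _) fun j _ => by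
      linarith [Real.add_one_le_exp (n j : ℝ)]
  have h4 : 1 ≤ Real.exp (∑ j, (n j : ℝ)) :=
    Real.one_le_exp (sum_nonneg fun j _ => Nat.cast_nonneg _)
  have h5 : (1 : ℝ) ≤ S := by exact_mod_cast hS
  push_cast
  nlinarith [mul_le_mul_of_nonneg_left h3 (zero_le_one.trans h5)]

lemma tiaarith_exp {S g C₀ δ d c N M T : ℝ} (hS : 0 ≤ S) (hg : 0 ≤ g) (hC0 : 0 ≤ C₀) (hd : 1 ≤ d)
    (hN : 0 ≤ N) (hc : c = N * (2 * S * (g + 1) + g + 4 + C₀) + 2) (hT : 0 ≤ T) (hM0 : 0 ≤ M)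
    (hM : M ≤ N * (T / (c * d) + 1)) (hC : 2 * N / δ + 3 ≤ C₀) :
    S * (d + 1) * ((g + 1) * M) + N * (2 / δ * T) + (g + 4) * M + (C₀ * M - (C₀ - 1) * T) ≤
      c * d - T := by
  have hc0 : 0 < c := by rw [hc]; positivity
  have hB : 0 ≤ 2 * S * (g + 1) + g + 4 + C₀ := by positivity
  have h1 : S * (d + 1) * (g + 1) + (g + 4 + C₀) ≤ (2 * S * (g + 1) + g + 4 + C₀) * d := by
    nlinarith [mul_nonneg hS (by linarith : 0 ≤ g + 1), mul_nonneg (mul_nonneg hS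
      (by linarith : 0 ≤ g + 1)) (by linarith : 0 ≤ d - 1),
      mul_nonneg (by linarith : 0 ≤ g + 4 + C₀) (by linarith : 0 ≤ d - 1)]
  have h2 : c * (d * (T / (c * d) + 1)) = T + c * d := by field_simp
  have h3 := mul_le_mul h1 hM hM0 (by positivity)
  have h4 := mul_le_mul_of_nonneg_right hC hT
  have h5 : N * (2 / δ * T) = 2 * N / δ * T := by ring
  have h6 : N * (2 * S * (g + 1) + g + 4 + C₀) * (d * (T / (c * d) + 1)) ≤
      c * (d * (T / (c * d) + 1)) :=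
    mul_le_mul_of_nonneg_right (by linarith) (by positivity)
  have h7 : (2 * S * (g + 1) + g + 4 + C₀) * d * (N * (T / (c * d) + 1)) =
      N * (2 * S * (g + 1) + g + 4 + C₀) * (d * (T / (c * d) + 1)) := by ring
  rw [h7] at h3
  rw [h2] at h6
  have h8 := h3.trans h6
  nlinarith

theorem arithN (N : ℕ) (δ : ℝ) (hδ : 0 < δ) (C₀ : ℕ) (hC : 2 * N / δ + 3 ≤ C₀) (E s : ℕ) :
    ∃ c : ℝ, 1 ≤ c ∧ ∀ (𝕜 : Type) [NormedField 𝕜] [CharZero 𝕜], Good 𝕜 →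
    (∀ a s : ℕ, ‖(a : 𝕜) ^ s / (s.factorial : 𝕜)‖ ≤ 2 ^ s * 3 ^ a) →
    ∀ (K : Type) [Field K] [NumberField K] (φ : K →+* 𝕜) (α : Fin N → K) (l : Fin N → 𝕜)
      (H : Fin N → ℝ) (ψ : Fin s → MvPolynomial (Fin N) K →ₗ[K] K) (γ : Fin s → 𝕜),
      (∀ j, α j ≠ 0) →
      (∀ j, ∀ a : ℕ, HasSum (fun t : ℕ => (-l j * a) ^ t / (t.factorial : 𝕜)) (φ (α j) ^ a)) →
      (∀ j, δ * Height.logHeight₁ (α j) ≤ H j) → (∀ j, c * Module.finrank ℚ K ≤ H j) →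
      (∀ j, ‖l j‖ ≤ Real.exp (-H j)) →
      (∀ β : Fin N → ℕ, (∀ j, β j ≤ E) → ∏ j, l j ^ β j = ∑ e, γ e * φ (ψ e (mon K β))) →
      ¬ ∀ᶠ T : ℝ in Filter.atTop,
        ZS ψ α (fun j => C₀ * ⌈T / H j⌉₊) (fun j => ⌈T / H j⌉₊) E := by
  have hF := plarith_one_le_F E
  have hg := plarith_G_nonneg E C₀
  have hC2 : 2 ≤ C₀ := by
    have : (0 : ℝ) ≤ 2 * N / δ := by positivity
    have : (2 : ℝ) ≤ C₀ := by linarith
    exact_mod_cast this
  obtain ⟨S, hS⟩ : ∃ S : ℕ, S = s * C₀ ^ N + 1 := ⟨_, rfl⟩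
  obtain ⟨c, hc⟩ : ∃ c : ℝ,
      c = N * (2 * S * (plarithG E C₀ + 1) + plarithG E C₀ + 4 + C₀) + 2 := ⟨_, rfl⟩
  have hc2 : 2 ≤ c := by
    have a1 : (0 : ℝ) ≤ N * (2 * S * (plarithG E C₀ + 1) + plarithG E C₀ + 4 + C₀) := by positivity
    linarith
  refine ⟨c, by linarith, ?_⟩
  intro 𝕜 _ _ G hG K _ _ φ α l H ψ γ hα hl h1 h1' h1'' hγ hev
  have hd : (1 : ℝ) ≤ Module.finrank ℚ K := by exact_mod_cast Module.finrank_pos
  have hcd : 2 ≤ c * Module.finrank ℚ K := by nlinarith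
  have h4 : ∀ {x H : ℝ}, 2 ≤ H → x ≤ Real.exp (-H) → x ≤ 1 / 4 := by
    intro x H hH hx
    refine hx.trans ((Real.exp_le_exp.2 (neg_le_neg hH)).trans ?_)
    rw [Real.exp_neg, one_div]
    refine inv_anti₀ (by norm_num) ?_
    have a1 : Real.exp 2 = Real.exp 1 * Real.exp 1 := by rw [← Real.exp_add]; norm_num
    nlinarith [Real.add_one_le_exp 1]
  have hl4 : ∀ j, ‖l j‖ ≤ 1 / 4 := fun j => h4 (hcd.trans (h1' j)) (h1'' j)
  have hH : ∀ j, 0 < H j := fun j => by linarith [h1' j]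
  obtain ⟨HA, hHA⟩ : ∃ HA : ℝ, HA = (∏ σ : Fin s × (Fin N → Fin (E + 1)),
    Height.mulHeight₁ (ψ σ.1 (mon K fun j => σ.2 j))) ^ (2 * (s * C₀ ^ N)) := ⟨_, rfl⟩
  have hHA0 : 0 ≤ HA := by rw [hHA]; positivity
  obtain ⟨Q, hQ⟩ : ∃ Q : ℝ, Q = (4 * S * plarithF E ^ N) ^ (S * (Module.finrank ℚ K + 1)) * HA *
    (Real.exp (∑ j, 2 * H j / δ) * (8 * 4 ^ E * plarithF E) ^ N) := ⟨_, rfl⟩
  have hQ0 : 0 ≤ Q := by rw [hQ]; positivity
  obtain ⟨T, hZ, hT⟩ := (hev.and (Filter.eventually_ge_atTop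
    (c * Module.finrank ℚ K + Q))).exists
  have hT0 : 0 < T := by linarith
  have hn : ∀ j, (⌈T / H j⌉₊ : ℝ) ≤ T / (c * Module.finrank ℚ K) + 1 := by
    intro j
    refine (Nat.ceil_lt_add_one (div_nonneg hT0.le (hH j).le)).le.trans ?_
    have := h1' j
    gcongr
  obtain ⟨M, hM⟩ : ∃ M : ℝ, M = ∑ j, (⌈T / H j⌉₊ : ℝ) := ⟨_, rfl⟩
  have hM0 : 0 ≤ M := by rw [hM]; positivity
  have hMj : ∀ j, (⌈T / H j⌉₊ : ℝ) ≤ M := fun j => by
    rw [hM]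
    exact single_le_sum (f := fun j => (⌈T / H j⌉₊ : ℝ)) (fun _ _ => Nat.cast_nonneg _)
      (mem_univ j)
  have hMN : M ≤ N * (T / (c * Module.finrank ℚ K) + 1) := by
    rw [hM]
    refine (sum_le_sum fun j _ => hn j).trans_eq ?_
    rw [sum_const, card_univ, Fintype.card_fin, nsmul_eq_mul]
  have key := detN G hG φ α l ψ γ hα hl hl4 E C₀ (fun j => ⌈T / H j⌉₊) hC2
    (fun j => Nat.ceil_pos.2 (div_pos hT0 (hH j))) hγ hZ
    (θ := min 1 (Real.exp (C₀ * M - (C₀ - 1) * T))) (le_min zero_le_one (Real.exp_pos _).le)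
    (min_le_left _ _) fun j => le_min (pow_le_one₀ (by positivity) (by linarith [hl4 j]))
      (plarith_small (T := T) (norm_nonneg _) (hH j) (h1'' j) C₀ (by omega) M (hMj j))
  have b1 := min_le_right 1 (Real.exp (C₀ * M - (C₀ - 1) * T))
  have b2 : ∏ j, Height.mulHeight₁ (α j) ^ (2 * ⌈T / H j⌉₊) ≤
      Real.exp (N * (2 / δ * T) + ∑ j, 2 * H j / δ) := by
    refine (prod_le_prod (fun j _ => by positivity)
      fun j _ => plarith_height (α j) hδ (hH j) hT0.le (h1 j)).trans_eq ?_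
    rw [← Real.exp_sum, sum_add_distrib, sum_const, card_univ, Fintype.card_fin, nsmul_eq_mul]
  have b4 := tiaarith_count S (fun j => ⌈T / H j⌉₊) (by omega)
  have b5 := tiaarith_exp (S := S) (M := M) (Nat.cast_nonneg _) hg
    (Nat.cast_nonneg C₀) hd (Nat.cast_nonneg N) hc hT0.le hM0 hMN hC
  rw [← hS, ← hHA, ← hM] at key
  rw [← hM] at b4
  have b6 : 1 ≤ Q * Real.exp (S * (Module.finrank ℚ K + 1) * ((plarithG E C₀ + 1) * M) +
      N * (2 / δ * T) + (plarithG E C₀ + 4) * M + (C₀ * M - (C₀ - 1) * T)) := by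
    refine key.trans (le_trans (b := (2 * (plarithF E ^ N * Real.exp (plarithG E C₀ * M)) *
      (2 * S * Real.exp M)) ^ (S * (Module.finrank ℚ K + 1)) * HA *
      (Real.exp (N * (2 / δ * T) + ∑ j, 2 * H j / δ) *
        ((8 * 4 ^ E * plarithF E) ^ N * Real.exp ((plarithG E C₀ + 4) * M) *
          Real.exp (C₀ * M - (C₀ - 1) * T)))) ?_ ?_)
    · gcongr
    · have e1 : 2 * (plarithF E ^ N * Real.exp (plarithG E C₀ * M)) * (2 * S * Real.exp M) =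
          4 * S * plarithF E ^ N * Real.exp ((plarithG E C₀ + 1) * M) := by
        rw [add_mul, one_mul, Real.exp_add]
        ring
      rw [e1, mul_pow, ← Real.exp_nat_mul, hQ]
      simp only [Real.exp_add]
      push_cast
      refine le_of_eq ?_
      ring
  have b7 := b6.trans (mul_le_mul_of_nonneg_left (Real.exp_le_exp.2 b5) hQ0)
  rw [← neg_sub, Real.exp_neg, ← div_eq_mul_inv, one_le_div (Real.exp_pos _)] at b7
  linarith [Real.add_one_le_exp (T - c * Module.finrank ℚ K)]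

end Pool.Agent.Lib.MP_1f047c_nt.TI
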