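import Pool.Agent.Lib.MP_1f047c_nt.PLDefs

/-! Definitions for the theorem on `N` logarithms. -/

open Polynomial Finset

namespace Pool.Agent.Lib.MP_1f047c_nt.TI

open PL

noncomputable section

/-- Columns: exponents `a j ≤ n j` of the exponentials and `i j ≤ E` of the coordinates. -/
abbrev Bx {N : ℕ} (n : Fin N → ℕ) (E : ℕ) : Type := ∀ j : Fin N, Fin (n j + 1) × Fin (E + 1)

/-- The jet `∏ D j (d/dζ j)` along the leaf through `(c, 0)`. -/
def rowv {N : ℕ} {K : Type} [CommRing K] (n : Fin N → ℕ) (E : ℕ) (c : Fin N → K)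
    (D : Fin N → K[X]) : Bx n E → K :=
  fun p => ∏ j, row (c j) (D j) (p j).1 (p j).2

/-- Evaluation at the point `(0; α)`. -/
def qv {N : ℕ} {K : Type} [CommRing K] (n : Fin N → ℕ) (E : ℕ) (α : Fin N → K) : Bx n E → K :=
  fun p => ∏ j, (0 : K) ^ ((p j).2 : ℕ) * α j ^ ((p j).1 : ℕ)

/-- The zero estimate for the points of the hypersurface `F = 0`. -/
def ZP {N : ℕ} {K : Type} [Field K] (F : MvPolynomial (Fin N) K) (α : Fin N → K)
    (ν n : Fin N → ℕ) (E : ℕ) : Prop :=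
  qv n E α ∉ Submodule.span K {v | ∃ (c : Fin N → K) (D : Fin N → K[X]),
    MvPolynomial.eval c F = 0 ∧ (∀ j, (D j).degree < ν j) ∧ v = rowv n E c D}

/-- The row at the generic point. -/
def urow {N : ℕ} {K : Type} [CommRing K] (D : Fin N → K[X]) (a i : Fin N → ℕ) :
    MvPolynomial (Fin N) K :=
  ∏ j, row (MvPolynomial.X j) ((D j).map MvPolynomial.C) (a j) (i j)

/-- The row of a functional. -/
def frow {N : ℕ} {K : Type} [CommRing K] (n : Fin N → ℕ) (E : ℕ)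
    (ψ : MvPolynomial (Fin N) K →ₗ[K] K) (D : Fin N → K[X]) : Bx n E → K :=
  fun p => ψ (urow D (fun j => (p j).1) fun j => (p j).2)

/-- The zero estimate for a family of functionals. -/
def ZS {N : ℕ} {K ι : Type} [Field K] (ψ : ι → MvPolynomial (Fin N) K →ₗ[K] K) (α : Fin N → K)
    (ν n : Fin N → ℕ) (E : ℕ) : Prop :=
  qv n E α ∉ Submodule.span K {v | ∃ (e : ι) (D : Fin N → K[X]),
    (∀ j, (D j).degree < ν j) ∧ v = frow n E (ψ e) D}

/-- The monomial with exponent `β`. -/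
def mon {N : ℕ} (K : Type) [CommRing K] (β : Fin N → ℕ) : MvPolynomial (Fin N) K :=
  ∏ j, MvPolynomial.X j ^ β j

/-- Two sizes are equal or far apart. -/
def Sep {N : ℕ} (Θ : ℕ) (n : Fin N → ℕ) : Prop :=
  ∀ i k, n i = n k ∨ Θ * n i ≤ n k ∨ Θ * n k ≤ n i

/-- No short integral relation modulo `2 π i`. -/
def NoRel {N : ℕ} (B : ℕ) (z : Fin N → ℂ) : Prop :=
  ∀ l : Fin N → ℤ, l ≠ 0 → (∀ j, |l j| ≤ B) → ∀ m : ℤ, ∑ j, (l j : ℂ) * z j ≠ wm m

/-- The zero estimate. -/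
def ZEst : Prop :=
  ∀ N D C : ℕ, ∃ E Θ B : ℕ, ∀ F : MvPolynomial (Fin N) ℂ, F ≠ 0 → F.totalDegree ≤ D →
    ∀ z : Fin N → ℂ, NoRel B z → ∃ n₀ : ℕ, ∀ n : Fin N → ℕ, (∀ j, n₀ ≤ n j) → Sep Θ n →
      ZP F (fun j => Complex.exp (z j)) (fun j => C * n j) n E

end

end Pool.Agent.Lib.MP_1f047c_nt.TI
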