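import Pool.Agent.Lib.MP_1f047c_nt.TIADefs
import Pool.Agent.Lib.MP_1f047c_nt.PLInd

/-! Independence of the rows at the point (0; α). -/

open Polynomial Finset

namespace Pool.Agent.Lib.MP_1f047c_nt.TI

open PL

/-- One factor of a row at the point (0; α), zero for a negative index. -/
noncomputable def tiaindF {K : Type} [Field K] (α : K) (ν E : ℕ) (k : ℤ) (a i : ℕ) : K :=
  if 0 ≤ k then α ^ a * row 0 (bp K ν E k.toNat) a i else 0

lemma tiaind_F_step {K : Type} [Field K] [CharZero K] {α : K} (hα : α ≠ 0) (ν E : ℕ) (k : ℤ)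
    (a i : ℕ) : α⁻¹ * tiaindF α ν E k (a + 1) i - tiaindF α ν E k a i =
      tiaindF α ν E (k - 1) a i := by
  unfold tiaindF
  rcases lt_trichotomy k 0 with hk | rfl | hk
  · rw [if_neg (by omega), if_neg (by omega), if_neg (by omega), mul_zero, sub_zero]
  · rw [if_pos le_rfl, if_pos le_rfl, if_neg (by omega), Int.toNat_zero, ← row_shift, bp_zero,
      C_comp]
    field_simp
    ring
  · obtain ⟨m, rfl⟩ : ∃ m : ℕ, k = ((m + 1 : ℕ) : ℤ) := ⟨(k - 1).toNat, by omega⟩
    rw [if_pos hk.le, if_pos hk.le, if_pos (by omega), Int.toNat_natCast,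
      show (((m + 1 : ℕ) : ℤ) - 1).toNat = m by omega, ← row_shift, bp_shift, row_add]
    field_simp
    ring

/-- A row at the point (0; α). -/
noncomputable def tiaindB {N : ℕ} {K : Type} [Field K] (α : Fin N → K) (ν : Fin N → ℕ) (E : ℕ)
    (k : Fin N → ℤ) (x : (Fin N → ℕ) × (Fin N → ℕ)) : K :=
  ∏ j, tiaindF (α j) (ν j) E (k j) (x.1 j) (x.2 j)

lemma tiaind_B_step {N : ℕ} {K : Type} [Field K] [CharZero K] {α : Fin N → K}
    (hα : ∀ j, α j ≠ 0) (ν : Fin N → ℕ) (E : ℕ) (k : Fin N → ℤ) (j : Fin N)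
    (x : (Fin N → ℕ) × (Fin N → ℕ)) :
    (α j)⁻¹ * tiaindB α ν E k (x.1 + Pi.single j 1, x.2) - tiaindB α ν E k x =
      tiaindB α ν E (k - Pi.single j 1) x := by
  unfold tiaindB
  rw [← mul_prod_erase univ _ (mem_univ j), ← mul_prod_erase univ _ (mem_univ j),
    ← mul_prod_erase univ _ (mem_univ j)]
  have e1 : ∏ l ∈ univ.erase j, tiaindF (α l) (ν l) E (k l)
      ((x.1 + (Pi.single j 1 : Fin N → ℕ)) l) (x.2 l) =
      ∏ l ∈ univ.erase j, tiaindF (α l) (ν l) E (k l) (x.1 l) (x.2 l) :=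
    prod_congr rfl fun l hl => by
      rw [Pi.add_apply, Pi.single_eq_of_ne (ne_of_mem_erase hl), add_zero]
  have e2 : ∏ l ∈ univ.erase j, tiaindF (α l) (ν l) E
      ((k - (Pi.single j 1 : Fin N → ℤ)) l) (x.1 l) (x.2 l) =
      ∏ l ∈ univ.erase j, tiaindF (α l) (ν l) E (k l) (x.1 l) (x.2 l) :=
    prod_congr rfl fun l hl => by
      rw [Pi.sub_apply, Pi.single_eq_of_ne (ne_of_mem_erase hl), sub_zero]
  simp only [e1, e2]
  simp only [Pi.add_apply, Pi.sub_apply, Pi.single_eq_same]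
  rw [← tiaind_F_step (hα j)]
  ring

/-- The span of the rows of the functionals. -/
def tiaindA {N : ℕ} {K ι : Type} [Field K] (ψ : ι → MvPolynomial (Fin N) K →ₗ[K] K)
    (ν : Fin N → ℕ) : Submodule K ((Fin N → ℕ) × (Fin N → ℕ) → K) :=
  Submodule.span K {G | ∃ (e : ι) (D : Fin N → K[X]), (∀ j, (D j).degree < ν j) ∧
    G = fun x => ψ e (urow D x.1 x.2)}

/-- Agreement with a combination of rows of the functionals in a box. -/
def tiaindIn {N : ℕ} {K ι : Type} [Field K] (ψ : ι → MvPolynomial (Fin N) K →ₗ[K] K)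
    (ν : Fin N → ℕ) (E : ℕ) (m : Fin N → ℕ) (F : (Fin N → ℕ) × (Fin N → ℕ) → K) : Prop :=
  ∃ G ∈ tiaindA ψ ν, ∀ x : (Fin N → ℕ) × (Fin N → ℕ), (∀ j, x.1 j ≤ m j) → (∀ j, x.2 j ≤ E) →
    G x = F x

lemma tiaind_sh {N : ℕ} {K ι : Type} [Field K] {ψ : ι → MvPolynomial (Fin N) K →ₗ[K] K}
    {ν : Fin N → ℕ} (j : Fin N) {G : (Fin N → ℕ) × (Fin N → ℕ) → K} (h : G ∈ tiaindA ψ ν) :
    (fun x => G (x.1 + Pi.single j 1, x.2)) ∈ tiaindA ψ ν := by
  induction h using Submodule.span_induction with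
  | mem G hG =>
    obtain ⟨e, D, h1, rfl⟩ := hG
    refine Submodule.subset_span ⟨e, Function.update D j ((D j).comp (X + 1)), fun l => ?_, ?_⟩
    · by_cases hl : l = j
      · subst hl
        rw [Function.update_self]
        exact plind_deg (h1 l)
      · rw [Function.update_of_ne hl]
        exact h1 l
    · funext x
      refine congrArg (ψ e) ?_
      unfold urow
      refine prod_congr rfl fun l _ => ?_
      dsimp only
      by_cases hl : l = j
      · subst hl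
        rw [Function.update_self, Polynomial.map_comp, Polynomial.map_add, Polynomial.map_X,
          Polynomial.map_one, row_shift, Pi.add_apply, Pi.single_eq_same]
      · rw [Function.update_of_ne hl, Pi.add_apply, Pi.single_eq_of_ne hl, add_zero]
  | zero => exact zero_mem _
  | add G G' _ _ h1 h2 => exact add_mem h1 h2
  | smul c G _ h1 => exact Submodule.smul_mem _ c h1

/-- Repeated differences lower the indices. -/
lemma tiaind_diff {N : ℕ} {K ι β : Type} [Field K] [CharZero K] [Fintype β]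
    (ψ : ι → MvPolynomial (Fin N) K →ₗ[K] K) {α : Fin N → K} (hα : ∀ j, α j ≠ 0)
    (ν : Fin N → ℕ) (E : ℕ) (γ : β → K) (l : Fin N → ℕ) :
    ∀ (m : Fin N → ℕ) (k : β → Fin N → ℤ),
      tiaindIn ψ ν E (m + l) (fun x => ∑ b, γ b * tiaindB α ν E (k b) x) →
      tiaindIn ψ ν E m fun x => ∑ b, γ b * tiaindB α ν E (k b - fun j => (l j : ℤ)) x := by
  let p : (Fin N → ℕ) → Prop := fun l => ∀ (m : Fin N → ℕ) (k : β → Fin N → ℤ),
      tiaindIn ψ ν E (m + l) (fun x => ∑ b, γ b * tiaindB α ν E (k b) x) →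
      tiaindIn ψ ν E m fun x => ∑ b, γ b * tiaindB α ν E (k b - fun j => (l j : ℤ)) x
  have h0 : p 0 := fun m k h => by
    have e : ∀ b, (k b - fun j => (((0 : Fin N → ℕ) j : ℕ) : ℤ)) = k b := fun b => by
      funext j
      simp
    simpa only [e, add_zero] using h
  have hadd : ∀ f g, p f → p g → p (f + g) := fun f g hf hg m k h => by
    rw [add_comm f g, ← add_assoc] at h
    have h2 := hg m _ (hf _ k h)
    have e : ∀ b, (k b - fun j => (((f + g) j : ℕ) : ℤ)) =
        (k b - fun j => (f j : ℤ)) - fun j => (g j : ℤ) := fun b => by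
      funext j
      simp only [Pi.sub_apply, Pi.add_apply]
      push_cast
      ring
    simpa only [e] using h2
  have h1 : ∀ j, p (Pi.single j 1) := by
    rintro j m k ⟨G, hG, hF⟩
    refine ⟨((α j)⁻¹ • fun x => G (x.1 + Pi.single j 1, x.2)) - G,
      sub_mem (Submodule.smul_mem _ _ (tiaind_sh j hG)) hG, fun x hx hi => ?_⟩
    simp only [Pi.sub_apply, Pi.smul_apply, smul_eq_mul]
    rw [hF (x.1 + Pi.single j 1, x.2) (fun l => Nat.add_le_add_right (hx l) _) hi,
      hF x (fun l => (hx l).trans (Nat.le_add_right _ _)) hi]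
    dsimp only
    rw [mul_sum, ← sum_sub_distrib]
    refine sum_congr rfl fun b _ => ?_
    have e : (fun l => (((Pi.single j 1 : Fin N → ℕ) l : ℕ) : ℤ)) = Pi.single j 1 := by
      funext l
      by_cases hl : l = j
      · subst hl
        simp
      · simp [Pi.single_eq_of_ne hl]
    rw [e, ← tiaind_B_step hα]
    ring
  refine Pi.single_induction p l h0 hadd fun j t => ?_
  induction t with
  | zero => simpa using h0
  | succ t ih =>
    rw [Pi.single_add]
    exact hadd _ _ ih (h1 j)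

lemma tiaind_base {N : ℕ} {K ι : Type} [Field K] [CharZero K]
    {ψ : ι → MvPolynomial (Fin N) K →ₗ[K] K} {α : Fin N → K} {ν n : Fin N → ℕ} {E : ℕ}
    (h : ZS ψ α ν n E) (c : K) (hc : tiaindIn ψ ν E n fun x => c * tiaindB α ν E 0 x) :
    c = 0 := by
  by_contra h0
  obtain ⟨G, hG, hF⟩ := hc
  have hL : ∏ j, ((Nat.lcmUpto (ν j) ^ E : ℕ) : K) ≠ 0 := prod_ne_zero_iff.2 fun j _ =>
    Nat.cast_ne_zero.2 (pow_ne_zero _ (Nat.lcmUpto_ne_zero _))
  have h1 : (fun p : Bx n E => G (fun j => (p j).1, fun j => (p j).2)) ∈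
      Submodule.span K {v | ∃ (e : ι) (D : Fin N → K[X]),
        (∀ j, (D j).degree < ν j) ∧ v = frow n E (ψ e) D} := by
    clear hF
    induction hG using Submodule.span_induction with
    | mem G hG =>
      obtain ⟨e, D, h1, rfl⟩ := hG
      exact Submodule.subset_span ⟨e, D, h1, rfl⟩
    | zero => exact zero_mem _
    | add G G' _ _ h1 h2 => exact add_mem h1 h2
    | smul c G _ h1 => exact Submodule.smul_mem _ c h1
  refine h ?_
  convert Submodule.smul_mem _ (c * ∏ j, ((Nat.lcmUpto (ν j) ^ E : ℕ) : K))⁻¹ h1 using 1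
  funext p
  rw [Pi.smul_apply, hF _ (fun j => Nat.le_of_lt_succ (p j).1.2)
    (fun j => Nat.le_of_lt_succ (p j).2.2), smul_eq_mul, eq_inv_mul_iff_mul_eq₀ (mul_ne_zero h0 hL),
    mul_assoc, qv, ← prod_mul_distrib]
  refine congrArg (c * ·) ?_
  unfold tiaindB
  refine prod_congr rfl fun j _ => ?_
  rw [tiaindF, Pi.zero_apply, if_pos le_rfl, Int.toNat_zero, bp_zero, plind_row_C]
  ring

theorem indepN {N : ℕ} {K ι : Type} [Field K] [CharZero K]
    (ψ : ι → MvPolynomial (Fin N) K →ₗ[K] K) (α : Fin N → K) (hα : ∀ j, α j ≠ 0)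
    (ν n : Fin N → ℕ) (E : ℕ) (h : ZS ψ α ν n E) (γ : (∀ j, Fin (n j)) → K)
    (hγ : (∑ b : ∀ j, Fin (n j), γ b • fun p : Bx (fun j => 2 * n j) E =>
        ∏ j, α j ^ ((p j).1 : ℕ) * row 0 (bp K (ν j) E (b j)) (p j).1 (p j).2) ∈
      Submodule.span K (Set.range fun e : ι × ∀ j, Fin (ν j) =>
        frow (fun j => 2 * n j) E (ψ e.1) fun j => bp K (ν j) E (e.2 j))) : γ = 0 := by
  classical
  have hA : tiaindIn ψ ν E (fun j => 2 * n j) fun x => ∑ b : ∀ j, Fin (n j),
      γ b * tiaindB α ν E (fun j => ((b j : ℕ) : ℤ)) x := by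
    obtain ⟨c, hc⟩ := (Finsupp.mem_span_range_iff_exists_finsupp).1 hγ
    refine ⟨c.sum fun e r => r • fun x => ψ e.1 (urow (fun j => bp K (ν j) E (e.2 j)) x.1 x.2),
      ?_, fun x hx hi => ?_⟩
    · refine Submodule.sum_mem _ fun e _ => Submodule.smul_mem _ _ (Submodule.subset_span
        ⟨e.1, _, fun j => ?_, rfl⟩)
      rw [bp_degree]
      exact_mod_cast (e.2 j).2
    · have h1 := congrFun hc fun j =>
        (⟨x.1 j, Nat.lt_succ_of_le (hx j)⟩, ⟨x.2 j, Nat.lt_succ_of_le (hi j)⟩)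
      simp only [Finsupp.sum, Finset.sum_apply, Pi.smul_apply, smul_eq_mul, frow] at h1 ⊢
      rw [h1]
      refine sum_congr rfl fun b _ => congrArg (γ b * ·) ?_
      unfold tiaindB
      refine prod_congr rfl fun j _ => ?_
      rw [tiaindF, if_pos (Int.natCast_nonneg _), Int.toNat_natCast]
  by_contra h0
  obtain ⟨b₁, hb₁⟩ := Function.ne_iff.1 h0
  obtain ⟨b₀, hb₀, hmax⟩ := exists_max_image (univ.filter fun b => γ b ≠ 0)
    (fun b => ∑ j, (b j : ℕ)) ⟨b₁, mem_filter.2 ⟨mem_univ _, hb₁⟩⟩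
  refine (mem_filter.1 hb₀).2 (tiaind_base h _ ?_)
  have h1 : tiaindIn ψ ν E (n + fun j => (b₀ j : ℕ)) fun x => ∑ b : ∀ j, Fin (n j),
      γ b * tiaindB α ν E (fun j => ((b j : ℕ) : ℤ)) x := by
    obtain ⟨G, hG, hF⟩ := hA
    refine ⟨G, hG, fun x hx => hF x fun j => (hx j).trans ?_⟩
    have := (b₀ j).2
    simp only [Pi.add_apply]
    omega
  obtain ⟨G, hG, hF⟩ := tiaind_diff ψ hα ν E γ _ n _ h1
  refine ⟨G, hG, fun x hx hi => ?_⟩
  rw [hF x hx hi]
  dsimp only
  rw [sum_eq_single b₀ (fun b _ hb => ?_) (fun hb => absurd (mem_univ _) hb), sub_self]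
  by_cases hg : γ b = 0
  · rw [hg, zero_mul]
  have h2 := hmax b (mem_filter.2 ⟨mem_univ _, hg⟩)
  obtain ⟨j, hj⟩ : ∃ j, (b j : ℕ) < b₀ j := by
    by_contra hn
    push Not at hn
    refine hb (funext fun j => Fin.ext ?_)
    exact ((sum_eq_sum_iff_of_le fun j _ => hn j).1
      (le_antisymm (sum_le_sum fun j _ => hn j) h2) j (mem_univ _)).symm
  refine mul_eq_zero_of_right _ (prod_eq_zero (mem_univ j) ?_)
  rw [tiaindF, if_neg]
  simp only [Pi.sub_apply]
  omega

end Pool.Agent.Lib.MP_1f047c_nt.TI
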