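import Pool.Agent.Lib.MP_1f047c_nt.TIARow
import Pool.Agent.Lib.MP_1f047c_nt.TIAInd

/-! The determinant inequality in `N` variables. -/

open Polynomial Finset

namespace Pool.Agent.Lib.MP_1f047c_nt.TI

open PL

theorem prod_tail {𝕜 ι : Type} [NormedField 𝕜] (s : Finset ι) (x x' : ι → 𝕜) (W : ι → ℝ)
    {q θ : ℝ} (hq : 1 ≤ q) (hθ0 : 0 ≤ θ) (hθ : θ ≤ 1) (hx : ∀ j ∈ s, ‖x j‖ ≤ 2 * W j)
    (hx' : ∀ j ∈ s, ‖x j - x' j‖ ≤ 2 * q * W j * θ) :
    ‖∏ j ∈ s, x j - ∏ j ∈ s, x' j‖ ≤ (∏ j ∈ s, 8 * q * W j) * θ := by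
  classical
  induction s using Finset.induction_on with
  | empty => simpa using hθ0
  | insert a s ha ih =>
    have hW : ∀ j ∈ insert a s, 0 ≤ W j := fun j hj => by
      linarith [norm_nonneg (x j), hx j hj]
    have hq0 : 0 ≤ q := by linarith
    have h1 : ∀ j ∈ s, ‖x' j‖ ≤ 8 * q * W j := by
      intro j hj
      have hj' := mem_insert_of_mem (b := a) hj
      have a1 : ‖x' j‖ ≤ ‖x j‖ + ‖x j - x' j‖ := by
        simpa using norm_sub_le (x j) (x j - x' j)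
      have a0 := hW j hj'
      have a2 : 2 * q * W j * θ ≤ 2 * q * W j :=
        mul_le_of_le_one_right (mul_nonneg (mul_nonneg zero_le_two hq0) a0) hθ
      nlinarith [mul_le_mul_of_nonneg_right hq a0, hx j hj', hx' j hj']
    have h2 : ‖∏ j ∈ s, x' j‖ ≤ ∏ j ∈ s, 8 * q * W j := by
      rw [norm_prod]
      exact prod_le_prod (fun j _ => norm_nonneg _) h1
    have h3 := ih (fun j hj => hx j (mem_insert_of_mem hj)) fun j hj => hx' j (mem_insert_of_mem hj)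
    have hWa := hW a (mem_insert_self a s)
    rw [prod_insert ha, prod_insert ha, prod_insert ha]
    generalize ∏ j ∈ s, x j = P at h3 ⊢
    generalize ∏ j ∈ s, x' j = P' at h2 h3 ⊢
    generalize ∏ j ∈ s, 8 * q * W j = Q at h2 h3 ⊢
    have hQ : 0 ≤ Q := (norm_nonneg _).trans h2
    have e : x a * P - x' a * P' = x a * (P - P') + (x a - x' a) * P' := by ring
    have b1 : ‖x a * (P - P')‖ ≤ 2 * W a * (Q * θ) := by
      rw [norm_mul]
      exact mul_le_mul (hx a (mem_insert_self a s)) h3 (norm_nonneg _) (by linarith)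
    have b2 : ‖(x a - x' a) * P'‖ ≤ 2 * q * W a * θ * Q := by
      rw [norm_mul]
      exact mul_le_mul (hx' a (mem_insert_self a s)) h2 (norm_nonneg _)
        (mul_nonneg (mul_nonneg (mul_nonneg zero_le_two hq0) hWa) hθ0)
    have b3 : 0 ≤ W a * Q * θ := mul_nonneg (mul_nonneg hWa hQ) hθ0
    rw [e]
    refine (norm_add_le _ _).trans ?_
    nlinarith [mul_le_mul_of_nonneg_right hq b3]

theorem detN {𝕜 : Type} [NormedField 𝕜] [CharZero 𝕜] (G : Good 𝕜)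
    (hG : ∀ a s : ℕ, ‖(a : 𝕜) ^ s / (s.factorial : 𝕜)‖ ≤ 2 ^ s * 3 ^ a)
    {K : Type} [Field K] [NumberField K] (φ : K →+* 𝕜) {N : ℕ} (α : Fin N → K) (l : Fin N → 𝕜)
    {s : ℕ} (ψ : Fin s → MvPolynomial (Fin N) K →ₗ[K] K) (γ : Fin s → 𝕜) (hα : ∀ j, α j ≠ 0)
    (hl : ∀ j, ∀ a : ℕ, HasSum (fun t : ℕ => (-l j * a) ^ t / (t.factorial : 𝕜)) (φ (α j) ^ a))
    (hl4 : ∀ j, ‖l j‖ ≤ 1 / 4) (E C₀ : ℕ) (n : Fin N → ℕ) (hC : 2 ≤ C₀) (h1 : ∀ j, 1 ≤ n j)
    (hγ : ∀ β : Fin N → ℕ, (∀ j, β j ≤ E) → ∏ j, l j ^ β j = ∑ e, γ e * φ (ψ e (mon K β)))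
    (hZ : ZS ψ α (fun j => C₀ * n j) n E) {θ : ℝ} (hθ0 : 0 ≤ θ) (hθ : θ ≤ 1)
    (hθ' : ∀ j, (2 * ‖l j‖) ^ ((C₀ - 1) * n j) ≤ θ) :
    1 ≤ (2 * (plarithF E ^ N * Real.exp (plarithG E C₀ * ∑ j, (n j : ℝ))) *
          ((s * C₀ ^ N + 1) * ∏ j, n j + 1 : ℕ)) ^
            ((s * C₀ ^ N + 1) * (Module.finrank ℚ K + 1)) *
        (∏ σ : Fin s × (Fin N → Fin (E + 1)),
          Height.mulHeight₁ (ψ σ.1 (mon K fun j => σ.2 j))) ^ (2 * (s * C₀ ^ N)) *
        ((∏ j, Height.mulHeight₁ (α j) ^ (2 * n j)) *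
          ((8 * 4 ^ E * plarithF E) ^ N * Real.exp ((plarithG E C₀ + 4) * ∑ j, (n j : ℝ)) * θ)) := by
  have hF := plarith_one_le_F E
  have hg := plarith_G_nonneg E C₀
  have hS : (0 : ℝ) ≤ ∑ j, (n j : ℝ) := sum_nonneg fun _ _ => Nat.cast_nonneg _
  have hZe : ∀ F g : ℝ, ∏ j, F * Real.exp (g * n j) = F ^ N * Real.exp (g * ∑ j, (n j : ℝ)) := by
    intro F g
    rw [prod_mul_distrib, prod_const, card_univ, Fintype.card_fin, mul_sum, Real.exp_sum]
  have hlt : ∀ {n k : ℕ}, k < n → k ≤ C₀ * n := fun h => by nlinarith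
  have h0 : ∀ {L : Type} [Field L] (w : AbsoluteValue L ℝ), max (w ((0 : L) ^ E)) 1 = 1 := by
    intro L _ w
    refine max_eq_right ?_
    rw [map_pow, map_zero]
    exact pow_le_one₀ le_rfl zero_le_one
  have h0' : max ‖(0 : 𝕜) ^ E‖ 1 = 1 := h0 (NormedField.toAbsoluteValue 𝕜)
  have key := detlemma G φ
    (fun e : Fin s × ∀ j, Fin (C₀ * n j) =>
      frow (fun j => 2 * n j) E (ψ e.1) fun j => bp K (C₀ * n j) E (e.2 j))
    (fun (b : ∀ j, Fin (n j)) (p : Bx (fun j => 2 * n j) E) =>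
      ∏ j, α j ^ ((p j).1 : ℕ) * row 0 (bp K (C₀ * n j) E (b j)) (p j).1 (p j).2)
    (fun b p => ∏ j, φ (α j) ^ ((p j).1 : ℕ) * row 0 (bp 𝕜 (C₀ * n j) E (b j)) (p j).1 (p j).2 -
      ∏ j, row (l j + 0) (bp 𝕜 (C₀ * n j) E (b j) * texp (l j) ((C₀ - 1) * n j)) (p j).1 (p j).2)
    (fun σ : Fin s × (Fin N → Fin (E + 1)) => ψ σ.1 (mon K fun j => σ.2 j))
    (fun j => α j ^ (2 * n j))
    (plarithF E ^ N * Real.exp (plarithG E C₀ * ∑ j, (n j : ℝ)))
    ((8 * 4 ^ E * plarithF E) ^ N * Real.exp ((plarithG E C₀ + 4) * ∑ j, (n j : ℝ)) * θ)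
    (one_le_mul_of_one_le_of_one_le (one_le_pow₀ hF) (Real.one_le_exp (mul_nonneg hg hS)))
    (by positivity) (fun γ' hγ' => indepN ψ α hα _ n E hZ γ' hγ') ?_ ?_ ?_ ?_
  · simp only [Fintype.card_prod, Fintype.card_fin, Fintype.card_pi, Height.mulHeight₁_pow] at key
    have hP : ∏ j, n j ≠ 0 := prod_ne_zero_iff.2 fun j _ => by have := h1 j; omega
    rw [prod_mul_distrib, prod_const, card_univ, Fintype.card_fin] at key
    generalize ∏ j, n j = P at key hP ⊢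
    rw [show s * (C₀ ^ N * P) + P = (s * C₀ ^ N + 1) * P by ring,
      show (s * C₀ ^ N + 1) * P * (Module.finrank ℚ K + 1) =
        (s * C₀ ^ N + 1) * (Module.finrank ℚ K + 1) * P by ring,
      show 2 * (s * (C₀ ^ N * P)) = 2 * (s * C₀ ^ N) * P by ring,
      pow_mul _ _ P, pow_mul _ _ P, ← mul_pow, ← mul_pow] at key
    exact (one_le_pow_iff_of_nonneg (by positivity) hP).1 key
  · intro b
    simp only [map_prod, map_mul, map_pow, row_map, bp_map, map_zero, sub_sub_cancel, add_zero]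
    exact row_spanN φ ψ l E γ hγ (fun j => C₀ * n j) (fun j => 2 * n j) _
      fun j => plarith_deg (l j) _ E C₀ (n j) (b j) (by omega) (b j).2
  · intro b p
    have a := fun j => plarith_tail hG (l j) 0 _ (hl4 j) E C₀ (n j) _ (b j) (p j).1 (p j).2
      (Nat.mul_pos (by omega) (h1 j)) (hlt (b j).2) (Nat.lt_succ_iff.1 (p j).1.2)
      (Nat.lt_succ_iff.1 (p j).2.2) (hl j _) (hθ' j)
    refine (prod_tail univ _ _ _ (one_le_pow₀ (by norm_num)) hθ0 hθ (fun j _ => (a j).1)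
      fun j _ => (a j).2).trans_eq ?_
    rw [← hZe]
    simp only [h0', mul_one, mul_assoc]
  · intro w e p
    exact urow_bound K w E C₀ n (ψ e.1) (fun j => (e.2 j).2.le)
      (fun j => Nat.lt_succ_iff.1 (p j).1.2) (fun j => Nat.lt_succ_iff.1 (p j).2.2)
      fun β hβ => (le_max_left _ _).trans (plarith_single
        (fun σ : Fin s × (Fin N → Fin (E + 1)) => w (ψ σ.1 (mon K fun j => σ.2 j)))
        (e.1, fun j => ⟨β j, Nat.lt_succ_of_le (hβ j)⟩))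
  · intro w b p
    have a := fun j => plarith_row K w E C₀ (n j) 0 (b j) (p j).1 (p j).2 (hlt (b j).2)
      (Nat.lt_succ_iff.1 (p j).1.2) (Nat.lt_succ_iff.1 (p j).2.2)
    have a' := fun j => plarith_pow w (α j) (Nat.lt_succ_iff.1 (p j).1.2)
    simp only [h0, mul_one] at a
    rw [map_prod]
    constructor
    · rw [← hZe, ← prod_mul_distrib]
      refine prod_le_prod (fun j _ => w.nonneg _) fun j _ => ?_
      rw [map_mul, mul_comm]
      exact mul_le_mul (a j).1 (a' j) (w.nonneg _) ((w.nonneg _).trans (a j).1)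
    · intro hw
      refine prod_le_prod (fun j _ => w.nonneg _) fun j _ => ?_
      rw [map_mul]
      exact (mul_le_of_le_one_right (w.nonneg _) ((a j).2 hw)).trans (a' j)

end Pool.Agent.Lib.MP_1f047c_nt.TI
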