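import Pool.Agent.Lib.MP_1f047c_nt.TIADefs

/-! Grouping of sizes. -/

open Polynomial Finset

namespace Pool.Agent.Lib.MP_1f047c_nt.TI

open PL

/-- The scales used for the grouping. -/
def grpT (Θ : ℕ → ℕ) : ℕ → ℕ
  | 0 => 1
  | j + 1 => max (grpT Θ j * grpT Θ j) (Θ (grpT Θ j) * grpT Θ j)

lemma grp_one_le (Θ : ℕ → ℕ) : ∀ j, 1 ≤ grpT Θ j
  | 0 => le_rfl
  | j + 1 => le_trans (Nat.mul_le_mul (grp_one_le Θ j) (grp_one_le Θ j)) (le_max_left _ _)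

lemma grp_mono (Θ : ℕ → ℕ) : Monotone (grpT Θ) :=
  monotone_nat_of_le_succ fun j =>
    le_trans (Nat.le_mul_of_pos_right _ (grp_one_le Θ j)) (le_max_left _ _)

lemma grp_gap (N : ℕ) (Θ : ℕ → ℕ) (H : Fin N → ℝ) (hH : ∀ j, 0 < H j) :
    ∃ j ≤ N * N, ∀ i k, H k ≤ grpT Θ j * H i ∨ grpT Θ (j + 1) * H i < H k := by
  by_contra hc
  have hc' : ∀ j : Fin (N * N + 1), ∃ p : Fin N × Fin N,
      grpT Θ j * H p.1 < H p.2 ∧ H p.2 ≤ grpT Θ (j + 1) * H p.1 := by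
    intro j
    by_contra h
    refine hc ⟨j, Nat.lt_succ_iff.1 j.2, fun i k => ?_⟩
    by_contra h2
    rw [not_or, not_le, not_lt] at h2
    exact h ⟨(i, k), h2⟩
  choose f hf using hc'
  have key : ∀ a b : Fin (N * N + 1), f a = f b → ¬ (a : ℕ) < b := by
    intro a b e hab
    have h1 := (hf a).2
    have h2 := (hf b).1
    rw [e] at h1
    have h3 : (grpT Θ (a + 1) : ℝ) ≤ grpT Θ b := by exact_mod_cast grp_mono Θ hab
    have h4 := mul_le_mul_of_nonneg_right h3 (hH (f b).1).le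
    linarith
  have hinj : Function.Injective f := fun a b e =>
    Fin.ext (le_antisymm (not_lt.1 (key b a e.symm)) (not_lt.1 (key a b e)))
  have := Fintype.card_le_of_injective f hinj
  simp only [Fintype.card_fin, Fintype.card_prod] at this
  omega

theorem group (N : ℕ) (Θ : ℕ → ℕ) : ∃ t₀ : ℕ, ∀ H : Fin N → ℝ, (∀ j, 0 < H j) →
    ∃ t : ℕ, 1 ≤ t ∧ t ≤ t₀ ∧ ∃ H' : Fin N → ℝ, (∀ j, H j ≤ H' j) ∧ (∀ j, H' j ≤ t * H j) ∧
      ∀ i k, H' i = H' k ∨ Θ t * H' i ≤ H' k ∨ Θ t * H' k ≤ H' i := by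
  classical
  refine ⟨grpT Θ (N * N), fun H hH => ?_⟩
  obtain ⟨j, hj, hP⟩ := grp_gap N Θ H hH
  have ht1 : 1 ≤ grpT Θ j := grp_one_le Θ j
  have ha : (grpT Θ j : ℝ) * grpT Θ j ≤ grpT Θ (j + 1) := by
    exact_mod_cast (le_max_left _ _ : grpT Θ j * grpT Θ j ≤ grpT Θ (j + 1))
  have hb : (Θ (grpT Θ j) : ℝ) * grpT Θ j ≤ grpT Θ (j + 1) := by
    exact_mod_cast (le_max_right _ _ : Θ (grpT Θ j) * grpT Θ j ≤ grpT Θ (j + 1))
  refine ⟨grpT Θ j, ht1, grp_mono Θ hj, ?_⟩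
  generalize grpT Θ (j + 1) = t' at hP ha hb
  generalize grpT Θ j = t at hP ha hb ht1
  have ht : (1 : ℝ) ≤ t := by exact_mod_cast ht1
  have hself : ∀ i, H i ≤ t * H i := fun i => le_mul_of_one_le_left (hH i).le ht
  have hex : ∀ i, ∃ a, H a ≤ t * H i ∧ ∀ b, H b ≤ t * H i → H b ≤ H a := by
    intro i
    obtain ⟨a, h1, h2⟩ := exists_max_image (univ.filter fun b => H b ≤ t * H i) H
      ⟨i, mem_filter.2 ⟨mem_univ _, hself i⟩⟩
    exact ⟨a, (mem_filter.1 h1).2, fun b hb' => h2 b (mem_filter.2 ⟨mem_univ _, hb'⟩)⟩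
  choose a h1 h2 using hex
  have key : ∀ i k, H i ≤ H k → H (a i) = H (a k) ∨ Θ t * H (a i) ≤ H (a k) := by
    intro i k hik
    rcases hP i k with h | h
    · left
      refine le_antisymm (h2 k _ ((h1 i).trans (mul_le_mul_of_nonneg_left hik (by linarith)))) ?_
      refine h2 i _ ((hP i (a k)).resolve_right (not_lt.2 ?_))
      calc H (a k) ≤ t * H k := h1 k
        _ ≤ t * (t * H i) := mul_le_mul_of_nonneg_left h (by linarith)
        _ = t * t * H i := by ring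
        _ ≤ t' * H i := mul_le_mul_of_nonneg_right ha (hH i).le
    · right
      calc (Θ t : ℝ) * H (a i) ≤ Θ t * (t * H i) :=
            mul_le_mul_of_nonneg_left (h1 i) (Nat.cast_nonneg _)
        _ = Θ t * t * H i := by ring
        _ ≤ t' * H i := mul_le_mul_of_nonneg_right hb (hH i).le
        _ ≤ H k := h.le
        _ ≤ H (a k) := h2 k k (hself k)
  refine ⟨fun i => H (a i), fun i => h2 i i (hself i), h1, fun i k => ?_⟩
  rcases le_total (H i) (H k) with h | h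
  · exact (key i k h).imp_right Or.inl
  · exact (key k i h).imp Eq.symm Or.inr

lemma grp_ceil {Θ : ℕ} {T x y : ℝ} (hx : 0 < x) (hy : 0 < y) (hT : y ≤ T) (h : 2 * Θ * x ≤ y) :
    Θ * ⌈T / y⌉₊ ≤ ⌈T / x⌉₊ := by
  have h1 : 1 ≤ T / y := by rwa [le_div_iff₀ hy, one_mul]
  have h2 : (⌈T / y⌉₊ : ℝ) ≤ 2 * (T / y) := by
    have := Nat.ceil_lt_add_one (le_trans zero_le_one h1)
    linarith
  have h3 : 2 * Θ * (T / y) ≤ T / x := by
    rw [le_div_iff₀ hx]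
    calc 2 * Θ * (T / y) * x = 2 * Θ * x * (T / y) := by ring
      _ ≤ y * (T / y) := mul_le_mul_of_nonneg_right h (by linarith)
      _ = T := by field_simp
  have h4 : ((Θ * ⌈T / y⌉₊ : ℕ) : ℝ) ≤ ⌈T / x⌉₊ := by
    rw [Nat.cast_mul]
    calc (Θ : ℝ) * ⌈T / y⌉₊ ≤ Θ * (2 * (T / y)) := mul_le_mul_of_nonneg_left h2 (Nat.cast_nonneg _)
      _ = 2 * Θ * (T / y) := by ring
      _ ≤ T / x := h3
      _ ≤ _ := Nat.le_ceil _
  exact_mod_cast h4

theorem sep_ceil {N : ℕ} (Θ n₀ : ℕ) (H : Fin N → ℝ) (hH : ∀ j, 0 < H j)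
    (h : ∀ i k, H i = H k ∨ 2 * Θ * H i ≤ H k ∨ 2 * Θ * H k ≤ H i) :
    ∀ᶠ T : ℝ in Filter.atTop, (∀ j, n₀ ≤ ⌈T / H j⌉₊) ∧ Sep Θ fun j => ⌈T / H j⌉₊ := by
  have h1 : ∀ᶠ T : ℝ in Filter.atTop, ∀ j, (n₀ : ℝ) * H j ≤ T :=
    Filter.eventually_all.2 fun j => Filter.eventually_ge_atTop _
  have h2 : ∀ᶠ T : ℝ in Filter.atTop, ∀ j, H j ≤ T :=
    Filter.eventually_all.2 fun j => Filter.eventually_ge_atTop _
  filter_upwards [h1, h2] with T hT1 hT2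
  refine ⟨fun j => ?_, fun i k => ?_⟩
  · have : (n₀ : ℝ) ≤ T / H j := by
      rw [le_div_iff₀ (hH j)]
      exact hT1 j
    exact_mod_cast this.trans (Nat.le_ceil _)
  · rcases h i k with e | e | e
    · exact Or.inl (by simp only [e])
    · exact Or.inr (Or.inr (grp_ceil (hH i) (hH k) (hT2 k) e))
    · exact Or.inr (Or.inl (grp_ceil (hH k) (hH i) (hT2 i) e))

end Pool.Agent.Lib.MP_1f047c_nt.TI
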