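import Pool.Agent.Lib.MP_1f047c_nt.TIARow

/-! Rational functionals supported on a hypersurface. -/

open Polynomial Finset

namespace Pool.Agent.Lib.MP_1f047c_nt.TI

open PL

/-- After the embedding `σ`, the functional is a combination of evaluations at zeros of `F`. -/
def OnZ {N : ℕ} {K : Type} [Field K] (σ : K →+* ℂ) (F : MvPolynomial (Fin N) K)
    (ψ : MvPolynomial (Fin N) K →ₗ[K] K) : Prop :=
  ∃ (t : ℕ) (c : Fin t → Fin N → ℂ) (b : Fin t → ℂ), (∀ k, MvPolynomial.eval₂ σ (c k) F = 0) ∧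
    ∀ G, σ (ψ G) = ∑ k, b k * MvPolynomial.eval₂ σ (c k) G

lemma ks_onZ_fintype {N : ℕ} {K ι : Type} [Field K] [Fintype ι] (σ : K →+* ℂ)
    (F : MvPolynomial (Fin N) K) (ψ : MvPolynomial (Fin N) K →ₗ[K] K) (c : ι → Fin N → ℂ)
    (b : ι → ℂ) (h1 : ∀ k, MvPolynomial.eval₂ σ (c k) F = 0)
    (h2 : ∀ G, σ (ψ G) = ∑ k, b k * MvPolynomial.eval₂ σ (c k) G) : OnZ σ F ψ := by
  refine ⟨Fintype.card ι, fun k => c ((Fintype.equivFin ι).symm k),
    fun k => b ((Fintype.equivFin ι).symm k), fun k => h1 _, fun G => ?_⟩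
  rw [h2]
  exact (Equiv.sum_comp (Fintype.equivFin ι).symm
    fun k => b k * MvPolynomial.eval₂ σ (c k) G).symm

lemma ks_onZ_zero {N : ℕ} {K : Type} [Field K] (σ : K →+* ℂ) (F : MvPolynomial (Fin N) K) :
    OnZ σ F 0 :=
  ⟨0, Fin.elim0, Fin.elim0, fun k => k.elim0, fun G => by simp⟩

/-- A polynomial killed by all such functionals lies in the radical of `F`. -/
theorem rad_of_onZ {N : ℕ} {K : Type} [Field K] (σ : K →+* ℂ) (F G : MvPolynomial (Fin N) K)
    (h : ∀ ψ, OnZ σ F ψ → ψ G = 0) : ∃ k : ℕ, F ∣ G ^ k := by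
  classical
  let _ : Algebra K ℂ := σ.toAlgebra
  have : CharZero K := σ.charZero
  have key : G ∈ MvPolynomial.vanishingIdeal K
      (MvPolynomial.zeroLocus (AlgebraicClosure K) (Ideal.span {F})) := by
    intro x hx
    have hF : MvPolynomial.aeval x F = 0 := hx F (Ideal.subset_span rfl)
    let L := IntermediateField.adjoin K (Set.range x)
    have : FiniteDimensional K L :=
      IntermediateField.finiteDimensional_adjoin fun y _ => Algebra.IsIntegral.isIntegral y
    let x' : Fin N → L := fun j => ⟨x j, IntermediateField.subset_adjoin K _ ⟨j, rfl⟩⟩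
    have hval : ∀ P : MvPolynomial (Fin N) K,
        L.val (MvPolynomial.aeval x' P) = MvPolynomial.aeval x P := fun P =>
      MvPolynomial.comp_aeval_apply x' L.val P
    have hF' : MvPolynomial.aeval x' F = 0 := by
      apply (L.val : L →+* AlgebraicClosure K).injective
      exact (hval F).trans (hF.trans (map_zero L.val).symm)
    have hev : ∀ (τ : L →ₐ[K] ℂ) (P : MvPolynomial (Fin N) K),
        τ (MvPolynomial.aeval x' P) = MvPolynomial.eval₂ σ (fun j => τ (x' j)) P := fun τ P =>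
      MvPolynomial.comp_aeval_apply x' τ P
    have hG' : MvPolynomial.aeval x' G = 0 := by
      refine (traceForm_nondegenerate K L).2 _ fun y => ?_
      refine h (Algebra.trace K L ∘ₗ LinearMap.mulLeft K y ∘ₗ
        (MvPolynomial.aeval x').toLinearMap) ?_
      refine ks_onZ_fintype σ F _ (fun (τ : L →ₐ[K] ℂ) j => τ (x' j)) (fun τ => τ y)
        (fun τ => by rw [← hev, hF', map_zero]) fun P => ?_
      refine (trace_eq_sum_embeddings ℂ (K := K) (L := L)
        (x := y * MvPolynomial.aeval x' P)).trans ?_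
      exact Finset.sum_congr rfl fun τ _ => by rw [map_mul, hev]
    rw [← hval, hG', map_zero]
  rw [MvPolynomial.vanishingIdeal_zeroLocus_eq_radical] at key
  obtain ⟨k, hk⟩ := key
  exact ⟨k, Ideal.mem_span_singleton.1 hk⟩

lemma ks_descent {K 𝕜 M ι : Type} [Field K] [Field 𝕜] [Fintype M] [Fintype ι] (φ : K →+* 𝕜)
    (v : ι → M → K) (lam : M → 𝕜)
    (h : ∀ g : M → K, (∀ e, ∑ β, g β * v e β = 0) → ∑ β, φ (g β) * lam β = 0) :
    ∃ γ : ι → 𝕜, ∀ β, lam β = ∑ e, γ e * φ (v e β) := by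
  classical
  let T : (ι → K) →ₗ[K] (M → K) := Fintype.linearCombination K v
  obtain ⟨R₀, hR₀⟩ := T.rangeRestrict.exists_rightInverse_of_surjective T.range_rangeRestrict
  obtain ⟨R, hR⟩ := LinearMap.exists_extend R₀
  have hTR : ∀ e, T (R (v e)) = v e := by
    intro e
    have hm : v e ∈ LinearMap.range T := ⟨Pi.single e 1, by simp [T]⟩
    have h1 : R (v e) = R₀ ⟨v e, hm⟩ := LinearMap.congr_fun hR ⟨v e, hm⟩
    rw [h1]
    exact congrArg Subtype.val (LinearMap.congr_fun hR₀ ⟨v e, hm⟩)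
  refine ⟨fun e => ∑ β, φ (R (Pi.single β 1) e) * lam β, fun β₀ => ?_⟩
  let f : (M → K) →ₗ[K] K := LinearMap.proj β₀ ∘ₗ (LinearMap.id - T ∘ₗ R)
  have hf : ∀ w : M → K, f w = ∑ β, f (Pi.single β 1) * w β := by
    intro w
    conv_lhs => rw [pi_eq_sum_univ' w, map_sum]
    exact Finset.sum_congr rfl fun β _ => by rw [map_smul, smul_eq_mul, mul_comm]
  have h1 := h (fun β => f (Pi.single β 1)) fun e => by
    rw [← hf]
    simp [f, hTR]
  have h2 : ∀ β, f (Pi.single β 1) =
      (if β₀ = β then 1 else 0) - ∑ e, R (Pi.single β 1) e * v e β₀ := by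
    intro β
    simp [f, T, Fintype.linearCombination_apply, Pi.single_apply]
  simp only [h2, map_sub, sub_mul, Finset.sum_sub_distrib, map_sum, map_mul, apply_ite φ, map_one,
    map_zero, ite_mul, one_mul, zero_mul, Finset.sum_ite_eq, Finset.mem_univ, if_true,
    sub_eq_zero] at h1
  rw [h1]
  simp only [Finset.sum_mul]
  rw [Finset.sum_comm]
  exact Finset.sum_congr rfl fun e _ => Finset.sum_congr rfl fun β _ => by ring

theorem exists_fun {N : ℕ} (E : ℕ) {K 𝕜 : Type} [Field K] [Field 𝕜] (φ : K →+* 𝕜) (σ : K →+* ℂ)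
    (F : MvPolynomial (Fin N) K) (l : Fin N → 𝕜) (hl : MvPolynomial.eval₂ φ l F = 0) :
    ∃ (ψ : Fin ((E + 1) ^ N) → MvPolynomial (Fin N) K →ₗ[K] K) (γ : Fin ((E + 1) ^ N) → 𝕜),
      (∀ e, OnZ σ F (ψ e)) ∧
      ∀ β : Fin N → ℕ, (∀ j, β j ≤ E) → ∏ j, l j ^ β j = ∑ e, γ e * φ (ψ e (mon K β)) := by
  classical
  let vec : (MvPolynomial (Fin N) K →ₗ[K] K) → (Fin N → Fin (E + 1)) → K :=
    fun ψ β => ψ (mon K fun j => β j)
  let S : Set ((Fin N → Fin (E + 1)) → K) := vec '' {ψ | OnZ σ F ψ}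
  obtain ⟨f, hfS, hsp, -⟩ := Submodule.exists_fun_fin_finrank_span_eq K S
  have hr : Module.finrank K (Submodule.span K S) ≤ (E + 1) ^ N := by
    refine (Submodule.finrank_le _).trans (le_of_eq ?_)
    simp
  choose ψ hψ hψf using hfS
  obtain ⟨γ, hγ⟩ := ks_descent φ f (fun β => ∏ j, l j ^ (β j : ℕ)) fun g hg => by
    have h1 : ∀ w ∈ Submodule.span K (Set.range f), ∑ β, g β * w β = 0 := by
      intro w hw
      induction hw using Submodule.span_induction with
      | mem w hw => obtain ⟨e, rfl⟩ := hw; exact hg e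
      | zero => simp
      | add w w' _ _ h h' => simp [mul_add, Finset.sum_add_distrib, h, h']
      | smul a w _ h =>
        have : ∑ β, g β * (a • w) β = a * ∑ β, g β * w β := by
          rw [Finset.mul_sum]
          exact Finset.sum_congr rfl fun β _ => by rw [Pi.smul_apply, smul_eq_mul]; ring
        rw [this, h, mul_zero]
    obtain ⟨k, P, hP⟩ := rad_of_onZ σ F (∑ β, g β • mon K fun j => β j) fun χ hχ => by
      have := h1 (vec χ) (hsp.ge (Submodule.subset_span ⟨χ, hχ, rfl⟩))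
      rw [map_sum, ← this]
      exact Finset.sum_congr rfl fun β _ => by rw [map_smul, smul_eq_mul]
    have h2 := congrArg (MvPolynomial.eval₂Hom φ l) hP
    rw [map_mul, map_pow, MvPolynomial.coe_eval₂Hom, hl, zero_mul] at h2
    have h3 := pow_eq_zero_iff'.1 h2 |>.1
    rw [← h3, MvPolynomial.eval₂_sum]
    refine Finset.sum_congr rfl fun β _ => ?_
    rw [MvPolynomial.smul_eq_C_mul, MvPolynomial.eval₂_mul, MvPolynomial.eval₂_C, eval₂_mon]
  obtain ⟨s, hs⟩ := Nat.exists_eq_add_of_le hr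
  rw [hs]
  refine ⟨Fin.append ψ fun _ => 0, Fin.append γ fun _ => 0, fun e => ?_, fun β hβ => ?_⟩
  · refine Fin.addCases (fun e => ?_) (fun e => ?_) e
    · rw [Fin.append_left]; exact hψ e
    · rw [Fin.append_right]; exact ks_onZ_zero σ F
  · rw [Fin.sum_univ_add]
    simp only [Fin.append_left, Fin.append_right, zero_mul, Finset.sum_const_zero, add_zero]
    refine (hγ fun j => ⟨β j, Nat.lt_succ_of_le (hβ j)⟩).trans ?_
    exact Finset.sum_congr rfl fun e _ => by rw [← hψf e]

theorem zs_of_zp {N : ℕ} {K ι : Type} [Field K] (σ : K →+* ℂ) (F : MvPolynomial (Fin N) K)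
    (ψ : ι → MvPolynomial (Fin N) K →ₗ[K] K) (hψ : ∀ e, OnZ σ F (ψ e)) (α : Fin N → K)
    (ν n : Fin N → ℕ) (E : ℕ) (h : ZP (MvPolynomial.map σ F) (fun j => σ (α j)) ν n E) :
    ZS ψ α ν n E := by
  intro hm
  apply h
  have key : ∀ w ∈ Submodule.span K {v | ∃ (e : ι) (D : Fin N → K[X]),
      (∀ j, (D j).degree < ν j) ∧ v = frow n E (ψ e) D},
      (fun p => σ (w p)) ∈ Submodule.span ℂ {v | ∃ (c : Fin N → ℂ) (D : Fin N → ℂ[X]),
        MvPolynomial.eval c (MvPolynomial.map σ F) = 0 ∧ (∀ j, (D j).degree < ν j) ∧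
          v = rowv n E c D} := by
    intro w hw
    induction hw using Submodule.span_induction with
    | mem w hw =>
      obtain ⟨e, D, hD, rfl⟩ := hw
      obtain ⟨t, c, b, hc, hb⟩ := hψ e
      have h1 : (fun p => σ (frow n E (ψ e) D p)) =
          ∑ k, b k • rowv n E (c k) fun j => (D j).map σ := by
        funext p
        rw [frow, hb, Finset.sum_apply]
        exact Finset.sum_congr rfl fun k _ => by rw [eval₂_urow]; rfl
      rw [h1]
      refine Submodule.sum_mem _ fun k _ => Submodule.smul_mem _ _ (Submodule.subset_span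
        ⟨c k, _, ?_, fun j => degree_map_le.trans_lt (hD j), rfl⟩)
      rw [MvPolynomial.eval_map]
      exact hc k
    | zero =>
      have : (fun p => σ ((0 : Bx n E → K) p)) = 0 := funext fun p => map_zero σ
      rw [this]
      exact zero_mem _
    | add w w' _ _ h1 h2 =>
      have : (fun p => σ ((w + w') p)) = (fun p => σ (w p)) + fun p => σ (w' p) :=
        funext fun p => map_add σ _ _
      rw [this]
      exact add_mem h1 h2
    | smul a w _ h1 =>
      have : (fun p => σ ((a • w) p)) = σ a • fun p => σ (w p) :=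
        funext fun p => map_mul σ _ _
      rw [this]
      exact Submodule.smul_mem _ _ h1
  have h2 := key _ hm
  have h3 : (fun p => σ (qv n E α p)) = qv n E fun j => σ (α j) := by
    funext p
    simp only [qv, map_prod, map_mul, map_pow, map_zero]
  rwa [h3] at h2

end Pool.Agent.Lib.MP_1f047c_nt.TI
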