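import Pool.Agent.Lib.MP_1f047c_nt.TIAArith
import Pool.Agent.Lib.MP_1f047c_nt.TIAKS
import Pool.Agent.Lib.MP_1f047c_nt.TIAGroup
import Pool.Agent.Lib.MP_1f047c_nt.TAHeight

/-! From the zero estimate to the theorem. -/

open Polynomial Finset

namespace Pool.Agent.Lib.MP_1f047c_nt.TI

open PL

lemma main_exp_sum {𝕜 ι : Type} [NormedField 𝕜] [CompleteSpace 𝕜] [CharZero 𝕜] (G : Good 𝕜)
    (l : ι → 𝕜) (m : ι → ℤ) (s : Finset ι) (h : ∑ j ∈ s, |(m j : ℝ)| * ‖l j‖ ≤ 1 / 32) :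
    ‖∑ j ∈ s, (m j : 𝕜) * l j‖ ≤ ∑ j ∈ s, |(m j : ℝ)| * ‖l j‖ ∧
      NormedSpace.exp (∑ j ∈ s, (m j : 𝕜) * l j) = ∏ j ∈ s, NormedSpace.exp (l j) ^ m j := by
  classical
  induction s using Finset.induction_on with
  | empty => simp
  | insert a s ha ih =>
    rw [sum_insert ha] at h
    rw [sum_insert ha, sum_insert ha, prod_insert ha]
    have h0 : 0 ≤ |(m a : ℝ)| * ‖l a‖ := by positivity
    obtain ⟨i1, i2⟩ := ih (by linarith)
    obtain ⟨j1, j2, -⟩ := TA.exp_int_comb G (l a) (∑ j ∈ s, (m j : 𝕜) * l j) (m a) 1 (by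
      rw [Int.cast_one, abs_one, one_mul]
      linarith)
    rw [Int.cast_one, one_mul] at j1 j2
    rw [Int.cast_one, abs_one, one_mul] at j1
    rw [zpow_one, i2] at j2
    exact ⟨by linarith, j2⟩

theorem exp_int_sum {𝕜 : Type} [NormedField 𝕜] [CompleteSpace 𝕜] [CharZero 𝕜] (G : Good 𝕜)
    {N : ℕ} (l : Fin N → 𝕜) (m : Fin N → ℤ) (h : ∑ j, |(m j : ℝ)| * ‖l j‖ ≤ 1 / 32)
    (h1 : ∏ j, NormedSpace.exp (l j) ^ m j = 1) : ∑ j, (m j : 𝕜) * l j = 0 := by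
  obtain ⟨i1, i2⟩ := main_exp_sum G l m univ h
  refine G.exp_inj (i1.trans h) (by rw [norm_zero]; norm_num) ?_
  rw [i2, h1, NormedSpace.exp_zero]

lemma main_exp_le {x H : ℝ} (hx : 0 ≤ x) (h : 4 + x ≤ H) : (x + 1) * Real.exp (-H) ≤ 1 / 32 := by
  have h1 : (32 : ℝ) ≤ Real.exp 4 := by
    have h2 : Real.exp 4 = Real.exp 1 ^ 4 := by rw [← Real.exp_nat_mul]; norm_num
    have h3 : (2.5 : ℝ) ≤ Real.exp 1 := le_trans (by norm_num) Real.exp_one_gt_d9.le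
    rw [h2]
    exact le_trans (by norm_num) (pow_le_pow_left₀ (by norm_num) h3 4)
  have h2 : 32 * (x + 1) ≤ Real.exp H := by
    calc 32 * (x + 1) ≤ Real.exp 4 * Real.exp x :=
          mul_le_mul h1 (Real.add_one_le_exp x) (by linarith) (Real.exp_pos _).le
      _ = Real.exp (4 + x) := (Real.exp_add _ _).symm
      _ ≤ Real.exp H := Real.exp_le_exp.2 h
  rw [Real.exp_neg, ← div_eq_mul_inv, div_le_div_iff₀ (Real.exp_pos _) (by norm_num)]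
  linarith

lemma main_noRel {𝕜 : Type} [NormedField 𝕜] [CompleteSpace 𝕜] [CharZero 𝕜] (G : Good 𝕜)
    {K : Type} [Field K] (φ : K →+* 𝕜) (σ : K →+* ℂ) {N : ℕ} (B : ℕ) (α : Fin N → K)
    (l : Fin N → 𝕜) (hα0 : ∀ j, α j ≠ 0) (hα : ∀ j, NormedSpace.exp (l j) = φ (α j))
    (hl : ∀ j, ((N : ℝ) * B + 1) * ‖l j‖ ≤ 1 / 32)
    (hind : ∀ m : Fin N → ℤ, ∑ j, (m j : 𝕜) * l j = 0 → m = 0) :
    NoRel B fun j => Complex.log (σ (α j)⁻¹) := by
  intro m hm hB k hk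
  have hσ : ∀ j, Complex.exp (Complex.log (σ (α j)⁻¹)) = σ (α j)⁻¹ := fun j =>
    Complex.exp_log ((map_ne_zero σ).2 (inv_ne_zero (hα0 j)))
  have h1 : Complex.exp (wm k) = 1 := by
    rw [wm, mul_comm]
    exact Complex.exp_int_mul_two_pi_mul_I k
  rw [← hk, Complex.exp_sum] at h1
  have h2 : σ (∏ j, α j ^ m j)⁻¹ = σ 1 := by
    rw [map_one, ← h1, ← prod_inv_distrib, map_prod]
    refine prod_congr rfl fun j _ => ?_
    rw [Complex.exp_int_mul, hσ, ← inv_zpow, map_zpow₀]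
  have h3 : ∏ j, α j ^ m j = 1 := inv_eq_one.1 (σ.injective h2)
  refine hm (hind m (exp_int_sum G l m ?_ ?_))
  · rcases Nat.eq_zero_or_pos N with h0 | h0
    · subst h0
      simp
    have hN : (0 : ℝ) < N := by exact_mod_cast h0
    have h4 : ∀ j, |(m j : ℝ)| * ‖l j‖ ≤ 1 / 32 / N := by
      intro j
      have h5 : |(m j : ℝ)| ≤ B := by exact_mod_cast hB j
      have h6 := mul_le_mul_of_nonneg_right h5 (norm_nonneg (l j))
      have h7 := hl j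
      have h8 := norm_nonneg (l j)
      rw [le_div_iff₀ hN]
      nlinarith
    refine (sum_le_sum fun j _ => h4 j).trans (le_of_eq ?_)
    rw [sum_const, card_univ, Fintype.card_fin, nsmul_eq_mul]
    field_simp
  · have h4 := congrArg φ h3
    rw [map_one, map_prod] at h4
    rw [← h4]
    refine prod_congr rfl fun j _ => ?_
    rw [map_zpow₀, hα]

theorem coreN (hZ : ZEst) (N D : ℕ) (δ : ℝ) (hδ : 0 < δ) : ∃ (Θ : ℕ) (c : ℝ), 0 < c ∧
    ∀ (𝕜 : Type) [NormedField 𝕜] [CompleteSpace 𝕜] [CharZero 𝕜], TA.Nice 𝕜 →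
    ∀ (K : Type) [Field K] [NumberField K] (φ : K →+* 𝕜) (α : Fin N → K) (l : Fin N → 𝕜)
      (H : Fin N → ℝ), (∀ j, NormedSpace.exp (l j) = φ (α j)) →
      (∀ j, δ * Height.logHeight₁ (α j) ≤ H j) → (∀ j, c * Module.finrank ℚ K ≤ H j) →
      (∀ j, ‖l j‖ ≤ Real.exp (-H j)) →
      (∀ i k, H i = H k ∨ Θ * H i ≤ H k ∨ Θ * H k ≤ H i) →
      (∀ m : Fin N → ℤ, ∑ j, (m j : 𝕜) * l j = 0 → m = 0) →
      ∀ F : MvPolynomial (Fin N) K, F ≠ 0 → F.totalDegree ≤ D →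
        MvPolynomial.eval₂ φ l F ≠ 0 := by
  have hC : 2 * N / δ + 3 ≤ (⌈2 * N / δ + 3⌉₊ : ℕ) := Nat.le_ceil _
  generalize ⌈2 * N / δ + 3⌉₊ = C₀ at hC
  obtain ⟨E, Θ, B, hZ'⟩ := hZ N D C₀
  obtain ⟨c, hc1, hc⟩ := arithN N δ hδ C₀ hC E ((E + 1) ^ N)
  have hNB : (0 : ℝ) ≤ (N : ℝ) * B := by positivity
  refine ⟨2 * Θ, c + 4 + N * B, by linarith,
    fun 𝕜 _ _ _ hN K _ _ φ α l H hα ha hH hl hsep hind F hF hD heq => ?_⟩
  obtain ⟨σ⟩ : Nonempty (K →+* ℂ) := inferInstance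
  have hd : (1 : ℝ) ≤ Module.finrank ℚ K := by exact_mod_cast Module.finrank_pos
  have hH4 : ∀ j, 4 + (N : ℝ) * B ≤ H j := fun j => by nlinarith [hH j]
  have hcH : ∀ j, c * Module.finrank ℚ K ≤ H j := fun j => by nlinarith [hH j]
  have hH0 : ∀ j, 0 < H j := fun j => by linarith [hH4 j]
  have hl1 : ∀ j, ((N : ℝ) * B + 1) * ‖l j‖ ≤ 1 / 32 := fun j =>
    (mul_le_mul_of_nonneg_left (hl j) (by linarith)).trans (main_exp_le hNB (hH4 j))
  have hl' : ∀ j, ‖l j‖ ≤ 1 / 32 := fun j => by nlinarith [hl1 j, norm_nonneg (l j)]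
  have hα0 : ∀ j, α j ≠ 0 := fun j h =>
    TA.exp_ne_zero hN.good (hl' j) (by rw [hα, h, map_zero])
  have hF' : MvPolynomial.map σ F ≠ 0 := fun h =>
    hF (MvPolynomial.map_injective σ σ.injective (h.trans (map_zero _).symm))
  have hD' : (MvPolynomial.map σ F).totalDegree ≤ D :=
    (Finset.sup_mono (MvPolynomial.support_map_subset σ F)).trans hD
  obtain ⟨n₀, hn₀⟩ := hZ' _ hF' hD' _ (main_noRel hN.good φ σ B α l hα0 hα hl1 hind)
  obtain ⟨ψ, γ, hψ, hγ⟩ := exists_fun E φ σ F l heq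
  refine hc 𝕜 hN.good hN.fac K φ (fun j => (α j)⁻¹) l H ψ γ (fun j => inv_ne_zero (hα0 j))
    (fun j a => by rw [map_inv₀, ← hα]; exact hN.sum (l j) (by linarith [hl' j]) a)
    (fun j => by rw [Height.logHeight₁_inv]; exact ha j) hcH hl hγ ?_
  have hsep' : ∀ i k, H i = H k ∨ 2 * Θ * H i ≤ H k ∨ 2 * Θ * H k ≤ H i := by
    intro i k
    have := hsep i k
    rwa [Nat.cast_mul, Nat.cast_ofNat] at this
  filter_upwards [sep_ceil Θ n₀ H hH0 hsep'] with T hT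
  refine zs_of_zp σ F ψ hψ _ _ _ E ?_
  have hz := hn₀ _ hT.1 hT.2
  have he : (fun j => Complex.exp (Complex.log (σ (α j)⁻¹))) = fun j => σ (α j)⁻¹ :=
    funext fun j => Complex.exp_log ((map_ne_zero σ).2 (inv_ne_zero (hα0 j)))
  rw [he] at hz
  exact hz

theorem allN (hZ : ZEst) (N D : ℕ) (δ : ℝ) (hδ : 0 < δ) : ∃ c : ℝ,
    ∀ (𝕜 : Type) [NormedField 𝕜] [CompleteSpace 𝕜] [CharZero 𝕜], TA.Nice 𝕜 →
    ∀ (K : Type) [Field K] [NumberField K] (φ : K →+* 𝕜) (α : Fin N → K) (l : Fin N → 𝕜),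
      (∀ j, NormedSpace.exp (l j) = φ (α j)) →
      (∀ j, ‖l j‖ ≤ Real.exp (-(δ * Height.logHeight₁ (α j) + c * Module.finrank ℚ K))) →
      (∀ m : Fin N → ℤ, ∑ j, (m j : 𝕜) * l j = 0 → m = 0) →
      ∀ F : MvPolynomial (Fin N) K, F ≠ 0 → F.totalDegree ≤ D →
        MvPolynomial.eval₂ φ l F ≠ 0 := by
  have hpos : ∀ t : ℕ, (0 : ℝ) < (max t 1 : ℕ) := fun t => by
    exact_mod_cast lt_of_lt_of_le Nat.one_pos (le_max_right t 1)
  choose Θ c hc0 hc using fun t : ℕ => coreN hZ N D (δ / (max t 1 : ℕ)) (div_pos hδ (hpos t))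
  obtain ⟨t₀, ht₀⟩ := group N Θ
  have hnn : ∀ t ∈ range (t₀ + 1), 0 ≤ (t : ℝ) * c t := fun t _ =>
    mul_nonneg (Nat.cast_nonneg _) (hc0 t).le
  have hs0 : 0 ≤ ∑ t ∈ range (t₀ + 1), (t : ℝ) * c t := sum_nonneg hnn
  refine ⟨∑ t ∈ range (t₀ + 1), (t : ℝ) * c t + 1,
    fun 𝕜 _ _ _ hN K _ _ φ α l hα hl hind F hF hD => ?_⟩
  have hd : (1 : ℝ) ≤ Module.finrank ℚ K := by exact_mod_cast Module.finrank_pos
  have hle : ∀ t ≤ t₀, (t : ℝ) * c t ≤ ∑ t ∈ range (t₀ + 1), (t : ℝ) * c t + 1 := fun t ht =>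
    (single_le_sum hnn (mem_range.2 (Nat.lt_succ_of_le ht))).trans (by linarith)
  have hc1 : 1 ≤ ∑ t ∈ range (t₀ + 1), (t : ℝ) * c t + 1 := by linarith
  generalize ∑ t ∈ range (t₀ + 1), (t : ℝ) * c t + 1 = c' at hl hle hc1
  have hh : ∀ j, 0 ≤ δ * Height.logHeight₁ (α j) := fun j =>
    mul_nonneg hδ.le (Height.zero_le_logHeight₁ _)
  have hcd : 0 < c' * Module.finrank ℚ K := by positivity
  obtain ⟨t, ht1, ht2, H', h1, h2, h3⟩ :=
    ht₀ (fun j => δ * Height.logHeight₁ (α j) + c' * Module.finrank ℚ K)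
      fun j => by linarith [hh j]
  have ht : (0 : ℝ) < t := by exact_mod_cast ht1
  have hct := hc t
  rw [max_eq_left ht1] at hct
  refine hct 𝕜 hN K φ α l (fun j => H' j / t) hα (fun j => ?_) (fun j => ?_) (fun j => ?_)
    (fun i k => ?_) hind F hF hD
  · rw [div_mul_eq_mul_div]
    exact div_le_div_of_nonneg_right (by linarith [h1 j]) ht.le
  · rw [le_div_iff₀ ht]
    have h4 := mul_le_mul_of_nonneg_right (hle t ht2) (le_trans zero_le_one hd)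
    linarith [h1 j, hh j]
  · refine (hl j).trans (Real.exp_le_exp.2 (neg_le_neg ?_))
    rw [div_le_iff₀ ht]
    linarith [h2 j]
  · rcases h3 i k with e | e | e
    · exact Or.inl (by rw [e])
    · exact Or.inr (Or.inl (by
        rw [← mul_div_assoc]
        exact div_le_div_of_nonneg_right e ht.le))
    · exact Or.inr (Or.inr (by
        rw [← mul_div_assoc]
        exact div_le_div_of_nonneg_right e ht.le))

end Pool.Agent.Lib.MP_1f047c_nt.TI
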