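import Pool.Agent.Lib.MP_1f047c_nt.TIADefs
import Pool.Agent.Lib.MP_1f047c_nt.PLArith

/-! Rows in `N` variables. -/

open Polynomial Finset

namespace Pool.Agent.Lib.MP_1f047c_nt.TI

open PL

theorem eval₂_urow {N : ℕ} {K L : Type} [CommRing K] [CommRing L] (φ : K →+* L) (c : Fin N → L)
    (D : Fin N → K[X]) (a i : Fin N → ℕ) :
    MvPolynomial.eval₂ φ c (urow D a i) = ∏ j, row (c j) ((D j).map φ) (a j) (i j) := by
  rw [← MvPolynomial.coe_eval₂Hom, urow, map_prod]
  refine prod_congr rfl fun j _ => ?_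
  rw [row_map, Polynomial.map_map, MvPolynomial.eval₂Hom_X', MvPolynomial.eval₂Hom_comp_C]

theorem eval₂_mon {N : ℕ} {K L : Type} [CommRing K] [CommRing L] (φ : K →+* L) (c : Fin N → L)
    (β : Fin N → ℕ) : MvPolynomial.eval₂ φ c (mon K β) = ∏ j, c j ^ β j := by
  rw [← MvPolynomial.coe_eval₂Hom, mon, map_prod]
  refine prod_congr rfl fun j _ => ?_
  rw [map_pow, MvPolynomial.eval₂Hom_X']

lemma tiarow_map {K L : Type} [CommRing K] [CommRing L] (φ : K →+* L) (P : K[X]) (s n : ℕ) :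
    ((derivative ^ s : Module.End L L[X]) (P.map φ)).eval (n : L) =
      φ (((derivative ^ s : Module.End K K[X]) P).eval (n : K)) := by
  rw [Module.End.pow_apply, Module.End.pow_apply, iterate_derivative_map, ← map_natCast φ n,
    eval_map, eval₂_at_apply]

theorem urow_eq {N : ℕ} {K : Type} [CommRing K] (D : Fin N → K[X]) (a i : Fin N → ℕ) :
    urow D a i = ∑ s ∈ Fintype.piFinset fun j => range (i j + 1),
      (∏ j, ((i j).choose (s j) : K) *
        ((derivative ^ s j : Module.End K K[X]) (D j)).eval (a j : K)) •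
          mon K fun j => i j - s j := by
  simp only [urow, row_eq]
  rw [Finset.prod_univ_sum]
  refine sum_congr rfl fun s _ => ?_
  rw [MvPolynomial.smul_eq_C_mul, mon, map_prod, ← prod_mul_distrib]
  refine prod_congr rfl fun j _ => ?_
  rw [tiarow_map, map_mul, map_natCast]
  ring

lemma tiarow_int (K : Type) [Field K] [CharZero K] (w : AbsoluteValue K ℝ) (E C₀ n : ℕ) {k a : ℕ}
    (hk : k ≤ C₀ * n) (ha : a ≤ 2 * n) {s : ℕ} (hs : s ≤ E) :
    w (((derivative ^ s : Module.End K K[X]) (bp K (C₀ * n) E k)).eval (a : K)) ≤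
        E.factorial * Real.exp (plarithG E C₀ * n) ∧
      (IsNonarchimedean w →
        w (((derivative ^ s : Module.End K K[X]) (bp K (C₀ * n) E k)).eval (a : K)) ≤ 1) := by
  obtain ⟨z, hz1, hz2⟩ := bp_int (C₀ * n) E
  rw [hz2 K k hk s hs a]
  refine ⟨?_, fun hw => hw.apply_intCast_le_one⟩
  have ha' : (a : ℝ) ≤ 2 * n := by exact_mod_cast ha
  have h3 : ((6 * E + 1) * ((C₀ * n : ℕ) : ℝ) + a) ≤ plarithG E C₀ * n := by
    unfold plarithG
    push_cast
    linarith
  rw [← w.apply_natAbs_eq]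
  refine (w.apply_nat_le_self _).trans (le_trans (le_of_eq ?_) ((hz1 k hk s hs a).trans ?_))
  · rw [Nat.cast_natAbs, Int.cast_abs]
  · exact mul_le_mul_of_nonneg_left (Real.exp_le_exp.2 h3) (Nat.cast_nonneg _)

theorem urow_bound {N : ℕ} (K : Type) [Field K] [CharZero K] (w : AbsoluteValue K ℝ) (E C₀ : ℕ)
    (n : Fin N → ℕ) (ψ : MvPolynomial (Fin N) K →ₗ[K] K) {k a i : Fin N → ℕ}
    (hk : ∀ j, k j ≤ C₀ * n j) (ha : ∀ j, a j ≤ 2 * n j) (hi : ∀ j, i j ≤ E) {M : ℝ}
    (hM : ∀ β : Fin N → ℕ, (∀ j, β j ≤ E) → w (ψ (mon K β)) ≤ M) :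
    w (ψ (urow (fun j => bp K (C₀ * n j) E (k j)) a i)) ≤
        plarithF E ^ N * Real.exp (plarithG E C₀ * ∑ j, (n j : ℝ)) * M ∧
      (IsNonarchimedean w → w (ψ (urow (fun j => bp K (C₀ * n j) E (k j)) a i)) ≤ M) := by
  have hM0 : 0 ≤ M := (w.nonneg _).trans (hM 0 fun _ => Nat.zero_le _)
  have hs : ∀ s ∈ Fintype.piFinset fun j => range (i j + 1), ∀ j, s j ≤ E := fun s hs j => by
    have := mem_range.1 (Fintype.mem_piFinset.1 hs j)
    have := hi j
    omega
  have hβ : ∀ s : Fin N → ℕ, w (ψ (mon K fun j => i j - s j)) ≤ M := fun s =>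
    hM _ fun j => (Nat.sub_le _ _).trans (hi j)
  rw [urow_eq, map_sum]
  simp only [map_smul, smul_eq_mul]
  constructor
  · refine (w.sum_le _ _).trans ((sum_le_sum (g := fun s => (∏ j, ((i j).choose (s j) : ℝ) *
      (E.factorial * Real.exp (plarithG E C₀ * n j))) * M) fun s h => ?_).trans ?_)
    · rw [map_mul, map_prod]
      refine mul_le_mul (prod_le_prod (fun j _ => w.nonneg _) fun j _ => ?_) (hβ s) (w.nonneg _)
        (by positivity)
      rw [map_mul]
      exact mul_le_mul (w.apply_nat_le_self _) (tiarow_int K w E C₀ _ (hk j) (ha j) (hs s h j)).1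
        (w.nonneg _) (Nat.cast_nonneg _)
    · rw [← sum_mul, ← Finset.prod_univ_sum (fun j => range (i j + 1))
        fun j t => ((i j).choose t : ℝ) * (E.factorial * Real.exp (plarithG E C₀ * n j))]
      refine mul_le_mul_of_nonneg_right ?_ hM0
      rw [mul_sum, Real.exp_sum, ← Fin.prod_const, ← prod_mul_distrib]
      refine prod_le_prod (fun j _ => by positivity) fun j _ => ?_
      rw [← sum_mul, ← Nat.cast_sum, Nat.sum_range_choose]
      have b1 : ((2 ^ i j : ℕ) : ℝ) ≤ 2 ^ E := by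
        exact_mod_cast Nat.pow_le_pow_right (by norm_num) (hi j)
      refine (mul_le_mul_of_nonneg_right b1 (by positivity)).trans_eq ?_
      rw [plarithF]
      ring
  · intro hw
    obtain ⟨s, h, h1⟩ := hw.finset_image_add_of_nonempty
      (fun s : Fin N → ℕ => (∏ j, ((i j).choose (s j) : K) *
        ((derivative ^ s j : Module.End K K[X]) (bp K (C₀ * n j) E (k j))).eval (a j : K)) *
          ψ (mon K fun j => i j - s j)) (t := Fintype.piFinset fun j => range (i j + 1))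
      (Fintype.piFinset_nonempty.2 fun _ => nonempty_range_add_one)
    refine h1.trans ?_
    rw [map_mul, map_prod]
    refine (mul_le_of_le_one_left (w.nonneg _) (prod_le_one (fun j _ => w.nonneg _)
      fun j _ => ?_)).trans (hβ s)
    rw [map_mul]
    exact mul_le_one₀ hw.apply_natCast_le_one (w.nonneg _)
      ((tiarow_int K w E C₀ _ (hk j) (ha j) (hs s h j)).2 hw)

lemma tiarow_sum {R κ : Type} [CommRing R] [Fintype κ] (c : R) (g : κ → R) (B : κ → R[X])
    (a i : ℕ) : row c (∑ k, g k • B k) a i = ∑ k, g k * row c (B k) a i := by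
  simp only [row, map_sum, map_smul, eval_finsetSum, eval_smul, smul_eq_mul]

theorem row_spanN {N : ℕ} {K 𝕜 ι : Type} [Field K] [CharZero K] [Field 𝕜] [CharZero 𝕜]
    [Fintype ι] (φ : K →+* 𝕜) (ψ : ι → MvPolynomial (Fin N) K →ₗ[K] K) (c : Fin N → 𝕜) (E : ℕ)
    (γ : ι → 𝕜)
    (hγ : ∀ β : Fin N → ℕ, (∀ j, β j ≤ E) → ∏ j, c j ^ β j = ∑ e, γ e * φ (ψ e (mon K β)))
    (ν n : Fin N → ℕ) (D : Fin N → 𝕜[X]) (hD : ∀ j, (D j).degree < ν j) :
    rowv n E c D ∈ Submodule.span 𝕜 (Set.range fun e : ι × ∀ j, Fin (ν j) => fun p =>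
      φ (frow n E (ψ e.1) (fun j => bp K (ν j) E (e.2 j)) p)) := by
  choose g hg using fun j => mem_span_bp 𝕜 (ν j) E (ν j) (D j) (hD j)
  have h1 : ∀ (B : Fin N → K[X]) (a i : Fin N → ℕ), (∀ j, i j ≤ E) →
      ∏ j, row (c j) ((B j).map φ) (a j) (i j) = ∑ e, γ e * φ (ψ e (urow B a i)) := by
    intro B a i hi
    rw [← eval₂_urow, urow_eq, ← MvPolynomial.coe_eval₂Hom]
    simp only [map_sum, map_smul, smul_eq_mul, mul_sum]
    rw [sum_comm]
    refine sum_congr rfl fun s _ => ?_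
    rw [MvPolynomial.smul_eq_C_mul, map_mul, MvPolynomial.eval₂Hom_C, MvPolynomial.coe_eval₂Hom,
      eval₂_mon, hγ _ fun j => (Nat.sub_le _ _).trans (hi j), mul_sum]
    refine sum_congr rfl fun e _ => ?_
    rw [map_mul]
    ring
  rw [Submodule.mem_span_range_iff_exists_fun]
  refine ⟨fun e => γ e.1 * ∏ j, g j (e.2 j), ?_⟩
  funext p
  simp only [Finset.sum_apply, Pi.smul_apply, smul_eq_mul, Fintype.sum_prod_type, frow, rowv]
  rw [sum_comm, prod_congr rfl fun j _ => by rw [hg j, tiarow_sum], Finset.prod_univ_sum,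
    Fintype.piFinset_univ]
  refine sum_congr rfl fun k _ => ?_
  have h2 := h1 (fun j => bp K (ν j) E (k j)) (fun j => (p j).1) (fun j => (p j).2)
    fun j => Nat.lt_succ_iff.1 (p j).2.2
  simp only [bp_map] at h2
  rw [prod_mul_distrib, h2, mul_sum]
  exact sum_congr rfl fun e _ => by ring

end Pool.Agent.Lib.MP_1f047c_nt.TI
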