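import Pool.Agent.Lib.MP_1f047c_nt.TIAMain

/-! The form of Roy and the matrix form. -/

open Finset

namespace Pool.Agent.Lib.MP_1f047c_nt.TI

open MvPolynomial

lemma roy_degree {ι σ K : Type} [Fintype ι] [Field K] (f : ι → MvPolynomial σ K)
    (hf : ∀ i, (f i).totalDegree ≤ 1) (F : MvPolynomial ι K) :
    (aeval f F).totalDegree ≤ F.totalDegree := by
  classical
  conv_lhs => rw [F.as_sum, map_sum]
  refine (totalDegree_finsetSum _ _).trans (Finset.sup_le fun β hβ => ?_)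
  rw [aeval_monomial, algebraMap_eq]
  refine (totalDegree_mul _ _).trans ?_
  rw [totalDegree_C, zero_add]
  refine (totalDegree_finsetProd _ _).trans (le_trans ?_ (le_totalDegree hβ))
  refine sum_le_sum fun i _ => (totalDegree_pow _ _).trans ?_
  simpa using Nat.mul_le_mul_left (β i) (hf i)

lemma roy_lin {r : ℕ} {K : Type} [Field K] (q : Fin r → K) :
    (∑ j, C (q j) * X j : MvPolynomial (Fin r) K).totalDegree ≤ 1 := by
  refine (totalDegree_finsetSum _ _).trans (Finset.sup_le fun j _ => ?_)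
  refine (totalDegree_mul _ _).trans ?_
  rw [totalDegree_C, totalDegree_X]

lemma roy_eval {ι K 𝕜 : Type} {r : ℕ} [Field K] [Field 𝕜] [CharZero K] [CharZero 𝕜] (φ : K →+* 𝕜)
    (q : ι → Fin r → ℚ) (y : ι → 𝕜) (z : Fin r → 𝕜) (h : ∀ i, y i = ∑ j, q i j * z j)
    (F : MvPolynomial ι K) :
    eval₂ φ y F = eval₂ φ z (aeval (fun i => ∑ j, C (q i j : K) * X j) F) := by
  refine congrArg (fun f : MvPolynomial ι K →+* 𝕜 => f F)
    (show eval₂Hom φ y = (eval₂Hom φ z).comp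
      (aeval (fun i => ∑ j, C (q i j : K) * X j)).toRingHom from ?_)
  ext x
  · simp
  · simpa using h x

theorem twoN (hZ : ZEst) (ι : Type) [Fintype ι] (D : ℕ) (δ : ℝ) (hδ : 0 < δ) : ∃ c : ℝ,
    ∀ (𝕜 : Type) [NormedField 𝕜] [CompleteSpace 𝕜] [CharZero 𝕜], TA.Nice 𝕜 →
    ∀ (K : Type) [Field K] [NumberField K] (φ : K →+* 𝕜) (α : ι → K) (l : ι → 𝕜),
      (∀ j, NormedSpace.exp (l j) = φ (α j)) →
      (∀ j, ‖l j‖ ≤ Real.exp (-(δ * Height.logHeight₁ (α j) + c * Module.finrank ℚ K))) →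
      ∀ F : MvPolynomial ι K, F.totalDegree ≤ D → MvPolynomial.eval₂ φ l F = 0 →
      ∃ (r : ℕ) (a : Fin r → ι) (q : ι → Fin r → ℚ), (∀ i, l i = ∑ j, q i j * l (a j)) ∧
        MvPolynomial.aeval (fun i => ∑ j, MvPolynomial.C (q i j : K) * MvPolynomial.X j) F =
          (0 : MvPolynomial (Fin r) K) := by
  classical
  choose c hc using fun r => allN hZ r D δ hδ
  refine ⟨∑ r ∈ range (Fintype.card ι + 1), |c r|,
    fun 𝕜 _ _ _ G K _ _ φ α l hexp hl F hD hF => ?_⟩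
  obtain ⟨κ', a', ha', hsp, hli⟩ := exists_linearIndependent' ℚ l
  have _ : Finite κ' := Finite.of_injective a' ha'
  obtain ⟨r, ⟨e⟩⟩ := Finite.exists_equiv_fin κ'
  let a : Fin r → ι := a' ∘ e.symm
  have hli' : LinearIndependent ℚ (l ∘ a) := hli.comp e.symm e.symm.injective
  have hr : r ≤ Fintype.card ι := by
    simpa using Fintype.card_le_of_injective a (ha'.comp e.symm.injective)
  have : ∀ i, ∃ q : Fin r → ℚ, l i = ∑ j, q j * l (a j) := fun i => by
    have : l i ∈ Submodule.span ℚ (Set.range (l ∘ a)) := by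
      rw [show Set.range (l ∘ a) = Set.range (l ∘ a') from e.symm.surjective.range_comp (l ∘ a'),
        hsp]
      exact Submodule.subset_span ⟨i, rfl⟩
    obtain ⟨q, hq⟩ := (Submodule.mem_span_range_iff_exists_fun ℚ).1 this
    exact ⟨q, by simpa [Rat.smul_def] using hq.symm⟩
  choose q hq using this
  refine ⟨r, a, q, hq, ?_⟩
  by_contra hne
  refine hc r 𝕜 G K φ (α ∘ a) (l ∘ a) (fun j => hexp _) (fun j => (hl _).trans ?_)
    (fun m hm => ?_) _ hne ((roy_degree _ (fun i => roy_lin _) F).trans hD) ?_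
  · have h1 : c r ≤ ∑ r ∈ range (Fintype.card ι + 1), |c r| :=
      (le_abs_self _).trans (single_le_sum (f := fun r => |c r|) (fun _ _ => abs_nonneg _)
        (mem_range.2 (Nat.lt_succ_of_le hr)))
    have h2 : (0 : ℝ) ≤ Module.finrank ℚ K := by positivity
    have h3 := mul_le_mul_of_nonneg_right h1 h2
    exact Real.exp_le_exp.2 (by simp only [Function.comp_apply]; linarith)
  · funext j
    have h1 : ∑ j, (m j : ℚ) • (l ∘ a) j = 0 := by simpa [Rat.smul_def] using hm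
    exact_mod_cast Fintype.linearIndependent_iff.1 hli' _ h1 j
  · rw [← roy_eval φ q l (l ∘ a) hq F, hF]

theorem polyN (hZ : ZEst) (N D : ℕ) (δ : ℝ) (hδ : 0 < δ) : ∃ c : ℝ,
    ∀ (𝕜 : Type) [NormedField 𝕜] [CompleteSpace 𝕜] [CharZero 𝕜], TA.Nice 𝕜 →
    ∀ (K : Type) [Field K] [NumberField K] (φ : K →+* 𝕜) (α : Fin N → K) (l : Fin N → 𝕜),
      (∀ j, NormedSpace.exp (l j) = φ (α j)) →
      (∀ j, ‖l j‖ ≤ Real.exp (-(δ * Height.logHeight₁ (α j) + c * Module.finrank ℚ K))) →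
      ∀ F : MvPolynomial (Fin N) K, F.totalDegree ≤ D → MvPolynomial.eval₂ φ l F = 0 →
      ∀ y : Fin N → 𝕜, (∀ m : Fin N → ℚ, ∑ j, (m j : 𝕜) * l j = 0 → ∑ j, (m j : 𝕜) * y j = 0) →
        MvPolynomial.eval₂ φ y F = 0 := by
  classical
  obtain ⟨c, H⟩ := twoN hZ (Fin N) D δ hδ
  refine ⟨c, fun 𝕜 _ _ _ G K _ _ φ α l hexp hl F hD hF y hy => ?_⟩
  obtain ⟨r, a, q, h1, h2⟩ := H 𝕜 G K φ α l hexp hl F hD hF
  have gen : ∀ (y : Fin N → 𝕜) (i : Fin N),
      ∑ s, ((Pi.single i 1 - ∑ j, q i j • Pi.single (a j) 1 : Fin N → ℚ) s : 𝕜) * y s =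
        y i - ∑ j, q i j * y (a j) := by
    intro y i
    simp only [Pi.sub_apply, Finset.sum_apply, Pi.smul_apply, smul_eq_mul, Rat.cast_sub,
      Rat.cast_sum, sub_mul, sum_mul, sum_sub_distrib]
    rw [sum_comm]
    simp [Pi.single_apply, apply_ite]
  have h3 : ∀ i, y i = ∑ j, q i j * (y ∘ a) j := fun i => by
    rw [← sub_eq_zero]
    exact (gen y i).symm.trans (hy _ (by rw [gen, ← h1, sub_self]))
  rw [roy_eval φ q y (y ∘ a) h3 F, h2, eval₂_zero]

lemma roy_singular {n : Type} [Fintype n] [DecidableEq n] {r : ℕ} (A : n × n → Fin r → ℚ)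
    (h : (Matrix.of fun i l => ∑ j, C (A (i, l) j) * (X j : MvPolynomial (Fin r) ℚ)).det = 0) :
    ∃ w v : n → ℚ, w ≠ 0 ∧ v ≠ 0 ∧ ∀ j, ∑ i, ∑ l, w i * A (i, l) j * v l = 0 := by
  obtain ⟨v, hv, h1⟩ := Matrix.exists_mulVec_eq_zero_iff.2 h
  obtain ⟨w, hw, h2⟩ := Matrix.exists_vecMul_eq_zero_iff.2 h
  set N := Matrix.of fun i l => ∑ j, C (A (i, l) j) * (X j : MvPolynomial (Fin r) ℚ) with hN
  have key : ∀ j, ∑ i, ∑ l, w i * C (A (i, l) j) * v l = 0 := fun j => by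
    have d : ∀ i l, pderiv j (N i l) = C (A (i, l) j) := fun i l => by
      simp only [hN, Matrix.of_apply, map_sum, pderiv_C_mul]
      rw [sum_eq_single j, pderiv_X_self, mul_one]
      · intro b _ hb
        rw [pderiv_X_of_ne hb, mul_zero]
      · simp
    have e1 : ∀ i, ∑ l, (N i l * pderiv j (v l) + v l * C (A (i, l) j)) = 0 := fun i => by
      have := congrArg (pderiv j) (congrFun h1 i)
      simpa only [Matrix.mulVec, dotProduct, map_sum, Derivation.leibniz, smul_eq_mul, d,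
        Pi.zero_apply, map_zero] using this
    have e2 : ∀ l, ∑ i, w i * N i l = 0 := fun l => congrFun h2 l
    calc _ = ∑ i, w i * ∑ l, (N i l * pderiv j (v l) + v l * C (A (i, l) j)) -
          ∑ l, (∑ i, w i * N i l) * pderiv j (v l) := by
          simp only [mul_sum, sum_mul]
          rw [sum_comm (γ := n) (f := fun l i => w i * N i l * pderiv j (v l)), ← sum_sub_distrib]
          refine sum_congr rfl fun i _ => ?_
          rw [← sum_sub_distrib]
          exact sum_congr rfl fun l _ => by ring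
      _ = 0 := by simp [e1, e2]
  obtain ⟨i0, hi⟩ := Function.ne_iff.1 hw
  obtain ⟨l0, hl⟩ := Function.ne_iff.1 hv
  have : ∃ x, eval x (w i0 * v l0) ≠ 0 := by
    by_contra hx
    push Not at hx
    exact mul_ne_zero hi hl (MvPolynomial.funext fun x => by rw [hx, map_zero])
  obtain ⟨x, hx⟩ := this
  rw [map_mul] at hx
  refine ⟨fun i => eval x (w i), fun l => eval x (v l),
    Function.ne_iff.2 ⟨i0, left_ne_zero_of_mul hx⟩, Function.ne_iff.2 ⟨l0, right_ne_zero_of_mul hx⟩,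
    fun j => ?_⟩
  simpa using congrArg (eval x) (key j)

theorem matN (hZ : ZEst) (n : ℕ) (δ : ℝ) (hδ : 0 < δ) : ∃ c : ℝ,
    ∀ (𝕜 : Type) [NormedField 𝕜] [CompleteSpace 𝕜] [CharZero 𝕜], TA.Nice 𝕜 →
    ∀ (K : Type) [Field K] [NumberField K] (φ : K →+* 𝕜) (α : Matrix (Fin n) (Fin n) K)
      (M : Matrix (Fin n) (Fin n) 𝕜), (∀ i j, NormedSpace.exp (M i j) = φ (α i j)) →
      (∀ i j, ‖M i j‖ ≤ Real.exp (-(δ * Height.logHeight₁ (α i j) + c * Module.finrank ℚ K))) →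
      M.det = 0 →
      ∃ w v : Fin n → ℚ, w ≠ 0 ∧ v ≠ 0 ∧ ∑ i, ∑ j, (w i : 𝕜) * M i j * (v j : 𝕜) = 0 := by
  classical
  let F0 : MvPolynomial (Fin n × Fin n) ℚ := (Matrix.of fun i l => X (i, l)).det
  obtain ⟨c, H⟩ := twoN hZ (Fin n × Fin n) F0.totalDegree δ hδ
  refine ⟨c, fun 𝕜 _ _ _ G K _ _ φ α M hexp hM hdet => ?_⟩
  obtain ⟨r, a, q, h1, h2⟩ := H 𝕜 G K φ (fun x => α x.1 x.2) (fun x => M x.1 x.2)
    (fun x => hexp _ _) (fun x => hM _ _) (MvPolynomial.map (algebraMap ℚ K) F0)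
    (Finset.sup_mono (support_map_subset _ _))
    (by
      rw [← hdet, eval₂_map, ← coe_eval₂Hom, RingHom.map_det]
      congr 1
      ext i j
      simp)
  obtain ⟨w, v, hw, hv, h3⟩ := roy_singular q (by
    apply map_injective (algebraMap ℚ K) (algebraMap ℚ K).injective
    rw [map_zero, ← h2, aeval_map_algebraMap, RingHom.map_det, AlgHom.map_det]
    congr 1
    ext1 i j
    simp)
  refine ⟨w, v, hw, hv, ?_⟩
  calc _ = ∑ j, ((∑ i, ∑ l, w i * q (i, l) j * v l : ℚ) : 𝕜) * M (a j).1 (a j).2 := by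
        push_cast
        simp only [sum_mul]
        rw [sum_comm (γ := Fin r)]
        refine sum_congr rfl fun i _ => ?_
        rw [sum_comm (γ := Fin r)]
        refine sum_congr rfl fun l _ => ?_
        rw [show M i l = _ from h1 (i, l), mul_sum, sum_mul]
        exact sum_congr rfl fun j _ => by ring
    _ = 0 := by simp [h3]

end Pool.Agent.Lib.MP_1f047c_nt.TI
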