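import Pool.Agent.Lib.MP_1f047c_nt.PLDefs

/-! Definitions for the theorem on polynomial relations between logarithms close to zero. -/

open Finset MeasureTheory

namespace Pool.Agent.Lib.MP_1f047c_nt.TI

noncomputable section

/-- A lower bound of second order for the means of `u` over small circles centred at `x`. -/
def SubM {E : Type} [NormedAddCommGroup E] [NormedSpace ℂ E] (u : E → ℝ) (x : E) (Q : E → ℝ) :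
    Prop :=
  ∀ v : E, ∀ δ : ℝ, 0 < δ → ∀ᶠ r in nhdsWithin (0 : ℝ) (Set.Ioi 0),
    u x + (Q v - δ) * r ^ 2 ≤ Real.circleAverage (fun t : ℂ => u (x + t • v)) 0 r

section Hor

variable {ι : Type} [Fintype ι] [DecidableEq ι]

/-- Smooth functions with compact support. -/
def Test (ψ : (ι → ℂ) → ℂ) : Prop := ContDiff ℝ (⊤ : ℕ∞) ψ ∧ HasCompactSupport ψ

/-- The derivative `∂ / ∂ z_j`. -/
def dz (j : ι) (f : (ι → ℂ) → ℂ) (x : ι → ℂ) : ℂ :=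
  (fderiv ℝ f x (Pi.single j 1) - Complex.I * fderiv ℝ f x (Pi.single j Complex.I)) / 2

/-- The derivative `∂ / ∂ conj z_j`. -/
def dzb (j : ι) (f : (ι → ℂ) → ℂ) (x : ι → ℂ) : ℂ :=
  (fderiv ℝ f x (Pi.single j 1) + Complex.I * fderiv ℝ f x (Pi.single j Complex.I)) / 2

/-- Four times the Levi form. -/
def Levi (Φ : (ι → ℂ) → ℝ) (x v : ι → ℂ) : ℝ :=
  fderiv ℝ (fun y => fderiv ℝ Φ y v) x v +
    fderiv ℝ (fun y => fderiv ℝ Φ y (Complex.I • v)) x (Complex.I • v)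

/-- The formal adjoint of the Cauchy-Riemann operator for the weight `exp (-Φ)`. -/
def Tst (Φ : (ι → ℂ) → ℝ) (α : ι → (ι → ℂ) → ℂ) (x : ι → ℂ) : ℂ :=
  -∑ j, (dz j (α j) x - dz j (fun y => (Φ y : ℂ)) x * α j x)

/-- Bump functions with shrinking support. -/
def bump (ι : Type) [Fintype ι] (k : ℕ) : ContDiffBump (0 : ι → ℂ) :=
  ⟨1 / (2 * ((k : ℝ) + 1)), 1 / ((k : ℝ) + 1), by positivity,
    one_div_lt_one_div_of_lt (by positivity) (by linarith [(Nat.cast_nonneg k : (0 : ℝ) ≤ k)])⟩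

/-- The kernel of the mollifier. -/
def eta (k : ℕ) (x y : ι → ℂ) : ℂ := ((bump ι k).normed volume (x - y) : ℝ)

/-- The mollifier. -/
def mol (k : ℕ) (h : (ι → ℂ) → ℂ) (x : ι → ℂ) : ℂ := ∫ y, h y * eta k x y

/-- Closed polydisc. -/
def pdisc (x : ι → ℂ) (ρ : ι → ℝ) : Set (ι → ℂ) := {y | ∀ j, ‖y j - x j‖ ≤ ρ j}

end Hor

/-- The cut-off logarithm. -/
def gf (τ : ℝ) : ℝ := if τ < 1 then Real.log τ + (1 - τ) + (1 - τ) ^ 2 / 2 else 0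

/-- A regularised logarithmic pole which vanishes outside the disc of radius `ρ`. -/
def lam (ε ρ : ℝ) (y : ℂ) : ℝ := 1 / 2 * gf ((‖y‖ ^ 2 / ρ ^ 2 + ε) / (1 + ε))

/-- A convex function of linear growth. -/
def hub (ρ s : ℝ) : ℝ := √(ρ ^ 2 + s ^ 2)

abbrev MP (N : ℕ) : Type := MvPolynomial (Fin N) ℂ

/-- Translation of polynomials. -/
def tr {N : ℕ} (y : Fin N → ℂ) : MP N →ₐ[ℂ] MP N :=
  MvPolynomial.aeval fun i => MvPolynomial.X i + MvPolynomial.C (y i)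

/-- The span of a finite set of polynomials. -/
abbrev sp {N : ℕ} (𝒢 : Finset (MP N)) : Submodule ℂ (MP N) := Submodule.span ℂ (𝒢 : Set (MP N))

/-- Regularised logarithm of the norm of a finite family of polynomials. -/
def lg {N : ℕ} (ε : ℝ) (𝒢 : Finset (MP N)) (y : Fin N → ℂ) : ℝ :=
  1 / 2 * Real.log (ε + ∑ g ∈ 𝒢, ‖MvPolynomial.eval y g‖ ^ 2)

/-- The space of pairs `(c, ζ)`. -/
abbrev Sp (N : ℕ) : Type := Fin N ⊕ Fin N → ℂ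

/-- The coordinate `ζ`. -/
def cZ {N : ℕ} (x : Sp N) : Fin N → ℂ := fun i => x (Sum.inr i)

/-- The coordinate `X = c + ζ`. -/
def cX {N : ℕ} (x : Sp N) : Fin N → ℂ := fun i => x (Sum.inl i) + x (Sum.inr i)

/-- Periods. -/
def wv {κ : Type} (μ : κ → ℤ) : κ → ℂ := fun j => PL.wm (μ j)

/-- An integer matrix acting on complex vectors. -/
def mc {κ κ' : Type} [Fintype κ'] (π : κ → κ' → ℤ) (y : κ' → ℂ) : κ → ℂ :=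
  fun j => ∑ i, (π j i : ℂ) * y i

/-- An integer matrix acting on integer vectors. -/
def mz {κ κ' : Type} [Fintype κ'] (π : κ → κ' → ℤ) (m : κ' → ℤ) : κ → ℤ :=
  fun j => ∑ i, π j i * m i

/-- The vector `π ζ - w_μ`. -/
def yv {N : ℕ} {κ : Type} (π : κ → Fin N → ℤ) (μ : κ → ℤ) (x : Sp N) : κ → ℂ :=
  mc π (cZ x) - wv μ

/-- The point `x` lies in the box with radii `ρ` around the period `μ`. -/
def inB {N : ℕ} {κ : Type} (π : κ → Fin N → ℤ) (ρ : κ → ℝ) (μ : κ → ℤ) (x : Sp N) : Prop :=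
  ∀ j, ‖yv π μ x j‖ ≤ ρ j

/-- Upper bound of exponential type. -/
def Ub {N : ℕ} (e₀ : ℝ) (n : Fin N → ℝ) (Cn : ℝ) (x : Sp N) : ℝ :=
  e₀ * ∑ i, n i * |(cZ x i).re| + Cn

/-- `L` bounds the logarithmic pole at the period `m`. -/
def Lb {N : ℕ} (ν : Fin N → ℝ) (ε : ℝ) (m : Fin N → ℤ) (x : Sp N) (L : ℝ) : Prop :=
  ∀ i, ν i * (1 / 2 * Real.log (ε + ‖cZ x i - PL.wm (m i)‖ ^ 2)) ≤ L

/-- The sizes `n` are equal on each level and decrease quickly with the level. -/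
def Adm {N : ℕ} (lev : Fin N → ℕ) (Θ : ℝ) (n : Fin N → ℝ) : Prop :=
  (∀ i k, lev i = lev k → n i = n k) ∧ ∀ i k, lev i < lev k → Θ * n k ≤ n i

/-- No small integer relation modulo the periods. -/
def Ind {N : ℕ} (B : ℕ) (z : Fin N → ℂ) : Prop :=
  ∀ l : Fin N → ℤ, l ≠ 0 → (∀ i, |l i| ≤ B) → ∀ k : ℤ, ∑ i, (l i : ℂ) * z i ≠ PL.wm k

/-- The package of functions attached to a node. -/
structure Pk {N : ℕ} {κ : Type} (π : κ → Fin N → ℤ) (n ν : Fin N → ℝ) (z : Fin N → ℂ)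
    (ε b ρ e₀ K C₁ Cn rz : ℝ) (top : Sp N → ℝ) (a : (κ → ℤ) → Sp N → ℝ) (W : Sp N → ℝ)
    (S G : (κ → ℤ) → Sp N → ℝ) : Prop where
  cW : Continuous W
  cS : ∀ μ, Continuous (S μ)
  cG : ∀ μ, Continuous (G μ)
  psh : ∀ (x : Sp N) (s : Finset (κ → ℤ)) (t t' : (κ → ℤ) → ℝ),
    (∀ μ ∈ s, inB π (fun _ => ρ) μ x ∧ 0 ≤ t μ ∧ 0 ≤ t' μ ∧ t μ + t' μ ≤ b) →
    SubM (fun y => W y + K * top y + ∑ μ ∈ s, (t μ * S μ y + t' μ * G μ y)) x fun _ => 0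
  uW : ∀ x, W x ≤ Ub e₀ n Cn x
  uS : ∀ μ x, W x + S μ x ≤ Ub e₀ n Cn x
  uG : ∀ m x L, Lb ν ε m x L → W x + G (mz π m) x ≤ Ub e₀ n Cn x + L
  lo : ∀ x, ‖cZ x - z‖ ≤ rz → -Cn ≤ W x
  s1 : ∀ μ x, inB π (fun _ => ρ) μ x → a μ x - top x + S μ x ≤ C₁
  s2 : ∀ μ x, G μ x ≤ 0
  s3 : ∀ μ x, inB π (fun _ => ρ) μ x → top x - a μ x - C₁ ≤ S μ x ∨ 0 ≤ G μ x

/-- Packages exist for all large admissible sizes, uniformly in the regularisation. -/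
def Fam {N : ℕ} {κ : Type} (lev : Fin N → ℕ) (C : ℝ) (π : κ → Fin N → ℤ) (b ρ e₀ K Θ : ℝ)
    (z : Fin N → ℂ) (top : ℝ → Sp N → ℝ) (a : ℝ → (κ → ℤ) → Sp N → ℝ) : Prop :=
  ∃ C₁ n₀ rz : ℝ, 0 < rz ∧ 0 ≤ C₁ ∧ ∀ n : Fin N → ℝ, (∀ i, n₀ ≤ n i) → Adm lev Θ n →
    ∃ Cn : ℝ, ∀ ε : ℝ, 0 < ε → ε ≤ 1 → ∃ W S G,
      Pk π n (fun i => C * n i) z ε b ρ e₀ K C₁ Cn rz (top ε) (a ε) W S G

/-- The algebraic data of a node. -/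
structure Node {N : ℕ} {κ : Type} (π : κ → Fin N → ℤ) (σ : (κ → ℂ) →ₗ[ℂ] (Fin N → ℂ))
    (𝒯 𝒢 : Finset (MP N)) : Prop where
  closed : ∀ y, ∀ g ∈ 𝒯, tr y g ∈ sp 𝒯
  gen : ∃ F ∈ sp 𝒢, ∀ g ∈ 𝒯, g ∈ Submodule.span ℂ (Set.range fun y => tr y F)
  sub : ∀ g ∈ 𝒢, g ∈ sp 𝒯
  inv : ∀ y, ∀ g ∈ 𝒢, tr (y - σ (mc π y)) g ∈ sp 𝒢

/-- The reference function. -/
def topF {N : ℕ} (𝒯 : Finset (MP N)) (ε : ℝ) (x : Sp N) : ℝ := lg ε 𝒯 (cX x)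

/-- The function of a node at the period `μ`. -/
def aF {N : ℕ} {κ : Type} (π : κ → Fin N → ℤ) (σ : (κ → ℂ) →ₗ[ℂ] (Fin N → ℂ))
    (𝒢 : Finset (MP N)) (ε : ℝ) (μ : κ → ℤ) (x : Sp N) : ℝ := lg ε 𝒢 (cX x - σ (yv π μ x))

/-- The weight lemma for nodes of rank at most `r`. -/
def WL (N : ℕ) (lev : Fin N → ℕ) (C : ℝ) (r : ℕ) : Prop :=
  ∀ (κ : Type) [Fintype κ] [DecidableEq κ] (π : κ → Fin N → ℤ) (rep : κ → Fin N),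
    (∀ j i, π j i ≠ 0 → lev i = lev (rep j)) → ∀ b ρ e₀ : ℝ, 1 ≤ b → 1 ≤ ρ → 0 < e₀ →
    ∃ (K Θ : ℝ) (B : ℕ), 0 ≤ K ∧ ∀ (𝒯 𝒢 : Finset (MP N)) (σ : (κ → ℂ) →ₗ[ℂ] (Fin N → ℂ))
      (z : Fin N → ℂ), Node π σ 𝒯 𝒢 →
      Fintype.card κ + Module.finrank ℂ (sp 𝒯) ≤ r + Module.finrank ℂ (sp 𝒢) → Ind B z →
      Fam lev C π b ρ e₀ K Θ z (topF 𝒯) (aF π σ 𝒢)

section Step

variable {N : ℕ} {κ ι : Type} [Fintype κ] [Fintype ι]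

/-- Maximum of zero and the references of the children. -/
def Sd (Sc : ι → (κ → ℤ) → Sp N → ℝ) (μ : κ → ℤ) (x : Sp N) : ℝ :=
  (univ : Finset ι).fold max 0 fun c => Sc c μ x

/-- Maximum of the poles of the node and of the floors of the children. -/
def Gd (π : κ → Fin N → ℤ) (ν ρ : κ → ℝ) (j₀ : κ) (ε : ℝ) (Gc : ι → (κ → ℤ) → Sp N → ℝ)
    (off : ι → ℝ) (μ : κ → ℤ) (x : Sp N) : ℝ :=
  (univ : Finset ι).fold max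
    ((univ : Finset κ).fold max (ν j₀ * lam ε (ρ j₀) (yv π μ x j₀))
      fun j => ν j * lam ε (ρ j) (yv π μ x j))
    fun c => Gc c μ x - off c

/-- All data and hypotheses of the inductive step, for one value of the regularisation. -/
structure St (N : ℕ) (κ ι : Type) [Fintype κ] [Fintype ι] where
  lev : Fin N → ℕ
  π : κ → Fin N → ℤ
  rep : κ → Fin N
  j₀ : κ
  rc : ι → Fin N
  n : Fin N → ℝ
  z : Fin N → ℂ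
  C : ℝ
  ε : ℝ
  b : ℝ
  ρ : ℝ
  R : ℝ
  e₀ : ℝ
  e₁ : ℝ
  om : ℝ
  Θ : ℝ
  C₁ : ℝ
  C₂ : ℝ
  Cs : ℝ
  Cn : ℝ
  rz : ℝ
  d : ℝ
  rad : κ → ℝ
  sl : κ → ℝ
  Kc : ι → ℝ
  top : Sp N → ℝ
  a : (κ → ℤ) → Sp N → ℝ
  ac : ι → (κ → ℤ) → Sp N → ℝ
  Wc : ι → Sp N → ℝ
  Sc : ι → (κ → ℤ) → Sp N → ℝ
  Gc : ι → (κ → ℤ) → Sp N → ℝ
  hπ : ∀ j i, π j i ≠ 0 → lev i = lev (rep j)
  hC : 1 ≤ C
  hε : 0 < ε
  hε1 : ε ≤ 1
  hb : 1 ≤ b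
  hρ : 1 ≤ ρ
  he₀ : 0 < e₀
  he₁ : Fintype.card ι * e₁ ≤ e₀ / 2
  hom : 0 < om
  hom1 : (2 * R + 1) ^ Fintype.card κ * om ≤ 1
  hΘ : R * Real.exp (-(om ^ 3 / 6 * Θ)) < Real.pi
  hC₁ : 0 ≤ C₁
  hC₂ : 0 ≤ C₂
  hCs : 0 ≤ Cs
  hCn : 0 ≤ Cn
  hd : 0 < d
  hrad : ∀ j, ρ ≤ rad j ∧ rad j ≤ R
  hsl0 : ∀ j, 0 ≤ sl j
  hsl : ∀ j, 12 * b * C * ((2 * ρ + 1) ^ Fintype.card κ +
    (∏ j' with lev (rep j') < lev (rep j), (2 * rad j' + 1)) + 1) ≤ sl j * rad j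
  hsl' : ∀ i, ∑ j, sl j * |(π j i : ℝ)| ≤ e₀ / 2
  hn : ∀ i, 0 < n i
  hn' : ∀ i, 2 * C₁ + C₂ + Cs ≤ C * (om ^ 3 / 6) * n i
  hadm : Adm lev Θ n
  hd' : ∀ x, ‖cZ x - z‖ ≤ rz → ∀ μ, d ≤ ‖yv π μ x j₀‖
  ctop : Continuous top
  stop : ∀ x, SubM top x fun _ => 0
  ca : ∀ μ, Continuous (a μ)
  sa : ∀ μ x, SubM (a μ) x fun _ => 0
  atop : ∀ μ x, inB π (fun _ => R) μ x → a μ x ≤ top x + C₂
  aac : ∀ c μ x, inB π (fun _ => R) μ x → a μ x ≤ ac c μ x + C₂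
  sep : ∀ x μ μ' (l : ℕ), μ ≠ μ' → inB π (fun _ => R) μ x → inB π (fun _ => R) μ' x →
    (∀ j, lev (rep j) ≠ l → μ j = μ' j) →
    ¬ ((∀ c, lev (rc c) = l → a μ x ≤ ac c μ x - Cs) ∧
      ∀ c, lev (rc c) = l → a μ' x ≤ ac c μ' x - Cs)
  pk : ∀ c, Pk π n (fun i => C * n i) z ε b R e₁ (Kc c) C₁ Cn rz top (ac c) (Wc c) (Sc c) (Gc c)

namespace St

variable (D : St N κ ι)

def S₀ : (κ → ℤ) → Sp N → ℝ := Sd D.Sc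

def G₀ : (κ → ℤ) → Sp N → ℝ :=
  Gd D.π (fun j => D.C * D.n (D.rep j)) D.rad D.j₀ D.ε D.Gc
    fun c => D.C * (D.om ^ 3 / 6) * D.n (D.rc c) / 2

def s₀ (μ : κ → ℤ) (x : Sp N) : ℝ := D.a μ x - D.top x - (D.C₁ + D.C₂) + D.S₀ μ x

def A (μ : κ → ℤ) (x : Sp N) : ℝ := max (min (D.s₀ μ x) 0) (D.G₀ μ x)

def S (μ : κ → ℤ) (x : Sp N) : ℝ := D.S₀ μ x - D.A μ x

def G (μ : κ → ℤ) (x : Sp N) : ℝ := D.G₀ μ x - D.A μ x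

def H (x : Sp N) : ℝ := ∑ j, D.sl j * D.n (D.rep j) * hub (D.rad j) (mc D.π (cZ x) j).re

def W (x : Sp N) : ℝ := D.b * ∑ᶠ μ, D.A μ x + ∑ c, D.Wc c x + D.H x

def K : ℝ := D.b * (2 * D.R + 1) ^ Fintype.card κ + ∑ c, D.Kc c

end St

end Step

end

end Pool.Agent.Lib.MP_1f047c_nt.TI
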