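import Pool.Agent.Lib.MP_1f047c_nt.PLBin
import Pool.Agent.Lib.MP_1f047c_nt.TIDefs

open Finset MeasureTheory

namespace Pool.Agent.Lib.MP_1f047c_nt.TI

lemma ticau_ind {ι σ : Type} [DecidableEq ι] (s : Finset σ)
    (φ : σ → ι → ℂ → ℂ) (hφ : ∀ k j, Differentiable ℂ (φ k j)) (r : ι → ℝ) (hr : ∀ j, 0 < r j)
    (β : ℝ) (α : ι → ℕ) (T : Finset ι) (P : σ → ℂ)
    (h : ∀ ζ : ι → ℂ, (∀ j, ‖ζ j‖ ≤ r j) → ‖∑ k ∈ s, P k * ∏ j ∈ T, φ k j (ζ j)‖ ≤ β) :
    ‖∑ k ∈ s, P k * ∏ j ∈ T, iteratedDeriv (α j) (φ k j) 0‖ ≤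
      β * ∏ j ∈ T, ((α j).factorial / r j ^ α j) := by
  induction T using Finset.induction_on generalizing P with
  | empty => simpa using h 0 fun j => by simpa using (hr j).le
  | insert a T ha ih =>
    have hd : ∀ k, Differentiable ℂ fun t : ℂ =>
        P k * φ k a t * ∏ j ∈ T, iteratedDeriv (α j) (φ k j) 0 := fun k =>
      ((hφ k a).const_mul _).mul_const _
    have h1 := Complex.norm_iteratedDeriv_le_of_forall_mem_sphere_norm_le (c := 0) (α a) (hr a)
      (Differentiable.fun_sum (u := s) fun k _ => hd k).diffContOnCl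
      fun t ht => ih (fun k => P k * φ k a t) fun ζ hζ => by
        have h2 := h (Function.update ζ a t) fun j => by
          rcases eq_or_ne j a with rfl | hj
          · rw [Function.update_self]; exact (mem_sphere_zero_iff_norm.1 ht).le
          · rw [Function.update_of_ne hj]; exact hζ j
        refine le_trans (le_of_eq (congrArg _ (sum_congr rfl fun k _ => ?_))) h2
        rw [prod_insert ha, Function.update_self, mul_assoc]
        exact congrArg _ (congrArg _ (prod_congr rfl fun j hj => by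
          rw [Function.update_of_ne (ne_of_mem_of_not_mem hj ha)]))
    rw [iteratedDeriv_fun_sum fun k _ => (hd k).contDiff.contDiffAt] at h1
    simp only [iteratedDeriv_mul_const_field, iteratedDeriv_const_mul_field] at h1
    simp only [prod_insert ha, ← mul_assoc]
    exact h1.trans_eq (by ring)

/-- Cauchy estimate for sums of products of entire functions of one variable. -/
theorem cauchy_tensor {ι σ : Type} [Fintype ι] [DecidableEq ι] (s : Finset σ) (P : σ → ℂ)
    (φ : σ → ι → ℂ → ℂ) (hφ : ∀ k j, Differentiable ℂ (φ k j)) (r : ι → ℝ) (hr : ∀ j, 0 < r j)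
    (β : ℝ) (h : ∀ ζ : ι → ℂ, (∀ j, ‖ζ j‖ ≤ r j) → ‖∑ k ∈ s, P k * ∏ j, φ k j (ζ j)‖ ≤ β)
    (α : ι → ℕ) :
    ‖∑ k ∈ s, P k * ∏ j, iteratedDeriv (α j) (φ k j) 0‖ ≤
      β * ∏ j, ((α j).factorial / r j ^ α j) :=
  ticau_ind s φ hφ r hr β α univ P h

lemma ticau_lin (c : ℂ) {f : ℂ → ℂ} (hf : Differentiable ℂ f) (k : ℕ) :
    iteratedDeriv k (fun t => (c + t) * f t) 0 =
      c * iteratedDeriv k f 0 + k * iteratedDeriv (k - 1) f 0 := by
  simp only [add_mul]
  rw [iteratedDeriv_fun_add (hf.const_mul c).contDiff.contDiffAt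
      (differentiable_fun_id.fun_mul hf).contDiff.contDiffAt, iteratedDeriv_const_mul_field,
    iteratedDeriv_fun_mul (f := fun t : ℂ => t) contDiffAt_id hf.contDiff.contDiffAt]
  simp only [iteratedDeriv_fun_id_zero, mul_ite, mul_one, mul_zero, ite_mul, zero_mul,
    sum_ite_eq', Nat.choose_one_right, mem_range]
  rcases k with _ | k <;> simp

lemma jet_row (c : ℂ) (a i k : ℕ) :
    iteratedDeriv k (fun t : ℂ => (c + t) ^ i * Complex.exp (a * t)) 0 =
      PL.row c (Polynomial.X ^ k) a i := by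
  induction i generalizing k with
  | zero => simp [PL.row, iteratedDeriv_cexp_const_mul]
  | succ i ih =>
    simp only [pow_succ' _ i, mul_assoc]
    rw [ticau_lin c (by fun_prop), ih, ih, PL.row, PL.row, PL.row, pow_succ, Module.End.mul_apply]
    have h : PL.op c (Polynomial.X ^ k) =
        c • Polynomial.X ^ k + (k : ℂ) • Polynomial.X ^ (k - 1) := by
      simp [PL.op, Polynomial.derivative_X_pow, Polynomial.smul_eq_C_mul]
    rw [h, map_add, map_smul, map_smul, Polynomial.eval_add, Polynomial.eval_smul,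
      Polynomial.eval_smul, smul_eq_mul, smul_eq_mul]

/-- A row is a combination of the rows of monomials. -/
lemma prod_row_eq {N : ℕ} (ν : Fin N → ℕ) (D : Fin N → Polynomial ℂ)
    (hD : ∀ j, (D j).degree < ν j) (c : Fin N → ℂ) (a i : Fin N → ℕ) :
    ∏ j, PL.row (c j) (D j) (a j) (i j) = ∑ k ∈ Fintype.piFinset fun j => range (ν j),
      (∏ j, (D j).coeff (k j)) * ∏ j, PL.row (c j) (Polynomial.X ^ k j) (a j) (i j) := by
  have h : ∀ j, PL.row (c j) (D j) (a j) (i j) =
      ∑ k ∈ range (ν j), (D j).coeff k * PL.row (c j) (Polynomial.X ^ k) (a j) (i j) := fun j => by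
    have h1 : D j = ∑ k ∈ range (ν j), (D j).coeff k • Polynomial.X ^ k := by
      rcases eq_or_ne (D j) 0 with h0 | h0
      · simp [h0]
      · simp only [Polynomial.smul_eq_C_mul]
        exact (D j).as_sum_range_C_mul_X_pow' ((Polynomial.natDegree_lt_iff_degree_lt h0).2 (hD j))
    conv_lhs => rw [PL.row, h1, map_sum, Polynomial.eval_finsetSum]
    simp only [map_smul, Polynomial.eval_smul, smul_eq_mul, PL.row]
  simp only [h, prod_univ_sum, prod_mul_distrib]

end Pool.Agent.Lib.MP_1f047c_nt.TI
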