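import Pool.Agent.Lib.MP_1f047c_nt.TIDefs

open Finset MeasureTheory

namespace Pool.Agent.Lib.MP_1f047c_nt.TI

lemma tiliou_poly (E : ℕ) : ∀ {f : ℂ → ℂ}, Differentiable ℂ f → ∀ C : ℝ,
    (∀ t, 1 ≤ ‖t‖ → ‖f t‖ ≤ C * ‖t‖ ^ E) →
    ∃ γ : ℕ → ℂ, ∀ t, f t = ∑ i ∈ range (E + 1), γ i * t ^ i := by
  induction E with
  | zero =>
    intro f hf C h
    obtain ⟨D, hD⟩ := (isCompact_closedBall (0 : ℂ) 1).exists_bound_of_continuousOn
      hf.continuous.continuousOn
    have hb : Bornology.IsBounded (Set.range f) := by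
      rw [isBounded_iff_forall_norm_le]
      refine ⟨max C D, ?_⟩
      rintro _ ⟨t, rfl⟩
      rcases le_total 1 ‖t‖ with h1 | h1
      · exact le_max_of_le_left (by simpa using h t h1)
      · exact le_max_of_le_right (hD t (by simpa using h1))
    refine ⟨fun _ => f 0, fun t => ?_⟩
    simpa using hf.apply_eq_apply_of_bounded hb t 0
  | succ E ih =>
    intro f hf C h
    have hd : Differentiable ℂ (dslope f 0) := by
      rw [← differentiableOn_univ] at hf ⊢
      exact (Complex.differentiableOn_dslope Filter.univ_mem).2 hf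
    have he : ∀ t, f t = f 0 + t * dslope f 0 t := by
      intro t
      have := sub_smul_dslope f 0 t
      rw [sub_zero, smul_eq_mul] at this
      rw [this]; ring
    obtain ⟨γ, hγ⟩ := ih hd (C + ‖f 0‖) (by
      intro t ht
      have h0 : 0 < ‖t‖ := by linarith
      have h1 : ‖t‖ * ‖dslope f 0 t‖ ≤ C * ‖t‖ ^ (E + 1) + ‖f 0‖ := by
        rw [← norm_mul]
        have : t * dslope f 0 t = f t - f 0 := by rw [he t]; ring
        rw [this]
        exact (norm_sub_le _ _).trans (by linarith [h t ht])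
      have h2 : ‖f 0‖ ≤ ‖f 0‖ * ‖t‖ ^ (E + 1) :=
        le_mul_of_one_le_right (norm_nonneg _) (one_le_pow₀ ht)
      refine le_of_mul_le_mul_left ?_ h0
      calc ‖t‖ * ‖dslope f 0 t‖ ≤ C * ‖t‖ ^ (E + 1) + ‖f 0‖ * ‖t‖ ^ (E + 1) := by linarith
        _ = ‖t‖ * ((C + ‖f 0‖) * ‖t‖ ^ E) := by ring)
    refine ⟨fun i => Nat.casesOn i (f 0) γ, fun t => ?_⟩
    rw [sum_range_succ', he t, hγ t, mul_sum, add_comm]
    simp only [pow_zero, mul_one]
    congr 1
    refine sum_congr rfl fun i _ => ?_
    ring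

theorem liou_poly {f : ℂ → ℂ} (hf : Differentiable ℂ f) (C : ℝ) (E : ℕ)
    (h : ∀ t, ‖f t‖ ≤ C * (1 + ‖t‖) ^ E) :
    ∃ γ : ℕ → ℂ, ∀ t, f t = ∑ i ∈ range (E + 1), γ i * t ^ i := by
  have hC : 0 ≤ C := by simpa using (norm_nonneg _).trans (h 0)
  refine tiliou_poly E hf (C * 2 ^ E) fun t ht => (h t).trans ?_
  rw [mul_assoc, ← mul_pow]
  gcongr
  linarith

open Function.Periodic in
theorem liou_exp {f : ℂ → ℂ} (hf : Differentiable ℂ f)
    (hp : ∀ t, f (t + 2 * Real.pi * Complex.I) = f t) (C A : ℝ) (k n : ℕ) (hk : A ≤ k)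
    (hn : k + A ≤ n) (h : ∀ t, ‖f t‖ ≤ C * Real.exp (A * |t.re|)) :
    ∃ γ : ℕ → ℂ, ∀ t, Complex.exp (k * t) * f t =
      ∑ a ∈ range (n + 1), γ a * Complex.exp (a * t) := by
  have hC : 0 ≤ C := by simpa using (norm_nonneg _).trans (h 0)
  set F : ℂ → ℂ := fun t => Complex.exp (k * t) * f t with hF
  have hFd : Differentiable ℂ F := by fun_prop
  have hFn : ∀ t, ‖F t‖ ≤ C * Real.exp (k * t.re + A * |t.re|) := by
    intro t
    rw [hF]
    simp only [norm_mul, Complex.norm_exp, Real.exp_add]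
    have : ((k : ℂ) * t).re = k * t.re := by simp
    rw [this, mul_left_comm]
    exact mul_le_mul_of_nonneg_left (h t) (Real.exp_pos _).le
  set φ : ℂ → ℂ := fun z => F (2 * Real.pi * Complex.I * z) with hφ
  have hφd : Differentiable ℂ φ := hFd.comp (by fun_prop)
  have hφp : Function.Periodic φ ((1 : ℝ) : ℂ) := by
    intro z
    simp only [hφ, hF, Complex.ofReal_one, mul_add, mul_one, hp, Complex.exp_add]
    rw [Complex.exp_nat_mul_two_pi_mul_I, mul_one]
  have hq : ∀ t, cuspFunction 1 φ (Complex.exp t) = F t := by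
    intro t
    have h1 := eq_cuspFunction one_ne_zero hφp (t / (2 * Real.pi * Complex.I))
    have h2 : 2 * Real.pi * Complex.I * (t / (2 * Real.pi * Complex.I)) = t :=
      mul_div_cancel₀ _ Complex.two_pi_I_ne_zero
    simp only [qParam, hφ, h2, Complex.ofReal_one, div_one] at h1
    exact h1
  have hg : Differentiable ℂ (cuspFunction 1 φ) := by
    intro q
    rcases eq_or_ne q 0 with rfl | hq0
    · refine differentiableAt_cuspFunction_zero one_pos hφp (.of_forall hφd) ?_
      refine Asymptotics.IsBigO.of_bound C ?_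
      have : ∀ᶠ z : ℂ in Filter.comap Complex.im Filter.atTop, 0 ≤ z.im :=
        Filter.tendsto_comap.eventually (Filter.eventually_ge_atTop 0)
      filter_upwards [this] with z hz
      refine (hFn _).trans ?_
      have hre : (2 * Real.pi * Complex.I * z).re ≤ 0 := by
        have := Real.pi_pos
        simp only [Complex.mul_re, Complex.mul_im, Complex.re_ofNat, Complex.ofReal_re,
          Complex.im_ofNat, Complex.ofReal_im, Complex.I_re, Complex.I_im]
        nlinarith
      simp only [Pi.one_apply, norm_one]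
      refine mul_le_mul_of_nonneg_left (Real.exp_le_one_iff.2 ?_) hC
      rw [abs_of_nonpos hre]
      nlinarith
    · rw [← qParam_right_inv one_ne_zero hq0]
      exact differentiableAt_cuspFunction one_ne_zero hφp (hφd _)
  obtain ⟨γ, hγ⟩ := tiliou_poly n hg C (by
    intro q hq1
    have hq0 : q ≠ 0 := by
      rintro rfl
      norm_num at hq1
    rw [← Complex.exp_log hq0] at hq1 ⊢
    rw [hq]
    refine (hFn _).trans (mul_le_mul_of_nonneg_left ?_ hC)
    rw [Complex.norm_exp] at hq1 ⊢
    have hre : 0 ≤ (Complex.log q).re := Real.one_le_exp_iff.1 hq1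
    rw [← Real.exp_nat_mul, abs_of_nonneg hre]
    exact Real.exp_le_exp.2 (by nlinarith))
  refine ⟨γ, fun t => ?_⟩
  have := hγ (Complex.exp t)
  rw [hq] at this
  simpa only [hF, Complex.exp_nat_mul] using this

/-- Interpolation in a finite dimensional space of functions. -/
lemma tiliou_interp (B : ℕ → ℂ → ℂ) (d : ℕ) : ∃ c : ℕ → ℂ →₀ ℂ, ∀ g : ℂ → ℂ,
    (∃ γ : ℕ → ℂ, ∀ t, g t = ∑ k ∈ range d, γ k * B k t) →
      ∀ t, g t = ∑ k ∈ range d, ∑ y ∈ (c k).support, c k y * g y * B k t := by
  let L : (Fin d → ℂ) →ₗ[ℂ] (ℂ → ℂ) := Fintype.linearCombination ℂ fun k : Fin d => B k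
  obtain ⟨s, hs⟩ := L.rangeRestrict.exists_rightInverse_of_surjective L.range_rangeRestrict
  let ev : ℂ → (LinearMap.range L →ₗ[ℂ] ℂ) := fun y =>
    (LinearMap.proj y).comp (LinearMap.range L).subtype
  have htop : Submodule.span ℂ (Set.range ev) = ⊤ := by
    refine Submodule.span_eq_top_of_ne_zero fun z hz => ?_
    by_contra hcon
    push Not at hcon
    exact hz (Subtype.ext (funext fun y => hcon _ ⟨y, rfl⟩))
  have hc : ∀ k : ℕ, ∃ c : ℂ →₀ ℂ, ∀ hk : k < d, ∀ g : LinearMap.range L,
      s g ⟨k, hk⟩ = ∑ y ∈ c.support, c y * (g : ℂ → ℂ) y := by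
    intro k
    by_cases hk : k < d
    · have hm : (LinearMap.proj (⟨k, hk⟩ : Fin d)).comp s ∈ Submodule.span ℂ (Set.range ev) := by
        rw [htop]; trivial
      obtain ⟨c, hc⟩ := Finsupp.mem_span_range_iff_exists_finsupp.1 hm
      refine ⟨c, fun _ g => ?_⟩
      have := LinearMap.congr_fun hc g
      simp only [Finsupp.sum, LinearMap.coe_sum, Finset.sum_apply, LinearMap.smul_apply,
        smul_eq_mul, LinearMap.comp_apply, LinearMap.proj_apply] at this
      exact this.symm
    · exact ⟨0, fun h => absurd h hk⟩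
  choose c hc using hc
  refine ⟨c, ?_⟩
  rintro g ⟨γ, hγ⟩ t
  have hL : ∀ (a : Fin d → ℂ) (t : ℂ), L a t = ∑ k : Fin d, a k * B k t := by
    intro a t
    simp [L, Fintype.linearCombination_apply]
  have hg : g ∈ LinearMap.range L := by
    refine ⟨fun k => γ k, funext fun t => ?_⟩
    rw [hL, hγ, Finset.sum_range]
  have h1 : L (s ⟨g, hg⟩) = g := congrArg Subtype.val (LinearMap.congr_fun hs ⟨g, hg⟩)
  rw [Finset.sum_range]
  conv_lhs => rw [← h1, hL]
  refine sum_congr rfl fun k _ => ?_
  rw [hc k k.2, sum_mul]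

/-- A function all of whose slices lie in given finite dimensional spaces. -/
theorem tensor {ι : Type} [Fintype ι] [DecidableEq ι] (B : ι → ℕ → ℂ → ℂ) (d : ι → ℕ)
    (f : (ι → ℂ) → ℂ)
    (h : ∀ x j, ∃ γ : ℕ → ℂ, ∀ t, f (Function.update x j t) = ∑ k ∈ range (d j), γ k * B j k t) :
    ∃ P : (ι → ℕ) → ℂ, ∀ x,
      f x = ∑ k ∈ Fintype.piFinset fun j => range (d j), P k * ∏ j, B j (k j) (x j) := by
  let S : Finset ι → Submodule ℂ ((ι → ℂ) → ℂ) := fun s => Submodule.span ℂ
    {g | ∃ k : ι → ℕ, (∀ j ∈ s, k j < d j) ∧ g = fun x => ∏ j ∈ s, B j (k j) (x j)}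
  have hmul : ∀ (s : Finset ι) (i : ι), i ∉ s → ∀ k < d i, ∀ g ∈ S s,
      (fun x => g x * B i k (x i)) ∈ S (insert i s) := by
    intro s i hi k hk g hg
    induction hg using Submodule.span_induction with
    | mem g hg =>
      obtain ⟨k', hk', rfl⟩ := hg
      refine Submodule.subset_span ⟨Function.update k' i k, fun j hj => ?_, funext fun x => ?_⟩
      · rcases mem_insert.1 hj with rfl | hj
        · simpa using hk
        · rw [Function.update_of_ne (ne_of_mem_of_not_mem hj hi)]
          exact hk' j hj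
      · rw [prod_insert hi, Function.update_self, mul_comm]
        congr 1
        refine prod_congr rfl fun j hj => ?_
        rw [Function.update_of_ne (ne_of_mem_of_not_mem hj hi)]
    | zero =>
      have : (fun x => (0 : (ι → ℂ) → ℂ) x * B i k (x i)) = 0 := by funext x; simp
      rw [this]; exact Submodule.zero_mem _
    | add g g' _ _ h1 h2 =>
      have : (fun x => (g + g') x * B i k (x i)) =
          (fun x => g x * B i k (x i)) + fun x => g' x * B i k (x i) := by
        funext x; simp [add_mul]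
      rw [this]; exact Submodule.add_mem _ h1 h2
    | smul a g _ h1 =>
      have : (fun x => (a • g) x * B i k (x i)) = a • fun x => g x * B i k (x i) := by
        funext x; simp [mul_assoc]
      rw [this]; exact Submodule.smul_mem _ _ h1
  have key : ∀ s : Finset ι, ∀ x₀ : ι → ℂ, (fun x => f (s.piecewise x x₀)) ∈ S s := by
    intro s
    induction s using Finset.induction_on with
    | empty =>
      intro x₀
      have : (fun x : ι → ℂ => f ((∅ : Finset ι).piecewise x x₀)) =
          f x₀ • fun x : ι → ℂ => ∏ j ∈ (∅ : Finset ι), B j 0 (x j) := by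
        funext x; simp
      rw [this]
      exact Submodule.smul_mem _ _ (Submodule.subset_span ⟨fun _ => 0, by simp, rfl⟩)
    | insert i s hi ih =>
      intro x₀
      obtain ⟨c, hc⟩ := tiliou_interp (B i) (d i)
      have : (fun x : ι → ℂ => f ((insert i s).piecewise x x₀)) =
          ∑ k ∈ range (d i), ∑ y ∈ (c k).support, c k y •
            fun x : ι → ℂ => f (s.piecewise x (Function.update x₀ i y)) * B i k (x i) := by
        funext x
        rw [piecewise_insert, hc (fun t => f (Function.update (s.piecewise x x₀) i t)) (h _ i)]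
        simp only [Finset.sum_apply, Pi.smul_apply, smul_eq_mul, update_piecewise_of_notMem _ _ _ hi,
          mul_assoc]
      rw [this]
      exact Submodule.sum_mem _ fun k hk => Submodule.sum_mem _ fun y _ =>
        Submodule.smul_mem _ _ (hmul s i hi k (mem_range.1 hk) _ (ih _))
  have hf : f ∈ Submodule.span ℂ ((fun (k : ι → ℕ) (x : ι → ℂ) => ∏ j, B j (k j) (x j)) ''
      (Fintype.piFinset fun j => range (d j) : Finset (ι → ℕ))) := by
    have h1 := key univ 0
    simp only [piecewise_univ] at h1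
    refine Submodule.span_mono ?_ h1
    rintro _ ⟨k, hk, rfl⟩
    exact ⟨k, by simpa using hk, rfl⟩
  obtain ⟨P, hP⟩ := (Submodule.mem_span_image_finset_iff_exists_fun' ℂ).1 hf
  refine ⟨P, fun x => ?_⟩
  rw [← hP]
  simp only [Finset.sum_apply, Pi.smul_apply, smul_eq_mul]

end Pool.Agent.Lib.MP_1f047c_nt.TI
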