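import Pool.Agent.Lib.MP_1f047c_nt.TIPer

open Finset MeasureTheory

namespace Pool.Agent.Lib.MP_1f047c_nt.TI

/-- The first coordinate. -/
def tiper2L {N : ℕ} (x : Sp N) : Fin N → ℂ := fun i => x (Sum.inl i)

/-- The summand as a function of `X` and of the shifted `ζ`. -/
noncomputable def tiper2F {N : ℕ} (M : ℕ) (z : Fin N → ℂ) (Ψ : Sp N → ℂ) (X η : Fin N → ℂ) : ℂ :=
  Ψ (Sum.elim (X - η) η) * ∏ i, e1 ((η - z) i) ^ (M + 2)

/-- The summable majorant. -/
noncomputable def tiper2P {N : ℕ} (y : Fin N → ℂ) (m : Fin N → ℤ) : ℝ :=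
  ∏ i, 1 / (1 + ‖y i - PL.wm (m i)‖) ^ 2

lemma tiper2_re (k : ℤ) : (PL.wm k).re = 0 := by simp [PL.wm]

lemma tiper2_norm {N : ℕ} (y : Fin N → ℂ) : 1 + ‖y‖ ≤ ∏ i, (1 + ‖y i‖) := by
  have h1 : ∀ i ∈ (univ : Finset (Fin N)), (1 : ℝ) ≤ 1 + ‖y i‖ := fun i _ => by
    linarith [norm_nonneg (y i)]
  have h2 : (1 : ℝ) ≤ ∏ i, (1 + ‖y i‖) := Finset.one_le_prod h1
  have h3 : ‖y‖ ≤ ∏ i, (1 + ‖y i‖) - 1 := by
    refine (pi_norm_le_iff_of_nonneg (by linarith)).2 fun i => ?_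
    rw [← Finset.mul_prod_erase univ _ (mem_univ i)]
    have h4 : (1 : ℝ) ≤ ∏ k ∈ univ.erase i, (1 + ‖y k‖) :=
      Finset.one_le_prod fun k _ => h1 k (mem_univ k)
    nlinarith [norm_nonneg (y i)]
  linarith

lemma tiper2_term {N M : ℕ} {C₀ K : ℝ} (hC : 0 < C₀)
    (h : ∀ y, ‖e1 y‖ ≤ C₀ * Real.exp |y.re| / (1 + ‖y‖)) (hK : 0 ≤ K) (y : Fin N → ℂ)
    (m : Fin N → ℤ) {w : ℂ} (hw : ‖w‖ ≤ K * (1 + ‖y - wv m‖) ^ M) :
    ‖w * ∏ i, e1 ((y - wv m) i) ^ (M + 2)‖ ≤
      K * (∏ i, (C₀ * Real.exp |(y i).re|) ^ (M + 2)) * tiper2P y m := by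
  rw [norm_mul, norm_prod]
  calc _ ≤ K * (∏ i, (1 + ‖(y - wv m) i‖)) ^ M *
        ∏ i, (C₀ * Real.exp |(y i).re| / (1 + ‖(y - wv m) i‖)) ^ (M + 2) := by
        refine mul_le_mul (hw.trans ?_) (Finset.prod_le_prod (fun i _ => norm_nonneg _)
          fun i _ => ?_) (by positivity) (by positivity)
        · gcongr
          exact tiper2_norm _
        · rw [norm_pow]
          refine pow_le_pow_left₀ (norm_nonneg _) ((h _).trans (le_of_eq ?_)) _
          simp [wv, tiper2_re]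
    _ = _ := by
        rw [mul_assoc, mul_assoc, tiper2P, ← Finset.prod_pow, ← Finset.prod_mul_distrib,
          ← Finset.prod_mul_distrib]
        congr 1
        refine Finset.prod_congr rfl fun i _ => ?_
        have h1 : 0 < 1 + ‖y i - PL.wm (m i)‖ := by positivity
        simp only [Pi.sub_apply, wv, div_pow]
        field_simp
        ring

lemma tiper2_shift {N : ℕ} {y y' : Fin N → ℂ} (h : ∀ i, ‖y i - y' i‖ ≤ 1) (m : Fin N → ℤ) :
    tiper2P y m ≤ 4 ^ N * tiper2P y' m := by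
  have e : (4 : ℝ) ^ N = ∏ _i : Fin N, (4 : ℝ) := by simp
  rw [tiper2P, tiper2P, e, ← Finset.prod_mul_distrib]
  refine Finset.prod_le_prod (fun i _ => by positivity) fun i _ => ?_
  have h1 : ‖y' i - PL.wm (m i)‖ ≤ ‖y i - PL.wm (m i)‖ + 1 := by
    have h2 := norm_sub_le (y i - PL.wm (m i)) (y i - y' i)
    rw [show y i - PL.wm (m i) - (y i - y' i) = y' i - PL.wm (m i) by ring] at h2
    linarith [h i]
  have h3 := norm_nonneg (y i - PL.wm (m i))
  have h4 := norm_nonneg (y' i - PL.wm (m i))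
  rw [mul_one_div, div_le_div_iff₀ (by positivity) (by positivity)]
  nlinarith

lemma tiper2_diff {N : ℕ} (M : ℕ) (z : Fin N → ℂ) {Ψ : Sp N → ℂ} (hΨ : Differentiable ℂ Ψ)
    (m : Fin N → ℤ) :
    Differentiable ℂ fun x : Sp N => tiper2F M z Ψ (tiper2L x) (cZ x - wv m) := by
  unfold tiper2F
  refine Differentiable.mul (hΨ.comp (differentiable_pi.2 fun j => ?_)) ?_
  · cases j with
    | inl i =>
      simp only [Sum.elim_inl, Pi.sub_apply, tiper2L, cZ]
      fun_prop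
    | inr i =>
      simp only [Sum.elim_inr, Pi.sub_apply, cZ]
      fun_prop
  · have h : ∀ i, Differentiable ℂ fun x : Sp N => e1 ((cZ x - wv m - z) i) ^ (M + 2) := by
      intro i
      refine Differentiable.pow (e1_diff.comp ?_) _
      simp only [Pi.sub_apply, cZ]
      fun_prop
    exact fun x => (HasFDerivAt.finsetProd fun i _ => (h i x).hasFDerivAt).differentiableAt

/-- The size of the summands. -/
noncomputable def tiper2B {N : ℕ} (k : ℕ) (A : Fin N → ℝ) (D : ℝ) (x : Sp N) : ℝ :=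
  D * (1 + ‖tiper2L x‖) ^ k * Real.exp (∑ i, A i * |(cZ x i).re|)

lemma tiper2_main {N M E : ℕ} {C₀ C₁ : ℝ} (hC : 0 < C₀)
    (h : ∀ y, ‖e1 y‖ ≤ C₀ * Real.exp |y.re| / (1 + ‖y‖)) (z : Fin N → ℂ) {Ψ : Sp N → ℂ}
    {A : Fin N → ℝ}
    (hΨ : ∀ x, ‖Ψ x‖ ≤
      C₁ * (1 + ‖cX x‖) ^ E * Real.exp (∑ i, A i * |(cZ x i).re|) * (1 + ‖x‖) ^ M) :
    ∃ D : ℝ, 0 ≤ D ∧ ∀ (x : Sp N) (m : Fin N → ℤ), ‖tiper2F M z Ψ (tiper2L x) (cZ x - wv m)‖ ≤
      tiper2B (E + M) (fun i => A i + (M + 2 : ℕ)) D x * tiper2P (cZ x - z) m := by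
  have hC₁ : 0 ≤ C₁ := by
    have h1 := (norm_nonneg _).trans (hΨ 0)
    rw [mul_assoc, mul_assoc] at h1
    exact nonneg_of_mul_nonneg_left h1 (by positivity)
  refine ⟨C₁ * (1 + ‖z‖) ^ M * ∏ i, (C₀ * Real.exp |(z i).re|) ^ (M + 2), by positivity,
    fun x m => ?_⟩
  unfold tiper2F
  rw [sub_right_comm (cZ x) (wv m) z]
  have e1 : cX (Sum.elim (tiper2L x - (cZ x - wv m)) (cZ x - wv m)) = tiper2L x := by
    funext i
    simp [cX]
  have e2 : ∀ i, (cZ (Sum.elim (tiper2L x - (cZ x - wv m)) (cZ x - wv m)) i).re = (cZ x i).re := by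
    intro i
    simp [cZ, wv, tiper2_re]
  have e3 : 1 + ‖(Sum.elim (tiper2L x - (cZ x - wv m)) (cZ x - wv m) : Sp N)‖ ≤
      (1 + ‖tiper2L x‖) * (1 + ‖z‖) * (1 + ‖cZ x - z - wv m‖) := by
    have h1 : ‖cZ x - wv m‖ ≤ ‖cZ x - z - wv m‖ + ‖z‖ := by
      have h2 := norm_add_le (cZ x - z - wv m) z
      rwa [show cZ x - z - wv m + z = cZ x - wv m by abel] at h2
    have h2 : ‖(Sum.elim (tiper2L x - (cZ x - wv m)) (cZ x - wv m) : Sp N)‖ ≤
        ‖tiper2L x‖ + ‖cZ x - wv m‖ := by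
      refine (pi_norm_le_iff_of_nonneg (by positivity)).2 fun j => ?_
      cases j with
      | inl i => exact (norm_le_pi_norm (tiper2L x - (cZ x - wv m)) i).trans (norm_sub_le _ _)
      | inr i => exact (norm_le_pi_norm (cZ x - wv m) i).trans (le_add_of_nonneg_left (norm_nonneg _))
    have a1 := norm_nonneg (tiper2L x)
    have a2 := norm_nonneg z
    have a3 := norm_nonneg (cZ x - z - wv m)
    nlinarith [mul_nonneg a1 a2, mul_nonneg a1 a3, mul_nonneg a2 a3,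
      mul_nonneg (mul_nonneg a1 a2) a3]
  have h1 := hΨ (Sum.elim (tiper2L x - (cZ x - wv m)) (cZ x - wv m))
  simp only [e1, e2] at h1
  have h2 := tiper2_term (M := M) hC h (K := C₁ * (1 + ‖tiper2L x‖) ^ E *
    Real.exp (∑ i, A i * |(cZ x i).re|) * ((1 + ‖tiper2L x‖) * (1 + ‖z‖)) ^ M) (by positivity)
    (cZ x - z) m (h1.trans (by
      rw [mul_assoc _ (_ ^ M), ← mul_pow]
      gcongr))
  refine h2.trans (mul_le_mul_of_nonneg_right ?_ (by unfold tiper2P; positivity))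
  have h3 : ∏ i, (C₀ * Real.exp |((cZ x - z) i).re|) ^ (M + 2) ≤
      (∏ i, (C₀ * Real.exp |(z i).re|) ^ (M + 2)) *
        Real.exp (∑ i, (M + 2 : ℕ) * |(cZ x i).re|) := by
    rw [Real.exp_sum, ← Finset.prod_mul_distrib]
    refine Finset.prod_le_prod (fun i _ => by positivity) fun i _ => ?_
    rw [Real.exp_nat_mul, ← mul_pow, mul_assoc, ← Real.exp_add]
    gcongr
    rw [Pi.sub_apply, Complex.sub_re, add_comm]
    exact abs_sub _ _
  refine (mul_le_mul_of_nonneg_left h3 (by positivity)).trans (le_of_eq ?_)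
  unfold tiper2B
  rw [mul_pow, pow_add (1 + ‖tiper2L x‖)]
  simp only [add_mul, Finset.sum_add_distrib, Real.exp_add]
  ring

/-- Periodisation. The argument of `f` is the pair `(X, ζ)`. -/
theorem periodise (N M : ℕ) (z : Fin N → ℂ) : ∃ Cp : ℝ, 0 ≤ Cp ∧ ∀ (Ψ : Sp N → ℂ) (A : Fin N → ℝ)
    (E : ℕ) (C₁ : ℝ), Differentiable ℂ Ψ → (∀ i, 0 ≤ A i) →
    (∀ x, ‖Ψ x‖ ≤ C₁ * (1 + ‖cX x‖) ^ E * Real.exp (∑ i, A i * |(cZ x i).re|) * (1 + ‖x‖) ^ M) →
    ∃ f : Sp N → ℂ, (∀ x j, Differentiable ℂ fun t => f (Function.update x j t)) ∧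
      (∀ x i, ∃ C₂ : ℝ, ∀ t, ‖f (Function.update x (Sum.inl i) t)‖ ≤ C₂ * (1 + ‖t‖) ^ (E + M)) ∧
      (∀ x i, ∃ C₂ : ℝ, ∀ t, ‖f (Function.update x (Sum.inr i) t)‖ ≤
        C₂ * Real.exp ((A i + (M + 2 : ℕ)) * |t.re|)) ∧
      (∀ x i t, f (Function.update x (Sum.inr i) (t + 2 * Real.pi * Complex.I)) =
        f (Function.update x (Sum.inr i) t)) ∧
      f (Sum.elim 0 z) = Ψ (Sum.elim (-z) z) ∧
      ∀ (c ζ : Fin N → ℂ) (β : ℝ), ‖ζ‖ ≤ 1 →
        (∀ m : Fin N → ℤ, ‖Ψ (Sum.elim (c + wv m) (ζ - wv m))‖ ≤ β * (1 + ‖wv m‖) ^ M) →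
        ‖f (Sum.elim (c + ζ) ζ)‖ ≤ Cp * β := by
  obtain ⟨C₀, hC, h⟩ := e1_le
  obtain ⟨Cs, hs⟩ := sum_wm N
  have hs1 : ∀ y : Fin N → ℂ, Summable (tiper2P y) := fun y => (hs y).1
  have hs2 : ∀ y : Fin N → ℂ, ∑' m, tiper2P y m ≤ Cs := fun y => (hs y).2
  have hCs : 0 ≤ Cs := le_trans (tsum_nonneg fun m => by unfold tiper2P; positivity) (hs2 0)
  have hsum : ∀ (g : (Fin N → ℤ) → ℂ) (K : ℝ) (y : Fin N → ℂ), 0 ≤ K →
      (∀ m, ‖g m‖ ≤ K * tiper2P y m) → ‖∑' m, g m‖ ≤ K * Cs := fun g K y hK hg =>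
    (tsum_of_norm_bounded ((hs1 y).hasSum.mul_left K) hg).trans
      (mul_le_mul_of_nonneg_left (hs2 y) hK)
  refine ⟨(2 + ‖z‖) ^ M * (∏ _i : Fin N, (C₀ * Real.exp (1 + ‖z‖)) ^ (M + 2)) * Cs, by positivity,
    fun Ψ A E C₁ hd hA hΨ => ?_⟩
  obtain ⟨D, hD, hb⟩ := tiper2_main hC h z hΨ
  have hB : ∀ x, 0 ≤ tiper2B (E + M) (fun i => A i + (M + 2 : ℕ)) D x := fun x => by
    unfold tiper2B
    positivity
  have hf := fun x => hsum _ _ _ (hB x) (hb x)
  refine ⟨fun x => ∑' m, tiper2F M z Ψ (tiper2L x) (cZ x - wv m), fun x j t₀ => ?_,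
    fun x i => ?_, fun x i => ?_, fun x i t => ?_, ?_, fun c ζ β hζ hβ => ?_⟩
  · have hu : Differentiable ℂ fun t : ℂ => Function.update x j t :=
      fun t => (hasDerivAt_update x j t).differentiableAt
    have hc : Continuous fun t : ℂ =>
        tiper2B (E + M) (fun i => A i + (M + 2 : ℕ)) D (Function.update x j t) := by
      have hc' : Continuous (tiper2B (E + M) (fun i => A i + (M + 2 : ℕ)) D) := by
        unfold tiper2B tiper2L cZ
        fun_prop
      exact hc'.comp hu.continuous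
    obtain ⟨K, hK⟩ := (isCompact_closedBall t₀ 1).exists_bound_of_continuousOn hc.continuousOn
    have hK0 : 0 ≤ K := (norm_nonneg _).trans (hK t₀ (Metric.mem_closedBall_self zero_le_one))
    refine (Complex.differentiableOn_tsum_of_summable_norm
      (u := fun m => K * (4 ^ N * tiper2P (cZ (Function.update x j t₀) - z) m))
      (F := fun m t => tiper2F M z Ψ (tiper2L (Function.update x j t))
        (cZ (Function.update x j t) - wv m))
      (((hs1 _).mul_left _).mul_left _) (fun m => ((tiper2_diff M z hd m).comp hu).differentiableOn)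
      Metric.isOpen_ball fun m t ht => ?_).differentiableAt (Metric.ball_mem_nhds t₀ one_pos)
    refine (hb _ m).trans (mul_le_mul ((le_abs_self _).trans (hK t (Metric.ball_subset_closedBall ht)))
      (tiper2_shift (fun i => ?_) m) (by unfold tiper2P; positivity) hK0)
    rw [Pi.sub_apply, Pi.sub_apply, sub_sub_sub_cancel_right]
    by_cases hj : Sum.inr i = j
    · subst hj
      simpa [cZ] using (mem_ball_iff_norm.1 ht).le
    · simp [cZ, Function.update_of_ne hj]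
  · refine ⟨D * (1 + ‖tiper2L x‖) ^ (E + M) *
      Real.exp (∑ k, (A k + (M + 2 : ℕ)) * |(cZ x k).re|) * Cs, fun t => (hf _).trans ?_⟩
    have e1 : cZ (Function.update x (Sum.inl i) t) = cZ x := by
      funext k
      simp [cZ]
    have e2 : 1 + ‖tiper2L (Function.update x (Sum.inl i) t)‖ ≤ (1 + ‖tiper2L x‖) * (1 + ‖t‖) := by
      have h1 : ‖tiper2L (Function.update x (Sum.inl i) t)‖ ≤ ‖tiper2L x‖ + ‖t‖ := by
        refine (pi_norm_le_iff_of_nonneg (by positivity)).2 fun k => ?_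
        by_cases hk : k = i
        · subst hk
          simp [tiper2L]
        · have h2 := norm_le_pi_norm (tiper2L x) k
          have h3 : tiper2L (Function.update x (Sum.inl i) t) k = tiper2L x k := by
            simp [tiper2L, hk]
          rw [h3]
          linarith [norm_nonneg t]
      nlinarith [mul_nonneg (norm_nonneg (tiper2L x)) (norm_nonneg t)]
    unfold tiper2B
    rw [e1]
    calc _ ≤ D * ((1 + ‖tiper2L x‖) * (1 + ‖t‖)) ^ (E + M) *
          Real.exp (∑ k, (A k + (M + 2 : ℕ)) * |(cZ x k).re|) * Cs := by gcongr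
      _ = _ := by rw [mul_pow]; ring
  · refine ⟨D * (1 + ‖tiper2L x‖) ^ (E + M) *
      Real.exp (∑ k, (A k + (M + 2 : ℕ)) * |(cZ x k).re|) * Cs, fun t => (hf _).trans ?_⟩
    have e1 : tiper2L (Function.update x (Sum.inr i) t) = tiper2L x := by
      funext k
      simp [tiper2L]
    have e2 : ∑ k, (A k + (M + 2 : ℕ)) * |(cZ (Function.update x (Sum.inr i) t) k).re| ≤
        ∑ k, (A k + (M + 2 : ℕ)) * |(cZ x k).re| + (A i + (M + 2 : ℕ)) * |t.re| := by
      rw [← Finset.add_sum_erase _ _ (mem_univ i), add_comm]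
      refine add_le_add ?_ (le_of_eq (by simp [cZ]))
      refine le_trans (le_of_eq (Finset.sum_congr rfl fun k hk => ?_))
        (Finset.sum_le_sum_of_subset_of_nonneg (Finset.erase_subset i univ) fun k _ _ => by
          have := hA k
          positivity)
      simp [cZ, (Finset.mem_erase.1 hk).1]
    unfold tiper2B
    rw [e1]
    calc _ ≤ D * (1 + ‖tiper2L x‖) ^ (E + M) * Real.exp (∑ k, (A k + (M + 2 : ℕ)) * |(cZ x k).re| +
          (A i + (M + 2 : ℕ)) * |t.re|) * Cs := by gcongr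
      _ = _ := by rw [Real.exp_add]; ring
  · refine ((Equiv.addRight (Pi.single i (1 : ℤ))).tsum_eq _).symm.trans (tsum_congr fun m => ?_)
    have e1 : ∀ s, tiper2L (Function.update x (Sum.inr i) s) = tiper2L x := by
      intro s
      funext k
      simp [tiper2L]
    have e2 : cZ (Function.update x (Sum.inr i) (t + 2 * Real.pi * Complex.I)) -
        wv (m + Pi.single i 1) = cZ (Function.update x (Sum.inr i) t) - wv m := by
      funext k
      by_cases hk : k = i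
      · subst hk
        simp [cZ, wv, PL.wm]
        ring
      · simp [cZ, wv, hk]
    rw [Equiv.coe_addRight, e1, e1, e2]
  · have e1 : tiper2L (Sum.elim 0 z) = 0 := rfl
    have e2 : cZ (Sum.elim 0 z) = z := rfl
    have e3 : wv (0 : Fin N → ℤ) = 0 := by
      funext k
      simp [wv, PL.wm]
    simp only [e1, e2]
    rw [tsum_eq_single 0]
    · simp [tiper2F, e3, e1_zero]
    · intro m hm
      obtain ⟨k, hk⟩ := Function.ne_iff.1 hm
      refine mul_eq_zero_of_right _ (Finset.prod_eq_zero (mem_univ k) ?_)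
      have e4 : (z - wv m - z) k = PL.wm (-m k) := by simp [wv, PL.wm]
      rw [e4, e1_wm (neg_ne_zero.2 hk), zero_pow (by omega)]
  · have hβ0 : 0 ≤ β := nonneg_of_mul_nonneg_left ((norm_nonneg _).trans (hβ 0)) (by positivity)
    have e1 : tiper2L (Sum.elim (c + ζ) ζ) = c + ζ := rfl
    have e2 : cZ (Sum.elim (c + ζ) ζ) = ζ := rfl
    simp only [e1, e2]
    refine (hsum _ (β * (2 + ‖z‖) ^ M * ∏ _i : Fin N, (C₀ * Real.exp (1 + ‖z‖)) ^ (M + 2)) (ζ - z)
      (by positivity) fun m => ?_).trans (le_of_eq (by ring))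
    unfold tiper2F
    rw [sub_right_comm ζ (wv m) z, show c + ζ - (ζ - wv m) = c + wv m by abel]
    have h1 : 1 + ‖wv m‖ ≤ (2 + ‖z‖) * (1 + ‖ζ - z - wv m‖) := by
      have h2 := norm_sub_le (ζ - z) (ζ - z - wv m)
      rw [sub_sub_cancel] at h2
      nlinarith [norm_sub_le ζ z, mul_nonneg (norm_nonneg z) (norm_nonneg (ζ - z - wv m)),
        norm_nonneg (ζ - z - wv m)]
    refine (tiper2_term (M := M) hC h (K := β * (2 + ‖z‖) ^ M) (by positivity) (ζ - z) m
      ((hβ m).trans ?_)).trans (mul_le_mul_of_nonneg_right ?_ (by unfold tiper2P; positivity))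
    · rw [mul_assoc, ← mul_pow]
      gcongr
    · gcongr with i
      exact (Complex.abs_re_le_norm _).trans ((norm_le_pi_norm (ζ - z) i).trans
        ((norm_sub_le ζ z).trans (by linarith)))

end Pool.Agent.Lib.MP_1f047c_nt.TI
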