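import Pool.Agent.Lib.MP_1f047c_nt.TIPsi
import Pool.Agent.Lib.MP_1f047c_nt.TIPer2
import Pool.Agent.Lib.MP_1f047c_nt.TILiou
import Pool.Agent.Lib.MP_1f047c_nt.TICau

open Finset MeasureTheory

namespace Pool.Agent.Lib.MP_1f047c_nt.TI

lemma tiapp_rad {N C n : ℕ} (hN : 0 < N) (hC : 1 ≤ C) (hn : 0 < n) {s : ℝ} (hs : 0 < s)
    (hs1 : s ≤ 1) {k : ℕ} (hk : k < C * n) :
    s ^ ((2 * N + 1 : ℝ) / (2 * N)) ≤ s ^ ((2 * N + 1 : ℝ) / (2 * N * C * n)) *
      (s ^ ((2 * N + 1 : ℝ) / (2 * N * C * n))) ^ k := by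
  rw [← pow_succ']
  refine le_trans (le_of_eq ?_) (pow_le_pow_of_le_one (by positivity)
    (Real.rpow_le_one hs.le hs1 (by positivity)) (Nat.succ_le_of_lt hk))
  rw [← Real.rpow_natCast, ← Real.rpow_mul hs.le]
  congr 1
  have : (0 : ℝ) < N := by exact_mod_cast hN
  have : (0 : ℝ) < C := by exact_mod_cast hC
  have : (0 : ℝ) < n := by exact_mod_cast hn
  push_cast
  field_simp

lemma tiapp_prod {N C : ℕ} (hN : 0 < N) (hC : 1 ≤ C) {n : Fin N → ℕ} (hn : ∀ i, 0 < n i) {s : ℝ}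
    (hs : 0 < s) (hs1 : s ≤ 1) {k : Fin N → ℕ} (hk : ∀ j, k j < C * n j) :
    s ^ (N + 1) / (∏ i, s ^ ((2 * N + 1 : ℝ) / (2 * N * C * n i))) *
      ∏ j, ((k j).factorial / (s ^ ((2 * N + 1 : ℝ) / (2 * N * C * n j))) ^ k j) ≤
        (∏ j, ((C * n j).factorial : ℝ)) * √s := by
  have h1 := prod_le_prod (s := univ) (fun _ _ => by positivity)
    fun j _ => tiapp_rad hN hC (hn j) hs hs1 (hk j)
  have h2 : ∏ _j : Fin N, s ^ ((2 * N + 1 : ℝ) / (2 * N)) = s ^ N * √s := by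
    have : (0 : ℝ) < N := by exact_mod_cast hN
    rw [prod_const, card_univ, Fintype.card_fin, ← Real.rpow_natCast, ← Real.rpow_mul hs.le,
      Real.sqrt_eq_rpow, ← Real.rpow_natCast, ← Real.rpow_add hs]
    congr 1
    field_simp
  have h3 : ∏ j, ((k j).factorial : ℝ) ≤ ∏ j, ((C * n j).factorial : ℝ) :=
    prod_le_prod (fun _ _ => by positivity) fun j _ => by
      exact_mod_cast Nat.factorial_le (hk j).le
  rw [h2, prod_mul_distrib] at h1
  rw [prod_div_distrib, div_mul_div_comm, div_le_iff₀ (by positivity)]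
  calc _ = (∏ j, ((k j).factorial : ℝ)) * √s * (s ^ N * √s) := by
        rw [pow_succ]
        conv_lhs => rw [← Real.mul_self_sqrt hs.le, Real.mul_self_sqrt hs.le]
        nth_rewrite 2 [← Real.mul_self_sqrt hs.le]
        ring
    _ ≤ _ := by gcongr

lemma tiapp_tensor {N E : ℕ} {n k : Fin N → ℕ} {A : Fin N → ℝ} {f : Sp N → ℂ}
    (hd : ∀ x j, Differentiable ℂ fun t => f (Function.update x j t))
    (h1 : ∀ x i, ∃ C₂ : ℝ, ∀ t, ‖f (Function.update x (Sum.inl i) t)‖ ≤ C₂ * (1 + ‖t‖) ^ E)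
    (h2 : ∀ x i, ∃ C₂ : ℝ, ∀ t, ‖f (Function.update x (Sum.inr i) t)‖ ≤
      C₂ * Real.exp (A i * |t.re|))
    (h3 : ∀ x i t, f (Function.update x (Sum.inr i) (t + 2 * Real.pi * Complex.I)) =
      f (Function.update x (Sum.inr i) t))
    (hk : ∀ i, A i ≤ k i) (hn : ∀ i, k i + A i ≤ n i) :
    ∃ P : (Fin N ⊕ Fin N → ℕ) → ℂ, ∀ X ζ : Fin N → ℂ,
      Complex.exp (∑ i, k i * ζ i) * f (Sum.elim X ζ) =
        ∑ p ∈ Fintype.piFinset fun j => range (Sum.elim (fun _ => E + 1) (fun i => n i + 1) j),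
          P p * ∏ j, X j ^ p (Sum.inl j) * Complex.exp (p (Sum.inr j) * ζ j) := by
  obtain ⟨P, hP⟩ := tensor
    (Sum.elim (fun _ a t => t ^ a) (fun _ a t => Complex.exp (a * t)) : Fin N ⊕ Fin N → ℕ → ℂ → ℂ)
    (Sum.elim (fun _ => E + 1) fun i => n i + 1)
    (fun x => Complex.exp (∑ i, k i * x (Sum.inr i)) * f x) (by
      rintro x (i | i)
      · obtain ⟨C₂, h⟩ := h1 x i
        obtain ⟨γ, hγ⟩ := liou_poly (hd x _) C₂ E h
        refine ⟨fun a => Complex.exp (∑ i, k i * x (Sum.inr i)) * γ a, fun t => ?_⟩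
        simp only [hγ, Function.update_of_ne Sum.inr_ne_inl, Sum.elim_inl, mul_sum, mul_assoc]
      · obtain ⟨C₂, h⟩ := h2 x i
        obtain ⟨γ, hγ⟩ := liou_exp (hd x _) (h3 x i) C₂ (A i) (k i) (n i) (hk i) (hn i) h
        refine ⟨fun a => Complex.exp (∑ j ∈ univ.erase i, k j * x (Sum.inr j)) * γ a, fun t => ?_⟩
        have e : ∑ j, (k j : ℂ) * Function.update x (Sum.inr i) t (Sum.inr j) =
            ∑ j ∈ univ.erase i, k j * x (Sum.inr j) + k i * t := by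
          rw [← sum_erase_add _ _ (mem_univ i), Function.update_self]
          refine congrArg (· + _) (sum_congr rfl fun j hj => ?_)
          rw [Function.update_of_ne fun h => (mem_erase.1 hj).1 (Sum.inr_injective h)]
        simp only [e, Complex.exp_add, mul_assoc, hγ, Sum.elim_inr, mul_sum])
  refine ⟨P, fun X ζ => (hP (Sum.elim X ζ)).trans (sum_congr rfl fun p _ => ?_)⟩
  rw [Fintype.prod_sum_type, prod_mul_distrib]
  rfl

/-- Approximate solutions of the dual problem. -/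
theorem approx {N : ℕ} (hN : 0 < N) (D : ℕ) {C : ℕ} (hC : 1 ≤ C) : ∃ (E : ℕ) (Θ : ℝ) (B : ℕ),
    ∀ F : MP N, F ≠ 0 → F.totalDegree ≤ D → ∀ z : Fin N → ℂ, Ind B z →
    ∃ n₀ : ℕ, ∀ n : Fin N → ℕ, (∀ i, n₀ ≤ n i) →
      (∀ i k, (n i : ℝ) = n k ∨ Θ * n i ≤ n k ∨ Θ * n k ≤ n i) →
      ∃ (ρ s₀ : ℝ) (Cc : (Fin N → ℂ) → ℝ), 0 < ρ ∧ 0 < s₀ ∧ ∀ s : ℝ, 0 < s → s ≤ s₀ →
      ∃ P : (Fin N ⊕ Fin N → ℕ) → ℂ,
        ρ ≤ ‖∑ p ∈ Fintype.piFinset fun j => range (Sum.elim (fun _ => E + 1) (fun i => n i + 1) j),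
          P p * ∏ j, (0 : ℂ) ^ p (Sum.inl j) * Complex.exp (z j) ^ p (Sum.inr j)‖ ∧
        ∀ c : Fin N → ℂ, MvPolynomial.eval c F = 0 → ∀ k : Fin N → ℕ, (∀ j, k j < C * n j) →
          ‖∑ p ∈ Fintype.piFinset fun j => range (Sum.elim (fun _ => E + 1) (fun i => n i + 1) j),
            P p * ∏ j, PL.row (c j) (Polynomial.X ^ k j) (p (Sum.inr j)) (p (Sum.inl j))‖ ≤
            Cc c * √s := by
  obtain ⟨E, Θ, B, H⟩ := psi hN D hC
  refine ⟨E + (6 * N + 1), Θ, B, fun F hF hD z hz => ?_⟩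
  obtain ⟨n₀, H⟩ := H F hF hD z hz
  refine ⟨⌈n₀⌉₊ + (24 * N + 14), fun n hn hsep => ?_⟩
  obtain ⟨C₀, s₀, Cc, hs₀, H⟩ := H (fun i => n i) (fun i => (Nat.le_ceil n₀).trans
    (by exact_mod_cast (Nat.le_add_right _ _).trans (hn i))) hsep
  obtain ⟨Cp, hCp, Hp⟩ := periodise N (6 * N + 1) z
  have hn0 : ∀ i, 0 < n i := fun i => by have := hn i; omega
  refine ⟨‖Complex.exp (∑ i, (n i / 2 : ℕ) * z i)‖ / 2, min s₀ (min 1 (1 / (2 * (|C₀| + 1)))),
    fun c => Real.exp (∑ i, (n i / 2 : ℕ)) * (Cp * |Cc c|) * ∏ j, ((C * n j).factorial : ℝ),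
    half_pos (norm_pos_iff.2 (Complex.exp_ne_zero _)), by positivity, fun s hs hs' => ?_⟩
  obtain ⟨a1, a2, a3⟩ : s ≤ s₀ ∧ s ≤ 1 ∧ s ≤ 1 / (2 * (|C₀| + 1)) := by simpa using hs'
  obtain ⟨Ψ, hΨ, ⟨C₁, h1⟩, h2, h3⟩ := H s hs a1
  obtain ⟨f, f1, f2, f3, f4, f5, f6⟩ := Hp Ψ (fun i => n i / 4) E C₁ hΨ (fun i => by positivity) h1
  have hk : ∀ i, (24 * N + 14 : ℝ) ≤ n i ∧ (n i : ℝ) ≤ 2 * (n i / 2 : ℕ) + 1 ∧
      2 * ((n i / 2 : ℕ) : ℝ) ≤ n i := fun i => by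
    have := hn i
    refine ⟨?_, ?_, ?_⟩ <;> norm_cast <;> omega
  obtain ⟨P, hP⟩ := tiapp_tensor (n := n) (k := fun i => n i / 2) f1 f2 f3 f4
    (fun i => by push_cast [Nat.cast_ofNat]; linarith [hk i]) (fun i => by push_cast; linarith [hk i])
  refine ⟨P, ?_, fun c hc k hk => ?_⟩
  · have e := hP 0 z
    simp only [Complex.exp_nat_mul, Pi.zero_apply] at e
    rw [← e, f5, norm_mul]
    have b1 : C₀ * s ≤ 1 / 2 := by
      rw [le_div_iff₀ (by positivity)] at a3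
      nlinarith [le_abs_self C₀]
    have b2 := norm_sub_norm_le (1 : ℂ) (Ψ (Sum.elim (-z) z))
    rw [norm_sub_rev, norm_one] at b2
    nlinarith [norm_nonneg (Complex.exp (∑ i, (n i / 2 : ℕ) * z i))]
  · have hr : ∀ i, s ^ ((2 * N + 1 : ℝ) / (2 * N * C * n i)) ≤ 1 := fun i =>
      Real.rpow_le_one hs.le a2 (by positivity)
    have key := cauchy_tensor (Fintype.piFinset fun j =>
        range (Sum.elim (fun _ => E + (6 * N + 1) + 1) (fun i => n i + 1) j)) P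
      (fun p j t => (c j + t) ^ p (Sum.inl j) * Complex.exp (p (Sum.inr j) * t))
      (fun _ _ => by fun_prop) (fun i => s ^ ((2 * N + 1 : ℝ) / (2 * N * C * n i)))
      (fun _ => by positivity) (Real.exp (∑ i, (n i / 2 : ℕ)) * (Cp * (|Cc c| *
        (s ^ (N + 1) / ∏ i, s ^ ((2 * N + 1 : ℝ) / (2 * N * C * n i)))))) (fun ζ hζ => by
      have e := hP (c + ζ) ζ
      simp only [Pi.add_apply] at e
      rw [← e, norm_mul]
      refine mul_le_mul ?_ (f6 c ζ _ ((pi_norm_le_iff_of_nonneg zero_le_one).2 fun i =>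
        (hζ i).trans (hr i)) fun m => ?_) (norm_nonneg _) (by positivity)
      · refine (Complex.norm_exp_le_exp_norm _).trans (Real.exp_le_exp.2
          ((norm_sum_le _ _).trans ?_))
        refine sum_le_sum fun i _ => ?_
        rw [norm_mul, Complex.norm_natCast]
        exact mul_le_of_le_one_right (by positivity) ((hζ i).trans (hr i))
      · rw [← mul_div_assoc, div_mul_eq_mul_div, le_div_iff₀ (by positivity)]
        refine (h3 c hc ζ m hζ).trans ?_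
        gcongr
        exact le_abs_self _) k
    simp only [jet_row] at key
    refine key.trans ?_
    have := mul_le_mul_of_nonneg_left (tiapp_prod hN hC hn0 hs a2 hk)
      (by positivity : 0 ≤ Real.exp (∑ i, (n i / 2 : ℕ)) * (Cp * |Cc c|))
    simpa only [mul_assoc] using this

end Pool.Agent.Lib.MP_1f047c_nt.TI
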