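import Pool.Agent.Lib.MP_1f047c_nt.TIDefs

open Finset MeasureTheory

namespace Pool.Agent.Lib.MP_1f047c_nt.TI

variable {ι : Type} [Fintype ι] [DecidableEq ι]

omit [DecidableEq ι] in
lemma tiboch_smooth {f : (ι → ℂ) → ℂ} (hf : ContDiff ℝ (⊤ : ℕ∞) f) (v : ι → ℂ) :
    ContDiff ℝ (⊤ : ℕ∞) fun x => fderiv ℝ f x v :=
  (hf.fderiv_right (m := (⊤ : ℕ∞)) (by exact_mod_cast le_top)).clm_apply contDiff_const

omit [DecidableEq ι] in
lemma tiboch_diff {f : (ι → ℂ) → ℂ} (hf : ContDiff ℝ (⊤ : ℕ∞) f) : Differentiable ℝ f :=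
  hf.differentiable (by simp)

omit [DecidableEq ι] in
lemma tiboch_test {ψ : (ι → ℂ) → ℂ} (h : Test ψ) (v : ι → ℂ) : Test fun x => fderiv ℝ ψ x v :=
  ⟨tiboch_smooth h.1 v, h.2.fderiv_apply ℝ v⟩

omit [DecidableEq ι] in
lemma tiboch_int {ψ : (ι → ℂ) → ℂ} (h : Test ψ) : Integrable ψ :=
  h.1.continuous.integrable_of_hasCompactSupport h.2

lemma dz_smooth {f : (ι → ℂ) → ℂ} (hf : ContDiff ℝ (⊤ : ℕ∞) f) (j : ι) :
    ContDiff ℝ (⊤ : ℕ∞) (dz j f) :=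
  ((tiboch_smooth hf _).sub (contDiff_const.mul (tiboch_smooth hf _))).div_const 2

lemma dzb_smooth {f : (ι → ℂ) → ℂ} (hf : ContDiff ℝ (⊤ : ℕ∞) f) (j : ι) :
    ContDiff ℝ (⊤ : ℕ∞) (dzb j f) :=
  ((tiboch_smooth hf _).add (contDiff_const.mul (tiboch_smooth hf _))).div_const 2

lemma Test.dz {ψ : (ι → ℂ) → ℂ} (h : Test ψ) (j : ι) : Test (dz j ψ) := by
  refine ⟨dz_smooth h.1 j, (h.2.fderiv ℝ).mono fun x hx hx0 => hx ?_⟩
  simp [TI.dz, hx0]

lemma Test.dzb {ψ : (ι → ℂ) → ℂ} (h : Test ψ) (j : ι) : Test (dzb j ψ) := by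
  refine ⟨dzb_smooth h.1 j, (h.2.fderiv ℝ).mono fun x hx hx0 => hx ?_⟩
  simp [TI.dzb, hx0]

omit [DecidableEq ι] in
lemma Test.mul_left {ψ f : (ι → ℂ) → ℂ} (h : Test ψ) (hf : ContDiff ℝ (⊤ : ℕ∞) f) :
    Test fun x => f x * ψ x :=
  ⟨hf.mul h.1, h.2.mul_left⟩

omit [DecidableEq ι] in
lemma Test.conj {ψ : (ι → ℂ) → ℂ} (h : Test ψ) : Test fun x => starRingEnd ℂ (ψ x) := by
  refine ⟨Complex.conjCLE.contDiff.comp h.1, h.2.mono fun x hx hx0 => hx ?_⟩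
  simp [hx0]

lemma dz_mul {f g : (ι → ℂ) → ℂ} {x : ι → ℂ} (hf : DifferentiableAt ℝ f x)
    (hg : DifferentiableAt ℝ g x) (j : ι) :
    dz j (fun y => f y * g y) x = dz j f x * g x + f x * dz j g x := by
  simp only [dz, fderiv_fun_mul hf hg, add_apply,
    smul_apply, smul_eq_mul]
  ring

lemma dzb_mul {f g : (ι → ℂ) → ℂ} {x : ι → ℂ} (hf : DifferentiableAt ℝ f x)
    (hg : DifferentiableAt ℝ g x) (j : ι) :
    dzb j (fun y => f y * g y) x = dzb j f x * g x + f x * dzb j g x := by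
  simp only [dzb, fderiv_fun_mul hf hg, add_apply,
    smul_apply, smul_eq_mul]
  ring

omit [DecidableEq ι] in
lemma tiboch_conj {f : (ι → ℂ) → ℂ} {x : ι → ℂ} (hf : DifferentiableAt ℝ f x) (v : ι → ℂ) :
    fderiv ℝ (fun y => starRingEnd ℂ (f y)) x v = starRingEnd ℂ (fderiv ℝ f x v) := by
  have h : HasFDerivAt (fun y => starRingEnd ℂ (f y))
      ((Complex.conjCLE : ℂ →L[ℝ] ℂ).comp (fderiv ℝ f x)) x :=
    (Complex.conjCLE : ℂ →L[ℝ] ℂ).hasFDerivAt.comp x hf.hasFDerivAt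
  rw [h.fderiv]
  rfl

lemma dz_conj {f : (ι → ℂ) → ℂ} {x : ι → ℂ} (hf : DifferentiableAt ℝ f x) (j : ι) :
    dz j (fun y => starRingEnd ℂ (f y)) x = starRingEnd ℂ (dzb j f x) := by
  simp only [dz, dzb, tiboch_conj hf, map_div₀, map_add, map_mul, Complex.conj_I, map_ofNat]
  ring

lemma dzb_conj {f : (ι → ℂ) → ℂ} {x : ι → ℂ} (hf : DifferentiableAt ℝ f x) (j : ι) :
    dzb j (fun y => starRingEnd ℂ (f y)) x = starRingEnd ℂ (dz j f x) := by
  simp only [dz, dzb, tiboch_conj hf, map_div₀, map_sub, map_mul, Complex.conj_I, map_ofNat]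
  ring

lemma dz_exp {Φ : (ι → ℂ) → ℝ} (hΦ : ContDiff ℝ (⊤ : ℕ∞) Φ) (c : ℝ) (j : ι) (x : ι → ℂ) :
    dz j (fun y => (Real.exp (c * Φ y) : ℂ)) x =
      c * dz j (fun y => (Φ y : ℂ)) x * (Real.exp (c * Φ x) : ℂ) := by
  have h0 : DifferentiableAt ℝ (fun y => (Φ y : ℂ)) x :=
    tiboch_diff (Complex.ofRealCLM.contDiff.comp hΦ) x
  have h1 : HasFDerivAt (fun y => Complex.exp (c * (Φ y : ℂ)))
      (Complex.exp (c * (Φ x : ℂ)) • ((c : ℂ) • fderiv ℝ (fun y => (Φ y : ℂ)) x)) x :=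
    (h0.hasFDerivAt.const_mul (c : ℂ)).cexp
  simp only [dz, Complex.ofReal_exp, Complex.ofReal_mul, h1.fderiv, smul_apply,
    smul_eq_mul]
  ring

omit [DecidableEq ι] in
lemma tiboch_integral {ψ : (ι → ℂ) → ℂ} (h : Test ψ) (v : ι → ℂ) :
    ∫ x, fderiv ℝ ψ x v = 0 := by
  have h1 := integral_mul_fderiv_eq_neg_fderiv_mul_of_integrable (μ := volume)
    (f := fun _ : ι → ℂ => (1 : ℂ)) (g := ψ) (v := v) (by simp)
    (by simpa using tiboch_int (tiboch_test h v)) (by simpa using tiboch_int h)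
    (fun x _ => differentiableAt_const _) (fun x _ => tiboch_diff h.1 x)
  simpa using h1

lemma integral_dz {ψ : (ι → ℂ) → ℂ} (h : Test ψ) (j : ι) : ∫ x, dz j ψ x = 0 := by
  simp only [dz]
  rw [integral_div, integral_sub (tiboch_int (tiboch_test h _))
    ((tiboch_int (tiboch_test h _)).const_mul _), integral_const_mul, tiboch_integral h,
    tiboch_integral h]
  simp

lemma integral_dzb {ψ : (ι → ℂ) → ℂ} (h : Test ψ) (j : ι) : ∫ x, dzb j ψ x = 0 := by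
  simp only [dzb]
  rw [integral_div, integral_add (tiboch_int (tiboch_test h _))
    ((tiboch_int (tiboch_test h _)).const_mul _), integral_const_mul, tiboch_integral h,
    tiboch_integral h]
  simp

omit [DecidableEq ι] in
lemma tiboch_snd {f : (ι → ℂ) → ℂ} (hf : ContDiff ℝ (⊤ : ℕ∞) f) (x v : ι → ℂ) :
    HasFDerivAt (fun y => fderiv ℝ f y v) ((fderiv ℝ (fderiv ℝ f) x).flip v) x := by
  have h1 : DifferentiableAt ℝ (fderiv ℝ f) x :=
    (hf.fderiv_right (m := (⊤ : ℕ∞)) (by exact_mod_cast le_top)).differentiable (by simp) x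
  have h2 := h1.hasFDerivAt.clm_apply (hasFDerivAt_const v x)
  simpa using h2

omit [DecidableEq ι] in
lemma tiboch_symm {f : (ι → ℂ) → ℂ} (hf : ContDiff ℝ (⊤ : ℕ∞) f) (x v w : ι → ℂ) :
    fderiv ℝ (fderiv ℝ f) x v w = fderiv ℝ (fderiv ℝ f) x w v :=
  (hf.contDiffAt.isSymmSndFDerivAt (by
    rw [minSmoothness_of_isRCLikeNormedField]
    exact WithTop.coe_le_coe.2 (le_top : (2 : ℕ∞) ≤ ⊤))) v w

lemma tiboch_dz {f : (ι → ℂ) → ℂ} (hf : ContDiff ℝ (⊤ : ℕ∞) f) (j : ι) (x w : ι → ℂ) :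
    fderiv ℝ (dz j f) x w = (fderiv ℝ (fderiv ℝ f) x w (Pi.single j 1) -
      Complex.I * fderiv ℝ (fderiv ℝ f) x w (Pi.single j Complex.I)) / 2 := by
  have h := ((tiboch_snd hf x (Pi.single j 1)).sub
    ((tiboch_snd hf x (Pi.single j Complex.I)).const_mul Complex.I)).mul_const (2 : ℂ)⁻¹
  have e : dz j f = fun y => (fderiv ℝ f y (Pi.single j 1) -
      Complex.I * fderiv ℝ f y (Pi.single j Complex.I)) * (2 : ℂ)⁻¹ := by
    funext y
    rw [dz, div_eq_mul_inv]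
  rw [e]
  erw [h.fderiv]
  simp only [smul_apply, sub_apply,
    ContinuousLinearMap.flip_apply, smul_eq_mul]
  ring

lemma tiboch_dzb {f : (ι → ℂ) → ℂ} (hf : ContDiff ℝ (⊤ : ℕ∞) f) (j : ι) (x w : ι → ℂ) :
    fderiv ℝ (dzb j f) x w = (fderiv ℝ (fderiv ℝ f) x w (Pi.single j 1) +
      Complex.I * fderiv ℝ (fderiv ℝ f) x w (Pi.single j Complex.I)) / 2 := by
  have h := ((tiboch_snd hf x (Pi.single j 1)).add
    ((tiboch_snd hf x (Pi.single j Complex.I)).const_mul Complex.I)).mul_const (2 : ℂ)⁻¹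
  have e : dzb j f = fun y => (fderiv ℝ f y (Pi.single j 1) +
      Complex.I * fderiv ℝ f y (Pi.single j Complex.I)) * (2 : ℂ)⁻¹ := by
    funext y
    rw [dzb, div_eq_mul_inv]
  rw [e]
  erw [h.fderiv]
  simp only [smul_apply, add_apply,
    ContinuousLinearMap.flip_apply, smul_eq_mul]
  ring

lemma dzb_dzb {f : (ι → ℂ) → ℂ} (hf : ContDiff ℝ (⊤ : ℕ∞) f) (j k : ι) (x : ι → ℂ) :
    dzb j (dzb k f) x = dzb k (dzb j f) x := by
  rw [dzb, dzb, tiboch_dzb hf, tiboch_dzb hf, tiboch_dzb hf, tiboch_dzb hf,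
    tiboch_symm hf x (Pi.single j 1) (Pi.single k 1),
    tiboch_symm hf x (Pi.single j 1) (Pi.single k Complex.I),
    tiboch_symm hf x (Pi.single j Complex.I) (Pi.single k 1),
    tiboch_symm hf x (Pi.single j Complex.I) (Pi.single k Complex.I)]
  ring

lemma dzb_dz {f : (ι → ℂ) → ℂ} (hf : ContDiff ℝ (⊤ : ℕ∞) f) (j k : ι) (x : ι → ℂ) :
    dzb k (dz j f) x = dz j (dzb k f) x := by
  rw [dzb, dz, tiboch_dz hf, tiboch_dz hf, tiboch_dzb hf, tiboch_dzb hf,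
    tiboch_symm hf x (Pi.single j 1) (Pi.single k 1),
    tiboch_symm hf x (Pi.single j 1) (Pi.single k Complex.I),
    tiboch_symm hf x (Pi.single j Complex.I) (Pi.single k 1),
    tiboch_symm hf x (Pi.single j Complex.I) (Pi.single k Complex.I)]
  ring

end Pool.Agent.Lib.MP_1f047c_nt.TI
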