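import Pool.Agent.Lib.MP_1f047c_nt.TIBoch

open Finset MeasureTheory

namespace Pool.Agent.Lib.MP_1f047c_nt.TI

variable {ι : Type} [Fintype ι] [DecidableEq ι]

lemma tiboch2_dec (v : ι → ℂ) :
    v = ∑ j, ((v j).re • (Pi.single j 1 : ι → ℂ) + (v j).im • (Pi.single j Complex.I : ι → ℂ)) := by
  funext i
  rw [Finset.sum_apply, Finset.sum_eq_single i]
  · simp only [Pi.add_apply, Pi.smul_apply, Pi.single_eq_same, Complex.real_smul, mul_one]
    exact (Complex.re_add_im _).symm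
  · intro j _ hj
    simp [Pi.single_eq_of_ne hj.symm]
  · simp

lemma tiboch2_lin (L : (ι → ℂ) →L[ℝ] ℂ) (v : ι → ℂ) :
    L v = ∑ j, (((v j).re : ℂ) * L (Pi.single j 1) + ((v j).im : ℂ) * L (Pi.single j Complex.I)) := by
  conv_lhs => rw [tiboch2_dec v]
  rw [map_sum]
  refine Finset.sum_congr rfl fun j _ => ?_
  rw [map_add, map_smul, map_smul, Complex.real_smul, Complex.real_smul]

lemma tiboch2_plus (L : (ι → ℂ) →L[ℝ] ℂ) (v : ι → ℂ) :
    ∑ k, (L (Pi.single k 1) + Complex.I * L (Pi.single k Complex.I)) * starRingEnd ℂ (v k) =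
      L v + Complex.I * L (Complex.I • v) := by
  rw [tiboch2_lin L v, tiboch2_lin L (Complex.I • v), Finset.mul_sum, ← Finset.sum_add_distrib]
  refine Finset.sum_congr rfl fun j _ => ?_
  have h1 : starRingEnd ℂ (v j) = ((v j).re : ℂ) - ((v j).im : ℂ) * Complex.I := by
    apply Complex.ext <;> simp
  have h2 : ((Complex.I • v) j).re = -(v j).im := by simp
  have h3 : ((Complex.I • v) j).im = (v j).re := by simp
  rw [h1, h2, h3]
  push_cast
  linear_combination (-((v j).im : ℂ) * L (Pi.single j Complex.I)) * Complex.I_mul_I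

lemma tiboch2_minus (L : (ι → ℂ) →L[ℝ] ℂ) (v : ι → ℂ) :
    ∑ k, (L (Pi.single k 1) - Complex.I * L (Pi.single k Complex.I)) * v k =
      L v - Complex.I * L (Complex.I • v) := by
  rw [tiboch2_lin L v, tiboch2_lin L (Complex.I • v), Finset.mul_sum, ← Finset.sum_sub_distrib]
  refine Finset.sum_congr rfl fun j _ => ?_
  have h1 : v j = ((v j).re : ℂ) + ((v j).im : ℂ) * Complex.I := (Complex.re_add_im _).symm
  have h2 : ((Complex.I • v) j).re = -(v j).im := by simp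
  have h3 : ((Complex.I • v) j).im = (v j).re := by simp
  rw [h2, h3]
  conv_lhs => rw [h1]
  push_cast
  linear_combination (-((v j).im : ℂ) * L (Pi.single j Complex.I)) * Complex.I_mul_I

lemma tiboch2_cs {Φ : (ι → ℂ) → ℝ} (hΦ : ContDiff ℝ (⊤ : ℕ∞) Φ) :
    ContDiff ℝ (⊤ : ℕ∞) fun y => (Φ y : ℂ) :=
  Complex.ofRealCLM.contDiff.comp hΦ

lemma tiboch2_fd {Φ : (ι → ℂ) → ℝ} (hΦ : ContDiff ℝ (⊤ : ℕ∞) Φ) (y u : ι → ℂ) :
    fderiv ℝ (fun y => (Φ y : ℂ)) y u = ((fderiv ℝ Φ y u : ℝ) : ℂ) := by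
  have h := (Complex.ofRealCLM.hasFDerivAt.comp y
    (hΦ.differentiable (by simp) y).hasFDerivAt).fderiv
  have h' : fderiv ℝ (fun y => (Φ y : ℂ)) y = Complex.ofRealCLM.comp (fderiv ℝ Φ y) := h
  rw [h']
  rfl

lemma tiboch2_snd {Φ : (ι → ℂ) → ℝ} (hΦ : ContDiff ℝ (⊤ : ℕ∞) Φ) (x u : ι → ℂ) :
    HasFDerivAt (fun y => fderiv ℝ Φ y u) ((fderiv ℝ (fderiv ℝ Φ) x).flip u) x := by
  have h1 : ContDiff ℝ (⊤ : ℕ∞) (fderiv ℝ Φ) := hΦ.fderiv_right (by simp)
  have h2 := (h1.differentiable (by simp) x).hasFDerivAt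
  have h3 := (ContinuousLinearMap.apply ℝ ℝ u).hasFDerivAt.comp x h2
  exact h3

lemma tiboch2_dzfd {Φ : (ι → ℂ) → ℝ} (hΦ : ContDiff ℝ (⊤ : ℕ∞) Φ) (j : ι) (x w : ι → ℂ) :
    fderiv ℝ (dz j fun y => (Φ y : ℂ)) x w =
      (((fderiv ℝ (fderiv ℝ Φ) x w (Pi.single j 1) : ℝ) : ℂ) -
        Complex.I * ((fderiv ℝ (fderiv ℝ Φ) x w (Pi.single j Complex.I) : ℝ) : ℂ)) / 2 := by
  have he : (dz j fun y => (Φ y : ℂ)) = fun y =>
      (1 / 2 : ℂ) * (Complex.ofRealCLM (fderiv ℝ Φ y (Pi.single j 1)) -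
        Complex.I * Complex.ofRealCLM (fderiv ℝ Φ y (Pi.single j Complex.I))) := by
    funext y
    simp only [dz, tiboch2_fd hΦ, Complex.ofRealCLM_apply]
    ring
  have h1 := Complex.ofRealCLM.hasFDerivAt.comp x (tiboch2_snd hΦ x (Pi.single j 1))
  have h2 := Complex.ofRealCLM.hasFDerivAt.comp x (tiboch2_snd hΦ x (Pi.single j Complex.I))
  have h3 := ((h1.sub (h2.const_mul Complex.I)).const_mul (1 / 2 : ℂ)).fderiv
  rw [he]
  have h4 := congrArg (fun L => L w) h3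
  refine Eq.trans h4 ?_
  simp
  ring

lemma levi_eq {Φ : (ι → ℂ) → ℝ} (hΦ : ContDiff ℝ (⊤ : ℕ∞) Φ) (x v : ι → ℂ) :
    ((Levi Φ x v / 4 : ℝ) : ℂ) =
      ∑ j, ∑ k, dzb k (dz j fun y => (Φ y : ℂ)) x * v j * starRingEnd ℂ (v k) := by
  set B := fderiv ℝ (fderiv ℝ Φ) x with hB
  have hsym : B v (Complex.I • v) = B (Complex.I • v) v :=
    (hΦ.contDiffAt.isSymmSndFDerivAt (by
      simp only [minSmoothness_of_isRCLikeNormedField]
      exact WithTop.coe_le_coe.2 le_top)).eq _ _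
  have hL : Levi Φ x v = B v v + B (Complex.I • v) (Complex.I • v) := by
    unfold Levi
    rw [(tiboch2_snd hΦ x v).fderiv, (tiboch2_snd hΦ x (Complex.I • v)).fderiv]
    rfl
  have h1 : ∀ j, ∑ k, dzb k (dz j fun y => (Φ y : ℂ)) x * v j * starRingEnd ℂ (v k) =
      1 / 4 * ((Complex.ofRealCLM.comp (B v) (Pi.single j 1) -
          Complex.I * Complex.ofRealCLM.comp (B v) (Pi.single j Complex.I)) * v j) +
        Complex.I / 4 * ((Complex.ofRealCLM.comp (B (Complex.I • v)) (Pi.single j 1) -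
          Complex.I * Complex.ofRealCLM.comp (B (Complex.I • v)) (Pi.single j Complex.I)) * v j) := by
    intro j
    have h := tiboch2_plus (fderiv ℝ (dz j fun y => (Φ y : ℂ)) x) v
    rw [tiboch2_dzfd hΦ j x v, tiboch2_dzfd hΦ j x (Complex.I • v)] at h
    have h2 : ∑ k, dzb k (dz j fun y => (Φ y : ℂ)) x * v j * starRingEnd ℂ (v k) =
        v j / 2 * ∑ k, (fderiv ℝ (dz j fun y => (Φ y : ℂ)) x (Pi.single k 1) +
          Complex.I * fderiv ℝ (dz j fun y => (Φ y : ℂ)) x (Pi.single k Complex.I)) *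
            starRingEnd ℂ (v k) := by
      rw [Finset.mul_sum]
      refine Finset.sum_congr rfl fun k _ => ?_
      unfold dzb
      ring
    rw [h2, h]
    simp only [ContinuousLinearMap.comp_apply, Complex.ofRealCLM_apply, hB]
    ring
  rw [Finset.sum_congr rfl fun j _ => h1 j, Finset.sum_add_distrib, ← Finset.mul_sum,
    ← Finset.mul_sum, tiboch2_minus, tiboch2_minus, hL]
  simp only [ContinuousLinearMap.comp_apply, Complex.ofRealCLM_apply, hsym]
  push_cast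
  linear_combination (((B (Complex.I • v) (Complex.I • v) : ℝ) : ℂ) / 4) * Complex.I_mul_I

lemma tiboch2_sub {f g : (ι → ℂ) → ℂ} (hf : Test f) (hg : Test g) : Test fun x => f x - g x :=
  ⟨hf.1.sub hg.1, hf.2.sub hg.2⟩

lemma tiboch2_mulr {ψ f : (ι → ℂ) → ℂ} (h : Test ψ) (hf : ContDiff ℝ (⊤ : ℕ∞) f) :
    Test fun x => ψ x * f x :=
  ⟨h.1.mul hf, h.2.mul_right⟩

lemma tiboch2_sum (s : Finset ι) {f : ι → (ι → ℂ) → ℂ} (hf : ∀ j, Test (f j)) :
    Test fun x => ∑ j ∈ s, f j x := by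
  induction s using Finset.induction_on with
  | empty =>
    simp only [Finset.sum_empty]
    exact ⟨contDiff_const, HasCompactSupport.zero⟩
  | insert a s ha ih =>
    simp only [Finset.sum_insert ha]
    exact ⟨(hf a).1.add ih.1, (hf a).2.add ih.2⟩

lemma tiboch2_int {f : (ι → ℂ) → ℂ} (hf : Test f) : Integrable f :=
  hf.1.continuous.integrable_of_hasCompactSupport hf.2

lemma tiboch2_int2 {f : (ι → ℂ) → ℂ} (hf : Test f) {g : (ι → ℂ) → ℝ} (hg : Continuous g) :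
    Integrable fun x => ‖f x‖ ^ 2 * g x := by
  have h1 : HasCompactSupport fun x => ‖f x‖ ^ 2 :=
    hf.2.comp_left (g := fun z : ℂ => ‖z‖ ^ 2) (by simp)
  exact ((hf.1.continuous.norm.pow 2).mul hg).integrable_of_hasCompactSupport h1.mul_right

lemma tiboch2_dzb_sub {f g : (ι → ℂ) → ℂ} {x : ι → ℂ} (hf : DifferentiableAt ℝ f x)
    (hg : DifferentiableAt ℝ g x) (j : ι) :
    dzb j (fun y => f y - g y) x = dzb j f x - dzb j g x := by
  unfold dzb
  rw [fderiv_fun_sub hf hg]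
  simp only [sub_apply]
  ring

lemma tiboch2_ws {Φ : (ι → ℂ) → ℝ} (hΦ : ContDiff ℝ (⊤ : ℕ∞) Φ) :
    ContDiff ℝ (⊤ : ℕ∞) fun y => (Real.exp (-Φ y) : ℂ) :=
  tiboch2_cs (Real.contDiff_exp.comp hΦ.neg)

lemma tiboch2_dzw {Φ : (ι → ℂ) → ℝ} (hΦ : ContDiff ℝ (⊤ : ℕ∞) Φ) (j : ι) (x : ι → ℂ) :
    dz j (fun y => (Real.exp (-Φ y) : ℂ)) x =
      -dz j (fun y => (Φ y : ℂ)) x * (Real.exp (-Φ x) : ℂ) := by
  have h := dz_exp hΦ (-1) j x
  simp only [neg_mul, one_mul, Complex.ofReal_neg, Complex.ofReal_one] at h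
  rw [h, neg_mul]

lemma tiboch2_dzbw {Φ : (ι → ℂ) → ℝ} (hΦ : ContDiff ℝ (⊤ : ℕ∞) Φ) (j : ι) (x : ι → ℂ) :
    dzb j (fun y => (Real.exp (-Φ y) : ℂ)) x =
      -starRingEnd ℂ (dz j (fun y => (Φ y : ℂ)) x) * (Real.exp (-Φ x) : ℂ) := by
  have h := dzb_conj ((tiboch2_ws hΦ).differentiable (by simp) x) j
  simp only [Complex.conj_ofReal] at h
  rw [h, tiboch2_dzw hΦ, map_mul, map_neg, Complex.conj_ofReal]

/-- The pointwise identity behind the basic inequality. -/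
lemma tiboch2_pt {Φ : (ι → ℂ) → ℝ} (hΦ : ContDiff ℝ (⊤ : ℕ∞) Φ) {f g : (ι → ℂ) → ℂ}
    (hf : Test f) (hg : Test g) (j k : ι) (x : ι → ℂ) :
    dzb k (fun y => (dz j f y - dz j (fun y => (Φ y : ℂ)) y * f y) * starRingEnd ℂ (g y) *
        (Real.exp (-Φ y) : ℂ)) x -
      dz j (fun y => dzb k f y * starRingEnd ℂ (g y) * (Real.exp (-Φ y) : ℂ)) x =
    ((dz j f x - dz j (fun y => (Φ y : ℂ)) x * f x) *
        starRingEnd ℂ (dz k g x - dz k (fun y => (Φ y : ℂ)) x * g x) -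
      dzb k (dz j fun y => (Φ y : ℂ)) x * f x * starRingEnd ℂ (g x) -
      dzb k f x * starRingEnd ℂ (dzb j g x)) * (Real.exp (-Φ x) : ℂ) := by
  have dW := (tiboch2_ws hΦ).differentiable (by simp) x
  have df := hf.1.differentiable (by simp) x
  have dg := hg.1.differentiable (by simp) x
  have dgc := hg.conj.1.differentiable (by simp) x
  have d1 := (hf.dz j).1.differentiable (by simp) x
  have d2 := (hf.dzb k).1.differentiable (by simp) x
  have dP := (dz_smooth (tiboch2_cs hΦ) j).differentiable (by simp) x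
  have d3 : DifferentiableAt ℝ (fun y => dz j (fun y => (Φ y : ℂ)) y * f y) x := dP.mul df
  have d4 : DifferentiableAt ℝ (fun y => dz j f y - dz j (fun y => (Φ y : ℂ)) y * f y) x :=
    d1.sub d3
  have d5 : DifferentiableAt ℝ (fun y => (dz j f y - dz j (fun y => (Φ y : ℂ)) y * f y) *
      starRingEnd ℂ (g y)) x := d4.mul dgc
  have d6 : DifferentiableAt ℝ (fun y => dzb k f y * starRingEnd ℂ (g y)) x := d2.mul dgc
  rw [dzb_mul d5 dW, dzb_mul d4 dgc, tiboch2_dzb_sub d1 d3, dzb_mul dP df, dz_mul d6 dW,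
    dz_mul d2 dgc, dzb_conj dg, dz_conj dg, tiboch2_dzw hΦ, tiboch2_dzbw hΦ, dzb_dz hf.1 j k x]
  simp only [map_sub, map_mul]
  ring

lemma tiboch2_re (a b : ℂ) : -(a * starRingEnd ℂ b).re ≤ 1 / 2 * ‖a - b‖ ^ 2 := by
  rw [Complex.sq_norm, Complex.normSq_apply]
  simp only [Complex.mul_re, Complex.conj_re, Complex.conj_im, Complex.sub_re, Complex.sub_im]
  nlinarith [sq_nonneg a.re, sq_nonneg a.im, sq_nonneg b.re, sq_nonneg b.im]

/-- The basic inequality for test forms. -/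
theorem bochner (Φ : (ι → ℂ) → ℝ) (hΦ : ContDiff ℝ (⊤ : ℕ∞) Φ) (α : ι → (ι → ℂ) → ℂ)
    (hα : ∀ j, Test (α j)) :
    ∫ x, Levi Φ x (fun j => α j x) / 4 * Real.exp (-Φ x) ≤
      (∫ x, ‖Tst Φ α x‖ ^ 2 * Real.exp (-Φ x)) +
        1 / 2 * ∑ j, ∑ k, ∫ x, ‖dzb k (α j) x - dzb j (α k) x‖ ^ 2 * Real.exp (-Φ x) := by
  by_cases hint : Integrable fun x => Levi Φ x (fun j => α j x) / 4 * Real.exp (-Φ x)
  swap
  · rw [integral_undef hint]
    positivity
  have hw : Continuous fun x => Real.exp (-Φ x) := Real.continuous_exp.comp hΦ.continuous.neg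
  have hδ : ∀ j, Test fun y => dz j (α j) y - dz j (fun y => (Φ y : ℂ)) y * α j y := fun j =>
    tiboch2_sub ((hα j).dz j) ((hα j).mul_left (dz_smooth (tiboch2_cs hΦ) j))
  have hT : Test (Tst Φ α) := by
    have h := tiboch2_sum Finset.univ hδ
    exact ⟨h.1.neg, h.2.neg⟩
  set G : ι → ι → (ι → ℂ) → ℂ := fun j k x =>
    dzb k (fun y => (dz j (α j) y - dz j (fun y => (Φ y : ℂ)) y * α j y) * starRingEnd ℂ (α k y) *
        (Real.exp (-Φ y) : ℂ)) x -
      dz j (fun y => dzb k (α j) y * starRingEnd ℂ (α k y) * (Real.exp (-Φ y) : ℂ)) x with hG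
  have hA : ∀ j k, Test fun y => (dz j (α j) y - dz j (fun y => (Φ y : ℂ)) y * α j y) *
      starRingEnd ℂ (α k y) * (Real.exp (-Φ y) : ℂ) := fun j k =>
    tiboch2_mulr (tiboch2_mulr (hδ j) (hα k).conj.1) (tiboch2_ws hΦ)
  have hB : ∀ j k, Test fun y => dzb k (α j) y * starRingEnd ℂ (α k y) *
      (Real.exp (-Φ y) : ℂ) := fun j k =>
    tiboch2_mulr (tiboch2_mulr ((hα j).dzb k) (hα k).conj.1) (tiboch2_ws hΦ)
  have hGi : ∀ j k, Integrable (G j k) := fun j k =>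
    tiboch2_int (tiboch2_sub ((hA j k).dzb k) ((hB j k).dz j))
  have hG0 : ∀ j k, ∫ x, G j k x = 0 := by
    intro j k
    simp only [hG]
    rw [integral_sub (tiboch2_int ((hA j k).dzb k)) (tiboch2_int ((hB j k).dz j)),
      integral_dzb (hA j k), integral_dz (hB j k), sub_zero]
  have hGr : ∀ j k, Integrable fun x => (G j k x).re := fun j k => (hGi j k).re
  have hGr0 : ∀ j k, ∫ x, (G j k x).re = 0 := by
    intro j k
    have h := integral_re (hGi j k)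
    rw [hG0] at h
    simpa using h
  have hS : ∀ j k, Integrable fun x => ‖dzb k (α j) x - dzb j (α k) x‖ ^ 2 * Real.exp (-Φ x) :=
    fun j k => tiboch2_int2 (tiboch2_sub ((hα j).dzb k) ((hα k).dzb j)) hw
  have hpt : ∀ x, Levi Φ x (fun j => α j x) / 4 * Real.exp (-Φ x) ≤
      ‖Tst Φ α x‖ ^ 2 * Real.exp (-Φ x) +
        ∑ j, ∑ k, (1 / 2 * (‖dzb k (α j) x - dzb j (α k) x‖ ^ 2 * Real.exp (-Φ x)) -
          (G j k x).re) := by
    intro x
    have h1 := levi_eq hΦ x fun j => α j x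
    have h2 : ((‖Tst Φ α x‖ ^ 2 : ℝ) : ℂ) =
        ∑ j, ∑ k, (dz j (α j) x - dz j (fun y => (Φ y : ℂ)) x * α j x) *
          starRingEnd ℂ (dz k (α k) x - dz k (fun y => (Φ y : ℂ)) x * α k x) := by
      rw [← Finset.sum_mul_sum, ← map_sum, Complex.mul_conj, Complex.sq_norm, Tst,
        Complex.normSq_neg]
    have h3 : ∑ j, ∑ k, G j k x =
        (((‖Tst Φ α x‖ ^ 2 : ℝ) : ℂ) - ((Levi Φ x (fun j => α j x) / 4 : ℝ) : ℂ) -
          ∑ j, ∑ k, dzb k (α j) x * starRingEnd ℂ (dzb j (α k) x)) * (Real.exp (-Φ x) : ℂ) := by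
      rw [h1, h2, ← Finset.sum_sub_distrib, ← Finset.sum_sub_distrib, Finset.sum_mul]
      refine Finset.sum_congr rfl fun j _ => ?_
      rw [← Finset.sum_sub_distrib, ← Finset.sum_sub_distrib, Finset.sum_mul]
      refine Finset.sum_congr rfl fun k _ => ?_
      exact tiboch2_pt hΦ (hα j) (hα k) j k x
    have h4 := congrArg Complex.re h3
    rw [Complex.re_mul_ofReal, Complex.sub_re, Complex.sub_re, Complex.ofReal_re,
      Complex.ofReal_re] at h4
    simp only [Complex.re_sum] at h4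
    have h5 : -(∑ j, ∑ k, (dzb k (α j) x * starRingEnd ℂ (dzb j (α k) x)).re) ≤
        ∑ j, ∑ k, 1 / 2 * ‖dzb k (α j) x - dzb j (α k) x‖ ^ 2 := by
      rw [← Finset.sum_neg_distrib]
      refine Finset.sum_le_sum fun j _ => ?_
      rw [← Finset.sum_neg_distrib]
      exact Finset.sum_le_sum fun k _ => tiboch2_re _ _
    have h6 := mul_le_mul_of_nonneg_right h5 (Real.exp_pos (-Φ x)).le
    have h7 : ∑ j, ∑ k, (1 / 2 * (‖dzb k (α j) x - dzb j (α k) x‖ ^ 2 * Real.exp (-Φ x)) -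
          (G j k x).re) =
        (∑ j, ∑ k, 1 / 2 * ‖dzb k (α j) x - dzb j (α k) x‖ ^ 2) * Real.exp (-Φ x) -
          ∑ j, ∑ k, (G j k x).re := by
      rw [Finset.sum_mul, ← Finset.sum_sub_distrib]
      refine Finset.sum_congr rfl fun j _ => ?_
      rw [Finset.sum_mul, ← Finset.sum_sub_distrib]
      refine Finset.sum_congr rfl fun k _ => ?_
      ring
    rw [h7, h4]
    linarith
  have hI : ∀ j k, Integrable fun x =>
      1 / 2 * (‖dzb k (α j) x - dzb j (α k) x‖ ^ 2 * Real.exp (-Φ x)) - (G j k x).re :=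
    fun j k => ((hS j k).const_mul _).sub (hGr j k)
  have hI1 : ∀ j, Integrable fun x => ∑ k,
      (1 / 2 * (‖dzb k (α j) x - dzb j (α k) x‖ ^ 2 * Real.exp (-Φ x)) - (G j k x).re) :=
    fun j => integrable_finsetSum _ fun k _ => hI j k
  have hI2 : Integrable fun x => ∑ j, ∑ k,
      (1 / 2 * (‖dzb k (α j) x - dzb j (α k) x‖ ^ 2 * Real.exp (-Φ x)) - (G j k x).re) :=
    integrable_finsetSum _ fun j _ => hI1 j
  refine (integral_mono hint ((tiboch2_int2 hT hw).add hI2) hpt).trans (le_of_eq ?_)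
  simp only [Pi.add_apply]
  rw [integral_add (tiboch2_int2 hT hw) hI2, integral_finsetSum _ fun j _ => hI1 j,
    Finset.mul_sum]
  congr 1
  refine Finset.sum_congr rfl fun j _ => ?_
  rw [integral_finsetSum _ fun k _ => hI j k, Finset.mul_sum]
  refine Finset.sum_congr rfl fun k _ => ?_
  rw [integral_sub ((hS j k).const_mul _) (hGr j k), hGr0, sub_zero, integral_const_mul]

end Pool.Agent.Lib.MP_1f047c_nt.TI
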