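import Pool.Agent.Lib.MP_1f047c_nt.TIK2

open Finset MeasureTheory

namespace Pool.Agent.Lib.MP_1f047c_nt.TI

variable {ι : Type} [Fintype ι] [DecidableEq ι]

set_option linter.unusedSectionVars false

/-- The weight `exp (c Φ)`. -/
noncomputable def tiprojE (Φ : (ι → ℂ) → ℝ) (c : ℝ) (x : ι → ℂ) : ℂ := (Real.exp (c * Φ x) : ℝ)

lemma tiproj_E_smooth {Φ : (ι → ℂ) → ℝ} (hΦ : ContDiff ℝ (⊤ : ℕ∞) Φ) (c : ℝ) :
    ContDiff ℝ (⊤ : ℕ∞) (tiprojE Φ c) :=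
  Complex.ofRealCLM.contDiff.comp ((contDiff_const.mul hΦ).exp)

lemma tiproj_E_mul (Φ : (ι → ℂ) → ℝ) (c d : ℝ) (x : ι → ℂ) :
    tiprojE Φ c x * tiprojE Φ d x = tiprojE Φ (c + d) x := by
  unfold tiprojE
  rw [← Complex.ofReal_mul, ← Real.exp_add, add_mul]

lemma tiproj_E_zero (Φ : (ι → ℂ) → ℝ) (x : ι → ℂ) : tiprojE Φ 0 x = 1 := by
  simp [tiprojE]

lemma tiproj_E_conj (Φ : (ι → ℂ) → ℝ) (c : ℝ) (x : ι → ℂ) :
    starRingEnd ℂ (tiprojE Φ c x) = tiprojE Φ c x := Complex.conj_ofReal _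

lemma tiproj_E_neg (Φ : (ι → ℂ) → ℝ) (x : ι → ℂ) :
    tiprojE Φ (-1) x = (Real.exp (-Φ x) : ℂ) := by
  simp [tiprojE]

lemma tiproj_E_half (Φ : (ι → ℂ) → ℝ) (x : ι → ℂ) :
    tiprojE Φ (-1 / 2) x * tiprojE Φ (-1 / 2) x = (Real.exp (-Φ x) : ℂ) := by
  rw [tiproj_E_mul, ← tiproj_E_neg]; norm_num

lemma tiproj_E_inv (Φ : (ι → ℂ) → ℝ) (x : ι → ℂ) :
    tiprojE Φ (1 / 2) x * tiprojE Φ (-1 / 2) x = 1 := by
  rw [tiproj_E_mul, ← tiproj_E_zero Φ x]; norm_num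

lemma tiproj_norm_neg (Φ : (ι → ℂ) → ℝ) (x : ι → ℂ) (z : ℂ) :
    ‖tiprojE Φ (-1 / 2) x * z‖ ^ 2 = ‖z‖ ^ 2 * Real.exp (-Φ x) := by
  rw [norm_mul, mul_pow, mul_comm, tiprojE, Complex.norm_real, Real.norm_eq_abs, sq_abs,
    ← Real.exp_nat_mul]
  congr 2
  push_cast
  ring

lemma tiproj_norm_pos (Φ : (ι → ℂ) → ℝ) (x : ι → ℂ) (z : ℂ) :
    ‖tiprojE Φ (1 / 2) x * z‖ ^ 2 * Real.exp (-Φ x) = ‖z‖ ^ 2 := by
  rw [← tiproj_norm_neg, ← mul_assoc, mul_comm (tiprojE Φ (-1 / 2) x), tiproj_E_inv, one_mul]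

lemma tiproj_memLp {ψ : (ι → ℂ) → ℂ} (h : Test ψ) : MemLp ψ 2 volume :=
  h.1.continuous.memLp_of_hasCompactSupport h.2

lemma tiproj_int {ψ : (ι → ℂ) → ℂ} (h : Test ψ) : Integrable ψ volume :=
  h.1.continuous.integrable_of_hasCompactSupport h.2

lemma tiproj_diff {f : (ι → ℂ) → ℂ} (h : ContDiff ℝ (⊤ : ℕ∞) f) (x : ι → ℂ) :
    DifferentiableAt ℝ f x := h.differentiable (by simp) x

lemma tiproj_mul_right {ψ f : (ι → ℂ) → ℂ} (h : Test ψ) (hf : ContDiff ℝ (⊤ : ℕ∞) f) :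
    Test fun x => ψ x * f x := by
  have h1 := h.mul_left hf
  simpa only [mul_comm] using h1

lemma tiproj_phi_smooth {Φ : (ι → ℂ) → ℝ} (hΦ : ContDiff ℝ (⊤ : ℕ∞) Φ) (j : ι) :
    ContDiff ℝ (⊤ : ℕ∞) (dz j fun y => (Φ y : ℂ)) :=
  dz_smooth (Complex.ofRealCLM.contDiff.comp hΦ) j

lemma tiproj_tst_test {Φ : (ι → ℂ) → ℝ} (hΦ : ContDiff ℝ (⊤ : ℕ∞) Φ) {α : ι → (ι → ℂ) → ℂ}
    (hα : ∀ j, Test (α j)) : Test (Tst Φ α) := by
  have h1 : ∀ j, Test fun x => dz j (α j) x - dz j (fun y => (Φ y : ℂ)) x * α j x := fun j =>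
    ⟨((hα j).dz j).1.sub ((hα j).mul_left (tiproj_phi_smooth hΦ j)).1,
      ((hα j).dz j).2.sub ((hα j).mul_left (tiproj_phi_smooth hΦ j)).2⟩
  refine ⟨(ContDiff.sum fun j _ => (h1 j).1).neg, HasCompactSupport.neg ?_⟩
  have h2 := HasCompactSupport.finset_sum (s := univ) fun j _ => (h1 j).2
  have e : (∑ j, fun x => dz j (α j) x - dz j (fun y => (Φ y : ℂ)) x * α j x) =
      fun x => ∑ j, (dz j (α j) x - dz j (fun y => (Φ y : ℂ)) x * α j x) := by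
    funext x
    simp only [Finset.sum_apply]
  rwa [e] at h2

/-- Exact forms are weakly closed. -/
lemma tiproj_closed {ψ θ : (ι → ℂ) → ℂ} (hψ : Test ψ) (hθ : Test θ) (j k : ι) :
    ∫ x, dzb k ψ x * dzb j θ x = ∫ x, dzb j ψ x * dzb k θ x := by
  have h1 : ∀ j k, ∫ x, dzb k ψ x * dzb j θ x = -∫ x, ψ x * dzb k (dzb j θ) x := by
    intro j k
    have h2 := integral_dzb (tiproj_mul_right hψ (hθ.dzb j).1) k
    simp only [dzb_mul (tiproj_diff hψ.1 _) (tiproj_diff (hθ.dzb j).1 _)] at h2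
    rw [integral_add (tiproj_int (tiproj_mul_right (hψ.dzb k) (hθ.dzb j).1))
      (tiproj_int (tiproj_mul_right hψ ((hθ.dzb j).dzb k).1))] at h2
    exact eq_neg_of_add_eq_zero_left h2
  rw [h1, h1]
  simp only [dzb_dzb hθ.1 k j]

/-- The adjoint identity for test forms. -/
lemma tiproj_adj {Φ : (ι → ℂ) → ℝ} (hΦ : ContDiff ℝ (⊤ : ℕ∞) Φ) {α : ι → (ι → ℂ) → ℂ}
    (hα : ∀ j, Test (α j)) {θ : (ι → ℂ) → ℂ} (hθ : Test θ) :
    ∑ j, ∫ x, starRingEnd ℂ (dzb j θ x) * (α j x * (Real.exp (-Φ x) : ℂ)) =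
      ∫ x, starRingEnd ℂ (θ x) * Tst Φ α x * (Real.exp (-Φ x) : ℂ) := by
  have hE := tiproj_E_smooth hΦ (-1)
  have hT : ∀ j, Test fun x => starRingEnd ℂ (θ x) *
      ((dz j (α j) x - dz j (fun y => (Φ y : ℂ)) x * α j x) * tiprojE Φ (-1) x) := fun j =>
    tiproj_mul_right hθ.conj ((((hα j).dz j).1.sub
      ((hα j).mul_left (tiproj_phi_smooth hΦ j)).1).mul hE)
  have h1 : ∀ j, ∫ x, starRingEnd ℂ (dzb j θ x) * (α j x * tiprojE Φ (-1) x) =
      -∫ x, starRingEnd ℂ (θ x) *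
        ((dz j (α j) x - dz j (fun y => (Φ y : ℂ)) x * α j x) * tiprojE Φ (-1) x) := by
    intro j
    have h2 := integral_dz (tiproj_mul_right hθ.conj ((hα j).1.mul hE)) j
    have h3 : ∀ x, dz j (fun y => starRingEnd ℂ (θ y) * (α j y * tiprojE Φ (-1) y)) x =
        starRingEnd ℂ (dzb j θ x) * (α j x * tiprojE Φ (-1) x) + starRingEnd ℂ (θ x) *
          ((dz j (α j) x - dz j (fun y => (Φ y : ℂ)) x * α j x) * tiprojE Φ (-1) x) := by
      intro x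
      rw [dz_mul (tiproj_diff hθ.conj.1 x) (tiproj_diff ((hα j).1.mul hE) x),
        dz_conj (tiproj_diff hθ.1 x), dz_mul (tiproj_diff (hα j).1 x) (tiproj_diff hE x)]
      have h4 : dz j (tiprojE Φ (-1)) x = _ := dz_exp hΦ (-1) j x
      rw [h4]
      simp only [tiprojE]
      push_cast
      ring
    simp only [h3] at h2
    rw [integral_add (tiproj_int (tiproj_mul_right (hθ.dzb j).conj ((hα j).1.mul hE)))
      (tiproj_int (hT j))] at h2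
    exact eq_neg_of_add_eq_zero_left h2
  simp only [← tiproj_E_neg, h1]
  rw [Finset.sum_neg_distrib, ← integral_finset_sum _ fun j _ => tiproj_int (hT j),
    ← integral_neg]
  refine integral_congr_ae (Filter.Eventually.of_forall fun x => ?_)
  simp only [Tst, ← Finset.mul_sum, ← Finset.sum_mul]
  ring

/-- Square integrable forms. -/
abbrev TiprojV (ι : Type) [Fintype ι] : Type :=
  PiLp 2 fun _ : ι => Lp ℂ 2 (volume : Measure (ι → ℂ))

/-- The class of a square integrable form. -/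
noncomputable def tiprojVec (β : ι → (ι → ℂ) → ℂ) (h : ∀ j, MemLp (β j) 2 volume) : TiprojV ι :=
  WithLp.toLp 2 fun j => (h j).toLp (β j)

lemma tiproj_inner {f : (ι → ℂ) → ℂ} (hf : MemLp f 2 volume)
    (G : Lp ℂ 2 (volume : Measure (ι → ℂ))) :
    inner ℂ (hf.toLp f) G = ∫ x, starRingEnd ℂ (f x) * G x := by
  rw [L2.inner_def]
  refine integral_congr_ae ?_
  filter_upwards [hf.coeFn_toLp] with x hx
  rw [hx, RCLike.inner_apply, mul_comm]

lemma tiproj_inner_vec (β : ι → (ι → ℂ) → ℂ) (h : ∀ j, MemLp (β j) 2 volume) (v : TiprojV ι) :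
    inner ℂ (tiprojVec β h) v = ∑ j, ∫ x, starRingEnd ℂ (β j x) * v j x := by
  rw [PiLp.inner_apply]
  exact Finset.sum_congr rfl fun j _ => tiproj_inner (h j) _

lemma tiproj_vec_ae (β : ι → (ι → ℂ) → ℂ) (h : ∀ j, MemLp (β j) 2 volume) (j : ι) :
    (tiprojVec β h j : (ι → ℂ) → ℂ) =ᵐ[volume] β j := (h j).coeFn_toLp

lemma tiproj_inner_vec_vec (β γ : ι → (ι → ℂ) → ℂ) (h : ∀ j, MemLp (β j) 2 volume)
    (h' : ∀ j, MemLp (γ j) 2 volume) :
    inner ℂ (tiprojVec β h) (tiprojVec γ h') = ∑ j, ∫ x, starRingEnd ℂ (β j x) * γ j x := by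
  rw [tiproj_inner_vec]
  refine Finset.sum_congr rfl fun j _ => integral_congr_ae ?_
  filter_upwards [tiproj_vec_ae γ h' j] with x hx
  rw [hx]

lemma tiproj_norm_vec (β : ι → (ι → ℂ) → ℂ) (h : ∀ j, MemLp (β j) 2 volume) :
    ‖tiprojVec β h‖ ^ 2 = ∫ x, ∑ j, ‖β j x‖ ^ 2 := by
  have h1 := tiproj_inner_vec_vec β β h h
  rw [inner_self_eq_norm_sq_to_K] at h1
  simp only [Complex.conj_mul'] at h1
  rw [integral_finset_sum _ fun j _ => (h j).integrable_norm_pow (by norm_num)]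
  apply Complex.ofReal_injective
  push_cast
  refine h1.trans (Finset.sum_congr rfl fun j _ => ?_)
  rw [← integral_complex_ofReal]
  simp only [Complex.ofReal_pow]

lemma tiproj_g {Φ : (ι → ℂ) → ℝ} (hΦ : ContDiff ℝ (⊤ : ℕ∞) Φ) {ψ : (ι → ℂ) → ℂ} (h : Test ψ) :
    MemLp (fun x => tiprojE Φ (1 / 2) x * starRingEnd ℂ (ψ x)) 2 volume :=
  tiproj_memLp (h.conj.mul_left (tiproj_E_smooth hΦ _))

/-- Weakly closed forms. -/
def tiprojZ {Φ : (ι → ℂ) → ℝ} (hΦ : ContDiff ℝ (⊤ : ℕ∞) Φ) : Submodule ℂ (TiprojV ι) where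
  carrier := {v | ∀ (ψ : (ι → ℂ) → ℂ) (h : Test ψ) (j k : ι),
    inner ℂ ((tiproj_g hΦ (h.dzb k)).toLp _) (v j) = inner ℂ ((tiproj_g hΦ (h.dzb j)).toLp _) (v k)}
  add_mem' := fun {a b} ha hb ψ h j k => by
    rw [PiLp.add_apply, PiLp.add_apply, inner_add_right, inner_add_right, ha ψ h j k, hb ψ h j k]
  zero_mem' := fun ψ h j k => by
    rw [PiLp.zero_apply, PiLp.zero_apply, inner_zero_right, inner_zero_right]
  smul_mem' := fun c a ha ψ h j k => by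
    rw [PiLp.smul_apply, PiLp.smul_apply, inner_smul_right, inner_smul_right, ha ψ h j k]

lemma tiproj_Z_closed {Φ : (ι → ℂ) → ℝ} (hΦ : ContDiff ℝ (⊤ : ℕ∞) Φ) :
    IsClosed (tiprojZ hΦ : Set (TiprojV ι)) := by
  have e : (tiprojZ hΦ : Set (TiprojV ι)) = ⋂ (ψ : (ι → ℂ) → ℂ) (h : Test ψ) (j : ι) (k : ι),
      {v : TiprojV ι | inner ℂ ((tiproj_g hΦ (h.dzb k)).toLp _) (v j) =
        inner ℂ ((tiproj_g hΦ (h.dzb j)).toLp _) (v k)} := by
    ext v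
    simp only [Set.mem_iInter]
    rfl
  rw [e]
  refine isClosed_iInter fun ψ => isClosed_iInter fun h => isClosed_iInter fun j =>
    isClosed_iInter fun k => isClosed_eq ?_ ?_
  · exact continuous_const.inner (PiLp.continuous_apply _ _ j)
  · exact continuous_const.inner (PiLp.continuous_apply _ _ k)

lemma tiproj_mem_Z {Φ : (ι → ℂ) → ℝ} (hΦ : ContDiff ℝ (⊤ : ℕ∞) Φ) {v : TiprojV ι} :
    v ∈ tiprojZ hΦ ↔ ∀ ψ, Test ψ → ∀ j k, ∫ x, tiprojE Φ (1 / 2) x * v j x * dzb k ψ x =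
      ∫ x, tiprojE Φ (1 / 2) x * v k x * dzb j ψ x := by
  have e : ∀ (ψ : (ι → ℂ) → ℂ) (h : Test ψ) (G : Lp ℂ 2 (volume : Measure (ι → ℂ))),
      inner ℂ ((tiproj_g hΦ h).toLp _) G = ∫ x, tiprojE Φ (1 / 2) x * G x * ψ x := by
    intro ψ h G
    rw [tiproj_inner]
    refine integral_congr_ae (Filter.Eventually.of_forall fun x => ?_)
    simp only [map_mul, tiproj_E_conj, Complex.conj_conj]
    ring
  refine forall₂_congr fun ψ h => forall₂_congr fun j k => ?_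
  rw [e _ (h.dzb k), e _ (h.dzb j)]

lemma tiproj_c {Φ : (ι → ℂ) → ℝ} (hΦ : ContDiff ℝ (⊤ : ℕ∞) Φ) {β : ι → (ι → ℂ) → ℂ}
    (h : ∀ j, Test (β j)) (j : ι) :
    MemLp (fun x => tiprojE Φ (-1 / 2) x * β j x) 2 volume :=
  tiproj_memLp ((h j).mul_left (tiproj_E_smooth hΦ _))

lemma tiproj_exact_mem {Φ : (ι → ℂ) → ℝ} (hΦ : ContDiff ℝ (⊤ : ℕ∞) Φ) {θ : (ι → ℂ) → ℂ}
    (hθ : Test θ) : tiprojVec _ (tiproj_c hΦ hθ.dzb) ∈ tiprojZ hΦ := by
  rw [tiproj_mem_Z]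
  intro ψ hψ j k
  have h1 : ∀ j k, ∫ x, tiprojE Φ (1 / 2) x * tiprojVec _ (tiproj_c hΦ hθ.dzb) j x * dzb k ψ x =
      ∫ x, dzb k ψ x * dzb j θ x := by
    intro j k
    refine integral_congr_ae ?_
    filter_upwards [tiproj_vec_ae _ (tiproj_c hΦ hθ.dzb) j] with x hx
    rw [hx, ← mul_assoc, tiproj_E_inv, one_mul, mul_comm]
  rw [h1, h1, tiproj_closed hψ hθ]

/-- Projection on closed forms: the a priori estimate for all test forms. -/
theorem apriori (Φ : (ι → ℂ) → ℝ) (hΦ : ContDiff ℝ (⊤ : ℕ∞) Φ) (hL : ∀ x v, 0 ≤ Levi Φ x v)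
    (κ : ℝ) (hκ : 0 < κ) (B : Set (ι → ℂ)) (hBm : MeasurableSet B) (R₀ : ℝ)
    (hB0 : ∀ x ∈ B, ‖x‖ ≤ R₀) (hB : ∀ x ∈ B, ∀ v, 4 * κ * ∑ j, ‖v j‖ ^ 2 ≤ Levi Φ x v)
    (χ : (ι → ℂ) → ℂ) (hχ : Test χ) (hχB : ∀ x, x ∉ B → ∀ j, dzb j χ x = 0)
    (α : ι → (ι → ℂ) → ℂ) (hα : ∀ j, Test (α j)) :
    ‖∫ x, starRingEnd ℂ (χ x) * Tst Φ α x * (Real.exp (-Φ x) : ℂ)‖ ^ 2 ≤
      κ⁻¹ * (∫ x, (∑ j, ‖dzb j χ x‖ ^ 2) * Real.exp (-Φ x)) *
        ∫ x, ‖Tst Φ α x‖ ^ 2 * Real.exp (-Φ x) := by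
  have := (tiproj_Z_closed hΦ).completeSpace_coe
  obtain ⟨a, haZ, hao⟩ := Submodule.HasOrthogonalProjection.exists_orthogonal (K := tiprojZ hΦ)
    (tiprojVec _ (tiproj_c hΦ hα))
  have hb := tiproj_tst_test hΦ hα
  have hEp := tiproj_E_smooth hΦ (1 / 2)
  have key : ∀ θ, Test θ →
      ∑ j, ∫ x, starRingEnd ℂ (tiprojE Φ (-1 / 2) x * dzb j θ x) * a j x =
        ∫ x, starRingEnd ℂ (θ x) * Tst Φ α x * (Real.exp (-Φ x) : ℂ) := by
    intro θ hθ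
    have h1 := hao _ (tiproj_exact_mem hΦ hθ)
    rw [inner_sub_right, sub_eq_zero, tiproj_inner_vec_vec, tiproj_inner_vec] at h1
    rw [← h1, ← tiproj_adj hΦ hα hθ]
    refine Finset.sum_congr rfl fun j _ =>
      integral_congr_ae (Filter.Eventually.of_forall fun x => ?_)
    simp only [map_mul, tiproj_E_conj, ← tiproj_E_half]
    ring
  have hint : ∀ j (φ : (ι → ℂ) → ℂ), Test φ →
      Integrable (fun x => tiprojE Φ (1 / 2) x * a j x * φ x) volume := by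
    intro j φ hφ
    have h1 := (Lp.memLp (a j)).integrable_mul (tiproj_memLp (hφ.mul_left hEp))
    refine h1.congr (Filter.Eventually.of_forall fun x => ?_)
    simp only [Pi.mul_apply]
    ring
  have hsq : ∀ j, Integrable (fun x => ‖a j x‖ ^ 2) volume := fun j =>
    (Lp.memLp (a j)).integrable_norm_pow (by norm_num)
  have hw := weak_global Φ hΦ hL κ B hBm R₀ hB0 hB (fun j x => tiprojE Φ (1 / 2) x * a j x)
    (Tst Φ α) (fun j => hEp.continuous.aestronglyMeasurable.mul (Lp.aestronglyMeasurable (a j)))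
    hb.1.continuous.aestronglyMeasurable
    (fun j => by simpa only [tiproj_norm_pos] using hsq j)
    (by
      simpa only [tiproj_norm_neg] using
        (tiproj_memLp (hb.mul_left (tiproj_E_smooth hΦ (-1 / 2)))).integrable_norm_pow
          (by norm_num))
    ((tiproj_mem_Z hΦ).1 haZ)
    (by
      intro ψ hψ
      have hE1 := tiproj_E_smooth hΦ 1
      have hψ1 := tiproj_mul_right hψ hE1
      have h1 := key _ hψ1.conj
      have h2 : ∀ j x, starRingEnd ℂ (tiprojE Φ (-1 / 2) x *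
          dzb j (fun y => starRingEnd ℂ (ψ y * tiprojE Φ 1 y)) x) * a j x =
          tiprojE Φ (1 / 2) x * a j x * dz j ψ x +
            tiprojE Φ (1 / 2) x * a j x * (dz j (fun y => (Φ y : ℂ)) x * ψ x) := by
        intro j x
        have h4 : dz j (tiprojE Φ 1) x = _ := dz_exp hΦ 1 j x
        have h5 : tiprojE Φ (-1 / 2) x * tiprojE Φ 1 x = tiprojE Φ (1 / 2) x := by
          rw [tiproj_E_mul]; norm_num
        rw [dzb_conj (tiproj_diff hψ1.1 x), map_mul, tiproj_E_conj, Complex.conj_conj,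
          dz_mul (tiproj_diff hψ.1 x) (tiproj_diff hE1 x), h4, ← h5]
        simp only [tiprojE]
        push_cast
        ring
      have h3 : ∀ x, starRingEnd ℂ (starRingEnd ℂ (ψ x * tiprojE Φ 1 x)) * Tst Φ α x *
          (Real.exp (-Φ x) : ℂ) = Tst Φ α x * ψ x := by
        intro x
        have h5 : tiprojE Φ 1 x * tiprojE Φ (-1) x = 1 := by
          rw [tiproj_E_mul, ← tiproj_E_zero Φ x]; norm_num
        rw [Complex.conj_conj, ← tiproj_E_neg]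
        linear_combination Tst Φ α x * ψ x * h5
      have hi2 := fun j => hint j _ (hψ.mul_left (tiproj_phi_smooth hΦ j))
      simp only [h2, h3] at h1
      rw [Finset.sum_congr rfl fun j _ => integral_add (hint j _ (hψ.dz j)) (hi2 j),
        Finset.sum_add_distrib, ← integral_finset_sum _ fun j _ => hi2 j] at h1
      rw [eq_sub_of_add_eq h1, ← integral_sub (tiproj_int (tiproj_mul_right hb hψ.1))
        (integrable_finset_sum _ fun j _ => hi2 j)]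
      refine integral_congr_ae (Filter.Eventually.of_forall fun x => ?_)
      simp only [sub_mul, Finset.sum_mul]
      congr 1
      exact Finset.sum_congr rfl fun j _ => by ring)
  have hm : ∀ j, MemLp (B.indicator (a j)) 2 volume := fun j => (Lp.memLp (a j)).indicator hBm
  have h1 : ∫ x, starRingEnd ℂ (χ x) * Tst Φ α x * (Real.exp (-Φ x) : ℂ) =
      inner ℂ (tiprojVec _ (tiproj_c hΦ hχ.dzb)) (tiprojVec _ hm) := by
    rw [← key χ hχ, tiproj_inner_vec_vec]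
    refine Finset.sum_congr rfl fun j _ =>
      integral_congr_ae (Filter.Eventually.of_forall fun x => ?_)
    by_cases hx : x ∈ B
    · simp only [Set.indicator_of_mem hx]
    · simp only [hχB x hx j, mul_zero, map_zero, zero_mul]
  have h2 : ‖tiprojVec _ (tiproj_c hΦ hχ.dzb)‖ ^ 2 =
      ∫ x, (∑ j, ‖dzb j χ x‖ ^ 2) * Real.exp (-Φ x) := by
    rw [tiproj_norm_vec]
    simp only [tiproj_norm_neg, Finset.sum_mul]
  have h3 : ‖tiprojVec _ hm‖ ^ 2 =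
      ∫ x in B, (∑ j, ‖tiprojE Φ (1 / 2) x * a j x‖ ^ 2) * Real.exp (-Φ x) := by
    rw [tiproj_norm_vec, ← integral_indicator hBm]
    refine integral_congr_ae (Filter.Eventually.of_forall fun x => ?_)
    by_cases hx : x ∈ B
    · simp only [Set.indicator_of_mem hx, Finset.sum_mul, tiproj_norm_pos]
    · simp [Set.indicator_of_notMem hx]
  rw [← h3] at hw
  have h4 : ‖tiprojVec _ hm‖ ^ 2 ≤ κ⁻¹ * ∫ x, ‖Tst Φ α x‖ ^ 2 * Real.exp (-Φ x) := by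
    rw [inv_mul_eq_div, le_div_iff₀ hκ, mul_comm]
    exact hw
  rw [h1, ← h2]
  calc _ ≤ (‖tiprojVec _ (tiproj_c hΦ hχ.dzb)‖ * ‖tiprojVec _ hm‖) ^ 2 :=
        pow_le_pow_left₀ (norm_nonneg _) (norm_inner_le_norm _ _) 2
    _ = ‖tiprojVec _ (tiproj_c hΦ hχ.dzb)‖ ^ 2 * ‖tiprojVec _ hm‖ ^ 2 := mul_pow _ _ _
    _ ≤ ‖tiprojVec _ (tiproj_c hΦ hχ.dzb)‖ ^ 2 *
          (κ⁻¹ * ∫ x, ‖Tst Φ α x‖ ^ 2 * Real.exp (-Φ x)) :=
        mul_le_mul_of_nonneg_left h4 (sq_nonneg _)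
    _ = _ := by ring

end Pool.Agent.Lib.MP_1f047c_nt.TI
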