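import Pool.Agent.Lib.MP_1f047c_nt.TIBoch

open Finset MeasureTheory

namespace Pool.Agent.Lib.MP_1f047c_nt.TI

variable {ι : Type} [Fintype ι] [DecidableEq ι]

/-- Abstract projection step in a Hilbert space. -/
lemma tiproj2_abs {H : Type} [NormedAddCommGroup H] [InnerProductSpace ℂ H] [CompleteSpace H]
    (S : Submodule ℂ H) (c : H) (A : ℝ) (hA : 0 ≤ A)
    (h : ∀ y ∈ S, ‖inner ℂ c y‖ ^ 2 ≤ A * ‖y‖ ^ 2) :
    ∃ u : H, ‖u‖ ^ 2 ≤ A ∧ ∀ y ∈ S, inner ℂ y (c - u) = 0 := by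
  obtain ⟨u, hu, hu2⟩ :=
    Submodule.HasOrthogonalProjection.exists_orthogonal (K := S.topologicalClosure) c
  have hcl : IsClosed {y : H | ‖inner ℂ c y‖ ^ 2 ≤ A * ‖y‖ ^ 2} :=
    isClosed_le (by fun_prop) (by fun_prop)
  have h1 : ‖inner ℂ c u‖ ^ 2 ≤ A * ‖u‖ ^ 2 :=
    closure_minimal (s := (S : Set H)) (fun y hy => h y hy) hcl hu
  have h2 : inner ℂ c u = inner ℂ u u := by
    have e := (Submodule.mem_orthogonal' _ _).1 hu2 u hu
    rw [inner_sub_left] at e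
    exact sub_eq_zero.1 e
  rw [h2, inner_self_eq_norm_sq_to_K] at h1
  have h3 : ‖((‖u‖ : ℝ) : ℂ) ^ 2‖ = ‖u‖ ^ 2 := by
    rw [norm_pow, Complex.norm_real, norm_norm]
  have h4 : (‖u‖ ^ 2) ^ 2 ≤ A * ‖u‖ ^ 2 := by
    rw [← h3]
    rw [← h3] at h1
    exact h1
  refine ⟨u, ?_, fun y hy => (Submodule.mem_orthogonal _ _).1 hu2 y (S.le_topologicalClosure hy)⟩
  by_contra hc
  push Not at hc
  nlinarith

omit [DecidableEq ι] in
lemma tiproj2_test_add {f g : (ι → ℂ) → ℂ} (hf : Test f) (hg : Test g) :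
    Test fun x => f x + g x :=
  ⟨hf.1.add hg.1, hf.2.add hg.2⟩

omit [DecidableEq ι] in
lemma tiproj2_test_zero : Test fun _ : ι → ℂ => (0 : ℂ) :=
  ⟨contDiff_const, HasCompactSupport.zero⟩

lemma tiproj2_test_sum {κ : Type} (s : Finset κ) (f : κ → (ι → ℂ) → ℂ) (hf : ∀ k, Test (f k)) :
    Test fun x => ∑ k ∈ s, f k x := by
  classical
  induction s using Finset.induction_on with
  | empty => simpa using tiproj2_test_zero
  | insert a s ha ih =>
    simp only [Finset.sum_insert ha]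
    exact tiproj2_test_add (hf a) ih

omit [DecidableEq ι] in
lemma tiproj2_ofReal {Φ : (ι → ℂ) → ℝ} (hΦ : ContDiff ℝ (⊤ : ℕ∞) Φ) :
    ContDiff ℝ (⊤ : ℕ∞) fun y => (Φ y : ℂ) :=
  Complex.ofRealCLM.contDiff.comp hΦ

omit [DecidableEq ι] in
lemma tiproj2_exp {Φ : (ι → ℂ) → ℝ} (hΦ : ContDiff ℝ (⊤ : ℕ∞) Φ) (c : ℝ) :
    ContDiff ℝ (⊤ : ℕ∞) fun y => (Real.exp (c * Φ y) : ℂ) :=
  tiproj2_ofReal (Real.contDiff_exp.comp (contDiff_const.mul hΦ))

lemma tiproj2_test_Tst {Φ : (ι → ℂ) → ℝ} (hΦ : ContDiff ℝ (⊤ : ℕ∞) Φ)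
    {α : ι → (ι → ℂ) → ℂ} (hα : ∀ j, Test (α j)) : Test (Tst Φ α) := by
  have h1 : ∀ j, Test fun x => (-1) * dz j (α j) x + dz j (fun y => (Φ y : ℂ)) x * α j x :=
    fun j => tiproj2_test_add (((hα j).dz j).mul_left contDiff_const)
      ((hα j).mul_left (dz_smooth (tiproj2_ofReal hΦ) j))
  have h2 := tiproj2_test_sum Finset.univ _ h1
  have e : Tst Φ α = fun x => ∑ j, ((-1) * dz j (α j) x + dz j (fun y => (Φ y : ℂ)) x * α j x) := by
    funext x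
    rw [Tst, ← Finset.sum_neg_distrib]
    exact Finset.sum_congr rfl fun j _ => by ring
  rw [e]
  exact h2

omit [DecidableEq ι] in
lemma tiproj2_diff {f : (ι → ℂ) → ℂ} (hf : ContDiff ℝ (⊤ : ℕ∞) f) (x : ι → ℂ) :
    DifferentiableAt ℝ f x :=
  (hf.differentiable (by simp)).differentiableAt

lemma tiproj2_dz_add {f g : (ι → ℂ) → ℂ} (hf : Test f) (hg : Test g) (j : ι) (x : ι → ℂ) :
    dz j (fun y => f y + g y) x = dz j f x + dz j g x := by
  unfold dz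
  rw [fderiv_fun_add (tiproj2_diff hf.1 x) (tiproj2_diff hg.1 x)]
  simp only [_root_.add_apply]
  ring

lemma tiproj2_dz_const (c : ℂ) (j : ι) (x : ι → ℂ) : dz j (fun _ => c) x = 0 := by
  unfold dz
  simp

lemma tiproj2_dz_smul {f : (ι → ℂ) → ℂ} (hf : Test f) (c : ℂ) (j : ι) (x : ι → ℂ) :
    dz j (fun y => c * f y) x = c * dz j f x := by
  rw [dz_mul (differentiableAt_const c) (tiproj2_diff hf.1 x), tiproj2_dz_const]
  ring

lemma tiproj2_Tst_add (Φ : (ι → ℂ) → ℝ) {α β : ι → (ι → ℂ) → ℂ} (hα : ∀ j, Test (α j))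
    (hβ : ∀ j, Test (β j)) (x : ι → ℂ) :
    Tst Φ (fun j y => α j y + β j y) x = Tst Φ α x + Tst Φ β x := by
  unfold Tst
  rw [← neg_add, ← Finset.sum_add_distrib]
  congr 1
  refine Finset.sum_congr rfl fun j _ => ?_
  rw [tiproj2_dz_add (hα j) (hβ j)]
  ring

lemma tiproj2_Tst_smul (Φ : (ι → ℂ) → ℝ) {α : ι → (ι → ℂ) → ℂ} (hα : ∀ j, Test (α j))
    (c : ℂ) (x : ι → ℂ) : Tst Φ (fun j y => c * α j y) x = c * Tst Φ α x := by
  unfold Tst
  rw [mul_neg, Finset.mul_sum]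
  congr 1
  refine Finset.sum_congr rfl fun j _ => ?_
  rw [tiproj2_dz_smul (hα j)]
  ring

lemma tiproj2_Tst_zero (Φ : (ι → ℂ) → ℝ) (x : ι → ℂ) : Tst Φ (fun _ _ => 0) x = 0 := by
  unfold Tst
  simp [tiproj2_dz_const]

lemma tiproj2_Tst_single {Φ : (ι → ℂ) → ℝ} (hΦ : ContDiff ℝ (⊤ : ℕ∞) Φ) {ψ : (ι → ℂ) → ℂ}
    (hψ : Test ψ) (j : ι) (x : ι → ℂ) :
    Tst Φ (fun k y => if k = j then (Real.exp (1 * Φ y) : ℂ) * starRingEnd ℂ (ψ y) else 0) x
      = -((Real.exp (1 * Φ x) : ℂ) * starRingEnd ℂ (dzb j ψ x)) := by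
  unfold Tst
  rw [Finset.sum_eq_single j]
  · simp only [if_true]
    rw [dz_mul (tiproj2_diff (tiproj2_exp hΦ 1) x) (tiproj2_diff hψ.conj.1 x), dz_exp hΦ,
      dz_conj (tiproj2_diff hψ.1 x)]
    push_cast
    ring
  · intro k _ hk
    simp only [if_neg hk, tiproj2_dz_const]
    ring
  · intro hj
    exact absurd (Finset.mem_univ j) hj

omit [DecidableEq ι] in
lemma tiproj2_norm_sq (y : Lp ℂ 2 (volume : Measure (ι → ℂ))) :
    ∫ x, ‖y x‖ ^ 2 = ‖y‖ ^ 2 := by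
  have e1 : inner ℂ y y = ((‖y‖ ^ 2 : ℝ) : ℂ) := by
    rw [inner_self_eq_norm_sq_to_K]
    push_cast
    rfl
  have e2 : inner ℂ y y = ((∫ x, ‖y x‖ ^ 2 : ℝ) : ℂ) := by
    rw [L2.inner_def, ← integral_complex_ofReal]
    refine integral_congr_ae (Filter.Eventually.of_forall fun x => ?_)
    simp only
    rw [inner_self_eq_norm_sq_to_K]
    push_cast
    rfl
  exact_mod_cast e2.symm.trans e1

/-- A weak solution from the a priori estimate. -/
theorem weak_sol (Φ : (ι → ℂ) → ℝ) (hΦ : ContDiff ℝ (⊤ : ℕ∞) Φ) (χ : (ι → ℂ) → ℂ) (hχ : Test χ)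
    (A : ℝ) (hA : 0 ≤ A)
    (h : ∀ α : ι → (ι → ℂ) → ℂ, (∀ j, Test (α j)) →
      ‖∫ x, starRingEnd ℂ (χ x) * Tst Φ α x * (Real.exp (-Φ x) : ℂ)‖ ^ 2 ≤
        A * ∫ x, ‖Tst Φ α x‖ ^ 2 * Real.exp (-Φ x)) :
    ∃ g : (ι → ℂ) → ℂ, LocallyIntegrable g volume ∧
      (Integrable fun x => ‖χ x - g x‖ ^ 2 * Real.exp (-Φ x)) ∧
      ∫ x, ‖χ x - g x‖ ^ 2 * Real.exp (-Φ x) ≤ A ∧
      ∀ ψ, Test ψ → ∀ j, ∫ x, g x * dzb j ψ x = 0 := by
  have hm : ∀ f : (ι → ℂ) → ℂ, Test f →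
      MemLp (fun x => (Real.exp ((-1 / 2) * Φ x) : ℂ) * f x) 2 (volume : Measure (ι → ℂ)) := by
    intro f hf
    have := hf.mul_left (tiproj2_exp hΦ (-1 / 2))
    exact this.1.continuous.memLp_of_hasCompactSupport this.2
  have hww : ∀ x, Real.exp ((-1 / 2) * Φ x) * Real.exp ((-1 / 2) * Φ x) = Real.exp (-Φ x) := by
    intro x
    rw [← Real.exp_add]
    congr 1
    ring
  have hwv : ∀ x, Real.exp ((1 / 2) * Φ x) * Real.exp ((1 / 2) * Φ x) * Real.exp (-Φ x) = 1 := by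
    intro x
    rw [← Real.exp_add, ← Real.exp_add, Real.exp_eq_one_iff]
    ring
  have hw1 : ∀ x, Real.exp ((-1 / 2) * Φ x) * Real.exp (1 * Φ x) = Real.exp ((1 / 2) * Φ x) := by
    intro x
    rw [← Real.exp_add]
    congr 1
    ring
  have hw2 : ∀ x, Real.exp ((1 / 2) * Φ x) * Real.exp ((-1 / 2) * Φ x) = 1 := by
    intro x
    rw [← Real.exp_add, Real.exp_eq_one_iff]
    ring
  let S : Submodule ℂ (Lp ℂ 2 (volume : Measure (ι → ℂ))) :=
    { carrier := {y | ∃ α : ι → (ι → ℂ) → ℂ, (∀ j, Test (α j)) ∧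
        (y : (ι → ℂ) → ℂ) =ᵐ[volume] fun x => (Real.exp ((-1 / 2) * Φ x) : ℂ) * Tst Φ α x}
      add_mem' := by
        rintro y z ⟨α, hα, hy⟩ ⟨β, hβ, hz⟩
        refine ⟨fun j x => α j x + β j x, fun j => tiproj2_test_add (hα j) (hβ j), ?_⟩
        filter_upwards [Lp.coeFn_add y z, hy, hz] with x e1 e2 e3
        rw [e1, Pi.add_apply, e2, e3, tiproj2_Tst_add Φ hα hβ, mul_add]
      zero_mem' := by
        refine ⟨fun _ _ => 0, fun _ => tiproj2_test_zero, ?_⟩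
        filter_upwards [Lp.coeFn_zero ℂ 2 (volume : Measure (ι → ℂ))] with x e1
        rw [e1, tiproj2_Tst_zero, mul_zero, Pi.zero_apply]
      smul_mem' := by
        rintro c y ⟨α, hα, hy⟩
        refine ⟨fun j x => c * α j x, fun j => (hα j).mul_left contDiff_const, ?_⟩
        filter_upwards [Lp.coeFn_smul c y, hy] with x e1 e2
        rw [e1, Pi.smul_apply, e2, tiproj2_Tst_smul Φ hα, smul_eq_mul]
        ring }
  have hc := (hm χ hχ).coeFn_toLp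
  generalize (hm χ hχ).toLp = c at hc
  obtain ⟨u, huA, hu⟩ := tiproj2_abs S c A hA (by
    rintro y ⟨α, hα, hy⟩
    have e1 : inner ℂ c y = ∫ x, starRingEnd ℂ (χ x) * Tst Φ α x * (Real.exp (-Φ x) : ℂ) := by
      rw [L2.inner_def]
      refine integral_congr_ae ?_
      filter_upwards [hc, hy] with x e1 e2
      rw [e1, e2, RCLike.inner_apply, map_mul, Complex.conj_ofReal, ← hww x]
      push_cast
      ring
    have e2 : ‖y‖ ^ 2 = ∫ x, ‖Tst Φ α x‖ ^ 2 * Real.exp (-Φ x) := by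
      rw [← tiproj2_norm_sq]
      refine integral_congr_ae ?_
      filter_upwards [hy] with x e2
      rw [e2, norm_mul, Complex.norm_real, Real.norm_of_nonneg (Real.exp_pos _).le, ← hww x]
      ring
    rw [e1, e2]
    exact h α hα)
  have hpt : (fun x => ‖χ x - (χ x - (Real.exp ((1 / 2) * Φ x) : ℂ) * u x)‖ ^ 2 * Real.exp (-Φ x))
      = fun x => ‖u x‖ ^ 2 := by
    funext x
    rw [sub_sub_cancel, norm_mul, Complex.norm_real, Real.norm_of_nonneg (Real.exp_pos _).le]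
    linear_combination ‖u x‖ ^ 2 * hwv x
  refine ⟨fun x => χ x - (Real.exp ((1 / 2) * Φ x) : ℂ) * u x, ?_, ?_, ?_, ?_⟩
  · refine hχ.1.continuous.locallyIntegrable.sub ?_
    rw [← locallyIntegrableOn_univ]
    exact LocallyIntegrableOn.continuousOn_mul
      (((Lp.memLp u).locallyIntegrable (by norm_num)).locallyIntegrableOn _)
      (tiproj2_exp hΦ (1 / 2)).continuous.continuousOn isOpen_univ.isLocallyClosed
  · rw [hpt]
    exact (memLp_two_iff_integrable_sq_norm (Lp.aestronglyMeasurable u)).1 (Lp.memLp u)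
  · rw [hpt, tiproj2_norm_sq]
    exact huA
  · intro ψ hψ j
    have hα : ∀ k, Test fun y => if k = j then
        (Real.exp (1 * Φ y) : ℂ) * starRingEnd ℂ (ψ y) else 0 := by
      intro k
      by_cases hk : k = j
      · simp only [if_pos hk]
        exact hψ.conj.mul_left (tiproj2_exp hΦ 1)
      · simp only [if_neg hk]
        exact tiproj2_test_zero
    have hy := (hm _ (tiproj2_test_Tst hΦ hα)).coeFn_toLp
    generalize (hm _ (tiproj2_test_Tst hΦ hα)).toLp = y at hy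
    have e := hu y ⟨_, hα, hy⟩
    rw [L2.inner_def] at e
    rw [← neg_eq_zero, ← integral_neg, ← e]
    refine integral_congr_ae ?_
    filter_upwards [hy, hc, Lp.coeFn_sub c u] with x e1 e2 e3
    have f1 : ((Real.exp ((-1 / 2) * Φ x) : ℝ) : ℂ) * (Real.exp (1 * Φ x) : ℂ)
        = (Real.exp ((1 / 2) * Φ x) : ℂ) := by exact_mod_cast hw1 x
    have f2 : ((Real.exp ((1 / 2) * Φ x) : ℝ) : ℂ) * (Real.exp ((-1 / 2) * Φ x) : ℂ) = 1 := by
      exact_mod_cast hw2 x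
    rw [e3, Pi.sub_apply, e2, e1, tiproj2_Tst_single hΦ hψ, RCLike.inner_apply, mul_neg,
      ← mul_assoc, f1, map_neg, map_mul, Complex.conj_ofReal, Complex.conj_conj]
    linear_combination (χ x * dzb j ψ x) * f2

end Pool.Agent.Lib.MP_1f047c_nt.TI
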