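import Pool.Agent.Lib.MP_1f047c_nt.TIDefs

open Finset MeasureTheory

namespace Pool.Agent.Lib.MP_1f047c_nt.TI

variable {ι : Type} [Fintype ι] [DecidableEq ι]

omit [Fintype ι] [DecidableEq ι] in
lemma timv_pi (x : ι → ℂ) (ρ : ι → ℝ) :
    pdisc x ρ = Set.pi Set.univ fun j => Metric.closedBall (x j) (ρ j) := by
  ext y
  simp [pdisc, Set.mem_pi, dist_eq_norm]

lemma pdisc_compact (x : ι → ℂ) (ρ : ι → ℝ) : IsCompact (pdisc x ρ) := by
  rw [timv_pi]
  exact isCompact_univ_pi fun j => isCompact_closedBall _ _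

lemma pdisc_volume (x : ι → ℂ) (ρ : ι → ℝ) (hρ : ∀ j, 0 ≤ ρ j) :
    (volume (pdisc x ρ)).toReal = ∏ j, Real.pi * ρ j ^ 2 := by
  rw [timv_pi, volume_pi_pi, ENNReal.toReal_prod]
  refine prod_congr rfl fun j _ => ?_
  rw [Complex.volume_closedBall, ENNReal.toReal_mul, ENNReal.toReal_pow,
    ENNReal.toReal_ofReal (hρ j), ENNReal.coe_toReal, NNReal.coe_real_pi, mul_comm]

omit [DecidableEq ι] in
lemma timv_rot (x : ι → ℂ) (u : Circle) :
    MeasurePreserving (fun y : ι → ℂ => fun j => x j + (u : ℂ) * (y j - x j)) volume volume := by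
  refine measurePreserving_pi (fun _ => volume) (fun _ => volume)
    (f := fun j t => x j + (u : ℂ) * (t - x j)) fun j => ?_
  exact (measurePreserving_add_left volume (x j)).comp
    ((rotation u).measurePreserving.comp (measurePreserving_sub_right volume (x j)))

lemma timv_int {g : (ι → ℂ) → ℂ} (hg : Continuous g) (x : ι → ℂ) (ρ : ι → ℝ) (θ : ℝ) :
    ∫ y in pdisc x ρ, g (x + circleMap 0 1 θ • (y - x)) = ∫ y in pdisc x ρ, g y := by
  have hm := (pdisc_compact x ρ).measurableSet
  have h := timv_rot x (Circle.exp θ)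
  have hpre : (fun y : ι → ℂ => fun j => x j + (Circle.exp θ : ℂ) * (y j - x j)) ⁻¹' pdisc x ρ =
      pdisc x ρ := by
    ext y
    simp [pdisc]
  have h2 := (h.restrict_preimage hm)
  rw [hpre] at h2
  have h3 := integral_map (μ := volume.restrict (pdisc x ρ)) h2.measurable.aemeasurable
    (f := g) hg.aestronglyMeasurable
  rw [h2.map_eq] at h3
  rw [h3]
  refine integral_congr_ae (Filter.Eventually.of_forall fun y => ?_)
  simp only
  congr 1
  ext j
  simp [circleMap]

/-- The mean value property on polydiscs. -/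
theorem mean_eq {g : (ι → ℂ) → ℂ} (hg : Differentiable ℂ g) (x : ι → ℂ) (ρ : ι → ℝ)
    (hρ : ∀ j, 0 ≤ ρ j) :
    ∫ y in pdisc x ρ, g y = ((∏ j, Real.pi * ρ j ^ 2 : ℝ) : ℂ) * g x := by
  have hK := pdisc_compact x ρ
  have hc : Continuous fun p : ℝ × (ι → ℂ) => g (x + circleMap 0 1 p.1 • (p.2 - x)) :=
    hg.continuous.comp (continuous_const.add
      (((continuous_circleMap 0 1).comp continuous_fst).smul (continuous_snd.sub continuous_const)))
  have hint : Integrable (Function.uncurry fun (θ : ℝ) (y : ι → ℂ) =>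
      g (x + circleMap 0 1 θ • (y - x)))
      ((volume.restrict (Set.Ioc 0 (2 * Real.pi))).prod (volume.restrict (pdisc x ρ))) := by
    rw [Measure.prod_restrict]
    exact (hc.continuousOn.integrableOn_compact (isCompact_Icc.prod hK)).mono_set
      (Set.prod_mono Set.Ioc_subset_Icc_self le_rfl)
  have h1 := integral_integral_swap hint
  have hpi : (0 : ℝ) < 2 * Real.pi := by positivity
  have h2 : ∀ y : ι → ℂ, ∫ θ in Set.Ioc 0 (2 * Real.pi), g (x + circleMap 0 1 θ • (y - x)) =
      (2 * Real.pi : ℝ) • g x := by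
    intro y
    have hd : Differentiable ℂ fun t : ℂ => g (x + t • (y - x)) :=
      hg.comp ((differentiable_const _).add (differentiable_id.smul_const _))
    have h3 := (hd.diffContOnCl (s := Metric.ball 0 |(1 : ℝ)|)).circleAverage
    rw [Real.circleAverage_def, intervalIntegral.integral_of_le hpi.le] at h3
    simp only [zero_smul, add_zero] at h3
    rw [← h3, smul_smul, mul_inv_cancel₀ hpi.ne', one_smul]
  simp only [timv_int hg.continuous, h2] at h1
  rw [setIntegral_const, setIntegral_const, Real.volume_real_Ioc_of_le hpi.le, sub_zero,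
    smul_comm, Measure.real, pdisc_volume x ρ hρ] at h1
  have h4 := smul_right_injective ℂ hpi.ne' h1
  rw [h4, Complex.real_smul]

theorem mean_le {g : (ι → ℂ) → ℂ} (hg : Differentiable ℂ g) (x : ι → ℂ) (ρ : ι → ℝ)
    (hρ : ∀ j, 0 ≤ ρ j) : (‖g x‖ * ∏ j, ρ j) ^ 2 ≤ ∫ y in pdisc x ρ, ‖g y‖ ^ 2 := by
  have h := mean_eq (g := fun y => g y ^ 2) (hg.pow 2) x ρ hρ
  have h1 := norm_integral_le_integral_norm (μ := volume.restrict (pdisc x ρ)) fun y => g y ^ 2
  simp only [norm_pow] at h1
  refine le_trans ?_ h1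
  rw [h, norm_mul, norm_pow, Complex.norm_real, Real.norm_of_nonneg (by positivity), mul_pow,
    mul_comm, ← prod_pow]
  refine mul_le_mul_of_nonneg_right (prod_le_prod (fun j _ => by positivity) fun j _ => ?_)
    (by positivity)
  nlinarith [Real.pi_gt_three, sq_nonneg (ρ j)]

lemma diff_of_dzb {g : (ι → ℂ) → ℂ} (hg : Differentiable ℝ g) (h : ∀ j x, dzb j g x = 0) :
    Differentiable ℂ g := by
  intro x
  set L := fderiv ℝ g x with hL
  have h1 : ∀ j, L (Pi.single j Complex.I) = Complex.I * L (Pi.single j 1) := by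
    intro j
    have := h j x
    simp only [dzb, div_eq_zero_iff, OfNat.ofNat_ne_zero, or_false] at this
    rw [← hL] at this
    linear_combination (-Complex.I) * this + L (Pi.single j Complex.I) * Complex.I_mul_I
  have h2 : ∀ j (c : ℂ), L (Pi.single j c) = c * L (Pi.single j 1) := by
    intro j c
    have : (Pi.single j c : ι → ℂ) =
        c.re • (Pi.single j 1 : ι → ℂ) + c.im • (Pi.single j Complex.I : ι → ℂ) := by
      rw [← Pi.single_smul, ← Pi.single_smul, ← Pi.single_add]
      congr 1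
      simp
    rw [this, map_add, map_smul, map_smul, h1, Complex.real_smul, Complex.real_smul]
    conv_rhs => rw [← Complex.re_add_im c]
    ring
  let L' : (ι → ℂ) →L[ℂ] ℂ := ∑ j, L (Pi.single j 1) • ContinuousLinearMap.proj j
  have h3 : L'.restrictScalars ℝ = L := by
    refine ContinuousLinearMap.ext fun v => ?_
    conv_rhs => rw [← Finset.univ_sum_single v, map_sum]
    simp only [L', ContinuousLinearMap.coe_restrictScalars', ContinuousLinearMap.sum_apply,
      ContinuousLinearMap.smul_apply, ContinuousLinearMap.proj_apply, smul_eq_mul]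
    exact sum_congr rfl fun j _ => by rw [h2 j (v j), mul_comm]
  exact (hasFDerivAt_of_restrictScalars ℝ (hg x).hasFDerivAt h3).differentiableAt

end Pool.Agent.Lib.MP_1f047c_nt.TI
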