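import Pool.Agent.Lib.MP_1f047c_nt.TIConv
import Pool.Agent.Lib.MP_1f047c_nt.TIMV

open Finset MeasureTheory

namespace Pool.Agent.Lib.MP_1f047c_nt.TI

variable {ι : Type} [Fintype ι] [DecidableEq ι]

/-- A bump function on the real line. -/
def tiweyl_b : ContDiffBump (0 : ℝ) := ⟨1, 2, one_pos, one_lt_two⟩

/-- A smooth kernel which is invariant under rotations. -/
noncomputable def tiweyl_k (u : ι → ℂ) : ℂ := (tiweyl_b (∑ j, ‖u j‖ ^ 2) : ℝ)

omit [DecidableEq ι] in
lemma tiweyl_sq : ContDiff ℝ (⊤ : ℕ∞) fun u : ι → ℂ => ∑ j, ‖u j‖ ^ 2 :=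
  ContDiff.sum fun j _ => (contDiff_norm_sq ℝ).comp (contDiff_apply ℝ ℂ j)

omit [DecidableEq ι] in
lemma tiweyl_zero {u : ι → ℂ} (hu : u ∉ Metric.closedBall (0 : ι → ℂ) 2) :
    tiweyl_b (∑ j, ‖u j‖ ^ 2) = 0 := by
  rw [mem_closedBall_zero_iff, pi_norm_le_iff_of_nonneg (by norm_num)] at hu
  push Not at hu
  obtain ⟨j, hj⟩ := hu
  apply tiweyl_b.zero_of_le_dist
  have h1 : ‖u j‖ ^ 2 ≤ ∑ j, ‖u j‖ ^ 2 :=
    single_le_sum (f := fun j => ‖u j‖ ^ 2) (fun i _ => by positivity) (mem_univ j)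
  rw [Real.dist_eq, sub_zero]
  refine le_trans ?_ (le_abs_self _)
  show (2 : ℝ) ≤ _
  nlinarith

omit [DecidableEq ι] in
lemma tiweyl_test : Test (tiweyl_k : (ι → ℂ) → ℂ) := by
  refine ⟨Complex.ofRealCLM.contDiff.comp (tiweyl_b.contDiff.comp tiweyl_sq), ?_⟩
  refine HasCompactSupport.intro (isCompact_closedBall (0 : ι → ℂ) 2) fun u hu => ?_
  rw [tiweyl_k, tiweyl_zero hu, Complex.ofReal_zero]

omit [DecidableEq ι] in
lemma tiweyl_int : ∫ u : ι → ℂ, tiweyl_k u ≠ 0 := by
  unfold tiweyl_k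
  rw [integral_complex_ofReal, Complex.ofReal_ne_zero]
  refine (Continuous.integral_pos_of_hasCompactSupport_nonneg_nonzero (x := 0)
    (tiweyl_b.continuous.comp tiweyl_sq.continuous) ?_ (fun u => tiweyl_b.nonneg) ?_).ne'
  · exact HasCompactSupport.intro (isCompact_closedBall (0 : ι → ℂ) 2) fun u hu => tiweyl_zero hu
  · have : tiweyl_b (0 : ℝ) = 1 :=
      tiweyl_b.one_of_mem_closedBall (Metric.mem_closedBall_self tiweyl_b.rIn_pos.le)
    simp [this]

omit [DecidableEq ι] in
lemma tiweyl_rot (F : (ι → ℂ) → ℂ) (t : Circle) :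
    ∫ u : ι → ℂ, F ((t : ℂ) • u) = ∫ u, F u := by
  have h1 : MeasurePreserving (fun (u : ι → ℂ) j => rotation t (u j)) volume volume :=
    volume_preserving_pi fun _ => (rotation t).measurePreserving
  have h2 : (fun (u : ι → ℂ) j => rotation t (u j)) = fun u : ι → ℂ => (t : ℂ) • u := by
    funext u j
    simp
  rw [h2] at h1
  exact h1.integral_comp (Homeomorph.smulOfNeZero (t : ℂ) t.coe_ne_zero).measurableEmbedding F

omit [DecidableEq ι] in
/-- The mean value property for the invariant kernel. -/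
lemma tiweyl_mean {f : (ι → ℂ) → ℂ} (hf : Differentiable ℂ f) (x : ι → ℂ) :
    ∫ u, f (x - u) * tiweyl_k u = f x * ∫ u : ι → ℂ, tiweyl_k u := by
  have hk : Continuous (tiweyl_k : (ι → ℂ) → ℂ) := tiweyl_test.1.continuous
  have h1 : ∀ θ : ℝ, ∫ u, f (x - circleMap 0 1 θ • u) * tiweyl_k u =
      ∫ u, f (x - u) * tiweyl_k u := by
    intro θ
    rw [← tiweyl_rot (fun u => f (x - u) * tiweyl_k u) (Circle.exp θ)]
    refine integral_congr_ae (Filter.Eventually.of_forall fun u => ?_)
    have e : circleMap 0 1 θ = (Circle.exp θ : ℂ) := by simp [circleMap]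
    have e2 : tiweyl_k ((Circle.exp θ : ℂ) • u) = tiweyl_k u := by
      simp [tiweyl_k]
    simp only [e, e2]
  have hc : Continuous (Function.uncurry fun (θ : ℝ) (u : ι → ℂ) =>
      f (x - circleMap 0 1 θ • u) * tiweyl_k u) := by
    refine Continuous.mul (hf.continuous.comp (continuous_const.sub ?_)) (hk.comp continuous_snd)
    exact ((continuous_circleMap 0 1).comp continuous_fst).smul continuous_snd
  have hint : Integrable (Function.uncurry fun (θ : ℝ) (u : ι → ℂ) =>
      f (x - circleMap 0 1 θ • u) * tiweyl_k u)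
      ((volume.restrict (Set.uIoc 0 (2 * Real.pi))).prod volume) := by
    have e : ((volume : Measure ℝ).restrict (Set.uIoc 0 (2 * Real.pi))).prod
        (volume : Measure (ι → ℂ)) =
        ((volume : Measure ℝ).prod (volume : Measure (ι → ℂ))).restrict
          (Set.uIoc 0 (2 * Real.pi) ×ˢ Set.univ) := by
      rw [← Measure.prod_restrict, Measure.restrict_univ]
    rw [e]
    have hK : IsCompact (Set.uIcc 0 (2 * Real.pi) ×ˢ Metric.closedBall (0 : ι → ℂ) 2) :=
      isCompact_uIcc.prod (isCompact_closedBall _ _)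
    refine IntegrableOn.of_forall_sdiff_eq_zero (hc.continuousOn.integrableOn_compact hK)
      (measurableSet_uIoc.prod MeasurableSet.univ) ?_
    rintro ⟨θ, u⟩ ⟨h2, h3⟩
    have hu : u ∉ Metric.closedBall (0 : ι → ℂ) 2 := fun hu =>
      h3 ⟨Set.uIoc_subset_uIcc h2.1, hu⟩
    simp [tiweyl_k, tiweyl_zero hu]
  have h2 := intervalIntegral_integral_swap hint
  simp only [h1] at h2
  have h3 : ∀ u : ι → ℂ, ∫ θ in (0 : ℝ)..2 * Real.pi, f (x - circleMap 0 1 θ • u) * tiweyl_k u =
      (2 * Real.pi : ℝ) • (f x * tiweyl_k u) := by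
    intro u
    have hd : Differentiable ℂ fun t : ℂ => f (x - t • u) * tiweyl_k u :=
      (hf.comp ((differentiable_const x).sub (differentiable_id.smul_const u))).mul_const _
    have h4 := (hd.diffContOnCl (s := Metric.ball 0 |(1 : ℝ)|)).circleAverage
    rw [Real.circleAverage_def] at h4
    simp only [zero_smul, sub_zero] at h4
    rw [← h4, smul_smul, mul_inv_cancel₀ (by positivity), one_smul]
  simp only [h3] at h2
  rw [intervalIntegral.integral_const, sub_zero, integral_smul, integral_const_mul] at h2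
  exact smul_right_injective ℂ (by positivity : (2 * Real.pi : ℝ) ≠ 0) h2

open scoped Convolution in
omit [DecidableEq ι] in
lemma tiweyl_assoc {g a b : (ι → ℂ) → ℂ} (hg : LocallyIntegrable g volume) (ha : Continuous a)
    (ha' : HasCompactSupport a) (hb : Continuous b) (hb' : HasCompactSupport b) (x : ι → ℂ) :
    ((g ⋆[ContinuousLinearMap.mul ℝ ℂ, volume] a) ⋆[ContinuousLinearMap.mul ℝ ℂ, volume] b) x =
      (g ⋆[ContinuousLinearMap.mul ℝ ℂ, volume] a ⋆[ContinuousLinearMap.mul ℝ ℂ, volume] b) x := by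
  have hgn : LocallyIntegrable (fun x => ‖g x‖) volume := fun y => by
    obtain ⟨s, hs, h⟩ := hg y
    exact ⟨s, hs, h.norm⟩
  refine convolution_assoc _ _ _ _ (fun x y z => mul_assoc x y z) hg.aestronglyMeasurable
    ha.aestronglyMeasurable hb.aestronglyMeasurable
    (Filter.Eventually.of_forall fun y => ha'.convolutionExists_right _ hg ha y)
    (Filter.Eventually.of_forall fun y =>
      hb'.norm.convolutionExists_right _ ha.norm.locallyIntegrable hb.norm y) ?_
  exact (HasCompactSupport.convolution _ ha'.norm hb'.norm).convolutionExists_right _ hgn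
    (hb'.norm.continuous_convolution_right _ ha.norm.locallyIntegrable hb.norm) x

open scoped Convolution in
lemma tiweyl_dzb {g a : (ι → ℂ) → ℂ} (hg : LocallyIntegrable g volume) (ha : Test a)
    (h : ∀ ψ, Test ψ → ∀ j, ∫ x, g x * dzb j ψ x = 0) (j : ι) (x : ι → ℂ) :
    dzb j (g ⋆[ContinuousLinearMap.mul ℝ ℂ, volume] a) x = 0 := by
  have h1 : ContDiff ℝ 1 a := ha.1.of_le (by exact_mod_cast le_top)
  have hd := (ha.2.hasFDerivAt_convolution_right (ContinuousLinearMap.mul ℝ ℂ) hg h1 x).fderiv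
  have hc : Continuous (fderiv ℝ a) := h1.continuous_fderiv one_ne_zero
  have hs : HasCompactSupport (fderiv ℝ a) := ha.2.fderiv ℝ
  have hv : ∀ v, fderiv ℝ (g ⋆[ContinuousLinearMap.mul ℝ ℂ, volume] a) x v =
      ∫ y, g y * fderiv ℝ a (x - y) v := by
    intro v
    rw [hd, convolution_precompR_apply _ hg hs hc]
    rfl
  have hi : ∀ v, Integrable (fun y => g y * fderiv ℝ a (x - y) v) volume := fun v =>
    (ha.2.fderiv_apply ℝ v).convolutionExists_right (ContinuousLinearMap.mul ℝ ℂ) hg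
      (hc.clm_apply continuous_const) x
  have hψ : Test fun y => a (x - y) :=
    ⟨ha.1.comp (contDiff_const.sub contDiff_id),
      ha.2.comp_homeomorph (Homeomorph.subLeft x)⟩
  have hψd : ∀ y v, fderiv ℝ (fun y => a (x - y)) y v = -fderiv ℝ a (x - y) v := by
    intro y v
    have h2 : HasFDerivAt (fun y : ι → ℂ => x - y) (-ContinuousLinearMap.id ℝ (ι → ℂ)) y :=
      (hasFDerivAt_id y).const_sub x
    have h3 := ((h1.differentiable one_ne_zero (x - y)).hasFDerivAt.comp y h2).fderiv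
    have h4 : (fun y => a (x - y)) = a ∘ fun y : ι → ℂ => x - y := rfl
    rw [h4, h3]
    simp
  have h5 := h _ hψ j
  have h6 : ∀ y, g y * dzb j (fun y => a (x - y)) y =
      -(1 / 2) * (g y * fderiv ℝ a (x - y) (Pi.single j 1) +
        Complex.I * (g y * fderiv ℝ a (x - y) (Pi.single j Complex.I))) := by
    intro y
    rw [dzb, hψd, hψd]
    ring
  simp only [h6] at h5
  rw [integral_const_mul, integral_add (hi _) ((hi _).const_mul _), integral_const_mul] at h5
  rw [dzb, hv, hv]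
  linear_combination -h5

open scoped Convolution in
/-- Weakly holomorphic functions are holomorphic. -/
theorem weyl {g : (ι → ℂ) → ℂ} (hg : LocallyIntegrable g volume)
    (h : ∀ ψ, Test ψ → ∀ j, ∫ x, g x * dzb j ψ x = 0) :
    ∃ P : (ι → ℂ) → ℂ, Differentiable ℂ P ∧ ∀ᵐ x, g x = P x := by
  set Q := g ⋆[ContinuousLinearMap.mul ℝ ℂ, volume] (tiweyl_k : (ι → ℂ) → ℂ) with hQ
  set c := ∫ u : ι → ℂ, tiweyl_k u with hc
  have hc0 : c ≠ 0 := tiweyl_int
  have hent : ∀ a : (ι → ℂ) → ℂ, Test a →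
      Differentiable ℂ (g ⋆[ContinuousLinearMap.mul ℝ ℂ, volume] a) := fun a ha =>
    diff_of_dzb ((ha.2.contDiff_convolution_right _ hg ha.1).differentiable (by simp))
      (tiweyl_dzb hg ha h)
  have hQd : Differentiable ℂ Q := hent _ tiweyl_test
  have key : ∀ k x, mol k Q x = mol k g x * c := by
    intro k x
    set β : (ι → ℂ) → ℂ := fun u => ((bump ι k).normed volume u : ℝ) with hβ
    have hβt : Test β :=
      ⟨Complex.ofRealCLM.contDiff.comp (bump ι k).contDiff_normed,
        (bump ι k).hasCompactSupport_normed.comp_left (g := fun r : ℝ => (r : ℂ))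
          Complex.ofReal_zero⟩
    have e1 : ∀ f : (ι → ℂ) → ℂ, mol k f = f ⋆[ContinuousLinearMap.mul ℝ ℂ, volume] β :=
      fun f => rfl
    have e2 : (tiweyl_k : (ι → ℂ) → ℂ) ⋆[ContinuousLinearMap.mul ℝ ℂ, volume] β =
        β ⋆[ContinuousLinearMap.mul ℝ ℂ, volume] tiweyl_k := by
      rw [← convolution_flip]
      congr 1
      exact ContinuousLinearMap.flip_mul
    rw [e1, e1, hQ, tiweyl_assoc hg tiweyl_test.1.continuous tiweyl_test.2 hβt.1.continuous hβt.2,
      e2, ← tiweyl_assoc hg hβt.1.continuous hβt.2 tiweyl_test.1.continuous tiweyl_test.2,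
      convolution_eq_swap]
    exact tiweyl_mean (hent β hβt) x
  refine ⟨fun x => Q x * c⁻¹, hQd.mul_const c⁻¹, ?_⟩
  filter_upwards [mol_ae hg, mol_ae hQd.continuous.locallyIntegrable] with x h1 h2
  simp only [key] at h2
  rw [← tendsto_nhds_unique (h1.mul_const c) h2, mul_inv_cancel_right₀ hc0]

end Pool.Agent.Lib.MP_1f047c_nt.TI
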