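import Pool.Agent.Lib.MP_1f047c_nt.TIMoll
import Pool.Agent.Lib.MP_1f047c_nt.TIProj
import Pool.Agent.Lib.MP_1f047c_nt.TIProj2
import Pool.Agent.Lib.MP_1f047c_nt.TIWeyl

open Finset MeasureTheory

namespace Pool.Agent.Lib.MP_1f047c_nt.TI

/-- A cut-off function with bounds that do not depend on its centre. -/
lemma tibomb_cut (ι : Type) [Fintype ι] [DecidableEq ι] (r : ℝ) (hr : 0 < r) :
    ∃ M : ℝ, 0 ≤ M ∧ ∀ q : ι → ℂ, ∃ χ : (ι → ℂ) → ℂ, Test χ ∧ (∀ x, ‖χ x‖ ≤ 1) ∧
      (∀ x, ‖x - q‖ ≤ r / 2 → χ x = 1) ∧ (∀ x, r ≤ ‖x - q‖ → χ x = 0) ∧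
      ∀ x, ∑ j, ‖dzb j χ x‖ ^ 2 ≤ M := by
  let b : ContDiffBump (0 : ι → ℂ) := ⟨r / 2, r, half_pos hr, half_lt_self hr⟩
  let χ₁ : (ι → ℂ) → ℂ := fun x => (b x : ℂ)
  have hT : Test χ₁ :=
    ⟨Complex.ofRealCLM.contDiff.comp b.contDiff,
      b.hasCompactSupport.comp_left (g := fun t : ℝ => (t : ℂ)) Complex.ofReal_zero⟩
  have hbd : ∀ j, ∃ C, ∀ x, ‖dzb j χ₁ x‖ ≤ C := fun j =>
    (hT.dzb j).1.continuous.bounded_above_of_compact_support (hT.dzb j).2
  choose C hC using hbd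
  refine ⟨∑ j, C j ^ 2, Finset.sum_nonneg fun j _ => sq_nonneg _, fun q => ?_⟩
  refine ⟨fun x => χ₁ (x - q), ⟨hT.1.comp (contDiff_id.sub contDiff_const), ?_⟩, ?_, ?_, ?_, ?_⟩
  · exact hT.2.comp_homeomorph (Homeomorph.subRight q)
  · intro x
    simp only [χ₁, Complex.norm_real, Real.norm_eq_abs]
    rw [abs_of_nonneg b.nonneg]
    exact b.le_one
  · intro x hx
    have : b (x - q) = 1 := b.one_of_mem_closedBall (by simpa [b] using hx)
    simp [χ₁, this]
  · intro x hx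
    have : b (x - q) = 0 := b.zero_of_le_dist (by simpa [b] using hx)
    simp [χ₁, this]
  · intro x
    refine Finset.sum_le_sum fun j _ => ?_
    have e : dzb j (fun x => χ₁ (x - q)) x = dzb j χ₁ (x - q) := by
      simp only [dzb, fderiv_comp_sub]
    rw [e]
    exact pow_le_pow_left₀ (norm_nonneg _) (hC j _) 2

lemma tibomb_dzb_zero {ι : Type} [Fintype ι] [DecidableEq ι] {χ : (ι → ℂ) → ℂ} {x : ι → ℂ}
    {c : ℂ} (h : ∀ᶠ y in nhds x, χ y = c) (j : ι) : dzb j χ x = 0 := by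
  have h' : χ =ᶠ[nhds x] fun _ => c := h
  simp [dzb, h'.fderiv_eq]

/-- Existence of entire functions with prescribed growth, in pointwise form. -/
theorem bombieri (ι : Type) [Fintype ι] [DecidableEq ι] (r κ : ℝ) (hr : 0 < r) (hκ : 0 < κ) :
    ∃ C₀ : ℝ, 0 < C₀ ∧ ∀ (q : ι → ℂ) (U : (ι → ℂ) → ℝ) (B δ : ℝ), Continuous U → 0 < δ →
      δ ≤ r / 4 → (∀ x, SubM U x fun _ => 0) →
      (∀ x, ‖x - q‖ < 2 * r → SubM U x fun v => κ * ∑ j, ‖v j‖ ^ 2) →
      (∀ x, r / 4 ≤ ‖x - q‖ → ‖x - q‖ ≤ 2 * r → -B ≤ U x) →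
      ∃ Ψ : (ι → ℂ) → ℂ, Differentiable ℂ Ψ ∧ ∀ (x₀ : ι → ℂ) (ρ : ι → ℝ) (β : ℝ),
        (∀ j, 0 < ρ j) → (∀ x ∈ pdisc x₀ fun j => ρ j + δ, U x ≤ β) →
        ‖Ψ x₀‖ * ∏ j, ρ j ≤ C₀ * (Real.exp (B + β) + ∏ j, ρ j) ∧
        ((∀ x ∈ pdisc x₀ ρ, r ≤ ‖x - q‖) → ‖Ψ x₀‖ * ∏ j, ρ j ≤ C₀ * Real.exp (B + β)) ∧
        ((∀ x ∈ pdisc x₀ ρ, ‖x - q‖ ≤ r / 2) →
          ‖Ψ x₀ - 1‖ * ∏ j, ρ j ≤ C₀ * Real.exp (B + β)) := by
  obtain ⟨M, hM, hcut⟩ := tibomb_cut ι r hr
  set V : ℝ := (volume : Measure (ι → ℂ)).real (Metric.closedBall 0 r) with hV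
  have hV0 : 0 ≤ V := measureReal_nonneg
  set A₀ : ℝ := (2 * κ)⁻¹ * (M * V) with hA₀
  have hA₀0 : 0 ≤ A₀ := by positivity
  set p : ℝ := Real.pi ^ Fintype.card ι with hp
  have hp0 : 0 ≤ p := by positivity
  refine ⟨2 * A₀ + 2 * p + 1, by positivity, ?_⟩
  intro q U B δ hU hδ hδr h0 h1 hB
  obtain ⟨χ, hχ, hχ1, hin, hout, hχM⟩ := hcut q
  obtain ⟨Φ, hΦ, hL, hL', hup, hlow⟩ := smoothing U hU h0 q r κ δ hδ
    fun x hx => h1 x (by linarith)
  let S : Set (ι → ℂ) := {x | r / 2 ≤ ‖x - q‖ ∧ ‖x - q‖ ≤ r}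
  have hcn : Continuous fun x : ι → ℂ => ‖x - q‖ := by fun_prop
  have hSc : IsClosed S :=
    (isClosed_le continuous_const hcn).inter (isClosed_le hcn continuous_const)
  have hS0 : ∀ x, x ∉ S → ∀ j, dzb j χ x = 0 := by
    intro x hx j
    by_cases h : r / 2 ≤ ‖x - q‖
    · have h' : r < ‖x - q‖ := not_le.1 fun h' => hx ⟨h, h'⟩
      refine tibomb_dzb_zero (c := 0) ?_ j
      filter_upwards [(isOpen_lt continuous_const hcn).mem_nhds h'] with y hy
      exact hout y (le_of_lt hy)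
    · refine tibomb_dzb_zero (c := 1) ?_ j
      filter_upwards [(isOpen_lt hcn continuous_const).mem_nhds (not_le.1 h)] with y hy
      exact hin y (le_of_lt hy)
  have hΦS : ∀ x ∈ S, Real.exp (-Φ x) ≤ Real.exp (2 * B) := by
    intro x hx
    have := hlow x (-B) fun y hy => by
      have e1 : ‖y - q‖ ≤ ‖y - x‖ + ‖x - q‖ := norm_sub_le_norm_sub_add_norm_sub y x q
      have e2 : ‖x - q‖ ≤ ‖x - y‖ + ‖y - q‖ := norm_sub_le_norm_sub_add_norm_sub x y q
      rw [norm_sub_rev x y] at e2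
      exact hB y (by linarith [hx.1]) (by linarith [hx.2])
    exact Real.exp_le_exp.2 (by linarith)
  have hint : ∫ x, (∑ j, ‖dzb j χ x‖ ^ 2) * Real.exp (-Φ x) ≤ M * V * Real.exp (2 * B) := by
    have hball : MeasurableSet (Metric.closedBall q r) := Metric.isClosed_closedBall.measurableSet
    have hfin : volume (Metric.closedBall q r) ≠ ⊤ :=
      (isCompact_closedBall q r).measure_lt_top.ne
    calc ∫ x, (∑ j, ‖dzb j χ x‖ ^ 2) * Real.exp (-Φ x)
        ≤ ∫ x, (Metric.closedBall q r).indicator (fun _ => M * Real.exp (2 * B)) x := by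
          refine integral_mono_of_nonneg (ae_of_all _ fun x => by positivity)
            ((integrableOn_const hfin).integrable_indicator hball) (ae_of_all _ fun x => ?_)
          by_cases hx : x ∈ S
          · have hx' : x ∈ Metric.closedBall q r := by
              rw [Metric.mem_closedBall, dist_eq_norm]; exact hx.2
            simp only [Set.indicator_of_mem hx']
            exact mul_le_mul (hχM x) (hΦS x hx) (Real.exp_pos _).le hM
          · simp only [hS0 x hx, norm_zero, ne_eq, OfNat.ofNat_ne_zero, not_false_eq_true,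
              zero_pow, Finset.sum_const_zero, zero_mul]
            exact Set.indicator_nonneg (fun _ _ => by positivity) x
      _ = M * V * Real.exp (2 * B) := by
          rw [integral_indicator_const _ hball, smul_eq_mul, hV, Measure.real, Measure.real,
            Measure.addHaar_closedBall_center volume q r]
          ring
  obtain ⟨g, hgl, hgi, hgA, hgw⟩ := weak_sol Φ hΦ χ hχ (A₀ * Real.exp (2 * B)) (by positivity)
    fun α hα => by
      refine (apriori Φ hΦ hL (2 * κ) (by positivity) S hSc.measurableSet (‖q‖ + r)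
        (fun x hx => ?_) (fun x hx v => hL' x v hx.2) χ hχ hS0 α hα).trans ?_
      · have := norm_sub_norm_le x q
        linarith [hx.2]
      · refine mul_le_mul_of_nonneg_right ?_ (integral_nonneg fun x => by positivity)
        rw [hA₀, mul_assoc (2 * κ)⁻¹]
        exact mul_le_mul_of_nonneg_left hint (by positivity)
  obtain ⟨P, hP, hgP⟩ := weyl hgl hgw
  refine ⟨P, hP, fun x₀ ρ β hρ hβ => ?_⟩
  have hρ0 : ∀ j, 0 ≤ ρ j := fun j => (hρ j).le
  have hK := pdisc_compact x₀ ρ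
  have hKm := hK.measurableSet
  set e := Real.exp (B + β) with he
  have he0 : 0 < e := Real.exp_pos _
  set R := ∏ j, ρ j with hR
  have hR0 : 0 ≤ R := Finset.prod_nonneg fun j _ => hρ0 j
  have hcd : Continuous fun x => ‖χ x - P x‖ ^ 2 :=
    ((hχ.1.continuous.sub hP.continuous).norm).pow 2
  have hid : IntegrableOn (fun x => ‖χ x - P x‖ ^ 2) (pdisc x₀ ρ) volume :=
    hcd.continuousOn.integrableOn_compact hK
  have key : ∫ x in pdisc x₀ ρ, ‖χ x - P x‖ ^ 2 ≤ A₀ * e ^ 2 := by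
    calc ∫ x in pdisc x₀ ρ, ‖χ x - P x‖ ^ 2
        ≤ ∫ x in pdisc x₀ ρ, Real.exp (2 * β) * (‖χ x - g x‖ ^ 2 * Real.exp (-Φ x)) := by
          refine setIntegral_mono_on_ae hid (hgi.const_mul _).integrableOn hKm ?_
          filter_upwards [hgP] with x hx hxK
          have hΦx : Φ x ≤ 2 * β := hup x β fun y hy => hβ y fun j => by
            have e1 : ‖y j - x j‖ ≤ δ := (norm_le_pi_norm (y - x) j).trans hy
            have e2 := norm_sub_le_norm_sub_add_norm_sub (y j) (x j) (x₀ j)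
            linarith [hxK j]
          have h2 : 1 ≤ Real.exp (2 * β) * Real.exp (-Φ x) := by
            rw [← Real.exp_add]
            exact Real.one_le_exp (by linarith)
          rw [hx]
          nlinarith [sq_nonneg ‖χ x - P x‖]
      _ ≤ ∫ x, Real.exp (2 * β) * (‖χ x - g x‖ ^ 2 * Real.exp (-Φ x)) :=
          setIntegral_le_integral (hgi.const_mul _) (ae_of_all _ fun x => by positivity)
      _ ≤ Real.exp (2 * β) * (A₀ * Real.exp (2 * B)) := by
          rw [integral_const_mul]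
          exact mul_le_mul_of_nonneg_left hgA (Real.exp_pos _).le
      _ = A₀ * e ^ 2 := by
          rw [he, ← Real.exp_nat_mul, show ((2 : ℕ) : ℝ) * (B + β) = 2 * β + 2 * B by
            push_cast; ring, Real.exp_add]
          ring
  set C₀ := 2 * A₀ + 2 * p + 1 with hC₀
  have hC1 : 1 ≤ C₀ := by linarith
  have hC2 : C₀ ≤ C₀ ^ 2 := by nlinarith
  have hAe : A₀ * e ^ 2 ≤ (C₀ * e) ^ 2 := by
    rw [mul_pow]
    exact mul_le_mul_of_nonneg_right (by linarith) (sq_nonneg _)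
  refine ⟨?_, fun h => ?_, fun h => ?_⟩
  · have hfin : volume (pdisc x₀ ρ) ≠ ⊤ := hK.measure_lt_top.ne
    have hvol : (volume : Measure (ι → ℂ)).real (pdisc x₀ ρ) = p * R ^ 2 := by
      rw [Measure.real, pdisc_volume x₀ ρ hρ0, Finset.prod_mul_distrib, Finset.prod_const,
        Finset.prod_pow, Finset.card_univ]
    have h2 : ∫ y in pdisc x₀ ρ, ‖P y‖ ^ 2 ≤ 2 * (A₀ * e ^ 2) + 2 * (p * R ^ 2) := by
      calc ∫ y in pdisc x₀ ρ, ‖P y‖ ^ 2
          ≤ ∫ y in pdisc x₀ ρ, (2 * ‖χ y - P y‖ ^ 2 + 2) := by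
            refine setIntegral_mono_on
              ((hP.continuous.norm.pow 2).continuousOn.integrableOn_compact hK)
              ((hid.const_mul 2).add (integrableOn_const hfin)) hKm fun y _ => ?_
            have e1 : ‖P y‖ ≤ ‖χ y - P y‖ + 1 := by
              have := norm_sub_le (χ y) (χ y - P y)
              rw [sub_sub_cancel] at this
              linarith [hχ1 y]
            nlinarith [norm_nonneg (P y), norm_nonneg (χ y - P y), sq_nonneg (‖χ y - P y‖ - 1)]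
        _ = 2 * (∫ y in pdisc x₀ ρ, ‖χ y - P y‖ ^ 2) + 2 * (p * R ^ 2) := by
            rw [integral_add (hid.const_mul 2) (integrableOn_const hfin), integral_const_mul,
              setIntegral_const, hvol, smul_eq_mul]
            ring
        _ ≤ _ := by linarith
    refine (abs_le_of_sq_le_sq' ((mean_le hP x₀ ρ hρ0).trans (h2.trans ?_)) (by positivity)).2
    have h3 : 2 * A₀ ≤ C₀ ^ 2 := by linarith
    have h4 : 2 * p ≤ C₀ ^ 2 := by linarith
    have h5 := mul_le_mul_of_nonneg_right h3 (sq_nonneg e)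
    have h6 := mul_le_mul_of_nonneg_right h4 (sq_nonneg R)
    have h7 : 0 ≤ C₀ ^ 2 * (e * R) := by positivity
    nlinarith
  · refine (abs_le_of_sq_le_sq' ((mean_le hP x₀ ρ hρ0).trans
      (le_trans (le_of_eq ?_) (key.trans hAe))) (by positivity)).2
    refine setIntegral_congr_fun hKm fun y hy => ?_
    simp only [hout y (h y hy), zero_sub, norm_neg]
  · refine (abs_le_of_sq_le_sq' ((mean_le (hP.sub_const 1) x₀ ρ hρ0).trans
      (le_trans (le_of_eq ?_) (key.trans hAe))) (by positivity)).2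
    refine setIntegral_congr_fun hKm fun y hy => ?_
    simp only [hin y (h y hy), norm_sub_rev]

end Pool.Agent.Lib.MP_1f047c_nt.TI
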