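import Pool.Agent.Lib.MP_1f047c_nt.TIPk2

open Finset MeasureTheory

namespace Pool.Agent.Lib.MP_1f047c_nt.TI

/-- The integer matrix which kills the vector `v`. -/
def tichild_p {κ : Type} [DecidableEq κ] (v : κ → ℤ) (j₀ : κ) : {j // j ≠ j₀} → κ → ℤ :=
  fun j k => (if k = j.1 then v j₀ else 0) - (if k = j₀ then v j.1 else 0)

/-- A section of the matrix `tichild_p`. -/
noncomputable def tichild_L {κ : Type} [DecidableEq κ] (v : κ → ℤ) (j₀ : κ) :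
    ({j // j ≠ j₀} → ℂ) →ₗ[ℂ] (κ → ℂ) where
  toFun y k := if h : k ≠ j₀ then y ⟨k, h⟩ / (v j₀ : ℂ) else 0
  map_add' y y' := by
    funext k
    by_cases h : k ≠ j₀
    · simp only [dif_pos h, Pi.add_apply, add_div]
    · simp only [dif_neg h, Pi.add_apply, add_zero]
  map_smul' c y := by
    funext k
    by_cases h : k ≠ j₀
    · simp only [dif_pos h, Pi.smul_apply, smul_eq_mul, RingHom.id_apply, mul_div_assoc]
    · simp only [dif_neg h, Pi.smul_apply, smul_eq_mul, RingHom.id_apply, mul_zero]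

lemma tichild_L_apply {κ : Type} [DecidableEq κ] (v : κ → ℤ) (j₀ : κ) (y : {j // j ≠ j₀} → ℂ)
    (k : κ) : tichild_L v j₀ y k = if h : k ≠ j₀ then y ⟨k, h⟩ / (v j₀ : ℂ) else 0 := rfl

lemma tichild_sum {κ : Type} [Fintype κ] [DecidableEq κ] (v : κ → ℤ) (j₀ : κ)
    (j : {j // j ≠ j₀}) (u : κ → ℤ) :
    ∑ k, tichild_p v j₀ j k * u k = v j₀ * u j.1 - v j.1 * u j₀ := by
  simp only [tichild_p, sub_mul, sum_sub_distrib, ite_mul, zero_mul, sum_ite_eq', mem_univ,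
    if_true]

lemma tichild_mc {κ : Type} [Fintype κ] [DecidableEq κ] (v : κ → ℤ) (j₀ : κ)
    (j : {j // j ≠ j₀}) (y : κ → ℂ) :
    mc (tichild_p v j₀) y j = v j₀ * y j.1 - v j.1 * y j₀ := by
  simp only [mc, tichild_p, Int.cast_sub, Int.cast_ite, Int.cast_zero, sub_mul, sum_sub_distrib,
    ite_mul, zero_mul, sum_ite_eq', mem_univ, if_true]

lemma tichild_mc_comp {N : ℕ} {κ κ' : Type} [Fintype κ] (p : κ' → κ → ℤ) (π : κ → Fin N → ℤ)
    (y : Fin N → ℂ) : mc (fun j i => ∑ k, p j k * π k i) y = mc p (mc π y) := by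
  funext j
  simp only [mc, Int.cast_sum, Int.cast_mul, sum_mul, mul_sum]
  rw [sum_comm]
  simp only [mul_assoc]

lemma tichild_key {κ : Type} [Fintype κ] [DecidableEq κ] {v : κ → ℤ} {j₀ : κ} (hv : v j₀ ≠ 0)
    (y : κ → ℂ) :
    tichild_L v j₀ (mc (tichild_p v j₀) y) = y - (y j₀ / PL.wm (v j₀)) • wv v := by
  have h1 : (v j₀ : ℂ) ≠ 0 := Int.cast_ne_zero.mpr hv
  have h2 : (Real.pi : ℂ) ≠ 0 := Complex.ofReal_ne_zero.mpr Real.pi_ne_zero
  have h3 := Complex.I_ne_zero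
  funext k
  rw [tichild_L_apply]
  simp only [Pi.sub_apply, Pi.smul_apply, smul_eq_mul, wv, PL.wm]
  by_cases h : k ≠ j₀
  · rw [dif_pos h, tichild_mc]
    field_simp
  · rw [dif_neg h, not_not.mp h]
    field_simp
    ring

lemma tichild_norm {k : ℤ} (hk : k ≠ 0) : 1 ≤ ‖PL.wm k‖ := by
  have h1 : (1 : ℝ) ≤ |(k : ℝ)| := by
    rw [← Int.cast_abs]
    exact_mod_cast Int.one_le_abs hk
  have h2 : ‖PL.wm k‖ = 2 * Real.pi * |(k : ℝ)| := by
    simp only [PL.wm, norm_mul, Complex.norm_real, Complex.norm_I, Complex.norm_intCast,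
      Complex.norm_ofNat, Real.norm_eq_abs, abs_of_pos Real.pi_pos, mul_one]
  rw [h2]
  nlinarith [Real.pi_gt_three]

lemma tichild_ind {N : ℕ} {B B' : ℕ} {z : Fin N → ℂ} (h : Ind B z) (hB : B' ≤ B) : Ind B' z :=
  fun l hl hl' => h l hl fun i => (hl' i).trans (by exact_mod_cast hB)

/-- The child of a node attached to a vector `v` supported on one level. -/
theorem child {N : ℕ} {lev : Fin N → ℕ} {C : ℝ} {r : ℕ} (h : WL N lev C r) {κ : Type} [Fintype κ]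
    [DecidableEq κ] (π : κ → Fin N → ℤ) (rep : κ → Fin N)
    (hπ : ∀ j i, π j i ≠ 0 → lev i = lev (rep j)) (v : κ → ℤ) (j₀ : κ) (hv : v j₀ ≠ 0)
    (hv' : ∀ j, v j ≠ 0 → lev (rep j) = lev (rep j₀)) (b R e₁ : ℝ) (hb : 1 ≤ b) (hR : 1 ≤ R)
    (he : 0 < e₁) :
    ∃ (K Θ : ℝ) (B : ℕ), 0 ≤ K ∧ ∀ (𝒯 𝒢 : Finset (MP N)) (σ : (κ → ℂ) →ₗ[ℂ] (Fin N → ℂ))
      (z : Fin N → ℂ), Node π σ 𝒯 𝒢 →
      Fintype.card κ + Module.finrank ℂ (sp 𝒯) ≤ r + 1 + Module.finrank ℂ (sp 𝒢) → Ind B z →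
      ∃ (ac : ℝ → (κ → ℤ) → Sp N → ℝ) (C₂ : ℝ), 0 ≤ C₂ ∧ Fam lev C π b R e₁ K Θ z (topF 𝒯) ac ∧
        (∀ ε, 0 < ε → ∀ μ x, inB π (fun _ => R) μ x → aF π σ 𝒢 ε μ x ≤ ac ε μ x + C₂) ∧
        ∀ ε, 0 < ε → ∀ μ x, inB π (fun _ => R) μ x →
          ac ε μ x ≤ max (aF π σ 𝒢 ε μ x) (aF π σ 𝒢 ε (μ + v) x) + C₂ := by
  classical
  obtain ⟨K₁, Θ₁, B₁, hK₁, h₁⟩ := h κ π rep hπ b R e₁ hb hR he
  obtain ⟨P, hP⟩ : ∃ P : ℝ, P = ∑ j : {j // j ≠ j₀}, ∑ k, |(tichild_p v j₀ j k : ℝ)| := ⟨_, rfl⟩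
  have hpow : (1 : ℝ) ≤ (2 * R + 1) ^ Fintype.card κ := one_le_pow₀ (by linarith)
  obtain ⟨K₂, Θ₂, B₂, hK₂, h₂⟩ := h {j // j ≠ j₀} (fun j i => ∑ k, tichild_p v j₀ j k * π k i)
    (fun j => rep j.1) (by
      intro j i hji
      rw [tichild_sum v j₀ j fun k => π k i] at hji
      by_cases h1 : π j.1 i = 0
      · rw [h1, mul_zero, zero_sub, neg_ne_zero] at hji
        rw [hπ j₀ i (right_ne_zero_of_mul hji), hv' j.1 (left_ne_zero_of_mul hji)]
      · exact hπ j.1 i h1)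
    (b * (2 * R + 1) ^ Fintype.card κ) (max 1 P * R) e₁ (one_le_mul_of_one_le_of_one_le hb hpow)
    (one_le_mul_of_one_le_of_one_le (le_max_left _ _) hR) he
  refine ⟨K₁ + K₂, max Θ₁ Θ₂, max B₁ B₂, by positivity, fun 𝒯 𝒢 σ z hN hr hz => ?_⟩
  obtain ⟨w, hw⟩ : ∃ w, w = σ (wv v) := ⟨_, rfl⟩
  by_cases hc : ∀ g ∈ 𝒢, tr w g ∈ sp 𝒢
  · have hline := tr_line hc
    have hkey : ∀ y : κ → ℂ, (σ ∘ₗ tichild_L v j₀) (mc (tichild_p v j₀) y) =
        σ y - (y j₀ / PL.wm (v j₀)) • w := by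
      intro y
      rw [LinearMap.comp_apply, tichild_key hv, map_sub, map_smul, hw]
    have hN' : Node (fun j i => ∑ k, tichild_p v j₀ j k * π k i) (σ ∘ₗ tichild_L v j₀) 𝒯 𝒢 := by
      refine ⟨hN.closed, hN.gen, hN.sub, fun y g hg => ?_⟩
      rw [tichild_mc_comp, hkey, ← sub_add, ← tr_tr]
      exact tr_sp (hN.inv y) _ (hline _ g hg)
    have hcard : Fintype.card {j // j ≠ j₀} + 1 = Fintype.card κ := by
      have h1 : 0 < Fintype.card κ := Fintype.card_pos_iff.mpr ⟨j₀⟩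
      have h2 : Fintype.card {j // j ≠ j₀} = Fintype.card κ - 1 := by
        rw [Fintype.card_subtype_compl, Fintype.card_subtype_eq]
      omega
    have hF := h₂ 𝒯 𝒢 _ z hN' (by omega) (tichild_ind hz (le_max_right _ _))
    have hF' := Fam.pull (tichild_p v j₀) (b := b) (ρ := R) hF (by linarith) (by linarith) le_rfl
      (fun j => mul_le_mul_of_nonneg_right (le_max_of_le_right (by
        rw [hP]
        exact single_le_sum (f := fun j : {j // j ≠ j₀} => ∑ k, |(tichild_p v j₀ j k : ℝ)|)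
          (fun j _ => sum_nonneg fun k _ => abs_nonneg _) (mem_univ j))) (by linarith))
    obtain ⟨C₂, hC₂, hcmp⟩ := lg_cmp 𝒢 𝒢 {y | ∃ t : ℂ, ‖t‖ ≤ R ∧ y = t • w} (R * ‖w‖)
      (by
        rintro y ⟨t, ht, rfl⟩
        rw [norm_smul]
        exact mul_le_mul_of_nonneg_right ht (norm_nonneg _))
      (by
        rintro y ⟨t, -, rfl⟩
        exact hline t)
    have hval : ∀ ε μ x, aF (fun j i => ∑ k, tichild_p v j₀ j k * π k i) (σ ∘ₗ tichild_L v j₀) 𝒢 ε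
        (mz (tichild_p v j₀) μ) x =
        lg ε 𝒢 (cX x - σ (yv π μ x) + (yv π μ x j₀ / PL.wm (v j₀)) • w) := by
      intro ε μ x
      rw [aF, yv_comp, hkey, ← sub_add]
    have ht : ∀ μ x, inB π (fun _ => R) μ x → ‖yv π μ x j₀ / PL.wm (v j₀)‖ ≤ R := by
      intro μ x hx
      rw [norm_div]
      exact (div_le_self (norm_nonneg _) (tichild_norm hv)).trans (hx j₀)
    refine ⟨_, C₂, hC₂, hF'.mono (by linarith) (le_max_right _ _) (topF_ok 𝒯), ?_, ?_⟩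
    · intro ε hε μ x hx
      have h1 := hcmp ε hε _ ⟨-(yv π μ x j₀ / PL.wm (v j₀)), by rw [norm_neg]; exact ht μ x hx, rfl⟩
        (cX x - σ (yv π μ x) + (yv π μ x j₀ / PL.wm (v j₀)) • w)
      rw [neg_smul, add_neg_cancel_right] at h1
      rw [hval]
      exact h1
    · intro ε hε μ x hx
      have h1 := hcmp ε hε _ ⟨_, ht μ x hx, rfl⟩ (cX x - σ (yv π μ x))
      rw [hval]
      exact h1.trans (add_le_add_left (le_max_left _ _) _)
  · have hle : sp 𝒢 ≤ sp (𝒢 ∪ 𝒢.image (tr w)) :=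
      Submodule.span_mono (by exact_mod_cast subset_union_left)
    have htr : ∀ g ∈ 𝒢, tr w g ∈ sp (𝒢 ∪ 𝒢.image (tr w)) := fun g hg =>
      Submodule.subset_span (by
        exact_mod_cast mem_union_right _ (mem_image_of_mem (tr w) hg))
    have hN' : Node π σ 𝒯 (𝒢 ∪ 𝒢.image (tr w)) := by
      refine ⟨hN.closed, ?_, ?_, ?_⟩
      · obtain ⟨F, hF, hF'⟩ := hN.gen
        exact ⟨F, hle hF, hF'⟩
      · intro g hg
        rcases mem_union.mp hg with hg | hg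
        · exact hN.sub g hg
        · obtain ⟨g₀, hg₀, rfl⟩ := mem_image.mp hg
          exact tr_sp (hN.closed w) _ (hN.sub g₀ hg₀)
      · intro y g hg
        rcases mem_union.mp hg with hg | hg
        · exact hle (hN.inv y g hg)
        · obtain ⟨g₀, hg₀, rfl⟩ := mem_image.mp hg
          rw [tr_tr, add_comm, ← tr_tr]
          exact tr_sp htr _ (hN.inv y g₀ hg₀)
    have hlt : sp 𝒢 < sp (𝒢 ∪ 𝒢.image (tr w)) := by
      refine lt_of_le_of_ne hle fun he => hc fun g hg => ?_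
      rw [he]
      exact htr g hg
    have hrk := Submodule.finrank_lt_finrank_of_lt hlt
    have hF := h₁ 𝒯 _ σ z hN' (by omega) (tichild_ind hz (le_max_left _ _))
    refine ⟨_, 1, zero_le_one, hF.mono (by linarith) (le_max_left _ _) (topF_ok 𝒯), ?_, ?_⟩
    · intro ε hε μ x _
      exact (lg_union hε 𝒢 w _).1.trans (le_add_of_nonneg_right zero_le_one)
    · intro ε hε μ x _
      have h1 := (lg_union hε 𝒢 w (cX x - σ (yv π μ x))).2
      have h2 : aF π σ 𝒢 ε (μ + v) x = lg ε 𝒢 (cX x - σ (yv π μ x) + w) := by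
        rw [aF, yv_add, map_sub, ← sub_add, hw]
      rw [h2]
      exact h1

end Pool.Agent.Lib.MP_1f047c_nt.TI
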