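import Pool.Agent.Lib.MP_1f047c_nt.TIDefs

open Finset MeasureTheory

namespace Pool.Agent.Lib.MP_1f047c_nt.TI

/-- Radii chosen level by level. -/
theorem ticon_rad {κ : Type} [Fintype κ] (lv : κ → ℕ) (D A ρ s : ℝ) (hs : 0 < s) (L : ℕ) :
    ∃ rad : κ → ℝ, (∀ j, ρ ≤ rad j) ∧ ∀ j, lv j < L →
      D * (A + (∏ j' with lv j' < lv j, (2 * rad j' + 1)) + 1) ≤ s * rad j := by
  induction L with
  | zero => exact ⟨fun _ => ρ, fun _ => le_rfl, fun j hj => absurd hj (Nat.not_lt_zero _)⟩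
  | succ L ih =>
    obtain ⟨rad, h1, h2⟩ := ih
    set M : ℝ := max ρ (D * (A + (∏ j' with lv j' < L, (2 * rad j' + 1)) + 1) / s) with hM
    refine ⟨fun j => if lv j = L then M else rad j, fun j => ?_, fun j hj => ?_⟩
    · by_cases h : lv j = L
      · simp only [h, if_true]; exact le_max_left _ _
      · simp only [h, if_false]; exact h1 j
    · have hp : (∏ j' with lv j' < lv j, (2 * (if lv j' = L then M else rad j') + 1)) =
          ∏ j' with lv j' < lv j, (2 * rad j' + 1) := by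
        refine Finset.prod_congr rfl fun j' hj' => ?_
        have h3 : lv j' < lv j := (Finset.mem_filter.1 hj').2
        rw [if_neg (by omega)]
      rw [hp]
      beta_reduce
      by_cases h : lv j = L
      · rw [if_pos h, h]
        have h4 : D * (A + (∏ j' with lv j' < L, (2 * rad j' + 1)) + 1) / s ≤ M := le_max_right _ _
        rw [div_le_iff₀ hs] at h4
        rw [mul_comm s]
        exact h4
      · rw [if_neg h]
        exact h2 j (by omega)

/-- The choice of the radii and slopes. -/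
theorem consts {N : ℕ} {κ : Type} [Fintype κ] (π : κ → Fin N → ℤ) (lv : κ → ℕ) (C b ρ e₀ : ℝ)
    (hC : 1 ≤ C) (hb : 1 ≤ b) (hρ : 1 ≤ ρ) (he : 0 < e₀) :
    ∃ (R om Θ : ℝ) (rad sl : κ → ℝ), 1 ≤ R ∧ 0 < om ∧ (2 * R + 1) ^ Fintype.card κ * om ≤ 1 ∧
      (∀ Θ', Θ ≤ Θ' → R * Real.exp (-(om ^ 3 / 6 * Θ')) < Real.pi) ∧
      (∀ j, ρ ≤ rad j ∧ rad j ≤ R) ∧ (∀ j, 0 ≤ sl j) ∧
      (∀ j, 12 * b * C * ((2 * ρ + 1) ^ Fintype.card κ +
        (∏ j' with lv j' < lv j, (2 * rad j' + 1)) + 1) ≤ sl j * rad j) ∧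
      ∀ i, ∑ j, sl j * |(π j i : ℝ)| ≤ e₀ / 2 := by
  set P : ℝ := 1 + ∑ i, ∑ j, |(π j i : ℝ)| with hP
  have hP0 : 0 ≤ ∑ i, ∑ j, |(π j i : ℝ)| :=
    Finset.sum_nonneg fun i _ => Finset.sum_nonneg fun j _ => abs_nonneg _
  have hP1 : 0 < P := by rw [hP]; linarith
  have hs : 0 < e₀ / (2 * P) := by positivity
  obtain ⟨rad, h1, h2⟩ := ticon_rad lv (12 * b * C) ((2 * ρ + 1) ^ Fintype.card κ) ρ
    (e₀ / (2 * P)) hs (univ.sup lv + 1)
  have hr0 : ∀ j, 0 ≤ rad j := fun j => by linarith [h1 j]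
  set R : ℝ := 1 + ∑ j, rad j with hR
  have hR1 : 1 ≤ R := by
    have : 0 ≤ ∑ j, rad j := Finset.sum_nonneg fun j _ => hr0 j
    rw [hR]; linarith
  have hpow : 0 < (2 * R + 1) ^ Fintype.card κ := by positivity
  set om : ℝ := 1 / (2 * R + 1) ^ Fintype.card κ with hom
  have hom0 : 0 < om := by rw [hom]; positivity
  refine ⟨R, om, R / (om ^ 3 / 6), rad, fun _ => e₀ / (2 * P), hR1, hom0, ?_, ?_, ?_,
    fun _ => hs.le, ?_, ?_⟩
  · rw [hom, mul_one_div_cancel hpow.ne']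
  · intro Θ' hΘ
    have h6 : 0 < om ^ 3 / 6 := by positivity
    rw [div_le_iff₀ h6] at hΘ
    have h7 : Real.exp (-(om ^ 3 / 6 * Θ')) ≤ Real.exp (-R) :=
      Real.exp_le_exp.2 (by linarith)
    have h8 : R * Real.exp (-R) ≤ 1 := by
      rw [Real.exp_neg, ← div_eq_mul_inv, div_le_one (Real.exp_pos R)]
      linarith [Real.add_one_le_exp R]
    have h9 : R * Real.exp (-(om ^ 3 / 6 * Θ')) ≤ R * Real.exp (-R) :=
      mul_le_mul_of_nonneg_left h7 (by linarith)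
    linarith [Real.pi_gt_three]
  · intro j
    refine ⟨h1 j, ?_⟩
    have : rad j ≤ ∑ j, rad j :=
      Finset.single_le_sum (f := rad) (fun j _ => hr0 j) (Finset.mem_univ j)
    rw [hR]; linarith
  · intro j
    exact h2 j (Nat.lt_succ_of_le (Finset.le_sup (f := lv) (Finset.mem_univ j)))
  · intro i
    rw [← Finset.mul_sum]
    have h3 : ∑ j, |(π j i : ℝ)| ≤ ∑ i, ∑ j, |(π j i : ℝ)| :=
      Finset.single_le_sum (f := fun i => ∑ j, |(π j i : ℝ)|)
        (fun i _ => Finset.sum_nonneg fun j _ => abs_nonneg _) (Finset.mem_univ i)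
    have h4 : ∑ j, |(π j i : ℝ)| ≤ P := by rw [hP]; linarith
    calc e₀ / (2 * P) * ∑ j, |(π j i : ℝ)| ≤ e₀ / (2 * P) * P :=
          mul_le_mul_of_nonneg_left h4 hs.le
      _ = e₀ / 2 := by field_simp

end Pool.Agent.Lib.MP_1f047c_nt.TI
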