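import Pool.Agent.Lib.MP_1f047c_nt.TIDefs

open Finset MeasureTheory

namespace Pool.Agent.Lib.MP_1f047c_nt.TI

variable {ι : Type} [Fintype ι] [DecidableEq ι]

/-- The normalised bump function with complex values. -/
noncomputable def ticonv_ker (ι : Type) [Fintype ι] (k : ℕ) (y : ι → ℂ) : ℂ :=
  ((bump ι k).normed volume y : ℝ)

omit [DecidableEq ι] in
lemma ticonv_smooth (k : ℕ) : ContDiff ℝ (⊤ : ℕ∞) (ticonv_ker ι k) :=
  Complex.ofRealCLM.contDiff.comp (bump ι k).contDiff_normed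

omit [DecidableEq ι] in
lemma ticonv_supp (k : ℕ) : HasCompactSupport (ticonv_ker ι k) :=
  ((bump ι k).hasCompactSupport_normed (μ := volume)).comp_left (g := Complex.ofReal)
    Complex.ofReal_zero

omit [DecidableEq ι] in
lemma ticonv_mol (k : ℕ) (h : (ι → ℂ) → ℂ) :
    mol k h = convolution h (ticonv_ker ι k) (ContinuousLinearMap.mul ℝ ℂ) volume := rfl

omit [DecidableEq ι] in
lemma ticonv_fderiv_eta (k : ℕ) (x y v : ι → ℂ) :
    fderiv ℝ (eta k x) y v = -fderiv ℝ (ticonv_ker ι k) (x - y) v := by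
  have h1 : HasFDerivAt (ticonv_ker ι k) (fderiv ℝ (ticonv_ker ι k) (x - y)) (x - y) :=
    ((ticonv_smooth k).differentiable (by simp) _).hasFDerivAt
  have h2 : HasFDerivAt (fun y : ι → ℂ => x - y) (-ContinuousLinearMap.id ℝ (ι → ℂ)) y :=
    (hasFDerivAt_id y).const_sub x
  have h3 : HasFDerivAt (eta k x) _ y := h1.comp y h2
  rw [h3.fderiv]
  simp

omit [DecidableEq ι] in
lemma ticonv_int {h : (ι → ℂ) → ℂ} (hh : LocallyIntegrable h volume) (k : ℕ) (x v : ι → ℂ) :
    Integrable (fun y => h y * fderiv ℝ (eta k x) y v) volume := by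
  have hc : Continuous fun a => fderiv ℝ (ticonv_ker ι k) a v :=
    ((ticonv_smooth k).continuous_fderiv (by simp)).clm_apply continuous_const
  have hs : HasCompactSupport fun a => fderiv ℝ (ticonv_ker ι k) a v :=
    (ticonv_supp k).fderiv_apply ℝ v
  have h1 : Integrable (fun y => h y * fderiv ℝ (ticonv_ker ι k) (x - y) v) volume :=
    hs.convolutionExists_right (ContinuousLinearMap.mul ℝ ℂ) hh hc x
  simp only [ticonv_fderiv_eta, mul_neg]
  exact h1.neg

omit [DecidableEq ι] in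
lemma ticonv_fderiv_mol {h : (ι → ℂ) → ℂ} (hh : LocallyIntegrable h volume) (k : ℕ)
    (x v : ι → ℂ) : fderiv ℝ (mol k h) x v = -∫ y, h y * fderiv ℝ (eta k x) y v := by
  have h1 := (ticonv_supp k).hasFDerivAt_convolution_right (ContinuousLinearMap.mul ℝ ℂ) hh
    ((ticonv_smooth k).of_le (by simp)) x
  rw [ticonv_mol, h1.fderiv, convolution_precompR_apply _ hh ((ticonv_supp k).fderiv ℝ)
    ((ticonv_smooth k).continuous_fderiv (by simp))]
  simp only [ticonv_fderiv_eta, mul_neg, integral_neg, neg_neg]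
  rfl

lemma eta_test (k : ℕ) (x : ι → ℂ) : Test (eta k x) :=
  ⟨(ticonv_smooth k).comp (contDiff_const.sub contDiff_id),
    (ticonv_supp k).comp_homeomorph (Homeomorph.subLeft x)⟩

lemma mol_smooth {h : (ι → ℂ) → ℂ} (hh : LocallyIntegrable h volume) (k : ℕ) :
    ContDiff ℝ (⊤ : ℕ∞) (mol k h) := by
  rw [ticonv_mol]
  exact (ticonv_supp k).contDiff_convolution_right _ hh (ticonv_smooth k)

lemma mol_support {h : (ι → ℂ) → ℂ} {R : ℝ} (hR : ∀ x, R < ‖x‖ → h x = 0) (k : ℕ) (x : ι → ℂ)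
    (hx : R + 1 < ‖x‖) : mol k h x = 0 := by
  unfold mol
  refine integral_eq_zero_of_ae (Filter.Eventually.of_forall fun y => ?_)
  by_cases hy : R < ‖y‖
  · simp [hR y hy]
  · have h1 : ‖x‖ - ‖y‖ ≤ ‖x - y‖ := norm_sub_norm_le x y
    have h2 : (bump ι k).rOut ≤ 1 := by
      show 1 / ((k : ℝ) + 1) ≤ 1
      rw [div_le_one (by positivity)]
      linarith [(Nat.cast_nonneg k : (0 : ℝ) ≤ k)]
    have h3 : (bump ι k).normed volume (x - y) = 0 := by
      rw [← Function.notMem_support, ContDiffBump.support_normed_eq, mem_ball_zero_iff]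
      linarith
    simp [eta, h3]

lemma dz_mol {h : (ι → ℂ) → ℂ} (hh : LocallyIntegrable h volume) (k : ℕ) (j : ι) (x : ι → ℂ) :
    dz j (mol k h) x = -∫ y, h y * dz j (eta k x) y := by
  have e : ∀ y, h y * dz j (eta k x) y = (h y * fderiv ℝ (eta k x) y (Pi.single j 1) -
      Complex.I * (h y * fderiv ℝ (eta k x) y (Pi.single j Complex.I))) / 2 := fun y => by
    unfold dz; ring
  simp only [e]
  rw [integral_div, integral_sub (ticonv_int hh k x _) ((ticonv_int hh k x _).const_mul _),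
    integral_const_mul]
  unfold dz
  rw [ticonv_fderiv_mol hh, ticonv_fderiv_mol hh]
  ring

lemma dzb_mol {h : (ι → ℂ) → ℂ} (hh : LocallyIntegrable h volume) (k : ℕ) (j : ι) (x : ι → ℂ) :
    dzb j (mol k h) x = -∫ y, h y * dzb j (eta k x) y := by
  have e : ∀ y, h y * dzb j (eta k x) y = (h y * fderiv ℝ (eta k x) y (Pi.single j 1) +
      Complex.I * (h y * fderiv ℝ (eta k x) y (Pi.single j Complex.I))) / 2 := fun y => by
    unfold dzb; ring
  simp only [e]
  rw [integral_div, integral_add (ticonv_int hh k x _) ((ticonv_int hh k x _).const_mul _),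
    integral_const_mul]
  unfold dzb
  rw [ticonv_fderiv_mol hh, ticonv_fderiv_mol hh]
  ring

lemma mol_ae {h : (ι → ℂ) → ℂ} (hh : LocallyIntegrable h volume) :
    ∀ᵐ x, Filter.Tendsto (fun k => mol k h x) Filter.atTop (nhds (h x)) := by
  have h1 : Filter.Tendsto (fun k => (bump ι k).rOut) Filter.atTop (nhds 0) :=
    tendsto_one_div_add_atTop_nhds_zero_nat
  have h2 : ∀ᶠ k in Filter.atTop, (bump ι k).rOut ≤ 2 * (bump ι k).rIn :=
    Filter.Eventually.of_forall fun k => by
      show 1 / ((k : ℝ) + 1) ≤ 2 * (1 / (2 * ((k : ℝ) + 1)))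
      exact le_of_eq (by field_simp)
  filter_upwards [ContDiffBump.ae_convolution_tendsto_right_of_locallyIntegrable h1 h2 hh]
    with x hx
  refine hx.congr fun k => ?_
  rw [convolution_lsmul_swap]
  unfold mol eta
  refine integral_congr_ae (Filter.Eventually.of_forall fun y => ?_)
  simp [mul_comm]

end Pool.Agent.Lib.MP_1f047c_nt.TI
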