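import Pool.Agent.Lib.MP_1f047c_nt.TIConv

open Finset MeasureTheory

namespace Pool.Agent.Lib.MP_1f047c_nt.TI

variable {ι : Type} [Fintype ι] [DecidableEq ι]

omit [DecidableEq ι] in
lemma ticonv2_ker_lint (k : ℕ) :
    ∫⁻ y, ENNReal.ofReal ((bump ι k).normed volume y) = 1 := by
  rw [← ofReal_integral_eq_lintegral_ofReal (bump ι k).integrable_normed
    (Filter.Eventually.of_forall (bump ι k).nonneg_normed), (bump ι k).integral_normed,
    ENNReal.ofReal_one]

omit [DecidableEq ι] in
lemma ticonv2_ker_meas (k : ℕ) :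
    Measurable fun y : ι → ℂ => ENNReal.ofReal ((bump ι k).normed volume y) :=
  ENNReal.measurable_ofReal.comp (bump ι k).continuous_normed.measurable

omit [DecidableEq ι] in
lemma ticonv2_point (k : ℕ) {h : (ι → ℂ) → ℂ} (hh : AEStronglyMeasurable h volume)
    (x : ι → ℂ) :
    ‖mol k h x‖ₑ ^ (2 : ℝ) ≤
      ∫⁻ y, ‖h y‖ₑ ^ (2 : ℝ) * ENNReal.ofReal ((bump ι k).normed volume (x - y)) := by
  set w : (ι → ℂ) → ENNReal := fun y => ENNReal.ofReal ((bump ι k).normed volume (x - y)) with hw
  have hwm : Measurable w := (ticonv2_ker_meas k).comp (measurable_const.sub measurable_id)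
  have hw1 : ∫⁻ y, w y = 1 := by
    rw [hw, lintegral_sub_left_eq_self
      (fun y => ENNReal.ofReal ((bump ι k).normed volume y)) x, ticonv2_ker_lint]
  have hsq : ∀ y, (w y ^ (1 / 2 : ℝ)) ^ (2 : ℝ) = w y := by
    intro y
    rw [← ENNReal.rpow_mul]; norm_num
  have h1 : ‖mol k h x‖ₑ ≤ ∫⁻ y, ((fun y => ‖h y‖ₑ * w y ^ (1 / 2 : ℝ)) *
      (fun y => w y ^ (1 / 2 : ℝ))) y := by
    refine (enorm_integral_le_lintegral_enorm _).trans (le_of_eq ?_)
    refine lintegral_congr fun y => ?_
    have e : ‖eta k x y‖ₑ = w y := by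
      rw [hw, eta, ← ofReal_norm, Complex.norm_real,
        Real.norm_of_nonneg ((bump ι k).nonneg_normed _)]
    rw [enorm_mul, e, Pi.mul_apply, mul_assoc, ← ENNReal.rpow_add_of_nonneg _ _ (by norm_num)
      (by norm_num)]
    norm_num
  have h2 := ENNReal.lintegral_mul_le_Lp_mul_Lq volume Real.HolderConjugate.two_two
    (f := fun y => ‖h y‖ₑ * w y ^ (1 / 2 : ℝ)) (g := fun y => w y ^ (1 / 2 : ℝ))
    (hh.enorm.mul (hwm.pow_const _).aemeasurable) (hwm.pow_const _).aemeasurable
  have h3 : ∀ y, (‖h y‖ₑ * w y ^ (1 / 2 : ℝ)) ^ (2 : ℝ) = ‖h y‖ₑ ^ (2 : ℝ) * w y := by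
    intro y
    rw [ENNReal.mul_rpow_of_nonneg _ _ (by norm_num), hsq]
  simp only [h3, hsq, hw1, ENNReal.one_rpow, mul_one] at h2
  calc ‖mol k h x‖ₑ ^ (2 : ℝ)
      ≤ ((∫⁻ y, ‖h y‖ₑ ^ (2 : ℝ) * w y) ^ (1 / 2 : ℝ)) ^ (2 : ℝ) :=
        ENNReal.rpow_le_rpow (h1.trans h2) (by norm_num)
    _ = ∫⁻ y, ‖h y‖ₑ ^ (2 : ℝ) * w y := by
        rw [← ENNReal.rpow_mul, show (1 / 2 : ℝ) * 2 = 1 by norm_num, ENNReal.rpow_one]

omit [DecidableEq ι] in
lemma ticonv2_young (k : ℕ) {h : (ι → ℂ) → ℂ} (hh : AEStronglyMeasurable h volume) :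
    eLpNorm (mol k h) 2 volume ≤ eLpNorm h 2 volume := by
  rw [eLpNorm_eq_lintegral_rpow_enorm_toReal (by norm_num) (by norm_num),
    eLpNorm_eq_lintegral_rpow_enorm_toReal (by norm_num) (by norm_num)]
  refine ENNReal.rpow_le_rpow ?_ (by norm_num)
  have e2 : (2 : ENNReal).toReal = 2 := by norm_num
  rw [e2]
  refine (lintegral_mono fun x => ticonv2_point k hh x).trans (le_of_eq ?_)
  have hm : AEMeasurable (Function.uncurry fun (x y : ι → ℂ) =>
      ‖h y‖ₑ ^ (2 : ℝ) * ENNReal.ofReal ((bump ι k).normed volume (x - y)))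
      ((volume : Measure (ι → ℂ)).prod volume) := by
    refine AEMeasurable.mul ?_ ?_
    · exact (hh.enorm.pow_const (2 : ℝ)).comp_snd
    · exact ((ticonv2_ker_meas k).comp (measurable_fst.sub measurable_snd)).aemeasurable
  rw [lintegral_lintegral_swap hm]
  refine lintegral_congr fun y => ?_
  have hmx : Measurable fun x : ι → ℂ => ENNReal.ofReal ((bump ι k).normed volume (x - y)) :=
    (ticonv2_ker_meas k).comp (measurable_id.sub measurable_const)
  rw [lintegral_const_mul _ hmx,
    lintegral_sub_right_eq_self (fun y => ENNReal.ofReal ((bump ι k).normed volume y)) y,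
    ticonv2_ker_lint, mul_one]

omit [DecidableEq ι] in
lemma ticonv2_int (k : ℕ) {h : (ι → ℂ) → ℂ} (hh : LocallyIntegrable h volume) (x : ι → ℂ) :
    Integrable (fun y => h y * eta k x y) volume := by
  have hc : Continuous (eta k x) :=
    Complex.continuous_ofReal.comp
      ((bump ι k).continuous_normed.comp (continuous_const.sub continuous_id))
  have hs : HasCompactSupport (eta k x) := by
    have h1 : HasCompactSupport fun y : ι → ℂ => (bump ι k).normed volume (x - y) :=
      (bump ι k).hasCompactSupport_normed.comp_homeomorph (Homeomorph.subLeft x)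
    exact h1.comp_left (g := fun r : ℝ => (r : ℂ)) Complex.ofReal_zero
  exact hh.integrable_smul_right_of_hasCompactSupport hc hs

omit [DecidableEq ι] in
lemma ticonv2_conv (k : ℕ) (g : (ι → ℂ) → ℂ) (x : ι → ℂ) :
    mol k g x = convolution ((bump ι k).normed volume) g (ContinuousLinearMap.lsmul ℝ ℝ)
      volume x := by
  rw [convolution_eq_swap, mol]
  refine integral_congr_ae (Filter.Eventually.of_forall fun y => ?_)
  simp only [eta, ContinuousLinearMap.lsmul_apply, Complex.real_smul]
  ring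

lemma ticonv2_cc {g : (ι → ℂ) → ℂ} (hs : HasCompactSupport g) (hc : Continuous g) :
    Filter.Tendsto (fun k => eLpNorm (fun x => mol k g x - g x) 2 volume) Filter.atTop
      (nhds 0) := by
  obtain ⟨R, hR⟩ := hs.isCompact.isBounded.subset_closedBall (0 : ι → ℂ)
  have hR' : ∀ x, R < ‖x‖ → g x = 0 := by
    intro x hx
    by_contra hne
    have := hR (subset_tsupport g hne)
    rw [mem_closedBall_zero_iff] at this
    linarith
  have hu : UniformContinuous g := hs.uniformContinuous_of_continuous hc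
  set s : Set (ι → ℂ) := Metric.closedBall 0 (R + 1) with hsdef
  have hsm : MeasurableSet s := Metric.isClosed_closedBall.measurableSet
  have hfin : volume s ^ (1 / (2 : ENNReal).toReal) ≠ ⊤ :=
    ENNReal.rpow_ne_top_of_nonneg (by norm_num) measure_closedBall_lt_top.ne
  rw [ENNReal.tendsto_nhds_zero]
  intro ε hε
  have hlim : Filter.Tendsto
      (fun c : ℝ => ENNReal.ofReal c * volume s ^ (1 / (2 : ENNReal).toReal))
      (nhdsWithin 0 (Set.Ioi 0)) (nhds 0) := by
    have h0 : Filter.Tendsto (fun c : ℝ => ENNReal.ofReal c) (nhdsWithin 0 (Set.Ioi 0))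
        (nhds 0) := by
      have := (ENNReal.continuous_ofReal.tendsto 0).mono_left
        (nhdsWithin_le_nhds (s := Set.Ioi (0 : ℝ)))
      simpa using this
    have := ENNReal.Tendsto.mul_const h0 (Or.inr hfin)
    simpa using this
  obtain ⟨c, hc1, hc0⟩ := ((ENNReal.tendsto_nhds_zero.1 hlim ε hε).and
    self_mem_nhdsWithin).exists
  have hc0' : 0 < c := hc0
  obtain ⟨δ, hδ, hδc⟩ := Metric.uniformContinuous_iff.1 hu c hc0'
  have hev : ∀ᶠ k : ℕ in Filter.atTop, 1 / ((k : ℝ) + 1) < δ :=
    (tendsto_one_div_add_atTop_nhds_zero_nat (𝕜 := ℝ)).eventually (gt_mem_nhds hδ)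
  filter_upwards [hev] with k hk
  refine le_trans ?_ hc1
  refine eLpNorm_sub_le_of_dist_bdd volume (p := 2) (by norm_num) hsm hc0'.le
    (f := mol k g) (g := g) ?_ ?_ ?_
  · intro x
    rw [ticonv2_conv]
    refine (bump ι k).dist_normed_convolution_le hc.aestronglyMeasurable fun y hy => ?_
    exact (hδc ((Metric.mem_ball.1 hy).trans hk)).le
  · intro x hx
    rw [hsdef, mem_closedBall_zero_iff]
    by_contra hlt
    exact hx (mol_support hR' k x (not_le.1 hlt))
  · intro x hx
    rw [hsdef, mem_closedBall_zero_iff]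
    by_contra hlt
    exact hx (hR' x (by linarith [not_le.1 hlt]))

/-- Convergence in the mean. -/
theorem mol_tendsto {h : (ι → ℂ) → ℂ} (hh : MemLp h 2 volume) :
    (∀ k, MemLp (mol k h) 2 volume) ∧
      Filter.Tendsto (fun k => eLpNorm (fun x => mol k h x - h x) 2 volume) Filter.atTop
        (nhds 0) := by
  have hl : LocallyIntegrable h volume := hh.locallyIntegrable (by norm_num)
  have hm : ∀ k, AEStronglyMeasurable (mol k h) volume := fun k =>
    (mol_smooth hl k).continuous.aestronglyMeasurable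
  refine ⟨fun k => ⟨hm k, (ticonv2_young k hh.1).trans_lt hh.2⟩, ?_⟩
  rw [ENNReal.tendsto_nhds_zero]
  intro ε hε
  have h3 : ε / 3 ≠ 0 := (ENNReal.div_pos hε.ne' (by norm_num)).ne'
  obtain ⟨g, gs, gd, gc, gm⟩ := hh.exists_hasCompactSupport_eLpNorm_sub_le (by norm_num) h3
  have gl : LocallyIntegrable g volume := gc.locallyIntegrable
  filter_upwards [ENNReal.tendsto_nhds_zero.1 (ticonv2_cc gs gc) (ε / 3)
    (pos_iff_ne_zero.2 h3)] with k hk
  have hmg : AEStronglyMeasurable (mol k g) volume :=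
    (mol_smooth gl k).continuous.aestronglyMeasurable
  have e : (fun x => mol k h x - h x) =
      mol k (h - g) + (fun x => mol k g x - g x) + (-(h - g)) := by
    funext x
    have : mol k (h - g) x = mol k h x - mol k g x := by
      rw [mol, mol, mol, ← integral_sub (ticonv2_int k hl x) (ticonv2_int k gl x)]
      refine integral_congr_ae (Filter.Eventually.of_forall fun y => ?_)
      simp only [Pi.sub_apply]
      ring
    simp only [Pi.add_apply, Pi.neg_apply, Pi.sub_apply, this]
    ring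
  have m1 : AEStronglyMeasurable (mol k (h - g)) volume :=
    (mol_smooth (hl.sub gl) k).continuous.aestronglyMeasurable
  have m2 : AEStronglyMeasurable (fun x => mol k g x - g x) volume := hmg.sub gm.1
  have m3 : AEStronglyMeasurable (-(h - g)) volume := (hh.1.sub gm.1).neg
  rw [e]
  calc eLpNorm (mol k (h - g) + (fun x => mol k g x - g x) + (-(h - g))) 2 volume
      ≤ eLpNorm (mol k (h - g) + (fun x => mol k g x - g x)) 2 volume +
          eLpNorm (-(h - g)) 2 volume := eLpNorm_add_le (m1.add m2) m3 (by norm_num)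
    _ ≤ (eLpNorm (mol k (h - g)) 2 volume + eLpNorm (fun x => mol k g x - g x) 2 volume) +
          eLpNorm (-(h - g)) 2 volume :=
        add_le_add (eLpNorm_add_le m1 m2 (by norm_num)) le_rfl
    _ ≤ (ε / 3 + ε / 3) + ε / 3 := by
        refine add_le_add (add_le_add ((ticonv2_young k (hh.1.sub gm.1)).trans gd) hk) ?_
        rw [eLpNorm_neg]; exact gd
    _ = ε := ENNReal.add_thirds ε

end Pool.Agent.Lib.MP_1f047c_nt.TI
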