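import Pool.Agent.Lib.MP_1f047c_nt.TISub2

open Finset MeasureTheory

namespace Pool.Agent.Lib.MP_1f047c_nt.TI

variable {E : Type} [NormedAddCommGroup E] [NormedSpace ℂ E]

/-- A lower Taylor bound of second order. -/
lemma tifun_taylor {f f' : ℝ → ℝ} {p f₂ : ℝ} (h1 : ∀ᶠ t in nhds p, HasDerivAt f (f' t) t)
    (h2 : HasDerivAt f' f₂ p) {δ : ℝ} (hδ : 0 < δ) :
    ∀ᶠ t in nhds p, f p + f' p * (t - p) + (f₂ / 2 - δ) * (t - p) ^ 2 ≤ f t := by
  set φ : ℝ → ℝ := fun t => f t - (f p + f' p * (t - p) + (f₂ / 2 - δ) * (t - p) ^ 2) with hφ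
  set φ' : ℝ → ℝ := fun t => f' t - (f' p + (f₂ - 2 * δ) * (t - p)) with hφ'
  have hd : ∀ᶠ t in nhds p, HasDerivAt φ (φ' t) t := by
    filter_upwards [h1] with t ht
    have e1 : HasDerivAt (fun t : ℝ => t - p) 1 t := (hasDerivAt_id t).sub_const p
    have e2 := ((e1.const_mul (f' p)).const_add (f p)).add ((e1.pow 2).const_mul (f₂ / 2 - δ))
    have e3 := ht.sub e2
    refine e3.congr_deriv ?_
    simp only [hφ']
    push_cast
    ring
  have hde : deriv φ =ᶠ[nhds p] φ' := by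
    filter_upwards [hd] with t ht using ht.deriv
  have hd2 : HasDerivAt φ' (2 * δ) p := by
    have e1 : HasDerivAt (fun t : ℝ => t - p) 1 p := (hasDerivAt_id p).sub_const p
    have e3 := h2.sub ((e1.const_mul (f₂ - 2 * δ)).const_add (f' p))
    refine e3.congr_deriv ?_
    ring
  have hmin : IsLocalMin φ p := by
    refine isLocalMin_of_deriv_deriv_pos ?_ ?_ hd.self_of_nhds.continuousAt
    · rw [hde.deriv_eq, hd2.deriv]
      positivity
    · rw [hd.self_of_nhds.deriv]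
      simp [hφ']
  filter_upwards [hmin] with t ht
  simp only [hφ, sub_self, mul_zero, add_zero, ne_eq, OfNat.ofNat_ne_zero, not_false_eq_true,
    zero_pow] at ht
  linarith

lemma tifun_gf_min (τ : ℝ) :
    gf τ = Real.log (min τ 1) + (1 - min τ 1) + (1 - min τ 1) ^ 2 / 2 := by
  unfold gf
  split_ifs with h
  · rw [min_eq_left h.le]
  · rw [min_eq_right (not_lt.mp h)]
    simp

lemma tifun_gf_cont : ContinuousOn gf (Set.Ioi 0) := by
  have e : gf = fun τ => Real.log (min τ 1) + (1 - min τ 1) + (1 - min τ 1) ^ 2 / 2 :=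
    funext tifun_gf_min
  rw [e]
  have h1 : Continuous fun τ : ℝ => min τ 1 := continuous_id.min continuous_const
  refine ContinuousOn.add (ContinuousOn.add ?_ ?_) ?_
  · refine h1.continuousOn.log fun τ hτ => ?_
    exact (lt_min hτ one_pos).ne'
  · exact (continuous_const.sub h1).continuousOn
  · exact (((continuous_const.sub h1).pow 2).div_const 2).continuousOn

lemma tifun_gf_cube {τ : ℝ} (h0 : 0 < τ) (h1 : τ < 1) : gf τ ≤ -((1 - τ) ^ 3 / 3) := by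
  have hx : |1 - τ| < 1 := by
    rw [abs_lt]
    constructor <;> linarith
  have hs := Real.hasSum_pow_div_log_of_abs_lt_one hx
  have hle := sum_le_hasSum (range 3) (fun i _ => by
    have : 0 ≤ 1 - τ := by linarith
    positivity) hs
  simp only [sum_range_succ, range_zero, sum_empty, sub_sub_cancel] at hle
  unfold gf
  rw [if_pos h1]
  push_cast at hle
  norm_num at hle
  linarith

lemma tifun_gf_nonpos {τ : ℝ} (h0 : 0 < τ) : gf τ ≤ 0 := by
  by_cases h1 : τ < 1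
  · have h := tifun_gf_cube h0 h1
    have : 0 ≤ (1 - τ) ^ 3 := pow_nonneg (by linarith) 3
    linarith
  · unfold gf
    rw [if_neg h1]

lemma tifun_log_le_gf {τ : ℝ} (h1 : τ ≤ 1) : Real.log τ ≤ gf τ := by
  unfold gf
  split_ifs with h
  · nlinarith [sq_nonneg (1 - τ)]
  · have : τ = 1 := le_antisymm h1 (not_lt.mp h)
    rw [this, Real.log_one]

lemma tifun_gf_le_log {τ : ℝ} (h0 : 0 < τ) : gf τ ≤ Real.log τ + 3 / 2 := by
  unfold gf
  split_ifs with h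
  · nlinarith
  · have := Real.log_nonneg (not_lt.mp h)
    linarith

lemma tifun_arg_pos {ε : ℝ} (hε : 0 < ε) (ρ : ℝ) {σ : ℝ} (hσ : 0 ≤ σ) :
    0 < (σ / ρ ^ 2 + ε) / (1 + ε) := by
  positivity

lemma lam_cont {ε : ℝ} (hε : 0 < ε) (ρ : ℝ) : Continuous (lam ε ρ) := by
  unfold lam
  refine continuous_const.mul ?_
  refine tifun_gf_cont.comp_continuous (by fun_prop) fun y => ?_
  exact tifun_arg_pos hε ρ (sq_nonneg _)

lemma lam_nonpos {ε : ℝ} (hε : 0 < ε) (ρ : ℝ) (y : ℂ) : lam ε ρ y ≤ 0 := by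
  unfold lam
  have := tifun_gf_nonpos (tifun_arg_pos hε ρ (sq_nonneg ‖y‖))
  linarith

lemma lam_zero {ε ρ : ℝ} (hε : 0 < ε) (hρ : 0 < ρ) {y : ℂ} (h : ρ ≤ ‖y‖) : lam ε ρ y = 0 := by
  unfold lam gf
  rw [if_neg, mul_zero]
  rw [not_lt, le_div_iff₀ (by positivity)]
  have : 1 ≤ ‖y‖ ^ 2 / ρ ^ 2 := by
    rw [le_div_iff₀ (by positivity), one_mul]
    exact pow_le_pow_left₀ hρ.le h 2
  linarith

lemma tifun_log_le_lam {ε ρ : ℝ} (hε : 0 < ε) (hρ : 0 < ρ) {y : ℂ} (hy0 : 0 < ‖y‖)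
    (hy : ‖y‖ ≤ ρ) : Real.log (‖y‖ / ρ) ≤ lam ε ρ y := by
  unfold lam
  have hσ : ‖y‖ ^ 2 / ρ ^ 2 ≤ 1 := by
    rw [div_le_iff₀ (by positivity), one_mul]
    exact pow_le_pow_left₀ hy0.le hy 2
  have h1 : (‖y‖ ^ 2 / ρ ^ 2 + ε) / (1 + ε) ≤ 1 := by
    rw [div_le_iff₀ (by positivity)]
    linarith
  have h2 : ‖y‖ ^ 2 / ρ ^ 2 ≤ (‖y‖ ^ 2 / ρ ^ 2 + ε) / (1 + ε) := by
    rw [le_div_iff₀ (by positivity)]
    nlinarith
  have h3 := tifun_log_le_gf h1
  have h4 := Real.log_le_log (by positivity) h2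
  rw [← div_pow, Real.log_pow] at h4
  rw [← div_pow] at h3 ⊢
  push_cast at h4
  linarith

lemma lam_small {ε ρ A : ℝ} (hε : 0 < ε) (hρ : 0 < ρ) {y : ℂ} (hy : ‖y‖ ≤ ρ)
    (h : lam ε ρ y ≤ -A) : ‖y‖ ≤ ρ * Real.exp (-A) := by
  rcases (norm_nonneg y).eq_or_lt with h0 | h0
  · rw [← h0]
    positivity
  · have h1 := (tifun_log_le_lam hε hρ h0 hy).trans h
    rw [Real.log_le_iff_le_exp (by positivity), div_le_iff₀ hρ] at h1
    linarith

lemma lam_lower {ε ρ d : ℝ} (hε : 0 < ε) (hρ : 0 < ρ) (hd : 0 < d) {y : ℂ} (hy : d ≤ ‖y‖) :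
    -|Real.log (d / ρ)| ≤ lam ε ρ y := by
  rcases le_total ρ ‖y‖ with h | h
  · rw [lam_zero hε hρ h]
    have := abs_nonneg (Real.log (d / ρ))
    linarith
  · have h1 := tifun_log_le_lam hε hρ (hd.trans_le hy) h
    have h2 : Real.log (d / ρ) ≤ Real.log (‖y‖ / ρ) :=
      Real.log_le_log (by positivity) (div_le_div_of_nonneg_right hy hρ.le)
    have := neg_abs_le (Real.log (d / ρ))
    linarith

lemma lam_upper {ε ρ : ℝ} (hε : 0 < ε) (hε1 : ε ≤ 1) (hρ : 1 ≤ ρ) {y y' : ℂ} {P : ℝ} (hP : 1 ≤ P)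
    (h : ‖y‖ ≤ P * ‖y'‖) : lam ε ρ y ≤ 1 / 2 * Real.log (ε + ‖y'‖ ^ 2) + (Real.log P + 1) := by
  unfold lam
  have h0 := tifun_arg_pos hε ρ (sq_nonneg ‖y‖)
  have h1 := tifun_gf_le_log h0
  have hP2 : 1 ≤ P ^ 2 := one_le_pow₀ hP
  have h2 : (‖y‖ ^ 2 / ρ ^ 2 + ε) / (1 + ε) ≤ P ^ 2 * (ε + ‖y'‖ ^ 2) := by
    have a1 : (‖y‖ ^ 2 / ρ ^ 2 + ε) / (1 + ε) ≤ ‖y‖ ^ 2 / ρ ^ 2 + ε :=
      div_le_self (by positivity) (by linarith)
    have a2 : ‖y‖ ^ 2 / ρ ^ 2 ≤ ‖y‖ ^ 2 := div_le_self (by positivity) (one_le_pow₀ hρ)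
    have a3 : ‖y‖ ^ 2 ≤ (P * ‖y'‖) ^ 2 := pow_le_pow_left₀ (norm_nonneg _) h 2
    have a4 : ε ≤ P ^ 2 * ε := le_mul_of_one_le_left hε.le hP2
    nlinarith
  have h3 := Real.log_le_log h0 h2
  rw [Real.log_mul (by positivity) (by positivity), Real.log_pow] at h3
  push_cast at h3
  linarith

/-- Taylor bound for the smooth branch of `gf` after an affine change of the variable. -/
lemma tifun_taylor_branch {c e p : ℝ} (hp : 0 < c * p + e) {δ : ℝ} (hδ : 0 < δ) :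
    ∀ᶠ t in nhds p,
      1 / 2 * (Real.log (c * p + e) + (1 - (c * p + e)) + (1 - (c * p + e)) ^ 2 / 2) +
        c / 2 * ((c * p + e)⁻¹ - 2 + (c * p + e)) * (t - p) +
        (c ^ 2 / 2 * (1 - ((c * p + e) ^ 2)⁻¹) / 2 - δ) * (t - p) ^ 2 ≤
      1 / 2 * (Real.log (c * t + e) + (1 - (c * t + e)) + (1 - (c * t + e)) ^ 2 / 2) := by
  have hA : ∀ t : ℝ, HasDerivAt (fun t => c * t + e) c t := fun t => by
    simpa using ((hasDerivAt_id t).const_mul c).add_const e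
  have hpos : ∀ᶠ t in nhds p, 0 < c * t + e :=
    (hA p).continuousAt.eventually (lt_mem_nhds hp)
  refine tifun_taylor
    (f := fun t => 1 / 2 * (Real.log (c * t + e) + (1 - (c * t + e)) + (1 - (c * t + e)) ^ 2 / 2))
    (f' := fun t => c / 2 * ((c * t + e)⁻¹ - 2 + (c * t + e))) ?_ ?_ hδ
  · filter_upwards [hpos] with t ht
    have e1 := (hA t).const_sub 1
    have e2 := ((((hA t).log ht.ne').add e1).add ((e1.pow 2).div_const 2)).const_mul (1 / 2)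
    refine e2.congr_deriv ?_
    push_cast
    field_simp
    ring
  · have e2 := (((((hA p).inv hp.ne')).sub_const 2).add (hA p)).const_mul (c / 2)
    refine e2.congr_deriv ?_
    field_simp
    ring

lemma subM_lam {ε ρ om : ℝ} (hε : 0 < ε) (hρ : 0 < ρ) (hom : 0 ≤ om) (Y β : E → ℂ) (x : E)
    (hY : ∀ (v : E) (t : ℂ), Y (x + t • v) = Y x + t * β v)
    (h : 1 ≤ om ∨ -(om ^ 3 / 6) ≤ lam ε ρ (Y x)) :
    SubM (fun y => lam ε ρ (Y y)) x fun v => -(om * ‖β v‖ ^ 2 / ρ ^ 2) := by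
  set c : ℝ := 1 / (ρ ^ 2 * (1 + ε)) with hc
  set e : ℝ := ε / (1 + ε) with he
  have hc0 : 0 < c := by positivity
  have he0 : 0 < e := by positivity
  have hc1 : c ≤ 1 / ρ ^ 2 :=
    one_div_le_one_div_of_le (by positivity) (le_mul_of_one_le_right (by positivity) (by linarith))
  have harg : ∀ σ : ℝ, (σ / ρ ^ 2 + ε) / (1 + ε) = c * σ + e := fun σ => by
    rw [hc, he]
    field_simp
  have hlam : ∀ y : ℂ, lam ε ρ y = 1 / 2 * gf (c * ‖y‖ ^ 2 + e) := fun y => by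
    unfold lam
    rw [harg]
  have hfc : ContinuousOn (fun σ : ℝ => 1 / 2 * gf (c * σ + e)) (Set.Ici 0) := by
    refine continuousOn_const.mul (tifun_gf_cont.comp (by fun_prop) fun σ hσ => ?_)
    have : 0 ≤ σ := hσ
    show 0 < c * σ + e
    positivity
  simp only [hlam] at h ⊢
  set p : ℝ := ‖Y x‖ ^ 2 with hp
  have hp0 : 0 ≤ p := sq_nonneg _
  have hτ0 : 0 < c * p + e := by positivity
  have hcont : ContinuousAt (fun t : ℝ => c * t + e) p := by fun_prop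
  have hzero : (∀ δ : ℝ, 0 < δ → ∀ᶠ τ in nhds p,
      1 / 2 * gf (c * p + e) + 0 * (τ - p) + (0 / 2 - δ) * (τ - p) ^ 2 ≤
        1 / 2 * gf (c * τ + e)) →
      SubM (fun y => 1 / 2 * gf (c * ‖Y y‖ ^ 2 + e)) x fun v => -(om * ‖β v‖ ^ 2 / ρ ^ 2) := by
    intro hT
    refine (subM_normSq (fun σ : ℝ => 1 / 2 * gf (c * σ + e)) hfc Y β x hY 0 0 hT).mono fun v => ?_
    have : 0 ≤ om * ‖β v‖ ^ 2 / ρ ^ 2 := by positivity
    linarith
  rcases lt_trichotomy (c * p + e) 1 with h1 | h1 | h1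
  · have hT : ∀ δ : ℝ, 0 < δ → ∀ᶠ τ in nhds p,
        1 / 2 * gf (c * p + e) + c / 2 * ((c * p + e)⁻¹ - 2 + (c * p + e)) * (τ - p) +
          (c ^ 2 / 2 * (1 - ((c * p + e) ^ 2)⁻¹) / 2 - δ) * (τ - p) ^ 2 ≤
          1 / 2 * gf (c * τ + e) := by
      intro δ hδ
      filter_upwards [tifun_taylor_branch hτ0 hδ, hcont.eventually (gt_mem_nhds h1)] with t ht ht1
      unfold gf
      rw [if_pos h1, if_pos ht1]
      exact ht
    refine (subM_normSq (fun σ : ℝ => 1 / 2 * gf (c * σ + e)) hfc Y β x hY _ _ hT).mono fun v => ?_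
    have hom' : 1 - (c * p + e) ≤ om := by
      rcases h with h | h
      · linarith
      · have h2 := tifun_gf_cube hτ0 h1
        have h3 : (1 - (c * p + e)) ^ 3 ≤ om ^ 3 := by linarith
        exact le_of_pow_le_pow_left₀ (by norm_num) hom h3
    have key : -(om / ρ ^ 2) ≤ c / 2 * ((c * p + e)⁻¹ - 2 + (c * p + e)) +
        c ^ 2 / 2 * (1 - ((c * p + e) ^ 2)⁻¹) * p := by
      have a0 : 1 ≤ ((c * p + e) ^ 2)⁻¹ :=
        (one_le_inv₀ (by positivity)).mpr (pow_le_one₀ hτ0.le h1.le)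
      have a1 : c / 2 * ((c * p + e)⁻¹ - 2 + (c * p + e)) +
          c ^ 2 / 2 * (1 - ((c * p + e) ^ 2)⁻¹) * p =
          -(c * (1 - (c * p + e))) + c / 2 * e * (((c * p + e) ^ 2)⁻¹ - 1) := by
        field_simp
        ring
      have a2 : 0 ≤ c / 2 * e * (((c * p + e) ^ 2)⁻¹ - 1) :=
        mul_nonneg (by positivity) (by linarith)
      have a3 : c * (1 - (c * p + e)) ≤ 1 / ρ ^ 2 * om :=
        mul_le_mul hc1 hom' (by linarith) (by positivity)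
      have a4 : 1 / ρ ^ 2 * om = om / ρ ^ 2 := by ring
      linarith
    have := mul_le_mul_of_nonneg_right key (sq_nonneg ‖β v‖)
    calc -(om * ‖β v‖ ^ 2 / ρ ^ 2) = -(om / ρ ^ 2) * ‖β v‖ ^ 2 := by ring
      _ ≤ _ := this
  · refine hzero fun δ hδ => ?_
    filter_upwards [tifun_taylor_branch hτ0 hδ] with t ht
    rw [h1] at ht ⊢
    have hsq : 0 ≤ δ * (t - p) ^ 2 := by positivity
    unfold gf
    rw [if_neg (lt_irrefl _)]
    split_ifs with ht1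
    · norm_num at ht ⊢
      linarith
    · linarith
  · refine hzero fun δ hδ => ?_
    filter_upwards [hcont.eventually (lt_mem_nhds h1)] with t ht
    have hsq : 0 ≤ δ * (t - p) ^ 2 := by positivity
    unfold gf
    rw [if_neg (not_lt.mpr h1.le), if_neg (not_lt.mpr ht.le)]
    linarith

lemma hub_cont (ρ : ℝ) : Continuous (hub ρ) := by
  unfold hub
  fun_prop

lemma hub_nonneg (ρ s : ℝ) : 0 ≤ hub ρ s := Real.sqrt_nonneg _

lemma hub_le {ρ : ℝ} (hρ : 0 ≤ ρ) (s : ℝ) : hub ρ s ≤ ρ + |s| := by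
  unfold hub
  rw [Real.sqrt_le_left (by positivity)]
  have := abs_nonneg s
  nlinarith [sq_abs s]

lemma tifun_hub_taylor {ρ : ℝ} (hρ : 0 < ρ) (p : ℝ) {δ : ℝ} (hδ : 0 < δ) :
    ∀ᶠ t in nhds p, hub ρ p + p / hub ρ p * (t - p) +
      (ρ ^ 2 / hub ρ p ^ 3 / 2 - δ) * (t - p) ^ 2 ≤ hub ρ t := by
  have hpos : ∀ t : ℝ, 0 < ρ ^ 2 + t ^ 2 := fun t => by positivity
  have hh : ∀ t : ℝ, 0 < hub ρ t := fun t => Real.sqrt_pos.mpr (hpos t)
  have hsq : ∀ t : ℝ, hub ρ t ^ 2 = ρ ^ 2 + t ^ 2 := fun t => Real.sq_sqrt (hpos t).le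
  have hd : ∀ t : ℝ, HasDerivAt (hub ρ) (t / hub ρ t) t := fun t => by
    have e1 := (((hasDerivAt_id t).pow 2).const_add (ρ ^ 2)).sqrt (hpos t).ne'
    refine e1.congr_deriv ?_
    have := hh t
    unfold hub at this ⊢
    simp only [id, Pi.pow_apply]
    push_cast
    field_simp
  refine tifun_taylor (f := hub ρ) (f' := fun t => t / hub ρ t)
    (Filter.Eventually.of_forall hd) ?_ hδ
  have e1 := (hasDerivAt_id p).div (hd p) (hh p).ne'
  refine e1.congr_deriv ?_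
  have a1 := hh p
  have a2 := hsq p
  simp only [id]
  field_simp
  linarith

lemma subM_hub {ρ : ℝ} (hρ : 0 < ρ) (Y β : E → ℂ) (x : E)
    (hY : ∀ (v : E) (t : ℂ), Y (x + t • v) = Y x + t * β v) :
    SubM (fun y => hub ρ (Y y).re) x (fun _ => 0) ∧
      (|(Y x).re| ≤ ρ → SubM (fun y => hub ρ (Y y).re) x fun v => ‖β v‖ ^ 2 / (12 * ρ)) := by
  have hS := subM_re (hub ρ) (hub_cont ρ) Y β x hY _ _
    fun δ hδ => tifun_hub_taylor hρ (Y x).re hδ
  have hh : 0 < hub ρ (Y x).re := Real.sqrt_pos.mpr (by positivity)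
  refine ⟨hS.mono fun v => by positivity, fun hx => hS.mono fun v => ?_⟩
  have h1 : hub ρ (Y x).re ≤ 17 / 12 * ρ := by
    unfold hub
    rw [Real.sqrt_le_left (by positivity)]
    have : (Y x).re ^ 2 ≤ ρ ^ 2 := by
      rw [← sq_abs]
      exact pow_le_pow_left₀ (abs_nonneg _) hx 2
    nlinarith
  have h2 : hub ρ (Y x).re ^ 3 ≤ 3 * ρ ^ 3 := by
    have a := pow_le_pow_left₀ hh.le h1 3
    have b : 0 < ρ ^ 3 := by positivity
    nlinarith
  have h3 : 1 / (12 * ρ) ≤ ρ ^ 2 / hub ρ (Y x).re ^ 3 / 4 := by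
    rw [div_div, div_le_div_iff₀ (by positivity) (by positivity)]
    nlinarith
  calc ‖β v‖ ^ 2 / (12 * ρ) = 1 / (12 * ρ) * ‖β v‖ ^ 2 := by ring
    _ ≤ _ := mul_le_mul_of_nonneg_right h3 (sq_nonneg _)

lemma subM_log_one (Y β : E → ℂ) (x : E)
    (hY : ∀ (v : E) (t : ℂ), Y (x + t • v) = Y x + t * β v) :
    SubM (fun y => Real.log (1 + ‖Y y‖ ^ 2)) x fun v => ‖β v‖ ^ 2 / (1 + ‖Y x‖ ^ 2) ^ 2 := by
  have hp : 0 < 1 + ‖Y x‖ ^ 2 := by positivity
  have hA : ∀ t : ℝ, HasDerivAt (fun t : ℝ => 1 + t) 1 t := fun t =>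
    (hasDerivAt_id t).const_add 1
  have hfc : ContinuousOn (fun τ : ℝ => Real.log (1 + τ)) (Set.Ici 0) := by
    refine ContinuousOn.log (by fun_prop) fun τ hτ => ?_
    have : 0 ≤ τ := hτ
    positivity
  have hT : ∀ δ : ℝ, 0 < δ → ∀ᶠ τ in nhds (‖Y x‖ ^ 2),
      Real.log (1 + ‖Y x‖ ^ 2) + (1 + ‖Y x‖ ^ 2)⁻¹ * (τ - ‖Y x‖ ^ 2) +
        (-((1 + ‖Y x‖ ^ 2) ^ 2)⁻¹ / 2 - δ) * (τ - ‖Y x‖ ^ 2) ^ 2 ≤ Real.log (1 + τ) := by
    intro δ hδ
    refine tifun_taylor (f := fun τ => Real.log (1 + τ)) (f' := fun τ => (1 + τ)⁻¹) ?_ ?_ hδ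
    · filter_upwards [(hA _).continuousAt.eventually (lt_mem_nhds hp)] with t ht
      refine ((hA t).log ht.ne').congr_deriv ?_
      rw [one_div]
    · refine ((hA _).inv hp.ne').congr_deriv ?_
      rw [neg_div, one_div]
  refine (subM_normSq (fun τ : ℝ => Real.log (1 + τ)) hfc Y β x hY _ _ hT).mono fun v => ?_
  refine le_of_eq ?_
  field_simp
  ring

end Pool.Agent.Lib.MP_1f047c_nt.TI
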