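import Pool.Agent.Lib.MP_1f047c_nt.TIBoch2
import Pool.Agent.Lib.MP_1f047c_nt.TIConv2

open Finset MeasureTheory

namespace Pool.Agent.Lib.MP_1f047c_nt.TI

variable {ι : Type} [Fintype ι] [DecidableEq ι]

/-- Convergence in the quadratic mean. -/
def Tik1Cv {X : Type} [MeasurableSpace X] (μ : Measure X) (f : ℕ → X → ℂ) (g : X → ℂ) : Prop :=
  (∀ n, MemLp (f n) 2 μ) ∧ MemLp g 2 μ ∧
    Filter.Tendsto (fun n => eLpNorm (fun x => f n x - g x) 2 μ) Filter.atTop (nhds 0)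

section Cv

variable {X : Type} [MeasurableSpace X] {μ : Measure X}

lemma tik1_cv_add {f f' : ℕ → X → ℂ} {g g' : X → ℂ} (h : Tik1Cv μ f g) (h' : Tik1Cv μ f' g') :
    Tik1Cv μ (fun n x => f n x + f' n x) (fun x => g x + g' x) := by
  refine ⟨fun n => (h.1 n).add (h'.1 n), h.2.1.add h'.2.1, ?_⟩
  have hs := h.2.2.add h'.2.2
  rw [add_zero] at hs
  refine tendsto_of_tendsto_of_tendsto_of_le_of_le tendsto_const_nhds hs
    (fun _ => zero_le) fun n => ?_
  have e : (fun x => f n x + f' n x - (g x + g' x)) =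
      (fun x => f n x - g x) + fun x => f' n x - g' x := by
    funext x
    simp only [Pi.add_apply]
    ring
  simp only [e]
  exact eLpNorm_add_le ((h.1 n).sub h.2.1).1 ((h'.1 n).sub h'.2.1).1 (by norm_num)

lemma tik1_cv_sum {J : Type} (s : Finset J) {f : J → ℕ → X → ℂ} {g : J → X → ℂ}
    (h : ∀ j, Tik1Cv μ (f j) (g j)) :
    Tik1Cv μ (fun n x => ∑ j ∈ s, f j n x) (fun x => ∑ j ∈ s, g j x) := by
  classical
  induction s using Finset.induction_on with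
  | empty =>
    refine ⟨fun n => by simp, by simp, ?_⟩
    simp
  | insert a s ha ih =>
    simp only [Finset.sum_insert ha]
    exact tik1_cv_add (h a) ih

lemma tik1_memLp_mul {f φ : X → ℂ} (hf : MemLp f 2 μ) (hφ : AEStronglyMeasurable φ μ) {M : ℝ}
    (hM : ∀ x, ‖φ x‖ ≤ M) : MemLp (fun x => φ x * f x) 2 μ := by
  refine hf.of_le_mul (c := M) (hφ.mul hf.1) (Filter.Eventually.of_forall fun x => ?_)
  rw [norm_mul]
  exact mul_le_mul_of_nonneg_right (hM x) (norm_nonneg _)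

lemma tik1_cv_mul {f : ℕ → X → ℂ} {g φ : X → ℂ} (h : Tik1Cv μ f g)
    (hφ : AEStronglyMeasurable φ μ) {M : ℝ} (hM : ∀ x, ‖φ x‖ ≤ M) :
    Tik1Cv μ (fun n x => φ x * f n x) (fun x => φ x * g x) := by
  refine ⟨fun n => tik1_memLp_mul (h.1 n) hφ hM, tik1_memLp_mul h.2.1 hφ hM, ?_⟩
  have hs := ENNReal.Tendsto.const_mul (a := ENNReal.ofReal M) h.2.2
    (Or.inr ENNReal.ofReal_ne_top)
  rw [mul_zero] at hs
  refine tendsto_of_tendsto_of_tendsto_of_le_of_le tendsto_const_nhds hs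
    (fun _ => zero_le) fun n => ?_
  refine eLpNorm_le_mul_eLpNorm_of_ae_le_mul (Filter.Eventually.of_forall fun x => ?_) 2
  rw [← mul_sub, norm_mul]
  exact mul_le_mul_of_nonneg_right (hM x) (norm_nonneg _)

lemma tik1_sq_integrable {f : X → ℂ} (hf : MemLp f 2 μ) :
    Integrable (fun x => ‖f x‖ ^ 2) μ :=
  (memLp_two_iff_integrable_sq_norm hf.1).1 hf

lemma tik1_sq_eq {f : X → ℂ} (hf : MemLp f 2 μ) :
    ∫ x, ‖f x‖ ^ 2 ∂μ = (eLpNorm f 2 μ).toReal ^ 2 := by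
  have h0 : 0 ≤ ∫ x, ‖f x‖ ^ 2 ∂μ := integral_nonneg fun x => by positivity
  rw [hf.eLpNorm_eq_integral_rpow_norm (by norm_num) (by norm_num)]
  have e : (2 : ENNReal).toReal = 2 := by norm_num
  rw [e]
  have e2 : ∫ a, ‖f a‖ ^ (2 : ℝ) ∂μ = ∫ x, ‖f x‖ ^ 2 ∂μ := by
    refine integral_congr_ae (Filter.Eventually.of_forall fun x => ?_)
    simp
  rw [e2, ENNReal.toReal_ofReal (Real.rpow_nonneg h0 _), ← Real.rpow_natCast,
    ← Real.rpow_mul h0]
  norm_num

lemma tik1_w_integrable {f : X → ℂ} (hf : MemLp f 2 μ) {w : X → ℝ}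
    (hw : AEStronglyMeasurable w μ) {M : ℝ} (hM : ∀ x, ‖w x‖ ≤ M) :
    Integrable (fun x => ‖f x‖ ^ 2 * w x) μ :=
  (tik1_sq_integrable hf).mul_bdd hw (Filter.Eventually.of_forall hM)

lemma tik1_cv_int {f : ℕ → X → ℂ} {g : X → ℂ} (h : Tik1Cv μ f g) {w : X → ℝ}
    (hw : AEStronglyMeasurable w μ) {M : ℝ} (hM0 : 0 ≤ M) (hM : ∀ x, ‖w x‖ ≤ M) :
    Filter.Tendsto (fun n => ∫ x, ‖f n x‖ ^ 2 * w x ∂μ) Filter.atTop
      (nhds (∫ x, ‖g x‖ ^ 2 * w x ∂μ)) := by
  have hd : ∀ n, MemLp (fun x => f n x - g x) 2 μ := fun n => (h.1 n).sub h.2.1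
  have hE : Filter.Tendsto (fun n => ∫ x, ‖f n x - g x‖ ^ 2 ∂μ) Filter.atTop (nhds 0) := by
    have h1 := (ENNReal.tendsto_toReal ENNReal.zero_ne_top).comp h.2.2
    have h2 := h1.pow 2
    simp only [ENNReal.toReal_zero, ne_eq, OfNat.ofNat_ne_zero, not_false_eq_true, zero_pow] at h2
    refine h2.congr fun n => ?_
    rw [tik1_sq_eq (hd n)]
    rfl
  obtain ⟨C, hC⟩ : ∃ C, C = ∫ x, ‖g x‖ ^ 2 ∂μ := ⟨_, rfl⟩
  have hC0 : 0 ≤ C := by rw [hC]; exact integral_nonneg fun x => by positivity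
  have key : ∀ δ : ℝ, 0 < δ → ∀ n, ‖(∫ x, ‖f n x‖ ^ 2 * w x ∂μ) - ∫ x, ‖g x‖ ^ 2 * w x ∂μ‖ ≤
      M * ((1 + 1 / δ) * ∫ x, ‖f n x - g x‖ ^ 2 ∂μ) + M * (δ * C) := by
    intro δ hδ n
    have i1 := tik1_sq_integrable (hd n)
    have i2 := tik1_sq_integrable h.2.1
    rw [← integral_sub (tik1_w_integrable (h.1 n) hw hM) (tik1_w_integrable h.2.1 hw hM), hC,
      ← integral_const_mul, ← integral_const_mul, ← integral_const_mul, ← integral_const_mul,
      ← integral_add ((i1.const_mul _).const_mul _) ((i2.const_mul _).const_mul _)]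
    refine norm_integral_le_of_norm_le
      (((i1.const_mul _).const_mul _).add ((i2.const_mul _).const_mul _))
      (Filter.Eventually.of_forall fun x => ?_)
    rw [← sub_mul, norm_mul, ← mul_add, mul_comm M]
    refine mul_le_mul ?_ (hM x) (norm_nonneg _) (by positivity)
    have a1 : |‖f n x‖ - ‖g x‖| ≤ ‖f n x - g x‖ := abs_norm_sub_norm_le _ _
    generalize ‖f n x - g x‖ = d at a1
    have hb := norm_nonneg (g x)
    generalize ‖g x‖ = q at a1 hb
    generalize ‖f n x‖ = p at a1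
    have hd0 : 0 ≤ d := le_trans (abs_nonneg _) a1
    obtain ⟨a2, a3⟩ := abs_le.1 a1
    have a4 : 2 * d * q ≤ 1 / δ * d ^ 2 + δ * q ^ 2 := by
      have : 0 ≤ 1 / δ * (d - δ * q) ^ 2 := by positivity
      have e : 1 / δ * (d - δ * q) ^ 2 = 1 / δ * d ^ 2 - 2 * d * q + δ * q ^ 2 := by
        field_simp
        ring
      linarith
    have a5 : (p - q) ^ 2 ≤ d ^ 2 := sq_le_sq' a2 a3
    have a6 : (p - q) * q ≤ d * q := mul_le_mul_of_nonneg_right a3 hb
    have a7 : -d * q ≤ (p - q) * q := mul_le_mul_of_nonneg_right a2 hb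
    rw [Real.norm_eq_abs, abs_le]
    constructor <;> nlinarith [sq_nonneg (p - q), sq_nonneg d]
  rw [Metric.tendsto_atTop]
  intro e he
  obtain ⟨δ, hδ, hδ2⟩ : ∃ δ : ℝ, 0 < δ ∧ M * (δ * C) < e / 2 := by
    refine ⟨e / (2 * (M * C + 1)), by positivity, ?_⟩
    have : M * (e / (2 * (M * C + 1)) * C) = e / 2 * (M * C / (M * C + 1)) := by
      field_simp
    rw [this]
    have h3 : M * C / (M * C + 1) < 1 := by
      rw [div_lt_one (by positivity)]
      linarith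
    nlinarith
  have h4 := (hE.const_mul (1 + 1 / δ)).const_mul M
  simp only [mul_zero] at h4
  obtain ⟨N, hN⟩ := Filter.eventually_atTop.1 (h4.eventually (gt_mem_nhds (half_pos he)))
  refine ⟨N, fun n hn => ?_⟩
  rw [dist_eq_norm]
  have := key δ hδ n
  have := hN n hn
  linarith

end Cv

omit [DecidableEq ι] in
lemma tik1_cut {F : Type} [NormedAddCommGroup F] {φ : (ι → ℂ) → F} (hφ : Continuous φ) (R : ℝ)
    {B : Set (ι → ℂ)} (hB : MeasurableSet B) :
    ∃ φ' : (ι → ℂ) → F, ∃ M : ℝ, 0 ≤ M ∧ AEStronglyMeasurable φ' volume ∧ (∀ x, ‖φ' x‖ ≤ M) ∧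
      ∀ x, ‖x‖ ≤ R → φ' x = B.indicator φ x := by
  obtain ⟨M, hM⟩ := (isCompact_closedBall (0 : ι → ℂ) R).exists_bound_of_continuousOn
    hφ.continuousOn
  refine ⟨(Metric.closedBall (0 : ι → ℂ) R ∩ B).indicator φ, max M 0, le_max_right _ _,
    hφ.aestronglyMeasurable.indicator (Metric.isClosed_closedBall.measurableSet.inter hB),
    fun x => ?_, fun x hx => ?_⟩
  · by_cases hx : x ∈ Metric.closedBall (0 : ι → ℂ) R ∩ B
    · rw [Set.indicator_of_mem hx]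
      exact le_trans (hM x hx.1) (le_max_left _ _)
    · rw [Set.indicator_of_notMem hx, norm_zero]
      exact le_max_right _ _
  · have hx' : x ∈ Metric.closedBall (0 : ι → ℂ) R := by simpa using hx
    by_cases hb : x ∈ B
    · rw [Set.indicator_of_mem (show x ∈ _ ∩ _ from ⟨hx', hb⟩), Set.indicator_of_mem hb]
    · rw [Set.indicator_of_notMem (fun h => hb h.2), Set.indicator_of_notMem hb]

omit [DecidableEq ι] in
lemma tik1_set_eq {w w' : (ι → ℂ) → ℝ} {R : ℝ} {B : Set (ι → ℂ)} (hB : MeasurableSet B)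
    (hw : ∀ x, ‖x‖ ≤ R → w' x = B.indicator w x) {f : (ι → ℂ) → ℂ}
    (hf : ∀ x, R < ‖x‖ → f x = 0) :
    ∫ x in B, ‖f x‖ ^ 2 * w x = ∫ x, ‖f x‖ ^ 2 * w' x := by
  rw [← integral_indicator hB]
  refine integral_congr_ae (Filter.Eventually.of_forall fun x => ?_)
  by_cases hx : ‖x‖ ≤ R
  · simp only [hw x hx]
    by_cases hb : x ∈ B
    · simp [Set.indicator_of_mem hb]
    · simp [Set.indicator_of_notMem hb]
  · have h0 := hf x (not_le.1 hx)
    by_cases hb : x ∈ B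
    · simp [Set.indicator_of_mem hb, h0]
    · simp [Set.indicator_of_notMem hb, h0]

omit [DecidableEq ι] in
lemma tik1_cv_set {f : ℕ → (ι → ℂ) → ℂ} {g : (ι → ℂ) → ℂ} (h : Tik1Cv volume f g)
    {w : (ι → ℂ) → ℝ} (hw : Continuous w) {R : ℝ} (hf : ∀ n x, R < ‖x‖ → f n x = 0)
    (hg : ∀ x, R < ‖x‖ → g x = 0) {B : Set (ι → ℂ)} (hB : MeasurableSet B) :
    Filter.Tendsto (fun n => ∫ x in B, ‖f n x‖ ^ 2 * w x) Filter.atTop
      (nhds (∫ x in B, ‖g x‖ ^ 2 * w x)) := by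
  obtain ⟨w', M, hM0, hm, hM, he⟩ := tik1_cut hw R hB
  rw [tik1_set_eq hB he hg]
  exact (tik1_cv_int h hm hM0 hM).congr fun n => (tik1_set_eq hB he (hf n)).symm

omit [DecidableEq ι] in
lemma tik1_int_w {f : (ι → ℂ) → ℂ} (h : MemLp f 2 volume)
    {w : (ι → ℂ) → ℝ} (hw : Continuous w) {R : ℝ} (hf : ∀ x, R < ‖x‖ → f x = 0) :
    Integrable (fun x => ‖f x‖ ^ 2 * w x) volume := by
  obtain ⟨w', M, -, hm, hM, he⟩ := tik1_cut hw R MeasurableSet.univ
  refine (tik1_w_integrable h hm hM).congr (Filter.Eventually.of_forall fun x => ?_)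
  by_cases hx : ‖x‖ ≤ R
  · simp [he x hx]
  · simp [hf x (not_le.1 hx)]

omit [DecidableEq ι] in
lemma tik1_compact {F : Type} [Zero F] {f : (ι → ℂ) → F} {R : ℝ}
    (hf : ∀ x, R < ‖x‖ → f x = 0) : HasCompactSupport f :=
  HasCompactSupport.intro (isCompact_closedBall (0 : ι → ℂ) R) fun x hx =>
    hf x (by simpa using hx)

lemma tik1_levi (Φ : (ι → ℂ) → ℝ) (hΦ : ContDiff ℝ (⊤ : ℕ∞) Φ) (hL : ∀ x v, 0 ≤ Levi Φ x v)
    (κ : ℝ) (B : Set (ι → ℂ)) (hBm : MeasurableSet B)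
    (hB : ∀ x ∈ B, ∀ v, 4 * κ * ∑ j, ‖v j‖ ^ 2 ≤ Levi Φ x v)
    (a : ι → (ι → ℂ) → ℂ) (R : ℝ) (ha : ∀ j, Continuous (a j))
    (haR : ∀ j x, R < ‖x‖ → a j x = 0) :
    κ * ∑ j, ∫ x in B, ‖a j x‖ ^ 2 * Real.exp (-Φ x) ≤
      ∫ x, Levi Φ x (fun j => a j x) / 4 * Real.exp (-Φ x) := by
  have hΦc : ContDiff ℝ (⊤ : ℕ∞) fun y => (Φ y : ℂ) := Complex.ofRealCLM.contDiff.comp hΦ
  have hw : Continuous fun x => Real.exp (-Φ x) := Real.continuous_exp.comp hΦ.continuous.neg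
  have e : ∀ x, Levi Φ x (fun j => a j x) / 4 = (∑ j, ∑ k, dzb k (dz j fun y => (Φ y : ℂ)) x *
      a j x * starRingEnd ℂ (a k x)).re := fun x => by
    rw [← levi_eq hΦ x fun j => a j x, Complex.ofReal_re]
  have hc : Continuous fun x => Levi Φ x (fun j => a j x) / 4 := by
    simp only [e]
    refine Complex.continuous_re.comp (continuous_finsetSum _ fun j _ =>
      continuous_finsetSum _ fun k _ => ?_)
    exact ((dzb_smooth (dz_smooth hΦc j) k).continuous.mul (ha j)).mul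
      (Complex.continuous_conj.comp (ha k))
  have i1 : Integrable (fun x => Levi Φ x (fun j => a j x) / 4 * Real.exp (-Φ x)) volume := by
    refine (hc.mul hw).integrable_of_hasCompactSupport (tik1_compact (R := R) fun x hx => ?_)
    simp [e, haR _ x hx]
  have i2 : ∀ j, Integrable (fun x => ‖a j x‖ ^ 2 * Real.exp (-Φ x)) volume := fun j => by
    refine (((ha j).norm.pow 2).mul hw).integrable_of_hasCompactSupport
      (tik1_compact (R := R) fun x hx => ?_)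
    simp [haR _ x hx]
  rw [← integral_finsetSum _ fun j _ => (i2 j).integrableOn, ← integral_const_mul]
  refine le_trans (setIntegral_mono_on
    ((integrable_finsetSum _ fun j _ => (i2 j).integrableOn).const_mul κ) i1.integrableOn hBm
    fun x hx => ?_) (setIntegral_le_integral i1 (Filter.Eventually.of_forall fun x => ?_))
  · rw [← Finset.sum_mul, ← mul_assoc]
    refine mul_le_mul_of_nonneg_right ?_ (Real.exp_pos _).le
    have := hB x hx fun j => a j x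
    linarith
  · have := hL x fun j => a j x
    have := Real.exp_pos (-Φ x)
    simp only [Pi.zero_apply]
    positivity

/-- The basic inequality for square integrable forms with compact support. -/
theorem weak_compact (Φ : (ι → ℂ) → ℝ) (hΦ : ContDiff ℝ (⊤ : ℕ∞) Φ) (hL : ∀ x v, 0 ≤ Levi Φ x v)
    (κ : ℝ) (B : Set (ι → ℂ)) (hBm : MeasurableSet B)
    (hB : ∀ x ∈ B, ∀ v, 4 * κ * ∑ j, ‖v j‖ ^ 2 ≤ Levi Φ x v)
    (α : ι → (ι → ℂ) → ℂ) (b : (ι → ℂ) → ℂ) (S : ι → ι → (ι → ℂ) → ℂ) (R : ℝ)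
    (hα : ∀ j, MemLp (α j) 2 volume) (hb : MemLp b 2 volume) (hS : ∀ j k, MemLp (S j k) 2 volume)
    (hαR : ∀ j x, R < ‖x‖ → α j x = 0) (hbR : ∀ x, R < ‖x‖ → b x = 0)
    (hSR : ∀ j k x, R < ‖x‖ → S j k x = 0)
    (wS : ∀ ψ, Test ψ → ∀ j k,
      (∫ x, α j x * dzb k ψ x) - ∫ x, α k x * dzb j ψ x = -∫ x, S j k x * ψ x)
    (wT : ∀ ψ, Test ψ → ∑ j, ∫ x, α j x * dz j ψ x =
      ∫ x, (b x - ∑ j, dz j (fun y => (Φ y : ℂ)) x * α j x) * ψ x) :
    κ * ∫ x in B, (∑ j, ‖α j x‖ ^ 2) * Real.exp (-Φ x) ≤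
      (∫ x, ‖b x‖ ^ 2 * Real.exp (-Φ x)) +
        1 / 2 * ∑ j, ∑ k, ∫ x, ‖S j k x‖ ^ 2 * Real.exp (-Φ x) := by
  have hΦc : ContDiff ℝ (⊤ : ℕ∞) fun y => (Φ y : ℂ) := Complex.ofRealCLM.contDiff.comp hΦ
  have hw : Continuous fun x => Real.exp (-Φ x) := Real.continuous_exp.comp hΦ.continuous.neg
  have cv : ∀ {h : (ι → ℂ) → ℂ}, MemLp h 2 volume → Tik1Cv volume (fun n => mol n h) h :=
    fun hh => ⟨(mol_tendsto hh).1, hh, (mol_tendsto hh).2⟩
  have up : ∀ {h : (ι → ℂ) → ℂ}, (∀ x, R < ‖x‖ → h x = 0) → ∀ x, R + 1 < ‖x‖ → h x = 0 :=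
    fun hh x hx => hh x (by linarith)
  have li : ∀ j, LocallyIntegrable (α j) volume := fun j => (hα j).locallyIntegrable (by norm_num)
  choose φ M _hM0 hφm hφM hφe using fun j =>
    tik1_cut (dz_smooth hΦc j).continuous (R + 1) (B := Set.univ) MeasurableSet.univ
  have hφ : ∀ j (h : (ι → ℂ) → ℂ), (∀ x, R + 1 < ‖x‖ → h x = 0) → ∀ x,
      dz j (fun y => (Φ y : ℂ)) x * h x = φ j x * h x := by
    intro j h hh x
    by_cases hx : ‖x‖ ≤ R + 1
    · simp [hφe j x hx]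
    · simp [hh x (not_le.1 hx)]
  obtain ⟨c, hc⟩ : ∃ c : (ι → ℂ) → ℂ, c = fun x => b x - ∑ j, φ j x * α j x := ⟨_, rfl⟩
  have hcL : MemLp c 2 volume := by
    rw [hc]
    exact hb.sub (memLp_finsetSum _ fun j _ => tik1_memLp_mul (hα j) (hφm j) (hφM j))
  have hcR : ∀ x, R < ‖x‖ → c x = 0 := fun x hx => by simp [hc, hbR x hx, hαR _ x hx]
  have mR : ∀ j n x, R + 1 < ‖x‖ → mol n (α j) x = 0 := fun j n x hx =>
    mol_support (hαR j) n x hx
  have eS : ∀ n j k x, dzb k (mol n (α j)) x - dzb j (mol n (α k)) x = mol n (S j k) x := by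
    intro n j k x
    rw [dzb_mol (li j), dzb_mol (li k)]
    have := wS _ (eta_test n x) j k
    unfold mol
    linear_combination -this
  have eT : ∀ n x, Tst Φ (fun j => mol n (α j)) x =
      mol n c x + ∑ j, φ j x * mol n (α j) x := by
    intro n x
    have h1 := wT _ (eta_test n x)
    have h2 : mol n c x = ∑ j, ∫ y, α j y * dz j (eta n x) y := by
      rw [h1]
      unfold mol
      refine integral_congr_ae (Filter.Eventually.of_forall fun y => ?_)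
      simp only [hc, fun j => hφ j (α j) (up (hαR j)) y]
    unfold Tst
    rw [h2, ← Finset.sum_add_distrib, ← Finset.sum_neg_distrib]
    refine Finset.sum_congr rfl fun j _ => ?_
    rw [dz_mol (li j), hφ j _ (mR j n) x]
    ring
  have cT : Tik1Cv volume (fun n x => mol n c x + ∑ j, φ j x * mol n (α j) x) b := by
    have := tik1_cv_add (cv hcL) (tik1_cv_sum Finset.univ fun j =>
      tik1_cv_mul (cv (hα j)) (hφm j) (hφM j))
    have e : (fun x => c x + ∑ j, φ j x * α j x) = b := by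
      funext x
      simp [hc]
    rwa [e] at this
  have t1 := (tendsto_finsetSum Finset.univ fun j _ =>
    tik1_cv_set (cv (hα j)) hw (mR j) (up (hαR j)) hBm).const_mul κ
  have t2 := tik1_cv_set cT hw (R := R + 1)
    (fun n x hx => by simp [mol_support hcR n x hx, mR _ n x hx]) (up hbR) MeasurableSet.univ
  have t3 := (tendsto_finsetSum Finset.univ fun j _ => tendsto_finsetSum Finset.univ fun k _ =>
    tik1_cv_set (cv (hS j k)) hw (fun n x hx => mol_support (hSR j k) n x hx) (up (hSR j k))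
      MeasurableSet.univ).const_mul (1 / 2)
  simp only [Measure.restrict_univ] at t2 t3
  have e1 : ∫ x in B, (∑ j, ‖α j x‖ ^ 2) * Real.exp (-Φ x) =
      ∑ j, ∫ x in B, ‖α j x‖ ^ 2 * Real.exp (-Φ x) := by
    rw [← integral_finsetSum _ fun j _ => (tik1_int_w (hα j) hw (hαR j)).integrableOn]
    simp only [Finset.sum_mul]
  rw [e1]
  refine le_of_tendsto_of_tendsto' t1 (t2.add t3) fun n => ?_
  have hT : ∀ j, Test (mol n (α j)) := fun j => ⟨mol_smooth (li j) n, tik1_compact (mR j n)⟩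
  have h1 := bochner Φ hΦ (fun j => mol n (α j)) hT
  simp only [eS, eT] at h1
  exact le_trans (tik1_levi Φ hΦ hL κ B hBm hB (fun j => mol n (α j)) (R + 1)
    (fun j => (hT j).1.continuous) fun j x hx => mR j n x hx) h1

end Pool.Agent.Lib.MP_1f047c_nt.TI
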