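import Pool.Agent.Lib.MP_1f047c_nt.TIK1

open Finset MeasureTheory

namespace Pool.Agent.Lib.MP_1f047c_nt.TI

variable {ι : Type} [Fintype ι] [DecidableEq ι]

lemma tik2_norm (f : (ι → ℂ) → ℂ) (j : ι) (x : ι → ℂ) :
    ‖dz j f x‖ ≤ ‖fderiv ℝ f x‖ ∧ ‖dzb j f x‖ ≤ ‖fderiv ℝ f x‖ := by
  have h1 : ‖fderiv ℝ f x (Pi.single j 1)‖ ≤ ‖fderiv ℝ f x‖ := by
    simpa [Pi.norm_single] using (fderiv ℝ f x).le_opNorm (Pi.single j 1)
  have h2 : ‖Complex.I * fderiv ℝ f x (Pi.single j Complex.I)‖ ≤ ‖fderiv ℝ f x‖ := by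
    simpa [Pi.norm_single] using (fderiv ℝ f x).le_opNorm (Pi.single j Complex.I)
  unfold dz dzb
  rw [norm_div, norm_div, Complex.norm_two]
  constructor
  · linarith [norm_sub_le (fderiv ℝ f x (Pi.single j 1))
      (Complex.I * fderiv ℝ f x (Pi.single j Complex.I))]
  · linarith [norm_add_le (fderiv ℝ f x (Pi.single j 1))
      (Complex.I * fderiv ℝ f x (Pi.single j Complex.I))]

omit [DecidableEq ι] in
lemma tik2_cut (ε : ℝ) (hε : 0 < ε) (R₀ : ℝ) :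
    ∃ (χ : (ι → ℂ) → ℂ) (R : ℝ), Test χ ∧ (∀ x, ‖χ x‖ ≤ 1) ∧ (∀ x, ‖x‖ ≤ R₀ → χ x = 1) ∧
      (∀ x, R < ‖x‖ → χ x = 0 ∧ fderiv ℝ χ x = 0) ∧ ∀ x, ‖fderiv ℝ χ x‖ ≤ ε := by
  let c : ContDiffBump (0 : ι → ℂ) := ⟨1, 2, one_pos, one_lt_two⟩
  have h1 : ContDiff ℝ (⊤ : ℕ∞) fun x => ((c x : ℝ) : ℂ) :=
    Complex.ofRealCLM.contDiff.comp c.contDiff
  have h2 : HasCompactSupport fun x => ((c x : ℝ) : ℂ) :=
    c.hasCompactSupport.comp_left (g := fun t : ℝ => (t : ℂ)) Complex.ofReal_zero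
  obtain ⟨C, hC⟩ := ContDiff.lipschitzWith_of_hasCompactSupport h2 h1 (by simp)
  obtain ⟨s, hs, hs1, hs2⟩ : ∃ s : ℝ, 0 < s ∧ s * |R₀| ≤ 1 ∧ C * s ≤ ε := by
    have h3 : (0 : ℝ) ≤ C := C.2
    refine ⟨min (1 / (|R₀| + 1)) (ε / (C + 1)), by positivity, ?_, ?_⟩
    · refine (mul_le_mul_of_nonneg_right (min_le_left _ _) (abs_nonneg _)).trans ?_
      rw [one_div, inv_mul_le_iff₀ (by positivity)]
      linarith
    · refine (mul_le_mul_of_nonneg_left (min_le_right _ _) h3).trans ?_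
      rw [← mul_div_assoc, div_le_iff₀ (by positivity)]
      linarith
  have h3 : HasCompactSupport fun x : ι → ℂ => ((c (s • x) : ℝ) : ℂ) := h2.comp_smul hs.ne'
  obtain ⟨R, hR⟩ := h3.isCompact.isBounded.exists_norm_le
  refine ⟨fun x => ((c (s • x) : ℝ) : ℂ), R, ⟨h1.comp (contDiff_const_smul s), h3⟩, fun x => ?_,
    fun x hx => ?_, fun x hx => ?_, fun x => ?_⟩
  · rw [Complex.norm_real, Real.norm_of_nonneg c.nonneg]
    exact c.le_one
  · refine Complex.ofReal_eq_one.2 (c.one_of_mem_closedBall ?_)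
    rw [mem_closedBall_zero_iff, norm_smul, Real.norm_of_nonneg hs.le]
    exact (mul_le_mul_of_nonneg_left (hx.trans (le_abs_self _)) hs.le).trans hs1
  · have h4 := mt (hR x) hx.not_ge
    exact ⟨image_eq_zero_of_notMem_tsupport (f := fun x => ((c (s • x) : ℝ) : ℂ)) h4,
      fderiv_of_notMem_tsupport ℝ h4⟩
  · refine (norm_fderiv_le_of_lipschitz ℝ (hC.comp (lipschitzWith_smul s))).trans ?_
    rwa [NNReal.coe_mul, coe_nnnorm, Real.norm_of_nonneg hs.le]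

omit [DecidableEq ι] in
lemma tik2_w {Φ : (ι → ℂ) → ℝ} (hΦ : Continuous Φ) {g : (ι → ℂ) → ℂ} (hg : Test g) :
    Continuous (fun x => ‖g x‖ ^ 2 * Real.exp (Φ x)) ∧
      HasCompactSupport fun x => ‖g x‖ ^ 2 * Real.exp (Φ x) :=
  ⟨(hg.1.continuous.norm.pow 2).mul hΦ.rexp,
    (hg.2.comp_left (g := fun t : ℂ => ‖t‖ ^ 2) (by simp)).mul_right⟩

omit [DecidableEq ι] in
lemma tik2_mem {Φ : (ι → ℂ) → ℝ} (hΦ : Continuous Φ) {a g : (ι → ℂ) → ℂ}
    (ha : AEStronglyMeasurable a volume)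
    (ha' : Integrable fun x => ‖a x‖ ^ 2 * Real.exp (-Φ x)) (hg : Test g) :
    MemLp (fun x => g x * a x) 2 volume := by
  obtain ⟨h1, h2⟩ := tik2_w hΦ hg
  obtain ⟨C, hC⟩ := h1.bounded_above_of_compact_support h2
  refine (memLp_two_iff_integrable_sq_norm (hg.1.continuous.aestronglyMeasurable.mul ha)).2
    ((ha'.bdd_mul h1.aestronglyMeasurable (Filter.Eventually.of_forall hC)).congr
      (Filter.Eventually.of_forall fun x => ?_))
  simp only [Pi.mul_apply, norm_mul, Real.exp_neg]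
  field_simp

omit [DecidableEq ι] in
lemma tik2_int {Φ : (ι → ℂ) → ℝ} (hΦ : Continuous Φ) {a g : (ι → ℂ) → ℂ}
    (ha : AEStronglyMeasurable a volume)
    (ha' : Integrable fun x => ‖a x‖ ^ 2 * Real.exp (-Φ x)) (hg : Test g) :
    Integrable fun x => a x * g x := by
  obtain ⟨h1, h2⟩ := tik2_w hΦ hg
  refine (ha'.add (h1.integrable_of_hasCompactSupport h2)).mono'
    (ha.mul hg.1.continuous.aestronglyMeasurable) (Filter.Eventually.of_forall fun x => ?_)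
  simp only [Pi.add_apply, norm_mul, Real.exp_neg]
  have h3 := Real.exp_pos (Φ x)
  have h4 := norm_nonneg (a x)
  have h5 := norm_nonneg (g x)
  generalize Real.exp (Φ x) = e at h3
  generalize ‖a x‖ = u at h4
  generalize ‖g x‖ = v at h5
  have h6 : u ^ 2 * e⁻¹ + v ^ 2 * e - 2 * (u * v) = (u - v * e) ^ 2 * e⁻¹ := by
    field_simp
    ring
  have h7 : 0 ≤ (u - v * e) ^ 2 * e⁻¹ := by positivity
  nlinarith [mul_nonneg h4 h5]

lemma tik2_lim {x y K : ℝ} (h : ∀ ε : ℝ, 0 < ε → ε ≤ 1 → x ≤ y + ε * K) : x ≤ y := by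
  have h1 : Filter.Tendsto (fun ε : ℝ => y + ε * K) (nhdsWithin 0 (Set.Ioi 0))
      (nhds (y + 0 * K)) :=
    ((continuous_const.add (continuous_id.mul continuous_const)).tendsto 0).mono_left
      nhdsWithin_le_nhds
  rw [zero_mul, add_zero] at h1
  refine ge_of_tendsto h1 ?_
  filter_upwards [Ioc_mem_nhdsGT one_pos] with ε hε using h ε hε.1 hε.2

omit [DecidableEq ι] in
lemma tik2_b {ε : ℝ} (hε : 0 < ε) (hε1 : ε ≤ 1) {c b : ℂ} {d a : ι → ℂ} (hc : ‖c‖ ≤ 1)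
    (hd : ∀ j, ‖d j‖ ≤ ε) : ‖c * b - ∑ j, d j * a j‖ ^ 2 ≤
      (1 + ε) * ‖b‖ ^ 2 + ε * (2 * Fintype.card ι) * ∑ j, ‖a j‖ ^ 2 := by
  have h1 : ‖c * b - ∑ j, d j * a j‖ ≤ ‖b‖ + ε * ∑ j, ‖a j‖ := by
    refine (norm_sub_le _ _).trans (add_le_add ?_ ((norm_sum_le _ _).trans ?_))
    · rw [norm_mul]
      exact mul_le_of_le_one_left (norm_nonneg _) hc
    · rw [mul_sum]
      exact sum_le_sum fun j _ =>
        (norm_mul_le _ _).trans (mul_le_mul_of_nonneg_right (hd j) (norm_nonneg _))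
  have h2 : (∑ j, ‖a j‖) ^ 2 ≤ Fintype.card ι * ∑ j, ‖a j‖ ^ 2 := sq_sum_le_card_mul_sum_sq
  refine (pow_le_pow_left₀ (norm_nonneg _) h1 2).trans ?_
  generalize ∑ j, ‖a j‖ = T at h2
  have h3 := mul_le_mul_of_nonneg_left h2 hε.le
  have h4 := mul_nonneg hε.le (sq_nonneg (‖b‖ - T))
  have h5 := mul_nonneg (mul_nonneg hε.le (sub_nonneg.2 hε1)) (sq_nonneg T)
  nlinarith

lemma tik2_S {ε A : ℝ} (hε : 0 < ε) (hε1 : ε ≤ 1) {c d a b : ℂ} (hc : ‖c‖ ≤ ε) (hd : ‖d‖ ≤ ε)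
    (ha : ‖a‖ ^ 2 ≤ A) (hb : ‖b‖ ^ 2 ≤ A) : ‖c * a - d * b‖ ^ 2 ≤ ε * 4 * A := by
  have h1 : ‖c * a - d * b‖ ≤ ε * (‖a‖ + ‖b‖) := by
    rw [mul_add]
    exact (norm_sub_le _ _).trans (add_le_add
      ((norm_mul_le _ _).trans (mul_le_mul_of_nonneg_right hc (norm_nonneg _)))
      ((norm_mul_le _ _).trans (mul_le_mul_of_nonneg_right hd (norm_nonneg _))))
  have h2 : (‖a‖ + ‖b‖) ^ 2 ≤ 4 * A := by nlinarith [sq_nonneg (‖a‖ - ‖b‖)]
  refine (pow_le_pow_left₀ (norm_nonneg _) h1 2).trans ?_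
  have h3 := mul_le_mul_of_nonneg_left h2 hε.le
  have h5 := mul_nonneg (mul_nonneg hε.le (sub_nonneg.2 hε1)) (sq_nonneg (‖a‖ + ‖b‖))
  nlinarith

/-- The basic inequality for closed forms in the domain of the adjoint. -/
theorem weak_global (Φ : (ι → ℂ) → ℝ) (hΦ : ContDiff ℝ (⊤ : ℕ∞) Φ) (hL : ∀ x v, 0 ≤ Levi Φ x v)
    (κ : ℝ) (B : Set (ι → ℂ)) (hBm : MeasurableSet B) (R₀ : ℝ) (hB0 : ∀ x ∈ B, ‖x‖ ≤ R₀)
    (hB : ∀ x ∈ B, ∀ v, 4 * κ * ∑ j, ‖v j‖ ^ 2 ≤ Levi Φ x v)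
    (α : ι → (ι → ℂ) → ℂ) (b : (ι → ℂ) → ℂ)
    (hα : ∀ j, AEStronglyMeasurable (α j) volume) (hb : AEStronglyMeasurable b volume)
    (hα' : ∀ j, Integrable fun x => ‖α j x‖ ^ 2 * Real.exp (-Φ x))
    (hb' : Integrable fun x => ‖b x‖ ^ 2 * Real.exp (-Φ x))
    (wS : ∀ ψ, Test ψ → ∀ j k, ∫ x, α j x * dzb k ψ x = ∫ x, α k x * dzb j ψ x)
    (wT : ∀ ψ, Test ψ → ∑ j, ∫ x, α j x * dz j ψ x =
      ∫ x, (b x - ∑ j, dz j (fun y => (Φ y : ℂ)) x * α j x) * ψ x) :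
    κ * ∫ x in B, (∑ j, ‖α j x‖ ^ 2) * Real.exp (-Φ x) ≤ ∫ x, ‖b x‖ ^ 2 * Real.exp (-Φ x) := by
  have hc := hΦ.continuous
  have hΦ' : ContDiff ℝ (⊤ : ℕ∞) fun y => (Φ y : ℂ) := Complex.ofRealCLM.contDiff.comp hΦ
  have hA : Integrable fun x => (∑ j, ‖α j x‖ ^ 2) * Real.exp (-Φ x) := by
    simpa only [sum_mul] using integrable_finsetSum univ fun j _ => hα' j
  have iα := fun j g (hg : Test g) => tik2_int hc (hα j) (hα' j) hg
  have mα := fun j g (hg : Test g) => tik2_mem hc (hα j) (hα' j) hg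
  refine tik2_lim (K := (∫ x, ‖b x‖ ^ 2 * Real.exp (-Φ x)) +
    (2 * Fintype.card ι + 2 * Fintype.card ι ^ 2) *
      ∫ x, (∑ j, ‖α j x‖ ^ 2) * Real.exp (-Φ x)) fun ε hε hε1 => ?_
  obtain ⟨χ, R, hχ, h1, h2, h3, h4⟩ := tik2_cut (ι := ι) ε hε R₀
  have hd : ∀ {ψ : (ι → ℂ) → ℂ}, Test ψ → ∀ x, DifferentiableAt ℝ ψ x := fun h x =>
    h.1.differentiable (by simp) x
  have h5 := weak_compact Φ hΦ hL κ B hBm hB (fun j x => χ x * α j x)
    (fun x => χ x * b x - ∑ j, dz j χ x * α j x)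
    (fun j k x => dzb k χ x * α j x - dzb j χ x * α k x) R (fun j => mα j χ hχ)
    ((tik2_mem hc hb hb' hχ).sub (memLp_finsetSum univ fun j _ => mα j _ (hχ.dz j)))
    (fun j k => (mα j _ (hχ.dzb k)).sub (mα k _ (hχ.dzb j)))
    (fun j x hx => by rw [(h3 x hx).1, zero_mul])
    (fun x hx => by simp [dz, (h3 x hx).1, (h3 x hx).2])
    (fun j k x hx => by simp [dzb, (h3 x hx).2]) (fun ψ hψ j k => ?_) (fun ψ hψ => ?_)
  rotate_left
  · have e : ∀ j k, ∫ x, α j x * dzb k (fun x => χ x * ψ x) x =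
        (∫ x, α j x * (dzb k χ x * ψ x)) + ∫ x, χ x * α j x * dzb k ψ x := fun j k => by
      rw [← integral_add (iα j _ (hψ.mul_left (hχ.dzb k).1))
        ((iα j _ ((hψ.dzb k).mul_left hχ.1)).congr
          (Filter.Eventually.of_forall fun x => by ring))]
      refine integral_congr_ae (Filter.Eventually.of_forall fun x => ?_)
      simp only [dzb_mul (hd hχ x) (hd hψ x)]
      ring
    have e1 := wS _ (hψ.mul_left hχ.1) j k
    rw [e, e] at e1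
    have e2 : ∫ x, (dzb k χ x * α j x - dzb j χ x * α k x) * ψ x =
        (∫ x, α j x * (dzb k χ x * ψ x)) - ∫ x, α k x * (dzb j χ x * ψ x) := by
      rw [← integral_sub (iα j _ (hψ.mul_left (hχ.dzb k).1)) (iα k _ (hψ.mul_left (hχ.dzb j).1))]
      exact integral_congr_ae (Filter.Eventually.of_forall fun x => by ring)
    rw [e2]
    linear_combination e1
  · have e : ∀ j, ∫ x, α j x * dz j (fun x => χ x * ψ x) x =
        (∫ x, α j x * (dz j χ x * ψ x)) + ∫ x, χ x * α j x * dz j ψ x := fun j => by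
      rw [← integral_add (iα j _ (hψ.mul_left (hχ.dz j).1))
        ((iα j _ ((hψ.dz j).mul_left hχ.1)).congr
          (Filter.Eventually.of_forall fun x => by ring))]
      refine integral_congr_ae (Filter.Eventually.of_forall fun x => ?_)
      simp only [dz_mul (hd hχ x) (hd hψ x)]
      ring
    have e1 := wT _ (hψ.mul_left hχ.1)
    rw [sum_congr rfl fun j _ => e j, sum_add_distrib,
      ← integral_finsetSum _ fun j _ => iα j _ (hψ.mul_left (hχ.dz j).1)] at e1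
    have e2 : Integrable fun x =>
        (b x - ∑ j, dz j (fun y => (Φ y : ℂ)) x * α j x) * (χ x * ψ x) := by
      refine ((tik2_int hc hb hb' (hψ.mul_left hχ.1)).sub (integrable_finsetSum univ fun j _ =>
        iα j _ ((hψ.mul_left hχ.1).mul_left (dz_smooth hΦ' j)))).congr
          (Filter.Eventually.of_forall fun x => ?_)
      simp only [Pi.sub_apply, sub_mul, sum_mul]
      congr 1
      exact sum_congr rfl fun j _ => by ring
    rw [eq_sub_of_add_eq' e1, ← integral_sub e2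
      (integrable_finsetSum univ fun j _ => iα j _ (hψ.mul_left (hχ.dz j).1))]
    refine integral_congr_ae (Filter.Eventually.of_forall fun x => ?_)
    simp only [sub_mul, sum_mul]
    have e3 : ∑ j, dz j (fun y => (Φ y : ℂ)) x * α j x * (χ x * ψ x) =
        ∑ j, dz j (fun y => (Φ y : ℂ)) x * (χ x * α j x) * ψ x := sum_congr rfl fun j _ => by ring
    have e4 : ∑ j, α j x * (dz j χ x * ψ x) = ∑ j, dz j χ x * α j x * ψ x :=
      sum_congr rfl fun j _ => by ring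
    rw [e3, e4]
    ring
  have h6 : ∫ x in B, (∑ j, ‖χ x * α j x‖ ^ 2) * Real.exp (-Φ x) =
      ∫ x in B, (∑ j, ‖α j x‖ ^ 2) * Real.exp (-Φ x) :=
    setIntegral_congr_fun hBm fun x hx => by simp only [h2 x (hB0 x hx), one_mul]
  have h7 : ∫ x, ‖χ x * b x - ∑ j, dz j χ x * α j x‖ ^ 2 * Real.exp (-Φ x) ≤
      (1 + ε) * (∫ x, ‖b x‖ ^ 2 * Real.exp (-Φ x)) +
        ε * (2 * Fintype.card ι) * ∫ x, (∑ j, ‖α j x‖ ^ 2) * Real.exp (-Φ x) := by
    rw [← integral_const_mul, ← integral_const_mul,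
      ← integral_add (hb'.const_mul _) (hA.const_mul _)]
    refine integral_mono_of_nonneg (Filter.Eventually.of_forall fun x => by positivity)
      ((hb'.const_mul _).add (hA.const_mul _)) (Filter.Eventually.of_forall fun x => ?_)
    refine (mul_le_mul_of_nonneg_right (tik2_b hε hε1 (h1 x)
      fun j => (tik2_norm χ j x).1.trans (h4 x)) (Real.exp_pos _).le).trans_eq ?_
    ring
  have h8 : ∀ j k, ∫ x, ‖dzb k χ x * α j x - dzb j χ x * α k x‖ ^ 2 * Real.exp (-Φ x) ≤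
      ε * 4 * ∫ x, (∑ j, ‖α j x‖ ^ 2) * Real.exp (-Φ x) := fun j k => by
    rw [← integral_const_mul]
    refine integral_mono_of_nonneg (Filter.Eventually.of_forall fun x => by positivity)
      (hA.const_mul _) (Filter.Eventually.of_forall fun x => ?_)
    have h9 : ∀ i, ‖α i x‖ ^ 2 ≤ ∑ j, ‖α j x‖ ^ 2 := fun i =>
      single_le_sum (f := fun j => ‖α j x‖ ^ 2) (fun _ _ => by positivity) (mem_univ i)
    refine (mul_le_mul_of_nonneg_right (tik2_S hε hε1 ((tik2_norm χ k x).2.trans (h4 x))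
      ((tik2_norm χ j x).2.trans (h4 x)) (h9 j) (h9 k)) (Real.exp_pos _).le).trans_eq ?_
    ring
  have h9 := sum_le_sum fun j (_ : j ∈ univ) => sum_le_sum fun k (_ : k ∈ univ) => h8 j k
  simp only [sum_const, card_univ, nsmul_eq_mul] at h9
  rw [h6] at h5
  linarith

end Pool.Agent.Lib.MP_1f047c_nt.TI
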