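import Pool.Agent.Lib.MP_1f047c_nt.TIDefs

open Finset MeasureTheory

namespace Pool.Agent.Lib.MP_1f047c_nt.TI

lemma timean_re (H : ℂ → ℂ) (hH : Differentiable ℂ H) (s : ℝ) :
    Real.circleAverage (fun t => (H t).re) 0 s = (H 0).re := by
  have h1 : Real.circleAverage H 0 s = H 0 := hH.diffContOnCl.circleAverage
  have h2 := Complex.reCLM.circleAverage_comp_comm (f := H) (c := 0) (R := s)
    hH.continuous.continuousOn.circleIntegrable'
  rw [h1] at h2
  exact h2

lemma timean_le (u : ℂ → ℝ) (hu : Continuous u) (H : ℂ → ℂ) (hH : Differentiable ℂ H) {s : ℝ}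
    (hs : 0 < s) (h : ∀ t : ℂ, ‖t‖ = s → u t ≤ (H t).re) :
    Real.circleAverage u 0 s ≤ (H 0).re := by
  rw [← timean_re H hH s]
  apply Real.circleAverage_mono hu.continuousOn.circleIntegrable'
    (Complex.continuous_re.comp hH.continuous).continuousOn.circleIntegrable'
  intro t ht
  apply h
  simpa [abs_of_pos hs] using ht

lemma timean_ge (u : ℂ → ℝ) (hu : Continuous u) (H : ℂ → ℂ) (hH : Differentiable ℂ H) {s : ℝ}
    (hs : 0 < s) (h : ∀ t : ℂ, ‖t‖ = s → (H t).re ≤ u t) :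
    (H 0).re ≤ Real.circleAverage u 0 s := by
  rw [← timean_re H hH s]
  apply Real.circleAverage_mono
    (Complex.continuous_re.comp hH.continuous).continuousOn.circleIntegrable'
    hu.continuousOn.circleIntegrable'
  intro t ht
  apply h
  simpa [abs_of_pos hs] using ht

lemma timean_span {r : ℝ} (hr : 0 < r) (g : C(AddCircle (1 : ℝ), ℂ))
    (hg : g ∈ Submodule.span ℂ (Set.range (@fourier 1))) :
    ∀ c : ℂ, ∃ H : ℂ → ℂ, Differentiable ℂ H ∧
      ∀ θ : AddCircle (1 : ℝ), (c * g θ).re = (H (r * fourier 1 θ)).re := by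
  have hr' : (r : ℂ) ≠ 0 := by exact_mod_cast hr.ne'
  have hp : ∀ (n : ℕ) (θ : AddCircle (1 : ℝ)), fourier (n : ℤ) θ = (fourier 1 θ) ^ n := by
    intro n θ
    induction n with
    | zero => simp
    | succ n ih => rw [Nat.cast_succ, fourier_add, ih, pow_succ]
  induction hg using Submodule.span_induction with
  | mem g hg =>
    obtain ⟨n, rfl⟩ := hg
    intro c
    obtain ⟨m, rfl | rfl⟩ := Int.eq_nat_or_neg n
    · refine ⟨fun t => c * (t / r) ^ m, by fun_prop, fun θ => ?_⟩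
      beta_reduce
      rw [hp, mul_div_cancel_left₀ _ hr']
    · refine ⟨fun t => (starRingEnd ℂ) c * (t / r) ^ m, by fun_prop, fun θ => ?_⟩
      beta_reduce
      rw [fourier_neg, hp, mul_div_cancel_left₀ _ hr', ← Complex.conj_re, map_mul,
        Complex.conj_conj]
  | zero => exact fun c => ⟨fun _ => 0, by fun_prop, fun θ => by simp⟩
  | add f g _ _ hf hg =>
    intro c
    obtain ⟨H1, a1, b1⟩ := hf c
    obtain ⟨H2, a2, b2⟩ := hg c
    refine ⟨fun t => H1 t + H2 t, a1.add a2, fun θ => ?_⟩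
    rw [ContinuousMap.add_apply, mul_add, Complex.add_re, Complex.add_re, b1, b2]
  | smul a f _ hf =>
    intro c
    obtain ⟨H, a1, b1⟩ := hf (c * a)
    refine ⟨H, a1, fun θ => ?_⟩
    rw [← b1, ContinuousMap.smul_apply, smul_eq_mul, mul_assoc]

lemma timean_approx (u : ℂ → ℝ) (hu : Continuous u) {r η : ℝ} (hr : 0 < r) (hη : 0 < η) :
    ∃ H : ℂ → ℂ, Differentiable ℂ H ∧ ∀ t : ℂ, ‖t‖ = r → |u t - (H t).re| ≤ η := by
  have : Fact ((0 : ℝ) < 1) := ⟨one_pos⟩
  let f : C(AddCircle (1 : ℝ), ℂ) := ⟨fun θ => (u (r * fourier 1 θ) : ℂ), by fun_prop⟩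
  have hf : f ∈ (Submodule.span ℂ (Set.range (@fourier 1))).topologicalClosure := by
    rw [span_fourier_closure_eq_top]
    trivial
  obtain ⟨g, hg, hd⟩ := Metric.mem_closure_iff.1 hf η hη
  obtain ⟨H, a, b⟩ := timean_span hr g hg 1
  refine ⟨H, a, fun t ht => ?_⟩
  have e : (r : ℂ) * fourier 1 ((t.arg / (2 * Real.pi) : ℝ) : AddCircle (1 : ℝ)) = t := by
    rw [fourier_coe_apply]
    have : (2 * Real.pi * Complex.I * ((1 : ℤ) : ℂ) * ((t.arg / (2 * Real.pi) : ℝ) : ℂ) /
        ((1 : ℝ) : ℂ)) = t.arg * Complex.I := by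
      have : (Real.pi : ℂ) ≠ 0 := by exact_mod_cast Real.pi_ne_zero
      push_cast
      field_simp
    rw [this, ← ht]
    exact Complex.norm_mul_exp_arg_mul_I t
  set θ : AddCircle (1 : ℝ) := ((t.arg / (2 * Real.pi) : ℝ) : AddCircle (1 : ℝ))
  have h1 := b θ
  rw [e, one_mul] at h1
  have h2 : dist (f θ) (g θ) ≤ dist f g := ContinuousMap.dist_apply_le_dist θ
  have h3 : f θ = (u t : ℂ) := by
    show (u (r * fourier 1 θ) : ℂ) = _
    rw [e]
  rw [h3, dist_eq_norm] at h2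
  have h4 := Complex.abs_re_le_norm ((u t : ℂ) - g θ)
  rw [Complex.sub_re, Complex.ofReal_re, h1] at h4
  linarith

/-- From infinitesimal to global circle means. -/
theorem mean_of_sub (u : ℂ → ℝ) (hu : Continuous u) {r κ : ℝ} (hr : 0 < r)
    (h : ∀ t : ℂ, ‖t‖ < r → ∀ δ : ℝ, 0 < δ → ∀ᶠ s in nhdsWithin (0 : ℝ) (Set.Ioi 0),
      u t + (κ - δ) * s ^ 2 ≤ Real.circleAverage (fun τ : ℂ => u (t + τ)) 0 s) :
    u 0 + κ * r ^ 2 ≤ Real.circleAverage u 0 r := by
  refine le_of_forall_pos_le_add fun ε hε => ?_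
  have hr2 : 0 < r ^ 2 := by positivity
  set δ := ε / (4 * r ^ 2) with hδ
  have hδ0 : 0 < δ := by positivity
  have hδr : δ * r ^ 2 = ε / 4 := by rw [hδ]; field_simp
  obtain ⟨H, hH, hap⟩ := timean_approx u hu hr (show 0 < ε / 4 by positivity)
  set w : ℂ → ℝ := fun t => u t - (κ - 2 * δ) * ‖t‖ ^ 2 - (H t).re with hw
  have hwc : Continuous w := by
    have := hH.continuous
    fun_prop
  obtain ⟨t0, ht0, hmax⟩ := (isCompact_closedBall (0 : ℂ) r).exists_isMaxOn
    ⟨0, Metric.mem_closedBall_self hr.le⟩ hwc.continuousOn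
  rw [mem_closedBall_zero_iff] at ht0
  have hb : ‖t0‖ = r := by
    by_contra hne
    have hlt : ‖t0‖ < r := lt_of_le_of_ne ht0 hne
    have ev : ∀ᶠ s in nhdsWithin (0 : ℝ) (Set.Ioi 0), s < r - ‖t0‖ :=
      mem_nhdsWithin_of_mem_nhds (Iio_mem_nhds (by linarith))
    obtain ⟨s, ⟨s1, s2⟩, s3⟩ := (((h t0 hlt δ hδ0).and ev).and self_mem_nhdsWithin).exists
    have s0 : 0 < s := s3
    have key := timean_le (fun τ => u (t0 + τ)) (by fun_prop)
      (fun τ => ((w t0 + (κ - 2 * δ) * (‖t0‖ ^ 2 + s ^ 2) : ℝ) : ℂ) +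
        ((2 * (κ - 2 * δ) : ℝ) : ℂ) * (τ * (starRingEnd ℂ) t0) + H (t0 + τ)) (by fun_prop) s0
      (by
        intro τ hτ
        have m : t0 + τ ∈ Metric.closedBall (0 : ℂ) r := by
          rw [mem_closedBall_zero_iff]
          have := norm_add_le t0 τ
          linarith
        have a : w (t0 + τ) ≤ w t0 := hmax m
        have b : ‖t0 + τ‖ ^ 2 = ‖t0‖ ^ 2 + s ^ 2 + 2 * (τ * (starRingEnd ℂ) t0).re := by
          rw [← hτ, ← Complex.normSq_eq_norm_sq, ← Complex.normSq_eq_norm_sq,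
            ← Complex.normSq_eq_norm_sq, add_comm t0 τ, Complex.normSq_add]
          ring
        have c : w (t0 + τ) = u (t0 + τ) - (κ - 2 * δ) * ‖t0 + τ‖ ^ 2 - (H (t0 + τ)).re := rfl
        rw [Complex.add_re, Complex.add_re, Complex.ofReal_re, Complex.re_ofReal_mul]
        rw [c, b] at a
        linarith)
    simp only [zero_mul, mul_zero, add_zero, Complex.add_re, Complex.ofReal_re] at key
    have c : w t0 = u t0 - (κ - 2 * δ) * ‖t0‖ ^ 2 - (H t0).re := rfl
    have : 0 < δ * s ^ 2 := by positivity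
    nlinarith
  have a : w 0 ≤ w t0 := hmax (Metric.mem_closedBall_self hr.le)
  have c0 : w 0 = u 0 - (H 0).re := by simp [hw]
  have c : w t0 = u t0 - (κ - 2 * δ) * r ^ 2 - (H t0).re := by rw [← hb]
  have d := (abs_le.1 (hap t0 hb)).2
  have key := timean_ge u hu (fun t => H t - ((ε / 4 : ℝ) : ℂ)) (by fun_prop) hr
    (by
      intro t ht
      have := (abs_le.1 (hap t ht)).1
      rw [Complex.sub_re, Complex.ofReal_re]
      linarith)
  rw [Complex.sub_re, Complex.ofReal_re] at key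
  nlinarith

lemma timean_taylor {E : Type} [NormedAddCommGroup E] [NormedSpace ℝ E] (Φ : E → ℝ)
    (hΦ : ContDiff ℝ 2 Φ) (x : E) {δ : ℝ} (hδ : 0 < δ) :
    ∀ᶠ y in nhds (0 : E), Φ (x + y) ≤ Φ x + fderiv ℝ Φ x y +
      1 / 2 * fderiv ℝ (fderiv ℝ Φ) x y y + δ * ‖y‖ ^ 2 := by
  set L := fderiv ℝ Φ x with hL
  set B := fderiv ℝ (fderiv ℝ Φ) x with hB
  have hsym : ∀ a b, B a b = B b a := fun a b =>
    (hΦ.contDiffAt.isSymmSndFDerivAt (x := x) (by simp)).eq a b
  have hd : Differentiable ℝ Φ := hΦ.differentiable (by norm_num)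
  have hd2 : HasFDerivAt (fderiv ℝ Φ) B x :=
    ((hΦ.fderiv_right (m := 1) (by norm_num)).differentiable (by norm_num) x).hasFDerivAt
  have ho := (hasFDerivAt_iff_isLittleO_nhds_zero.1 hd2).def hδ
  obtain ⟨ρ, hρ, hball⟩ := Metric.eventually_nhds_iff_ball.1 ho
  have hg : ∀ y, HasFDerivAt (fun y => Φ (x + y) - L y - 1 / 2 * B y y)
      (fderiv ℝ Φ (x + y) - L - B y) y := by
    intro y
    have a : HasFDerivAt (fun y => Φ (x + y)) (fderiv ℝ Φ (x + y)) y :=
      (hasFDerivAt_comp_add_left x).2 (hd (x + y)).hasFDerivAt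
    have b := (B.hasFDerivAt (x := y)).clm_apply (hasFDerivAt_id y)
    refine ((a.sub L.hasFDerivAt).sub (b.const_mul (1 / 2))).congr_fderiv ?_
    ext z
    simp only [sub_apply, smul_apply,
      add_apply, ContinuousLinearMap.comp_apply, ContinuousLinearMap.id_apply,
      ContinuousLinearMap.flip_apply, id, smul_eq_mul, hsym z y]
    ring
  filter_upwards [Metric.ball_mem_nhds (0 : E) hρ] with y hy
  have hm := (convex_closedBall (0 : E) ‖y‖).norm_image_sub_le_of_norm_hasFDerivWithin_le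
    (C := δ * ‖y‖) (fun z _ => (hg z).hasFDerivWithinAt)
    (fun z hz => by
      rw [mem_closedBall_zero_iff] at hz
      have hz' : z ∈ Metric.ball (0 : E) ρ := by
        rw [mem_ball_zero_iff] at hy ⊢
        linarith
      exact (hball z hz').trans (by gcongr))
    (Metric.mem_closedBall_self (norm_nonneg y)) (mem_closedBall_zero_iff.2 le_rfl)
  have := (abs_le.1 hm).2
  simp only [add_zero, map_zero, mul_zero, sub_zero] at this
  nlinarith

/-- From circle means to the Levi form. -/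
theorem levi_of_mean {ι : Type} [Fintype ι] [DecidableEq ι] (Φ : (ι → ℂ) → ℝ)
    (hΦ : ContDiff ℝ (⊤ : ℕ∞) Φ) (x v : ι → ℂ) (q : ℝ)
    (h : ∀ᶠ r in nhdsWithin (0 : ℝ) (Set.Ioi 0),
      Φ x + q * r ^ 2 ≤ Real.circleAverage (fun t : ℂ => Φ (x + t • v)) 0 r) :
    4 * q ≤ Levi Φ x v := by
  have hΦ2 : ContDiff ℝ 2 Φ := contDiff_infty.1 hΦ 2
  set L := fderiv ℝ Φ x with hL
  set B := fderiv ℝ (fderiv ℝ Φ) x with hB
  have hd2 : DifferentiableAt ℝ (fderiv ℝ Φ) x :=
    (hΦ2.fderiv_right (m := 1) (by norm_num)).differentiable (by norm_num) x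
  have hl : ∀ a, fderiv ℝ (fun y => fderiv ℝ Φ y a) x a = B a a := by
    intro a
    rw [fderiv_clm_apply hd2 (differentiableAt_const a)]
    simp [hB]
  unfold Levi
  rw [hl, hl]
  set w := Complex.I • v with hw
  refine le_of_forall_pos_le_add fun ε hε => ?_
  set δ := ε / (4 * (‖v‖ ^ 2 + 1)) with hδ
  have hδ0 : 0 < δ := by positivity
  have hδv : δ * (‖v‖ ^ 2 + 1) = ε / 4 := by rw [hδ]; field_simp
  have ht : Filter.Tendsto (fun t : ℂ => t • v) (nhds 0) (nhds 0) := by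
    have : Continuous fun t : ℂ => t • v := by fun_prop
    simpa using this.tendsto 0
  obtain ⟨ρ, hρ, hball⟩ :=
    Metric.eventually_nhds_iff_ball.1 (ht.eventually (timean_taylor Φ hΦ2 x hδ0))
  have ev : ∀ᶠ s in nhdsWithin (0 : ℝ) (Set.Ioi 0), s < ρ :=
    mem_nhdsWithin_of_mem_nhds (Iio_mem_nhds hρ)
  obtain ⟨s, ⟨s1, s2⟩, s3⟩ := ((h.and ev).and self_mem_nhdsWithin).exists
  have s0 : 0 < s := s3
  have hc := hΦ.continuous
  have key := timean_le (fun t : ℂ => Φ (x + t • v)) (by fun_prop)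
    (fun t => ((Φ x + ((B v v + B w w) / 4 + δ * ‖v‖ ^ 2) * s ^ 2 : ℝ) : ℂ) +
      (⟨L v, -L w⟩ : ℂ) * t + (⟨(B v v - B w w) / 4, -(B v w + B w v) / 4⟩ : ℂ) * t ^ 2)
    (by fun_prop) s0
    (by
      intro t ht
      have a := hball t (by rw [mem_ball_zero_iff]; linarith)
      have e : t • v = t.re • v + t.im • w := by
        rw [hw, ← Complex.coe_smul, ← Complex.coe_smul, smul_smul, ← add_smul,
          Complex.re_add_im]
      have n : ‖t • v‖ ^ 2 = s ^ 2 * ‖v‖ ^ 2 := by rw [norm_smul, ht, mul_pow]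
      have n2 : s ^ 2 = t.re ^ 2 + t.im ^ 2 := by
        rw [← ht, ← Complex.normSq_eq_norm_sq, Complex.normSq_apply]
        ring
      have l1 : L (t • v) = t.re * L v + t.im * L w := by
        rw [e]
        simp
      have l2 : B (t • v) (t • v) = t.re ^ 2 * B v v + t.re * t.im * (B v w + B w v) +
          t.im ^ 2 * B w w := by
        rw [e]
        simp only [map_add, map_smul, add_apply,
          smul_apply, smul_eq_mul]
        ring
      rw [n, l1, l2] at a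
      simp only [Complex.add_re, Complex.ofReal_re, Complex.mul_re, pow_two t, Complex.mul_im]
      rw [n2] at a ⊢
      nlinarith)
  simp only [mul_zero, add_zero, Complex.ofReal_re, ne_eq, OfNat.ofNat_ne_zero, not_false_eq_true,
    zero_pow] at key
  have hs2 : 0 < s ^ 2 := by positivity
  have : q ≤ (B v v + B w w) / 4 + δ * ‖v‖ ^ 2 := le_of_mul_le_mul_right (by linarith) hs2
  nlinarith

end Pool.Agent.Lib.MP_1f047c_nt.TI
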