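import Pool.Agent.Lib.MP_1f047c_nt.TIMean

open Finset MeasureTheory

namespace Pool.Agent.Lib.MP_1f047c_nt.TI

section

variable {ι : Type} [Fintype ι]

lemma timoll_zero (φ : ContDiffBump (0 : ι → ℂ)) {y : ι → ℂ} (hy : ¬ ‖y‖ < φ.rOut) :
    φ.normed volume y = 0 := by
  by_contra h
  have h1 : y ∈ Function.support (φ.normed volume) := h
  rw [φ.support_normed_eq, mem_ball_zero_iff] at h1
  exact hy h1

lemma timoll_int (φ : ContDiffBump (0 : ι → ℂ)) {f : (ι → ℂ) → ℝ} (hf : Continuous f) :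
    Integrable fun y => φ.normed volume y * f y :=
  (φ.continuous_normed.mul hf).integrable_of_hasCompactSupport φ.hasCompactSupport_normed.mul_right

lemma timoll_mono (φ : ContDiffBump (0 : ι → ℂ)) {f g : (ι → ℂ) → ℝ} (hf : Continuous f)
    (hg : Continuous g) (h : ∀ y, ‖y‖ < φ.rOut → f y ≤ g y) :
    ∫ y, φ.normed volume y * f y ≤ ∫ y, φ.normed volume y * g y := by
  refine integral_mono (timoll_int φ hf) (timoll_int φ hg) fun y => ?_
  by_cases hy : ‖y‖ < φ.rOut
  · exact mul_le_mul_of_nonneg_left (h y hy) (φ.nonneg_normed y)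
  · simp only [timoll_zero φ hy, zero_mul, le_refl]

lemma timoll_const (φ : ContDiffBump (0 : ι → ℂ)) (c : ℝ) :
    ∫ y, φ.normed volume y * c = c := by
  rw [integral_mul_const, φ.integral_normed, one_mul]

lemma timoll_swap (φ : ContDiffBump (0 : ι → ℂ)) {W : (ι → ℂ) → ℝ} (hW : Continuous W)
    (x v : ι → ℂ) (s : ℝ) :
    Real.circleAverage (fun t : ℂ => ∫ y, φ.normed volume y * W (x + t • v - y)) 0 s =
      ∫ y, φ.normed volume y * Real.circleAverage (fun t : ℂ => W (x - y + t • v)) 0 s := by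
  have hc : Continuous (Function.uncurry fun (θ : ℝ) (y : ι → ℂ) =>
      φ.normed volume y * W (x + circleMap 0 s θ • v - y)) := by
    have h1 := φ.continuous_normed (μ := volume)
    have h2 := continuous_circleMap 0 s
    change Continuous fun p : ℝ × (ι → ℂ) =>
      φ.normed volume p.2 * W (x + circleMap 0 s p.1 • v - p.2)
    fun_prop
  have hi : Integrable (Function.uncurry fun (θ : ℝ) (y : ι → ℂ) =>
      φ.normed volume y * W (x + circleMap 0 s θ • v - y))
      ((volume.restrict (Set.uIoc 0 (2 * Real.pi))).prod volume) := by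
    rw [Measure.restrict_prod_eq_prod_univ]
    have h1 : IsCompact (Set.uIcc (0 : ℝ) (2 * Real.pi) ×ˢ Metric.closedBall (0 : ι → ℂ) φ.rOut) :=
      isCompact_uIcc.prod (isCompact_closedBall _ _)
    refine (hc.continuousOn.integrableOn_compact h1).of_forall_sdiff_eq_zero
      (measurableSet_uIoc.prod MeasurableSet.univ) fun p hp => ?_
    have h2 : ¬ ‖p.2‖ < φ.rOut := fun h =>
      hp.2 ⟨Set.uIoc_subset_uIcc hp.1.1, mem_closedBall_zero_iff.2 h.le⟩
    change φ.normed volume p.2 * _ = 0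
    rw [timoll_zero φ h2, zero_mul]
  rw [Real.circleAverage_def, intervalIntegral_integral_swap hi, smul_eq_mul, ← integral_const_mul]
  refine integral_congr_ae (Filter.Eventually.of_forall fun y => ?_)
  simp only [Real.circleAverage_def, intervalIntegral.integral_const_mul, smul_eq_mul,
    add_sub_right_comm]
  ring

omit [Fintype ι] in
lemma timoll_cont {W : (ι → ℂ) → ℝ} (hW : Continuous W) (x v : ι → ℂ) (s : ℝ) :
    Continuous fun y => Real.circleAverage (fun t : ℂ => W (x - y + t • v)) 0 s := by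
  simp only [Real.circleAverage_def, smul_eq_mul]
  refine continuous_const.mul ?_
  refine intervalIntegral.continuous_parametric_intervalIntegral_of_continuous' ?_ _ _
  have h2 := continuous_circleMap 0 s
  change Continuous fun p : (ι → ℂ) × ℝ => W (x - p.1 + circleMap 0 s p.2 • v)
  fun_prop

lemma timoll_levi [DecidableEq ι] (φ : ContDiffBump (0 : ι → ℂ)) {U : (ι → ℂ) → ℝ}
    (hU : Continuous U)
    (hΦ : ContDiff ℝ (⊤ : ℕ∞) fun x => 2 * ∫ y, φ.normed volume y * U (x - y))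
    (x v : ι → ℂ) (Q : (ι → ℂ) → ℝ) (h : ∀ z, ‖z - x‖ < 2 * φ.rOut → SubM U z Q) :
    4 * (2 * Q v) ≤ Levi (fun x => 2 * ∫ y, φ.normed volume y * U (x - y)) x v := by
  refine levi_of_mean _ hΦ x v _ ?_
  have hev : ∀ᶠ s in nhdsWithin (0 : ℝ) (Set.Ioi 0), s * ‖v‖ < φ.rOut := by
    have h1 : Filter.Tendsto (fun s : ℝ => s * ‖v‖) (nhds 0) (nhds (0 * ‖v‖)) :=
      (continuous_id.mul continuous_const).tendsto 0
    rw [zero_mul] at h1
    exact (h1.eventually (gt_mem_nhds φ.rOut_pos)).filter_mono nhdsWithin_le_nhds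
  filter_upwards [hev, self_mem_nhdsWithin] with s hs hs0
  have h1 : ∀ y : ι → ℂ, ‖y‖ < φ.rOut → U (x - y) + Q v * s ^ 2 ≤
      Real.circleAverage (fun t : ℂ => U (x - y + t • v)) 0 s := by
    intro y hy
    have h2 := mean_of_sub (fun t : ℂ => U (x - y + t • v)) (by fun_prop) (κ := Q v) hs0
      fun t ht δ hδ => by
        have h3 : ‖x - y + t • v - x‖ < 2 * φ.rOut := by
          have h4 : x - y + t • v - x = t • v - y := by abel
          have h5 : ‖t‖ * ‖v‖ ≤ s * ‖v‖ := mul_le_mul_of_nonneg_right ht.le (norm_nonneg v)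
          have h6 := norm_sub_le (t • v) y
          rw [norm_smul] at h6
          rw [h4]
          linarith
        simpa only [add_smul, add_assoc] using h _ h3 v δ hδ
    simpa only [zero_smul, add_zero] using h2
  have h2 := timoll_mono φ (f := fun y => U (x - y) + Q v * s ^ 2) (by fun_prop)
    (timoll_cont hU x v s) h1
  simp only [mul_add] at h2
  rw [integral_add (timoll_int φ (by fun_prop)) (timoll_int φ continuous_const), timoll_const,
    ← timoll_swap φ hU] at h2
  have h3 := Real.circleAverage_fun_smul (a := (2 : ℝ)) (c := 0) (R := s)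
    (f := fun t : ℂ => ∫ y, φ.normed volume y * U (x + t • v - y))
  simp only [smul_eq_mul] at h3
  rw [h3]
  linarith

end

/-- Smoothing of a continuous plurisubharmonic function. -/
theorem smoothing {ι : Type} [Fintype ι] [DecidableEq ι] (U : (ι → ℂ) → ℝ) (hU : Continuous U)
    (h0 : ∀ x, SubM U x fun _ => 0) (q : ι → ℂ) (r κ δ : ℝ) (hδ : 0 < δ)
    (h1 : ∀ x, ‖x - q‖ < r + 2 * δ → SubM U x fun v => κ * ∑ j, ‖v j‖ ^ 2) :
    ∃ Φ : (ι → ℂ) → ℝ, ContDiff ℝ (⊤ : ℕ∞) Φ ∧ (∀ x v, 0 ≤ Levi Φ x v) ∧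
      (∀ x v, ‖x - q‖ ≤ r → 4 * (2 * κ) * ∑ j, ‖v j‖ ^ 2 ≤ Levi Φ x v) ∧
      (∀ x β, (∀ y, ‖y - x‖ ≤ δ → U y ≤ β) → Φ x ≤ 2 * β) ∧
      ∀ x β, (∀ y, ‖y - x‖ ≤ δ → β ≤ U y) → 2 * β ≤ Φ x := by
  let φ : ContDiffBump (0 : ι → ℂ) := ⟨δ / 2, δ, half_pos hδ, half_lt_self hδ⟩
  have hΦ : ContDiff ℝ (⊤ : ℕ∞) fun x => 2 * ∫ y, φ.normed volume y * U (x - y) :=
    contDiff_const.mul (φ.hasCompactSupport_normed.contDiff_convolution_left
      (ContinuousLinearMap.mul ℝ ℝ) φ.contDiff_normed hU.locallyIntegrable)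
  have hn : ∀ x y : ι → ℂ, ‖y‖ < φ.rOut → ‖x - y - x‖ ≤ δ := fun x y hy => by
    rw [sub_sub_cancel_left, norm_neg]
    exact hy.le
  refine ⟨_, hΦ, fun x v => ?_, fun x v hx => ?_, fun x β h => ?_, fun x β h => ?_⟩
  · simpa only [mul_zero] using timoll_levi φ hU hΦ x v (fun _ => 0) fun z _ => h0 z
  · have h2 := timoll_levi φ hU hΦ x v (fun v => κ * ∑ j, ‖v j‖ ^ 2) fun z hz => h1 z (by
      have h3 : ‖z - x‖ < 2 * δ := hz
      linarith [norm_sub_le_norm_sub_add_norm_sub z x q])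
    linarith
  · have h2 := timoll_mono φ (f := fun y => U (x - y)) (g := fun _ => β) (by fun_prop)
      continuous_const fun y hy => h _ (hn x y hy)
    rw [timoll_const] at h2
    linarith
  · have h2 := timoll_mono φ (g := fun y => U (x - y)) (f := fun _ => β) continuous_const
      (by fun_prop) fun y hy => h _ (hn x y hy)
    rw [timoll_const] at h2
    linarith

end Pool.Agent.Lib.MP_1f047c_nt.TI
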