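import Pool.Agent.Lib.MP_1f047c_nt.TIDefs

open Finset MeasureTheory

namespace Pool.Agent.Lib.MP_1f047c_nt.TI

/-- The entire function `(exp y - 1) / y`. -/
noncomputable def e1 (y : ℂ) : ℂ := dslope Complex.exp 0 y

lemma e1_diff : Differentiable ℂ e1 := by
  have h : DifferentiableOn ℂ (dslope Complex.exp 0) Set.univ :=
    (Complex.differentiableOn_dslope Filter.univ_mem).2
      Complex.differentiable_exp.differentiableOn
  exact differentiableOn_univ.1 h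

lemma e1_zero : e1 0 = 1 := by
  simp [e1, dslope_same]

lemma tiper_e1_ne {y : ℂ} (hy : y ≠ 0) : e1 y = y⁻¹ * (Complex.exp y - 1) := by
  simp [e1, dslope_of_ne _ hy, slope]

lemma e1_wm {k : ℤ} (hk : k ≠ 0) : e1 (PL.wm k) = 0 := by
  have h0 : PL.wm k ≠ 0 := by
    unfold PL.wm
    exact mul_ne_zero Complex.two_pi_I_ne_zero (Int.cast_ne_zero.2 hk)
  have h1 : Complex.exp (PL.wm k) = 1 := by
    unfold PL.wm
    rw [mul_comm]
    exact Complex.exp_int_mul_two_pi_mul_I k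
  rw [tiper_e1_ne h0, h1, sub_self, mul_zero]

lemma e1_le : ∃ C : ℝ, 0 < C ∧ ∀ y, ‖e1 y‖ ≤ C * Real.exp |y.re| / (1 + ‖y‖) := by
  refine ⟨4, by norm_num, fun y => ?_⟩
  have hE : 1 ≤ Real.exp |y.re| := Real.one_le_exp (abs_nonneg _)
  have hy0 : 0 ≤ ‖y‖ := norm_nonneg y
  rw [le_div_iff₀ (by positivity)]
  by_cases h0 : y = 0
  · subst h0
    rw [e1_zero]
    simp
  have hy : 0 < ‖y‖ := norm_pos_iff.2 h0
  have hn : ‖e1 y‖ * ‖y‖ = ‖Complex.exp y - 1‖ := by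
    rw [tiper_e1_ne h0, norm_mul, norm_inv]
    field_simp
  have he0 : 0 ≤ ‖e1 y‖ := norm_nonneg _
  rcases le_total ‖y‖ 1 with h1 | h1
  · have h2 : ‖Complex.exp y - 1‖ ≤ 2 * ‖y‖ := Complex.norm_exp_sub_one_le h1
    have h3 : ‖e1 y‖ ≤ 2 := by
      rw [← hn] at h2
      exact le_of_mul_le_mul_right h2 hy
    nlinarith
  · have h2 : ‖Complex.exp y - 1‖ ≤ 2 * Real.exp |y.re| := by
      have h4 : ‖Complex.exp y - 1‖ ≤ ‖Complex.exp y‖ + ‖(1 : ℂ)‖ := norm_sub_le _ _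
      have h5 : Real.exp y.re ≤ Real.exp |y.re| := Real.exp_le_exp.2 (le_abs_self _)
      rw [Complex.norm_exp, norm_one] at h4
      linarith
    nlinarith

lemma tiper_summable : Summable fun j : ℤ => 1 / (1 + |(j : ℝ)|) ^ 2 := by
  have h : Summable fun n : ℕ => 1 / (1 + (n : ℝ)) ^ 2 := by
    have h1 := (summable_nat_add_iff 1).2 (Real.summable_one_div_nat_pow.2 (le_refl 2))
    refine h1.congr fun n => ?_
    push_cast
    rw [add_comm]
  refine Summable.of_nat_of_neg ?_ ?_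
  · refine h.congr fun n => ?_
    simp
  · refine h.congr fun n => ?_
    simp

lemma tiper_term (y : ℂ) : ∃ k : ℤ, ∀ m : ℤ, |((m - k : ℤ) : ℝ)| ≤ ‖y - PL.wm m‖ := by
  refine ⟨round (y.im / (2 * Real.pi)), fun m => ?_⟩
  set k := round (y.im / (2 * Real.pi)) with hk
  have hpi : 3 < Real.pi := Real.pi_gt_three
  by_cases hm : m - k = 0
  · rw [hm]
    simp
  have h1 : (1 : ℝ) ≤ |((m - k : ℤ) : ℝ)| := by
    have := Int.one_le_abs hm
    exact_mod_cast this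
  have h2 : |y.im / (2 * Real.pi) - k| ≤ 1 / 2 := abs_sub_round _
  have h3 : |(y - PL.wm m).im| ≤ ‖y - PL.wm m‖ := Complex.abs_im_le_norm _
  have h4 : (y - PL.wm m).im = 2 * Real.pi * (y.im / (2 * Real.pi) - m) := by
    simp [PL.wm]
    field_simp
  have h5 : |((m - k : ℤ) : ℝ)| ≤ |y.im / (2 * Real.pi) - m| + |y.im / (2 * Real.pi) - k| := by
    have : ((m - k : ℤ) : ℝ) = -(y.im / (2 * Real.pi) - m) + (y.im / (2 * Real.pi) - k) := by
      push_cast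
      ring
    rw [this]
    exact (abs_add_le _ _).trans (by rw [abs_neg])
  rw [h4, abs_mul, abs_of_pos (by positivity : 0 < 2 * Real.pi)] at h3
  have h6 : 0 ≤ |y.im / (2 * Real.pi) - m| := abs_nonneg _
  nlinarith

lemma tiper_one : ∃ C : ℝ, ∀ (y : ℂ) (t : Finset ℤ),
    ∑ m ∈ t, 1 / (1 + ‖y - PL.wm m‖) ^ 2 ≤ C := by
  refine ⟨∑' j : ℤ, 1 / (1 + |(j : ℝ)|) ^ 2, fun y t => ?_⟩
  obtain ⟨k, hk⟩ := tiper_term y
  calc ∑ m ∈ t, 1 / (1 + ‖y - PL.wm m‖) ^ 2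
      ≤ ∑ m ∈ t, 1 / (1 + |((m - k : ℤ) : ℝ)|) ^ 2 := by
        refine sum_le_sum fun m _ => ?_
        have := hk m
        gcongr
    _ = ∑ j ∈ t.image (fun m => m - k), 1 / (1 + |(j : ℝ)|) ^ 2 := by
        rw [sum_image fun a _ b _ h => sub_left_injective h]
    _ ≤ _ := tiper_summable.sum_le_tsum _ fun j _ => by positivity

lemma sum_wm (N : ℕ) : ∃ C : ℝ, ∀ y : Fin N → ℂ,
    Summable (fun m : Fin N → ℤ => ∏ i, 1 / (1 + ‖y i - PL.wm (m i)‖) ^ 2) ∧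
      ∑' m : Fin N → ℤ, ∏ i, 1 / (1 + ‖y i - PL.wm (m i)‖) ^ 2 ≤ C := by
  classical
  obtain ⟨C, hC⟩ := tiper_one
  refine ⟨C ^ N, fun y => ?_⟩
  have h0 : 0 ≤ fun m : Fin N → ℤ => ∏ i, 1 / (1 + ‖y i - PL.wm (m i)‖) ^ 2 := fun m =>
    prod_nonneg fun i _ => by positivity
  have key : ∀ s : Finset (Fin N → ℤ),
      ∑ m ∈ s, ∏ i, 1 / (1 + ‖y i - PL.wm (m i)‖) ^ 2 ≤ C ^ N := by
    intro s
    calc ∑ m ∈ s, ∏ i, 1 / (1 + ‖y i - PL.wm (m i)‖) ^ 2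
        ≤ ∑ m ∈ Fintype.piFinset fun i => s.image fun m => m i,
            ∏ i, 1 / (1 + ‖y i - PL.wm (m i)‖) ^ 2 := by
          refine sum_le_sum_of_subset_of_nonneg (fun m hm => ?_) fun m _ _ => h0 m
          exact Fintype.mem_piFinset.2 fun i => mem_image.2 ⟨m, hm, rfl⟩
      _ = ∏ i, ∑ j ∈ s.image fun m => m i, 1 / (1 + ‖y i - PL.wm j‖) ^ 2 :=
          (prod_univ_sum (fun i => s.image fun m => m i)
            fun i j => 1 / (1 + ‖y i - PL.wm j‖) ^ 2).symm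
      _ ≤ ∏ _i : Fin N, C :=
          prod_le_prod (fun i _ => sum_nonneg fun j _ => by positivity) fun i _ => hC _ _
      _ = C ^ N := by simp
  exact ⟨summable_of_sum_le h0 key, Real.tsum_le_of_sum_le h0 key⟩

end Pool.Agent.Lib.MP_1f047c_nt.TI
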