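import Pool.Agent.Lib.MP_1f047c_nt.TIPoly2

open Finset MeasureTheory

namespace Pool.Agent.Lib.MP_1f047c_nt.TI

variable {N : ℕ}

lemma cZ_line (x v : Sp N) (t : ℂ) : cZ (x + t • v) = cZ x + t • cZ v := by
  funext i
  simp [cZ]

lemma cX_diff : Differentiable ℂ (cX : Sp N → Fin N → ℂ) := by
  refine differentiable_pi.2 fun i => ?_
  exact (differentiable_apply (Sum.inl i)).add (differentiable_apply (Sum.inr i))

lemma cZ_diff : Differentiable ℂ (cZ : Sp N → Fin N → ℂ) := by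
  refine differentiable_pi.2 fun i => ?_
  exact differentiable_apply (Sum.inr i)

lemma tipk_mc_diff {κ : Type} (π : κ → Fin N → ℤ) (j : κ) :
    Differentiable ℂ fun x : Sp N => mc π (cZ x) j := by
  unfold mc cZ
  exact Differentiable.fun_sum fun i _ => (differentiable_apply (Sum.inr i)).const_mul _

lemma yv_diff {κ : Type} [Fintype κ] (π : κ → Fin N → ℤ) (μ : κ → ℤ) :
    Differentiable ℂ (yv π μ : Sp N → κ → ℂ) := by
  refine differentiable_pi.2 fun j => ?_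
  exact (tipk_mc_diff π j).sub_const _

lemma yv_line {κ : Type} (π : κ → Fin N → ℤ) (μ : κ → ℤ) (j : κ) (x v : Sp N) (t : ℂ) :
    yv π μ (x + t • v) j = yv π μ x j + t * mc π (cZ v) j := by
  simp only [yv, mc, cZ_line, Pi.sub_apply, Pi.add_apply, Pi.smul_apply, smul_eq_mul, mul_add,
    sum_add_distrib, mul_sum]
  have : ∑ i, (π j i : ℂ) * (t * cZ v i) = ∑ i, t * ((π j i : ℂ) * cZ v i) :=
    sum_congr rfl fun i _ => by ring
  rw [this]
  ring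

lemma yv_re {κ : Type} (π : κ → Fin N → ℤ) (μ : κ → ℤ) (j : κ) (x : Sp N) :
    (yv π μ x j).re = (mc π (cZ x) j).re := by
  simp [yv, wv, PL.wm]

lemma yv_add {κ : Type} (π : κ → Fin N → ℤ) (μ v : κ → ℤ) (x : Sp N) :
    yv π (μ + v) x = yv π μ x - wv v := by
  funext j
  simp only [yv, wv, PL.wm, Pi.sub_apply, Pi.add_apply]
  push_cast
  ring

lemma yv_comp {κ κ' : Type} [Fintype κ] (p : κ' → κ → ℤ) (π : κ → Fin N → ℤ) (μ : κ → ℤ)
    (x : Sp N) : yv (fun j i => ∑ k, p j k * π k i) (mz p μ) x = mc p (yv π μ x) := by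
  funext j
  simp only [yv, wv, PL.wm, mc, mz, Pi.sub_apply, mul_sub, sum_sub_distrib]
  push_cast
  congr 1
  · simp only [sum_mul, mul_sum]
    rw [sum_comm]
    exact sum_congr rfl fun k _ => sum_congr rfl fun i _ => by ring
  · rw [mul_sum]
    exact sum_congr rfl fun k _ => by ring

lemma tipk_norm_wm (k : ℤ) : ‖PL.wm k‖ = 2 * Real.pi * |(k : ℝ)| := by
  simp [PL.wm, abs_of_pos Real.pi_pos]

lemma wm_close {y : ℂ} {k l : ℤ} {r : ℝ} (hk : ‖y - PL.wm k‖ ≤ r) (hl : ‖y - PL.wm l‖ ≤ r) :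
    Real.pi * |(k : ℝ) - l| ≤ r := by
  have h1 : PL.wm (k - l) = (y - PL.wm l) - (y - PL.wm k) := by
    simp only [PL.wm]
    push_cast
    ring
  have h2 := tipk_norm_wm (k - l)
  have h3 := norm_sub_le (y - PL.wm l) (y - PL.wm k)
  rw [← h1, h2] at h3
  push_cast at h3
  linarith

lemma tipk_abs_le {y : ℂ} {k l : ℤ} {r : ℝ} (hk : ‖y - PL.wm k‖ ≤ r) (hl : ‖y - PL.wm l‖ ≤ r) :
    3 * |(k : ℝ) - l| ≤ r := by
  have h1 := wm_close hk hl
  have h2 := mul_le_mul_of_nonneg_right Real.pi_gt_three.le (abs_nonneg ((k : ℝ) - l))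
  linarith

lemma wm_far {y : ℂ} (h : ∀ k, y ≠ PL.wm k) : ∃ d : ℝ, 0 < d ∧ ∀ k, d ≤ ‖y - PL.wm k‖ := by
  by_cases h0 : ∃ l, ‖y - PL.wm l‖ ≤ 1
  · obtain ⟨l, hl⟩ := h0
    refine ⟨‖y - PL.wm l‖, norm_pos_iff.2 (sub_ne_zero.2 (h l)), fun k => ?_⟩
    by_cases hk : ‖y - PL.wm k‖ ≤ 1
    · have h1 := tipk_abs_le hk hl
      have h2 : |k - l| < 1 := by
        have : ((|k - l| : ℤ) : ℝ) < 1 := by
          push_cast
          linarith [abs_nonneg ((k : ℝ) - l)]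
        exact_mod_cast this
      have h3 : k = l := sub_eq_zero.1 (Int.abs_lt_one_iff.1 h2)
      rw [h3]
    · linarith [not_le.1 hk]
  · exact ⟨1, one_pos, fun k => (not_le.1 fun hk => h0 ⟨k, hk⟩).le⟩

/-- Counting periods: the coordinates in `J` determine the elements of `s`. -/
lemma card_box {κ : Type} [Fintype κ] [DecidableEq κ] (π : κ → Fin N → ℤ) (ρ : κ → ℝ)
    (hρ : ∀ j, 0 ≤ ρ j) (x : Sp N) (s : Finset (κ → ℤ)) (hs : ∀ μ ∈ s, inB π ρ μ x)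
    (J : Finset κ) (hJ : ∀ μ ∈ s, ∀ μ' ∈ s, (∀ j ∈ J, μ j = μ' j) → μ = μ') :
    (s.card : ℝ) ≤ ∏ j ∈ J, (2 * ρ j + 1) := by
  rcases s.eq_empty_or_nonempty with rfl | ⟨μ₀, h₀⟩
  · rw [card_empty, Nat.cast_zero]
    exact prod_nonneg fun j _ => by linarith [hρ j]
  have h1 : s.card ≤ (Fintype.piFinset fun j : J =>
      Finset.Icc (μ₀ j - ⌊ρ j⌋₊) (μ₀ j + ⌊ρ j⌋₊)).card := by
    refine card_le_card_of_injOn (fun μ (j : J) => μ j) (fun μ hμ => ?_) fun μ hμ μ' hμ' e => ?_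
    · refine mem_coe.2 (Fintype.mem_piFinset.2 fun j => ?_)
      have h2 : 3 * |(μ j : ℝ) - μ₀ j| ≤ ρ j := tipk_abs_le (hs μ hμ j) (hs μ₀ h₀ j)
      have h3 : (((μ j - μ₀ j).natAbs : ℕ) : ℝ) ≤ ρ j := by
        rw [Nat.cast_natAbs]
        push_cast
        linarith [abs_nonneg ((μ j : ℝ) - μ₀ j)]
      have h4 := Nat.le_floor h3
      refine Finset.mem_Icc.2 (?_ : μ₀ j - ⌊ρ j⌋₊ ≤ μ j ∧ μ j ≤ μ₀ j + ⌊ρ j⌋₊)
      omega
    · exact hJ μ hμ μ' hμ' fun j hj => congrFun e ⟨j, hj⟩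
  rw [Fintype.card_piFinset] at h1
  calc (s.card : ℝ) ≤ ∏ j : J, ((Finset.Icc (μ₀ j - ⌊ρ j⌋₊) (μ₀ j + ⌊ρ j⌋₊)).card : ℝ) := by
        exact_mod_cast h1
    _ ≤ ∏ j : J, (2 * ρ j + 1) := by
        refine prod_le_prod (fun j _ => Nat.cast_nonneg _) fun j _ => ?_
        have h5 : (Finset.Icc (μ₀ j - ⌊ρ j⌋₊) (μ₀ j + ⌊ρ j⌋₊)).card = 2 * ⌊ρ j⌋₊ + 1 := by
          rw [Int.card_Icc]
          omega
        rw [h5]
        push_cast
        linarith [Nat.floor_le (hρ j)]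
    _ = ∏ j ∈ J, (2 * ρ j + 1) := prod_coe_sort J fun j => 2 * ρ j + 1

lemma tipk_finite (y : ℂ) (r : ℝ) : {k : ℤ | ‖y - PL.wm k‖ ≤ r}.Finite := by
  rcases Set.eq_empty_or_nonempty {k : ℤ | ‖y - PL.wm k‖ ≤ r} with h | ⟨l, hl⟩
  · rw [h]
    exact Set.finite_empty
  · refine (Set.finite_Icc (l - ⌈r⌉) (l + ⌈r⌉)).subset fun k hk => ?_
    have h2 : 3 * |(k : ℝ) - l| ≤ r := tipk_abs_le hk hl
    have h3 : ((|k - l| : ℤ) : ℝ) ≤ ⌈r⌉ := by
      push_cast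
      linarith [abs_nonneg ((k : ℝ) - l), Int.le_ceil r]
    have h4 : |k - l| ≤ ⌈r⌉ := by exact_mod_cast h3
    have h5 := abs_le.1 h4
    constructor <;> linarith [h5.1, h5.2]

/-- The boxes are locally finite. -/
lemma box_finite {κ : Type} [Fintype κ] (π : κ → Fin N → ℤ) (ρ : κ → ℝ) (x : Sp N) :
    ∃ s : Finset (κ → ℤ), (∀ μ, μ ∈ s ↔ inB π ρ μ x) ∧ ∀ᶠ y in nhds x, ∀ μ, inB π ρ μ y → μ ∈ s := by
  have hfin : ∀ ρ' : κ → ℝ, {μ : κ → ℤ | inB π ρ' μ x}.Finite := fun ρ' =>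
    (Set.Finite.pi' fun j => tipk_finite (mc π (cZ x) j) (ρ' j)).subset fun μ hμ j => hμ j
  refine ⟨(hfin ρ).toFinset, fun μ => (hfin ρ).mem_toFinset, ?_⟩
  have h1 : ∀ᶠ y in nhds x, ∀ j, ‖mc π (cZ y) j - mc π (cZ x) j‖ < 1 := by
    refine Filter.eventually_all.2 fun j => ?_
    have hc : Continuous fun y : Sp N => ‖mc π (cZ y) j - mc π (cZ x) j‖ :=
      ((tipk_mc_diff π j).continuous.sub continuous_const).norm
    exact hc.continuousAt.eventually_lt continuousAt_const (by simp)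
  have h2 : ∀ᶠ y in nhds x, ∀ μ ∈ {μ : κ → ℤ | inB π (fun j => ρ j + 1) μ x},
      inB π ρ μ y → inB π ρ μ x := by
    refine ((hfin _).eventually_all).2 fun μ _ => ?_
    by_cases hμ : inB π ρ μ x
    · exact Filter.Eventually.of_forall fun _ _ => hμ
    · obtain ⟨j, hj⟩ := not_forall.1 hμ
      have hc : Continuous fun y : Sp N => ‖yv π μ y j‖ :=
        ((tipk_mc_diff π j).continuous.sub continuous_const).norm
      filter_upwards [continuousAt_const.eventually_lt hc.continuousAt (not_le.1 hj)] with y hy hb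
      exact absurd (hb j) (not_le.2 hy)
  filter_upwards [h1, h2] with y hy1 hy2 μ hμ
  refine (hfin ρ).mem_toFinset.2 (hy2 μ (fun j => ?_) hμ)
  have e : yv π μ x j = yv π μ y j - (mc π (cZ y) j - mc π (cZ x) j) := by
    simp only [yv, Pi.sub_apply]
    ring
  rw [e]
  exact (norm_sub_le _ _).trans (add_le_add (hμ j) (hy1 j).le)

end Pool.Agent.Lib.MP_1f047c_nt.TI
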