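import Pool.Agent.Lib.MP_1f047c_nt.TIPk

open Finset MeasureTheory

namespace Pool.Agent.Lib.MP_1f047c_nt.TI

variable {N : ℕ}

lemma Fam.mono {κ : Type} {lev : Fin N → ℕ} {C : ℝ} {π : κ → Fin N → ℤ} {b ρ e₀ K Θ K' Θ' : ℝ}
    {z : Fin N → ℂ} {top : ℝ → Sp N → ℝ} {a : ℝ → (κ → ℤ) → Sp N → ℝ}
    (h : Fam lev C π b ρ e₀ K Θ z top a) (hK : K ≤ K') (hΘ : Θ ≤ Θ')
    (ht : ∀ ε, 0 < ε → Continuous (top ε) ∧ ∀ x, SubM (top ε) x fun _ => 0) :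
    Fam lev C π b ρ e₀ K' Θ' z top a := by
  obtain ⟨C₁, n₀, rz, hrz, hC₁, h⟩ := h
  refine ⟨C₁, max n₀ 0, rz, hrz, hC₁, fun n hn hadm => ?_⟩
  obtain ⟨Cn, h⟩ := h n (fun i => (le_max_left _ _).trans (hn i))
    ⟨hadm.1, fun i k hik => (mul_le_mul_of_nonneg_right hΘ
      ((le_max_right _ _).trans (hn k))).trans (hadm.2 i k hik)⟩
  refine ⟨Cn, fun ε hε hε1 => ?_⟩
  obtain ⟨W, S, G, P⟩ := h ε hε hε1
  obtain ⟨hc, hs⟩ := ht ε hε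
  refine ⟨W, S, G, P.cW, P.cS, P.cG, fun x s t t' hst => ?_, P.uW, P.uS, P.uG, P.lo, P.s1, P.s2,
    P.s3⟩
  have h1 : Continuous fun y => W y + K * top ε y + ∑ μ ∈ s, (t μ * S μ y + t' μ * G μ y) :=
    (P.cW.add (continuous_const.mul hc)).add (continuous_finsetSum s fun μ _ =>
      (continuous_const.mul (P.cS μ)).add (continuous_const.mul (P.cG μ)))
  have h2 := SubM.add h1 (continuous_const.mul hc) (P.psh x s t t' hst)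
    ((hs x).smul (sub_nonneg.2 hK))
  have h3 : (fun y => W y + K' * top ε y + ∑ μ ∈ s, (t μ * S μ y + t' μ * G μ y)) = fun y =>
      W y + K * top ε y + ∑ μ ∈ s, (t μ * S μ y + t' μ * G μ y) + (K' - K) * top ε y := by
    funext y; ring
  rw [h3]
  exact h2.mono fun v => by simp

lemma tipk2_pk_mono {κ : Type} {π : κ → Fin N → ℤ} {n ν : Fin N → ℝ} {z : Fin N → ℂ}
    {ε b ρ e₀ K C₁ Cn rz C₁' Cn' rz' : ℝ} {top : Sp N → ℝ} {a : (κ → ℤ) → Sp N → ℝ}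
    {W : Sp N → ℝ} {S G : (κ → ℤ) → Sp N → ℝ}
    (P : Pk π n ν z ε b ρ e₀ K C₁ Cn rz top a W S G) (h1 : C₁ ≤ C₁') (h2 : Cn ≤ Cn')
    (h3 : rz' ≤ rz) : Pk π n ν z ε b ρ e₀ K C₁' Cn' rz' top a W S G := by
  have hU : ∀ x, Ub e₀ n Cn x ≤ Ub e₀ n Cn' x := fun x => by
    unfold Ub; linarith
  refine ⟨P.cW, P.cS, P.cG, P.psh, fun x => (P.uW x).trans (hU x),
    fun μ x => (P.uS μ x).trans (hU x), fun m x L hL => ?_, fun x hx => ?_,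
    fun μ x hx => (P.s1 μ x hx).trans h1, P.s2, fun μ x hx => ?_⟩
  · linarith [P.uG m x L hL, hU x]
  · linarith [P.lo x (hx.trans h3)]
  · rcases P.s3 μ x hx with h | h
    · left; linarith
    · right; exact h

/-- Common constants for finitely many families. -/
lemma Fam.common {κ ι : Type} [Fintype ι] {lev : Fin N → ℕ} {C : ℝ} {π : κ → Fin N → ℤ}
    {b ρ e₀ Θ : ℝ} {K : ι → ℝ} {z : Fin N → ℂ} {top : ℝ → Sp N → ℝ}
    {a : ι → ℝ → (κ → ℤ) → Sp N → ℝ} (h : ∀ c, Fam lev C π b ρ e₀ (K c) Θ z top (a c)) :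
    ∃ C₁ n₀ rz : ℝ, 0 < rz ∧ 0 ≤ C₁ ∧ ∀ rz' ≤ rz, ∀ n : Fin N → ℝ, (∀ i, n₀ ≤ n i) → Adm lev Θ n →
      ∃ Cn : ℝ, 0 ≤ Cn ∧ ∀ ε : ℝ, 0 < ε → ε ≤ 1 → ∀ c, ∃ W S G,
        Pk π n (fun i => C * n i) z ε b ρ e₀ (K c) C₁ Cn rz' (top ε) (a c ε) W S G := by
  choose C₁ n₀ rz hrz hC₁ h using h
  have hle : ∀ (f : ι → ℝ) (c : ι), f c ≤ ∑ c, |f c| := fun f c =>
    (le_abs_self _).trans (single_le_sum (f := fun c => |f c|) (fun c _ => abs_nonneg _)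
      (mem_univ c))
  have hnn : ∀ f : ι → ℝ, 0 ≤ ∑ c, |f c| := fun f => sum_nonneg fun c _ => abs_nonneg _
  refine ⟨∑ c, |C₁ c|, ∑ c, |n₀ c|, (univ : Finset ι).fold min 1 rz, ?_, hnn _,
    fun rz' hrz' n hn hadm => ?_⟩
  · rw [Finset.lt_fold_min]
    exact ⟨one_pos, fun c _ => hrz c⟩
  · have hr : ∀ c, rz' ≤ rz c := fun c =>
      ((Finset.le_fold_min _).1 hrz').2 c (mem_univ c)
    choose Cn hCn using fun c => h c n (fun i => (hle n₀ c).trans (hn i)) hadm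
    refine ⟨∑ c, |Cn c|, hnn _, fun ε hε hε1 c => ?_⟩
    obtain ⟨W, S, G, P⟩ := hCn c ε hε hε1
    exact ⟨W, S, G, tipk2_pk_mono P (hle C₁ c) (hle Cn c) (hr c)⟩

lemma tipk2_mz {κ κ' : Type} [Fintype κ] (p : κ' → κ → ℤ) (π : κ → Fin N → ℤ) (m : Fin N → ℤ) :
    mz p (mz π m) = mz (fun j i => ∑ k, p j k * π k i) m := by
  funext j
  simp only [mz, mul_sum, sum_mul, mul_assoc]
  exact sum_comm

lemma tipk2_inB {κ κ' : Type} [Fintype κ] {π : κ → Fin N → ℤ} (p : κ' → κ → ℤ) {ρ ρ' : ℝ}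
    (hρ' : ∀ j, (∑ k, |(p j k : ℝ)|) * ρ ≤ ρ') {μ : κ → ℤ} {x : Sp N}
    (hx : inB π (fun _ => ρ) μ x) :
    inB (fun j i => ∑ k, p j k * π k i) (fun _ => ρ') (mz p μ) x := by
  intro j
  rw [yv_comp]
  refine le_trans ?_ (hρ' j)
  rw [sum_mul]
  refine norm_sum_le_of_le _ fun k _ => ?_
  rw [norm_mul, Complex.norm_intCast]
  exact mul_le_mul_of_nonneg_left (hx k) (abs_nonneg _)

/-- Transport of a family along an integer matrix. -/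
lemma Fam.pull {κ κ' : Type} [Fintype κ] [DecidableEq κ] [DecidableEq κ'] [Fintype κ']
    {lev : Fin N → ℕ} {C : ℝ} {π : κ → Fin N → ℤ} (p : κ' → κ → ℤ) {b ρ b' ρ' e₀ K Θ : ℝ}
    {z : Fin N → ℂ} {top : ℝ → Sp N → ℝ} {a : ℝ → (κ' → ℤ) → Sp N → ℝ}
    (h : Fam lev C (fun j i => ∑ k, p j k * π k i) b' ρ' e₀ K Θ z top a) (hb : 0 ≤ b) (hρ : 0 ≤ ρ)
    (hb' : b * (2 * ρ + 1) ^ Fintype.card κ ≤ b') (hρ' : ∀ j, (∑ k, |(p j k : ℝ)|) * ρ ≤ ρ') :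
    Fam lev C π b ρ e₀ K Θ z top fun ε μ => a ε (mz p μ) := by
  obtain ⟨C₁, n₀, rz, hrz, hC₁, h⟩ := h
  refine ⟨C₁, n₀, rz, hrz, hC₁, fun n hn hadm => ?_⟩
  obtain ⟨Cn, h⟩ := h n hn hadm
  refine ⟨Cn, fun ε hε hε1 => ?_⟩
  obtain ⟨W, S, G, P⟩ := h ε hε hε1
  refine ⟨W, fun μ => S (mz p μ), fun μ => G (mz p μ), P.cW, fun μ => P.cS _, fun μ => P.cG _,
    fun x s t t' hst => ?_, P.uW, fun μ x => P.uS _ x, fun m x L hL => ?_, P.lo,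
    fun μ x hx => P.s1 _ x (tipk2_inB p hρ' hx), fun μ x => P.s2 _ x,
    fun μ x hx => P.s3 _ x (tipk2_inB p hρ' hx)⟩
  · have hcard : (s.card : ℝ) ≤ (2 * ρ + 1) ^ Fintype.card κ := by
      have h1 := card_box π (fun _ => ρ) (fun _ => hρ) x s (fun μ hμ => (hst μ hμ).1) univ
        fun μ _ μ' _ hj => funext fun j => hj j (mem_univ j)
      rwa [prod_const, card_univ] at h1
    have h1 := P.psh x (s.image (mz p)) (fun ν => ∑ μ ∈ s with mz p μ = ν, t μ)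
      (fun ν => ∑ μ ∈ s with mz p μ = ν, t' μ) fun ν hν => by
        obtain ⟨μ₀, hμ₀, rfl⟩ := mem_image.1 hν
        refine ⟨tipk2_inB p hρ' (hst μ₀ hμ₀).1,
          sum_nonneg fun μ hμ => (hst μ (mem_filter.1 hμ).1).2.1,
          sum_nonneg fun μ hμ => (hst μ (mem_filter.1 hμ).1).2.2.1, ?_⟩
        rw [← sum_add_distrib]
        refine (sum_le_card_nsmul _ _ b fun μ hμ => (hst μ (mem_filter.1 hμ).1).2.2.2).trans ?_
        rw [nsmul_eq_mul, mul_comm]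
        refine le_trans (mul_le_mul_of_nonneg_left (le_trans ?_ hcard) hb) hb'
        exact_mod_cast card_filter_le _ _
    have h2 : (fun y => W y + K * top ε y + ∑ μ ∈ s, (t μ * S (mz p μ) y + t' μ * G (mz p μ) y))
        = fun y => W y + K * top ε y + ∑ ν ∈ s.image (mz p),
          ((∑ μ ∈ s with mz p μ = ν, t μ) * S ν y + (∑ μ ∈ s with mz p μ = ν, t' μ) * G ν y) := by
      funext y
      rw [← sum_fiberwise_of_maps_to (s := s) (t := s.image (mz p)) (g := mz p)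
        fun μ hμ => mem_image_of_mem _ hμ]
      refine congrArg (W y + K * top ε y + ·) (sum_congr rfl fun ν _ => ?_)
      rw [sum_mul, sum_mul, ← sum_add_distrib]
      refine sum_congr rfl fun μ hμ => ?_
      rw [(mem_filter.1 hμ).2]
    rw [h2]
    exact h1
  · show W x + G (mz p (mz π m)) x ≤ Ub e₀ n Cn x + L
    rw [tipk2_mz]
    exact P.uG m x L hL

lemma topF_ok (𝒯 : Finset (MP N)) (ε : ℝ) (hε : 0 < ε) :
    Continuous (topF 𝒯 ε) ∧ ∀ x, SubM (topF 𝒯 ε) x fun _ => 0 :=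
  ⟨(lg_cont hε 𝒯).comp cX_diff.continuous, fun x => lg_sub hε 𝒯 cX cX_diff x⟩

lemma aF_ok {κ : Type} [Fintype κ] (π : κ → Fin N → ℤ) (σ : (κ → ℂ) →ₗ[ℂ] (Fin N → ℂ))
    (𝒢 : Finset (MP N)) (ε : ℝ) (hε : 0 < ε) (μ : κ → ℤ) :
    Continuous (aF π σ 𝒢 ε μ) ∧ ∀ x, SubM (aF π σ 𝒢 ε μ) x fun _ => 0 := by
  have hd : Differentiable ℂ fun x : Sp N => cX x - σ (yv π μ x) :=
    cX_diff.sub ((LinearMap.toContinuousLinearMap σ).differentiable.comp (yv_diff π μ))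
  exact ⟨(lg_cont hε 𝒢).comp hd.continuous, fun x => lg_sub hε 𝒢 _ hd x⟩

lemma tipk2_norm {κ : Type} [Fintype κ] {π : κ → Fin N → ℤ} (σ : (κ → ℂ) →ₗ[ℂ] (Fin N → ℂ))
    {R : ℝ} {μ : κ → ℤ} {x : Sp N} (hx : inB π (fun _ => R) μ x) :
    ‖σ (yv π μ x)‖ ≤ ‖LinearMap.toContinuousLinearMap σ‖ * |R| := by
  have h1 : ‖yv π μ x‖ ≤ |R| :=
    (pi_norm_le_iff_of_nonneg (abs_nonneg R)).2 fun j => (hx j).trans (le_abs_self R)
  exact (LinearMap.toContinuousLinearMap σ).le_opNorm_of_le h1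

lemma aF_le_top {κ : Type} [Fintype κ] {π : κ → Fin N → ℤ} {σ : (κ → ℂ) →ₗ[ℂ] (Fin N → ℂ)}
    {𝒯 𝒢 : Finset (MP N)} (h : Node π σ 𝒯 𝒢) (R : ℝ) : ∃ C : ℝ, 0 ≤ C ∧ ∀ ε : ℝ, 0 < ε →
      ∀ μ x, inB π (fun _ => R) μ x → aF π σ 𝒢 ε μ x ≤ topF 𝒯 ε x + C := by
  obtain ⟨C, hC, hle⟩ := lg_cmp 𝒢 𝒯 {y | ‖y‖ ≤ ‖LinearMap.toContinuousLinearMap σ‖ * |R|} _
    (fun y hy => hy) fun y _ g hg => tr_sp (h.closed y) g (h.sub g hg)
  refine ⟨C, hC, fun ε hε μ x hx => ?_⟩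
  have h1 := hle ε hε (-σ (yv π μ x)) (by
    show ‖-σ (yv π μ x)‖ ≤ _
    rw [norm_neg]; exact tipk2_norm σ hx) (cX x)
  rw [← sub_eq_add_neg] at h1
  exact h1

/-- Nodes which contain all translates. -/
theorem fam_base (hN : 0 < N) {κ : Type} [Fintype κ] (lev : Fin N → ℕ) {C : ℝ} (hC : 0 ≤ C)
    {π : κ → Fin N → ℤ} {σ : (κ → ℂ) →ₗ[ℂ] (Fin N → ℂ)} {𝒯 𝒢 : Finset (MP N)}
    (h : Node π σ 𝒯 𝒢) (hb : sp 𝒯 ≤ sp 𝒢) (b ρ : ℝ) {e₀ K : ℝ} (he : 0 ≤ e₀) (hK : 0 ≤ K)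
    (Θ : ℝ) (z : Fin N → ℂ) : Fam lev C π b ρ e₀ K Θ z (topF 𝒯) (aF π σ 𝒢) := by
  obtain ⟨C₁, hC₁, h1⟩ := aF_le_top h ρ
  obtain ⟨C₂, hC₂, h2⟩ := lg_cmp 𝒯 𝒢 {y | ‖y‖ ≤ ‖LinearMap.toContinuousLinearMap σ‖ * |ρ|} _
    (fun y hy => hy) fun y _ g hg => hb (h.closed y g hg)
  refine ⟨C₁ + C₂, 0, 1, one_pos, add_nonneg hC₁ hC₂, fun n hn _ => ⟨0, fun ε hε hε1 => ?_⟩⟩
  have hU : ∀ x, 0 ≤ Ub e₀ n 0 x := fun x => by
    unfold Ub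
    rw [add_zero]
    exact mul_nonneg he (sum_nonneg fun i _ => mul_nonneg (hn i) (abs_nonneg _))
  have hlog : Real.log ε ≤ 0 := Real.log_nonpos hε.le hε1
  have hterm : ∀ i, C * n i * (1 / 2 * Real.log ε) ≤ 0 := fun i =>
    mul_nonpos_of_nonneg_of_nonpos (mul_nonneg hC (hn i)) (by linarith)
  obtain ⟨hc, hs⟩ := topF_ok 𝒯 ε hε
  refine ⟨fun _ => 0, fun _ _ => 0, fun _ _ => ∑ i, C * n i * (1 / 2 * Real.log ε),
    continuous_const, fun _ => continuous_const, fun _ => continuous_const,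
    fun x s t t' _ => ?_, hU, fun μ x => ?_, fun m x L hL => ?_, fun x _ => ?_, fun μ x hx => ?_,
    fun μ x => sum_nonpos fun i _ => hterm i, fun μ x hx => Or.inl ?_⟩
  · have h3 := SubM.add (continuous_const.mul hc) continuous_const ((hs x).smul hK)
      (subM_const (∑ μ ∈ s, (t μ * 0 + t' μ * ∑ i, C * n i * (1 / 2 * Real.log ε))) x)
    simp only [zero_add]
    exact h3.mono fun v => by simp
  · rw [add_zero]; exact hU x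
  · have h3 : ∑ i, C * n i * (1 / 2 * Real.log ε) ≤ C * n ⟨0, hN⟩ * (1 / 2 * Real.log ε) := by
      rw [← add_sum_erase _ _ (mem_univ (⟨0, hN⟩ : Fin N))]
      exact add_le_of_nonpos_right (sum_nonpos fun i _ => hterm i)
    have h4 : C * n ⟨0, hN⟩ * (1 / 2 * Real.log ε) ≤ C * n ⟨0, hN⟩ *
        (1 / 2 * Real.log (ε + ‖cZ x ⟨0, hN⟩ - PL.wm (m ⟨0, hN⟩)‖ ^ 2)) := by
      refine mul_le_mul_of_nonneg_left ?_ (mul_nonneg hC (hn _))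
      have h5 := Real.log_le_log hε
        (le_add_of_nonneg_right (sq_nonneg ‖cZ x ⟨0, hN⟩ - PL.wm (m ⟨0, hN⟩)‖))
      linarith
    have h5 := hL ⟨0, hN⟩
    have h6 := hU x
    linarith
  · rw [neg_zero]
  · linarith [h1 ε hε μ x hx]
  · have h3 := h2 ε hε (σ (yv π μ x)) (tipk2_norm σ hx) (cX x - σ (yv π μ x))
    rw [sub_add_cancel] at h3
    have h4 : topF 𝒯 ε x ≤ aF π σ 𝒢 ε μ x + C₂ := h3
    linarith

end Pool.Agent.Lib.MP_1f047c_nt.TI
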