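import Pool.Agent.Lib.MP_1f047c_nt.TISub2

open Finset MeasureTheory

namespace Pool.Agent.Lib.MP_1f047c_nt.TI

variable {N : ℕ}

lemma tipoly_X (y : Fin N → ℂ) (i : Fin N) :
    tr y (MvPolynomial.X i) = MvPolynomial.X i + MvPolynomial.C (y i) :=
  MvPolynomial.aeval_X _ _

lemma tipoly_C (y : Fin N → ℂ) (a : ℂ) : tr y (MvPolynomial.C a) = MvPolynomial.C a :=
  (tr y).commutes a

lemma eval_tr (x y : Fin N → ℂ) (g : MP N) :
    MvPolynomial.eval x (tr y g) = MvPolynomial.eval (x + y) g := by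
  induction g using MvPolynomial.induction_on with
  | C a => rw [tipoly_C, MvPolynomial.eval_C, MvPolynomial.eval_C]
  | add p q hp hq => rw [map_add, map_add, map_add, hp, hq]
  | mul_X p i hp =>
    rw [map_mul, map_mul, map_mul, hp, tipoly_X, map_add, MvPolynomial.eval_X,
      MvPolynomial.eval_X, MvPolynomial.eval_C, Pi.add_apply]

lemma tr_tr (y y' : Fin N → ℂ) (g : MP N) : tr y (tr y' g) = tr (y + y') g :=
  MvPolynomial.funext fun x => by rw [eval_tr, eval_tr, eval_tr, add_assoc]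

lemma tr_zero (g : MP N) : tr 0 g = g :=
  MvPolynomial.funext fun x => by rw [eval_tr, add_zero]

lemma tr_degree (y : Fin N → ℂ) (g : MP N) : (tr y g).totalDegree ≤ g.totalDegree := by
  have h1 : ∀ i, (MvPolynomial.X i + MvPolynomial.C (y i) : MP N).totalDegree ≤ 1 := fun i =>
    (MvPolynomial.totalDegree_add _ _).trans (max_le (MvPolynomial.totalDegree_X i).le
      (by rw [MvPolynomial.totalDegree_C]; exact zero_le_one))
  conv_lhs => rw [g.as_sum, map_sum]
  refine MvPolynomial.totalDegree_finsetSum_le fun m hm => ?_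
  refine le_trans ?_ (MvPolynomial.le_totalDegree hm)
  rw [tr, MvPolynomial.aeval_monomial]
  refine (MvPolynomial.totalDegree_mul _ _).trans ?_
  rw [MvPolynomial.algebraMap_eq, MvPolynomial.totalDegree_C, zero_add]
  refine (MvPolynomial.totalDegree_finsetProd _ _).trans (Finset.sum_le_sum fun i _ => ?_)
  exact (MvPolynomial.totalDegree_pow _ _).trans
    ((Nat.mul_le_mul_left _ (h1 i)).trans (mul_one _).le)

lemma tr_sp {𝒢 : Finset (MP N)} {U : Submodule ℂ (MP N)} {y : Fin N → ℂ}
    (h : ∀ g ∈ 𝒢, tr y g ∈ U) : ∀ g ∈ sp 𝒢, tr y g ∈ U := fun _ hg =>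
  (Submodule.span_le (p := U.comap (tr y).toLinearMap)).2 (fun g hg => h g hg) hg

lemma tipoly_poly (l : Module.Dual ℂ (MP N)) (w : Fin N → ℂ) (g : MP N) :
    ∀ h : MP N, ∃ P : Polynomial ℂ, ∀ t : ℂ, l (h * tr (t • w) g) = P.eval t := by
  induction g using MvPolynomial.induction_on with
  | C a => exact fun h => ⟨Polynomial.C (l (h * MvPolynomial.C a)), fun t => by
      rw [tipoly_C, Polynomial.eval_C]⟩
  | add p q hp hq =>
    intro h
    obtain ⟨P, hP⟩ := hp h
    obtain ⟨Q, hQ⟩ := hq h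
    exact ⟨P + Q, fun t => by rw [map_add, mul_add, map_add, hP, hQ, Polynomial.eval_add]⟩
  | mul_X p i hp =>
    intro h
    obtain ⟨P, hP⟩ := hp (h * MvPolynomial.X i)
    obtain ⟨Q, hQ⟩ := hp h
    refine ⟨P + Polynomial.X * Polynomial.C (w i) * Q, fun t => ?_⟩
    have e : h * tr (t • w) (p * MvPolynomial.X i) = h * MvPolynomial.X i * tr (t • w) p +
        (t * w i) • (h * tr (t • w) p) := by
      rw [map_mul, tipoly_X, MvPolynomial.smul_eq_C_mul, Pi.smul_apply, smul_eq_mul]
      ring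
    rw [e, map_add, map_smul, hP, hQ, Polynomial.eval_add, Polynomial.eval_mul,
      Polynomial.eval_mul, Polynomial.eval_X, Polynomial.eval_C, smul_eq_mul]

/-- Invariance under one translation gives invariance under a line of translations. -/
lemma tr_line {𝒢 : Finset (MP N)} {w : Fin N → ℂ} (h : ∀ g ∈ 𝒢, tr w g ∈ sp 𝒢) (t : ℂ) :
    ∀ g ∈ 𝒢, tr (t • w) g ∈ sp 𝒢 := by
  intro g hg
  have h1 : ∀ k : ℕ, tr ((k : ℂ) • w) g ∈ sp 𝒢 := fun k => by
    induction k with
    | zero =>
      rw [Nat.cast_zero, zero_smul, tr_zero]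
      exact Submodule.subset_span hg
    | succ k ih =>
      rw [Nat.cast_succ, add_smul, one_smul, add_comm, ← tr_tr]
      exact tr_sp h _ ih
  refine (Subspace.forall_mem_dualAnnihilator_apply_eq_zero_iff (sp 𝒢) _).1 fun l hl => ?_
  obtain ⟨P, hP⟩ := tipoly_poly l w g 1
  simp only [one_mul] at hP
  have h2 : P = 0 := Polynomial.eq_zero_of_infinite_isRoot P
    (Set.infinite_of_injective_forall_mem (f := fun k : ℕ => (k : ℂ)) Nat.cast_injective
      fun k => (hP k).symm.trans ((Submodule.mem_dualAnnihilator l).1 hl _ (h1 k)))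
  rw [hP, h2, Polynomial.eval_zero]

lemma lg_cont {ε : ℝ} (hε : 0 < ε) (𝒢 : Finset (MP N)) : Continuous (lg ε 𝒢) := by
  refine continuous_const.mul (Continuous.log (continuous_const.add
    (continuous_finsetSum _ fun g _ => (MvPolynomial.continuous_eval g).norm.pow 2)) fun y => ?_)
  positivity

lemma tipoly_diff {E : Type} [NormedAddCommGroup E] [NormedSpace ℂ E] (Y : E → Fin N → ℂ)
    (hY : Differentiable ℂ Y) (g : MP N) :
    Differentiable ℂ fun y => MvPolynomial.eval (Y y) g := by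
  induction g using MvPolynomial.induction_on with
  | C a => simp only [MvPolynomial.eval_C]; exact differentiable_const a
  | add p q hp hq => simp only [map_add]; exact hp.add hq
  | mul_X p i hp =>
    simp only [map_mul, MvPolynomial.eval_X]
    exact hp.mul (differentiable_pi.1 hY i)

lemma lg_sub {E : Type} [NormedAddCommGroup E] [NormedSpace ℂ E] {ε : ℝ} (hε : 0 < ε)
    (𝒢 : Finset (MP N)) (Y : E → Fin N → ℂ) (hY : Differentiable ℂ Y) (x : E) :
    SubM (fun y => lg ε 𝒢 (Y y)) x fun _ => 0 :=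
  subM_log 𝒢 (fun g y => MvPolynomial.eval (Y y) g) (fun g _ => tipoly_diff Y hY g) hε x

end Pool.Agent.Lib.MP_1f047c_nt.TI
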