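import Pool.Agent.Lib.MP_1f047c_nt.TIPoly

open Finset MeasureTheory

namespace Pool.Agent.Lib.MP_1f047c_nt.TI

variable {N : ℕ}

lemma tipoly2_coord (𝒢 : Finset (MP N)) : ∃ L : MP N →ₗ[ℂ] (𝒢 → ℂ),
    ∀ p ∈ sp 𝒢, p = ∑ g : 𝒢, L p g • (g : MP N) := by
  let T : (𝒢 → ℂ) →ₗ[ℂ] MP N := Fintype.linearCombination ℂ fun g : 𝒢 => (g : MP N)
  have hT : LinearMap.range T = sp 𝒢 := by
    rw [Fintype.range_linearCombination]
    congr 1
    ext g
    simp
  obtain ⟨S, hS⟩ := T.rangeRestrict.exists_rightInverse_of_surjective T.range_rangeRestrict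
  obtain ⟨L, hL⟩ := S.exists_extend
  refine ⟨L, fun p hp => ?_⟩
  rw [← hT] at hp
  have h1 : L p = S ⟨p, hp⟩ := LinearMap.congr_fun hL ⟨p, hp⟩
  have h2 : T (S ⟨p, hp⟩) = p := congrArg Subtype.val (LinearMap.congr_fun hS ⟨p, hp⟩)
  rw [h1]
  exact h2.symm.trans (Fintype.linearCombination_apply _ _ _)

lemma tipoly2_C (y : Fin N → ℂ) (a : ℂ) : tr y (MvPolynomial.C a) = MvPolynomial.C a :=
  (tr y).commutes a

lemma tipoly2_X (y : Fin N → ℂ) (i : Fin N) :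
    tr y (MvPolynomial.X i) = MvPolynomial.X i + MvPolynomial.C (y i) := MvPolynomial.aeval_X _ _

lemma tipoly2_cont (l : MP N →ₗ[ℂ] ℂ) (g h : MP N) : Continuous fun y => l (h * tr y g) := by
  induction g using MvPolynomial.induction_on generalizing h with
  | C a =>
    simp only [tipoly2_C]
    exact continuous_const
  | add p q hp hq =>
    simp only [map_add, mul_add]
    exact (hp h).add (hq h)
  | mul_X p i hp =>
    have e : ∀ y, l (h * tr y (p * MvPolynomial.X i)) =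
        l (h * MvPolynomial.X i * tr y p) + y i * l (h * tr y p) := fun y => by
      rw [← smul_eq_mul (y i), ← map_smul, ← map_add, map_mul (tr y), tipoly2_X,
        MvPolynomial.smul_eq_C_mul]
      congr 1
      ring
    simp only [e]
    exact (hp _).add ((continuous_apply i).mul (hp _))

lemma tipoly2_log {a b M : ℝ} (ha : 0 < a) (hb : 0 < b) (hM : 0 < M) (h : a ≤ M * b) :
    1 / 2 * Real.log a ≤ 1 / 2 * Real.log b + 1 / 2 * Real.log M := by
  have h1 := Real.log_le_log ha h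
  rw [Real.log_mul hM.ne' hb.ne'] at h1
  linarith

lemma tipoly2_pos {ε : ℝ} (hε : 0 < ε) (𝒢 : Finset (MP N)) (x : Fin N → ℂ) :
    0 < ε + ∑ g ∈ 𝒢, ‖MvPolynomial.eval x g‖ ^ 2 :=
  add_pos_of_pos_of_nonneg hε (sum_nonneg fun _ _ => sq_nonneg _)

/-- Comparison of norms, uniformly for bounded translations. -/
theorem lg_cmp (𝒢 𝒢' : Finset (MP N)) (Y : Set (Fin N → ℂ)) (R : ℝ) (hR : ∀ y ∈ Y, ‖y‖ ≤ R)
    (h : ∀ y ∈ Y, ∀ g ∈ 𝒢, tr y g ∈ sp 𝒢') : ∃ C : ℝ, 0 ≤ C ∧ ∀ ε : ℝ, 0 < ε → ∀ y ∈ Y, ∀ x,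
      lg ε 𝒢 (x + y) ≤ lg ε 𝒢' x + C := by
  obtain ⟨L, hL⟩ := tipoly2_coord 𝒢'
  have hc : Continuous fun y : Fin N → ℂ => ∑ g ∈ 𝒢, ∑ g' : 𝒢', ‖L (tr y g) g'‖ ^ 2 := by
    refine continuous_finsetSum _ fun g _ => continuous_finsetSum _ fun g' _ => ?_
    have h1 := tipoly2_cont ((LinearMap.proj g').comp L) g 1
    simp only [one_mul] at h1
    exact h1.norm.pow 2
  obtain ⟨M, hM⟩ := (isCompact_closedBall (0 : Fin N → ℂ) R).bddAbove_image hc.continuousOn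
  have hM1 : (1 : ℝ) ≤ max M 1 := le_max_right _ _
  refine ⟨1 / 2 * Real.log (max M 1), mul_nonneg (by norm_num) (Real.log_nonneg hM1),
    fun ε hε y hy x => tipoly2_log (tipoly2_pos hε _ _) (tipoly2_pos hε _ _) (by linarith) ?_⟩
  have h1 : ∑ g ∈ 𝒢, ∑ g' : 𝒢', ‖L (tr y g) g'‖ ^ 2 ≤ max M 1 :=
    (hM ⟨y, mem_closedBall_zero_iff.2 (hR y hy), rfl⟩).trans (le_max_left _ _)
  have h0 : 0 ≤ ∑ g ∈ 𝒢', ‖MvPolynomial.eval x g‖ ^ 2 := sum_nonneg fun _ _ => sq_nonneg _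
  have h2 : ∀ g ∈ 𝒢, ‖MvPolynomial.eval (x + y) g‖ ^ 2 ≤
      (∑ g' : 𝒢', ‖L (tr y g) g'‖ ^ 2) * ∑ g ∈ 𝒢', ‖MvPolynomial.eval x g‖ ^ 2 := by
    intro g hg
    have h3 : MvPolynomial.eval (x + y) g =
        ∑ g' : 𝒢', L (tr y g) g' * MvPolynomial.eval x (g' : MP N) := by
      rw [← eval_tr]
      conv_lhs => rw [hL _ (h y hy g hg)]
      simp only [map_sum, MvPolynomial.smul_eval]
    rw [h3, ← sum_coe_sort 𝒢']
    refine le_trans ?_ (sum_mul_sq_le_sq_mul_sq _ _ _)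
    refine pow_le_pow_left₀ (norm_nonneg _) ((norm_sum_le _ _).trans (le_of_eq ?_)) 2
    simp only [norm_mul]
  have h4 := sum_le_sum h2
  rw [← sum_mul] at h4
  have h5 := mul_le_mul_of_nonneg_right h1 h0
  have h6 := mul_le_mul_of_nonneg_right hM1 hε.le
  rw [mul_add]
  linarith

open Classical in
lemma lg_union {ε : ℝ} (hε : 0 < ε) (𝒢 : Finset (MP N)) (w x : Fin N → ℂ) :
    lg ε 𝒢 x ≤ lg ε (𝒢 ∪ 𝒢.image (tr w)) x ∧
      lg ε (𝒢 ∪ 𝒢.image (tr w)) x ≤ max (lg ε 𝒢 x) (lg ε 𝒢 (x + w)) + 1 := by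
  constructor
  · refine mul_le_mul_of_nonneg_left (Real.log_le_log (tipoly2_pos hε _ _) ?_) (by norm_num)
    exact add_le_add le_rfl
      (sum_le_sum_of_subset_of_nonneg subset_union_left fun _ _ _ => sq_nonneg _)
  · have h1 : ∑ g ∈ 𝒢.image (tr w), ‖MvPolynomial.eval x g‖ ^ 2 ≤
        ∑ g ∈ 𝒢, ‖MvPolynomial.eval (x + w) g‖ ^ 2 := by
      simp only [← eval_tr]
      exact sum_image_le_of_nonneg fun _ _ => sq_nonneg _
    have h2 := sum_union_inter (s₁ := 𝒢) (s₂ := 𝒢.image (tr w))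
      (f := fun g => ‖MvPolynomial.eval x g‖ ^ 2)
    have h3 : 0 ≤ ∑ g ∈ 𝒢 ∩ 𝒢.image (tr w), ‖MvPolynomial.eval x g‖ ^ 2 :=
      sum_nonneg fun _ _ => sq_nonneg _
    have h4 : Real.log 2 ≤ 2 := (Real.log_le_sub_one_of_pos two_pos).trans (by norm_num)
    rcases le_total (∑ g ∈ 𝒢, ‖MvPolynomial.eval x g‖ ^ 2)
      (∑ g ∈ 𝒢, ‖MvPolynomial.eval (x + w) g‖ ^ 2) with h | h
    · have h5 := tipoly2_log (tipoly2_pos hε (𝒢 ∪ 𝒢.image (tr w)) x) (tipoly2_pos hε 𝒢 (x + w))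
        two_pos (by linarith)
      have h6 := le_max_right (lg ε 𝒢 x) (lg ε 𝒢 (x + w))
      unfold lg at h6 ⊢
      linarith
    · have h5 := tipoly2_log (tipoly2_pos hε (𝒢 ∪ 𝒢.image (tr w)) x) (tipoly2_pos hε 𝒢 x)
        two_pos (by linarith)
      have h6 := le_max_left (lg ε 𝒢 x) (lg ε 𝒢 (x + w))
      unfold lg at h6 ⊢
      linarith

lemma tipoly2_drop_mono (y : Fin N → ℂ) (s : Fin N →₀ ℕ) (a : ℂ) :
    tr y (MvPolynomial.monomial s a) - MvPolynomial.monomial s a = 0 ∨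
      (tr y (MvPolynomial.monomial s a) - MvPolynomial.monomial s a).totalDegree <
        (MvPolynomial.monomial s a).totalDegree := by
  refine MvPolynomial.induction_on_monomial
    (motive := fun p : MP N => tr y p - p = 0 ∨ (tr y p - p).totalDegree < p.totalDegree)
    (fun a => Or.inl (by rw [tipoly2_C, sub_self])) (fun p i hp => ?_) s a
  rcases eq_or_ne p 0 with rfl | h0
  · exact Or.inl (by simp)
  refine Or.inr ?_
  have e : tr y (p * MvPolynomial.X i) - p * MvPolynomial.X i =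
      (tr y p - p) * MvPolynomial.X i + MvPolynomial.C (y i) * tr y p := by
    rw [map_mul, tipoly2_X]
    ring
  rw [e, MvPolynomial.totalDegree_mul_of_isDomain h0 (MvPolynomial.X_ne_zero i),
    MvPolynomial.totalDegree_X, Nat.lt_succ_iff]
  refine (MvPolynomial.totalDegree_add _ _).trans (max_le ?_ ?_)
  · rcases hp with hp | hp
    · rw [hp, zero_mul, MvPolynomial.totalDegree_zero]
      exact Nat.zero_le _
    · refine (MvPolynomial.totalDegree_mul _ _).trans ?_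
      rw [MvPolynomial.totalDegree_X]
      exact hp
  · refine (MvPolynomial.totalDegree_mul _ _).trans ?_
    rw [MvPolynomial.totalDegree_C, zero_add]
    exact tr_degree y p

lemma tipoly2_drop (y : Fin N → ℂ) (g : MP N) :
    tr y g - g = 0 ∨ (tr y g - g).totalDegree < g.totalDegree := by
  rcases Nat.eq_zero_or_pos g.totalDegree with h | h
  · left
    rw [MvPolynomial.totalDegree_eq_zero_iff_eq_C.1 h, tipoly2_C, sub_self]
  · right
    have e : tr y g - g = ∑ s ∈ g.support, (tr y (MvPolynomial.monomial s (g.coeff s)) -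
        MvPolynomial.monomial s (g.coeff s)) := by
      rw [sum_sub_distrib, ← map_sum, ← g.as_sum]
    rw [e]
    refine lt_of_le_of_lt (MvPolynomial.totalDegree_finsetSum_le (d := g.totalDegree - 1)
      fun s hs => ?_) (by omega)
    rcases tipoly2_drop_mono y s (g.coeff s) with h1 | h1
    · rw [h1, MvPolynomial.totalDegree_zero]
      exact Nat.zero_le _
    · have h2 := (MvPolynomial.totalDegree_monomial_le s (g.coeff s)).trans
        (MvPolynomial.le_totalDegree hs)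
      omega

lemma tipoly2_one {V : Submodule ℂ (MP N)} (hV : ∀ y, ∀ g ∈ V, tr y g ∈ V) (d : ℕ) :
    ∀ g ∈ V, g ≠ 0 → g.totalDegree = d → (1 : MP N) ∈ V := by
  induction d using Nat.strong_induction_on with
  | _ d ih =>
    intro g hg h0 hd
    by_cases h : ∀ y, tr y g - g = 0
    · have e : g = MvPolynomial.C (MvPolynomial.eval 0 g) := MvPolynomial.funext fun y => by
        rw [MvPolynomial.eval_C, ← zero_add y, ← eval_tr, sub_eq_zero.1 (h y)]
      have hc : MvPolynomial.eval 0 g ≠ 0 := fun hc => h0 (by rw [e, hc, map_zero])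
      have h1 := V.smul_mem (MvPolynomial.eval 0 g)⁻¹ (e ▸ hg :
        MvPolynomial.C (MvPolynomial.eval 0 g) ∈ V)
      rwa [MvPolynomial.smul_eq_C_mul, ← map_mul, inv_mul_cancel₀ hc, map_one] at h1
    · obtain ⟨y, hy⟩ := not_forall.1 h
      exact ih _ (hd ▸ (tipoly2_drop y g).resolve_left hy) _ (V.sub_mem (hV y g hg) hg) hy rfl

lemma tipoly2_grow {D : ℕ} {g : MP N} (hg : g.totalDegree ≤ D) (x : Fin N → ℂ) :
    ‖MvPolynomial.eval x g‖ ≤ (∑ s ∈ g.support, ‖g.coeff s‖) * (1 + ‖x‖) ^ D := by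
  have h1 : (1 : ℝ) ≤ 1 + ‖x‖ := le_add_of_nonneg_right (norm_nonneg _)
  rw [MvPolynomial.eval_eq, sum_mul]
  refine (norm_sum_le _ _).trans (sum_le_sum fun s hs => ?_)
  rw [norm_mul, norm_prod]
  refine mul_le_mul_of_nonneg_left ?_ (norm_nonneg _)
  refine (prod_le_prod (g := fun i => (1 + ‖x‖) ^ s i) (fun _ _ => norm_nonneg _)
    fun i _ => ?_).trans ?_
  · rw [norm_pow]
    exact pow_le_pow_left₀ (norm_nonneg _)
      ((norm_le_pi_norm x i).trans (le_add_of_nonneg_left zero_le_one)) _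
  · rw [prod_pow_eq_pow_sum]
    exact pow_le_pow_right₀ h1 ((MvPolynomial.le_totalDegree hs).trans hg)

lemma tipoly2_bd {D : ℕ} {𝒯 : Finset (MP N)} (h1 : (1 : MP N) ∈ sp 𝒯)
    (hD : ∀ g ∈ 𝒯, g.totalDegree ≤ D) : ∃ C : ℝ, ∀ ε : ℝ, 0 < ε → ε ≤ 1 → ∀ x,
      -C ≤ lg ε 𝒯 x ∧ lg ε 𝒯 x ≤ D * Real.log (1 + ‖x‖) + C := by
  obtain ⟨C, hC0, hC⟩ := lg_cmp {1} 𝒯 {0} 0 (by simp) fun y _ g hg => by
    rw [mem_singleton.1 hg, map_one]
    exact h1
  obtain ⟨M, hM⟩ : ∃ M : ℝ, M = 1 + ∑ g ∈ 𝒯, (∑ s ∈ g.support, ‖g.coeff s‖) ^ 2 := ⟨_, rfl⟩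
  have hM1 : 1 ≤ M := by
    rw [hM]
    exact le_add_of_nonneg_right (sum_nonneg fun _ _ => sq_nonneg _)
  have hM0 := Real.log_nonneg hM1
  refine ⟨C + 1 / 2 * Real.log M, fun ε hε hε1 x => ⟨?_, ?_⟩⟩
  · have h1 := hC ε hε 0 (Set.mem_singleton _) x
    have h2 : 0 ≤ lg ε {1} (x + 0) := by
      refine mul_nonneg (by norm_num) (Real.log_nonneg ?_)
      simp [hε.le]
    linarith
  · have h1 : (1 : ℝ) ≤ 1 + ‖x‖ := le_add_of_nonneg_right (norm_nonneg _)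
    have h2 : (1 : ℝ) ≤ ((1 + ‖x‖) ^ D) ^ 2 := one_le_pow₀ (one_le_pow₀ h1)
    have h3 : ∑ g ∈ 𝒯, ‖MvPolynomial.eval x g‖ ^ 2 ≤
        (∑ g ∈ 𝒯, (∑ s ∈ g.support, ‖g.coeff s‖) ^ 2) * ((1 + ‖x‖) ^ D) ^ 2 := by
      rw [sum_mul]
      refine sum_le_sum fun g hg => ?_
      rw [← mul_pow]
      exact pow_le_pow_left₀ (norm_nonneg _) (tipoly2_grow (hD g hg) x) 2
    have h4 := tipoly2_log (tipoly2_pos hε 𝒯 x) (b := ((1 + ‖x‖) ^ D) ^ 2) (M := M)
      (by linarith) (by linarith) (by rw [hM, add_mul]; linarith)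
    rw [Real.log_pow, Real.log_pow] at h4
    unfold lg
    push_cast at h4
    linarith

lemma tipoly2_closed (F : MP N) (y : Fin N → ℂ) :
    ∀ g ∈ Submodule.span ℂ (Set.range fun y => tr y F),
      tr y g ∈ Submodule.span ℂ (Set.range fun y => tr y F) := by
  intro g hg
  induction hg using Submodule.span_induction with
  | mem g hg =>
    obtain ⟨y', rfl⟩ := hg
    exact Submodule.subset_span ⟨y + y', (tr_tr y y' F).symm⟩
  | zero =>
    rw [map_zero]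
    exact zero_mem _
  | add a b _ _ ha hb =>
    rw [map_add]
    exact add_mem ha hb
  | smul c a _ ha =>
    rw [map_smul]
    exact Submodule.smul_mem _ _ ha

/-- The span of the translates of a non-zero polynomial. -/
theorem exists_top (D : ℕ) : ∃ r : ℕ, ∀ F : MP N, F ≠ 0 → F.totalDegree ≤ D →
    ∃ 𝒯 : Finset (MP N), Module.finrank ℂ (sp 𝒯) ≤ r ∧ (∀ y, ∀ g ∈ 𝒯, tr y g ∈ sp 𝒯) ∧
      (∀ g ∈ 𝒯, g ∈ Submodule.span ℂ (Set.range fun y => tr y F)) ∧ F ∈ sp 𝒯 ∧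
      ∃ C : ℝ, ∀ ε : ℝ, 0 < ε → ε ≤ 1 → ∀ x,
        -C ≤ lg ε 𝒯 x ∧ lg ε 𝒯 x ≤ D * Real.log (1 + ‖x‖) + C := by
  refine ⟨Module.finrank ℂ (MvPolynomial.restrictTotalDegree (Fin N) ℂ D), fun F hF hD => ?_⟩
  have hle : Submodule.span ℂ (Set.range fun y => tr y F) ≤
      MvPolynomial.restrictTotalDegree (Fin N) ℂ D := by
    refine Submodule.span_le.2 ?_
    rintro _ ⟨y, rfl⟩
    exact (MvPolynomial.mem_restrictTotalDegree _ _ _).2 ((tr_degree y F).trans hD)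
  have hV := tipoly2_closed F
  have hFV : F ∈ Submodule.span ℂ (Set.range fun y => tr y F) :=
    Submodule.subset_span ⟨0, tr_zero F⟩
  have hfin : Module.Finite ℂ (Submodule.span ℂ (Set.range fun y => tr y F)) :=
    Submodule.finiteDimensional_of_le hle
  obtain ⟨𝒯, h𝒯⟩ := Module.Finite.iff_fg.1 hfin
  rw [← h𝒯] at hle hV hFV ⊢
  have hT : ∀ g ∈ 𝒯, g ∈ sp 𝒯 := fun g hg => Submodule.subset_span hg
  exact ⟨𝒯, Submodule.finrank_mono hle, fun y g hg => hV y g (hT g hg), hT, hFV,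
    tipoly2_bd (tipoly2_one hV _ F hFV hF rfl) fun g hg =>
      (MvPolynomial.mem_restrictTotalDegree _ _ _).1 (hle (hT g hg))⟩

end Pool.Agent.Lib.MP_1f047c_nt.TI
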