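import Pool.Agent.Lib.MP_1f047c_nt.TIRoot
import Pool.Agent.Lib.MP_1f047c_nt.TIFun
import Pool.Agent.Lib.MP_1f047c_nt.TIBomb

open Finset MeasureTheory

namespace Pool.Agent.Lib.MP_1f047c_nt.TI

section Aux

variable {ι : Type} [Fintype ι]

/-- The pole at `q` together with a strictly plurisubharmonic term. -/
noncomputable def tipsiV (ε : ℝ) (q x : ι → ℂ) : ℝ :=
  ((Fintype.card ι : ℝ) + 1) * (1 / 2 * Real.log (ε + ∑ j, ‖x j - q j‖ ^ 2)) +
    ∑ j, Real.log (1 + ‖x j - q j‖ ^ 2)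

lemma tipsi_cont₁ {ε : ℝ} (hε : 0 < ε) (q : ι → ℂ) :
    Continuous fun x : ι → ℂ => 1 / 2 * Real.log (ε + ∑ j, ‖x j - q j‖ ^ 2) := by
  refine continuous_const.mul (Continuous.log (by fun_prop) fun x => ?_)
  positivity

omit [Fintype ι] in
lemma tipsi_cont₂ (q : ι → ℂ) (j : ι) :
    Continuous fun x : ι → ℂ => Real.log (1 + ‖x j - q j‖ ^ 2) := by
  refine Continuous.log (by fun_prop) fun x => ?_
  positivity

lemma tipsi_cont {ε : ℝ} (hε : 0 < ε) (q : ι → ℂ) : Continuous (tipsiV ε q) :=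
  (continuous_const.mul (tipsi_cont₁ hε q)).add
    (continuous_finsetSum _ fun j _ => tipsi_cont₂ q j)

lemma tipsi_sub {ε : ℝ} (hε : 0 < ε) (q x : ι → ℂ) :
    SubM (tipsiV ε q) x fun v => ∑ j, ‖v j‖ ^ 2 / (1 + ‖x j - q j‖ ^ 2) ^ 2 := by
  have h1 := (subM_log (univ : Finset ι) (fun j (y : ι → ℂ) => y j - q j)
    (fun j _ => by fun_prop) hε x).smul (c := (Fintype.card ι : ℝ) + 1) (by positivity)
  have h2 := subM_sum (univ : Finset ι) (u := fun j (y : ι → ℂ) => Real.log (1 + ‖y j - q j‖ ^ 2))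
    (x := x) (fun j _ => tipsi_cont₂ q j)
    (fun j _ => subM_log_one (fun y : ι → ℂ => y j - q j) (fun v => v j) x
      (fun v t => by simp only [Pi.add_apply, Pi.smul_apply, smul_eq_mul]; ring))
  have h3 := SubM.add (continuous_const.mul (tipsi_cont₁ hε q))
    (continuous_finsetSum _ fun j _ => tipsi_cont₂ q j) h1 h2
  exact h3.mono fun v => by simp

lemma tipsi_sum_le (q x : ι → ℂ) {t : ℝ} (ht : ‖x - q‖ ≤ t) :
    ∑ j, ‖x j - q j‖ ^ 2 ≤ Fintype.card ι * t ^ 2 := by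
  have : ∀ j, ‖x j - q j‖ ^ 2 ≤ t ^ 2 := fun j =>
    pow_le_pow_left₀ (norm_nonneg _) ((norm_le_pi_norm (x - q) j).trans ht) 2
  simpa using sum_le_sum (s := univ) fun j _ => this j

lemma tipsi_half_log {a b t : ℝ} (ha : 0 < a) (hb : 0 < b) (ht : 0 < t) (h : a ≤ b * t ^ 2) :
    1 / 2 * Real.log a ≤ Real.log t + 1 / 2 * Real.log b := by
  have := Real.log_le_log ha h
  rw [Real.log_mul hb.ne' (by positivity), Real.log_pow] at this
  push_cast at this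
  linarith

lemma tipsi_le {ε : ℝ} (hε : 0 < ε) (hε1 : ε ≤ 1) (q x : ι → ℂ) {t : ℝ} (ht : 1 + ‖x - q‖ ≤ t) :
    tipsiV ε q x ≤ (3 * (Fintype.card ι : ℝ) + 1) * Real.log t +
      ((Fintype.card ι : ℝ) + 1) * (1 / 2 * Real.log (1 + Fintype.card ι)) := by
  have h0 := norm_nonneg (x - q)
  have ht1 : 1 ≤ t := by linarith
  have hM : (0 : ℝ) ≤ Fintype.card ι := Nat.cast_nonneg _
  have h1 : 1 / 2 * Real.log (ε + ∑ j, ‖x j - q j‖ ^ 2) ≤
      Real.log t + 1 / 2 * Real.log (1 + Fintype.card ι) := by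
    refine tipsi_half_log (by positivity) (by positivity) (by positivity) ?_
    have := tipsi_sum_le q x (t := t) (by linarith)
    nlinarith
  have h2 : ∀ j, Real.log (1 + ‖x j - q j‖ ^ 2) ≤ 2 * Real.log t := fun j => by
    have h3 : ‖x j - q j‖ ≤ ‖x - q‖ := norm_le_pi_norm (x - q) j
    have h4 := norm_nonneg (x j - q j)
    have h5 : 1 + ‖x j - q j‖ ^ 2 ≤ t ^ 2 := by nlinarith
    have := Real.log_le_log (by positivity) h5
    rw [Real.log_pow] at this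
    exact_mod_cast this
  have h3 : ∑ j, Real.log (1 + ‖x j - q j‖ ^ 2) ≤ Fintype.card ι * (2 * Real.log t) := by
    simpa using sum_le_sum (s := univ) fun j _ => h2 j
  have h4 := mul_le_mul_of_nonneg_left h1 (show (0 : ℝ) ≤ (Fintype.card ι : ℝ) + 1 by positivity)
  unfold tipsiV
  linarith

lemma tipsi_ge {ε : ℝ} (hε : 0 < ε) (q x : ι → ℂ) {t : ℝ} (ht : 0 < t) (h : t ≤ ‖x - q‖) :
    ((Fintype.card ι : ℝ) + 1) * Real.log t ≤ tipsiV ε q x := by
  have h1 : ‖x - q‖ ≤ √(∑ j, ‖x j - q j‖ ^ 2) := by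
    refine (pi_norm_le_iff_of_nonneg (Real.sqrt_nonneg _)).2 fun j => ?_
    exact Real.le_sqrt_of_sq_le
      (single_le_sum (f := fun j => ‖x j - q j‖ ^ 2) (fun j _ => by positivity) (mem_univ j))
  have h2 : t ^ 2 ≤ ∑ j, ‖x j - q j‖ ^ 2 :=
    (Real.le_sqrt ht.le (by positivity)).1 (h.trans h1)
  have h3 := Real.log_le_log (by positivity) (h2.trans (le_add_of_nonneg_left hε.le))
  rw [Real.log_pow] at h3
  push_cast at h3
  have h4 : 0 ≤ ∑ j, Real.log (1 + ‖x j - q j‖ ^ 2) :=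
    sum_nonneg fun j _ => Real.log_nonneg (le_add_of_nonneg_right (by positivity))
  have h5 := mul_le_mul_of_nonneg_left
    (show Real.log t ≤ 1 / 2 * Real.log (ε + ∑ j, ‖x j - q j‖ ^ 2) by linarith)
    (show (0 : ℝ) ≤ (Fintype.card ι : ℝ) + 1 by positivity)
  unfold tipsiV
  linarith

lemma tipsi_near {ε s : ℝ} (hε : 0 < ε) (hs : 0 < s) (hs1 : s ≤ 1 / 2) (hεs : ε ≤ s ^ 2)
    (q x : ι → ℂ) (h : ‖x - q‖ ≤ 2 * s) :
    tipsiV ε q x ≤ ((Fintype.card ι : ℝ) + 1) * Real.log s +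
      (((Fintype.card ι : ℝ) + 1) * (1 / 2 * Real.log (1 + 4 * Fintype.card ι)) +
        Fintype.card ι * Real.log 2) := by
  have hM : (0 : ℝ) ≤ Fintype.card ι := Nat.cast_nonneg _
  have h1 : 1 / 2 * Real.log (ε + ∑ j, ‖x j - q j‖ ^ 2) ≤
      Real.log s + 1 / 2 * Real.log (1 + 4 * Fintype.card ι) := by
    refine tipsi_half_log (by positivity) (by positivity) hs ?_
    have := tipsi_sum_le q x h
    nlinarith
  have h2 : ∀ j, Real.log (1 + ‖x j - q j‖ ^ 2) ≤ Real.log 2 := fun j => by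
    have h3 : ‖x j - q j‖ ≤ ‖x - q‖ := norm_le_pi_norm (x - q) j
    have h4 := norm_nonneg (x j - q j)
    exact Real.log_le_log (by positivity) (by nlinarith)
  have h3 : ∑ j, Real.log (1 + ‖x j - q j‖ ^ 2) ≤ Fintype.card ι * Real.log 2 := by
    simpa using sum_le_sum (s := univ) fun j _ => h2 j
  have h4 := mul_le_mul_of_nonneg_left h1 (show (0 : ℝ) ≤ (Fintype.card ι : ℝ) + 1 by positivity)
  unfold tipsiV
  linarith

lemma tipsi_small (a : ι → ℝ) (ha : ∀ i, 0 < a i) {η : ℝ} (hη : 0 < η) :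
    ∃ s₀ : ℝ, 0 < s₀ ∧ ∀ s : ℝ, 0 < s → s ≤ s₀ → ∀ i, s ^ a i ≤ η := by
  have ht : ∀ i, 0 < η ^ (a i)⁻¹ := fun i => Real.rpow_pos_of_pos hη _
  have hS : 0 ≤ ∑ i, (η ^ (a i)⁻¹)⁻¹ := sum_nonneg fun i _ => (inv_pos.2 (ht i)).le
  refine ⟨(1 + ∑ i, (η ^ (a i)⁻¹)⁻¹)⁻¹, by positivity, fun s hs h i => ?_⟩
  have h1 : (η ^ (a i)⁻¹)⁻¹ ≤ 1 + ∑ i, (η ^ (a i)⁻¹)⁻¹ :=
    (single_le_sum (f := fun i => (η ^ (a i)⁻¹)⁻¹) (fun i _ => (inv_pos.2 (ht i)).le)
      (mem_univ i)).trans (le_add_of_nonneg_left zero_le_one)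
  have h2 : s ≤ η ^ (a i)⁻¹ := h.trans (inv_le_of_inv_le₀ (ht i) h1)
  calc s ^ a i ≤ (η ^ (a i)⁻¹) ^ a i := Real.rpow_le_rpow hs.le h2 (ha i).le
    _ = η := Real.rpow_inv_rpow hη.le (ha i).ne'

lemma tipsi_pdisc {x₀ x : ι → ℂ} {ρ : ι → ℝ} {t : ℝ} (ht : 0 ≤ t) (hρ : ∀ j, ρ j ≤ t)
    (h : x ∈ pdisc x₀ ρ) : ‖x - x₀‖ ≤ t :=
  (pi_norm_le_iff_of_nonneg ht).2 fun j => (h j).trans (hρ j)

end Aux

variable {N : ℕ}

lemma tipsi_lip (F : MP N) (c : Fin N → ℂ) : ∃ L : ℝ, 0 ≤ L ∧ ∀ y, ‖y - c‖ ≤ 1 →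
    ‖MvPolynomial.eval y F - MvPolynomial.eval c F‖ ≤ L * ‖y - c‖ := by
  induction F using MvPolynomial.induction_on with
  | C a => exact ⟨0, le_rfl, fun y _ => by simp⟩
  | add p q hp hq =>
    obtain ⟨L, hL, hp⟩ := hp
    obtain ⟨L', hL', hq⟩ := hq
    refine ⟨L + L', by positivity, fun y hy => ?_⟩
    have h : MvPolynomial.eval y (p + q) - MvPolynomial.eval c (p + q) =
        (MvPolynomial.eval y p - MvPolynomial.eval c p) +
          (MvPolynomial.eval y q - MvPolynomial.eval c q) := by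
      simp only [map_add]; ring
    rw [h, add_mul]
    exact (norm_add_le _ _).trans (add_le_add (hp y hy) (hq y hy))
  | mul_X p i hp =>
    obtain ⟨L, hL, hp⟩ := hp
    refine ⟨L * (‖c‖ + 1) + ‖MvPolynomial.eval c p‖, by positivity, fun y hy => ?_⟩
    have h : MvPolynomial.eval y (p * MvPolynomial.X i) - MvPolynomial.eval c (p * MvPolynomial.X i) =
        (MvPolynomial.eval y p - MvPolynomial.eval c p) * y i +
          MvPolynomial.eval c p * (y - c) i := by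
      simp only [map_mul, MvPolynomial.eval_X, Pi.sub_apply]; ring
    have h1 : ‖y i‖ ≤ ‖c‖ + 1 := by
      have := norm_le_pi_norm y i
      have := norm_le_norm_add_norm_sub' y c
      linarith
    have h2 := norm_le_pi_norm (y - c) i
    have h3 := mul_le_mul (hp y hy) h1 (norm_nonneg _) (by positivity)
    have h4 := mul_le_mul_of_nonneg_left h2 (norm_nonneg (MvPolynomial.eval c p))
    rw [h]
    refine (norm_add_le _ _).trans ?_
    rw [norm_mul, norm_mul]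
    linarith

lemma tipsi_cZ_le (x y : Sp N) : ‖cZ x - cZ y‖ ≤ ‖x - y‖ :=
  (pi_norm_le_iff_of_nonneg (norm_nonneg _)).2 fun i => norm_le_pi_norm (x - y) (Sum.inr i)

lemma tipsi_cX_le (x y : Sp N) : ‖cX x - cX y‖ ≤ 2 * ‖x - y‖ := by
  refine (pi_norm_le_iff_of_nonneg (by positivity)).2 fun i => ?_
  have h : (cX x - cX y) i = (x - y) (Sum.inl i) + (x - y) (Sum.inr i) := by
    simp only [cX, Pi.sub_apply]; ring
  rw [h]
  have h1 := norm_le_pi_norm (x - y) (Sum.inl i)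
  have h2 := norm_le_pi_norm (x - y) (Sum.inr i)
  have h3 := norm_add_le ((x - y) (Sum.inl i)) ((x - y) (Sum.inr i))
  linarith

/-- The upper bound of exponential type is stable under bounded perturbations. -/
lemma tipsi_shift (E : ℕ) {n : Fin N → ℝ} (hn : ∀ i, 0 ≤ n i) (Cn : ℝ) {x x₀ : Sp N}
    (h : ‖x - x₀‖ ≤ 2) : E * Real.log (1 + ‖cX x‖) + Ub (1 / 4) n Cn x ≤
      E * Real.log (1 + ‖cX x₀‖) + ∑ i, n i / 4 * |(cZ x₀ i).re| +
        (E * Real.log 5 + ∑ i, n i / 2 + Cn) := by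
  have h1 : Real.log (1 + ‖cX x‖) ≤ Real.log (1 + ‖cX x₀‖) + Real.log 5 := by
    rw [← Real.log_mul (by positivity) (by norm_num)]
    refine Real.log_le_log (by positivity) ?_
    have := tipsi_cX_le x x₀
    have := norm_le_norm_add_norm_sub' (cX x) (cX x₀)
    have := norm_nonneg (cX x₀)
    linarith
  have h2 : ∀ i, n i * |(cZ x i).re| ≤ 4 * (n i / 4 * |(cZ x₀ i).re| + n i / 2) := fun i => by
    have h3 : ‖cZ x i - cZ x₀ i‖ ≤ 2 :=
      (norm_le_pi_norm (cZ x - cZ x₀) i).trans ((tipsi_cZ_le x x₀).trans h)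
    have h4 := Complex.abs_re_le_norm (cZ x i - cZ x₀ i)
    rw [Complex.sub_re] at h4
    have h5 := abs_sub_abs_le_abs_sub (cZ x i).re (cZ x₀ i).re
    have h6 := mul_le_mul_of_nonneg_left
      (show |(cZ x i).re| ≤ |(cZ x₀ i).re| + 2 by linarith) (hn i)
    linarith
  have h3 := sum_le_sum (s := univ) fun i _ => h2 i
  rw [← mul_sum, sum_add_distrib] at h3
  have h4 := mul_le_mul_of_nonneg_left h1 (Nat.cast_nonneg (α := ℝ) E)
  unfold Ub
  linarith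

lemma tipsi_growth (E : ℕ) {n : Fin N → ℝ} (hn : ∀ i, 0 ≤ n i) (Cn : ℝ) (q : Sp N) :
    ∃ K : ℝ, ∀ ε : ℝ, 0 < ε → ε ≤ 1 → ∀ x x₀ : Sp N, ‖x - x₀‖ ≤ 2 →
      E * Real.log (1 + ‖cX x‖) + Ub (1 / 4) n Cn x + tipsiV ε q x ≤
        E * Real.log (1 + ‖cX x₀‖) + ∑ i, n i / 4 * |(cZ x₀ i).re| +
          (6 * N + 1 : ℕ) * Real.log (1 + ‖x₀‖) + K := by
  refine ⟨(E * Real.log 5 + ∑ i, n i / 2 + Cn) + (6 * N + 1 : ℕ) * Real.log (3 + ‖q‖) +
    ((Fintype.card (Fin N ⊕ Fin N) : ℝ) + 1) *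
      (1 / 2 * Real.log (1 + Fintype.card (Fin N ⊕ Fin N))), fun ε hε hε1 x x₀ h => ?_⟩
  have h1 := tipsi_shift E hn Cn h
  have h2 : 1 + ‖x - q‖ ≤ (1 + ‖x₀‖) * (3 + ‖q‖) := by
    have h3 := norm_sub_le x q
    have h4 := norm_le_norm_add_norm_sub' x x₀
    have h5 := norm_nonneg x₀
    have h6 := norm_nonneg q
    nlinarith
  have h3 := tipsi_le hε hε1 q x h2
  rw [Real.log_mul (by positivity) (by positivity)] at h3
  have h4 : (3 * (Fintype.card (Fin N ⊕ Fin N) : ℝ) + 1) = (6 * N + 1 : ℕ) := by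
    simp only [Fintype.card_sum, Fintype.card_fin]; push_cast; ring
  rw [h4] at h3
  linarith

lemma tipsi_wv_neg (m : Fin N → ℤ) : wv (-m) = -wv m := by
  funext i; simp [wv, PL.wm]

lemma tipsi_wv_re (m : Fin N → ℤ) (i : Fin N) : (wv m i).re = 0 := by
  simp [wv, PL.wm]

/-- The bounds near a zero of `F` and a period. -/
lemma tipsi_pole (F : MP N) (J : ℕ) (hJ : 1 ≤ J) (ν : Fin N → ℝ) (hν : ∀ i, 0 < ν i)
    (c : Fin N → ℂ) : ∃ K : ℝ, MvPolynomial.eval c F = 0 → ∀ s : ℝ, 0 < s → s ≤ 1 / 2 →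
      (∀ i, s ≤ s ^ ((J : ℝ) / ν i)) → (∀ i, s ^ ((J : ℝ) / ν i) ≤ 1 / 3) →
      ∀ (ζ : Fin N → ℂ) (m : Fin N → ℤ), (∀ i, ‖ζ i‖ ≤ s ^ ((J : ℝ) / ν i)) →
      ∀ x ∈ pdisc (Sum.elim (c + wv m) (ζ - wv m) : Sp N)
        (fun j => Sum.elim (fun _ => s) (fun i => s ^ ((J : ℝ) / ν i)) j + s),
      ‖cZ x - wv (-m)‖ ≤ 1 ∧ Lb ν (s ^ (2 * J)) (-m) x (J * Real.log s + K) ∧
        1 / 2 * Real.log (s ^ (2 * J) +
          ‖MvPolynomial.eval (cX x - (cZ x - wv (-m))) (F ^ J)‖ ^ 2) ≤ J * Real.log s + K := by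
  obtain ⟨L, hL, hF⟩ := tipsi_lip F c
  refine ⟨1 / 2 * Real.log (1 + (2 * L) ^ (2 * J)) + ∑ i, ν i * (1 / 2 * Real.log 10),
    fun hc s hs hs1 hsr hr ζ m hζ x hx => ?_⟩
  have hl1 : 0 ≤ 1 / 2 * Real.log (1 + (2 * L) ^ (2 * J)) :=
    mul_nonneg (by norm_num) (Real.log_nonneg (le_add_of_nonneg_right (by positivity)))
  have hl2 : ∀ i, 0 ≤ ν i * (1 / 2 * Real.log 10) := fun i =>
    mul_nonneg (hν i).le (mul_nonneg (by norm_num) (Real.log_nonneg (by norm_num)))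
  have h1 : ∀ i, ‖cZ x i - wv (-m) i‖ ≤ 3 * s ^ ((J : ℝ) / ν i) := fun i => by
    have h2 : ‖x (Sum.inr i) - (ζ i - wv m i)‖ ≤ s ^ ((J : ℝ) / ν i) + s := hx (Sum.inr i)
    have h3 : cZ x i - wv (-m) i = (x (Sum.inr i) - (ζ i - wv m i)) + ζ i := by
      simp only [tipsi_wv_neg, cZ, Pi.neg_apply]; ring
    rw [h3]
    have := norm_add_le (x (Sum.inr i) - (ζ i - wv m i)) (ζ i)
    linarith [hζ i, hsr i]
  refine ⟨(pi_norm_le_iff_of_nonneg zero_le_one).2 fun i => ?_, fun i => ?_, ?_⟩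
  · have := h1 i
    simp only [Pi.sub_apply]
    linarith [hr i]
  · have hri : 0 < s ^ ((J : ℝ) / ν i) := Real.rpow_pos_of_pos hs _
    have h2 : s ^ (2 * J) ≤ (s ^ ((J : ℝ) / ν i)) ^ 2 :=
      (pow_le_pow_of_le_one hs.le (by linarith) (by omega)).trans
        (pow_le_pow_left₀ hs.le (hsr i) 2)
    have h3 := pow_le_pow_left₀ (norm_nonneg _) (h1 i) 2
    have h4 : 1 / 2 * Real.log (s ^ (2 * J) + ‖cZ x i - PL.wm ((-m) i)‖ ^ 2) ≤
        Real.log (s ^ ((J : ℝ) / ν i)) + 1 / 2 * Real.log 10 :=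
      tipsi_half_log (by positivity) (by norm_num) hri (by
        change s ^ (2 * J) + ‖cZ x i - wv (-m) i‖ ^ 2 ≤ _
        nlinarith)
    rw [Real.log_rpow hs] at h4
    have h5 := mul_le_mul_of_nonneg_left h4 (hν i).le
    have h6 : ν i * ((J : ℝ) / ν i * Real.log s + 1 / 2 * Real.log 10) =
        J * Real.log s + ν i * (1 / 2 * Real.log 10) := by
      have := (hν i).ne'
      field_simp
    have h7 := single_le_sum (f := fun i => ν i * (1 / 2 * Real.log 10)) (fun i _ => hl2 i)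
      (mem_univ i)
    linarith
  · have h2 : ‖(cX x - (cZ x - wv (-m))) - c‖ ≤ 2 * s := by
      refine (pi_norm_le_iff_of_nonneg (by positivity)).2 fun i => ?_
      have h3 : ‖x (Sum.inl i) - (c i + wv m i)‖ ≤ s + s := hx (Sum.inl i)
      have h4 : ((cX x - (cZ x - wv (-m))) - c) i = x (Sum.inl i) - (c i + wv m i) := by
        simp only [tipsi_wv_neg, cZ, cX, Pi.neg_apply, Pi.sub_apply]; ring
      rw [h4]
      linarith
    have h3 := hF _ (h2.trans (by linarith))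
    rw [hc, sub_zero] at h3
    have h4 : ‖MvPolynomial.eval (cX x - (cZ x - wv (-m))) F‖ ≤ 2 * L * s := by
      have := mul_le_mul_of_nonneg_left h2 hL
      linarith
    have h5 : ‖MvPolynomial.eval (cX x - (cZ x - wv (-m))) (F ^ J)‖ ^ 2 ≤
        (2 * L) ^ (2 * J) * (s ^ J) ^ 2 := by
      rw [map_pow, norm_pow, ← pow_mul, ← pow_mul, mul_comm J 2, ← mul_pow]
      exact pow_le_pow_left₀ (norm_nonneg _) h4 _
    have h6 : 1 / 2 * Real.log (s ^ (2 * J) +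
        ‖MvPolynomial.eval (cX x - (cZ x - wv (-m))) (F ^ J)‖ ^ 2) ≤
        Real.log (s ^ J) + 1 / 2 * Real.log (1 + (2 * L) ^ (2 * J)) :=
      tipsi_half_log (by positivity) (by positivity) (by positivity) (by
        rw [mul_comm 2 J, pow_mul s J 2, mul_comm J 2]
        linarith)
    rw [Real.log_pow] at h6
    have h7 : 0 ≤ ∑ i, ν i * (1 / 2 * Real.log 10) := sum_nonneg fun i _ => hl2 i
    linarith

/-- The full weight, with a pole at the point `(-z, z)`. -/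
theorem psi {N : ℕ} (hN : 0 < N) (D : ℕ) {C : ℕ} (hC : 1 ≤ C) : ∃ (E : ℕ) (Θ : ℝ) (B : ℕ),
    ∀ F : MP N, F ≠ 0 → F.totalDegree ≤ D → ∀ z : Fin N → ℂ, Ind B z →
    ∃ n₀ : ℝ, ∀ n : Fin N → ℝ, (∀ i, n₀ ≤ n i) →
      (∀ i k, n i = n k ∨ Θ * n i ≤ n k ∨ Θ * n k ≤ n i) →
      ∃ (C₀ s₀ : ℝ) (Cc : (Fin N → ℂ) → ℝ), 0 < s₀ ∧ ∀ s : ℝ, 0 < s → s ≤ s₀ →
      ∃ Ψ : Sp N → ℂ, Differentiable ℂ Ψ ∧
        (∃ C₁ : ℝ, ∀ x, ‖Ψ x‖ ≤ C₁ * (1 + ‖cX x‖) ^ E *
          Real.exp (∑ i, n i / 4 * |(cZ x i).re|) * (1 + ‖x‖) ^ (6 * N + 1)) ∧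
        ‖Ψ (Sum.elim (-z) z) - 1‖ ≤ C₀ * s ∧
        ∀ c : Fin N → ℂ, MvPolynomial.eval c F = 0 → ∀ (ζ : Fin N → ℂ) (m : Fin N → ℤ),
          (∀ i, ‖ζ i‖ ≤ s ^ ((2 * N + 1 : ℝ) / (2 * N * C * n i))) →
          ‖Ψ (Sum.elim (c + wv m) (ζ - wv m))‖ * ∏ i, s ^ ((2 * N + 1 : ℝ) / (2 * N * C * n i)) ≤
            Cc c * s ^ (N + 1) * (1 + ‖wv m‖) ^ (6 * N + 1) := by
  have hN' : (1 : ℝ) ≤ N := by exact_mod_cast hN
  have hC' : (1 : ℝ) ≤ C := by exact_mod_cast hC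
  have hNC : (N : ℝ) ≤ N * C := le_mul_of_one_le_right (by positivity) hC'
  obtain ⟨E, Θ, B, hroot⟩ := root hN ((2 * N + 1) * D) (C := 2 * N * C) (by linarith)
  refine ⟨E, Θ, max B 1, fun F hF hD z hz => ?_⟩
  have hz' : Ind B z := fun l hl hB => hz l hl fun i =>
    (hB i).trans (by exact_mod_cast le_max_left _ _)
  obtain ⟨n₀, rz, hrz, hroot⟩ := hroot (F ^ (2 * N + 1)) (pow_ne_zero _ hF)
    ((MvPolynomial.totalDegree_pow _ _).trans (Nat.mul_le_mul_left _ hD)) z hz'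
  obtain ⟨i₀⟩ : Nonempty (Fin N) := ⟨⟨0, hN⟩⟩
  have hzi : ∀ k, z i₀ ≠ PL.wm k := fun k => by
    have := hz (Pi.single i₀ 1) (by simp) (fun i => by
      rw [Pi.single_apply]
      split_ifs <;> simp) k
    simpa [Pi.single_apply] using this
  obtain ⟨d, hd, hd'⟩ := wm_far hzi
  refine ⟨max n₀ 2, fun n hn hadm => ?_⟩
  have hn2 : ∀ i, 2 ≤ n i := fun i => (le_max_right _ _).trans (hn i)
  have hn0 : ∀ i, 0 ≤ n i := fun i => by linarith [hn2 i]
  obtain ⟨Cn, hroot⟩ := hroot n (fun i => (le_max_left _ _).trans (hn i)) hadm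
  obtain ⟨r, hr, hr1, hr2, hr3⟩ : ∃ r : ℝ, 0 < r ∧ r ≤ 1 / 2 ∧ r ≤ rz / 2 ∧ r ≤ d / 2 :=
    ⟨min (1 / 2) (min (rz / 2) (d / 2)), by positivity, min_le_left _ _,
      (min_le_right _ _).trans (min_le_left _ _), (min_le_right _ _).trans (min_le_right _ _)⟩
  obtain ⟨C₀, hC₀, hbomb⟩ := bombieri (Fin N ⊕ Fin N) r (1 / 4) hr (by norm_num)
  have hν : ∀ i, 2 * (N : ℝ) + 1 ≤ 2 * N * C * n i := fun i => by
    have := mul_le_mul (show 2 * (N : ℝ) ≤ 2 * N * C by linarith) (hn2 i) (by norm_num)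
      (by positivity)
    linarith
  have hν0 : ∀ i, 0 < 2 * (N : ℝ) * C * n i := fun i => lt_of_lt_of_le (by positivity) (hν i)
  obtain ⟨s₁, hs₁, hsm⟩ := tipsi_small (fun i => (2 * N + 1 : ℝ) / (2 * N * C * n i))
    (fun i => div_pos (by positivity) (hν0 i)) (η := min (1 / 3) (d / 4)) (by positivity)
  obtain ⟨q, hq⟩ : ∃ q : Sp N, q = Sum.elim (-z) z := ⟨_, rfl⟩
  have hqz : cZ q = z := by rw [hq]; rfl
  obtain ⟨K₁, hK₁⟩ := tipsi_growth E hn0 Cn q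
  choose K₃ hK₃ using tipsi_pole F (2 * N + 1) (by omega) (fun i => 2 * (N : ℝ) * C * n i) hν0
  have hJ : ((2 * N + 1 : ℕ) : ℝ) = 2 * N + 1 := by push_cast; ring
  have hcard : (Fintype.card (Fin N ⊕ Fin N) : ℝ) + 1 = (2 * N + 1 : ℕ) := by
    simp only [Fintype.card_sum, Fintype.card_fin]; push_cast; ring
  obtain ⟨B₀, hB₀⟩ : ∃ B₀ : ℝ, B₀ = Cn - ((Fintype.card (Fin N ⊕ Fin N) : ℝ) + 1) *
    Real.log (r / 4) := ⟨_, rfl⟩
  obtain ⟨K₂, hK₂⟩ : ∃ K₂ : ℝ, K₂ = E * Real.log (1 + ‖cX q‖) + ∑ i, n i / 4 * |(cZ q i).re| +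
    (E * Real.log 5 + ∑ i, n i / 2 + Cn) + (((Fintype.card (Fin N ⊕ Fin N) : ℝ) + 1) *
      (1 / 2 * Real.log (1 + 4 * Fintype.card (Fin N ⊕ Fin N))) +
        Fintype.card (Fin N ⊕ Fin N) * Real.log 2) := ⟨_, rfl⟩
  obtain ⟨K₄, hK₄⟩ : ∃ K₄ : (Fin N → ℂ) → ℝ, ∀ c, K₄ c = E * Real.log (2 + ‖c‖) + ∑ i, n i / 4 +
    (6 * N + 1 : ℕ) * Real.log (2 + ‖c‖) + K₁ + K₃ c := ⟨_, fun _ => rfl⟩
  refine ⟨C₀ * Real.exp (B₀ + K₂), min (r / 4) s₁, fun c => C₀ * Real.exp (B₀ + K₄ c),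
    by positivity, fun s hs hs' => ?_⟩
  have hsr : s ≤ r / 4 := hs'.trans (min_le_left _ _)
  have hsm' := hsm s hs (hs'.trans (min_le_right _ _))
  have hε : 0 < s ^ (2 * (2 * N + 1)) := by positivity
  have hεs : s ^ (2 * (2 * N + 1)) ≤ s ^ 2 := pow_le_pow_of_le_one hs.le (by linarith) (by omega)
  have hε1 : s ^ (2 * (2 * N + 1)) ≤ 1 := pow_le_one₀ hs.le (by linarith)
  obtain ⟨U, hUc, hUs, hU1, hU2, hU3⟩ := hroot _ hε hε1
  obtain ⟨Ψ, hΨ, hΨb⟩ := hbomb q (fun x => U x + tipsiV (s ^ (2 * (2 * N + 1))) q x) B₀ s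
    (hUc.add (tipsi_cont hε q)) hs hsr
    (fun x => (SubM.add hUc (tipsi_cont hε q) (hUs x) (tipsi_sub hε q x)).mono fun v => by
      positivity)
    (fun x hx => (SubM.add hUc (tipsi_cont hε q) (hUs x) (tipsi_sub hε q x)).mono fun v => by
      rw [zero_add, mul_sum]
      refine sum_le_sum fun j _ => ?_
      have h1 : ‖x j - q j‖ ≤ 1 := (norm_le_pi_norm (x - q) j).trans (by linarith)
      have h2 : ‖x j - q j‖ ^ 2 ≤ 1 := pow_le_one₀ (norm_nonneg _) h1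
      have h3 : (1 + ‖x j - q j‖ ^ 2) ^ 2 ≤ 2 ^ 2 :=
        pow_le_pow_left₀ (by positivity) (by linarith) 2
      rw [le_div_iff₀ (by positivity)]
      nlinarith [sq_nonneg ‖v j‖])
    (fun x hx hx' => by
      have h1 := hU2 x (by rw [← hqz]; exact (tipsi_cZ_le x q).trans (by linarith))
      have h2 := tipsi_ge hε q x (by positivity) hx
      linarith)
  refine ⟨Ψ, hΨ, ⟨C₀ * (Real.exp (B₀ + K₁) + 1), fun x₀ => ?_⟩, ?_, fun c hc ζ m hζ => ?_⟩
  · have h1 := (hΨb x₀ (fun _ => 1) _ (fun _ => one_pos) fun x hx =>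
      (add_le_add (hU1 x) le_rfl).trans
        (hK₁ _ hε hε1 x x₀ (tipsi_pdisc (by norm_num) (fun _ => by linarith) hx))).1
    rw [prod_const_one, mul_one] at h1
    obtain ⟨P, hP⟩ : ∃ P : ℝ, P = (1 + ‖cX x₀‖) ^ E * Real.exp (∑ i, n i / 4 * |(cZ x₀ i).re|) *
      (1 + ‖x₀‖) ^ (6 * N + 1) := ⟨_, rfl⟩
    have h2 : Real.exp (B₀ + (E * Real.log (1 + ‖cX x₀‖) + ∑ i, n i / 4 * |(cZ x₀ i).re| +
        (6 * N + 1 : ℕ) * Real.log (1 + ‖x₀‖) + K₁)) = Real.exp (B₀ + K₁) * P := by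
      rw [hP, ← Real.exp_log (show 0 < (1 + ‖cX x₀‖) ^ E by positivity),
        ← Real.exp_log (show 0 < (1 + ‖x₀‖) ^ (6 * N + 1) by positivity), Real.log_pow,
        Real.log_pow, ← Real.exp_add, ← Real.exp_add, ← Real.exp_add]
      congr 1
      ring
    have h3 : 1 ≤ P := by
      rw [hP]
      refine one_le_mul_of_one_le_of_one_le (one_le_mul_of_one_le_of_one_le
        (one_le_pow₀ (le_add_of_nonneg_right (norm_nonneg _))) (Real.one_le_exp ?_))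
        (one_le_pow₀ (le_add_of_nonneg_right (norm_nonneg _)))
      exact sum_nonneg fun i _ => mul_nonneg (by linarith [hn0 i]) (abs_nonneg _)
    rw [h2] at h1
    calc ‖Ψ x₀‖ ≤ C₀ * (Real.exp (B₀ + K₁) * P + P) :=
          h1.trans (mul_le_mul_of_nonneg_left (by linarith) hC₀.le)
      _ = _ := by rw [hP]; ring
  · have h1 := (hΨb q (fun _ => s) ((2 * N + 1 : ℕ) * Real.log s + K₂) (fun _ => hs)
      fun x hx => by
        have h2 : ‖x - q‖ ≤ 2 * s := tipsi_pdisc (by positivity) (fun _ => by linarith) hx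
        have h3 := tipsi_near hε hs (by linarith) hεs q x h2
        have h4 := tipsi_shift E hn0 Cn (x := x) (x₀ := q) (by linarith)
        rw [← hcard]
        linarith [hU1 x]).2.2 fun x hx => tipsi_pdisc (by positivity) (fun _ => by linarith) hx
    have h2 : Real.exp (B₀ + ((2 * N + 1 : ℕ) * Real.log s + K₂)) =
        Real.exp (B₀ + K₂) * s * s ^ (N + N) := by
      rw [mul_assoc, ← pow_succ', ← Real.exp_log (show 0 < s ^ (N + N + 1) by positivity),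
        Real.log_pow, ← Real.exp_add]
      congr 1
      push_cast
      ring
    rw [prod_const, card_univ, Fintype.card_sum, Fintype.card_fin, h2, ← mul_assoc,
      ← mul_assoc] at h1
    rw [← hq]
    exact le_of_mul_le_mul_right h1 (by positivity)
  · have hsa : ∀ i, s ≤ s ^ ((2 * N + 1 : ℝ) / (2 * N * C * n i)) := fun i =>
      Real.self_le_rpow_of_le_one hs.le (by linarith) ((div_le_one (hν0 i)).2 (hν i))
    have hs3 : ∀ i, s ^ ((2 * N + 1 : ℝ) / (2 * N * C * n i)) ≤ 1 / 3 := fun i =>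
      (hsm' i).trans (min_le_left _ _)
    have hK := hK₃ c hc s hs (by linarith)
    rw [hJ] at hK
    replace hK := hK hsa hs3 ζ m hζ
    have hζ1 : ∀ i, ‖ζ i‖ ≤ 1 := fun i => by linarith [hζ i, hs3 i]
    obtain ⟨x₀, hx₀⟩ : ∃ x₀ : Sp N, x₀ = Sum.elim (c + wv m) (ζ - wv m) := ⟨_, rfl⟩
    rw [← hx₀] at hK ⊢
    have hX : Real.log (1 + ‖cX x₀‖) ≤ Real.log (2 + ‖c‖) := by
      refine Real.log_le_log (by positivity) ?_
      have : ‖cX x₀‖ ≤ ‖c‖ + 1 := by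
        refine (pi_norm_le_iff_of_nonneg (by positivity)).2 fun i => ?_
        have h1 : cX x₀ i = c i + ζ i := by simp [hx₀, cX]
        rw [h1]
        exact (norm_add_le _ _).trans (add_le_add (norm_le_pi_norm c i) (hζ1 i))
      linarith
    have hZ : ∑ i, n i / 4 * |(cZ x₀ i).re| ≤ ∑ i, n i / 4 := by
      refine sum_le_sum fun i _ => mul_le_of_le_one_right (by linarith [hn0 i]) ?_
      have h1 : (cZ x₀ i).re = (ζ i).re := by simp [hx₀, cZ, tipsi_wv_re]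
      rw [h1]
      exact (Complex.abs_re_le_norm _).trans (hζ1 i)
    have hx : Real.log (1 + ‖x₀‖) ≤ Real.log (2 + ‖c‖) + Real.log (1 + ‖wv m‖) := by
      rw [← Real.log_mul (by positivity) (by positivity)]
      refine Real.log_le_log (by positivity) ?_
      have h0 := norm_nonneg c
      have h0' := norm_nonneg (wv m)
      have : ‖x₀‖ ≤ ‖c‖ + 1 + ‖wv m‖ := by
        refine (pi_norm_le_iff_of_nonneg (by positivity)).2 fun j => ?_
        rw [hx₀]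
        rcases j with i | i
        · have h1 := norm_add_le (c i) (wv m i)
          have h2 := norm_le_pi_norm c i
          have h3 := norm_le_pi_norm (wv m) i
          simp only [Sum.elim_inl, Pi.add_apply]
          linarith
        · have h1 := norm_sub_le (ζ i) (wv m i)
          have h3 := norm_le_pi_norm (wv m) i
          simp only [Sum.elim_inr, Pi.sub_apply]
          linarith [hζ1 i]
      nlinarith
    have h1 := (hΨb x₀ (Sum.elim (fun _ => s) fun i => s ^ ((2 * N + 1 : ℝ) / (2 * N * C * n i)))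
      ((2 * N + 1) * Real.log s + (6 * N + 1 : ℕ) * Real.log (1 + ‖wv m‖) + K₄ c)
      (fun j => by
        rcases j with i | i
        · exact hs
        · exact Real.rpow_pos_of_pos hs _)
      fun x hx' => by
        obtain ⟨h2, h3, h4⟩ := hK x hx'
        have h5 := hU3 (-m) x _ h2 h3 h4
        have h6 := hK₁ _ hε hε1 x x₀ (tipsi_pdisc (by norm_num) (fun j => by
          rcases j with i | i
          · simp only [Sum.elim_inl]; linarith
          · simp only [Sum.elim_inr]; linarith [hs3 i]) hx')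
        have h7 := mul_le_mul_of_nonneg_left hX (Nat.cast_nonneg (α := ℝ) E)
        have h8 := mul_le_mul_of_nonneg_left hx (Nat.cast_nonneg (α := ℝ) (6 * N + 1))
        rw [hK₄]
        linarith).2.1 fun x hx' => by
      have h2 : ‖x (Sum.inr i₀) - x₀ (Sum.inr i₀)‖ ≤
        s ^ ((2 * N + 1 : ℝ) / (2 * N * C * n i₀)) := hx' (Sum.inr i₀)
      have h3 := (hsm' i₀).trans (min_le_right _ _)
      have h4 := hd' (-m i₀)
      have h5 : z i₀ - PL.wm (-m i₀) = (x (Sum.inr i₀) - x₀ (Sum.inr i₀)) + ζ i₀ -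
          (x - q) (Sum.inr i₀) := by
        simp only [hx₀, hq, wv, PL.wm, Sum.elim_inr, Pi.sub_apply, Int.cast_neg]
        ring
      have h6 := norm_le_pi_norm (x - q) (Sum.inr i₀)
      have h7 := norm_sub_le ((x (Sum.inr i₀) - x₀ (Sum.inr i₀)) + ζ i₀) ((x - q) (Sum.inr i₀))
      have h8 := norm_add_le (x (Sum.inr i₀) - x₀ (Sum.inr i₀)) (ζ i₀)
      rw [← h5] at h7
      linarith [hζ i₀]
    have h2 : Real.exp (B₀ + ((2 * N + 1) * Real.log s + (6 * N + 1 : ℕ) * Real.log (1 + ‖wv m‖) +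
        K₄ c)) = Real.exp (B₀ + K₄ c) * s ^ (N + 1) * (1 + ‖wv m‖) ^ (6 * N + 1) * s ^ N := by
      rw [← Real.exp_log (show 0 < s ^ (N + 1) by positivity),
        ← Real.exp_log (show 0 < s ^ N by positivity),
        ← Real.exp_log (show 0 < (1 + ‖wv m‖) ^ (6 * N + 1) by positivity), Real.log_pow,
        Real.log_pow, Real.log_pow, ← Real.exp_add, ← Real.exp_add, ← Real.exp_add]
      congr 1
      push_cast
      ring
    rw [h2, Fintype.prod_sum_type] at h1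
    simp only [Sum.elim_inl, Sum.elim_inr, prod_const, card_univ, Fintype.card_fin] at h1
    refine le_of_mul_le_mul_right ?_ (show 0 < s ^ N by positivity)
    linarith

end Pool.Agent.Lib.MP_1f047c_nt.TI
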