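import Pool.Agent.Lib.MP_1f047c_nt.TIWeight

open Finset MeasureTheory

namespace Pool.Agent.Lib.MP_1f047c_nt.TI

lemma tiroot_lev {N : ℕ} {Θ Θ' : ℝ} (h1 : 1 ≤ Θ) (h2 : Θ' ≤ Θ) {n : Fin N → ℝ} (h0 : ∀ i, 0 ≤ n i)
    (h : ∀ i k, n i = n k ∨ Θ * n i ≤ n k ∨ Θ * n k ≤ n i) :
    Adm (fun i => (univ.filter fun k => n i < n k).card) Θ' n := by
  have a : ∀ i k, n i < n k →
      (univ.filter fun l => n k < n l).card < (univ.filter fun l => n i < n l).card := by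
    intro i k hik
    refine card_lt_card ⟨fun l hl => ?_, fun hs => ?_⟩
    · simp only [mem_filter, mem_univ, true_and] at hl ⊢
      exact hik.trans hl
    · have := hs (mem_filter.2 ⟨mem_univ k, hik⟩)
      simp at this
  refine ⟨fun i k e => ?_, fun i k e => ?_⟩
  · rcases lt_trichotomy (n i) (n k) with l | l | l
    · exact absurd e (a i k l).ne'
    · exact l
    · exact absurd e (a k i l).ne
  · have l : n k < n i := by
      rcases lt_trichotomy (n i) (n k) with l | l | l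
      · exact absurd e (a i k l).le.not_gt
      · simp [l] at e
      · exact l
    rcases h i k with e' | e' | e'
    · exact absurd e' l.ne'
    · nlinarith [h0 i]
    · exact (mul_le_mul_of_nonneg_right h2 (h0 k)).trans e'

lemma tiroot_mc {N : ℕ} (y : Fin N → ℂ) : mc (fun j i : Fin N => if j = i then 1 else 0) y = y := by
  funext j
  simp [mc]

lemma tiroot_mz {N : ℕ} (y : Fin N → ℤ) : mz (fun j i : Fin N => if j = i then 1 else 0) y = y := by
  funext j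
  simp [mz]

/-- The weight. -/
theorem root {N : ℕ} (hN : 0 < N) (D : ℕ) {C : ℝ} (hC : 1 ≤ C) : ∃ (E : ℕ) (Θ : ℝ) (B : ℕ),
    ∀ F : MP N, F ≠ 0 → F.totalDegree ≤ D → ∀ z : Fin N → ℂ, Ind B z →
    ∃ n₀ rz : ℝ, 0 < rz ∧ ∀ n : Fin N → ℝ, (∀ i, n₀ ≤ n i) →
      (∀ i k, n i = n k ∨ Θ * n i ≤ n k ∨ Θ * n k ≤ n i) → ∃ Cn : ℝ, ∀ ε : ℝ, 0 < ε → ε ≤ 1 →
      ∃ U : Sp N → ℝ, Continuous U ∧ (∀ x, SubM U x fun _ => 0) ∧
        (∀ x, U x ≤ E * Real.log (1 + ‖cX x‖) + Ub (1 / 4) n Cn x) ∧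
        (∀ x, ‖cZ x - z‖ ≤ rz → -Cn ≤ U x) ∧
        ∀ (m : Fin N → ℤ) (x : Sp N) (L : ℝ), ‖cZ x - wv m‖ ≤ 1 → Lb (fun i => C * n i) ε m x L →
          1 / 2 * Real.log (ε + ‖MvPolynomial.eval (cX x - (cZ x - wv m)) F‖ ^ 2) ≤ L →
          U x ≤ E * Real.log (1 + ‖cX x‖) + Ub (1 / 4) n Cn x + L := by
  classical
  obtain ⟨r, hr⟩ := exists_top (N := N) D
  have hw := fun l : Fin N → Fin (N + 1) => wl_all hN (fun i => (l i : ℕ)) hC (N + r) (Fin N)
    (fun j i => if j = i then 1 else 0) id (fun j i e => by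
      have : j = i := by simpa using e
      rw [this, id]) 1 1 (1 / 4) le_rfl le_rfl (by norm_num)
  choose K Θ B hK hw using hw
  obtain ⟨K₀, hK₀⟩ := Finite.exists_le K
  obtain ⟨Θ₀, hΘ₀⟩ := Finite.exists_le Θ
  obtain ⟨B₀, hB₀⟩ := Finite.exists_le B
  refine ⟨⌈K₀ * D⌉₊, max Θ₀ 1, B₀, fun F hF hD z hz => ?_⟩
  obtain ⟨𝒯, h1, h2, h3, h4, C₀, h5⟩ := hr F hF hD
  have node : Node (fun j i : Fin N => if j = i then 1 else 0) LinearMap.id 𝒯 {F} :=
    ⟨h2, ⟨F, Submodule.subset_span (by simp), h3⟩, by simpa using h4, fun y g hg => by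
      rw [tiroot_mc, LinearMap.id_apply, sub_self, tr_zero]
      exact Submodule.subset_span hg⟩
  have hf := fun l => hw l 𝒯 {F} LinearMap.id z node (by rw [Fintype.card_fin]; omega)
    fun v hv hb => hz v hv fun i => (hb i).trans (by exact_mod_cast hB₀ l)
  choose C₁ n₀ rz hrz hC₁ hf using hf
  obtain ⟨n₁, hn₁⟩ := Finite.exists_le n₀
  obtain ⟨l₀, hl₀⟩ := Finite.exists_min rz
  refine ⟨max n₁ 0, rz l₀, hrz l₀, fun n hn hs => ?_⟩
  let l : Fin N → Fin (N + 1) := fun i => ⟨(univ.filter fun k => n i < n k).card,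
    Nat.lt_succ_of_le ((card_filter_le _ _).trans (by simp))⟩
  obtain ⟨Cn, hf⟩ := hf l n (fun i => ((hn₁ l).trans (le_max_left _ _)).trans (hn i))
    (tiroot_lev (le_max_right _ _) ((hΘ₀ l).trans (le_max_left _ _))
      (fun i => (le_max_right _ _).trans (hn i)) hs)
  have c0 : 0 ≤ C₀ := by
    have := h5 1 one_pos le_rfl 0
    rw [norm_zero, add_zero, Real.log_one, mul_zero, zero_add] at this
    linarith [this.1.trans this.2]
  refine ⟨Cn + K l * C₀ + C₀ + C₁ l, fun ε hε hε1 => ?_⟩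
  obtain ⟨W, S, G, hp⟩ := hf ε hε hε1
  have k0 := hK l
  have c1 := hC₁ l
  have up : ∀ x, K l * topF 𝒯 ε x ≤ (⌈K₀ * D⌉₊ : ℝ) * Real.log (1 + ‖cX x‖) + K l * C₀ := by
    intro x
    have a1 := mul_le_mul_of_nonneg_left (h5 ε hε hε1 (cX x)).2 k0
    have a2 : 0 ≤ Real.log (1 + ‖cX x‖) := Real.log_nonneg (by linarith [norm_nonneg (cX x)])
    have a3 : K l * D ≤ (⌈K₀ * D⌉₊ : ℝ) :=
      (mul_le_mul_of_nonneg_right (hK₀ l) D.cast_nonneg).trans (Nat.le_ceil _)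
    have a4 := mul_le_mul_of_nonneg_right a3 a2
    rw [topF]
    linarith
  refine ⟨fun x => W x + K l * topF 𝒯 ε x,
    hp.cW.add (continuous_const.mul (topF_ok 𝒯 ε hε).1), fun x => ?_, fun x => ?_,
    fun x hx => ?_, fun m x L hx hL hL' => ?_⟩
  · simpa using hp.psh x ∅ 0 0 (by simp)
  · have a1 := hp.uW x
    have a2 := up x
    simp only [Ub] at a1 ⊢
    linarith
  · have a1 := hp.lo x (hx.trans (hl₀ l))
    have a2 := mul_le_mul_of_nonneg_left (h5 ε hε hε1 (cX x)).1 k0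
    simp only [topF]
    linarith
  · have hy : yv (fun j i : Fin N => if j = i then 1 else 0) m x = cZ x - wv m := by
      rw [yv, tiroot_mc]
    have a1 := hp.uS m x
    have a2 := hp.uG m x L hL
    have a3 := up x
    have a4 : -C₀ ≤ topF 𝒯 ε x := (h5 ε hε hε1 (cX x)).1
    have a5 : aF (fun j i : Fin N => if j = i then 1 else 0) LinearMap.id {F} ε m x ≤ L := by
      rwa [aF, lg, hy, sum_singleton, LinearMap.id_apply]
    rw [tiroot_mz] at a2
    simp only [Ub] at a1 a2 ⊢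
    rcases hp.s3 m x (fun j => by rw [hy]; exact (norm_le_pi_norm _ j).trans hx) with a6 | a6 <;>
      linarith

end Pool.Agent.Lib.MP_1f047c_nt.TI
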