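import Pool.Agent.Lib.MP_1f047c_nt.TIPk
import Pool.Agent.Lib.MP_1f047c_nt.TIFun

open Finset MeasureTheory

namespace Pool.Agent.Lib.MP_1f047c_nt.TI

lemma tista_fold_cont {X α : Type} [TopologicalSpace X] (s : Finset α) {b : X → ℝ}
    {f : α → X → ℝ} (hb : Continuous b) (hf : ∀ c, Continuous (f c)) :
    Continuous fun x => s.fold max (b x) fun c => f c x := by
  classical
  induction s using Finset.induction_on with
  | empty => simpa only [fold_empty] using hb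
  | insert a s ha ih =>
    simp only [fold_insert ha]
    exact (hf a).max ih

lemma tista_fold_ge {α : Type} [Fintype α] (b : ℝ) (f : α → ℝ) :
    b ≤ (univ : Finset α).fold max b f ∧ ∀ c, f c ≤ (univ : Finset α).fold max b f :=
  ⟨(le_fold_max _).mpr (Or.inl le_rfl), fun c => (le_fold_max _).mpr (Or.inr ⟨c, mem_univ c, le_rfl⟩)⟩

lemma tista_fold_cases {α : Type} [Fintype α] (b : ℝ) (f : α → ℝ) :
    (univ : Finset α).fold max b f = b ∨ ∃ c, (univ : Finset α).fold max b f = f c := by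
  rcases (le_fold_max ((univ : Finset α).fold max b f)).mp le_rfl with h | ⟨c, -, h⟩
  · exact Or.inl (le_antisymm h (tista_fold_ge b f).1)
  · exact Or.inr ⟨c, le_antisymm h ((tista_fold_ge b f).2 c)⟩

lemma tista_sum_add {α : Type} [Fintype α] {w : α → ℝ} {U T L : ℝ} (h : ∀ c, w c ≤ U) (c₀ : α)
    (h₀ : w c₀ + T ≤ U + L) : ∑ c, w c + T ≤ Fintype.card α * U + L := by
  have h1 := single_le_sum (f := fun c => U - w c) (fun c _ => sub_nonneg.mpr (h c)) (mem_univ c₀)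
  simp only [sum_sub_distrib, sum_const, card_univ, nsmul_eq_mul] at h1
  linarith

lemma tista_yv_mz {N : ℕ} {κ : Type} (π : κ → Fin N → ℤ) (m : Fin N → ℤ) (x : Sp N) (j : κ) :
    yv π (mz π m) x j = ∑ i, (π j i : ℂ) * (cZ x i - PL.wm (m i)) := by
  simp only [yv, mc, wv, mz, PL.wm, Pi.sub_apply, Int.cast_sum, Int.cast_mul, mul_sub,
    sum_sub_distrib, mul_sum]
  congr 1
  exact sum_congr rfl fun i _ => by ring

namespace St

variable {N : ℕ} {κ ι : Type} [Fintype κ] [Fintype ι] (D : St N κ ι)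

/-- The constant of the new package; it does not involve the regularisation. -/
noncomputable def Cn' : ℝ :=
  Fintype.card ι * D.Cn + ∑ j, D.sl j * D.n (D.rep j) * D.rad j +
    ∑ j, D.C * D.n (D.rep j) * (Real.log (1 + ∑ i, |(D.π j i : ℝ)|) + 1) +
    D.b * (2 * D.R + 1) ^ Fintype.card κ * (D.C * D.n (D.rep D.j₀) * |Real.log (D.d / D.rad D.j₀)|)

lemma tista_rad_one (j : κ) : 1 ≤ D.rad j := D.hρ.trans (D.hrad j).1

lemma tista_rad_pos (j : κ) : 0 < D.rad j := lt_of_lt_of_le one_pos (D.tista_rad_one j)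

lemma tista_Cn_nonneg (i : Fin N) : 0 ≤ D.C * D.n i :=
  mul_nonneg (zero_le_one.trans D.hC) (D.hn i).le

lemma tista_off_nonneg (c : ι) : 0 ≤ D.C * (D.om ^ 3 / 6) * D.n (D.rc c) / 2 := by
  have h1 := D.hC
  have h2 := D.hom
  have h3 := D.hn (D.rc c)
  positivity

lemma S₀_cont (μ : κ → ℤ) : Continuous (D.S₀ μ) :=
  tista_fold_cont univ continuous_const fun c => (D.pk c).cS μ

lemma tista_lam_cont (μ : κ → ℤ) (j : κ) :
    Continuous fun x => D.C * D.n (D.rep j) * lam D.ε (D.rad j) (yv D.π μ x j) :=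
  continuous_const.mul ((lam_cont D.hε _).comp
    ((continuous_apply j).comp (yv_diff D.π μ).continuous))

lemma G₀_cont (μ : κ → ℤ) : Continuous (D.G₀ μ) :=
  tista_fold_cont univ (tista_fold_cont univ (D.tista_lam_cont μ D.j₀) (D.tista_lam_cont μ))
    fun c => ((D.pk c).cG μ).sub continuous_const

lemma A_cont (μ : κ → ℤ) : Continuous (D.A μ) :=
  ((((((D.ca μ).sub D.ctop).sub continuous_const).add (D.S₀_cont μ)).min continuous_const).max
    (D.G₀_cont μ))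

lemma H_cont : Continuous D.H := by
  refine continuous_finsetSum _ fun j _ => continuous_const.mul ((hub_cont _).comp ?_)
  have h : Continuous fun x : Sp N => (yv D.π 0 x j).re :=
    Complex.continuous_re.comp ((continuous_apply j).comp (yv_diff D.π 0).continuous)
  simpa only [yv_re] using h

lemma S₀_ge (μ : κ → ℤ) (x : Sp N) : 0 ≤ D.S₀ μ x ∧ ∀ c, D.Sc c μ x ≤ D.S₀ μ x :=
  tista_fold_ge 0 fun c => D.Sc c μ x

lemma S₀_cases (μ : κ → ℤ) (x : Sp N) : D.S₀ μ x = 0 ∨ ∃ c, D.S₀ μ x = D.Sc c μ x :=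
  tista_fold_cases 0 fun c => D.Sc c μ x

lemma G₀_ge (μ : κ → ℤ) (x : Sp N) :
    (∀ j, D.C * D.n (D.rep j) * lam D.ε (D.rad j) (yv D.π μ x j) ≤ D.G₀ μ x) ∧
      ∀ c, D.Gc c μ x - D.C * (D.om ^ 3 / 6) * D.n (D.rc c) / 2 ≤ D.G₀ μ x :=
  ⟨fun j => ((tista_fold_ge _ fun j => D.C * D.n (D.rep j) * lam D.ε (D.rad j) (yv D.π μ x j)).2
      j).trans (tista_fold_ge _ _).1,
    fun c => (tista_fold_ge _ fun c => D.Gc c μ x - D.C * (D.om ^ 3 / 6) * D.n (D.rc c) / 2).2 c⟩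

lemma G₀_cases (μ : κ → ℤ) (x : Sp N) :
    (∃ j, D.G₀ μ x = D.C * D.n (D.rep j) * lam D.ε (D.rad j) (yv D.π μ x j)) ∨
      ∃ c, D.G₀ μ x = D.Gc c μ x - D.C * (D.om ^ 3 / 6) * D.n (D.rc c) / 2 := by
  rcases tista_fold_cases ((univ : Finset κ).fold max
      (D.C * D.n (D.rep D.j₀) * lam D.ε (D.rad D.j₀) (yv D.π μ x D.j₀))
      fun j => D.C * D.n (D.rep j) * lam D.ε (D.rad j) (yv D.π μ x j))
    (fun c => D.Gc c μ x - D.C * (D.om ^ 3 / 6) * D.n (D.rc c) / 2) with h | h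
  · left
    rcases tista_fold_cases (D.C * D.n (D.rep D.j₀) * lam D.ε (D.rad D.j₀) (yv D.π μ x D.j₀))
      (fun j => D.C * D.n (D.rep j) * lam D.ε (D.rad j) (yv D.π μ x j)) with h' | ⟨j, h'⟩
    · exact ⟨D.j₀, h.trans h'⟩
    · exact ⟨j, h.trans h'⟩
  · exact Or.inr h

lemma G₀_nonpos (μ : κ → ℤ) (x : Sp N) : D.G₀ μ x ≤ 0 := by
  rcases D.G₀_cases μ x with ⟨j, h⟩ | ⟨c, h⟩
  · rw [h]
    exact mul_nonpos_of_nonneg_of_nonpos (D.tista_Cn_nonneg _) (lam_nonpos D.hε _ _)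
  · rw [h]
    linarith [(D.pk c).s2 μ x, D.tista_off_nonneg c]

lemma G₀_neg {μ : κ → ℤ} {x : Sp N} (h : D.G₀ μ x < 0) (j : κ) : ‖yv D.π μ x j‖ < D.rad j := by
  by_contra hc
  have h1 := (D.G₀_ge μ x).1 j
  rw [lam_zero D.hε (D.tista_rad_pos j) (not_lt.mp hc), mul_zero] at h1
  linarith

lemma A_nonpos (μ : κ → ℤ) (x : Sp N) : D.A μ x ≤ 0 :=
  max_le (min_le_right _ _) (D.G₀_nonpos μ x)

lemma A_zero {μ : κ → ℤ} {x : Sp N} (h : ¬ inB D.π D.rad μ x) : D.A μ x = 0 := by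
  refine le_antisymm (D.A_nonpos μ x) (le_max_of_le_right (not_lt.mp fun hc => h fun j => ?_))
  exact (D.G₀_neg hc j).le

lemma s₀_nonpos {μ : κ → ℤ} {x : Sp N} (h : inB D.π (fun _ => D.R) μ x) : D.s₀ μ x ≤ 0 := by
  unfold s₀
  rcases D.S₀_cases μ x with h1 | ⟨c, h1⟩
  · rw [h1]
    linarith [D.atop μ x h, D.hC₁]
  · rw [h1]
    linarith [(D.pk c).s1 μ x h, D.aac c μ x h]

/-- Near `x` the sum over all periods is the sum over the box at `x`. -/
lemma sum_local (x : Sp N) : ∃ s : Finset (κ → ℤ), (∀ μ, μ ∈ s ↔ inB D.π D.rad μ x) ∧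
    (s.card : ℝ) ≤ (2 * D.R + 1) ^ Fintype.card κ ∧
    ∀ᶠ y in nhds x, ∑ᶠ μ, D.A μ y = ∑ μ ∈ s, D.A μ y := by
  classical
  obtain ⟨s, hs, hs'⟩ := box_finite D.π D.rad x
  refine ⟨s, hs, ?_, ?_⟩
  · refine (card_box D.π D.rad (fun j => (D.tista_rad_pos j).le) x s (fun μ hμ => (hs μ).mp hμ)
      univ fun μ _ μ' _ h => funext fun j => h j (mem_univ j)).trans ?_
    rw [← card_univ, ← prod_const]
    exact prod_le_prod (fun j _ => by linarith [D.tista_rad_pos j])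
      fun j _ => by linarith [(D.hrad j).2]
  · filter_upwards [hs'] with y hy
    refine finsum_eq_sum_of_support_subset _ fun μ hμ => ?_
    exact hy μ (by_contra fun hc => hμ (D.A_zero hc))

lemma W_cont : Continuous D.W := by
  refine ((continuous_const.mul ?_).add
    (continuous_finsetSum _ fun c _ => (D.pk c).cW)).add D.H_cont
  refine continuous_iff_continuousAt.mpr fun x => ?_
  obtain ⟨s, -, -, hs⟩ := D.sum_local x
  refine ContinuousAt.congr (f := fun y => ∑ μ ∈ s, D.A μ y)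
    (continuous_finsetSum _ fun μ _ => D.A_cont μ).continuousAt ?_
  filter_upwards [hs] with y hy
  exact hy.symm

lemma tista_sumA_le (μ : κ → ℤ) (x : Sp N) : D.b * ∑ᶠ μ, D.A μ x ≤ D.A μ x := by
  obtain ⟨s, hs, -, h⟩ := D.sum_local x
  rw [h.self_of_nhds]
  have h0 : ∑ μ ∈ s, D.A μ x ≤ 0 := sum_nonpos fun μ _ => D.A_nonpos μ x
  have h1 : ∑ μ ∈ s, D.A μ x ≤ D.A μ x := by
    by_cases hμ : μ ∈ s
    · have h2 := single_le_sum (f := fun μ => -D.A μ x)
        (fun μ _ => neg_nonneg.mpr (D.A_nonpos μ x)) hμ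
      rw [sum_neg_distrib] at h2
      linarith
    · rw [D.A_zero fun hc => hμ ((hs μ).mpr hc)]
      exact h0
  nlinarith [D.hb]

lemma tista_H_nonneg (x : Sp N) : 0 ≤ D.H x :=
  sum_nonneg fun j _ => mul_nonneg (mul_nonneg (D.hsl0 j) (D.hn _).le) (hub_nonneg _ _)

lemma tista_H_le (x : Sp N) : D.H x ≤ D.e₀ / 2 * ∑ i, D.n i * |(cZ x i).re| +
    ∑ j, D.sl j * D.n (D.rep j) * D.rad j := by
  have h1 : ∀ j, D.sl j * D.n (D.rep j) * hub (D.rad j) (mc D.π (cZ x) j).re ≤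
      ∑ i, D.sl j * |(D.π j i : ℝ)| * (D.n i * |(cZ x i).re|) +
        D.sl j * D.n (D.rep j) * D.rad j := by
    intro j
    have h2 : |(mc D.π (cZ x) j).re| ≤ ∑ i, |(D.π j i : ℝ)| * |(cZ x i).re| := by
      rw [mc, Complex.re_sum]
      refine (abs_sum_le_sum_abs _ _).trans (le_of_eq (sum_congr rfl fun i _ => ?_))
      rw [← abs_mul, Complex.mul_re, Complex.intCast_re, Complex.intCast_im, zero_mul, sub_zero]
    have h3 : ∑ i, D.sl j * |(D.π j i : ℝ)| * (D.n i * |(cZ x i).re|) =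
        D.sl j * D.n (D.rep j) * ∑ i, |(D.π j i : ℝ)| * |(cZ x i).re| := by
      rw [mul_sum]
      refine sum_congr rfl fun i _ => ?_
      by_cases h4 : D.π j i = 0
      · simp only [h4, Int.cast_zero, abs_zero, mul_zero, zero_mul]
      · rw [D.hadm.1 i (D.rep j) (D.hπ j i h4)]
        ring
    rw [h3, ← mul_add]
    refine mul_le_mul_of_nonneg_left ?_ (mul_nonneg (D.hsl0 j) (D.hn _).le)
    linarith [hub_le (D.tista_rad_pos j).le (mc D.π (cZ x) j).re]
  refine (sum_le_sum fun j _ => h1 j).trans ?_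
  rw [sum_add_distrib, sum_comm, mul_sum]
  refine add_le_add_left (sum_le_sum fun i _ => ?_) _
  rw [← sum_mul]
  exact mul_le_mul_of_nonneg_right (D.hsl' i) (mul_nonneg (D.hn i).le (abs_nonneg _))

lemma tista_log_nonneg (j : κ) :
    0 ≤ D.C * D.n (D.rep j) * (Real.log (1 + ∑ i, |(D.π j i : ℝ)|) + 1) := by
  refine mul_nonneg (D.tista_Cn_nonneg _) (add_nonneg (Real.log_nonneg ?_) zero_le_one)
  exact le_add_of_nonneg_right (sum_nonneg fun i _ => abs_nonneg _)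

lemma tista_last_nonneg : 0 ≤ D.b * (2 * D.R + 1) ^ Fintype.card κ *
    (D.C * D.n (D.rep D.j₀) * |Real.log (D.d / D.rad D.j₀)|) := by
  have h1 := D.hb
  have h2 : 0 < D.R := (D.tista_rad_pos D.j₀).trans_le (D.hrad D.j₀).2
  have h3 := D.tista_Cn_nonneg (D.rep D.j₀)
  positivity

/-- The common part of the three upper bounds. -/
lemma tista_upper (x : Sp N) {T L : ℝ}
    (h : ∑ c, D.Wc c x + T ≤ Fintype.card ι * Ub D.e₁ D.n D.Cn x + L +
      ∑ j, D.C * D.n (D.rep j) * (Real.log (1 + ∑ i, |(D.π j i : ℝ)|) + 1)) :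
    ∑ c, D.Wc c x + D.H x + T ≤ Ub D.e₀ D.n D.Cn' x + L := by
  have h1 := D.tista_H_le x
  have h2 := D.tista_last_nonneg
  have h3 : 0 ≤ ∑ i, D.n i * |(cZ x i).re| :=
    sum_nonneg fun i _ => mul_nonneg (D.hn i).le (abs_nonneg _)
  have h4 := mul_le_mul_of_nonneg_right D.he₁ h3
  unfold Ub Cn' at *
  nlinarith

lemma tista_sumW_le (x : Sp N) : ∑ c, D.Wc c x ≤ Fintype.card ι * Ub D.e₁ D.n D.Cn x := by
  have h := sum_le_card_nsmul univ (fun c => D.Wc c x) _ fun c _ => (D.pk c).uW x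
  rwa [card_univ, nsmul_eq_mul] at h

lemma tista_pole (m : Fin N → ℤ) (x : Sp N) (L : ℝ) (hL : Lb (fun i => D.C * D.n i) D.ε m x L)
    (j : κ) : D.C * D.n (D.rep j) * lam D.ε (D.rad j) (yv D.π (mz D.π m) x j) ≤
      L + D.C * D.n (D.rep j) * (Real.log (1 + ∑ i, |(D.π j i : ℝ)|) + 1) := by
  obtain ⟨i₀, hi₀, hmax⟩ := exists_max_image (univ.filter fun i => D.lev i = D.lev (D.rep j))
    (fun i => ‖cZ x i - PL.wm (m i)‖) ⟨D.rep j, mem_filter.mpr ⟨mem_univ _, rfl⟩⟩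
  have hP : 0 ≤ ∑ i, |(D.π j i : ℝ)| := sum_nonneg fun i _ => abs_nonneg _
  have h1 : ‖yv D.π (mz D.π m) x j‖ ≤ (1 + ∑ i, |(D.π j i : ℝ)|) * ‖cZ x i₀ - PL.wm (m i₀)‖ := by
    rw [tista_yv_mz]
    refine (norm_sum_le_of_le _
      (n := fun i => |(D.π j i : ℝ)| * ‖cZ x i₀ - PL.wm (m i₀)‖) fun i _ => ?_).trans ?_
    · rw [norm_mul, Complex.norm_intCast]
      by_cases h4 : D.π j i = 0
      · simp only [h4, Int.cast_zero, abs_zero, zero_mul, le_refl]
      · exact mul_le_mul_of_nonneg_left (hmax i (mem_filter.mpr ⟨mem_univ _, D.hπ j i h4⟩))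
          (abs_nonneg _)
    · rw [← sum_mul]
      exact mul_le_mul_of_nonneg_right (by linarith) (norm_nonneg _)
  have h2 := lam_upper D.hε D.hε1 (D.tista_rad_one j) (by linarith) h1
  have h3 := hL i₀
  have h4 : D.n i₀ = D.n (D.rep j) := D.hadm.1 _ _ (mem_filter.mp hi₀).2
  simp only [h4] at h3
  have h5 := mul_le_mul_of_nonneg_left h2 (D.tista_Cn_nonneg (D.rep j))
  rw [mul_add] at h5
  linarith

/-- All properties of the new package, given the positivity property. -/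
theorem pk_of_psh (h : ∀ (x : Sp N) (s : Finset (κ → ℤ)) (t t' : (κ → ℤ) → ℝ),
      (∀ μ ∈ s, inB D.π (fun _ => D.ρ) μ x ∧ 0 ≤ t μ ∧ 0 ≤ t' μ ∧ t μ + t' μ ≤ D.b) →
      SubM (fun y => D.W y + D.K * D.top y + ∑ μ ∈ s, (t μ * D.S μ y + t' μ * D.G μ y)) x
        fun _ => 0) :
    Pk D.π D.n (fun i => D.C * D.n i) D.z D.ε D.b D.ρ D.e₀ D.K (D.C₁ + D.C₂) D.Cn' D.rz D.top D.a
      D.W D.S D.G := by
  have hlog : 0 ≤ ∑ j, D.C * D.n (D.rep j) * (Real.log (1 + ∑ i, |(D.π j i : ℝ)|) + 1) :=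
    sum_nonneg fun j _ => D.tista_log_nonneg j
  have hR : D.ρ ≤ D.R := (D.hrad D.j₀).1.trans (D.hrad D.j₀).2
  refine ⟨D.W_cont, fun μ => (D.S₀_cont μ).sub (D.A_cont μ),
    fun μ => (D.G₀_cont μ).sub (D.A_cont μ), h, ?_, ?_, ?_, ?_, ?_, ?_, ?_⟩
  · intro x
    have h1 := D.tista_upper x (T := 0) (L := 0) (by linarith [D.tista_sumW_le x])
    have h2 := (D.tista_sumA_le 0 x).trans (D.A_nonpos 0 x)
    unfold W
    linarith
  · intro μ x
    have h1 := D.tista_upper x (T := D.S₀ μ x) (L := 0) (by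
      rcases D.S₀_cases μ x with h3 | ⟨c, h3⟩
      · linarith [D.tista_sumW_le x]
      · have h4 := tista_sum_add (fun c => (D.pk c).uW x) c (T := D.Sc c μ x) (L := 0)
          (by linarith [(D.pk c).uS μ x])
        linarith)
    have h2 := D.tista_sumA_le μ x
    unfold W S
    linarith
  · intro m x L hL
    have h1 := D.tista_upper x (T := D.G₀ (mz D.π m) x) (L := L) (by
      rcases D.G₀_cases (mz D.π m) x with ⟨j, h3⟩ | ⟨c, h3⟩
      · have h4 := single_le_sum (fun j _ => D.tista_log_nonneg j) (mem_univ j)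
        linarith [D.tista_sumW_le x, D.tista_pole m x L hL j]
      · have h4 := tista_sum_add (fun c => (D.pk c).uW x) c ((D.pk c).uG m x L hL)
        linarith [D.tista_off_nonneg c])
    have h2 := D.tista_sumA_le (mz D.π m) x
    unfold W G
    linarith
  · intro x hx
    obtain ⟨s, -, hs, h1⟩ := D.sum_local x
    obtain ⟨X, hX⟩ : ∃ X, X = D.C * D.n (D.rep D.j₀) * |Real.log (D.d / D.rad D.j₀)| := ⟨_, rfl⟩
    have hX0 : 0 ≤ X := by
      rw [hX]
      exact mul_nonneg (D.tista_Cn_nonneg _) (abs_nonneg _)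
    have h2 : ∀ μ, -X ≤ D.A μ x := by
      intro μ
      have h3 := mul_le_mul_of_nonneg_left
        (lam_lower D.hε (D.tista_rad_pos D.j₀) D.hd (D.hd' x hx μ)) (D.tista_Cn_nonneg (D.rep D.j₀))
      rw [mul_neg, ← hX] at h3
      exact h3.trans (((D.G₀_ge μ x).1 D.j₀).trans (le_max_right _ _))
    have h3 := card_nsmul_le_sum s (fun μ => D.A μ x) _ fun μ _ => h2 μ
    rw [nsmul_eq_mul] at h3
    have h4 : -((2 * D.R + 1) ^ Fintype.card κ * X) ≤ ∑ μ ∈ s, D.A μ x := by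
      nlinarith [mul_le_mul_of_nonneg_right hs hX0]
    have h5 := mul_le_mul_of_nonneg_left h4 (zero_le_one.trans D.hb)
    have h6 := card_nsmul_le_sum univ (fun c => D.Wc c x) _ fun c _ => (D.pk c).lo x hx
    rw [card_univ, nsmul_eq_mul] at h6
    have h7 : 0 ≤ ∑ j, D.sl j * D.n (D.rep j) * D.rad j := sum_nonneg fun j _ =>
      mul_nonneg (mul_nonneg (D.hsl0 j) (D.hn _).le) (D.tista_rad_pos j).le
    have h8 := D.tista_H_nonneg x
    unfold W Cn'
    rw [h1.self_of_nhds, ← hX]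
    linarith
  · intro μ x hx
    have h1 := D.s₀_nonpos (μ := μ) (x := x) fun j => (hx j).trans hR
    have h2 : D.s₀ μ x ≤ D.A μ x := le_max_of_le_left (le_min le_rfl h1)
    unfold s₀ at h2
    unfold S
    linarith
  · intro μ x
    exact sub_nonpos.mpr (le_max_right _ _)
  · intro μ x _
    rcases le_total (min (D.s₀ μ x) 0) (D.G₀ μ x) with h1 | h1
    · right
      exact sub_nonneg.mpr (max_eq_right h1).le
    · left
      have h2 : D.A μ x ≤ D.s₀ μ x := (max_eq_left h1).le.trans (min_le_left _ _)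
      unfold s₀ at h2
      unfold S
      linarith [D.hC₁, D.hC₂]

end St

end Pool.Agent.Lib.MP_1f047c_nt.TI
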