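import Pool.Agent.Lib.MP_1f047c_nt.TIStA

open Finset MeasureTheory

namespace Pool.Agent.Lib.MP_1f047c_nt.TI

namespace St

variable {N : ℕ} {κ ι : Type} [Fintype κ] [Fintype ι] (D : St N κ ι)

lemma tistb_inR {μ : κ → ℤ} {x : Sp N} (h : inB D.π D.rad μ x) : inB D.π (fun _ => D.R) μ x :=
  fun j => (h j).trans (D.hrad j).2

lemma tistb_rad_pos (j : κ) : 0 < D.rad j := by
  linarith [D.hρ, (D.hrad j).1]

lemma tistb_deep {μ : κ → ℤ} {x : Sp N} {j : κ}
    (h : D.A μ x = D.C * D.n (D.rep j) * lam D.ε (D.rad j) (yv D.π μ x j))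
    (h' : lam D.ε (D.rad j) (yv D.π μ x j) < -(D.om ^ 3 / 6)) :
    inB D.π D.rad μ x ∧ D.G₀ μ x < -(D.C * (D.om ^ 3 / 6) * D.n (D.rep j)) ∧
      D.s₀ μ x < -(D.C * (D.om ^ 3 / 6) * D.n (D.rep j)) := by
  have hC : 0 < D.C := by linarith [D.hC]
  have hn := D.hn (D.rep j)
  have hom := D.hom
  have hpos : 0 < D.C * (D.om ^ 3 / 6) * D.n (D.rep j) := by positivity
  have hA : D.A μ x < -(D.C * (D.om ^ 3 / 6) * D.n (D.rep j)) := by
    have := mul_lt_mul_of_pos_left h' (mul_pos hC hn)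
    rw [h]
    linarith
  refine ⟨?_, ?_, ?_⟩
  · by_contra hB
    rw [D.A_zero hB] at hA
    linarith
  · exact lt_of_le_of_lt (le_max_right _ _) hA
  · have h1 : min (D.s₀ μ x) 0 < -(D.C * (D.om ^ 3 / 6) * D.n (D.rep j)) :=
      lt_of_le_of_lt (le_max_left _ _) hA
    rcases min_lt_iff.1 h1 with h2 | h2
    · exact h2
    · linarith

lemma tistb_high {μ : κ → ℤ} {x : Sp N} {j j' : κ} (hB : inB D.π D.rad μ x)
    (hG : D.G₀ μ x < -(D.C * (D.om ^ 3 / 6) * D.n (D.rep j)))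
    (hl : D.lev (D.rep j) < D.lev (D.rep j')) :
    ‖mc D.π (cZ x) j' - PL.wm (μ j')‖ ≤ D.R * Real.exp (-(D.om ^ 3 / 6 * D.Θ)) := by
  have hC : 0 < D.C := by linarith [D.hC]
  have hn := D.hn (D.rep j')
  have hom := D.hom
  have h1 := (D.G₀_ge μ x).1 j'
  have h2 := D.hadm.2 _ _ hl
  have h3 : D.C * (D.om ^ 3 / 6) * (D.Θ * D.n (D.rep j')) ≤
      D.C * (D.om ^ 3 / 6) * D.n (D.rep j) := mul_le_mul_of_nonneg_left h2 (by positivity)
  have h4 : lam D.ε (D.rad j') (yv D.π μ x j') ≤ -(D.om ^ 3 / 6 * D.Θ) := by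
    refine le_of_mul_le_mul_left (a := D.C * D.n (D.rep j')) ?_ (mul_pos hC hn)
    linarith
  have h5 := lam_small D.hε (D.tistb_rad_pos j') (hB j') h4
  exact h5.trans (mul_le_mul_of_nonneg_right (D.hrad j').2 (Real.exp_pos _).le)

lemma tistb_sep {μ : κ → ℤ} {x : Sp N} {j : κ} (hB : inB D.π D.rad μ x)
    (hG : D.G₀ μ x < -(D.C * (D.om ^ 3 / 6) * D.n (D.rep j)))
    (hS : D.s₀ μ x < -(D.C * (D.om ^ 3 / 6) * D.n (D.rep j))) (c : ι)
    (hc : D.lev (D.rc c) = D.lev (D.rep j)) : D.a μ x ≤ D.ac c μ x - D.Cs := by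
  have hC : 0 < D.C := by linarith [D.hC]
  have hn := D.hn (D.rep j)
  have hom := D.hom
  have hpos : 0 < D.C * (D.om ^ 3 / 6) * D.n (D.rep j) := by positivity
  have h1 := (D.G₀_ge μ x).2 c
  rw [D.hadm.1 _ _ hc] at h1
  have h2 := (D.S₀_ge μ x).2 c
  have h3 := D.hn' (D.rep j)
  rcases (D.pk c).s3 μ x (D.tistb_inR hB) with h4 | h4
  · unfold s₀ at hS
    linarith
  · linarith

/-- Few periods have a deep active pole in the coordinate `j`. -/
theorem deep_card (x : Sp N) (j : κ) (s : Finset (κ → ℤ))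
    (hs : ∀ μ ∈ s, D.A μ x = D.C * D.n (D.rep j) * lam D.ε (D.rad j) (yv D.π μ x j) ∧
      lam D.ε (D.rad j) (yv D.π μ x j) < -(D.om ^ 3 / 6)) :
    (s.card : ℝ) ≤ ∏ j' with D.lev (D.rep j') < D.lev (D.rep j), (2 * D.rad j' + 1) := by
  classical
  have hd := fun μ hμ => D.tistb_deep (hs μ hμ).1 (hs μ hμ).2
  refine card_box D.π D.rad (fun j' => (D.tistb_rad_pos j').le) x s (fun μ hμ => (hd μ hμ).1) _ ?_
  intro μ hμ μ' hμ' hJ
  by_contra hne
  refine D.sep x μ μ' (D.lev (D.rep j)) hne (D.tistb_inR (hd μ hμ).1) (D.tistb_inR (hd μ' hμ').1)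
    (fun j' hj' => ?_) ⟨D.tistb_sep (hd μ hμ).1 (hd μ hμ).2.1 (hd μ hμ).2.2,
      D.tistb_sep (hd μ' hμ').1 (hd μ' hμ').2.1 (hd μ' hμ').2.2⟩
  rcases lt_or_gt_of_ne hj' with hl | hl
  · exact hJ j' (Finset.mem_filter.2 ⟨Finset.mem_univ _, hl⟩)
  · have h1 := wm_close (D.tistb_high (hd μ hμ).1 (hd μ hμ).2.1 hl)
      (D.tistb_high (hd μ' hμ').1 (hd μ' hμ').2.1 hl)
    have h2 : |(μ j' : ℝ) - μ' j'| < 1 := by
      have h3 := lt_of_le_of_lt h1 D.hΘ
      refine lt_of_mul_lt_mul_left (a := Real.pi) ?_ Real.pi_pos.le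
      linarith
    have h4 : |μ j' - μ' j'| < 1 := by exact_mod_cast h2
    have := Int.abs_lt_one_iff.1 h4
    omega

lemma tistb_card (r : ℝ) (hr : 0 ≤ r) (x : Sp N) (s : Finset (κ → ℤ))
    (hs : ∀ μ ∈ s, inB D.π (fun _ => r) μ x) : (s.card : ℝ) ≤ (2 * r + 1) ^ Fintype.card κ := by
  classical
  have := card_box D.π (fun _ => r) (fun _ => hr) x s hs univ
    (fun μ _ μ' _ h => funext fun j => h j (mem_univ _))
  simpa using this

open Classical in
/-- The weight of the negative contribution of a pole. -/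
noncomputable def tistb_om (x : Sp N) (s : Finset (κ → ℤ)) (μ : κ → ℤ) (j : κ) : ℝ :=
  if μ ∈ s ∨ lam D.ε (D.rad j) (yv D.π μ x j) < -(D.om ^ 3 / 6) then 1 else D.om

lemma tistb_count (x : Sp N) (s s' : Finset (κ → ℤ)) (γ : (κ → ℤ) → κ → ℝ)
    (hs' : ∀ μ ∈ s', inB D.π D.rad μ x) (hs : ∀ μ ∈ s, inB D.π (fun _ => D.ρ) μ x)
    (hγ : ∀ μ j, 0 ≤ γ μ j ∧ γ μ j ≤ D.b)
    (hact : ∀ μ ∈ s', μ ∉ s → ∀ j, γ μ j ≠ 0 →
      D.A μ x = D.C * D.n (D.rep j) * lam D.ε (D.rad j) (yv D.π μ x j)) (j : κ) :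
    ∑ μ ∈ s', γ μ j * D.tistb_om x s μ j ≤ D.b * ((2 * D.ρ + 1) ^ Fintype.card κ +
      (∏ j' with D.lev (D.rep j') < D.lev (D.rep j), (2 * D.rad j' + 1)) + 1) := by
  classical
  have hb : 0 ≤ D.b := by linarith [D.hb]
  have hom := D.hom
  have hρ : 0 ≤ D.ρ := by linarith [D.hρ]
  have hR : 0 ≤ D.R := by linarith [(D.hrad j).1, (D.hrad j).2]
  set t : Finset (κ → ℤ) := s'.filter fun μ => μ ∉ s ∧ γ μ j ≠ 0 ∧
    lam D.ε (D.rad j) (yv D.π μ x j) < -(D.om ^ 3 / 6) with ht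
  have h1 : ∀ μ ∈ s', γ μ j * D.tistb_om x s μ j ≤
      D.b * ((if μ ∈ s then (1 : ℝ) else 0) + (if μ ∈ t then (1 : ℝ) else 0) + D.om) := by
    intro μ hμ
    have hg := hγ μ j
    have e1 : (0 : ℝ) ≤ if μ ∈ s then (1 : ℝ) else 0 := by split_ifs <;> norm_num
    have e2 : (0 : ℝ) ≤ if μ ∈ t then (1 : ℝ) else 0 := by split_ifs <;> norm_num
    by_cases h0 : γ μ j = 0
    · rw [h0, zero_mul]
      positivity
    refine mul_le_mul hg.2 ?_ ?_ hb
    · unfold tistb_om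
      by_cases hm : μ ∈ s
      · rw [if_pos (Or.inl hm), if_pos hm]
        linarith
      · by_cases hl : lam D.ε (D.rad j) (yv D.π μ x j) < -(D.om ^ 3 / 6)
        · have : μ ∈ t := Finset.mem_filter.2 ⟨hμ, hm, h0, hl⟩
          rw [if_pos (Or.inr hl), if_pos this]
          linarith
        · rw [if_neg (not_or.2 ⟨hm, hl⟩)]
          linarith
    · unfold tistb_om
      split_ifs
      · norm_num
      · exact hom.le
  have c1 : ∑ μ ∈ s', (if μ ∈ s then (1 : ℝ) else 0) ≤ (2 * D.ρ + 1) ^ Fintype.card κ := by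
    refine le_trans ?_ (D.tistb_card D.ρ hρ x s hs)
    rw [Finset.sum_ite_mem, Finset.sum_const, nsmul_eq_mul, mul_one]
    exact_mod_cast Finset.card_le_card Finset.inter_subset_right
  have c2 : ∑ μ ∈ s', (if μ ∈ t then (1 : ℝ) else 0) ≤
      ∏ j' with D.lev (D.rep j') < D.lev (D.rep j), (2 * D.rad j' + 1) := by
    refine le_trans ?_ (D.deep_card x j t fun μ hμ => ?_)
    · rw [Finset.sum_ite_mem, Finset.sum_const, nsmul_eq_mul, mul_one]
      exact_mod_cast Finset.card_le_card Finset.inter_subset_right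
    · obtain ⟨a1, a2, a3, a4⟩ := Finset.mem_filter.1 hμ
      exact ⟨hact μ a1 a2 j a3, a4⟩
  have c3 : ∑ _μ ∈ s', D.om ≤ 1 := by
    rw [Finset.sum_const, nsmul_eq_mul]
    exact (mul_le_mul_of_nonneg_right
      (D.tistb_card D.R hR x s' fun μ hμ => D.tistb_inR (hs' μ hμ)) hom.le).trans D.hom1
  refine (Finset.sum_le_sum h1).trans ?_
  rw [← Finset.mul_sum, Finset.sum_add_distrib, Finset.sum_add_distrib]
  exact mul_le_mul_of_nonneg_left (by linarith) hb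

lemma tistb_mc_line (j : κ) (x v : Sp N) (t : ℂ) :
    mc D.π (cZ (x + t • v)) j = mc D.π (cZ x) j + t * mc D.π (cZ v) j := by
  have h := yv_line D.π 0 j x v t
  simp only [yv, Pi.sub_apply] at h
  linear_combination h

lemma tistb_mc_cont (j : κ) : Continuous fun y : Sp N => mc D.π (cZ y) j := by
  unfold mc cZ
  fun_prop

lemma tistb_H (x : Sp N) (Q : κ → Sp N → ℝ)
    (h : ∀ j, SubM (fun y => hub (D.rad j) (mc D.π (cZ y) j).re) x (Q j)) :
    SubM D.H x fun v => ∑ j, D.sl j * D.n (D.rep j) * Q j v :=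
  subM_sum univ (u := fun j y => D.sl j * D.n (D.rep j) * hub (D.rad j) (mc D.π (cZ y) j).re)
    (fun j _ => continuous_const.mul ((hub_cont _).comp
      (Complex.continuous_re.comp (D.tistb_mc_cont j))))
    fun j _ => (h j).smul (mul_nonneg (D.hsl0 j) (D.hn _).le)

lemma tistb_pole_cont (g : ℝ) (μ : κ → ℤ) (j : κ) : Continuous fun y : Sp N =>
    g * (D.C * D.n (D.rep j) * lam D.ε (D.rad j) (yv D.π μ y j)) :=
  continuous_const.mul (continuous_const.mul ((lam_cont D.hε _).comp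
    ((continuous_apply j).comp (yv_diff D.π μ).continuous)))

lemma tistb_pole (x : Sp N) (s : Finset (κ → ℤ)) {g : ℝ} (hg : 0 ≤ g) (μ : κ → ℤ) (j : κ) :
    SubM (fun y => g * (D.C * D.n (D.rep j) * lam D.ε (D.rad j) (yv D.π μ y j))) x fun v =>
      g * (D.C * D.n (D.rep j) *
        -(D.tistb_om x s μ j * ‖mc D.π (cZ v) j‖ ^ 2 / D.rad j ^ 2)) := by
  have hC : 0 < D.C := by linarith [D.hC]
  refine ((subM_lam D.hε (D.tistb_rad_pos j) (om := D.tistb_om x s μ j) ?_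
    (fun y => yv D.π μ y j) (fun v => mc D.π (cZ v) j) x (yv_line D.π μ j x) ?_).smul
    (mul_pos hC (D.hn _)).le).smul hg
  · unfold tistb_om
    split_ifs
    · norm_num
    · exact D.hom.le
  · unfold tistb_om
    split_ifs with h
    · exact Or.inl le_rfl
    · exact Or.inr (not_lt.1 (not_or.1 h).2)

/-- The negative contributions of the poles are compensated. -/
theorem sub_poles (x : Sp N) (s s' : Finset (κ → ℤ)) (γ : (κ → ℤ) → κ → ℝ)
    (hs' : ∀ μ ∈ s', inB D.π D.rad μ x) (hs : ∀ μ ∈ s, inB D.π (fun _ => D.ρ) μ x)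
    (hγ : ∀ μ j, 0 ≤ γ μ j ∧ γ μ j ≤ D.b)
    (hact : ∀ μ ∈ s', μ ∉ s → ∀ j, γ μ j ≠ 0 →
      D.A μ x = D.C * D.n (D.rep j) * lam D.ε (D.rad j) (yv D.π μ x j)) :
    SubM (fun y => D.H y + ∑ μ ∈ s', ∑ j,
      γ μ j * (D.C * D.n (D.rep j) * lam D.ε (D.rad j) (yv D.π μ y j))) x fun _ => 0 := by
  have hP := subM_sum s'
    (u := fun μ y => ∑ j, γ μ j * (D.C * D.n (D.rep j) * lam D.ε (D.rad j) (yv D.π μ y j)))
    (fun μ _ => continuous_finsetSum _ fun j _ => D.tistb_pole_cont _ μ j)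
    fun μ _ => subM_sum univ (fun j _ => D.tistb_pole_cont (γ μ j) μ j)
      fun j _ => D.tistb_pole x s (hγ μ j).1 μ j
  have hc : Continuous fun y => ∑ μ ∈ s', ∑ j,
      γ μ j * (D.C * D.n (D.rep j) * lam D.ε (D.rad j) (yv D.π μ y j)) :=
    continuous_finsetSum _ fun μ _ => continuous_finsetSum _ fun j _ => D.tistb_pole_cont _ μ j
  have hh := fun j => subM_hub (D.tistb_rad_pos j) (fun y => mc D.π (cZ y) j)
    (fun v => mc D.π (cZ v) j) x (D.tistb_mc_line j x)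
  rcases s'.eq_empty_or_nonempty with rfl | ⟨μ₀, hμ₀⟩
  · refine ((D.tistb_H x _ fun j => (hh j).1).add D.H_cont hc hP).mono fun v => ?_
    simp
  have hre : ∀ j, |(mc D.π (cZ x) j).re| ≤ D.rad j := fun j => by
    rw [← yv_re D.π μ₀ j x]
    exact (Complex.abs_re_le_norm _).trans (hs' μ₀ hμ₀ j)
  refine ((D.tistb_H x _ fun j => (hh j).2 (hre j)).add D.H_cont hc hP).mono fun v => ?_
  rw [Finset.sum_comm, ← Finset.sum_add_distrib]
  refine Finset.sum_nonneg fun j _ => ?_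
  have hr := D.tistb_rad_pos j
  have hn := D.hn (D.rep j)
  have hC : 0 < D.C := by linarith [D.hC]
  have h1 := D.tistb_count x s s' γ hs' hs hγ hact j
  have h2 := D.hsl j
  have h3 : 12 * D.C * ∑ μ ∈ s', γ μ j * D.tistb_om x s μ j ≤ D.sl j * D.rad j := by
    have := mul_le_mul_of_nonneg_left h1 (by positivity : 0 ≤ 12 * D.C)
    linarith
  have e : D.sl j * D.n (D.rep j) * (‖mc D.π (cZ v) j‖ ^ 2 / (12 * D.rad j)) +
      ∑ μ ∈ s', γ μ j * (D.C * D.n (D.rep j) *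
        -(D.tistb_om x s μ j * ‖mc D.π (cZ v) j‖ ^ 2 / D.rad j ^ 2)) =
      D.n (D.rep j) * ‖mc D.π (cZ v) j‖ ^ 2 / (12 * D.rad j ^ 2) *
        (D.sl j * D.rad j - 12 * D.C * ∑ μ ∈ s', γ μ j * D.tistb_om x s μ j) := by
    rw [mul_sub, Finset.mul_sum, Finset.mul_sum, sub_eq_add_neg, ← Finset.sum_neg_distrib]
    refine congrArg₂ (· + ·) ?_ (Finset.sum_congr rfl fun μ _ => ?_)
    · field_simp
    · field_simp
  rw [e]
  exact mul_nonneg (by positivity) (sub_nonneg.2 h3)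

end St

end Pool.Agent.Lib.MP_1f047c_nt.TI
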