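import Pool.Agent.Lib.MP_1f047c_nt.TIStB

open Finset MeasureTheory

namespace Pool.Agent.Lib.MP_1f047c_nt.TI

section Aux

variable {E : Type} [NormedAddCommGroup E] [NormedSpace ℂ E] {x : E} {u w : E → ℝ}

lemma tistc_add (h : Continuous u ∧ SubM u x fun _ => 0) (h' : Continuous w ∧ SubM w x fun _ => 0) :
    (Continuous fun y => u y + w y) ∧ SubM (fun y => u y + w y) x fun _ => 0 :=
  ⟨h.1.add h'.1, (SubM.add h.1 h'.1 h.2 h'.2).mono fun _ => (add_zero _).ge⟩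

lemma tistc_smul {c : ℝ} (hc : 0 ≤ c) (h : Continuous u ∧ SubM u x fun _ => 0) :
    (Continuous fun y => c * u y) ∧ SubM (fun y => c * u y) x fun _ => 0 :=
  ⟨continuous_const.mul h.1, (h.2.smul hc).mono fun _ => (mul_zero _).ge⟩

lemma tistc_sum {α : Type} (s : Finset α) {f : α → E → ℝ}
    (h : ∀ i ∈ s, Continuous (f i) ∧ SubM (f i) x fun _ => 0) :
    (Continuous fun y => ∑ i ∈ s, f i y) ∧ SubM (fun y => ∑ i ∈ s, f i y) x fun _ => 0 :=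
  ⟨continuous_finsetSum s fun i hi => (h i hi).1,
    (subM_sum s (fun i hi => (h i hi).1) fun i hi => (h i hi).2).mono fun _ => by simp⟩

end Aux

lemma tistc_single {α : Type} [DecidableEq α] (c i : α) :
    0 ≤ (Pi.single c 1 : α → ℝ) i ∧ (Pi.single c 1 : α → ℝ) i ≤ 1 := by
  rw [Pi.single_apply]
  split_ifs <;> norm_num

lemma tistc_sum_single {α : Type} [Fintype α] [DecidableEq α] (c : α) (f : α → ℝ) :
    ∑ i, (Pi.single c 1 : α → ℝ) i * f i = f c := by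
  simp [Pi.single_apply]

namespace St

variable {N : ℕ} {κ ι : Type} [Fintype κ] [Fintype ι] (D : St N κ ι)

lemma tistc_S (x : Sp N) (μ : κ → ℤ) : ∃ σ : ι → ℝ, (∀ c, 0 ≤ σ c ∧ σ c ≤ 1) ∧
    ∑ c, σ c * D.Sc c μ x = D.S₀ μ x ∧ ∀ y, ∑ c, σ c * D.Sc c μ y ≤ D.S₀ μ y := by
  classical
  rcases D.S₀_cases μ x with h | ⟨c, h⟩
  · exact ⟨0, fun _ => ⟨le_rfl, zero_le_one⟩, by simp [h], fun y => by
      simpa using (D.S₀_ge μ y).1⟩
  · refine ⟨Pi.single c 1, tistc_single c, ?_, fun y => ?_⟩ <;> rw [tistc_sum_single]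
    · exact h.symm
    · exact (D.S₀_ge μ y).2 c

lemma tistc_G (x : Sp N) (μ : κ → ℤ) : ∃ (e : ℝ) (σ : ι → ℝ) (g : κ → ℝ),
    (∀ c, 0 ≤ σ c ∧ σ c ≤ 1) ∧ (∀ j, 0 ≤ g j ∧ g j ≤ 1) ∧
    (∀ j, g j ≠ 0 → D.G₀ μ x = D.C * D.n (D.rep j) * lam D.ε (D.rad j) (yv D.π μ x j)) ∧
    e + ∑ c, σ c * D.Gc c μ x +
      ∑ j, g j * (D.C * D.n (D.rep j) * lam D.ε (D.rad j) (yv D.π μ x j)) = D.G₀ μ x ∧
    ∀ y, e + ∑ c, σ c * D.Gc c μ y +
      ∑ j, g j * (D.C * D.n (D.rep j) * lam D.ε (D.rad j) (yv D.π μ y j)) ≤ D.G₀ μ y := by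
  classical
  rcases D.G₀_cases μ x with ⟨j, h⟩ | ⟨c, h⟩
  · refine ⟨0, 0, Pi.single j 1, fun _ => ⟨le_rfl, zero_le_one⟩, tistc_single j, fun k hk => ?_,
      ?_, fun y => ?_⟩
    · obtain rfl : k = j := by
        by_contra hne
        exact hk (Pi.single_eq_of_ne hne _)
      exact h
    · rw [tistc_sum_single, h]
      simp
    · rw [tistc_sum_single]
      simpa using (D.G₀_ge μ y).1 j
  · refine ⟨-(D.C * (D.om ^ 3 / 6) * D.n (D.rc c) / 2), Pi.single c 1, 0, tistc_single c,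
      fun _ => ⟨le_rfl, zero_le_one⟩, fun k hk => absurd rfl hk, ?_, fun y => ?_⟩
    · rw [tistc_sum_single, h]
      simp only [Pi.zero_apply, zero_mul, sum_const_zero]
      ring
    · have h1 := (D.G₀_ge μ y).2 c
      rw [tistc_sum_single]
      simp only [Pi.zero_apply, zero_mul, sum_const_zero]
      linarith

lemma tistc_A (x : Sp N) (μ : κ → ℤ) : D.A μ x = D.G₀ μ x ∨
    (D.A μ x = D.s₀ μ x ∧ ∀ᶠ y in nhds x, D.s₀ μ y ≤ D.A μ y) := by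
  rcases le_or_gt (min (D.s₀ μ x) 0) (D.G₀ μ x) with h | h
  · exact Or.inl (max_eq_right h)
  · have h1 : ∀ᶠ y in nhds x, ∀ j, ‖yv D.π μ y j‖ < D.rad j :=
      Filter.eventually_all.2 fun j =>
        ((continuous_apply j).comp (yv_diff D.π μ).continuous).norm.continuousAt.eventually_lt
          continuousAt_const (D.G₀_neg (h.trans_le (min_le_right _ _)) j)
    have h2 : ∀ᶠ y in nhds x, D.s₀ μ y ≤ 0 := h1.mono fun y hy =>
      D.s₀_nonpos fun j => (hy j).le.trans (D.hrad j).2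
    refine Or.inr ⟨(max_eq_left h.le).trans (min_eq_left h2.self_of_nhds), h2.mono fun y hy => ?_⟩
    exact (min_eq_left hy).ge.trans (le_max_left _ _)

/-- Replacing the maxima attached to one period by their active branches. -/
theorem branch (x : Sp N) (μ : κ → ℤ) (hμ : inB D.π D.rad μ x) (t t' : ℝ) (ht : 0 ≤ t)
    (ht' : 0 ≤ t') (hb : t + t' ≤ D.b) :
    ∃ (α e : ℝ) (τ τ' : ι → ℝ) (γ : κ → ℝ) (f : Sp N → ℝ), 0 ≤ α ∧ α ≤ D.b ∧
      (∀ c, 0 ≤ τ c ∧ 0 ≤ τ' c ∧ τ c + τ' c ≤ D.b) ∧ (∀ j, 0 ≤ γ j ∧ γ j ≤ D.b) ∧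
      (t' = 0 → ∀ j, γ j ≠ 0 →
        D.A μ x = D.C * D.n (D.rep j) * lam D.ε (D.rad j) (yv D.π μ x j)) ∧
      (f = fun y => α * (D.a μ y - D.top y) + e +
        ∑ c, (τ c * D.Sc c μ y + τ' c * D.Gc c μ y) +
        ∑ j, γ j * (D.C * D.n (D.rep j) * lam D.ε (D.rad j) (yv D.π μ y j))) ∧
      f x = D.b * D.A μ x + (t * D.S μ x + t' * D.G μ x) ∧
      ∀ᶠ y in nhds x, f y ≤ D.b * D.A μ y + (t * D.S μ y + t' * D.G μ y) := by
  obtain ⟨σ, hσ, hS, hS'⟩ := D.tistc_S x μ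
  obtain ⟨e, σ', g, hσ', hg, hg', hG, hG'⟩ := D.tistc_G x μ
  have hp : 0 ≤ D.b - t - t' := by linarith
  have key : ∀ α u w : ℝ, 0 ≤ α → α ≤ D.b → 0 ≤ u → 0 ≤ w → u + w ≤ D.b →
      (t' = 0 → w ≠ 0 → D.A μ x = D.G₀ μ x) →
      α * (D.a μ x - D.top x - (D.C₁ + D.C₂)) + u * D.S₀ μ x + w * D.G₀ μ x =
        D.b * D.A μ x + (t * D.S μ x + t' * D.G μ x) →
      (∀ᶠ y in nhds x, α * (D.a μ y - D.top y - (D.C₁ + D.C₂)) + u * D.S₀ μ y + w * D.G₀ μ y ≤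
        D.b * D.A μ y + (t * D.S μ y + t' * D.G μ y)) →
      ∃ (α e : ℝ) (τ τ' : ι → ℝ) (γ : κ → ℝ) (f : Sp N → ℝ), 0 ≤ α ∧ α ≤ D.b ∧
      (∀ c, 0 ≤ τ c ∧ 0 ≤ τ' c ∧ τ c + τ' c ≤ D.b) ∧ (∀ j, 0 ≤ γ j ∧ γ j ≤ D.b) ∧
      (t' = 0 → ∀ j, γ j ≠ 0 →
        D.A μ x = D.C * D.n (D.rep j) * lam D.ε (D.rad j) (yv D.π μ x j)) ∧
      (f = fun y => α * (D.a μ y - D.top y) + e +
        ∑ c, (τ c * D.Sc c μ y + τ' c * D.Gc c μ y) +
        ∑ j, γ j * (D.C * D.n (D.rep j) * lam D.ε (D.rad j) (yv D.π μ y j))) ∧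
      f x = D.b * D.A μ x + (t * D.S μ x + t' * D.G μ x) ∧
      ∀ᶠ y in nhds x, f y ≤ D.b * D.A μ y + (t * D.S μ y + t' * D.G μ y) := by
    intro α u w hα hα' hu hw huw hact hx hy
    have e1 : ∀ y, α * (D.a μ y - D.top y) + (w * e - α * (D.C₁ + D.C₂)) +
        ∑ c, (u * σ c * D.Sc c μ y + w * σ' c * D.Gc c μ y) +
        ∑ j, w * g j * (D.C * D.n (D.rep j) * lam D.ε (D.rad j) (yv D.π μ y j)) =
        α * (D.a μ y - D.top y - (D.C₁ + D.C₂)) + u * ∑ c, σ c * D.Sc c μ y +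
          w * (e + ∑ c, σ' c * D.Gc c μ y +
            ∑ j, g j * (D.C * D.n (D.rep j) * lam D.ε (D.rad j) (yv D.π μ y j))) := fun y => by
      simp only [sum_add_distrib, mul_assoc u, mul_assoc w, ← mul_sum]
      ring
    refine ⟨α, w * e - α * (D.C₁ + D.C₂), fun c => u * σ c, fun c => w * σ' c, fun j => w * g j, _,
      hα, hα', fun c => ⟨mul_nonneg hu (hσ c).1, mul_nonneg hw (hσ' c).1, ?_⟩,
      fun j => ⟨mul_nonneg hw (hg j).1, ?_⟩, fun h0 j hj => ?_, rfl, ?_, hy.mono fun y h => ?_⟩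
    · linarith [mul_le_of_le_one_right hu (hσ c).2, mul_le_of_le_one_right hw (hσ' c).2]
    · linarith [mul_le_of_le_one_right hw (hg j).2]
    · exact (hact h0 (left_ne_zero_of_mul hj)).trans (hg' j (right_ne_zero_of_mul hj))
    · rw [e1, hS, hG, hx]
    · rw [e1]
      linarith [mul_le_mul_of_nonneg_left (hS' y) hu, mul_le_mul_of_nonneg_left (hG' y) hw]
  rcases D.tistc_A x μ with h | ⟨h, h'⟩
  · refine key 0 t (D.b - t) le_rfl (by linarith) ht (by linarith) (by linarith) (fun _ _ => h) ?_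
      (Filter.Eventually.of_forall fun y => ?_)
    · rw [S, G, h]
      ring
    · have h1 : D.G₀ μ y ≤ D.A μ y := le_max_right _ _
      rw [S, G]
      linarith [mul_le_mul_of_nonneg_left h1 hp]
  · refine key (D.b - t - t') (D.b - t') t' hp (by linarith) (by linarith) ht' (by linarith)
      (fun h0 h1 => absurd h0 h1) ?_ (h'.mono fun y hy => ?_)
    · rw [S, G, h, s₀]
      ring
    · have h1 := mul_le_mul_of_nonneg_left hy hp
      rw [s₀] at h1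
      rw [S, G]
      linarith

/-- The positivity property of the new package. -/
theorem psh (x : Sp N) (s : Finset (κ → ℤ)) (t t' : (κ → ℤ) → ℝ)
    (h : ∀ μ ∈ s, inB D.π (fun _ => D.ρ) μ x ∧ 0 ≤ t μ ∧ 0 ≤ t' μ ∧ t μ + t' μ ≤ D.b) :
    SubM (fun y => D.W y + D.K * D.top y + ∑ μ ∈ s, (t μ * D.S μ y + t' μ * D.G μ y)) x
      fun _ => 0 := by
  classical
  obtain ⟨s', hs', hcard, hloc⟩ := D.sum_local x
  have hb0 : 0 ≤ D.b := zero_le_one.trans D.hb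
  have hsub : s ⊆ s' := fun μ hμ => (hs' μ).2 fun j => ((h μ hμ).1 j).trans (D.hrad j).1
  have hbr : ∀ μ : κ → ℤ, ∃ (α e : ℝ) (τ τ' : ι → ℝ) (γ : κ → ℝ) (f : Sp N → ℝ),
      (∀ j, 0 ≤ γ j ∧ γ j ≤ D.b) ∧ (μ ∈ s' → 0 ≤ α ∧ α ≤ D.b ∧
      (∀ c, 0 ≤ τ c ∧ 0 ≤ τ' c ∧ τ c + τ' c ≤ D.b) ∧
      (μ ∉ s → ∀ j, γ j ≠ 0 →
        D.A μ x = D.C * D.n (D.rep j) * lam D.ε (D.rad j) (yv D.π μ x j)) ∧
      (∀ y, f y = α * (D.a μ y - D.top y) + e +
        ∑ c, (τ c * D.Sc c μ y + τ' c * D.Gc c μ y) +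
        ∑ j, γ j * (D.C * D.n (D.rep j) * lam D.ε (D.rad j) (yv D.π μ y j))) ∧
      f x = D.b * D.A μ x + (if μ ∈ s then t μ * D.S μ x + t' μ * D.G μ x else 0) ∧
      ∀ᶠ y in nhds x,
        f y ≤ D.b * D.A μ y + if μ ∈ s then t μ * D.S μ y + t' μ * D.G μ y else 0) := fun μ => by
    by_cases h1 : μ ∈ s'
    · by_cases h2 : μ ∈ s
      · obtain ⟨-, a1, a2, a3⟩ := h μ h2
        obtain ⟨α, e, τ, τ', γ, f, b1, b2, b3, b4, -, b6, b7, b8⟩ :=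
          D.branch x μ ((hs' μ).1 h1) (t μ) (t' μ) a1 a2 a3
        refine ⟨α, e, τ, τ', γ, f, b4, fun _ => ⟨b1, b2, b3, fun h3 => absurd h2 h3,
          congrFun b6, ?_, ?_⟩⟩
        · rwa [if_pos h2]
        · simpa only [if_pos h2] using b8
      · obtain ⟨α, e, τ, τ', γ, f, b1, b2, b3, b4, b5, b6, b7, b8⟩ :=
          D.branch x μ ((hs' μ).1 h1) 0 0 le_rfl le_rfl (by linarith)
        refine ⟨α, e, τ, τ', γ, f, b4, fun _ => ⟨b1, b2, b3, fun _ => b5 rfl, congrFun b6, ?_, ?_⟩⟩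
        · simpa only [if_neg h2, zero_mul, add_zero] using b7
        · simpa only [if_neg h2, zero_mul, add_zero] using b8
    · exact ⟨0, 0, 0, 0, 0, 0, fun _ => ⟨le_rfl, hb0⟩, fun h2 => absurd h2 h1⟩
  choose α e τ τ' γ f hγ hf using hbr
  have hα : 0 ≤ D.b * (2 * D.R + 1) ^ Fintype.card κ - ∑ μ ∈ s', α μ := by
    have h1 := sum_le_card_nsmul s' α D.b fun μ hμ => (hf μ hμ).2.1
    rw [nsmul_eq_mul] at h1
    linarith [mul_le_mul_of_nonneg_left hcard hb0]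
  have c1 : ∀ c, Continuous fun y => D.Wc c y + D.Kc c * D.top y +
      ∑ μ ∈ s', (τ μ c * D.Sc c μ y + τ' μ c * D.Gc c μ y) := fun c =>
    ((D.pk c).cW.add (continuous_const.mul D.ctop)).add (continuous_finsetSum _ fun μ _ =>
      (continuous_const.mul ((D.pk c).cS μ)).add (continuous_const.mul ((D.pk c).cG μ)))
  have c2 : Continuous fun y => D.H y + ∑ μ ∈ s', ∑ j,
      γ μ j * (D.C * D.n (D.rep j) * lam D.ε (D.rad j) (yv D.π μ y j)) :=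
    D.H_cont.add (continuous_finsetSum _ fun μ _ => continuous_finsetSum _ fun j _ =>
      continuous_const.mul (continuous_const.mul ((lam_cont D.hε _).comp
        ((continuous_apply j).comp (yv_diff D.π μ).continuous))))
  have hF := tistc_add (tistc_add (tistc_add (tistc_add
    (tistc_sum s' fun μ hμ => tistc_smul (hf μ hμ).1 ⟨D.ca μ, D.sa μ x⟩)
    (tistc_smul hα ⟨D.ctop, D.stop x⟩))
    ⟨continuous_const, subM_const (∑ μ ∈ s', e μ) x⟩)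
    (tistc_sum univ fun c _ => ⟨c1 c, (D.pk c).psh x s' (fun μ => τ μ c) (fun μ => τ' μ c)
      fun μ hμ => ⟨fun j => ((hs' μ).1 hμ j).trans (D.hrad j).2, (hf μ hμ).2.2.1 c⟩⟩))
    ⟨c2, D.sub_poles x s s' γ (fun μ hμ => (hs' μ).1 hμ) (fun μ hμ => (h μ hμ).1) hγ
      fun μ hμ => (hf μ hμ).2.2.2.1⟩
  have e1 : ∀ y, ∑ μ ∈ s', α μ * D.a μ y +
      (D.b * (2 * D.R + 1) ^ Fintype.card κ - ∑ μ ∈ s', α μ) * D.top y + ∑ μ ∈ s', e μ +
      ∑ c, (D.Wc c y + D.Kc c * D.top y +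
        ∑ μ ∈ s', (τ μ c * D.Sc c μ y + τ' μ c * D.Gc c μ y)) +
      (D.H y + ∑ μ ∈ s', ∑ j, γ μ j * (D.C * D.n (D.rep j) * lam D.ε (D.rad j) (yv D.π μ y j))) =
      ∑ μ ∈ s', f μ y + (∑ c, D.Wc c y + D.H y + D.K * D.top y) := fun y => by
    rw [sum_congr rfl fun μ hμ => (hf μ hμ).2.2.2.2.1 y, sum_add_distrib, sum_add_distrib,
      sum_add_distrib, sum_add_distrib, sum_add_distrib, sum_comm, ← sum_mul, K]
    simp only [mul_sub, sum_sub_distrib, ← sum_mul]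
    ring
  have e2 : ∀ y, ∑ᶠ μ, D.A μ y = ∑ μ ∈ s', D.A μ y →
      D.W y + D.K * D.top y + ∑ μ ∈ s, (t μ * D.S μ y + t' μ * D.G μ y) =
      ∑ μ ∈ s', (D.b * D.A μ y + if μ ∈ s then t μ * D.S μ y + t' μ * D.G μ y else 0) +
        (∑ c, D.Wc c y + D.H y + D.K * D.top y) := fun y hy => by
    rw [W, hy, sum_add_distrib (s := s'), ← mul_sum, sum_ite_mem, inter_eq_right.2 hsub]
    ring
  refine hF.2.minor hF.1 ((D.W_cont.add (continuous_const.mul D.ctop)).add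
    (continuous_finsetSum _ fun μ _ =>
      (continuous_const.mul ((D.S₀_cont μ).sub (D.A_cont μ))).add
        (continuous_const.mul ((D.G₀_cont μ).sub (D.A_cont μ))))) ?_ ?_
  · rw [e1, e2 x hloc.self_of_nhds, sum_congr rfl fun μ hμ => (hf μ hμ).2.2.2.2.2.1]
  · filter_upwards [hloc, (Filter.eventually_all_finset s').2 fun μ hμ => (hf μ hμ).2.2.2.2.2.2]
      with y h1 h2
    rw [e1, e2 y h1]
    exact add_le_add_left (sum_le_sum h2) _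

end St

end Pool.Agent.Lib.MP_1f047c_nt.TI
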