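import Pool.Agent.Lib.MP_1f047c_nt.TIStC
import Pool.Agent.Lib.MP_1f047c_nt.TICon
import Pool.Agent.Lib.MP_1f047c_nt.TIPk2

open Finset MeasureTheory

namespace Pool.Agent.Lib.MP_1f047c_nt.TI

/-- The inductive step, for families. -/
theorem step {N : ℕ} {κ : Type} [Fintype κ] (lev : Fin N → ℕ) (π : κ → Fin N → ℤ)
    (rep : κ → Fin N) (hπ : ∀ j i, π j i ≠ 0 → lev i = lev (rep j)) (C b ρ e₀ : ℝ) (hC : 1 ≤ C)
    (hb : 1 ≤ b) (hρ : 1 ≤ ρ) (he : 0 < e₀) :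
    ∃ R Θ₀ : ℝ, 1 ≤ R ∧ ∀ (ι : Type) [Fintype ι] (rc : ι → Fin N) (Kc : ι → ℝ) (e₁ Θ : ℝ)
      (z : Fin N → ℂ) (j₀ : κ) (top : ℝ → Sp N → ℝ) (a : ℝ → (κ → ℤ) → Sp N → ℝ)
      (ac : ι → ℝ → (κ → ℤ) → Sp N → ℝ) (C₂ Cs : ℝ), Fintype.card ι * e₁ ≤ e₀ / 2 → Θ₀ ≤ Θ →
      (∀ k, mc π z j₀ ≠ PL.wm k) → 0 ≤ C₂ → 0 ≤ Cs →
      (∀ ε, 0 < ε → Continuous (top ε) ∧ ∀ x, SubM (top ε) x fun _ => 0) →
      (∀ ε, 0 < ε → ∀ μ, Continuous (a ε μ) ∧ ∀ x, SubM (a ε μ) x fun _ => 0) →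
      (∀ ε, 0 < ε → ∀ μ x, inB π (fun _ => R) μ x → a ε μ x ≤ top ε x + C₂) →
      (∀ ε, 0 < ε → ∀ c μ x, inB π (fun _ => R) μ x → a ε μ x ≤ ac c ε μ x + C₂) →
      (∀ ε, 0 < ε → ∀ x μ μ' (l : ℕ), μ ≠ μ' → inB π (fun _ => R) μ x → inB π (fun _ => R) μ' x →
        (∀ j, lev (rep j) ≠ l → μ j = μ' j) →
        ¬ ((∀ c, lev (rc c) = l → a ε μ x ≤ ac c ε μ x - Cs) ∧
          ∀ c, lev (rc c) = l → a ε μ' x ≤ ac c ε μ' x - Cs)) →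
      (∀ c, Fam lev C π b R e₁ (Kc c) Θ z top (ac c)) →
      Fam lev C π b ρ e₀ (b * (2 * R + 1) ^ Fintype.card κ + ∑ c, Kc c) Θ z top a := by
  obtain ⟨R, om, Θ₀, rad, sl, hR, hom, hom1, hΘ, hrad, hsl0, hsl, hsl'⟩ :=
    consts π (fun j => lev (rep j)) C b ρ e₀ hC hb hρ he
  refine ⟨R, Θ₀, hR, ?_⟩
  intro ι _ rc Kc e₁ Θ z j₀ top a ac C₂ Cs he₁ hΘ' hz hC₂ hCs htop ha hat hac hsep hF
  obtain ⟨C₁, n₀, rz, hrz, hC₁, hF⟩ := Fam.common hF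
  obtain ⟨d, hd, hd'⟩ := wm_far hz
  obtain ⟨P, hP⟩ : ∃ P : ℝ, P = 1 + ∑ i, |(π j₀ i : ℝ)| := ⟨_, rfl⟩
  have hP0 : 0 < P := by rw [hP]; positivity
  have hη : 0 < C * (om ^ 3 / 6) := by positivity
  refine ⟨C₁ + C₂, max (max n₀ 1) ((2 * C₁ + C₂ + Cs) / (C * (om ^ 3 / 6))),
    min rz (d / 2 / P), by positivity, by positivity, fun n hn hadm => ?_⟩
  obtain ⟨Cn, hCn, hF⟩ := hF _ (min_le_left rz (d / 2 / P)) n
    (fun i => ((le_max_left _ _).trans (le_max_left _ _)).trans (hn i)) hadm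
  refine ⟨Fintype.card ι * Cn + ∑ j, sl j * n (rep j) * rad j +
    ∑ j, C * n (rep j) * (Real.log (1 + ∑ i, |(π j i : ℝ)|) + 1) +
    b * (2 * R + 1) ^ Fintype.card κ * (C * n (rep j₀) * |Real.log (d / 2 / rad j₀)|),
    fun ε hε hε1 => ?_⟩
  choose Wc Sc Gc hpk using hF ε hε hε1
  have hfar : ∀ x : Sp N, ‖cZ x - z‖ ≤ min rz (d / 2 / P) → ∀ μ, d / 2 ≤ ‖yv π μ x j₀‖ := by
    intro x hx μ
    have h1 : ‖mc π (cZ x) j₀ - mc π z j₀‖ ≤ d / 2 := by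
      have h2 : mc π (cZ x) j₀ - mc π z j₀ = ∑ i, (π j₀ i : ℂ) * (cZ x - z) i := by
        simp only [mc, Pi.sub_apply, mul_sub, sum_sub_distrib]
      rw [h2]
      refine (norm_sum_le_of_le _ (n := fun i => |(π j₀ i : ℝ)| * (d / 2 / P)) fun i _ => ?_).trans ?_
      · rw [norm_mul, Complex.norm_intCast]
        exact mul_le_mul_of_nonneg_left ((norm_le_pi_norm _ i).trans (hx.trans (min_le_right _ _)))
          (abs_nonneg _)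
      · rw [← sum_mul, mul_div_assoc', div_le_iff₀ hP0, hP]
        nlinarith
    have h3 := hd' (μ j₀)
    have h4 : yv π μ x j₀ = (mc π (cZ x) j₀ - mc π z j₀) + (mc π z j₀ - PL.wm (μ j₀)) := by
      simp only [yv, wv, Pi.sub_apply]; ring
    have h5 := norm_sub_le (yv π μ x j₀) (mc π (cZ x) j₀ - mc π z j₀)
    rw [h4, add_sub_cancel_left, ← h4] at h5
    linarith
  let D : St N κ ι :=
    { lev := lev, π := π, rep := rep, j₀ := j₀, rc := rc, n := n, z := z, C := C, ε := ε, b := b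
      ρ := ρ, R := R, e₀ := e₀, e₁ := e₁, om := om, Θ := Θ, C₁ := C₁, C₂ := C₂, Cs := Cs, Cn := Cn
      rz := min rz (d / 2 / P), d := d / 2, rad := rad, sl := sl, Kc := Kc, top := top ε
      a := a ε, ac := fun c => ac c ε, Wc := Wc, Sc := Sc, Gc := Gc
      hπ := hπ, hC := hC, hε := hε, hε1 := hε1, hb := hb, hρ := hρ, he₀ := he, he₁ := he₁
      hom := hom, hom1 := hom1, hΘ := hΘ Θ hΘ', hC₁ := hC₁, hC₂ := hC₂, hCs := hCs, hCn := hCn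
      hd := by positivity, hrad := hrad, hsl0 := hsl0, hsl := hsl, hsl' := hsl'
      hn := fun i => lt_of_lt_of_le one_pos (((le_max_right _ _).trans (le_max_left _ _)).trans (hn i))
      hn' := fun i => by
        have := (le_max_right _ _).trans (hn i)
        rwa [div_le_iff₀' hη] at this
      hadm := hadm, hd' := hfar, ctop := (htop ε hε).1, stop := (htop ε hε).2
      ca := fun μ => (ha ε hε μ).1, sa := fun μ => (ha ε hε μ).2, atop := hat ε hε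
      aac := hac ε hε, sep := hsep ε hε, pk := hpk }
  exact ⟨D.W, D.S, D.G, D.pk_of_psh D.psh⟩

end Pool.Agent.Lib.MP_1f047c_nt.TI
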