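import Pool.Agent.Lib.MP_1f047c_nt.TIDefs

open Finset MeasureTheory

namespace Pool.Agent.Lib.MP_1f047c_nt.TI

variable {E : Type} [NormedAddCommGroup E] [NormedSpace ℂ E]

lemma tisub_int {u : E → ℝ} (hu : Continuous u) (x v : E) (r : ℝ) :
    CircleIntegrable (fun t : ℂ => u (x + t • v)) 0 r :=
  ContinuousOn.circleIntegrable' (Continuous.continuousOn (by fun_prop))

lemma SubM.add {u w : E → ℝ} {x : E} {Q Q' : E → ℝ} (hu : Continuous u) (hw : Continuous w)
    (h : SubM u x Q) (h' : SubM w x Q') : SubM (fun y => u y + w y) x fun v => Q v + Q' v := by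
  intro v δ hδ
  filter_upwards [h v (δ / 2) (half_pos hδ), h' v (δ / 2) (half_pos hδ)] with r h1 h2
  rw [Real.circleAverage_fun_add (tisub_int hu x v r) (tisub_int hw x v r)]
  linarith

lemma SubM.smul {u : E → ℝ} {x : E} {Q : E → ℝ} (h : SubM u x Q) {c : ℝ} (hc : 0 ≤ c) :
    SubM (fun y => c * u y) x fun v => c * Q v := by
  intro v δ hδ
  filter_upwards [h v (δ / (c + 1)) (by positivity)] with r h1
  have e : Real.circleAverage (fun t : ℂ => c * u (x + t • v)) 0 r =
      c * Real.circleAverage (fun t : ℂ => u (x + t • v)) 0 r :=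
    Real.circleAverage_fun_smul (a := c) (f := fun t : ℂ => u (x + t • v))
  rw [e]
  have h2 := mul_le_mul_of_nonneg_left h1 hc
  have h3 : c * (δ / (c + 1)) ≤ δ := by
    rw [← mul_div_assoc, div_le_iff₀ (by positivity)]
    nlinarith
  have h4 := mul_le_mul_of_nonneg_right h3 (sq_nonneg r)
  linarith

lemma SubM.mono {u : E → ℝ} {x : E} {Q Q' : E → ℝ} (h : SubM u x Q) (hQ : ∀ v, Q' v ≤ Q v) :
    SubM u x Q' := by
  intro v δ hδ
  filter_upwards [h v δ hδ] with r h1
  have h2 := mul_le_mul_of_nonneg_right (hQ v) (sq_nonneg r)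
  linarith

lemma SubM.minor {f u : E → ℝ} {x : E} {Q : E → ℝ} (h : SubM f x Q) (hf : Continuous f)
    (hu : Continuous u) (h0 : f x = u x) (hle : ∀ᶠ y in nhds x, f y ≤ u y) : SubM u x Q := by
  intro v δ hδ
  have hc : Continuous fun t : ℂ => x + t • v := by fun_prop
  have h1 : ∀ᶠ t : ℂ in nhds 0, f (x + t • v) ≤ u (x + t • v) :=
    (hc.tendsto' 0 x (by simp)).eventually hle
  obtain ⟨ρ, hρ, h2⟩ := Metric.eventually_nhds_iff.1 h1
  filter_upwards [h v δ hδ, Ioo_mem_nhdsGT hρ] with r h3 h4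
  rw [← h0]
  refine h3.trans (Real.circleAverage_mono (tisub_int hf x v r) (tisub_int hu x v r)
    fun t ht => h2 ?_)
  rw [Metric.mem_sphere.1 ht, abs_of_pos h4.1]
  exact h4.2

lemma subM_const (c : ℝ) (x : E) : SubM (fun _ => c) x fun _ => 0 := by
  intro v δ hδ
  refine Filter.Eventually.of_forall fun r => ?_
  rw [Real.circleAverage_const]
  have := mul_nonneg hδ.le (sq_nonneg r)
  linarith

lemma subM_sum {ι : Type} (s : Finset ι) {u : ι → E → ℝ} {x : E} {Q : ι → E → ℝ}
    (hu : ∀ i ∈ s, Continuous (u i)) (h : ∀ i ∈ s, SubM (u i) x (Q i)) :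
    SubM (fun y => ∑ i ∈ s, u i y) x fun v => ∑ i ∈ s, Q i v := by
  classical
  induction s using Finset.induction_on with
  | empty => simpa using subM_const 0 x
  | insert a s ha ih =>
    simp only [Finset.sum_insert ha]
    exact SubM.add (hu a (mem_insert_self a s))
      (continuous_finsetSum s fun i hi => hu i (mem_insert_of_mem hi)) (h a (mem_insert_self a s))
      (ih (fun i hi => hu i (mem_insert_of_mem hi)) fun i hi => h i (mem_insert_of_mem hi))

end Pool.Agent.Lib.MP_1f047c_nt.TI
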