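import Pool.Agent.Lib.MP_1f047c_nt.TISub

open Finset MeasureTheory

namespace Pool.Agent.Lib.MP_1f047c_nt.TI

variable {E : Type} [NormedAddCommGroup E] [NormedSpace ℂ E]

lemma tisub2_ev {P : ℂ → Prop} (h : ∀ᶠ t in nhds (0 : ℂ), P t) :
    ∀ᶠ r in nhdsWithin (0 : ℝ) (Set.Ioi 0), ∀ t ∈ Metric.closedBall (0 : ℂ) |r|, P t := by
  obtain ⟨η, hη, hP⟩ := Metric.eventually_nhds_iff_ball.1 h
  have h1 : ∀ᶠ r in nhds (0 : ℝ), |r| < η := by
    have : Metric.ball (0 : ℝ) η ∈ nhds (0 : ℝ) := Metric.ball_mem_nhds _ hη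
    filter_upwards [this] with r hr
    simpa using hr
  filter_upwards [nhdsWithin_le_nhds h1] with r hr t ht
  exact hP t (Metric.closedBall_subset_ball hr ht)

lemma tisub2_mean (c : ℝ) (a b : ℂ) (r : ℝ) :
    Real.circleAverage (fun t : ℂ => c + (a * t).re + (b * t ^ 2).re) 0 r = c := by
  have hd : Differentiable ℂ fun t : ℂ => (c : ℂ) + a * t + b * t ^ 2 := by fun_prop
  have h1 := (hd.diffContOnCl (s := Metric.ball 0 |r|)).circleAverage
  have h2 := Complex.reCLM.circleAverage_comp_comm (c := 0) (R := r)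
    hd.continuous.continuousOn.circleIntegrable'
  rw [h1] at h2
  simpa [Function.comp_def] using h2

lemma tisub2_low {F : ℂ → ℝ} (hF : Continuous F) (c : ℝ) (a b : ℂ) (r : ℝ)
    (h : ∀ t : ℂ, ‖t‖ = |r| → c + (a * t).re + (b * t ^ 2).re ≤ F t) :
    c ≤ Real.circleAverage F 0 r := by
  rw [← tisub2_mean c a b r]
  refine Real.circleAverage_mono (Continuous.continuousOn (by fun_prop)).circleIntegrable'
    hF.continuousOn.circleIntegrable' fun t ht => h t (by simpa using ht)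

lemma tisub2_re_sq (w : ℂ) : w.re ^ 2 = (‖w‖ ^ 2 + (w ^ 2).re) / 2 := by
  rw [Complex.sq_norm, Complex.normSq_apply, pow_two w, Complex.mul_re]
  ring

/-- The logarithm of the norm of a holomorphic map. -/
lemma subM_log {ι : Type} (s : Finset ι) (g : ι → E → ℂ) (hg : ∀ i ∈ s, Differentiable ℂ (g i))
    {ε : ℝ} (hε : 0 < ε) (x : E) :
    SubM (fun y => 1 / 2 * Real.log (ε + ∑ i ∈ s, ‖g i y‖ ^ 2)) x fun _ => 0 := by
  intro v δ hδ
  have hl : Differentiable ℂ fun t : ℂ => x + t • v := by fun_prop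
  have hgi : ∀ i ∈ s, Differentiable ℂ fun t : ℂ => g i (x + t • v) :=
    fun i hi => (hg i hi).comp hl
  set A : E → ℝ := fun y => ε + ∑ i ∈ s, ‖g i y‖ ^ 2 with hA
  have hApos : ∀ y, 0 < A y := fun y =>
    add_pos_of_pos_of_nonneg hε (sum_nonneg fun i _ => sq_nonneg _)
  set h : ℂ → ℂ := fun t => (ε : ℂ) + ∑ i ∈ s, g i (x + t • v) * (starRingEnd ℂ) (g i x) with hh
  have hd : Differentiable ℂ h :=
    (differentiable_const _).add (Differentiable.fun_sum fun i hi => (hgi i hi).mul_const _)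
  have h0 : h 0 = (A x : ℂ) := by
    simp only [hh, hA, zero_smul, add_zero, Complex.mul_conj, Complex.normSq_eq_norm_sq]
    push_cast
    rfl
  have hne : ∀ᶠ t in nhds (0 : ℂ), h t ≠ 0 :=
    hd.continuous.continuousAt.eventually_ne (by rw [h0]; exact_mod_cast (hApos x).ne')
  have hcs : ∀ t, ‖h t‖ ^ 2 ≤ A (x + t • v) * A x := by
    intro t
    have e1 : ‖h t‖ ≤ ε + ∑ i ∈ s, ‖g i (x + t • v)‖ * ‖g i x‖ := by
      refine (norm_add_le _ _).trans (add_le_add ?_ ((norm_sum_le _ _).trans ?_))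
      · rw [Complex.norm_real, Real.norm_eq_abs, abs_of_pos hε]
      · exact sum_le_sum fun i _ => by rw [norm_mul, Complex.norm_conj]
    have e2 := sum_mul_sq_le_sq_mul_sq s (fun i => ‖g i (x + t • v)‖) fun i => ‖g i x‖
    have e3 : 2 * ∑ i ∈ s, ‖g i (x + t • v)‖ * ‖g i x‖ ≤
        ∑ i ∈ s, ‖g i (x + t • v)‖ ^ 2 + ∑ i ∈ s, ‖g i x‖ ^ 2 := by
      rw [mul_sum, ← sum_add_distrib]
      exact sum_le_sum fun i _ => by nlinarith [sq_nonneg (‖g i (x + t • v)‖ - ‖g i x‖)]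
    have e4 := pow_le_pow_left₀ (norm_nonneg _) e1 2
    simp only [hA]
    nlinarith [mul_le_mul_of_nonneg_left e3 hε.le]
  have hAc : Continuous fun t : ℂ => A (x + t • v) :=
    continuous_const.add (continuous_finsetSum _ fun i hi => ((hgi i hi).continuous.norm).pow 2)
  have hF : Continuous fun t : ℂ => 1 / 2 * Real.log (A (x + t • v)) :=
    continuous_const.mul (hAc.log fun t => (hApos _).ne')
  filter_upwards [tisub2_ev hne] with r hr
  have h1 := AnalyticOnNhd.circleAverage_log_norm_of_ne_zero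
    (fun u _ => hd.analyticAt u) hr
  have hi : CircleIntegrable (fun t => Real.log ‖h t‖) 0 r :=
    ContinuousOn.circleIntegrable' (hd.continuous.norm.continuousOn.log fun t ht =>
      norm_ne_zero_iff.2 (hr t (Metric.sphere_subset_closedBall ht)))
  have hc : CircleIntegrable (fun _ : ℂ => 1 / 2 * Real.log (A x)) 0 r :=
    continuousOn_const.circleIntegrable'
  have h2 : Real.circleAverage (fun t => Real.log ‖h t‖) 0 r ≤ Real.circleAverage
      (fun t : ℂ => 1 / 2 * Real.log (A (x + t • v)) + 1 / 2 * Real.log (A x)) 0 r := by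
    refine Real.circleAverage_mono hi (hF.add continuous_const).continuousOn.circleIntegrable'
      fun t ht => ?_
    have hp : 0 < ‖h t‖ := norm_pos_iff.2 (hr t (Metric.sphere_subset_closedBall ht))
    have := Real.log_le_log (pow_pos hp 2) (hcs t)
    rw [Real.log_pow, Real.log_mul (hApos _).ne' (hApos _).ne'] at this
    push_cast at this
    linarith
  rw [Real.circleAverage_fun_add hF.continuousOn.circleIntegrable' hc, Real.circleAverage_const,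
    h1, h0, Complex.norm_real, Real.norm_eq_abs, abs_of_pos (hApos x)] at h2
  have h3 : 0 ≤ δ * r ^ 2 := by positivity
  change 1 / 2 * Real.log (A x) + (0 - δ) * r ^ 2 ≤
    Real.circleAverage (fun t : ℂ => 1 / 2 * Real.log (A (x + t • v))) 0 r
  linarith

/-- Functions of the squared modulus of an affine functional. -/
lemma subM_normSq (f : ℝ → ℝ) (hf : ContinuousOn f (Set.Ici 0)) (Y β : E → ℂ) (x : E)
    (hY : ∀ (v : E) (t : ℂ), Y (x + t • v) = Y x + t * β v) (f₁ f₂ : ℝ)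
    (hT : ∀ δ : ℝ, 0 < δ → ∀ᶠ τ in nhds (‖Y x‖ ^ 2),
      f (‖Y x‖ ^ 2) + f₁ * (τ - ‖Y x‖ ^ 2) + (f₂ / 2 - δ) * (τ - ‖Y x‖ ^ 2) ^ 2 ≤ f τ) :
    SubM (fun y => f (‖Y y‖ ^ 2)) x fun v => (f₁ + f₂ * ‖Y x‖ ^ 2) * ‖β v‖ ^ 2 := by
  intro v δ hδ
  set y := Y x
  set b := β v
  set δ' : ℝ := δ / (4 * (‖y‖ ^ 2 * ‖b‖ ^ 2 + 1)) with hδ'
  have hδp : 0 < δ' := by positivity
  have hδe : δ' * (4 * (‖y‖ ^ 2 * ‖b‖ ^ 2 + 1)) = δ := by rw [hδ']; field_simp
  set k : ℝ := f₂ / 2 - δ' with hk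
  have hc : Continuous fun t : ℂ => ‖y + t * b‖ ^ 2 := by fun_prop
  have ht : Filter.Tendsto (fun t : ℂ => ‖y + t * b‖ ^ 2) (nhds 0) (nhds (‖y‖ ^ 2)) := by
    simpa using hc.tendsto 0
  have hs : ∀ᶠ r in nhds (0 : ℝ), -(δ / 2) < k * ‖b‖ ^ 4 * r ^ 2 := by
    have : Filter.Tendsto (fun r : ℝ => k * ‖b‖ ^ 4 * r ^ 2) (nhds 0) (nhds 0) := by
      simpa using (show Continuous fun r : ℝ => k * ‖b‖ ^ 4 * r ^ 2 by fun_prop).tendsto 0
    exact this.eventually (lt_mem_nhds (by linarith))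
  filter_upwards [tisub2_ev (ht.eventually (hT δ' hδp)), nhdsWithin_le_nhds hs] with r hr hr'
  simp only [hY]
  have hF : Continuous fun t : ℂ => f (‖y + t * b‖ ^ 2) :=
    hf.comp_continuous hc fun t => Set.mem_Ici.2 (sq_nonneg _)
  set w : ℂ := (starRingEnd ℂ) y * b with hw
  set σ : ℝ := r ^ 2 * ‖b‖ ^ 2 with hσ
  refine le_trans ?_ (tisub2_low hF
    (f (‖y‖ ^ 2) + f₁ * σ + k * (2 * (‖y‖ ^ 2 * σ) + σ ^ 2))
    (((2 * f₁ + 4 * k * σ : ℝ) : ℂ) * w) (((2 * k : ℝ) : ℂ) * w ^ 2) r fun t htr => ?_)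
  · have e : k * σ ^ 2 = k * ‖b‖ ^ 4 * r ^ 2 * r ^ 2 := by rw [hσ]; ring
    have h1 := mul_le_mul_of_nonneg_right hr'.le (sq_nonneg r)
    have h2 : 0 ≤ δ' * r ^ 2 := by positivity
    have h3 : δ * r ^ 2 = δ' * (4 * (‖y‖ ^ 2 * ‖b‖ ^ 2 + 1)) * r ^ 2 := by rw [hδe]
    have h4 : k * (2 * (‖y‖ ^ 2 * σ)) = f₂ * ‖y‖ ^ 2 * ‖b‖ ^ 2 * r ^ 2 -
        2 * (δ' * (‖y‖ ^ 2 * ‖b‖ ^ 2) * r ^ 2) := by rw [hk, hσ]; ring
    nlinarith
  · refine le_trans (le_of_eq ?_) (hr t (by simp [htr]))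
    have ht2 : ‖t‖ ^ 2 = r ^ 2 := by rw [htr, sq_abs]
    have e1 : ‖y + t * b‖ ^ 2 - ‖y‖ ^ 2 = 2 * (w * t).re + σ := by
      rw [hσ, ← ht2, ← mul_pow, ← norm_mul, Complex.sq_norm, Complex.sq_norm, Complex.sq_norm,
        Complex.normSq_add, hw]
      simp only [Complex.mul_re, Complex.mul_im, Complex.conj_re, Complex.conj_im]
      ring
    have e2 : (w * t).re ^ 2 = (‖y‖ ^ 2 * σ + (w ^ 2 * t ^ 2).re) / 2 := by
      rw [tisub2_re_sq, ← mul_pow w t, norm_mul, hw, norm_mul, Complex.norm_conj, mul_pow,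
        mul_pow, ht2, hσ]
      ring
    rw [e1, mul_assoc _ w t, mul_assoc _ (w ^ 2), Complex.re_ofReal_mul, Complex.re_ofReal_mul]
    linear_combination (-4 * k) * e2

/-- Functions of the real part of an affine functional. -/
lemma subM_re (f : ℝ → ℝ) (hf : Continuous f) (Y β : E → ℂ) (x : E)
    (hY : ∀ (v : E) (t : ℂ), Y (x + t • v) = Y x + t * β v) (f₁ f₂ : ℝ)
    (hT : ∀ δ : ℝ, 0 < δ → ∀ᶠ τ in nhds (Y x).re,
      f (Y x).re + f₁ * (τ - (Y x).re) + (f₂ / 2 - δ) * (τ - (Y x).re) ^ 2 ≤ f τ) :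
    SubM (fun y => f (Y y).re) x fun v => f₂ / 4 * ‖β v‖ ^ 2 := by
  intro v δ hδ
  set y := Y x
  set b := β v
  set δ' : ℝ := δ / (‖b‖ ^ 2 + 1) with hδ'
  have hδp : 0 < δ' := by positivity
  have hδe : δ' * (‖b‖ ^ 2 + 1) = δ := by rw [hδ']; field_simp
  set k : ℝ := f₂ / 2 - δ' with hk
  have hc : Continuous fun t : ℂ => (y + t * b).re := by fun_prop
  have ht : Filter.Tendsto (fun t : ℂ => (y + t * b).re) (nhds 0) (nhds y.re) := by
    simpa using hc.tendsto 0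
  filter_upwards [tisub2_ev (ht.eventually (hT δ' hδp))] with r hr
  simp only [hY]
  refine le_trans ?_ (tisub2_low (hf.comp hc)
    (f y.re + k * (r ^ 2 * ‖b‖ ^ 2) / 2)
    ((f₁ : ℂ) * b) (((k / 2 : ℝ) : ℂ) * b ^ 2) r fun t htr => ?_)
  · have h2 : 0 ≤ δ' * r ^ 2 := by positivity
    have h3 : δ * r ^ 2 = δ' * (‖b‖ ^ 2 + 1) * r ^ 2 := by rw [hδe]
    have h5 : 0 ≤ δ' * ‖b‖ ^ 2 * r ^ 2 := by positivity
    rw [hk]
    nlinarith
  · refine le_trans (le_of_eq ?_) (hr t (by simp [htr]))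
    have ht2 : ‖t‖ ^ 2 = r ^ 2 := by rw [htr, sq_abs]
    have e1 : (y + t * b).re - y.re = (b * t).re := by
      rw [Complex.add_re, mul_comm t b]; ring
    have e2 : (b * t).re ^ 2 = (r ^ 2 * ‖b‖ ^ 2 + (b ^ 2 * t ^ 2).re) / 2 := by
      rw [tisub2_re_sq, ← mul_pow b t, norm_mul, mul_pow, ht2]
      ring
    rw [e1, mul_assoc _ b t, mul_assoc _ (b ^ 2), Complex.re_ofReal_mul, Complex.re_ofReal_mul]
    linear_combination (-k) * e2

end Pool.Agent.Lib.MP_1f047c_nt.TI
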