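import Pool.Agent.Lib.MP_1f047c_nt.TIStep
import Pool.Agent.Lib.MP_1f047c_nt.TIChild

open Finset MeasureTheory

namespace Pool.Agent.Lib.MP_1f047c_nt.TI

lemma tiweight_ind {N : ℕ} {B B' : ℕ} {z : Fin N → ℂ} (h : Ind B z) (hB : B' ≤ B) : Ind B' z :=
  fun l hl hb k => h l hl (fun i => (hb i).trans (by exact_mod_cast hB)) k

lemma tiweight_row {N : ℕ} {κ : Type} {π : κ → Fin N → ℤ} {σ : (κ → ℂ) →ₗ[ℂ] (Fin N → ℂ)}
    {𝒯 𝒢 : Finset (MP N)} (h : Node π σ 𝒯 𝒢) (hb : ¬ sp 𝒯 ≤ sp 𝒢) : ∃ j, π j ≠ 0 := by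
  by_contra hne
  have h0 : ∀ j, π j = 0 := fun j => by
    by_contra hj
    exact hne ⟨j, hj⟩
  apply hb
  obtain ⟨F, hF, hg⟩ := h.gen
  have h1 : ∀ y, ∀ g ∈ 𝒢, tr y g ∈ sp 𝒢 := by
    intro y g hg
    have h2 := h.inv y g hg
    have h3 : mc π y = 0 := by
      funext j
      simp [mc, h0 j]
    rwa [h3, map_zero, sub_zero] at h2
  have h4 : Submodule.span ℂ (Set.range fun y => tr y F) ≤ sp 𝒢 := by
    rw [Submodule.span_le]
    rintro _ ⟨y, rfl⟩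
    exact tr_sp (h1 y) F hF
  rw [Submodule.span_le]
  intro g hg'
  exact h4 (hg g hg')

theorem wl_zero {N : ℕ} (hN : 0 < N) (lev : Fin N → ℕ) {C : ℝ} (hC : 1 ≤ C) : WL N lev C 0 := by
  intro κ _ _ π rep _ b ρ e₀ _ _ he
  refine ⟨0, 0, 0, le_rfl, fun 𝒯 𝒢 σ z hnode hrk _ => ?_⟩
  have hle : sp 𝒢 ≤ sp 𝒯 := by
    rw [Submodule.span_le]
    exact fun g hg => hnode.sub g hg
  have heq : sp 𝒢 = sp 𝒯 := Submodule.eq_of_le_of_finrank_le hle (by omega)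
  exact fam_base hN lev (by linarith) hnode heq.ge b ρ he.le le_rfl 0 z

/-- The vectors which index the children. -/
noncomputable def tiweightV {N : ℕ} {κ : Type} [Fintype κ] [DecidableEq κ] (lev : Fin N → ℕ)
    (rep : κ → Fin N) (R : ℝ) : Finset (κ → ℤ) :=
  (Fintype.piFinset fun _ => Finset.Icc (-⌈R⌉) ⌈R⌉).filter fun v =>
    (∃ j, v j ≠ 0) ∧ ∀ j j', v j ≠ 0 → v j' ≠ 0 → lev (rep j) = lev (rep j')

lemma tiweight_mem {N : ℕ} {κ : Type} [Fintype κ] [DecidableEq κ] (lev : Fin N → ℕ)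
    (rep : κ → Fin N) (π : κ → Fin N → ℤ) {R : ℝ} {x : Sp N} {μ μ' : κ → ℤ} {l : ℕ}
    (hne : μ ≠ μ') (h1 : inB π (fun _ => R) μ x) (h2 : inB π (fun _ => R) μ' x)
    (h3 : ∀ j, lev (rep j) ≠ l → μ j = μ' j) :
    μ' - μ ∈ tiweightV lev rep R ∧ ∀ j, (μ' - μ) j ≠ 0 → lev (rep j) = l := by
  have h4 : ∀ j, (μ' - μ) j ≠ 0 → lev (rep j) = l := by
    intro j hj
    by_contra hl
    exact hj (by simp [h3 j hl])
  refine ⟨?_, h4⟩
  rw [tiweightV, Finset.mem_filter, Fintype.mem_piFinset]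
  refine ⟨fun j => ?_, ?_, fun j j' hj hj' => (h4 j hj).trans (h4 j' hj').symm⟩
  · have h5 : Real.pi * |((μ' j : ℤ) : ℝ) - μ j| ≤ R :=
      wm_close (y := mc π (cZ x) j) (h2 j) (h1 j)
    have h6 : |((μ' j : ℤ) : ℝ) - μ j| ≤ R := by
      have h7 := Real.pi_gt_three
      have h8 := abs_nonneg (((μ' j : ℤ) : ℝ) - μ j)
      nlinarith
    have h9 : ((|μ' j - μ j| : ℤ) : ℝ) ≤ (⌈R⌉ : ℤ) := by
      push_cast
      exact h6.trans (Int.le_ceil R)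
    have h10 : |μ' j - μ j| ≤ ⌈R⌉ := by exact_mod_cast h9
    rw [Finset.mem_Icc, Pi.sub_apply]
    exact abs_le.1 h10
  · by_contra hc
    apply hne
    funext j
    by_contra hj
    exact hc ⟨j, by
      rw [Pi.sub_apply]
      exact sub_ne_zero.2 (Ne.symm hj)⟩

theorem wl_succ {N : ℕ} (hN : 0 < N) (lev : Fin N → ℕ) {C : ℝ} (hC : 1 ≤ C) {r : ℕ}
    (h : WL N lev C r) : WL N lev C (r + 1) := by
  intro κ _ _ π rep hπ b ρ e₀ hb hρ he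
  obtain ⟨R, Θ₀, hR, hstep⟩ := step lev π rep hπ C b ρ e₀ hC hb hρ he
  have hV : ∀ c : tiweightV lev rep R, (∃ j, c.1 j ≠ 0) ∧
      ∀ j j', c.1 j ≠ 0 → c.1 j' ≠ 0 → lev (rep j) = lev (rep j') :=
    fun c => (Finset.mem_filter.1 c.2).2
  choose j₀ hj₀ using fun c => (hV c).1
  obtain ⟨e₁, he₁⟩ : ∃ e₁ : ℝ, e₁ = e₀ / (2 * Fintype.card (tiweightV lev rep R) + 2) := ⟨_, rfl⟩
  have he₁0 : 0 < e₁ := by rw [he₁]; positivity
  have he₁1 : Fintype.card (tiweightV lev rep R) * e₁ ≤ e₀ / 2 := by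
    rw [he₁, mul_div_assoc', div_le_div_iff₀ (by positivity) (by positivity)]
    nlinarith
  choose Kc Θc Bc hKc hch using fun c : tiweightV lev rep R =>
    child h π rep hπ c.1 (j₀ c) (hj₀ c) (fun j hj => (hV c).2 j (j₀ c) hj (hj₀ c)) b R e₁ hb hR he₁0
  have hK : 0 ≤ b * (2 * R + 1) ^ Fintype.card κ + ∑ c, Kc c :=
    add_nonneg (by positivity) (Finset.sum_nonneg fun c _ => hKc c)
  refine ⟨b * (2 * R + 1) ^ Fintype.card κ + ∑ c, Kc c, |Θ₀| + ∑ c, |Θc c|,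
    ∑ c, Bc c + ∑ j, ∑ i, (π j i).natAbs, hK, fun 𝒯 𝒢 σ z hnode hrk hind => ?_⟩
  by_cases hbase : sp 𝒯 ≤ sp 𝒢
  · exact fam_base hN lev (by linarith) hnode hbase b ρ he.le hK _ z
  obtain ⟨j₁, hj₁⟩ := tiweight_row hnode hbase
  have hz : ∀ k, mc π z j₁ ≠ PL.wm k := by
    intro k
    refine hind (π j₁) hj₁ (fun i => ?_) k
    have h1 : (π j₁ i).natAbs ≤ ∑ i, (π j₁ i).natAbs :=
      Finset.single_le_sum (f := fun i => (π j₁ i).natAbs) (fun _ _ => Nat.zero_le _)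
        (Finset.mem_univ i)
    have h2 : ∑ i, (π j₁ i).natAbs ≤ ∑ j, ∑ i, (π j i).natAbs :=
      Finset.single_le_sum (f := fun j => ∑ i, (π j i).natAbs) (fun _ _ => Nat.zero_le _)
        (Finset.mem_univ j₁)
    rw [Int.abs_eq_natAbs]
    exact_mod_cast (h1.trans h2).trans (Nat.le_add_left _ _)
  have hBc : ∀ c, Ind (Bc c) z := fun c => tiweight_ind hind
    ((Finset.single_le_sum (f := Bc) (fun _ _ => Nat.zero_le _) (Finset.mem_univ c)).trans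
      (Nat.le_add_right _ _))
  choose ac Cc hCc hfam hle hge using fun c => hch c 𝒯 𝒢 σ z hnode hrk (hBc c)
  obtain ⟨Ct, hCt, htop⟩ := aF_le_top hnode R
  have hS : 0 ≤ ∑ c, Cc c := Finset.sum_nonneg fun c _ => hCc c
  have hCle : ∀ c, Cc c ≤ ∑ c, Cc c := fun c =>
    Finset.single_le_sum (f := Cc) (fun c _ => hCc c) (Finset.mem_univ c)
  have hΘS : 0 ≤ ∑ c, |Θc c| := Finset.sum_nonneg fun c _ => abs_nonneg _
  refine hstep (tiweightV lev rep R) (fun c => rep (j₀ c)) Kc e₁ _ z j₁ (topF 𝒯) (aF π σ 𝒢) ac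
    (Ct + ∑ c, Cc c) (∑ c, Cc c + 1) he₁1 (by linarith [le_abs_self Θ₀]) hz (by positivity)
    (by positivity) (fun ε hε => topF_ok 𝒯 ε hε) (fun ε hε μ => aF_ok π σ 𝒢 ε hε μ)
    (fun ε hε μ x hx => by linarith [htop ε hε μ x hx])
    (fun ε hε c μ x hx => by linarith [hle c ε hε μ x hx, hCle c]) ?_ fun c => ?_
  · rintro ε hε x μ μ' l hne h1 h2 h3 ⟨h4, h5⟩
    obtain ⟨hm, hl⟩ := tiweight_mem lev rep π hne h1 h2 h3
    obtain ⟨hm', hl'⟩ := tiweight_mem lev rep π hne.symm h2 h1 fun j hj => (h3 j hj).symm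
    have h6 := h4 ⟨_, hm⟩ (hl _ (hj₀ ⟨_, hm⟩))
    have h7 := h5 ⟨_, hm'⟩ (hl' _ (hj₀ ⟨_, hm'⟩))
    have h8 := hge ⟨_, hm⟩ ε hε μ x h1
    have h9 := hge ⟨_, hm'⟩ ε hε μ' x h2
    have h10 := hCle ⟨_, hm⟩
    have h11 := hCle ⟨_, hm'⟩
    simp only [add_sub_cancel] at h8 h9
    rcases le_total (aF π σ 𝒢 ε μ x) (aF π σ 𝒢 ε μ' x) with h12 | h12
    · rw [max_eq_left h12] at h9
      linarith
    · rw [max_eq_left h12] at h8
      linarith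
  · refine (hfam c).mono le_rfl ?_ fun ε hε => topF_ok 𝒯 ε hε
    have h1 : |Θc c| ≤ ∑ c, |Θc c| :=
      Finset.single_le_sum (f := fun c => |Θc c|) (fun c _ => abs_nonneg _) (Finset.mem_univ c)
    linarith [le_abs_self (Θc c), abs_nonneg Θ₀]

theorem wl_all {N : ℕ} (hN : 0 < N) (lev : Fin N → ℕ) {C : ℝ} (hC : 1 ≤ C) (r : ℕ) :
    WL N lev C r := by
  induction r with
  | zero => exact wl_zero hN lev hC
  | succ r ih => exact wl_succ hN lev hC ih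

end Pool.Agent.Lib.MP_1f047c_nt.TI
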