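import Pool.Agent.Lib.MP_1f047c_nt.TIApp
import Pool.Agent.Lib.MP_1f047c_nt.TIADefs

open Finset MeasureTheory

namespace Pool.Agent.Lib.MP_1f047c_nt.TI

/-- The exponent vector attached to a column. -/
def tizero_ex {N : ℕ} {n : Fin N → ℕ} {E : ℕ} (b : Bx n E) : Fin N ⊕ Fin N → ℕ :=
  Sum.elim (fun j => ((b j).2 : ℕ)) fun j => ((b j).1 : ℕ)

lemma tizero_sum {N : ℕ} (n : Fin N → ℕ) (E : ℕ) (g : (Fin N ⊕ Fin N → ℕ) → ℂ) :
    ∑ p ∈ Fintype.piFinset fun j => range (Sum.elim (fun _ => E + 1) (fun i => n i + 1) j), g p =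
      ∑ b : Bx n E, g (tizero_ex b) := by
  symm
  refine Finset.sum_bij (fun b _ => tizero_ex b) ?_ ?_ ?_ ?_
  · intro b _
    rw [Fintype.mem_piFinset]
    rintro (j | j)
    · exact mem_range.2 (b j).2.2
    · exact mem_range.2 (b j).1.2
  · intro b _ b' _ h
    funext j
    have h1 := congrFun h (Sum.inl j)
    have h2 := congrFun h (Sum.inr j)
    exact Prod.ext (Fin.ext h2) (Fin.ext h1)
  · intro p hp
    rw [Fintype.mem_piFinset] at hp
    refine ⟨fun j => (⟨p (Sum.inr j), mem_range.1 (hp (Sum.inr j))⟩,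
      ⟨p (Sum.inl j), mem_range.1 (hp (Sum.inl j))⟩), mem_univ _, ?_⟩
    funext j
    rcases j with j | j <;> rfl
  · intro b _
    rfl

lemma tizero_small {ρ s₀ K : ℝ} (hρ : 0 < ρ) (hs₀ : 0 < s₀)
    (h : ∀ s : ℝ, 0 < s → s ≤ s₀ → ρ ≤ K * √s) : False := by
  have hc : Filter.Tendsto (fun s : ℝ => K * √s) (nhdsWithin 0 (Set.Ioi 0)) (nhds (K * √0)) :=
    ((continuous_const.mul Real.continuous_sqrt).tendsto 0).mono_left nhdsWithin_le_nhds
  rw [Real.sqrt_zero, mul_zero] at hc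
  have h1 : ρ ≤ 0 := by
    refine ge_of_tendsto hc ?_
    filter_upwards [Ioc_mem_nhdsGT hs₀] with s hs
    exact h s hs.1 hs.2
  exact absurd h1 (not_le.2 hρ)

lemma tizero_zero (n : Fin 0 → ℕ) (ν : Fin 0 → ℕ) (E : ℕ) (F : MvPolynomial (Fin 0) ℂ)
    (hF : F ≠ 0) (α : Fin 0 → ℂ) : ZP F α ν n E := by
  intro hmem
  have he : {v | ∃ (c : Fin 0 → ℂ) (D : Fin 0 → Polynomial ℂ),
      MvPolynomial.eval c F = 0 ∧ (∀ j, (D j).degree < ν j) ∧ v = rowv n E c D} = ∅ := by
    ext v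
    simp only [Set.mem_ofPred_eq, Set.mem_empty_iff_false, iff_false]
    rintro ⟨c, D, hc, -, -⟩
    apply hF
    apply MvPolynomial.funext
    intro x
    rw [Subsingleton.elim x c, hc, map_zero]
  rw [he, Submodule.span_empty, Submodule.mem_bot] at hmem
  have h1 := congrFun hmem fun j => Fin.elim0 j
  simp [qv] at h1

/-- The zero estimate. -/
theorem zest : ZEst := by
  intro N D C
  rcases Nat.eq_zero_or_pos N with rfl | hN
  · exact ⟨0, 0, 0, fun F hF _ z _ => ⟨0, fun n _ _ => tizero_zero _ _ _ F hF _⟩⟩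
  obtain ⟨E, Θ, B, h⟩ := approx hN D (C := max C 1) (le_max_right _ _)
  refine ⟨E, ⌈Θ⌉₊, B, fun F hF hD z hz => ?_⟩
  obtain ⟨n₀, h⟩ := h F hF hD z hz
  refine ⟨n₀, fun n hn hs => ?_⟩
  have hΘ : ∀ i k, ⌈Θ⌉₊ * n i ≤ n k → Θ * n i ≤ n k := by
    intro i k hik
    have h1 : ((⌈Θ⌉₊ * n i : ℕ) : ℝ) ≤ n k := by exact_mod_cast hik
    rw [Nat.cast_mul] at h1
    exact (mul_le_mul_of_nonneg_right (Nat.le_ceil Θ) (Nat.cast_nonneg _)).trans h1
  obtain ⟨ρ, s₀, Cc, hρ, hs₀, h⟩ := h n hn fun i k => by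
    rcases hs i k with h1 | h1 | h1
    · exact Or.inl (by rw [h1])
    · exact Or.inr (Or.inl (hΘ _ _ h1))
    · exact Or.inr (Or.inr (hΘ _ _ h1))
  choose! P hP1 hP2 using h
  intro hmem
  have key : ∀ v ∈ Submodule.span ℂ {v | ∃ (c : Fin N → ℂ) (D : Fin N → Polynomial ℂ),
      MvPolynomial.eval c F = 0 ∧ (∀ j, (D j).degree < ((C * n j : ℕ) : WithBot ℕ)) ∧
        v = rowv n E c D},
      ∃ K : ℝ, ∀ s : ℝ, 0 < s → s ≤ s₀ → ‖∑ b : Bx n E, P s (tizero_ex b) * v b‖ ≤ K * √s := by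
    intro v hv
    induction hv using Submodule.span_induction with
    | mem v hv =>
      obtain ⟨c, D, hc, hD, rfl⟩ := hv
      have hD' : ∀ j, (D j).degree < ((max C 1 * n j : ℕ) : WithBot ℕ) := fun j =>
        (hD j).trans_le (by exact_mod_cast Nat.mul_le_mul_right _ (le_max_left _ _))
      refine ⟨∑ k ∈ Fintype.piFinset fun j => range (max C 1 * n j),
        ‖∏ j, (D j).coeff (k j)‖ * Cc c, fun s h1 h2 => ?_⟩
      have e1 : ∑ b : Bx n E, P s (tizero_ex b) * rowv n E c D b =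
          ∑ k ∈ Fintype.piFinset fun j => range (max C 1 * n j), (∏ j, (D j).coeff (k j)) *
            ∑ b : Bx n E, P s (tizero_ex b) * ∏ j, PL.row (c j) (Polynomial.X ^ k j)
              (tizero_ex b (Sum.inr j)) (tizero_ex b (Sum.inl j)) := by
        simp only [Finset.mul_sum]
        rw [Finset.sum_comm]
        refine Finset.sum_congr rfl fun b _ => ?_
        have e2 := prod_row_eq (fun j => max C 1 * n j) D hD' c (fun j => (b j).1) fun j => (b j).2
        rw [rowv, e2, Finset.mul_sum]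
        refine Finset.sum_congr rfl fun k _ => ?_
        exact mul_left_comm _ _ _
      rw [e1, Finset.sum_mul]
      refine (norm_sum_le _ _).trans (Finset.sum_le_sum fun k hk => ?_)
      rw [norm_mul, mul_assoc]
      refine mul_le_mul_of_nonneg_left ?_ (norm_nonneg _)
      have h3 := hP2 s h1 h2 c hc k fun j => mem_range.1 (Fintype.mem_piFinset.1 hk j)
      rwa [tizero_sum] at h3
    | zero => exact ⟨0, fun s _ _ => by simp⟩
    | add v w _ _ hv hw =>
      obtain ⟨K, hK⟩ := hv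
      obtain ⟨K', hK'⟩ := hw
      refine ⟨K + K', fun s h1 h2 => ?_⟩
      simp only [Pi.add_apply, mul_add, Finset.sum_add_distrib, add_mul]
      exact (norm_add_le _ _).trans (add_le_add (hK s h1 h2) (hK' s h1 h2))
    | smul a v _ hv =>
      obtain ⟨K, hK⟩ := hv
      refine ⟨‖a‖ * K, fun s h1 h2 => ?_⟩
      have e1 : ∑ b : Bx n E, P s (tizero_ex b) * (a • v) b =
          a * ∑ b : Bx n E, P s (tizero_ex b) * v b := by
        rw [Finset.mul_sum]
        refine Finset.sum_congr rfl fun b _ => ?_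
        rw [Pi.smul_apply, smul_eq_mul, mul_left_comm]
      rw [e1, norm_mul, mul_assoc]
      exact mul_le_mul_of_nonneg_left (hK s h1 h2) (norm_nonneg _)
  obtain ⟨K, hK⟩ := key _ hmem
  refine tizero_small hρ hs₀ (K := K) fun s h1 h2 => ?_
  have h3 := hP1 s h1 h2
  rw [tizero_sum] at h3
  exact h3.trans (hK s h1 h2)

end Pool.Agent.Lib.MP_1f047c_nt.TI
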