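import Pool.Agent.Lib.MP_1f047c_nt.ThElim
import Pool.Agent.Lib.MP_1f047c_nt.TIAMain
import Pool.Agent.Lib.MP_1f047c_nt.TIZero

/-! The set of exceptional levels is thin. -/

open Finset Submodule MvPolynomial Filter

namespace Pool.Agent.Lib.MP_1f047c_nt.Th

lemma exists_enum {β : Type} (U : Finset β) (hU : U.Nonempty) {n : ℕ} (h : U.card ≤ n) :
    ∃ f : Fin n → β, (∀ i, f i ∈ U) ∧ ∀ q ∈ U, ∃ i, f i = q := by
  obtain ⟨e⟩ := Function.Embedding.nonempty_of_card_le (α := U) (β := Fin n) (by simpa)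
  have := hU.to_subtype
  exact ⟨fun i => (Function.invFun e i).1, fun i => (Function.invFun e i).2, fun q hq =>
    ⟨e ⟨q, hq⟩, by simp only [Function.leftInverse_invFun e.injective ⟨q, hq⟩]⟩⟩

lemma exists_indep {𝕜 ι : Type} [Field 𝕜] [CharZero 𝕜] [Fintype ι] (d : ι → 𝕜) {n : ℕ}
    (h : n ≤ Module.finrank ℚ (span ℚ (Set.range d))) : ∃ u : Fin n → ι,
      ∀ m : Fin n → ℤ, ∑ j, (m j : 𝕜) * d (u j) = 0 → m = 0 := by
  obtain ⟨κ, a, ha, hsp, hli⟩ := exists_linearIndependent' ℚ d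
  have : Fintype κ := Fintype.ofInjective a ha
  obtain ⟨e⟩ := Function.Embedding.nonempty_of_card_le (α := Fin n) (β := κ)
    (by rwa [Fintype.card_fin, ← finrank_span_eq_card hli, hsp])
  refine ⟨a ∘ e, fun m hm => funext fun j => ?_⟩
  have := Fintype.linearIndependent_iff.1 (hli.comp e e.injective) (fun j => (m j : ℚ))
    (by simpa [Rat.smul_def] using hm) j
  exact_mod_cast this

/-- `x` is the image of an element of height at most `b` of a number field of degree at most `d`. -/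
def Alg {𝕜 : Type} [Field 𝕜] (d : ℕ) (b : ℝ) (x : 𝕜) : Prop :=
  ∃ (K : Type) (_ : Field K) (_ : NumberField K) (φ : K →+* 𝕜) (α : K),
    Module.finrank ℚ K ≤ d ∧ x = φ α ∧ Height.logHeight₁ α ≤ b

lemma Alg.mono {𝕜 : Type} [Field 𝕜] {d d' : ℕ} {b b' : ℝ} {x : 𝕜} (h : Alg d b x) (hd : d ≤ d')
    (hb : b ≤ b') : Alg d' b' x := by
  obtain ⟨K, _, _, φ, α, h1, h2, h3⟩ := h
  exact ⟨K, _, ‹_›, φ, α, h1.trans hd, h2, h3.trans hb⟩

lemma compositum {𝕜 ι : Type} [Field 𝕜] [CharZero 𝕜] [Fintype ι] {d : ℕ} {b : ℝ} (x : ι → 𝕜)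
    (h : ∀ i, Alg d b (x i)) : ∃ (L : IntermediateField ℚ 𝕜) (_ : NumberField L) (β : ι → L),
      Module.finrank ℚ L ≤ d ^ Fintype.card ι ∧
        ∀ i, x i = β i ∧ Height.logHeight₁ (β i) ≤ (d ^ Fintype.card ι : ℕ) * b := by
  classical
  choose K _ _ φ α h1 h2 h3 using h
  have H : ∀ s : Finset ι, ∃ L : IntermediateField ℚ 𝕜, FiniteDimensional ℚ L ∧
      Module.finrank ℚ L ≤ d ^ s.card ∧ ∀ i ∈ s, ∀ z, φ i z ∈ L := fun s => by
    induction s using Finset.induction_on with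
    | empty => exact ⟨⊥, inferInstance, by simp, by simp⟩
    | insert i s hi ih =>
      obtain ⟨L, _, k1, k2⟩ := ih
      have e := (φ i).toRatAlgHom.equivFieldRange.toLinearEquiv
      have := e.finiteDimensional
      refine ⟨(φ i).toRatAlgHom.fieldRange ⊔ L, inferInstance,
        (IntermediateField.finrank_sup_le _ _).trans ?_, fun j hj z => ?_⟩
      · rw [card_insert_of_notMem hi, pow_succ', ← e.finrank_eq]
        exact Nat.mul_le_mul (h1 i) k1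
      · rcases mem_insert.1 hj with rfl | hj
        · exact (le_sup_left (b := L)) (AlgHom.mem_fieldRange.2 ⟨z, rfl⟩)
        · exact (le_sup_right (a := (φ i).toRatAlgHom.fieldRange)) (k2 j hj z)
  obtain ⟨L, _, k1, k2⟩ := H univ
  have hL : NumberField L := NumberField.of_module_finite ℚ L
  refine ⟨L, hL, fun i => ⟨φ i (α i), k2 i (mem_univ i) _⟩, k1, fun i => ⟨h2 i, ?_⟩⟩
  let _ : Algebra (K i) L := ((φ i).codRestrict L (k2 i (mem_univ i))).toAlgebra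
  have k3 : Module.finrank (K i) L ≤ d ^ Fintype.card ι := by
    refine le_trans ?_ k1
    rw [← Module.finrank_mul_finrank ℚ (K i) L]
    exact Nat.le_mul_of_pos_left _ Module.finrank_pos
  exact (TA.logHeight_ext (L := L) (α i)).trans
    (mul_le_mul (by exact_mod_cast k3) (h3 i) (by positivity) (by positivity))

variable {𝕜 : Type} [NormedField 𝕜] [CompleteSpace 𝕜] [CharZero 𝕜]

/-- Logarithms in `Sm b` of algebraic numbers of degree at most `d` and height at most `b`. -/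
def Adm (Sm : ℝ → Set 𝕜) (d : ℕ) (b : ℝ) : Set 𝕜 := {z | Alg d b (NormedSpace.exp z) ∧ z ∈ Sm b}

/-- The properties of the size conditions that are used. -/
structure Fam (Sm : ℝ → Set 𝕜) (Dm : AddSubgroup 𝕜) : Prop where
  dom : ∀ b, ∀ z ∈ Sm b, z ∈ Dm
  diff : ∀ z ∈ Dm, ∀ z' ∈ Dm, NormedSpace.exp (z - z') = NormedSpace.exp z / NormedSpace.exp z'
  mono : Monotone Sm
  cov : ∀ (d : ℕ) (A κ : ℝ), 0 < κ → ∃ γ : ℝ, 0 < γ ∧ ∀ᶠ y : ℕ in atTop,
    ∃ (β : Type) (T : Finset β) (cell : 𝕜 → β), (T.card : ℝ) ≤ (y : ℝ) ^ κ ∧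
      (∀ z ∈ Adm Sm d (A * Real.log y), cell z ∈ T) ∧ ∀ z ∈ Adm Sm d (A * Real.log y),
        ∀ z' ∈ Adm Sm d (A * Real.log y), cell z = cell z' → ‖z - z'‖ ≤ (y : ℝ) ^ (-γ)

/-- Some logarithm that is new at the level `p` is related to other logarithms. -/
def Bad [DecidableEq 𝕜] (U : ℕ → Submodule ℚ 𝕜) (Sm : ℝ → Set 𝕜) (m y p : ℕ) : Prop :=
  ∃ (μ : 𝕜) (B : Finset 𝕜) (O : Finset ℕ),
    (μ ∉ U p ⊔ span ℚ (B : Set 𝕜) ∧ B.card ≤ m ∧ Rel m (B : Set 𝕜) μ) ∧ O.card ≤ m ∧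
    ∀ z ∈ insert μ B, z ∈ Adm Sm m (m * Real.log y) ∧ ∀ q, p < q → q ∉ O → z ∈ U q

variable {Sm : ℝ → Set 𝕜} {Dm : AddSubgroup 𝕜}

omit [CompleteSpace 𝕜] [CharZero 𝕜] in
lemma Fam.sub (hA : Fam Sm Dm) {d d' : ℕ} {b b' : ℝ} (hd : d ≤ d') (hb : b ≤ b') :
    Adm Sm d b ⊆ Adm Sm d' b' := fun _ h => ⟨h.1.mono hd hb, hA.mono hb h.2⟩

theorem count [DecidableEq 𝕜] (hN : TA.Nice 𝕜) (hA : Fam Sm Dm) (U : ℕ → Submodule ℚ 𝕜) (m : ℕ)
    {ε : ℝ} (hε : 0 < ε) : ∀ᶠ y : ℕ in atTop, ∀ X : Finset ℕ, (∀ p ∈ X, Bad U Sm m y p) →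
      (X.card : ℝ) ≤ (y : ℝ) ^ ε := by
  classical
  obtain ⟨γ, hγ, hc⟩ := hA.cov m m (ε / 2 / (m + 1 : ℕ)) (by positivity)
  obtain ⟨J, hJ⟩ : ∃ J, J = m + 2 := ⟨_, rfl⟩
  obtain ⟨D, hD⟩ : ∃ D : ℕ → ℕ, ∀ r, m ^ Fintype.card (Fin (r + 1) ⊕ Fin (r + 1)) = D r :=
    ⟨_, fun _ => rfl⟩
  choose c hc' using fun r => TI.allN TI.zest (r + 1)
    ((r + 1) * ((m * (m + 1) ^ (J * m)) ^ J * (r + 1) ^ r)) (γ / (4 * (D r * m + 1)))
    (by positivity)
  obtain ⟨c0, hc0⟩ : ∃ c0 : ℝ, ∀ r ≤ J * m, |c r| * D r ≤ c0 :=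
    ⟨∑ r ∈ range (J * m + 1), |c r| * D r, fun r hr =>
      single_le_sum (f := fun r => |c r| * D r) (fun _ _ => by positivity)
        (mem_range.2 (Nat.lt_succ_of_le hr))⟩
  have t1 : Tendsto (fun y : ℕ => γ / 2 * Real.log y) atTop atTop :=
    (Real.tendsto_log_atTop.comp tendsto_natCast_atTop_atTop).const_mul_atTop (by positivity)
  have t2 : Tendsto (fun y : ℕ => (y : ℝ) ^ (ε / 2)) atTop atTop :=
    (tendsto_rpow_atTop (by positivity)).comp tendsto_natCast_atTop_atTop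
  filter_upwards [hc, t1.eventually_ge_atTop c0, t2.eventually_ge_atTop (J * (m + 1) : ℕ),
    eventually_ge_atTop 1] with y ⟨β, T, cell, hT, hcT, hcell⟩ h1 h2 hy X hX
  by_contra hlt
  have hy1 : (1 : ℝ) ≤ y := by exact_mod_cast hy
  choose! μ B O hB hO hBA using hX
  choose! t ht ht' using fun p (hp : p ∈ X) => exists_enum (insert (μ p) (B p))
    (insert_nonempty _ _) (n := m + 1)
    ((card_insert_le _ _).trans (Nat.succ_le_succ (hB p hp).2.1))
  have hI : ∀ p ∈ X, ∀ i, t p i ∈ Adm Sm m (m * Real.log y) := fun p hp i =>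
    (hBA p hp _ (ht p hp i)).1
  obtain ⟨z, -, hz⟩ := exists_lt_card_fiber_of_mul_lt_card_of_maps_to (s := X)
    (t := Fintype.piFinset fun _ : Fin (m + 1) => T) (f := fun p i => cell (t p i))
    (n := J * (m + 1))
    (fun p hp => Fintype.mem_piFinset.2 fun i => hcT _ (hI p hp i)) (by
      have h3 : ((T.card : ℝ)) ^ (m + 1) ≤ (y : ℝ) ^ (ε / 2) := by
        refine (pow_le_pow_left₀ (by positivity) hT _).trans (le_of_eq ?_)
        rw [← Real.rpow_mul_natCast (by positivity), div_mul_cancel₀ _ (by positivity)]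
      have h4 : ((T.card : ℝ)) ^ (m + 1) * (J * (m + 1) : ℕ) < X.card := by
        refine lt_of_le_of_lt ?_ (not_le.1 hlt)
        refine (mul_le_mul h3 h2 (by positivity) (by positivity)).trans (le_of_eq ?_)
        rw [← Real.rpow_add (by positivity), add_halves]
      rw [Fintype.card_piFinset_const]
      exact_mod_cast h4)
  obtain ⟨Z, hZ, hZc, hZO⟩ := select O m J _ (fun p hp => hO p (mem_filter.1 hp).1) hz.le
  have hs : ∀ p ∈ Z, p ∈ X ∧ (fun i => cell (t p i)) = z := fun p hp => mem_filter.1 (hZ hp)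
  obtain ⟨p0, hp0⟩ : Z.Nonempty := card_pos.1 (by omega)
  obtain ⟨r, g1, g2, g3⟩ := tower U m J μ B Z hZc.le (fun p hp => hB p (hs p hp).1)
    fun q hq p hp hqp z hz => (hBA q (hs q hq).1 z hz).2 p hqp (hZO q hq p hp hqp)
  rw [hZc] at g1 g2 g3
  set P := Z.biUnion fun p => insert (μ p) (B p) with hP
  have htP : ∀ p ∈ Z, ∀ i, t p i ∈ V (P : Set 𝕜) := fun p hp i =>
    mem_V (mem_coe.2 (mem_biUnion.2 ⟨p, hp, ht p (hs p hp).1 i⟩))
  let d : Z × Fin (m + 1) → 𝕜 := fun u => t u.1 u.2 - t p0 u.2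
  have g4 : span ℚ (P : Set 𝕜) ≤ span ℚ (Set.range d) ⊔ span ℚ (Set.range (t p0)) := by
    refine span_le.2 fun q hq => ?_
    obtain ⟨p, hp, hq⟩ := mem_biUnion.1 hq
    obtain ⟨i, rfl⟩ := ht' p (hs p hp).1 q hq
    rw [← sub_add_cancel (t p i) (t p0 i)]
    exact add_mem_sup (subset_span ⟨(⟨p, hp⟩, i), rfl⟩) (subset_span ⟨i, rfl⟩)
  have f1 := FiniteDimensional.span_of_finite ℚ (Set.finite_range d)
  have f2 := FiniteDimensional.span_of_finite ℚ (Set.finite_range (t p0))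
  have g5 := (finrank_mono g4).trans (finrank_add_le_finrank_add_finrank _ _)
  have g6 : Module.finrank ℚ (span ℚ (Set.range (t p0))) ≤ m + 1 :=
    (finrank_range_le_card (t p0)).trans (by simp)
  obtain ⟨u, hu⟩ := exists_indep d (n := r + 1) (by omega)
  obtain ⟨G, hG0, hGd, hG⟩ := g1.relation (fun k => d (u k))
    fun k => sub_mem (htP _ (u k).1.2 _) (htP _ hp0 _)
  have a1 := fun k => hI _ (hs _ (u k).1.2).1 (u k).2
  have a2 := fun k => hI _ (hs _ hp0).1 (u k).2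
  obtain ⟨L, _, α, k1, k2⟩ := compositum (Sum.elim (fun k => NormedSpace.exp (t (u k).1 (u k).2))
    fun k => NormedSpace.exp (t p0 (u k).2)) (Sum.rec (fun k => (a1 k).1) fun k => (a2 k).1)
  rw [hD] at k1 k2
  refine hc' r 𝕜 hN L (algebraMap L 𝕜) (fun k => α (Sum.inl k) / α (Sum.inr k)) (fun k => d (u k))
    (fun k => ?_) (fun k => ?_) hu
    (map (algebraMap ℚ L) G) (fun h => hG0 (map_injective _ (algebraMap ℚ L).injective
      (h.trans (map_zero _).symm))) ((Finset.sup_mono (support_map_subset _ _)).trans hGd) ?_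
  · rw [hA.diff _ (hA.dom _ _ (a1 k).2) _ (hA.dom _ _ (a2 k).2), map_div₀]
    exact congrArg₂ _ (k2 (Sum.inl k)).1 (k2 (Sum.inr k)).1
  · refine (hcell _ (a1 k) _ (a2 k)
      (congrFun ((hs _ (u k).1.2).2.trans (hs p0 hp0).2.symm) _)).trans ?_
    have h5 := Real.log_nonneg hy1
    have h6 := Height.logHeight₁_mul_le (α (Sum.inl k)) (α (Sum.inr k))⁻¹
    rw [Height.logHeight₁_inv, ← div_eq_mul_inv] at h6
    have h7 := mul_le_mul_of_nonneg_left (show Height.logHeight₁ (α (Sum.inl k) / α (Sum.inr k)) ≤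
      2 * ((D r * m + 1) * Real.log y) by linarith [(k2 (Sum.inl k)).2, (k2 (Sum.inr k)).2])
      (show 0 ≤ γ / (4 * (D r * m + 1)) by positivity)
    have h8 : γ / (4 * (D r * m + 1)) * (2 * ((D r * m + 1) * Real.log y)) =
        γ / 2 * Real.log y := by
      field_simp
      ring
    have h9 : c r * Module.finrank ℚ L ≤ |c r| * D r :=
      mul_le_mul (le_abs_self _) (by exact_mod_cast k1) (by positivity) (abs_nonneg _)
    rw [Real.rpow_def_of_pos (by positivity), Real.exp_le_exp]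
    linarith [hc0 r g2]
  · rw [eval₂_map, Subsingleton.elim ((algebraMap L 𝕜).comp (algebraMap ℚ L)) (algebraMap ℚ 𝕜)]
    exact hG

theorem thin [DecidableEq 𝕜] (hN : TA.Nice 𝕜) (hA : Fam Sm Dm) (U : ℕ → Submodule ℚ 𝕜) :
    ∃ E : Set ℕ, (∀ ε : ℝ, 0 < ε → ∃ y₀ : ℕ, ∀ y : ℕ, y₀ ≤ y →
        ((E ∩ Set.Iic y).ncard : ℝ) ≤ (y : ℝ) ^ ε) ∧
      ∀ m : ℕ, ∃ c : ℕ, ∀ p ∉ E, c ≤ p → ¬Bad U Sm m p p := by
  classical
  choose y0 hy0 using fun m : ℕ => eventually_atTop.1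
    (count hN hA U m (ε := 1 / (m + 1 : ℝ)) (by positivity))
  let Y : ℕ → ℕ := fun m => m + 1 + ∑ k ∈ range (m + 1), y0 k
  have Y1 : ∀ m, m + 1 ≤ Y m := fun m => Nat.le_add_right _ _
  have Y2 : ∀ m, y0 m ≤ Y m := fun m =>
    (single_le_sum (f := y0) (fun _ _ => Nat.zero_le _) (self_mem_range_succ m)).trans
      (Nat.le_add_left _ _)
  refine ⟨{p | ∃ m, Y m ≤ p ∧ Bad U Sm m p p}, fun ε hε => ?_,
    fun m => ⟨Y m, fun p hp h1 h2 => hp ⟨m, h1, h2⟩⟩⟩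
  obtain ⟨m0, hm0⟩ := exists_nat_one_div_lt hε
  refine ⟨Y m0, fun y h1 => ?_⟩
  have hm : ∀ m, Y m ≤ y → m ≤ Nat.findGreatest (fun m => Y m ≤ y) y := fun m h =>
    Nat.le_findGreatest (m.le_succ.trans ((Y1 m).trans h)) h
  have h2 : Y (Nat.findGreatest (fun m => Y m ≤ y) y) ≤ y :=
    Nat.findGreatest_spec (P := fun m => Y m ≤ y) (m0.le_succ.trans ((Y1 m0).trans h1)) h1
  generalize Nat.findGreatest (fun m => Y m ≤ y) y = m at hm h2
  have h3 : {p | ∃ m, Y m ≤ p ∧ Bad U Sm m p p} ∩ Set.Iic y =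
      ((Iic y).filter fun p => ∃ m, Y m ≤ p ∧ Bad U Sm m p p : Finset ℕ) := by
    ext
    simp [and_comm]
  rw [h3, Set.ncard_coe_finset]
  refine (hy0 m y ((Y2 m).trans h2) _ fun p hp => ?_).trans
    (Real.rpow_le_rpow_of_exponent_le (by exact_mod_cast (by have := Y1 m; omega : 1 ≤ y))
      (le_trans ?_ hm0.le))
  · have h4 := mem_Iic.1 (mem_filter.1 hp).1
    obtain ⟨m', h5, μ, B, O, ⟨k1, k2, k3⟩, k4, k5⟩ := (mem_filter.1 hp).2
    have h8 := hm m' (h5.trans h4)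
    have h9 : (1 : ℝ) ≤ p := by exact_mod_cast (by have := Y1 m'; omega : 1 ≤ p)
    have h10 := hA.sub h8 (show m' * Real.log p ≤ m * Real.log y from
      mul_le_mul (by exact_mod_cast h8) (Real.log_le_log (by linarith) (by exact_mod_cast h4))
        (Real.log_nonneg h9) (by positivity))
    exact ⟨μ, B, O, ⟨k1, k2.trans h8, k3.mono h8 le_rfl⟩, k4.trans h8,
      fun z hz => ⟨h10 (k5 z hz).1, (k5 z hz).2⟩⟩
  · have : (m0 : ℝ) ≤ m := by exact_mod_cast hm m0 h1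
    gcongr

end Pool.Agent.Lib.MP_1f047c_nt.Th
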