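import Mathlib

/-! Elimination with bounded degrees by a growth count. -/

open Finset Submodule

namespace Pool.Agent.Lib.MP_1f047c_nt.Th

variable {R : Type} [CommRing R] [Algebra ℚ R]

/-- The rational span of `1` and `Θ`. -/
def V (Θ : Set R) : Submodule ℚ R := span ℚ (insert 1 Θ)

lemma one_mem_V (Θ : Set R) : (1 : R) ∈ V Θ := subset_span (Set.mem_insert _ _)

lemma mem_V {Θ : Set R} {z : R} (h : z ∈ Θ) : z ∈ V Θ := subset_span (Set.mem_insert_of_mem _ h)

lemma V_mono {Θ Θ' : Set R} (h : Θ ⊆ Θ') : V Θ ≤ V Θ' :=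
  span_mono (Set.insert_subset_insert h)

lemma pow_mono {L : Submodule ℚ R} (h : (1 : R) ∈ L) {a b : ℕ} (hab : a ≤ b) : L ^ a ≤ L ^ b :=
  pow_le_pow_right' (Submodule.one_le.2 h) hab

lemma prod_pow_mem {σ : Type} {L : Submodule ℚ R} (g : σ → R) (hg : ∀ v, g v ∈ L) (β : σ → ℕ)
    (s : Finset σ) : ∏ v ∈ s, g v ^ β v ∈ L ^ (∑ v ∈ s, β v) := by
  classical
  induction s using Finset.induction_on with
  | empty => exact Submodule.one_le.1 (by simp)
  | insert a s ha ih =>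
    rw [prod_insert ha, sum_insert ha, pow_add]
    exact mul_mem_mul (pow_mem_pow _ (hg a) _) ih

lemma aeval_mem {σ : Type} {L : Submodule ℚ R} (h1 : (1 : R) ∈ L) (g : σ → R) (hg : ∀ v, g v ∈ L)
    (F : MvPolynomial σ ℚ) {D : ℕ} (hF : F.totalDegree ≤ D) : MvPolynomial.aeval g F ∈ L ^ D := by
  rw [F.as_sum, map_sum]
  refine sum_mem fun β hβ => ?_
  rw [MvPolynomial.aeval_monomial, ← Algebra.smul_def]
  exact smul_mem _ _ (pow_mono h1 ((MvPolynomial.le_totalDegree hβ).trans hF)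
    (prod_pow_mem g hg β _))

/-- `x` is a root of a nonzero polynomial of degree at most `D` whose coefficients are rational
polynomials of degree at most `D` in the elements of `Θ`. -/
def Rel (D : ℕ) (Θ : Set R) (x : R) : Prop :=
  ∃ P : Polynomial R, P ≠ 0 ∧ P.natDegree ≤ D ∧ (∀ e, P.coeff e ∈ V Θ ^ D) ∧ P.eval x = 0

lemma Rel.mono {D D' : ℕ} {Θ Θ' : Set R} {x : R} (h : Rel D Θ x) (hD : D ≤ D') (hΘ : Θ ⊆ Θ') :
    Rel D' Θ' x := by
  obtain ⟨P, h0, h1, h2, h3⟩ := h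
  exact ⟨P, h0, h1.trans hD,
    fun e => pow_mono (one_mem_V _) hD (pow_le_pow_left' (V_mono hΘ) _ (h2 e)), h3⟩

lemma Rel.normal {D : ℕ} {Θ : Set R} {x : R} (h : Rel D Θ x) : ∃ a : R, a ≠ 0 ∧ a ∈ V Θ ^ D ∧
    ∃ b : ℕ → R, (∀ e, b e ∈ V Θ ^ D) ∧ a * x ^ D = ∑ e ∈ range D, b e * x ^ e := by
  obtain ⟨P, h0, h1, h2, h3⟩ := h
  set Q := P * Polynomial.X ^ (D - P.natDegree) with hQ
  have hc : ∀ e, Q.coeff e ∈ V Θ ^ D := fun e => by
    rw [hQ, Polynomial.coeff_mul_X_pow']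
    split_ifs
    · exact h2 _
    · exact zero_mem _
  have hd : Q.natDegree < D + 1 := by
    have := Polynomial.natDegree_mul_le (p := P) (q := Polynomial.X ^ (D - P.natDegree))
    have h4 := Polynomial.natDegree_X_pow_le (R := R) (D - P.natDegree)
    rw [← hQ] at this
    omega
  have he : Q.eval x = 0 := by simp [hQ, h3]
  rw [Polynomial.eval_eq_sum_range' hd, sum_range_succ] at he
  refine ⟨Q.coeff D, ?_, hc D, fun e => -Q.coeff e, fun e => neg_mem (hc e), ?_⟩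
  · rw [hQ, Polynomial.coeff_mul_X_pow', if_pos (Nat.sub_le _ _), Nat.sub_sub_self h1]
    exact Polynomial.leadingCoeff_ne_zero.2 h0
  · simp only [neg_mul, sum_neg_distrib]
    exact eq_neg_of_add_eq_zero_right he

section Growth

open Pointwise

variable {𝕜 : Type} [Field 𝕜] [CharZero 𝕜]

lemma V_insert (z : 𝕜) (Θ : Set 𝕜) : V (insert z Θ) = span ℚ {z} ⊔ V Θ := by
  rw [V, V, Set.insert_comm, span_insert]

/-- The span of the powers with exponent less than `D`. -/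
def Pw (x : 𝕜) (D : ℕ) : Submodule ℚ 𝕜 := span ℚ ((fun e => x ^ e) '' (range D : Finset ℕ))

lemma mem_Pw (x : 𝕜) {e D : ℕ} (h : e < D) : x ^ e ∈ Pw x D :=
  subset_span ⟨e, by simpa using h, rfl⟩

lemma Pw_le {x : 𝕜} {D : ℕ} {c : 𝕜} {U : Submodule ℚ 𝕜} (h : ∀ e < D, c * x ^ e ∈ U) :
    span ℚ {c} * Pw x D ≤ U := by
  rw [Pw, span_mul_span, span_le]
  rintro _ ⟨_, rfl, _, ⟨e, he, rfl⟩, rfl⟩
  exact h e (by simpa using he)

/-- The polynomials of degree `n` in `Θ` form a space of dimension at most `C (n + 1) ^ r`. -/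
def Gr (Θ : Set 𝕜) (C r : ℕ) : Prop :=
  ∀ n : ℕ, ∃ s : Finset 𝕜, s.card ≤ C * (n + 1) ^ r ∧ V Θ ^ n ≤ span ℚ s

lemma Gr.empty : Gr (∅ : Set 𝕜) 1 0 := fun n =>
  ⟨{1}, by simp, by simp [V, ← Submodule.one_eq_span]⟩

lemma Gr.mono {Θ : Set 𝕜} {C C' r : ℕ} (h : Gr Θ C r) (hC : C ≤ C') : Gr Θ C' r := fun n =>
  (h n).imp fun _ hs => ⟨hs.1.trans (Nat.mul_le_mul_right _ hC), hs.2⟩

lemma span_mul_Pw {U : Submodule ℚ 𝕜} {s : Finset 𝕜} (h : U ≤ span ℚ s) (x : 𝕜) (D : ℕ) :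
    ∃ t : Finset 𝕜, t.card ≤ s.card * D ∧ U * Pw x D ≤ span ℚ t := by
  classical
  refine ⟨s * (range D).image fun e => x ^ e, card_mul_le.trans
    (Nat.mul_le_mul_left _ (card_image_le.trans (card_range D).le)), ?_⟩
  rw [coe_mul, ← span_mul_span, coe_image]
  exact mul_le_mul_left h _

lemma Gr.free {Θ : Set 𝕜} {C r : ℕ} (h : Gr Θ C r) (z : 𝕜) : Gr (insert z Θ) C (r + 1) := by
  have H : ∀ n, V (insert z Θ) ^ n ≤ V Θ ^ n * Pw z (n + 1) := fun n => by
    induction n with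
    | zero => simpa using mem_Pw z Nat.one_pos
    | succ n ih =>
      rw [pow_succ']
      refine (mul_le_mul_right ih _).trans ?_
      rw [V_insert, Submodule.sup_mul, sup_le_iff, mul_left_comm, ← mul_assoc (V Θ), ← pow_succ']
      refine ⟨mul_le_mul' (pow_mono (one_mem_V _) n.le_succ) (Pw_le fun e he => ?_),
        mul_le_mul_right (span_mono (Set.image_mono ?_)) _⟩
      · rw [← pow_succ']
        exact mem_Pw z (by omega)
      · exact coe_subset.2 (range_mono (by omega))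
  intro n
  obtain ⟨s, h1, h2⟩ := h n
  obtain ⟨t, h3, h4⟩ := span_mul_Pw h2 z (n + 1)
  refine ⟨t, h3.trans ?_, (H n).trans h4⟩
  rw [pow_succ, ← mul_assoc]
  exact Nat.mul_le_mul_right _ h1

lemma Gr.rel {Θ : Set 𝕜} {C r D : ℕ} (h : Gr Θ C r) {x : 𝕜} (hx : Rel D Θ x) :
    Gr (insert x Θ) (D * (D + 1) ^ r * C) r := by
  classical
  obtain ⟨a, ha0, ha, b, hb, hab⟩ := hx.normal
  have h1 := one_mem_V Θ
  have hD : 0 < D := Nat.pos_of_ne_zero fun h => ha0 (by simpa [h] using hab)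
  have S : span ℚ {a} * V (insert x Θ) * Pw x D ≤ V Θ ^ (D + 1) * Pw x D := by
    rw [V_insert, Submodule.mul_sup, Submodule.sup_mul, sup_le_iff, span_mul_span, Set.singleton_mul_singleton]
    refine ⟨Pw_le fun e he => ?_, mul_le_mul_left ?_ _⟩
    · rw [mul_assoc, ← pow_succ']
      rcases (Nat.succ_le_of_lt he).lt_or_eq with h | h
      · exact mul_mem_mul (pow_mono h1 D.le_succ ha) (mem_Pw x h)
      · rw [show e + 1 = D from h, hab]
        exact sum_mem fun e he =>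
          mul_mem_mul (pow_mono h1 D.le_succ (hb e)) (mem_Pw x (mem_range.1 he))
    · rw [pow_succ]
      exact mul_le_mul_left ((span_singleton_le_iff_mem _ _).2 ha) _
  have H : ∀ n, (span ℚ {a} * V (insert x Θ)) ^ n * Pw x D ≤ V Θ ^ (n * (D + 1)) * Pw x D :=
    fun n => by
    induction n with
    | zero => simp
    | succ n ih =>
      rw [pow_succ', mul_assoc]
      refine (mul_le_mul_right ih _).trans ?_
      rw [mul_left_comm, add_one_mul, pow_add, mul_assoc (V Θ ^ _)]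
      exact mul_le_mul_right S _
  intro n
  obtain ⟨s, h2, h3⟩ := h (n * (D + 1))
  obtain ⟨t, h4, h5⟩ := span_mul_Pw h3 x D
  refine ⟨t.image fun z => (a ^ n)⁻¹ * z, card_image_le.trans (h4.trans ?_), fun u hu => ?_⟩
  · have : n * (D + 1) + 1 ≤ (D + 1) * (n + 1) := by nlinarith [Nat.zero_le D]
    calc _ ≤ C * ((D + 1) * (n + 1)) ^ r * D :=
          Nat.mul_le_mul_right _ (h2.trans (Nat.mul_le_mul_left _ (Nat.pow_le_pow_left this r)))
      _ = _ := by
          rw [mul_pow]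
          ring
  · have h6 : a ^ n * u * x ^ 0 ∈ span ℚ (t : Set 𝕜) := by
      refine h5 (H n (mul_mem_mul ?_ (mem_Pw x hD)))
      rw [mul_pow]
      exact mul_mem_mul (pow_mem_pow _ (mem_span_singleton_self a) n) hu
    have h7 := mem_map_of_mem (f := LinearMap.mulLeft ℚ (a ^ n)⁻¹) h6
    rw [map_span, LinearMap.mulLeft_apply, pow_zero, mul_one,
      inv_mul_cancel_left₀ (pow_ne_zero n ha0)] at h7
    rwa [coe_image]

theorem Gr.relation {Θ : Set 𝕜} {C r : ℕ} (h : Gr Θ C r) (μ : Fin (r + 1) → 𝕜)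
    (hμ : ∀ i, μ i ∈ V Θ) : ∃ G : MvPolynomial (Fin (r + 1)) ℚ, G ≠ 0 ∧
      G.totalDegree ≤ (r + 1) * (C * (r + 1) ^ r) ∧ MvPolynomial.aeval μ G = 0 := by
  classical
  obtain ⟨T, hT⟩ : ∃ T, T = C * (r + 1) ^ r := ⟨_, rfl⟩
  rw [← hT]
  let f : (Fin (r + 1) → Fin (T + 1)) → 𝕜 := fun k => ∏ i, μ i ^ (k i : ℕ)
  have hs : ∀ k : Fin (r + 1) → Fin (T + 1), ∑ i, (k i : ℕ) ≤ (r + 1) * T := fun k =>
    (sum_le_card_nsmul _ _ T fun i _ => Nat.le_of_lt_succ (k i).2).trans (by simp)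
  have hf : ¬LinearIndependent ℚ f := fun hli => by
    obtain ⟨s, h1, h2⟩ := h ((r + 1) * T)
    have h3 := linearIndependent_le_span_aux' f hli (s : Set 𝕜) (by
      rintro _ ⟨k, rfl⟩
      exact h2 (pow_mono (one_mem_V _) (hs k) (prod_pow_mem μ hμ _ _)))
    simp only [Fintype.card_fun, Fintype.card_fin, coe_sort_coe, Fintype.card_coe] at h3
    have h4 : (r + 1) * T + 1 ≤ (r + 1) * (T + 1) := by nlinarith [Nat.zero_le r]
    have h5 : C * ((r + 1) * T + 1) ^ r ≤ T * (T + 1) ^ r := by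
      refine (Nat.mul_le_mul_left _ (Nat.pow_le_pow_left h4 r)).trans (le_of_eq ?_)
      rw [mul_pow, ← mul_assoc, ← hT]
    have h6 : 0 < (T + 1) ^ r := by positivity
    rw [pow_succ] at h3
    nlinarith
  obtain ⟨g, hg, k0, hk0⟩ := Fintype.not_linearIndependent_iff.1 hf
  let ex : (Fin (r + 1) → Fin (T + 1)) → (Fin (r + 1) →₀ ℕ) :=
    fun k => Finsupp.equivFunOnFinite.symm fun i => (k i : ℕ)
  have hex : Function.Injective ex := fun k k' h => funext fun i =>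
    Fin.ext (congrFun (Finsupp.equivFunOnFinite.symm.injective h) i)
  refine ⟨∑ k, MvPolynomial.monomial (ex k) (g k), fun h => hk0 ?_, ?_, ?_⟩
  · have := congrArg (MvPolynomial.coeff (ex k0)) h
    simpa [MvPolynomial.coeff_sum, MvPolynomial.coeff_monomial, hex.eq_iff] using this
  · refine MvPolynomial.totalDegree_finsetSum_le fun k _ =>
      (MvPolynomial.totalDegree_monomial_le _ _).trans ?_
    rw [Finsupp.sum_fintype _ _ fun _ => rfl]
    exact hs k
  · rw [← hg, map_sum]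
    refine sum_congr rfl fun k _ => ?_
    rw [MvPolynomial.aeval_monomial, ← Algebra.smul_def,
      Finsupp.prod_fintype _ _ fun _ => pow_zero _]
    rfl

lemma rk_lt [DecidableEq 𝕜] {z : 𝕜} {Θ : Finset 𝕜} (h : z ∉ span ℚ (Θ : Set 𝕜)) :
    Module.finrank ℚ (span ℚ (Θ : Set 𝕜)) <
      Module.finrank ℚ (span ℚ ((insert z Θ : Finset 𝕜) : Set 𝕜)) :=
  finrank_lt_finrank_of_lt (lt_of_le_of_ne (span_mono (coe_subset.2 (subset_insert _ _)))
    fun e => h (e ▸ subset_span (mem_coe.2 (mem_insert_self _ _))))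

lemma Gr.many [DecidableEq 𝕜] {Θ : Finset 𝕜} {C r : ℕ} (h : Gr (Θ : Set 𝕜) C r) (B : Finset 𝕜) :
    ∃ r', Gr ((B ∪ Θ : Finset 𝕜) : Set 𝕜) C r' ∧ r' ≤ r + B.card ∧
      r' + Module.finrank ℚ (span ℚ (Θ : Set 𝕜)) ≤
        r + Module.finrank ℚ (span ℚ ((B ∪ Θ : Finset 𝕜) : Set 𝕜)) := by
  induction B using Finset.induction_on with
  | empty => exact ⟨r, by simpa using h, le_rfl, by rw [empty_union]⟩
  | insert z B hz ih =>
    obtain ⟨r', h1, h2, h3⟩ := ih
    rw [insert_union, card_insert_of_notMem hz]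
    by_cases h4 : z ∈ span ℚ ((B ∪ Θ : Finset 𝕜) : Set 𝕜)
    · refine ⟨r', fun n => ?_, by omega, ?_⟩
      · have h5 : z ∈ V ((B ∪ Θ : Finset 𝕜) : Set 𝕜) := span_mono (Set.subset_insert _ _) h4
        rw [coe_insert, V_insert, sup_eq_right.2 ((span_singleton_le_iff_mem _ _).2 h5)]
        exact h1 n
      · rwa [coe_insert, span_insert_eq_span h4]
    · have := rk_lt h4
      exact ⟨r' + 1, coe_insert z (B ∪ Θ) ▸ h1.free z, by omega, by omega⟩

/-- Each new related element raises the rank but not the growth exponent. -/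
theorem tower [DecidableEq 𝕜] (U : ℕ → Submodule ℚ 𝕜) (m J : ℕ) (μ : ℕ → 𝕜)
    (B : ℕ → Finset 𝕜) (Z : Finset ℕ) (hJ : Z.card ≤ J)
    (h : ∀ p ∈ Z, μ p ∉ U p ⊔ span ℚ (B p : Set 𝕜) ∧ (B p).card ≤ m ∧ Rel m (B p : Set 𝕜) (μ p))
    (hU : ∀ q ∈ Z, ∀ p ∈ Z, q < p → ∀ z ∈ insert (μ q) (B q), z ∈ U p) :
    ∃ r, Gr ((Z.biUnion fun p => insert (μ p) (B p) : Finset 𝕜) : Set 𝕜)
        ((m * (m + 1) ^ (J * m)) ^ Z.card) r ∧ r ≤ Z.card * m ∧
      r + Z.card ≤ Module.finrank ℚ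
        (span ℚ ((Z.biUnion fun p => insert (μ p) (B p) : Finset 𝕜) : Set 𝕜)) := by
  induction Z using Finset.induction_on_max with
  | empty => exact ⟨0, by simpa using Gr.empty, Nat.zero_le _, Nat.zero_le _⟩
  | insert p Z hp ih =>
    have hpZ : p ∉ Z := fun h => lt_irrefl _ (hp p h)
    rw [card_insert_of_notMem hpZ] at hJ ⊢
    obtain ⟨r, h1, h2, h3⟩ := ih (by omega) (fun q hq => h q (mem_insert_of_mem hq))
      fun q hq q' hq' => hU q (mem_insert_of_mem hq) q' (mem_insert_of_mem hq')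
    obtain ⟨r', h4, h5, h6⟩ := h1.many (B p)
    obtain ⟨k2, k4, k5⟩ := h p (mem_insert_self _ _)
    have h7 : r' ≤ (Z.card + 1) * m := by
      rw [add_one_mul]
      omega
    have h8 := rk_lt (z := μ p) (Θ := B p ∪ Z.biUnion fun p => insert (μ p) (B p)) fun h0 =>
      k2 (span_le.2 (fun z hz => by
        rcases mem_union.1 hz with hz | hz
        · exact mem_sup_right (subset_span hz)
        · obtain ⟨q, hq, hz⟩ := mem_biUnion.1 hz
          exact mem_sup_left (hU q (mem_insert_of_mem hq) p (mem_insert_self _ _) (hp q hq) z hz))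
        h0)
    rw [biUnion_insert, insert_union]
    refine ⟨r', ?_, h7, by omega⟩
    rw [coe_insert, pow_succ']
    exact (h4.rel (k5.mono le_rfl (coe_subset.2 subset_union_left))).mono
      (Nat.mul_le_mul_right _ (Nat.mul_le_mul_left _ (Nat.pow_le_pow_right m.succ_pos
        (h7.trans (Nat.mul_le_mul_right _ hJ)))))

lemma select (O : ℕ → Finset ℕ) (w J : ℕ) (X : Finset ℕ) (hO : ∀ p ∈ X, (O p).card ≤ w)
    (hX : J * (w + 1) ≤ X.card) :
    ∃ Z ⊆ X, Z.card = J ∧ ∀ q ∈ Z, ∀ p ∈ Z, q < p → p ∉ O q := by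
  induction J generalizing X with
  | zero => exact ⟨∅, empty_subset _, rfl, by simp⟩
  | succ J ih =>
    rw [add_one_mul] at hX
    have hne : X.Nonempty := card_pos.1 (by omega)
    have h0 := X.min'_mem hne
    have h1 := card_erase_add_one h0
    have h2 := card_le_card_sdiff_add_card (s := X.erase (X.min' hne)) (t := O (X.min' hne))
    have h3 := hO _ h0
    obtain ⟨Z, h4, h5, h6⟩ := ih (X.erase (X.min' hne) \ O (X.min' hne))
      (fun p hp => hO p (mem_of_mem_erase (mem_sdiff.1 hp).1)) (by omega)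
    have h7 : Z ⊆ X := fun p hp => mem_of_mem_erase (mem_sdiff.1 (h4 hp)).1
    refine ⟨insert (X.min' hne) Z, insert_subset h0 h7, ?_, fun q hq p hp hqp => ?_⟩
    · rw [card_insert_of_notMem fun h => notMem_erase _ _ (mem_sdiff.1 (h4 h)).1, h5]
    · rcases mem_insert.1 hp with rfl | hp
      · exact absurd (X.min'_le q (insert_subset h0 h7 hq)) hqp.not_ge
      · rcases mem_insert.1 hq with rfl | hq
        · exact (mem_sdiff.1 (h4 hp)).2
        · exact h6 q hq p hp hqp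

end Growth

end Pool.Agent.Lib.MP_1f047c_nt.Th
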