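import Pool.Agent.Lib.MP_1f047c_nt.Variants.ThinComplex

/-! The example of the logarithms of rational primes together with `π i`. -/

open Finset

namespace Pool.Agent.Lib.MP_1f047c_nt.Th

lemma val_nonneg {q m : ℕ} [Fact q.Prime] {β : ℚ} (hβ : β ≠ 0) (hm : ¬q ∣ m)
    (h : IsIntegral ℤ ((m : ℚ) * β)) : 0 ≤ padicValRat q β := by
  obtain ⟨z, hz⟩ := IsIntegrallyClosed.isIntegral_iff.1 h
  have h0 : (m : ℚ) ≠ 0 := Nat.cast_ne_zero.2 fun h => hm (h ▸ dvd_zero q)
  have h1 := padicValRat.mul (p := q) h0 hβ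
  rw [← hz, padicValRat.of_nat, padicValNat.eq_zero_of_not_dvd hm, eq_intCast,
    padicValRat.of_int] at h1
  omega

lemma val_prod {q : ℕ} [Fact q.Prime] {ι : Type} (s : Finset ι) (a : ι → ℚ) (ha : ∀ i, a i ≠ 0)
    (e : ι → ℤ) : padicValRat q (∏ i ∈ s, a i ^ e i) = ∑ i ∈ s, e i * padicValRat q (a i) := by
  classical
  induction s using Finset.induction_on with
  | empty => simp
  | insert i s hi ih =>
    rw [prod_insert hi, sum_insert hi, padicValRat.mul (zpow_ne_zero _ (ha i))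
      (prod_ne_zero_iff.2 fun j _ => zpow_ne_zero _ (ha j)), ih, padicValRat.zpow]

theorem primes_example : ∃ E : Set ℕ,
    (∀ ε : ℝ, 0 < ε → ∃ y₀ : ℕ, ∀ y : ℕ, y₀ ≤ y → ((E ∩ Set.Iic y).ncard : ℝ) ≤ (y : ℝ) ^ ε) ∧
    ∀ n N : ℕ, ∃ c : ℕ, ∀ p : Fin N → ℕ, StrictMono p → (∀ k, (p k).Prime) →
      ∀ r : ℕ, (∀ k : Fin N, r ≤ (k : ℕ) → p k ∉ E ∧ c ≤ p k) →
      ∀ (T : Matrix (Fin n) (Fin n) ℚ) (B : Fin N → Matrix (Fin n) (Fin n) ℚ),
        (r = 0 ∨ ∃ x : Fin N → ℚ, (∀ k : Fin N, (k : ℕ) < r → x k = 0) ∧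
          n ≤ (∑ k, x k • B k).rank + 1) →
      ∀ M : Matrix (Fin n) (Fin n) ℂ, (∀ i j, M i j = (T i j : ℂ) * (Real.pi * Complex.I) +
        ∑ k, (B k i j : ℂ) * (Real.log (p k) : ℂ)) → M.det = 0 →
      ∃ w v : Fin n → ℚ, w ≠ 0 ∧ v ≠ 0 ∧ ∑ i, ∑ j, (w i : ℂ) * M i j * (v j : ℂ) = 0 := by
  obtain ⟨E, h1, h2⟩ := Pool.Agent.Results.MP_1f047c_nt.ThinComplex.result
  refine ⟨E, h1, fun n N => (h2 n (N + 1) 1 5).imp fun c hc p hp hq r hr T B hB M hM => ?_⟩
  have h0 : ∀ k, (0 : ℝ) < p k := fun k => by exact_mod_cast (hq k).pos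
  refine hc ℚ (Rat.castHom ℂ) (by simp) (Fin.cons (-1) fun k => p k)
    (Fin.cons (Real.pi * Complex.I) fun k => (Real.log (p k) : ℂ)) (fun k => ?_) (r + 1)
    (fun k hk => ?_) (Fin.cons T B) ?_ M fun i j => by simp [hM, Fin.sum_univ_succ]
  · refine Fin.cases (by simp) (fun k => ?_) k
    rw [Fin.cons_succ, Fin.cons_succ, ← Complex.ofReal_exp, Real.exp_log (h0 k)]
    simp
  · obtain ⟨k, rfl⟩ := Fin.exists_succ_eq.2 (show k ≠ 0 from fun h => by simp [h] at hk)
    have := Fact.mk (hq k)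
    have h3 : Real.log 2 ≤ Real.log (p k) :=
      Real.log_le_log two_pos (by exact_mod_cast (hq k).two_le)
    have h4 := Real.log_two_gt_d9
    refine ⟨p k, hq k, (hr k (by simpa using hk)).1, (hr k (by simpa using hk)).2,
      fun j => ?_, fun e m he hm l1 l2 => ?_⟩
    refine Fin.cases (fun _ => ?_) (fun j hj => ?_) j
    · simp only [Fin.cons_zero, Height.logHeight₁_neg, Height.logHeight₁_one, norm_mul,
        Complex.norm_real, Complex.norm_I, mul_one, Real.norm_of_nonneg Real.pi_pos.le]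
      constructor <;> linarith [Real.pi_lt_d2]
    · have := NeZero.mk (hq j).ne_zero
      have h5 := Real.log_le_log (h0 j) (Nat.cast_le.2 (hp.monotone (Fin.succ_le_succ_iff.1 hj)))
      rw [Fin.cons_succ, Fin.cons_succ, Rat.logHeight₁_natCast, Complex.norm_real,
        Real.norm_of_nonneg (Real.log_natCast_nonneg _)]
      constructor <;> linarith
    · have ha : ∀ j, (Fin.cons (-1) fun k => p k : Fin (N + 1) → ℚ) j ≠ 0 := fun j =>
        Fin.cases (by simp) (fun j => by simpa using (hq j).ne_zero) j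
      have hb := prod_ne_zero_iff.2 fun j (_ : j ∈ univ) => zpow_ne_zero (e j) (ha j)
      have h5 := val_nonneg hb hm l1
      have h6 := val_nonneg (inv_ne_zero hb) hm l2
      rw [padicValRat.inv] at h6
      rw [val_prod _ _ ha, sum_eq_single k.succ (fun j _ hj => ?_) (by simp), Fin.cons_succ,
        padicValRat.self (hq k).one_lt] at h5 h6
      · omega
      all_goals
        refine Fin.cases (fun _ => by simp) (fun j hj => ?_) j hj
        have := Fact.mk (hq j)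
        rw [Fin.cons_succ, padicValRat.of_nat, padicValNat_primes fun h =>
          hj (congrArg Fin.succ (hp.injective h).symm), Nat.cast_zero, mul_zero]
  · rcases hB with rfl | ⟨x, h3, h4⟩
    · exact Or.inl le_rfl
    · refine Or.inr ⟨Fin.cons 0 x, fun k => Fin.cases (fun _ => rfl)
        (fun k hk => h3 k (by simpa using hk)) k, ?_⟩
      simpa [Fin.sum_univ_succ] using h4

end Pool.Agent.Lib.MP_1f047c_nt.Th
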