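import Pool.Agent.Lib.MP_1f047c_nt.ThCov
import Pool.Agent.Lib.MP_1f047c_nt.ThInd

/-! The levels given by the rational primes; the matrix form. -/

open Finset Submodule

namespace Pool.Agent.Lib.MP_1f047c_nt.Th

/-- `x` and its inverse become integral after multiplication by an integer prime to `q`. -/
def QU {R : Type} [Field R] (q : ℕ) (x : R) : Prop :=
  ∃ m : ℕ, ¬q ∣ m ∧ IsIntegral ℤ (m * x) ∧ IsIntegral ℤ (m * x⁻¹)

lemma QU.mul {R : Type} [Field R] {q : ℕ} (hq : q.Prime) {x y : R} (hx : QU q x) (hy : QU q y) :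
    QU q (x * y) := by
  obtain ⟨m, h1, h2, h3⟩ := hx
  obtain ⟨m', h4, h5, h6⟩ := hy
  refine ⟨m * m', fun h => (hq.dvd_mul.1 h).elim h1 h4, ?_, ?_⟩
  · rw [Nat.cast_mul, mul_mul_mul_comm]
    exact h2.mul h5
  · rw [Nat.cast_mul, mul_inv, mul_mul_mul_comm]
    exact h3.mul h6

lemma QU.inv {R : Type} [Field R] {q : ℕ} {x : R} (hx : QU q x) : QU q x⁻¹ :=
  hx.imp fun _ h => ⟨h.1, h.2.2, (inv_inv x).symm ▸ h.2.1⟩

lemma QU.map_iff {R S : Type} [Field R] [Field S] (φ : R →+* S) {q : ℕ} {x : R} :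
    QU q (φ x) ↔ QU q x := by
  refine exists_congr fun m => and_congr_right fun _ => ?_
  rw [← isIntegral_algHom_iff φ.toIntAlgHom φ.injective (x := m * x),
    ← isIntegral_algHom_iff φ.toIntAlgHom φ.injective (x := m * x⁻¹)]
  simp

lemma exists_zsmul_mem {𝕜 : Type} [Field 𝕜] [CharZero 𝕜] (G : AddSubgroup 𝕜) {S : Set 𝕜}
    (h : ∀ z ∈ S, z ∈ G) {w : 𝕜} (hw : w ∈ span ℚ S) : ∃ m : ℤ, m ≠ 0 ∧ m • w ∈ G := by
  induction hw using span_induction with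
  | mem z hz => exact ⟨1, one_ne_zero, by simpa using h z hz⟩
  | zero => exact ⟨1, one_ne_zero, by simp⟩
  | add u v _ _ hu hv =>
    obtain ⟨m, h1, h2⟩ := hu
    obtain ⟨m', h3, h4⟩ := hv
    refine ⟨m * m', mul_ne_zero h1 h3, ?_⟩
    rw [smul_add, mul_smul m m' v, mul_comm, mul_smul]
    exact add_mem (G.zsmul_mem h2 _) (G.zsmul_mem h4 _)
  | smul c u _ hu =>
    obtain ⟨m, h1, h2⟩ := hu
    refine ⟨c.den * m, mul_ne_zero (by exact_mod_cast c.den_ne_zero) h1, ?_⟩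
    convert G.zsmul_mem h2 c.num using 1
    simp only [zsmul_eq_mul, Rat.smul_def, Int.cast_mul, Int.cast_natCast]
    rw [← Rat.cast_intCast (α := 𝕜) c.num, ← Rat.den_mul_eq_num, Rat.cast_mul, Rat.cast_natCast]
    ring

lemma few_primes {R : Type} [Field R] {d a p : ℕ} (hp : 2 ≤ p) {x : R}
    (h : Alg d (a * Real.log p) x) :
    ∃ O : Finset ℕ, O.card ≤ 2 * a ∧ ∀ q, p < q → q ∉ O → q.Prime → QU q x := by
  obtain ⟨K, _, _, φ, α, -, rfl, h1⟩ := h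
  obtain ⟨n, h2, h3, h4⟩ := NumberField.exists_nat_le_mulHeight₁ α
  obtain ⟨n', h5, h6, h7⟩ := NumberField.exists_nat_le_mulHeight₁ α⁻¹
  have h8 : Height.mulHeight₁ α ≤ (p ^ a : ℕ) := by
    rw [Height.logHeight₁_eq_log_mulHeight₁, ← Real.log_pow,
      Real.log_le_log_iff (by positivity) (by positivity)] at h1
    exact_mod_cast h1
  rw [Height.mulHeight₁_inv] at h6
  have h9 : n ≤ p ^ a := by exact_mod_cast h3.trans h8
  have h10 : n' ≤ p ^ a := by exact_mod_cast h6.trans h8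
  refine ⟨(n * n').primeFactors.filter (p < ·), (Nat.pow_le_pow_iff_right hp).1 ?_,
    fun q h11 h12 hq => (QU.map_iff φ).2 ⟨n * n', fun h => h12 (mem_filter.2
      ⟨Nat.mem_primeFactors.2 ⟨hq, h, mul_ne_zero h2 h5⟩, h11⟩), ?_, ?_⟩⟩
  · calc _ ≤ ∏ q ∈ (n * n').primeFactors.filter (p < ·), q :=
          pow_card_le_prod _ _ _ fun q hq => (mem_filter.1 hq).2.le
      _ ≤ n * n' := Nat.le_of_dvd (Nat.pos_of_ne_zero (mul_ne_zero h2 h5))
          ((prod_dvd_prod_of_subset _ _ _ (filter_subset _ _)).trans (Nat.prod_primeFactors_dvd _))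
      _ ≤ _ := by
          rw [two_mul, pow_add]
          exact Nat.mul_le_mul h9 h10
  · rw [mul_comm n, Nat.cast_mul, mul_assoc]
    exact (isIntegral_natCast n').mul h4
  · rw [Nat.cast_mul, mul_assoc]
    exact (isIntegral_natCast n).mul h7

variable {𝕜 : Type} [NormedField 𝕜] [CompleteSpace 𝕜] [CharZero 𝕜] {Sm : ℝ → Set 𝕜}
  {Dm : AddSubgroup 𝕜}

/-- The span of the logarithms of the units at `q`. -/
def Uq (Dm : AddSubgroup 𝕜) (q : ℕ) : Submodule ℚ 𝕜 :=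
  span ℚ {z | z ∈ Dm ∧ (q.Prime → QU q (NormedSpace.exp z))}

omit [CompleteSpace 𝕜] in
lemma new_level (hA : Fam Sm Dm) {q N : ℕ} (hq : q.Prime) {lam : Fin N → 𝕜} {k : Fin N}
    (hl : ∀ j ≤ k, lam j ∈ Dm) (h : lam k ∈ Uq Dm q ⊔ span ℚ (lam '' Set.Iio k)) :
    ∃ e : Fin N → ℤ, (∀ j, k < j → e j = 0) ∧ QU q (∏ j, NormedSpace.exp (lam j) ^ e j) ∧
      e k ≠ 0 := by
  have e0 : ∀ z ∈ Dm, NormedSpace.exp z ≠ 0 := fun z hz h0 => by
    simpa [h0] using hA.diff z hz z hz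
  have e1 : ∀ z ∈ Dm, NormedSpace.exp (-z) = (NormedSpace.exp z)⁻¹ := fun z hz => by
    simpa using hA.diff 0 Dm.zero_mem z hz
  let ex : Multiplicative Dm →* 𝕜 :=
    { toFun := fun z => NormedSpace.exp (z.toAdd : 𝕜)
      map_one' := by simp
      map_mul' := fun z z' => by
        have := hA.diff _ z.toAdd.2 _ (Dm.neg_mem z'.toAdd.2)
        rwa [sub_neg_eq_add, e1 _ z'.toAdd.2, div_inv_eq_mul] at this }
  let G : AddSubgroup 𝕜 :=
    { carrier := {z | z ∈ Dm ∧ ∃ e : Fin N → ℤ, (∀ j, k ≤ j → e j = 0) ∧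
        QU q (NormedSpace.exp z * ∏ j, NormedSpace.exp (lam j) ^ e j)}
      add_mem' := fun {z z'} ⟨h1, e, h2, h3⟩ ⟨h4, e', h5, h6⟩ =>
        ⟨Dm.add_mem h1 h4, e + e', fun j hj => by simp [h2 j hj, h5 j hj], by
          convert h3.mul hq h6 using 1
          rw [mul_mul_mul_comm, ← prod_mul_distrib]
          refine congrArg₂ _ (ex.map_mul (.ofAdd ⟨z, h1⟩) (.ofAdd ⟨z', h4⟩))
            (prod_congr rfl fun j _ => ?_)
          rcases le_total j k with hj | hj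
          · exact zpow_add₀ (e0 _ (hl j hj)) _ _
          · simp [h2 j hj, h5 j hj]⟩
      zero_mem' := ⟨Dm.zero_mem, 0, fun _ _ => rfl, 1, hq.not_dvd_one, by
        simpa using isIntegral_one, by simpa using isIntegral_one⟩
      neg_mem' := fun {z} ⟨h1, e, h2, h3⟩ => ⟨Dm.neg_mem h1, -e, fun j hj => by simp [h2 j hj], by
        simpa [e1 z h1, mul_comm] using h3.inv⟩ }
  rw [Uq, ← span_union] at h
  obtain ⟨m, h1, -, e, h2, h3⟩ := exists_zsmul_mem G (by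
    rintro z (⟨h1, h2⟩ | ⟨j, hj, rfl⟩)
    · exact ⟨h1, 0, fun _ _ => rfl, by simpa using h2 hq⟩
    · refine ⟨hl j (le_of_lt hj), Pi.single j (-1), fun i hi =>
        Pi.single_eq_of_ne (lt_of_lt_of_le hj hi).ne' _, ?_⟩
      rw [prod_eq_single j (fun i _ hi => by simp [hi]) (by simp), Pi.single_eq_same, zpow_neg_one,
        mul_inv_cancel₀ (e0 _ (hl j (le_of_lt hj)))]
      exact ⟨1, hq.not_dvd_one, by simpa using isIntegral_one, by simpa using isIntegral_one⟩) h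
  refine ⟨Function.update e k m, fun j hj => by
    rw [Function.update_of_ne hj.ne', h2 j hj.le], ?_, by simpa using h1⟩
  convert h3 using 1
  rw [← mul_prod_erase univ _ (mem_univ k), ← mul_prod_erase univ _ (mem_univ k), h2 k le_rfl,
    zpow_zero, one_mul, Function.update_self]
  refine congrArg₂ _ (map_zpow ex (.ofAdd ⟨lam k, hl k le_rfl⟩) m).symm
    (prod_congr rfl fun j hj => by rw [Function.update_of_ne (ne_of_mem_erase hj)])

theorem thin_rel (hN : TA.Nice 𝕜) (hA : Fam Sm Dm) :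
    ∃ E : Set ℕ, (∀ ε : ℝ, 0 < ε → ∃ y₀ : ℕ, ∀ y : ℕ, y₀ ≤ y →
        ((E ∩ Set.Iic y).ncard : ℝ) ≤ (y : ℝ) ^ ε) ∧
      ∀ (n N d : ℕ) (A : ℝ), ∃ c : ℕ, ∀ (K : Type) [Field K] [NumberField K] (φ : K →+* 𝕜),
        Module.finrank ℚ K ≤ d → ∀ (α : Fin N → K) (lam : Fin N → 𝕜),
        (∀ k, NormedSpace.exp (lam k) = φ (α k)) → ∀ (k : Fin N) (q : ℕ), q.Prime → q ∉ E → c ≤ q →
          (∀ j ≤ k, Height.logHeight₁ (α j) ≤ A * Real.log q ∧ lam j ∈ Sm (A * Real.log q)) →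
          (∀ e : Fin N → ℤ, (∀ j, k < j → e j = 0) → QU q (∏ j, α j ^ e j) → e k = 0) →
          ¬Rel n (lam '' Set.Iio k) (lam k) := by
  classical
  obtain ⟨E, h1, h2⟩ := thin hN hA (Uq Dm)
  refine ⟨E, h1, fun n N d A => ?_⟩
  obtain ⟨m, hm⟩ : ∃ m, m = n + N + d + ⌈A⌉₊ + N * (2 * ⌈A⌉₊) := ⟨_, rfl⟩
  obtain ⟨c, hc⟩ := h2 m
  refine ⟨c, fun K _ _ φ hd α lam he k q hq k1 k2 k3 k4 hR => ?_⟩
  have h3 : ∀ j ≤ k, lam j ∈ Adm Sm d (⌈A⌉₊ * Real.log q) := fun j hj => hA.sub le_rfl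
    (mul_le_mul_of_nonneg_right (Nat.le_ceil A) (Real.log_natCast_nonneg q))
      ⟨⟨K, _, ‹_›, φ, α j, hd, he j, (k3 j hj).1⟩, (k3 j hj).2⟩
  choose! O hO hO' using fun j (hj : j ≤ k) => few_primes hq.two_le (h3 j hj).1
  have h4 : (Iio k).card ≤ N ∧ (Iic k).card ≤ N :=
    ⟨(card_le_univ _).trans (by simp), (card_le_univ _).trans (by simp)⟩
  refine hc q k1 k2 ⟨lam k, (Iio k).image lam, (Iic k).biUnion O, ⟨fun h => ?_,
    card_image_le.trans (by omega), ?_⟩, (card_biUnion_le_card_mul _ _ _ fun j hj =>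
      hO j (mem_Iic.1 hj)).trans ((Nat.mul_le_mul_right _ h4.2).trans (by omega)), fun z hz => ?_⟩
  · rw [coe_image, coe_Iio] at h
    obtain ⟨e, h5, h6, h7⟩ := new_level hA hq (fun j hj => hA.dom _ _ (k3 j hj).2) h
    refine h7 (k4 e h5 ((QU.map_iff φ).1 ?_))
    simpa only [map_prod, map_zpow₀, he] using h6
  · rw [coe_image, coe_Iio]
    exact hR.mono (by omega) le_rfl
  · rw [← image_insert, Iio_insert] at hz
    obtain ⟨j, hj, rfl⟩ := mem_image.1 hz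
    exact ⟨hA.sub (by omega) (mul_le_mul_of_nonneg_right (by exact_mod_cast (by omega))
      (Real.log_natCast_nonneg q)) (h3 j (mem_Iic.1 hj)), fun q' h5 h6 => subset_span
        ⟨hA.dom _ _ (k3 j (mem_Iic.1 hj)).2,
          hO' j (mem_Iic.1 hj) q' h5 fun h => h6 (mem_biUnion.2 ⟨j, hj, h⟩)⟩⟩

end Pool.Agent.Lib.MP_1f047c_nt.Th
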